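import Pool.Agent.Helper25.KG.C3d

set_option autoImplicit false

/-!
# Class data for the checker with three coefficients
-/

noncomputable section

namespace Helper25.KG

open Helper11.CT

def dK (ds : ℤ) : Cls where
  nI := 8
  ds := ds
  P := [0, 0, 0, 0, 1]
  D := [0, 0, 0, 0, 0, 0, 0, 0, 1]
  A := [0, 1]
  B := [0, 0, 1]
  C := [0, 0, 0, 1]
  J := [0, 0, 0, 0, 0, 1]
  gI := [[0, 0, 0, 0, 0, 0, 0, 0, 1], [0, 0, 0, 0, 0, 1], [0, 0, 0, 0, 0, 0, 0, 0, 0, 1]]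
  gX := [[], [0, 0, -1, 0, 0, Int.neg ds], [0, 0, 0, 0, 0, 0, 1]]
  gR := [[], [0, 0, 1, 1], [0, 0, 0, 0, 0, 0, 0, 1]]
  known := [[1], [0, 1], [1, 1], [-1, 1]]
  kf := []

def dE (ds : ℤ) (row : List ℤ) : Cls where
  nI := 9
  ds := ds
  P := [0, 0, 0, 0, 1]
  D := [0, 0, 0, 0, 0, 0, 0, 0, 0, 1]
  A := [0, 1]
  B := [0, 0, 1]
  C := [0, 0, 0, 1]
  J := [0, 0, 0, 0, 0, 1]
  gI := [[0, 0, 0, 0, 0, 0, 0, 0, 0, 1], [0, 0, 0, 0, 0, 1], [0, 0, 0, 0, 0, 0, 0, 0, 0, 0, 1], [0, 0, 0, 0, 0, 0, 0, 0, 0, 0, 1], [0, 0, 0, 0, 0, 0, 0, 0, 0, 0, 0, 1]]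
  gX := [[], [0, 0, -1, 0, 0, Int.neg ds], [0, 0, 0, 0, 0, 0, 1], [0, 0, 0, 0, 0, 0, 1], [0, 0, 0, 0, 0, 0, 0, 0, 1]]
  gR := [[], [0, 0, 1, 1], [0, 0, 0, 0, 0, 0, 0, 1], [0, 0, 0, 0, 0, 0, 0, 1], row]
  known := [[1], [0, 1], [1, 1], [-1, 1], [0, 0, 0, 1]]
  kf := []

def dU (ds : ℤ) (tok : Bool) : Cls where
  nI := 9
  ds := ds
  P := [0, 0, 0, 0, 1]
  D := [0, 0, 0, 0, 0, 0, 0, 0, 0, 1]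
  A := [0, 1]
  B := [0, 0, 1]
  C := [0, 0, 0, 1]
  J := [0, 0, 0, 0, 0, 1]
  gI := [[0, 0, 0, 0, 0, 0, 0, 0, 0, 1], [0, 0, 0, 0, 0, 1], [0, 0, 0, 0, 0, 0, 0, 0, 0, 0, 1], [0, 0, 0, 0, 0, 0, 0, 0, 0, 0, 0, 1]]
  gX := [[], [0, 0, -1, 0, 0, Int.neg ds], [0, 0, 0, 0, 0, 0, 1], match tok with | true => [0, 0, 1] | false => []]
  gR := [[], [0, 0, 1, 1], [0, 0, 0, 0, 0, 0, 0, 1], [0, 0, 0, 0, 0, 0, 0, 0, 1]]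
  known := [1] :: [0, 1] :: [1, 1] :: [-1, 1] :: [0, 0, 1] ::
    (match tok with | true => [] | false => [[0, 0, 2]])
  kf := []

def dUE (ds : ℤ) (tok : Bool) (row : List ℤ) : Cls where
  nI := 10
  ds := ds
  P := [0, 0, 0, 0, 1]
  D := [0, 0, 0, 0, 0, 0, 0, 0, 0, 0, 1]
  A := [0, 1]
  B := [0, 0, 1]
  C := [0, 0, 0, 1]
  J := [0, 0, 0, 0, 0, 1]
  gI := [[0, 0, 0, 0, 0, 0, 0, 0, 0, 0, 1], [0, 0, 0, 0, 0, 1], [0, 0, 0, 0, 0, 0, 0, 0, 0, 0, 0, 1], [0, 0, 0, 0, 0, 0, 0, 0, 0, 0, 0, 0, 1], [0, 0, 0, 0, 0, 0, 0, 0, 0, 0, 0, 0, 0, 1]]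
  gX := [[], [0, 0, -1, 0, 0, Int.neg ds], [0, 0, 0, 0, 0, 0, 1], match tok with | true => [0, 0, 1] | false => [], [0, 0, 0, 0, 0, 0, 0, 0, 0, 1]]
  gR := [[], [0, 0, 1, 1], [0, 0, 0, 0, 0, 0, 0, 1], [0, 0, 0, 0, 0, 0, 0, 0, 1], row]
  known := [1] :: [0, 1] :: [1, 1] :: [-1, 1] :: [0, 0, 1] :: [0, 0, 0, 1] ::
    (match tok with | true => [] | false => [[0, 0, 2]])
  kf := []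

def dW (ds : ℤ) : Cls where
  nI := 8
  ds := ds
  P := [0, 0, 0, 0, 0, 0, 0, 2]
  D := [0, 0, 0, 0, 0, 0, 0, 0, 0, 2]
  A := [0, 1]
  B := [0, 0, 1]
  C := [0, 0, 0, 1]
  J := [0, 0, 0, 0, 1]
  gI := [[0, 0, 0, 0, 0, 0, 0, 0, 0, 2], [0, 0, 0, 0, 1], [0, 0, 0, 0, 0, 0, 0, 0, 1], [0, 0, 0, 0, 0, 0, 0, 0, 0, 1]]
  gX := [[], [0, 0, -1, 0, Int.neg ds], [0, 0, 0, 0, 0, 1], []]
  gR := [[], [0, 0, 1, 1], [0, 0, 0, 0, 0, 0, 1], [0, 0, 0, 0, 0, 0, 0, 1]]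
  known := [[1], [0, 1], [1, 1], [-1, 1], [0, 0, 1]]
  kf := []

def dWE (ds : ℤ) (row : List ℤ) : Cls where
  nI := 9
  ds := ds
  P := [0, 0, 0, 0, 0, 0, 0, 2]
  D := [0, 0, 0, 0, 0, 0, 0, 0, 0, 0, 2]
  A := [0, 1]
  B := [0, 0, 1]
  C := [0, 0, 0, 1]
  J := [0, 0, 0, 0, 1]
  gI := [[0, 0, 0, 0, 0, 0, 0, 0, 0, 0, 2], [0, 0, 0, 0, 1], [0, 0, 0, 0, 0, 0, 0, 0, 0, 1], [0, 0, 0, 0, 0, 0, 0, 0, 0, 0, 1], [0, 0, 0, 0, 0, 0, 0, 0, 0, 0, 0, 1]]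
  gX := [[], [0, 0, -1, 0, Int.neg ds], [0, 0, 0, 0, 0, 1], [], [0, 0, 0, 0, 0, 0, 0, 0, 1]]
  gR := [[], [0, 0, 1, 1], [0, 0, 0, 0, 0, 0, 1], [0, 0, 0, 0, 0, 0, 0, 1], row]
  known := [[1], [0, 1], [1, 1], [-1, 1], [0, 0, 1], [0, 0, 0, 1]]
  kf := []

def dEE (ds : ℤ) (rwu rwe : List ℤ) : Cls where
  nI := 10
  ds := ds
  P := [0, 0, 0, 0, 1]
  D := [0, 0, 0, 0, 0, 0, 0, 0, 0, 0, 1]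
  A := [0, 1]
  B := [0, 0, 1]
  C := [0, 0, 0, 1]
  J := [0, 0, 0, 0, 0, 1]
  gI := [[0, 0, 0, 0, 0, 0, 0, 0, 0, 0, 1], [0, 0, 0, 0, 0, 1], [0, 0, 0, 0, 0, 0, 0, 0, 0, 0, 0, 1], [0, 0, 0, 0, 0, 0, 0, 0, 0, 0, 0, 0, 1], [0, 0, 0, 0, 0, 0, 0, 0, 0, 0, 0, 0, 0, 1]]
  gX := [[], [0, 0, -1, 0, 0, Int.neg ds], [0, 0, 0, 0, 0, 0, 1], [0, 0, 0, 0, 0, 0, 0, 0, 1], [0, 0, 0, 0, 0, 0, 0, 0, 0, 1]]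
  gR := [[], [0, 0, 1, 1], [0, 0, 0, 0, 0, 0, 0, 1], rwu, rwe]
  known := [[1], [0, 1], [1, 1], [-1, 1], [0, 0, 1], [0, 0, 0, 1]]
  kf := []

def dR (ds : ℤ) : Cls where
  nI := 10
  ds := ds
  P := [0, 0, 0, 0, 1]
  D := [0, 0, 0, 0, 0, 0, 0, 0, 0, 0, 1]
  A := [0, 1]
  B := [0, 0, 1]
  C := [0, 0, 0, 1]
  J := [0, 0, 0, 0, 0, 1]
  gI := [[0, 0, 0, 0, 0, 0, 0, 0, 0, 0, 1], [0, 0, 0, 0, 0, 1], [0, 0, 0, 0, 0, 0, 0, 0, 0, 0, 0, 1], [0, 0, 0, 0, 0, 0, 0, 0, 0, 0, 0, 1], [0, 0, 0, 0, 0, 0, 0, 0, 0, 0, 0, 0, 1]]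
  gX := [[], [0, 0, -1, 0, 0, Int.neg ds], [0, 0, 0, 0, 0, 0, 1], [0, 0, 0, 0, 0, 0, 1], [0, 0, 0, 0, 0, 0, 0, 0, 1]]
  gR := [[], [0, 0, 1, 1], [0, 0, 0, 0, 0, 0, 0, 1], [0, 0, 0, 0, 0, 0, 0, 1], [0, 0, 0, 0, 0, 0, 0, 0, 0, 1]]
  known := [[1], [0, 1], [1, 1], [-1, 1], [0, 0, 0, 1]]
  kf := []

end Helper25.KG
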