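import Pool.Agent.Helper25.KG.C3d
import Pool.Agent.Helper25.KG.Cfg3

set_option autoImplicit false

/-!
# The tree checker with `K` forms for one or two known elements: definitions
-/

noncomputable section

namespace Helper25.KG

open Helper11.CT

/-- conditions on the vector of a `K` leaf; `3`: different from `k`; `4`: different from `k`
and `w`, for every `τ` -/
def kcd (K : Cls) (Q : List Con) (r : KL) : ℕ → Bool
  | 0 => true
  | 1 => izero (tau r.n) || nzc K Q (dsub r.n [0, 0, 1]) r.zk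
  | 2 => izero (tau r.n) || (nzc K Q (dsub r.n [0, 0, 1]) r.zk &&
      nzc K Q (axpy 1 [0, 0, 1] r.n) r.zk2)
  | 3 => nzc K Q (dsub r.n [0, 0, 1]) r.zk
  | _ => nzc K Q (dsub r.n [0, 0, 1]) r.zk && nzc K Q (dsub r.n [0, 0, 0, 0, 1]) r.zk2

def klc4 (K : Cls) (kf : List KF3) (Q : List Con) (r : KL) : Bool :=
  exc K Q r.n r.en r.zn && nzc K Q (dsub r.n dL) r.zl && nzc K Q (axpy 1 dL r.n) r.zp &&
  (match kf.drop r.ty with
    | [] => false
    | (fl, gs) :: _ => kcd K Q r fl &&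
      kgoals3 Q (axpy r.q1 K.P (fx K r.n)) (axpy r.q2 K.P (axpy 1 (fR K r.n) (fx K r.n)))
        (fI K r.n) gs r.c)

def chk4 (K : Cls) (kf : List KF3) : Tre → List Con → Bool
  | .I e L R, Q => isI K e && chk4 K kf L ((true, e) :: Q) &&
      chk4 K kf R ((true, axpy (-1) e [1]) :: Q)
  | .Q e j L R, Q => juc K Q e j && chk4 K kf L ((false, e) :: Q) &&
      chk4 K kf R ((false, axpy (-1) e []) :: Q)
  | .C c, Q => comb c Q [] (Int.ofNat 0) false
  | .N v m c1 c2 z, Q => nzc K Q v z &&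
      cert Q c1 (axpy (Int.neg m) K.P (axpy 1 (fR K v) [1])) &&
      cert Q c2 (axpy m K.P (axpy (-1) (fR K v) [1]))
  | .K r, Q => klc4 K kf Q r
  | .R r, Q => rlc K Q r
  | .S r, Q => slc K Q r

theorem chk4_I {K : Cls} {kf : List KF3} {e e' : List ℤ} {L R : Tre} {Q : List Con}
    (h1 : isI K e = true) (he : axpy (-1) e [1] = e')
    (h2 : chk4 K kf L ((true, e) :: Q) = true) (h3 : chk4 K kf R ((true, e') :: Q) = true) :
    chk4 K kf (.I e L R) Q = true := by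
  subst he
  simp only [chk4, h1, h2, h3, Bool.and_self]

theorem chk4_Q {K : Cls} {kf : List KF3} {e e' : List ℤ} {j : Ju} {L R : Tre} {Q : List Con}
    (h1 : juc K Q e j = true) (he : axpy (-1) e [] = e')
    (h2 : chk4 K kf L ((false, e) :: Q) = true)
    (h3 : chk4 K kf R ((false, e') :: Q) = true) : chk4 K kf (.Q e j L R) Q = true := by
  subst he
  simp only [chk4, h1, h2, h3, Bool.and_self]

/-- trees with holes -/
inductive Clo4 (K : Cls) (kf : List KF3) (H : List Con → Prop) : List Con → Prop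
  | t {Q : List Con} (T : Tre) (h : chk4 K kf T Q = true) : Clo4 K kf H Q
  | i {Q : List Con} (e : List ℤ) {e' : List ℤ} (h : isI K e = true) (he : axpy (-1) e [1] = e')
      (hl : Clo4 K kf H ((true, e) :: Q)) (hr : Clo4 K kf H ((true, e') :: Q)) : Clo4 K kf H Q
  | q {Q : List Con} (e : List ℤ) {e' : List ℤ} (j : Ju) (h : juc K Q e j = true)
      (he : axpy (-1) e [] = e')
      (hl : Clo4 K kf H ((false, e) :: Q)) (hr : Clo4 K kf H ((false, e') :: Q)) :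
      Clo4 K kf H Q
  | w {Q : List Con} (e : List ℤ) {e' : List ℤ} (he : axpy (-1) e [1] = e')
      (hl : Clo4 K kf H ((false, e) :: Q)) (hr : Clo4 K kf H ((true, e') :: Q)) : Clo4 K kf H Q
  | h {Q : List Con} (h : H Q) : Clo4 K kf H Q

/-- variables `1 a b c p J X r rw Xw | D i iw` -/
def dV (ds : ℤ) : Cls where
  nI := 10
  ds := ds
  P := [0, 0, 0, 0, 1]
  D := [0, 0, 0, 0, 0, 0, 0, 0, 0, 0, 1]
  A := [0, 1]
  B := [0, 0, 1]
  C := [0, 0, 0, 1]
  J := [0, 0, 0, 0, 0, 1]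
  gI := [[0, 0, 0, 0, 0, 0, 0, 0, 0, 0, 1], [0, 0, 0, 0, 0, 1], [0, 0, 0, 0, 0, 0, 0, 0, 0, 0, 0, 1], [0, 0, 0, 0, 0, 0, 0, 0, 0, 0, 0, 1], [0, 0, 0, 0, 0, 0, 0, 0, 0, 0, 0, 0, 1]]
  gX := [[], [0, 0, -1, 0, 0, Int.neg ds], [0, 0, 0, 0, 0, 0, 1], [0, 0, 0, 0, 0, 0, 1], [0, 0, 0, 0, 0, 0, 0, 0, 0, 1]]
  gR := [[], [0, 0, 1, 1], [0, 0, 0, 0, 0, 0, 0, 1], [0, 0, 0, 0, 0, 0, 0, 1], [0, 0, 0, 0, 0, 0, 0, 0, 1]]
  known := [[1], [0, 1], [1, 1], [-1, 1], [0, 0, 0, 1], [1, 0, 0, 1], [-1, 0, 0, 1], [0, 1, 0, -1]]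
  kf := []

end Helper25.KG
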