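import Pool.Agent.Helper25.KG.S1
import Pool.Agent.Helper25.KW.K11D

set_option autoImplicit false
set_option linter.unusedSectionVars false
set_option linter.unusedSimpArgs false

/-!
# Class data of the trees of `S1`, `p + l ≤ q`

The generators are `p, l, k, u, w`; without `u` the slot is a copy of `k`.
-/

noncomputable section

namespace Helper25.KG

open Helper25.KW Helper55.KE Helper11.CT

/-- the `K` forms of `Y`: no element with smaller `y = b + ds x` -/
def kfY (ds : ℤ) (Z : List ℤ) : List (ℕ × List (ℤ × ℤ × List ℤ)) :=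
  [(1, [(Int.neg ds, 0, axpy ds Z []), (ds, 0, [0, 0, 1]), (0, -1, [0, 1]), (0, 1, [0, 1])])]

/-- the `K` forms of `W`: all elements have `y > D`, no element with smaller `w = a + ds s` -/
def kfW (ds : ℤ) (S Df : List ℤ) : List (ℕ × List (ℤ × ℤ × List ℤ)) :=
  [(0, [(ds, 0, [0, 0, 1]), (Int.neg ds, 0, [0, 0, 1]), (Int.neg ds, 0, axpy 1 Df [0, 0, -1]),
      (0, -1, [0, 1]), (0, 1, [0, 1])]),
   (1, [(0, Int.neg ds, axpy ds S []), (0, ds, [0, 1]), (-1, 0, [0, 0, 1]), (1, 0, [0, 0, 1])])]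

/-- a cluster different from `0, l, p - l, p` -/
structure KCl (p l : ℤ) (Cl : ℤ → ℤ → ℤ → ℤ → ℝ → Prop) (N X R : ℤ) (I : ℝ) : Prop where
  cl : Cl N 0 X R I
  N0 : 0 < N
  Np : N < p
  nl : N ≠ l
  npl : N + l ≠ p

section

variable {p a b c J ds l q : ℤ} {D dl : ℝ} {Cl : ℤ → ℤ → ℤ → ℤ → ℝ → Prop}

theorem KCl.of {N X R : ℤ} {I : ℝ} (h : KGF p a b ds D (P1 l p) Cl N X R I) :
    KCl p l Cl N X R I :=
  ⟨h.cl, h.N0, h.Np, h.NP.1, h.NP.2⟩

theorem kok_nil {x : List ℝ} (N : ℤ) :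
    ∀ kf ∈ ([] : List (ℕ × List (ℤ × ℤ × List ℤ))), KOk p l Cl ds x N kf :=
  fun _ h => absurd h (by simp)

theorem kok_Y (hds : ds = 1 ∨ ds = -1) {N X R : ℤ} {I : ℝ}
    (hM : KMY p a b ds (P1 l p) Cl N (b + ds * (X + ds * I)))
    (h1 : -(b : ℝ) < X + ds * I) (h2 : X + ds * I < b)
    {x : List ℝ} {Z : List ℤ} (hA : evg x [0, 1] = a) (hB : evg x [0, 0, 1] = b)
    (hZ : evg x Z = X + ds * I) :
    ∀ kf ∈ kfY ds Z, KOk p l Cl ds x N kf := by
  have hn : ((Int.neg ds : ℤ) : ℝ) = -(ds : ℝ) := by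
    show ((-ds : ℤ) : ℝ) = _
    push_cast
    ring
  intro kf hkf
  simp only [kfY, List.mem_cons, List.not_mem_nil, or_false] at hkf
  subst hkf
  intro N' τ' X' R' I' hC ht g1 g2 g3 g4 g5 hg
  simp only [List.forall_mem_cons, List.not_mem_nil, false_imp_iff, implies_true, and_true,
    evg_axpy, evg_nil, hA, hB, hZ, hn] at hg
  push_cast at hg
  obtain ⟨e0, e1, e2, e3⟩ := hg
  have key : Bx a b ds X' R' I' := by
    rcases hds with rfl | rfl
    · push_cast at *
      refine ⟨?_, ?_, ?_, ?_⟩ <;> push_cast <;> linarith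
    · push_cast at *
      refine ⟨?_, ?_, ?_, ?_⟩ <;> push_cast <;> linarith
  have k1 := hM hC ht g1 g2 ⟨g3, g4⟩ (g5.imp_right (fun hh => hh.1 le_rfl)) key
  linarith

theorem kok_W (hds : ds = 1 ∨ ds = -1) {N X R : ℤ} {I : ℝ}
    (hM : KMW p a b ds (P1 l p) Cl N (a + ds * (X + ds * I + R)))
    (hG : KGe p a b ds D (P1 l p) Cl)
    (h1 : -(a : ℝ) < X + ds * I + R) (h2 : X + ds * I + R < a)
    {x : List ℝ} {S Df : List ℤ} (hA : evg x [0, 1] = a) (hB : evg x [0, 0, 1] = b)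
    (hB' : evg x [0, 0, -1] = -b)
    (hS : evg x S = X + ds * I + R) (hD : evg x Df = D) :
    ∀ kf ∈ kfW ds S Df, KOk p l Cl ds x N kf := by
  have hn : ((Int.neg ds : ℤ) : ℝ) = -(ds : ℝ) := by
    show ((-ds : ℤ) : ℝ) = _
    push_cast
    ring
  intro kf hkf
  simp only [kfW, List.mem_cons, List.not_mem_nil, or_false] at hkf
  rcases hkf with rfl | rfl
  · intro N' τ' X' R' I' hC ht g1 g2 g3 g4 g5 hg
    simp only [List.forall_mem_cons, List.not_mem_nil, false_imp_iff, implies_true, and_true,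
      evg_axpy, evg_nil, hA, hB, hB', hD, hn] at hg
    push_cast at hg
    obtain ⟨e0, e1, e2, e3, e4⟩ := hg
    have key : Bx a b ds X' R' I' := by
      rcases hds with rfl | rfl
      · push_cast at *
        refine ⟨?_, ?_, ?_, ?_⟩ <;> push_cast <;> linarith
      · push_cast at *
        refine ⟨?_, ?_, ?_, ?_⟩ <;> push_cast <;> linarith
    have k1 := hG hC ht g1 g2 ⟨g3, g4⟩ key
    linarith
  · intro N' τ' X' R' I' hC ht g1 g2 g3 g4 g5 hg
    simp only [List.forall_mem_cons, List.not_mem_nil, false_imp_iff, implies_true, and_true,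
      evg_axpy, evg_nil, hA, hB, hS, hn] at hg
    push_cast at hg
    obtain ⟨e0, e1, e2, e3⟩ := hg
    have key : Bx a b ds X' R' I' := by
      rcases hds with rfl | rfl
      · push_cast at *
        refine ⟨?_, ?_, ?_, ?_⟩ <;> push_cast <;> linarith
      · push_cast at *
        refine ⟨?_, ?_, ?_, ?_⟩ <;> push_cast <;> linarith
    have k1 := hM hC ht g1 g2 ⟨g3, g4⟩ (g5.imp_right (fun hh => hh.1 le_rfl)) key
    linarith

/-- variables `1 a b c p J X r | D i` -/
def cK (ds : ℤ) (kf : List (ℕ × List (ℤ × ℤ × List ℤ))) : Cls where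
  nI := 8
  ds := ds
  P := [0, 0, 0, 0, 1]
  D := [0, 0, 0, 0, 0, 0, 0, 0, 1]
  A := [0, 1]
  B := [0, 0, 1]
  C := [0, 0, 0, 1]
  J := [0, 0, 0, 0, 0, 1]
  gI := [[0, 0, 0, 0, 0, 0, 0, 0, 1], [0, 0, 0, 0, 0, 1], [0, 0, 0, 0, 0, 0, 0, 0, 0, 1]]
  gX := [[], [0, 0, -1, 0, 0, Int.neg ds], [0, 0, 0, 0, 0, 0, 1]]
  gR := [[], [0, 0, 1, 1], [0, 0, 0, 0, 0, 0, 0, 1]]
  known := [[1], [0, 1], [1, 1], [-1, 1]]
  kf := kf

theorem val_K (W : Base p a b c J ds l q D dl Cl) {N X R : ℤ} {I : ℝ}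
    (hk : KCl p l Cl N X R I)
    (kf : List (ℕ × List (ℤ × ℤ × List ℤ))) :
    Val (cK ds kf) p a b c J ds l q D dl Cl [1, a, b, c, p, J, X, R] [D, I] [N] := by
  have hn : Int.neg ds = -ds := rfl
  have hl := W.hl
  have hlp := W.hlp
  have k1 := hk.N0
  have k2 := hk.Np
  have k3 := hk.nl
  have k4 := hk.npl
  refine Val.mk W ⟨_, rfl⟩ rfl rfl ?_ rfl ?_ rfl ?_ rfl ?_ rfl ?_ rfl ?_ ?_ ?_
  · simp [cK]
  · simp [cK]
  · simp [cK]
  · simp [cK]
  · simp [cK]
  · simp [cK]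
  · have g1 := W.cp
    have g2 := W.cl
    have g3 := hk.cl
    have e1 : -b - ds * J = -b + -(ds * J) := by ring
    rw [e1] at g2
    simp only [cK, GOk, List.length_cons, List.length_nil, List.replicate_succ,
      List.replicate_zero, evg_cons, evg_nil, List.map_cons, List.map_nil,
      List.cons_append, List.nil_append, hn]
    refine ⟨⟨?_, ?_, ?_⟩, ⟨?_, ?_, ?_⟩, ⟨?_, ?_, ?_⟩, trivial⟩ <;>
      simp only [Int.cast_zero, Int.cast_one, zero_mul, one_mul, mul_one, zero_add, add_zero,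
        Int.cast_neg, neg_mul, Int.cast_add, Int.cast_mul, Int.cast_id, add_comm c b] <;>
      first | exact g1 | (rw [add_comm c b] at g2; exact g2) | exact g3
  · intro w hw
    simp only [cK, List.mem_cons, List.not_mem_nil, or_false] at hw
    rcases hw with rfl | rfl | rfl | rfl
    · simp only [evg_cons, evg_nil]
      simp only [Int.cast_zero, Int.cast_one, Int.cast_neg, Int.cast_ofNat, one_mul, neg_mul, zero_mul, zero_add, add_zero]
      exact nd_pos (by omega) hlp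
    · simp only [evg_cons, evg_nil]
      simp only [Int.cast_zero, Int.cast_one, Int.cast_neg, Int.cast_ofNat, one_mul, neg_mul, zero_mul, zero_add, add_zero]
      exact nd_pos k1 k2
    · simp only [evg_cons, evg_nil]
      simp only [Int.cast_zero, Int.cast_one, Int.cast_neg, Int.cast_ofNat, one_mul, neg_mul, zero_mul, zero_add, add_zero]
      intro h
      have h2 : p ∣ l + N - p := dvd_sub h (dvd_refl p)
      exact nd_abs (by omega) (by omega) (by omega) h2
    · simp only [evg_cons, evg_nil]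
      simp only [Int.cast_zero, Int.cast_one, Int.cast_neg, Int.cast_ofNat, one_mul, neg_mul, zero_mul, zero_add, add_zero]
      exact nd_abs (by omega) (by omega) (by omega)

/-! ### `e` -/

/-- variables `1 a b c p J X r Xe | D i ie`, row of `e` given by `row` -/
def cE (ds : ℤ) (row : List ℤ) (kf : List (ℕ × List (ℤ × ℤ × List ℤ))) : Cls where
  nI := 9
  ds := ds
  P := [0, 0, 0, 0, 1]
  D := [0, 0, 0, 0, 0, 0, 0, 0, 0, 1]
  A := [0, 1]
  B := [0, 0, 1]
  C := [0, 0, 0, 1]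
  J := [0, 0, 0, 0, 0, 1]
  gI := [[0, 0, 0, 0, 0, 0, 0, 0, 0, 1], [0, 0, 0, 0, 0, 1], [0, 0, 0, 0, 0, 0, 0, 0, 0, 0, 1], [0, 0, 0, 0, 0, 0, 0, 0, 0, 0, 1], [0, 0, 0, 0, 0, 0, 0, 0, 0, 0, 0, 1]]
  gX := [[], [0, 0, -1, 0, 0, Int.neg ds], [0, 0, 0, 0, 0, 0, 1], [0, 0, 0, 0, 0, 0, 1], [0, 0, 0, 0, 0, 0, 0, 0, 1]]
  gR := [[], [0, 0, 1, 1], [0, 0, 0, 0, 0, 0, 0, 1], [0, 0, 0, 0, 0, 0, 0, 1], row]
  known := [[1], [0, 1], [1, 1], [-1, 1], [0, 0, 0, 1]]
  kf := kf

theorem val_E (W : Base p a b c J ds l q D dl Cl) {N X R : ℤ} {I : ℝ}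
    (hk : KCl p l Cl N X R I)
    {r : ℤ} {row : List ℤ} {Ne Xe : ℤ} {Ie : ℝ}
    (he : EFac p ds D Cl r Ne Xe Ie)
    (hr : evg [1, a, b, c, p, J, X, R, Xe] row = r)
    (hr2 : evg [1, (a : ℝ), (b : ℝ), (c : ℝ), (p : ℝ), (J : ℝ), (X : ℝ), (R : ℝ), (Xe : ℝ), D, I, Ie] row = (evg [1, a, b, c, p, J, X, R, Xe] row : ℤ))
    (kf : List (ℕ × List (ℤ × ℤ × List ℤ))) :
    Val (cE ds row kf) p a b c J ds l q D dl Cl [1, a, b, c, p, J, X, R, Xe] [D, I, Ie] [N, N, Ne] := by
  have hn : Int.neg ds = -ds := rfl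
  have hl := W.hl
  have hlp := W.hlp
  have k1 := hk.N0
  have k2 := hk.Np
  have k3 := hk.nl
  have k4 := hk.npl
  have e1 := he.N0
  have e2 := he.Np
  refine Val.mk W ⟨_, rfl⟩ rfl rfl ?_ rfl ?_ rfl ?_ rfl ?_ rfl ?_ rfl ?_ ?_ ?_
  · simp [cE]
  · simp [cE]
  · simp [cE]
  · simp [cE]
  · simp [cE]
  · simp [cE]
  · have g1 := W.cp
    have g2 := W.cl
    have g3 := hk.cl
    have g4 := he.cl
    rw [← hr] at g4
    have e1 : -b - ds * J = -b + -(ds * J) := by ring
    rw [e1] at g2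
    simp only [cE, GOk, List.length_cons, List.length_nil, List.replicate_succ,
      List.replicate_zero, evg_cons, evg_nil, List.map_cons, List.map_nil,
      List.cons_append, List.nil_append, hn]
    refine ⟨⟨?_, ?_, ?_⟩, ⟨?_, ?_, ?_⟩, ⟨?_, ?_, ?_⟩, ⟨?_, ?_, ?_⟩, ⟨?_, ?_, ?_⟩, trivial⟩ <;>
      simp only [Int.cast_zero, Int.cast_one, zero_mul, one_mul, mul_one, zero_add, add_zero,
        Int.cast_neg, neg_mul, Int.cast_add, Int.cast_mul, Int.cast_id, add_comm c b] <;>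
      first | exact g1 | (rw [add_comm c b] at g2; exact g2) | exact g3 | exact g4 | exact hr2
  · intro w hw
    simp only [cE, List.mem_cons, List.not_mem_nil, or_false] at hw
    rcases hw with rfl | rfl | rfl | rfl | rfl
    · simp only [evg_cons, evg_nil]
      simp only [Int.cast_zero, Int.cast_one, Int.cast_neg, Int.cast_ofNat, one_mul, neg_mul, zero_mul, zero_add, add_zero]
      exact nd_pos (by omega) hlp
    · simp only [evg_cons, evg_nil]
      simp only [Int.cast_zero, Int.cast_one, Int.cast_neg, Int.cast_ofNat, one_mul, neg_mul, zero_mul, zero_add, add_zero]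
      exact nd_pos k1 k2
    · simp only [evg_cons, evg_nil]
      simp only [Int.cast_zero, Int.cast_one, Int.cast_neg, Int.cast_ofNat, one_mul, neg_mul, zero_mul, zero_add, add_zero]
      intro h
      have h2 : p ∣ l + N - p := dvd_sub h (dvd_refl p)
      exact nd_abs (by omega) (by omega) (by omega) h2
    · simp only [evg_cons, evg_nil]
      simp only [Int.cast_zero, Int.cast_one, Int.cast_neg, Int.cast_ofNat, one_mul, neg_mul, zero_mul, zero_add, add_zero]
      exact nd_abs (by omega) (by omega) (by omega)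
    · simp only [evg_cons, evg_nil]
      simp only [Int.cast_zero, Int.cast_one, Int.cast_neg, Int.cast_ofNat, one_mul, neg_mul, zero_mul, zero_add, add_zero]
      exact nd_pos e1 e2

/-! ### `u`, `v` -/

/-- `u` (`tok = true`), `v`: variables `1 a b c p J X r ru | D i iu` -/
def cU (ds : ℤ) (tok : Bool) (kf : List (ℕ × List (ℤ × ℤ × List ℤ))) : Cls where
  nI := 9
  ds := ds
  P := [0, 0, 0, 0, 1]
  D := [0, 0, 0, 0, 0, 0, 0, 0, 0, 1]
  A := [0, 1]
  B := [0, 0, 1]
  C := [0, 0, 0, 1]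
  J := [0, 0, 0, 0, 0, 1]
  gI := [[0, 0, 0, 0, 0, 0, 0, 0, 0, 1], [0, 0, 0, 0, 0, 1], [0, 0, 0, 0, 0, 0, 0, 0, 0, 0, 1], [0, 0, 0, 0, 0, 0, 0, 0, 0, 0, 0, 1]]
  gX := [[], [0, 0, -1, 0, 0, Int.neg ds], [0, 0, 0, 0, 0, 0, 1], match tok with | true => [0, 0, 1] | false => []]
  gR := [[], [0, 0, 1, 1], [0, 0, 0, 0, 0, 0, 0, 1], [0, 0, 0, 0, 0, 0, 0, 0, 1]]
  known := [1] :: [0, 1] :: [1, 1] :: [-1, 1] :: [0, 0, 1] ::
    (match tok with | true => [] | false => [[0, 0, 2]])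
  kf := kf

theorem val_U (W : Base p a b c J ds l q D dl Cl) {N X R : ℤ} {I : ℝ}
    (hk : KCl p l Cl N X R I) {tok : Bool} {Nu Ru : ℤ} {Iu : ℝ}
    (hu : UV p b D Cl tok Nu Ru Iu)
    (kf : List (ℕ × List (ℤ × ℤ × List ℤ))) :
    Val (cU ds tok kf) p a b c J ds l q D dl Cl [1, a, b, c, p, J, X, R, Ru] [D, I, Iu] [N, Nu] := by
  have hn : Int.neg ds = -ds := rfl
  have hl := W.hl
  have hlp := W.hlp
  have k1 := hk.N0
  have k2 := hk.Np
  have k3 := hk.nl
  have k4 := hk.npl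
  have u1 := hu.N0
  have u2 := hu.Np
  refine Val.mk W ⟨_, rfl⟩ rfl rfl ?_ rfl ?_ rfl ?_ rfl ?_ rfl ?_ rfl ?_ ?_ ?_
  · simp [cU]
  · simp [cU]
  · simp [cU]
  · simp [cU]
  · simp [cU]
  · simp [cU]
  · have g1 := W.cp
    have g2 := W.cl
    have g3 := hk.cl
    have g4 := hu.cl
    have e1 : -b - ds * J = -b + -(ds * J) := by ring
    rw [e1] at g2
    cases tok
    · simp only [cU, GOk, List.length_cons, List.length_nil, List.replicate_succ,
        List.replicate_zero, evg_cons, evg_nil, List.map_cons, List.map_nil,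
        List.cons_append, List.nil_append, hn]
      refine ⟨⟨?_, ?_, ?_⟩, ⟨?_, ?_, ?_⟩, ⟨?_, ?_, ?_⟩, ⟨?_, ?_, ?_⟩, trivial⟩ <;>
        simp only [Int.cast_zero, Int.cast_one, zero_mul, one_mul, mul_one, zero_add, add_zero,
          Int.cast_neg, neg_mul, Int.cast_add, Int.cast_mul, Int.cast_id, add_comm c b] <;>
        first | exact g1 | (rw [add_comm c b] at g2; exact g2) | exact g3 | exact g4
    · simp only [cU, GOk, List.length_cons, List.length_nil, List.replicate_succ,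
        List.replicate_zero, evg_cons, evg_nil, List.map_cons, List.map_nil,
        List.cons_append, List.nil_append, hn]
      refine ⟨⟨?_, ?_, ?_⟩, ⟨?_, ?_, ?_⟩, ⟨?_, ?_, ?_⟩, ⟨?_, ?_, ?_⟩, trivial⟩ <;>
        simp only [Int.cast_zero, Int.cast_one, zero_mul, one_mul, mul_one, zero_add, add_zero,
          Int.cast_neg, neg_mul, Int.cast_add, Int.cast_mul, Int.cast_id, add_comm c b] <;>
        first | exact g1 | (rw [add_comm c b] at g2; exact g2) | exact g3 | exact g4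
  · intro w hw
    simp only [cU, List.mem_cons] at hw
    rcases hw with rfl | rfl | rfl | rfl | rfl | hw
    · simp only [evg_cons, evg_nil]
      simp only [Int.cast_zero, Int.cast_one, Int.cast_neg, Int.cast_ofNat, one_mul, neg_mul, zero_mul, zero_add, add_zero]
      exact nd_pos (by omega) hlp
    · simp only [evg_cons, evg_nil]
      simp only [Int.cast_zero, Int.cast_one, Int.cast_neg, Int.cast_ofNat, one_mul, neg_mul, zero_mul, zero_add, add_zero]
      exact nd_pos k1 k2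
    · simp only [evg_cons, evg_nil]
      simp only [Int.cast_zero, Int.cast_one, Int.cast_neg, Int.cast_ofNat, one_mul, neg_mul, zero_mul, zero_add, add_zero]
      intro h
      have h2 : p ∣ l + N - p := dvd_sub h (dvd_refl p)
      exact nd_abs (by omega) (by omega) (by omega) h2
    · simp only [evg_cons, evg_nil]
      simp only [Int.cast_zero, Int.cast_one, Int.cast_neg, Int.cast_ofNat, one_mul, neg_mul, zero_mul, zero_add, add_zero]
      exact nd_abs (by omega) (by omega) (by omega)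
    · simp only [evg_cons, evg_nil]
      simp only [Int.cast_zero, Int.cast_one, Int.cast_neg, Int.cast_ofNat, one_mul, neg_mul, zero_mul, zero_add, add_zero]
      exact nd_pos u1 u2
    · cases tok
      · simp only [List.mem_cons, List.not_mem_nil, or_false] at hw
        subst hw
        simp only [evg_cons, evg_nil]
        simp only [Int.cast_zero, zero_mul, zero_add, add_zero]
        have u3 := hu.ID.2
        exact nd_pos (by push_cast; omega) (by push_cast; omega)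
      · exact absurd hw (by simp)

/-! ### `u`, `v` and `e` -/

/-- `u` (`tok = true`), `v` and `e`: variables `1 a b c p J X r ru Xe | D i iu ie` -/
def cUE (ds : ℤ) (tok : Bool) (row : List ℤ) (kf : List (ℕ × List (ℤ × ℤ × List ℤ))) : Cls where
  nI := 10
  ds := ds
  P := [0, 0, 0, 0, 1]
  D := [0, 0, 0, 0, 0, 0, 0, 0, 0, 0, 1]
  A := [0, 1]
  B := [0, 0, 1]
  C := [0, 0, 0, 1]
  J := [0, 0, 0, 0, 0, 1]
  gI := [[0, 0, 0, 0, 0, 0, 0, 0, 0, 0, 1], [0, 0, 0, 0, 0, 1], [0, 0, 0, 0, 0, 0, 0, 0, 0, 0, 0, 1], [0, 0, 0, 0, 0, 0, 0, 0, 0, 0, 0, 0, 1], [0, 0, 0, 0, 0, 0, 0, 0, 0, 0, 0, 0, 0, 1]]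
  gX := [[], [0, 0, -1, 0, 0, Int.neg ds], [0, 0, 0, 0, 0, 0, 1], match tok with | true => [0, 0, 1] | false => [], [0, 0, 0, 0, 0, 0, 0, 0, 0, 1]]
  gR := [[], [0, 0, 1, 1], [0, 0, 0, 0, 0, 0, 0, 1], [0, 0, 0, 0, 0, 0, 0, 0, 1], row]
  known := [1] :: [0, 1] :: [1, 1] :: [-1, 1] :: [0, 0, 1] :: [0, 0, 0, 1] ::
    (match tok with | true => [] | false => [[0, 0, 2]])
  kf := kf

theorem val_UE (W : Base p a b c J ds l q D dl Cl) {N X R : ℤ} {I : ℝ}
    (hk : KCl p l Cl N X R I) {tok : Bool} {Nu Ru : ℤ} {Iu : ℝ}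
    (hu : UV p b D Cl tok Nu Ru Iu)
    {r : ℤ} {row : List ℤ} {Ne Xe : ℤ} {Ie : ℝ}
    (he : EFac p ds D Cl r Ne Xe Ie)
    (hr : evg [1, a, b, c, p, J, X, R, Ru, Xe] row = r)
    (hr2 : evg [1, (a : ℝ), (b : ℝ), (c : ℝ), (p : ℝ), (J : ℝ), (X : ℝ), (R : ℝ), (Ru : ℝ), (Xe : ℝ), D, I, Iu, Ie] row = (evg [1, a, b, c, p, J, X, R, Ru, Xe] row : ℤ))
    (kf : List (ℕ × List (ℤ × ℤ × List ℤ))) :
    Val (cUE ds tok row kf) p a b c J ds l q D dl Cl [1, a, b, c, p, J, X, R, Ru, Xe] [D, I, Iu, Ie] [N, Nu, Ne] := by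
  have hn : Int.neg ds = -ds := rfl
  have hl := W.hl
  have hlp := W.hlp
  have k1 := hk.N0
  have k2 := hk.Np
  have k3 := hk.nl
  have k4 := hk.npl
  have u1 := hu.N0
  have u2 := hu.Np
  have e1 := he.N0
  have e2 := he.Np
  refine Val.mk W ⟨_, rfl⟩ rfl rfl ?_ rfl ?_ rfl ?_ rfl ?_ rfl ?_ rfl ?_ ?_ ?_
  · simp [cUE]
  · simp [cUE]
  · simp [cUE]
  · simp [cUE]
  · simp [cUE]
  · simp [cUE]
  · have g1 := W.cp
    have g2 := W.cl
    have g3 := hk.cl
    have g4 := hu.cl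
    have g5 := he.cl
    rw [← hr] at g5
    have e1 : -b - ds * J = -b + -(ds * J) := by ring
    rw [e1] at g2
    cases tok
    · simp only [cUE, GOk, List.length_cons, List.length_nil, List.replicate_succ,
        List.replicate_zero, evg_cons, evg_nil, List.map_cons, List.map_nil,
        List.cons_append, List.nil_append, hn]
      refine ⟨⟨?_, ?_, ?_⟩, ⟨?_, ?_, ?_⟩, ⟨?_, ?_, ?_⟩, ⟨?_, ?_, ?_⟩, ⟨?_, ?_, ?_⟩, trivial⟩ <;>
        simp only [Int.cast_zero, Int.cast_one, zero_mul, one_mul, mul_one, zero_add, add_zero,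
          Int.cast_neg, neg_mul, Int.cast_add, Int.cast_mul, Int.cast_id, add_comm c b] <;>
        first | exact g1 | (rw [add_comm c b] at g2; exact g2) | exact g3 | exact g4 | exact g5 | exact hr2
    · simp only [cUE, GOk, List.length_cons, List.length_nil, List.replicate_succ,
        List.replicate_zero, evg_cons, evg_nil, List.map_cons, List.map_nil,
        List.cons_append, List.nil_append, hn]
      refine ⟨⟨?_, ?_, ?_⟩, ⟨?_, ?_, ?_⟩, ⟨?_, ?_, ?_⟩, ⟨?_, ?_, ?_⟩, ⟨?_, ?_, ?_⟩, trivial⟩ <;>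
        simp only [Int.cast_zero, Int.cast_one, zero_mul, one_mul, mul_one, zero_add, add_zero,
          Int.cast_neg, neg_mul, Int.cast_add, Int.cast_mul, Int.cast_id, add_comm c b] <;>
        first | exact g1 | (rw [add_comm c b] at g2; exact g2) | exact g3 | exact g4 | exact g5 | exact hr2
  · intro w hw
    simp only [cUE, List.mem_cons] at hw
    rcases hw with rfl | rfl | rfl | rfl | rfl | rfl | hw
    · simp only [evg_cons, evg_nil]
      simp only [Int.cast_zero, Int.cast_one, Int.cast_neg, Int.cast_ofNat, one_mul, neg_mul, zero_mul, zero_add, add_zero]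
      exact nd_pos (by omega) hlp
    · simp only [evg_cons, evg_nil]
      simp only [Int.cast_zero, Int.cast_one, Int.cast_neg, Int.cast_ofNat, one_mul, neg_mul, zero_mul, zero_add, add_zero]
      exact nd_pos k1 k2
    · simp only [evg_cons, evg_nil]
      simp only [Int.cast_zero, Int.cast_one, Int.cast_neg, Int.cast_ofNat, one_mul, neg_mul, zero_mul, zero_add, add_zero]
      intro h
      have h2 : p ∣ l + N - p := dvd_sub h (dvd_refl p)
      exact nd_abs (by omega) (by omega) (by omega) h2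
    · simp only [evg_cons, evg_nil]
      simp only [Int.cast_zero, Int.cast_one, Int.cast_neg, Int.cast_ofNat, one_mul, neg_mul, zero_mul, zero_add, add_zero]
      exact nd_abs (by omega) (by omega) (by omega)
    · simp only [evg_cons, evg_nil]
      simp only [Int.cast_zero, Int.cast_one, Int.cast_neg, Int.cast_ofNat, one_mul, neg_mul, zero_mul, zero_add, add_zero]
      exact nd_pos u1 u2
    · simp only [evg_cons, evg_nil]
      simp only [Int.cast_zero, Int.cast_one, Int.cast_neg, Int.cast_ofNat, one_mul, neg_mul, zero_mul, zero_add, add_zero]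
      exact nd_pos e1 e2
    · cases tok
      · simp only [List.mem_cons, List.not_mem_nil, or_false] at hw
        subst hw
        simp only [evg_cons, evg_nil]
        simp only [Int.cast_zero, zero_mul, zero_add, add_zero]
        have u3 := hu.ID.2
        exact nd_pos (by push_cast; omega) (by push_cast; omega)
      · exact absurd hw (by simp)

/-! ### `v2` -/

/-- `v2`: variables `1 a b c J X r ru | i iu`, `p = 2 ru`, `D = 2 iu` -/
def cW (ds : ℤ) (kf : List (ℕ × List (ℤ × ℤ × List ℤ))) : Cls where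
  nI := 8
  ds := ds
  P := [0, 0, 0, 0, 0, 0, 0, 2]
  D := [0, 0, 0, 0, 0, 0, 0, 0, 0, 2]
  A := [0, 1]
  B := [0, 0, 1]
  C := [0, 0, 0, 1]
  J := [0, 0, 0, 0, 1]
  gI := [[0, 0, 0, 0, 0, 0, 0, 0, 0, 2], [0, 0, 0, 0, 1], [0, 0, 0, 0, 0, 0, 0, 0, 1], [0, 0, 0, 0, 0, 0, 0, 0, 0, 1]]
  gX := [[], [0, 0, -1, 0, Int.neg ds], [0, 0, 0, 0, 0, 1], []]
  gR := [[], [0, 0, 1, 1], [0, 0, 0, 0, 0, 0, 1], [0, 0, 0, 0, 0, 0, 0, 1]]
  known := [[1], [0, 1], [1, 1], [-1, 1], [0, 0, 1]]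
  kf := kf

theorem val_W (W : Base p a b c J ds l q D dl Cl) {N X R : ℤ} {I : ℝ}
    (hk : KCl p l Cl N X R I) {Nu Ru : ℤ} {Iu : ℝ}
    (hu : WFac p D Cl Nu Ru Iu)
    (kf : List (ℕ × List (ℤ × ℤ × List ℤ))) :
    Val (cW ds kf) p a b c J ds l q D dl Cl [1, a, b, c, J, X, R, Ru] [I, Iu] [N, Nu] := by
  have hn : Int.neg ds = -ds := rfl
  have hl := W.hl
  have hlp := W.hlp
  have k1 := hk.N0
  have k2 := hk.Np
  have k3 := hk.nl
  have k4 := hk.npl
  have u1 := hu.N0
  have u2 := hu.Np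
  have u3 := hu.ID
  have u4 := hu.R2
  refine Val.mk W ⟨_, rfl⟩ rfl rfl ?_ rfl ?_ rfl ?_ rfl ?_ rfl ?_ rfl ?_ ?_ ?_
  · simp [cW]; omega
  · simp [cW]
  · simp [cW]
  · simp [cW]
  · simp [cW]
  · simp [cW]; linarith
  · have g1 := W.cp
    have g2 := W.cl
    have g3 := hk.cl
    have g4 := hu.cl
    have e2 : ((2 : ℤ) : ℝ) * Iu = D := by push_cast; linarith
    have e1 : -b - ds * J = -b + -(ds * J) := by ring
    rw [e1] at g2
    simp only [cW, GOk, List.length_cons, List.length_nil, List.replicate_succ,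
      List.replicate_zero, evg_cons, evg_nil, List.map_cons, List.map_nil,
      List.cons_append, List.nil_append, hn]
    refine ⟨⟨?_, ?_, ?_⟩, ⟨?_, ?_, ?_⟩, ⟨?_, ?_, ?_⟩, ⟨?_, ?_, ?_⟩, trivial⟩ <;>
      simp only [Int.cast_zero, Int.cast_one, zero_mul, one_mul, mul_one, zero_add, add_zero,
        Int.cast_neg, neg_mul, Int.cast_add, Int.cast_mul, Int.cast_id, add_comm c b, e2] <;>
      first | exact g1 | (rw [add_comm c b] at g2; exact g2) | exact g3 | exact g4
  · intro w hw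
    simp only [cW, List.mem_cons, List.not_mem_nil, or_false] at hw
    rcases hw with rfl | rfl | rfl | rfl | rfl
    · simp only [evg_cons, evg_nil]
      simp only [Int.cast_zero, Int.cast_one, Int.cast_neg, Int.cast_ofNat, one_mul, neg_mul, zero_mul, zero_add, add_zero]
      exact nd_pos (by omega) hlp
    · simp only [evg_cons, evg_nil]
      simp only [Int.cast_zero, Int.cast_one, Int.cast_neg, Int.cast_ofNat, one_mul, neg_mul, zero_mul, zero_add, add_zero]
      exact nd_pos k1 k2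
    · simp only [evg_cons, evg_nil]
      simp only [Int.cast_zero, Int.cast_one, Int.cast_neg, Int.cast_ofNat, one_mul, neg_mul, zero_mul, zero_add, add_zero]
      intro h
      have h2 : p ∣ l + N - p := dvd_sub h (dvd_refl p)
      exact nd_abs (by omega) (by omega) (by omega) h2
    · simp only [evg_cons, evg_nil]
      simp only [Int.cast_zero, Int.cast_one, Int.cast_neg, Int.cast_ofNat, one_mul, neg_mul, zero_mul, zero_add, add_zero]
      exact nd_abs (by omega) (by omega) (by omega)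
    · simp only [evg_cons, evg_nil]
      simp only [Int.cast_zero, Int.cast_one, Int.cast_neg, Int.cast_ofNat, one_mul, neg_mul, zero_mul, zero_add, add_zero]
      exact nd_pos u1 (by omega)

/-! ### `v2` and `e` -/

/-- `v2` and `e`: variables `1 a b c J X r ru Xe | i iu ie`, `p = 2 ru`, `D = 2 iu` -/
def cWE (ds : ℤ) (row : List ℤ) (kf : List (ℕ × List (ℤ × ℤ × List ℤ))) : Cls where
  nI := 9
  ds := ds
  P := [0, 0, 0, 0, 0, 0, 0, 2]
  D := [0, 0, 0, 0, 0, 0, 0, 0, 0, 0, 2]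
  A := [0, 1]
  B := [0, 0, 1]
  C := [0, 0, 0, 1]
  J := [0, 0, 0, 0, 1]
  gI := [[0, 0, 0, 0, 0, 0, 0, 0, 0, 0, 2], [0, 0, 0, 0, 1], [0, 0, 0, 0, 0, 0, 0, 0, 0, 1], [0, 0, 0, 0, 0, 0, 0, 0, 0, 0, 1], [0, 0, 0, 0, 0, 0, 0, 0, 0, 0, 0, 1]]
  gX := [[], [0, 0, -1, 0, Int.neg ds], [0, 0, 0, 0, 0, 1], [], [0, 0, 0, 0, 0, 0, 0, 0, 1]]
  gR := [[], [0, 0, 1, 1], [0, 0, 0, 0, 0, 0, 1], [0, 0, 0, 0, 0, 0, 0, 1], row]
  known := [[1], [0, 1], [1, 1], [-1, 1], [0, 0, 1], [0, 0, 0, 1]]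
  kf := kf

theorem val_WE (W : Base p a b c J ds l q D dl Cl) {N X R : ℤ} {I : ℝ}
    (hk : KCl p l Cl N X R I) {Nu Ru : ℤ} {Iu : ℝ}
    (hu : WFac p D Cl Nu Ru Iu)
    {r : ℤ} {row : List ℤ} {Ne Xe : ℤ} {Ie : ℝ}
    (he : EFac p ds D Cl r Ne Xe Ie)
    (hr : evg [1, a, b, c, J, X, R, Ru, Xe] row = r)
    (hr2 : evg [1, (a : ℝ), (b : ℝ), (c : ℝ), (J : ℝ), (X : ℝ), (R : ℝ), (Ru : ℝ), (Xe : ℝ), I, Iu, Ie] row = (evg [1, a, b, c, J, X, R, Ru, Xe] row : ℤ))
    (kf : List (ℕ × List (ℤ × ℤ × List ℤ))) :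
    Val (cWE ds row kf) p a b c J ds l q D dl Cl [1, a, b, c, J, X, R, Ru, Xe] [I, Iu, Ie] [N, Nu, Ne] := by
  have hn : Int.neg ds = -ds := rfl
  have hl := W.hl
  have hlp := W.hlp
  have k1 := hk.N0
  have k2 := hk.Np
  have k3 := hk.nl
  have k4 := hk.npl
  have u1 := hu.N0
  have u2 := hu.Np
  have u3 := hu.ID
  have u4 := hu.R2
  have e1 := he.N0
  have e3 := he.Np
  refine Val.mk W ⟨_, rfl⟩ rfl rfl ?_ rfl ?_ rfl ?_ rfl ?_ rfl ?_ rfl ?_ ?_ ?_
  · simp [cWE]; omega
  · simp [cWE]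
  · simp [cWE]
  · simp [cWE]
  · simp [cWE]
  · simp [cWE]; linarith
  · have g1 := W.cp
    have g2 := W.cl
    have g3 := hk.cl
    have g4 := hu.cl
    have g5 := he.cl
    rw [← hr] at g5
    have e2 : ((2 : ℤ) : ℝ) * Iu = D := by push_cast; linarith
    have e1 : -b - ds * J = -b + -(ds * J) := by ring
    rw [e1] at g2
    simp only [cWE, GOk, List.length_cons, List.length_nil, List.replicate_succ,
      List.replicate_zero, evg_cons, evg_nil, List.map_cons, List.map_nil,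
      List.cons_append, List.nil_append, hn]
    refine ⟨⟨?_, ?_, ?_⟩, ⟨?_, ?_, ?_⟩, ⟨?_, ?_, ?_⟩, ⟨?_, ?_, ?_⟩, ⟨?_, ?_, ?_⟩, trivial⟩ <;>
      simp only [Int.cast_zero, Int.cast_one, zero_mul, one_mul, mul_one, zero_add, add_zero,
        Int.cast_neg, neg_mul, Int.cast_add, Int.cast_mul, Int.cast_id, add_comm c b, e2] <;>
      first | exact g1 | (rw [add_comm c b] at g2; exact g2) | exact g3 | exact g4 | exact g5 | exact hr2
  · intro w hw
    simp only [cWE, List.mem_cons, List.not_mem_nil, or_false] at hw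
    rcases hw with rfl | rfl | rfl | rfl | rfl | rfl
    · simp only [evg_cons, evg_nil]
      simp only [Int.cast_zero, Int.cast_one, Int.cast_neg, Int.cast_ofNat, one_mul, neg_mul, zero_mul, zero_add, add_zero]
      exact nd_pos (by omega) hlp
    · simp only [evg_cons, evg_nil]
      simp only [Int.cast_zero, Int.cast_one, Int.cast_neg, Int.cast_ofNat, one_mul, neg_mul, zero_mul, zero_add, add_zero]
      exact nd_pos k1 k2
    · simp only [evg_cons, evg_nil]
      simp only [Int.cast_zero, Int.cast_one, Int.cast_neg, Int.cast_ofNat, one_mul, neg_mul, zero_mul, zero_add, add_zero]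
      intro h
      have h2 : p ∣ l + N - p := dvd_sub h (dvd_refl p)
      exact nd_abs (by omega) (by omega) (by omega) h2
    · simp only [evg_cons, evg_nil]
      simp only [Int.cast_zero, Int.cast_one, Int.cast_neg, Int.cast_ofNat, one_mul, neg_mul, zero_mul, zero_add, add_zero]
      exact nd_abs (by omega) (by omega) (by omega)
    · simp only [evg_cons, evg_nil]
      simp only [Int.cast_zero, Int.cast_one, Int.cast_neg, Int.cast_ofNat, one_mul, neg_mul, zero_mul, zero_add, add_zero]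
      exact nd_pos u1 (by omega)
    · simp only [evg_cons, evg_nil]
      simp only [Int.cast_zero, Int.cast_one, Int.cast_neg, Int.cast_ofNat, one_mul, neg_mul, zero_mul, zero_add, add_zero]
      exact nd_pos e1 e3

end

end Helper25.KG
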