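import Pool.Agent.Helper25.KG.C3d
import Pool.Agent.Helper25.KG.S1b
import Pool.Agent.Helper25.KG.S1c
import Pool.Agent.Helper25.KG.S1G
import Pool.Agent.Helper25.KW.S1K2

set_option autoImplicit false
set_option linter.unusedSectionVars false
set_option linter.unusedVariables false

/-!
# The tree checker with `K` forms in `(x, s, i)`: soundness
-/

noncomputable section

namespace Helper25.KG

open Helper25.KW Helper55.KE Helper11.CT

section

variable {K : Cls} {p a b c J ds l q : ℤ} {D dl : ℝ} {Cl : ℤ → ℤ → ℤ → ℤ → ℝ → Prop}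
  {vi : List ℤ} {vr : List ℝ} {Nr : List ℤ}

/-- the fact behind one `K` form -/
def KOk3 (p l : ℤ) (Cl : ℤ → ℤ → ℤ → ℤ → ℝ → Prop) (ds : ℤ) (x : List ℝ) (Nk : ℤ)
    (kf : KF3) : Prop :=
  ∀ {N τ X R : ℤ} {I : ℝ}, Cl N τ X R I → |τ| ≤ 1 → 0 < N → N < p → N ≠ l → N + l ≠ p →
    (τ = 0 ∨ (1 ≤ kf.1 → N ≠ Nk) ∧ (2 ≤ kf.1 → N + Nk ≠ p)) →
    (∀ g ∈ kf.2, (0 : ℝ) < g.1 * (X + ds * I) + g.2.1 * (X + ds * I + R) + g.2.2.1 * I +
      evg x g.2.2.2) → False

theorem kgoals3_sound (h : Val K p a b c J ds l q D dl Cl vi vr Nr) {Q : List Con}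
    (hQ : ∀ c ∈ Q, hld (xv vi vr) c) {z s i : List ℤ} : ∀ {gs : List (ℤ × ℤ × ℤ × List ℤ)}
    {cs : List Cert}, kgoals3 Q z s i gs cs = true →
    ∀ g ∈ gs, (0 : ℝ) < g.1 * evg (xv vi vr) z + g.2.1 * evg (xv vi vr) s +
      g.2.2.1 * evg (xv vi vr) i + evg (xv vi vr) g.2.2.2 := by
  intro gs
  induction gs with
  | nil => intro cs _ g hg; exact absurd hg (by simp)
  | cons g gs ih =>
    intro cs hk g' hg'
    cases cs with
    | nil => exact absurd hk (by obtain ⟨a, b, g, e⟩ := g; simp [kgoals3])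
    | cons c cs =>
      obtain ⟨a1, b1, g1, e⟩ := g
      simp only [kgoals3, Bool.and_eq_true] at hk
      rcases List.mem_cons.1 hg' with rfl | hg''
      · have := cert_sound h.hx hQ hk.1
        rw [evg_axpy, evg_axpy, evg_axpy] at this
        simp only
        linarith
      · exact ih hk.2 g' hg''

theorem klf3 (h : Val K p a b c J ds l q D dl Cl vi vr Nr) {kf3 : List KF3} {Q : List Con}
    (hQ : ∀ c ∈ Q, hld (xv vi vr) c) {Nk : ℤ} (hNk : ∀ kf ∈ kf3, 1 ≤ kf.1 →
      ∃ t, Nr = Nk :: t) (hK : ∀ kf ∈ kf3, KOk3 p l Cl ds (xv vi vr) Nk kf)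
    {r : KL} (hr : klc3 K kf3 Q r = true) : False := by
  unfold klc3 at hr
  simp only [Bool.and_eq_true] at hr
  obtain ⟨⟨⟨h1, h2⟩, h3⟩, h4⟩ := hr
  obtain ⟨g1, g2, g3⟩ := h.ex hQ h1
  have g4 := h.nz hQ h2
  have g5 := h.nz hQ h3
  rw [NN_dsub, NN_dL] at g4
  rw [NN_axpy, NN_dL] at g5
  rcases hd : kf3.drop r.ty with _ | ⟨⟨fl, gs⟩, L⟩
  · rw [hd] at h4
    exact absurd h4 (by simp)
  · rw [hd] at h4
    simp only [Bool.and_eq_true, Bool.or_eq_true] at h4
    obtain ⟨h5, h6⟩ := h4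
    have hmem : (fl, gs) ∈ kf3 := List.mem_of_mem_drop (by rw [hd]; exact List.mem_cons_self)
    have hcl := h.add (h.add (h.clE r.n) (Base.smul h.toBase h.cX r.q1))
      (Base.smul h.toBase h.cR (r.q2 - r.q1))
    simp only [mul_zero, add_zero] at hcl
    have hP : ∀ v : List ℤ, (∃ t, Nr = Nk :: t) → NN p l Nr [0, 0, 1] = Nk := by
      rintro _ ⟨t, rfl⟩
      simp [NN]
    refine hK _ hmem hcl g1 g2 g3 ?_ ?_ ?_ ?_
    · intro hcon
      apply g4
      rw [hcon, sub_self]
      exact dvd_zero p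
    · intro hcon
      apply g5
      have : 1 * l + NN p l Nr r.n = p := by linarith
      rw [this]
    · rcases h5 with h5 | h5
      · left
        exact (izero_iff _).1 h5
      · right
        rcases fl with _ | _ | fl
        · exact ⟨fun hh => absurd hh (by simp), fun hh => absurd hh (by simp)⟩
        · refine ⟨fun hh => ?_, fun hh => absurd hh (by simp)⟩
          simp only at h5
          have h7 := h.nz hQ h5
          rw [NN_dsub, hP [] (hNk _ hmem hh)] at h7
          intro hcon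
          apply h7
          rw [hcon, sub_self]
          exact dvd_zero p
        · simp only [Bool.and_eq_true] at h5
          refine ⟨fun hh => ?_, fun hh => ?_⟩
          · have h7 := h.nz hQ h5.1
            rw [NN_dsub, hP [] (hNk _ hmem hh)] at h7
            intro hcon
            apply h7
            rw [hcon, sub_self]
            exact dvd_zero p
          · have h7 := h.nz hQ h5.2
            rw [NN_axpy, hP [] (hNk _ hmem (by omega))] at h7
            intro hcon
            apply h7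
            have : 1 * Nk + NN p l Nr r.n = p := by linarith
            rw [this]
    · intro g hg
      have h7 := kgoals3_sound h hQ h6 g hg
      have e1 := h.efx r.n
      have e2 := h.xR r.n
      have e5 : evg (xv vi vr) (fI K r.n) = eI K vi vr r.n := rfl
      simp only [evg_axpy, h.eP, e1, e2, e5] at h7
      have e3 : ((evg vi (fR K r.n) : ℤ) : ℝ) = eR K vi r.n := rfl
      rw [e3] at h7
      push_cast at h7 ⊢
      have e4 : (g.1 : ℝ) * ((eX K vi r.n : ℝ) + r.q1 * p + ds * eI K vi vr r.n) +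
          g.2.1 * ((eX K vi r.n : ℝ) + r.q1 * p + ds * eI K vi vr r.n +
            (eR K vi r.n + (r.q2 - r.q1) * p)) + g.2.2.1 * eI K vi vr r.n +
            evg (xv vi vr) g.2.2.2 =
          g.1 * (r.q1 * p + (eX K vi r.n + ds * eI K vi vr r.n)) +
          g.2.1 * (r.q2 * p + (1 * eR K vi r.n + (eX K vi r.n + ds * eI K vi vr r.n))) +
          g.2.2.1 * eI K vi vr r.n + evg (xv vi vr) g.2.2.2 := by ring
      rw [e4]
      exact h7

/-- soundness of the checker, from the soundness of the leaves -/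
theorem tree3 (h : Val K p a b c J ds l q D dl Cl vi vr Nr) {kf3 : List KF3} (hNI : NI p l Cl)
    {Nk : ℤ} (hNk : ∀ kf ∈ kf3, 1 ≤ kf.1 → ∃ t, Nr = Nk :: t)
    (hK : ∀ kf ∈ kf3, KOk3 p l Cl ds (xv vi vr) Nk kf)
    (hR : ∀ (Q : List Con) (r : RL), (∀ c ∈ Q, hld (xv vi vr) c) → rlc K Q r = true → False)
    (hS : ∀ (Q : List Con) (r : SL), (∀ c ∈ Q, hld (xv vi vr) c) → slc K Q r = true → False) :
    ∀ (t : Tre) (Q : List Con), (∀ c ∈ Q, hld (xv vi vr) c) → chk3 K kf3 t Q = true → False := by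
  intro t
  induction t with
  | I e L R ihL ihR =>
    intro Q hQ hc
    simp only [chk3, Bool.and_eq_true] at hc
    obtain ⟨⟨h1, h2⟩, h3⟩ := hc
    have h4 := h.xI h1
    rcases le_or_gt 1 (evg vi e) with h5 | h5
    · refine ihL _ ?_ h2
      intro c hc
      rcases List.mem_cons.1 hc with rfl | hc
      · show (1 : ℝ) ≤ evg (xv vi vr) e
        rw [h4]
        exact_mod_cast h5
      · exact hQ c hc
    · refine ihR _ ?_ h3
      intro c hc
      rcases List.mem_cons.1 hc with rfl | hc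
      · show (1 : ℝ) ≤ evg (xv vi vr) (axpy (-1) e [1])
        have h6 : evg (xv vi vr) [1] = 1 := by
          obtain ⟨y, hy⟩ := h.hx
          rw [hy]
          simp
        rw [evg_axpy, h6, h4]
        have h7 : (1 : ℤ) ≤ -1 * evg vi e + 1 := by omega
        exact_mod_cast h7
      · exact hQ c hc
  | Q e j L R ihL ihR =>
    intro Q hQ hc
    simp only [chk3, Bool.and_eq_true] at hc
    obtain ⟨⟨h1, h2⟩, h3⟩ := hc
    have h4 := h.ju hNI hQ h1
    rcases lt_or_gt_of_ne h4 with h5 | h5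
    · refine ihR _ ?_ h3
      intro c hc
      rcases List.mem_cons.1 hc with rfl | hc
      · show (0 : ℝ) < evg (xv vi vr) (axpy (-1) e [])
        rw [evg_axpy, evg_nil]
        push_cast
        linarith
      · exact hQ c hc
    · refine ihL _ ?_ h2
      intro c hc
      rcases List.mem_cons.1 hc with rfl | hc
      · exact h5
      · exact hQ c hc
  | C c =>
    intro Q hQ hc
    have h1 : chk K (.C c) Q = true := hc
    have h2 := comb_sound h.hx _ _ _ _ _ hQ h1
    rcases h2 with h1 | ⟨h1, -⟩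
    · rw [evg_nil, Int.ofNat_eq_natCast] at h1
      push_cast at h1
      linarith
    · exact absurd h1 (by simp)
  | N v m c1 c2 z =>
    intro Q hQ hc
    simp only [chk3, Bool.and_eq_true] at hc
    obtain ⟨⟨h1, h2⟩, h3⟩ := hc
    have g1 := h.nz hQ h1
    have g2 := cert_sound h.hx hQ h2
    have g3 := cert_sound h.hx hQ h3
    have h6 : evg (xv vi vr) [1] = 1 := by
      obtain ⟨y, hy⟩ := h.hx
      rw [hy]
      simp
    rw [evg_axpy, evg_axpy, h6, h.eP, h.xR] at g2 g3
    have e1 : ((Int.neg m : ℤ) : ℝ) = -(m : ℝ) := by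
      show ((-m : ℤ) : ℝ) = _
      push_cast
      ring
    rw [e1] at g2
    push_cast at g2 g3
    have g4 : (-1 : ℤ) < evg vi (fR K v) - m * p := by
      have : ((-1 : ℤ) : ℝ) < ((evg vi (fR K v) - m * p : ℤ) : ℝ) := by push_cast; linarith
      exact_mod_cast this
    have g5 : evg vi (fR K v) - m * p < 1 := by
      have : ((evg vi (fR K v) - m * p : ℤ) : ℝ) < ((1 : ℤ) : ℝ) := by push_cast; linarith
      exact_mod_cast this
    apply g1
    rw [h.dvd (h.cln v)]
    have g6 : evg vi (fR K v) = m * p := by omega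
    rw [g6]
    exact ⟨m, by ring⟩
  | K r =>
    intro Q hQ hc
    exact klf3 h hQ hNk hK hc
  | R r =>
    intro Q hQ hc
    exact hR Q r hQ hc
  | S r =>
    intro Q hQ hc
    exact hS Q r hQ hc

theorem sound3 (h : Val K p a b c J ds l q D dl Cl vi vr Nr)
    (W : World p a b c J ds l q D dl Cl) (hg : gl K = true) {kf3 : List KF3}
    {Nk : ℤ} (hNk : ∀ kf ∈ kf3, 1 ≤ kf.1 → ∃ t, Nr = Nk :: t)
    (hK : ∀ kf ∈ kf3, KOk3 p l Cl ds (xv vi vr) Nk kf)
    {t : Tre} {Q : List Con} (hc : chk3 K kf3 t Q = true) (hQ : ∀ c ∈ Q, hld (xv vi vr) c) :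
    False :=
  tree3 h (fun h1 h2 => W.nint h1 h2) hNk hK (fun _ _ hQ hr => h.rule W hg hQ hr)
    (fun _ _ hQ hr => h.test W hg hQ hr) t Q hQ hc

theorem closed3 (h : Val K p a b c J ds l q D dl Cl vi vr Nr)
    (W : World p a b c J ds l q D dl Cl) (hg : gl K = true) {kf3 : List KF3}
    {Nk : ℤ} (hNk : ∀ kf ∈ kf3, 1 ≤ kf.1 → ∃ t, Nr = Nk :: t)
    (hK : ∀ kf ∈ kf3, KOk3 p l Cl ds (xv vi vr) Nk kf) {H : List Con → Prop}
    (hH : ∀ Q, H Q → (∀ c ∈ Q, hld (xv vi vr) c) → False)
    {Q : List Con} (hc : Clo3 K kf3 H Q) (hQ : ∀ c ∈ Q, hld (xv vi vr) c) : False := by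
  have h1 : evg (xv vi vr) [1] = 1 := by
    obtain ⟨y, hy⟩ := h.hx
    rw [hy]
    simp
  induction hc with
  | t T hT => exact sound3 h W hg hNk hK hT hQ
  | @i Q e e' hI he _ _ ihl ihr =>
    subst he
    have h4 := h.xI hI
    rcases le_or_gt 1 (evg vi e) with h5 | h5
    · refine ihl ?_
      intro c hc
      rcases List.mem_cons.1 hc with rfl | hc
      · show (1 : ℝ) ≤ evg (xv vi vr) e
        rw [h4]
        exact_mod_cast h5
      · exact hQ c hc
    · refine ihr ?_
      intro c hc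
      rcases List.mem_cons.1 hc with rfl | hc
      · show (1 : ℝ) ≤ evg (xv vi vr) (axpy (-1) e [1])
        rw [evg_axpy, h1, h4]
        have h7 : (1 : ℤ) ≤ -1 * evg vi e + 1 := by omega
        exact_mod_cast h7
      · exact hQ c hc
  | @q Q e e' j hj he _ _ ihl ihr =>
    subst he
    have h4 := h.ju (fun h1 h2 => W.nint h1 h2) hQ hj
    rcases lt_or_gt_of_ne h4 with h5 | h5
    · refine ihr ?_
      intro c hc
      rcases List.mem_cons.1 hc with rfl | hc
      · show (0 : ℝ) < evg (xv vi vr) (axpy (-1) e [])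
        rw [evg_axpy, evg_nil]
        push_cast
        linarith
      · exact hQ c hc
    · refine ihl ?_
      intro c hc
      rcases List.mem_cons.1 hc with rfl | hc
      · exact h5
      · exact hQ c hc
  | @w Q e e' he _ _ ihl ihr =>
    subst he
    rcases lt_or_ge 0 (evg (xv vi vr) e) with h5 | h5
    · refine ihl ?_
      intro c hc
      rcases List.mem_cons.1 hc with rfl | hc
      · exact h5
      · exact hQ c hc
    · refine ihr ?_
      intro c hc
      rcases List.mem_cons.1 hc with rfl | hc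
      · show (1 : ℝ) ≤ evg (xv vi vr) (axpy (-1) e [1])
        rw [evg_axpy, h1]
        push_cast
        linarith
      · exact hQ c hc
  | h hh => exact hH _ hh hQ

/-! ### the facts behind the forms -/

theorem bx3_sound {x : List ℝ} (hA : evg x [0, 1] = a) (hB : evg x [0, 0, 1] = b)
    {X R : ℤ} {I : ℝ}
    (h : ∀ g ∈ bx3, (0 : ℝ) < g.1 * (X + ds * I) + g.2.1 * (X + ds * I + R) + g.2.2.1 * I +
      evg x g.2.2.2) : Bx a b ds X R I := by
  simp only [bx3, List.forall_mem_cons, List.not_mem_nil, false_imp_iff, implies_true, and_true,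
    hA, hB] at h
  push_cast at h
  obtain ⟨e0, e1, e2, e3⟩ := h
  exact ⟨by linarith, by linarith, by linarith, by linarith⟩

/-- no element with the condition `Z` -/
theorem kok3_no {x : List ℝ} (hA : evg x [0, 1] = a) (hB : evg x [0, 0, 1] = b) (Nk : ℤ)
    {Z : ℤ → ℤ → ℝ → Prop} (h : KNo p a b l ds Cl Z) {cs : List (ℤ × ℤ × ℤ × List ℤ)}
    (hZ : ∀ (X R : ℤ) (I : ℝ), Bx a b ds X R I → (∀ g ∈ cs, (0 : ℝ) < g.1 * (X + ds * I) +
      g.2.1 * (X + ds * I + R) + g.2.2.1 * I + evg x g.2.2.2) → Z X R I) :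
    KOk3 p l Cl ds x Nk (0, bx3 ++ cs) := by
  intro N τ X R I hC hτ h0 hp hl hpl _ hg
  have hb := bx3_sound hA hB (fun g hg' => hg g (List.mem_append_left _ hg'))
  exact h hC hτ h0 hp ⟨hl, hpl⟩ hb (hZ X R I hb (fun g hg' => hg g (List.mem_append_right _ hg')))

/-- extremality on the elements with the condition `Z` -/
theorem kok3_ex {x : List ℝ} (hA : evg x [0, 1] = a) (hB : evg x [0, 0, 1] = b) {Nk : ℤ}
    {Z : ℤ → ℤ → ℝ → Prop} {f : ℤ → ℤ → ℝ → ℝ} {m : ℝ} (h : KZ p a b l ds Cl Z Nk f m)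
    {o : ℤ × ℤ × ℤ × List ℤ} {cs : List (ℤ × ℤ × ℤ × List ℤ)}
    (ho : ∀ (X R : ℤ) (I : ℝ), (0 : ℝ) < o.1 * (X + ds * I) +
      o.2.1 * (X + ds * I + R) + o.2.2.1 * I + evg x o.2.2.2 → f X R I < m)
    (hZ : ∀ (X R : ℤ) (I : ℝ), Bx a b ds X R I → (∀ g ∈ cs, (0 : ℝ) < g.1 * (X + ds * I) +
      g.2.1 * (X + ds * I + R) + g.2.2.1 * I + evg x g.2.2.2) → Z X R I) :
    KOk3 p l Cl ds x Nk (1, o :: (bx3 ++ cs)) := by
  intro N τ X R I hC hτ h0 hp hl hpl hx hg
  have hb := bx3_sound hA hB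
    (fun g hg' => hg g (List.mem_cons_of_mem _ (List.mem_append_left _ hg')))
  have h1 := h hC hτ h0 hp ⟨hl, hpl⟩ (hx.imp_right (fun hh => hh.1 le_rfl)) hb
    (hZ X R I hb (fun g hg' => hg g (List.mem_cons_of_mem _ (List.mem_append_right _ hg'))))
  exact absurd (ho X R I (hg o List.mem_cons_self)) (not_lt.mpr h1)

end

end Helper25.KG
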