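import Pool.Agent.Helper25.KG.C4d
import Pool.Agent.Helper25.KG.C3

set_option autoImplicit false
set_option linter.unusedSectionVars false
set_option linter.unusedVariables false

/-!
# The tree checker with `K` forms for one or two known elements: soundness
-/

noncomputable section

namespace Helper25.KG

open Helper25.KW Helper55.KE Helper11.CT

section

variable {K : Cls} {p a b c J ds l q : ℤ} {D dl : ℝ} {Cl : ℤ → ℤ → ℤ → ℤ → ℝ → Prop}
  {vi : List ℤ} {vr : List ℝ} {Nr : List ℤ}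

/-- the fact behind one `K` form -/
def KOk4 (p l : ℤ) (Cl : ℤ → ℤ → ℤ → ℤ → ℝ → Prop) (ds : ℤ) (x : List ℝ) (Nk Nw : ℤ)
    (kf : KF3) : Prop :=
  ∀ {N τ X R : ℤ} {I : ℝ}, Cl N τ X R I → |τ| ≤ 1 → 0 < N → N < p → N ≠ l → N + l ≠ p →
    (kf.1 = 1 ∨ kf.1 = 2 → τ = 0 ∨ N ≠ Nk) → (kf.1 = 2 → τ = 0 ∨ N + Nk ≠ p) →
    (3 ≤ kf.1 → N ≠ Nk) → (4 ≤ kf.1 → N ≠ Nw) →
    (∀ g ∈ kf.2, (0 : ℝ) < g.1 * (X + ds * I) + g.2.1 * (X + ds * I + R) + g.2.2.1 * I +
      evg x g.2.2.2) → False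

theorem klf4 (h : Val K p a b c J ds l q D dl Cl vi vr Nr) {kf3 : List KF3} {Q : List Con}
    (hQ : ∀ c ∈ Q, hld (xv vi vr) c) {Nk Nw : ℤ} (hNk : ∀ kf ∈ kf3, 1 ≤ kf.1 →
      ∃ t, Nr = Nk :: t) (hNw : ∀ kf ∈ kf3, 4 ≤ kf.1 → NN p l Nr [0, 0, 0, 0, 1] = Nw)
    (hK : ∀ kf ∈ kf3, KOk4 p l Cl ds (xv vi vr) Nk Nw kf)
    {r : KL} (hr : klc4 K kf3 Q r = true) : False := by
  unfold klc4 at hr
  simp only [Bool.and_eq_true] at hr
  obtain ⟨⟨⟨h1, h2⟩, h3⟩, h4⟩ := hr
  obtain ⟨g1, g2, g3⟩ := h.ex hQ h1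
  have g4 := h.nz hQ h2
  have g5 := h.nz hQ h3
  rw [NN_dsub, NN_dL] at g4
  rw [NN_axpy, NN_dL] at g5
  rcases hd : kf3.drop r.ty with _ | ⟨⟨fl, gs⟩, L⟩
  · rw [hd] at h4
    exact absurd h4 (by simp)
  · rw [hd] at h4
    simp only [Bool.and_eq_true] at h4
    obtain ⟨h5, h6⟩ := h4
    have hmem : (fl, gs) ∈ kf3 := List.mem_of_mem_drop (by rw [hd]; exact List.mem_cons_self)
    have hcl := h.add (h.add (h.clE r.n) (Base.smul h.toBase h.cX r.q1))
      (Base.smul h.toBase h.cR (r.q2 - r.q1))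
    simp only [mul_zero, add_zero] at hcl
    have hP : ∀ v : List ℤ, (∃ t, Nr = Nk :: t) → NN p l Nr [0, 0, 1] = Nk := by
      rintro _ ⟨t, rfl⟩
      simp [NN]
    have hk1 : nzc K Q (dsub r.n [0, 0, 1]) r.zk = true → 1 ≤ fl → NN p l Nr r.n ≠ Nk := by
      intro h7 h8 hcon
      have h9 := h.nz hQ h7
      rw [NN_dsub, hP [] (hNk _ hmem h8)] at h9
      apply h9
      rw [hcon, sub_self]
      exact dvd_zero p
    have hk2 : nzc K Q (axpy 1 [0, 0, 1] r.n) r.zk2 = true → 1 ≤ fl →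
        NN p l Nr r.n + Nk ≠ p := by
      intro h7 h8 hcon
      have h9 := h.nz hQ h7
      rw [NN_axpy, hP [] (hNk _ hmem h8)] at h9
      apply h9
      have : 1 * Nk + NN p l Nr r.n = p := by linarith
      rw [this]
    have hw1 : nzc K Q (dsub r.n [0, 0, 0, 0, 1]) r.zk2 = true → 4 ≤ fl →
        NN p l Nr r.n ≠ Nw := by
      intro h7 h8 hcon
      have h9 := h.nz hQ h7
      rw [NN_dsub, hNw _ hmem h8] at h9
      apply h9
      rw [hcon, sub_self]
      exact dvd_zero p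
    refine hK _ hmem hcl g1 g2 g3 ?_ ?_ ?_ ?_ ?_ ?_ ?_
    · intro hcon
      apply g4
      rw [hcon, sub_self]
      exact dvd_zero p
    · intro hcon
      apply g5
      have : 1 * l + NN p l Nr r.n = p := by linarith
      rw [this]
    · intro hfl
      rcases hfl with hfl | hfl
      · simp only at hfl
        subst hfl
        simp only [kcd, Bool.or_eq_true] at h5
        rcases h5 with h5 | h5
        · exact Or.inl ((izero_iff _).1 h5)
        · exact Or.inr (hk1 h5 le_rfl)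
      · simp only at hfl
        subst hfl
        simp only [kcd, Bool.or_eq_true, Bool.and_eq_true] at h5
        rcases h5 with h5 | h5
        · exact Or.inl ((izero_iff _).1 h5)
        · exact Or.inr (hk1 h5.1 (by norm_num))
    · intro hfl
      simp only at hfl
      subst hfl
      simp only [kcd, Bool.or_eq_true, Bool.and_eq_true] at h5
      rcases h5 with h5 | h5
      · exact Or.inl ((izero_iff _).1 h5)
      · exact Or.inr (hk2 h5.2 (by norm_num))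
    · intro hfl
      rcases fl with _ | _ | _ | _ | fl
      · exact absurd hfl (by norm_num)
      · exact absurd hfl (by norm_num)
      · exact absurd hfl (by norm_num)
      · simp only [kcd] at h5
        exact hk1 h5 (by norm_num)
      · simp only [kcd, Bool.and_eq_true] at h5
        exact hk1 h5.1 (by omega)
    · intro hfl
      rcases fl with _ | _ | _ | _ | fl
      · exact absurd hfl (by norm_num)
      · exact absurd hfl (by norm_num)
      · exact absurd hfl (by norm_num)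
      · exact absurd hfl (by norm_num)
      · simp only [kcd, Bool.and_eq_true] at h5
        exact hw1 h5.2 (by omega)
    · intro g hg
      have h7 := kgoals3_sound h hQ h6 g hg
      have e1 := h.efx r.n
      have e2 := h.xR r.n
      have e5 : evg (xv vi vr) (fI K r.n) = eI K vi vr r.n := rfl
      simp only [evg_axpy, h.eP, e1, e2, e5] at h7
      have e3 : ((evg vi (fR K r.n) : ℤ) : ℝ) = eR K vi r.n := rfl
      rw [e3] at h7
      push_cast at h7 ⊢
      have e4 : (g.1 : ℝ) * ((eX K vi r.n : ℝ) + r.q1 * p + ds * eI K vi vr r.n) +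
          g.2.1 * ((eX K vi r.n : ℝ) + r.q1 * p + ds * eI K vi vr r.n +
            (eR K vi r.n + (r.q2 - r.q1) * p)) + g.2.2.1 * eI K vi vr r.n +
            evg (xv vi vr) g.2.2.2 =
          g.1 * (r.q1 * p + (eX K vi r.n + ds * eI K vi vr r.n)) +
          g.2.1 * (r.q2 * p + (1 * eR K vi r.n + (eX K vi r.n + ds * eI K vi vr r.n))) +
          g.2.2.1 * eI K vi vr r.n + evg (xv vi vr) g.2.2.2 := by ring
      rw [e4]
      exact h7

/-- soundness of the checker, from the soundness of the leaves -/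
theorem tree4 (h : Val K p a b c J ds l q D dl Cl vi vr Nr) {kf3 : List KF3} (hNI : NI p l Cl)
    {Nk Nw : ℤ} (hNk : ∀ kf ∈ kf3, 1 ≤ kf.1 → ∃ t, Nr = Nk :: t)
    (hNw : ∀ kf ∈ kf3, 4 ≤ kf.1 → NN p l Nr [0, 0, 0, 0, 1] = Nw)
    (hK : ∀ kf ∈ kf3, KOk4 p l Cl ds (xv vi vr) Nk Nw kf)
    (hR : ∀ (Q : List Con) (r : RL), (∀ c ∈ Q, hld (xv vi vr) c) → rlc K Q r = true → False)
    (hS : ∀ (Q : List Con) (r : SL), (∀ c ∈ Q, hld (xv vi vr) c) → slc K Q r = true → False) :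
    ∀ (t : Tre) (Q : List Con), (∀ c ∈ Q, hld (xv vi vr) c) → chk4 K kf3 t Q = true → False := by
  intro t
  induction t with
  | I e L R ihL ihR =>
    intro Q hQ hc
    simp only [chk4, Bool.and_eq_true] at hc
    obtain ⟨⟨h1, h2⟩, h3⟩ := hc
    have h4 := h.xI h1
    rcases le_or_gt 1 (evg vi e) with h5 | h5
    · refine ihL _ ?_ h2
      intro c hc
      rcases List.mem_cons.1 hc with rfl | hc
      · show (1 : ℝ) ≤ evg (xv vi vr) e
        rw [h4]
        exact_mod_cast h5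
      · exact hQ c hc
    · refine ihR _ ?_ h3
      intro c hc
      rcases List.mem_cons.1 hc with rfl | hc
      · show (1 : ℝ) ≤ evg (xv vi vr) (axpy (-1) e [1])
        have h6 : evg (xv vi vr) [1] = 1 := by
          obtain ⟨y, hy⟩ := h.hx
          rw [hy]
          simp
        rw [evg_axpy, h6, h4]
        have h7 : (1 : ℤ) ≤ -1 * evg vi e + 1 := by omega
        exact_mod_cast h7
      · exact hQ c hc
  | Q e j L R ihL ihR =>
    intro Q hQ hc
    simp only [chk4, Bool.and_eq_true] at hc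
    obtain ⟨⟨h1, h2⟩, h3⟩ := hc
    have h4 := h.ju hNI hQ h1
    rcases lt_or_gt_of_ne h4 with h5 | h5
    · refine ihR _ ?_ h3
      intro c hc
      rcases List.mem_cons.1 hc with rfl | hc
      · show (0 : ℝ) < evg (xv vi vr) (axpy (-1) e [])
        rw [evg_axpy, evg_nil]
        push_cast
        linarith
      · exact hQ c hc
    · refine ihL _ ?_ h2
      intro c hc
      rcases List.mem_cons.1 hc with rfl | hc
      · exact h5
      · exact hQ c hc
  | C c =>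
    intro Q hQ hc
    have h1 : chk K (.C c) Q = true := hc
    have h2 := comb_sound h.hx _ _ _ _ _ hQ h1
    rcases h2 with h1 | ⟨h1, -⟩
    · rw [evg_nil, Int.ofNat_eq_natCast] at h1
      push_cast at h1
      linarith
    · exact absurd h1 (by simp)
  | N v m c1 c2 z =>
    intro Q hQ hc
    simp only [chk4, Bool.and_eq_true] at hc
    obtain ⟨⟨h1, h2⟩, h3⟩ := hc
    have g1 := h.nz hQ h1
    have g2 := cert_sound h.hx hQ h2
    have g3 := cert_sound h.hx hQ h3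
    have h6 : evg (xv vi vr) [1] = 1 := by
      obtain ⟨y, hy⟩ := h.hx
      rw [hy]
      simp
    rw [evg_axpy, evg_axpy, h6, h.eP, h.xR] at g2 g3
    have e1 : ((Int.neg m : ℤ) : ℝ) = -(m : ℝ) := by
      show ((-m : ℤ) : ℝ) = _
      push_cast
      ring
    rw [e1] at g2
    push_cast at g2 g3
    have g4 : (-1 : ℤ) < evg vi (fR K v) - m * p := by
      have : ((-1 : ℤ) : ℝ) < ((evg vi (fR K v) - m * p : ℤ) : ℝ) := by push_cast; linarith
      exact_mod_cast this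
    have g5 : evg vi (fR K v) - m * p < 1 := by
      have : ((evg vi (fR K v) - m * p : ℤ) : ℝ) < ((1 : ℤ) : ℝ) := by push_cast; linarith
      exact_mod_cast this
    apply g1
    rw [h.dvd (h.cln v)]
    have g6 : evg vi (fR K v) = m * p := by omega
    rw [g6]
    exact ⟨m, by ring⟩
  | K r =>
    intro Q hQ hc
    exact klf4 h hQ hNk hNw hK hc
  | R r =>
    intro Q hQ hc
    exact hR Q r hQ hc
  | S r =>
    intro Q hQ hc
    exact hS Q r hQ hc

theorem sound4 (h : Val K p a b c J ds l q D dl Cl vi vr Nr)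
    (W : World p a b c J ds l q D dl Cl) (hg : gl K = true) {kf3 : List KF3}
    {Nk Nw : ℤ} (hNk : ∀ kf ∈ kf3, 1 ≤ kf.1 → ∃ t, Nr = Nk :: t)
    (hNw : ∀ kf ∈ kf3, 4 ≤ kf.1 → NN p l Nr [0, 0, 0, 0, 1] = Nw)
    (hK : ∀ kf ∈ kf3, KOk4 p l Cl ds (xv vi vr) Nk Nw kf)
    {t : Tre} {Q : List Con} (hc : chk4 K kf3 t Q = true) (hQ : ∀ c ∈ Q, hld (xv vi vr) c) :
    False :=
  tree4 h (fun h1 h2 => W.nint h1 h2) hNk hNw hK (fun _ _ hQ hr => h.rule W hg hQ hr)
    (fun _ _ hQ hr => h.test W hg hQ hr) t Q hQ hc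

theorem closed4 (h : Val K p a b c J ds l q D dl Cl vi vr Nr)
    (W : World p a b c J ds l q D dl Cl) (hg : gl K = true) {kf3 : List KF3}
    {Nk Nw : ℤ} (hNk : ∀ kf ∈ kf3, 1 ≤ kf.1 → ∃ t, Nr = Nk :: t)
    (hNw : ∀ kf ∈ kf3, 4 ≤ kf.1 → NN p l Nr [0, 0, 0, 0, 1] = Nw)
    (hK : ∀ kf ∈ kf3, KOk4 p l Cl ds (xv vi vr) Nk Nw kf) {H : List Con → Prop}
    (hH : ∀ Q, H Q → (∀ c ∈ Q, hld (xv vi vr) c) → False)
    {Q : List Con} (hc : Clo4 K kf3 H Q) (hQ : ∀ c ∈ Q, hld (xv vi vr) c) : False := by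
  have h1 : evg (xv vi vr) [1] = 1 := by
    obtain ⟨y, hy⟩ := h.hx
    rw [hy]
    simp
  induction hc with
  | t T hT => exact sound4 h W hg hNk hNw hK hT hQ
  | @i Q e e' hI he _ _ ihl ihr =>
    subst he
    have h4 := h.xI hI
    rcases le_or_gt 1 (evg vi e) with h5 | h5
    · refine ihl ?_
      intro c hc
      rcases List.mem_cons.1 hc with rfl | hc
      · show (1 : ℝ) ≤ evg (xv vi vr) e
        rw [h4]
        exact_mod_cast h5
      · exact hQ c hc
    · refine ihr ?_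
      intro c hc
      rcases List.mem_cons.1 hc with rfl | hc
      · show (1 : ℝ) ≤ evg (xv vi vr) (axpy (-1) e [1])
        rw [evg_axpy, h1, h4]
        have h7 : (1 : ℤ) ≤ -1 * evg vi e + 1 := by omega
        exact_mod_cast h7
      · exact hQ c hc
  | @q Q e e' j hj he _ _ ihl ihr =>
    subst he
    have h4 := h.ju (fun h1 h2 => W.nint h1 h2) hQ hj
    rcases lt_or_gt_of_ne h4 with h5 | h5
    · refine ihr ?_
      intro c hc
      rcases List.mem_cons.1 hc with rfl | hc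
      · show (0 : ℝ) < evg (xv vi vr) (axpy (-1) e [])
        rw [evg_axpy, evg_nil]
        push_cast
        linarith
      · exact hQ c hc
    · refine ihl ?_
      intro c hc
      rcases List.mem_cons.1 hc with rfl | hc
      · exact h5
      · exact hQ c hc
  | @w Q e e' he _ _ ihl ihr =>
    subst he
    rcases lt_or_ge 0 (evg (xv vi vr) e) with h5 | h5
    · refine ihl ?_
      intro c hc
      rcases List.mem_cons.1 hc with rfl | hc
      · exact h5
      · exact hQ c hc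
    · refine ihr ?_
      intro c hc
      rcases List.mem_cons.1 hc with rfl | hc
      · show (1 : ℝ) ≤ evg (xv vi vr) (axpy (-1) e [1])
        rw [evg_axpy, h1]
        push_cast
        linarith
      · exact hQ c hc
  | h hh => exact hH _ hh hQ

/-! ### the facts behind the forms -/

/-- `n = Nk` for all elements with the condition `Z` -/
def KU (p a b l ds : ℤ) (Cl : ℤ → ℤ → ℤ → ℤ → ℝ → Prop) (Z : ℤ → ℤ → ℝ → Prop) (Nk : ℤ) : Prop :=
  ∀ {N τ X R : ℤ} {I : ℝ}, Cl N τ X R I → |τ| ≤ 1 → 0 < N → N < p → P1 l p N →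
    Bx a b ds X R I → Z X R I → N = Nk

/-- `n = Nk` or `n = Nw` for all elements with the condition `Z` -/
def KU2 (p a b l ds : ℤ) (Cl : ℤ → ℤ → ℤ → ℤ → ℝ → Prop) (Z : ℤ → ℤ → ℝ → Prop)
    (Nk Nw : ℤ) : Prop :=
  ∀ {N τ X R : ℤ} {I : ℝ}, Cl N τ X R I → |τ| ≤ 1 → 0 < N → N < p → P1 l p N →
    Bx a b ds X R I → Z X R I → N = Nk ∨ N = Nw

/-- no element with the condition `Z` -/
theorem kok4_no {x : List ℝ} (hA : evg x [0, 1] = a) (hB : evg x [0, 0, 1] = b) (Nk Nw : ℤ)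
    {Z : ℤ → ℤ → ℝ → Prop} (h : KNo p a b l ds Cl Z) {cs : List (ℤ × ℤ × ℤ × List ℤ)}
    (hZ : ∀ (X R : ℤ) (I : ℝ), Bx a b ds X R I → (∀ g ∈ cs, (0 : ℝ) < g.1 * (X + ds * I) +
      g.2.1 * (X + ds * I + R) + g.2.2.1 * I + evg x g.2.2.2) → Z X R I) :
    KOk4 p l Cl ds x Nk Nw (0, bx3 ++ cs) := by
  intro N τ X R I hC hτ h0 hp hl hpl _ _ _ _ hg
  have hb := bx3_sound hA hB (fun g hg' => hg g (List.mem_append_left _ hg'))
  exact h hC hτ h0 hp ⟨hl, hpl⟩ hb (hZ X R I hb (fun g hg' => hg g (List.mem_append_right _ hg')))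

/-- extremality on the elements with the condition `Z` -/
theorem kok4_ex {x : List ℝ} (hA : evg x [0, 1] = a) (hB : evg x [0, 0, 1] = b) {Nk : ℤ} (Nw : ℤ)
    {Z : ℤ → ℤ → ℝ → Prop} {f : ℤ → ℤ → ℝ → ℝ} {m : ℝ} (h : KZ p a b l ds Cl Z Nk f m)
    {o : ℤ × ℤ × ℤ × List ℤ} {cs : List (ℤ × ℤ × ℤ × List ℤ)}
    (ho : ∀ (X R : ℤ) (I : ℝ), (0 : ℝ) < o.1 * (X + ds * I) +
      o.2.1 * (X + ds * I + R) + o.2.2.1 * I + evg x o.2.2.2 → f X R I < m)
    (hZ : ∀ (X R : ℤ) (I : ℝ), Bx a b ds X R I → (∀ g ∈ cs, (0 : ℝ) < g.1 * (X + ds * I) +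
      g.2.1 * (X + ds * I + R) + g.2.2.1 * I + evg x g.2.2.2) → Z X R I) :
    KOk4 p l Cl ds x Nk Nw (1, o :: (bx3 ++ cs)) := by
  intro N τ X R I hC hτ h0 hp hl hpl hx _ _ _ hg
  have hb := bx3_sound hA hB
    (fun g hg' => hg g (List.mem_cons_of_mem _ (List.mem_append_left _ hg')))
  have h1 := h hC hτ h0 hp ⟨hl, hpl⟩ (hx (Or.inl rfl)) hb
    (hZ X R I hb (fun g hg' => hg g (List.mem_cons_of_mem _ (List.mem_append_right _ hg'))))
  exact absurd (ho X R I (hg o List.mem_cons_self)) (not_lt.mpr h1)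

/-- one element with the condition `Z` -/
theorem kok4_u {x : List ℝ} (hA : evg x [0, 1] = a) (hB : evg x [0, 0, 1] = b) {Nk : ℤ} (Nw : ℤ)
    {Z : ℤ → ℤ → ℝ → Prop} (h : KU p a b l ds Cl Z Nk) {cs : List (ℤ × ℤ × ℤ × List ℤ)}
    (hZ : ∀ (X R : ℤ) (I : ℝ), Bx a b ds X R I → (∀ g ∈ cs, (0 : ℝ) < g.1 * (X + ds * I) +
      g.2.1 * (X + ds * I + R) + g.2.2.1 * I + evg x g.2.2.2) → Z X R I) :
    KOk4 p l Cl ds x Nk Nw (3, bx3 ++ cs) := by
  intro N τ X R I hC hτ h0 hp hl hpl _ _ hx _ hg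
  have hb := bx3_sound hA hB (fun g hg' => hg g (List.mem_append_left _ hg'))
  exact hx le_rfl (h hC hτ h0 hp ⟨hl, hpl⟩ hb
    (hZ X R I hb (fun g hg' => hg g (List.mem_append_right _ hg'))))

/-- two elements with the condition `Z` -/
theorem kok4_v {x : List ℝ} (hA : evg x [0, 1] = a) (hB : evg x [0, 0, 1] = b) {Nk Nw : ℤ}
    {Z : ℤ → ℤ → ℝ → Prop} (h : KU2 p a b l ds Cl Z Nk Nw) {cs : List (ℤ × ℤ × ℤ × List ℤ)}
    (hZ : ∀ (X R : ℤ) (I : ℝ), Bx a b ds X R I → (∀ g ∈ cs, (0 : ℝ) < g.1 * (X + ds * I) +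
      g.2.1 * (X + ds * I + R) + g.2.2.1 * I + evg x g.2.2.2) → Z X R I) :
    KOk4 p l Cl ds x Nk Nw (4, bx3 ++ cs) := by
  intro N τ X R I hC hτ h0 hp hl hpl _ _ hx hx' hg
  have hb := bx3_sound hA hB (fun g hg' => hg g (List.mem_append_left _ hg'))
  rcases h hC hτ h0 hp ⟨hl, hpl⟩ hb
    (hZ X R I hb (fun g hg' => hg g (List.mem_append_right _ hg'))) with h1 | h1
  · exact hx (by norm_num) h1
  · exact hx' le_rfl h1

/-- variables `1 a b c p J X r rw Xw | D i iw` -/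
def cV (ds : ℤ) (kf : List (ℕ × List (ℤ × ℤ × List ℤ))) : Cls where
  nI := 10
  ds := ds
  P := [0, 0, 0, 0, 1]
  D := [0, 0, 0, 0, 0, 0, 0, 0, 0, 0, 1]
  A := [0, 1]
  B := [0, 0, 1]
  C := [0, 0, 0, 1]
  J := [0, 0, 0, 0, 0, 1]
  gI := [[0, 0, 0, 0, 0, 0, 0, 0, 0, 0, 1], [0, 0, 0, 0, 0, 1], [0, 0, 0, 0, 0, 0, 0, 0, 0, 0, 0, 1], [0, 0, 0, 0, 0, 0, 0, 0, 0, 0, 0, 1], [0, 0, 0, 0, 0, 0, 0, 0, 0, 0, 0, 0, 1]]
  gX := [[], [0, 0, -1, 0, 0, Int.neg ds], [0, 0, 0, 0, 0, 0, 1], [0, 0, 0, 0, 0, 0, 1], [0, 0, 0, 0, 0, 0, 0, 0, 0, 1]]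
  gR := [[], [0, 0, 1, 1], [0, 0, 0, 0, 0, 0, 0, 1], [0, 0, 0, 0, 0, 0, 0, 1], [0, 0, 0, 0, 0, 0, 0, 0, 1]]
  known := [[1], [0, 1], [1, 1], [-1, 1], [0, 0, 0, 1], [1, 0, 0, 1], [-1, 0, 0, 1], [0, 1, 0, -1]]
  kf := kf

theorem val_V (W : Base p a b c J ds l q D dl Cl) {N X R : ℤ} {I : ℝ}
    (hk : KCl p l Cl N X R I) {Nw Xw Rw : ℤ} {Iw : ℝ} (hw : KCl p l Cl Nw Xw Rw Iw)
    (hne : N ≠ Nw) (kf : List (ℕ × List (ℤ × ℤ × List ℤ))) :
    Val (cV ds kf) p a b c J ds l q D dl Cl [1, a, b, c, p, J, X, R, Rw, Xw] [D, I, Iw]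
      [N, N, Nw] := by
  have hn : Int.neg ds = -ds := rfl
  have hl := W.hl
  have hlp := W.hlp
  have k1 := hk.N0
  have k2 := hk.Np
  have k3 := hk.nl
  have k4 := hk.npl
  have e1 := hw.N0
  have e2 := hw.Np
  have e3 := hw.nl
  have e4 := hw.npl
  refine Val.mk W ⟨_, rfl⟩ rfl rfl ?_ rfl ?_ rfl ?_ rfl ?_ rfl ?_ rfl ?_ ?_ ?_
  · simp [cV]
  · simp [cV]
  · simp [cV]
  · simp [cV]
  · simp [cV]
  · simp [cV]
  · have g1 := W.cp
    have g2 := W.cl
    have g3 := hk.cl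
    have g4 := hw.cl
    have e1 : -b - ds * J = -b + -(ds * J) := by ring
    rw [e1] at g2
    simp only [cV, GOk, List.length_cons, List.length_nil, List.replicate_succ,
      List.replicate_zero, evg_cons, evg_nil, List.map_cons, List.map_nil,
      List.cons_append, List.nil_append, hn]
    refine ⟨⟨?_, ?_, ?_⟩, ⟨?_, ?_, ?_⟩, ⟨?_, ?_, ?_⟩, ⟨?_, ?_, ?_⟩, ⟨?_, ?_, ?_⟩, trivial⟩ <;>
      simp only [Int.cast_zero, Int.cast_one, zero_mul, one_mul, mul_one, zero_add, add_zero,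
        Int.cast_neg, neg_mul, Int.cast_add, Int.cast_mul, Int.cast_id, add_comm c b] <;>
      first | exact g1 | (rw [add_comm c b] at g2; exact g2) | exact g3 | exact g4
  · intro w hw'
    simp only [cV, List.mem_cons, List.not_mem_nil, or_false] at hw'
    rcases hw' with rfl | rfl | rfl | rfl | rfl | rfl | rfl | rfl <;>
      simp only [evg_cons, evg_nil] <;>
      simp only [Int.cast_zero, Int.cast_one, Int.cast_neg, Int.cast_ofNat, one_mul, neg_mul,
        zero_mul, zero_add, add_zero]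
    · exact nd_pos (by omega) hlp
    · exact nd_pos k1 k2
    · intro h
      have h2 : p ∣ l + N - p := dvd_sub h (dvd_refl p)
      exact nd_abs (by omega) (by omega) (by omega) h2
    · exact nd_abs (by omega) (by omega) (by omega)
    · exact nd_pos e1 e2
    · intro h
      have h2 : p ∣ l + Nw - p := dvd_sub h (dvd_refl p)
      exact nd_abs (by omega) (by omega) (by omega) h2
    · exact nd_abs (by omega) (by omega) (by omega)
    · exact nd_abs (by omega) (by omega) (by omega)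

end

end Helper25.KG
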