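import Pool.Agent.Helper25.KG.C4
import Pool.Agent.Helper25.KW.S1P

set_option autoImplicit false
set_option linter.unusedSectionVars false
set_option linter.unusedVariables false

/-!
# `K` forms for the elements of the strip `|x| < b`
-/

noncomputable section

namespace Helper25.KG

open Helper25.KW Helper55.KE Helper11.CT

variable {p a b c J ds l q : ℤ} {D dl : ℝ} {Cl : ℤ → ℤ → ℤ → ℤ → ℝ → Prop}

/-- no element of the strip with the condition `Z` except `Nk` and `Nw` -/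
theorem kok4_st {x : List ℝ} (hB : evg x [0, 0, 1] = b) {Nk Nw : ℤ}
    {Z : ℤ → ℤ → ℝ → Prop} (h : StN p b l ds Cl Z Nk Nw) {cs : List (ℤ × ℤ × ℤ × List ℤ)}
    (hZ : ∀ (X R : ℤ) (I : ℝ), (∀ g ∈ cs, (0 : ℝ) < g.1 * (X + ds * I) +
      g.2.1 * (X + ds * I + R) + g.2.2.1 * I + evg x g.2.2.2) → Z X R I) :
    KOk4 p l Cl ds x Nk Nw (4, (-1, 0, 0, [0, 0, 1]) :: (1, 0, 0, [0, 0, 1]) :: cs) := by
  intro N τ X R I hC hτ h0 hp hl hpl _ _ hx hx' hg
  have g1 := hg _ (List.mem_cons_self)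
  have g2 := hg _ (List.mem_cons_of_mem _ (List.mem_cons_self))
  simp only [hB] at g1 g2
  push_cast at g1 g2
  exact h hC hτ h0 hp ⟨hl, hpl⟩ (hx (by norm_num)) (hx' le_rfl) (by linarith) (by linarith)
    (hZ X R I (fun g hg' => hg g (List.mem_cons_of_mem _ (List.mem_cons_of_mem _ hg'))))

/-- the same without `Nw` -/
theorem kok4_st3 {x : List ℝ} (hB : evg x [0, 0, 1] = b) {Nk : ℤ} (Nw : ℤ)
    {Z : ℤ → ℤ → ℝ → Prop} (h : StN p b l ds Cl Z Nk Nk) {cs : List (ℤ × ℤ × ℤ × List ℤ)}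
    (hZ : ∀ (X R : ℤ) (I : ℝ), (∀ g ∈ cs, (0 : ℝ) < g.1 * (X + ds * I) +
      g.2.1 * (X + ds * I + R) + g.2.2.1 * I + evg x g.2.2.2) → Z X R I) :
    KOk4 p l Cl ds x Nk Nw (3, (-1, 0, 0, [0, 0, 1]) :: (1, 0, 0, [0, 0, 1]) :: cs) := by
  intro N τ X R I hC hτ h0 hp hl hpl _ _ hx _ hg
  have g1 := hg _ (List.mem_cons_self)
  have g2 := hg _ (List.mem_cons_of_mem _ (List.mem_cons_self))
  simp only [hB] at g1 g2
  push_cast at g1 g2
  exact h hC hτ h0 hp ⟨hl, hpl⟩ (hx le_rfl) (hx le_rfl) (by linarith) (by linarith)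
    (hZ X R I (fun g hg' => hg g (List.mem_cons_of_mem _ (List.mem_cons_of_mem _ hg'))))

end Helper25.KG
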