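import Pool.Agent.Helper25.KG.C5d
import Pool.Agent.Helper25.KG.C4
import Pool.Agent.Helper48.KY.One

set_option autoImplicit false
set_option linter.unusedSectionVars false
set_option linter.unusedVariables false

/-!
# The tree checker with `N` leaves for `τ ≠ 0`: soundness
-/

noncomputable section

namespace Helper25.KG

open Helper25.KW Helper55.KE Helper11.CT

section

variable {K : Cls} {p a b c J ds l q : ℤ} {D dl : ℝ} {Cl : ℤ → ℤ → ℤ → ℤ → ℝ → Prop}
  {vi : List ℤ} {vr : List ℝ} {Nr : List ℤ}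

/-- clusters with index divisible by `p` -/
theorem shift (W : Base p a b c J ds l q D dl Cl) (hA : Aux p a b ds D Cl) {g τ X R : ℤ} {I : ℝ}
    (h : Cl (g * p) τ X R I) : 4 * |I - g * D| ≤ |(τ : ℝ)| := by
  obtain ⟨Ie, he, h4⟩ := Helper48.KY.elE W hA
  have h0 := W.add h (W.neg (Base.smul W W.cp g))
  have e0 : g * p + -(g * p) = 0 := by ring
  have e1 : τ + -(g * 0) = τ := by ring
  rw [e0, e1] at h0
  have h1 := W.add W.cl (W.neg he.cl)
  have e2 : l + -l = 0 := by ring
  have e3 : (1 : ℤ) + -0 = 1 := by ring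
  rw [e2, e3] at h1
  have h2 := Base.smul W h1 τ
  have h3 := W.add h0 (W.neg h2)
  have e4 : (0 : ℤ) + -(τ * 0) = 0 := by ring
  have e5 : τ + -(τ * 1) = 0 := by ring
  rw [e4, e5] at h3
  have h5 := W.neg h3
  rw [neg_zero] at h5
  have k1 : ¬ 0 < I + -(g * D) + -(τ * (J + -Ie)) := fun hh => absurd ((W.pos0 h3).1 hh) (lt_irrefl _)
  have k2 : ¬ 0 < -(I + -(g * D) + -(τ * (J + -Ie))) :=
    fun hh => absurd ((W.pos0 h5).1 hh) (lt_irrefl _)
  have k3 : I - g * D = τ * (J - Ie) := by linarith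
  rw [k3, abs_mul]
  have k4 : |J - Ie| = |Ie - J| := abs_sub_comm _ _
  rw [k4]
  have k5 := abs_nonneg (τ : ℝ)
  nlinarith [abs_nonneg (Ie - J)]

theorem nz5 (h : Val K p a b c J ds l q D dl Cl vi vr Nr) (hA : Aux p a b ds D Cl)
    {Q : List Con} (hQ : ∀ c ∈ Q, hld (xv vi vr) c) {v : List ℤ} {z : NZ}
    (hz : nzc5 K Q v z = true) : ¬ p ∣ NN p l Nr v := by
  cases z with
  | k => exact h.nz hQ (z := .k) hz
  | r m c1 c2 => exact h.nz hQ (z := .r m c1 c2) hz
  | x m c1 c2 => exact h.nz hQ (z := .x m c1 c2) hz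
  | i s c1 c2 =>
    simp only [nzc5, Bool.or_eq_true, Bool.and_eq_true] at hz
    rcases hz with hz | ⟨h1, h2⟩
    · exact h.nz hQ hz
    · rintro ⟨g, hg⟩
      have g1 := cert_sound h.hx hQ h1
      have g2 := cert_sound h.hx hQ h2
      have h6 : ∀ m : ℤ, evg (xv vi vr) [m] = m := by
        intro m
        obtain ⟨y, hy⟩ := h.hx
        rw [hy]
        simp
      have h7 : evg (xv vi vr) K.D = D := h.vD
      simp only [evg_axpy, h6, h7] at g1 g2
      have e1 : ((Int.neg (Int.ofNat (tau v).natAbs) : ℤ) : ℝ) = -|(tau v : ℝ)| := by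
        have : (Int.neg (Int.ofNat (tau v).natAbs) : ℤ) = -|tau v| := by
          rw [Int.abs_eq_natAbs]
          rfl
        rw [this]
        push_cast
        rfl
      rw [e1] at g1 g2
      have hcl := h.cln v
      have e2 : NN p l Nr v = g * p := by rw [hg]; ring
      rw [e2] at hcl
      have h8 := shift h.toBase hA hcl
      have hD0 : (0 : ℝ) < D := by
        have h9 := h.hJD
        have h10 : (1 : ℝ) ≤ J := by exact_mod_cast h.hJ
        linarith
      push_cast at g1 g2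
      have h9 := le_abs_self (evg (xv vi vr) (fI K v) - g * D)
      have h10 := neg_abs_le (evg (xv vi vr) (fI K v) - g * D)
      rcases le_or_gt (g + s) 0 with h11 | h11
      · have h12 : ((g : ℝ) + s) * D ≤ 0 :=
          mul_nonpos_of_nonpos_of_nonneg (by exact_mod_cast h11) hD0.le
        linarith
      · have h12 : 0 ≤ ((g : ℝ) + s - 1) * D :=
          mul_nonneg (by have : (1 : ℝ) ≤ ((g + s : ℤ) : ℝ) := by exact_mod_cast h11
                         push_cast at this
                         linarith) hD0.le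
        linarith

/-- soundness of the checker, from the soundness of the leaves -/
theorem tree5 (h : Val K p a b c J ds l q D dl Cl vi vr Nr)
    (hA : Aux p a b ds D Cl) {kf3 : List KF3} (hNI : NI p l Cl)
    {Nk Nw : ℤ} (hNk : ∀ kf ∈ kf3, 1 ≤ kf.1 → ∃ t, Nr = Nk :: t)
    (hNw : ∀ kf ∈ kf3, 4 ≤ kf.1 → NN p l Nr [0, 0, 0, 0, 1] = Nw)
    (hK : ∀ kf ∈ kf3, KOk4 p l Cl ds (xv vi vr) Nk Nw kf)
    (hR : ∀ (Q : List Con) (r : RL), (∀ c ∈ Q, hld (xv vi vr) c) → rlc K Q r = true → False)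
    (hS : ∀ (Q : List Con) (r : SL), (∀ c ∈ Q, hld (xv vi vr) c) → slc K Q r = true → False) :
    ∀ (t : Tre) (Q : List Con), (∀ c ∈ Q, hld (xv vi vr) c) → chk5 K kf3 t Q = true → False := by
  intro t
  induction t with
  | I e L R ihL ihR =>
    intro Q hQ hc
    simp only [chk5, Bool.and_eq_true] at hc
    obtain ⟨⟨h1, h2⟩, h3⟩ := hc
    have h4 := h.xI h1
    rcases le_or_gt 1 (evg vi e) with h5 | h5
    · refine ihL _ ?_ h2
      intro c hc
      rcases List.mem_cons.1 hc with rfl | hc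
      · show (1 : ℝ) ≤ evg (xv vi vr) e
        rw [h4]
        exact_mod_cast h5
      · exact hQ c hc
    · refine ihR _ ?_ h3
      intro c hc
      rcases List.mem_cons.1 hc with rfl | hc
      · show (1 : ℝ) ≤ evg (xv vi vr) (axpy (-1) e [1])
        have h6 : evg (xv vi vr) [1] = 1 := by
          obtain ⟨y, hy⟩ := h.hx
          rw [hy]
          simp
        rw [evg_axpy, h6, h4]
        have h7 : (1 : ℤ) ≤ -1 * evg vi e + 1 := by omega
        exact_mod_cast h7
      · exact hQ c hc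
  | Q e j L R ihL ihR =>
    intro Q hQ hc
    simp only [chk5, Bool.and_eq_true] at hc
    obtain ⟨⟨h1, h2⟩, h3⟩ := hc
    have h4 := h.ju hNI hQ h1
    rcases lt_or_gt_of_ne h4 with h5 | h5
    · refine ihR _ ?_ h3
      intro c hc
      rcases List.mem_cons.1 hc with rfl | hc
      · show (0 : ℝ) < evg (xv vi vr) (axpy (-1) e [])
        rw [evg_axpy, evg_nil]
        push_cast
        linarith
      · exact hQ c hc
    · refine ihL _ ?_ h2
      intro c hc
      rcases List.mem_cons.1 hc with rfl | hc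
      · exact h5
      · exact hQ c hc
  | C c =>
    intro Q hQ hc
    have h1 : chk K (.C c) Q = true := hc
    have h2 := comb_sound h.hx _ _ _ _ _ hQ h1
    rcases h2 with h1 | ⟨h1, -⟩
    · rw [evg_nil, Int.ofNat_eq_natCast] at h1
      push_cast at h1
      linarith
    · exact absurd h1 (by simp)
  | N v m c1 c2 z =>
    intro Q hQ hc
    simp only [chk5, Bool.and_eq_true] at hc
    obtain ⟨⟨h1, h2⟩, h3⟩ := hc
    have g1 := nz5 h hA hQ h1
    have g2 := cert_sound h.hx hQ h2
    have g3 := cert_sound h.hx hQ h3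
    have h6 : evg (xv vi vr) [1] = 1 := by
      obtain ⟨y, hy⟩ := h.hx
      rw [hy]
      simp
    rw [evg_axpy, evg_axpy, h6, h.eP, h.xR] at g2 g3
    have e1 : ((Int.neg m : ℤ) : ℝ) = -(m : ℝ) := by
      show ((-m : ℤ) : ℝ) = _
      push_cast
      ring
    rw [e1] at g2
    push_cast at g2 g3
    have g4 : (-1 : ℤ) < evg vi (fR K v) - m * p := by
      have : ((-1 : ℤ) : ℝ) < ((evg vi (fR K v) - m * p : ℤ) : ℝ) := by push_cast; linarith
      exact_mod_cast this
    have g5 : evg vi (fR K v) - m * p < 1 := by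
      have : ((evg vi (fR K v) - m * p : ℤ) : ℝ) < ((1 : ℤ) : ℝ) := by push_cast; linarith
      exact_mod_cast this
    apply g1
    rw [h.dvd (h.cln v)]
    have g6 : evg vi (fR K v) = m * p := by omega
    rw [g6]
    exact ⟨m, by ring⟩
  | K r =>
    intro Q hQ hc
    exact klf4 h hQ hNk hNw hK hc
  | R r =>
    intro Q hQ hc
    exact hR Q r hQ hc
  | S r =>
    intro Q hQ hc
    exact hS Q r hQ hc

theorem sound5 (h : Val K p a b c J ds l q D dl Cl vi vr Nr)
    (hA : Aux p a b ds D Cl) (W : World p a b c J ds l q D dl Cl) (hg : gl K = true) {kf3 : List KF3}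
    {Nk Nw : ℤ} (hNk : ∀ kf ∈ kf3, 1 ≤ kf.1 → ∃ t, Nr = Nk :: t)
    (hNw : ∀ kf ∈ kf3, 4 ≤ kf.1 → NN p l Nr [0, 0, 0, 0, 1] = Nw)
    (hK : ∀ kf ∈ kf3, KOk4 p l Cl ds (xv vi vr) Nk Nw kf)
    {t : Tre} {Q : List Con} (hc : chk5 K kf3 t Q = true) (hQ : ∀ c ∈ Q, hld (xv vi vr) c) :
    False :=
  tree5 h hA (fun h1 h2 => W.nint h1 h2) hNk hNw hK (fun _ _ hQ hr => h.rule W hg hQ hr)
    (fun _ _ hQ hr => h.test W hg hQ hr) t Q hQ hc

theorem closed5 (h : Val K p a b c J ds l q D dl Cl vi vr Nr)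
    (hA : Aux p a b ds D Cl) (W : World p a b c J ds l q D dl Cl) (hg : gl K = true) {kf3 : List KF3}
    {Nk Nw : ℤ} (hNk : ∀ kf ∈ kf3, 1 ≤ kf.1 → ∃ t, Nr = Nk :: t)
    (hNw : ∀ kf ∈ kf3, 4 ≤ kf.1 → NN p l Nr [0, 0, 0, 0, 1] = Nw)
    (hK : ∀ kf ∈ kf3, KOk4 p l Cl ds (xv vi vr) Nk Nw kf) {H : List Con → Prop}
    (hH : ∀ Q, H Q → (∀ c ∈ Q, hld (xv vi vr) c) → False)
    {Q : List Con} (hc : Clo5 K kf3 H Q) (hQ : ∀ c ∈ Q, hld (xv vi vr) c) : False := by
  have h1 : evg (xv vi vr) [1] = 1 := by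
    obtain ⟨y, hy⟩ := h.hx
    rw [hy]
    simp
  induction hc with
  | t T hT => exact sound5 h hA W hg hNk hNw hK hT hQ
  | @i Q e e' hI he _ _ ihl ihr =>
    subst he
    have h4 := h.xI hI
    rcases le_or_gt 1 (evg vi e) with h5 | h5
    · refine ihl ?_
      intro c hc
      rcases List.mem_cons.1 hc with rfl | hc
      · show (1 : ℝ) ≤ evg (xv vi vr) e
        rw [h4]
        exact_mod_cast h5
      · exact hQ c hc
    · refine ihr ?_
      intro c hc
      rcases List.mem_cons.1 hc with rfl | hc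
      · show (1 : ℝ) ≤ evg (xv vi vr) (axpy (-1) e [1])
        rw [evg_axpy, h1, h4]
        have h7 : (1 : ℤ) ≤ -1 * evg vi e + 1 := by omega
        exact_mod_cast h7
      · exact hQ c hc
  | @q Q e e' j hj he _ _ ihl ihr =>
    subst he
    have h4 := h.ju (fun h1 h2 => W.nint h1 h2) hQ hj
    rcases lt_or_gt_of_ne h4 with h5 | h5
    · refine ihr ?_
      intro c hc
      rcases List.mem_cons.1 hc with rfl | hc
      · show (0 : ℝ) < evg (xv vi vr) (axpy (-1) e [])
        rw [evg_axpy, evg_nil]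
        push_cast
        linarith
      · exact hQ c hc
    · refine ihl ?_
      intro c hc
      rcases List.mem_cons.1 hc with rfl | hc
      · exact h5
      · exact hQ c hc
  | @w Q e e' he _ _ ihl ihr =>
    subst he
    rcases lt_or_ge 0 (evg (xv vi vr) e) with h5 | h5
    · refine ihl ?_
      intro c hc
      rcases List.mem_cons.1 hc with rfl | hc
      · exact h5
      · exact hQ c hc
    · refine ihr ?_
      intro c hc
      rcases List.mem_cons.1 hc with rfl | hc
      · show (1 : ℝ) ≤ evg (xv vi vr) (axpy (-1) e [1])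
        rw [evg_axpy, h1]
        push_cast
        linarith
      · exact hQ c hc
  | h hh => exact hH _ hh hQ

end

end Helper25.KG
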