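import Pool.Agent.Helper25.KG.C4d

set_option autoImplicit false

/-!
# The tree checker with `N` leaves for `τ ≠ 0`: definitions
-/

noncomputable section

namespace Helper25.KG

open Helper11.CT

/-- `N (v)` is not divisible by `p`; for `τ ≠ 0` the kind `i` needs a distance of `|τ| / 4` -/
def nzc5 (K : Cls) (Q : List Con) (v : List ℤ) : NZ → Bool
  | .i s c1 c2 => nzc K Q v (.i s c1 c2) ||
    (cert Q c1 (axpy 4 (axpy s K.D (fI K v)) [Int.neg (Int.ofNat (tau v).natAbs)]) &&
      cert Q c2 (axpy (-4) (axpy s K.D (fI K v))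
        (axpy 4 K.D [Int.neg (Int.ofNat (tau v).natAbs)])))
  | z => nzc K Q v z

def chk5 (K : Cls) (kf : List KF3) : Tre → List Con → Bool
  | .I e L R, Q => isI K e && chk5 K kf L ((true, e) :: Q) &&
      chk5 K kf R ((true, axpy (-1) e [1]) :: Q)
  | .Q e j L R, Q => juc K Q e j && chk5 K kf L ((false, e) :: Q) &&
      chk5 K kf R ((false, axpy (-1) e []) :: Q)
  | .C c, Q => comb c Q [] (Int.ofNat 0) false
  | .N v m c1 c2 z, Q => nzc5 K Q v z &&
      cert Q c1 (axpy (Int.neg m) K.P (axpy 1 (fR K v) [1])) &&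
      cert Q c2 (axpy m K.P (axpy (-1) (fR K v) [1]))
  | .K r, Q => klc4 K kf Q r
  | .R r, Q => rlc K Q r
  | .S r, Q => slc K Q r

theorem chk5_I {K : Cls} {kf : List KF3} {e e' : List ℤ} {L R : Tre} {Q : List Con}
    (h1 : isI K e = true) (he : axpy (-1) e [1] = e')
    (h2 : chk5 K kf L ((true, e) :: Q) = true) (h3 : chk5 K kf R ((true, e') :: Q) = true) :
    chk5 K kf (.I e L R) Q = true := by
  subst he
  simp only [chk5, h1, h2, h3, Bool.and_self]

theorem chk5_Q {K : Cls} {kf : List KF3} {e e' : List ℤ} {j : Ju} {L R : Tre} {Q : List Con}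
    (h1 : juc K Q e j = true) (he : axpy (-1) e [] = e')
    (h2 : chk5 K kf L ((false, e) :: Q) = true)
    (h3 : chk5 K kf R ((false, e') :: Q) = true) : chk5 K kf (.Q e j L R) Q = true := by
  subst he
  simp only [chk5, h1, h2, h3, Bool.and_self]

/-- trees with holes -/
inductive Clo5 (K : Cls) (kf : List KF3) (H : List Con → Prop) : List Con → Prop
  | t {Q : List Con} (T : Tre) (h : chk5 K kf T Q = true) : Clo5 K kf H Q
  | i {Q : List Con} (e : List ℤ) {e' : List ℤ} (h : isI K e = true) (he : axpy (-1) e [1] = e')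
      (hl : Clo5 K kf H ((true, e) :: Q)) (hr : Clo5 K kf H ((true, e') :: Q)) : Clo5 K kf H Q
  | q {Q : List Con} (e : List ℤ) {e' : List ℤ} (j : Ju) (h : juc K Q e j = true)
      (he : axpy (-1) e [] = e')
      (hl : Clo5 K kf H ((false, e) :: Q)) (hr : Clo5 K kf H ((false, e') :: Q)) :
      Clo5 K kf H Q
  | w {Q : List Con} (e : List ℤ) {e' : List ℤ} (he : axpy (-1) e [1] = e')
      (hl : Clo5 K kf H ((false, e) :: Q)) (hr : Clo5 K kf H ((true, e') :: Q)) : Clo5 K kf H Q
  | h {Q : List Con} (h : H Q) : Clo5 K kf H Q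

end Helper25.KG
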