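import Pool.Agent.Helper25.KG.C6d
import Pool.Agent.Helper25.KG.C5
import Pool.Agent.Helper48.KY.Two

set_option autoImplicit false
set_option linter.unusedSectionVars false
set_option linter.unusedVariables false

/-!
# The tree checker with index coincidence leaves: soundness
-/

noncomputable section

namespace Helper25.KG

open Helper25.KW Helper55.KE Helper11.CT

section

variable {K : Cls} {p a b c J ds l q : ℤ} {D dl : ℝ} {Cl : ℤ → ℤ → ℤ → ℤ → ℝ → Prop}
  {vi : List ℤ} {vr : List ℝ} {Nr : List ℤ}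

/-- the index coordinate is close to a multiple of `I (1)` -/
theorem near (W : Base p a b c J ds l q D dl Cl) (hA : Aux p a b ds D Cl) {Xe Re : ℤ} {Ie : ℝ}
    (he : Cl 1 0 Xe Re Ie) {n g τ X R : ℤ} {I : ℝ} (h : Cl (g * p + n) τ X R I) :
    2 * |I - g * D - n * Ie| ≤ |(τ : ℝ)| * Ie ∧ 0 < Ie := by
  have hp : (0 : ℝ) < p := by
    have : 0 < p := by have := W.ha; have := W.h2a; omega
    exact_mod_cast this
  have h1 := Helper48.KY.pI W he (by norm_num)
  push_cast at h1
  have h2 := W.add h (W.neg (Base.smul W W.cl τ))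
  have e1 : τ + -(τ * 1) = 0 := by ring
  rw [e1] at h2
  have h3 := W.add h2 (W.neg (Base.smul W he (g * p + n + -(τ * l))))
  have e2 : g * p + n + -(τ * l) + -((g * p + n + -(τ * l)) * 1) = 0 := by ring
  have e3 : (0 : ℤ) + -((g * p + n + -(τ * l)) * 0) = 0 := by ring
  rw [e2, e3] at h3
  have h4 := Helper48.KY.zer W h3
  push_cast at h4
  obtain ⟨h5, h6⟩ := Helper48.KY.pJ W hA
  have hIe : 0 < Ie := by
    have hD : 0 < D := by
      have h8 := W.hJD
      have : (1 : ℝ) ≤ J := by exact_mod_cast W.hJ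
      linarith
    by_contra h7
    push Not at h7
    nlinarith
  have h7 : I - g * D - n * Ie = τ * (J - l * Ie) := by
    have : (g : ℝ) * D = g * p * Ie := by rw [← one_mul D, ← h1]; ring
    rw [this]
    linarith
  have h8 : 2 * |(J : ℝ) - l * Ie| ≤ Ie := by
    have h9 : (p : ℝ) * J - l * D = p * (J - l * Ie) := by
      have : (l : ℝ) * D = l * (p * Ie) := by rw [h1, one_mul]
      rw [this]
      ring
    rw [h9] at h5 h6
    have h10 : D = p * Ie := by linarith
    rw [h10] at h5 h6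
    have h11 : -Ie ≤ 2 * ((J : ℝ) - l * Ie) := by
      by_contra hh
      push Not at hh
      nlinarith
    have h12 : 2 * ((J : ℝ) - l * Ie) ≤ Ie := by
      by_contra hh
      push Not at hh
      nlinarith
    have h13 : |(J : ℝ) - l * Ie| ≤ Ie / 2 := abs_le.2 ⟨by linarith, by linarith⟩
    linarith
  refine ⟨?_, hIe⟩
  rw [h7, abs_mul]
  nlinarith [abs_nonneg (τ : ℝ)]

theorem evg_one (h : Val K p a b c J ds l q D dl Cl vi vr Nr) (m : ℤ) :
    evg (xv vi vr) [m] = m := by
  obtain ⟨y, hy⟩ := h.hx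
  rw [hy]
  simp

theorem tn_cast (n : ℤ) (v : List ℤ) : ((tn n v : ℤ) : ℝ) = n - |(tau v : ℝ)| := by
  have : (tn n v : ℤ) = n - |tau v| := by
    rw [Int.abs_eq_natAbs]
    rfl
  rw [this]
  push_cast
  rfl

theorem nc_near (h : Val K p a b c J ds l q D dl Cl vi vr Nr) (hA : Aux p a b ds D Cl)
    (h1 : NN p l Nr eS = 1) (v : List ℤ) (g : ℤ) :
    2 * |evg (xv vi vr) (fI K v) - g * D - ((NN p l Nr v - g * p : ℤ) : ℝ) *
      evg (xv vi vr) (fI K eS)| ≤ |(tau v : ℝ)| * evg (xv vi vr) (fI K eS) ∧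
      0 < evg (xv vi vr) (fI K eS) := by
  have he := h.cln eS
  rw [h1] at he
  have hv := h.cln v
  have e1 : NN p l Nr v = g * p + (NN p l Nr v - g * p) := by ring
  rw [e1] at hv
  exact near h.toBase hA he hv

theorem nc1_sound (h : Val K p a b c J ds l q D dl Cl vi vr Nr) (hA : Aux p a b ds D Cl)
    (h1 : NN p l Nr eS = 1) {Q : List Con} (hQ : ∀ c ∈ Q, hld (xv vi vr) c) {v : List ℤ} {g : ℤ}
    {c1 c2 : Cert} {z : NZ} (hc : nc1 K Q v g c1 c2 z = true) : False := by
  simp only [nc1, Bool.and_eq_true] at hc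
  obtain ⟨⟨k1, k2⟩, k3⟩ := hc
  have g1 := h.nz hQ k1
  have g2 := cert_sound h.hx hQ k2
  have g3 := cert_sound h.hx hQ k3
  have hD : evg (xv vi vr) K.D = D := h.vD
  have m1 : ((Int.mul 2 g : ℤ) : ℝ) = 2 * g := by
    show ((2 * g : ℤ) : ℝ) = _
    push_cast
    ring
  have m2 : ((Int.mul (-2) g : ℤ) : ℝ) = -2 * g := by
    show ((-2 * g : ℤ) : ℝ) = _
    push_cast
    ring
  simp only [evg_axpy, evg_nil, hD, tn_cast, m1, m2] at g2 g3
  push_cast at g2 g3
  obtain ⟨n1, n2⟩ := nc_near h hA h1 v g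
  set E := evg (xv vi vr) (fI K eS)
  set V := evg (xv vi vr) (fI K v)
  set n : ℤ := NN p l Nr v - g * p with hn
  have n3 : 2 * (V - g * D - n * E) ≤ |(tau v : ℝ)| * E :=
    (mul_le_mul_of_nonneg_left (le_abs_self _) (by norm_num)).trans n1
  have n4 : 2 * -(V - g * D - n * E) ≤ |(tau v : ℝ)| * E :=
    (mul_le_mul_of_nonneg_left (neg_le_abs _) (by norm_num)).trans n1
  have n5 : (n : ℝ) < 1 := by
    by_contra hh
    push Not at hh
    nlinarith
  have n6 : (-1 : ℝ) < n := by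
    by_contra hh
    push Not at hh
    nlinarith
  have n7 : n = 0 := by
    have a1 : n < 1 := by exact_mod_cast n5
    have a2 : -1 < n := by exact_mod_cast n6
    omega
  exact g1 ⟨g, by linarith⟩

theorem nc2_sound (h : Val K p a b c J ds l q D dl Cl vi vr Nr) (hA : Aux p a b ds D Cl)
    (h1 : NN p l Nr eS = 1) {Q : List Con} (hQ : ∀ c ∈ Q, hld (xv vi vr) c) {r : KL}
    (hc : nc2 K Q r = true) : False := by
  unfold nc2 at hc
  rw [Bool.and_eq_true, Bool.and_eq_true] at hc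
  obtain ⟨⟨k0, k1⟩, k2⟩ := hc
  split at k2
  · rename_i c1 c2 hcc
    rw [Bool.and_eq_true] at k2
    obtain ⟨k2, k3⟩ := k2
    have g0 := h.nz hQ k0
    have g1 := h.nz hQ k1
    have g2 := cert_sound h.hx hQ k2
    have g3 := cert_sound h.hx hQ k3
    have hD : evg (xv vi vr) K.D = D := h.vD
    have m1 : ((Int.mul 2 r.q1 : ℤ) : ℝ) = 2 * r.q1 := by
      show ((2 * r.q1 : ℤ) : ℝ) = _
      push_cast
      ring
    have m2 : ((Int.mul (-2) r.q1 : ℤ) : ℝ) = -2 * r.q1 := by
      show ((-2 * r.q1 : ℤ) : ℝ) = _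
      push_cast
      ring
    simp only [evg_axpy, evg_nil, hD, tn_cast, m1, m2] at g2 g3
    push_cast at g2 g3
    obtain ⟨n1, n2⟩ := nc_near h hA h1 r.n r.q1
    set E := evg (xv vi vr) (fI K eS)
    set V := evg (xv vi vr) (fI K r.n)
    set n : ℤ := NN p l Nr r.n - r.q1 * p with hn
    have n3 : 2 * (V - r.q1 * D - n * E) ≤ |(tau r.n : ℝ)| * E :=
      (mul_le_mul_of_nonneg_left (le_abs_self _) (by norm_num)).trans n1
    have n4 : 2 * -(V - r.q1 * D - n * E) ≤ |(tau r.n : ℝ)| * E :=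
      (mul_le_mul_of_nonneg_left (neg_le_abs _) (by norm_num)).trans n1
    have n5 : (n : ℝ) < 2 := by
      by_contra hh
      push Not at hh
      nlinarith
    have n6 : (-1 : ℝ) < n := by
      by_contra hh
      push Not at hh
      nlinarith
    have n7 : n = 0 ∨ n = 1 := by
      have a1 : n < 2 := by exact_mod_cast n5
      have a2 : -1 < n := by exact_mod_cast n6
      omega
    rcases n7 with n7 | n7
    · exact g0 ⟨r.q1, by linarith⟩
    · apply g1
      have e2 : NN p l Nr (dsub r.n eS) = NN p l Nr r.n - NN p l Nr eS := by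
        simp only [NN, dsub, evg_axpy]
        ring
      rw [e2, h1]
      exact ⟨r.q1, by linarith⟩
  · exact absurd k2 (by simp)

/-- soundness of the checker, from the soundness of the leaves -/
theorem tree6 (h : Val K p a b c J ds l q D dl Cl vi vr Nr)
    (hA : Aux p a b ds D Cl) (h1e : NN p l Nr eS = 1) {kf3 : List KF3} (hNI : NI p l Cl)
    {Nk Nw : ℤ} (hNk : ∀ kf ∈ kf3, 1 ≤ kf.1 → ∃ t, Nr = Nk :: t)
    (hNw : ∀ kf ∈ kf3, 4 ≤ kf.1 → NN p l Nr [0, 0, 0, 0, 1] = Nw)
    (hK : ∀ kf ∈ kf3, KOk4 p l Cl ds (xv vi vr) Nk Nw kf)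
    (hR : ∀ (Q : List Con) (r : RL), (∀ c ∈ Q, hld (xv vi vr) c) → rlc K Q r = true → False)
    (hS : ∀ (Q : List Con) (r : SL), (∀ c ∈ Q, hld (xv vi vr) c) → slc K Q r = true → False) :
    ∀ (t : Tre) (Q : List Con), (∀ c ∈ Q, hld (xv vi vr) c) → chk6 K kf3 t Q = true → False := by
  intro t
  induction t with
  | I e L R ihL ihR =>
    intro Q hQ hc
    simp only [chk6, Bool.and_eq_true] at hc
    obtain ⟨⟨h1, h2⟩, h3⟩ := hc
    have h4 := h.xI h1
    rcases le_or_gt 1 (evg vi e) with h5 | h5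
    · refine ihL _ ?_ h2
      intro c hc
      rcases List.mem_cons.1 hc with rfl | hc
      · show (1 : ℝ) ≤ evg (xv vi vr) e
        rw [h4]
        exact_mod_cast h5
      · exact hQ c hc
    · refine ihR _ ?_ h3
      intro c hc
      rcases List.mem_cons.1 hc with rfl | hc
      · show (1 : ℝ) ≤ evg (xv vi vr) (axpy (-1) e [1])
        have h6 : evg (xv vi vr) [1] = 1 := by
          obtain ⟨y, hy⟩ := h.hx
          rw [hy]
          simp
        rw [evg_axpy, h6, h4]
        have h7 : (1 : ℤ) ≤ -1 * evg vi e + 1 := by omega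
        exact_mod_cast h7
      · exact hQ c hc
  | Q e j L R ihL ihR =>
    intro Q hQ hc
    simp only [chk6, Bool.and_eq_true] at hc
    obtain ⟨⟨h1, h2⟩, h3⟩ := hc
    have h4 := h.ju hNI hQ h1
    rcases lt_or_gt_of_ne h4 with h5 | h5
    · refine ihR _ ?_ h3
      intro c hc
      rcases List.mem_cons.1 hc with rfl | hc
      · show (0 : ℝ) < evg (xv vi vr) (axpy (-1) e [])
        rw [evg_axpy, evg_nil]
        push_cast
        linarith
      · exact hQ c hc
    · refine ihL _ ?_ h2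
      intro c hc
      rcases List.mem_cons.1 hc with rfl | hc
      · exact h5
      · exact hQ c hc
  | C c =>
    intro Q hQ hc
    have h1 : chk K (.C c) Q = true := hc
    have h2 := comb_sound h.hx _ _ _ _ _ hQ h1
    rcases h2 with h1 | ⟨h1, -⟩
    · rw [evg_nil, Int.ofNat_eq_natCast] at h1
      push_cast at h1
      linarith
    · exact absurd h1 (by simp)
  | N v m c1 c2 z =>
    intro Q hQ hc
    simp only [chk6, Bool.or_eq_true, Bool.and_eq_true] at hc
    rcases hc with ⟨⟨h1, h2⟩, h3⟩ | hc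
    swap
    · exact nc1_sound h hA h1e hQ hc
    have g1 := nz5 h hA hQ h1
    have g2 := cert_sound h.hx hQ h2
    have g3 := cert_sound h.hx hQ h3
    have h6 : evg (xv vi vr) [1] = 1 := by
      obtain ⟨y, hy⟩ := h.hx
      rw [hy]
      simp
    rw [evg_axpy, evg_axpy, h6, h.eP, h.xR] at g2 g3
    have e1 : ((Int.neg m : ℤ) : ℝ) = -(m : ℝ) := by
      show ((-m : ℤ) : ℝ) = _
      push_cast
      ring
    rw [e1] at g2
    push_cast at g2 g3
    have g4 : (-1 : ℤ) < evg vi (fR K v) - m * p := by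
      have : ((-1 : ℤ) : ℝ) < ((evg vi (fR K v) - m * p : ℤ) : ℝ) := by push_cast; linarith
      exact_mod_cast this
    have g5 : evg vi (fR K v) - m * p < 1 := by
      have : ((evg vi (fR K v) - m * p : ℤ) : ℝ) < ((1 : ℤ) : ℝ) := by push_cast; linarith
      exact_mod_cast this
    apply g1
    rw [h.dvd (h.cln v)]
    have g6 : evg vi (fR K v) = m * p := by omega
    rw [g6]
    exact ⟨m, by ring⟩
  | K r =>
    intro Q hQ hc
    simp only [chk6, Bool.or_eq_true] at hc
    rcases hc with hc | hc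
    · exact klf4 h hQ hNk hNw hK hc
    · exact nc2_sound h hA h1e hQ hc
  | R r =>
    intro Q hQ hc
    exact hR Q r hQ hc
  | S r =>
    intro Q hQ hc
    exact hS Q r hQ hc

theorem sound6 (h : Val K p a b c J ds l q D dl Cl vi vr Nr)
    (hA : Aux p a b ds D Cl) (h1e : NN p l Nr eS = 1) (W : World p a b c J ds l q D dl Cl) (hg : gl K = true) {kf3 : List KF3}
    {Nk Nw : ℤ} (hNk : ∀ kf ∈ kf3, 1 ≤ kf.1 → ∃ t, Nr = Nk :: t)
    (hNw : ∀ kf ∈ kf3, 4 ≤ kf.1 → NN p l Nr [0, 0, 0, 0, 1] = Nw)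
    (hK : ∀ kf ∈ kf3, KOk4 p l Cl ds (xv vi vr) Nk Nw kf)
    {t : Tre} {Q : List Con} (hc : chk6 K kf3 t Q = true) (hQ : ∀ c ∈ Q, hld (xv vi vr) c) :
    False :=
  tree6 h hA h1e (fun h1 h2 => W.nint h1 h2) hNk hNw hK (fun _ _ hQ hr => h.rule W hg hQ hr)
    (fun _ _ hQ hr => h.test W hg hQ hr) t Q hQ hc

theorem closed6 (h : Val K p a b c J ds l q D dl Cl vi vr Nr)
    (hA : Aux p a b ds D Cl) (h1e : NN p l Nr eS = 1) (W : World p a b c J ds l q D dl Cl) (hg : gl K = true) {kf3 : List KF3}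
    {Nk Nw : ℤ} (hNk : ∀ kf ∈ kf3, 1 ≤ kf.1 → ∃ t, Nr = Nk :: t)
    (hNw : ∀ kf ∈ kf3, 4 ≤ kf.1 → NN p l Nr [0, 0, 0, 0, 1] = Nw)
    (hK : ∀ kf ∈ kf3, KOk4 p l Cl ds (xv vi vr) Nk Nw kf) {H : List Con → Prop}
    (hH : ∀ Q, H Q → (∀ c ∈ Q, hld (xv vi vr) c) → False)
    {Q : List Con} (hc : Clo6 K kf3 H Q) (hQ : ∀ c ∈ Q, hld (xv vi vr) c) : False := by
  have h1 : evg (xv vi vr) [1] = 1 := by
    obtain ⟨y, hy⟩ := h.hx
    rw [hy]
    simp
  induction hc with
  | t T hT => exact sound6 h hA h1e W hg hNk hNw hK hT hQ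
  | @i Q e e' hI he _ _ ihl ihr =>
    subst he
    have h4 := h.xI hI
    rcases le_or_gt 1 (evg vi e) with h5 | h5
    · refine ihl ?_
      intro c hc
      rcases List.mem_cons.1 hc with rfl | hc
      · show (1 : ℝ) ≤ evg (xv vi vr) e
        rw [h4]
        exact_mod_cast h5
      · exact hQ c hc
    · refine ihr ?_
      intro c hc
      rcases List.mem_cons.1 hc with rfl | hc
      · show (1 : ℝ) ≤ evg (xv vi vr) (axpy (-1) e [1])
        rw [evg_axpy, h1, h4]
        have h7 : (1 : ℤ) ≤ -1 * evg vi e + 1 := by omega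
        exact_mod_cast h7
      · exact hQ c hc
  | @q Q e e' j hj he _ _ ihl ihr =>
    subst he
    have h4 := h.ju (fun h1 h2 => W.nint h1 h2) hQ hj
    rcases lt_or_gt_of_ne h4 with h5 | h5
    · refine ihr ?_
      intro c hc
      rcases List.mem_cons.1 hc with rfl | hc
      · show (0 : ℝ) < evg (xv vi vr) (axpy (-1) e [])
        rw [evg_axpy, evg_nil]
        push_cast
        linarith
      · exact hQ c hc
    · refine ihl ?_
      intro c hc
      rcases List.mem_cons.1 hc with rfl | hc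
      · exact h5
      · exact hQ c hc
  | @w Q e e' he _ _ ihl ihr =>
    subst he
    rcases lt_or_ge 0 (evg (xv vi vr) e) with h5 | h5
    · refine ihl ?_
      intro c hc
      rcases List.mem_cons.1 hc with rfl | hc
      · exact h5
      · exact hQ c hc
    · refine ihr ?_
      intro c hc
      rcases List.mem_cons.1 hc with rfl | hc
      · show (1 : ℝ) ≤ evg (xv vi vr) (axpy (-1) e [1])
        rw [evg_axpy, h1]
        push_cast
        linarith
      · exact hQ c hc
  | h hh => exact hH _ hh hQ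

end

end Helper25.KG
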