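import Pool.Agent.Helper25.KG.C5d

set_option autoImplicit false

/-!
# The tree checker with index coincidence leaves (token `N = 1`): definitions
-/

noncomputable section

namespace Helper25.KG

open Helper11.CT

/-- `n - |τ|` -/
def tn (n : ℤ) (v : List ℤ) : ℤ := Int.sub n (Int.ofNat (tau v).natAbs)

/-- the generator `N = 1` -/
def eS : List ℤ := [0, 0, 0, 0, 1]

/-- index coincidence: `2 |I (v) - g D| < (2 - |τ|) Ie`, `N (v)` not divisible by `p` -/
def nc1 (K : Cls) (Q : List Con) (v : List ℤ) (g : ℤ) (c1 c2 : Cert) (z : NZ) : Bool :=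
  nzc K Q v z &&
    cert Q c1 (axpy (-2) (fI K v) (axpy (Int.mul 2 g) K.D (axpy (tn 2 v) (fI K eS) []))) &&
    cert Q c2 (axpy 2 (fI K v) (axpy (Int.mul (-2) g) K.D (axpy (tn 2 v) (fI K eS) [])))

/-- index coincidence: `-(2 - |τ|) Ie < 2 (I (v) - g D) < (4 - |τ|) Ie`, `N (v)` and `N (v) - 1`
not divisible by `p` -/
def nc2 (K : Cls) (Q : List Con) (r : KL) : Bool :=
  nzc K Q r.n r.zk && nzc K Q (dsub r.n eS) r.zk2 &&
    (match r.c with
      | [c1, c2] =>
        cert Q c1 (axpy (-2) (fI K r.n)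
          (axpy (Int.mul 2 r.q1) K.D (axpy (tn 4 r.n) (fI K eS) []))) &&
        cert Q c2 (axpy 2 (fI K r.n)
          (axpy (Int.mul (-2) r.q1) K.D (axpy (tn 2 r.n) (fI K eS) [])))
      | _ => false)

def chk6 (K : Cls) (kf : List KF3) : Tre → List Con → Bool
  | .I e L R, Q => isI K e && chk6 K kf L ((true, e) :: Q) &&
      chk6 K kf R ((true, axpy (-1) e [1]) :: Q)
  | .Q e j L R, Q => juc K Q e j && chk6 K kf L ((false, e) :: Q) &&
      chk6 K kf R ((false, axpy (-1) e []) :: Q)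
  | .C c, Q => comb c Q [] (Int.ofNat 0) false
  | .N v m c1 c2 z, Q => (nzc5 K Q v z &&
      cert Q c1 (axpy (Int.neg m) K.P (axpy 1 (fR K v) [1])) &&
      cert Q c2 (axpy m K.P (axpy (-1) (fR K v) [1]))) || nc1 K Q v m c1 c2 z
  | .K r, Q => klc4 K kf Q r || nc2 K Q r
  | .R r, Q => rlc K Q r
  | .S r, Q => slc K Q r

theorem chk6_I {K : Cls} {kf : List KF3} {e e' : List ℤ} {L R : Tre} {Q : List Con}
    (h1 : isI K e = true) (he : axpy (-1) e [1] = e')
    (h2 : chk6 K kf L ((true, e) :: Q) = true) (h3 : chk6 K kf R ((true, e') :: Q) = true) :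
    chk6 K kf (.I e L R) Q = true := by
  subst he
  simp only [chk6, h1, h2, h3, Bool.and_self]

theorem chk6_Q {K : Cls} {kf : List KF3} {e e' : List ℤ} {j : Ju} {L R : Tre} {Q : List Con}
    (h1 : juc K Q e j = true) (he : axpy (-1) e [] = e')
    (h2 : chk6 K kf L ((false, e) :: Q) = true)
    (h3 : chk6 K kf R ((false, e') :: Q) = true) : chk6 K kf (.Q e j L R) Q = true := by
  subst he
  simp only [chk6, h1, h2, h3, Bool.and_self]

/-- trees with holes -/
inductive Clo6 (K : Cls) (kf : List KF3) (H : List Con → Prop) : List Con → Prop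
  | t {Q : List Con} (T : Tre) (h : chk6 K kf T Q = true) : Clo6 K kf H Q
  | i {Q : List Con} (e : List ℤ) {e' : List ℤ} (h : isI K e = true) (he : axpy (-1) e [1] = e')
      (hl : Clo6 K kf H ((true, e) :: Q)) (hr : Clo6 K kf H ((true, e') :: Q)) : Clo6 K kf H Q
  | q {Q : List Con} (e : List ℤ) {e' : List ℤ} (j : Ju) (h : juc K Q e j = true)
      (he : axpy (-1) e [] = e')
      (hl : Clo6 K kf H ((false, e) :: Q)) (hr : Clo6 K kf H ((false, e') :: Q)) :
      Clo6 K kf H Q
  | w {Q : List Con} (e : List ℤ) {e' : List ℤ} (he : axpy (-1) e [1] = e')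
      (hl : Clo6 K kf H ((false, e) :: Q)) (hr : Clo6 K kf H ((true, e') :: Q)) : Clo6 K kf H Q
  | h {Q : List Con} (h : H Q) : Clo6 K kf H Q

end Helper25.KG
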