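import Pool.Agent.Helper25.KG.PL

set_option autoImplicit false
set_option linter.unusedVariables false

namespace Helper25.KG.P1_1_1_0_u

open Helper11.CT Helper25.KW Helper25.KG

def base : List Con :=
  [(false,[0,1,0,1,0,0,0,-1]),
  (false,[0,0,2,0,-1,0,0,1]),
  (true,[0,0,0,0,1,0,-2]),
  (true,[0,0,0,0,1,0,2]),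
  (false,[0,0,0,0,0,0,0,1,-1]),
  (false,[0,0,0,0,0,0,0,0,1]),
  (false,[0,0,0,0,1,0,0,-2]),
  (false,[0,0,0,0,0,-1,0,1]),
  (true,[0,0,0,0,0,1]),
  (true,[0,1,-1,-1]),
  (true,[0,1,0,-1]),
  (true,[0,0,0,1]),
  (true,[0,0,-2,0,1]),
  (true,[0,-2,0,0,1]),
  (true,[-1,0,1]),
  (true,[-1,1])]

def t0 : Tre :=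
  (.Q [0,1,1,0,0,0,1,-1,1] (.p true [0,0,1] [1] (⟨0,[(8,0)]⟩,⟨0,[(7,0)]⟩) .k 1 (⟨0,[]⟩,⟨0,[]⟩) .k
  .k) (.Q [0,1,-1,0,0,0,-1,1,-1] (.p false [0,0,1] [1] (⟨0,[(9,0)]⟩,⟨0,[(8,0)]⟩) .k 1 (⟨0,[]⟩,⟨0,
  []⟩) .k .k) (.K ⟨0,[1,0,-1],0,0,(⟨0,[(9,0)]⟩,⟨0,[(10,0)]⟩),.k,(.x 0 ⟨0,[(13,0)]⟩ ⟨3,[(7,0),(0,0),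
  (2,1),(0,3)]⟩),(.r 0 ⟨0,[(3,0)]⟩ ⟨1,[(8,0),(5,1),(3,0)]⟩),.k,.k,[⟨0,[(6,0),(3,0),(0,0)]⟩,⟨0,[(9,
  0)]⟩,⟨0,[(1,0)]⟩,⟨0,[(0,0)]⟩]⟩) (.Q [0,1,1,1,-1,0,1,-1,1] (.p true [0,0,1] [1] (⟨0,[(10,0)]⟩,⟨0,
  [(9,0)]⟩) .k 1 (⟨0,[]⟩,⟨0,[]⟩) .k .k) (.R ⟨2,true,false,false,[0,1],[1,0,-1],[1,0,1],(⟨0,[]⟩,⟨0,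
  []⟩),(⟨0,[(10,0)]⟩,⟨0,[(11,0)]⟩),⟨0,[]⟩,.k,.k,.k,(.x (-1) ⟨3,[(8,0),(0,0),(2,1),(0,3)]⟩ ⟨0,[(14,
  0)]⟩),.k,.k,⟨false,0,⟨2,[(0,0),(0,1),(8,2),(4,0),(2,0)]⟩,⟨1,[(8,0),(9,0)]⟩⟩,⟨true,0,⟨0,[(10,0)]⟩,
  ⟨0,[(1,0),(2,0),(10,0)]⟩⟩,⟨false,1,⟨0,[(16,0),(2,0)]⟩,⟨0,[(17,0)]⟩⟩,⟨true,1,⟨0,[(3,0),(12,0)]⟩,⟨0,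
  [(0,0)]⟩⟩,⟨true,0,⟨0,[]⟩,⟨0,[(21,0)]⟩⟩,⟨false,1,⟨0,[(3,0)]⟩,⟨1,[(1,0),(0,0)]⟩⟩,[]⟩) (.Q [0,0,-2,0,
  1,0,0,0,-1] (.p false [0,0,1] [] (⟨0,[(11,0)]⟩,⟨0,[(10,0)]⟩) .k 0 (⟨0,[]⟩,⟨0,[]⟩) .k .k) (.Q [0,0,
  0,0,0,-1,0,0,1] (.ed false [1,-1,1] .k) (.S ⟨1,0,[0,1,0,0,0,0,1],[0,0,1],[1,0,0,-1,0,0,1],(⟨0,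
  [(13,0)]⟩,⟨0,[(12,0)]⟩),⟨0,[(0,0)]⟩,.k,(.r (-1) ⟨5,[(2,1),(0,1),(7,2),(5,3),(2,0)]⟩ ⟨0,[(6,0)]⟩),
  ⟨false,1,⟨2,[(2,1),(0,0),(3,0),(10,0)]⟩,⟨0,[(19,0)]⟩⟩,⟨true,0,⟨0,[(23,0)]⟩,⟨0,[]⟩⟩,⟨true,0,⟨0,[]⟩,
  ⟨0,[(23,0)]⟩⟩,⟨false,0,⟨0,[(19,0)]⟩,⟨2,[(2,1),(0,0),(3,0),(10,0)]⟩⟩,[.a ⟨true,(-1),⟨0,[(3,0),(5,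
  0),(7,1),(1,1)]⟩,⟨0,[(5,0)]⟩⟩ ⟨true,0,⟨0,[(3,0),(8,0),(4,0)]⟩,⟨0,[(6,0)]⟩⟩ ⟨false,0,⟨0,[(3,0),(8,
  0),(4,1),(1,1)]⟩,⟨1,[(10,0),(10,0)]⟩⟩,.o ⟨false,0,⟨1,[(3,0),(0,0)]⟩,⟨0,[(2,0),(5,0)]⟩⟩,.o ⟨false,
  0,⟨0,[(3,0),(2,0),(10,0)]⟩,⟨7,[(1,3),(8,0),(0,0),(0,3),(1,1)]⟩⟩,.o ⟨false,0,⟨0,[(3,0),(2,0),(11,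
  0)]⟩,⟨0,[(1,0)]⟩⟩]⟩) (.R ⟨0,false,false,false,[0,0,1],[0,1],[1,0,0,-1,0,0,1],(⟨0,[(13,0)]⟩,⟨0,
  [(12,0)]⟩),(⟨0,[(16,0)]⟩,⟨0,[(15,0)]⟩),⟨0,[(0,0)]⟩,.k,.k,(.r (-1) ⟨5,[(2,1),(0,1),(7,2),(5,3),(2,
  0)]⟩ ⟨0,[(6,0)]⟩),(.r (-1) ⟨5,[(2,1),(0,1),(7,2),(5,3),(2,0)]⟩ ⟨0,[(6,0)]⟩),.k,.k,⟨false,1,⟨2,[(2,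
  0),(0,3),(8,2),(4,4),(2,1)]⟩,⟨0,[(6,0),(12,0)]⟩⟩,⟨true,1,⟨0,[(1,0)]⟩,⟨0,[(3,0),(2,0),(2,0),(7,
  0)]⟩⟩,⟨false,1,⟨2,[(2,1),(0,0),(3,0),(10,0)]⟩,⟨0,[(19,0)]⟩⟩,⟨true,1,⟨0,[(1,0),(4,0)]⟩,⟨0,[(3,0),
  (5,0),(7,1),(1,0)]⟩⟩,⟨false,0,⟨0,[]⟩,⟨0,[]⟩⟩,⟨false,0,⟨0,[]⟩,⟨0,[]⟩⟩,[.a ⟨true,0,⟨0,[(19,0)]⟩,⟨2,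
  [(2,0),(0,0),(5,0),(2,1),(0,1),(3,1)]⟩⟩ ⟨true,0,⟨0,[(3,0),(8,0),(4,0)]⟩,⟨0,[(6,0)]⟩⟩ ⟨false,1,⟨0,
  [(1,0),(17,0)]⟩,⟨4,[(2,0),(0,2),(5,1),(0,0),(2,2),(3,0),(0,2)]⟩⟩,.o ⟨false,1,⟨0,[(8,0),(12,0)]⟩,
  ⟨0,[(18,0)]⟩⟩,.o ⟨false,0,⟨0,[(3,0),(2,0),(10,0)]⟩,⟨7,[(1,3),(8,0),(0,0),(0,3),(1,1)]⟩⟩,.o ⟨false,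
  0,⟨0,[(3,0),(2,0),(11,0)]⟩,⟨0,[(1,0)]⟩⟩]⟩)) (.K ⟨0,[0,0,1],(-1),(-1),(⟨0,[(12,0)]⟩,⟨0,[(11,0)]⟩),
  .k,(.r (-1) ⟨5,[(1,1),(0,1),(7,2),(5,3),(2,0)]⟩ ⟨0,[(5,0)]⟩),(.x (-1) ⟨3,[(9,0),(0,0),(2,1),(0,
  3)]⟩ ⟨0,[(15,0)]⟩),.k,.k,[⟨3,[(9,0),(0,0),(0,3),(1,1)]⟩,⟨0,[(0,0)]⟩,⟨0,[(1,0),(5,0),(14,0)]⟩,⟨0,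
  [(2,0),(5,0),(7,1),(1,1)]⟩]⟩)))) (.Q [0,0,-3,0,1,0,0,0,-1] (.p false [0,0,1] [] (⟨0,[(9,0)]⟩,⟨0,
  [(8,0)]⟩) .k 0 (⟨0,[]⟩,⟨0,[]⟩) .k .k) (.Q [0,0,0,0,0,1,0,0,-1] (.ed true [1,-1,1] .k) (.R ⟨0,
  false,false,false,[0,0,1],[0,1],[1,0,1,1],(⟨0,[(11,0)]⟩,⟨0,[(10,0)]⟩),(⟨0,[(14,0)]⟩,⟨0,[(13,0)]⟩),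
  ⟨0,[(0,0)]⟩,.k,.k,(.r (-1) ⟨1,[(9,0),(5,1),(3,0)]⟩ ⟨0,[(4,0)]⟩),(.r (-1) ⟨1,[(9,0),(5,1),(3,0)]⟩
  ⟨0,[(4,0)]⟩),.k,.k,⟨true,0,⟨0,[]⟩,⟨7,[(7,3),(0,0),(0,0),(2,1)]⟩⟩,⟨false,1,⟨0,[(1,0)]⟩,⟨1,[(4,0),
  (0,0),(1,0),(3,0),(4,0)]⟩⟩,⟨false,0,⟨1,[(2,1),(3,1),(0,1),(3,1),(0,0),(6,0)]⟩,⟨1,[(9,0),(5,1),(3,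
  0)]⟩⟩,⟨true,0,⟨0,[(2,0),(3,0)]⟩,⟨3,[(5,1),(0,0),(0,2),(1,0),(1,1),(3,3),(0,0)]⟩⟩,⟨false,0,⟨0,[]⟩,
  ⟨0,[]⟩⟩,⟨false,0,⟨0,[]⟩,⟨0,[]⟩⟩,[.e ⟨false,0,⟨0,[(17,0)]⟩,⟨1,[(16,1),(1,0),(0,0)]⟩⟩ ⟨false,1,⟨9,
  [(1,5),(1,1),(2,3),(2,0),(0,1),(6,5),(1,0)]⟩,⟨1,[(7,1),(3,1),(0,0),(2,1),(3,0)]⟩⟩,.o ⟨false,1,⟨0,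
  [(6,0),(12,0)]⟩,⟨0,[(16,0)]⟩⟩,.a ⟨true,0,⟨3,[(4,0),(0,0),(1,0),(3,2),(4,0)]⟩,⟨0,[(1,0),(5,0)]⟩⟩
  ⟨true,0,⟨5,[(4,1),(1,1),(0,1),(1,0),(7,1),(1,0)]⟩,⟨0,[(15,0)]⟩⟩ ⟨false,1,⟨1,[(2,1),(3,1),(2,0),(9,
  0)]⟩,⟨1,[(7,1),(3,1),(0,0),(2,1),(3,0)]⟩⟩,.o ⟨false,0,⟨0,[(7,0),(3,0),(0,0)]⟩,⟨11,[(1,7),(6,0),(0,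
  0),(0,3),(1,1)]⟩⟩]⟩) (.I [0,-1,1,2] (.S ⟨1,0,[0,0,-1,-1],[1,-1],[1,1,-1,-2],(⟨0,[(14,0)]⟩,⟨0,[(15,
  0)]⟩),⟨0,[(1,1),(0,1),(5,2),(4,0)]⟩,.k,(.r (-1) ⟨0,[(16,1),(3,0)]⟩ ⟨4,[(0,1),(4,3),(1,1),(0,1),(1,
  1)]⟩),⟨true,0,⟨0,[(17,0)]⟩,⟨0,[(18,0)]⟩⟩,⟨false,1,⟨3,[(9,0),(0,0),(9,1)]⟩,⟨0,[]⟩⟩,⟨false,0,⟨0,[]⟩,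
  ⟨3,[(9,0),(0,0),(9,1)]⟩⟩,⟨true,0,⟨0,[(18,0)]⟩,⟨0,[(17,0)]⟩⟩,[.e ⟨false,1,⟨1,[(16,1),(0,1),(1,0),
  (0,0)]⟩,⟨0,[(0,0)]⟩⟩ ⟨false,1,⟨1,[(16,1),(2,0),(0,0)]⟩,⟨4,[(0,0),(4,1),(1,0),(0,0),(1,0)]⟩⟩,.o
  ⟨false,1,⟨0,[(17,0),(2,0)]⟩,⟨0,[(7,0)]⟩⟩,.o ⟨false,0,⟨7,[(8,3),(0,0),(0,0),(2,1)]⟩,⟨1,[(13,0),(5,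
  0)]⟩⟩,.a ⟨true,(-1),⟨0,[(8,0)]⟩,⟨0,[(19,0)]⟩⟩ ⟨false,1,⟨0,[(16,1),(3,0)]⟩,⟨13,[(0,11),(4,3),(2,5),
  (1,1),(2,2),(6,0)]⟩⟩ ⟨true,1,⟨1,[(16,1),(2,0),(0,0)]⟩,⟨0,[(7,0),(0,0)]⟩⟩]⟩) (.Q [0,0,-1,0,0,0,-1,
  0,-1] (.p false [0,0,1] [] (⟨0,[(12,0)]⟩,⟨0,[(11,0)]⟩) .k 0 (⟨0,[]⟩,⟨0,[]⟩) .k .k) (.I [1,-1,-1,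
  -1,0,0,-2] (.R ⟨1,false,false,false,[1,-1],[0,0,1],[0,0,-1,-1],(⟨0,[(16,0)]⟩,⟨0,[(17,0)]⟩),(⟨0,
  [(14,0)]⟩,⟨0,[(13,0)]⟩),⟨0,[(1,1),(1,1),(6,0),(1,0)]⟩,.k,.k,(.r (-1) ⟨1,[(2,1),(18,0),(0,0)]⟩ ⟨2,
  [(7,1),(1,1),(0,1),(1,0),(7,1),(1,0)]⟩),(.x 0 ⟨0,[(17,0)]⟩ ⟨3,[(11,0),(0,0),(2,1),(0,3)]⟩),(.r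
  (-1) ⟨15,[(0,3),(1,13),(8,3),(9,6),(0,4)]⟩ ⟨1,[(9,1),(0,1),(1,0),(7,1),(1,0)]⟩),.k,⟨true,0,⟨1,[(0,
  0),(17,0)]⟩,⟨1,[(9,1),(0,1),(1,0),(9,0)]⟩⟩,⟨false,1,⟨1,[(14,1),(0,0),(5,0)]⟩,⟨0,[(13,0)]⟩⟩,⟨false,
  1,⟨3,[(11,0),(0,0),(9,1)]⟩,⟨0,[]⟩⟩,⟨false,1,⟨0,[(8,0),(11,0)]⟩,⟨7,[(1,0),(0,3),(2,4),(4,0),(0,0),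
  (1,1),(10,0)]⟩⟩,⟨true,0,⟨0,[(20,0)]⟩,⟨0,[(19,0)]⟩⟩,⟨false,1,⟨0,[(8,0),(11,1)]⟩,⟨9,[(0,3),(1,7),(2,
  1),(4,1),(2,7),(1,0),(6,0)]⟩⟩,[.o ⟨false,1,⟨0,[(8,0),(15,0)]⟩,⟨0,[(1,0)]⟩⟩,.o ⟨false,1,⟨0,[(8,
  0)]⟩,⟨0,[(1,0),(22,0)]⟩⟩,.o ⟨false,0,⟨7,[(10,3),(0,0),(0,0),(2,1)]⟩,⟨1,[(15,0),(5,0)]⟩⟩,.a ⟨true,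
  (-1),⟨0,[(10,0)]⟩,⟨0,[(21,0)]⟩⟩ ⟨true,1,⟨3,[(2,1),(18,2),(0,0)]⟩,⟨0,[(9,0),(0,0)]⟩⟩ ⟨false,2,⟨0,
  [(8,0),(12,0)]⟩,⟨0,[(1,0),(8,0)]⟩⟩]⟩) (.S ⟨1,0,[0,0,0,0,0,0,1],[0,0,1],[0,1,0,0,0,0,1],(⟨0,[(14,
  0)]⟩,⟨0,[(13,0)]⟩),⟨0,[(3,0)]⟩,.k,(.r (-1) ⟨3,[(2,1),(9,1),(8,0),(0,0)]⟩ ⟨0,[(7,0)]⟩),⟨true,0,⟨0,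
  [(24,0)]⟩,⟨0,[]⟩⟩,⟨false,1,⟨3,[(11,0),(0,0),(9,1)]⟩,⟨0,[]⟩⟩,⟨false,0,⟨0,[(20,0)]⟩,⟨0,[(19,0),(2,
  0)]⟩⟩,⟨true,0,⟨0,[(20,0)]⟩,⟨0,[(19,0)]⟩⟩,[.o ⟨false,1,⟨0,[(8,0),(15,0)]⟩,⟨0,[(1,0)]⟩⟩,.o ⟨false,1,
  ⟨0,[(8,0)]⟩,⟨0,[(1,0),(22,0)]⟩⟩,.a ⟨true,0,⟨3,[(7,0),(0,0),(1,0),(3,2),(4,0)]⟩,⟨0,[(4,0),(5,0)]⟩⟩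
  ⟨true,0,⟨1,[(0,0),(17,0)]⟩,⟨5,[(1,3),(8,1),(0,0),(2,3),(0,0)]⟩⟩ ⟨false,1,⟨1,[(12,0),(9,0)]⟩,⟨5,
  [(1,3),(8,1),(0,0),(2,3),(0,0)]⟩⟩,.o ⟨false,0,⟨0,[(10,0),(3,0),(0,0)]⟩,⟨11,[(4,7),(6,0),(0,0),(0,
  3),(1,1)]⟩⟩]⟩)) (.I [1,1,1,0,-1,0,-1] (.R ⟨2,true,false,false,[0,1],[0,0,1],[1,1,1],(⟨0,[]⟩,⟨0,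
  []⟩),(⟨0,[(14,0)]⟩,⟨0,[(13,0)]⟩),⟨0,[]⟩,.k,.k,.k,(.r 0 ⟨0,[(7,0)]⟩ ⟨3,[(2,1),(9,1),(8,0),(0,0)]⟩),
  .k,.k,⟨true,(-1),⟨0,[(0,0)]⟩,⟨1,[(12,0),(9,0)]⟩⟩,⟨false,0,⟨5,[(0,0),(0,1),(6,0),(1,0),(0,0),(2,
  2)]⟩,⟨11,[(4,7),(6,0),(0,0),(0,3),(1,1)]⟩⟩,⟨true,0,⟨0,[(19,0)]⟩,⟨0,[(20,0)]⟩⟩,⟨false,1,⟨15,[(1,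
  11),(0,7),(5,3),(1,3),(0,2),(0,2),(9,9)]⟩,⟨0,[(5,0),(3,0)]⟩⟩,⟨false,0,⟨0,[]⟩,⟨3,[(11,0),(0,0),(9,
  1)]⟩⟩,⟨true,0,⟨0,[(1,0)]⟩,⟨12,[(0,10),(3,7),(4,0),(1,0),(1,4),(1,1),(3,0)]⟩⟩,[]⟩) (.R ⟨2,true,
  false,true,[0,1],[0,0,1],[1,0,1],(⟨0,[]⟩,⟨0,[]⟩),(⟨0,[(14,0)]⟩,⟨0,[(13,0)]⟩),⟨0,[]⟩,.k,.k,.k,(.r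
  0 ⟨0,[(7,0)]⟩ ⟨3,[(2,1),(9,1),(8,0),(0,0)]⟩),.k,.k,⟨true,0,⟨0,[(5,0),(4,0),(3,0),(0,0)]⟩,⟨1,[(0,
  0),(0,0),(0,0),(1,0),(4,1),(0,1)]⟩⟩,⟨false,0,⟨3,[(7,0),(0,0),(1,0),(3,2),(4,0)]⟩,⟨11,[(4,7),(6,0),
  (0,0),(0,3),(1,1)]⟩⟩,⟨false,1,⟨0,[(19,0),(2,0)]⟩,⟨0,[(20,0)]⟩⟩,⟨true,0,⟨0,[(1,0),(17,0)]⟩,⟨0,[(5,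
  0),(3,0)]⟩⟩,⟨true,0,⟨0,[]⟩,⟨0,[(24,0)]⟩⟩,⟨false,0,⟨0,[(1,0)]⟩,⟨1,[(5,0),(0,0),(8,0)]⟩⟩,[]⟩)))))
  (.Q [0,0,1,0,0,0,1,0,1] (.p true [0,0,1] [] (⟨0,[(10,0)]⟩,⟨0,[(9,0)]⟩) .k 0 (⟨0,[]⟩,⟨0,[]⟩) .k
  .k) (.R ⟨2,true,false,false,[0,1],[0,0,1],[1,1,1],(⟨0,[]⟩,⟨0,[]⟩),(⟨0,[(11,0)]⟩,⟨0,[(10,0)]⟩),⟨0,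
  []⟩,.k,.k,.k,(.r 0 ⟨0,[(4,0)]⟩ ⟨1,[(9,0),(5,1),(3,0)]⟩),.k,.k,⟨true,(-1),⟨0,[(1,0),(0,0),(3,0),(8,
  0)]⟩,⟨1,[(9,0),(9,0)]⟩⟩,⟨false,0,⟨4,[(0,1),(0,0),(6,0),(2,1)]⟩,⟨3,[(2,3),(3,1),(2,1),(2,0),(2,1),
  (2,0)]⟩⟩,⟨true,0,⟨0,[(16,0)]⟩,⟨0,[(17,0)]⟩⟩,⟨false,1,⟨0,[(0,0),(15,0),(2,0)]⟩,⟨0,[(2,0),(3,0)]⟩⟩,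
  ⟨false,0,⟨0,[]⟩,⟨3,[(8,0),(0,0),(9,1)]⟩⟩,⟨true,0,⟨0,[(0,0)]⟩,⟨0,[(2,0),(3,0),(9,0)]⟩⟩,[]⟩) (.Q [0,
  0,0,0,0,-2,0,1] (.pp false [-1,1]) (.R ⟨1,false,false,true,[1,-1],[1,0,-1],[0,0,-1,-1],(⟨0,[(14,
  0)]⟩,⟨0,[(15,0)]⟩),(⟨0,[(11,0)]⟩,⟨0,[(12,0)]⟩),⟨0,[(0,0)]⟩,.k,.k,(.r (-1) ⟨0,[(16,1),(3,0)]⟩ ⟨2,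
  [(5,1),(1,1),(0,1),(1,0),(7,1),(1,0)]⟩),(.r (-1) ⟨1,[(10,0),(5,1),(3,0)]⟩ ⟨0,[(5,0)]⟩),(.r (-2)
  ⟨1,[(10,0),(5,1),(0,1),(1,0),(0,1)]⟩ ⟨0,[(2,0),(0,0),(3,0),(10,0)]⟩),.k,⟨false,2,⟨1,[(10,0),(5,1),
  (2,0),(0,1)]⟩,⟨0,[(1,0),(5,0),(0,0),(3,0)]⟩⟩,⟨true,1,⟨1,[(1,1),(8,0),(8,0)]⟩,⟨0,[(2,0)]⟩⟩,⟨false,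
  1,⟨3,[(9,0),(0,0),(9,1)]⟩,⟨0,[]⟩⟩,⟨false,0,⟨0,[(3,0),(3,0)]⟩,⟨1,[(2,0),(7,0),(1,0),(3,0),(0,0),(2,
  1)]⟩⟩,⟨true,0,⟨0,[(18,0)]⟩,⟨0,[(17,0)]⟩⟩,⟨false,0,⟨0,[(3,0),(3,0),(10,0)]⟩,⟨1,[(2,1),(7,0),(5,3),
  (3,2)]⟩⟩,[.o ⟨false,0,⟨0,[(1,0),(20,0)]⟩,⟨0,[(6,0)]⟩⟩,.o ⟨false,0,⟨0,[(1,0)]⟩,⟨0,[(6,0),(15,0)]⟩⟩,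
  .o ⟨false,0,⟨11,[(2,3),(6,0),(0,0),(0,3),(1,1)]⟩,⟨1,[(13,0),(5,0)]⟩⟩,.a ⟨true,(-1),⟨0,[(8,0)]⟩,⟨0,
  [(19,0)]⟩⟩ ⟨true,1,⟨1,[(16,1),(2,0),(0,0)]⟩,⟨0,[(7,0),(0,0)]⟩⟩ ⟨false,1,⟨0,[(1,0),(17,0)]⟩,⟨1,[(2,
  1),(7,0),(9,0)]⟩⟩]⟩) (.R ⟨0,false,false,false,[1,-1],[0,0,1],[0,1,1],(⟨0,[(14,0)]⟩,⟨0,[(15,0)]⟩),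
  (⟨0,[(12,0)]⟩,⟨0,[(11,0)]⟩),⟨0,[(0,0)]⟩,.k,.k,(.r (-1) ⟨0,[(16,1),(3,0)]⟩ ⟨2,[(5,1),(1,1),(0,1),
  (1,0),(7,1),(1,0)]⟩),(.x 0 ⟨0,[(15,0)]⟩ ⟨3,[(9,0),(0,0),(2,1),(0,3)]⟩),.k,.k,⟨true,(-1),⟨1,[(1,1),
  (0,0),(4,0),(0,0),(3,0),(3,0)]⟩,⟨1,[(10,0),(9,0)]⟩⟩,⟨false,1,⟨1,[(12,1),(0,0),(5,0)]⟩,⟨0,[(11,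
  0)]⟩⟩,⟨true,(-1),⟨0,[(7,0),(0,0)]⟩,⟨1,[(16,1),(2,0),(0,0)]⟩⟩,⟨false,1,⟨0,[(6,0),(11,0)]⟩,⟨0,[(3,
  0),(13,0)]⟩⟩,⟨false,0,⟨0,[]⟩,⟨0,[]⟩⟩,⟨false,0,⟨0,[]⟩,⟨0,[]⟩⟩,[.o ⟨false,1,⟨0,[(6,0),(15,0)]⟩,⟨0,
  [(1,0)]⟩⟩,.o ⟨false,1,⟨0,[(6,0)]⟩,⟨0,[(1,0),(20,0)]⟩⟩,.o ⟨false,0,⟨11,[(2,3),(6,0),(0,0),(0,3),(1,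
  1)]⟩,⟨1,[(13,0),(5,0)]⟩⟩,.a ⟨true,(-1),⟨0,[(8,0)]⟩,⟨0,[(19,0)]⟩⟩ ⟨true,0,⟨0,[(22,0)]⟩,⟨0,[]⟩⟩
  ⟨false,2,⟨0,[(6,0),(12,0)]⟩,⟨0,[(1,0),(6,0)]⟩⟩]⟩)))))

def t1 : Tre :=
  (.Q [0,0,0,0,0,-2,0,1] (.pp false [-1,1]) (.Q [0,-1,3,0,-1,0,1,0,1] (.p true [0,0,1] [] (⟨0,[(9,
  0)]⟩,⟨0,[(8,0)]⟩) .k 0 (⟨0,[]⟩,⟨0,[]⟩) .k .k) (.I [0,-1,1,2] (.S ⟨1,0,[0,0,-1,-1],[1,-1],[1,1,-1,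
  -2],(⟨0,[(13,0)]⟩,⟨0,[(14,0)]⟩),⟨0,[(2,0)]⟩,.k,(.r (-1) ⟨0,[(4,1),(3,0)]⟩ ⟨2,[(0,1),(5,1),(0,1),
  (0,0),(0,0)]⟩),⟨true,0,⟨0,[(16,0)]⟩,⟨0,[(17,0)]⟩⟩,⟨false,1,⟨3,[(8,0),(0,0),(9,1)]⟩,⟨0,[]⟩⟩,⟨false,
  0,⟨0,[]⟩,⟨3,[(8,0),(0,0),(9,1)]⟩⟩,⟨true,0,⟨0,[(17,0)]⟩,⟨0,[(16,0)]⟩⟩,[.e ⟨false,1,⟨1,[(4,1),(3,0),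
  (7,1),(1,0)]⟩,⟨0,[(0,0)]⟩⟩ ⟨false,1,⟨1,[(4,1),(3,0),(9,0)]⟩,⟨5,[(0,1),(5,1),(0,1),(0,0),(0,0)]⟩⟩,
  .o ⟨false,1,⟨0,[(16,0),(2,0)]⟩,⟨0,[(6,0)]⟩⟩,.o ⟨false,0,⟨7,[(7,3),(0,0),(0,0),(2,1)]⟩,⟨1,[(12,0),
  (5,0)]⟩⟩,.a ⟨true,(-1),⟨0,[(7,0)]⟩,⟨0,[(18,0)]⟩⟩ ⟨false,1,⟨0,[(4,1),(3,0)]⟩,⟨7,[(0,7),(6,3),(0,0),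
  (0,0),(2,1)]⟩⟩ ⟨true,1,⟨1,[(4,1),(3,0),(9,0)]⟩,⟨0,[(6,0),(0,0)]⟩⟩]⟩) (.I [1,-1,0,0,0,0,1] (.Q [0,
  0,1,0,0,0,0,-1,1] (.p true [0,0,1] [1] (⟨0,[(12,0)]⟩,⟨0,[(11,0)]⟩) .k 1 (⟨0,[]⟩,⟨0,[]⟩) .k .k)
  (.R ⟨1,false,false,false,[1,-1],[0,0,1],[1,0,-1,-2],(⟨0,[(15,0)]⟩,⟨0,[(16,0)]⟩),(⟨0,[(13,0)]⟩,⟨0,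
  [(12,0)]⟩),⟨0,[(4,0)]⟩,.k,.k,(.r (-1) ⟨1,[(2,1),(17,0),(0,0)]⟩ ⟨3,[(8,3),(0,3),(0,0),(0,0),(7,3),
  (1,1)]⟩),(.x 0 ⟨0,[(16,0)]⟩ ⟨7,[(4,3),(5,2),(0,2),(2,1)]⟩),(.r (-2) ⟨3,[(2,3),(7,2),(0,0),(8,1),
  (0,1)]⟩ ⟨0,[(1,0),(6,0),(0,0),(9,0)]⟩),.k,⟨true,1,⟨1,[(2,1),(7,0),(10,0)]⟩,⟨0,[(1,0),(6,0),(0,0),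
  (9,0)]⟩⟩,⟨false,1,⟨1,[(13,1),(0,0),(5,0)]⟩,⟨0,[(12,0)]⟩⟩,⟨false,1,⟨0,[(18,0),(2,0)]⟩,⟨0,[(19,
  0)]⟩⟩,⟨false,0,⟨0,[(0,0),(0,0),(17,0)]⟩,⟨3,[(2,1),(7,1),(1,3),(7,0),(0,0)]⟩⟩,⟨true,0,⟨0,[]⟩,⟨0,
  [(23,0)]⟩⟩,⟨false,0,⟨0,[(0,0),(0,0),(17,1)]⟩,⟨1,[(2,1),(7,0),(1,1),(8,0)]⟩⟩,[.o ⟨false,0,⟨7,[(0,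
  3),(2,1),(2,2),(0,0),(0,2),(2,0),(1,0)]⟩,⟨0,[(5,0)]⟩⟩,.o ⟨false,0,⟨0,[(0,0),(0,0)]⟩,⟨0,[(5,0),(17,
  0)]⟩⟩,.o ⟨false,0,⟨7,[(9,3),(0,0),(0,0),(2,1)]⟩,⟨1,[(14,0),(5,0)]⟩⟩,.a ⟨true,(-1),⟨0,[(9,0)]⟩,⟨0,
  [(20,0)]⟩⟩ ⟨true,1,⟨1,[(2,1),(17,0),(0,0)]⟩,⟨0,[(8,0),(0,0),(9,0)]⟩⟩ ⟨false,1,⟨1,[(1,1),(11,1),(0,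
  0),(5,0)]⟩,⟨0,[(5,0),(3,0)]⟩⟩]⟩) (.S ⟨1,0,[0,1,0,0,0,0,-1],[1,0,-1],[0,0,0,0,0,0,-1],(⟨0,[(12,
  0)]⟩,⟨0,[(13,0)]⟩),⟨1,[(0,1),(3,0),(4,0),(4,0)]⟩,.k,(.x 0 ⟨0,[(16,0)]⟩ ⟨7,[(4,3),(5,2),(0,2),(2,
  1)]⟩),⟨false,1,⟨3,[(10,0),(0,0),(9,1)]⟩,⟨0,[]⟩⟩,⟨true,0,⟨0,[(23,0)]⟩,⟨0,[]⟩⟩,⟨true,0,⟨0,[(19,0)]⟩,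
  ⟨0,[(18,0)]⟩⟩,⟨false,0,⟨0,[(19,0)]⟩,⟨0,[(18,0),(2,0)]⟩⟩,[.e ⟨false,1,⟨1,[(10,0),(9,0)]⟩,⟨4,[(1,0),
  (4,1),(1,0),(0,0),(1,0),(7,0)]⟩⟩ ⟨false,1,⟨1,[(10,0),(9,0),(2,1)]⟩,⟨0,[(1,0)]⟩⟩,.o ⟨false,1,⟨0,
  [(5,0)]⟩,⟨15,[(2,1),(0,5),(2,4),(0,4),(0,8),(4,4),(0,0)]⟩⟩,.e ⟨false,1,⟨1,[(10,0),(10,0)]⟩,⟨4,[(1,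
  0),(4,1),(1,0),(0,0),(1,0),(7,0)]⟩⟩ ⟨false,1,⟨3,[(10,2),(0,0)]⟩,⟨0,[(1,0)]⟩⟩,.a ⟨true,0,⟨0,[(12,
  0)]⟩,⟨0,[(13,0)]⟩⟩ ⟨true,1,⟨1,[(10,0),(9,0)]⟩,⟨0,[(6,0),(1,0),(0,0)]⟩⟩ ⟨false,1,⟨1,[(10,0),(9,
  0)]⟩,⟨11,[(1,5),(1,3),(7,0),(0,3),(1,1),(6,0)]⟩⟩]⟩)) (.Q [0,-1,1,0,0,0,1,-1,1] (.p true [0,0,1]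
  [1] (⟨0,[(12,0)]⟩,⟨0,[(11,0)]⟩) .k 1 (⟨0,[]⟩,⟨0,[]⟩) .k .k) (.I [0,0,-2,0,1,-1] (.R ⟨1,false,
  false,true,[1,-1],[1,0,-1],[0,0,-1,-1],(⟨0,[(16,0)]⟩,⟨0,[(17,0)]⟩),(⟨0,[(13,0)]⟩,⟨0,[(14,0)]⟩),⟨0,
  [(5,0)]⟩,.k,.k,(.r (-1) ⟨1,[(3,1),(17,0),(0,0)]⟩ ⟨3,[(9,3),(0,3),(0,0),(0,0),(7,3),(1,1)]⟩),(.x 0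
  ⟨3,[(10,3),(0,0),(0,0),(2,1),(1,3)]⟩ ⟨0,[(0,0)]⟩),(.r (-1) ⟨7,[(3,5),(3,3),(4,1),(8,2),(0,2)]⟩ ⟨1,
  [(9,1),(0,1),(0,0),(8,1),(1,0)]⟩),.k,⟨false,1,⟨1,[(7,1),(13,0),(0,0)]⟩,⟨1,[(9,0),(0,0),(0,0),(8,
  0),(3,0)]⟩⟩,⟨true,1,⟨0,[(6,0),(0,0),(12,0)]⟩,⟨0,[(2,0),(1,0)]⟩⟩,⟨false,1,⟨3,[(11,0),(0,0),(9,1)]⟩,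
  ⟨0,[]⟩⟩,⟨false,1,⟨0,[(6,0),(13,0)]⟩,⟨25,[(3,9),(0,13),(2,5),(4,2),(1,11),(7,10)]⟩⟩,⟨true,0,⟨0,
  [(20,0)]⟩,⟨0,[(19,0)]⟩⟩,⟨false,1,⟨0,[(6,0),(13,1)]⟩,⟨12,[(3,11),(0,8),(2,1),(4,0),(1,3),(7,7)]⟩⟩,
  [.o ⟨false,1,⟨0,[(6,0),(17,0)]⟩,⟨0,[(1,0)]⟩⟩,.o ⟨false,1,⟨0,[(6,0)]⟩,⟨7,[(1,4),(2,0),(4,2),(2,0),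
  (1,1),(4,2)]⟩⟩,.o ⟨false,0,⟨7,[(10,3),(0,0),(0,0),(2,1)]⟩,⟨1,[(15,0),(5,0)]⟩⟩,.a ⟨true,(-1),⟨0,
  [(10,0)]⟩,⟨0,[(21,0)]⟩⟩ ⟨true,1,⟨3,[(3,1),(17,2),(0,0)]⟩,⟨0,[(9,0),(0,0)]⟩⟩ ⟨false,2,⟨0,[(6,0),
  (14,0)]⟩,⟨0,[(4,0)]⟩⟩]⟩) (.S ⟨1,0,[0,1,0,0,0,0,-1],[1,0,-1],[1,0,0,-1,0,0,-1],(⟨0,[(13,0)]⟩,⟨0,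
  [(14,0)]⟩),⟨0,[(0,0),(4,0),(0,0),(0,0),(12,0)]⟩,.k,(.x 0 ⟨0,[(17,0)]⟩ ⟨7,[(5,3),(5,2),(0,2),(2,
  1)]⟩),⟨false,1,⟨0,[(19,0),(2,0)]⟩,⟨0,[(20,0)]⟩⟩,⟨true,0,⟨0,[(24,0)]⟩,⟨0,[]⟩⟩,⟨true,0,⟨0,[]⟩,⟨0,
  [(24,0)]⟩⟩,⟨false,0,⟨0,[(20,0)]⟩,⟨0,[(19,0),(2,0)]⟩⟩,[.o ⟨false,1,⟨0,[(6,0),(17,0)]⟩,⟨0,[(1,0)]⟩⟩,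
  .o ⟨false,1,⟨0,[(6,0)]⟩,⟨7,[(1,4),(2,0),(4,2),(2,0),(1,1),(4,2)]⟩⟩,.o ⟨false,1,⟨5,[(6,3),(0,1),(1,
  1),(2,0),(0,1),(8,0)]⟩,⟨0,[(1,0),(0,0)]⟩⟩,.a ⟨true,0,⟨0,[(13,0)]⟩,⟨0,[(14,0)]⟩⟩ ⟨true,1,⟨3,[(3,1),
  (7,1),(9,0),(0,0)]⟩,⟨0,[(7,0),(1,0),(0,0),(9,0)]⟩⟩ ⟨false,1,⟨1,[(11,0),(9,0)]⟩,⟨0,[(1,0),(11,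
  0)]⟩⟩]⟩)) (.I [0,0,-2,0,1,-1] (.K ⟨0,[1,0,-1],0,0,(⟨0,[(13,0)]⟩,⟨0,[(14,0)]⟩),.k,(.x 0 ⟨0,[(17,
  0)]⟩ ⟨7,[(5,3),(5,2),(0,2),(2,1)]⟩),(.x (-1) ⟨0,[(0,0)]⟩ ⟨3,[(10,3),(0,0),(0,0),(2,1),(1,3)]⟩),.k,
  .k,[⟨4,[(2,3),(1,2),(3,0),(5,0),(0,1)]⟩,⟨0,[(13,0)]⟩,⟨7,[(3,1),(0,2),(3,0),(0,6),(2,1),(1,3),(4,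
  2)]⟩,⟨0,[(1,0)]⟩]⟩) (.Q [0,0,1,0,0,0,0,-1,1] (.p true [0,0,1] [1] (⟨0,[(14,0)]⟩,⟨0,[(13,0)]⟩) .k
  1 (⟨0,[]⟩,⟨0,[]⟩) .k .k) (.Q [0,-1,1,1,0,0,1,-1,1] (.p true [0,0,1] [1] (⟨0,[(15,0)]⟩,⟨0,[(14,
  0)]⟩) .k 1 (⟨0,[]⟩,⟨0,[]⟩) .k .k) (.R ⟨2,true,false,true,[0,1],[1,0,-1],[1,1,1],(⟨0,[]⟩,⟨0,[]⟩),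
  (⟨0,[(15,0)]⟩,⟨0,[(16,0)]⟩),⟨0,[]⟩,.k,.k,.k,(.x (-1) ⟨7,[(7,3),(5,2),(0,2),(2,1)]⟩ ⟨0,[(19,0)]⟩),
  .k,.k,⟨false,0,⟨5,[(6,0),(2,2),(1,0),(2,0),(0,0),(6,1)]⟩,⟨1,[(13,0),(9,0)]⟩⟩,⟨true,0,⟨0,[(15,0)]⟩,
  ⟨0,[(1,0)]⟩⟩,⟨true,0,⟨0,[(21,0)]⟩,⟨0,[(22,0)]⟩⟩,⟨false,1,⟨7,[(3,3),(1,3),(7,2),(0,0),(0,3),(8,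
  3)]⟩,⟨0,[(0,0)]⟩⟩,⟨false,0,⟨0,[]⟩,⟨3,[(13,0),(0,0),(9,1)]⟩⟩,⟨true,0,⟨0,[(3,0)]⟩,⟨14,[(0,0),(0,9),
  (4,2),(2,4),(1,3),(2,2),(1,0)]⟩⟩,[]⟩) (.K ⟨0,[1,-1,-1],0,0,(⟨0,[(2,0),(4,0),(0,0),(0,0),(12,0)]⟩,
  ⟨0,[(16,0),(2,0)]⟩),(.x 0 ⟨0,[(19,0)]⟩ ⟨7,[(7,3),(5,2),(0,2),(2,1)]⟩),(.r (-2) ⟨3,[(5,3),(7,2),(0,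
  0),(8,1),(0,1)]⟩ ⟨3,[(2,3),(3,0),(0,1),(1,2),(1,2),(3,0),(6,7),(1,0)]⟩),.k,.k,.k,[⟨0,[(1,0)]⟩,⟨7,
  [(12,3),(0,0),(0,0),(0,7),(1,1)]⟩,⟨2,[(6,0),(4,2),(2,0),(1,1),(9,0)]⟩,⟨0,[(0,0)]⟩]⟩)) (.S ⟨1,0,[0,
  1,0,0,0,0,-1],[1,0,-1],[0,0,0,0,0,0,-1],(⟨0,[(14,0)]⟩,⟨0,[(15,0)]⟩),⟨2,[(0,1),(0,0),(4,1),(7,0),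
  (1,0)]⟩,.k,(.x 0 ⟨0,[(18,0)]⟩ ⟨7,[(6,3),(5,2),(0,2),(2,1)]⟩),⟨false,1,⟨3,[(12,0),(0,0),(9,1)]⟩,⟨0,
  []⟩⟩,⟨true,0,⟨0,[(25,0)]⟩,⟨0,[]⟩⟩,⟨true,0,⟨0,[(21,0)]⟩,⟨0,[(20,0)]⟩⟩,⟨false,0,⟨0,[(21,0)]⟩,⟨0,
  [(20,0),(2,0)]⟩⟩,[.a ⟨true,0,⟨0,[(2,0)]⟩,⟨6,[(5,2),(2,1),(4,0),(1,3),(5,1),(1,1)]⟩⟩ ⟨false,1,⟨1,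
  [(12,0),(9,0)]⟩,⟨4,[(0,0),(4,0),(2,1),(1,0),(2,0),(7,0)]⟩⟩ ⟨true,0,⟨0,[(3,0)]⟩,⟨9,[(0,5),(4,5),(2,
  1),(1,1),(2,0),(2,1),(6,2)]⟩⟩,.o ⟨false,1,⟨0,[(7,0)]⟩,⟨15,[(4,1),(0,5),(2,4),(0,4),(0,8),(4,4),(0,
  0)]⟩⟩,.a ⟨true,0,⟨0,[(0,0)]⟩,⟨11,[(5,3),(6,2),(0,0),(1,7),(9,3)]⟩⟩ ⟨false,1,⟨1,[(12,0),(10,0)]⟩,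
  ⟨4,[(0,0),(4,0),(2,1),(1,0),(2,0),(7,0)]⟩⟩ ⟨true,0,⟨0,[(3,0)]⟩,⟨4,[(0,0),(4,0),(2,1),(1,0),(2,0),
  (7,0)]⟩⟩,.a ⟨true,0,⟨0,[(14,0)]⟩,⟨0,[(15,0)]⟩⟩ ⟨true,1,⟨1,[(12,0),(9,0)]⟩,⟨0,[(8,0),(1,0),(0,
  0)]⟩⟩ ⟨false,1,⟨1,[(12,0),(9,0)]⟩,⟨9,[(0,5),(4,5),(2,1),(1,1),(2,0),(2,1),(6,2)]⟩⟩]⟩)))))) (.K ⟨0,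
  [1,0,-1],0,0,(⟨0,[(9,0)]⟩,⟨0,[(10,0)]⟩),.k,(.x 0 ⟨0,[(13,0)]⟩ ⟨7,[(1,3),(5,2),(0,2),(2,1)]⟩),(.x
  (-1) ⟨1,[(0,0),(0,0),(1,0),(1,0),(4,0),(7,0)]⟩ ⟨3,[(6,3),(0,0),(0,0),(2,1),(1,3)]⟩),.k,.k,[⟨0,[(6,
  0),(3,0),(0,0)]⟩,⟨0,[(9,0)]⟩,⟨1,[(3,0),(0,0),(0,1),(0,0),(3,0),(4,0)]⟩,⟨0,[(0,0),(5,0)]⟩]⟩)) (.Q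
  [0,1,1,1,-1,0,1,-1,1] (.p true [0,0,1] [1] (⟨0,[(9,0)]⟩,⟨0,[(8,0)]⟩) .k 1 (⟨0,[]⟩,⟨0,[]⟩) .k .k)
  (.I [0,0,2,1,-1,0,1] (.Q [0,-1,1,0,0,0,1,-1,1] (.p true [0,0,1] [1] (⟨0,[(11,0)]⟩,⟨0,[(10,0)]⟩)
  .k 1 (⟨0,[]⟩,⟨0,[]⟩) .k .k) (.R ⟨0,false,false,false,[1,-1],[0,0,1],[1,0,-1,-1],(⟨0,[(14,0)]⟩,⟨0,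
  [(15,0)]⟩),(⟨0,[(12,0)]⟩,⟨0,[(11,0)]⟩),⟨0,[(3,0)]⟩,.k,.k,(.r (-1) ⟨0,[(5,1),(3,0)]⟩ ⟨3,[(1,3),(7,
  2),(0,0),(7,3)]⟩),(.x 0 ⟨0,[(15,0)]⟩ ⟨3,[(9,0),(0,0),(2,1),(0,3)]⟩),.k,.k,⟨true,1,⟨0,[(5,0),(3,
  0)]⟩,⟨0,[(1,0)]⟩⟩,⟨false,1,⟨1,[(12,1),(0,0),(5,0)]⟩,⟨0,[(11,0)]⟩⟩,⟨true,0,⟨0,[]⟩,⟨0,[(22,0)]⟩⟩,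
  ⟨false,0,⟨0,[(2,0),(17,0)]⟩,⟨0,[(5,0),(3,0),(1,0)]⟩⟩,⟨false,0,⟨0,[]⟩,⟨0,[]⟩⟩,⟨false,0,⟨0,[]⟩,⟨0,
  []⟩⟩,[.o ⟨false,0,⟨2,[(0,0),(1,0),(3,0),(10,0)]⟩,⟨0,[(4,0)]⟩⟩,.o ⟨false,0,⟨0,[(0,0)]⟩,⟨0,[(4,0),
  (17,0)]⟩⟩,.o ⟨false,0,⟨7,[(8,3),(0,0),(0,0),(2,1)]⟩,⟨1,[(13,0),(5,0)]⟩⟩,.a ⟨true,(-1),⟨0,[(8,0)]⟩,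
  ⟨0,[(19,0)]⟩⟩ ⟨true,1,⟨1,[(5,1),(3,0),(9,0)]⟩,⟨0,[(7,0),(0,0)]⟩⟩ ⟨false,1,⟨0,[(0,0),(18,0)]⟩,⟨0,
  [(4,0),(3,0)]⟩⟩]⟩) (.I [0,0,-2,0,1,-1] (.K ⟨0,[1,0,-1],0,0,(⟨0,[(12,0)]⟩,⟨0,[(13,0)]⟩),.k,(.x 0
  ⟨0,[(16,0)]⟩ ⟨3,[(10,0),(0,0),(2,1),(0,3)]⟩),(.x (-1) ⟨0,[(0,0)]⟩ ⟨7,[(4,3),(4,7),(0,2),(0,2),(2,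
  1)]⟩),.k,.k,[⟨0,[(9,0),(3,0),(0,0)]⟩,⟨0,[(12,0)]⟩,⟨1,[(3,0),(3,0),(10,0),(4,0)]⟩,⟨0,[(1,0)]⟩]⟩)
  (.Q [0,0,-1,0,0,0,0,1,-1] (.p false [0,0,1] [1] (⟨0,[(13,0)]⟩,⟨0,[(12,0)]⟩) .k 1 (⟨0,[]⟩,⟨0,[]⟩)
  .k .k) (.Q [0,0,0,0,0,-1,0,1,-1] (.ed true [0,1,1] .k) (.S ⟨1,1,[],[1,0,-1],[0,0,0,0,0,0,-1],(⟨0,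
  [(14,0)]⟩,⟨0,[(15,0)]⟩),⟨0,[(0,0)]⟩,.k,(.x 0 ⟨0,[(18,0)]⟩ ⟨3,[(12,0),(0,0),(2,1),(0,3)]⟩),⟨false,
  1,⟨3,[(12,0),(0,0),(9,1)]⟩,⟨0,[]⟩⟩,⟨true,0,⟨2,[(5,0),(2,0),(0,0),(1,0),(3,0),(0,0)]⟩,⟨0,[(3,0)]⟩⟩,
  ⟨true,0,⟨0,[(21,0)]⟩,⟨0,[(20,0)]⟩⟩,⟨false,0,⟨0,[(5,0),(17,0)]⟩,⟨0,[(3,0),(16,0),(2,0)]⟩⟩,[.fo,.o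
  ⟨false,1,⟨1,[(16,0),(6,0)]⟩,⟨0,[(25,0)]⟩⟩,.e ⟨false,1,⟨1,[(12,0),(10,0)]⟩,⟨13,[(1,1),(2,1),(0,1),
  (2,3),(4,2),(9,0)]⟩⟩ ⟨false,1,⟨5,[(9,1),(1,1),(0,0),(2,3),(0,2),(6,1)]⟩,⟨0,[(1,0)]⟩⟩,.a ⟨true,0,
  ⟨0,[(14,0)]⟩,⟨0,[(15,0)]⟩⟩ ⟨true,1,⟨1,[(12,0),(9,0)]⟩,⟨4,[(0,0),(1,0),(0,0),(0,1),(0,1),(2,1),(11,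
  1)]⟩⟩ ⟨false,1,⟨1,[(15,1),(0,0),(6,0)]⟩,⟨0,[(14,0)]⟩⟩]⟩) (.R ⟨0,false,false,true,[1,0,-1],[0,1],
  [0,1,2,1],(⟨0,[(14,0)]⟩,⟨0,[(15,0)]⟩),(⟨0,[(18,0)]⟩,⟨0,[(17,0)]⟩),⟨0,[(0,0)]⟩,.k,.k,(.x 0 ⟨0,[(18,
  0)]⟩ ⟨3,[(12,0),(0,0),(2,1),(0,3)]⟩),(.x 0 ⟨0,[(18,0)]⟩ ⟨3,[(12,0),(0,0),(2,1),(0,3)]⟩),.k,.k,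
  ⟨true,0,⟨7,[(11,3),(0,0),(0,0),(2,1)]⟩,⟨0,[]⟩⟩,⟨false,1,⟨1,[(15,1),(0,0),(5,0)]⟩,⟨0,[(14,0)]⟩⟩,
  ⟨false,(-1),⟨0,[(4,0)]⟩,⟨1,[(8,1),(3,1),(9,0),(0,0)]⟩⟩,⟨true,(-1),⟨0,[(5,0)]⟩,⟨0,[(3,0),(16,0),(2,
  0)]⟩⟩,⟨false,0,⟨0,[]⟩,⟨0,[]⟩⟩,⟨false,0,⟨0,[]⟩,⟨0,[]⟩⟩,[.o ⟨false,0,⟨0,[(10,0)]⟩,⟨0,[(20,0),(2,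
  0)]⟩⟩,.a ⟨true,0,⟨0,[(21,0)]⟩,⟨1,[(3,0),(4,0),(2,0),(3,0),(4,0),(2,0)]⟩⟩ ⟨false,0,⟨7,[(4,3),(7,2),
  (0,0),(7,3)]⟩,⟨1,[(8,1),(3,0),(9,0)]⟩⟩ ⟨true,0,⟨1,[(5,1),(6,0),(10,0)]⟩,⟨0,[(7,0),(0,0),(2,0)]⟩⟩,
  .a ⟨true,0,⟨0,[(1,0)]⟩,⟨11,[(5,0),(3,2),(1,3),(0,1),(2,7),(4,0),(4,0)]⟩⟩ ⟨true,(-1),⟨0,[(10,0),(0,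
  0)]⟩,⟨1,[(8,1),(3,0),(9,0)]⟩⟩ ⟨false,0,⟨1,[(5,1),(6,0),(10,0)]⟩,⟨0,[(1,0),(18,0),(2,0)]⟩⟩,.a
  ⟨true,0,⟨0,[(14,0)]⟩,⟨0,[(15,0)]⟩⟩ ⟨false,0,⟨7,[(4,3),(7,2),(0,0),(7,3)]⟩,⟨1,[(8,1),(3,0),(10,
  0)]⟩⟩ ⟨true,0,⟨0,[(10,0),(4,0)]⟩,⟨0,[(7,0),(0,0),(2,0)]⟩⟩]⟩)) (.R ⟨2,true,false,false,[0,1],[1,0,
  -1],[1,0,1],(⟨0,[]⟩,⟨0,[]⟩),(⟨0,[(13,0)]⟩,⟨0,[(14,0)]⟩),⟨0,[]⟩,.k,.k,.k,(.x (-1) ⟨3,[(11,0),(0,0),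
  (2,1),(0,3)]⟩ ⟨0,[(17,0)]⟩),.k,.k,⟨false,0,⟨4,[(3,0),(3,1),(4,0),(7,0)]⟩,⟨1,[(11,0),(9,0)]⟩⟩,
  ⟨true,0,⟨0,[(13,0)]⟩,⟨0,[(0,0)]⟩⟩,⟨false,1,⟨0,[(19,0),(2,0)]⟩,⟨0,[(20,0)]⟩⟩,⟨true,1,⟨0,[(2,0),(16,
  0),(2,0)]⟩,⟨0,[(4,0)]⟩⟩,⟨true,0,⟨0,[]⟩,⟨0,[(24,0)]⟩⟩,⟨false,1,⟨0,[(2,0),(19,0)]⟩,⟨7,[(0,2),(2,0),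
  (0,1),(2,1),(0,2),(10,0)]⟩⟩,[]⟩)))) (.Q [0,-1,-2,0,2,0,-2,1,-2] (.p false [0,0,1] [1,0,-1] (⟨0,
  [(11,0)]⟩,⟨0,[(10,0)]⟩) .k 2 (⟨0,[(10,0)]⟩,⟨0,[(11,0)]⟩) .k (.r 0 ⟨2,[(1,1),(2,1),(4,0),(0,1),(8,
  0)]⟩ ⟨0,[(8,0)]⟩)) (.R ⟨0,false,false,true,[1,0,-1],[0,0,1],[1,1,0,0,0,0,1],(⟨0,[(11,0)]⟩,⟨0,[(12,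
  0)]⟩),(⟨0,[(12,0)]⟩,⟨0,[(11,0)]⟩),⟨1,[(1,1),(0,1),(0,0),(4,0),(11,0)]⟩,.k,.k,(.x 0 ⟨0,[(15,0)]⟩
  ⟨3,[(9,0),(0,0),(2,1),(0,3)]⟩),.k,.k,.k,⟨true,0,⟨0,[]⟩,⟨7,[(8,3),(0,0),(0,0),(2,1)]⟩⟩,⟨false,0,⟨1,
  [(1,1),(0,1),(5,1),(3,1),(0,0),(6,0)]⟩,⟨1,[(0,0),(4,1),(1,0),(3,1),(6,0)]⟩⟩,⟨true,(-1),⟨0,[(2,0),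
  (2,0),(5,0)]⟩,⟨0,[(9,0)]⟩⟩,⟨false,(-1),⟨1,[(2,1),(2,1),(2,1),(3,1),(0,0),(6,0)]⟩,⟨0,[(0,0)]⟩⟩,
  ⟨false,0,⟨0,[]⟩,⟨0,[]⟩⟩,⟨false,0,⟨0,[]⟩,⟨0,[]⟩⟩,[.e ⟨false,0,⟨9,[(2,5),(2,1),(4,0),(0,5),(4,3),(2,
  4)]⟩,⟨1,[(9,0),(10,0)]⟩⟩ ⟨false,(-1),⟨3,[(1,3),(0,5),(2,1),(2,3),(3,1),(0,0),(6,0)]⟩,⟨5,[(0,4),(4,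
  1),(1,0),(2,0),(0,1),(6,0),(1,0)]⟩⟩,.o ⟨false,0,⟨2,[(2,0),(2,0),(0,0),(1,0),(3,0),(0,0)]⟩,⟨0,[(4,
  0)]⟩⟩,.o ⟨false,1,⟨5,[(0,1),(4,1),(1,1),(2,0),(0,1),(1,0)]⟩,⟨1,[(1,1),(0,1),(5,1),(4,0),(6,0)]⟩⟩,
  .a ⟨true,0,⟨0,[(11,0)]⟩,⟨0,[(12,0)]⟩⟩ ⟨false,0,⟨0,[(5,0),(12,0)]⟩,⟨15,[(0,1),(5,3),(1,7),(0,7),(3,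
  2),(6,4)]⟩⟩ ⟨true,(-1),⟨3,[(1,3),(0,5),(2,1),(2,3),(3,1),(0,0),(6,0)]⟩,⟨0,[(4,0),(6,0)]⟩⟩]⟩) (.R
  ⟨0,false,false,false,[1,0,-1],[2,-1,-1],[1,0,-1,-1,0,0,-1],(⟨0,[(11,0)]⟩,⟨0,[(12,0)]⟩),(⟨0,[(11,
  0),(2,0)]⟩,⟨3,[(0,1),(0,1),(1,1),(5,0),(8,1),(1,0)]⟩),⟨3,[(0,1),(0,1),(1,1),(5,0),(8,1),(1,0)]⟩,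
  .k,(.x 0 ⟨0,[(15,0)]⟩ ⟨3,[(9,0),(0,0),(2,1),(0,3)]⟩),(.x 0 ⟨0,[(15,0)]⟩ ⟨3,[(9,0),(0,0),(2,1),(0,
  3)]⟩),.k,.k,.k,⟨true,0,⟨0,[]⟩,⟨7,[(8,3),(0,0),(0,0),(2,1)]⟩⟩,⟨false,0,⟨0,[(11,0),(0,0)]⟩,⟨1,[(13,
  0),(5,0)]⟩⟩,⟨false,1,⟨2,[(1,0),(3,0),(11,0),(2,1)]⟩,⟨7,[(7,3),(0,3),(0,0),(0,0),(7,3),(1,1)]⟩⟩,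
  ⟨true,0,⟨5,[(1,3),(3,1),(2,4),(1,0),(0,0),(0,0)]⟩,⟨0,[(7,0)]⟩⟩,⟨false,0,⟨0,[]⟩,⟨0,[]⟩⟩,⟨false,0,
  ⟨0,[]⟩,⟨0,[]⟩⟩,[.o ⟨false,1,⟨3,[(1,1),(7,0),(1,3),(5,1),(2,0)]⟩,⟨1,[(2,1),(10,0),(6,0)]⟩⟩,.e
  ⟨false,2,⟨3,[(1,3),(7,0),(0,0),(9,1)]⟩,⟨0,[(2,0),(8,0)]⟩⟩ ⟨false,1,⟨1,[(1,1),(6,0),(2,0),(0,0),(7,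
  0)]⟩,⟨5,[(2,1),(2,1),(1,5),(2,0),(0,1),(8,0)]⟩⟩,.o ⟨false,1,⟨5,[(4,3),(0,1),(1,1),(2,0),(0,1),(8,
  0)]⟩,⟨3,[(0,1),(8,1),(3,0),(6,0)]⟩⟩,.a ⟨true,0,⟨0,[(11,0)]⟩,⟨0,[(12,0)]⟩⟩ ⟨true,1,⟨0,[(1,0)]⟩,⟨5,
  [(2,3),(4,1),(0,3),(1,0),(0,3),(1,0)]⟩⟩ ⟨false,1,⟨1,[(1,1),(6,0),(2,0),(0,0),(7,0)]⟩,⟨1,[(2,1),(8,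
  1),(1,0),(6,0)]⟩⟩]⟩))) (.R ⟨0,false,false,true,[1,-1],[0,0,1],[1,1,0,0,0,0,1],(⟨0,[(12,0)]⟩,⟨0,
  [(13,0)]⟩),(⟨0,[(10,0)]⟩,⟨0,[(9,0)]⟩),⟨0,[(1,0)]⟩,.k,.k,(.r (-1) ⟨2,[(0,1),(2,1),(6,1),(0,0),(2,
  1)]⟩ ⟨3,[(5,3),(0,3),(0,0),(0,0),(7,3),(1,1)]⟩),(.x 0 ⟨0,[(13,0)]⟩ ⟨3,[(7,0),(0,0),(2,1),(0,3)]⟩),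
  .k,.k,⟨true,0,⟨0,[]⟩,⟨7,[(6,3),(0,0),(0,0),(2,1)]⟩⟩,⟨false,1,⟨1,[(10,1),(0,0),(5,0)]⟩,⟨0,[(9,
  0)]⟩⟩,⟨true,(-1),⟨0,[(3,0),(1,0),(0,0),(9,0)]⟩,⟨3,[(0,1),(6,0),(2,1),(0,0),(2,1)]⟩⟩,⟨false,0,⟨0,
  [(3,0),(1,1),(0,0),(3,0),(7,0)]⟩,⟨0,[(0,0)]⟩⟩,⟨false,0,⟨0,[]⟩,⟨0,[]⟩⟩,⟨false,0,⟨0,[]⟩,⟨0,[]⟩⟩,[.e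
  ⟨false,0,⟨0,[(3,0),(12,0),(3,0)]⟩,⟨1,[(7,0),(10,0)]⟩⟩ ⟨false,0,⟨0,[(3,0),(1,0),(4,0)]⟩,⟨1,[(7,0),
  (1,1),(8,0)]⟩⟩,.o ⟨false,0,⟨1,[(3,1),(1,1),(0,1),(3,1),(0,0),(6,0)]⟩,⟨0,[(2,0)]⟩⟩,.o ⟨false,0,⟨7,
  [(6,3),(0,0),(0,0),(2,1)]⟩,⟨1,[(11,0),(5,0)]⟩⟩,.a ⟨true,(-1),⟨0,[(6,0)]⟩,⟨0,[(17,0)]⟩⟩ ⟨false,0,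
  ⟨0,[(3,0),(12,0)]⟩,⟨7,[(6,3),(0,4),(0,0),(2,1),(6,3)]⟩⟩ ⟨true,0,⟨0,[(3,0),(1,0),(4,0)]⟩,⟨0,[(2,0),
  (3,0)]⟩⟩]⟩)))

def tree : Tre :=
  (.Q [0,-1,1,0,1,0,1,-1,1] (.p true [0,0,1] [1] (⟨0,[(5,0)]⟩,⟨0,[(4,0)]⟩) .k 1 (⟨0,[]⟩,⟨0,[]⟩) .k
  .k) (.I [0,0,1,1,0,0,-1] (.Q [0,1,1,0,-1,0,1,-1,1] (.p true [0,0,1] [1] (⟨0,[(7,0)]⟩,⟨0,[(6,0)]⟩)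
  .k 1 (⟨0,[]⟩,⟨0,[]⟩) .k .k) (.K ⟨0,[1,0,-1],0,1,(⟨0,[(7,0)]⟩,⟨0,[(8,0)]⟩),.k,(.x 0 ⟨0,[(11,0)]⟩
  ⟨3,[(5,0),(0,0),(2,1),(0,3)]⟩),(.r 0 ⟨0,[(1,0)]⟩ ⟨1,[(6,0),(5,1),(3,0)]⟩),.k,.k,[⟨3,[(0,2),(1,0),
  (1,1),(0,1),(3,0),(6,0)]⟩,⟨0,[(7,0)]⟩,⟨0,[(0,0)]⟩,⟨1,[(5,0),(1,1),(7,0),(2,1)]⟩]⟩) t0) (.Q [0,0,1,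
  0,-1,0,1,0,1] (.p true [0,0,1] [] (⟨0,[(7,0)]⟩,⟨0,[(6,0)]⟩) .k 0 (⟨0,[]⟩,⟨0,[]⟩) .k .k) (.I [0,0,
  -2,0,1,-1] (.Q [0,-1,-1,0,1,0,-1,1,-1] (.p false [0,0,1] [1] (⟨0,[(9,0)]⟩,⟨0,[(8,0)]⟩) .k 1 (⟨0,
  []⟩,⟨0,[]⟩) .k .k) (.R ⟨2,true,false,false,[0,1],[1,0,-1],[1,0,1],(⟨0,[]⟩,⟨0,[]⟩),(⟨0,[(9,0)]⟩,⟨0,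
  [(10,0)]⟩),⟨0,[]⟩,.k,.k,.k,(.x (-1) ⟨3,[(7,0),(0,0),(2,1),(0,3)]⟩ ⟨0,[(13,0)]⟩),.k,.k,⟨false,0,⟨5,
  [(2,1),(0,1),(1,1),(2,0),(0,1),(8,0)]⟩,⟨1,[(7,0),(9,0)]⟩⟩,⟨true,0,⟨0,[(9,0)]⟩,⟨1,[(2,1),(4,0),(3,
  0)]⟩⟩,⟨false,1,⟨0,[(15,0),(2,0)]⟩,⟨0,[(16,0)]⟩⟩,⟨true,1,⟨0,[(0,0),(14,0)]⟩,⟨0,[(2,0),(2,0)]⟩⟩,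
  ⟨true,0,⟨0,[]⟩,⟨0,[(20,0)]⟩⟩,⟨false,1,⟨0,[(0,0)]⟩,⟨4,[(2,2),(1,1),(0,0),(5,0),(3,0)]⟩⟩,[]⟩) (.K
  ⟨0,[1,0,-1],0,1,(⟨0,[(9,0)]⟩,⟨0,[(10,0)]⟩),.k,(.x 0 ⟨0,[(13,0)]⟩ ⟨3,[(7,0),(0,0),(2,1),(0,3)]⟩),
  (.x (-1) ⟨0,[(1,0)]⟩ ⟨3,[(6,3),(0,0),(0,0),(2,1),(1,3)]⟩),.k,.k,[⟨3,[(0,2),(3,0),(1,1),(0,1),(3,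
  0),(6,0)]⟩,⟨0,[(9,0)]⟩,⟨0,[(0,0)]⟩,⟨1,[(7,0),(1,1),(7,0),(2,1)]⟩]⟩)) (.I [0,0,1,0,-1,0,2] (.Q [0,
  0,0,0,0,1,0,-1,1] (.ed false [0,1,1] .k) (.I [0,0,2,2,-1,0,1] (.K ⟨0,[-1,1,1],0,(-1),(⟨0,[(1,0)]⟩,
  ⟨0,[(11,0),(2,0)]⟩),(.x (-1) ⟨3,[(9,0),(0,0),(2,1),(0,3)]⟩ ⟨0,[(15,0)]⟩),.k,(.r 1 ⟨0,[(0,0)]⟩ ⟨1,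
  [(5,1),(3,1),(7,1),(1,0),(0,0)]⟩),.k,.k,[⟨7,[(8,3),(0,0),(0,0),(0,7),(1,1)]⟩,⟨1,[(4,1),(4,0),(3,
  0)]⟩,⟨1,[(9,0),(1,1),(5,1),(1,0)]⟩,⟨0,[(4,0),(2,0)]⟩]⟩) (.K ⟨0,[-1,1,1],0,(-1),(⟨0,[(1,0)]⟩,⟨0,
  [(11,0),(2,0)]⟩),(.x (-1) ⟨3,[(9,0),(0,0),(2,1),(0,3)]⟩ ⟨0,[(15,0)]⟩),.k,(.x (-2) ⟨3,[(9,0),(0,0),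
  (2,3),(0,7),(4,1)]⟩ ⟨0,[(0,0),(2,1),(1,0),(12,2)]⟩),.k,.k,[⟨7,[(8,3),(0,0),(0,0),(0,7),(1,1)]⟩,⟨1,
  [(4,1),(4,0),(3,0)]⟩,⟨7,[(0,3),(8,2),(0,0),(0,7),(10,7)]⟩,⟨0,[(4,0),(2,0)]⟩]⟩)) (.K ⟨0,[0,1,1],0,
  (-1),(⟨0,[(11,0),(2,0)]⟩,⟨0,[(0,0)]⟩),(.x (-1) ⟨3,[(8,0),(0,0),(2,1),(0,3)]⟩ ⟨0,[(14,0)]⟩),.k,(.r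
  1 ⟨2,[(0,0),(0,0),(0,0),(0,0),(2,1),(0,0),(9,3),(1,0)]⟩ ⟨1,[(4,1),(3,1),(7,1),(1,0),(0,0)]⟩),.k,
  .k,[⟨1,[(0,0),(1,0),(7,0),(1,0)]⟩,⟨7,[(5,1),(0,0),(0,2),(0,0),(2,5),(4,0)]⟩,⟨1,[(8,0),(1,1),(1,0),
  (2,1)]⟩,⟨0,[(3,0),(13,0),(3,0)]⟩]⟩)) (.K ⟨0,[-1,1,1],0,(-1),(⟨1,[(0,1),(0,0),(0,1),(0,1),(1,1),(7,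
  0),(4,0)]⟩,⟨0,[(9,0),(2,0)]⟩),(.x (-1) ⟨3,[(7,0),(0,0),(2,1),(0,3)]⟩ ⟨0,[(13,0)]⟩),.k,(.x (-2) ⟨2,
  [(0,0),(7,0),(2,2),(0,5),(4,0)]⟩ ⟨0,[(0,0),(0,1),(1,1),(12,1)]⟩),.k,.k,[⟨7,[(6,3),(0,0),(0,0),(0,
  7),(1,1)]⟩,⟨1,[(2,1),(4,0),(3,0)]⟩,⟨5,[(0,3),(7,0),(0,5),(5,5),(1,0)]⟩,⟨0,[(2,0),(2,0)]⟩]⟩)))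
  t1)) (.K ⟨0,[1,0,-1],0,(-1),(⟨0,[(5,0)]⟩,⟨0,[(6,0)]⟩),.k,(.x 0 ⟨0,[(9,0)]⟩ ⟨3,[(3,0),(0,0),(2,1),
  (0,3)]⟩),(.r 0 ⟨2,[(0,0),(0,2),(0,1),(0,0),(2,0),(7,1)]⟩ ⟨1,[(4,0),(5,1),(3,0)]⟩),.k,.k,[⟨0,[(2,
  0),(3,0),(0,0)]⟩,⟨0,[(5,0)]⟩,⟨7,[(2,3),(0,0),(0,4),(1,7),(0,5),(8,7)]⟩,⟨0,[(0,0)]⟩]⟩))

theorem ok : chk (cPU 1 true) tree base = true := by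
  decide +kernel

theorem closed {p a b c J l q : ℤ} {D dl : ℝ} {Cl : ℤ → ℤ → ℤ → ℤ → ℝ → Prop}
    (W : World p a b c J 1 l q D dl Cl) (hE : KEmp p a b 1 (P1 l p) Cl)
    (g : G0 p a b c J D)
    {N R : ℤ} {I : ℝ} (hu : UFac p b D Cl N R I)
    (s0 : (1 : ℝ) ≤ c)
    (s1 : (b : ℝ) + c + 1 ≤ a)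
    (s2 : p - D < 2 * b)
    (s3 : D - c < a) : False := by
  have g1 := g.a2
  have g2 := g.b2
  have g3 := g.pa
  have g4 := g.pb
  have g5 := g.J1
  have g6 := g.JD
  have g7 := g.D2
  have g8 := g.ca
  have g9 := g.ca'
  have t1 := TF.ofU hu
  have i1 := t1.I0
  have i2 := t1.ID
  have i3 := t1.R1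
  have i4 := t1.R2
  refine (val_PU W.toBase (UV.ofU hu)).sound W rfl (Nk := 0) (fun kf hkf hh => ?_) (kok_B hE (by simp [xv]) (by simp [xv]) 0) ?_ ok
  · simp only [cPU, kfB, List.mem_cons, List.not_mem_nil, or_false] at hkf
    subst hkf
    exact absurd hh (by norm_num)
  · simp only [base, List.forall_mem_cons, List.not_mem_nil, false_imp_iff, implies_true,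
      and_true, hld, xv, evg_cons, evg_nil, List.map_cons, List.map_nil, List.cons_append,
      List.nil_append, if_true, if_false, Bool.false_eq_true]
    push_cast
    refine ⟨?_, ?_, ?_, ?_, ?_, ?_, ?_, ?_, ?_, ?_, ?_, ?_, ?_, ?_, ?_, ?_⟩ <;> linarith

end Helper25.KG.P1_1_1_0_u
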