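import Pool.Agent.Helper25.KG.PL

set_option autoImplicit false
set_option linter.unusedVariables false

namespace Helper25.KG.P1_1_1_0_v

open Helper11.CT Helper25.KW Helper25.KG

def base : List Con :=
  [(false,[0,1,0,1,0,0,0,-1]),
  (false,[0,0,2,0,-1,0,0,1]),
  (true,[0,0,0,0,1,0,-2]),
  (true,[0,0,0,0,1,0,2]),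
  (false,[0,0,0,0,0,0,0,1,-2]),
  (false,[0,0,0,0,0,0,0,0,1]),
  (false,[0,0,0,0,1,0,0,-2]),
  (false,[0,0,0,0,0,-1,0,1]),
  (true,[0,0,0,0,0,1]),
  (true,[0,1,-1,-1]),
  (true,[0,1,0,-1]),
  (true,[0,0,0,1]),
  (true,[0,0,-2,0,1]),
  (true,[0,-2,0,0,1]),
  (true,[-1,0,1]),
  (true,[-1,1])]

def t0 : Tre :=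
  (.Q [0,1,0,0,-1,0,1,0,1] (.p true [0,0,1] [] (⟨0,[(6,0)]⟩,⟨1,[(5,0),(2,0),(0,0)]⟩) .k 0 (⟨0,[]⟩,
  ⟨0,[]⟩) .k .k) (.K ⟨0,[0,0,1],0,(-1),(⟨0,[(7,0)]⟩,⟨1,[(6,0),(2,0),(0,0)]⟩),.k,(.x 0 ⟨7,[(3,3),(0,
  0),(0,0),(2,1),(1,7)]⟩ ⟨1,[(8,0),(0,1),(4,0)]⟩),(.r 0 ⟨5,[(0,1),(1,3),(0,2),(1,1),(0,0),(6,1),(1,
  2)]⟩ ⟨1,[(4,0),(6,1),(3,0)]⟩),.k,.k,[⟨1,[(3,0),(2,0),(1,0)]⟩,⟨7,[(3,3),(0,0),(0,0),(1,7),(0,1)]⟩,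
  ⟨7,[(4,4),(0,0),(0,3),(1,1),(8,7)]⟩,⟨0,[(0,0)]⟩]⟩) (.Q [0,1,0,0,0,0,-1,0,-1] (.p false [0,0,1] []
  (⟨0,[(7,0)]⟩,⟨1,[(6,0),(2,0),(0,0)]⟩) .k 0 (⟨0,[]⟩,⟨0,[]⟩) .k .k) (.K ⟨0,[0,0,1],0,0,(⟨0,[(8,0)]⟩,
  ⟨1,[(7,0),(2,0),(0,0)]⟩),.k,(.x 0 ⟨7,[(4,3),(0,0),(0,0),(2,1),(1,7)]⟩ ⟨1,[(9,0),(0,1),(4,0)]⟩),
  (.r 0 ⟨2,[(2,0),(0,1),(0,1),(1,0),(7,1),(1,0)]⟩ ⟨1,[(5,0),(6,1),(3,0)]⟩),.k,.k,[⟨1,[(4,0),(2,0),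
  (1,0)]⟩,⟨7,[(4,3),(0,0),(0,0),(1,7),(0,1)]⟩,⟨0,[(0,0)]⟩,⟨3,[(2,1),(0,0),(0,0),(1,0),(1,3),(5,0),
  (3,2)]⟩]⟩) (.Q [0,0,-1,0,0,0,0,1,-1] (.p false [0,0,1] [1] (⟨0,[(8,0)]⟩,⟨1,[(7,0),(2,0),(0,0)]⟩)
  .k 1 (⟨0,[]⟩,⟨0,[]⟩) .k .k) (.Q [0,0,0,-1,0,0,0,0,1] (.p true [0,0,1] [] (⟨0,[(9,0)]⟩,⟨7,[(0,3),
  (4,1),(0,0),(0,0),(0,1)]⟩) .k 0 (⟨0,[]⟩,⟨0,[]⟩) .k .k) (.Q [0,0,0,0,0,-1,0,0,1] (.ed false [1,-1,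
  1] .k) (.I [1,-1,0,0,0,0,1] (.R ⟨1,false,false,false,[1,-1],[1,0,-1],[0,0,-1,-1],(⟨0,[(14,0)]⟩,⟨0,
  [(15,0)]⟩),(⟨7,[(3,3),(4,1),(0,0),(0,0),(0,1)]⟩,⟨0,[(12,0)]⟩),⟨0,[(1,1),(9,0)]⟩,.k,.k,(.r (-1) ⟨2,
  [(2,1),(2,1),(0,1),(9,1),(2,0)]⟩ ⟨3,[(7,3),(0,3),(0,0),(0,0),(7,3),(1,1)]⟩),(.r 0 ⟨0,[(0,0),(15,
  0)]⟩ ⟨7,[(7,3),(0,3),(0,6),(0,2),(7,3),(1,1)]⟩),(.r (-1) ⟨6,[(2,2),(2,2),(0,7),(3,0),(6,2),(1,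
  2)]⟩ ⟨1,[(7,1),(0,1),(0,0),(8,1),(1,0)]⟩),.k,⟨true,0,⟨0,[(0,0),(15,0)]⟩,⟨1,[(7,1),(0,1),(0,0),(10,
  0)]⟩⟩,⟨false,1,⟨1,[(3,1),(9,0),(5,0)]⟩,⟨7,[(8,3),(0,0),(0,0),(1,7),(0,1)]⟩⟩,⟨false,1,⟨3,[(9,0),(0,
  0),(9,1)]⟩,⟨0,[]⟩⟩,⟨false,1,⟨0,[(5,0),(12,0)]⟩,⟨4,[(2,3),(1,0),(1,1),(0,0),(0,0),(1,0)]⟩⟩,⟨true,0,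
  ⟨0,[(18,0)]⟩,⟨0,[(17,0)]⟩⟩,⟨false,1,⟨0,[(5,0),(12,1)]⟩,⟨9,[(2,9),(3,7),(1,3),(1,0),(2,1),(3,1),(2,
  0)]⟩⟩,[.o ⟨false,1,⟨7,[(9,4),(0,0),(0,3),(1,1)]⟩,⟨0,[(0,0),(1,0),(4,0)]⟩⟩,.o ⟨false,1,⟨0,[(5,0)]⟩,
  ⟨4,[(2,3),(1,0),(1,1),(0,5),(0,0),(1,0)]⟩⟩,.o ⟨false,0,⟨7,[(8,3),(0,0),(0,0),(2,1)]⟩,⟨1,[(13,0),
  (5,0)]⟩⟩,.a ⟨true,(-1),⟨0,[(8,0)]⟩,⟨0,[(19,0)]⟩⟩ ⟨true,1,⟨2,[(2,0),(2,0),(0,0),(9,0),(2,1)]⟩,⟨0,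
  [(7,0),(0,0)]⟩⟩ ⟨false,2,⟨0,[(5,0),(13,0)]⟩,⟨0,[(0,0),(1,0),(4,0),(0,0)]⟩⟩]⟩) (.Q [0,0,0,0,0,0,1,
  -1,1] (.p true [0,0,1] [1] (⟨0,[(12,0)]⟩,⟨7,[(3,3),(4,1),(0,0),(0,0),(0,1)]⟩) .k 1 (⟨0,[]⟩,⟨0,
  []⟩) .k .k) (.S ⟨1,0,[0,0,0,0,0,0,-1],[1,0,-1],[0,1,0,0,0,0,-1],(⟨7,[(4,3),(4,1),(0,0),(0,0),(0,
  1)]⟩,⟨0,[(13,0)]⟩),⟨0,[(2,0),(9,0)]⟩,.k,(.r (-1) ⟨3,[(3,1),(2,1),(3,0),(6,1),(2,0)]⟩ ⟨5,[(5,1),(2,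
  3),(0,2),(1,1),(0,0),(6,1),(1,0)]⟩),⟨true,0,⟨0,[(23,0)]⟩,⟨0,[]⟩⟩,⟨false,1,⟨3,[(10,0),(0,0),(9,
  1)]⟩,⟨0,[]⟩⟩,⟨false,0,⟨0,[(19,0)]⟩,⟨0,[(18,0),(2,0)]⟩⟩,⟨true,0,⟨0,[(19,0)]⟩,⟨0,[(18,0)]⟩⟩,[.o
  ⟨false,1,⟨7,[(10,4),(0,0),(0,3),(1,1)]⟩,⟨0,[(0,0)]⟩⟩,.o ⟨false,1,⟨0,[(6,0)]⟩,⟨0,[(0,0),(22,0)]⟩⟩,
  .a ⟨true,0,⟨7,[(4,3),(4,1),(0,0),(0,0),(0,1)]⟩,⟨0,[(13,0)]⟩⟩ ⟨true,0,⟨0,[(1,0)]⟩,⟨5,[(5,1),(1,1),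
  (0,1),(0,0),(1,0),(0,0)]⟩⟩ ⟨false,1,⟨1,[(10,0),(10,0)]⟩,⟨5,[(5,1),(1,1),(0,1),(0,0),(1,0),(0,
  0)]⟩⟩,.o ⟨false,0,⟨1,[(9,0),(2,0),(1,0)]⟩,⟨1,[(13,1),(0,0),(5,0)]⟩⟩]⟩) (.R ⟨2,true,false,true,[0,
  1],[1,0,-1],[1,0,1],(⟨0,[]⟩,⟨0,[]⟩),(⟨5,[(0,1),(3,1),(4,0),(1,0),(0,0)]⟩,⟨0,[(13,0)]⟩),⟨0,[]⟩,.k,
  .k,.k,(.r 0 ⟨5,[(5,1),(2,3),(0,2),(1,1),(0,0),(6,1),(1,0)]⟩ ⟨3,[(3,1),(2,1),(3,0),(6,1),(2,0)]⟩),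
  .k,.k,⟨true,0,⟨1,[(5,1),(3,0),(2,0),(1,0)]⟩,⟨0,[(1,0)]⟩⟩,⟨false,0,⟨5,[(0,1),(3,1),(4,0),(1,0),(0,
  0)]⟩,⟨1,[(13,1),(0,0),(5,0)]⟩⟩,⟨false,1,⟨0,[(18,0),(2,0)]⟩,⟨0,[(19,0)]⟩⟩,⟨true,0,⟨0,[(0,0),(17,
  0)]⟩,⟨0,[(5,0),(2,0)]⟩⟩,⟨true,0,⟨0,[]⟩,⟨0,[(23,0)]⟩⟩,⟨false,0,⟨0,[(0,0)]⟩,⟨3,[(5,1),(5,0),(1,1),
  (0,1),(6,0)]⟩⟩,[]⟩))) (.R ⟨0,false,false,false,[0,0,1],[0,1],[0,0,2,1],(⟨0,[(11,0)]⟩,⟨7,[(2,3),(4,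
  1),(0,0),(0,0),(0,1)]⟩),(⟨0,[(14,0)]⟩,⟨0,[(13,0)]⟩),⟨0,[(0,0)]⟩,.k,.k,(.x 0 ⟨7,[(7,3),(0,0),(0,0),
  (2,1),(1,7)]⟩ ⟨1,[(12,0),(0,1),(4,0)]⟩),(.x 0 ⟨7,[(7,3),(0,0),(0,0),(2,1),(1,7)]⟩ ⟨1,[(12,0),(0,
  1),(4,0)]⟩),.k,.k,⟨true,0,⟨7,[(7,3),(0,0),(0,0),(2,1)]⟩,⟨0,[]⟩⟩,⟨false,1,⟨1,[(2,1),(9,0),(5,0)]⟩,
  ⟨7,[(7,3),(0,0),(0,0),(1,7),(0,1)]⟩⟩,⟨true,0,⟨1,[(6,1),(0,1),(0,0),(10,0)]⟩,⟨1,[(2,0),(2,1),(0,0),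
  (4,0),(3,0)]⟩⟩,⟨false,1,⟨0,[(4,0),(12,0)]⟩,⟨4,[(1,3),(1,0),(1,1),(0,0),(0,0),(1,0)]⟩⟩,⟨false,0,⟨0,
  []⟩,⟨0,[]⟩⟩,⟨false,0,⟨0,[]⟩,⟨0,[]⟩⟩,[.e ⟨false,0,⟨7,[(6,3),(0,3),(0,0),(0,0),(7,3),(1,1)]⟩,⟨2,[(1,
  0),(2,0),(0,0),(9,0),(2,1)]⟩⟩ ⟨false,1,⟨5,[(4,1),(1,1),(2,0),(0,1),(6,3),(0,2)]⟩,⟨0,[(1,0)]⟩⟩,.o
  ⟨false,1,⟨0,[(6,0),(12,0)]⟩,⟨0,[(16,0)]⟩⟩,.e ⟨false,0,⟨0,[(6,0),(0,0),(11,0)]⟩,⟨2,[(1,0),(2,0),(0,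
  0),(9,0),(2,1)]⟩⟩ ⟨false,1,⟨5,[(4,1),(1,1),(2,0),(0,1),(6,3),(1,2)]⟩,⟨0,[(1,0)]⟩⟩,.a ⟨true,0,⟨7,
  [(7,3),(0,0),(0,0),(1,7),(0,1)]⟩,⟨0,[(2,0)]⟩⟩ ⟨true,0,⟨7,[(6,3),(0,3),(0,0),(0,0),(7,3),(1,1)]⟩,
  ⟨0,[(15,0)]⟩⟩ ⟨false,1,⟨0,[(2,0),(3,0),(12,0)]⟩,⟨7,[(1,7),(5,3),(0,0),(0,0),(2,1)]⟩⟩]⟩)) (.Q [0,0,
  0,0,0,1,0,0,-1] (.ed true [1,-1,1] .k) (.R ⟨0,false,false,false,[0,0,1],[0,1],[0,0,2,1],(⟨0,[(11,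
  0)]⟩,⟨7,[(2,3),(4,1),(0,0),(0,0),(0,1)]⟩),(⟨0,[(14,0)]⟩,⟨0,[(13,0)]⟩),⟨0,[(0,0)]⟩,.k,.k,(.x 0 ⟨7,
  [(7,3),(0,0),(0,0),(2,1),(1,7)]⟩ ⟨1,[(12,0),(0,1),(4,0)]⟩),(.x 0 ⟨7,[(7,3),(0,0),(0,0),(2,1),(1,
  7)]⟩ ⟨1,[(12,0),(0,1),(4,0)]⟩),.k,.k,⟨true,0,⟨7,[(7,3),(0,0),(0,0),(2,1)]⟩,⟨0,[]⟩⟩,⟨false,1,⟨1,
  [(2,1),(9,0),(5,0)]⟩,⟨7,[(7,3),(0,0),(0,0),(1,7),(0,1)]⟩⟩,⟨true,0,⟨1,[(6,1),(0,1),(0,0),(10,0)]⟩,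
  ⟨1,[(2,0),(2,1),(0,0),(4,0),(3,0)]⟩⟩,⟨false,1,⟨1,[(1,1),(6,0),(10,0)]⟩,⟨0,[(3,0),(12,0)]⟩⟩,⟨false,
  0,⟨0,[]⟩,⟨0,[]⟩⟩,⟨false,0,⟨0,[]⟩,⟨0,[]⟩⟩,[.a ⟨true,0,⟨0,[(17,0)]⟩,⟨1,[(2,0),(4,0),(3,0),(3,0),(0,
  0),(2,0)]⟩⟩ ⟨false,0,⟨7,[(6,3),(0,3),(0,0),(0,0),(7,3),(1,1)]⟩,⟨1,[(15,1),(2,0),(0,0)]⟩⟩ ⟨true,0,
  ⟨0,[(1,0)]⟩,⟨1,[(7,1),(3,1),(0,0),(2,1),(3,0)]⟩⟩,.o ⟨false,1,⟨0,[(6,0),(12,0)]⟩,⟨0,[(16,0)]⟩⟩,.a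
  ⟨true,0,⟨0,[(11,0)]⟩,⟨7,[(2,3),(4,1),(0,0),(0,0),(0,1)]⟩⟩ ⟨false,0,⟨0,[(6,0),(0,0),(11,0)]⟩,⟨1,
  [(15,1),(2,0),(0,0)]⟩⟩ ⟨true,0,⟨0,[(1,0)]⟩,⟨0,[(11,0),(4,0)]⟩⟩,.a ⟨true,0,⟨7,[(7,3),(0,0),(0,0),
  (1,7),(0,1)]⟩,⟨0,[(2,0)]⟩⟩ ⟨true,0,⟨7,[(6,3),(0,3),(0,0),(0,0),(7,3),(1,1)]⟩,⟨0,[(15,0)]⟩⟩ ⟨false,
  1,⟨1,[(1,1),(16,0),(0,0)]⟩,⟨1,[(7,1),(3,1),(0,0),(2,1),(3,0)]⟩⟩]⟩) (.Q [0,1,0,1,-1,0,1,0,1] (.p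
  true [0,0,1] [] (⟨0,[(11,0)]⟩,⟨7,[(2,3),(4,1),(0,0),(0,0),(0,1)]⟩) .k 0 (⟨0,[]⟩,⟨0,[]⟩) .k .k)
  (.S ⟨1,4,[],[1,0,-1],[1,1,0,-1,0,0,-1],(⟨7,[(3,3),(4,1),(0,0),(0,0),(0,1)]⟩,⟨0,[(12,0)]⟩),⟨0,[(1,
  0),(9,0)]⟩,.k,(.r (-1) ⟨1,[(9,0),(6,1),(3,0)]⟩ ⟨7,[(0,1),(1,1),(4,3),(0,3),(1,2),(9,2)]⟩),⟨true,0,
  ⟨0,[(17,0)]⟩,⟨0,[(18,0)]⟩⟩,⟨false,0,⟨4,[(0,0),(3,1),(5,0),(1,1),(4,0)]⟩,⟨0,[(5,0)]⟩⟩,⟨false,0,⟨0,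
  []⟩,⟨3,[(9,0),(0,0),(9,1)]⟩⟩,⟨true,(-1),⟨0,[(0,0)]⟩,⟨0,[(5,0),(11,0)]⟩⟩,[.o ⟨false,0,⟨0,[(22,0)]⟩,
  ⟨1,[(13,0),(6,0)]⟩⟩,.fa ⟨false,1,⟨1,[(9,0),(6,1),(3,0)]⟩,⟨3,[(0,1),(1,1),(7,0),(9,0)]⟩⟩ ⟨true,0,
  ⟨0,[(12,0)]⟩,⟨1,[(8,0),(2,0),(1,0)]⟩⟩,.e ⟨false,1,⟨1,[(9,0),(7,1),(2,0)]⟩,⟨0,[(2,0),(1,0)]⟩⟩
  ⟨false,0,⟨0,[(12,0)]⟩,⟨5,[(5,1),(4,0),(0,1),(1,0),(6,1)]⟩⟩,.o ⟨false,0,⟨1,[(8,0),(2,0),(1,0)]⟩,⟨1,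
  [(12,1),(0,0),(5,0)]⟩⟩]⟩) (.Q [0,0,-2,0,1,0,0,-1,1] (.p true [0,0,1] [1] (⟨0,[(12,0)]⟩,⟨7,[(3,3),
  (4,1),(0,0),(0,0),(0,1)]⟩) .k 1 (⟨0,[]⟩,⟨0,[]⟩) .k .k) (.R ⟨1,false,false,true,[1,0,-1],[0,1],[1,
  1,0,-1,0,0,-1],(⟨7,[(4,3),(4,1),(0,0),(0,0),(0,1)]⟩,⟨0,[(13,0)]⟩),(⟨0,[(16,0)]⟩,⟨0,[(15,0)]⟩),⟨0,
  [(2,0),(9,0)]⟩,.k,.k,(.r (-1) ⟨3,[(1,1),(8,0),(2,1),(3,1),(2,0)]⟩ ⟨7,[(3,1),(1,1),(2,3),(0,3),(1,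
  2),(7,1),(1,0)]⟩),(.r (-1) ⟨3,[(1,1),(8,0),(2,1),(3,1),(2,0)]⟩ ⟨7,[(3,1),(1,1),(2,3),(0,3),(1,2),
  (7,1),(1,0)]⟩),(.r (-2) ⟨0,[(1,0),(11,0),(4,0),(1,0)]⟩ ⟨0,[(3,0),(1,0),(2,0),(0,0)]⟩),.k,⟨true,1,
  ⟨0,[(1,0),(11,0),(3,0)]⟩,⟨0,[(3,0),(1,0),(2,0),(0,0)]⟩⟩,⟨false,1,⟨0,[(0,0)]⟩,⟨3,[(9,1),(0,0),(0,
  0),(0,1)]⟩⟩,⟨true,0,⟨0,[(18,0)]⟩,⟨0,[(19,0)]⟩⟩,⟨false,0,⟨0,[(5,0),(2,0)]⟩,⟨5,[(1,5),(2,3),(4,1),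
  (0,0),(0,0),(1,3)]⟩⟩,⟨false,0,⟨0,[]⟩,⟨3,[(10,0),(0,0),(9,1)]⟩⟩,⟨false,0,⟨0,[(5,0),(2,0),(10,0)]⟩,
  ⟨4,[(1,5),(2,2),(2,0),(1,1),(3,3),(4,2),(2,0)]⟩⟩,[.o ⟨false,0,⟨0,[(8,0)]⟩,⟨0,[(18,0),(2,0)]⟩⟩,.e
  ⟨false,1,⟨3,[(1,1),(8,0),(2,1),(3,1),(2,0)]⟩,⟨4,[(3,0),(0,1),(0,2),(2,2),(0,0),(1,0),(7,0)]⟩⟩
  ⟨false,1,⟨7,[(0,3),(7,3),(1,0),(0,0),(1,3),(5,3),(1,1)]⟩,⟨21,[(1,7),(2,11),(2,5),(1,8),(1,0),(0,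
  0),(5,7)]⟩⟩,.a ⟨true,0,⟨7,[(4,3),(4,1),(0,0),(0,0),(0,1)]⟩,⟨0,[(13,0)]⟩⟩ ⟨false,1,⟨7,[(1,3),(8,2),
  (0,0),(1,3),(4,3)]⟩,⟨0,[(3,0),(1,0)]⟩⟩ ⟨true,0,⟨0,[(8,0),(4,0)]⟩,⟨21,[(1,7),(2,11),(2,5),(1,8),(1,
  0),(0,0),(5,7)]⟩⟩,.o ⟨false,0,⟨1,[(9,0),(2,0),(1,0)]⟩,⟨7,[(0,3),(9,0),(0,0),(1,3),(0,1)]⟩⟩]⟩) (.Q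
  [0,0,0,0,0,0,1,-1,1] (.p true [0,0,1] [1] (⟨0,[(13,0)]⟩,⟨7,[(4,3),(4,1),(0,0),(0,0),(0,1)]⟩) .k 1
  (⟨0,[]⟩,⟨0,[]⟩) .k .k) (.R ⟨1,false,false,true,[1,-1],[0,0,1],[0,0,-1,-1],(⟨0,[(16,0)]⟩,⟨0,[(17,
  0)]⟩),(⟨0,[(14,0)]⟩,⟨7,[(5,3),(4,1),(0,0),(0,0),(0,1)]⟩),⟨0,[(3,1),(9,0)]⟩,.k,.k,(.r (-1) ⟨2,[(2,
  1),(5,1),(5,1),(3,1),(2,0)]⟩ ⟨3,[(9,3),(0,3),(0,0),(0,0),(7,3),(1,1)]⟩),(.r (-1) ⟨3,[(2,1),(8,0),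
  (2,1),(3,1),(2,0)]⟩ ⟨7,[(4,1),(1,1),(2,3),(0,3),(1,2),(7,1),(1,0)]⟩),(.r (-2) ⟨0,[(2,0),(11,0),(4,
  0),(1,0)]⟩ ⟨0,[(4,0),(1,0),(2,0),(0,0)]⟩),.k,⟨false,2,⟨0,[(2,0),(11,0),(6,0)]⟩,⟨0,[(0,0),(4,0),(3,
  0),(0,0)]⟩⟩,⟨true,1,⟨1,[(14,1),(0,0),(5,0)]⟩,⟨0,[(1,0)]⟩⟩,⟨false,1,⟨3,[(11,0),(0,0),(9,1)]⟩,⟨0,
  []⟩⟩,⟨false,0,⟨0,[(6,0),(2,0)]⟩,⟨5,[(2,5),(2,3),(4,1),(0,0),(0,0),(1,3)]⟩⟩,⟨true,0,⟨0,[(20,0)]⟩,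
  ⟨0,[(19,0)]⟩⟩,⟨false,0,⟨0,[(6,0),(2,0),(10,0)]⟩,⟨4,[(2,5),(2,2),(2,0),(1,1),(3,3),(4,2),(2,0)]⟩⟩,
  [.o ⟨false,0,⟨0,[(0,0),(23,0)]⟩,⟨0,[(7,0)]⟩⟩,.o ⟨false,0,⟨0,[(0,0)]⟩,⟨7,[(11,4),(0,0),(0,3),(1,
  1)]⟩⟩,.o ⟨false,0,⟨7,[(10,3),(0,0),(0,0),(2,1)]⟩,⟨1,[(15,0),(5,0)]⟩⟩,.a ⟨true,(-1),⟨0,[(10,0)]⟩,
  ⟨0,[(21,0)]⟩⟩ ⟨true,1,⟨2,[(2,0),(5,0),(5,0),(3,0),(2,1)]⟩,⟨0,[(9,0),(0,0)]⟩⟩ ⟨false,1,⟨0,[(0,0),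
  (20,0)]⟩,⟨0,[(7,0),(2,0)]⟩⟩]⟩) (.R ⟨2,true,false,false,[0,1],[1,0,-1],[1,1,1],(⟨0,[]⟩,⟨0,[]⟩),(⟨5,
  [(0,1),(4,1),(4,0),(1,0),(0,0)]⟩,⟨0,[(14,0)]⟩),⟨0,[]⟩,.k,.k,.k,(.r 0 ⟨7,[(4,1),(1,1),(2,3),(0,3),
  (1,2),(7,1),(1,0)]⟩ ⟨3,[(2,1),(8,0),(2,1),(3,1),(2,0)]⟩),.k,.k,⟨true,(-1),⟨0,[(8,0),(0,0),(0,0)]⟩,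
  ⟨1,[(11,0),(10,0)]⟩⟩,⟨false,0,⟨5,[(0,1),(4,1),(4,0),(1,0),(0,0)]⟩,⟨1,[(14,1),(0,0),(5,0)]⟩⟩,⟨true,
  0,⟨0,[(19,0)]⟩,⟨0,[(20,0)]⟩⟩,⟨false,1,⟨4,[(0,1),(1,4),(2,1),(4,0),(1,0),(1,3)]⟩,⟨0,[(6,0),(2,
  0)]⟩⟩,⟨false,0,⟨0,[]⟩,⟨3,[(11,0),(0,0),(9,1)]⟩⟩,⟨true,0,⟨0,[(0,0)]⟩,⟨0,[(6,0),(2,0),(9,0)]⟩⟩,
  []⟩)))))) (.K ⟨0,[1,0,-1],0,0,(⟨1,[(8,0),(2,0),(0,0)]⟩,⟨0,[(9,0)]⟩),.k,(.r (-1) ⟨1,[(6,0),(6,1),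
  (3,0)]⟩ ⟨5,[(1,1),(2,3),(0,2),(1,1),(0,0),(6,1),(1,0)]⟩),(.x (-1) ⟨1,[(10,0),(0,1),(4,0)]⟩ ⟨7,[(5,
  3),(0,0),(0,0),(2,1),(1,7)]⟩),.k,.k,[⟨0,[(0,0)]⟩,⟨3,[(5,1),(0,0),(0,0),(0,1)]⟩,⟨5,[(0,1),(2,3),(0,
  4),(0,0),(1,0),(1,3),(4,0)]⟩,⟨1,[(5,0),(0,0),(1,0),(4,1),(1,1)]⟩]⟩))))

def tree : Tre :=
  (.I [0,0,1,1,0,0,-1] (.Q [0,1,0,0,0,0,-1,0,-1] (.p false [0,0,1] [] (⟨0,[(6,0)]⟩,⟨1,[(5,0),(2,0),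
  (0,0)]⟩) .k 0 (⟨0,[]⟩,⟨0,[]⟩) .k .k) (.Q [0,1,0,0,0,0,1,0,1] (.p true [0,0,1] [] (⟨0,[(7,0)]⟩,⟨1,
  [(6,0),(2,0),(0,0)]⟩) .k 0 (⟨0,[]⟩,⟨0,[]⟩) .k .k) (.K ⟨0,[0,0,1],0,0,(⟨0,[(8,0)]⟩,⟨1,[(7,0),(2,0),
  (0,0)]⟩),.k,(.r (-1) ⟨1,[(6,0),(5,1),(3,0)]⟩ ⟨0,[(2,0)]⟩),(.x (-1) ⟨1,[(9,0),(0,1),(4,0)]⟩ ⟨7,[(4,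
  3),(0,0),(0,0),(2,1),(1,7)]⟩),.k,.k,[⟨1,[(4,0),(2,0),(1,0)]⟩,⟨7,[(4,3),(0,0),(0,0),(1,7),(0,1)]⟩,
  ⟨0,[(1,0)]⟩,⟨0,[(0,0)]⟩]⟩) (.Q [0,0,0,0,0,2,0,-1] (.pp true [-1,1]) (.R ⟨0,false,false,false,[1,
  -1],[1,0,-1],[0,1,1],(⟨0,[(11,0)]⟩,⟨0,[(12,0)]⟩),(⟨1,[(8,0),(2,0),(0,0)]⟩,⟨0,[(9,0)]⟩),⟨0,[(0,
  0)]⟩,.k,.k,(.r (-1) ⟨0,[(13,1),(3,0)]⟩ ⟨2,[(3,1),(0,1),(0,1),(1,0),(7,1),(1,0)]⟩),(.r (-1) ⟨1,[(7,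
  0),(5,1),(3,0)]⟩ ⟨0,[(3,0)]⟩),.k,.k,⟨true,0,⟨1,[(4,0),(0,0),(1,0),(6,0)]⟩,⟨0,[(1,0),(7,0)]⟩⟩,
  ⟨false,1,⟨1,[(1,1),(5,0),(5,1),(1,1),(0,0)]⟩,⟨7,[(5,3),(0,0),(0,0),(1,7),(0,1)]⟩⟩,⟨true,(-1),⟨0,
  [(4,0),(0,0)]⟩,⟨1,[(13,1),(2,0),(0,0)]⟩⟩,⟨false,0,⟨0,[(1,0),(13,0)]⟩,⟨1,[(7,0),(1,1),(4,1),(2,
  0)]⟩⟩,⟨false,0,⟨0,[]⟩,⟨0,[]⟩⟩,⟨false,0,⟨0,[]⟩,⟨0,[]⟩⟩,[.o ⟨false,0,⟨1,[(1,0),(0,0)]⟩,⟨1,[(7,0),(1,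
  1),(0,0)]⟩⟩,.o ⟨false,0,⟨0,[(1,0)]⟩,⟨1,[(7,0),(1,1),(0,0),(8,1)]⟩⟩,.o ⟨false,0,⟨7,[(5,3),(0,0),(0,
  0),(2,1)]⟩,⟨1,[(10,0),(5,0)]⟩⟩,.a ⟨true,(-1),⟨0,[(5,0)]⟩,⟨0,[(16,0)]⟩⟩ ⟨true,0,⟨0,[(19,0)]⟩,⟨0,
  []⟩⟩ ⟨false,1,⟨0,[(1,0),(14,0)]⟩,⟨1,[(5,1),(1,0),(1,1),(0,0)]⟩⟩]⟩) (.R ⟨1,false,false,false,[1,
  -1],[1,0,-1],[0,0,-1,-1],(⟨0,[(11,0)]⟩,⟨0,[(12,0)]⟩),(⟨1,[(8,0),(2,0),(0,0)]⟩,⟨0,[(9,0)]⟩),⟨0,[(0,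
  0)]⟩,.k,.k,(.r (-1) ⟨0,[(13,1),(3,0)]⟩ ⟨2,[(3,1),(0,1),(0,1),(1,0),(7,1),(1,0)]⟩),(.r (-1) ⟨1,[(7,
  0),(5,1),(3,0)]⟩ ⟨0,[(3,0)]⟩),(.r (-2) ⟨1,[(7,0),(5,1),(0,1),(1,0),(0,1)]⟩ ⟨0,[(1,0),(2,0),(0,0),
  (3,0),(5,0)]⟩),.k,⟨true,1,⟨1,[(7,0),(5,1),(3,0)]⟩,⟨0,[(1,0),(2,0),(0,0),(3,0)]⟩⟩,⟨false,1,⟨1,[(1,
  1),(5,0),(5,1),(1,1),(0,0)]⟩,⟨7,[(5,3),(0,0),(0,0),(1,7),(0,1)]⟩⟩,⟨false,1,⟨3,[(6,0),(0,0),(9,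
  1)]⟩,⟨0,[]⟩⟩,⟨false,0,⟨0,[(1,0),(13,0)]⟩,⟨1,[(7,0),(1,1),(4,1),(2,0)]⟩⟩,⟨true,0,⟨0,[(15,0)]⟩,⟨0,
  [(14,0)]⟩⟩,⟨false,0,⟨0,[(1,0),(13,1)]⟩,⟨1,[(5,1),(1,0),(1,1),(0,0),(2,3),(3,1)]⟩⟩,[.o ⟨false,0,⟨1,
  [(1,0),(0,0)]⟩,⟨1,[(7,0),(1,1),(0,0)]⟩⟩,.o ⟨false,0,⟨0,[(1,0)]⟩,⟨1,[(7,0),(1,1),(0,0),(8,1)]⟩⟩,.o
  ⟨false,0,⟨7,[(5,3),(0,0),(0,0),(2,1)]⟩,⟨1,[(10,0),(5,0)]⟩⟩,.a ⟨true,(-1),⟨0,[(5,0)]⟩,⟨0,[(16,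
  0)]⟩⟩ ⟨true,1,⟨1,[(13,1),(2,0),(0,0)]⟩,⟨0,[(4,0),(0,0)]⟩⟩ ⟨false,1,⟨0,[(1,0),(14,0)]⟩,⟨1,[(5,1),
  (1,0),(1,1),(0,0)]⟩⟩]⟩))) (.Q [0,1,0,1,0,0,-1,0,-1] (.p false [0,0,1] [] (⟨0,[(7,0)]⟩,⟨1,[(6,0),
  (2,0),(0,0)]⟩) .k 0 (⟨0,[]⟩,⟨0,[]⟩) .k .k) (.R ⟨2,true,false,false,[0,1],[0,0,1],[0,0,1,1],(⟨0,
  []⟩,⟨0,[]⟩),(⟨0,[(8,0)]⟩,⟨1,[(7,0),(2,0),(0,0)]⟩),⟨0,[]⟩,.k,.k,.k,(.r 0 ⟨0,[(2,0)]⟩ ⟨1,[(6,0),(5,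
  1),(3,0)]⟩),.k,.k,⟨true,0,⟨0,[(2,0)]⟩,⟨1,[(1,1),(2,0),(2,0),(1,0),(2,1)]⟩⟩,⟨false,0,⟨0,[(8,0)]⟩,
  ⟨7,[(5,0),(0,0),(0,3),(1,1),(5,3)]⟩⟩,⟨false,1,⟨3,[(5,0),(0,0),(9,1)]⟩,⟨0,[]⟩⟩,⟨true,0,⟨0,[(1,0),
  (11,0)]⟩,⟨0,[(0,0)]⟩⟩,⟨true,0,⟨0,[(14,0)]⟩,⟨0,[(13,0)]⟩⟩,⟨false,0,⟨0,[(1,0)]⟩,⟨7,[(5,4),(0,0),(0,
  3),(1,1)]⟩⟩,[]⟩) (.Q [0,0,1,0,0,0,0,-1,1] (.p true [0,0,1] [1] (⟨0,[(8,0)]⟩,⟨1,[(7,0),(2,0),(0,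
  0)]⟩) .k 1 (⟨0,[]⟩,⟨0,[]⟩) .k .k) (.K ⟨0,[1,0,-1],0,0,(⟨1,[(8,0),(2,0),(0,0)]⟩,⟨0,[(9,0)]⟩),.k,
  (.r (-1) ⟨1,[(6,0),(6,1),(3,0)]⟩ ⟨5,[(2,1),(1,3),(0,2),(1,1),(0,0),(6,1),(1,0)]⟩),(.r 0 ⟨0,[(3,
  0)]⟩ ⟨1,[(7,0),(5,1),(3,0)]⟩),.k,.k,[⟨0,[(0,0)]⟩,⟨3,[(5,1),(0,0),(0,0),(0,1)]⟩,⟨0,[(2,0),(1,0),(9,
  0)]⟩,⟨1,[(5,0),(0,0),(1,0),(4,1),(1,1)]⟩]⟩) (.Q [0,0,0,0,0,-1,0,0,1] (.ed false [1,-1,1] .k) (.S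
  ⟨1,4,[],[0,0,1],[1,0,0,-1,0,0,1],(⟨0,[(10,0)]⟩,⟨7,[(1,3),(4,1),(0,0),(0,0),(0,1)]⟩),⟨0,[(0,0)]⟩,
  .k,(.r (-1) ⟨1,[(8,0),(5,1),(3,0)]⟩ ⟨0,[(4,0)]⟩),⟨false,1,⟨0,[(15,0),(2,0)]⟩,⟨0,[(16,0)]⟩⟩,⟨true,
  0,⟨3,[(1,1),(2,1),(1,0),(0,0),(1,0),(4,1),(5,1)]⟩,⟨0,[(2,0),(2,0)]⟩⟩,⟨true,0,⟨0,[]⟩,⟨0,[(20,0)]⟩⟩,
  ⟨false,0,⟨0,[(1,0),(2,0)]⟩,⟨3,[(2,3),(4,0),(0,0),(2,1)]⟩⟩,[.o ⟨false,0,⟨0,[(20,0)]⟩,⟨1,[(11,0),(6,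
  0)]⟩⟩,.e ⟨false,1,⟨5,[(2,3),(5,0),(0,1),(1,0),(2,1),(2,1),(0,1)]⟩,⟨1,[(1,0),(2,1),(0,0),(4,0),(3,
  0)]⟩⟩ ⟨false,0,⟨0,[(1,0)]⟩,⟨3,[(7,0),(0,0),(1,3),(0,1)]⟩⟩,.a ⟨true,0,⟨0,[(10,0)]⟩,⟨7,[(1,3),(4,1),
  (0,0),(0,0),(0,1)]⟩⟩ ⟨true,0,⟨1,[(2,1),(2,0),(3,0),(5,0)]⟩,⟨1,[(1,0),(2,1),(0,0),(4,0),(3,0)]⟩⟩
  ⟨false,0,⟨7,[(1,3),(4,1),(0,0),(0,0),(0,1)]⟩,⟨1,[(10,1),(0,0),(6,0)]⟩⟩,.e ⟨false,1,⟨5,[(2,3),(5,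
  0),(0,1),(1,0),(2,1),(2,1),(0,1)]⟩,⟨0,[(4,0)]⟩⟩ ⟨false,0,⟨0,[(1,0)]⟩,⟨7,[(6,3),(0,0),(0,0),(1,7),
  (0,5),(6,3)]⟩⟩]⟩) (.R ⟨0,false,false,false,[0,0,1],[0,1],[1,1],(⟨0,[(10,0)]⟩,⟨7,[(1,3),(4,1),(0,
  0),(0,0),(0,1)]⟩),(⟨0,[(13,0)]⟩,⟨0,[(12,0)]⟩),⟨0,[(0,0)]⟩,.k,.k,(.r (-1) ⟨1,[(8,0),(5,1),(3,0)]⟩
  ⟨0,[(4,0)]⟩),(.r (-1) ⟨1,[(8,0),(5,1),(3,0)]⟩ ⟨0,[(4,0)]⟩),.k,.k,⟨true,0,⟨0,[(14,0)]⟩,⟨0,[(5,0),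
  (0,0),(11,0)]⟩⟩,⟨false,1,⟨1,[(1,1),(9,0),(5,0)]⟩,⟨7,[(6,3),(0,0),(0,0),(1,7),(0,1)]⟩⟩,⟨true,0,⟨0,
  [(4,0),(9,0)]⟩,⟨7,[(2,1),(0,3),(1,3),(0,0),(1,0),(0,2),(4,1)]⟩⟩,⟨false,1,⟨1,[(1,1),(2,1),(6,0),(6,
  0)]⟩,⟨0,[(3,0),(11,0)]⟩⟩,⟨false,0,⟨0,[]⟩,⟨0,[]⟩⟩,⟨false,0,⟨0,[]⟩,⟨0,[]⟩⟩,[.e ⟨false,0,⟨1,[(1,0),
  (3,0),(4,0),(3,0)]⟩,⟨3,[(7,0),(0,0),(9,1)]⟩⟩ ⟨false,1,⟨7,[(5,3),(1,0),(0,0),(0,3),(6,3),(0,3),(0,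
  1)]⟩,⟨0,[(2,0),(1,0),(9,0)]⟩⟩,.o ⟨false,1,⟨0,[(5,0),(12,0)]⟩,⟨0,[(15,0)]⟩⟩,.e ⟨false,0,⟨0,[]⟩,⟨3,
  [(7,0),(0,0),(9,1)]⟩⟩ ⟨false,1,⟨7,[(5,3),(1,0),(0,0),(0,3),(6,3),(1,5)]⟩,⟨0,[(2,0),(1,0),(9,0)]⟩⟩,
  .a ⟨true,0,⟨7,[(6,3),(0,0),(0,0),(1,7),(0,1)]⟩,⟨0,[(1,0)]⟩⟩ ⟨true,0,⟨1,[(1,0),(3,0),(4,0),(3,0)]⟩,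
  ⟨7,[(6,3),(0,0),(0,0),(2,1)]⟩⟩ ⟨false,1,⟨0,[(1,0),(3,0),(12,0)]⟩,⟨3,[(2,1),(3,1),(0,0),(2,1),(0,
  0),(3,1)]⟩⟩]⟩))))) t0)

theorem ok : chk (cPU 1 false) tree base = true := by
  decide +kernel

theorem closed {p a b c J l q : ℤ} {D dl : ℝ} {Cl : ℤ → ℤ → ℤ → ℤ → ℝ → Prop}
    (W : World p a b c J 1 l q D dl Cl) (hE : KEmp p a b 1 (P1 l p) Cl)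
    (g : G0 p a b c J D)
    {N R : ℤ} {I : ℝ} (hu : VFac p D Cl N R I)
    (s0 : (1 : ℝ) ≤ c)
    (s1 : (b : ℝ) + c + 1 ≤ a)
    (s2 : p - D < 2 * b)
    (s3 : D - c < a) : False := by
  have g1 := g.a2
  have g2 := g.b2
  have g3 := g.pa
  have g4 := g.pb
  have g5 := g.J1
  have g6 := g.JD
  have g7 := g.D2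
  have g8 := g.ca
  have g9 := g.ca'
  have t1 := TF.ofV hu
  have i1 := t1.I0
  have i2 := hu.ID
  have i3 := t1.R1
  have i4 := t1.R2
  refine (val_PU W.toBase (UV.ofV hu)).sound W rfl (Nk := 0) (fun kf hkf hh => ?_) (kok_B hE (by simp [xv]) (by simp [xv]) 0) ?_ ok
  · simp only [cPU, kfB, List.mem_cons, List.not_mem_nil, or_false] at hkf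
    subst hkf
    exact absurd hh (by norm_num)
  · simp only [base, List.forall_mem_cons, List.not_mem_nil, false_imp_iff, implies_true,
      and_true, hld, xv, evg_cons, evg_nil, List.map_cons, List.map_nil, List.cons_append,
      List.nil_append, if_true, if_false, Bool.false_eq_true]
    push_cast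
    refine ⟨?_, ?_, ?_, ?_, ?_, ?_, ?_, ?_, ?_, ?_, ?_, ?_, ?_, ?_, ?_, ?_⟩ <;> linarith

end Helper25.KG.P1_1_1_0_v
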