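import Pool.Agent.Helper25.KG.PL

set_option autoImplicit false
set_option linter.unusedVariables false

namespace Helper25.KG.P1_1_1_1_v2

open Helper11.CT Helper25.KW Helper25.KG

def base : List Con :=
  [(false,[0,1,0,-1,0,-2,2]),
  (false,[0,0,2,0,0,-2,2]),
  (false,[0,0,0,0,0,0,1]),
  (false,[0,0,0,0,0,2,-4]),
  (false,[0,0,0,0,-1,0,2]),
  (true,[0,0,0,0,1]),
  (true,[0,1,-1,-1]),
  (true,[0,1,0,-1]),
  (true,[0,0,0,1]),
  (true,[0,0,-2,0,0,2]),
  (true,[0,-2,0,0,0,2]),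
  (true,[-1,0,1]),
  (true,[-1,1])]

def tree : Tre :=
  (.C [(0,1),(2,0),(4,1),(1,0)])

theorem ok : chk (cPW 1) tree base = true := by
  decide +kernel

theorem closed {p a b c J l q : ℤ} {D dl : ℝ} {Cl : ℤ → ℤ → ℤ → ℤ → ℝ → Prop}
    (W : World p a b c J 1 l q D dl Cl) (hE : KEmp p a b 1 (P1 l p) Cl)
    (g : G0 p a b c J D)
    {N R : ℤ} {I : ℝ} (hu : WFac p D Cl N R I)
    (s0 : (1 : ℝ) ≤ c)
    (s1 : (b : ℝ) + c + 1 ≤ a)
    (s2 : p - D < 2 * b)
    (s3 : -(a : ℝ) < D - c - p) : False := by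
  have g1 := g.a2
  have g2 := g.b2
  have g3 := g.pa
  have g4 := g.pb
  have g5 := g.J1
  have g6 := g.JD
  have g7 := g.D2
  have g8 := g.ca
  have g9 := g.ca'
  have i1 := hu.I0
  have i2 := hu.ID
  have i3 : (2 : ℝ) * R = p := by exact_mod_cast hu.R2
  refine (val_PW W.toBase hu).sound W rfl (Nk := 0) (fun kf hkf hh => ?_) (kok_B hE (by simp [xv]) (by simp [xv]) 0) ?_ ok
  · simp only [cPW, kfB, List.mem_cons, List.not_mem_nil, or_false] at hkf
    subst hkf
    exact absurd hh (by norm_num)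
  · simp only [base, List.forall_mem_cons, List.not_mem_nil, false_imp_iff, implies_true,
      and_true, hld, xv, evg_cons, evg_nil, List.map_cons, List.map_nil, List.cons_append,
      List.nil_append, if_true, if_false, Bool.false_eq_true]
    push_cast
    refine ⟨?_, ?_, ?_, ?_, ?_, ?_, ?_, ?_, ?_, ?_, ?_, ?_, ?_⟩ <;> linarith

end Helper25.KG.P1_1_1_1_v2
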