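import Pool.Agent.Helper25.KG.PL

set_option autoImplicit false
set_option linter.unusedVariables false

namespace Helper25.KG.P1_1_m1_0_u

open Helper11.CT Helper25.KW Helper25.KG

def base : List Con :=
  [(false,[0,1,0,-1,0,0,0,-1]),
  (false,[0,0,2,0,0,0,0,-1]),
  (true,[0,0,0,0,1,0,-2]),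
  (true,[0,0,0,0,1,0,2]),
  (false,[0,0,0,0,0,0,0,1,-1]),
  (false,[0,0,0,0,0,0,0,0,1]),
  (false,[0,0,0,0,1,0,0,-2]),
  (false,[0,0,0,0,0,-1,0,1]),
  (true,[0,0,0,0,0,1]),
  (true,[0,1,-1,-1]),
  (true,[0,1,0,-1]),
  (true,[0,0,0,1]),
  (true,[0,0,-2,0,1]),
  (true,[0,-2,0,0,1]),
  (true,[-1,0,1]),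
  (true,[-1,1])]

def t0 : Tre :=
  (.I [1,0,0,0,0,0,-1] (.K ⟨0,[0,0,1],0,0,(⟨0,[(8,0)]⟩,⟨0,[(7,0)]⟩),.k,(.r (-1) ⟨1,[(6,0),(5,1),(3,
  0)]⟩ ⟨0,[(0,0),(13,0),(2,0)]⟩),(.x 0 ⟨0,[(11,0)]⟩ ⟨3,[(5,0),(0,0),(2,1),(0,3)]⟩),.k,.k,[⟨0,[(8,
  0)]⟩,⟨0,[(4,0),(2,0)]⟩,⟨0,[(0,0),(7,0),(3,0),(1,0)]⟩,⟨0,[(1,0)]⟩]⟩) (.Q [0,1,-1,0,0,0,-1,0,1] (.p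
  true [0,0,1] [] (⟨0,[(8,0)]⟩,⟨0,[(7,0)]⟩) .k 0 (⟨0,[]⟩,⟨0,[]⟩) .k .k) (.K ⟨0,[0,0,1],0,0,(⟨0,[(9,
  0)]⟩,⟨0,[(8,0)]⟩),.k,(.x 0 ⟨0,[(5,0),(5,0)]⟩ ⟨0,[(12,0),(3,0)]⟩),(.x 0 ⟨0,[(12,0)]⟩ ⟨3,[(6,0),(0,
  0),(2,1),(0,3)]⟩),.k,.k,[⟨0,[(9,0)]⟩,⟨0,[(5,0),(2,0)]⟩,⟨0,[(0,0)]⟩,⟨0,[(2,0)]⟩]⟩) (.Q [0,-1,-1,0,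
  1,0,-1,0,1] (.p true [0,0,1] [] (⟨0,[(9,0)]⟩,⟨0,[(8,0)]⟩) .k 0 (⟨0,[]⟩,⟨0,[]⟩) .k .k) (.Q [0,0,0,
  0,0,1,0,-1,1] (.ed false [0,1,1] .k) (.Q [0,0,1,0,0,0,0,-1] (.pp true [-1,1]) (.R ⟨0,false,false,
  false,[1,0,-1],[0,1],[0,1,0,0,0,0,-1],(⟨0,[(11,0)]⟩,⟨0,[(12,0)]⟩),(⟨0,[(15,0)]⟩,⟨0,[(14,0)]⟩),⟨0,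
  [(1,0)]⟩,.k,.k,(.x (-1) ⟨3,[(9,0),(0,0),(2,1),(0,3)]⟩ ⟨0,[(15,0)]⟩),(.x (-1) ⟨3,[(9,0),(0,0),(2,
  1),(0,3)]⟩ ⟨0,[(15,0)]⟩),.k,.k,⟨false,1,⟨1,[(9,0),(6,1),(2,0)]⟩,⟨0,[(3,0),(8,0),(5,0)]⟩⟩,⟨true,0,
  ⟨0,[(11,0)]⟩,⟨0,[(0,0),(11,0)]⟩⟩,⟨true,0,⟨0,[(22,0)]⟩,⟨0,[]⟩⟩,⟨false,0,⟨0,[(3,0),(7,0),(0,0),(5,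
  0)]⟩,⟨0,[(2,0),(4,0)]⟩⟩,⟨false,0,⟨0,[]⟩,⟨0,[]⟩⟩,⟨false,0,⟨0,[]⟩,⟨0,[]⟩⟩,[.o ⟨false,0,⟨0,[(18,0)]⟩,
  ⟨3,[(6,1),(2,0),(0,0),(2,0),(6,0)]⟩⟩,.o ⟨false,1,⟨3,[(9,0),(0,0),(7,3),(1,1)]⟩,⟨0,[(7,0)]⟩⟩,.o
  ⟨false,1,⟨1,[(12,1),(0,0),(5,0)]⟩,⟨0,[(0,0),(10,0)]⟩⟩,.a ⟨true,0,⟨0,[(12,0)]⟩,⟨0,[(11,0)]⟩⟩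
  ⟨false,1,⟨1,[(9,0),(9,0)]⟩,⟨0,[(3,0),(8,0)]⟩⟩ ⟨true,0,⟨0,[(11,0),(6,0)]⟩,⟨0,[(7,0),(4,0)]⟩⟩]⟩)
  (.Q [0,0,0,0,0,2,0,-1] (.pp true [-1,1]) (.Q [0,0,1,0,0,0,0,-1,1] (.p true [0,0,1] [1] (⟨0,[(13,
  0)]⟩,⟨0,[(12,0)]⟩) .k 1 (⟨0,[]⟩,⟨0,[]⟩) .k .k) (.R ⟨0,false,false,false,[1,-1],[0,0,1],[1],(⟨0,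
  [(16,0)]⟩,⟨0,[(17,0)]⟩),(⟨0,[(14,0)]⟩,⟨0,[(13,0)]⟩),⟨0,[(1,0)]⟩,.k,.k,(.r (-1) ⟨1,[(2,1),(5,1),
  (12,0),(0,0)]⟩ ⟨0,[(20,1),(2,1)]⟩),(.x (-1) ⟨3,[(11,0),(0,0),(2,1),(0,3)]⟩ ⟨0,[(17,0)]⟩),.k,.k,
  ⟨false,1,⟨1,[(11,0),(9,0)]⟩,⟨0,[(6,0)]⟩⟩,⟨true,0,⟨0,[(13,0)]⟩,⟨0,[(0,0)]⟩⟩,⟨true,0,⟨0,[(20,0),(2,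
  0)]⟩,⟨0,[(18,0)]⟩⟩,⟨false,0,⟨0,[(5,0),(7,0),(0,0),(5,0)]⟩,⟨0,[(4,0),(4,0)]⟩⟩,⟨false,0,⟨0,[]⟩,⟨0,
  []⟩⟩,⟨false,0,⟨0,[]⟩,⟨0,[]⟩⟩,[.o ⟨false,0,⟨1,[(5,0),(1,0)]⟩,⟨0,[(4,0),(4,0),(10,0)]⟩⟩,.o ⟨false,0,
  ⟨0,[(5,0)]⟩,⟨0,[(4,0),(4,0),(10,0),(3,0)]⟩⟩,.a ⟨true,0,⟨0,[(23,0)]⟩,⟨0,[(2,0)]⟩⟩ ⟨true,0,⟨0,[]⟩,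
  ⟨0,[(24,0)]⟩⟩ ⟨false,0,⟨0,[(2,0),(2,0)]⟩,⟨3,[(0,1),(3,1),(6,0),(3,0),(8,1)]⟩⟩,.o ⟨false,0,⟨0,[(10,
  0)]⟩,⟨0,[(21,0)]⟩⟩]⟩) (.R ⟨0,false,false,true,[1,-1],[1,-1,1],[1],(⟨0,[(16,0)]⟩,⟨0,[(17,0)]⟩),(⟨0,
  [(14,0),(1,0)]⟩,⟨1,[(0,1),(0,0),(8,0)]⟩),⟨0,[(1,0)]⟩,.k,(.x 0 ⟨0,[(10,0),(5,0)]⟩ ⟨0,[(17,0),(3,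
  0)]⟩),(.r (-1) ⟨1,[(2,1),(5,1),(12,0),(0,0)]⟩ ⟨0,[(20,1),(2,1)]⟩),.k,.k,.k,⟨false,1,⟨1,[(11,0),(8,
  1),(1,0)]⟩,⟨0,[(6,0),(11,0)]⟩⟩,⟨true,0,⟨0,[(0,0),(9,0)]⟩,⟨0,[(14,0)]⟩⟩,⟨true,0,⟨0,[(20,0),(2,0)]⟩,
  ⟨0,[(18,0)]⟩⟩,⟨false,0,⟨1,[(5,0),(1,0)]⟩,⟨0,[(4,0)]⟩⟩,⟨false,0,⟨0,[]⟩,⟨0,[]⟩⟩,⟨false,0,⟨0,[]⟩,⟨0,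
  []⟩⟩,[.o ⟨false,0,⟨1,[(5,0),(1,0),(1,1)]⟩,⟨0,[(4,0),(15,0)]⟩⟩,.o ⟨false,0,⟨0,[(5,0),(3,0)]⟩,⟨0,
  [(4,0),(15,0),(3,0)]⟩⟩,.a ⟨true,0,⟨0,[(23,0)]⟩,⟨0,[(2,0)]⟩⟩ ⟨true,0,⟨0,[]⟩,⟨0,[(24,0)]⟩⟩ ⟨false,0,
  ⟨0,[(5,0),(12,0)]⟩,⟨1,[(11,0),(2,1),(5,1),(1,0)]⟩⟩,.o ⟨false,0,⟨0,[(10,0)]⟩,⟨0,[(21,0)]⟩⟩]⟩)) (.S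
  ⟨1,0,[0,1,-1,-1],[1,-1],[1,0,-1,-2],(⟨0,[(15,0)]⟩,⟨0,[(16,0)]⟩),⟨0,[(0,0)]⟩,.k,(.r (-1) ⟨1,[(1,1),
  (5,1),(12,0),(0,0)]⟩ ⟨0,[(19,1),(2,1)]⟩),⟨false,1,⟨0,[(18,0),(2,0)]⟩,⟨0,[(19,0)]⟩⟩,⟨true,0,⟨0,
  [(23,0)]⟩,⟨0,[]⟩⟩,⟨true,0,⟨0,[]⟩,⟨0,[(23,0)]⟩⟩,⟨false,0,⟨0,[(19,0)]⟩,⟨0,[(18,0),(2,0)]⟩⟩,[.o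
  ⟨false,0,⟨0,[(8,0)]⟩,⟨3,[(10,0),(0,0),(7,3),(1,1)]⟩⟩,.o ⟨false,1,⟨3,[(7,1),(2,0),(0,0),(2,0),(6,
  0)]⟩,⟨0,[(19,0)]⟩⟩,.a ⟨true,0,⟨0,[(22,0)]⟩,⟨0,[(1,0)]⟩⟩ ⟨false,1,⟨0,[(1,0),(5,0),(13,0)]⟩,⟨0,[(19,
  1),(2,0)]⟩⟩ ⟨true,0,⟨0,[(17,0)]⟩,⟨0,[(19,0),(2,0)]⟩⟩,.o ⟨false,0,⟨0,[(9,0)]⟩,⟨0,[(20,0)]⟩⟩]⟩)))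
  (.I [1,-1,-1,-1,1,0,-1] (.Q [0,0,-1,0,0,0,0,1] (.pp false [-1,1]) (.Q [0,0,0,0,0,-2,0,1] (.pp
  false [-1,1]) (.S ⟨1,0,[0,1,-1,-1],[1,-1],[1,0,-1,-2],(⟨0,[(16,0)]⟩,⟨0,[(17,0)]⟩),⟨0,[(0,0)]⟩,.k,
  (.r (-1) ⟨0,[(18,1),(3,0)]⟩ ⟨0,[(20,1),(2,1)]⟩),⟨false,1,⟨0,[(19,0),(2,0)]⟩,⟨0,[(20,0)]⟩⟩,⟨true,0,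
  ⟨0,[(24,0)]⟩,⟨0,[]⟩⟩,⟨true,0,⟨0,[]⟩,⟨0,[(24,0)]⟩⟩,⟨false,0,⟨0,[(20,0)]⟩,⟨0,[(19,0),(2,0)]⟩⟩,[.o
  ⟨false,0,⟨0,[(9,0)]⟩,⟨3,[(11,0),(0,0),(7,3),(1,1)]⟩⟩,.o ⟨false,1,⟨23,[(2,7),(5,7),(1,3),(0,2),(0,
  6),(2,5)]⟩,⟨0,[(20,0)]⟩⟩,.a ⟨true,0,⟨0,[(23,0)]⟩,⟨0,[(1,0)]⟩⟩ ⟨false,1,⟨0,[(1,0),(6,0),(13,0)]⟩,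
  ⟨0,[(20,1),(2,0)]⟩⟩ ⟨true,0,⟨0,[(18,0)]⟩,⟨0,[(20,0),(2,0)]⟩⟩,.o ⟨false,0,⟨0,[(10,0)]⟩,⟨0,[(21,
  0)]⟩⟩]⟩) (.R ⟨0,false,false,true,[1,-1],[1,-1,1],[1],(⟨0,[(16,0)]⟩,⟨0,[(17,0)]⟩),(⟨0,[(14,0),(1,
  0)]⟩,⟨0,[(0,0),(2,0)]⟩),⟨0,[(0,0)]⟩,.k,(.x 0 ⟨0,[(10,0),(5,0)]⟩ ⟨0,[(17,0),(3,0)]⟩),(.r (-1) ⟨0,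
  [(18,1),(3,0)]⟩ ⟨0,[(20,1),(2,1)]⟩),.k,.k,.k,⟨false,1,⟨1,[(11,0),(8,1),(1,0)]⟩,⟨0,[(6,0),(11,
  0)]⟩⟩,⟨true,0,⟨1,[(0,0),(2,1),(6,0)]⟩,⟨0,[(14,0)]⟩⟩,⟨true,0,⟨0,[(20,0),(2,0)]⟩,⟨0,[(18,0)]⟩⟩,
  ⟨false,0,⟨1,[(5,0),(1,0)]⟩,⟨0,[(4,0)]⟩⟩,⟨false,0,⟨0,[]⟩,⟨0,[]⟩⟩,⟨false,0,⟨0,[]⟩,⟨0,[]⟩⟩,[.o
  ⟨false,0,⟨1,[(5,0),(1,0),(1,1)]⟩,⟨0,[(4,0),(15,0)]⟩⟩,.o ⟨false,0,⟨0,[(5,0),(3,0)]⟩,⟨0,[(4,0),(15,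
  0),(3,0)]⟩⟩,.a ⟨true,0,⟨0,[(23,0)]⟩,⟨0,[(1,0)]⟩⟩ ⟨true,0,⟨0,[]⟩,⟨0,[(24,0)]⟩⟩ ⟨false,0,⟨0,[(5,0),
  (12,0)]⟩,⟨1,[(11,0),(2,1),(5,1),(1,0)]⟩⟩,.o ⟨false,0,⟨0,[(10,0)]⟩,⟨0,[(21,0)]⟩⟩]⟩)) (.R ⟨1,false,
  false,false,[1,0,-1],[0,1],[1,0,0,-1,0,0,-1],(⟨0,[(12,0)]⟩,⟨0,[(13,0)]⟩),(⟨0,[(16,0)]⟩,⟨0,[(15,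
  0)]⟩),⟨0,[(2,0)]⟩,.k,.k,(.x (-1) ⟨3,[(10,0),(0,0),(2,1),(0,3)]⟩ ⟨0,[(16,0)]⟩),(.x (-1) ⟨3,[(10,0),
  (0,0),(2,1),(0,3)]⟩ ⟨0,[(16,0)]⟩),(.r (-1) ⟨0,[(1,0),(15,0)]⟩ ⟨1,[(4,0),(1,0),(6,1),(5,3),(2,
  1)]⟩),.k,⟨false,1,⟨0,[(1,0),(15,0)]⟩,⟨1,[(4,0),(1,0),(6,1),(5,3)]⟩⟩,⟨true,0,⟨0,[(12,0)]⟩,⟨0,[(0,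
  0),(12,0)]⟩⟩,⟨false,1,⟨0,[(18,0),(2,0)]⟩,⟨0,[(19,0)]⟩⟩,⟨false,0,⟨0,[(4,0),(7,0),(0,0),(5,0)]⟩,⟨0,
  [(3,0),(4,0)]⟩⟩,⟨true,0,⟨0,[]⟩,⟨0,[(23,0)]⟩⟩,⟨false,0,⟨0,[(4,0),(7,0),(0,0),(5,1)]⟩,⟨0,[(3,0),(3,
  0)]⟩⟩,[.o ⟨false,0,⟨0,[(19,0)]⟩,⟨23,[(1,7),(5,7),(1,3),(0,2),(0,6),(2,5)]⟩⟩,.o ⟨false,1,⟨3,[(10,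
  0),(0,0),(7,3),(1,1)]⟩,⟨0,[(8,0)]⟩⟩,.o ⟨false,1,⟨1,[(13,1),(0,0),(5,0)]⟩,⟨0,[(0,0),(11,0)]⟩⟩,.a
  ⟨true,0,⟨0,[(13,0)]⟩,⟨0,[(12,0)]⟩⟩ ⟨false,1,⟨0,[(1,0)]⟩,⟨1,[(4,0),(1,0),(6,1),(5,1)]⟩⟩ ⟨true,0,⟨0,
  [(12,0),(6,0)]⟩,⟨0,[(8,0),(4,0)]⟩⟩]⟩)) (.Q [0,0,1,0,0,0,0,0,-1] (.p false [0,0,1] [] (⟨0,[(12,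
  0)]⟩,⟨0,[(11,0)]⟩) .k 0 (⟨0,[]⟩,⟨0,[]⟩) .k .k) (.S ⟨1,0,[0,1,0,0,0,0,-1],[1,0,-1],[1,0,0,-1,0,0,
  -1],(⟨0,[(12,0)]⟩,⟨0,[(13,0)]⟩),⟨0,[(2,0)]⟩,.k,(.x (-1) ⟨3,[(10,0),(0,0),(2,1),(0,3)]⟩ ⟨0,[(16,
  0)]⟩),⟨false,1,⟨0,[(18,0),(2,0)]⟩,⟨0,[(19,0)]⟩⟩,⟨true,0,⟨0,[(23,0)]⟩,⟨0,[]⟩⟩,⟨true,0,⟨0,[]⟩,⟨0,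
  [(23,0)]⟩⟩,⟨false,0,⟨0,[(19,0)]⟩,⟨0,[(18,0),(2,0)]⟩⟩,[.o ⟨false,1,⟨0,[(3,0),(4,0),(10,0),(3,0)]⟩,
  ⟨0,[(4,0)]⟩⟩,.o ⟨false,1,⟨0,[(3,0),(4,0),(10,0)]⟩,⟨1,[(4,0),(1,0)]⟩⟩,.o ⟨false,1,⟨1,[(13,1),(0,0),
  (5,0)]⟩,⟨0,[(0,0)]⟩⟩,.a ⟨true,0,⟨0,[(13,0)]⟩,⟨0,[(12,0)]⟩⟩ ⟨true,1,⟨3,[(3,1),(3,1),(2,0),(1,1),(7,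
  0)]⟩,⟨0,[(1,0)]⟩⟩ ⟨false,1,⟨1,[(10,0),(9,0)]⟩,⟨0,[(4,0),(8,0)]⟩⟩]⟩) (.S ⟨1,0,[0,1,-1,-1],[1,-1],
  [0,0,-1,-1],(⟨0,[(15,0)]⟩,⟨0,[(16,0)]⟩),⟨0,[(0,1),(1,1),(6,0)]⟩,.k,(.r (-1) ⟨0,[(17,1),(3,0)]⟩ ⟨0,
  [(1,1),(8,0),(10,0)]⟩),⟨false,1,⟨3,[(10,0),(0,0),(9,1)]⟩,⟨0,[]⟩⟩,⟨true,0,⟨0,[(23,0)]⟩,⟨0,[]⟩⟩,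
  ⟨true,0,⟨0,[(19,0)]⟩,⟨0,[(18,0)]⟩⟩,⟨false,0,⟨0,[(19,0)]⟩,⟨0,[(18,0),(2,0)]⟩⟩,[.o ⟨false,0,⟨0,[(8,
  0)]⟩,⟨3,[(10,0),(0,0),(7,3),(1,1)]⟩⟩,.o ⟨false,1,⟨3,[(7,1),(2,0),(0,0),(2,0),(6,0)]⟩,⟨0,[(19,
  0)]⟩⟩,.a ⟨true,0,⟨0,[(22,0)]⟩,⟨0,[(0,0),(11,0)]⟩⟩ ⟨false,1,⟨0,[(17,0),(3,0)]⟩,⟨1,[(1,1),(8,0),(10,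
  0)]⟩⟩ ⟨true,0,⟨0,[(17,0)]⟩,⟨1,[(1,1),(8,0),(10,0)]⟩⟩,.o ⟨false,0,⟨0,[(9,0)]⟩,⟨0,[(20,0)]⟩⟩]⟩))))
  (.K ⟨0,[0,0,1],0,(-1),(⟨0,[(10,0)]⟩,⟨0,[(9,0)]⟩),.k,(.x 0 ⟨0,[(6,0),(5,0)]⟩ ⟨0,[(13,0),(3,0)]⟩),
  (.x 0 ⟨0,[(13,0)]⟩ ⟨3,[(7,0),(0,0),(2,1),(0,3)]⟩),.k,.k,[⟨0,[(10,0)]⟩,⟨0,[(6,0),(2,0)]⟩,⟨1,[(7,0),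
  (2,1),(6,0),(2,1)]⟩,⟨0,[(0,0)]⟩]⟩))))

def t1 : Tre :=
  (.I [0,0,-2,-2,0,0,-1] (.Q [0,0,0,0,0,2,0,-1] (.pp true [-1,1]) (.Q [0,0,1,0,0,0,0,-1,1] (.p true
  [0,0,1] [1] (⟨0,[(10,0)]⟩,⟨0,[(9,0)]⟩) .k 1 (⟨0,[]⟩,⟨0,[]⟩) .k .k) (.I [1,-1,-1,0,0,0,-1] (.Q [0,
  0,0,0,0,1,0,-1,1] (.ed false [0,1,1] .k) (.Q [0,0,1,0,0,0,0,0,-1] (.p false [0,0,1] [] (⟨0,[(13,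
  0)]⟩,⟨0,[(12,0)]⟩) .k 0 (⟨0,[]⟩,⟨0,[]⟩) .k .k) (.R ⟨0,false,false,false,[1,0,-1],[0,1],[1,0,0,0,0,
  0,-1],(⟨0,[(13,0)]⟩,⟨0,[(14,0)]⟩),(⟨0,[(17,0)]⟩,⟨0,[(16,0)]⟩),⟨0,[(1,0)]⟩,.k,.k,(.x (-1) ⟨3,[(11,
  0),(0,0),(2,1),(0,3)]⟩ ⟨0,[(17,0)]⟩),(.x (-1) ⟨3,[(11,0),(0,0),(2,1),(0,3)]⟩ ⟨0,[(17,0)]⟩),.k,.k,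
  ⟨false,0,⟨0,[(5,0),(14,0)]⟩,⟨3,[(11,0),(0,2),(7,3),(2,3)]⟩⟩,⟨true,0,⟨0,[(13,0)]⟩,⟨0,[(3,0)]⟩⟩,
  ⟨true,0,⟨0,[]⟩,⟨0,[(24,0)]⟩⟩,⟨false,1,⟨1,[(12,0),(0,1),(6,1),(1,0),(0,1)]⟩,⟨0,[(7,0),(1,0)]⟩⟩,
  ⟨false,0,⟨0,[]⟩,⟨0,[]⟩⟩,⟨false,0,⟨0,[]⟩,⟨0,[]⟩⟩,[.o ⟨false,0,⟨0,[(20,0)]⟩,⟨3,[(8,1),(2,0),(0,0),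
  (2,0),(6,0)]⟩⟩,.o ⟨false,1,⟨3,[(11,0),(0,0),(7,3),(1,1)]⟩,⟨0,[(9,0)]⟩⟩,.o ⟨false,1,⟨1,[(14,1),(0,
  0),(5,0)]⟩,⟨0,[(0,0)]⟩⟩,.a ⟨true,0,⟨0,[(14,0)]⟩,⟨0,[(13,0)]⟩⟩ ⟨false,0,⟨0,[(2,0)]⟩,⟨3,[(11,0),(0,
  2),(10,3)]⟩⟩ ⟨true,0,⟨0,[(13,0),(6,0)]⟩,⟨0,[(9,0),(4,0)]⟩⟩]⟩) (.R ⟨0,false,false,false,[1,-1],[0,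
  0,1],[1],(⟨0,[(16,0)]⟩,⟨0,[(17,0)]⟩),(⟨0,[(14,0)]⟩,⟨0,[(13,0)]⟩),⟨0,[(4,0)]⟩,.k,.k,(.r (-1) ⟨3,
  [(5,3),(5,0),(0,2)]⟩ ⟨0,[(20,1),(2,1)]⟩),(.x (-1) ⟨3,[(11,0),(0,0),(2,1),(0,3)]⟩ ⟨0,[(17,0)]⟩),.k,
  .k,⟨false,0,⟨0,[(2,0),(21,0)]⟩,⟨3,[(11,0),(0,2)]⟩⟩,⟨true,0,⟨0,[(13,0)]⟩,⟨0,[(3,0)]⟩⟩,⟨true,0,⟨0,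
  [(20,0),(2,0)]⟩,⟨0,[(18,0)]⟩⟩,⟨false,1,⟨1,[(12,0),(0,1),(6,1),(1,0),(0,1)]⟩,⟨0,[(7,0),(1,0)]⟩⟩,
  ⟨false,0,⟨0,[]⟩,⟨0,[]⟩⟩,⟨false,0,⟨0,[]⟩,⟨0,[]⟩⟩,[.o ⟨false,1,⟨7,[(10,3),(0,0),(0,4),(0,7),(1,1)]⟩,
  ⟨0,[(7,0),(1,0),(10,0)]⟩⟩,.o ⟨false,1,⟨0,[(2,0),(7,0),(1,0),(0,0)]⟩,⟨0,[(7,0),(1,0),(10,0),(3,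
  0)]⟩⟩,.a ⟨true,0,⟨0,[(23,0)]⟩,⟨0,[(0,0),(12,0)]⟩⟩ ⟨true,0,⟨0,[]⟩,⟨0,[(24,0)]⟩⟩ ⟨false,1,⟨1,[(12,
  0),(0,1),(8,0)]⟩,⟨1,[(7,1),(1,0),(0,0),(9,0),(3,0)]⟩⟩,.o ⟨false,0,⟨0,[(10,0)]⟩,⟨0,[(21,0)]⟩⟩]⟩))
  (.R ⟨0,false,false,true,[1,-1,-1],[1,-1],[0,1,-1,-1,0,0,-1],(⟨0,[(0,0)]⟩,⟨0,[(13,0),(2,0)]⟩),(⟨0,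
  [(15,0)]⟩,⟨0,[(16,0)]⟩),⟨0,[(3,0),(9,0)]⟩,(.x (-1) ⟨3,[(10,0),(0,0),(2,1),(0,3)]⟩ ⟨0,[(16,0)]⟩),
  .k,(.r 0 ⟨0,[(4,0)]⟩ ⟨3,[(10,0),(0,2),(7,7),(2,7)]⟩),.k,.k,.k,⟨false,0,⟨0,[(1,0),(21,0)]⟩,⟨3,[(10,
  0),(0,2)]⟩⟩,⟨true,0,⟨1,[(0,1),(2,0),(5,0)]⟩,⟨0,[(13,0)]⟩⟩,⟨true,0,⟨0,[(23,0)]⟩,⟨0,[]⟩⟩,⟨false,1,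
  ⟨7,[(9,3),(0,0),(0,4),(0,7),(1,1)]⟩,⟨0,[(6,0)]⟩⟩,⟨false,0,⟨0,[]⟩,⟨0,[]⟩⟩,⟨false,0,⟨0,[]⟩,⟨0,[]⟩⟩,
  [.o ⟨false,0,⟨0,[(8,0)]⟩,⟨3,[(10,0),(0,0),(7,3),(1,1)]⟩⟩,.o ⟨false,1,⟨3,[(7,1),(2,0),(0,0),(2,0),
  (6,0)]⟩,⟨0,[(19,0)]⟩⟩,.a ⟨true,0,⟨0,[(13,0)]⟩,⟨0,[(12,0)]⟩⟩ ⟨false,0,⟨1,[(4,0),(0,0),(17,0)]⟩,⟨1,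
  [(11,0),(7,1),(1,0),(0,1)]⟩⟩ ⟨true,0,⟨0,[(8,0),(3,0)]⟩,⟨0,[(13,0),(5,0)]⟩⟩,.o ⟨false,0,⟨0,[(2,
  0)]⟩,⟨1,[(12,1),(1,0),(5,0)]⟩⟩]⟩)) (.Q [0,0,0,0,0,1,0,-1,1] (.ed false [0,1,1] .k) (.K ⟨0,[-1,1,
  1],0,0,(⟨0,[(0,0)]⟩,⟨0,[(12,0),(2,0)]⟩),(.x 0 ⟨0,[(16,0)]⟩ ⟨3,[(10,0),(0,0),(2,1),(0,3)]⟩),.k,(.r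
  (-1) ⟨3,[(1,5),(8,0),(8,7),(1,2),(0,1)]⟩ ⟨0,[(4,0)]⟩),.k,.k,[⟨0,[(2,0)]⟩,⟨0,[(12,0),(9,0)]⟩,⟨0,
  [(6,0),(1,0),(14,0)]⟩,⟨0,[(1,0),(10,0),(6,0)]⟩]⟩) (.K ⟨0,[1,-1,-1],0,0,(⟨0,[(0,0)]⟩,⟨0,[(13,0),(2,
  0)]⟩),(.x (-1) ⟨3,[(10,0),(0,0),(2,1),(0,3)]⟩ ⟨0,[(16,0)]⟩),(.r 0 ⟨0,[(4,0)]⟩ ⟨3,[(1,5),(8,0),(8,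
  7),(1,2),(0,1)]⟩),.k,.k,.k,[⟨0,[(12,0),(9,0)]⟩,⟨0,[(2,0)]⟩,⟨0,[(1,0),(10,0),(6,0)]⟩,⟨0,[(6,0),(1,
  0),(14,0)]⟩]⟩))) (.R ⟨0,false,false,true,[1,-1],[1,-1,1],[1],(⟨0,[(13,0)]⟩,⟨0,[(14,0)]⟩),(⟨0,[(11,
  0),(1,0)]⟩,⟨1,[(0,1),(0,0),(5,0)]⟩),⟨0,[(1,0)]⟩,.k,(.r (-1) ⟨7,[(2,3),(5,0),(0,6)]⟩ ⟨0,[(3,0),(13,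
  0),(2,0),(0,0)]⟩),(.r (-1) ⟨3,[(2,3),(5,0),(0,2)]⟩ ⟨0,[(17,1),(2,1)]⟩),.k,.k,.k,⟨false,0,⟨0,[(3,
  0),(13,0)]⟩,⟨1,[(9,0),(6,1),(1,0)]⟩⟩,⟨true,0,⟨0,[(0,0),(6,0)]⟩,⟨0,[(11,0)]⟩⟩,⟨true,0,⟨0,[(17,0),
  (2,0)]⟩,⟨0,[(15,0)]⟩⟩,⟨false,1,⟨7,[(7,3),(0,0),(0,4),(0,7),(1,1)]⟩,⟨0,[(4,0)]⟩⟩,⟨false,0,⟨0,[]⟩,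
  ⟨0,[]⟩⟩,⟨false,0,⟨0,[]⟩,⟨0,[]⟩⟩,[.o ⟨false,1,⟨1,[(6,0),(0,0),(1,0),(0,1),(1,0),(3,0)]⟩,⟨0,[(4,0),
  (12,0)]⟩⟩,.o ⟨false,1,⟨3,[(0,3),(4,1),(1,3),(1,1),(2,0),(6,0)]⟩,⟨0,[(4,0),(12,0),(3,0)]⟩⟩,.a
  ⟨true,0,⟨0,[(20,0)]⟩,⟨0,[(0,0),(10,0)]⟩⟩ ⟨true,0,⟨0,[]⟩,⟨0,[(21,0)]⟩⟩ ⟨false,1,⟨3,[(5,1),(3,1),(0,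
  3),(1,0),(6,0)]⟩,⟨0,[(4,0),(12,0),(2,0)]⟩⟩,.o ⟨false,0,⟨0,[(7,0)]⟩,⟨0,[(18,0)]⟩⟩]⟩)) (.Q [0,0,-1,
  0,0,0,0,1] (.pp false [-1,1]) (.S ⟨1,0,[0,1,-1,-1],[1,-1],[1,0,-1,-2],(⟨0,[(13,0)]⟩,⟨0,[(14,0)]⟩),
  ⟨0,[(1,0)]⟩,.k,(.r (-1) ⟨3,[(2,3),(5,0),(0,2)]⟩ ⟨0,[(17,1),(2,1)]⟩),⟨false,1,⟨0,[(16,0),(2,0)]⟩,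
  ⟨0,[(17,0)]⟩⟩,⟨true,0,⟨0,[(21,0)]⟩,⟨0,[]⟩⟩,⟨true,0,⟨0,[]⟩,⟨0,[(21,0)]⟩⟩,⟨false,0,⟨0,[(17,0)]⟩,⟨0,
  [(16,0),(2,0)]⟩⟩,[.o ⟨false,0,⟨0,[(6,0)]⟩,⟨3,[(8,0),(0,0),(7,3),(1,1)]⟩⟩,.o ⟨false,1,⟨3,[(5,1),(2,
  0),(0,0),(2,0),(6,0)]⟩,⟨0,[(17,0)]⟩⟩,.a ⟨true,0,⟨0,[(20,0)]⟩,⟨0,[(0,0)]⟩⟩ ⟨false,1,⟨3,[(2,1),(2,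
  1),(3,0),(0,1),(0,1),(7,2)]⟩,⟨0,[(17,1),(2,0)]⟩⟩ ⟨true,0,⟨0,[(15,0)]⟩,⟨0,[(17,0),(2,0)]⟩⟩,.o
  ⟨false,0,⟨0,[(7,0)]⟩,⟨0,[(18,0)]⟩⟩]⟩) (.Q [0,0,0,0,0,1,0,-1,1] (.ed false [0,1,1] .k) (.R ⟨0,
  false,false,false,[1,0,-1],[0,1],[0,1,0,0,0,0,-1],(⟨0,[(11,0)]⟩,⟨0,[(12,0)]⟩),(⟨0,[(15,0)]⟩,⟨0,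
  [(14,0)]⟩),⟨0,[(0,0)]⟩,.k,.k,(.x (-1) ⟨7,[(2,3),(6,2),(0,2),(2,1)]⟩ ⟨0,[(15,0)]⟩),(.x (-1) ⟨7,[(2,
  3),(6,2),(0,2),(2,1)]⟩ ⟨0,[(15,0)]⟩),.k,.k,⟨false,0,⟨0,[(3,0),(14,0),(3,0)]⟩,⟨1,[(10,0),(7,1),(1,
  0),(0,1)]⟩⟩,⟨true,0,⟨0,[(11,0)]⟩,⟨1,[(0,1),(1,0),(5,0)]⟩⟩,⟨true,0,⟨0,[(22,0)]⟩,⟨0,[]⟩⟩,⟨false,1,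
  ⟨1,[(10,0),(0,1),(6,1),(1,0),(0,1)]⟩,⟨0,[(5,0),(1,0)]⟩⟩,⟨false,0,⟨0,[]⟩,⟨0,[]⟩⟩,⟨false,0,⟨0,[]⟩,
  ⟨0,[]⟩⟩,[.o ⟨false,0,⟨0,[(18,0)]⟩,⟨3,[(6,1),(2,0),(0,0),(2,0),(6,0)]⟩⟩,.o ⟨false,1,⟨3,[(9,0),(0,
  0),(7,3),(1,1)]⟩,⟨0,[(7,0)]⟩⟩,.o ⟨false,1,⟨1,[(12,1),(0,0),(5,0)]⟩,⟨0,[(1,0),(9,0)]⟩⟩,.a ⟨true,0,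
  ⟨0,[(12,0)]⟩,⟨0,[(11,0)]⟩⟩ ⟨false,0,⟨1,[(3,0),(0,0),(13,1),(3,0)]⟩,⟨1,[(10,0),(9,0),(0,1)]⟩⟩
  ⟨true,0,⟨0,[(11,0),(6,0)]⟩,⟨0,[(7,0),(4,0)]⟩⟩]⟩) (.R ⟨1,false,false,false,[1,0,-1],[0,1],[0,1,0,0,
  0,0,-1],(⟨0,[(11,0)]⟩,⟨0,[(12,0)]⟩),(⟨0,[(15,0)]⟩,⟨0,[(14,0)]⟩),⟨0,[(0,0)]⟩,.k,.k,(.x (-1) ⟨7,[(2,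
  3),(6,2),(0,2),(2,1)]⟩ ⟨0,[(15,0)]⟩),(.x (-1) ⟨7,[(2,3),(6,2),(0,2),(2,1)]⟩ ⟨0,[(15,0)]⟩),(.r 0
  ⟨0,[(3,0)]⟩ ⟨3,[(9,0),(0,2),(7,7),(2,7)]⟩),.k,⟨false,0,⟨0,[(3,0),(14,0),(3,0)]⟩,⟨1,[(10,0),(7,1),
  (1,0),(0,1)]⟩⟩,⟨true,0,⟨0,[(11,0)]⟩,⟨0,[(1,0),(10,0)]⟩⟩,⟨true,0,⟨0,[(22,0)]⟩,⟨0,[]⟩⟩,⟨false,1,⟨1,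
  [(10,0),(0,1),(6,1),(1,0),(0,1)]⟩,⟨0,[(5,0),(1,0)]⟩⟩,⟨false,0,⟨0,[(18,0)]⟩,⟨0,[(17,0),(2,0)]⟩⟩,
  ⟨false,1,⟨1,[(10,0),(0,1),(6,3),(1,0),(0,1)]⟩,⟨0,[(5,0),(0,0)]⟩⟩,[.o ⟨false,0,⟨0,[(18,0)]⟩,⟨3,[(6,
  1),(2,0),(0,0),(2,0),(6,0)]⟩⟩,.o ⟨false,1,⟨3,[(9,0),(0,0),(7,3),(1,1)]⟩,⟨0,[(7,0)]⟩⟩,.o ⟨false,1,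
  ⟨1,[(12,1),(0,0),(5,0)]⟩,⟨0,[(1,0),(9,0)]⟩⟩,.a ⟨true,0,⟨0,[(12,0)]⟩,⟨0,[(11,0)]⟩⟩ ⟨false,0,⟨1,[(3,
  0),(0,0),(13,1),(3,0)]⟩,⟨1,[(10,0),(9,0),(0,1)]⟩⟩ ⟨true,0,⟨0,[(11,0),(6,0)]⟩,⟨0,[(7,0),(4,
  0)]⟩⟩]⟩)))) (.Q [0,0,0,0,0,1,0,-1,1] (.ed false [0,1,1] .k) (.R ⟨0,false,false,true,[1,0,-1],[0,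
  1],[1,1],(⟨0,[(9,0)]⟩,⟨0,[(10,0)]⟩),(⟨0,[(13,0)]⟩,⟨0,[(12,0)]⟩),⟨0,[(0,0)]⟩,.k,.k,(.x (-1) ⟨3,[(7,
  0),(0,0),(2,1),(0,3)]⟩ ⟨0,[(13,0)]⟩),(.x (-1) ⟨3,[(7,0),(0,0),(2,1),(0,3)]⟩ ⟨0,[(13,0)]⟩),.k,.k,
  ⟨false,1,⟨1,[(14,1),(2,0),(0,0)]⟩,⟨1,[(1,0),(0,0),(17,0)]⟩⟩,⟨true,0,⟨0,[(9,0)]⟩,⟨0,[(1,0),(1,0),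
  (0,0)]⟩⟩,⟨false,1,⟨3,[(7,0),(0,2)]⟩,⟨0,[(2,0)]⟩⟩,⟨true,0,⟨0,[(1,0),(7,0),(4,0)]⟩,⟨0,[(3,0),(1,
  0)]⟩⟩,⟨false,0,⟨0,[]⟩,⟨0,[]⟩⟩,⟨false,0,⟨0,[]⟩,⟨0,[]⟩⟩,[.o ⟨false,0,⟨0,[(16,0),(3,0)]⟩,⟨3,[(4,1),
  (6,0),(6,2)]⟩⟩,.o ⟨false,0,⟨0,[(16,0)]⟩,⟨3,[(4,1),(2,0),(0,0),(2,0),(6,0)]⟩⟩,.e ⟨false,0,⟨0,[]⟩,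
  ⟨3,[(7,0),(0,0),(9,1)]⟩⟩ ⟨false,0,⟨1,[(1,0),(0,0),(6,1),(10,0)]⟩,⟨3,[(3,3),(0,1),(3,1),(2,0),(6,
  0)]⟩⟩,.a ⟨true,0,⟨0,[(10,0)]⟩,⟨0,[(9,0)]⟩⟩ ⟨true,0,⟨0,[(14,0),(1,0)]⟩,⟨0,[(19,0)]⟩⟩ ⟨false,0,⟨0,
  [(9,0),(6,0)]⟩,⟨3,[(4,1),(5,3),(0,0),(6,2)]⟩⟩]⟩) (.Q [0,0,1,0,0,0,0,0,-1] (.p false [0,0,1] []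
  (⟨0,[(10,0)]⟩,⟨0,[(9,0)]⟩) .k 0 (⟨0,[]⟩,⟨0,[]⟩) .k .k) (.S ⟨1,0,[0,1,0,0,0,0,-1],[1,0,-1],[1,0,0,
  -1,0,0,-1],(⟨0,[(10,0)]⟩,⟨0,[(11,0)]⟩),⟨0,[(1,0)]⟩,.k,(.x (-1) ⟨3,[(8,0),(0,0),(2,1),(0,3)]⟩ ⟨0,
  [(14,0)]⟩),⟨false,1,⟨0,[(16,0),(2,0)]⟩,⟨0,[(17,0)]⟩⟩,⟨true,0,⟨0,[(21,0)]⟩,⟨0,[]⟩⟩,⟨true,0,⟨0,[]⟩,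
  ⟨0,[(21,0)]⟩⟩,⟨false,0,⟨0,[(17,0)]⟩,⟨0,[(16,0),(2,0)]⟩⟩,[.o ⟨false,0,⟨0,[(4,0),(1,0),(10,0),(3,
  0)]⟩,⟨1,[(0,1),(8,0),(9,0)]⟩⟩,.o ⟨false,0,⟨0,[(4,0),(1,0),(10,0)]⟩,⟨3,[(0,3),(7,0),(0,2)]⟩⟩,.o
  ⟨false,1,⟨1,[(11,1),(0,0),(5,0)]⟩,⟨0,[(0,0)]⟩⟩,.a ⟨true,0,⟨0,[(11,0)]⟩,⟨0,[(10,0)]⟩⟩ ⟨true,0,⟨0,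
  [(3,0),(11,0)]⟩,⟨0,[(2,0),(12,0)]⟩⟩ ⟨false,0,⟨0,[(3,0),(11,0),(1,0)]⟩,⟨1,[(9,0),(9,0),(0,1)]⟩⟩]⟩)
  (.S ⟨1,0,[0,1,-1,-1],[1,-1],[1,0,-1,-2],(⟨0,[(13,0)]⟩,⟨0,[(14,0)]⟩),⟨0,[(0,1),(0,1),(5,0)]⟩,.k,
  (.r (-1) ⟨0,[(15,1),(3,0)]⟩ ⟨0,[(2,0),(0,0),(17,0)]⟩),⟨false,1,⟨0,[(16,0),(2,0)]⟩,⟨0,[(17,0)]⟩⟩,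
  ⟨true,0,⟨0,[(21,0)]⟩,⟨0,[]⟩⟩,⟨true,0,⟨0,[]⟩,⟨0,[(21,0)]⟩⟩,⟨false,0,⟨0,[(17,0)]⟩,⟨0,[(16,0),(2,
  0)]⟩⟩,[.o ⟨false,0,⟨0,[(6,0)]⟩,⟨5,[(2,1),(5,0),(8,1),(0,1),(0,2)]⟩⟩,.o ⟨false,1,⟨3,[(5,1),(2,0),
  (0,0),(2,0),(6,0)]⟩,⟨0,[(17,0)]⟩⟩,.a ⟨true,0,⟨0,[(20,0)]⟩,⟨0,[(0,0),(9,0)]⟩⟩ ⟨false,1,⟨1,[(4,1),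
  (0,1),(3,0),(0,1),(8,0)]⟩,⟨1,[(2,0),(0,0),(13,1),(3,0)]⟩⟩ ⟨true,0,⟨0,[(15,0)]⟩,⟨1,[(2,0),(0,0),
  (17,0)]⟩⟩,.o ⟨false,0,⟨0,[(7,0)]⟩,⟨0,[(18,0)]⟩⟩]⟩))))

def t2 : Tre :=
  (.Q [0,-1,0,2,0,0,0,1] (.pp false [-1,1]) (.Q [0,0,-1,0,0,0,0,1] (.pp false [-1,1]) (.R ⟨2,true,
  false,true,[0,1],[1,-1],[1,1,1],(⟨0,[]⟩,⟨0,[]⟩),(⟨0,[(9,0)]⟩,⟨0,[(10,0)]⟩),⟨0,[]⟩,.k,.k,.k,(.r 0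
  ⟨0,[(1,0),(1,0),(13,0)]⟩ ⟨0,[(11,1),(3,0)]⟩),.k,.k,⟨false,0,⟨1,[(1,0),(1,0),(13,0)]⟩,⟨1,[(11,1),
  (2,0),(0,0)]⟩⟩,⟨true,0,⟨0,[(3,0)]⟩,⟨0,[(0,0)]⟩⟩,⟨true,0,⟨0,[(12,0)]⟩,⟨0,[(13,0)]⟩⟩,⟨false,1,⟨0,
  [(2,0),(9,0),(2,0)]⟩,⟨0,[(1,0)]⟩⟩,⟨false,0,⟨0,[]⟩,⟨3,[(4,0),(0,0),(9,1)]⟩⟩,⟨true,0,⟨0,[(2,0)]⟩,⟨1,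
  [(1,0),(4,0),(0,0),(9,0)]⟩⟩,[]⟩) (.Q [0,1,1,0,0,0,1,0,-1] (.p false [0,0,1] [] (⟨0,[(7,0)]⟩,⟨0,
  [(6,0)]⟩) .k 0 (⟨0,[]⟩,⟨0,[]⟩) .k .k) (.Q [0,1,-1,0,0,0,-1,0,1] (.p true [0,0,1] [] (⟨0,[(8,0)]⟩,
  ⟨0,[(7,0)]⟩) .k 0 (⟨0,[]⟩,⟨0,[]⟩) .k .k) (.K ⟨0,[0,0,1],0,0,(⟨0,[(9,0)]⟩,⟨0,[(8,0)]⟩),.k,(.x 0 ⟨0,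
  [(5,0),(5,0)]⟩ ⟨0,[(12,0),(3,0)]⟩),(.x 0 ⟨0,[(12,0)]⟩ ⟨3,[(6,0),(0,0),(2,1),(0,3)]⟩),.k,.k,[⟨0,
  [(9,0)]⟩,⟨0,[(5,0),(2,0)]⟩,⟨0,[(0,0)]⟩,⟨0,[(1,0)]⟩]⟩) (.Q [0,0,0,0,0,-1,0,1,-1] (.ed true [0,1,1]
  .k) (.I [1,0,-2,-2,1,0,-1] (.I [0,0,-2,-2,1,0,-1] (.R ⟨1,false,false,false,[1,0,-1],[0,1],[0,0,0,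
  0,0,0,-1],(⟨0,[(11,0)]⟩,⟨0,[(12,0)]⟩),(⟨0,[(15,0)]⟩,⟨0,[(14,0)]⟩),⟨0,[(2,0)]⟩,.k,.k,(.x (-1) ⟨3,
  [(9,0),(0,0),(2,1),(0,3)]⟩ ⟨0,[(15,0)]⟩),(.x (-1) ⟨3,[(9,0),(0,0),(2,1),(0,3)]⟩ ⟨0,[(15,0)]⟩),(.r
  (-1) ⟨0,[(0,0)]⟩ ⟨0,[(4,0),(0,0),(0,0),(5,0)]⟩),.k,⟨false,1,⟨0,[(0,0),(17,0)]⟩,⟨1,[(3,0),(0,0),(7,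
  1),(5,1)]⟩⟩,⟨true,0,⟨0,[(11,0)]⟩,⟨0,[(5,0),(6,0)]⟩⟩,⟨false,1,⟨3,[(9,0),(0,0),(9,1)]⟩,⟨0,[]⟩⟩,
  ⟨false,0,⟨3,[(3,2),(0,0),(1,1),(4,1),(0,1)]⟩,⟨0,[(0,0),(4,0),(6,0),(5,0)]⟩⟩,⟨true,0,⟨0,[(18,0)]⟩,
  ⟨0,[(17,0)]⟩⟩,⟨false,0,⟨1,[(3,0),(0,0),(1,1)]⟩,⟨0,[(0,0),(4,0),(6,0)]⟩⟩,[.o ⟨false,0,⟨0,[(18,0)]⟩,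
  ⟨3,[(0,1),(7,1),(1,0),(2,0)]⟩⟩,.o ⟨false,1,⟨3,[(6,1),(2,0),(0,0),(2,0),(6,0)]⟩,⟨0,[(7,0)]⟩⟩,.o
  ⟨false,1,⟨1,[(12,1),(0,0),(5,0)]⟩,⟨0,[(5,0),(5,0)]⟩⟩,.a ⟨true,0,⟨0,[(12,0)]⟩,⟨0,[(11,0)]⟩⟩ ⟨false,
  1,⟨0,[(0,0),(4,0),(0,0)]⟩,⟨1,[(3,0),(0,0),(7,1)]⟩⟩ ⟨true,0,⟨0,[(11,0),(6,0)]⟩,⟨0,[(7,0),(4,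
  0)]⟩⟩]⟩) (.S ⟨1,0,[0,1,0,0,0,0,-1],[1,0,-1],[1,0,0,-1,0,0,-1],(⟨0,[(11,0)]⟩,⟨0,[(12,0)]⟩),⟨0,[(2,
  0)]⟩,.k,(.x (-1) ⟨3,[(9,0),(0,0),(2,1),(0,3)]⟩ ⟨0,[(15,0)]⟩),⟨false,1,⟨0,[(17,0),(2,0)]⟩,⟨0,[(18,
  0)]⟩⟩,⟨true,0,⟨0,[(22,0)]⟩,⟨0,[]⟩⟩,⟨true,0,⟨0,[]⟩,⟨0,[(22,0)]⟩⟩,⟨false,0,⟨0,[(18,0)]⟩,⟨0,[(17,0),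
  (2,0)]⟩⟩,[.o ⟨false,1,⟨1,[(7,1),(1,0),(2,1),(5,1),(0,0)]⟩,⟨0,[(3,0)]⟩⟩,.o ⟨false,1,⟨0,[(1,0),(3,
  0),(6,0),(5,1)]⟩,⟨1,[(3,0),(0,0)]⟩⟩,.o ⟨false,1,⟨1,[(12,1),(0,0),(5,0)]⟩,⟨0,[(5,0),(5,0)]⟩⟩,.a
  ⟨true,0,⟨0,[(12,0)]⟩,⟨0,[(11,0)]⟩⟩ ⟨true,1,⟨7,[(1,3),(7,2),(0,0)]⟩,⟨0,[(0,0),(15,0)]⟩⟩ ⟨false,1,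
  ⟨1,[(9,0),(9,0)]⟩,⟨0,[(3,0),(8,0)]⟩⟩]⟩)) (.K ⟨0,[1,-1,-1],0,1,(⟨0,[(1,0)]⟩,⟨0,[(11,0),(2,0)]⟩),
  (.x (-1) ⟨3,[(8,0),(0,0),(2,1),(0,3)]⟩ ⟨0,[(14,0)]⟩),(.r (-2) ⟨1,[(8,0),(6,1),(0,1),(1,0),(0,1)]⟩
  ⟨0,[(0,0)]⟩),.k,.k,.k,[⟨0,[(10,0),(9,0)]⟩,⟨0,[(4,0),(6,0)]⟩,⟨0,[(0,0),(9,0),(4,0)]⟩,⟨1,[(6,1),(1,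
  0),(2,1),(6,0)]⟩]⟩)) (.I [1,-1,-1,0,1,0,-1] (.R ⟨0,false,false,false,[1,0,-1],[0,1],[1,0,0,0,0,0,
  -1],(⟨0,[(10,0)]⟩,⟨0,[(11,0)]⟩),(⟨0,[(14,0)]⟩,⟨0,[(13,0)]⟩),⟨0,[(1,0)]⟩,.k,.k,(.x (-1) ⟨3,[(8,0),
  (0,0),(2,1),(0,3)]⟩ ⟨0,[(14,0)]⟩),(.x (-1) ⟨3,[(8,0),(0,0),(2,1),(0,3)]⟩ ⟨0,[(14,0)]⟩),.k,.k,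
  ⟨false,1,⟨0,[(0,0),(14,0)]⟩,⟨1,[(2,0),(0,0),(7,1),(5,1)]⟩⟩,⟨true,0,⟨0,[(10,0)]⟩,⟨0,[(4,0),(6,
  0)]⟩⟩,⟨true,0,⟨0,[]⟩,⟨0,[(21,0)]⟩⟩,⟨false,0,⟨3,[(2,2),(0,0),(1,1),(4,1),(0,1)]⟩,⟨0,[(0,0),(5,0),
  (4,0)]⟩⟩,⟨false,0,⟨0,[]⟩,⟨0,[]⟩⟩,⟨false,0,⟨0,[]⟩,⟨0,[]⟩⟩,[.o ⟨false,0,⟨0,[(17,0)]⟩,⟨1,[(12,0),(3,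
  1),(2,0)]⟩⟩,.o ⟨false,1,⟨3,[(5,1),(2,0),(0,0),(2,0),(6,0)]⟩,⟨0,[(6,0)]⟩⟩,.o ⟨false,1,⟨1,[(11,1),
  (0,0),(5,0)]⟩,⟨0,[(4,0),(5,0)]⟩⟩,.a ⟨true,0,⟨0,[(11,0)]⟩,⟨0,[(10,0)]⟩⟩ ⟨false,1,⟨0,[(0,0)]⟩,⟨1,
  [(2,0),(0,0),(7,1)]⟩⟩ ⟨true,0,⟨0,[(10,0),(6,0)]⟩,⟨0,[(6,0),(4,0)]⟩⟩]⟩) (.K ⟨0,[-1,1,1],0,(-1),(⟨0,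
  [(1,0)]⟩,⟨0,[(10,0),(2,0)]⟩),(.x 0 ⟨0,[(14,0)]⟩ ⟨3,[(8,0),(0,0),(2,1),(0,3)]⟩),.k,(.r 1 ⟨0,[(0,0),
  (3,0),(0,0)]⟩ ⟨1,[(8,0),(6,1),(0,1),(1,0),(0,1)]⟩),.k,.k,[⟨0,[(4,0),(6,0)]⟩,⟨0,[(10,0),(9,0)]⟩,⟨1,
  [(6,1),(1,0),(2,1),(6,0)]⟩,⟨0,[(0,0),(9,0),(6,0)]⟩]⟩)))) (.Q [0,0,0,0,0,1,0,-1,1] (.ed false [0,1,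
  1] .k) (.R ⟨0,false,false,false,[1,0,-1],[0,1],[0,1,0,0,0,0,-1],(⟨0,[(8,0)]⟩,⟨0,[(9,0)]⟩),(⟨0,
  [(12,0)]⟩,⟨0,[(11,0)]⟩),⟨0,[(0,0)]⟩,.k,.k,(.x (-1) ⟨3,[(6,0),(0,0),(2,1),(0,3)]⟩ ⟨0,[(12,0)]⟩),
  (.x (-1) ⟨3,[(6,0),(0,0),(2,1),(0,3)]⟩ ⟨0,[(12,0)]⟩),.k,.k,⟨false,0,⟨0,[(1,0),(2,0),(3,0),(4,0),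
  (1,0)]⟩,⟨7,[(3,3),(1,3),(0,0),(0,4),(9,1)]⟩⟩,⟨true,0,⟨0,[(8,0)]⟩,⟨0,[(2,0),(6,0)]⟩⟩,⟨true,0,⟨0,
  [(19,0)]⟩,⟨0,[]⟩⟩,⟨false,1,⟨7,[(3,3),(1,3),(0,0),(0,4),(0,7),(8,1)]⟩,⟨0,[(1,0),(2,0)]⟩⟩,⟨false,0,
  ⟨0,[]⟩,⟨0,[]⟩⟩,⟨false,0,⟨0,[]⟩,⟨0,[]⟩⟩,[.o ⟨false,0,⟨0,[(15,0)]⟩,⟨1,[(10,0),(3,1),(2,0)]⟩⟩,.o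
  ⟨false,1,⟨3,[(3,1),(2,0),(0,0),(2,0),(6,0)]⟩,⟨0,[(4,0)]⟩⟩,.o ⟨false,1,⟨1,[(9,1),(0,0),(5,0)]⟩,⟨0,
  [(2,0),(5,0)]⟩⟩,.a ⟨true,0,⟨0,[(9,0)]⟩,⟨0,[(8,0)]⟩⟩ ⟨false,0,⟨0,[(1,0),(2,0),(3,0),(6,0)]⟩,⟨1,[(7,
  0),(9,0),(0,1)]⟩⟩ ⟨true,0,⟨0,[(8,0),(6,0)]⟩,⟨0,[(4,0),(4,0)]⟩⟩]⟩) (.I [0,0,-2,-2,0,0,-1] (.R ⟨1,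
  false,false,false,[1,0,-1],[0,1],[0,0,0,0,0,0,-1],(⟨0,[(9,0)]⟩,⟨0,[(10,0)]⟩),(⟨0,[(13,0)]⟩,⟨0,
  [(12,0)]⟩),⟨0,[(1,0)]⟩,.k,.k,(.x (-1) ⟨3,[(7,0),(0,0),(2,1),(0,3)]⟩ ⟨0,[(13,0)]⟩),(.x (-1) ⟨3,[(7,
  0),(0,0),(2,1),(0,3)]⟩ ⟨0,[(13,0)]⟩),(.r 0 ⟨0,[(0,0)]⟩ ⟨3,[(4,3),(1,3),(0,0),(0,2),(11,3)]⟩),.k,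
  ⟨false,0,⟨0,[(0,0),(15,0)]⟩,⟨3,[(4,1),(1,1),(0,0),(0,2),(11,1)]⟩⟩,⟨true,0,⟨0,[(9,0)]⟩,⟨0,[(3,0),
  (6,0)]⟩⟩,⟨false,1,⟨3,[(7,0),(0,0),(9,1)]⟩,⟨0,[]⟩⟩,⟨false,1,⟨7,[(4,3),(1,3),(0,0),(0,4),(0,7),(8,
  1)]⟩,⟨0,[(2,0),(2,0)]⟩⟩,⟨true,0,⟨0,[(16,0)]⟩,⟨0,[(15,0)]⟩⟩,⟨false,1,⟨7,[(4,7),(1,3),(0,0),(0,4),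
  (0,7),(1,1)]⟩,⟨0,[(0,0),(2,0),(6,0)]⟩⟩,[.o ⟨false,0,⟨0,[(16,0)]⟩,⟨1,[(11,0),(3,1),(2,0)]⟩⟩,.o
  ⟨false,1,⟨3,[(4,1),(2,0),(0,0),(2,0),(6,0)]⟩,⟨0,[(5,0)]⟩⟩,.o ⟨false,1,⟨1,[(10,1),(0,0),(5,0)]⟩,⟨0,
  [(3,0),(5,0)]⟩⟩,.a ⟨true,0,⟨0,[(10,0)]⟩,⟨0,[(9,0)]⟩⟩ ⟨false,0,⟨0,[(0,0),(2,0),(0,0)]⟩,⟨3,[(7,0),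
  (0,2),(10,3)]⟩⟩ ⟨true,0,⟨0,[(9,0),(6,0)]⟩,⟨0,[(5,0),(4,0)]⟩⟩]⟩) (.S ⟨1,0,[0,1,0,0,0,0,-1],[1,0,
  -1],[1,0,0,-1,0,0,-1],(⟨0,[(9,0)]⟩,⟨0,[(10,0)]⟩),⟨0,[(1,0)]⟩,.k,(.x (-1) ⟨3,[(7,0),(0,0),(2,1),(0,
  3)]⟩ ⟨0,[(13,0)]⟩),⟨false,1,⟨0,[(15,0),(2,0)]⟩,⟨0,[(16,0)]⟩⟩,⟨true,0,⟨0,[(20,0)]⟩,⟨0,[]⟩⟩,⟨true,0,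
  ⟨0,[]⟩,⟨0,[(20,0)]⟩⟩,⟨false,0,⟨0,[(16,0)]⟩,⟨0,[(15,0),(2,0)]⟩⟩,[.o ⟨false,0,⟨0,[(2,0),(2,0),(10,
  0),(3,0)]⟩,⟨1,[(3,1),(4,0),(0,1),(8,0)]⟩⟩,.o ⟨false,0,⟨0,[(2,0),(2,0),(10,0)]⟩,⟨7,[(6,3),(0,0),(0,
  4),(0,7),(1,1)]⟩⟩,.o ⟨false,1,⟨1,[(10,1),(0,0),(5,0)]⟩,⟨0,[(3,0),(5,0)]⟩⟩,.a ⟨true,0,⟨0,[(10,0)]⟩,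
  ⟨0,[(9,0)]⟩⟩ ⟨true,0,⟨0,[(2,0),(2,0),(3,0)]⟩,⟨0,[(0,0),(13,0)]⟩⟩ ⟨false,0,⟨0,[(2,0),(2,0),(3,0),
  (6,0)]⟩,⟨1,[(8,0),(9,0),(0,1)]⟩⟩]⟩))))) (.Q [0,1,1,0,0,0,1,0,-1] (.p false [0,0,1] [] (⟨0,[(6,
  0)]⟩,⟨0,[(5,0)]⟩) .k 0 (⟨0,[]⟩,⟨0,[]⟩) .k .k) t0 (.I [0,-1,0,0,0,0,-1] t1 (.Q [0,0,0,0,0,1,0,-1,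
  1] (.ed false [0,1,1] .k) (.R ⟨0,false,false,false,[1,0,-1],[0,1],[0,1,1],(⟨0,[(8,0)]⟩,⟨0,[(9,
  0)]⟩),(⟨0,[(12,0)]⟩,⟨0,[(11,0)]⟩),⟨0,[(0,0)]⟩,.k,.k,(.x (-1) ⟨3,[(6,0),(0,0),(2,1),(0,3)]⟩ ⟨0,
  [(12,0)]⟩),(.x (-1) ⟨3,[(6,0),(0,0),(2,1),(0,3)]⟩ ⟨0,[(12,0)]⟩),.k,.k,⟨false,0,⟨0,[(13,0)]⟩,⟨3,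
  [(6,0),(0,0),(7,3),(1,1)]⟩⟩,⟨true,0,⟨0,[(8,0)]⟩,⟨0,[(1,0),(0,0),(2,0)]⟩⟩,⟨true,0,⟨0,[(1,0),(16,
  0)]⟩,⟨0,[(2,0),(1,0),(3,0),(6,0)]⟩⟩,⟨false,1,⟨1,[(7,0),(0,1),(6,1),(1,0),(0,1)]⟩,⟨0,[(2,0),(1,
  0)]⟩⟩,⟨false,0,⟨0,[]⟩,⟨0,[]⟩⟩,⟨false,0,⟨0,[]⟩,⟨0,[]⟩⟩,[.o ⟨false,0,⟨0,[(15,0)]⟩,⟨3,[(3,1),(2,0),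
  (0,0),(2,0),(6,0)]⟩⟩,.o ⟨false,1,⟨3,[(6,0),(0,0),(7,3),(1,1)]⟩,⟨0,[(4,0)]⟩⟩,.a ⟨true,0,⟨0,[(1,0),
  (0,0)]⟩,⟨0,[(8,0),(9,0)]⟩⟩ ⟨false,0,⟨0,[(18,0)]⟩,⟨1,[(16,0),(0,0)]⟩⟩ ⟨true,0,⟨0,[(8,0),(6,0),(2,
  0)]⟩,⟨0,[(1,0),(0,0),(1,0)]⟩⟩,.e ⟨true,0,⟨0,[(19,0)]⟩,⟨0,[]⟩⟩ ⟨true,0,⟨0,[(8,0),(6,0)]⟩,⟨0,[(4,0),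
  (4,0)]⟩⟩]⟩) (.S ⟨1,0,[0,1,-1,-1],[1,-1],[1,0,-1,-2],(⟨0,[(11,0)]⟩,⟨0,[(12,0)]⟩),⟨0,[(0,1),(0,1),
  (0,1),(2,0)]⟩,.k,(.r (-1) ⟨0,[(13,1),(3,0)]⟩ ⟨0,[(15,1),(2,1)]⟩),⟨false,1,⟨0,[(14,0),(2,0)]⟩,⟨0,
  [(15,0)]⟩⟩,⟨true,0,⟨0,[(19,0)]⟩,⟨0,[]⟩⟩,⟨true,0,⟨0,[]⟩,⟨0,[(19,0)]⟩⟩,⟨false,0,⟨0,[(15,0)]⟩,⟨0,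
  [(14,0),(2,0)]⟩⟩,[.o ⟨false,0,⟨0,[(4,0)]⟩,⟨3,[(6,0),(0,0),(7,3),(1,1)]⟩⟩,.o ⟨false,1,⟨3,[(3,1),(2,
  0),(0,0),(2,0),(6,0)]⟩,⟨0,[(15,0)]⟩⟩,.a ⟨true,0,⟨0,[(18,0)]⟩,⟨0,[(1,0),(0,0),(5,0)]⟩⟩ ⟨false,1,⟨1,
  [(2,1),(0,1),(3,0),(0,1),(8,0)]⟩,⟨0,[(15,1),(2,0)]⟩⟩ ⟨true,0,⟨0,[(13,0)]⟩,⟨0,[(15,0),(2,0)]⟩⟩,.o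
  ⟨false,0,⟨0,[(5,0)]⟩,⟨0,[(16,0)]⟩⟩]⟩)))))

def tree : Tre :=
  t2

theorem ok : chk (cPU (-1) true) tree base = true := by
  decide +kernel

theorem closed {p a b c J l q : ℤ} {D dl : ℝ} {Cl : ℤ → ℤ → ℤ → ℤ → ℝ → Prop}
    (W : World p a b c J (-1) l q D dl Cl) (hE : KEmp p a b (-1) (P1 l p) Cl)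
    (g : G0 p a b c J D)
    {N R : ℤ} {I : ℝ} (hu : UFac p b D Cl N R I)
    (s0 : (1 : ℝ) ≤ c)
    (s1 : (b : ℝ) + c + 1 ≤ a)
    (s2 : D < 2 * b)
    (s3 : -(a : ℝ) < -D - c) : False := by
  have g1 := g.a2
  have g2 := g.b2
  have g3 := g.pa
  have g4 := g.pb
  have g5 := g.J1
  have g6 := g.JD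
  have g7 := g.D2
  have g8 := g.ca
  have g9 := g.ca'
  have t1 := TF.ofU hu
  have i1 := t1.I0
  have i2 := t1.ID
  have i3 := t1.R1
  have i4 := t1.R2
  refine (val_PU W.toBase (UV.ofU hu)).sound W rfl (Nk := 0) (fun kf hkf hh => ?_) (kok_B hE (by simp [xv]) (by simp [xv]) 0) ?_ ok
  · simp only [cPU, kfB, List.mem_cons, List.not_mem_nil, or_false] at hkf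
    subst hkf
    exact absurd hh (by norm_num)
  · simp only [base, List.forall_mem_cons, List.not_mem_nil, false_imp_iff, implies_true,
      and_true, hld, xv, evg_cons, evg_nil, List.map_cons, List.map_nil, List.cons_append,
      List.nil_append, if_true, if_false, Bool.false_eq_true]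
    push_cast
    refine ⟨?_, ?_, ?_, ?_, ?_, ?_, ?_, ?_, ?_, ?_, ?_, ?_, ?_, ?_, ?_, ?_⟩ <;> linarith

end Helper25.KG.P1_1_m1_0_u
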