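import Pool.Agent.Helper25.KG.PL

set_option autoImplicit false
set_option linter.unusedVariables false

namespace Helper25.KG.P1_1_m1_0_v

open Helper11.CT Helper25.KW Helper25.KG

def base : List Con :=
  [(false,[0,1,0,-1,0,0,0,-1]),
  (false,[0,0,2,0,0,0,0,-1]),
  (true,[0,0,0,0,1,0,-2]),
  (true,[0,0,0,0,1,0,2]),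
  (false,[0,0,0,0,0,0,0,1,-2]),
  (false,[0,0,0,0,0,0,0,0,1]),
  (false,[0,0,0,0,1,0,0,-2]),
  (false,[0,0,0,0,0,-1,0,1]),
  (true,[0,0,0,0,0,1]),
  (true,[0,1,-1,-1]),
  (true,[0,1,0,-1]),
  (true,[0,0,0,1]),
  (true,[0,0,-2,0,1]),
  (true,[0,-2,0,0,1]),
  (true,[-1,0,1]),
  (true,[-1,1])]

def t0 : Tre :=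
  (.I [0,0,-1,-1,0,0,1] (.Q [0,1,0,0,0,0,-1,0,1] (.p true [0,0,1] [] (⟨0,[(11,0)]⟩,⟨1,[(10,0),(2,0),
  (0,0)]⟩) .k 0 (⟨0,[]⟩,⟨0,[]⟩) .k .k) (.K ⟨0,[0,0,1],0,0,(⟨0,[(12,0)]⟩,⟨1,[(11,0),(2,0),(0,0)]⟩),
  .k,(.r 0 ⟨0,[(1,0)]⟩ ⟨0,[(2,0),(6,0)]⟩),(.r 0 ⟨0,[(1,0),(16,1),(2,1)]⟩ ⟨1,[(3,0),(5,0),(7,0),(2,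
  0)]⟩),.k,.k,[⟨0,[(12,0),(8,0)]⟩,⟨1,[(8,0),(2,0)]⟩,⟨0,[(0,0)]⟩,⟨1,[(2,1),(0,0),(3,0),(3,0)]⟩]⟩)
  (.Q [0,0,-1,0,0,0,0,1,-1] (.p false [0,0,1] [1] (⟨0,[(12,0)]⟩,⟨1,[(11,0),(2,0),(0,0)]⟩) .k 1 (⟨0,
  []⟩,⟨0,[]⟩) .k .k) (.R ⟨0,false,false,false,[1,-1],[0,0,1],[1],(⟨0,[(15,0)]⟩,⟨0,[(16,0)]⟩),(⟨0,
  [(13,0)]⟩,⟨1,[(12,0),(2,0),(0,0)]⟩),⟨0,[(5,0)]⟩,.k,.k,(.r (-1) ⟨0,[(4,0),(13,0),(2,0)]⟩ ⟨0,[(19,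
  1),(2,1)]⟩),(.r (-1) ⟨1,[(4,0),(5,0),(7,0),(2,0)]⟩ ⟨0,[(1,0),(2,0),(8,0),(5,1),(2,2)]⟩),.k,.k,
  ⟨false,1,⟨1,[(10,0),(9,0)]⟩,⟨1,[(2,0),(0,0)]⟩⟩,⟨true,0,⟨0,[(0,0)]⟩,⟨0,[(9,0),(3,0)]⟩⟩,⟨true,0,⟨0,
  [(19,0),(2,0)]⟩,⟨0,[(17,0)]⟩⟩,⟨false,0,⟨0,[(1,0),(13,0),(0,0),(2,0)]⟩,⟨3,[(6,1),(3,1),(2,3),(0,0),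
  (6,0)]⟩⟩,⟨false,0,⟨0,[]⟩,⟨0,[]⟩⟩,⟨false,0,⟨0,[]⟩,⟨0,[]⟩⟩,[.o ⟨false,0,⟨3,[(1,1),(1,1),(0,0),(3,0),
  (3,0)]⟩,⟨1,[(10,0),(2,1),(0,0)]⟩⟩,.o ⟨false,0,⟨0,[(1,0)]⟩,⟨1,[(10,0),(2,1),(0,0),(8,1)]⟩⟩,.a
  ⟨true,0,⟨0,[(22,0)]⟩,⟨0,[(7,0)]⟩⟩ ⟨true,0,⟨0,[]⟩,⟨0,[(23,0)]⟩⟩ ⟨false,0,⟨0,[(1,0),(5,0)]⟩,⟨7,[(9,
  3),(0,4),(0,0),(1,7),(0,1)]⟩⟩,.o ⟨false,0,⟨0,[(9,0)]⟩,⟨0,[(20,0)]⟩⟩]⟩) (.R ⟨0,false,false,true,[0,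
  0,1],[1,-1],[1,0,0,0,0,0,1],(⟨0,[(13,0)]⟩,⟨1,[(12,0),(2,0),(0,0)]⟩),(⟨0,[(15,0)]⟩,⟨0,[(16,0)]⟩),
  ⟨1,[(5,0),(6,0)]⟩,.k,.k,(.r 0 ⟨0,[(2,0)]⟩ ⟨0,[(3,0),(6,0)]⟩),(.r 0 ⟨0,[(0,0),(0,0),(2,0),(2,0),
  (11,1),(2,2)]⟩ ⟨1,[(4,0),(5,0),(7,0),(2,0)]⟩),.k,.k,⟨false,0,⟨0,[(1,0),(11,0),(5,0)]⟩,⟨1,[(10,0),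
  (7,1),(1,0)]⟩⟩,⟨true,0,⟨0,[(0,0)]⟩,⟨1,[(12,0),(2,0),(0,0)]⟩⟩,⟨true,0,⟨0,[]⟩,⟨0,[(23,0)]⟩⟩,⟨false,
  1,⟨3,[(6,1),(3,1),(2,3),(0,0),(6,0)]⟩,⟨0,[(1,0),(13,0),(0,0),(2,0)]⟩⟩,⟨false,0,⟨0,[]⟩,⟨0,[]⟩⟩,
  ⟨false,0,⟨0,[]⟩,⟨0,[]⟩⟩,[.o ⟨false,0,⟨0,[(8,0)]⟩,⟨3,[(3,1),(6,0),(8,1),(0,0),(0,1)]⟩⟩,.o ⟨false,1,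
  ⟨3,[(6,1),(3,0),(0,0),(2,0),(6,0)]⟩,⟨0,[(19,0)]⟩⟩,.a ⟨true,0,⟨1,[(12,0),(2,0),(0,0)]⟩,⟨0,[(13,
  0)]⟩⟩ ⟨false,0,⟨0,[(1,0),(11,0)]⟩,⟨3,[(10,2),(0,0)]⟩⟩ ⟨true,0,⟨0,[(8,0),(4,0)]⟩,⟨1,[(12,0),(2,0),
  (0,0),(2,1)]⟩⟩,.o ⟨false,0,⟨1,[(9,0),(2,0)]⟩,⟨1,[(13,1),(0,0),(5,0)]⟩⟩]⟩))) (.Q [0,1,0,0,0,0,2,1,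
  -2] (.p false [0,0,1] [1,0,-1] (⟨0,[(11,0)]⟩,⟨1,[(10,0),(2,0),(0,0)]⟩) .k 2 (⟨1,[(10,0),(2,0),(0,
  0)]⟩,⟨0,[(11,0)]⟩) .k .k) (.I [0,0,1,1,0,0,-1] (.K ⟨0,[0,1,-1],0,0,(⟨1,[(5,0),(6,0)]⟩,⟨0,[(13,0),
  (1,0)]⟩),(.r 0 ⟨0,[(0,0)]⟩ ⟨1,[(4,0),(6,0),(6,0),(2,0)]⟩),.k,(.r 0 ⟨1,[(0,2),(2,0)]⟩ ⟨1,[(1,0),(2,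
  1),(1,0),(6,1),(7,1)]⟩),.k,.k,[⟨1,[(9,0),(2,0),(9,1)]⟩,⟨0,[(13,0)]⟩,⟨1,[(1,0),(4,0)]⟩,⟨1,[(2,1),
  (1,0),(8,1),(5,0),(3,0)]⟩]⟩) (.I [0,0,-1,0,0,1] (.K ⟨0,[0,0,1],0,0,(⟨0,[(14,0)]⟩,⟨1,[(13,0),(2,0),
  (0,0)]⟩),.k,(.x (-1) ⟨7,[(10,3),(0,2),(0,2),(2,1),(0,7)]⟩ ⟨0,[(0,0)]⟩),(.x 0 ⟨0,[(0,0)]⟩ ⟨7,[(10,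
  3),(0,2),(0,2),(2,1),(0,7)]⟩),.k,.k,[⟨0,[(14,0),(8,0)]⟩,⟨1,[(10,0),(2,0)]⟩,⟨1,[(3,1),(1,0),(8,1),
  (4,0)]⟩,⟨1,[(2,0),(6,0),(10,0)]⟩]⟩) (.Q [0,0,0,0,0,1,0,0,-2] (.p false [0,0,2] [] (⟨0,[(14,1)]⟩,
  ⟨0,[(13,0)]⟩) .k 0 (⟨0,[]⟩,⟨0,[]⟩) .k .k) (.R ⟨0,false,false,false,[0,0,2],[0,0,1],[0,1,0,-1,0,0,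
  2],(⟨0,[(15,1)]⟩,⟨0,[(14,0)]⟩),(⟨0,[(15,0)]⟩,⟨1,[(14,0),(2,0),(0,0)]⟩),⟨0,[(0,0)]⟩,.k,.k,(.r 0 ⟨0,
  [(2,1),(18,0),(2,0)]⟩ ⟨1,[(4,0),(0,0),(6,1)]⟩),.k,.k,.k,⟨false,0,⟨2,[(2,0),(0,0),(2,0),(3,0),(4,
  1)]⟩,⟨1,[(12,0),(8,1),(1,0)]⟩⟩,⟨true,0,⟨0,[(15,0)]⟩,⟨1,[(11,0),(2,0)]⟩⟩,⟨true,0,⟨0,[(20,0)]⟩,⟨0,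
  [(21,0)]⟩⟩,⟨false,1,⟨1,[(12,0),(2,1),(7,0)]⟩,⟨3,[(0,1),(0,1),(0,2),(2,0),(15,1)]⟩⟩,⟨false,0,⟨0,
  []⟩,⟨0,[]⟩⟩,⟨false,0,⟨0,[]⟩,⟨0,[]⟩⟩,[.o ⟨false,0,⟨3,[(0,1),(0,1),(0,2),(2,0),(15,1)]⟩,⟨1,[(12,0),
  (2,1),(0,0)]⟩⟩,.e ⟨false,0,⟨0,[(2,1),(18,0),(2,0)]⟩,⟨0,[(12,0),(8,0)]⟩⟩ ⟨false,1,⟨1,[(2,0),(2,0),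
  (9,1),(6,0),(0,0)]⟩,⟨1,[(4,1),(1,0),(3,0),(3,0)]⟩⟩,.a ⟨true,0,⟨0,[(14,0)]⟩,⟨0,[(15,1)]⟩⟩ ⟨false,0,
  ⟨1,[(2,2),(2,0),(18,1)]⟩,⟨0,[(4,1),(1,0),(16,0)]⟩⟩ ⟨true,0,⟨1,[(2,0),(2,0),(9,1)]⟩,⟨1,[(4,1),(1,
  0),(3,0),(3,0)]⟩⟩,.o ⟨false,0,⟨0,[(0,0),(0,0)]⟩,⟨1,[(15,3),(0,0),(5,0)]⟩⟩]⟩) (.I [0,-1,0,0,0,0,2]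
  (.R ⟨1,false,false,true,[0,0,2],[1,-1],[0,0,0,0,0,0,2],(⟨0,[(16,1)]⟩,⟨0,[(15,0)]⟩),(⟨0,[(18,0)]⟩,
  ⟨0,[(19,0)]⟩),⟨0,[(1,0)]⟩,.k,.k,(.r 0 ⟨9,[(0,4),(0,1),(1,5),(0,1),(2,1),(0,0),(0,0)]⟩ ⟨1,[(5,0),
  (0,0),(6,1)]⟩),(.r 0 ⟨13,[(0,3),(0,1),(2,1),(1,15),(0,0),(0,0),(2,0)]⟩ ⟨0,[(5,1),(1,0),(1,0),(0,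
  0),(13,0)]⟩),.k,.k,⟨false,0,⟨0,[(0,0),(21,0)]⟩,⟨1,[(7,0),(5,1),(7,0)]⟩⟩,⟨true,0,⟨1,[(1,1),(6,0),
  (3,0)]⟩,⟨0,[(15,0)]⟩⟩,⟨false,1,⟨3,[(13,0),(0,0),(9,1)]⟩,⟨0,[]⟩⟩,⟨false,1,⟨3,[(1,3),(3,5),(1,1),(0,
  1),(0,3),(0,1),(2,0),(10,2)]⟩,⟨0,[(0,0),(14,0),(6,0)]⟩⟩,⟨true,0,⟨0,[(22,0)]⟩,⟨0,[(21,0)]⟩⟩,⟨false,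
  1,⟨7,[(1,7),(3,7),(1,3),(0,3),(0,1),(3,3),(3,0),(6,2)]⟩,⟨0,[(0,0),(14,0)]⟩⟩,[.o ⟨false,0,⟨0,[(11,
  0)]⟩,⟨3,[(6,1),(6,0),(8,1),(0,0),(0,1)]⟩⟩,.o ⟨false,1,⟨3,[(9,1),(3,0),(0,0),(2,0),(6,0)]⟩,⟨0,[(22,
  0)]⟩⟩,.a ⟨true,0,⟨0,[(15,0)]⟩,⟨0,[(16,1)]⟩⟩ ⟨false,0,⟨0,[(0,0)]⟩,⟨0,[(13,0)]⟩⟩ ⟨true,0,⟨1,[(1,1),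
  (6,0),(2,0),(9,0)]⟩,⟨0,[(15,0),(6,0)]⟩⟩,.e ⟨true,0,⟨3,[(0,2),(5,1),(0,2),(14,0)]⟩,⟨0,[(5,1),(3,0),
  (0,0)]⟩⟩ ⟨true,0,⟨1,[(1,1),(5,0),(0,0),(2,0)]⟩,⟨1,[(5,0),(0,0),(8,1)]⟩⟩]⟩) (.Q [0,0,0,0,0,1,0,-1,
  1] (.ed false [0,1,1] .k) (.K ⟨0,[-1,1,1],0,0,(⟨0,[(0,0)]⟩,⟨1,[(16,0),(2,2),(0,0)]⟩),(.r 0 ⟨0,[(4,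
  0),(18,1),(2,1)]⟩ ⟨1,[(8,0),(5,0),(7,0),(2,0)]⟩),.k,(.r 0 ⟨0,[(4,0),(18,2),(2,2)]⟩ ⟨5,[(1,1),(6,
  3),(1,3),(0,3),(2,0),(10,4)]⟩),.k,.k,[⟨0,[(13,0),(3,0)]⟩,⟨1,[(16,0),(2,0),(0,0)]⟩,⟨0,[(0,0),(0,0),
  (1,0),(0,0)]⟩,⟨3,[(1,0),(3,1),(1,1),(3,1),(11,1),(3,0)]⟩]⟩) (.Q [0,1,0,0,0,0,-1,-1,1] (.p true [0,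
  0,1] [1] (⟨0,[(17,0)]⟩,⟨1,[(16,0),(2,0),(0,0)]⟩) .k 1 (⟨0,[]⟩,⟨0,[]⟩) .k .k) (.Q [0,-1,0,-1,1,0,
  -1,-1,1] (.p true [0,0,1] [1] (⟨0,[(18,0)]⟩,⟨1,[(17,0),(2,0),(0,0)]⟩) .k 1 (⟨0,[]⟩,⟨0,[]⟩) .k .k)
  (.R ⟨0,false,false,false,[1,-1],[1,-1,-1],[1],(⟨0,[(21,0)]⟩,⟨0,[(22,0)]⟩),(⟨0,[(2,0)]⟩,⟨0,[(19,0),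
  (2,0)]⟩),⟨0,[(11,0)]⟩,.k,(.r (-1) ⟨1,[(10,0),(5,0),(7,0),(2,0)]⟩ ⟨0,[(6,0),(18,1),(2,1)]⟩),(.r
  (-1) ⟨0,[(10,0),(13,0),(2,0)]⟩ ⟨0,[(25,1),(2,1)]⟩),.k,.k,.k,⟨false,0,⟨1,[(6,0),(2,0),(15,1)]⟩,⟨1,
  [(10,0),(5,0),(7,0),(2,0)]⟩⟩,⟨true,0,⟨0,[(19,0)]⟩,⟨1,[(15,0),(2,0)]⟩⟩,⟨true,0,⟨1,[(8,0),(0,0)]⟩,
  ⟨0,[(23,0)]⟩⟩,⟨false,1,⟨1,[(16,0),(2,1),(7,0)]⟩,⟨1,[(6,1),(8,0),(2,0),(6,1)]⟩⟩,⟨false,0,⟨0,[]⟩,⟨0,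
  []⟩⟩,⟨false,0,⟨0,[]⟩,⟨0,[]⟩⟩,[.o ⟨false,1,⟨5,[(0,3),(0,1),(14,0),(0,0),(6,1)]⟩,⟨1,[(6,1),(8,0),(2,
  0),(6,3)]⟩⟩,.o ⟨false,1,⟨0,[(0,0)]⟩,⟨1,[(7,0),(6,0),(10,2)]⟩⟩,.a ⟨true,0,⟨0,[(28,0)]⟩,⟨0,[(13,
  0)]⟩⟩ ⟨true,0,⟨0,[]⟩,⟨0,[(29,0)]⟩⟩ ⟨false,1,⟨0,[(0,0),(12,0)]⟩,⟨1,[(6,0),(2,0),(5,0),(2,0),(6,
  1)]⟩⟩,.o ⟨false,0,⟨0,[(15,0)]⟩,⟨0,[(26,0)]⟩⟩]⟩) (.K ⟨0,[1,-1,-1],0,1,(⟨0,[(2,0)]⟩,⟨0,[(19,0),(2,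
  0)]⟩),(.r (-1) ⟨1,[(10,0),(5,0),(7,0),(2,0)]⟩ ⟨1,[(0,11),(0,3),(1,2),(0,3),(6,1),(0,4),(2,0),(11,
  11)]⟩),(.r (-1) ⟨5,[(3,1),(6,3),(1,3),(0,3),(2,0),(10,4)]⟩ ⟨1,[(0,17),(0,5),(1,4),(0,5),(6,2),(0,
  6),(2,1),(11,17)]⟩),.k,.k,.k,[⟨1,[(18,0),(2,0),(0,0)]⟩,⟨0,[(15,0),(3,0)]⟩,⟨0,[(0,0)]⟩,⟨13,[(1,5),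
  (2,3),(6,1),(0,5),(3,8),(0,4),(6,1)]⟩]⟩)) (.R ⟨0,false,false,false,[1,-1],[0,0,1],[1,0,-1,-1],(⟨0,
  [(20,0)]⟩,⟨0,[(21,0)]⟩),(⟨0,[(18,0)]⟩,⟨1,[(17,0),(2,0),(0,0)]⟩),⟨0,[(10,0)]⟩,.k,.k,(.r (-1) ⟨0,
  [(9,0),(13,0),(2,0)]⟩ ⟨0,[(0,3),(1,1),(0,1),(6,0),(0,1),(2,0),(9,5)]⟩),(.r (-1) ⟨1,[(9,0),(5,0),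
  (7,0),(2,0)]⟩ ⟨1,[(0,7),(1,2),(0,3),(6,1),(0,4),(2,0),(9,11)]⟩),.k,.k,⟨false,1,⟨1,[(9,1),(5,0),
  (10,0)]⟩,⟨1,[(0,7),(1,2),(0,3),(6,1),(0,4),(2,0),(9,11)]⟩⟩,⟨true,0,⟨1,[(0,1),(1,0),(6,0),(14,0)]⟩,
  ⟨0,[(14,0),(3,0)]⟩⟩,⟨true,0,⟨0,[]⟩,⟨0,[(28,0)]⟩⟩,⟨false,0,⟨0,[(0,0),(23,0)]⟩,⟨15,[(3,7),(6,3),(0,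
  7),(3,8),(0,0),(2,1),(6,3)]⟩⟩,⟨false,0,⟨0,[]⟩,⟨0,[]⟩⟩,⟨false,0,⟨0,[]⟩,⟨0,[]⟩⟩,[.o ⟨false,0,⟨0,[(0,
  0),(12,0),(10,0)]⟩,⟨15,[(3,7),(6,3),(4,8),(0,0),(2,5)]⟩⟩,.e ⟨false,1,⟨0,[(9,0),(16,0)]⟩,⟨1,[(7,0),
  (0,0),(19,1)]⟩⟩ ⟨false,1,⟨0,[(0,0),(24,0)]⟩,⟨3,[(2,1),(0,1),(3,0),(0,0),(1,0),(2,1),(0,0)]⟩⟩,.a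
  ⟨true,0,⟨0,[(27,0)]⟩,⟨0,[(12,0)]⟩⟩ ⟨false,1,⟨1,[(9,0),(13,0),(2,1)]⟩,⟨1,[(0,3),(1,1),(0,1),(6,0),
  (0,1),(2,0),(9,5)]⟩⟩ ⟨true,0,⟨4,[(0,2),(5,0),(2,1),(2,0),(11,1)]⟩,⟨3,[(2,1),(0,1),(3,0),(0,0),(1,
  0),(2,1),(0,0)]⟩⟩,.o ⟨false,0,⟨0,[(14,0)]⟩,⟨0,[(25,0)]⟩⟩]⟩))))))) (.R ⟨2,true,false,false,[0,1],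
  [1,0,-2],[1,0,1],(⟨0,[]⟩,⟨0,[]⟩),(⟨0,[(11,0)]⟩,⟨0,[(12,1)]⟩),⟨0,[]⟩,.k,.k,.k,(.r (-1) ⟨3,[(2,3),
  (6,0),(0,2)]⟩ ⟨1,[(0,1),(2,0),(7,1),(5,0)]⟩),.k,.k,⟨false,1,⟨0,[(10,0)]⟩,⟨3,[(0,2),(0,1),(1,2),(7,
  2),(6,0)]⟩⟩,⟨true,0,⟨1,[(0,0),(1,1),(2,0),(6,1)]⟩,⟨0,[(11,0)]⟩⟩,⟨false,1,⟨0,[(17,0),(2,0)]⟩,⟨0,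
  [(18,0)]⟩⟩,⟨true,0,⟨0,[(0,0),(16,0)]⟩,⟨0,[(2,1),(0,0),(7,0)]⟩⟩,⟨true,0,⟨0,[]⟩,⟨0,[(22,0)]⟩⟩,
  ⟨false,0,⟨0,[(0,0)]⟩,⟨0,[(10,0),(0,0)]⟩⟩,[]⟩)))

def t1 : Tre :=
  (.Q [0,0,-1,0,0,0,0,1] (.pp false [-1,1]) (.Q [0,-1,0,2,0,0,0,1] (.pp false [-1,1]) (.R ⟨2,true,
  false,true,[0,1],[1,-1],[1,1,1],(⟨0,[]⟩,⟨0,[]⟩),(⟨0,[(9,0)]⟩,⟨0,[(10,0)]⟩),⟨0,[]⟩,.k,.k,.k,(.r 0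
  ⟨0,[(0,0),(2,0),(13,0)]⟩ ⟨0,[(11,1),(3,0)]⟩),.k,.k,⟨false,0,⟨1,[(0,0),(2,0),(13,0)]⟩,⟨1,[(11,1),
  (2,0),(0,0)]⟩⟩,⟨true,0,⟨0,[(3,0)]⟩,⟨0,[(1,0)]⟩⟩,⟨true,0,⟨0,[(12,0)]⟩,⟨0,[(13,0)]⟩⟩,⟨false,1,⟨0,
  [(2,0),(9,0),(2,0)]⟩,⟨0,[(0,0)]⟩⟩,⟨false,0,⟨0,[]⟩,⟨3,[(4,0),(0,0),(9,1)]⟩⟩,⟨true,0,⟨0,[(2,0)]⟩,⟨0,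
  [(0,0),(11,0)]⟩⟩,[]⟩) (.Q [0,0,0,0,0,2,0,-1] (.pp true [-1,1]) (.I [1,1,-2,-1] (.I [0,0,-1,-1,0,0,
  -1] (.Q [0,0,-1,0,0,0,0,1,-1] (.p false [0,0,1] [1] (⟨0,[(10,0)]⟩,⟨1,[(9,0),(2,0),(0,0)]⟩) .k 1
  (⟨0,[]⟩,⟨0,[]⟩) .k .k) (.Q [0,1,0,0,0,0,1,0,-1] (.p false [0,0,1] [] (⟨0,[(11,0)]⟩,⟨1,[(10,0),(2,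
  0),(0,0)]⟩) .k 0 (⟨0,[]⟩,⟨0,[]⟩) .k .k) (.K ⟨0,[0,0,1],0,0,(⟨0,[(12,0)]⟩,⟨1,[(11,0),(2,0),(0,
  0)]⟩),.k,(.r (-1) ⟨0,[(2,0),(7,0)]⟩ ⟨0,[(2,0),(15,1),(2,1)]⟩),(.r (-1) ⟨3,[(9,0),(0,2),(7,3),(2,
  3)]⟩ ⟨0,[(2,0)]⟩),.k,.k,[⟨0,[(12,0),(8,0)]⟩,⟨1,[(8,0),(2,0)]⟩,⟨0,[(2,0),(9,0),(5,0),(2,0),(0,0)]⟩,
  ⟨0,[(0,0)]⟩]⟩) (.Q [0,-1,0,0,1,0,1,0,-1] (.p false [0,0,1] [] (⟨0,[(12,0)]⟩,⟨1,[(11,0),(2,0),(0,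
  0)]⟩) .k 0 (⟨0,[]⟩,⟨0,[]⟩) .k .k) (.R ⟨0,false,false,false,[1,-1],[0,0,1],[1],(⟨0,[(15,0)]⟩,⟨0,
  [(16,0)]⟩),(⟨0,[(13,0)]⟩,⟨1,[(12,0),(2,0),(0,0)]⟩),⟨0,[(5,0)]⟩,.k,.k,(.r (-1) ⟨0,[(3,1),(7,0)]⟩
  ⟨0,[(19,1),(2,1)]⟩),(.r 0 ⟨0,[(3,0)]⟩ ⟨3,[(10,0),(0,2),(7,3),(2,3)]⟩),.k,.k,⟨false,0,⟨0,[(3,0),
  (15,0)]⟩,⟨3,[(10,0),(0,2)]⟩⟩,⟨true,0,⟨0,[(2,0)]⟩,⟨0,[(9,0),(3,0)]⟩⟩,⟨true,0,⟨0,[(19,0),(2,0)]⟩,⟨0,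
  [(17,0)]⟩⟩,⟨false,1,⟨1,[(11,0),(0,0),(2,0),(0,0),(2,1),(1,0)]⟩,⟨0,[(1,0),(6,0)]⟩⟩,⟨false,0,⟨0,[]⟩,
  ⟨0,[]⟩⟩,⟨false,0,⟨0,[]⟩,⟨0,[]⟩⟩,[.o ⟨false,1,⟨7,[(10,0),(0,4),(0,3),(1,1)]⟩,⟨0,[(1,0),(6,0),(10,
  0)]⟩⟩,.o ⟨false,1,⟨0,[(0,0)]⟩,⟨0,[(1,0),(6,0),(10,0),(3,0)]⟩⟩,.a ⟨true,0,⟨0,[(22,0)]⟩,⟨0,[(7,
  0)]⟩⟩ ⟨true,0,⟨0,[]⟩,⟨0,[(23,0)]⟩⟩ ⟨false,1,⟨1,[(2,1),(8,0),(9,0)]⟩,⟨1,[(1,1),(6,0),(0,0),(9,0),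
  (3,0)]⟩⟩,.o ⟨false,0,⟨0,[(9,0)]⟩,⟨0,[(20,0)]⟩⟩]⟩) (.K ⟨0,[0,0,1],0,1,(⟨0,[(13,0)]⟩,⟨1,[(12,0),(2,
  0),(0,0)]⟩),.k,(.r (-1) ⟨0,[(3,0),(7,0)]⟩ ⟨3,[(0,0),(0,0),(7,0),(0,0),(1,0),(6,3),(2,1)]⟩),(.r
  (-1) ⟨3,[(10,0),(0,2),(7,3),(2,3)]⟩ ⟨0,[(3,0)]⟩),.k,.k,[⟨0,[(13,0),(8,0)]⟩,⟨1,[(9,0),(2,0)]⟩,⟨0,
  [(0,0)]⟩,⟨7,[(10,0),(0,4),(0,3),(1,1),(8,7)]⟩]⟩))) (.R ⟨0,false,false,true,[0,0,1],[1,-1],[1,0,0,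
  0,0,0,1],(⟨0,[(11,0)]⟩,⟨1,[(10,0),(2,0),(0,0)]⟩),(⟨0,[(13,0)]⟩,⟨0,[(14,0)]⟩),⟨1,[(3,0),(6,0)]⟩,.k,
  .k,(.r (-1) ⟨0,[(1,0),(7,0)]⟩ ⟨0,[(1,0),(15,1),(2,1)]⟩),(.r (-1) ⟨3,[(8,0),(0,2),(7,3),(2,3)]⟩ ⟨0,
  [(1,0)]⟩),.k,.k,⟨false,1,⟨1,[(9,0),(7,1),(1,0)]⟩,⟨0,[(1,0),(19,0)]⟩⟩,⟨true,0,⟨0,[(0,0)]⟩,⟨1,[(10,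
  0),(2,0),(0,0)]⟩⟩,⟨true,0,⟨0,[]⟩,⟨0,[(21,0)]⟩⟩,⟨false,0,⟨0,[(0,0),(0,0)]⟩,⟨1,[(9,0),(0,0),(2,0),
  (0,0),(2,1),(1,0)]⟩⟩,⟨false,0,⟨0,[]⟩,⟨0,[]⟩⟩,⟨false,0,⟨0,[]⟩,⟨0,[]⟩⟩,[.o ⟨false,0,⟨0,[(6,0)]⟩,⟨3,
  [(8,0),(0,0),(7,3),(1,1)]⟩⟩,.o ⟨false,1,⟨3,[(4,1),(3,0),(0,0),(2,0),(6,0)]⟩,⟨0,[(17,0)]⟩⟩,.a
  ⟨true,0,⟨1,[(10,0),(2,0),(0,0)]⟩,⟨0,[(11,0)]⟩⟩ ⟨false,1,⟨1,[(9,0),(9,0)]⟩,⟨0,[(1,0),(15,0),(2,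
  0)]⟩⟩ ⟨true,0,⟨0,[(6,0),(4,0)]⟩,⟨1,[(10,0),(2,0),(0,0),(2,1)]⟩⟩,.o ⟨false,0,⟨1,[(7,0),(2,0)]⟩,⟨1,
  [(11,1),(0,0),(5,0)]⟩⟩]⟩)) t0) (.R ⟨0,false,false,false,[1,-1],[0,1],[1,1],(⟨0,[(11,0)]⟩,⟨0,[(12,
  0)]⟩),(⟨0,[(12,0)]⟩,⟨0,[(11,0)]⟩),⟨0,[(1,0)]⟩,.k,.k,(.r (-1) ⟨1,[(2,1),(0,1),(12,0),(0,0)]⟩ ⟨0,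
  [(0,0),(14,0),(3,0)]⟩),(.r (-1) ⟨1,[(2,1),(0,1),(12,0),(0,0)]⟩ ⟨0,[(0,0),(14,0),(3,0)]⟩),.k,.k,
  ⟨true,0,⟨0,[(13,0)]⟩,⟨0,[(0,0)]⟩⟩,⟨false,1,⟨0,[(3,0),(12,0)]⟩,⟨0,[(5,0)]⟩⟩,⟨false,0,⟨1,[(0,0),(14,
  0),(3,0)]⟩,⟨3,[(2,1),(0,1),(12,0),(0,2)]⟩⟩,⟨true,0,⟨1,[(0,0),(2,1),(11,2),(3,0)]⟩,⟨0,[(2,0)]⟩⟩,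
  ⟨false,0,⟨0,[]⟩,⟨0,[]⟩⟩,⟨false,0,⟨0,[]⟩,⟨0,[]⟩⟩,[.o ⟨false,0,⟨0,[(15,0)]⟩,⟨3,[(2,1),(3,0),(0,0),
  (2,0),(6,0)]⟩⟩,.o ⟨false,1,⟨3,[(6,0),(0,0),(7,3),(1,1)]⟩,⟨0,[(4,0)]⟩⟩,.a ⟨true,0,⟨1,[(0,0),(13,
  0)]⟩,⟨0,[(3,0)]⟩⟩ ⟨false,0,⟨0,[]⟩,⟨3,[(6,0),(0,0),(9,1)]⟩⟩ ⟨true,0,⟨0,[(3,0),(11,0)]⟩,⟨1,[(4,0),
  (0,0),(8,0)]⟩⟩,.o ⟨false,0,⟨0,[(5,0)]⟩,⟨0,[(16,0)]⟩⟩]⟩)) (.S ⟨1,0,[0,1,-1,-1],[1,-1],[1,0,-1,-2],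
  (⟨0,[(10,0)]⟩,⟨0,[(11,0)]⟩),⟨0,[(0,0)]⟩,.k,(.r (-1) ⟨1,[(1,1),(0,1),(12,0),(0,0)]⟩ ⟨0,[(14,1),(2,
  1)]⟩),⟨false,1,⟨0,[(13,0),(2,0)]⟩,⟨0,[(14,0)]⟩⟩,⟨true,0,⟨0,[(18,0)]⟩,⟨0,[]⟩⟩,⟨true,0,⟨0,[]⟩,⟨0,
  [(18,0)]⟩⟩,⟨false,0,⟨0,[(14,0)]⟩,⟨0,[(13,0),(2,0)]⟩⟩,[.o ⟨false,0,⟨0,[(3,0)]⟩,⟨3,[(5,0),(0,0),(7,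
  3),(1,1)]⟩⟩,.o ⟨false,1,⟨3,[(1,1),(3,0),(0,0),(2,0),(6,0)]⟩,⟨0,[(14,0)]⟩⟩,.a ⟨true,0,⟨0,[(17,0)]⟩,
  ⟨0,[(2,0)]⟩⟩ ⟨false,1,⟨0,[(1,0),(0,0),(13,0)]⟩,⟨0,[(14,1),(2,0)]⟩⟩ ⟨true,0,⟨0,[(12,0)]⟩,⟨0,[(14,
  0),(2,0)]⟩⟩,.o ⟨false,0,⟨0,[(4,0)]⟩,⟨0,[(15,0)]⟩⟩]⟩))) (.Q [0,0,0,-1,0,0,-1,-1,1] (.p true [0,0,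
  1] [1] (⟨0,[(6,0)]⟩,⟨1,[(5,0),(2,0),(0,0)]⟩) .k 1 (⟨0,[]⟩,⟨0,[]⟩) .k .k) (.Q [0,0,0,0,0,1,0,0,-1]
  (.ed true [1,-1,1] .k) (.R ⟨0,false,false,true,[0,0,1],[1,-1],[1,0,0,0,0,0,1],(⟨0,[(8,0)]⟩,⟨1,[(7,
  0),(2,0),(0,0)]⟩),(⟨0,[(10,0)]⟩,⟨0,[(11,0)]⟩),⟨0,[(0,0)]⟩,.k,.k,(.r (-1) ⟨1,[(6,0),(5,1),(3,0)]⟩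
  ⟨1,[(1,1),(5,0),(2,0),(0,0),(2,3),(2,1)]⟩),(.x (-1) ⟨3,[(5,0),(0,0),(4,3),(3,1)]⟩ ⟨0,[(2,0),(7,
  0)]⟩),.k,.k,⟨false,1,⟨1,[(6,0),(7,1),(1,0)]⟩,⟨1,[(1,1),(5,0),(2,0),(0,0),(0,1),(1,1)]⟩⟩,⟨true,0,
  ⟨0,[(2,0),(5,0)]⟩,⟨1,[(7,0),(2,0),(0,0)]⟩⟩,⟨true,0,⟨0,[]⟩,⟨0,[(18,0)]⟩⟩,⟨false,0,⟨0,[(1,0)]⟩,⟨1,
  [(6,0),(0,0),(2,0),(0,0),(2,1),(1,0)]⟩⟩,⟨false,0,⟨0,[]⟩,⟨0,[]⟩⟩,⟨false,0,⟨0,[]⟩,⟨0,[]⟩⟩,[.o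
  ⟨false,0,⟨0,[(3,0)]⟩,⟨3,[(5,0),(0,0),(7,3),(1,1)]⟩⟩,.o ⟨false,1,⟨1,[(9,0),(3,1),(2,0)]⟩,⟨0,[(14,
  0)]⟩⟩,.a ⟨true,0,⟨1,[(7,0),(2,0),(0,0)]⟩,⟨0,[(8,0)]⟩⟩ ⟨false,1,⟨1,[(6,0),(9,0)]⟩,⟨1,[(1,1),(5,0),
  (2,0),(0,0),(2,1)]⟩⟩ ⟨true,0,⟨0,[(3,0),(4,0)]⟩,⟨1,[(7,0),(2,0),(0,0),(2,1)]⟩⟩,.o ⟨false,0,⟨1,[(4,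
  0),(2,0)]⟩,⟨1,[(8,1),(0,0),(5,0)]⟩⟩]⟩) (.R ⟨1,false,false,true,[0,0,1],[1,-1],[0,0,0,0,0,0,1],(⟨0,
  [(8,0)]⟩,⟨1,[(7,0),(2,0),(0,0)]⟩),(⟨0,[(10,0)]⟩,⟨0,[(11,0)]⟩),⟨0,[(0,0)]⟩,.k,.k,(.r (-1) ⟨1,[(6,
  0),(5,1),(3,0)]⟩ ⟨1,[(1,1),(5,0),(2,0),(0,0),(2,3),(2,1)]⟩),(.x (-1) ⟨3,[(5,0),(0,0),(4,3),(3,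
  1)]⟩ ⟨1,[(0,1),(3,0),(2,0)]⟩),.k,.k,⟨false,1,⟨1,[(6,0),(7,1),(1,0)]⟩,⟨1,[(1,1),(5,0),(2,0),(0,0),
  (0,1),(1,1)]⟩⟩,⟨true,0,⟨0,[(2,0),(5,0)]⟩,⟨1,[(7,0),(2,0),(0,0)]⟩⟩,⟨false,1,⟨3,[(5,0),(0,0),(9,
  1)]⟩,⟨0,[]⟩⟩,⟨false,0,⟨0,[(1,0)]⟩,⟨1,[(6,0),(0,0),(2,0),(0,0),(2,1),(1,0)]⟩⟩,⟨true,0,⟨0,[(14,0)]⟩,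
  ⟨0,[(13,0)]⟩⟩,⟨false,0,⟨0,[(1,0),(12,0)]⟩,⟨1,[(6,0),(0,0),(2,0),(0,0),(4,0)]⟩⟩,[.o ⟨false,0,⟨0,
  [(3,0)]⟩,⟨3,[(5,0),(0,0),(7,3),(1,1)]⟩⟩,.o ⟨false,1,⟨1,[(9,0),(3,1),(2,0)]⟩,⟨0,[(14,0)]⟩⟩,.a
  ⟨true,0,⟨1,[(7,0),(2,0),(0,0)]⟩,⟨0,[(8,0)]⟩⟩ ⟨false,1,⟨1,[(6,0),(9,0)]⟩,⟨1,[(1,1),(5,0),(2,0),(0,
  0),(2,1)]⟩⟩ ⟨true,0,⟨0,[(3,0),(4,0)]⟩,⟨1,[(7,0),(2,0),(0,0),(2,1)]⟩⟩,.o ⟨false,0,⟨1,[(4,0),(2,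
  0)]⟩,⟨1,[(8,1),(0,0),(5,0)]⟩⟩]⟩)) (.I [0,0,1,1,0,0,-1] (.K ⟨0,[0,0,1],0,0,(⟨0,[(8,0)]⟩,⟨1,[(7,0),
  (2,0),(0,0)]⟩),.k,(.r (-1) ⟨1,[(6,0),(5,1),(3,0)]⟩ ⟨0,[(0,0)]⟩),(.r 0 ⟨0,[(1,0),(0,0),(5,0)]⟩ ⟨1,
  [(5,0),(6,1),(3,0)]⟩),.k,.k,[⟨0,[(8,0),(8,0)]⟩,⟨1,[(4,0),(2,0)]⟩,⟨0,[(0,0),(7,0),(3,0)]⟩,⟨0,[(1,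
  0),(1,0)]⟩]⟩) (.Q [0,0,0,0,0,-1,0,1,-1] (.ed true [0,1,1] .k) (.R ⟨1,false,false,true,[1,0,-1],[1,
  -1],[0,0,0,0,0,0,-1],(⟨1,[(8,0),(2,0),(0,0)]⟩,⟨0,[(9,0)]⟩),(⟨0,[(11,0)]⟩,⟨0,[(12,0)]⟩),⟨0,[(0,
  0)]⟩,.k,.k,(.r (-1) ⟨1,[(6,0),(6,1),(3,0)]⟩ ⟨0,[(2,0),(0,0),(5,0)]⟩),(.x (-1) ⟨3,[(6,0),(0,0),(4,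
  3),(3,1)]⟩ ⟨0,[(3,0),(7,0)]⟩),.k,.k,⟨false,1,⟨1,[(6,0),(8,1),(1,0)]⟩,⟨0,[(1,0),(17,0)]⟩⟩,⟨true,0,
  ⟨1,[(5,0),(2,0)]⟩,⟨0,[(9,0)]⟩⟩,⟨false,1,⟨3,[(6,0),(0,0),(9,1)]⟩,⟨0,[]⟩⟩,⟨false,0,⟨1,[(1,1),(3,0),
  (2,0)]⟩,⟨1,[(6,0),(2,1),(5,1),(1,0)]⟩⟩,⟨true,0,⟨0,[(15,0)]⟩,⟨0,[(14,0)]⟩⟩,⟨false,0,⟨2,[(1,1),(0,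
  0),(0,1),(4,0),(6,0)]⟩,⟨1,[(6,0),(2,1),(7,0)]⟩⟩,[.o ⟨false,0,⟨0,[(4,0)]⟩,⟨3,[(6,0),(0,0),(7,3),(1,
  1)]⟩⟩,.o ⟨false,1,⟨1,[(10,0),(3,1),(2,0)]⟩,⟨0,[(15,0)]⟩⟩,.a ⟨true,0,⟨0,[(9,0)]⟩,⟨1,[(8,0),(2,0),
  (0,0)]⟩⟩ ⟨false,1,⟨1,[(6,0),(10,0)]⟩,⟨1,[(1,0),(0,0),(0,0),(5,0)]⟩⟩ ⟨true,0,⟨1,[(4,0),(3,0),(5,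
  0)]⟩,⟨0,[(9,0),(5,0)]⟩⟩,.o ⟨false,0,⟨0,[(3,0),(5,0)]⟩,⟨7,[(6,0),(0,0),(0,3),(1,1),(5,3)]⟩⟩]⟩) (.R
  ⟨0,false,false,true,[1,0,-1],[1,-1],[1,0,0,0,0,0,-1],(⟨1,[(8,0),(2,0),(0,0)]⟩,⟨0,[(9,0)]⟩),(⟨0,
  [(11,0)]⟩,⟨0,[(12,0)]⟩),⟨0,[(0,0)]⟩,.k,.k,(.r (-1) ⟨1,[(6,0),(6,1),(3,0)]⟩ ⟨0,[(2,0),(0,0),(5,
  0)]⟩),(.x (-1) ⟨3,[(6,0),(0,0),(4,3),(3,1)]⟩ ⟨0,[(3,0),(7,0)]⟩),.k,.k,⟨false,1,⟨1,[(6,0),(8,1),(1,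
  0)]⟩,⟨0,[(1,0),(17,0)]⟩⟩,⟨true,0,⟨1,[(5,0),(2,0)]⟩,⟨0,[(9,0)]⟩⟩,⟨true,0,⟨0,[]⟩,⟨0,[(19,0)]⟩⟩,
  ⟨false,0,⟨1,[(1,1),(3,0),(2,0)]⟩,⟨1,[(6,0),(2,1),(5,1),(1,0)]⟩⟩,⟨false,0,⟨0,[]⟩,⟨0,[]⟩⟩,⟨false,0,
  ⟨0,[]⟩,⟨0,[]⟩⟩,[.o ⟨false,0,⟨0,[(4,0)]⟩,⟨3,[(6,0),(0,0),(7,3),(1,1)]⟩⟩,.o ⟨false,1,⟨1,[(10,0),(3,
  1),(2,0)]⟩,⟨0,[(15,0)]⟩⟩,.a ⟨true,0,⟨0,[(9,0)]⟩,⟨1,[(8,0),(2,0),(0,0)]⟩⟩ ⟨false,1,⟨1,[(6,0),(10,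
  0)]⟩,⟨1,[(1,0),(0,0),(0,0),(5,0)]⟩⟩ ⟨true,0,⟨1,[(4,0),(3,0),(5,0)]⟩,⟨0,[(9,0),(5,0)]⟩⟩,.o ⟨false,
  0,⟨0,[(3,0),(5,0)]⟩,⟨7,[(6,0),(0,0),(0,3),(1,1),(5,3)]⟩⟩]⟩)))))

def tree : Tre :=
  t1

theorem ok : chk (cPU (-1) false) tree base = true := by
  decide +kernel

theorem closed {p a b c J l q : ℤ} {D dl : ℝ} {Cl : ℤ → ℤ → ℤ → ℤ → ℝ → Prop}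
    (W : World p a b c J (-1) l q D dl Cl) (hE : KEmp p a b (-1) (P1 l p) Cl)
    (g : G0 p a b c J D)
    {N R : ℤ} {I : ℝ} (hu : VFac p D Cl N R I)
    (s0 : (1 : ℝ) ≤ c)
    (s1 : (b : ℝ) + c + 1 ≤ a)
    (s2 : D < 2 * b)
    (s3 : -(a : ℝ) < -D - c) : False := by
  have g1 := g.a2
  have g2 := g.b2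
  have g3 := g.pa
  have g4 := g.pb
  have g5 := g.J1
  have g6 := g.JD
  have g7 := g.D2
  have g8 := g.ca
  have g9 := g.ca'
  have t1 := TF.ofV hu
  have i1 := t1.I0
  have i2 := hu.ID
  have i3 := t1.R1
  have i4 := t1.R2
  refine (val_PU W.toBase (UV.ofV hu)).sound W rfl (Nk := 0) (fun kf hkf hh => ?_) (kok_B hE (by simp [xv]) (by simp [xv]) 0) ?_ ok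
  · simp only [cPU, kfB, List.mem_cons, List.not_mem_nil, or_false] at hkf
    subst hkf
    exact absurd hh (by norm_num)
  · simp only [base, List.forall_mem_cons, List.not_mem_nil, false_imp_iff, implies_true,
      and_true, hld, xv, evg_cons, evg_nil, List.map_cons, List.map_nil, List.cons_append,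
      List.nil_append, if_true, if_false, Bool.false_eq_true]
    push_cast
    refine ⟨?_, ?_, ?_, ?_, ?_, ?_, ?_, ?_, ?_, ?_, ?_, ?_, ?_, ?_, ?_, ?_⟩ <;> linarith

end Helper25.KG.P1_1_m1_0_v
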