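import Pool.Agent.Helper25.KG.PL

set_option autoImplicit false
set_option linter.unusedVariables false

namespace Helper25.KG.P1_1_m1_1_u

open Helper11.CT Helper25.KW Helper25.KG

def base : List Con :=
  [(false,[0,1,0,1,-1,0,0,1]),
  (false,[0,0,2,0,0,0,0,-1]),
  (true,[0,0,0,0,1,0,-2]),
  (true,[0,0,0,0,1,0,2]),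
  (false,[0,0,0,0,0,0,0,1,-1]),
  (false,[0,0,0,0,0,0,0,0,1]),
  (false,[0,0,0,0,1,0,0,-2]),
  (false,[0,0,0,0,0,-1,0,1]),
  (true,[0,0,0,0,0,1]),
  (true,[0,1,-1,-1]),
  (true,[0,1,0,-1]),
  (true,[0,0,0,1]),
  (true,[0,0,-2,0,1]),
  (true,[0,-2,0,0,1]),
  (true,[-1,0,1]),
  (true,[-1,1])]

def t0 : Tre :=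
  (.Q [0,1,1,0,0,0,1,0,-1] (.p false [0,0,1] [] (⟨0,[(8,0)]⟩,⟨0,[(7,0)]⟩) .k 0 (⟨0,[]⟩,⟨0,[]⟩) .k
  .k) (.I [1,-1,-1,0,1,0,-1] (.Q [0,1,-1,0,0,0,-1,0,1] (.p true [0,0,1] [] (⟨0,[(10,0)]⟩,⟨0,[(9,
  0)]⟩) .k 0 (⟨0,[]⟩,⟨0,[]⟩) .k .k) (.K ⟨0,[0,0,1],0,0,(⟨0,[(11,0)]⟩,⟨0,[(10,0)]⟩),.k,(.r (-1) ⟨1,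
  [(9,0),(5,1),(3,0)]⟩ ⟨0,[(1,0),(4,0),(0,0)]⟩),(.x 0 ⟨0,[(14,0)]⟩ ⟨3,[(8,0),(0,0),(2,1),(0,3)]⟩),
  .k,.k,[⟨0,[(11,0)]⟩,⟨0,[(7,0),(2,0)]⟩,⟨0,[(0,0)]⟩,⟨0,[(2,0)]⟩]⟩) (.Q [0,1,-1,1,0,0,-1,0,1] (.p
  true [0,0,1] [] (⟨0,[(11,0)]⟩,⟨0,[(10,0)]⟩) .k 0 (⟨0,[]⟩,⟨0,[]⟩) .k .k) (.R ⟨2,true,false,false,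
  [0,1],[0,0,1],[0,0,1,1],(⟨0,[]⟩,⟨0,[]⟩),(⟨0,[(12,0)]⟩,⟨0,[(11,0)]⟩),⟨0,[]⟩,.k,.k,.k,(.r 0 ⟨0,[(2,
  0),(4,0),(0,0)]⟩ ⟨1,[(10,0),(5,1),(3,0)]⟩),.k,.k,⟨true,0,⟨0,[(2,0),(4,0),(0,0)]⟩,⟨0,[(1,0),(10,0),
  (3,0)]⟩⟩,⟨false,0,⟨0,[(1,0),(3,0),(10,0)]⟩,⟨0,[(12,0),(6,0)]⟩⟩,⟨false,1,⟨3,[(9,0),(0,0),(9,1)]⟩,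
  ⟨0,[]⟩⟩,⟨true,0,⟨0,[(1,0),(15,0)]⟩,⟨0,[(0,0)]⟩⟩,⟨true,0,⟨0,[(18,0)]⟩,⟨0,[(17,0)]⟩⟩,⟨false,0,⟨0,
  [(1,0)]⟩,⟨1,[(9,0),(2,1),(6,0)]⟩⟩,[]⟩) (.Q [0,0,-2,0,1,0,0,-1,1] (.p true [0,0,1] [1] (⟨0,[(12,
  0)]⟩,⟨0,[(11,0)]⟩) .k 1 (⟨0,[]⟩,⟨0,[]⟩) .k .k) (.Q [0,0,0,0,0,-1,0,0,1] (.ed false [1,-1,1] .k)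
  (.S ⟨1,2,[],[0,0,1],[1,0,0,-1,0,0,1],(⟨0,[(14,0)]⟩,⟨0,[(13,0)]⟩),⟨0,[(0,0)]⟩,.k,(.r (-1) ⟨1,[(12,
  0),(5,1),(3,0)]⟩ ⟨0,[(4,0),(4,0),(0,0)]⟩),⟨false,1,⟨0,[(19,0),(2,0)]⟩,⟨0,[(20,0)]⟩⟩,⟨true,1,⟨1,
  [(1,0),(7,0),(1,0),(2,0),(0,0),(3,0)]⟩,⟨0,[(2,0),(6,0)]⟩⟩,⟨true,0,⟨0,[]⟩,⟨0,[(24,0)]⟩⟩,⟨false,1,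
  ⟨0,[(1,0),(5,0)]⟩,⟨0,[(2,0),(10,0),(0,0)]⟩⟩,[.a ⟨true,0,⟨0,[(24,0)]⟩,⟨0,[(2,0),(1,0),(4,0),(4,
  0)]⟩⟩ ⟨true,0,⟨11,[(1,1),(0,9),(6,3),(2,0),(1,7),(0,0),(2,5)]⟩,⟨0,[(4,0),(4,0),(0,0)]⟩⟩ ⟨false,1,
  ⟨0,[(1,0),(22,0)]⟩,⟨1,[(2,1),(6,1),(1,0),(10,0)]⟩⟩,.fo,.o ⟨false,0,⟨2,[(2,1),(4,1),(1,0),(3,0),(1,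
  0),(2,0)]⟩,⟨7,[(1,3),(9,0),(0,0),(1,3),(0,1)]⟩⟩,.o ⟨false,0,⟨0,[(10,0),(2,0)]⟩,⟨0,[(1,0)]⟩⟩]⟩)
  (.R ⟨0,false,false,true,[0,0,1],[1,-1],[1,0,0,-1,0,0,1],(⟨0,[(14,0)]⟩,⟨0,[(13,0)]⟩),(⟨0,[(16,0)]⟩,
  ⟨0,[(17,0)]⟩),⟨0,[(0,0)]⟩,.k,.k,(.r (-1) ⟨1,[(12,0),(5,1),(3,0)]⟩ ⟨0,[(4,0),(4,0),(0,0)]⟩),(.x 0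
  ⟨0,[(17,0)]⟩ ⟨3,[(11,0),(0,0),(2,1),(0,3)]⟩),.k,.k,⟨true,0,⟨0,[(3,0),(10,0)]⟩,⟨0,[(7,0),(10,0)]⟩⟩,
  ⟨false,1,⟨7,[(1,3),(9,0),(0,0),(1,3),(0,1)]⟩,⟨0,[(13,0)]⟩⟩,⟨false,1,⟨0,[(19,0),(2,0)]⟩,⟨0,[(20,
  0)]⟩⟩,⟨true,1,⟨1,[(11,0),(2,1),(0,0),(2,1)]⟩,⟨0,[(3,0),(5,0)]⟩⟩,⟨false,0,⟨0,[]⟩,⟨0,[]⟩⟩,⟨false,0,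
  ⟨0,[]⟩,⟨0,[]⟩⟩,[.a ⟨true,0,⟨0,[(19,0)]⟩,⟨0,[(9,0),(12,0)]⟩⟩ ⟨true,0,⟨11,[(1,1),(0,9),(6,3),(2,0),
  (1,7),(0,0),(2,5)]⟩,⟨0,[(4,0),(4,0),(0,0)]⟩⟩ ⟨false,1,⟨0,[(1,0),(17,0)]⟩,⟨1,[(3,0),(3,0),(1,0),(3,
  0),(8,0)]⟩⟩,.o ⟨false,1,⟨1,[(15,0),(3,1),(2,0)]⟩,⟨0,[(20,0)]⟩⟩,.o ⟨false,0,⟨2,[(2,1),(4,1),(1,0),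
  (3,0),(1,0),(2,0)]⟩,⟨7,[(1,3),(9,0),(0,0),(1,3),(0,1)]⟩⟩,.o ⟨false,0,⟨0,[(10,0),(2,0)]⟩,⟨0,[(1,
  0)]⟩⟩]⟩)) (.K ⟨0,[1,0,-1],1,1,(⟨0,[(12,0)]⟩,⟨0,[(13,0)]⟩),.k,(.x (-1) ⟨3,[(10,0),(0,0),(2,1),(0,
  3)]⟩ ⟨0,[(16,0)]⟩),(.r 0 ⟨0,[(0,0),(2,0),(4,0),(4,0),(0,0)]⟩ ⟨1,[(11,0),(5,1),(3,0)]⟩),.k,.k,[⟨0,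
  [(0,0)]⟩,⟨3,[(10,0),(0,0),(1,3),(0,1)]⟩,⟨2,[(1,1),(2,0),(3,2),(9,0)]⟩,⟨3,[(8,1),(1,1),(2,3),(0,2),
  (2,1),(2,0)]⟩]⟩)))) (.Q [0,-1,1,0,0,0,1,0,-1] (.p false [0,0,1] [] (⟨0,[(10,0)]⟩,⟨0,[(9,0)]⟩) .k
  0 (⟨0,[]⟩,⟨0,[]⟩) .k .k) (.Q [0,1,1,0,-1,0,1,0,-1] (.p false [0,0,1] [] (⟨0,[(11,0)]⟩,⟨0,[(10,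
  0)]⟩) .k 0 (⟨0,[]⟩,⟨0,[]⟩) .k .k) (.K ⟨0,[0,0,1],0,(-1),(⟨0,[(12,0)]⟩,⟨0,[(11,0)]⟩),.k,(.x 0 ⟨0,
  [(8,0),(5,0)]⟩ ⟨0,[(15,0),(3,0)]⟩),(.x 0 ⟨0,[(15,0)]⟩ ⟨3,[(9,0),(0,0),(2,1),(0,3)]⟩),.k,.k,[⟨0,
  [(12,0)]⟩,⟨0,[(8,0),(2,0)]⟩,⟨1,[(9,0),(2,1),(6,0),(2,1)]⟩,⟨0,[(0,0)]⟩]⟩) (.Q [0,0,-1,0,1,0,-1,-1,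
  1] (.p true [0,0,1] [1] (⟨0,[(12,0)]⟩,⟨0,[(11,0)]⟩) .k 1 (⟨0,[]⟩,⟨0,[]⟩) .k .k) (.R ⟨2,true,false,
  false,[0,1],[1,0,-1],[1,1,1],(⟨0,[]⟩,⟨0,[]⟩),(⟨0,[(12,0)]⟩,⟨0,[(13,0)]⟩),⟨0,[]⟩,.k,.k,.k,(.x 0 ⟨0,
  [(16,0)]⟩ ⟨3,[(10,0),(0,0),(2,1),(0,3)]⟩),.k,.k,⟨true,(-1),⟨0,[(3,0)]⟩,⟨1,[(10,0),(10,0)]⟩⟩,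
  ⟨false,1,⟨1,[(13,1),(0,0),(5,0)]⟩,⟨0,[(12,0)]⟩⟩,⟨true,0,⟨0,[(18,0)]⟩,⟨0,[(19,0)]⟩⟩,⟨false,2,⟨1,
  [(1,1),(12,0),(3,1),(2,0)]⟩,⟨0,[(2,0),(5,0)]⟩⟩,⟨false,0,⟨0,[]⟩,⟨1,[(1,0),(5,0)]⟩⟩,⟨true,1,⟨0,[(0,
  0)]⟩,⟨0,[(3,0),(8,0)]⟩⟩,[]⟩) (.Q [0,0,0,0,0,-1,0,1,-1] (.ed true [0,1,1] .k) (.S ⟨1,0,[0,0,0,0,0,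
  0,-1],[1,0,-1],[0,1,0,0,0,0,-1],(⟨0,[(13,0)]⟩,⟨0,[(14,0)]⟩),⟨0,[(0,0)]⟩,.k,(.x (-1) ⟨3,[(11,0),(0,
  0),(2,1),(0,3)]⟩ ⟨0,[(17,0)]⟩),⟨true,0,⟨0,[(24,0)]⟩,⟨0,[]⟩⟩,⟨false,1,⟨1,[(2,0),(5,0)]⟩,⟨0,[]⟩⟩,
  ⟨false,0,⟨0,[(20,0)]⟩,⟨0,[(19,0),(2,0)]⟩⟩,⟨true,0,⟨0,[(20,0)]⟩,⟨0,[(19,0)]⟩⟩,[.a ⟨true,1,⟨0,[(2,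
  0),(21,0)]⟩,⟨0,[(1,0)]⟩⟩ ⟨true,0,⟨0,[(7,0),(10,0)]⟩,⟨0,[(4,0),(17,0)]⟩⟩ ⟨false,1,⟨1,[(11,0),(9,
  0)]⟩,⟨1,[(4,1),(16,0),(0,0)]⟩⟩,.a ⟨true,1,⟨0,[(2,0)]⟩,⟨2,[(1,1),(3,0),(3,0),(9,0)]⟩⟩ ⟨false,1,⟨1,
  [(11,0),(9,0)]⟩,⟨1,[(4,1),(16,0),(0,0)]⟩⟩ ⟨true,1,⟨1,[(11,0),(10,0)]⟩,⟨0,[(4,0)]⟩⟩,.o ⟨false,1,⟨1,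
  [(14,1),(0,0),(5,0)]⟩,⟨1,[(1,1),(9,0),(3,0)]⟩⟩,.a ⟨true,0,⟨0,[(14,0)]⟩,⟨0,[(13,0)]⟩⟩ ⟨false,1,⟨1,
  [(11,0),(9,0)]⟩,⟨0,[(4,0),(17,0)]⟩⟩ ⟨true,1,⟨1,[(11,0),(9,0)]⟩,⟨0,[(4,0)]⟩⟩]⟩) (.Q [0,0,-1,0,0,0,
  0,1,-1] (.p false [0,0,1] [1] (⟨0,[(14,0)]⟩,⟨0,[(13,0)]⟩) .k 1 (⟨0,[]⟩,⟨0,[]⟩) .k .k) (.R ⟨0,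
  false,false,false,[1,-1],[0,0,1],[0,1],(⟨0,[(17,0)]⟩,⟨0,[(18,0)]⟩),(⟨0,[(15,0)]⟩,⟨0,[(14,0)]⟩),⟨0,
  [(0,1),(0,1),(9,0)]⟩,.k,.k,(.r (-1) ⟨0,[(19,1),(3,0)]⟩ ⟨2,[(5,1),(2,3),(4,0),(7,1),(1,0)]⟩),(.x
  (-1) ⟨3,[(12,0),(0,0),(2,1),(0,3)]⟩ ⟨0,[(18,0)]⟩),.k,.k,⟨true,0,⟨0,[(8,0),(10,0)]⟩,⟨0,[(5,0),(17,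
  0)]⟩⟩,⟨false,0,⟨0,[(0,0)]⟩,⟨3,[(12,0),(0,0),(1,3),(0,1)]⟩⟩,⟨false,0,⟨5,[(5,1),(2,3),(4,0),(7,1),
  (1,0)]⟩,⟨0,[(19,0),(3,0)]⟩⟩,⟨true,(-1),⟨0,[(4,0),(5,0)]⟩,⟨1,[(12,0),(2,1),(0,0),(2,1)]⟩⟩,⟨false,0,
  ⟨0,[]⟩,⟨0,[]⟩⟩,⟨false,0,⟨0,[]⟩,⟨0,[]⟩⟩,[.e ⟨false,0,⟨3,[(10,1),(5,0),(2,1),(2,0)]⟩,⟨1,[(3,0),(5,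
  0)]⟩⟩ ⟨false,0,⟨0,[(2,0),(19,0)]⟩,⟨1,[(12,0),(2,1),(0,0)]⟩⟩,.o ⟨false,0,⟨0,[(4,0)]⟩,⟨3,[(3,1),(6,
  1),(1,0),(2,1),(0,2),(2,1),(5,1)]⟩⟩,.a ⟨true,0,⟨0,[(24,0)]⟩,⟨0,[(0,0),(14,0)]⟩⟩ ⟨true,0,⟨0,[(25,
  0)]⟩,⟨0,[]⟩⟩ ⟨false,0,⟨1,[(2,1),(19,0),(0,0)]⟩,⟨1,[(12,0),(2,1),(0,0)]⟩⟩,.o ⟨false,0,⟨0,[(11,0)]⟩,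
  ⟨0,[(22,0)]⟩⟩]⟩) (.R ⟨0,false,false,false,[1,0,-1],[0,1],[1,0,1],(⟨0,[(14,0)]⟩,⟨0,[(15,0)]⟩),(⟨0,
  [(18,0)]⟩,⟨0,[(17,0)]⟩),⟨0,[(1,0)]⟩,.k,.k,(.x (-1) ⟨3,[(12,0),(0,0),(2,1),(0,3)]⟩ ⟨0,[(18,0)]⟩),
  (.x (-1) ⟨3,[(12,0),(0,0),(2,1),(0,3)]⟩ ⟨0,[(18,0)]⟩),.k,.k,⟨false,1,⟨1,[(20,1),(1,0),(0,0)]⟩,⟨0,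
  [(21,0)]⟩⟩,⟨true,0,⟨0,[(14,0)]⟩,⟨0,[(0,0)]⟩⟩,⟨false,0,⟨0,[(5,0),(17,0)]⟩,⟨1,[(12,0),(9,0)]⟩⟩,
  ⟨true,(-1),⟨0,[(4,0),(5,0)]⟩,⟨3,[(0,1),(2,1),(8,0),(3,0),(2,3),(5,1)]⟩⟩,⟨false,0,⟨0,[]⟩,⟨0,[]⟩⟩,
  ⟨false,0,⟨0,[]⟩,⟨0,[]⟩⟩,[.o ⟨false,0,⟨0,[(21,0)]⟩,⟨1,[(16,0),(3,1),(2,0)]⟩⟩,.a ⟨true,0,⟨0,[(10,0),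
  (12,0)]⟩,⟨0,[(20,0)]⟩⟩ ⟨false,1,⟨1,[(3,0),(5,0)]⟩,⟨3,[(10,1),(5,0),(2,1),(2,0)]⟩⟩ ⟨true,0,⟨1,[(4,
  0),(3,0),(1,0),(3,0),(8,0)]⟩,⟨0,[(0,0),(18,0)]⟩⟩,.o ⟨false,1,⟨1,[(15,1),(0,0),(5,0)]⟩,⟨1,[(2,1),
  (9,0),(3,0)]⟩⟩,.e ⟨true,0,⟨0,[]⟩,⟨0,[(25,0)]⟩⟩ ⟨true,0,⟨0,[(14,0),(6,0)]⟩,⟨0,[(0,0),(18,
  0)]⟩⟩]⟩))))) (.K ⟨0,[0,0,1],0,0,(⟨0,[(11,0)]⟩,⟨0,[(10,0)]⟩),.k,(.x 0 ⟨0,[(7,0),(5,0)]⟩ ⟨0,[(14,0),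
  (3,0)]⟩),(.x 0 ⟨0,[(14,0)]⟩ ⟨3,[(8,0),(0,0),(2,1),(0,3)]⟩),.k,.k,[⟨0,[(11,0)]⟩,⟨0,[(7,0),(2,0)]⟩,
  ⟨0,[(0,0)]⟩,⟨0,[(2,0)]⟩]⟩))) (.Q [0,-1,0,-1,1,0,0,0,-1] (.p false [0,0,1] [] (⟨0,[(9,0)]⟩,⟨0,[(8,
  0)]⟩) .k 0 (⟨0,[]⟩,⟨0,[]⟩) .k .k) (.Q [0,1,-1,1,-1,0,-1,0,1] (.p true [0,0,1] [] (⟨0,[(10,0)]⟩,⟨0,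
  [(9,0)]⟩) .k 0 (⟨0,[]⟩,⟨0,[]⟩) .k .k) (.Q [0,0,-1,0,0,0,0,0,1] (.p true [0,0,1] [] (⟨0,[(11,0)]⟩,
  ⟨0,[(10,0)]⟩) .k 0 (⟨0,[]⟩,⟨0,[]⟩) .k .k) (.R ⟨2,true,false,false,[0,1],[0,0,1],[1,0,1],(⟨0,[]⟩,
  ⟨0,[]⟩),(⟨0,[(12,0)]⟩,⟨0,[(11,0)]⟩),⟨0,[]⟩,.k,.k,.k,(.r 0 ⟨0,[(1,0),(0,0),(4,1),(0,1),(7,1),(1,0),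
  (1,1)]⟩ ⟨1,[(0,0),(1,0),(7,0),(5,0)]⟩),.k,.k,⟨false,0,⟨7,[(1,3),(0,2),(0,1),(4,2),(0,0),(1,2),(5,
  0)]⟩,⟨1,[(10,0),(8,0)]⟩⟩,⟨true,0,⟨0,[(8,0),(2,0)]⟩,⟨0,[(0,0)]⟩⟩,⟨false,1,⟨0,[(2,0),(9,0)]⟩,⟨0,
  [(18,0)]⟩⟩,⟨true,1,⟨0,[(6,0),(10,0)]⟩,⟨0,[(1,0)]⟩⟩,⟨true,0,⟨0,[]⟩,⟨0,[(22,0)]⟩⟩,⟨false,1,⟨0,[(6,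
  0)]⟩,⟨4,[(0,1),(0,0),(1,1),(5,0),(7,0)]⟩⟩,[]⟩) (.Q [0,0,0,0,0,-1,0,0,1] (.ed false [1,-1,1] .k)
  (.Q [0,0,-1,0,0,0,-1,-1,1] (.p true [0,0,1] [1] (⟨0,[(13,0)]⟩,⟨0,[(12,0)]⟩) .k 1 (⟨0,[]⟩,⟨0,[]⟩)
  .k .k) (.R ⟨2,true,false,false,[0,1],[1,0,-1],[1,1,1],(⟨0,[]⟩,⟨0,[]⟩),(⟨0,[(13,0)]⟩,⟨0,[(14,0)]⟩),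
  ⟨0,[]⟩,.k,.k,.k,(.x 0 ⟨0,[(17,0)]⟩ ⟨3,[(11,0),(0,0),(2,1),(0,3)]⟩),.k,.k,⟨true,0,⟨1,[(9,0),(0,0),
  (1,0),(6,0)]⟩,⟨0,[(2,0),(2,0)]⟩⟩,⟨false,1,⟨1,[(14,1),(0,0),(5,0)]⟩,⟨0,[(13,0)]⟩⟩,⟨true,0,⟨0,[(19,
  0)]⟩,⟨0,[(20,0)]⟩⟩,⟨false,1,⟨0,[(0,0),(3,0),(9,0)]⟩,⟨0,[(8,0),(0,0)]⟩⟩,⟨false,0,⟨0,[]⟩,⟨3,[(11,0),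
  (0,0),(9,1)]⟩⟩,⟨true,0,⟨0,[(0,0)]⟩,⟨0,[(8,0),(0,0),(9,0)]⟩⟩,[]⟩) (.S ⟨1,0,[0,1,0,0,0,0,1],[0,0,1],
  [0,0,0,0,0,0,1],(⟨0,[(14,0)]⟩,⟨0,[(13,0)]⟩),⟨0,[(1,0)]⟩,.k,(.r (-1) ⟨2,[(4,0),(0,0),(6,1),(5,1)]⟩
  ⟨0,[(0,1),(1,8),(0,3),(1,6),(4,1),(1,3),(5,2)]⟩),⟨false,1,⟨3,[(11,0),(0,0),(9,1)]⟩,⟨0,[]⟩⟩,⟨true,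
  0,⟨0,[(24,0)]⟩,⟨0,[]⟩⟩,⟨true,0,⟨0,[(20,0)]⟩,⟨0,[(19,0)]⟩⟩,⟨false,0,⟨0,[(20,0)]⟩,⟨0,[(4,0),(9,
  0)]⟩⟩,[.e ⟨false,1,⟨1,[(12,0),(8,0)]⟩,⟨4,[(2,2),(0,0),(1,1),(5,0),(7,0)]⟩⟩ ⟨false,1,⟨1,[(12,0),(8,
  0),(2,1)]⟩,⟨0,[(2,0),(2,0)]⟩⟩,.a ⟨true,0,⟨0,[(0,0)]⟩,⟨17,[(3,3),(1,7),(5,2),(2,5),(3,3),(2,0)]⟩⟩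
  ⟨true,1,⟨1,[(12,0),(9,0)]⟩,⟨0,[(2,0),(2,0),(3,0),(0,0),(7,0)]⟩⟩ ⟨false,1,⟨1,[(12,0),(8,0)]⟩,⟨4,
  [(2,2),(0,0),(1,1),(5,0),(7,0)]⟩⟩,.o ⟨false,0,⟨0,[(2,0)]⟩,⟨1,[(14,1),(0,0),(5,0)]⟩⟩,.o ⟨false,0,
  ⟨0,[(2,0),(20,0)]⟩,⟨5,[(3,1),(1,3),(6,2),(2,2),(2,1),(2,1)]⟩⟩]⟩)) (.R ⟨0,false,false,true,[0,0,1],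
  [0,1],[1],(⟨0,[(13,0)]⟩,⟨0,[(12,0)]⟩),(⟨0,[(16,0)]⟩,⟨0,[(15,0)]⟩),⟨0,[(0,0)]⟩,.k,.k,(.r (-1) ⟨2,
  [(3,0),(0,0),(6,1),(5,1)]⟩ ⟨0,[(1,8),(0,1),(1,6),(3,1),(0,1),(1,3),(5,2)]⟩),(.r (-1) ⟨2,[(3,0),(0,
  0),(6,1),(5,1)]⟩ ⟨0,[(1,8),(0,1),(1,6),(3,1),(0,1),(1,3),(5,2)]⟩),.k,.k,⟨true,1,⟨2,[(3,1),(0,1),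
  (6,0),(5,0)]⟩,⟨0,[(8,0),(0,0)]⟩⟩,⟨false,1,⟨5,[(2,1),(1,3),(6,2),(5,1),(2,4)]⟩,⟨0,[(1,0),(20,0)]⟩⟩,
  ⟨false,0,⟨0,[(1,0),(2,0)]⟩,⟨3,[(10,0),(0,2)]⟩⟩,⟨true,(-1),⟨0,[(2,0)]⟩,⟨0,[(7,0),(10,0)]⟩⟩,⟨false,
  0,⟨0,[]⟩,⟨0,[]⟩⟩,⟨false,0,⟨0,[]⟩,⟨0,[]⟩⟩,[.a ⟨true,(-1),⟨0,[(8,0)]⟩,⟨0,[(3,0),(9,0)]⟩⟩ ⟨true,0,⟨0,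
  []⟩,⟨0,[(22,0)]⟩⟩ ⟨false,0,⟨1,[(2,1),(8,0),(8,0)]⟩,⟨0,[(3,0),(18,0)]⟩⟩,.o ⟨false,0,⟨0,[(19,0)]⟩,
  ⟨1,[(3,0),(9,0),(0,0),(3,0)]⟩⟩,.o ⟨false,0,⟨0,[(1,0)]⟩,⟨1,[(13,1),(0,0),(5,0)]⟩⟩,.o ⟨false,0,⟨0,
  [(1,0),(20,0)]⟩,⟨5,[(2,1),(1,3),(6,2),(2,2),(2,1),(2,1)]⟩⟩]⟩))) (.Q [0,0,0,0,0,-2,0,1] (.pp false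
  [-1,1]) (.Q [0,0,1,0,0,0,0,-1,1] (.p true [0,0,1] [1] (⟨0,[(12,0)]⟩,⟨0,[(11,0)]⟩) .k 1 (⟨0,[]⟩,⟨0,
  []⟩) .k .k) (.R ⟨1,false,false,true,[1,-1],[0,0,1],[0,0,-1,-1],(⟨0,[(15,0)]⟩,⟨0,[(16,0)]⟩),(⟨0,
  [(13,0)]⟩,⟨0,[(12,0)]⟩),⟨0,[(1,0)]⟩,.k,.k,(.r (-1) ⟨2,[(3,1),(0,1),(6,0),(5,3)]⟩ ⟨2,[(6,1),(1,1),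
  (0,1),(1,0),(7,1),(1,0)]⟩),(.x (-1) ⟨7,[(1,3),(8,2),(0,2),(2,1)]⟩ ⟨0,[(16,0)]⟩),(.r (-1) ⟨5,[(3,
  3),(0,3),(5,0),(6,5),(0,1),(1,0)]⟩ ⟨1,[(8,1),(0,1),(1,0),(7,1),(1,0)]⟩),.k,⟨false,1,⟨3,[(3,1),(0,
  3),(7,1),(1,0),(2,1),(2,0)]⟩,⟨4,[(6,0),(1,3),(0,1),(1,2),(2,0),(8,0)]⟩⟩,⟨true,0,⟨0,[(12,0)]⟩,⟨0,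
  [(0,0)]⟩⟩,⟨false,1,⟨3,[(10,0),(0,0),(9,1)]⟩,⟨0,[]⟩⟩,⟨false,0,⟨0,[(7,0),(0,0)]⟩,⟨1,[(3,0),(0,1),(8,
  0),(0,0),(3,0)]⟩⟩,⟨true,0,⟨0,[(19,0)]⟩,⟨0,[(18,0)]⟩⟩,⟨false,0,⟨0,[(7,0),(0,0),(10,0)]⟩,⟨0,[(0,0),
  (2,0),(0,0),(12,0)]⟩⟩,[.a ⟨true,0,⟨0,[(2,0),(5,0),(14,0)]⟩,⟨0,[(4,0)]⟩⟩ ⟨false,1,⟨5,[(3,1),(0,1),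
  (6,0),(5,3),(2,2)]⟩,⟨5,[(6,1),(1,1),(0,1),(1,0),(7,1),(1,0)]⟩⟩ ⟨true,0,⟨3,[(2,1),(5,3),(2,0),(0,
  1),(1,0),(2,1)]⟩,⟨0,[(4,0),(4,0)]⟩⟩,.a ⟨true,0,⟨0,[(2,0),(5,0)]⟩,⟨0,[(4,0),(18,0)]⟩⟩ ⟨true,1,⟨2,
  [(3,1),(0,1),(6,0),(5,0)]⟩,⟨0,[(8,0),(0,0)]⟩⟩ ⟨false,1,⟨0,[(5,0),(17,0)]⟩,⟨5,[(0,0),(3,4),(1,0),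
  (1,1),(0,2),(4,1),(2,2)]⟩⟩,.a ⟨true,0,⟨0,[(22,0)]⟩,⟨1,[(4,0),(0,0),(2,0),(9,0)]⟩⟩ ⟨false,1,⟨2,[(3,
  1),(0,1),(6,0),(5,0)]⟩,⟨5,[(6,1),(1,1),(0,1),(1,0),(7,1),(1,0)]⟩⟩ ⟨true,0,⟨3,[(2,1),(5,3),(2,0),
  (0,1),(1,0),(2,1)]⟩,⟨5,[(0,0),(3,4),(1,0),(1,1),(0,2),(4,1),(2,2)]⟩⟩,.o ⟨false,0,⟨0,[(9,0)]⟩,⟨0,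
  [(20,0)]⟩⟩]⟩) (.R ⟨1,true,false,true,[1,-1],[1,0,-1],[0,1,-1,-1],(⟨0,[(15,0)]⟩,⟨0,[(16,0)]⟩),(⟨0,
  [(12,0)]⟩,⟨0,[(13,0)]⟩),⟨0,[(1,0)]⟩,.k,.k,(.r (-1) ⟨2,[(3,1),(0,1),(6,0),(5,3)]⟩ ⟨2,[(6,1),(1,1),
  (0,1),(1,0),(7,1),(1,0)]⟩),(.r (-1) ⟨2,[(3,0),(0,0),(6,1),(5,1)]⟩ ⟨0,[(0,4),(3,4),(3,1),(0,6),(1,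
  1),(5,2),(1,1)]⟩),(.r (-2) ⟨5,[(3,3),(0,3),(6,4),(5,1),(0,5),(1,2)]⟩ ⟨0,[(0,0),(3,0),(3,0),(0,1),
  (9,0)]⟩),.k,⟨true,1,⟨2,[(3,0),(0,0),(6,1),(5,1)]⟩,⟨0,[(0,0),(3,0),(3,0),(0,1)]⟩⟩,⟨false,1,⟨3,[(4,
  3),(3,1),(2,1),(2,0),(2,1),(2,2)]⟩,⟨0,[(9,0),(2,0)]⟩⟩,⟨true,0,⟨0,[(23,0)]⟩,⟨0,[]⟩⟩,⟨false,0,⟨2,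
  [(4,1),(1,0),(1,1),(4,0),(0,0),(5,0)]⟩,⟨0,[(2,0)]⟩⟩,⟨false,0,⟨0,[(19,0)]⟩,⟨0,[(3,0),(9,0)]⟩⟩,
  ⟨true,(-1),⟨0,[(4,0),(3,1),(5,0)]⟩,⟨0,[(2,0),(15,0)]⟩⟩,[]⟩)) (.I [1,0,1,1,0,0,1] (.R ⟨0,false,
  false,false,[1,-1],[0,0,1],[0,1],(⟨0,[(15,0)]⟩,⟨0,[(16,0)]⟩),(⟨0,[(13,0)]⟩,⟨0,[(12,0)]⟩),⟨0,[(1,
  0)]⟩,.k,.k,(.r (-1) ⟨2,[(3,1),(0,1),(6,0),(5,3)]⟩ ⟨0,[(2,1),(1,1),(3,1),(0,1),(7,1),(1,3)]⟩),(.x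
  (-1) ⟨3,[(10,0),(0,0),(2,1),(0,3)]⟩ ⟨0,[(16,0)]⟩),.k,.k,⟨false,0,⟨1,[(4,0),(1,0),(1,0),(3,0),(1,
  0),(2,1)]⟩,⟨1,[(11,0),(9,0)]⟩⟩,⟨true,0,⟨0,[(12,0)]⟩,⟨0,[(0,0),(3,0),(4,0),(7,0)]⟩⟩,⟨false,0,⟨0,
  [(2,0),(1,0),(3,0),(0,0),(7,0),(1,1)]⟩,⟨2,[(3,1),(0,1),(6,0),(5,0)]⟩⟩,⟨true,0,⟨0,[(7,0),(0,0)]⟩,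
  ⟨1,[(4,1),(3,0),(0,0),(4,0),(2,1),(0,0)]⟩⟩,⟨false,0,⟨0,[]⟩,⟨0,[]⟩⟩,⟨false,0,⟨0,[]⟩,⟨0,[]⟩⟩,[.e
  ⟨false,0,⟨3,[(8,1),(5,0),(2,1),(2,0)]⟩,⟨3,[(10,0),(0,0),(9,1)]⟩⟩ ⟨false,1,⟨0,[(5,0),(17,0)]⟩,⟨1,
  [(4,1),(3,0),(0,0),(4,0),(3,0)]⟩⟩,.o ⟨false,1,⟨0,[(7,0)]⟩,⟨0,[(4,0),(3,0),(5,0),(3,0)]⟩⟩,.a ⟨true,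
  0,⟨0,[(22,0)]⟩,⟨1,[(4,0),(0,0),(2,0),(9,0)]⟩⟩ ⟨true,0,⟨0,[(23,0)]⟩,⟨0,[]⟩⟩ ⟨false,1,⟨1,[(11,0),(0,
  1),(8,0)]⟩,⟨1,[(4,1),(3,0),(0,0),(4,0),(3,0)]⟩⟩,.o ⟨false,0,⟨0,[(9,0)]⟩,⟨0,[(20,0)]⟩⟩]⟩) (.R ⟨0,
  false,false,true,[1,-1],[1,0,-1],[1,1,0,0,0,0,-1],(⟨0,[(15,0)]⟩,⟨0,[(16,0)]⟩),(⟨0,[(12,0)]⟩,⟨0,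
  [(13,0)]⟩),⟨0,[(1,0)]⟩,.k,.k,(.r (-1) ⟨2,[(3,1),(0,1),(6,0),(5,3)]⟩ ⟨2,[(6,1),(1,1),(0,1),(1,0),
  (7,1),(1,0)]⟩),(.r (-1) ⟨2,[(3,0),(0,0),(6,1),(5,1)]⟩ ⟨0,[(0,0),(1,1),(1,1),(3,1),(0,1),(7,1),(1,
  3)]⟩),.k,.k,⟨true,0,⟨0,[]⟩,⟨0,[(22,0)]⟩⟩,⟨false,1,⟨3,[(4,3),(3,1),(2,1),(2,0),(2,1),(2,2)]⟩,⟨0,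
  [(9,0),(2,0)]⟩⟩,⟨true,(-1),⟨0,[(0,0),(7,0),(0,0),(9,0)]⟩,⟨2,[(3,0),(0,0),(6,1),(5,1)]⟩⟩,⟨false,0,
  ⟨2,[(4,1),(1,0),(1,1),(4,0),(0,0),(5,0)]⟩,⟨0,[(2,0)]⟩⟩,⟨false,0,⟨0,[]⟩,⟨0,[]⟩⟩,⟨false,0,⟨0,[]⟩,⟨0,
  []⟩⟩,[.o ⟨false,0,⟨0,[(4,0),(3,0),(5,0),(3,0)]⟩,⟨0,[(7,0)]⟩⟩,.a ⟨true,0,⟨0,[(4,0),(18,0)]⟩,⟨0,[(2,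
  0),(5,0)]⟩⟩ ⟨false,0,⟨0,[(0,0),(18,0)]⟩,⟨3,[(10,0),(0,2)]⟩⟩ ⟨true,0,⟨3,[(4,3),(3,1),(5,0),(2,1),
  (2,0)]⟩,⟨0,[(2,0),(5,0),(0,0)]⟩⟩,.e ⟨false,0,⟨1,[(0,0),(5,0)]⟩,⟨1,[(11,0),(9,0)]⟩⟩ ⟨false,0,⟨3,
  [(4,3),(3,1),(5,0),(2,1),(2,0)]⟩,⟨0,[(7,0),(14,0)]⟩⟩,.o ⟨false,0,⟨0,[(9,0)]⟩,⟨0,[(20,0)]⟩⟩]⟩))))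
  (.Q [0,1,-1,1,-1,0,-1,0,1] (.p true [0,0,1] [] (⟨0,[(10,0)]⟩,⟨0,[(9,0)]⟩) .k 0 (⟨0,[]⟩,⟨0,[]⟩) .k
  .k) (.R ⟨2,true,false,false,[0,1],[0,0,1],[1,0,1],(⟨0,[]⟩,⟨0,[]⟩),(⟨0,[(11,0)]⟩,⟨0,[(10,0)]⟩),⟨0,
  []⟩,.k,.k,.k,(.r 0 ⟨0,[(0,0),(0,0),(5,1),(2,1),(4,1),(1,0),(1,1)]⟩ ⟨1,[(9,0),(5,1),(3,0)]⟩),.k,.k,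
  ⟨false,0,⟨7,[(0,1),(1,3),(4,3),(0,0),(1,5),(1,0),(2,1)]⟩,⟨1,[(9,0),(8,0)]⟩⟩,⟨true,0,⟨0,[(7,0),(2,
  0)]⟩,⟨2,[(1,0),(0,1),(6,0),(5,0)]⟩⟩,⟨false,1,⟨0,[(16,0),(2,0)]⟩,⟨0,[(17,0)]⟩⟩,⟨true,1,⟨0,[(5,0),
  (10,0)]⟩,⟨0,[(0,0)]⟩⟩,⟨true,0,⟨0,[]⟩,⟨0,[(21,0)]⟩⟩,⟨false,1,⟨0,[(5,0)]⟩,⟨17,[(0,3),(1,7),(5,2),(2,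
  5),(3,3),(2,0)]⟩⟩,[]⟩) (.Q [0,0,0,0,0,2,0,-1] (.pp true [-1,1]) (.R ⟨0,false,false,true,[1,0,-1],
  [0,1],[1,1],(⟨0,[(11,0)]⟩,⟨0,[(12,0)]⟩),(⟨0,[(15,0)]⟩,⟨0,[(14,0)]⟩),⟨5,[(0,2),(1,1),(0,3),(4,2),
  (1,1),(5,1)]⟩,.k,.k,(.x (-1) ⟨3,[(9,0),(0,0),(2,1),(0,3)]⟩ ⟨0,[(15,0)]⟩),(.x (-1) ⟨3,[(9,0),(0,0),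
  (2,1),(0,3)]⟩ ⟨0,[(15,0)]⟩),.k,.k,⟨false,1,⟨1,[(16,1),(2,0),(0,0)]⟩,⟨1,[(2,0),(2,0),(0,0)]⟩⟩,
  ⟨true,0,⟨0,[(11,0)]⟩,⟨2,[(2,0),(0,1),(4,2),(1,0),(5,0)]⟩⟩,⟨true,0,⟨3,[(1,1),(0,1),(4,1),(2,0),(2,
  0),(2,1)]⟩,⟨3,[(3,2),(1,0),(1,0),(0,1),(2,2),(1,0),(2,1)]⟩⟩,⟨false,0,⟨0,[(6,0),(0,0)]⟩,⟨1,[(3,1),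
  (9,0),(3,1),(2,0)]⟩⟩,⟨false,0,⟨0,[]⟩,⟨0,[]⟩⟩,⟨false,0,⟨0,[]⟩,⟨0,[]⟩⟩,[.e ⟨false,0,⟨3,[(7,1),(5,0),
  (2,1),(2,0)]⟩,⟨3,[(9,0),(0,0),(9,1)]⟩⟩ ⟨false,0,⟨2,[(4,0),(0,0),(1,1),(3,1),(1,0),(8,1)]⟩,⟨5,[(1,
  5),(0,3),(0,7),(6,0),(2,2),(2,3)]⟩⟩,.o ⟨false,0,⟨0,[(18,0)]⟩,⟨1,[(13,0),(3,1),(2,0)]⟩⟩,.e ⟨false,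
  0,⟨0,[]⟩,⟨3,[(9,0),(0,0),(9,1)]⟩⟩ ⟨false,0,⟨1,[(5,0),(0,0),(0,0),(3,0)]⟩,⟨5,[(1,5),(0,3),(0,7),(6,
  0),(2,2),(2,3)]⟩⟩,.a ⟨true,0,⟨0,[(12,0)]⟩,⟨0,[(11,0)]⟩⟩ ⟨true,0,⟨3,[(7,1),(5,0),(2,1),(2,0)]⟩,⟨0,
  [(21,0)]⟩⟩ ⟨false,0,⟨0,[(11,0),(6,0)]⟩,⟨3,[(1,1),(1,3),(4,1),(1,0),(1,1),(0,0),(2,1)]⟩⟩]⟩) (.S ⟨1,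
  1,[],[0,0,1],[0,1,0,0,0,0,1],(⟨0,[(12,0)]⟩,⟨0,[(11,0)]⟩),⟨5,[(0,2),(1,1),(0,3),(4,2),(1,1),(5,
  1)]⟩,.k,(.r (-1) ⟨1,[(10,0),(5,1),(3,0)]⟩ ⟨0,[(1,0),(0,0),(0,1),(4,1),(2,1),(4,1),(1,2)]⟩),⟨true,
  0,⟨0,[(22,0)]⟩,⟨0,[]⟩⟩,⟨false,1,⟨5,[(3,3),(5,0),(2,1),(0,2),(5,0),(0,0)]⟩,⟨0,[(1,0),(5,0)]⟩⟩,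
  ⟨false,0,⟨0,[(18,0)]⟩,⟨0,[(17,0),(2,0)]⟩⟩,⟨true,0,⟨0,[(3,0),(3,0),(5,0)]⟩,⟨0,[(1,0),(5,0),(9,
  0)]⟩⟩,[.fo,.o ⟨false,1,⟨1,[(13,0),(6,0)]⟩,⟨0,[(22,0)]⟩⟩,.a ⟨true,0,⟨0,[(11,0),(9,0)]⟩,⟨2,[(2,0),
  (0,1),(6,0),(5,0)]⟩⟩ ⟨true,0,⟨3,[(1,1),(0,1),(4,1),(2,0),(2,0),(2,1)]⟩,⟨3,[(3,2),(1,0),(1,0),(0,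
  1),(2,2),(1,0),(2,1)]⟩⟩ ⟨false,1,⟨1,[(3,1),(6,0),(2,0)]⟩,⟨0,[(11,0),(9,0)]⟩⟩,.o ⟨false,0,⟨0,[(8,
  0),(2,0)]⟩,⟨5,[(2,1),(0,3),(6,1),(2,2),(2,1),(2,2)]⟩⟩]⟩)))))

def tree : Tre :=
  (.Q [0,-1,1,0,1,0,1,0,-1] (.p false [0,0,1] [] (⟨0,[(5,0)]⟩,⟨0,[(4,0)]⟩) .k 0 (⟨0,[]⟩,⟨0,[]⟩) .k
  .k) (.I [0,0,-1,-1,0,0,1] (.Q [0,-1,1,0,0,0,1,0,-1] (.p false [0,0,1] [] (⟨0,[(7,0)]⟩,⟨0,[(6,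
  0)]⟩) .k 0 (⟨0,[]⟩,⟨0,[]⟩) .k .k) (.Q [0,1,1,0,-1,0,1,0,-1] (.p false [0,0,1] [] (⟨0,[(8,0)]⟩,⟨0,
  [(7,0)]⟩) .k 0 (⟨0,[]⟩,⟨0,[]⟩) .k .k) (.K ⟨0,[0,0,1],0,(-1),(⟨0,[(9,0)]⟩,⟨0,[(8,0)]⟩),.k,(.r 0 ⟨0,
  [(2,0)]⟩ ⟨7,[(4,3),(0,3),(0,6),(0,2),(7,3),(1,1)]⟩),(.x 0 ⟨0,[(12,0)]⟩ ⟨3,[(6,0),(0,0),(2,1),(0,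
  3)]⟩),.k,.k,[⟨0,[(9,0)]⟩,⟨0,[(5,0),(2,0)]⟩,⟨1,[(6,0),(2,1),(6,0),(2,1)]⟩,⟨0,[(0,0)]⟩]⟩) (.Q [0,0,
  -1,0,1,0,-1,-1,1] (.p true [0,0,1] [1] (⟨0,[(9,0)]⟩,⟨0,[(8,0)]⟩) .k 1 (⟨0,[]⟩,⟨0,[]⟩) .k .k) (.R
  ⟨2,true,false,false,[0,1],[1,0,-1],[1,1,1],(⟨0,[]⟩,⟨0,[]⟩),(⟨0,[(9,0)]⟩,⟨0,[(10,0)]⟩),⟨0,[]⟩,.k,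
  .k,.k,(.x 0 ⟨0,[(13,0)]⟩ ⟨3,[(7,0),(0,0),(2,1),(0,3)]⟩),.k,.k,⟨true,(-1),⟨0,[(3,0),(1,0),(0,0)]⟩,
  ⟨1,[(7,0),(10,0)]⟩⟩,⟨false,1,⟨5,[(0,3),(2,1),(4,0),(1,1),(0,0),(4,1)]⟩,⟨0,[(9,0)]⟩⟩,⟨true,0,⟨0,
  [(15,0)]⟩,⟨0,[(16,0)]⟩⟩,⟨false,2,⟨0,[(0,0),(14,0),(2,0)]⟩,⟨0,[(2,0),(2,0)]⟩⟩,⟨false,0,⟨0,[]⟩,⟨3,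
  [(7,0),(0,0),(9,1)]⟩⟩,⟨true,1,⟨0,[(0,0)]⟩,⟨0,[(2,0),(2,0),(9,0)]⟩⟩,[]⟩) (.Q [0,0,0,0,0,-2,0,1]
  (.pp false [-1,1]) (.R ⟨1,false,false,false,[1,-1],[1,0,-1],[0,0,-1,-1],(⟨0,[(13,0)]⟩,⟨0,[(14,
  0)]⟩),(⟨0,[(10,0)]⟩,⟨0,[(11,0)]⟩),⟨0,[(0,0)]⟩,.k,.k,(.r (-1) ⟨0,[(4,1),(3,0)]⟩ ⟨3,[(6,3),(0,3),(0,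
  0),(0,0),(7,3),(1,1)]⟩),(.r 0 ⟨0,[(4,0)]⟩ ⟨7,[(6,3),(0,3),(0,6),(0,2),(7,3),(1,1)]⟩),(.r (-1) ⟨1,
  [(4,1),(11,1),(1,0),(0,0)]⟩ ⟨1,[(6,1),(0,1),(0,0),(8,1),(1,0)]⟩),.k,⟨true,0,⟨0,[(4,0)]⟩,⟨1,[(6,1),
  (0,1),(0,0),(10,0)]⟩⟩,⟨false,1,⟨1,[(2,1),(1,1),(1,1),(5,0),(5,0)]⟩,⟨0,[(7,0),(2,0)]⟩⟩,⟨false,1,⟨3,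
  [(8,0),(0,0),(9,1)]⟩,⟨0,[]⟩⟩,⟨false,1,⟨0,[(2,0),(14,0)]⟩,⟨0,[(3,0),(12,0)]⟩⟩,⟨true,0,⟨0,[(17,0)]⟩,
  ⟨0,[(16,0)]⟩⟩,⟨false,1,⟨0,[(2,0),(14,1)]⟩,⟨0,[(1,0),(2,1),(2,0),(0,0)]⟩⟩,[.a ⟨true,1,⟨0,[(2,0),
  (18,0)]⟩,⟨0,[(1,0)]⟩⟩ ⟨false,1,⟨1,[(4,1),(3,0),(9,0)]⟩,⟨7,[(6,3),(0,3),(0,0),(0,0),(7,3),(1,1)]⟩⟩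
  ⟨true,1,⟨3,[(2,3),(3,1),(5,0),(2,1),(2,0)]⟩,⟨0,[(1,0),(5,0)]⟩⟩,.a ⟨true,1,⟨0,[(2,0)]⟩,⟨0,[(1,0),
  (19,0)]⟩⟩ ⟨true,1,⟨1,[(4,1),(3,0),(10,0)]⟩,⟨0,[(6,0),(0,0)]⟩⟩ ⟨false,2,⟨0,[(2,0),(15,0)]⟩,⟨1,[(1,
  1),(4,0),(0,0),(4,0),(3,0)]⟩⟩,.a ⟨true,0,⟨0,[(20,0)]⟩,⟨1,[(2,0),(1,0),(1,0),(3,0)]⟩⟩ ⟨false,1,⟨1,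
  [(4,1),(3,0),(10,0)]⟩,⟨7,[(6,3),(0,3),(0,0),(0,0),(7,3),(1,1)]⟩⟩ ⟨true,1,⟨3,[(2,3),(3,1),(5,0),(2,
  1),(2,0)]⟩,⟨1,[(1,1),(4,0),(0,0),(4,0),(3,0)]⟩⟩,.o ⟨false,0,⟨0,[(7,0)]⟩,⟨0,[(18,0)]⟩⟩]⟩) (.R ⟨0,
  false,false,false,[1,-1],[1,0,-1],[0,1,1],(⟨0,[(13,0)]⟩,⟨0,[(14,0)]⟩),(⟨0,[(10,0)]⟩,⟨0,[(11,0)]⟩),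
  ⟨0,[(0,0)]⟩,.k,.k,(.r (-1) ⟨0,[(4,1),(3,0)]⟩ ⟨3,[(6,3),(0,3),(0,0),(0,0),(7,3),(1,1)]⟩),(.r 0 ⟨0,
  [(4,0)]⟩ ⟨7,[(6,3),(0,3),(0,6),(0,2),(7,3),(1,1)]⟩),.k,.k,⟨true,(-1),⟨0,[(4,0),(1,0),(0,0)]⟩,⟨1,
  [(8,0),(10,0)]⟩⟩,⟨false,1,⟨1,[(2,1),(1,1),(1,1),(5,0),(5,0)]⟩,⟨0,[(7,0),(2,0)]⟩⟩,⟨true,(-1),⟨0,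
  [(6,0),(0,0)]⟩,⟨1,[(4,1),(3,0),(9,0)]⟩⟩,⟨false,1,⟨0,[(2,0),(14,0)]⟩,⟨0,[(3,0),(12,0)]⟩⟩,⟨false,0,
  ⟨0,[]⟩,⟨0,[]⟩⟩,⟨false,0,⟨0,[]⟩,⟨0,[]⟩⟩,[.a ⟨true,1,⟨0,[(2,0),(18,0)]⟩,⟨0,[(1,0)]⟩⟩ ⟨false,0,⟨0,
  [(21,0)]⟩,⟨1,[(18,0),(0,0)]⟩⟩ ⟨true,1,⟨3,[(2,3),(3,1),(5,0),(2,1),(2,0)]⟩,⟨0,[(1,0),(5,0)]⟩⟩,.a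
  ⟨true,1,⟨0,[(2,0)]⟩,⟨0,[(1,0),(19,0)]⟩⟩ ⟨true,0,⟨0,[(20,0)]⟩,⟨0,[]⟩⟩ ⟨false,2,⟨0,[(2,0),(15,0)]⟩,
  ⟨1,[(1,1),(4,0),(0,0),(4,0),(3,0)]⟩⟩,.a ⟨true,0,⟨0,[(20,0)]⟩,⟨1,[(2,0),(1,0),(1,0),(3,0)]⟩⟩
  ⟨false,0,⟨0,[(20,0)]⟩,⟨1,[(18,0),(0,0)]⟩⟩ ⟨true,1,⟨3,[(2,3),(3,1),(5,0),(2,1),(2,0)]⟩,⟨1,[(1,1),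
  (4,0),(0,0),(4,0),(3,0)]⟩⟩,.o ⟨false,0,⟨0,[(7,0)]⟩,⟨0,[(18,0)]⟩⟩]⟩)))) (.K ⟨0,[0,0,1],0,0,(⟨0,[(8,
  0)]⟩,⟨0,[(7,0)]⟩),.k,(.r 0 ⟨0,[(1,0)]⟩ ⟨7,[(3,3),(0,3),(0,6),(0,2),(7,3),(1,1)]⟩),(.x 0 ⟨0,[(11,
  0)]⟩ ⟨3,[(5,0),(0,0),(2,1),(0,3)]⟩),.k,.k,[⟨0,[(8,0)]⟩,⟨0,[(4,0),(2,0)]⟩,⟨0,[(0,0)]⟩,⟨1,[(1,0),(0,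
  0),(0,1),(0,0),(2,0),(1,0),(3,0)]⟩]⟩)) (.Q [0,-1,-1,0,1,0,1,1,-1] (.p false [0,0,1] [1] (⟨0,[(7,
  0)]⟩,⟨0,[(6,0)]⟩) .k 1 (⟨0,[]⟩,⟨0,[]⟩) .k .k) t0 (.Q [0,0,-1,0,0,0,-1,-1,1] (.p true [0,0,1] [1]
  (⟨0,[(8,0)]⟩,⟨0,[(7,0)]⟩) .k 1 (⟨0,[]⟩,⟨0,[]⟩) .k .k) (.R ⟨2,false,false,true,[0,1],[1,0,-1],[1],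
  (⟨0,[]⟩,⟨0,[]⟩),(⟨0,[(8,0)]⟩,⟨0,[(9,0)]⟩),⟨0,[]⟩,.k,.k,.k,(.x 0 ⟨0,[(12,0)]⟩ ⟨3,[(6,0),(0,0),(2,
  1),(0,3)]⟩),.k,.k,⟨true,1,⟨1,[(7,0),(9,0)]⟩,⟨0,[(1,0),(6,0)]⟩⟩,⟨false,1,⟨1,[(9,1),(0,0),(5,0)]⟩,
  ⟨0,[(8,0)]⟩⟩,⟨false,1,⟨0,[(13,0),(3,0)]⟩,⟨5,[(2,1),(1,1),(0,1),(1,0),(7,1),(1,0)]⟩⟩,⟨true,0,⟨0,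
  [(0,0),(13,0)]⟩,⟨0,[(3,0),(0,0)]⟩⟩,⟨false,1,⟨1,[(16,0),(0,0)]⟩,⟨0,[(18,0)]⟩⟩,⟨false,0,⟨0,[(0,0)]⟩,
  ⟨0,[(3,0),(4,0),(0,0)]⟩⟩,[.o ⟨false,0,⟨0,[(0,0),(18,0)]⟩,⟨0,[(3,0)]⟩⟩,.o ⟨false,0,⟨0,[(0,0)]⟩,⟨0,
  [(3,0),(15,0)]⟩⟩,.a ⟨true,0,⟨0,[(4,0),(8,0),(3,0)]⟩,⟨0,[(18,0)]⟩⟩ ⟨true,0,⟨0,[]⟩,⟨0,[(19,0)]⟩⟩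
  ⟨false,0,⟨9,[(0,5),(0,1),(3,1),(0,0),(2,1),(7,0)]⟩,⟨1,[(7,0),(0,1),(8,0)]⟩⟩,.e ⟨false,1,⟨1,[(16,
  0),(0,0)]⟩,⟨0,[(18,0)]⟩⟩ ⟨false,0,⟨0,[(0,0)]⟩,⟨0,[(3,0),(4,0),(0,0)]⟩⟩]⟩) (.Q [0,1,1,0,0,0,1,0,
  -1] (.p false [0,0,1] [] (⟨0,[(9,0)]⟩,⟨0,[(8,0)]⟩) .k 0 (⟨0,[]⟩,⟨0,[]⟩) .k .k) (.K ⟨0,[0,0,1],0,0,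
  (⟨0,[(10,0)]⟩,⟨0,[(9,0)]⟩),.k,(.r (-1) ⟨1,[(8,0),(5,1),(3,0)]⟩ ⟨0,[(0,0),(1,1),(2,0),(3,0),(4,1),
  (1,1),(1,2)]⟩),(.x 0 ⟨0,[(13,0)]⟩ ⟨3,[(7,0),(0,0),(2,1),(0,3)]⟩),.k,.k,[⟨0,[(10,0)]⟩,⟨0,[(6,0),(2,
  0)]⟩,⟨3,[(2,1),(2,1),(1,0),(2,1),(3,1),(2,1),(0,0)]⟩,⟨0,[(0,0)]⟩]⟩) (.Q [0,0,0,0,0,2,0,-1] (.pp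
  true [-1,1]) (.R ⟨0,false,false,false,[1,-1],[0,0,1],[0,1],(⟨0,[(13,0)]⟩,⟨0,[(14,0)]⟩),(⟨0,[(11,
  0)]⟩,⟨0,[(10,0)]⟩),⟨0,[(0,0)]⟩,.k,.k,(.r (-1) ⟨0,[(15,1),(3,0)]⟩ ⟨2,[(4,1),(1,1),(0,1),(1,0),(7,
  1),(1,0)]⟩),(.x (-1) ⟨3,[(8,0),(0,0),(2,1),(0,3)]⟩ ⟨0,[(14,0)]⟩),.k,.k,⟨false,0,⟨8,[(1,3),(1,0),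
  (2,5),(1,1),(1,4),(1,4),(2,5)]⟩,⟨1,[(9,0),(9,0)]⟩⟩,⟨true,0,⟨0,[(10,0)]⟩,⟨1,[(1,0),(1,0),(3,0),(1,
  0)]⟩⟩,⟨false,0,⟨5,[(4,1),(1,1),(0,1),(1,0),(7,1),(1,0)]⟩,⟨0,[(15,0),(3,0)]⟩⟩,⟨true,0,⟨0,[(5,0),(0,
  0)]⟩,⟨9,[(1,3),(1,3),(4,0),(2,1),(0,2),(2,9)]⟩⟩,⟨false,0,⟨0,[]⟩,⟨0,[]⟩⟩,⟨false,0,⟨0,[]⟩,⟨0,[]⟩⟩,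
  [.e ⟨false,0,⟨3,[(6,1),(5,0),(2,1),(2,0)]⟩,⟨3,[(8,0),(0,0),(9,1)]⟩⟩ ⟨false,1,⟨1,[(9,0),(0,1),(7,
  0)]⟩,⟨9,[(1,3),(1,3),(4,0),(2,1),(0,2)]⟩⟩,.o ⟨false,1,⟨0,[(5,0)]⟩,⟨0,[(3,0),(14,0)]⟩⟩,.a ⟨true,0,
  ⟨0,[(20,0)]⟩,⟨2,[(1,1),(4,0),(2,0),(0,1),(4,0)]⟩⟩ ⟨true,0,⟨0,[(21,0)]⟩,⟨0,[]⟩⟩ ⟨false,1,⟨1,[(9,0),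
  (0,1),(8,0)]⟩,⟨9,[(1,3),(1,3),(4,0),(2,1),(0,2)]⟩⟩,.o ⟨false,0,⟨0,[(7,0)]⟩,⟨0,[(18,0)]⟩⟩]⟩) (.R
  ⟨1,false,false,true,[1,-1],[0,0,1],[0,0,-1,-1],(⟨0,[(13,0)]⟩,⟨0,[(14,0)]⟩),(⟨0,[(11,0)]⟩,⟨0,[(10,
  0)]⟩),⟨0,[(0,0)]⟩,.k,.k,(.r (-1) ⟨0,[(15,1),(3,0)]⟩ ⟨2,[(4,1),(1,1),(0,1),(1,0),(7,1),(1,0)]⟩),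
  (.x (-1) ⟨7,[(0,3),(7,2),(0,2),(2,1)]⟩ ⟨0,[(14,0)]⟩),(.r (-1) ⟨5,[(1,3),(5,1),(0,0),(1,3),(1,0),
  (2,11),(3,3)]⟩ ⟨1,[(6,1),(0,1),(1,0),(7,1),(1,0)]⟩),.k,⟨false,1,⟨1,[(1,1),(8,1),(1,0),(2,1),(3,
  0)]⟩,⟨4,[(4,0),(1,3),(0,1),(1,2),(2,0),(8,0)]⟩⟩,⟨true,0,⟨0,[(10,0)]⟩,⟨1,[(1,0),(1,0),(3,0),(1,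
  0)]⟩⟩,⟨false,1,⟨3,[(8,0),(0,0),(9,1)]⟩,⟨0,[]⟩⟩,⟨false,0,⟨0,[(5,0),(0,0)]⟩,⟨1,[(1,1),(10,0),(3,1),
  (2,0)]⟩⟩,⟨true,0,⟨0,[(17,0)]⟩,⟨0,[(16,0)]⟩⟩,⟨false,0,⟨0,[(5,0),(0,0),(10,0)]⟩,⟨0,[(1,0),(5,0),(7,
  1),(3,0)]⟩⟩,[.a ⟨true,0,⟨0,[(2,0),(18,0)]⟩,⟨0,[(1,0)]⟩⟩ ⟨false,1,⟨1,[(15,1),(2,0),(0,0)]⟩,⟨5,[(4,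
  1),(1,1),(0,1),(1,0),(7,1),(1,0)]⟩⟩ ⟨true,0,⟨3,[(2,1),(3,1),(2,0),(0,1),(1,0),(2,1)]⟩,⟨0,[(1,0),
  (5,0)]⟩⟩,.a ⟨true,0,⟨0,[(2,0)]⟩,⟨21,[(1,11),(1,3),(2,3),(1,2),(2,5),(3,3),(2,4)]⟩⟩ ⟨true,1,⟨0,
  [(15,0),(3,0)]⟩,⟨0,[(6,0),(0,0)]⟩⟩ ⟨false,1,⟨1,[(9,0),(0,1),(7,0)]⟩,⟨9,[(1,3),(1,3),(4,0),(2,1),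
  (0,2)]⟩⟩,.a ⟨true,0,⟨0,[(20,0)]⟩,⟨2,[(1,1),(4,0),(2,0),(0,1),(4,0)]⟩⟩ ⟨false,1,⟨0,[(15,0),(3,0)]⟩,
  ⟨5,[(4,1),(1,1),(0,1),(1,0),(7,1),(1,0)]⟩⟩ ⟨true,0,⟨3,[(2,1),(3,1),(2,0),(0,1),(1,0),(2,1)]⟩,⟨9,
  [(1,3),(1,3),(4,0),(2,1),(0,2)]⟩⟩,.o ⟨false,0,⟨0,[(7,0)]⟩,⟨0,[(18,0)]⟩⟩]⟩)))))) (.K ⟨0,[0,0,1],0,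
  1,(⟨0,[(6,0)]⟩,⟨0,[(5,0)]⟩),.k,(.r (-1) ⟨1,[(4,0),(5,1),(3,0)]⟩ ⟨2,[(0,0),(0,0),(0,1),(0,0),(1,0),
  (6,1),(1,0)]⟩),(.x 0 ⟨0,[(9,0)]⟩ ⟨3,[(3,0),(0,0),(2,1),(0,3)]⟩),.k,.k,[⟨0,[(6,0)]⟩,⟨0,[(2,0),(2,
  0)]⟩,⟨0,[(0,0)]⟩,⟨7,[(2,3),(0,0),(0,4),(0,7),(1,1),(8,7)]⟩]⟩))

theorem ok : chk (cPU (-1) true) tree base = true := by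
  decide +kernel

theorem closed {p a b c J l q : ℤ} {D dl : ℝ} {Cl : ℤ → ℤ → ℤ → ℤ → ℝ → Prop}
    (W : World p a b c J (-1) l q D dl Cl) (hE : KEmp p a b (-1) (P1 l p) Cl)
    (g : G0 p a b c J D)
    {N R : ℤ} {I : ℝ} (hu : UFac p b D Cl N R I)
    (s0 : (1 : ℝ) ≤ c)
    (s1 : (b : ℝ) + c + 1 ≤ a)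
    (s2 : D < 2 * b)
    (s3 : p - D - c < a) : False := by
  have g1 := g.a2
  have g2 := g.b2
  have g3 := g.pa
  have g4 := g.pb
  have g5 := g.J1
  have g6 := g.JD
  have g7 := g.D2
  have g8 := g.ca
  have g9 := g.ca'
  have t1 := TF.ofU hu
  have i1 := t1.I0
  have i2 := t1.ID
  have i3 := t1.R1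
  have i4 := t1.R2
  refine (val_PU W.toBase (UV.ofU hu)).sound W rfl (Nk := 0) (fun kf hkf hh => ?_) (kok_B hE (by simp [xv]) (by simp [xv]) 0) ?_ ok
  · simp only [cPU, kfB, List.mem_cons, List.not_mem_nil, or_false] at hkf
    subst hkf
    exact absurd hh (by norm_num)
  · simp only [base, List.forall_mem_cons, List.not_mem_nil, false_imp_iff, implies_true,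
      and_true, hld, xv, evg_cons, evg_nil, List.map_cons, List.map_nil, List.cons_append,
      List.nil_append, if_true, if_false, Bool.false_eq_true]
    push_cast
    refine ⟨?_, ?_, ?_, ?_, ?_, ?_, ?_, ?_, ?_, ?_, ?_, ?_, ?_, ?_, ?_, ?_⟩ <;> linarith

end Helper25.KG.P1_1_m1_1_u
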