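import Pool.Agent.Helper25.KG.PL

set_option autoImplicit false
set_option linter.unusedVariables false

namespace Helper25.KG.P1_1_m1_1_v

open Helper11.CT Helper25.KW Helper25.KG

def base : List Con :=
  [(false,[0,1,0,1,-1,0,0,1]),
  (false,[0,0,2,0,0,0,0,-1]),
  (true,[0,0,0,0,1,0,-2]),
  (true,[0,0,0,0,1,0,2]),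
  (false,[0,0,0,0,0,0,0,1,-2]),
  (false,[0,0,0,0,0,0,0,0,1]),
  (false,[0,0,0,0,1,0,0,-2]),
  (false,[0,0,0,0,0,-1,0,1]),
  (true,[0,0,0,0,0,1]),
  (true,[0,1,-1,-1]),
  (true,[0,1,0,-1]),
  (true,[0,0,0,1]),
  (true,[0,0,-2,0,1]),
  (true,[0,-2,0,0,1]),
  (true,[-1,0,1]),
  (true,[-1,1])]

def t0 : Tre :=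
  (.Q [0,-1,-2,0,1,0,1,1,-1] (.p false [0,0,1] [1] (⟨0,[(10,0)]⟩,⟨1,[(9,0),(2,0),(0,0)]⟩) .k 1 (⟨0,
  []⟩,⟨0,[]⟩) .k .k) (.I [0,0,1,1,0,0,-1] (.Q [0,1,0,0,0,0,1,0,-1] (.p false [0,0,1] [] (⟨0,[(12,
  0)]⟩,⟨1,[(11,0),(2,0),(0,0)]⟩) .k 0 (⟨0,[]⟩,⟨0,[]⟩) .k .k) (.K ⟨0,[0,0,1],0,0,(⟨0,[(13,0)]⟩,⟨1,
  [(12,0),(2,0),(0,0)]⟩),.k,(.r (-1) ⟨3,[(6,1),(4,0),(1,1),(3,1),(2,0)]⟩ ⟨0,[(1,0)]⟩),(.r 0 ⟨0,[(4,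
  0)]⟩ ⟨1,[(10,0),(6,1),(3,0)]⟩),.k,.k,[⟨0,[(13,0),(8,0)]⟩,⟨1,[(9,0),(2,0)]⟩,⟨0,[(1,0),(11,0),(3,
  0)]⟩,⟨0,[(0,0)]⟩]⟩) (.Q [0,-1,0,1,0,0,0,1,-1] (.p false [0,0,1] [1] (⟨0,[(13,0)]⟩,⟨1,[(12,0),(2,
  0),(0,0)]⟩) .k 1 (⟨0,[]⟩,⟨0,[]⟩) .k .k) (.R ⟨0,false,false,true,[0,0,1],[1,-1],[0,1,0,-1],(⟨0,
  [(14,0)]⟩,⟨1,[(13,0),(2,0),(0,0)]⟩),(⟨0,[(16,0)]⟩,⟨0,[(17,0)]⟩),⟨0,[(4,0)]⟩,.k,.k,(.r (-1) ⟨3,[(7,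
  1),(4,0),(1,1),(3,1),(2,0)]⟩ ⟨0,[(2,0)]⟩),(.r 0 ⟨0,[(5,0)]⟩ ⟨1,[(11,0),(6,1),(3,0)]⟩),.k,.k,⟨true,
  0,⟨0,[(23,0)]⟩,⟨0,[]⟩⟩,⟨false,1,⟨3,[(11,0),(0,0),(1,3),(0,1)]⟩,⟨0,[(0,0),(17,0)]⟩⟩,⟨false,0,⟨1,
  [(1,1),(8,0),(2,0),(4,1)]⟩,⟨1,[(12,0),(7,1),(1,0)]⟩⟩,⟨true,0,⟨1,[(1,1),(7,0),(0,0),(4,0),(2,1),(0,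
  0)]⟩,⟨2,[(3,0),(1,1),(3,0),(3,0)]⟩⟩,⟨false,0,⟨0,[]⟩,⟨0,[]⟩⟩,⟨false,0,⟨0,[]⟩,⟨0,[]⟩⟩,[.e ⟨false,0,
  ⟨0,[(18,0)]⟩,⟨3,[(2,1),(9,0),(7,1),(0,0),(0,1)]⟩⟩ ⟨false,1,⟨1,[(14,1),(0,0),(3,1),(1,0)]⟩,⟨0,[(0,
  0)]⟩⟩,.o ⟨false,1,⟨1,[(15,0),(3,1),(2,0)]⟩,⟨0,[(20,0)]⟩⟩,.a ⟨true,0,⟨1,[(13,0),(2,0),(0,0)]⟩,⟨0,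
  [(14,0)]⟩⟩ ⟨true,0,⟨0,[(19,0)]⟩,⟨0,[(20,0)]⟩⟩ ⟨false,1,⟨1,[(14,1),(0,0),(3,1),(2,0)]⟩,⟨0,[(0,
  0)]⟩⟩,.o ⟨false,0,⟨1,[(10,0),(2,0)]⟩,⟨1,[(14,1),(0,0),(5,0)]⟩⟩]⟩) (.Q [0,0,1,0,0,0,0,-1,1] (.p
  true [0,0,1] [1] (⟨0,[(14,0)]⟩,⟨1,[(13,0),(2,0),(0,0)]⟩) .k 1 (⟨0,[]⟩,⟨0,[]⟩) .k .k) (.K ⟨0,[1,0,
  -1],0,0,(⟨1,[(14,0),(2,0),(0,0)]⟩,⟨0,[(15,0)]⟩),.k,(.r (-1) ⟨1,[(12,0),(6,1),(3,0)]⟩ ⟨0,[(6,0)]⟩),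
  (.r 0 ⟨0,[(3,0)]⟩ ⟨5,[(1,1),(2,1),(3,1),(4,0),(1,1),(4,1),(1,0)]⟩),.k,.k,[⟨1,[(14,0),(2,0),(0,0),
  (5,1)]⟩,⟨0,[(0,0)]⟩,⟨1,[(10,0),(2,0),(0,0),(5,0)]⟩,⟨1,[(1,0),(0,0),(0,0),(6,0),(5,0),(2,0)]⟩]⟩)
  (.R ⟨0,false,false,true,[0,0,1],[1,-1],[0,1,0,-1],(⟨0,[(15,0)]⟩,⟨1,[(14,0),(2,0),(0,0)]⟩),(⟨0,
  [(17,0)]⟩,⟨0,[(18,0)]⟩),⟨0,[(5,0)]⟩,.k,.k,(.r (-1) ⟨5,[(1,1),(2,1),(3,1),(4,0),(1,1),(4,1),(1,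
  0)]⟩ ⟨0,[(3,0)]⟩),(.r 0 ⟨0,[(6,0)]⟩ ⟨1,[(12,0),(6,1),(3,0)]⟩),.k,.k,⟨true,0,⟨0,[(24,0)]⟩,⟨0,[]⟩⟩,
  ⟨false,1,⟨3,[(12,0),(0,0),(1,3),(0,1)]⟩,⟨0,[(0,0)]⟩⟩,⟨false,0,⟨0,[(1,0),(0,0),(11,0)]⟩,⟨1,[(13,0),
  (7,1),(1,0)]⟩⟩,⟨true,0,⟨3,[(1,4),(0,2),(0,0),(6,0),(3,1),(1,0),(2,0)]⟩,⟨2,[(4,0),(1,1),(3,0),(3,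
  0)]⟩⟩,⟨false,0,⟨0,[]⟩,⟨0,[]⟩⟩,⟨false,0,⟨0,[]⟩,⟨0,[]⟩⟩,[.a ⟨true,0,⟨0,[(20,0)]⟩,⟨0,[(10,0),(12,
  0)]⟩⟩ ⟨false,0,⟨0,[(19,0)]⟩,⟨3,[(3,1),(9,0),(7,1),(0,0),(0,1)]⟩⟩ ⟨true,0,⟨0,[(1,0)]⟩,⟨1,[(10,1),
  (0,0),(2,0),(8,1)]⟩⟩,.o ⟨false,1,⟨3,[(1,1),(6,1),(3,0),(3,0)]⟩,⟨0,[(21,0)]⟩⟩,.e ⟨true,0,⟨0,[(20,
  0)]⟩,⟨0,[(21,0)]⟩⟩ ⟨true,0,⟨0,[(1,0)]⟩,⟨5,[(3,2),(0,1),(1,0),(3,1),(3,1)]⟩⟩,.o ⟨false,0,⟨1,[(11,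
  0),(2,0)]⟩,⟨1,[(15,1),(0,0),(5,0)]⟩⟩]⟩)))) (.I [0,0,1,0,0,-1] (.K ⟨0,[0,0,1],0,0,(⟨0,[(13,0)]⟩,⟨1,
  [(12,0),(2,0),(0,0)]⟩),.k,(.x 0 ⟨0,[(0,0)]⟩ ⟨3,[(10,0),(0,0),(4,3),(3,1)]⟩),(.r 0 ⟨0,[(4,0)]⟩ ⟨0,
  [(1,0),(8,0)]⟩),.k,.k,[⟨0,[(13,0),(8,0)]⟩,⟨1,[(9,0),(2,0)]⟩,⟨0,[(5,0),(7,0),(3,0)]⟩,⟨3,[(1,1),(6,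
  2),(0,0),(1,0),(0,1),(1,1),(3,0)]⟩]⟩) (.I [0,0,-1,0,0,1] (.K ⟨0,[0,0,1],0,0,(⟨0,[(14,0)]⟩,⟨1,[(13,
  0),(2,0),(0,0)]⟩),.k,(.x (-1) ⟨7,[(10,3),(0,2),(0,2),(2,1),(0,7)]⟩ ⟨0,[(0,0)]⟩),(.r 0 ⟨0,[(5,0)]⟩
  ⟨0,[(2,0),(8,0)]⟩),.k,.k,[⟨0,[(14,0),(8,0)]⟩,⟨1,[(10,0),(2,0)]⟩,⟨0,[(6,0),(7,0),(3,0)]⟩,⟨3,[(2,1),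
  (6,2),(0,0),(1,0),(0,1),(1,1),(3,0)]⟩]⟩) (.Q [0,0,0,0,0,-1,0,1,-1] (.ed true [0,1,1] .k) (.S ⟨1,0,
  [0,0,0,0,0,0,-1],[1,0,-1],[0,1,0,0,0,0,-1],(⟨1,[(14,0),(2,0),(0,0)]⟩,⟨0,[(15,0)]⟩),⟨0,[(0,0)]⟩,.k,
  (.r (-1) ⟨0,[(3,0),(8,0)]⟩ ⟨0,[(6,0)]⟩),⟨true,0,⟨0,[(25,0)]⟩,⟨0,[]⟩⟩,⟨false,1,⟨3,[(12,0),(0,0),(9,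
  1)]⟩,⟨0,[]⟩⟩,⟨false,0,⟨0,[(21,0)]⟩,⟨0,[(20,0),(2,0)]⟩⟩,⟨true,0,⟨0,[(21,0)]⟩,⟨0,[(20,0)]⟩⟩,[.o
  ⟨false,1,⟨1,[(12,0),(2,1),(0,0)]⟩,⟨1,[(3,1),(7,0),(2,0),(6,1)]⟩⟩,.a ⟨true,1,⟨1,[(12,0),(2,1),(7,
  0)]⟩,⟨1,[(3,1),(6,1),(0,0),(2,0)]⟩⟩ ⟨false,1,⟨1,[(12,0),(9,0)]⟩,⟨1,[(3,0),(2,0)]⟩⟩ ⟨true,1,⟨1,
  [(12,0),(10,0)]⟩,⟨0,[(3,0),(6,0),(0,0)]⟩⟩,.a ⟨true,0,⟨0,[(15,0)]⟩,⟨1,[(14,0),(2,0),(0,0)]⟩⟩ ⟨true,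
  0,⟨0,[(7,0),(11,0)]⟩,⟨1,[(3,0),(2,0)]⟩⟩ ⟨false,1,⟨1,[(12,0),(10,0)]⟩,⟨1,[(3,0),(2,0)]⟩⟩,.a ⟨true,
  0,⟨0,[(15,0),(8,0)]⟩,⟨0,[(0,0),(1,0)]⟩⟩ ⟨false,1,⟨1,[(12,0),(9,0)]⟩,⟨0,[(3,0),(6,0),(0,0),(11,
  0)]⟩⟩ ⟨true,1,⟨1,[(12,0),(9,0)]⟩,⟨0,[(3,0),(6,0),(0,0)]⟩⟩]⟩) (.I [1,1,-1,0,-1,0,2] (.K ⟨0,[-1,1,
  1],0,(-1),(⟨0,[(1,0)]⟩,⟨1,[(15,0),(2,2),(0,0)]⟩),(.r 0 ⟨0,[(7,0)]⟩ ⟨0,[(4,0),(8,0)]⟩),.k,(.r 1 ⟨0,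
  [(0,0),(7,0),(2,0),(0,0),(11,0)]⟩ ⟨1,[(4,1),(8,1),(7,1),(1,0),(0,0)]⟩),.k,.k,[⟨0,[(12,0),(3,0)]⟩,
  ⟨1,[(15,0),(2,0),(0,0)]⟩,⟨1,[(13,0),(2,1),(0,0),(3,1)]⟩,⟨9,[(0,3),(6,1),(3,5),(0,0),(2,4),(6,
  1)]⟩]⟩) (.Q [0,1,0,-1,1,0,-2,-2,2] (.p true [0,0,1] [2,-1,-1] (⟨0,[(16,0)]⟩,⟨1,[(15,0),(2,0),(0,
  0)]⟩) .k 2 (⟨1,[(15,0),(2,2),(0,0)]⟩,⟨0,[(1,0)]⟩) (.r (-1) ⟨0,[(4,0),(8,0)]⟩ ⟨0,[(7,0)]⟩) .k) (.Q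
  [0,0,0,-1,1,0,-1,-2,2] (.p true [0,0,1] [2,-1,-1] (⟨0,[(17,0)]⟩,⟨1,[(16,0),(2,0),(0,0)]⟩) .k 2
  (⟨1,[(16,0),(2,2),(0,0)]⟩,⟨0,[(2,0)]⟩) (.r (-1) ⟨0,[(5,0),(8,0)]⟩ ⟨0,[(8,0)]⟩) .k) (.R ⟨0,false,
  false,false,[1,0,-1],[0,0,1],[],(⟨1,[(17,0),(2,0),(0,0)]⟩,⟨0,[(18,0)]⟩),(⟨0,[(18,0)]⟩,⟨1,[(17,0),
  (2,0),(0,0)]⟩),⟨0,[(3,0)]⟩,.k,.k,(.r (-1) ⟨0,[(6,0),(8,0)]⟩ ⟨0,[(9,0)]⟩),.k,.k,.k,⟨false,1,⟨1,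
  [(15,0),(9,0)]⟩,⟨1,[(6,0),(2,0)]⟩⟩,⟨true,0,⟨0,[(17,0)]⟩,⟨0,[(3,0),(0,0),(13,0)]⟩⟩,⟨true,0,⟨1,[(6,
  0),(2,0)]⟩,⟨1,[(1,0),(11,0),(3,0)]⟩⟩,⟨false,0,⟨0,[(6,1),(6,0),(0,0),(2,0),(6,0),(1,0)]⟩,⟨0,[(1,0),
  (11,0),(12,0)]⟩⟩,⟨false,0,⟨0,[]⟩,⟨0,[]⟩⟩,⟨false,0,⟨0,[]⟩,⟨0,[]⟩⟩,[.o ⟨false,0,⟨1,[(6,1),(7,0),(2,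
  0),(6,1)]⟩,⟨7,[(1,3),(13,0),(0,0),(7,3),(1,1)]⟩⟩,.e ⟨false,1,⟨1,[(25,0),(0,0)]⟩,⟨0,[(28,0)]⟩⟩
  ⟨false,1,⟨1,[(7,0),(4,0),(4,0)]⟩,⟨0,[(0,0),(12,0)]⟩⟩,.a ⟨true,0,⟨0,[(18,0)]⟩,⟨1,[(17,0),(2,0),(0,
  0)]⟩⟩ ⟨false,1,⟨3,[(15,0),(0,0),(9,1)]⟩,⟨0,[]⟩⟩ ⟨true,0,⟨1,[(6,0),(2,0),(7,1)]⟩,⟨0,[(0,0),(12,
  0)]⟩⟩,.o ⟨false,0,⟨0,[(3,0),(0,0)]⟩,⟨7,[(15,0),(0,0),(0,3),(1,1),(5,3)]⟩⟩]⟩) (.K ⟨0,[-1,1,1],0,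
  (-1),(⟨0,[(3,0)]⟩,⟨6,[(0,2),(1,1),(4,0),(12,6),(2,2)]⟩),(.r 0 ⟨0,[(9,0)]⟩ ⟨0,[(6,0),(8,0)]⟩),.k,
  (.r 1 ⟨0,[(0,0),(2,1),(0,1),(19,0)]⟩ ⟨6,[(1,2),(0,4),(3,2),(0,5),(14,3),(0,3)]⟩),.k,.k,[⟨0,[(14,
  0),(3,0)]⟩,⟨6,[(0,2),(1,1),(4,0),(15,2)]⟩,⟨3,[(1,1),(13,0),(0,0),(6,1)]⟩,⟨15,[(0,7),(5,5),(6,14),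
  (0,2),(1,0),(2,5),(3,0)]⟩]⟩)) (.K ⟨0,[-1,1,1],0,(-1),(⟨0,[(2,0)]⟩,⟨13,[(0,2),(0,3),(4,1),(5,2),(3,
  2),(2,13),(2,5)]⟩),(.r 0 ⟨0,[(8,0)]⟩ ⟨0,[(5,0),(8,0)]⟩),.k,(.r 1 ⟨1,[(0,0),(1,1),(0,1),(8,0),(0,
  0),(9,1)]⟩ ⟨1,[(5,1),(8,1),(7,1),(1,0),(0,0)]⟩),.k,.k,[⟨0,[(13,0),(3,0)]⟩,⟨13,[(0,2),(0,3),(4,1),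
  (5,2),(3,2),(5,5)]⟩,⟨1,[(14,0),(2,1),(0,0),(3,1)]⟩,⟨1,[(0,0),(11,1),(5,0),(3,0)]⟩]⟩))))))) (.Q [0,
  1,0,0,0,0,1,0,-1] (.p false [0,0,1] [] (⟨0,[(11,0)]⟩,⟨1,[(10,0),(2,0),(0,0)]⟩) .k 0 (⟨0,[]⟩,⟨0,
  []⟩) .k .k) (.K ⟨0,[0,0,1],0,0,(⟨0,[(12,0)]⟩,⟨1,[(11,0),(2,0),(0,0)]⟩),.k,(.r (-1) ⟨3,[(5,1),(4,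
  0),(1,1),(3,1),(2,0)]⟩ ⟨1,[(1,2),(3,0),(1,1),(3,0),(4,3),(1,4),(1,3)]⟩),(.r 0 ⟨0,[(3,0)]⟩ ⟨1,[(9,
  0),(6,1),(3,0)]⟩),.k,.k,[⟨0,[(12,0),(8,0)]⟩,⟨1,[(8,0),(2,0)]⟩,⟨7,[(1,1),(5,1),(1,2),(2,5),(3,1),
  (2,0),(2,1)]⟩,⟨0,[(0,0)]⟩]⟩) (.Q [0,0,-1,0,0,0,0,1,-1] (.p false [0,0,1] [1] (⟨0,[(12,0)]⟩,⟨1,
  [(11,0),(2,0),(0,0)]⟩) .k 1 (⟨0,[]⟩,⟨0,[]⟩) .k .k) (.Q [0,0,0,0,0,2,0,-1] (.pp true [-1,1]) (.R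
  ⟨0,false,false,false,[1,-1],[0,0,1],[0,1],(⟨0,[(16,0)]⟩,⟨0,[(17,0)]⟩),(⟨0,[(14,0)]⟩,⟨1,[(13,0),(2,
  0),(0,0)]⟩),⟨0,[(0,0)]⟩,.k,.k,(.r (-1) ⟨2,[(2,1),(4,1),(10,3),(2,0)]⟩ ⟨0,[(5,0),(0,0)]⟩),(.r (-1)
  ⟨5,[(2,1),(4,1),(3,2),(6,3),(2,0)]⟩ ⟨0,[(5,0)]⟩),.k,.k,⟨false,0,⟨8,[(1,4),(0,3),(0,0),(5,5),(1,1),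
  (3,4),(2,5)]⟩,⟨1,[(12,0),(9,0)]⟩⟩,⟨true,0,⟨0,[(1,0)]⟩,⟨0,[(10,0),(3,0)]⟩⟩,⟨false,0,⟨1,[(5,0),(0,
  0)]⟩,⟨2,[(2,1),(4,1),(10,0),(2,0)]⟩⟩,⟨true,0,⟨0,[(8,0),(0,0)]⟩,⟨9,[(2,3),(0,3),(7,0),(2,1),(0,2),
  (2,7),(0,1)]⟩⟩,⟨false,0,⟨0,[]⟩,⟨0,[]⟩⟩,⟨false,0,⟨0,[]⟩,⟨0,[]⟩⟩,[.e ⟨false,0,⟨3,[(9,1),(5,0),(2,1),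
  (2,0)]⟩,⟨3,[(11,0),(0,0),(9,1)]⟩⟩ ⟨false,1,⟨1,[(1,1),(10,0),(8,0)]⟩,⟨7,[(2,2),(0,2),(6,0),(0,0),
  (2,1),(0,1)]⟩⟩,.o ⟨false,1,⟨0,[(8,0)]⟩,⟨0,[(3,0),(17,0)]⟩⟩,.a ⟨true,0,⟨0,[(23,0)]⟩,⟨0,[(1,0),(12,
  0)]⟩⟩ ⟨true,0,⟨0,[(24,0)]⟩,⟨0,[]⟩⟩ ⟨false,1,⟨1,[(1,1),(10,0),(9,0)]⟩,⟨7,[(2,2),(0,2),(6,0),(0,0),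
  (2,1),(0,1)]⟩⟩,.o ⟨false,0,⟨0,[(10,0)]⟩,⟨0,[(21,0)]⟩⟩]⟩) (.R ⟨1,false,false,true,[1,0,-1],[1,-1],
  [1,1,0,-1,0,0,-1],(⟨1,[(13,0),(2,0),(0,0)]⟩,⟨0,[(14,0)]⟩),(⟨0,[(16,0)]⟩,⟨0,[(17,0)]⟩),⟨1,[(0,0),
  (12,0)]⟩,.k,.k,(.r (-1) ⟨5,[(2,1),(4,1),(3,2),(6,3),(2,0)]⟩ ⟨0,[(5,0)]⟩),(.r 0 ⟨0,[(1,0),(0,1),(0,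
  1),(3,2),(1,0),(8,1),(1,4)]⟩ ⟨3,[(7,1),(4,0),(1,1),(3,1),(2,0)]⟩),.k,.k,⟨false,0,⟨5,[(1,3),(0,1),
  (0,1),(7,0),(3,0)]⟩,⟨1,[(12,0),(8,0)]⟩⟩,⟨true,0,⟨1,[(10,0),(2,0)]⟩,⟨0,[(14,0)]⟩⟩,⟨true,0,⟨0,[(19,
  0)]⟩,⟨0,[(20,0)]⟩⟩,⟨false,1,⟨15,[(7,7),(3,0),(0,4),(0,3),(1,1),(3,7)]⟩,⟨0,[(2,0),(17,0)]⟩⟩,⟨false,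
  0,⟨0,[]⟩,⟨3,[(11,0),(0,0),(9,1)]⟩⟩,⟨false,1,⟨7,[(11,0),(0,4),(0,3),(1,1)]⟩,⟨0,[(2,0)]⟩⟩,[.a ⟨true,
  0,⟨0,[(19,0)]⟩,⟨0,[(9,0),(12,0)]⟩⟩ ⟨false,0,⟨5,[(1,3),(0,1),(0,1),(7,0),(3,0),(2,5)]⟩,⟨1,[(12,0),
  (7,1),(1,0)]⟩⟩ ⟨true,0,⟨1,[(10,0),(2,0),(4,1)]⟩,⟨0,[(2,0),(2,0)]⟩⟩,.o ⟨false,1,⟨1,[(15,0),(3,1),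
  (2,0)]⟩,⟨0,[(20,0)]⟩⟩,.a ⟨true,0,⟨0,[(14,0)]⟩,⟨1,[(13,0),(2,0),(0,0)]⟩⟩ ⟨false,0,⟨21,[(2,17),(0,
  7),(3,5),(3,0),(1,9),(1,0),(2,15)]⟩,⟨1,[(12,0),(7,1),(1,0)]⟩⟩ ⟨true,0,⟨1,[(10,0),(2,0),(4,1)]⟩,⟨0,
  [(14,0),(5,0)]⟩⟩,.a ⟨true,0,⟨0,[(14,0),(8,0)]⟩,⟨0,[(1,0)]⟩⟩ ⟨true,0,⟨5,[(1,3),(0,1),(0,1),(7,0),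
  (3,0),(2,5)]⟩,⟨0,[(5,0)]⟩⟩ ⟨false,1,⟨17,[(2,1),(4,7),(3,2),(1,5),(1,2),(2,9),(2,3)]⟩,⟨0,[(2,0),(2,
  0)]⟩⟩]⟩)) (.K ⟨0,[1,0,-1],0,0,(⟨1,[(12,0),(2,0),(0,0)]⟩,⟨0,[(13,0)]⟩),.k,(.r (-1) ⟨5,[(1,1),(4,1),
  (3,2),(6,3),(2,0)]⟩ ⟨0,[(4,0)]⟩),(.r 0 ⟨1,[(1,3),(0,2),(3,4),(1,1),(3,0),(4,3),(1,8)]⟩ ⟨3,[(6,1),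
  (4,0),(1,1),(3,1),(2,0)]⟩),.k,.k,[⟨1,[(12,0),(2,0),(0,0),(5,1)]⟩,⟨0,[(0,0)]⟩,⟨1,[(8,0),(2,0),(0,
  0),(5,0)]⟩,⟨0,[(2,0),(17,0)]⟩]⟩))))

def t1 : Tre :=
  (.Q [0,-1,0,0,1,0,1,0,-1] (.p false [0,0,1] [] (⟨0,[(5,0)]⟩,⟨1,[(4,0),(2,0),(0,0)]⟩) .k 0 (⟨0,[]⟩,
  ⟨0,[]⟩) .k .k) (.Q [0,-1,0,-1,1,0,1,0,-1] (.p false [0,0,1] [] (⟨0,[(6,0)]⟩,⟨1,[(5,0),(2,0),(0,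
  0)]⟩) .k 0 (⟨0,[]⟩,⟨0,[]⟩) .k .k) (.I [0,0,-1,-1,0,0,1] (.Q [0,1,0,0,0,0,-1,0,1] (.p true [0,0,1]
  [] (⟨0,[(8,0)]⟩,⟨1,[(7,0),(2,0),(0,0)]⟩) .k 0 (⟨0,[]⟩,⟨0,[]⟩) .k .k) (.K ⟨0,[0,0,1],0,0,(⟨0,[(9,
  0)]⟩,⟨1,[(8,0),(2,0),(0,0)]⟩),.k,(.r 0 ⟨0,[(1,0)]⟩ ⟨7,[(4,3),(0,3),(0,6),(0,2),(7,3),(1,1)]⟩),(.r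
  0 ⟨2,[(1,0),(2,1),(0,1),(1,0),(7,1),(1,0)]⟩ ⟨1,[(6,0),(6,1),(3,0)]⟩),.k,.k,[⟨0,[(9,0),(8,0)]⟩,⟨1,
  [(5,0),(2,0)]⟩,⟨0,[(0,0)]⟩,⟨3,[(1,1),(2,2),(0,0),(1,0),(0,1),(1,1),(3,0)]⟩]⟩) (.R ⟨2,true,false,
  false,[0,1],[0,0,1],[1,0,1],(⟨0,[]⟩,⟨0,[]⟩),(⟨0,[(9,0)]⟩,⟨1,[(8,0),(2,0),(0,0)]⟩),⟨0,[]⟩,.k,.k,.k,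
  (.r (-1) ⟨7,[(4,3),(0,3),(0,6),(0,2),(7,3),(1,1)]⟩ ⟨0,[(1,0)]⟩),.k,.k,⟨false,1,⟨3,[(6,2),(0,0)]⟩,
  ⟨0,[(1,0),(13,0)]⟩⟩,⟨true,0,⟨1,[(5,0),(2,0)]⟩,⟨0,[(9,0)]⟩⟩,⟨false,1,⟨0,[(14,0),(2,0)]⟩,⟨0,[(15,
  0)]⟩⟩,⟨true,0,⟨0,[(0,0),(13,0)]⟩,⟨1,[(4,1),(1,0),(2,1),(0,0)]⟩⟩,⟨true,0,⟨0,[]⟩,⟨0,[(19,0)]⟩⟩,
  ⟨false,0,⟨0,[(0,0)]⟩,⟨3,[(6,2),(0,0),(1,3)]⟩⟩,[]⟩)) (.I [0,0,1,1,0,0,1] (.Q [0,0,0,0,0,-1,0,0,1]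
  (.ed false [1,-1,1] .k) (.I [1,0,1,0,0,0,1] (.Q [0,1,0,0,0,0,1,0,-1] (.p false [0,0,1] [] (⟨0,
  [(11,0)]⟩,⟨1,[(10,0),(2,0),(0,0)]⟩) .k 0 (⟨0,[]⟩,⟨0,[]⟩) .k .k) (.K ⟨0,[0,0,1],0,0,(⟨0,[(12,0)]⟩,
  ⟨1,[(11,0),(2,0),(0,0)]⟩),.k,(.x 0 ⟨1,[(2,1),(5,0),(2,0)]⟩ ⟨3,[(9,0),(0,0),(4,3),(3,1)]⟩),(.r 0
  ⟨0,[(3,0)]⟩ ⟨1,[(9,0),(6,1),(3,0)]⟩),.k,.k,[⟨0,[(12,0),(8,0)]⟩,⟨1,[(8,0),(2,0)]⟩,⟨0,[(4,0),(7,0),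
  (3,0)]⟩,⟨0,[(0,0)]⟩]⟩) (.S ⟨1,1,[],[0,0,1],[0,1,0,0,0,0,1],(⟨0,[(12,0)]⟩,⟨1,[(11,0),(2,0),(0,
  0)]⟩),⟨0,[(2,0)]⟩,.k,(.x 0 ⟨1,[(2,1),(5,0),(2,0)]⟩ ⟨3,[(9,0),(0,0),(4,3),(3,1)]⟩),⟨true,0,⟨0,[(22,
  0)]⟩,⟨0,[]⟩⟩,⟨false,1,⟨3,[(0,1),(8,0),(2,1),(0,1),(6,0)]⟩,⟨0,[(5,0),(1,0)]⟩⟩,⟨false,0,⟨0,[(18,
  0)]⟩,⟨0,[(17,0),(2,0)]⟩⟩,⟨true,0,⟨0,[(0,0),(6,0),(5,0)]⟩,⟨0,[(5,0),(1,0),(9,0)]⟩⟩,[.fo,.o ⟨false,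
  1,⟨1,[(13,0),(6,0)]⟩,⟨0,[(22,0)]⟩⟩,.a ⟨true,0,⟨1,[(11,0),(2,0),(0,0)]⟩,⟨0,[(12,0)]⟩⟩ ⟨true,0,⟨3,
  [(1,1),(5,1),(2,0),(2,0),(2,1)]⟩,⟨7,[(0,5),(3,1),(2,1),(0,0),(2,2),(1,1),(2,3)]⟩⟩ ⟨false,1,⟨1,
  [(12,1),(0,0),(6,0)]⟩,⟨1,[(11,0),(2,0),(0,0)]⟩⟩,.o ⟨false,0,⟨1,[(8,0),(2,0)]⟩,⟨1,[(12,1),(0,0),(5,
  0)]⟩⟩]⟩)) (.S ⟨1,0,[0,1,0,0,0,0,-1],[1,0,-1],[0,0,1],(⟨1,[(10,0),(2,0),(0,0)]⟩,⟨0,[(11,0)]⟩),⟨0,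
  [(1,0),(8,0)]⟩,.k,(.r (-1) ⟨1,[(8,0),(6,1),(3,0)]⟩ ⟨0,[(2,0)]⟩),⟨false,1,⟨1,[(9,0),(9,0),(0,1)]⟩,
  ⟨0,[(0,0)]⟩⟩,⟨true,0,⟨0,[(21,0)]⟩,⟨0,[]⟩⟩,⟨true,0,⟨0,[(2,0)]⟩,⟨0,[(0,0),(15,0)]⟩⟩,⟨false,0,⟨0,
  [(17,0)]⟩,⟨0,[(16,0),(2,0)]⟩⟩,[.o ⟨false,0,⟨1,[(0,1),(5,0),(0,0),(3,1),(0,0),(3,0)]⟩,⟨0,[(5,0)]⟩⟩,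
  .e ⟨false,1,⟨3,[(8,0),(0,0),(9,1)]⟩,⟨3,[(6,1),(5,0),(2,1),(2,0)]⟩⟩ ⟨false,0,⟨0,[(0,0)]⟩,⟨3,[(8,0),
  (0,2)]⟩⟩,.a ⟨true,0,⟨0,[(11,0)]⟩,⟨1,[(10,0),(2,0),(0,0)]⟩⟩ ⟨true,0,⟨0,[(20,0)]⟩,⟨3,[(6,1),(5,0),
  (2,1),(2,0)]⟩⟩ ⟨false,0,⟨0,[(0,0),(19,0)]⟩,⟨1,[(9,0),(9,0)]⟩⟩,.e ⟨false,1,⟨3,[(8,0),(0,0),(9,1)]⟩,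
  ⟨0,[]⟩⟩ ⟨false,0,⟨0,[(0,0)]⟩,⟨1,[(9,0),(9,0),(0,1)]⟩⟩]⟩)) t0) (.Q [0,0,0,0,0,2,0,-1] (.pp true
  [-1,1]) (.R ⟨0,false,false,true,[1,-1],[1,0,-1],[1,1,0,0,0,0,-1],(⟨0,[(12,0)]⟩,⟨0,[(13,0)]⟩),(⟨1,
  [(9,0),(2,0),(0,0)]⟩,⟨0,[(10,0)]⟩),⟨0,[(0,0)]⟩,.k,.k,(.r (-1) ⟨2,[(1,1),(1,1),(6,1),(3,1),(2,0)]⟩
  ⟨2,[(2,1),(2,1),(0,1),(1,0),(7,1),(1,0)]⟩),(.r (-1) ⟨3,[(3,1),(4,0),(1,1),(3,1),(2,0)]⟩ ⟨0,[(1,0),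
  (3,1),(0,1),(7,1),(1,1),(1,1)]⟩),.k,.k,⟨true,0,⟨0,[]⟩,⟨0,[(19,0)]⟩⟩,⟨false,1,⟨0,[(10,0),(6,0)]⟩,
  ⟨1,[(6,0),(2,0)]⟩⟩,⟨true,(-1),⟨0,[(1,0),(3,0),(0,0),(9,0)]⟩,⟨3,[(3,1),(4,0),(1,1),(3,1),(2,0)]⟩⟩,
  ⟨false,0,⟨1,[(1,0),(0,0),(7,1),(5,1)]⟩,⟨0,[(3,0)]⟩⟩,⟨false,0,⟨0,[]⟩,⟨0,[]⟩⟩,⟨false,0,⟨0,[]⟩,⟨0,
  []⟩⟩,[.o ⟨false,0,⟨9,[(1,7),(3,7),(0,3),(0,0),(2,9),(0,6),(8,1)]⟩,⟨0,[(4,0)]⟩⟩,.a ⟨true,0,⟨1,[(1,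
  0),(0,0),(7,1)]⟩,⟨0,[(3,0),(1,0)]⟩⟩ ⟨false,0,⟨0,[(1,0),(14,0)]⟩,⟨3,[(7,0),(0,2)]⟩⟩ ⟨true,0,⟨0,[(1,
  0),(8,0),(5,0)]⟩,⟨0,[(3,0),(1,0),(0,0)]⟩⟩,.e ⟨false,0,⟨1,[(1,0),(0,0)]⟩,⟨1,[(8,0),(9,0)]⟩⟩ ⟨false,
  0,⟨0,[(1,0),(8,0),(5,0)]⟩,⟨1,[(6,0),(1,0),(0,0),(8,0)]⟩⟩,.o ⟨false,0,⟨0,[(6,0)]⟩,⟨0,[(17,0)]⟩⟩]⟩)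
  (.Q [0,1,0,0,0,0,1,0,-1] (.p false [0,0,1] [] (⟨0,[(10,0)]⟩,⟨1,[(9,0),(2,0),(0,0)]⟩) .k 0 (⟨0,[]⟩,
  ⟨0,[]⟩) .k .k) (.K ⟨0,[0,0,1],0,0,(⟨0,[(11,0)]⟩,⟨1,[(10,0),(2,0),(0,0)]⟩),.k,(.r (-1) ⟨3,[(4,1),
  (4,0),(1,1),(3,1),(2,0)]⟩ ⟨0,[(2,0),(3,1),(0,1),(7,1),(1,1),(1,1)]⟩),(.x (-1) ⟨3,[(8,0),(0,0),(4,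
  3),(3,1)]⟩ ⟨1,[(1,0),(5,0)]⟩),.k,.k,[⟨0,[(11,0),(8,0)]⟩,⟨1,[(7,0),(2,0)]⟩,⟨9,[(2,3),(3,3),(0,1),
  (0,2),(2,9),(0,0),(8,5)]⟩,⟨0,[(0,0)]⟩]⟩) (.R ⟨1,false,false,true,[1,-1],[1,0,-1],[1,1,0,0,0,0,-1],
  (⟨0,[(13,0)]⟩,⟨0,[(14,0)]⟩),(⟨1,[(10,0),(2,0),(0,0)]⟩,⟨0,[(11,0)]⟩),⟨0,[(1,0)]⟩,.k,.k,(.r (-1) ⟨2,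
  [(2,1),(1,1),(6,1),(3,1),(2,0)]⟩ ⟨2,[(3,1),(2,1),(0,1),(1,0),(7,1),(1,0)]⟩),(.r (-1) ⟨3,[(4,1),(4,
  0),(1,1),(3,1),(2,0)]⟩ ⟨0,[(0,1),(1,0),(1,1),(1,1),(0,1),(7,1),(1,3)]⟩),(.x 0 ⟨0,[(1,0),(5,0)]⟩
  ⟨0,[(14,1),(3,0)]⟩),.k,⟨true,0,⟨0,[]⟩,⟨0,[(20,0)]⟩⟩,⟨false,1,⟨0,[(11,0),(6,0)]⟩,⟨1,[(7,0),(2,
  0)]⟩⟩,⟨true,(-1),⟨3,[(0,1),(1,1),(3,5),(0,2),(2,0),(1,1)]⟩,⟨3,[(4,1),(4,0),(1,1),(3,1),(2,0)]⟩⟩,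
  ⟨false,0,⟨3,[(0,1),(5,1),(1,0),(2,1),(0,0),(4,1)]⟩,⟨0,[(4,0)]⟩⟩,⟨true,(-1),⟨1,[(0,1),(5,3),(0,0),
  (2,0),(1,1)]⟩,⟨0,[(4,0),(6,0),(3,0)]⟩⟩,⟨true,(-1),⟨0,[(0,0),(5,1),(5,0)]⟩,⟨0,[(4,0),(11,0)]⟩⟩,[.o
  ⟨false,0,⟨9,[(2,7),(3,7),(0,3),(0,0),(2,9),(0,6),(8,1)]⟩,⟨0,[(5,0)]⟩⟩,.a ⟨true,0,⟨13,[(0,3),(1,3),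
  (3,3),(0,1),(0,2),(2,9),(0,0)]⟩,⟨0,[(4,0),(1,0)]⟩⟩ ⟨false,0,⟨0,[(2,0),(14,0)]⟩,⟨3,[(8,0),(0,2)]⟩⟩
  ⟨true,0,⟨3,[(0,1),(1,1),(3,1),(4,1),(0,0),(5,0)]⟩,⟨0,[(4,0),(1,0),(0,0)]⟩⟩,.e ⟨false,0,⟨1,[(2,0),
  (0,0)]⟩,⟨1,[(9,0),(9,0)]⟩⟩ ⟨false,0,⟨3,[(0,1),(1,1),(3,1),(4,1),(0,0),(5,0)]⟩,⟨1,[(7,0),(1,0),(0,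
  0),(8,0)]⟩⟩,.o ⟨false,0,⟨0,[(7,0)]⟩,⟨0,[(18,0)]⟩⟩]⟩))))) (.R ⟨2,true,false,false,[0,1],[0,0,1],[1,
  0,1],(⟨0,[]⟩,⟨0,[]⟩),(⟨0,[(7,0)]⟩,⟨1,[(6,0),(2,0),(0,0)]⟩),⟨0,[]⟩,.k,.k,.k,(.r 0 ⟨5,[(0,1),(1,1),
  (0,2),(0,1),(1,0),(6,1),(1,1)]⟩ ⟨1,[(5,0),(5,1),(3,0)]⟩),.k,.k,⟨false,0,⟨1,[(0,1),(2,0),(2,0),(4,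
  1),(3,1)]⟩,⟨1,[(5,0),(8,0)]⟩⟩,⟨true,0,⟨1,[(3,0),(2,0)]⟩,⟨0,[(7,0)]⟩⟩,⟨false,1,⟨0,[(12,0),(2,0)]⟩,
  ⟨0,[(13,0)]⟩⟩,⟨true,1,⟨0,[(1,0),(10,0)]⟩,⟨0,[(0,0)]⟩⟩,⟨true,0,⟨0,[]⟩,⟨0,[(17,0)]⟩⟩,⟨false,1,⟨0,
  [(1,0)]⟩,⟨0,[(0,0),(11,0),(2,0)]⟩⟩,[]⟩)) (.I [0,0,1,0,0,-1] (.K ⟨0,[0,0,1],0,1,(⟨0,[(7,0)]⟩,⟨1,
  [(6,0),(2,0),(0,0)]⟩),.k,(.x 0 ⟨0,[(0,0)]⟩ ⟨3,[(4,0),(0,0),(4,3),(3,1)]⟩),(.x (-1) ⟨3,[(4,0),(0,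
  0),(4,3),(3,1)]⟩ ⟨0,[(0,0)]⟩),.k,.k,[⟨0,[(7,0),(8,0)]⟩,⟨1,[(3,0),(2,0)]⟩,⟨0,[(1,0)]⟩,⟨7,[(4,0),(0,
  4),(0,3),(1,1),(8,7)]⟩]⟩) (.I [0,0,2,2,-1,0,-1] (.K ⟨0,[0,1,-1],0,(-1),(⟨1,[(1,1),(2,0),(2,0)]⟩,
  ⟨0,[(8,0),(1,0)]⟩),(.r 0 ⟨7,[(0,3),(4,2),(0,0)]⟩ ⟨1,[(6,0),(5,1),(3,0)]⟩),.k,(.r 1 ⟨0,[(0,0)]⟩ ⟨1,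
  [(6,0),(5,1),(0,1),(1,0),(0,1)]⟩),.k,.k,[⟨1,[(4,0),(2,0),(9,1)]⟩,⟨0,[(8,0)]⟩,⟨7,[(5,0),(0,4),(0,
  3),(1,1),(3,7)]⟩,⟨0,[(2,0),(11,0)]⟩]⟩) (.R ⟨0,false,false,false,[1,-1],[1,-1,1],[1,0,-1,-1,0,0,1],
  (⟨0,[(10,0)]⟩,⟨0,[(11,0)]⟩),(⟨0,[(8,0),(1,0)]⟩,⟨1,[(1,1),(2,0),(2,0)]⟩),⟨0,[(1,1),(2,0)]⟩,.k,(.r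
  (-1) ⟨7,[(0,3),(4,0),(0,2)]⟩ ⟨5,[(2,1),(0,1),(0,2),(0,1),(1,0),(6,3),(1,1)]⟩),(.r (-1) ⟨5,[(0,5),
  (1,3),(2,0),(1,1),(1,0),(6,1)]⟩ ⟨3,[(3,3),(0,3),(0,0),(0,0),(7,3),(1,1)]⟩),.k,.k,.k,⟨true,0,⟨0,
  []⟩,⟨0,[(17,0)]⟩⟩,⟨false,1,⟨7,[(5,0),(0,0),(0,3),(1,1),(5,3)]⟩,⟨0,[(8,0)]⟩⟩,⟨false,1,⟨1,[(6,0),(9,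
  0)]⟩,⟨5,[(2,3),(2,0),(1,1),(1,0),(6,1)]⟩⟩,⟨true,1,⟨7,[(5,0),(0,4),(0,3),(1,1)]⟩,⟨0,[(2,0)]⟩⟩,
  ⟨false,0,⟨0,[]⟩,⟨0,[]⟩⟩,⟨false,0,⟨0,[]⟩,⟨0,[]⟩⟩,[.a ⟨true,1,⟨7,[(0,3),(3,3),(0,0),(0,2),(0,3)]⟩,
  ⟨0,[(2,0),(0,0),(12,0)]⟩⟩ ⟨false,1,⟨0,[(0,0),(13,0)]⟩,⟨5,[(2,1),(0,1),(0,2),(0,1),(1,0),(6,3),(1,
  1)]⟩⟩ ⟨true,1,⟨3,[(0,1),(5,0),(0,1),(1,0)]⟩,⟨0,[(2,0),(0,0),(0,0),(11,0)]⟩⟩,.o ⟨false,2,⟨7,[(0,3),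
  (3,3),(0,0),(0,2),(0,3),(1,3),(6,3)]⟩,⟨0,[(2,0),(11,0)]⟩⟩,.e ⟨true,1,⟨7,[(0,3),(4,0),(0,2)]⟩,⟨1,
  [(2,1),(1,0),(2,0),(6,1)]⟩⟩ ⟨true,1,⟨3,[(0,1),(5,0),(0,1),(1,0)]⟩,⟨7,[(2,5),(0,3),(0,3),(0,0),(2,
  1),(5,3),(1,0)]⟩⟩,.o ⟨false,0,⟨0,[(4,0)]⟩,⟨0,[(15,0)]⟩⟩]⟩))))

def tree : Tre :=
  t1

theorem ok : chk (cPU (-1) false) tree base = true := by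
  decide +kernel

theorem closed {p a b c J l q : ℤ} {D dl : ℝ} {Cl : ℤ → ℤ → ℤ → ℤ → ℝ → Prop}
    (W : World p a b c J (-1) l q D dl Cl) (hE : KEmp p a b (-1) (P1 l p) Cl)
    (g : G0 p a b c J D)
    {N R : ℤ} {I : ℝ} (hu : VFac p D Cl N R I)
    (s0 : (1 : ℝ) ≤ c)
    (s1 : (b : ℝ) + c + 1 ≤ a)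
    (s2 : D < 2 * b)
    (s3 : p - D - c < a) : False := by
  have g1 := g.a2
  have g2 := g.b2
  have g3 := g.pa
  have g4 := g.pb
  have g5 := g.J1
  have g6 := g.JD
  have g7 := g.D2
  have g8 := g.ca
  have g9 := g.ca'
  have t1 := TF.ofV hu
  have i1 := t1.I0
  have i2 := hu.ID
  have i3 := t1.R1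
  have i4 := t1.R2
  refine (val_PU W.toBase (UV.ofV hu)).sound W rfl (Nk := 0) (fun kf hkf hh => ?_) (kok_B hE (by simp [xv]) (by simp [xv]) 0) ?_ ok
  · simp only [cPU, kfB, List.mem_cons, List.not_mem_nil, or_false] at hkf
    subst hkf
    exact absurd hh (by norm_num)
  · simp only [base, List.forall_mem_cons, List.not_mem_nil, false_imp_iff, implies_true,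
      and_true, hld, xv, evg_cons, evg_nil, List.map_cons, List.map_nil, List.cons_append,
      List.nil_append, if_true, if_false, Bool.false_eq_true]
    push_cast
    refine ⟨?_, ?_, ?_, ?_, ?_, ?_, ?_, ?_, ?_, ?_, ?_, ?_, ?_, ?_, ?_, ?_⟩ <;> linarith

end Helper25.KG.P1_1_m1_1_v
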