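import Pool.Agent.Helper25.KG.PL

set_option autoImplicit false
set_option linter.unusedVariables false

namespace Helper25.KG.P1_2_1_0_u

open Helper11.CT Helper25.KW Helper25.KG

def base : List Con :=
  [(false,[0,1,0,1,0,0,0,-1]),
  (false,[0,0,2,0,-1,0,0,1]),
  (true,[0,0,0,0,1,0,-2]),
  (true,[0,0,0,0,1,0,2]),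
  (false,[0,0,0,0,0,0,0,1,-1]),
  (false,[0,0,0,0,0,0,0,0,1]),
  (false,[0,0,0,0,1,0,0,-2]),
  (false,[0,0,0,0,0,-1,0,1]),
  (true,[0,0,0,0,0,1]),
  (true,[1,-1,1,1]),
  (true,[0,1,-1]),
  (true,[0,1,0,-1]),
  (true,[0,0,0,1]),
  (true,[0,0,-2,0,1]),
  (true,[0,-2,0,0,1]),
  (true,[-1,0,1]),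
  (true,[-1,1])]

def t0 : Tre :=
  (.Q [0,1,1,0,0,0,1,-1,1] (.p true [0,0,1] [1] (⟨0,[(11,0)]⟩,⟨0,[(10,0)]⟩) .k 1 (⟨0,[]⟩,⟨0,[]⟩) .k
  .k) (.I [0,0,-2,0,1,-1] (.K ⟨0,[1,0,-1],0,0,(⟨0,[(12,0)]⟩,⟨0,[(13,0)]⟩),.k,(.x 0 ⟨0,[(16,0)]⟩ ⟨3,
  [(10,0),(0,0),(2,1),(0,3)]⟩),(.x (-1) ⟨0,[(0,0)]⟩ ⟨7,[(6,3),(2,3),(0,2),(0,2),(2,1)]⟩),.k,.k,[⟨0,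
  [(9,0),(3,0),(0,0)]⟩,⟨0,[(12,0)]⟩,⟨0,[(1,0)]⟩,⟨0,[(5,0)]⟩]⟩) (.Q [0,0,0,0,0,1,0,-1,1] (.ed false
  [0,1,1] .k) (.Q [0,-1,-1,0,1,0,-1,0,-1] (.p false [0,0,1] [] (⟨0,[(14,0)]⟩,⟨0,[(13,0)]⟩) .k 0 (⟨0,
  []⟩,⟨0,[]⟩) .k .k) (.I [0,0,1,1,-1,0,-1] (.K ⟨0,[1,0,-1],0,0,(⟨0,[(15,0)]⟩,⟨0,[(16,0)]⟩),.k,(.x 0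
  ⟨0,[(19,0)]⟩ ⟨3,[(13,0),(0,0),(2,1),(0,3)]⟩),(.r 1 ⟨0,[(0,0)]⟩ ⟨7,[(10,3),(2,2),(0,6),(2,1),(6,
  3)]⟩),.k,.k,[⟨0,[(12,0),(3,0),(0,0)]⟩,⟨0,[(15,0)]⟩,⟨0,[(4,0)]⟩,⟨0,[(8,0)]⟩]⟩) (.I [0,0,-1,-1,0,0,
  -2] (.K ⟨0,[-1,1,1],0,0,(⟨0,[(3,0)]⟩,⟨0,[(16,0),(2,0)]⟩),(.x (-1) ⟨3,[(14,0),(0,0),(2,1),(0,3)]⟩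
  ⟨0,[(20,0)]⟩),.k,(.r 0 ⟨3,[(6,1),(7,0),(0,2),(5,1),(2,1)]⟩ ⟨0,[(0,0),(0,0)]⟩),.k,.k,[⟨7,[(13,3),
  (0,0),(0,0),(0,7),(1,1)]⟩,⟨1,[(3,1),(2,1),(0,1),(3,1),(6,0),(7,0)]⟩,⟨1,[(0,0),(15,1),(5,0),(0,
  0)]⟩,⟨0,[(5,0),(18,0)]⟩]⟩) (.K ⟨0,[-1,1,1],0,0,(⟨0,[(3,0)]⟩,⟨0,[(16,0),(2,0)]⟩),(.x (-1) ⟨3,[(14,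
  0),(0,0),(2,1),(0,3)]⟩ ⟨0,[(20,0)]⟩),.k,(.x (-1) ⟨3,[(0,1),(6,4),(0,3),(2,2),(6,2),(0,2)]⟩ ⟨3,
  [(10,3),(3,0),(0,0),(9,1)]⟩),.k,.k,[⟨7,[(13,3),(0,0),(0,0),(0,7),(1,1)]⟩,⟨9,[(0,1),(2,3),(1,5),(1,
  3),(0,9),(2,5),(6,2),(7,2)]⟩,⟨3,[(2,0),(5,1),(0,0),(1,2),(4,1),(1,0),(3,3)]⟩,⟨0,[(5,0),(18,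
  0)]⟩]⟩))) (.K ⟨0,[-1,1,1],0,0,(⟨0,[(1,0)]⟩,⟨0,[(14,0),(2,0)]⟩),(.x (-1) ⟨3,[(12,0),(0,0),(2,1),(0,
  3)]⟩ ⟨0,[(18,0)]⟩),.k,(.x (-1) ⟨1,[(4,1),(0,3),(3,1),(6,0),(7,0)]⟩ ⟨3,[(8,3),(3,0),(0,0),(9,1)]⟩),
  .k,.k,[⟨7,[(11,3),(0,0),(0,0),(0,7),(1,1)]⟩,⟨5,[(0,1),(5,1),(2,0),(1,0),(3,3),(0,3),(7,0)]⟩,⟨1,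
  [(6,1),(2,1),(4,1),(1,0),(3,1),(2,0)]⟩,⟨0,[(3,0),(18,0)]⟩]⟩)) (.I [0,0,1,1,-1,0,-1] (.K ⟨0,[1,0,
  -1],0,0,(⟨0,[(14,0)]⟩,⟨0,[(15,0)]⟩),.k,(.x 0 ⟨0,[(18,0)]⟩ ⟨3,[(12,0),(0,0),(2,1),(0,3)]⟩),(.r 1
  ⟨0,[(0,0)]⟩ ⟨7,[(9,3),(2,2),(0,6),(2,1),(6,3)]⟩),.k,.k,[⟨0,[(11,0),(3,0),(0,0)]⟩,⟨0,[(14,0)]⟩,⟨0,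
  [(3,0)]⟩,⟨0,[(7,0)]⟩]⟩) (.Q [0,0,-2,-1,0,0,-2,1,-2] (.p false [0,0,1] [1,0,-1] (⟨0,[(15,0)]⟩,⟨0,
  [(14,0)]⟩) .k 2 (⟨0,[(14,0)]⟩,⟨0,[(15,0)]⟩) .k (.r (-1) ⟨0,[(13,0)]⟩ ⟨2,[(6,3),(2,1),(2,0),(3,0),
  (6,1)]⟩)) (.I [0,0,-1,-1,0,0,-2] (.K ⟨0,[0,1,1],0,0,(⟨1,[(10,0),(6,1),(7,0)]⟩,⟨0,[(3,0)]⟩),(.x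
  (-1) ⟨3,[(14,0),(0,0),(2,1),(0,3)]⟩ ⟨0,[(20,0)]⟩),.k,(.r 0 ⟨3,[(6,1),(7,0),(0,2),(5,1),(2,1)]⟩ ⟨0,
  [(0,0),(1,0)]⟩),.k,.k,[⟨1,[(3,0),(0,0),(11,0),(1,0)]⟩,⟨5,[(5,1),(7,1),(0,0),(2,3),(8,0)]⟩,⟨0,[(1,
  0),(3,0)]⟩,⟨11,[(6,3),(7,0),(0,6),(1,11),(6,3),(3,7)]⟩]⟩) (.K ⟨0,[0,1,1],0,0,(⟨1,[(10,0),(6,1),(7,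
  0)]⟩,⟨0,[(3,0)]⟩),(.x (-1) ⟨3,[(14,0),(0,0),(2,1),(0,3)]⟩ ⟨0,[(20,0)]⟩),.k,(.x (-1) ⟨3,[(0,1),(6,
  4),(0,3),(2,2),(6,2),(0,2)]⟩ ⟨3,[(10,3),(3,0),(0,0),(9,1)]⟩),.k,.k,[⟨1,[(3,0),(0,0),(11,0),(1,
  0)]⟩,⟨5,[(5,1),(7,1),(0,0),(2,3),(8,0)]⟩,⟨0,[(1,0),(3,0)]⟩,⟨11,[(6,3),(7,0),(0,6),(1,11),(6,3),(3,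
  7)]⟩]⟩)) (.I [0,0,-1,-1,0,0,-2] (.Q [0,0,1,0,0,0,0,-1,1] (.p true [0,0,1] [1] (⟨0,[(17,0)]⟩,⟨0,
  [(16,0)]⟩) .k 1 (⟨0,[]⟩,⟨0,[]⟩) .k .k) (.K ⟨0,[1,-1,-1],0,0,(⟨0,[(4,0)]⟩,⟨1,[(11,0),(6,1),(7,
  0)]⟩),(.x 0 ⟨0,[(21,0)]⟩ ⟨3,[(15,0),(0,0),(2,1),(0,3)]⟩),(.r (-1) ⟨0,[(1,0),(1,0)]⟩ ⟨3,[(7,1),(7,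
  0),(0,2),(5,1),(2,1)]⟩),.k,.k,.k,[⟨0,[(0,0)]⟩,⟨7,[(14,3),(0,0),(0,0),(0,7),(1,1)]⟩,⟨1,[(2,0),(10,
  0),(15,0)]⟩,⟨1,[(1,0),(15,1),(5,0),(0,0)]⟩]⟩) (.K ⟨0,[0,1,1],0,0,(⟨1,[(11,0),(6,1),(7,0)]⟩,⟨0,[(4,
  0)]⟩),(.x (-1) ⟨3,[(15,0),(0,0),(2,1),(0,3)]⟩ ⟨0,[(21,0)]⟩),.k,(.r 0 ⟨3,[(7,1),(7,0),(0,2),(5,1),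
  (2,1)]⟩ ⟨0,[(1,0),(1,0)]⟩),.k,.k,[⟨1,[(4,0),(0,0),(11,0),(1,0)]⟩,⟨8,[(1,0),(0,2),(9,0),(1,1),(0,
  1),(2,2)]⟩,⟨0,[(0,0),(8,0),(2,0),(6,0),(3,0)]⟩,⟨0,[(2,0),(7,0)]⟩]⟩)) (.R ⟨1,true,false,false,[1,
  -1],[0,1],[0,1,-1,-1],(⟨0,[(19,0)]⟩,⟨0,[(20,0)]⟩),(⟨0,[(20,0)]⟩,⟨0,[(19,0)]⟩),⟨6,[(0,3),(0,1),(1,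
  3),(3,9),(0,11),(2,8),(6,1)]⟩,.k,.k,(.r (-2) ⟨2,[(2,1),(8,1),(2,0),(3,0),(6,1)]⟩ ⟨1,[(6,0),(14,0),
  (2,0)]⟩),(.r (-2) ⟨2,[(2,1),(8,1),(2,0),(3,0),(6,1)]⟩ ⟨1,[(6,0),(14,0),(2,0)]⟩),(.x 1 ⟨3,[(10,5),
  (3,0),(0,0)]⟩ ⟨5,[(1,1),(1,3),(3,12),(0,3),(2,2),(6,2),(0,0)]⟩),.k,⟨true,1,⟨1,[(11,1),(6,0),(3,1),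
  (2,0)]⟩,⟨0,[(6,0),(19,0)]⟩⟩,⟨false,2,⟨1,[(18,0),(6,2)]⟩,⟨0,[(13,0)]⟩⟩,⟨true,0,⟨0,[(28,0)]⟩,⟨0,
  []⟩⟩,⟨false,1,⟨1,[(18,0),(5,3),(1,0)]⟩,⟨0,[(11,0)]⟩⟩,⟨false,0,⟨0,[(24,0)]⟩,⟨7,[(11,3),(2,0),(0,0),
  (2,1),(7,3)]⟩⟩,⟨true,0,⟨1,[(0,1),(7,3),(9,0),(6,2)]⟩,⟨0,[(11,0),(11,0)]⟩⟩,[]⟩)))))) (.Q [0,0,-1,0,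
  0,0,0,1,-1] (.p false [0,0,1] [1] (⟨0,[(12,0)]⟩,⟨0,[(11,0)]⟩) .k 1 (⟨0,[]⟩,⟨0,[]⟩) .k .k) (.R ⟨2,
  true,false,false,[0,1],[1,0,-1],[0,0,1,1],(⟨0,[]⟩,⟨0,[]⟩),(⟨0,[(12,0)]⟩,⟨0,[(13,0)]⟩),⟨0,[]⟩,.k,
  .k,.k,(.x (-1) ⟨3,[(10,0),(0,0),(2,1),(0,3)]⟩ ⟨0,[(16,0)]⟩),.k,.k,⟨true,0,⟨3,[(2,0),(8,1),(5,0),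
  (2,0)]⟩,⟨19,[(1,5),(2,11),(2,15),(2,0),(2,5),(0,10),(3,5)]⟩⟩,⟨false,0,⟨0,[(0,0)]⟩,⟨3,[(10,0),(0,
  0),(1,3),(0,1)]⟩⟩,⟨false,1,⟨3,[(10,0),(0,0),(10,1)]⟩,⟨0,[]⟩⟩,⟨true,0,⟨0,[(1,0),(17,0)]⟩,⟨1,[(2,0),
  (8,0),(1,1),(0,0),(3,0)]⟩⟩,⟨true,0,⟨0,[(20,0)]⟩,⟨0,[(19,0)]⟩⟩,⟨false,0,⟨0,[(1,0)]⟩,⟨7,[(9,3),(0,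
  0),(0,4),(1,7),(0,5)]⟩⟩,[]⟩) (.R ⟨2,true,false,false,[0,1],[1,0,-1],[0,1],(⟨0,[]⟩,⟨0,[]⟩),(⟨0,
  [(12,0)]⟩,⟨0,[(13,0)]⟩),⟨0,[]⟩,.k,.k,.k,(.x (-1) ⟨3,[(10,0),(0,0),(2,1),(0,3)]⟩ ⟨0,[(16,0)]⟩),.k,
  .k,⟨false,1,⟨1,[(11,0),(9,0),(2,1)]⟩,⟨0,[(0,0),(0,0)]⟩⟩,⟨true,0,⟨0,[(12,0)]⟩,⟨0,[(0,0)]⟩⟩,⟨false,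
  1,⟨7,[(7,3),(2,0),(0,0),(2,1),(6,3)]⟩,⟨0,[(17,0)]⟩⟩,⟨true,0,⟨0,[(1,0),(17,0)]⟩,⟨3,[(0,1),(1,0),(5,
  1),(2,1),(1,1),(4,0)]⟩⟩,⟨true,0,⟨0,[(18,0)]⟩,⟨7,[(9,3),(0,0),(0,0),(2,1)]⟩⟩,⟨false,0,⟨0,[(1,0)]⟩,
  ⟨3,[(0,3),(9,0),(0,2)]⟩⟩,[]⟩)))

def t1 : Tre :=
  (.I [0,0,-1,-1,1,0,1] (.I [0,0,1,1,0,0,-1] (.Q [0,1,1,0,0,0,1,-1,1] (.p true [0,0,1] [1] (⟨0,[(10,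
  0)]⟩,⟨0,[(9,0)]⟩) .k 1 (⟨0,[]⟩,⟨0,[]⟩) .k .k) (.K ⟨0,[1,0,-1],0,0,(⟨0,[(10,0)]⟩,⟨0,[(11,0)]⟩),.k,
  (.x 0 ⟨0,[(14,0)]⟩ ⟨3,[(8,0),(0,0),(2,1),(0,3)]⟩),(.r 0 ⟨0,[(1,0)]⟩ ⟨0,[(2,0)]⟩),.k,.k,[⟨0,[(7,0),
  (3,0),(0,0)]⟩,⟨0,[(10,0)]⟩,⟨0,[(0,0)]⟩,⟨0,[(3,0)]⟩]⟩) (.I [0,1,0,0,0,0,1] (.Q [0,1,1,1,0,0,1,-1,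
  1] (.p true [0,0,1] [1] (⟨0,[(12,0)]⟩,⟨0,[(11,0)]⟩) .k 1 (⟨0,[]⟩,⟨0,[]⟩) .k .k) (.R ⟨2,true,false,
  false,[0,1],[1,0,-1],[0,1],(⟨0,[]⟩,⟨0,[]⟩),(⟨0,[(12,0)]⟩,⟨0,[(13,0)]⟩),⟨0,[]⟩,.k,.k,.k,(.x (-1)
  ⟨3,[(10,0),(0,0),(2,1),(0,3)]⟩ ⟨0,[(16,0)]⟩),.k,.k,⟨true,0,⟨0,[(1,0)]⟩,⟨0,[(2,0),(6,0),(3,0),(0,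
  0)]⟩⟩,⟨false,0,⟨0,[(1,0),(0,0)]⟩,⟨7,[(0,1),(3,1),(5,1),(2,5),(0,2),(7,0)]⟩⟩,⟨false,1,⟨5,[(4,1),(2,
  1),(2,0),(3,0),(6,1)]⟩,⟨0,[(17,0)]⟩⟩,⟨true,0,⟨0,[(2,0),(16,0)]⟩,⟨0,[(0,0)]⟩⟩,⟨true,0,⟨0,[(18,0)]⟩,
  ⟨7,[(9,3),(0,0),(0,0),(2,1)]⟩⟩,⟨false,0,⟨0,[(2,0)]⟩,⟨7,[(0,7),(6,3),(2,0),(0,0),(2,1),(7,3)]⟩⟩,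
  []⟩) (.Q [0,0,-3,0,1,0,0,0,-1] (.p false [0,0,1] [] (⟨0,[(13,0)]⟩,⟨0,[(12,0)]⟩) .k 0 (⟨0,[]⟩,⟨0,
  []⟩) .k .k) (.R ⟨0,false,false,true,[0,0,1],[0,1],[1,1,1,1],(⟨0,[(14,0)]⟩,⟨0,[(13,0)]⟩),(⟨0,[(17,
  0)]⟩,⟨0,[(16,0)]⟩),⟨1,[(0,1),(6,0),(2,1),(4,0)]⟩,.k,.k,(.r (-1) ⟨0,[(5,0)]⟩ ⟨0,[(4,0)]⟩),(.r (-1)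
  ⟨0,[(5,0)]⟩ ⟨0,[(4,0)]⟩),.k,.k,⟨true,0,⟨0,[]⟩,⟨7,[(10,3),(0,0),(0,0),(2,1)]⟩⟩,⟨false,1,⟨0,[(0,
  0)]⟩,⟨3,[(10,3),(0,0),(0,0),(1,3),(0,1)]⟩⟩,⟨true,(-1),⟨0,[(1,0),(7,1),(0,0),(3,0)]⟩,⟨0,[(5,0)]⟩⟩,
  ⟨false,0,⟨0,[(3,0),(5,0)]⟩,⟨1,[(8,0),(1,0),(1,0),(1,1),(0,0),(7,0)]⟩⟩,⟨false,0,⟨0,[]⟩,⟨0,[]⟩⟩,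
  ⟨false,0,⟨0,[]⟩,⟨0,[]⟩⟩,[.o ⟨false,0,⟨0,[(9,0)]⟩,⟨7,[(8,3),(2,0),(0,0),(2,1),(7,3)]⟩⟩,.e ⟨false,0,
  ⟨0,[(21,0)]⟩,⟨5,[(5,1),(2,1),(2,0),(3,0),(6,1)]⟩⟩ ⟨false,1,⟨5,[(0,4),(3,1),(4,0),(2,0),(0,0),(4,
  0),(2,1)]⟩,⟨1,[(8,0),(1,0),(3,1),(0,0)]⟩⟩,.a ⟨true,0,⟨7,[(10,3),(0,0),(0,0),(1,7),(0,1)]⟩,⟨0,[(0,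
  0),(9,0)]⟩⟩ ⟨false,0,⟨4,[(4,1),(4,0),(0,0),(1,0),(5,0),(2,0)]⟩,⟨3,[(1,1),(3,1),(8,1),(0,0),(7,
  0)]⟩⟩ ⟨true,0,⟨0,[(0,0),(8,0),(0,0)]⟩,⟨1,[(8,0),(1,0),(3,1),(0,0)]⟩⟩,.o ⟨false,0,⟨0,[(10,0),(3,0),
  (0,0)]⟩,⟨11,[(0,7),(10,0),(0,0),(0,3),(1,1)]⟩⟩]⟩) (.R ⟨0,false,false,false,[0,0,1],[0,1],[1,0,1],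
  (⟨0,[(14,0)]⟩,⟨0,[(13,0)]⟩),(⟨0,[(17,0)]⟩,⟨0,[(16,0)]⟩),⟨1,[(2,1),(0,1),(3,0),(7,0)]⟩,.k,.k,(.r
  (-1) ⟨0,[(5,0)]⟩ ⟨0,[(4,0)]⟩),(.r (-1) ⟨0,[(5,0)]⟩ ⟨0,[(4,0)]⟩),.k,.k,⟨false,1,⟨5,[(5,1),(2,1),(2,
  0),(3,0),(6,1)]⟩,⟨0,[(21,0)]⟩⟩,⟨true,1,⟨0,[(3,0),(1,0),(3,0)]⟩,⟨0,[(0,0)]⟩⟩,⟨false,0,⟨9,[(0,5),(2,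
  7),(7,0),(2,1),(0,3),(7,0)]⟩,⟨1,[(12,0),(9,0)]⟩⟩,⟨true,0,⟨0,[(3,0),(5,0)]⟩,⟨1,[(0,0),(1,0),(2,0),
  (8,0),(5,0)]⟩⟩,⟨false,0,⟨0,[]⟩,⟨0,[]⟩⟩,⟨false,0,⟨0,[]⟩,⟨0,[]⟩⟩,[.e ⟨false,0,⟨0,[]⟩,⟨3,[(11,0),(0,
  0),(9,1)]⟩⟩ ⟨false,1,⟨1,[(3,1),(5,1),(2,0),(9,0)]⟩,⟨21,[(0,7),(4,1),(2,9),(2,0),(2,13),(0,4)]⟩⟩,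
  .o ⟨false,1,⟨1,[(15,0),(5,1),(1,0)]⟩,⟨0,[(20,0)]⟩⟩,.a ⟨true,0,⟨5,[(0,1),(10,0),(0,0),(1,3)]⟩,⟨0,
  [(2,0),(0,0)]⟩⟩ ⟨true,0,⟨7,[(10,3),(0,0),(0,0),(2,1)]⟩,⟨0,[(19,0)]⟩⟩ ⟨false,1,⟨1,[(3,1),(8,0),(2,
  0),(5,1)]⟩,⟨21,[(0,7),(4,1),(2,9),(2,0),(2,13),(0,4)]⟩⟩,.o ⟨false,0,⟨11,[(0,7),(10,0),(0,0),(1,3),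
  (0,5)]⟩,⟨0,[(3,0),(1,0),(3,0)]⟩⟩]⟩))) (.Q [0,0,3,0,-1,0,0,0,1] (.p true [0,0,1] [] (⟨0,[(12,0)]⟩,
  ⟨0,[(11,0)]⟩) .k 0 (⟨0,[]⟩,⟨0,[]⟩) .k .k) (.Q [0,0,1,0,0,0,0,-1,1] (.p true [0,0,1] [1] (⟨0,[(13,
  0)]⟩,⟨0,[(12,0)]⟩) .k 1 (⟨0,[]⟩,⟨0,[]⟩) .k .k) (.Q [0,1,1,1,0,0,1,-1,1] (.p true [0,0,1] [1] (⟨0,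
  [(14,0)]⟩,⟨0,[(13,0)]⟩) .k 1 (⟨0,[]⟩,⟨0,[]⟩) .k .k) (.R ⟨2,true,false,false,[0,1],[1,0,-1],[0,1],
  (⟨0,[]⟩,⟨0,[]⟩),(⟨0,[(14,0)]⟩,⟨0,[(15,0)]⟩),⟨0,[]⟩,.k,.k,.k,(.x (-1) ⟨3,[(12,0),(0,0),(2,1),(0,
  3)]⟩ ⟨0,[(18,0)]⟩),.k,.k,⟨false,1,⟨1,[(13,0),(9,0),(2,1)]⟩,⟨0,[(3,0)]⟩⟩,⟨true,0,⟨0,[(14,0)]⟩,⟨0,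
  [(1,0)]⟩⟩,⟨false,1,⟨5,[(6,1),(2,1),(2,0),(3,0),(6,1)]⟩,⟨0,[(19,0)]⟩⟩,⟨true,0,⟨0,[(4,0),(16,0)]⟩,
  ⟨0,[(0,0)]⟩⟩,⟨true,0,⟨0,[(20,0)]⟩,⟨7,[(11,3),(0,0),(0,0),(2,1)]⟩⟩,⟨false,0,⟨0,[(4,0)]⟩,⟨3,[(1,3),
  (10,0),(0,2)]⟩⟩,[]⟩) (.R ⟨0,false,false,false,[0,0,1],[0,1],[1],(⟨0,[(15,0)]⟩,⟨0,[(14,0)]⟩),(⟨0,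
  [(18,0)]⟩,⟨0,[(17,0)]⟩),⟨1,[(0,1),(7,0),(1,1),(2,0)]⟩,.k,.k,(.r (-1) ⟨0,[(6,0)]⟩ ⟨0,[(5,0)]⟩),(.r
  (-1) ⟨0,[(6,0)]⟩ ⟨0,[(5,0)]⟩),.k,.k,⟨false,1,⟨1,[(0,0),(0,0),(4,0),(13,0),(2,0)]⟩,⟨4,[(5,1),(4,0),
  (0,0),(1,0),(5,0),(2,0)]⟩⟩,⟨true,1,⟨0,[(4,0),(1,0),(3,0)]⟩,⟨0,[(2,0)]⟩⟩,⟨false,0,⟨0,[(3,0)]⟩,⟨3,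
  [(12,0),(0,2)]⟩⟩,⟨true,0,⟨0,[(4,0),(5,0)]⟩,⟨0,[(2,0),(3,0),(13,0)]⟩⟩,⟨false,0,⟨0,[]⟩,⟨0,[]⟩⟩,
  ⟨false,0,⟨0,[]⟩,⟨0,[]⟩⟩,[.a ⟨true,0,⟨0,[(22,0)]⟩,⟨1,[(9,0),(4,0),(0,0)]⟩⟩ ⟨true,0,⟨0,[]⟩,⟨7,[(11,
  3),(0,0),(0,0),(2,1)]⟩⟩ ⟨false,1,⟨1,[(4,1),(5,1),(2,0),(9,0)]⟩,⟨11,[(1,4),(0,2),(3,1),(2,4),(2,0),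
  (2,3)]⟩⟩,.o ⟨false,1,⟨1,[(16,0),(5,1),(1,0)]⟩,⟨0,[(21,0)]⟩⟩,.o ⟨false,0,⟨0,[(1,0)]⟩,⟨1,[(14,1),(1,
  0),(6,0)]⟩⟩,.o ⟨false,0,⟨7,[(1,3),(0,3),(9,0),(0,0),(2,1)]⟩,⟨0,[(4,0),(1,0),(3,0)]⟩⟩]⟩)) (.R ⟨0,
  false,false,false,[0,0,1],[0,1],[0,1],(⟨0,[(14,0)]⟩,⟨0,[(13,0)]⟩),(⟨0,[(17,0)]⟩,⟨0,[(16,0)]⟩),⟨1,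
  [(0,1),(6,0),(7,0)]⟩,.k,.k,(.r (-1) ⟨0,[(5,0)]⟩ ⟨0,[(4,0)]⟩),(.r (-1) ⟨0,[(5,0)]⟩ ⟨0,[(4,0)]⟩),.k,
  .k,⟨false,1,⟨0,[(20,0),(1,0)]⟩,⟨0,[(18,0)]⟩⟩,⟨true,1,⟨1,[(0,1),(14,0),(6,0)]⟩,⟨0,[(1,0)]⟩⟩,⟨false,
  0,⟨7,[(1,0),(0,4),(3,0),(2,0),(1,0),(7,1),(0,0)]⟩,⟨1,[(12,0),(10,0)]⟩⟩,⟨true,0,⟨0,[(3,0),(5,0)]⟩,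
  ⟨0,[(1,0),(3,0),(13,0)]⟩⟩,⟨false,0,⟨0,[]⟩,⟨0,[]⟩⟩,⟨false,0,⟨0,[]⟩,⟨0,[]⟩⟩,[.e ⟨false,0,⟨0,[(19,
  0)]⟩,⟨3,[(11,0),(0,0),(10,1)]⟩⟩ ⟨false,1,⟨1,[(0,1),(14,0),(5,1),(0,0)]⟩,⟨21,[(1,7),(3,1),(2,9),(2,
  0),(2,13),(0,4)]⟩⟩,.o ⟨false,1,⟨1,[(15,0),(5,1),(1,0)]⟩,⟨0,[(20,0)]⟩⟩,.a ⟨true,0,⟨5,[(1,1),(9,0),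
  (0,0),(1,3)]⟩,⟨0,[(0,0)]⟩⟩ ⟨true,0,⟨0,[(25,0)]⟩,⟨0,[]⟩⟩ ⟨false,1,⟨1,[(0,1),(14,0),(5,1),(1,0)]⟩,
  ⟨21,[(1,7),(3,1),(2,9),(2,0),(2,13),(0,4)]⟩⟩,.o ⟨false,0,⟨11,[(1,7),(9,0),(0,0),(1,3),(0,5)]⟩,⟨1,
  [(0,1),(14,0),(6,0)]⟩⟩]⟩)) (.R ⟨0,false,false,true,[0,0,1],[0,1],[0,1,0,0,0,0,1],(⟨0,[(13,0)]⟩,⟨0,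
  [(12,0)]⟩),(⟨0,[(16,0)]⟩,⟨0,[(15,0)]⟩),⟨1,[(0,1),(5,0),(2,1),(4,0)]⟩,.k,.k,(.r (-1) ⟨0,[(4,0)]⟩
  ⟨0,[(3,0)]⟩),(.r (-1) ⟨0,[(4,0)]⟩ ⟨0,[(3,0)]⟩),.k,.k,⟨true,1,⟨0,[(4,0)]⟩,⟨0,[(1,0),(6,0),(0,0)]⟩⟩,
  ⟨false,1,⟨0,[(0,0)]⟩,⟨3,[(9,3),(0,0),(0,0),(1,3),(0,1)]⟩⟩,⟨true,0,⟨0,[(24,0)]⟩,⟨0,[]⟩⟩,⟨false,0,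
  ⟨0,[(2,0),(5,0)]⟩,⟨1,[(7,0),(1,0),(1,0),(1,1),(0,0),(7,0)]⟩⟩,⟨false,0,⟨0,[]⟩,⟨0,[]⟩⟩,⟨false,0,⟨0,
  []⟩,⟨0,[]⟩⟩,[.o ⟨false,0,⟨0,[(8,0)]⟩,⟨7,[(7,3),(2,0),(0,0),(2,1),(7,3)]⟩⟩,.e ⟨false,1,⟨1,[(11,0),
  (9,0)]⟩,⟨11,[(1,7),(3,1),(2,2),(0,0),(0,0),(2,1),(5,2)]⟩⟩ ⟨false,1,⟨5,[(0,4),(2,1),(4,0),(2,0),(0,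
  0),(4,0),(2,1)]⟩,⟨1,[(7,0),(1,0),(3,1),(0,0)]⟩⟩,.a ⟨true,0,⟨7,[(9,3),(0,0),(0,0),(1,7),(0,1)]⟩,⟨0,
  [(0,0),(8,0)]⟩⟩ ⟨false,1,⟨3,[(10,0),(0,2)]⟩,⟨0,[(1,0)]⟩⟩ ⟨true,0,⟨0,[(0,0),(7,0),(0,0)]⟩,⟨1,[(7,
  0),(1,0),(3,1),(0,0)]⟩⟩,.o ⟨false,0,⟨0,[(9,0),(3,0),(0,0)]⟩,⟨11,[(0,7),(9,0),(0,0),(0,3),(1,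
  1)]⟩⟩]⟩)))) (.Q [0,0,0,0,0,-1,0,1,-1] (.ed true [0,1,1] .k) (.S ⟨1,0,[0,1,0,0,0,0,-1],[1,0,-1],[0,
  0,0,0,0,0,-1],(⟨0,[(10,0)]⟩,⟨0,[(11,0)]⟩),⟨0,[(0,0)]⟩,.k,(.x 0 ⟨0,[(14,0)]⟩ ⟨3,[(8,0),(0,0),(2,1),
  (0,3)]⟩),⟨false,1,⟨3,[(8,0),(0,0),(10,1)]⟩,⟨0,[]⟩⟩,⟨true,0,⟨0,[(22,0)]⟩,⟨0,[]⟩⟩,⟨true,0,⟨0,[(18,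
  0)]⟩,⟨0,[(17,0)]⟩⟩,⟨false,0,⟨0,[(18,0)]⟩,⟨7,[(5,3),(2,0),(0,0),(2,1),(7,3)]⟩⟩,[.e ⟨false,1,⟨1,[(8,
  0),(10,0)]⟩,⟨4,[(1,2),(4,0),(0,0),(1,0),(5,0),(2,0)]⟩⟩ ⟨false,1,⟨1,[(8,0),(10,0),(2,1)]⟩,⟨0,[(1,
  0),(13,0)]⟩⟩,.o ⟨false,1,⟨1,[(3,1),(8,0),(7,0)]⟩,⟨13,[(1,11),(4,5),(0,9),(1,0),(1,13),(0,8),(2,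
  5)]⟩⟩,.e ⟨false,1,⟨1,[(8,0),(11,0)]⟩,⟨4,[(1,2),(4,0),(0,0),(1,0),(5,0),(2,0)]⟩⟩ ⟨false,1,⟨3,[(8,
  2),(0,0)]⟩,⟨0,[(1,0),(13,0)]⟩⟩,.a ⟨true,0,⟨0,[(10,0)]⟩,⟨0,[(11,0)]⟩⟩ ⟨true,1,⟨1,[(8,0),(10,0)]⟩,
  ⟨0,[(1,0),(4,0),(0,0)]⟩⟩ ⟨false,1,⟨1,[(8,0),(10,0)]⟩,⟨7,[(1,5),(5,3),(1,0),(2,1),(2,5),(4,
  0)]⟩⟩]⟩) (.Q [0,-1,-1,-1,1,0,-1,1,-1] (.p false [0,0,1] [1] (⟨0,[(11,0)]⟩,⟨0,[(10,0)]⟩) .k 1 (⟨0,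
  []⟩,⟨0,[]⟩) .k .k) (.R ⟨0,false,false,true,[1,-1],[0,0,1],[1,1,0,0,0,0,1],(⟨0,[(14,0)]⟩,⟨0,[(15,
  0)]⟩),(⟨0,[(12,0)]⟩,⟨0,[(11,0)]⟩),⟨1,[(1,1),(0,1),(1,1),(0,0),(7,0),(2,1)]⟩,.k,.k,(.r (-1) ⟨0,[(2,
  1),(6,0)]⟩ ⟨2,[(7,1),(0,1),(0,0),(0,0),(5,1),(2,1)]⟩),(.x 0 ⟨0,[(15,0)]⟩ ⟨3,[(9,0),(0,0),(2,1),(0,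
  3)]⟩),.k,.k,⟨true,0,⟨0,[]⟩,⟨7,[(8,3),(0,0),(0,0),(2,1)]⟩⟩,⟨false,1,⟨1,[(12,1),(0,0),(6,0)]⟩,⟨0,
  [(11,0)]⟩⟩,⟨true,(-1),⟨0,[(2,0),(4,0),(0,0),(10,0)]⟩,⟨0,[(2,0),(6,0)]⟩⟩,⟨false,0,⟨6,[(2,4),(4,5),
  (0,2),(1,0),(1,6),(0,1),(2,5)]⟩,⟨0,[(0,0)]⟩⟩,⟨false,0,⟨0,[]⟩,⟨0,[]⟩⟩,⟨false,0,⟨0,[]⟩,⟨0,[]⟩⟩,[.e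
  ⟨false,0,⟨4,[(2,2),(4,0),(0,0),(1,0),(6,3),(1,1)]⟩,⟨1,[(9,0),(11,0)]⟩⟩ ⟨false,0,⟨0,[(2,0),(4,0),
  (4,0)]⟩,⟨1,[(9,0),(1,1),(9,0)]⟩⟩,.o ⟨false,0,⟨13,[(2,11),(4,5),(0,9),(1,0),(1,13),(0,8),(2,5)]⟩,
  ⟨1,[(4,1),(8,0),(7,0)]⟩⟩,.o ⟨false,0,⟨7,[(8,3),(0,0),(0,0),(2,1)]⟩,⟨1,[(13,0),(6,0)]⟩⟩,.a ⟨true,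
  (-1),⟨0,[(8,0)]⟩,⟨0,[(20,0)]⟩⟩ ⟨false,0,⟨0,[(2,0),(16,0)]⟩,⟨7,[(8,3),(0,4),(0,0),(2,1),(7,3)]⟩⟩
  ⟨true,0,⟨0,[(2,0),(4,0),(4,0)]⟩,⟨7,[(0,1),(3,3),(3,5),(0,0),(1,1),(1,2),(2,1)]⟩⟩]⟩) (.R ⟨0,false,
  false,false,[1,0,-1],[0,1],[0,1,1],(⟨0,[(11,0)]⟩,⟨0,[(12,0)]⟩),(⟨0,[(15,0)]⟩,⟨0,[(14,0)]⟩),⟨0,[(1,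
  0)]⟩,.k,.k,(.x 0 ⟨0,[(15,0)]⟩ ⟨3,[(9,0),(0,0),(2,1),(0,3)]⟩),(.x 0 ⟨0,[(15,0)]⟩ ⟨3,[(9,0),(0,0),
  (2,1),(0,3)]⟩),.k,.k,⟨true,0,⟨0,[(18,0)]⟩,⟨0,[(16,0)]⟩⟩,⟨false,1,⟨1,[(12,1),(0,0),(6,0)]⟩,⟨0,[(11,
  0)]⟩⟩,⟨true,(-1),⟨2,[(0,1),(1,1),(1,0),(3,1),(2,0),(1,0)]⟩,⟨1,[(9,0),(10,0)]⟩⟩,⟨false,0,⟨0,[(0,0),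
  (20,0)]⟩,⟨4,[(3,0),(0,3),(1,1),(2,0),(1,0),(1,0),(7,1)]⟩⟩,⟨false,0,⟨0,[]⟩,⟨0,[]⟩⟩,⟨false,0,⟨0,[]⟩,
  ⟨0,[]⟩⟩,[.a ⟨true,0,⟨0,[(19,0)]⟩,⟨1,[(6,0),(4,0),(0,0)]⟩⟩ ⟨false,0,⟨0,[(23,0)]⟩,⟨1,[(20,0),(0,
  0)]⟩⟩ ⟨true,0,⟨3,[(0,1),(8,0),(2,1),(0,0),(2,1)]⟩,⟨1,[(2,1),(1,1),(3,1),(4,0),(7,0)]⟩⟩,.o ⟨false,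
  1,⟨1,[(13,0),(5,1),(1,0)]⟩,⟨0,[(18,0)]⟩⟩,.a ⟨true,0,⟨0,[(2,0),(1,0),(11,0)]⟩,⟨7,[(8,3),(0,0),(0,
  0),(1,7),(0,1)]⟩⟩ ⟨false,0,⟨7,[(8,3),(0,0),(0,0),(2,1)]⟩,⟨1,[(20,0),(0,0)]⟩⟩ ⟨true,0,⟨3,[(0,1),(8,
  0),(2,1),(0,0),(2,1)]⟩,⟨1,[(2,0),(1,0),(6,0),(6,0)]⟩⟩,.a ⟨true,0,⟨0,[(11,0)]⟩,⟨0,[(12,0)]⟩⟩ ⟨true,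
  0,⟨0,[(23,0)]⟩,⟨0,[]⟩⟩ ⟨false,1,⟨1,[(12,1),(0,0),(5,1),(1,0)]⟩,⟨1,[(2,1),(1,1),(3,1),(4,0),(7,
  0)]⟩⟩]⟩)))) (.I [0,0,2,0,-1,1] (.Q [0,1,1,0,0,0,1,-1,1] (.p true [0,0,1] [1] (⟨0,[(10,0)]⟩,⟨0,[(9,
  0)]⟩) .k 1 (⟨0,[]⟩,⟨0,[]⟩) .k .k) (.K ⟨0,[1,0,-1],0,0,(⟨0,[(10,0)]⟩,⟨0,[(11,0)]⟩),.k,(.x 0 ⟨0,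
  [(14,0)]⟩ ⟨3,[(8,0),(0,0),(2,1),(0,3)]⟩),(.x (-2) ⟨3,[(8,0),(0,0),(2,1),(0,3),(5,3)]⟩ ⟨0,[(1,
  0)]⟩),.k,.k,[⟨0,[(7,0),(3,0),(0,0)]⟩,⟨0,[(10,0)]⟩,⟨0,[(0,0)]⟩,⟨0,[(3,0)]⟩]⟩) (.I [1,1,0,0,0,0,1]
  (.R ⟨2,true,false,false,[0,1],[1,0,-1],[0,0,1,1],(⟨0,[]⟩,⟨0,[]⟩),(⟨0,[(11,0)]⟩,⟨0,[(12,0)]⟩),⟨0,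
  []⟩,.k,.k,.k,(.x (-1) ⟨3,[(9,0),(0,0),(2,1),(0,3)]⟩ ⟨0,[(15,0)]⟩),.k,.k,⟨true,0,⟨0,[(3,0),(6,0)]⟩,
  ⟨19,[(1,5),(1,11),(2,15),(2,0),(2,5),(0,10),(3,5)]⟩⟩,⟨false,0,⟨0,[(0,0),(0,0)]⟩,⟨3,[(9,0),(0,0),
  (1,3),(0,1)]⟩⟩,⟨false,1,⟨3,[(9,0),(0,0),(10,1)]⟩,⟨0,[]⟩⟩,⟨true,0,⟨0,[(1,0),(16,0)]⟩,⟨1,[(0,1),(2,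
  1),(6,0),(1,1),(0,0)]⟩⟩,⟨true,0,⟨0,[(19,0)]⟩,⟨0,[(18,0)]⟩⟩,⟨false,0,⟨0,[(1,0)]⟩,⟨7,[(8,3),(0,0),
  (0,4),(1,7),(0,5)]⟩⟩,[]⟩) (.Q [0,0,1,0,0,0,0,-1,1] (.p true [0,0,1] [1] (⟨0,[(12,0)]⟩,⟨0,[(11,
  0)]⟩) .k 1 (⟨0,[]⟩,⟨0,[]⟩) .k .k) (.R ⟨2,true,false,false,[0,1],[1,0,-1],[0,1],(⟨0,[]⟩,⟨0,[]⟩),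
  (⟨0,[(12,0)]⟩,⟨0,[(13,0)]⟩),⟨0,[]⟩,.k,.k,.k,(.x (-1) ⟨3,[(10,0),(0,0),(2,1),(0,3)]⟩ ⟨0,[(16,0)]⟩),
  .k,.k,⟨false,1,⟨1,[(11,0),(9,0),(2,1)]⟩,⟨0,[(1,0)]⟩⟩,⟨true,0,⟨0,[(12,0)]⟩,⟨0,[(0,0)]⟩⟩,⟨false,1,
  ⟨7,[(7,3),(2,0),(0,0),(2,1),(6,3)]⟩,⟨0,[(17,0)]⟩⟩,⟨true,0,⟨0,[(2,0),(16,0)]⟩,⟨0,[(0,0),(3,0),(6,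
  0),(6,0)]⟩⟩,⟨true,0,⟨0,[(18,0)]⟩,⟨7,[(9,3),(0,0),(0,0),(2,1)]⟩⟩,⟨false,0,⟨0,[(2,0)]⟩,⟨3,[(0,3),(9,
  0),(0,2)]⟩⟩,[]⟩) (.R ⟨0,false,false,true,[0,0,1],[1,-1],[0,1,0,0,0,0,1],(⟨0,[(13,0)]⟩,⟨0,[(12,
  0)]⟩),(⟨0,[(15,0)]⟩,⟨0,[(16,0)]⟩),⟨1,[(0,1),(5,0),(7,0)]⟩,.k,.k,(.x 1 ⟨0,[(3,0)]⟩ ⟨3,[(10,0),(0,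
  0),(2,1),(0,3),(5,3)]⟩),(.x (-1) ⟨3,[(10,0),(0,0),(2,1),(0,3)]⟩ ⟨0,[(16,0)]⟩),.k,.k,⟨true,0,⟨0,
  [(4,0),(6,0)]⟩,⟨0,[(1,0),(17,0)]⟩⟩,⟨false,0,⟨0,[(0,0)]⟩,⟨3,[(10,0),(0,0),(1,3),(0,1)]⟩⟩,⟨true,0,
  ⟨0,[(24,0)]⟩,⟨0,[]⟩⟩,⟨false,0,⟨0,[(2,0),(16,0)]⟩,⟨1,[(11,0),(1,1),(0,0),(2,1)]⟩⟩,⟨false,0,⟨0,[]⟩,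
  ⟨0,[]⟩⟩,⟨false,0,⟨0,[]⟩,⟨0,[]⟩⟩,[.o ⟨false,0,⟨0,[(19,0)]⟩,⟨1,[(14,0),(5,1),(1,0)]⟩⟩,.e ⟨false,1,
  ⟨1,[(11,0),(9,0)]⟩,⟨4,[(1,1),(2,0),(5,0),(7,0),(0,0)]⟩⟩ ⟨false,1,⟨3,[(0,1),(6,1),(4,1),(1,0),(6,
  2)]⟩,⟨1,[(4,1),(6,0),(1,1),(0,0)]⟩⟩,.a ⟨true,0,⟨7,[(9,3),(0,0),(0,0),(1,7),(0,1)]⟩,⟨0,[(0,0)]⟩⟩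
  ⟨false,1,⟨3,[(10,0),(0,2)]⟩,⟨0,[(1,0)]⟩⟩ ⟨true,0,⟨0,[(0,0),(18,0)]⟩,⟨1,[(4,1),(6,0),(1,1),(0,
  0)]⟩⟩,.o ⟨false,0,⟨0,[(9,0),(3,0),(0,0)]⟩,⟨1,[(0,1),(13,0),(6,0)]⟩⟩]⟩)))) (.I [1,-1,-3,-2,2] (.Q
  [0,0,0,0,0,2,0,-1] (.pp true [-1,1]) (.Q [0,0,-2,1,1,0,0,-1] (.pp true [-1,1]) (.R ⟨0,false,false,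
  false,[1,-1],[0,1],[1,1,1],(⟨0,[(15,0)]⟩,⟨0,[(16,0)]⟩),(⟨0,[(16,0)]⟩,⟨0,[(15,0)]⟩),⟨0,[(1,0)]⟩,.k,
  .k,(.r (-2) ⟨2,[(2,1),(7,0),(0,0),(7,1)]⟩ ⟨0,[(4,1),(6,0)]⟩),(.r (-2) ⟨2,[(2,1),(7,0),(0,0),(7,
  1)]⟩ ⟨0,[(4,1),(6,0)]⟩),.k,.k,⟨true,0,⟨0,[(19,0)]⟩,⟨1,[(4,1),(6,0),(10,0)]⟩⟩,⟨false,2,⟨27,[(0,23),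
  (1,11),(7,2),(0,2),(2,1),(9,11)]⟩,⟨0,[(9,0)]⟩⟩,⟨true,(-1),⟨0,[(8,0),(0,0)]⟩,⟨1,[(2,0),(15,0)]⟩⟩,
  ⟨false,1,⟨19,[(0,11),(7,3),(1,2),(0,2),(2,1),(2,23)]⟩,⟨0,[(7,0)]⟩⟩,⟨false,0,⟨0,[]⟩,⟨0,[]⟩⟩,⟨false,
  0,⟨0,[]⟩,⟨0,[]⟩⟩,[.e ⟨false,0,⟨0,[(24,0)]⟩,⟨1,[(21,0),(0,0)]⟩⟩ ⟨false,1,⟨0,[(0,0)]⟩,⟨3,[(7,1),(1,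
  1),(0,0),(0,0)]⟩⟩,.o ⟨false,1,⟨11,[(0,3),(9,0),(0,0),(2,3),(2,7),(4,1)]⟩,⟨0,[(19,0)]⟩⟩,.o ⟨false,
  0,⟨7,[(9,3),(0,0),(0,0),(2,1)]⟩,⟨27,[(0,7),(1,3),(7,0),(0,0),(2,9),(9,3)]⟩⟩,.a ⟨true,(-1),⟨0,[(9,
  0)]⟩,⟨0,[(21,0)]⟩⟩ ⟨false,0,⟨0,[]⟩,⟨3,[(10,0),(0,0),(10,1)]⟩⟩ ⟨true,1,⟨0,[(0,0)]⟩,⟨0,[(9,0),(9,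
  0)]⟩⟩]⟩) (.R ⟨0,false,false,false,[1,-1],[0,1],[1,1,1],(⟨0,[(15,0)]⟩,⟨0,[(16,0)]⟩),(⟨0,[(16,0)]⟩,
  ⟨0,[(15,0)]⟩),⟨0,[(1,0)]⟩,.k,.k,(.r (-2) ⟨2,[(2,1),(7,0),(0,0),(7,1)]⟩ ⟨0,[(4,1),(6,0)]⟩),(.r
  (-2) ⟨2,[(2,1),(7,0),(0,0),(7,1)]⟩ ⟨0,[(4,1),(6,0)]⟩),.k,.k,⟨true,0,⟨0,[(19,0)]⟩,⟨1,[(4,1),(6,0),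
  (10,0)]⟩⟩,⟨false,2,⟨1,[(14,0),(6,2)]⟩,⟨0,[(9,0)]⟩⟩,⟨true,(-1),⟨0,[(8,0),(0,0)]⟩,⟨1,[(2,0),(15,
  0)]⟩⟩,⟨false,1,⟨1,[(14,0),(5,3),(1,0)]⟩,⟨0,[(7,0)]⟩⟩,⟨false,0,⟨0,[]⟩,⟨0,[]⟩⟩,⟨false,0,⟨0,[]⟩,⟨0,
  []⟩⟩,[.a ⟨true,0,⟨0,[(20,0)]⟩,⟨1,[(7,0),(4,0),(0,0)]⟩⟩ ⟨false,0,⟨0,[(24,0)]⟩,⟨1,[(21,0),(0,0)]⟩⟩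
  ⟨true,1,⟨1,[(14,0),(5,1),(0,0)]⟩,⟨0,[(0,0)]⟩⟩,.o ⟨false,1,⟨1,[(14,0),(5,1),(1,0)]⟩,⟨0,[(19,0)]⟩⟩,
  .o ⟨false,0,⟨7,[(9,3),(0,0),(0,0),(2,1)]⟩,⟨1,[(14,0),(6,0)]⟩⟩,.e ⟨false,0,⟨0,[]⟩,⟨3,[(10,0),(0,0),
  (10,1)]⟩⟩ ⟨false,2,⟨1,[(14,0),(5,1),(0,1),(0,0)]⟩,⟨0,[(0,0)]⟩⟩]⟩)) (.S ⟨1,0,[0,1,-1,-1],[1,-1],[1,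
  0,1],(⟨0,[(14,0)]⟩,⟨0,[(15,0)]⟩),⟨0,[(0,0)]⟩,.k,(.r (-2) ⟨2,[(1,1),(7,0),(0,0),(7,1)]⟩ ⟨0,[(3,1),
  (6,0)]⟩),⟨false,0,⟨7,[(8,3),(0,0),(0,0),(2,1),(2,7)]⟩,⟨1,[(1,0),(15,0)]⟩⟩,⟨true,0,⟨0,[(23,0)]⟩,⟨0,
  []⟩⟩,⟨true,(-1),⟨0,[(3,1),(6,0)]⟩,⟨1,[(1,0),(15,0),(0,1)]⟩⟩,⟨false,0,⟨0,[(19,0)]⟩,⟨7,[(6,3),(2,0),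
  (0,0),(2,1),(7,3)]⟩⟩,[.o ⟨false,0,⟨0,[(18,0)]⟩,⟨1,[(13,0),(5,1),(1,0)]⟩⟩,.e ⟨false,1,⟨3,[(9,0),(0,
  0),(10,1)]⟩,⟨0,[(17,0)]⟩⟩ ⟨false,1,⟨1,[(1,0),(15,0)]⟩,⟨5,[(7,1),(0,1),(0,0),(0,0),(5,1),(2,1)]⟩⟩,
  .o ⟨false,0,⟨7,[(8,3),(0,0),(0,0),(2,1)]⟩,⟨1,[(13,0),(6,0)]⟩⟩,.a ⟨true,(-1),⟨0,[(8,0)]⟩,⟨0,[(20,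
  0)]⟩⟩ ⟨true,0,⟨0,[]⟩,⟨0,[(23,0)]⟩⟩ ⟨false,1,⟨1,[(1,0),(15,0)]⟩,⟨7,[(8,3),(0,0),(0,0),(2,1),(2,
  7)]⟩⟩]⟩)) t0)))

def t2 : Tre :=
  (.I [0,0,2,1,-1,0,1] (.Q [0,0,0,0,0,1,0,-1,1] (.ed false [0,1,1] .k) (.Q [0,1,1,1,-1,0,1,-1,1]
  (.p true [0,0,1] [1] (⟨0,[(10,0)]⟩,⟨0,[(9,0)]⟩) .k 1 (⟨0,[]⟩,⟨0,[]⟩) .k .k) (.Q [0,0,1,0,0,0,0,-1,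
  1] (.p true [0,0,1] [1] (⟨0,[(11,0)]⟩,⟨0,[(10,0)]⟩) .k 1 (⟨0,[]⟩,⟨0,[]⟩) .k .k) (.K ⟨0,[-1,1,1],0,
  (-1),(⟨0,[(2,0)]⟩,⟨0,[(11,0),(2,0)]⟩),(.x (-1) ⟨3,[(9,0),(0,0),(2,1),(0,3)]⟩ ⟨0,[(15,0)]⟩),.k,(.r
  1 ⟨0,[(3,0),(15,0)]⟩ ⟨1,[(6,1),(2,0),(3,0),(6,1)]⟩),.k,.k,[⟨7,[(8,3),(0,0),(0,0),(0,7),(1,1)]⟩,⟨0,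
  [(0,0)]⟩,⟨1,[(9,0),(1,1),(6,1),(1,0)]⟩,⟨0,[(1,0)]⟩]⟩) (.K ⟨0,[2,-1,-1],(-1),0,(⟨0,[(11,0),(2,0)]⟩,
  ⟨0,[(2,0)]⟩),(.x 0 ⟨0,[(15,0)]⟩ ⟨3,[(9,0),(0,0),(2,1),(0,3)]⟩),(.r (-2) ⟨1,[(6,1),(2,0),(3,0),(6,
  1)]⟩ ⟨0,[(3,0),(15,0)]⟩),.k,.k,.k,[⟨5,[(1,1),(2,3),(4,3),(0,0),(2,2),(4,1)]⟩,⟨0,[(0,0),(7,0)]⟩,⟨3,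
  [(1,3),(7,0),(0,0),(2,1)]⟩,⟨1,[(0,1),(5,0),(1,0),(0,0),(7,1)]⟩]⟩)) (.Q [0,0,0,0,0,1,0,0,-1] (.ed
  true [1,-1,1] .k) (.I [1,0,-1,-1,1,0,-1] (.R ⟨0,false,false,false,[1,-1],[0,0,1],[1,0,-1,-1],(⟨0,
  [(15,0)]⟩,⟨0,[(16,0)]⟩),(⟨0,[(13,0)]⟩,⟨0,[(12,0)]⟩),⟨0,[(1,0),(1,0)]⟩,.k,.k,(.x 1 ⟨0,[(1,0),(1,0),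
  (5,0)]⟩ ⟨0,[(14,0),(0,1),(5,0)]⟩),(.x 0 ⟨0,[(16,0)]⟩ ⟨3,[(10,0),(0,0),(2,1),(0,3)]⟩),.k,.k,⟨true,
  1,⟨0,[(0,0)]⟩,⟨0,[(4,0)]⟩⟩,⟨false,1,⟨1,[(13,1),(0,0),(6,0)]⟩,⟨0,[(12,0)]⟩⟩,⟨true,0,⟨0,[]⟩,⟨0,[(24,
  0)]⟩⟩,⟨false,0,⟨0,[(5,0),(14,0)]⟩,⟨0,[(2,0),(21,0)]⟩⟩,⟨false,0,⟨0,[]⟩,⟨0,[]⟩⟩,⟨false,0,⟨0,[]⟩,⟨0,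
  []⟩⟩,[.o ⟨false,0,⟨0,[(5,0),(18,0)]⟩,⟨0,[(2,0),(5,0)]⟩⟩,.o ⟨false,0,⟨0,[(5,0)]⟩,⟨0,[(2,0),(5,0),
  (15,0)]⟩⟩,.o ⟨false,0,⟨7,[(9,3),(0,0),(0,0),(2,1)]⟩,⟨1,[(14,0),(6,0)]⟩⟩,.a ⟨true,(-1),⟨0,[(9,0)]⟩,
  ⟨0,[(21,0)]⟩⟩ ⟨true,1,⟨0,[(2,0),(2,0),(12,1)]⟩,⟨0,[(8,0),(0,0)]⟩⟩ ⟨false,1,⟨0,[(5,0),(15,0)]⟩,⟨0,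
  [(2,0),(5,0),(0,0)]⟩⟩]⟩) (.R ⟨0,false,false,false,[1,-1],[0,0,1],[0,1,1],(⟨0,[(15,0)]⟩,⟨0,[(16,
  0)]⟩),(⟨0,[(13,0)]⟩,⟨0,[(12,0)]⟩),⟨0,[(1,0),(1,0)]⟩,.k,.k,(.x 1 ⟨0,[(0,5),(1,1),(0,1),(3,1),(2,1),
  (3,0),(3,1)]⟩ ⟨0,[(14,0),(0,1),(5,0)]⟩),(.x 0 ⟨0,[(16,0)]⟩ ⟨3,[(10,0),(0,0),(2,1),(0,3)]⟩),.k,.k,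
  ⟨true,0,⟨1,[(8,0),(0,0),(0,0),(8,0)]⟩,⟨0,[(0,0),(1,0),(2,0),(12,0)]⟩⟩,⟨false,1,⟨1,[(13,1),(0,0),
  (6,0)]⟩,⟨0,[(12,0)]⟩⟩,⟨true,(-1),⟨0,[(8,0),(0,0)]⟩,⟨0,[(2,0),(2,0),(12,1)]⟩⟩,⟨false,0,⟨0,[(5,0),
  (14,0)]⟩,⟨0,[(2,0),(21,0)]⟩⟩,⟨false,0,⟨0,[]⟩,⟨0,[]⟩⟩,⟨false,0,⟨0,[]⟩,⟨0,[]⟩⟩,[.o ⟨false,0,⟨0,[(5,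
  0),(18,0)]⟩,⟨0,[(2,0),(5,0)]⟩⟩,.o ⟨false,0,⟨0,[(5,0)]⟩,⟨0,[(2,0),(5,0),(15,0)]⟩⟩,.o ⟨false,0,⟨7,
  [(9,3),(0,0),(0,0),(2,1)]⟩,⟨1,[(14,0),(6,0)]⟩⟩,.a ⟨true,(-1),⟨0,[(9,0)]⟩,⟨0,[(21,0)]⟩⟩ ⟨true,0,⟨0,
  [(24,0)]⟩,⟨0,[]⟩⟩ ⟨false,1,⟨0,[(5,0),(15,0)]⟩,⟨0,[(2,0),(5,0),(0,0)]⟩⟩]⟩)) (.R ⟨0,false,false,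
  false,[1,0,-1],[2,-1,-1],[0,1],(⟨0,[(11,0)]⟩,⟨0,[(12,0)]⟩),(⟨0,[(11,0),(2,0)]⟩,⟨0,[(2,0)]⟩),⟨0,
  [(2,0)]⟩,.k,(.x 0 ⟨0,[(15,0)]⟩ ⟨3,[(9,0),(0,0),(2,1),(0,3)]⟩),(.x 0 ⟨0,[(15,0)]⟩ ⟨3,[(9,0),(0,0),
  (2,1),(0,3)]⟩),.k,.k,.k,⟨true,(-1),⟨0,[(3,0),(13,0)]⟩,⟨1,[(0,0),(0,1),(0,0),(5,0),(4,0)]⟩⟩,⟨false,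
  0,⟨0,[(11,0),(0,0)]⟩,⟨1,[(13,0),(6,0)]⟩⟩,⟨false,0,⟨0,[(4,0),(6,0),(5,0)]⟩,⟨1,[(9,0),(11,0)]⟩⟩,
  ⟨true,0,⟨1,[(6,0),(4,0),(0,0)]⟩,⟨0,[(7,0)]⟩⟩,⟨false,0,⟨0,[]⟩,⟨0,[]⟩⟩,⟨false,0,⟨0,[]⟩,⟨0,[]⟩⟩,[.o
  ⟨false,1,⟨0,[(1,0),(21,0)]⟩,⟨0,[(4,0),(2,0)]⟩⟩,.o ⟨false,1,⟨0,[(1,0)]⟩,⟨0,[(4,0),(2,0),(15,0)]⟩⟩,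
  .o ⟨false,1,⟨1,[(11,1),(1,0),(6,0)]⟩,⟨1,[(0,0),(1,0),(5,0),(4,0)]⟩⟩,.a ⟨true,0,⟨0,[(11,0)]⟩,⟨0,
  [(12,0)]⟩⟩ ⟨true,0,⟨0,[(17,0)]⟩,⟨7,[(8,3),(0,0),(0,0),(2,1)]⟩⟩ ⟨false,1,⟨0,[(1,0),(10,0)]⟩,⟨1,[(3,
  1),(9,0),(6,0)]⟩⟩]⟩))) (.Q [0,1,1,0,-1,0,1,-1,1] (.p true [0,0,1] [1] (⟨0,[(10,0)]⟩,⟨0,[(9,0)]⟩)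
  .k 1 (⟨0,[]⟩,⟨0,[]⟩) .k .k) (.K ⟨0,[1,-1,-1],0,1,(⟨0,[(1,0)]⟩,⟨1,[(4,0),(6,1),(7,0)]⟩),(.x 0 ⟨0,
  [(14,0)]⟩ ⟨3,[(8,0),(0,0),(2,1),(0,3)]⟩),(.r (-2) ⟨1,[(5,1),(2,0),(3,0),(6,1)]⟩ ⟨0,[(2,0),(15,
  0)]⟩),.k,.k,.k,[⟨1,[(0,0),(2,0),(4,0)]⟩,⟨7,[(7,3),(0,0),(0,0),(0,7),(1,1)]⟩,⟨0,[(0,0),(17,0)]⟩,⟨1,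
  [(8,0),(1,1),(6,1),(1,0)]⟩]⟩) (.Q [0,1,-1,-1,1,0,-1,0,-1] (.p false [0,0,1] [] (⟨0,[(11,0)]⟩,⟨0,
  [(10,0)]⟩) .k 0 (⟨0,[]⟩,⟨0,[]⟩) .k .k) (.K ⟨0,[0,1,1],0,(-1),(⟨1,[(5,0),(6,1),(7,0)]⟩,⟨0,[(2,
  0)]⟩),(.x (-1) ⟨3,[(9,0),(0,0),(2,1),(0,3)]⟩ ⟨0,[(15,0)]⟩),.k,(.r 1 ⟨0,[(3,0),(15,0)]⟩ ⟨1,[(6,1),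
  (2,0),(3,0),(6,1)]⟩),.k,.k,[⟨1,[(2,1),(2,0),(7,0)]⟩,⟨11,[(4,3),(3,3),(0,2),(0,0),(1,7),(10,3)]⟩,
  ⟨0,[(0,0)]⟩,⟨0,[(3,0),(8,0),(4,0)]⟩]⟩) (.K ⟨0,[1,-1,-1],0,1,(⟨0,[(2,0)]⟩,⟨1,[(5,0),(6,1),(7,0)]⟩),
  (.x 0 ⟨0,[(15,0)]⟩ ⟨3,[(9,0),(0,0),(2,1),(0,3)]⟩),(.r (-2) ⟨1,[(6,1),(2,0),(3,0),(6,1)]⟩ ⟨0,[(3,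
  0),(15,0)]⟩),.k,.k,.k,[⟨1,[(0,1),(8,0),(3,0),(4,1)]⟩,⟨7,[(8,3),(0,0),(0,0),(0,7),(1,1)]⟩,⟨0,[(0,
  0),(6,0),(10,0)]⟩,⟨0,[(1,0),(16,0),(4,0)]⟩]⟩)))) (.Q [0,0,0,0,0,0,0,-1,2] (.ed false [0,0,2] (.r
  0 ⟨0,[(1,1),(6,1),(5,1)]⟩ ⟨0,[(6,0)]⟩)) (.Q [0,0,0,0,0,1,0,-1,1] (.ed false [0,1,1] .k) (.R ⟨0,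
  false,false,true,[1,0,-1],[2,-1,-1],[1,0,0,0,0,0,-1],(⟨0,[(10,0)]⟩,⟨0,[(11,0)]⟩),(⟨0,[(10,0),(2,
  0)]⟩,⟨0,[(0,0)]⟩),⟨0,[(0,0)]⟩,.k,(.x 0 ⟨0,[(14,0)]⟩ ⟨3,[(8,0),(0,0),(2,1),(0,3)]⟩),(.x 0 ⟨0,[(14,
  0)]⟩ ⟨3,[(8,0),(0,0),(2,1),(0,3)]⟩),.k,.k,.k,⟨true,0,⟨0,[(15,0)]⟩,⟨0,[(17,0)]⟩⟩,⟨false,0,⟨0,[(10,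
  0),(0,0)]⟩,⟨1,[(12,0),(6,0)]⟩⟩,⟨true,0,⟨0,[]⟩,⟨0,[(22,0)]⟩⟩,⟨false,0,⟨1,[(5,0),(4,0),(0,0)]⟩,⟨1,
  [(12,0),(5,1),(1,0)]⟩⟩,⟨false,0,⟨0,[]⟩,⟨0,[]⟩⟩,⟨false,0,⟨0,[]⟩,⟨0,[]⟩⟩,[.e ⟨false,1,⟨1,[(8,0),(10,
  0)]⟩,⟨0,[(3,0),(6,0),(5,0)]⟩⟩ ⟨false,0,⟨0,[(2,0),(4,0),(8,0)]⟩,⟨1,[(3,1),(6,1),(1,0),(5,1),(0,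
  0)]⟩⟩,.o ⟨false,1,⟨15,[(2,7),(2,3),(2,4),(0,0),(0,15),(1,1)]⟩,⟨0,[(3,0),(2,0)]⟩⟩,.o ⟨false,1,⟨1,
  [(10,1),(1,0),(6,0)]⟩,⟨1,[(1,0),(5,0),(4,0)]⟩⟩,.a ⟨true,0,⟨0,[(10,0)]⟩,⟨0,[(11,0)]⟩⟩ ⟨false,1,⟨0,
  [(2,0),(12,0)]⟩,⟨3,[(3,1),(2,0),(0,0),(1,0),(0,1),(6,0)]⟩⟩ ⟨true,0,⟨0,[(2,0),(4,0),(8,0)]⟩,⟨0,[(3,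
  0),(2,0),(3,0)]⟩⟩]⟩) (.S ⟨1,0,[0,0,-1,-1],[1,-1],[0,1,-1,-1],(⟨0,[(13,0)]⟩,⟨0,[(14,0)]⟩),⟨0,[(0,
  1),(0,0)]⟩,.k,(.r (-1) ⟨0,[(0,1),(1,1),(0,1),(0,0),(11,1)]⟩ ⟨2,[(6,1),(0,1),(0,0),(0,0),(5,1),(2,
  1)]⟩),⟨true,0,⟨0,[(22,0)]⟩,⟨0,[]⟩⟩,⟨false,1,⟨3,[(8,0),(0,0),(10,1)]⟩,⟨0,[]⟩⟩,⟨false,0,⟨0,[(18,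
  0)]⟩,⟨7,[(5,3),(2,0),(0,0),(2,1),(7,3)]⟩⟩,⟨true,0,⟨0,[(18,0)]⟩,⟨0,[(17,0)]⟩⟩,[.e ⟨false,1,⟨2,[(2,
  1),(6,0),(6,1),(0,0)]⟩,⟨0,[(15,0)]⟩⟩ ⟨false,1,⟨0,[(2,0),(0,0),(6,0),(5,0)]⟩,⟨5,[(6,1),(0,1),(0,0),
  (0,0),(5,1),(2,1)]⟩⟩,.o ⟨false,1,⟨7,[(5,3),(2,0),(0,0),(2,1),(7,3)]⟩,⟨0,[(6,0)]⟩⟩,.o ⟨false,0,⟨7,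
  [(7,3),(0,0),(0,0),(2,1)]⟩,⟨1,[(12,0),(6,0)]⟩⟩,.a ⟨true,(-1),⟨0,[(7,0)]⟩,⟨0,[(19,0)]⟩⟩ ⟨false,1,
  ⟨0,[(2,0),(0,0),(6,0),(5,0)]⟩,⟨7,[(7,3),(0,0),(0,0),(2,1),(2,7)]⟩⟩ ⟨true,1,⟨0,[(2,0),(0,0),(6,0),
  (5,0)]⟩,⟨0,[(6,0),(0,0)]⟩⟩]⟩)) (.Q [0,0,0,0,0,1,0,0,-1] (.ed true [1,-1,1] .k) (.K ⟨0,[1,-1,1],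
  (-1),(-1),(⟨0,[(11,0),(1,0)]⟩,⟨0,[(0,0)]⟩),(.r (-1) ⟨5,[(1,0),(1,1),(1,2),(3,1),(2,0),(3,1),(2,
  2)]⟩ ⟨0,[(2,0),(3,0),(0,0),(7,0)]⟩),(.r (-1) ⟨3,[(1,2),(0,1),(0,5),(1,2),(10,5),(2,1)]⟩ ⟨11,[(6,
  7),(0,7),(0,6),(0,0),(5,7),(2,7)]⟩),.k,.k,.k,[⟨0,[(1,0),(0,0),(0,0),(2,0)]⟩,⟨11,[(3,3),(3,15),(0,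
  2),(0,0),(1,7),(10,3)]⟩,⟨3,[(1,1),(0,1),(3,3),(1,0),(3,0),(5,1)]⟩,⟨1,[(3,1),(1,0),(1,1),(2,0),(0,
  0),(4,3)]⟩]⟩) (.K ⟨0,[0,1,1],0,(-1),(⟨1,[(4,0),(6,1),(7,0)]⟩,⟨0,[(0,0),(0,0)]⟩),(.x (-1) ⟨3,[(8,
  0),(0,0),(2,1),(0,3)]⟩ ⟨0,[(14,0)]⟩),.k,(.x (-1) ⟨1,[(0,3),(0,1),(10,0),(6,0)]⟩ ⟨3,[(4,3),(3,0),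
  (0,0),(9,1)]⟩),.k,.k,[⟨1,[(1,0),(5,0),(4,0)]⟩,⟨11,[(3,3),(3,3),(0,2),(0,0),(1,7),(10,3)]⟩,⟨3,[(1,
  1),(0,1),(5,0),(3,0),(4,1),(4,1)]⟩,⟨0,[(3,0),(3,0),(8,1),(1,0)]⟩]⟩))))

def t3 : Tre :=
  (.Q [0,0,0,2,0,0,0,-1] (.pp true [-1,1]) (.Q [0,0,0,-1,0,0,0,1] (.pp false [-1,1]) (.R ⟨2,true,
  false,true,[0,1],[1,-1],[0,1],(⟨0,[]⟩,⟨0,[]⟩),(⟨0,[(9,0)]⟩,⟨0,[(10,0)]⟩),⟨0,[]⟩,.k,.k,.k,(.r 1 ⟨0,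
  [(1,0),(1,0)]⟩ ⟨0,[(13,1),(1,0),(0,0)]⟩),.k,.k,⟨false,0,⟨0,[(14,0)]⟩,⟨1,[(13,1),(1,0),(0,0)]⟩⟩,
  ⟨true,(-1),⟨0,[(3,0)]⟩,⟨1,[(8,0),(6,0)]⟩⟩,⟨false,1,⟨1,[(13,1),(1,0),(0,0)]⟩,⟨0,[(11,0)]⟩⟩,⟨true,0,
  ⟨0,[(0,0),(12,0)]⟩,⟨0,[(1,0)]⟩⟩,⟨true,0,⟨0,[(12,0)]⟩,⟨7,[(3,3),(0,0),(0,0),(2,1)]⟩⟩,⟨false,0,⟨0,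
  [(0,0)]⟩,⟨7,[(1,3),(2,0),(0,0),(2,1),(7,3)]⟩⟩,[]⟩) (.Q [0,0,0,0,0,-2,0,1] (.pp false [-1,1]) (.S
  ⟨1,0,[0,0,-1,-1],[1,-1],[0,1,-1,-1],(⟨0,[(10,0)]⟩,⟨0,[(11,0)]⟩),⟨0,[(0,0)]⟩,.k,(.r (-2) ⟨0,[(14,
  1),(1,0),(0,0)]⟩ ⟨0,[(2,0),(1,0)]⟩),⟨true,0,⟨0,[(19,0)]⟩,⟨0,[]⟩⟩,⟨false,1,⟨3,[(5,0),(0,0),(10,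
  1)]⟩,⟨0,[]⟩⟩,⟨false,0,⟨0,[(15,0)]⟩,⟨0,[(14,0),(2,0)]⟩⟩,⟨true,0,⟨0,[(15,0)]⟩,⟨0,[(14,0)]⟩⟩,[.o
  ⟨false,1,⟨3,[(5,0),(0,0),(7,3),(2,1)]⟩,⟨0,[(1,0)]⟩⟩,.o ⟨false,1,⟨0,[(14,0),(2,0)]⟩,⟨0,[(3,0)]⟩⟩,
  .o ⟨false,0,⟨7,[(4,3),(0,0),(0,0),(2,1)]⟩,⟨1,[(9,0),(6,0)]⟩⟩,.a ⟨true,(-1),⟨0,[(4,0)]⟩,⟨0,[(16,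
  0)]⟩⟩ ⟨true,1,⟨0,[(14,0),(1,0)]⟩,⟨0,[(1,0),(2,0)]⟩⟩ ⟨false,2,⟨0,[(14,0),(1,0),(0,0)]⟩,⟨0,[(1,0),
  (2,0)]⟩⟩]⟩) (.Q [0,-1,0,-2,1,0,0,1] (.pp false [-1,1]) (.R ⟨0,false,false,true,[1,-1],[0,1],[0,1],
  (⟨0,[(11,0)]⟩,⟨0,[(12,0)]⟩),(⟨0,[(12,0)]⟩,⟨0,[(11,0)]⟩),⟨0,[(1,0)]⟩,.k,.k,(.r (-2) ⟨2,[(0,1),(9,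
  0),(4,1),(1,2)]⟩ ⟨0,[(3,0),(1,0)]⟩),(.r (-2) ⟨2,[(0,1),(9,0),(4,1),(1,2)]⟩ ⟨0,[(3,0),(1,0)]⟩),.k,
  .k,⟨true,1,⟨5,[(0,1),(9,0),(4,1),(1,2)]⟩,⟨0,[(2,0),(2,0)]⟩⟩,⟨false,2,⟨1,[(10,0),(6,2)]⟩,⟨0,[(5,
  0)]⟩⟩,⟨true,(-1),⟨0,[(2,0),(2,0),(8,0)]⟩,⟨5,[(0,1),(9,0),(4,1),(1,2)]⟩⟩,⟨false,0,⟨0,[(3,0)]⟩,⟨0,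
  [(0,0)]⟩⟩,⟨false,0,⟨0,[]⟩,⟨0,[]⟩⟩,⟨false,0,⟨0,[]⟩,⟨0,[]⟩⟩,[.o ⟨false,0,⟨0,[(4,0)]⟩,⟨3,[(0,1),(9,
  0),(7,0)]⟩⟩,.o ⟨false,0,⟨0,[(2,0)]⟩,⟨11,[(0,3),(5,2),(0,2),(2,1),(4,3)]⟩⟩,.o ⟨false,0,⟨7,[(5,3),
  (0,0),(0,0),(2,1)]⟩,⟨1,[(10,0),(6,0)]⟩⟩,.a ⟨true,(-1),⟨0,[(5,0)]⟩,⟨0,[(17,0)]⟩⟩ ⟨true,0,⟨0,[(14,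
  0)]⟩,⟨7,[(5,3),(0,0),(0,0),(2,1)]⟩⟩ ⟨false,1,⟨0,[(2,0),(14,0)]⟩,⟨3,[(0,1),(4,3),(4,0),(7,0)]⟩⟩]⟩)
  (.R ⟨2,true,false,false,[0,1],[1,-1],[0,0,1,1],(⟨0,[]⟩,⟨0,[]⟩),(⟨0,[(11,0)]⟩,⟨0,[(12,0)]⟩),⟨0,[]⟩,
  .k,.k,.k,(.r 1 ⟨0,[(3,0),(1,0)]⟩ ⟨0,[(15,1),(1,0),(0,0)]⟩),.k,.k,⟨false,(-1),⟨1,[(0,1),(4,0),(2,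
  0),(0,0),(8,0)]⟩,⟨0,[(15,1),(1,0),(0,0)]⟩⟩,⟨true,(-1),⟨0,[(5,0)]⟩,⟨1,[(10,0),(6,0)]⟩⟩,⟨false,1,⟨3,
  [(6,0),(0,0),(10,1)]⟩,⟨0,[]⟩⟩,⟨true,1,⟨0,[(8,0),(0,0),(5,1),(2,0)]⟩,⟨0,[(0,0)]⟩⟩,⟨true,0,⟨0,[(16,
  0)]⟩,⟨0,[(15,0)]⟩⟩,⟨false,1,⟨0,[(8,0),(0,0),(5,0),(2,0)]⟩,⟨0,[(2,0)]⟩⟩,[]⟩)))) (.I [0,0,-2,0,1,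
  -2] (.I [0,0,-2,-1,1] (.S ⟨1,0,[0,0,-1,-1],[1,-1],[0,1,-1,-1],(⟨0,[(10,0)]⟩,⟨0,[(11,0)]⟩),⟨0,[(1,
  0),(2,0)]⟩,.k,(.x 0 ⟨3,[(4,3),(0,0),(0,0),(2,1),(1,7)]⟩ ⟨0,[(1,0)]⟩),⟨true,0,⟨0,[(19,0)]⟩,⟨0,[]⟩⟩,
  ⟨false,1,⟨3,[(5,0),(0,0),(10,1)]⟩,⟨0,[]⟩⟩,⟨false,0,⟨0,[(15,0)]⟩,⟨7,[(2,3),(2,0),(0,0),(2,1),(7,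
  3)]⟩⟩,⟨true,0,⟨0,[(15,0)]⟩,⟨0,[(14,0)]⟩⟩,[.e ⟨false,1,⟨0,[(0,0),(18,0)]⟩,⟨0,[(12,0)]⟩⟩ ⟨false,1,
  ⟨0,[(0,0)]⟩,⟨5,[(3,1),(0,1),(0,0),(0,0),(5,1),(2,1)]⟩⟩,.o ⟨false,1,⟨7,[(2,3),(2,0),(0,0),(2,1),(7,
  3)]⟩,⟨0,[(3,0)]⟩⟩,.o ⟨false,0,⟨7,[(4,3),(0,0),(0,0),(2,1)]⟩,⟨1,[(9,0),(6,0)]⟩⟩,.a ⟨true,(-1),⟨0,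
  [(4,0)]⟩,⟨0,[(16,0)]⟩⟩ ⟨false,1,⟨0,[(0,0)]⟩,⟨7,[(4,3),(0,0),(0,0),(2,1),(2,7)]⟩⟩ ⟨true,1,⟨0,[(0,
  0)]⟩,⟨0,[(3,0),(0,0)]⟩⟩]⟩) (.Q [0,0,0,3,0,0,0,-1] (.pp true [-1,1]) (.R ⟨1,true,false,false,[1,
  -1],[0,1],[0,1,-1,-1],(⟨0,[(11,0)]⟩,⟨0,[(12,0)]⟩),(⟨0,[(12,0)]⟩,⟨0,[(11,0)]⟩),⟨0,[(2,0),(2,0)]⟩,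
  .k,.k,(.x 0 ⟨3,[(5,3),(0,0),(0,0),(2,1),(1,7)]⟩ ⟨0,[(2,0)]⟩),(.x 0 ⟨3,[(5,3),(0,0),(0,0),(2,1),(1,
  7)]⟩ ⟨0,[(2,0)]⟩),(.x 1 ⟨1,[(1,1),(1,0),(1,0),(4,0),(1,5)]⟩ ⟨3,[(2,5),(3,0),(0,0)]⟩),.k,⟨true,1,
  ⟨1,[(3,1),(6,0),(3,1),(2,0)]⟩,⟨0,[(1,0),(11,0)]⟩⟩,⟨false,2,⟨1,[(10,0),(6,2)]⟩,⟨0,[(5,0)]⟩⟩,⟨true,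
  0,⟨0,[(20,0)]⟩,⟨0,[]⟩⟩,⟨false,1,⟨5,[(0,3),(5,0),(0,0),(2,0),(7,2)]⟩,⟨0,[(3,0)]⟩⟩,⟨false,0,⟨0,[(16,
  0)]⟩,⟨7,[(3,3),(2,0),(0,0),(2,1),(7,3)]⟩⟩,⟨true,0,⟨0,[(0,0)]⟩,⟨0,[(3,0),(11,0)]⟩⟩,[]⟩) (.Q [0,1,1,
  0,-1,0,1,-1,1] (.p true [0,0,1] [1] (⟨0,[(9,0)]⟩,⟨0,[(8,0)]⟩) .k 1 (⟨0,[]⟩,⟨0,[]⟩) .k .k) (.K ⟨0,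
  [1,0,-1],0,1,(⟨0,[(9,0)]⟩,⟨0,[(10,0)]⟩),.k,(.x 0 ⟨0,[(13,0)]⟩ ⟨3,[(7,0),(0,0),(2,1),(0,3)]⟩),(.r
  0 ⟨1,[(2,0),(4,0),(9,0)]⟩ ⟨5,[(0,1),(0,1),(6,1),(0,1),(1,0),(6,3),(0,0)]⟩),.k,.k,[⟨0,[(6,0),(3,0),
  (0,0)]⟩,⟨0,[(9,0)]⟩,⟨0,[(0,0)]⟩,⟨1,[(7,0),(1,1),(8,0),(2,1)]⟩]⟩) (.Q [0,1,-1,0,0,0,-1,1,-1] (.p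
  false [0,0,1] [1] (⟨0,[(10,0)]⟩,⟨0,[(9,0)]⟩) .k 1 (⟨0,[]⟩,⟨0,[]⟩) .k .k) (.Q [0,1,1,0,0,0,1,-1,1]
  (.p true [0,0,1] [1] (⟨0,[(11,0)]⟩,⟨0,[(10,0)]⟩) .k 1 (⟨0,[]⟩,⟨0,[]⟩) .k .k) (.K ⟨0,[1,0,-1],0,0,
  (⟨0,[(11,0)]⟩,⟨0,[(12,0)]⟩),.k,(.x 0 ⟨0,[(15,0)]⟩ ⟨3,[(9,0),(0,0),(2,1),(0,3)]⟩),(.x (-1) ⟨1,[(5,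
  0),(14,0)]⟩ ⟨3,[(8,3),(0,0),(0,0),(2,1),(1,3)]⟩),.k,.k,[⟨0,[(8,0),(3,0),(0,0)]⟩,⟨0,[(11,0)]⟩,⟨0,
  [(0,0)]⟩,⟨0,[(1,0)]⟩]⟩) (.Q [0,0,-1,0,0,0,0,1,-1] (.p false [0,0,1] [1] (⟨0,[(12,0)]⟩,⟨0,[(11,
  0)]⟩) .k 1 (⟨0,[]⟩,⟨0,[]⟩) .k .k) (.R ⟨2,true,false,false,[0,1],[1,0,-1],[0,0,1,1],(⟨0,[]⟩,⟨0,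
  []⟩),(⟨0,[(12,0)]⟩,⟨0,[(13,0)]⟩),⟨0,[]⟩,.k,.k,.k,(.x (-1) ⟨3,[(10,0),(0,0),(2,1),(0,3)]⟩ ⟨0,[(16,
  0)]⟩),.k,.k,⟨true,0,⟨1,[(5,0),(5,0),(8,0)]⟩,⟨17,[(1,15),(2,13),(0,7),(2,15),(1,0),(2,15),(0,6)]⟩⟩,
  ⟨false,0,⟨0,[(0,0)]⟩,⟨3,[(10,0),(0,0),(1,3),(0,1)]⟩⟩,⟨false,1,⟨3,[(10,0),(0,0),(10,1)]⟩,⟨0,[]⟩⟩,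
  ⟨true,0,⟨0,[(1,0),(17,0)]⟩,⟨1,[(5,1),(5,0),(1,1),(0,0),(3,1)]⟩⟩,⟨true,0,⟨0,[(20,0)]⟩,⟨0,[(19,
  0)]⟩⟩,⟨false,0,⟨0,[(1,0)]⟩,⟨7,[(9,3),(0,0),(0,4),(1,7),(0,5)]⟩⟩,[]⟩) (.R ⟨2,true,false,false,[0,
  1],[1,0,-1],[0,1],(⟨0,[]⟩,⟨0,[]⟩),(⟨0,[(12,0)]⟩,⟨0,[(13,0)]⟩),⟨0,[]⟩,.k,.k,.k,(.x (-1) ⟨3,[(10,0),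
  (0,0),(2,1),(0,3)]⟩ ⟨0,[(16,0)]⟩),.k,.k,⟨false,1,⟨1,[(11,0),(9,0),(2,1)]⟩,⟨0,[(0,0),(0,0)]⟩⟩,
  ⟨true,0,⟨0,[(12,0)]⟩,⟨0,[(0,0)]⟩⟩,⟨false,1,⟨5,[(4,1),(5,0),(0,0),(2,0),(6,2)]⟩,⟨0,[(17,0)]⟩⟩,
  ⟨true,0,⟨0,[(1,0),(17,0)]⟩,⟨1,[(0,0),(4,0),(2,0),(2,0),(1,0),(4,0)]⟩⟩,⟨true,0,⟨0,[(18,0)]⟩,⟨7,[(9,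
  3),(0,0),(0,0),(2,1)]⟩⟩,⟨false,0,⟨0,[(1,0)]⟩,⟨3,[(0,3),(9,0),(0,2)]⟩⟩,[]⟩))) (.Q [0,0,1,0,0,0,0,
  -1,1] (.p true [0,0,1] [1] (⟨0,[(11,0)]⟩,⟨0,[(10,0)]⟩) .k 1 (⟨0,[]⟩,⟨0,[]⟩) .k .k) (.R ⟨2,true,
  false,false,[0,1],[1,0,-1],[0,1],(⟨0,[]⟩,⟨0,[]⟩),(⟨0,[(11,0)]⟩,⟨0,[(12,0)]⟩),⟨0,[]⟩,.k,.k,.k,(.x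
  (-1) ⟨3,[(9,0),(0,0),(2,1),(0,3)]⟩ ⟨0,[(15,0)]⟩),.k,.k,⟨false,0,⟨0,[(1,0),(9,0),(5,1)]⟩,⟨1,[(9,0),
  (11,0)]⟩⟩,⟨true,0,⟨0,[(11,0)]⟩,⟨0,[(0,0)]⟩⟩,⟨false,1,⟨5,[(3,1),(5,0),(0,0),(2,0),(6,2)]⟩,⟨0,[(16,
  0)]⟩⟩,⟨true,1,⟨0,[(2,0),(15,0)]⟩,⟨0,[(1,0),(2,0),(12,1)]⟩⟩,⟨true,0,⟨0,[(17,0)]⟩,⟨7,[(8,3),(0,0),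
  (0,0),(2,1)]⟩⟩,⟨false,1,⟨0,[(2,0)]⟩,⟨0,[(1,0),(21,0)]⟩⟩,[]⟩) (.R ⟨2,true,false,false,[0,1],[1,0,
  -1],[0,0,1,1],(⟨0,[]⟩,⟨0,[]⟩),(⟨0,[(11,0)]⟩,⟨0,[(12,0)]⟩),⟨0,[]⟩,.k,.k,.k,(.x (-1) ⟨3,[(9,0),(0,
  0),(2,1),(0,3)]⟩ ⟨0,[(15,0)]⟩),.k,.k,⟨true,(-1),⟨0,[(0,0),(0,0),(2,0),(12,0)]⟩,⟨5,[(3,1),(5,3),(0,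
  0),(2,0)]⟩⟩,⟨false,0,⟨0,[(0,0)]⟩,⟨3,[(9,0),(0,0),(1,3),(0,1)]⟩⟩,⟨false,1,⟨3,[(9,0),(0,0),(10,1)]⟩,
  ⟨0,[]⟩⟩,⟨true,1,⟨0,[(2,0),(15,0)]⟩,⟨0,[(1,0),(2,0),(12,1)]⟩⟩,⟨true,0,⟨0,[(19,0)]⟩,⟨0,[(18,0)]⟩⟩,
  ⟨false,1,⟨0,[(2,0)]⟩,⟨0,[(1,0),(21,0)]⟩⟩,[]⟩)))))) (.Q [0,1,-1,0,0,0,-1,1,-1] (.p false [0,0,1]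
  [1] (⟨0,[(7,0)]⟩,⟨0,[(6,0)]⟩) .k 1 (⟨0,[]⟩,⟨0,[]⟩) .k .k) t1 t2)))

def tree : Tre :=
  t3

theorem ok : chk (cPU 1 true) tree base = true := by
  decide +kernel

theorem closed {p a b c J l q : ℤ} {D dl : ℝ} {Cl : ℤ → ℤ → ℤ → ℤ → ℝ → Prop}
    (W : World p a b c J 1 l q D dl Cl) (hE : KEmp p a b 1 (P1 l p) Cl)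
    (g : G0 p a b c J D)
    {N R : ℤ} {I : ℝ} (hu : UFac p b D Cl N R I)
    (s0 : (1 : ℝ) ≤ c)
    (s1 : (b : ℝ) + 1 ≤ a)
    (s2 : (a : ℝ) ≤ b + c)
    (s3 : p - D < 2 * b)
    (s4 : D - c < a) : False := by
  have g1 := g.a2
  have g2 := g.b2
  have g3 := g.pa
  have g4 := g.pb
  have g5 := g.J1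
  have g6 := g.JD
  have g7 := g.D2
  have g8 := g.ca
  have g9 := g.ca'
  have t1 := TF.ofU hu
  have i1 := t1.I0
  have i2 := t1.ID
  have i3 := t1.R1
  have i4 := t1.R2
  refine (val_PU W.toBase (UV.ofU hu)).sound W rfl (Nk := 0) (fun kf hkf hh => ?_) (kok_B hE (by simp [xv]) (by simp [xv]) 0) ?_ ok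
  · simp only [cPU, kfB, List.mem_cons, List.not_mem_nil, or_false] at hkf
    subst hkf
    exact absurd hh (by norm_num)
  · simp only [base, List.forall_mem_cons, List.not_mem_nil, false_imp_iff, implies_true,
      and_true, hld, xv, evg_cons, evg_nil, List.map_cons, List.map_nil, List.cons_append,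
      List.nil_append, if_true, if_false, Bool.false_eq_true]
    push_cast
    refine ⟨?_, ?_, ?_, ?_, ?_, ?_, ?_, ?_, ?_, ?_, ?_, ?_, ?_, ?_, ?_, ?_, ?_⟩ <;> linarith

end Helper25.KG.P1_2_1_0_u
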