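import Pool.Agent.Helper25.KG.PL

set_option autoImplicit false
set_option linter.unusedVariables false

namespace Helper25.KG.P1_2_1_0_v

open Helper11.CT Helper25.KW Helper25.KG

def base : List Con :=
  [(false,[0,1,0,1,0,0,0,-1]),
  (false,[0,0,2,0,-1,0,0,1]),
  (true,[0,0,0,0,1,0,-2]),
  (true,[0,0,0,0,1,0,2]),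
  (false,[0,0,0,0,0,0,0,1,-2]),
  (false,[0,0,0,0,0,0,0,0,1]),
  (false,[0,0,0,0,1,0,0,-2]),
  (false,[0,0,0,0,0,-1,0,1]),
  (true,[0,0,0,0,0,1]),
  (true,[1,-1,1,1]),
  (true,[0,1,-1]),
  (true,[0,1,0,-1]),
  (true,[0,0,0,1]),
  (true,[0,0,-2,0,1]),
  (true,[0,-2,0,0,1]),
  (true,[-1,0,1]),
  (true,[-1,1])]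

def t0 : Tre :=
  (.I [1,1,0,0,0,0,1] (.Q [0,1,0,0,0,0,-1,0,-1] (.p false [0,0,1] [] (⟨0,[(9,0)]⟩,⟨1,[(5,0),(2,0),
  (8,0)]⟩) .k 0 (⟨0,[]⟩,⟨0,[]⟩) .k .k) (.K ⟨0,[0,0,1],0,0,(⟨0,[(10,0)]⟩,⟨1,[(6,0),(2,0),(8,0)]⟩),.k,
  (.x 0 ⟨7,[(6,3),(0,0),(0,0),(2,1),(1,7)]⟩ ⟨1,[(11,0),(0,1),(5,0)]⟩),(.r 0 ⟨0,[(2,0)]⟩ ⟨0,[(4,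
  0)]⟩),.k,.k,[⟨1,[(6,0),(2,0),(1,0)]⟩,⟨7,[(6,3),(0,0),(0,0),(1,7),(0,1)]⟩,⟨0,[(0,0)]⟩,⟨0,[(1,0),(8,
  0)]⟩]⟩) (.Q [0,0,1,0,0,0,0,-1,1] (.p true [0,0,1] [1] (⟨0,[(10,0)]⟩,⟨1,[(6,0),(2,0),(8,0)]⟩) .k 1
  (⟨0,[]⟩,⟨0,[]⟩) .k .k) (.K ⟨0,[1,0,-1],0,0,(⟨1,[(7,0),(2,0),(8,0)]⟩,⟨0,[(11,0)]⟩),.k,(.r (-1) ⟨0,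
  [(5,0)]⟩ ⟨0,[(3,0)]⟩),(.x (-1) ⟨1,[(12,0),(0,1),(5,0)]⟩ ⟨7,[(7,3),(0,0),(0,0),(2,1),(1,7)]⟩),.k,
  .k,[⟨0,[(0,0)]⟩,⟨3,[(7,1),(0,0),(0,0),(0,1)]⟩,⟨0,[(1,0),(4,0),(10,0)]⟩,⟨1,[(7,0),(0,0),(1,0),(5,
  1)]⟩]⟩) (.I [1,1,0,0,0,0,-1] (.Q [0,0,0,0,0,0,-1,1,-1] (.p false [0,0,1] [1] (⟨0,[(12,0)]⟩,⟨7,[(1,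
  3),(6,1),(0,0),(0,0),(0,1)]⟩) .k 1 (⟨0,[]⟩,⟨0,[]⟩) .k .k) (.R ⟨2,false,false,true,[0,1],[1,0,-1],
  [0,0,1],(⟨0,[]⟩,⟨0,[]⟩),(⟨5,[(0,1),(1,1),(6,0),(1,0),(0,0)]⟩,⟨0,[(13,0)]⟩),⟨0,[]⟩,.k,.k,.k,(.r 0
  ⟨0,[(5,0)]⟩ ⟨0,[(7,0)]⟩),.k,.k,⟨true,0,⟨1,[(3,1),(5,0),(2,0),(1,0)]⟩,⟨0,[(1,0)]⟩⟩,⟨false,0,⟨5,[(0,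
  1),(1,1),(6,0),(1,0),(0,0)]⟩,⟨1,[(13,1),(0,0),(6,0)]⟩⟩,⟨false,1,⟨0,[(19,0),(2,0)]⟩,⟨0,[(20,0)]⟩⟩,
  ⟨true,0,⟨0,[(0,0),(18,0)]⟩,⟨0,[(3,0),(4,0)]⟩⟩,⟨false,1,⟨3,[(10,0),(0,0),(10,1)]⟩,⟨0,[]⟩⟩,⟨false,0,
  ⟨0,[(0,0)]⟩,⟨3,[(3,1),(7,0),(1,1),(0,1),(7,0)]⟩⟩,[.a ⟨true,0,⟨0,[(0,0),(23,0)]⟩,⟨0,[(3,0)]⟩⟩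
  ⟨true,0,⟨7,[(9,3),(0,0),(0,0),(2,1)]⟩,⟨0,[]⟩⟩ ⟨false,0,⟨0,[(0,0),(23,0)]⟩,⟨1,[(3,1),(10,0),(6,
  0)]⟩⟩,.e ⟨false,1,⟨3,[(10,0),(0,0),(10,1)]⟩,⟨0,[(18,0)]⟩⟩ ⟨false,0,⟨0,[(0,0)]⟩,⟨1,[(3,0),(0,0),(8,
  0),(0,0),(6,0)]⟩⟩,.o ⟨false,1,⟨1,[(14,0),(6,0)]⟩,⟨7,[(9,3),(0,0),(0,0),(2,1)]⟩⟩,.fo]⟩) (.I [0,0,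
  -2,0,1,-2] (.S ⟨1,0,[0,0,-1,-1],[1,-1],[0,1,-1,-1],(⟨0,[(16,0)]⟩,⟨0,[(17,0)]⟩),⟨0,[(0,0),(9,0)]⟩,
  .k,(.x 0 ⟨3,[(10,3),(0,0),(0,0),(2,1),(1,7)]⟩ ⟨0,[(0,0)]⟩),⟨true,0,⟨0,[(25,0)]⟩,⟨0,[]⟩⟩,⟨false,1,
  ⟨3,[(11,0),(0,0),(10,1)]⟩,⟨0,[]⟩⟩,⟨false,0,⟨0,[(21,0)]⟩,⟨0,[(20,0),(2,0)]⟩⟩,⟨true,0,⟨0,[(21,0)]⟩,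
  ⟨0,[(20,0)]⟩⟩,[.e ⟨false,1,⟨0,[(20,0),(1,0)]⟩,⟨0,[(18,0)]⟩⟩ ⟨false,1,⟨0,[(1,0),(1,0),(4,0)]⟩,⟨4,
  [(6,1),(2,0),(0,0),(0,0),(6,0),(2,0)]⟩⟩,.o ⟨false,1,⟨0,[(20,0),(2,0)]⟩,⟨0,[(9,0)]⟩⟩,.o ⟨false,0,
  ⟨7,[(10,3),(0,0),(0,0),(2,1)]⟩,⟨1,[(15,0),(6,0)]⟩⟩,.a ⟨true,(-1),⟨0,[(10,0)]⟩,⟨0,[(22,0)]⟩⟩
  ⟨false,1,⟨0,[(1,0),(1,0),(4,0)]⟩,⟨7,[(6,1),(3,3),(0,0),(3,1),(2,5),(4,0)]⟩⟩ ⟨true,1,⟨0,[(1,0),(1,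
  0),(4,0)]⟩,⟨0,[(9,0),(0,0)]⟩⟩]⟩) (.I [0,0,-2,-2,1] (.R ⟨0,false,false,true,[0,0,1],[1,-1],[1],(⟨0,
  [(15,0)]⟩,⟨7,[(4,3),(6,1),(0,0),(0,0),(0,1)]⟩),(⟨0,[(17,0)]⟩,⟨0,[(18,0)]⟩),⟨1,[(1,0),(2,1),(11,
  0)]⟩,.k,.k,(.x 0 ⟨3,[(1,1),(10,0),(0,0)]⟩ ⟨1,[(16,0),(0,1),(5,0)]⟩),(.r 0 ⟨0,[(7,0)]⟩ ⟨0,[(9,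
  0)]⟩),.k,.k,⟨true,0,⟨0,[(19,0)]⟩,⟨0,[(21,0)]⟩⟩,⟨false,0,⟨7,[(4,3),(6,1),(0,0),(0,0),(0,1)]⟩,⟨1,
  [(15,1),(0,0),(6,0)]⟩⟩,⟨false,1,⟨1,[(12,0),(11,0)]⟩,⟨2,[(2,0),(2,0),(0,0),(7,0)]⟩⟩,⟨true,0,⟨1,[(0,
  0),(2,1),(7,0),(2,0)]⟩,⟨0,[(2,0),(19,0)]⟩⟩,⟨false,0,⟨0,[]⟩,⟨0,[]⟩⟩,⟨false,0,⟨0,[]⟩,⟨0,[]⟩⟩,[.o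
  ⟨false,0,⟨0,[(21,0)]⟩,⟨1,[(16,0),(5,1),(1,0)]⟩⟩,.a ⟨true,0,⟨11,[(0,4),(3,3),(4,1),(1,7),(1,0),(1,
  3)]⟩,⟨0,[(22,0)]⟩⟩ ⟨false,1,⟨1,[(23,0),(0,0)]⟩,⟨0,[(26,0)]⟩⟩ ⟨true,0,⟨1,[(0,0),(10,0),(2,0)]⟩,⟨0,
  [(2,0),(0,0),(15,0)]⟩⟩,.a ⟨true,0,⟨0,[(15,0)]⟩,⟨7,[(4,3),(6,1),(0,0),(0,0),(0,1)]⟩⟩ ⟨true,0,⟨0,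
  []⟩,⟨0,[(26,0)]⟩⟩ ⟨false,0,⟨1,[(0,0),(10,0),(2,0)]⟩,⟨1,[(15,1),(0,0),(5,1),(1,0)]⟩⟩,.a ⟨true,0,⟨7,
  [(11,3),(0,0),(0,0),(1,7),(0,1)]⟩,⟨0,[(4,0)]⟩⟩ ⟨false,1,⟨1,[(23,0),(0,0)]⟩,⟨7,[(11,3),(0,0),(0,0),
  (2,1)]⟩⟩ ⟨true,0,⟨0,[(4,0),(16,0)]⟩,⟨0,[(2,0),(0,0),(15,0)]⟩⟩]⟩) (.R ⟨2,true,false,false,[0,1],[0,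
  0,1],[1,0,0,0,0,0,1],(⟨0,[]⟩,⟨0,[]⟩),(⟨0,[(15,0)]⟩,⟨7,[(4,3),(6,1),(0,0),(0,0),(0,1)]⟩),⟨0,[]⟩,.k,
  .k,.k,(.r 0 ⟨1,[(0,0),(11,0)]⟩ ⟨2,[(2,1),(1,1),(4,0),(3,0),(7,1),(2,0)]⟩),.k,.k,⟨true,0,⟨0,[]⟩,⟨7,
  [(11,3),(0,0),(0,0),(2,1)]⟩⟩,⟨false,0,⟨0,[(15,0)]⟩,⟨7,[(12,0),(0,0),(0,3),(1,1),(6,3)]⟩⟩,⟨false,1,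
  ⟨0,[(2,0),(1,0),(16,0),(2,0)]⟩,⟨1,[(0,0),(11,0)]⟩⟩,⟨true,0,⟨0,[(5,0),(15,0)]⟩,⟨1,[(0,0),(2,1),(0,
  1),(11,0)]⟩⟩,⟨true,0,⟨0,[(2,0),(1,0)]⟩,⟨1,[(10,0),(0,0),(0,0),(8,0)]⟩⟩,⟨false,0,⟨0,[(5,0)]⟩,⟨7,
  [(12,4),(0,0),(0,3),(1,1)]⟩⟩,[]⟩)))) (.Q [0,0,0,0,0,1,0,0,-1] (.ed true [1,-1,1] .k) (.Q [0,0,1,1,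
  0,0,0,-1,1] (.p true [0,0,1] [1] (⟨0,[(13,0)]⟩,⟨7,[(2,3),(6,1),(0,0),(0,0),(0,1)]⟩) .k 1 (⟨0,[]⟩,
  ⟨0,[]⟩) .k .k) (.Q [0,0,0,-2,0,0,0,1] (.pp false [-1,1]) (.R ⟨0,false,false,false,[0,0,1],[1,-1],
  [0,1,1],(⟨0,[(15,0)]⟩,⟨7,[(4,3),(6,1),(0,0),(0,0),(0,1)]⟩),(⟨0,[(17,0)]⟩,⟨0,[(18,0)]⟩),⟨0,[(2,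
  0)]⟩,.k,.k,(.x 0 ⟨7,[(11,3),(0,0),(0,0),(2,1),(1,7)]⟩ ⟨1,[(16,0),(0,1),(5,0)]⟩),(.r 0 ⟨0,[(7,0)]⟩
  ⟨0,[(9,0)]⟩),.k,.k,⟨true,(-1),⟨0,[(10,0),(0,0)]⟩,⟨0,[(3,0),(5,0)]⟩⟩,⟨false,0,⟨7,[(4,3),(6,1),(0,
  0),(0,0),(0,1)]⟩,⟨1,[(15,1),(0,0),(6,0)]⟩⟩,⟨true,0,⟨1,[(10,0),(0,0),(0,0),(8,0)]⟩,⟨0,[(3,0),(16,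
  0)]⟩⟩,⟨false,1,⟨1,[(0,0),(11,0),(1,0),(9,0)]⟩,⟨0,[(5,0),(4,0)]⟩⟩,⟨false,0,⟨0,[]⟩,⟨0,[]⟩⟩,⟨false,0,
  ⟨0,[]⟩,⟨0,[]⟩⟩,[.a ⟨true,0,⟨11,[(0,5),(3,3),(6,1),(0,0),(0,0),(1,3)]⟩,⟨0,[(22,0)]⟩⟩ ⟨false,0,⟨0,
  [(26,0)]⟩,⟨1,[(23,0),(0,0)]⟩⟩ ⟨true,0,⟨1,[(0,0),(13,0)]⟩,⟨0,[(1,0)]⟩⟩,.o ⟨false,1,⟨5,[(0,1),(7,1),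
  (4,0),(2,0),(7,1)]⟩,⟨0,[(10,0)]⟩⟩,.a ⟨true,0,⟨0,[(15,0)]⟩,⟨7,[(4,3),(6,1),(0,0),(0,0),(0,1)]⟩⟩
  ⟨false,0,⟨7,[(11,3),(0,0),(0,0),(2,1)]⟩,⟨1,[(23,0),(0,0)]⟩⟩ ⟨true,0,⟨1,[(0,0),(13,0)]⟩,⟨0,[(1,0),
  (18,0)]⟩⟩,.a ⟨true,0,⟨7,[(0,1),(0,3),(9,1),(0,0),(0,0),(1,3)]⟩,⟨0,[(4,0)]⟩⟩ ⟨true,0,⟨0,[(26,0)]⟩,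
  ⟨0,[]⟩⟩ ⟨false,1,⟨1,[(0,0),(13,0),(8,0),(0,0)]⟩,⟨0,[(1,0)]⟩⟩]⟩) (.R ⟨2,true,false,false,[0,1],[1,
  -1],[0,1,1,1],(⟨0,[]⟩,⟨0,[]⟩),(⟨0,[(17,0)]⟩,⟨0,[(18,0)]⟩),⟨0,[]⟩,.k,.k,.k,(.r 1 ⟨0,[(0,0),(10,
  0)]⟩ ⟨2,[(3,1),(5,3),(3,0),(7,1),(1,0)]⟩),.k,.k,⟨false,(-1),⟨0,[(0,0),(10,0),(8,0)]⟩,⟨5,[(3,7),(5,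
  9),(3,0),(7,1),(1,0)]⟩⟩,⟨true,(-1),⟨0,[(11,0)]⟩,⟨1,[(16,0),(6,0)]⟩⟩,⟨true,0,⟨0,[(26,0)]⟩,⟨0,[]⟩⟩,
  ⟨false,1,⟨15,[(4,9),(0,11),(2,17),(2,4),(1,2),(0,0),(6,13)]⟩,⟨0,[(0,0)]⟩⟩,⟨false,0,⟨0,[(22,0)]⟩,
  ⟨4,[(3,1),(4,3),(4,0),(7,0)]⟩⟩,⟨true,0,⟨1,[(4,0),(0,0),(3,0),(1,0),(9,0)]⟩,⟨0,[(10,0)]⟩⟩,[]⟩))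
  (.R ⟨0,false,false,true,[0,0,1],[1,-1],[1],(⟨0,[(14,0)]⟩,⟨7,[(3,3),(6,1),(0,0),(0,0),(0,1)]⟩),(⟨0,
  [(16,0)]⟩,⟨0,[(17,0)]⟩),⟨0,[(1,0)]⟩,.k,.k,(.x 0 ⟨7,[(10,3),(0,0),(0,0),(2,1),(1,7)]⟩ ⟨1,[(15,0),
  (0,1),(5,0)]⟩),(.r 0 ⟨0,[(6,0)]⟩ ⟨0,[(8,0)]⟩),.k,.k,⟨true,0,⟨0,[(18,0)]⟩,⟨0,[(20,0)]⟩⟩,⟨false,0,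
  ⟨7,[(3,3),(6,1),(0,0),(0,0),(0,1)]⟩,⟨1,[(14,1),(0,0),(6,0)]⟩⟩,⟨false,1,⟨1,[(11,0),(11,0)]⟩,⟨1,[(2,
  0),(2,0)]⟩⟩,⟨true,0,⟨1,[(0,1),(8,0),(0,0),(0,0),(8,0)]⟩,⟨0,[(4,0),(4,0)]⟩⟩,⟨false,0,⟨0,[]⟩,⟨0,
  []⟩⟩,⟨false,0,⟨0,[]⟩,⟨0,[]⟩⟩,[.o ⟨false,0,⟨0,[(20,0)]⟩,⟨1,[(15,0),(5,1),(1,0)]⟩⟩,.e ⟨false,1,⟨1,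
  [(22,0),(0,0)]⟩,⟨0,[(25,0)]⟩⟩ ⟨false,0,⟨0,[(0,0)]⟩,⟨3,[(11,0),(0,0),(1,3),(0,1),(5,3)]⟩⟩,.a ⟨true,
  0,⟨0,[(14,0)]⟩,⟨7,[(3,3),(6,1),(0,0),(0,0),(0,1)]⟩⟩ ⟨true,0,⟨0,[]⟩,⟨0,[(25,0)]⟩⟩ ⟨false,0,⟨11,[(0,
  7),(6,1),(2,3),(1,0),(0,1),(1,0),(4,1)]⟩,⟨1,[(14,1),(0,0),(5,1),(1,0)]⟩⟩,.e ⟨false,1,⟨1,[(22,0),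
  (0,0)]⟩,⟨7,[(10,3),(0,0),(0,0),(2,1)]⟩⟩ ⟨false,0,⟨0,[(0,0)]⟩,⟨3,[(6,1),(4,0),(2,3),(0,1),(2,1),(4,
  0)]⟩⟩]⟩)) (.S ⟨1,0,[0,0,-1,-1],[1,-1],[0,1,-1,-1],(⟨0,[(15,0)]⟩,⟨0,[(16,0)]⟩),⟨0,[(0,1),(11,0)]⟩,
  .k,(.x 0 ⟨3,[(9,3),(0,0),(0,0),(2,1),(1,7)]⟩ ⟨0,[(0,1),(1,1),(11,0)]⟩),⟨true,0,⟨0,[(24,0)]⟩,⟨0,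
  []⟩⟩,⟨false,1,⟨3,[(10,0),(0,0),(10,1)]⟩,⟨0,[]⟩⟩,⟨false,0,⟨0,[(20,0)]⟩,⟨4,[(1,1),(4,3),(4,0),(7,
  0)]⟩⟩,⟨true,0,⟨0,[(20,0)]⟩,⟨0,[(19,0)]⟩⟩,[.e ⟨false,1,⟨0,[(19,0),(1,0)]⟩,⟨0,[(17,0)]⟩⟩ ⟨false,1,
  ⟨0,[(1,0),(5,0),(10,0)]⟩,⟨4,[(5,1),(2,0),(0,0),(0,0),(6,0),(2,0)]⟩⟩,.o ⟨false,1,⟨4,[(1,1),(4,3),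
  (4,0),(7,0)]⟩,⟨0,[(8,0)]⟩⟩,.o ⟨false,0,⟨7,[(9,3),(0,0),(0,0),(2,1)]⟩,⟨1,[(14,0),(6,0)]⟩⟩,.a ⟨true,
  (-1),⟨0,[(9,0)]⟩,⟨0,[(21,0)]⟩⟩ ⟨false,1,⟨0,[(1,0),(5,0),(10,0)]⟩,⟨7,[(5,1),(3,3),(0,0),(3,1),(2,
  5),(4,0)]⟩⟩ ⟨true,1,⟨0,[(1,0),(5,0),(10,0)]⟩,⟨0,[(8,0),(0,0)]⟩⟩]⟩))))) (.Q [0,1,0,0,0,0,1,0,1]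
  (.p true [0,0,1] [] (⟨0,[(9,0)]⟩,⟨1,[(5,0),(2,0),(8,0)]⟩) .k 0 (⟨0,[]⟩,⟨0,[]⟩) .k .k) (.K ⟨0,[0,0,
  1],0,0,(⟨0,[(10,0)]⟩,⟨1,[(6,0),(2,0),(8,0)]⟩),.k,(.x 0 ⟨7,[(6,3),(0,0),(0,0),(2,1),(1,7)]⟩ ⟨1,
  [(11,0),(0,1),(5,0)]⟩),(.r 0 ⟨0,[(2,0)]⟩ ⟨0,[(4,0)]⟩),.k,.k,[⟨1,[(6,0),(2,0),(1,0)]⟩,⟨7,[(0,1),(5,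
  3),(0,0),(2,5),(0,1),(7,0)]⟩,⟨5,[(1,3),(3,3),(0,0),(0,0),(1,2),(5,1),(0,3)]⟩,⟨0,[(0,0)]⟩]⟩) (.Q
  [0,0,0,0,0,-1,0,1,-1] (.ed true [0,1,1] .k) (.S ⟨1,4,[],[1,0,-1],[0,1,0,0,0,0,-1],(⟨1,[(7,0),(2,
  0),(8,0)]⟩,⟨0,[(11,0)]⟩),⟨0,[(0,0)]⟩,.k,(.r (-1) ⟨0,[(5,0)]⟩ ⟨0,[(3,0)]⟩),⟨true,0,⟨0,[(22,0)]⟩,⟨0,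
  []⟩⟩,⟨false,1,⟨3,[(8,0),(0,2),(1,3)]⟩,⟨0,[(1,0)]⟩⟩,⟨false,0,⟨0,[(18,0)]⟩,⟨0,[(17,0),(2,0)]⟩⟩,
  ⟨true,0,⟨0,[(3,0),(7,0),(4,0)]⟩,⟨0,[(1,0),(15,0)]⟩⟩,[.o ⟨false,0,⟨0,[(22,0)]⟩,⟨1,[(12,0),(7,0)]⟩⟩,
  .fa ⟨false,0,⟨0,[(2,0),(13,0)]⟩,⟨3,[(8,0),(0,2)]⟩⟩ ⟨true,0,⟨0,[(11,0)]⟩,⟨1,[(7,0),(2,0),(1,0)]⟩⟩,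
  .e ⟨false,0,⟨5,[(2,3),(3,0),(0,0),(0,0),(7,1),(0,0)]⟩,⟨1,[(9,0),(10,0)]⟩⟩ ⟨false,0,⟨0,[(11,0)]⟩,
  ⟨7,[(8,0),(0,0),(0,3),(1,1),(7,3)]⟩⟩,.o ⟨false,0,⟨1,[(7,0),(2,0),(1,0)]⟩,⟨1,[(11,1),(0,0),(6,
  0)]⟩⟩]⟩) (.Q [0,-1,0,1,1,0,1,-1,1] (.p true [0,0,1] [1] (⟨0,[(11,0)]⟩,⟨1,[(7,0),(2,0),(8,0)]⟩) .k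
  1 (⟨0,[]⟩,⟨0,[]⟩) .k .k) (.R ⟨2,true,false,true,[0,1],[1,0,-1],[0,1,1,1],(⟨0,[]⟩,⟨0,[]⟩),(⟨1,[(8,
  0),(2,0),(8,0)]⟩,⟨0,[(12,0)]⟩),⟨0,[]⟩,.k,.k,.k,(.r 0 ⟨0,[(4,0)]⟩ ⟨0,[(6,0)]⟩),.k,.k,⟨true,0,⟨0,
  [(4,0)]⟩,⟨0,[(3,0),(14,0)]⟩⟩,⟨false,0,⟨1,[(8,0),(2,0),(8,0)]⟩,⟨1,[(12,1),(0,0),(6,0)]⟩⟩,⟨true,0,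
  ⟨0,[(23,0)]⟩,⟨0,[]⟩⟩,⟨false,0,⟨1,[(3,1),(4,0),(2,0),(6,1),(1,0)]⟩,⟨0,[(0,0)]⟩⟩,⟨false,0,⟨0,[(19,
  0)]⟩,⟨0,[(18,0),(2,0)]⟩⟩,⟨true,(-1),⟨0,[(2,0),(5,0),(8,1)]⟩,⟨0,[(0,0),(17,0)]⟩⟩,[]⟩) (.I [0,-1,2,
  2,-1,0,-1] (.I [1,1,1,0,-1,0,-1] (.R ⟨0,false,false,false,[1,0,-1],[0,0,1],[1,1,1],(⟨1,[(10,0),(2,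
  0),(8,0)]⟩,⟨0,[(14,0)]⟩),(⟨0,[(14,0)]⟩,⟨1,[(10,0),(2,0),(8,0)]⟩),⟨0,[(3,0)]⟩,.k,.k,(.r (-1) ⟨0,
  [(8,0)]⟩ ⟨0,[(6,0)]⟩),.k,.k,.k,⟨true,(-1),⟨0,[(0,0)]⟩,⟨1,[(12,0),(10,0)]⟩⟩,⟨false,1,⟨1,[(14,3),(0,
  0),(6,0)]⟩,⟨0,[(13,0)]⟩⟩,⟨true,0,⟨0,[(6,0),(13,0)]⟩,⟨0,[(5,0),(13,0)]⟩⟩,⟨false,2,⟨1,[(12,1),(1,3),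
  (0,0),(7,0)]⟩,⟨4,[(1,1),(0,3),(1,3),(8,0),(5,1),(2,0)]⟩⟩,⟨false,0,⟨0,[]⟩,⟨0,[]⟩⟩,⟨false,0,⟨0,[]⟩,
  ⟨0,[]⟩⟩,[.o ⟨false,1,⟨1,[(12,0),(1,1),(0,0)]⟩,⟨12,[(2,2),(1,5),(4,2),(1,1),(1,1),(1,0)]⟩⟩,.e
  ⟨false,0,⟨0,[]⟩,⟨3,[(11,0),(0,0),(9,1)]⟩⟩ ⟨false,2,⟨1,[(12,0),(1,3),(0,0),(6,0),(0,0)]⟩,⟨0,[(2,0),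
  (1,0),(1,0),(12,0)]⟩⟩,.a ⟨true,0,⟨1,[(10,0),(2,0),(8,0)]⟩,⟨0,[(14,0)]⟩⟩ ⟨false,0,⟨7,[(10,3),(0,0),
  (0,0),(2,1)]⟩,⟨1,[(22,0),(0,0)]⟩⟩ ⟨true,1,⟨1,[(12,0),(1,3),(0,0)]⟩,⟨0,[(2,0),(1,0),(1,0),(12,
  0)]⟩⟩,.o ⟨false,0,⟨1,[(10,0),(2,0),(1,0)]⟩,⟨1,[(14,1),(0,0),(6,0)]⟩⟩]⟩) (.R ⟨0,false,false,false,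
  [1,0,-1],[0,0,1],[0,1,0,0,0,0,-1],(⟨1,[(10,0),(2,0),(8,0)]⟩,⟨0,[(14,0)]⟩),(⟨0,[(14,0)]⟩,⟨1,[(10,
  0),(2,0),(8,0)]⟩),⟨0,[(3,0)]⟩,.k,.k,(.r (-1) ⟨0,[(8,0)]⟩ ⟨0,[(6,0)]⟩),.k,.k,.k,⟨true,(-1),⟨0,[(2,
  0),(2,0),(3,0),(4,0)]⟩,⟨1,[(0,1),(9,1),(1,0),(2,0)]⟩⟩,⟨false,1,⟨1,[(14,3),(0,0),(6,0)]⟩,⟨0,[(13,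
  0)]⟩⟩,⟨true,0,⟨0,[(25,0)]⟩,⟨0,[]⟩⟩,⟨false,2,⟨1,[(12,1),(1,3),(0,0),(7,0)]⟩,⟨4,[(1,1),(0,3),(1,3),
  (8,0),(5,1),(2,0)]⟩⟩,⟨false,0,⟨0,[]⟩,⟨0,[]⟩⟩,⟨false,0,⟨0,[]⟩,⟨0,[]⟩⟩,[.o ⟨false,1,⟨1,[(12,0),(1,
  1),(0,0)]⟩,⟨12,[(2,2),(1,5),(4,2),(1,1),(1,1),(1,0)]⟩⟩,.e ⟨false,0,⟨0,[(5,0),(13,0)]⟩,⟨3,[(11,0),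
  (0,2)]⟩⟩ ⟨false,2,⟨3,[(0,3),(10,0),(0,0),(1,7),(0,1)]⟩,⟨2,[(0,1),(0,0),(0,3),(6,1),(3,0)]⟩⟩,.a
  ⟨true,0,⟨1,[(10,0),(2,0),(8,0)]⟩,⟨0,[(14,0)]⟩⟩ ⟨false,0,⟨4,[(2,0),(2,1),(3,0),(1,0),(2,0)]⟩,⟨1,
  [(12,0),(10,0)]⟩⟩ ⟨true,1,⟨1,[(12,0),(1,3),(0,0)]⟩,⟨2,[(0,1),(0,0),(0,3),(6,1),(3,0)]⟩⟩,.o ⟨false,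
  0,⟨1,[(10,0),(2,0),(1,0)]⟩,⟨1,[(14,1),(0,0),(6,0)]⟩⟩]⟩)) (.R ⟨0,false,false,false,[1,-1],[1,0,-1],
  [0,1,1],(⟨0,[(15,0)]⟩,⟨0,[(16,0)]⟩),(⟨1,[(9,0),(2,0),(8,0)]⟩,⟨0,[(13,0)]⟩),⟨0,[(2,1),(9,0)]⟩,.k,
  .k,(.r (-1) ⟨0,[(0,0),(3,0)]⟩ ⟨4,[(5,3),(2,1),(0,1),(0,1),(6,1),(2,1)]⟩),(.r (-1) ⟨3,[(0,1),(10,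
  0),(10,0)]⟩ ⟨4,[(4,0),(3,1),(0,1),(0,1),(6,0),(2,1)]⟩),.k,.k,⟨true,0,⟨0,[(5,0),(13,0)]⟩,⟨0,[(4,
  0)]⟩⟩,⟨false,1,⟨1,[(3,1),(7,0),(6,1),(2,0)]⟩,⟨7,[(9,3),(0,0),(0,0),(1,7),(0,1)]⟩⟩,⟨true,(-1),⟨0,
  [(8,0),(0,0)]⟩,⟨1,[(0,0),(3,0),(16,0)]⟩⟩,⟨false,0,⟨0,[(3,0),(16,0)]⟩,⟨5,[(0,1),(5,1),(2,1),(1,2),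
  (1,5),(0,0)]⟩⟩,⟨false,0,⟨0,[]⟩,⟨0,[]⟩⟩,⟨false,0,⟨0,[]⟩,⟨0,[]⟩⟩,[.o ⟨false,0,⟨12,[(1,2),(1,5),(4,
  2),(1,1),(1,1),(1,0)]⟩,⟨1,[(11,0),(1,1),(0,0)]⟩⟩,.o ⟨false,0,⟨0,[(3,0)]⟩,⟨1,[(11,0),(1,1),(0,0),
  (9,1)]⟩⟩,.o ⟨false,0,⟨7,[(9,3),(0,0),(0,0),(2,1)]⟩,⟨1,[(14,0),(6,0)]⟩⟩,.a ⟨true,(-1),⟨0,[(9,0)]⟩,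
  ⟨0,[(21,0)]⟩⟩ ⟨true,0,⟨0,[(24,0)]⟩,⟨0,[]⟩⟩ ⟨false,1,⟨0,[(3,0),(17,0)]⟩,⟨1,[(9,1),(1,0),(1,1),(0,
  0)]⟩⟩]⟩))))))

def t1 : Tre :=
  (.I [0,0,-1,-1,1,0,-1] (.I [0,-1,0,-1,1,0,-1] (.I [0,0,1,1,0,0,1] t0 (.Q [0,-1,0,0,0,0,-1,0,-1]
  (.p false [0,0,1] [] (⟨0,[(8,0)]⟩,⟨1,[(4,0),(2,0),(8,0)]⟩) .k 0 (⟨0,[]⟩,⟨0,[]⟩) .k .k) (.Q [0,0,0,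
  0,0,2,0,-1] (.pp true [-1,1]) (.R ⟨0,false,false,false,[1,-1],[1,0,-1],[0,1,1],(⟨0,[(12,0)]⟩,⟨0,
  [(13,0)]⟩),(⟨1,[(6,0),(2,0),(8,0)]⟩,⟨0,[(10,0)]⟩),⟨0,[(0,0)]⟩,.k,.k,(.r (-1) ⟨0,[(2,1),(5,0)]⟩ ⟨2,
  [(5,1),(0,1),(0,0),(0,0),(5,1),(2,1)]⟩),(.r (-1) ⟨0,[(2,0),(5,0)]⟩ ⟨4,[(1,0),(3,1),(0,1),(0,1),(2,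
  0),(3,0),(2,1)]⟩),.k,.k,⟨true,0,⟨1,[(5,0),(0,0),(1,0),(7,0)]⟩,⟨0,[(1,0),(8,0)]⟩⟩,⟨false,1,⟨1,[(1,
  1),(6,0),(6,1),(2,0)]⟩,⟨7,[(6,3),(0,0),(0,0),(1,7),(0,1)]⟩⟩,⟨true,(-1),⟨0,[(5,0),(0,0)]⟩,⟨1,[(2,
  1),(5,0),(9,0)]⟩⟩,⟨false,0,⟨0,[(1,0),(15,0)]⟩,⟨1,[(8,0),(1,1),(5,1),(2,0)]⟩⟩,⟨false,0,⟨0,[]⟩,⟨0,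
  []⟩⟩,⟨false,0,⟨0,[]⟩,⟨0,[]⟩⟩,[.o ⟨false,0,⟨7,[(1,3),(0,1),(2,2),(0,0),(0,0),(1,1),(6,0)]⟩,⟨1,[(8,
  0),(1,1),(0,0)]⟩⟩,.o ⟨false,0,⟨0,[(1,0)]⟩,⟨1,[(8,0),(1,1),(0,0),(9,1)]⟩⟩,.o ⟨false,0,⟨7,[(6,3),(0,
  0),(0,0),(2,1)]⟩,⟨1,[(11,0),(6,0)]⟩⟩,.a ⟨true,(-1),⟨0,[(6,0)]⟩,⟨0,[(18,0)]⟩⟩ ⟨true,0,⟨0,[(21,0)]⟩,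
  ⟨0,[]⟩⟩ ⟨false,1,⟨0,[(1,0),(16,0)]⟩,⟨1,[(6,1),(1,0),(1,1),(0,0)]⟩⟩]⟩) (.S ⟨1,0,[0,0,-1,-1],[1,-1],
  [0,1,-1,-1],(⟨0,[(12,0)]⟩,⟨0,[(13,0)]⟩),⟨0,[(0,0)]⟩,.k,(.r (-1) ⟨0,[(2,1),(5,0)]⟩ ⟨2,[(5,1),(0,1),
  (0,0),(0,0),(5,1),(2,1)]⟩),⟨true,0,⟨0,[(21,0)]⟩,⟨0,[]⟩⟩,⟨false,1,⟨3,[(7,0),(0,0),(10,1)]⟩,⟨0,[]⟩⟩,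
  ⟨false,0,⟨0,[(17,0)]⟩,⟨0,[(16,0),(2,0)]⟩⟩,⟨true,0,⟨0,[(17,0)]⟩,⟨0,[(16,0)]⟩⟩,[.e ⟨false,1,⟨0,[(16,
  0),(1,0)]⟩,⟨0,[(14,0)]⟩⟩ ⟨false,1,⟨1,[(2,1),(5,0),(9,0)]⟩,⟨5,[(5,1),(0,1),(0,0),(0,0),(5,1),(2,
  1)]⟩⟩,.o ⟨false,1,⟨0,[(16,0),(2,0)]⟩,⟨0,[(5,0)]⟩⟩,.o ⟨false,0,⟨7,[(6,3),(0,0),(0,0),(2,1)]⟩,⟨1,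
  [(11,0),(6,0)]⟩⟩,.a ⟨true,(-1),⟨0,[(6,0)]⟩,⟨0,[(18,0)]⟩⟩ ⟨false,1,⟨1,[(2,1),(5,0),(9,0)]⟩,⟨7,[(6,
  3),(0,0),(0,0),(2,1),(2,7)]⟩⟩ ⟨true,1,⟨1,[(2,1),(5,0),(9,0)]⟩,⟨0,[(5,0),(0,0)]⟩⟩]⟩)) (.K ⟨0,[0,0,
  1],0,0,(⟨0,[(9,0)]⟩,⟨1,[(5,0),(2,0),(8,0)]⟩),.k,(.r (-1) ⟨0,[(1,0),(5,0)]⟩ ⟨4,[(1,0),(2,1),(0,1),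
  (0,1),(6,1),(2,1)]⟩),(.x (-1) ⟨1,[(10,0),(0,1),(5,0)]⟩ ⟨7,[(5,3),(0,0),(0,0),(2,1),(1,7)]⟩),.k,.k,
  [⟨1,[(5,0),(2,0),(1,0)]⟩,⟨7,[(0,1),(4,3),(0,0),(2,5),(0,1),(7,0)]⟩,⟨3,[(1,1),(2,2),(0,0),(0,0),(1,
  1),(6,0)]⟩,⟨0,[(0,0)]⟩]⟩))) (.Q [0,0,0,0,0,0,-1,1,-1] (.p false [0,0,1] [1] (⟨0,[(7,0)]⟩,⟨1,[(3,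
  0),(2,0),(8,0)]⟩) .k 1 (⟨0,[]⟩,⟨0,[]⟩) .k .k) (.R ⟨2,true,false,false,[0,1],[1,0,-1],[0,0,1,0,0,0,
  -1],(⟨0,[]⟩,⟨0,[]⟩),(⟨1,[(4,0),(2,0),(8,0)]⟩,⟨0,[(8,0)]⟩),⟨0,[]⟩,.k,.k,.k,(.r 0 ⟨6,[(1,0),(1,1),
  (0,1),(1,2),(5,2),(2,0)]⟩ ⟨0,[(2,0)]⟩),.k,.k,⟨true,0,⟨7,[(4,3),(0,0),(0,0),(2,1)]⟩,⟨0,[]⟩⟩,⟨false,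
  0,⟨1,[(4,0),(2,0),(8,0)]⟩,⟨1,[(8,1),(0,0),(6,0)]⟩⟩,⟨true,1,⟨1,[(5,0),(8,1),(2,0)]⟩,⟨0,[(1,0)]⟩⟩,
  ⟨false,1,⟨1,[(2,1),(1,0),(2,0),(9,0)]⟩,⟨1,[(1,1),(6,1),(0,0),(7,0)]⟩⟩,⟨false,1,⟨1,[(5,0),(11,0)]⟩,
  ⟨0,[(1,0),(12,0),(2,0)]⟩⟩,⟨true,0,⟨0,[(0,0)]⟩,⟨1,[(1,1),(6,1),(0,0),(4,1),(2,0)]⟩⟩,[]⟩) (.Q [0,0,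
  -1,0,0,0,0,1,-1] (.p false [0,0,1] [1] (⟨0,[(8,0)]⟩,⟨1,[(4,0),(2,0),(8,0)]⟩) .k 1 (⟨0,[]⟩,⟨0,[]⟩)
  .k .k) (.I [0,0,-2,0,1,-2] (.S ⟨1,0,[0,0,-1,-1],[1,-1],[0,1,-1,-1],(⟨0,[(12,0)]⟩,⟨0,[(13,0)]⟩),⟨0,
  [(0,0),(5,0)]⟩,.k,(.x 0 ⟨3,[(6,3),(0,0),(0,0),(2,1),(1,7)]⟩ ⟨0,[(0,0)]⟩),⟨true,0,⟨0,[(21,0)]⟩,⟨0,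
  []⟩⟩,⟨false,1,⟨3,[(7,0),(0,0),(10,1)]⟩,⟨0,[]⟩⟩,⟨false,0,⟨0,[(17,0)]⟩,⟨0,[(16,0),(2,0)]⟩⟩,⟨true,0,
  ⟨0,[(17,0)]⟩,⟨0,[(16,0)]⟩⟩,[.e ⟨false,1,⟨0,[(16,0),(1,0)]⟩,⟨0,[(14,0)]⟩⟩ ⟨false,1,⟨0,[(1,0),(0,0),
  (1,0)]⟩,⟨5,[(5,1),(0,1),(0,0),(0,0),(5,1),(2,1)]⟩⟩,.o ⟨false,1,⟨0,[(16,0),(2,0)]⟩,⟨0,[(5,0)]⟩⟩,.o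
  ⟨false,0,⟨7,[(6,3),(0,0),(0,0),(2,1)]⟩,⟨1,[(11,0),(6,0)]⟩⟩,.a ⟨true,(-1),⟨0,[(6,0)]⟩,⟨0,[(18,
  0)]⟩⟩ ⟨false,1,⟨0,[(1,0),(0,0),(1,0)]⟩,⟨7,[(6,3),(0,0),(0,0),(2,1),(2,7)]⟩⟩ ⟨true,1,⟨0,[(1,0),(0,
  0),(1,0)]⟩,⟨0,[(5,0),(0,0)]⟩⟩]⟩) (.Q [0,-1,0,0,1,0,-1,0,-1] (.p false [0,0,1] [] (⟨0,[(10,0)]⟩,⟨7,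
  [(1,3),(4,1),(0,0),(0,0),(0,1)]⟩) .k 0 (⟨0,[]⟩,⟨0,[]⟩) .k .k) (.R ⟨0,false,false,false,[0,0,1],[0,
  1],[0,1,1],(⟨0,[(11,0)]⟩,⟨7,[(2,3),(4,1),(0,0),(0,0),(0,1)]⟩),(⟨0,[(14,0)]⟩,⟨0,[(13,0)]⟩),⟨1,[(1,
  0),(0,1),(9,0)]⟩,.k,.k,(.x 0 ⟨3,[(1,1),(6,0),(0,0)]⟩ ⟨1,[(12,0),(0,1),(5,0)]⟩),(.x 0 ⟨3,[(1,1),(6,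
  0),(0,0)]⟩ ⟨1,[(12,0),(0,1),(5,0)]⟩),.k,.k,⟨true,0,⟨0,[(17,0)]⟩,⟨0,[(15,0)]⟩⟩,⟨false,1,⟨1,[(2,1),
  (9,0),(6,0)]⟩,⟨7,[(7,3),(0,0),(0,0),(1,7),(0,1)]⟩⟩,⟨true,0,⟨1,[(6,0),(0,0),(0,0),(8,0)]⟩,⟨0,[(2,
  0),(0,0)]⟩⟩,⟨false,1,⟨0,[(0,0),(17,0)]⟩,⟨0,[(2,0),(0,1),(1,0),(1,0)]⟩⟩,⟨false,0,⟨0,[]⟩,⟨0,[]⟩⟩,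
  ⟨false,0,⟨0,[]⟩,⟨0,[]⟩⟩,[.a ⟨true,0,⟨0,[(18,0)]⟩,⟨0,[(2,0),(0,0),(1,0),(1,0)]⟩⟩ ⟨false,0,⟨0,[(22,
  0)]⟩,⟨1,[(19,0),(0,0)]⟩⟩ ⟨true,0,⟨0,[(0,0),(3,0)]⟩,⟨0,[(3,0),(1,0),(1,0)]⟩⟩,.o ⟨false,1,⟨1,[(12,
  0),(5,1),(1,0)]⟩,⟨0,[(17,0)]⟩⟩,.a ⟨true,0,⟨0,[(11,0)]⟩,⟨7,[(2,3),(4,1),(0,0),(0,0),(0,1)]⟩⟩
  ⟨false,0,⟨7,[(7,3),(0,0),(0,0),(2,1)]⟩,⟨1,[(19,0),(0,0)]⟩⟩ ⟨true,0,⟨0,[(0,0),(3,0)]⟩,⟨0,[(11,0),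
  (5,0)]⟩⟩,.a ⟨true,0,⟨7,[(7,3),(0,0),(0,0),(1,7),(0,1)]⟩,⟨0,[(2,0)]⟩⟩ ⟨true,0,⟨0,[(22,0)]⟩,⟨0,[]⟩⟩
  ⟨false,1,⟨1,[(2,1),(9,0),(5,1),(1,0)]⟩,⟨0,[(3,0),(1,0),(1,0)]⟩⟩]⟩) (.K ⟨0,[0,0,1],0,(-1),(⟨0,[(11,
  0)]⟩,⟨7,[(2,3),(4,1),(0,0),(0,0),(0,1)]⟩),.k,(.x 0 ⟨3,[(1,1),(6,0),(0,0)]⟩ ⟨1,[(12,0),(0,1),(5,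
  0)]⟩),(.r 0 ⟨6,[(4,0),(1,1),(0,1),(1,2),(5,2),(2,0)]⟩ ⟨0,[(5,0)]⟩),.k,.k,[⟨1,[(7,0),(2,0),(1,0)]⟩,
  ⟨7,[(7,3),(0,0),(0,0),(1,7),(0,1)]⟩,⟨7,[(8,4),(0,0),(0,3),(1,1),(9,7)]⟩,⟨0,[(0,0)]⟩]⟩))) (.K ⟨0,
  [1,0,-1],0,0,(⟨1,[(5,0),(2,0),(8,0)]⟩,⟨0,[(9,0)]⟩),.k,(.r (-1) ⟨0,[(3,0)]⟩ ⟨6,[(2,0),(1,1),(0,1),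
  (1,2),(5,2),(2,0)]⟩),(.x (-1) ⟨1,[(10,0),(0,1),(5,0)]⟩ ⟨7,[(5,3),(0,0),(0,0),(2,1),(1,7)]⟩),.k,.k,
  [⟨0,[(0,0)]⟩,⟨3,[(5,1),(0,0),(0,0),(0,1)]⟩,⟨0,[(1,0),(18,0)]⟩,⟨1,[(5,0),(0,0),(1,0),(5,1)]⟩]⟩))))
  (.Q [0,0,1,0,0,0,0,-1,1] (.p true [0,0,1] [1] (⟨0,[(6,0)]⟩,⟨1,[(2,0),(2,0),(8,0)]⟩) .k 1 (⟨0,[]⟩,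
  ⟨0,[]⟩) .k .k) (.K ⟨0,[1,0,-1],0,0,(⟨1,[(3,0),(2,0),(8,0)]⟩,⟨0,[(7,0)]⟩),.k,(.x 0 ⟨7,[(3,3),(0,0),
  (0,0),(2,1),(1,7)]⟩ ⟨1,[(8,0),(0,1),(5,0)]⟩),(.r 0 ⟨0,[(1,0),(2,0)]⟩ ⟨0,[(1,0),(11,1),(1,0),(0,
  0)]⟩),.k,.k,[⟨0,[(0,0)]⟩,⟨3,[(3,1),(0,0),(0,0),(0,1)]⟩,⟨1,[(1,1),(5,1),(0,0),(4,1),(1,0)]⟩,⟨1,[(3,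
  0),(0,0),(1,0),(5,1)]⟩]⟩) (.Q [0,0,0,0,0,0,1,-1,1] (.p true [0,0,1] [1] (⟨0,[(7,0)]⟩,⟨7,[(0,3),(2,
  1),(0,0),(0,0),(0,1)]⟩) .k 1 (⟨0,[]⟩,⟨0,[]⟩) .k .k) (.Q [0,0,0,2,0,0,0,-1] (.pp true [-1,1]) (.I
  [1,-1,-2,-2,2] (.Q [0,0,0,-1,0,0,0,1] (.pp false [-1,1]) (.R ⟨2,true,false,false,[0,1],[1,-1],[0,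
  1,1,1],(⟨0,[]⟩,⟨0,[]⟩),(⟨0,[(13,0)]⟩,⟨0,[(14,0)]⟩),⟨0,[]⟩,.k,.k,.k,(.r 1 ⟨0,[(2,0),(4,0)]⟩ ⟨0,[(1,
  0),(20,0)]⟩),.k,.k,⟨false,(-1),⟨0,[(2,0),(4,0),(8,0)]⟩,⟨0,[(1,0)]⟩⟩,⟨true,(-1),⟨0,[(7,0)]⟩,⟨1,
  [(12,0),(6,0)]⟩⟩,⟨true,0,⟨0,[(22,0)]⟩,⟨0,[]⟩⟩,⟨false,1,⟨0,[(1,0),(5,0)]⟩,⟨0,[(2,0)]⟩⟩,⟨false,0,⟨0,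
  [(18,0)]⟩,⟨3,[(1,1),(5,1),(4,0),(7,0)]⟩⟩,⟨true,0,⟨0,[(0,0)]⟩,⟨0,[(6,0)]⟩⟩,[]⟩) (.Q [0,-1,0,0,0,0,
  1,0,1] (.p true [0,0,1] [] (⟨0,[(11,0)]⟩,⟨7,[(4,3),(2,1),(0,0),(0,0),(0,1)]⟩) .k 0 (⟨0,[]⟩,⟨0,
  []⟩) .k .k) (.R ⟨2,true,false,true,[0,1],[1,0,-1],[0,1,1,1],(⟨0,[]⟩,⟨0,[]⟩),(⟨7,[(5,3),(2,1),(0,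
  0),(0,0),(0,1)]⟩,⟨0,[(12,0)]⟩),⟨0,[]⟩,.k,.k,.k,(.r 1 ⟨0,[(0,0),(0,1),(3,0),(2,0),(9,0)]⟩ ⟨3,[(2,
  1),(6,2),(0,0),(12,1)]⟩),.k,.k,⟨true,(-1),⟨0,[(0,0),(0,1),(3,0),(2,0),(9,0)]⟩,⟨5,[(2,1),(5,1),(0,
  2),(3,0),(4,1)]⟩⟩,⟨false,0,⟨7,[(5,3),(2,1),(0,0),(0,0),(0,1)]⟩,⟨1,[(12,1),(0,0),(6,0)]⟩⟩,⟨true,0,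
  ⟨0,[(23,0)]⟩,⟨0,[]⟩⟩,⟨false,1,⟨23,[(2,7),(2,3),(2,9),(0,14),(0,2),(0,9),(6,7)]⟩,⟨0,[(0,0),(0,
  0)]⟩⟩,⟨false,0,⟨0,[(19,0)]⟩,⟨3,[(2,1),(5,1),(4,0),(7,0)]⟩⟩,⟨true,0,⟨1,[(8,0),(0,0),(1,0),(5,1)]⟩,
  ⟨0,[(4,0)]⟩⟩,[]⟩) (.K ⟨0,[0,0,1],0,0,(⟨0,[(12,0)]⟩,⟨7,[(5,3),(2,1),(0,0),(0,0),(0,1)]⟩),.k,(.r
  (-1) ⟨2,[(2,0),(1,0),(0,0),(4,0),(7,0)]⟩ ⟨1,[(3,0),(4,0),(0,0)]⟩),(.r 1 ⟨0,[(1,0),(2,0),(0,0),(2,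
  0)]⟩ ⟨3,[(2,1),(6,2),(0,0),(12,1)]⟩),.k,.k,[⟨1,[(8,0),(2,0),(1,0)]⟩,⟨7,[(8,3),(0,0),(0,0),(1,7),
  (0,1)]⟩,⟨0,[(0,0)]⟩,⟨2,[(6,0),(3,0),(1,2),(4,0),(0,0),(4,0)]⟩]⟩))) (.Q [0,-1,0,0,0,0,1,0,1] (.p
  true [0,0,1] [] (⟨0,[(10,0)]⟩,⟨7,[(3,3),(2,1),(0,0),(0,0),(0,1)]⟩) .k 0 (⟨0,[]⟩,⟨0,[]⟩) .k .k)
  (.R ⟨2,true,false,false,[0,1],[0,0,1],[1,0,0,0,0,0,1],(⟨0,[]⟩,⟨0,[]⟩),(⟨0,[(11,0)]⟩,⟨7,[(4,3),(2,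
  1),(0,0),(0,0),(0,1)]⟩),⟨0,[]⟩,.k,.k,.k,(.r 0 ⟨11,[(1,3),(6,6),(0,0),(5,3)]⟩ ⟨5,[(0,3),(8,0),(0,
  1),(1,0),(4,5),(1,2),(0,0)]⟩),.k,.k,⟨true,0,⟨0,[]⟩,⟨7,[(7,3),(0,0),(0,0),(2,1)]⟩⟩,⟨false,0,⟨0,
  [(11,0)]⟩,⟨7,[(8,0),(0,0),(0,3),(1,1),(6,3)]⟩⟩,⟨false,1,⟨1,[(0,1),(3,1),(7,0),(4,1),(2,0)]⟩,⟨11,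
  [(1,3),(6,6),(0,0),(5,3)]⟩⟩,⟨true,0,⟨0,[(0,0),(16,0)]⟩,⟨5,[(1,1),(0,0),(5,2),(1,2),(1,0),(3,3)]⟩⟩,
  ⟨true,0,⟨0,[(3,0),(0,0)]⟩,⟨5,[(1,0),(5,1),(0,2),(3,0),(4,1),(4,2)]⟩⟩,⟨false,0,⟨0,[(0,0)]⟩,⟨7,[(8,
  4),(0,0),(0,3),(1,1)]⟩⟩,[]⟩) (.K ⟨0,[0,0,1],0,0,(⟨0,[(11,0)]⟩,⟨7,[(4,3),(2,1),(0,0),(0,0),(0,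
  1)]⟩),.k,(.r (-1) ⟨3,[(3,1),(0,1),(4,0),(7,3),(1,0),(0,1)]⟩ ⟨11,[(1,3),(6,6),(0,0),(5,3)]⟩),(.r 1
  ⟨0,[(1,0),(1,0),(0,0),(12,0),(2,0)]⟩ ⟨3,[(8,2),(0,0),(7,3),(1,1),(0,1)]⟩),.k,.k,[⟨1,[(7,0),(2,0),
  (1,0)]⟩,⟨7,[(7,3),(0,0),(0,0),(1,7),(0,1)]⟩,⟨0,[(0,0)]⟩,⟨6,[(1,0),(3,0),(3,2),(1,6),(4,2),(0,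
  2)]⟩]⟩))) (.Q [0,0,0,0,0,1,0,0,-1] (.ed true [1,-1,1] .k) (.R ⟨0,false,false,false,[0,0,1],[0,1],
  [0,1,1],(⟨0,[(10,0)]⟩,⟨7,[(3,3),(2,1),(0,0),(0,0),(0,1)]⟩),(⟨0,[(13,0)]⟩,⟨0,[(12,0)]⟩),⟨0,[(0,
  0)]⟩,.k,.k,(.r (-1) ⟨5,[(1,2),(0,1),(5,1),(0,0),(1,0),(6,2)]⟩ ⟨0,[(4,0),(2,0)]⟩),(.r (-1) ⟨5,[(1,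
  2),(0,1),(5,1),(0,0),(1,0),(6,2)]⟩ ⟨0,[(4,0),(2,0)]⟩),.k,.k,⟨true,0,⟨0,[(16,0)]⟩,⟨0,[(14,0)]⟩⟩,
  ⟨false,1,⟨1,[(3,1),(7,0),(6,0)]⟩,⟨7,[(6,3),(0,0),(0,0),(1,7),(0,1)]⟩⟩,⟨true,0,⟨1,[(5,0),(0,0),(0,
  0),(8,0)]⟩,⟨0,[(2,0),(0,0)]⟩⟩,⟨false,1,⟨1,[(3,1),(3,0),(3,0),(2,1)]⟩,⟨9,[(1,5),(0,5),(1,1),(3,0),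
  (1,3),(7,0)]⟩⟩,⟨false,0,⟨0,[]⟩,⟨0,[]⟩⟩,⟨false,0,⟨0,[]⟩,⟨0,[]⟩⟩,[.a ⟨true,0,⟨0,[(17,0)]⟩,⟨1,[(1,0),
  (4,0),(11,0)]⟩⟩ ⟨false,0,⟨0,[(21,0)]⟩,⟨1,[(18,0),(0,0)]⟩⟩ ⟨true,0,⟨1,[(3,1),(0,1),(2,0),(3,0)]⟩,
  ⟨1,[(1,0),(4,0),(3,1),(0,0)]⟩⟩,.o ⟨false,1,⟨1,[(11,0),(5,1),(1,0)]⟩,⟨0,[(16,0)]⟩⟩,.a ⟨true,0,⟨0,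
  [(10,0)]⟩,⟨7,[(3,3),(2,1),(0,0),(0,0),(0,1)]⟩⟩ ⟨false,0,⟨7,[(6,3),(0,0),(0,0),(2,1)]⟩,⟨1,[(18,0),
  (0,0)]⟩⟩ ⟨true,0,⟨1,[(3,1),(0,1),(2,0),(3,0)]⟩,⟨0,[(10,0),(5,0)]⟩⟩,.a ⟨true,0,⟨7,[(6,3),(0,0),(0,
  0),(1,7),(0,1)]⟩,⟨0,[(3,0)]⟩⟩ ⟨true,0,⟨0,[(21,0)]⟩,⟨0,[]⟩⟩ ⟨false,1,⟨1,[(3,1),(7,0),(5,1),(1,0)]⟩,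
  ⟨1,[(1,0),(4,0),(3,1),(0,0)]⟩⟩]⟩) (.S ⟨1,4,[],[0,0,1],[1,0,0,-1,0,0,1],(⟨0,[(10,0)]⟩,⟨7,[(3,3),(2,
  1),(0,0),(0,0),(0,1)]⟩),⟨0,[(0,0)]⟩,.k,(.r (-1) ⟨5,[(1,2),(0,1),(5,1),(0,0),(1,0),(6,2)]⟩ ⟨0,[(4,
  0),(2,0)]⟩),⟨false,1,⟨7,[(1,3),(5,0),(0,0),(2,1),(7,3)]⟩,⟨0,[(17,0)]⟩⟩,⟨true,0,⟨1,[(6,0),(0,0),(1,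
  0),(5,1)]⟩,⟨0,[(2,0)]⟩⟩,⟨true,0,⟨0,[]⟩,⟨0,[(21,0)]⟩⟩,⟨false,0,⟨0,[(3,0),(0,0),(2,0)]⟩,⟨7,[(1,3),
  (0,5),(5,0),(1,1),(0,2),(7,3)]⟩⟩,[.o ⟨false,0,⟨0,[(21,0)]⟩,⟨1,[(11,0),(7,0)]⟩⟩,.e ⟨false,1,⟨1,[(1,
  0),(0,1),(6,0),(8,0),(0,0)]⟩,⟨0,[(4,0),(2,0),(7,0)]⟩⟩ ⟨false,0,⟨0,[(3,0)]⟩,⟨3,[(7,0),(0,0),(1,3),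
  (0,1)]⟩⟩,.a ⟨true,0,⟨0,[(10,0)]⟩,⟨7,[(3,3),(2,1),(0,0),(0,0),(0,1)]⟩⟩ ⟨true,0,⟨1,[(1,0),(0,1),(6,
  0)]⟩,⟨0,[(4,0),(2,0),(7,0)]⟩⟩ ⟨false,0,⟨7,[(3,3),(2,1),(0,0),(0,0),(0,1)]⟩,⟨1,[(10,1),(0,0),(7,
  0)]⟩⟩,.e ⟨false,1,⟨1,[(1,0),(0,1),(6,0),(8,0),(0,0)]⟩,⟨0,[(4,0),(2,0)]⟩⟩ ⟨false,0,⟨0,[(3,0)]⟩,⟨7,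
  [(6,3),(0,0),(0,0),(1,7),(0,5),(7,3)]⟩⟩]⟩))) (.R ⟨2,true,false,false,[0,1],[1,0,-1],[1,1,1],(⟨0,
  []⟩,⟨0,[]⟩),(⟨5,[(0,1),(0,1),(2,0),(1,0),(0,0)]⟩,⟨0,[(8,0)]⟩),⟨0,[]⟩,.k,.k,.k,(.x (-1) ⟨1,[(9,0),
  (0,1),(5,0)]⟩ ⟨7,[(4,3),(0,0),(0,0),(2,1),(1,7)]⟩),.k,.k,⟨true,(-1),⟨0,[(2,0),(11,0)]⟩,⟨1,[(5,0),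
  (11,0)]⟩⟩,⟨false,0,⟨5,[(0,1),(0,1),(2,0),(1,0),(0,0)]⟩,⟨1,[(8,1),(0,0),(6,0)]⟩⟩,⟨true,0,⟨0,[(14,
  0)]⟩,⟨0,[(15,0)]⟩⟩,⟨false,1,⟨0,[(0,0),(13,0),(2,0)]⟩,⟨1,[(2,1),(5,1),(0,0),(6,0)]⟩⟩,⟨false,0,⟨0,
  []⟩,⟨3,[(5,0),(0,0),(10,1)]⟩⟩,⟨true,0,⟨0,[(0,0)]⟩,⟨1,[(2,1),(5,1),(0,0),(4,1),(1,0)]⟩⟩,[]⟩))))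

def tree : Tre :=
  t1

theorem ok : chk (cPU 1 false) tree base = true := by
  decide +kernel

theorem closed {p a b c J l q : ℤ} {D dl : ℝ} {Cl : ℤ → ℤ → ℤ → ℤ → ℝ → Prop}
    (W : World p a b c J 1 l q D dl Cl) (hE : KEmp p a b 1 (P1 l p) Cl)
    (g : G0 p a b c J D)
    {N R : ℤ} {I : ℝ} (hu : VFac p D Cl N R I)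
    (s0 : (1 : ℝ) ≤ c)
    (s1 : (b : ℝ) + 1 ≤ a)
    (s2 : (a : ℝ) ≤ b + c)
    (s3 : p - D < 2 * b)
    (s4 : D - c < a) : False := by
  have g1 := g.a2
  have g2 := g.b2
  have g3 := g.pa
  have g4 := g.pb
  have g5 := g.J1
  have g6 := g.JD
  have g7 := g.D2
  have g8 := g.ca
  have g9 := g.ca'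
  have t1 := TF.ofV hu
  have i1 := t1.I0
  have i2 := hu.ID
  have i3 := t1.R1
  have i4 := t1.R2
  refine (val_PU W.toBase (UV.ofV hu)).sound W rfl (Nk := 0) (fun kf hkf hh => ?_) (kok_B hE (by simp [xv]) (by simp [xv]) 0) ?_ ok
  · simp only [cPU, kfB, List.mem_cons, List.not_mem_nil, or_false] at hkf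
    subst hkf
    exact absurd hh (by norm_num)
  · simp only [base, List.forall_mem_cons, List.not_mem_nil, false_imp_iff, implies_true,
      and_true, hld, xv, evg_cons, evg_nil, List.map_cons, List.map_nil, List.cons_append,
      List.nil_append, if_true, if_false, Bool.false_eq_true]
    push_cast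
    refine ⟨?_, ?_, ?_, ?_, ?_, ?_, ?_, ?_, ?_, ?_, ?_, ?_, ?_, ?_, ?_, ?_, ?_⟩ <;> linarith

end Helper25.KG.P1_2_1_0_v
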