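import Pool.Agent.Helper25.KG.PL

set_option autoImplicit false
set_option linter.unusedVariables false

namespace Helper25.KG.P1_2_m1_0_u

open Helper11.CT Helper25.KW Helper25.KG

def base : List Con :=
  [(false,[0,1,0,-1,0,0,0,-1]),
  (false,[0,0,2,0,0,0,0,-1]),
  (true,[0,0,0,0,1,0,-2]),
  (true,[0,0,0,0,1,0,2]),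
  (false,[0,0,0,0,0,0,0,1,-1]),
  (false,[0,0,0,0,0,0,0,0,1]),
  (false,[0,0,0,0,1,0,0,-2]),
  (false,[0,0,0,0,0,-1,0,1]),
  (true,[0,0,0,0,0,1]),
  (true,[1,-1,1,1]),
  (true,[0,1,-1]),
  (true,[0,1,0,-1]),
  (true,[0,0,0,1]),
  (true,[0,0,-2,0,1]),
  (true,[0,-2,0,0,1]),
  (true,[-1,0,1]),
  (true,[-1,1])]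

def t0 : Tre :=
  (.Q [0,0,-1,-1,0,0,-1,-1,1] (.p true [0,0,1] [1] (⟨0,[(5,0)]⟩,⟨0,[(4,0)]⟩) .k 1 (⟨0,[]⟩,⟨0,[]⟩)
  .k .k) (.Q [0,0,0,0,0,1,0,-1,1] (.ed false [0,1,1] .k) (.R ⟨0,false,false,false,[1,0,-1],[0,1],[0,
  1,0,0,0,0,-1],(⟨0,[(6,0)]⟩,⟨0,[(7,0)]⟩),(⟨0,[(10,0)]⟩,⟨0,[(9,0)]⟩),⟨0,[(0,0)]⟩,.k,.k,(.x (-1) ⟨3,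
  [(4,0),(0,0),(2,1),(0,3)]⟩ ⟨0,[(10,0)]⟩),(.x (-1) ⟨3,[(4,0),(0,0),(2,1),(0,3)]⟩ ⟨0,[(10,0)]⟩),.k,
  .k,⟨false,0,⟨0,[(1,0),(4,0),(5,0)]⟩,⟨3,[(4,0),(0,2),(5,3)]⟩⟩,⟨true,0,⟨0,[(6,0)]⟩,⟨0,[(2,0),(4,0),
  (3,0)]⟩⟩,⟨true,0,⟨0,[(18,0)]⟩,⟨0,[]⟩⟩,⟨false,1,⟨3,[(4,0),(0,2),(0,3),(4,3)]⟩,⟨0,[(1,0)]⟩⟩,⟨false,
  0,⟨0,[]⟩,⟨0,[]⟩⟩,⟨false,0,⟨0,[]⟩,⟨0,[]⟩⟩,[.o ⟨false,0,⟨0,[(14,0)]⟩,⟨1,[(8,0),(4,1),(2,0)]⟩⟩,.o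
  ⟨false,1,⟨3,[(4,0),(0,0),(8,3),(1,1)]⟩,⟨0,[(2,0)]⟩⟩,.o ⟨false,1,⟨1,[(7,1),(0,0),(6,0)]⟩,⟨0,[(2,0),
  (3,0),(4,0)]⟩⟩,.a ⟨true,0,⟨0,[(7,0)]⟩,⟨0,[(6,0)]⟩⟩ ⟨false,0,⟨0,[(1,0),(4,0),(7,0)]⟩,⟨1,[(5,0),(10,
  0),(0,1)]⟩⟩ ⟨true,0,⟨0,[(6,0),(7,0)]⟩,⟨0,[(2,0),(4,0)]⟩⟩]⟩) (.I [1,-1,-1,-1,0,0,-1] (.I [0,0,-2,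
  -2,0,0,-1] (.R ⟨1,false,false,false,[1,0,-1],[0,1],[1,0,0,-1,0,0,-1],(⟨0,[(8,0)]⟩,⟨0,[(9,0)]⟩),
  (⟨0,[(12,0)]⟩,⟨0,[(11,0)]⟩),⟨0,[(2,0)]⟩,.k,.k,(.x (-1) ⟨3,[(6,0),(0,0),(2,1),(0,3)]⟩ ⟨0,[(12,
  0)]⟩),(.x (-1) ⟨3,[(6,0),(0,0),(2,1),(0,3)]⟩ ⟨0,[(12,0)]⟩),(.r 0 ⟨0,[(0,0)]⟩ ⟨3,[(6,0),(0,2),(5,
  7),(6,7)]⟩),.k,⟨false,0,⟨0,[(0,0)]⟩,⟨3,[(6,0),(0,2),(5,3),(2,3),(3,3)]⟩⟩,⟨true,0,⟨0,[(8,0)]⟩,⟨0,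
  [(4,0),(4,0),(3,0)]⟩⟩,⟨false,1,⟨0,[(15,0),(2,0)]⟩,⟨0,[(16,0)]⟩⟩,⟨false,1,⟨3,[(6,0),(0,2),(0,3),(4,
  3)]⟩,⟨0,[(3,0)]⟩⟩,⟨true,0,⟨0,[]⟩,⟨0,[(20,0)]⟩⟩,⟨false,1,⟨3,[(6,0),(0,2),(0,3),(4,3),(2,3)]⟩,⟨0,
  [(1,0),(2,0),(4,0)]⟩⟩,[.o ⟨false,0,⟨0,[(16,0)]⟩,⟨1,[(10,0),(4,1),(2,0)]⟩⟩,.o ⟨false,1,⟨3,[(6,0),
  (0,0),(8,3),(1,1)]⟩,⟨0,[(4,0)]⟩⟩,.o ⟨false,1,⟨1,[(9,1),(0,0),(6,0)]⟩,⟨0,[(4,0),(3,0),(4,0)]⟩⟩,.a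
  ⟨true,0,⟨0,[(9,0)]⟩,⟨0,[(8,0)]⟩⟩ ⟨false,0,⟨0,[(1,0)]⟩,⟨3,[(6,0),(0,2),(5,3),(6,3)]⟩⟩ ⟨true,0,⟨0,
  [(8,0),(7,0)]⟩,⟨0,[(4,0),(4,0)]⟩⟩]⟩) (.Q [0,1,1,1,0,0,1,1,-1] (.p false [0,0,1] [1] (⟨0,[(9,0)]⟩,
  ⟨0,[(8,0)]⟩) .k 1 (⟨0,[]⟩,⟨0,[]⟩) .k .k) (.R ⟨2,false,false,true,[0,1],[0,1,1],[1,1,1],(⟨0,[]⟩,⟨0,
  []⟩),(⟨0,[(10,0),(2,0)]⟩,⟨0,[(3,0)]⟩),⟨0,[]⟩,.k,(.x 0 ⟨0,[(13,0)]⟩ ⟨3,[(7,0),(0,0),(2,1),(0,3)]⟩),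
  .k,.k,(.x (-1) ⟨3,[(7,0),(0,0),(2,1),(0,3)]⟩ ⟨0,[(13,0)]⟩),.k,⟨false,0,⟨0,[(4,0),(4,0)]⟩,⟨7,[(1,
  3),(5,0),(0,2),(9,3)]⟩⟩,⟨true,0,⟨0,[(5,0),(3,0),(4,0)]⟩,⟨0,[(10,0)]⟩⟩,⟨true,0,⟨0,[(16,0)]⟩,⟨0,
  [(17,0)]⟩⟩,⟨false,1,⟨7,[(6,3),(0,0),(0,4),(0,7),(1,1)]⟩,⟨0,[(2,0),(7,0),(6,0)]⟩⟩,⟨false,0,⟨0,[]⟩,
  ⟨3,[(7,0),(0,0),(10,1)]⟩⟩,⟨false,1,⟨1,[(0,1),(10,0),(7,0)]⟩,⟨0,[(2,0),(7,0)]⟩⟩,[.a ⟨true,0,⟨0,[(0,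
  0)]⟩,⟨0,[(2,0),(7,0)]⟩⟩ ⟨false,0,⟨0,[(21,0)]⟩,⟨1,[(18,0),(0,0)]⟩⟩ ⟨true,0,⟨0,[(1,0),(3,0),(3,0)]⟩,
  ⟨0,[(2,0),(7,0)]⟩⟩,.o ⟨false,1,⟨1,[(0,1),(10,0),(7,0)]⟩,⟨0,[(4,0)]⟩⟩,.o ⟨false,1,⟨3,[(7,0),(0,0),
  (9,1)]⟩,⟨0,[(5,0),(8,0)]⟩⟩,.e ⟨false,0,⟨0,[]⟩,⟨3,[(7,0),(0,0),(10,1)]⟩⟩ ⟨false,1,⟨1,[(0,1),(10,0),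
  (7,0)]⟩,⟨0,[(2,0),(7,0)]⟩⟩]⟩) (.R ⟨1,true,false,true,[1,0,-1],[0,1],[1,1,2,1],(⟨0,[(9,0)]⟩,⟨0,
  [(10,0)]⟩),(⟨0,[(13,0)]⟩,⟨0,[(12,0)]⟩),⟨0,[(3,0)]⟩,.k,.k,(.x (-1) ⟨3,[(7,0),(0,0),(2,1),(0,3)]⟩
  ⟨0,[(13,0)]⟩),(.x (-1) ⟨3,[(7,0),(0,0),(2,1),(0,3)]⟩ ⟨0,[(13,0)]⟩),(.x 0 ⟨0,[(0,0),(0,0),(1,0),(1,
  0),(6,0)]⟩ ⟨3,[(7,0),(0,0),(4,7),(4,1)]⟩),.k,⟨false,0,⟨0,[]⟩,⟨3,[(7,0),(0,0),(9,1)]⟩⟩,⟨true,0,⟨0,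
  [(9,0)]⟩,⟨2,[(0,0),(0,0),(3,0),(0,0),(3,1)]⟩⟩,⟨true,0,⟨0,[(1,0),(14,0)]⟩,⟨0,[(2,0),(12,0)]⟩⟩,
  ⟨false,1,⟨7,[(1,3),(5,2),(0,4),(0,7)]⟩,⟨0,[(0,0)]⟩⟩,⟨false,0,⟨0,[(1,0)]⟩,⟨1,[(2,1),(13,1),(1,0),
  (0,0)]⟩⟩,⟨true,0,⟨0,[(1,0),(7,0),(5,0)]⟩,⟨0,[(0,0),(15,0)]⟩⟩,[]⟩))) (.S ⟨1,0,[0,1,0,0,0,0,-1],[1,
  0,-1],[1,0,0,-1,0,0,-1],(⟨0,[(7,0)]⟩,⟨0,[(8,0)]⟩),⟨0,[(1,0)]⟩,.k,(.x (-1) ⟨3,[(5,0),(0,0),(2,1),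
  (0,3)]⟩ ⟨0,[(11,0)]⟩),⟨false,1,⟨0,[(14,0),(2,0)]⟩,⟨0,[(15,0)]⟩⟩,⟨true,0,⟨0,[(19,0)]⟩,⟨0,[]⟩⟩,
  ⟨true,0,⟨0,[]⟩,⟨0,[(19,0)]⟩⟩,⟨false,0,⟨0,[(15,0)]⟩,⟨0,[(14,0),(2,0)]⟩⟩,[.o ⟨false,0,⟨0,[(2,0),(12,
  0),(3,0)]⟩,⟨1,[(3,1),(2,0),(0,1),(4,1),(4,0)]⟩⟩,.o ⟨false,0,⟨0,[(2,0),(12,0)]⟩,⟨7,[(4,3),(0,0),(0,
  4),(0,7),(1,1)]⟩⟩,.o ⟨false,1,⟨1,[(8,1),(0,0),(6,0)]⟩,⟨0,[(3,0),(3,0),(4,0)]⟩⟩,.a ⟨true,0,⟨0,[(8,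
  0)]⟩,⟨0,[(7,0)]⟩⟩ ⟨true,0,⟨0,[(2,0),(4,0)]⟩,⟨0,[(0,0)]⟩⟩ ⟨false,0,⟨0,[(2,0),(4,0),(7,0)]⟩,⟨1,[(6,
  0),(10,0),(0,1)]⟩⟩]⟩))) (.Q [0,1,-1,0,0,0,-1,0,1] (.p true [0,0,1] [] (⟨0,[(6,0)]⟩,⟨0,[(5,0)]⟩)
  .k 0 (⟨0,[]⟩,⟨0,[]⟩) .k .k) (.K ⟨0,[0,0,1],0,0,(⟨0,[(7,0)]⟩,⟨0,[(6,0)]⟩),.k,(.x 0 ⟨0,[(3,0),(5,
  0)]⟩ ⟨0,[(10,0),(4,0)]⟩),(.x 0 ⟨0,[(10,0)]⟩ ⟨3,[(4,0),(0,0),(2,1),(0,3)]⟩),.k,.k,[⟨0,[(7,0)]⟩,⟨0,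
  [(3,0),(2,0)]⟩,⟨0,[(0,0)]⟩,⟨0,[(1,0),(0,0)]⟩]⟩) (.Q [0,1,1,0,-1,0,1,0,-1] (.p false [0,0,1] []
  (⟨0,[(7,0)]⟩,⟨0,[(6,0)]⟩) .k 0 (⟨0,[]⟩,⟨0,[]⟩) .k .k) (.K ⟨0,[0,0,1],0,(-1),(⟨0,[(8,0)]⟩,⟨0,[(7,
  0)]⟩),.k,(.x 0 ⟨0,[(4,0),(5,0)]⟩ ⟨0,[(11,0),(4,0)]⟩),(.x 0 ⟨0,[(11,0)]⟩ ⟨3,[(5,0),(0,0),(2,1),(0,
  3)]⟩),.k,.k,[⟨0,[(8,0)]⟩,⟨0,[(4,0),(2,0)]⟩,⟨1,[(5,0),(2,1),(7,0),(2,1)]⟩,⟨0,[(0,0)]⟩]⟩) (.Q [0,0,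
  0,0,0,1,0,-1,1] (.ed false [0,1,1] .k) (.R ⟨0,false,false,false,[1,0,-1],[0,1],[0,1,0,0,0,0,-1],
  (⟨0,[(8,0)]⟩,⟨0,[(9,0)]⟩),(⟨0,[(12,0)]⟩,⟨0,[(11,0)]⟩),⟨0,[(0,0)]⟩,.k,.k,(.x (-1) ⟨3,[(6,0),(0,0),
  (2,1),(0,3)]⟩ ⟨0,[(12,0)]⟩),(.x (-1) ⟨3,[(6,0),(0,0),(2,1),(0,3)]⟩ ⟨0,[(12,0)]⟩),.k,.k,⟨false,1,
  ⟨0,[(1,0),(2,0),(3,0),(5,0)]⟩,⟨0,[(2,0),(6,0),(6,0)]⟩⟩,⟨true,0,⟨0,[(8,0)]⟩,⟨0,[(4,0),(4,0),(3,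
  0)]⟩⟩,⟨true,0,⟨0,[(20,0)]⟩,⟨0,[]⟩⟩,⟨false,0,⟨0,[(2,0),(5,0),(0,0),(6,0)]⟩,⟨0,[(1,0),(2,0)]⟩⟩,
  ⟨false,0,⟨0,[]⟩,⟨0,[]⟩⟩,⟨false,0,⟨0,[]⟩,⟨0,[]⟩⟩,[.o ⟨false,0,⟨0,[(16,0)]⟩,⟨1,[(10,0),(4,1),(2,
  0)]⟩⟩,.o ⟨false,1,⟨3,[(1,1),(1,1),(6,0),(5,1),(1,0)]⟩,⟨0,[(4,0)]⟩⟩,.o ⟨false,1,⟨1,[(9,1),(0,0),(6,
  0)]⟩,⟨0,[(4,0),(3,0),(4,0)]⟩⟩,.a ⟨true,0,⟨0,[(9,0)]⟩,⟨0,[(8,0)]⟩⟩ ⟨false,1,⟨1,[(6,0),(10,0)]⟩,⟨0,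
  [(2,0),(6,0)]⟩⟩ ⟨true,0,⟨0,[(8,0),(7,0)]⟩,⟨0,[(4,0),(4,0)]⟩⟩]⟩) (.I [1,0,-2,-2,1,0,-1] (.I [0,0,
  -2,-2,1,0,-1] (.R ⟨1,false,false,false,[1,0,-1],[0,1],[1,0,0,-1,0,0,-1],(⟨0,[(10,0)]⟩,⟨0,[(11,
  0)]⟩),(⟨0,[(14,0)]⟩,⟨0,[(13,0)]⟩),⟨0,[(2,0)]⟩,.k,.k,(.x (-1) ⟨3,[(8,0),(0,0),(2,1),(0,3)]⟩ ⟨0,
  [(14,0)]⟩),(.x (-1) ⟨3,[(8,0),(0,0),(2,1),(0,3)]⟩ ⟨0,[(14,0)]⟩),(.r (-1) ⟨0,[(0,0)]⟩ ⟨3,[(4,0),(0,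
  2),(0,0),(0,1),(3,3),(6,5)]⟩),.k,⟨false,1,⟨0,[(1,0)]⟩,⟨1,[(4,0),(0,0),(0,0),(4,1),(6,3)]⟩⟩,⟨true,
  0,⟨0,[(10,0)]⟩,⟨0,[(6,0),(4,0),(3,0)]⟩⟩,⟨false,1,⟨0,[(17,0),(2,0)]⟩,⟨0,[(18,0)]⟩⟩,⟨false,0,⟨0,[(4,
  0),(5,0),(0,0),(6,0)]⟩,⟨0,[(3,0),(2,0)]⟩⟩,⟨true,0,⟨0,[]⟩,⟨0,[(22,0)]⟩⟩,⟨false,0,⟨0,[(4,0),(5,0),
  (0,0),(6,1)]⟩,⟨0,[(0,0),(5,0),(4,0),(3,0)]⟩⟩,[.o ⟨false,0,⟨0,[(18,0)]⟩,⟨3,[(0,1),(6,1),(1,0),(2,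
  0)]⟩⟩,.o ⟨false,1,⟨3,[(3,1),(1,1),(6,0),(5,1),(1,0)]⟩,⟨0,[(6,0)]⟩⟩,.o ⟨false,1,⟨1,[(11,1),(0,0),
  (6,0)]⟩,⟨0,[(6,0),(3,0),(4,0)]⟩⟩,.a ⟨true,0,⟨0,[(11,0)]⟩,⟨0,[(10,0)]⟩⟩ ⟨false,1,⟨0,[(0,0),(14,
  0)]⟩,⟨1,[(4,0),(0,0),(0,0),(4,1),(6,1)]⟩⟩ ⟨true,0,⟨0,[(10,0),(7,0)]⟩,⟨0,[(6,0),(4,0)]⟩⟩]⟩) (.Q [0,
  1,1,1,-1,0,1,1,-1] (.p false [0,0,1] [1] (⟨0,[(11,0)]⟩,⟨0,[(10,0)]⟩) .k 1 (⟨0,[]⟩,⟨0,[]⟩) .k .k)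
  (.R ⟨2,false,false,true,[0,1],[0,1,1],[1,1,1],(⟨0,[]⟩,⟨0,[]⟩),(⟨0,[(12,0),(2,0)]⟩,⟨0,[(3,0)]⟩),⟨0,
  []⟩,.k,(.x 0 ⟨0,[(15,0)]⟩ ⟨3,[(9,0),(0,0),(2,1),(0,3)]⟩),.k,.k,(.x (-1) ⟨3,[(9,0),(0,0),(2,1),(0,
  3)]⟩ ⟨0,[(15,0)]⟩),.k,⟨false,1,⟨7,[(2,3),(6,2),(0,0)]⟩,⟨1,[(1,0),(3,0),(6,0),(4,0),(2,0)]⟩⟩,⟨true,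
  0,⟨0,[(7,0),(3,0),(4,0)]⟩,⟨0,[(12,0)]⟩⟩,⟨true,0,⟨0,[(18,0)]⟩,⟨0,[(19,0)]⟩⟩,⟨false,0,⟨1,[(5,0),(0,
  0),(0,0)]⟩,⟨0,[(4,0)]⟩⟩,⟨false,0,⟨0,[]⟩,⟨3,[(9,0),(0,0),(10,1)]⟩⟩,⟨false,0,⟨2,[(0,0),(4,0),(0,0),
  (6,0),(5,0)]⟩,⟨0,[(2,0),(9,0),(3,0)]⟩⟩,[.a ⟨true,(-1),⟨0,[(0,0)]⟩,⟨0,[(2,0),(9,0),(3,0)]⟩⟩ ⟨false,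
  0,⟨0,[(23,0)]⟩,⟨1,[(20,0),(0,0)]⟩⟩ ⟨true,(-1),⟨0,[(1,0),(5,0),(3,0)]⟩,⟨0,[(2,0),(9,0),(3,0)]⟩⟩,.o
  ⟨false,0,⟨2,[(0,0),(4,0),(0,0),(6,0),(5,0)]⟩,⟨0,[(4,0),(2,0)]⟩⟩,.o ⟨false,1,⟨3,[(9,0),(0,0),(9,
  1)]⟩,⟨0,[(7,0),(8,0)]⟩⟩,.e ⟨false,0,⟨0,[]⟩,⟨3,[(9,0),(0,0),(10,1)]⟩⟩ ⟨false,0,⟨2,[(0,0),(4,0),(0,
  0),(6,0),(5,0)]⟩,⟨0,[(2,0),(9,0),(3,0)]⟩⟩]⟩) (.R ⟨1,true,false,true,[1,0,-1],[0,1],[1,1,0,-1,0,0,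
  -1],(⟨0,[(11,0)]⟩,⟨0,[(12,0)]⟩),(⟨0,[(15,0)]⟩,⟨0,[(14,0)]⟩),⟨0,[(3,0)]⟩,.k,.k,(.x (-1) ⟨3,[(9,0),
  (0,0),(2,1),(0,3)]⟩ ⟨0,[(15,0)]⟩),(.x (-1) ⟨3,[(9,0),(0,0),(2,1),(0,3)]⟩ ⟨0,[(15,0)]⟩),(.x 0 ⟨0,
  [(0,0),(0,0),(1,0),(3,0),(6,0)]⟩ ⟨3,[(9,0),(0,0),(4,7),(4,1)]⟩),.k,⟨false,1,⟨0,[(2,0)]⟩,⟨7,[(1,3),
  (7,0),(0,2),(8,7)]⟩⟩,⟨true,0,⟨0,[(11,0)]⟩,⟨2,[(0,0),(0,0),(5,0),(0,0),(3,1)]⟩⟩,⟨true,0,⟨0,[(18,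
  0)]⟩,⟨0,[(19,0)]⟩⟩,⟨false,0,⟨0,[(6,0)]⟩,⟨0,[(0,0)]⟩⟩,⟨false,0,⟨0,[]⟩,⟨3,[(9,0),(0,0),(10,1)]⟩⟩,
  ⟨true,(-1),⟨0,[(1,0),(9,0),(5,0)]⟩,⟨0,[(0,0),(17,0)]⟩⟩,[]⟩))) (.Q [0,1,1,1,-1,0,1,0,-1] (.p false
  [0,0,1] [] (⟨0,[(10,0)]⟩,⟨0,[(9,0)]⟩) .k 0 (⟨0,[]⟩,⟨0,[]⟩) .k .k) (.K ⟨0,[0,1,1],0,(-1),(⟨0,[(11,
  0),(2,0)]⟩,⟨0,[(2,0)]⟩),(.x 0 ⟨0,[(14,0)]⟩ ⟨3,[(8,0),(0,0),(2,1),(0,3)]⟩),.k,(.r 1 ⟨0,[(1,0)]⟩ ⟨1,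
  [(3,1),(2,1),(3,1),(6,1),(1,0),(0,0)]⟩),.k,.k,[⟨0,[(11,0),(9,0)]⟩,⟨0,[(6,0),(3,0),(4,0)]⟩,⟨0,[(3,
  0),(13,0),(4,0)]⟩,⟨0,[(0,0)]⟩]⟩) (.R ⟨1,false,false,false,[1,0,-1],[0,1],[0,1,0,0,0,0,-1],(⟨0,
  [(10,0)]⟩,⟨0,[(11,0)]⟩),(⟨0,[(14,0)]⟩,⟨0,[(13,0)]⟩),⟨0,[(2,0)]⟩,.k,.k,(.x (-1) ⟨3,[(8,0),(0,0),(2,
  1),(0,3)]⟩ ⟨0,[(14,0)]⟩),(.x (-1) ⟨3,[(8,0),(0,0),(2,1),(0,3)]⟩ ⟨0,[(14,0)]⟩),(.r (-2) ⟨1,[(0,1),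
  (9,1),(1,0),(4,1),(1,0)]⟩ ⟨0,[(1,0)]⟩),.k,⟨false,1,⟨3,[(0,1),(5,1),(1,0),(1,1),(5,3),(2,0)]⟩,⟨3,
  [(1,1),(2,1),(6,1),(7,0),(0,0)]⟩⟩,⟨true,0,⟨0,[(10,0)]⟩,⟨0,[(6,0),(4,0),(3,0)]⟩⟩,⟨true,0,⟨0,[(22,
  0)]⟩,⟨0,[]⟩⟩,⟨false,0,⟨3,[(1,1),(2,1),(5,3),(0,1),(7,0),(0,0)]⟩,⟨0,[(3,0),(2,0)]⟩⟩,⟨false,0,⟨0,
  [(18,0)]⟩,⟨0,[(17,0),(2,0)]⟩⟩,⟨false,0,⟨1,[(1,1),(8,1),(8,0),(0,0)]⟩,⟨0,[(0,0),(5,0)]⟩⟩,[.o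
  ⟨false,0,⟨0,[(18,0)]⟩,⟨1,[(12,0),(4,1),(2,0)]⟩⟩,.o ⟨false,1,⟨3,[(3,1),(1,1),(6,0),(5,1),(1,0)]⟩,
  ⟨0,[(6,0)]⟩⟩,.o ⟨false,1,⟨1,[(11,1),(0,0),(6,0)]⟩,⟨0,[(6,0),(3,0),(4,0)]⟩⟩,.a ⟨true,0,⟨0,[(11,
  0)]⟩,⟨0,[(10,0)]⟩⟩ ⟨false,1,⟨1,[(8,0),(10,0)]⟩,⟨0,[(4,0),(6,0)]⟩⟩ ⟨true,0,⟨0,[(10,0),(7,0)]⟩,⟨0,
  [(6,0),(4,0)]⟩⟩]⟩)))))))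

def tree : Tre :=
  t0

theorem ok : chk (cPU (-1) true) tree base = true := by
  decide +kernel

theorem closed {p a b c J l q : ℤ} {D dl : ℝ} {Cl : ℤ → ℤ → ℤ → ℤ → ℝ → Prop}
    (W : World p a b c J (-1) l q D dl Cl) (hE : KEmp p a b (-1) (P1 l p) Cl)
    (g : G0 p a b c J D)
    {N R : ℤ} {I : ℝ} (hu : UFac p b D Cl N R I)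
    (s0 : (1 : ℝ) ≤ c)
    (s1 : (b : ℝ) + 1 ≤ a)
    (s2 : (a : ℝ) ≤ b + c)
    (s3 : D < 2 * b)
    (s4 : -(a : ℝ) < -D - c) : False := by
  have g1 := g.a2
  have g2 := g.b2
  have g3 := g.pa
  have g4 := g.pb
  have g5 := g.J1
  have g6 := g.JD
  have g7 := g.D2
  have g8 := g.ca
  have g9 := g.ca'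
  have t1 := TF.ofU hu
  have i1 := t1.I0
  have i2 := t1.ID
  have i3 := t1.R1
  have i4 := t1.R2
  refine (val_PU W.toBase (UV.ofU hu)).sound W rfl (Nk := 0) (fun kf hkf hh => ?_) (kok_B hE (by simp [xv]) (by simp [xv]) 0) ?_ ok
  · simp only [cPU, kfB, List.mem_cons, List.not_mem_nil, or_false] at hkf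
    subst hkf
    exact absurd hh (by norm_num)
  · simp only [base, List.forall_mem_cons, List.not_mem_nil, false_imp_iff, implies_true,
      and_true, hld, xv, evg_cons, evg_nil, List.map_cons, List.map_nil, List.cons_append,
      List.nil_append, if_true, if_false, Bool.false_eq_true]
    push_cast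
    refine ⟨?_, ?_, ?_, ?_, ?_, ?_, ?_, ?_, ?_, ?_, ?_, ?_, ?_, ?_, ?_, ?_, ?_⟩ <;> linarith

end Helper25.KG.P1_2_m1_0_u
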