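import Pool.Agent.Helper25.KG.PL

set_option autoImplicit false
set_option linter.unusedVariables false

namespace Helper25.KG.P1_2_m1_0_v

open Helper11.CT Helper25.KW Helper25.KG

def base : List Con :=
  [(false,[0,1,0,-1,0,0,0,-1]),
  (false,[0,0,2,0,0,0,0,-1]),
  (true,[0,0,0,0,1,0,-2]),
  (true,[0,0,0,0,1,0,2]),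
  (false,[0,0,0,0,0,0,0,1,-2]),
  (false,[0,0,0,0,0,0,0,0,1]),
  (false,[0,0,0,0,1,0,0,-2]),
  (false,[0,0,0,0,0,-1,0,1]),
  (true,[0,0,0,0,0,1]),
  (true,[1,-1,1,1]),
  (true,[0,1,-1]),
  (true,[0,1,0,-1]),
  (true,[0,0,0,1]),
  (true,[0,0,-2,0,1]),
  (true,[0,-2,0,0,1]),
  (true,[-1,0,1]),
  (true,[-1,1])]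

def tree : Tre :=
  (.I [1,0,-1,-1,0,0,-1] (.Q [0,0,0,0,0,1,0,0,-1] (.ed true [1,-1,1] .k) (.R ⟨0,false,false,true,[0,
  0,1],[1,-1],[0,1,0,0,0,0,1],(⟨0,[(7,0)]⟩,⟨1,[(6,0),(2,0),(0,0)]⟩),(⟨0,[(9,0)]⟩,⟨0,[(10,0)]⟩),⟨0,
  [(0,0)]⟩,.k,.k,(.r (-1) ⟨0,[(1,0),(3,0)]⟩ ⟨0,[(1,0),(9,1),(6,1)]⟩),(.x (-1) ⟨3,[(4,0),(0,0),(4,3),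
  (4,1)]⟩ ⟨0,[(2,0),(6,0),(1,0)]⟩),.k,.k,⟨false,1,⟨3,[(4,0),(0,2),(8,3)]⟩,⟨0,[(1,0)]⟩⟩,⟨true,0,⟨0,
  [(2,0),(4,0),(3,0)]⟩,⟨1,[(6,0),(2,0),(0,0)]⟩⟩,⟨true,0,⟨0,[(18,0)]⟩,⟨0,[]⟩⟩,⟨false,0,⟨0,[(1,0),(0,
  0),(4,0),(3,0)]⟩,⟨1,[(5,0),(0,0),(2,0),(0,0),(3,1),(1,0)]⟩⟩,⟨false,0,⟨0,[]⟩,⟨0,[]⟩⟩,⟨false,0,⟨0,
  []⟩,⟨0,[]⟩⟩,[.o ⟨false,0,⟨0,[(2,0)]⟩,⟨3,[(4,0),(0,0),(8,3),(1,1)]⟩⟩,.o ⟨false,1,⟨1,[(8,0),(4,1),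
  (2,0)]⟩,⟨0,[(14,0)]⟩⟩,.a ⟨true,0,⟨1,[(6,0),(2,0),(0,0)]⟩,⟨0,[(7,0)]⟩⟩ ⟨false,1,⟨3,[(4,0),(0,2)]⟩,
  ⟨0,[(1,0),(9,0)]⟩⟩ ⟨true,0,⟨0,[(2,0),(4,0)]⟩,⟨1,[(6,0),(2,0),(0,0),(3,1)]⟩⟩,.o ⟨false,0,⟨1,[(3,0),
  (2,0)]⟩,⟨1,[(7,1),(0,0),(6,0)]⟩⟩]⟩) (.R ⟨1,false,false,true,[0,0,1],[1,-1],[0,1,0,0,0,0,1],(⟨0,
  [(7,0)]⟩,⟨1,[(6,0),(2,0),(0,0)]⟩),(⟨0,[(9,0)]⟩,⟨0,[(10,0)]⟩),⟨0,[(0,0)]⟩,.k,.k,(.r (-1) ⟨0,[(1,0),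
  (3,0)]⟩ ⟨0,[(1,0),(9,1),(6,1)]⟩),(.x (-1) ⟨3,[(4,0),(0,0),(4,3),(4,1)]⟩ ⟨1,[(0,1),(2,0),(2,0)]⟩),
  .k,.k,⟨false,1,⟨3,[(4,0),(0,2),(8,3)]⟩,⟨0,[(1,0)]⟩⟩,⟨true,0,⟨0,[(2,0),(4,0),(3,0)]⟩,⟨1,[(6,0),(2,
  0),(0,0)]⟩⟩,⟨true,0,⟨0,[(18,0)]⟩,⟨0,[]⟩⟩,⟨false,0,⟨0,[(1,0),(0,0),(4,0),(3,0)]⟩,⟨1,[(5,0),(0,0),
  (2,0),(0,0),(3,1),(1,0)]⟩⟩,⟨false,0,⟨0,[(14,0)]⟩,⟨0,[(13,0),(2,0)]⟩⟩,⟨false,0,⟨0,[(1,0),(0,0),(4,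
  0),(3,0),(2,0)]⟩,⟨1,[(5,0),(0,0),(2,0),(0,0),(5,0)]⟩⟩,[.o ⟨false,0,⟨0,[(2,0)]⟩,⟨3,[(4,0),(0,0),(8,
  3),(1,1)]⟩⟩,.o ⟨false,1,⟨1,[(8,0),(4,1),(2,0)]⟩,⟨0,[(14,0)]⟩⟩,.a ⟨true,0,⟨1,[(6,0),(2,0),(0,0)]⟩,
  ⟨0,[(7,0)]⟩⟩ ⟨false,1,⟨3,[(4,0),(0,2)]⟩,⟨0,[(1,0),(9,0)]⟩⟩ ⟨true,0,⟨0,[(2,0),(4,0)]⟩,⟨1,[(6,0),(2,
  0),(0,0),(3,1)]⟩⟩,.o ⟨false,0,⟨1,[(3,0),(2,0)]⟩,⟨1,[(7,1),(0,0),(6,0)]⟩⟩]⟩)) (.I [0,0,-1,-1,0,0,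
  1] (.Q [0,0,0,0,0,1,0,0,-1] (.ed true [1,-1,1] .k) (.R ⟨0,false,false,true,[0,0,1],[1,-1],[1,0,0,
  0,0,0,1],(⟨0,[(8,0)]⟩,⟨1,[(7,0),(2,0),(0,0)]⟩),(⟨0,[(10,0)]⟩,⟨0,[(11,0)]⟩),⟨0,[(0,0)]⟩,.k,.k,(.r
  0 ⟨0,[(1,0)]⟩ ⟨0,[(2,0),(2,0)]⟩),(.r 0 ⟨0,[(2,0)]⟩ ⟨0,[(1,0),(3,0)]⟩),.k,.k,⟨false,0,⟨0,[(1,0),
  (10,0),(2,0)]⟩,⟨1,[(5,0),(8,1),(1,0)]⟩⟩,⟨true,0,⟨0,[(3,0),(4,0),(3,0)]⟩,⟨1,[(7,0),(2,0),(0,0)]⟩⟩,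
  ⟨true,0,⟨0,[]⟩,⟨0,[(19,0)]⟩⟩,⟨false,1,⟨1,[(3,1),(1,0),(2,1),(8,0)]⟩,⟨1,[(1,1),(5,0),(2,0),(0,0),
  (0,1),(2,1)]⟩⟩,⟨false,0,⟨0,[]⟩,⟨0,[]⟩⟩,⟨false,0,⟨0,[]⟩,⟨0,[]⟩⟩,[.o ⟨false,0,⟨0,[(3,0)]⟩,⟨3,[(2,1),
  (2,0),(9,1),(0,0),(0,1)]⟩⟩,.o ⟨false,1,⟨1,[(9,0),(4,1),(2,0)]⟩,⟨0,[(15,0)]⟩⟩,.a ⟨true,0,⟨1,[(7,0),
  (2,0),(0,0)]⟩,⟨0,[(8,0)]⟩⟩ ⟨false,0,⟨0,[(1,0),(10,0)]⟩,⟨3,[(5,2),(0,0)]⟩⟩ ⟨true,0,⟨0,[(3,0),(4,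
  0)]⟩,⟨1,[(7,0),(2,0),(0,0),(3,1)]⟩⟩,.o ⟨false,0,⟨1,[(4,0),(2,0)]⟩,⟨1,[(8,1),(0,0),(6,0)]⟩⟩]⟩) (.R
  ⟨1,false,false,true,[0,0,1],[1,-1],[0,0,0,0,0,0,1],(⟨0,[(8,0)]⟩,⟨1,[(7,0),(2,0),(0,0)]⟩),(⟨0,[(10,
  0)]⟩,⟨0,[(11,0)]⟩),⟨0,[(0,0)]⟩,.k,.k,(.r 0 ⟨0,[(1,0)]⟩ ⟨0,[(2,0),(2,0)]⟩),(.r 0 ⟨0,[(2,0)]⟩ ⟨0,
  [(1,0),(3,0)]⟩),.k,.k,⟨false,0,⟨0,[(1,0),(10,0),(2,0)]⟩,⟨1,[(5,0),(8,1),(1,0)]⟩⟩,⟨true,0,⟨0,[(3,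
  0),(4,0),(3,0)]⟩,⟨1,[(7,0),(2,0),(0,0)]⟩⟩,⟨false,1,⟨3,[(5,0),(0,0),(10,1)]⟩,⟨0,[]⟩⟩,⟨false,1,⟨1,
  [(3,1),(1,0),(2,1),(8,0)]⟩,⟨1,[(1,1),(5,0),(2,0),(0,0),(0,1),(2,1)]⟩⟩,⟨true,0,⟨0,[(15,0)]⟩,⟨0,
  [(14,0)]⟩⟩,⟨false,1,⟨1,[(5,0),(2,1),(0,0)]⟩,⟨1,[(1,1),(5,0),(2,0),(0,0),(0,1)]⟩⟩,[.o ⟨false,0,⟨0,
  [(3,0)]⟩,⟨3,[(2,1),(2,0),(9,1),(0,0),(0,1)]⟩⟩,.o ⟨false,1,⟨1,[(9,0),(4,1),(2,0)]⟩,⟨0,[(15,0)]⟩⟩,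
  .a ⟨true,0,⟨1,[(7,0),(2,0),(0,0)]⟩,⟨0,[(8,0)]⟩⟩ ⟨false,0,⟨0,[(1,0),(10,0)]⟩,⟨3,[(5,2),(0,0)]⟩⟩
  ⟨true,0,⟨0,[(3,0),(4,0)]⟩,⟨1,[(7,0),(2,0),(0,0),(3,1)]⟩⟩,.o ⟨false,0,⟨1,[(4,0),(2,0)]⟩,⟨1,[(8,1),
  (0,0),(6,0)]⟩⟩]⟩)) (.Q [0,1,0,0,0,0,-1,-1,1] (.p true [0,0,1] [1] (⟨0,[(7,0)]⟩,⟨1,[(6,0),(2,0),(0,
  0)]⟩) .k 1 (⟨0,[]⟩,⟨0,[]⟩) .k .k) (.I [0,-1,1,1] (.Q [0,1,0,0,0,0,1,1,-1] (.p false [0,0,1] [1]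
  (⟨0,[(9,0)]⟩,⟨1,[(8,0),(2,0),(0,0)]⟩) .k 1 (⟨0,[]⟩,⟨0,[]⟩) .k .k) (.I [0,0,-1,-1,1,0,-1] (.K ⟨0,
  [1,0,-1],0,0,(⟨1,[(10,0),(2,0),(0,0)]⟩,⟨0,[(11,0)]⟩),.k,(.r (-1) ⟨0,[(0,0)]⟩ ⟨0,[(5,0)]⟩),(.x
  (-1) ⟨3,[(8,0),(0,0),(4,3),(4,1)]⟩ ⟨0,[(2,0),(3,0),(6,0)]⟩),.k,.k,[⟨1,[(10,0),(2,0),(0,0),(6,1)]⟩,
  ⟨0,[(2,0),(3,0),(4,0)]⟩,⟨0,[(1,0)]⟩,⟨0,[(3,0)]⟩]⟩) (.K ⟨0,[1,0,-1],0,0,(⟨1,[(10,0),(2,0),(0,0)]⟩,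
  ⟨0,[(11,0)]⟩),.k,(.x 0 ⟨0,[(2,0),(3,0),(6,0)]⟩ ⟨3,[(8,0),(0,0),(4,3),(4,1)]⟩),(.r 0 ⟨0,[(0,0),(2,
  1),(6,0),(2,0),(0,0),(5,0)]⟩ ⟨0,[(0,0),(16,1),(1,0),(0,0)]⟩),.k,.k,[⟨1,[(10,0),(2,0),(0,0),(6,
  1)]⟩,⟨2,[(0,0),(2,0),(2,0),(0,0),(3,1),(8,0)]⟩,⟨0,[(1,0)]⟩,⟨0,[(3,0)]⟩]⟩)) (.R ⟨2,true,false,
  false,[0,1],[1,0,-1],[0,1],(⟨0,[]⟩,⟨0,[]⟩),(⟨1,[(9,0),(2,0),(0,0)]⟩,⟨0,[(10,0)]⟩),⟨0,[]⟩,.k,.k,.k,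
  (.r 0 ⟨0,[(4,0)]⟩ ⟨3,[(0,1),(6,0),(1,0),(2,0),(0,0),(2,3),(1,1),(0,0)]⟩),.k,.k,⟨false,1,⟨1,[(8,0),
  (9,0),(2,1)]⟩,⟨1,[(0,1),(8,0),(2,0),(0,0)]⟩⟩,⟨true,0,⟨2,[(0,0),(3,0),(0,0),(0,0),(3,1)]⟩,⟨1,[(9,
  0),(2,0),(0,0)]⟩⟩,⟨false,1,⟨1,[(16,1),(1,0),(0,0)]⟩,⟨0,[(14,0)]⟩⟩,⟨true,0,⟨0,[(0,0),(15,0)]⟩,⟨1,
  [(4,1),(4,0),(2,0),(0,0),(1,1)]⟩⟩,⟨true,0,⟨0,[(15,0)]⟩,⟨0,[(20,0)]⟩⟩,⟨false,0,⟨0,[(0,0)]⟩,⟨3,[(7,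
  0),(0,2),(0,1),(2,1),(0,1)]⟩⟩,[]⟩)) (.K ⟨0,[1,0,-1],0,0,(⟨1,[(8,0),(2,0),(0,0)]⟩,⟨0,[(9,0)]⟩),.k,
  (.r (-1) ⟨1,[(0,1),(5,0),(11,0)]⟩ ⟨0,[(3,0)]⟩),(.r 0 ⟨1,[(1,1),(6,0),(2,0),(0,0),(0,1)]⟩ ⟨1,[(0,
  1),(6,0),(10,0)]⟩),.k,.k,[⟨1,[(8,0),(2,0),(0,0),(6,1)]⟩,⟨0,[(4,0),(4,0),(3,0)]⟩,⟨1,[(0,1),(2,1),
  (4,0),(2,0),(0,0)]⟩,⟨0,[(1,0)]⟩]⟩)) (.Q [0,0,0,0,0,1,0,0,-1] (.ed true [1,-1,1] .k) (.R ⟨0,false,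
  false,false,[0,0,1],[0,1],[1,0,1,1],(⟨0,[(9,0)]⟩,⟨1,[(8,0),(2,0),(0,0)]⟩),(⟨0,[(12,0)]⟩,⟨0,[(11,
  0)]⟩),⟨0,[(0,0)]⟩,.k,.k,(.x 0 ⟨0,[(4,0),(6,0),(1,0)]⟩ ⟨3,[(6,0),(0,0),(4,3),(4,1)]⟩),(.x 0 ⟨0,[(4,
  0),(6,0),(1,0)]⟩ ⟨3,[(6,0),(0,0),(4,3),(4,1)]⟩),.k,.k,⟨true,0,⟨0,[]⟩,⟨0,[(19,0)]⟩⟩,⟨false,1,⟨0,
  [(9,0),(7,0)]⟩,⟨1,[(5,0),(2,0)]⟩⟩,⟨true,0,⟨0,[(2,0)]⟩,⟨0,[(1,0),(2,0),(4,0),(4,0)]⟩⟩,⟨false,1,⟨1,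
  [(6,0),(2,1),(6,1),(1,0)]⟩,⟨0,[(1,0),(2,0)]⟩⟩,⟨false,0,⟨0,[]⟩,⟨0,[]⟩⟩,⟨false,0,⟨0,[]⟩,⟨0,[]⟩⟩,[.o
  ⟨false,0,⟨0,[(16,0)]⟩,⟨1,[(10,0),(4,1),(2,0)]⟩⟩,.o ⟨false,1,⟨3,[(3,1),(2,0),(9,1),(0,0),(0,1)]⟩,
  ⟨0,[(4,0)]⟩⟩,.a ⟨true,0,⟨1,[(8,0),(2,0),(0,0)]⟩,⟨0,[(9,0)]⟩⟩ ⟨false,0,⟨0,[(13,0)]⟩,⟨1,[(15,1),(1,
  0),(0,0)]⟩⟩ ⟨true,0,⟨0,[(9,0),(6,0)]⟩,⟨1,[(4,0),(3,0),(6,0)]⟩⟩,.o ⟨false,0,⟨1,[(5,0),(2,0)]⟩,⟨1,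
  [(9,1),(0,0),(6,0)]⟩⟩]⟩) (.I [0,0,-1,-1,1,0,-1] (.R ⟨1,false,false,true,[0,0,1],[1,-1],[0,1,0,0,0,
  0,1],(⟨0,[(10,0)]⟩,⟨1,[(9,0),(2,0),(0,0)]⟩),(⟨0,[(12,0)]⟩,⟨0,[(13,0)]⟩),⟨0,[(1,0)]⟩,.k,.k,(.x 0
  ⟨1,[(1,1),(4,0),(2,0)]⟩ ⟨3,[(7,0),(0,0),(4,3),(4,1)]⟩),(.r 0 ⟨0,[(4,0)]⟩ ⟨0,[(0,0)]⟩),.k,.k,
  ⟨false,0,⟨0,[(2,0),(2,0),(4,0),(6,1)]⟩,⟨0,[(0,0)]⟩⟩,⟨true,0,⟨0,[(5,0),(4,0),(3,0)]⟩,⟨1,[(9,0),(2,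
  0),(0,0)]⟩⟩,⟨true,0,⟨0,[(21,0)]⟩,⟨0,[]⟩⟩,⟨false,1,⟨1,[(5,1),(1,0),(2,1),(8,0)]⟩,⟨0,[(2,0),(14,
  0)]⟩⟩,⟨false,0,⟨0,[(17,0)]⟩,⟨0,[(16,0),(2,0)]⟩⟩,⟨false,1,⟨1,[(7,0),(2,1),(0,0)]⟩,⟨0,[(2,0)]⟩⟩,[.o
  ⟨false,0,⟨0,[(5,0)]⟩,⟨3,[(4,1),(2,0),(9,1),(0,0),(0,1)]⟩⟩,.o ⟨false,1,⟨1,[(11,0),(4,1),(2,0)]⟩,⟨0,
  [(17,0)]⟩⟩,.a ⟨true,0,⟨1,[(9,0),(2,0),(0,0)]⟩,⟨0,[(10,0)]⟩⟩ ⟨false,0,⟨0,[(2,0),(2,0),(4,0),(6,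
  0)]⟩,⟨1,[(7,0),(11,0)]⟩⟩ ⟨true,0,⟨0,[(5,0),(4,0)]⟩,⟨1,[(9,0),(2,0),(0,0),(3,1)]⟩⟩,.o ⟨false,0,⟨1,
  [(6,0),(2,0)]⟩,⟨1,[(10,1),(0,0),(6,0)]⟩⟩]⟩) (.R ⟨1,false,false,true,[0,0,1],[1,-1],[0,1,-1,-1],
  (⟨0,[(10,0)]⟩,⟨1,[(9,0),(2,0),(0,0)]⟩),(⟨0,[(12,0)]⟩,⟨0,[(13,0)]⟩),⟨0,[(1,0)]⟩,.k,.k,(.r (-1) ⟨3,
  [(2,1),(2,1),(2,0),(1,1),(5,1),(1,1),(0,0)]⟩ ⟨0,[(0,0),(6,0)]⟩),(.x (-1) ⟨3,[(7,0),(0,0),(4,3),(4,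
  1)]⟩ ⟨1,[(1,1),(4,0),(2,0)]⟩),.k,.k,⟨false,1,⟨3,[(7,0),(0,0),(9,1)]⟩,⟨0,[]⟩⟩,⟨true,0,⟨0,[(5,0),(4,
  0),(3,0)]⟩,⟨1,[(9,0),(2,0),(0,0)]⟩⟩,⟨true,1,⟨1,[(7,0),(8,1),(1,0)]⟩,⟨0,[(0,0)]⟩⟩,⟨false,1,⟨1,[(5,
  1),(1,0),(2,1),(8,0)]⟩,⟨0,[(2,0),(14,0)]⟩⟩,⟨false,1,⟨1,[(7,0),(10,0)]⟩,⟨2,[(0,0),(1,1),(2,0),(0,
  0),(3,1),(8,0)]⟩⟩,⟨false,1,⟨1,[(7,0),(2,1),(0,0)]⟩,⟨0,[(2,0)]⟩⟩,[.o ⟨false,0,⟨0,[(5,0)]⟩,⟨3,[(4,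
  1),(2,0),(9,1),(0,0),(0,1)]⟩⟩,.o ⟨false,1,⟨1,[(11,0),(4,1),(2,0)]⟩,⟨0,[(17,0)]⟩⟩,.a ⟨true,0,⟨1,
  [(9,0),(2,0),(0,0)]⟩,⟨0,[(10,0)]⟩⟩ ⟨false,1,⟨1,[(16,1),(1,0),(0,0)]⟩,⟨0,[(14,0)]⟩⟩ ⟨true,0,⟨0,[(5,
  0),(4,0)]⟩,⟨1,[(9,0),(2,0),(0,0),(3,1)]⟩⟩,.o ⟨false,0,⟨1,[(6,0),(2,0)]⟩,⟨1,[(10,1),(0,0),(6,
  0)]⟩⟩]⟩))))))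

theorem ok : chk (cPU (-1) false) tree base = true := by
  decide +kernel

theorem closed {p a b c J l q : ℤ} {D dl : ℝ} {Cl : ℤ → ℤ → ℤ → ℤ → ℝ → Prop}
    (W : World p a b c J (-1) l q D dl Cl) (hE : KEmp p a b (-1) (P1 l p) Cl)
    (g : G0 p a b c J D)
    {N R : ℤ} {I : ℝ} (hu : VFac p D Cl N R I)
    (s0 : (1 : ℝ) ≤ c)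
    (s1 : (b : ℝ) + 1 ≤ a)
    (s2 : (a : ℝ) ≤ b + c)
    (s3 : D < 2 * b)
    (s4 : -(a : ℝ) < -D - c) : False := by
  have g1 := g.a2
  have g2 := g.b2
  have g3 := g.pa
  have g4 := g.pb
  have g5 := g.J1
  have g6 := g.JD
  have g7 := g.D2
  have g8 := g.ca
  have g9 := g.ca'
  have t1 := TF.ofV hu
  have i1 := t1.I0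
  have i2 := hu.ID
  have i3 := t1.R1
  have i4 := t1.R2
  refine (val_PU W.toBase (UV.ofV hu)).sound W rfl (Nk := 0) (fun kf hkf hh => ?_) (kok_B hE (by simp [xv]) (by simp [xv]) 0) ?_ ok
  · simp only [cPU, kfB, List.mem_cons, List.not_mem_nil, or_false] at hkf
    subst hkf
    exact absurd hh (by norm_num)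
  · simp only [base, List.forall_mem_cons, List.not_mem_nil, false_imp_iff, implies_true,
      and_true, hld, xv, evg_cons, evg_nil, List.map_cons, List.map_nil, List.cons_append,
      List.nil_append, if_true, if_false, Bool.false_eq_true]
    push_cast
    refine ⟨?_, ?_, ?_, ?_, ?_, ?_, ?_, ?_, ?_, ?_, ?_, ?_, ?_, ?_, ?_, ?_, ?_⟩ <;> linarith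

end Helper25.KG.P1_2_m1_0_v
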