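import Pool.Agent.Helper25.KG.PL

set_option autoImplicit false
set_option linter.unusedVariables false

namespace Helper25.KG.P1_2_m1_0_v2

open Helper11.CT Helper25.KW Helper25.KG

def base : List Con :=
  [(false,[0,1,0,-1,0,0,-2]),
  (false,[0,0,2,0,0,0,-2]),
  (false,[0,0,0,0,0,0,1]),
  (false,[0,0,0,0,0,2,-4]),
  (false,[0,0,0,0,-1,0,2]),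
  (true,[0,0,0,0,1]),
  (true,[1,-1,1,1]),
  (true,[0,1,-1]),
  (true,[0,1,0,-1]),
  (true,[0,0,0,1]),
  (true,[0,0,-2,0,0,2]),
  (true,[0,-2,0,0,0,2]),
  (true,[-1,0,1]),
  (true,[-1,1])]

def tree : Tre :=
  (.Q [0,1,0,0,0,-1,1] (.p true [0,0,1] [] (⟨0,[(2,0)]⟩,⟨0,[(2,0)]⟩) .k 0 (⟨0,[]⟩,⟨0,[]⟩) .k .k)
  (.K ⟨0,[0,0,1],0,0,(⟨0,[(3,0)]⟩,⟨0,[(3,0)]⟩),.k,(.x 0 ⟨0,[(1,0),(3,0),(1,0)]⟩ ⟨1,[(6,1),(4,0),(0,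
  0),(1,1)]⟩),(.x (-1) ⟨1,[(6,1),(4,0),(0,0),(1,1)]⟩ ⟨0,[(1,0),(3,0),(1,0)]⟩),.k,.k,[⟨0,[(3,0),(9,
  0)]⟩,⟨1,[(2,0)]⟩,⟨0,[(0,0)]⟩,⟨3,[(4,0),(7,0),(1,5)]⟩]⟩) (.I [0,0,-1,-1,0,1] (.Q [0,0,0,0,-1,0,1]
  (.ed false [1,-1,1] .k) (.R ⟨1,false,false,true,[0,0,1],[1,-1],[0,0,0,0,0,1],(⟨0,[(5,0)]⟩,⟨0,[(5,
  0)]⟩),(⟨0,[(7,0)]⟩,⟨0,[(8,0)]⟩),⟨0,[(0,0)]⟩,.k,.k,(.r 0 ⟨0,[(1,0)]⟩ ⟨1,[(9,1),(4,0),(1,3)]⟩),(.r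
  0 ⟨1,[(9,1),(4,0),(1,3)]⟩ ⟨0,[(1,0)]⟩),.k,.k,⟨false,0,⟨1,[(12,1),(1,0)]⟩,⟨1,[(11,1),(1,0)]⟩⟩,
  ⟨true,0,⟨1,[(4,0)]⟩,⟨0,[(5,0)]⟩⟩,⟨false,1,⟨0,[(14,0),(1,0)]⟩,⟨0,[]⟩⟩,⟨false,1,⟨1,[(1,1),(2,0)]⟩,
  ⟨1,[(5,1),(6,1),(1,0)]⟩⟩,⟨true,0,⟨0,[(12,0)]⟩,⟨0,[(11,0)]⟩⟩,⟨false,1,⟨3,[(6,0),(7,0),(1,1)]⟩,⟨1,
  [(5,1),(8,0)]⟩⟩,[.o ⟨false,0,⟨0,[(3,0)]⟩,⟨0,[(12,0),(1,0),(1,0)]⟩⟩,.o ⟨false,1,⟨1,[(6,0),(4,1),(2,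
  0)]⟩,⟨0,[(12,0)]⟩⟩,.a ⟨true,0,⟨0,[(5,0)]⟩,⟨0,[(5,0)]⟩⟩ ⟨false,0,⟨1,[(14,0)]⟩,⟨1,[(14,0),(1,1)]⟩⟩
  ⟨true,0,⟨1,[(3,0),(7,0)]⟩,⟨0,[(5,0),(6,0)]⟩⟩,.o ⟨false,0,⟨1,[(4,0)]⟩,⟨3,[(6,0),(6,1),(0,0),(1,
  1)]⟩⟩]⟩) (.R ⟨0,false,false,true,[0,0,1],[1,-1],[1,0,0,0,0,1],(⟨0,[(5,0)]⟩,⟨0,[(5,0)]⟩),(⟨0,[(7,
  0)]⟩,⟨0,[(8,0)]⟩),⟨0,[(0,0)]⟩,.k,.k,(.r 0 ⟨0,[(1,0)]⟩ ⟨1,[(9,1),(4,0),(1,3)]⟩),(.r 0 ⟨1,[(9,1),(4,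
  0),(1,3)]⟩ ⟨0,[(1,0)]⟩),.k,.k,⟨false,0,⟨1,[(12,1),(1,0)]⟩,⟨1,[(11,1),(1,0)]⟩⟩,⟨true,0,⟨1,[(4,0)]⟩,
  ⟨0,[(5,0)]⟩⟩,⟨true,0,⟨0,[]⟩,⟨0,[(16,0)]⟩⟩,⟨false,1,⟨1,[(1,1),(2,0)]⟩,⟨1,[(5,1),(6,1),(1,0)]⟩⟩,
  ⟨false,0,⟨0,[]⟩,⟨0,[]⟩⟩,⟨false,0,⟨0,[]⟩,⟨0,[]⟩⟩,[.o ⟨false,0,⟨0,[(3,0)]⟩,⟨0,[(12,0),(1,0),(1,
  0)]⟩⟩,.o ⟨false,1,⟨1,[(6,0),(4,1),(2,0)]⟩,⟨0,[(12,0)]⟩⟩,.a ⟨true,0,⟨0,[(5,0)]⟩,⟨0,[(5,0)]⟩⟩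
  ⟨false,0,⟨1,[(14,0)]⟩,⟨1,[(14,0),(1,1)]⟩⟩ ⟨true,0,⟨1,[(3,0),(7,0)]⟩,⟨0,[(5,0),(6,0)]⟩⟩,.o ⟨false,
  0,⟨1,[(4,0)]⟩,⟨3,[(6,0),(6,1),(0,0),(1,1)]⟩⟩]⟩)) (.R ⟨2,true,false,false,[0,1],[0,0,1],[0,1],(⟨0,
  []⟩,⟨0,[]⟩),(⟨0,[(4,0)]⟩,⟨0,[(4,0)]⟩),⟨0,[]⟩,.k,.k,.k,(.x (-1) ⟨1,[(7,1),(4,0),(0,0),(1,1)]⟩ ⟨3,
  [(0,1),(0,1),(0,1),(0,0),(2,3)]⟩),.k,.k,⟨false,1,⟨1,[(12,0),(2,1)]⟩,⟨1,[(13,0)]⟩⟩,⟨true,0,⟨1,[(3,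
  0)]⟩,⟨0,[(4,0)]⟩⟩,⟨false,1,⟨1,[(10,1),(1,0),(0,0)]⟩,⟨0,[(8,0)]⟩⟩,⟨true,0,⟨1,[(2,0),(7,0),(2,0)]⟩,
  ⟨0,[(0,0),(3,0),(4,0)]⟩⟩,⟨true,0,⟨0,[(9,0)]⟩,⟨0,[(14,0)]⟩⟩,⟨false,0,⟨0,[(1,0)]⟩,⟨1,[(4,1),(8,0),
  (1,1)]⟩⟩,[]⟩)))

theorem ok : chk (cPW (-1)) tree base = true := by
  decide +kernel

theorem closed {p a b c J l q : ℤ} {D dl : ℝ} {Cl : ℤ → ℤ → ℤ → ℤ → ℝ → Prop}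
    (W : World p a b c J (-1) l q D dl Cl) (hE : KEmp p a b (-1) (P1 l p) Cl)
    (g : G0 p a b c J D)
    {N R : ℤ} {I : ℝ} (hu : WFac p D Cl N R I)
    (s0 : (1 : ℝ) ≤ c)
    (s1 : (b : ℝ) + 1 ≤ a)
    (s2 : (a : ℝ) ≤ b + c)
    (s3 : D < 2 * b)
    (s4 : -(a : ℝ) < -D - c) : False := by
  have g1 := g.a2
  have g2 := g.b2
  have g3 := g.pa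
  have g4 := g.pb
  have g5 := g.J1
  have g6 := g.JD
  have g7 := g.D2
  have g8 := g.ca
  have g9 := g.ca'
  have i1 := hu.I0
  have i2 := hu.ID
  have i3 : (2 : ℝ) * R = p := by exact_mod_cast hu.R2
  refine (val_PW W.toBase hu).sound W rfl (Nk := 0) (fun kf hkf hh => ?_) (kok_B hE (by simp [xv]) (by simp [xv]) 0) ?_ ok
  · simp only [cPW, kfB, List.mem_cons, List.not_mem_nil, or_false] at hkf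
    subst hkf
    exact absurd hh (by norm_num)
  · simp only [base, List.forall_mem_cons, List.not_mem_nil, false_imp_iff, implies_true,
      and_true, hld, xv, evg_cons, evg_nil, List.map_cons, List.map_nil, List.cons_append,
      List.nil_append, if_true, if_false, Bool.false_eq_true]
    push_cast
    refine ⟨?_, ?_, ?_, ?_, ?_, ?_, ?_, ?_, ?_, ?_, ?_, ?_, ?_, ?_⟩ <;> linarith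

end Helper25.KG.P1_2_m1_0_v2
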