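import Pool.Agent.Helper25.KG.PL

set_option autoImplicit false
set_option linter.unusedVariables false

namespace Helper25.KG.P1_2_m1_1_u

open Helper11.CT Helper25.KW Helper25.KG

def base : List Con :=
  [(false,[0,1,0,1,-1,0,0,1]),
  (false,[0,0,2,0,0,0,0,-1]),
  (true,[0,0,0,0,1,0,-2]),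
  (true,[0,0,0,0,1,0,2]),
  (false,[0,0,0,0,0,0,0,1,-1]),
  (false,[0,0,0,0,0,0,0,0,1]),
  (false,[0,0,0,0,1,0,0,-2]),
  (false,[0,0,0,0,0,-1,0,1]),
  (true,[0,0,0,0,0,1]),
  (true,[1,-1,1,1]),
  (true,[0,1,-1]),
  (true,[0,1,0,-1]),
  (true,[0,0,0,1]),
  (true,[0,0,-2,0,1]),
  (true,[0,-2,0,0,1]),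
  (true,[-1,0,1]),
  (true,[-1,1])]

def t0 : Tre :=
  (.I [1,-1,-1,0,0,0,-2] (.Q [0,-1,1,0,1,0,1,1,-2] (.p false [0,0,1] [1,0,-1] (⟨0,[(13,0)]⟩,⟨0,[(12,
  0)]⟩) .k 2 (⟨0,[(12,0)]⟩,⟨0,[(13,0)]⟩) .k (.r (-1) ⟨0,[(11,0)]⟩ ⟨2,[(0,0),(0,0),(6,0),(0,0),(0,
  0)]⟩)) (.Q [0,1,1,-1,0,0,0,0,-1] (.p false [0,0,1] [] (⟨0,[(14,0)]⟩,⟨0,[(13,0)]⟩) .k 0 (⟨0,[]⟩,⟨0,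
  []⟩) .k .k) (.I [1,1,0,0,0,0,1] (.R ⟨0,false,false,true,[1,0,-1],[1,-1],[1,1],(⟨0,[(15,0)]⟩,⟨0,
  [(16,0)]⟩),(⟨0,[(18,0)]⟩,⟨0,[(19,0)]⟩),⟨0,[(5,0)]⟩,.k,.k,(.x (-1) ⟨3,[(13,0),(0,0),(2,1),(0,3)]⟩
  ⟨0,[(19,0)]⟩),(.x (-1) ⟨0,[(19,0),(4,0)]⟩ ⟨0,[(12,0),(5,0)]⟩),.k,.k,⟨false,0,⟨0,[(23,0)]⟩,⟨5,[(6,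
  1),(0,0),(2,0),(3,0),(0,1),(6,1),(1,1)]⟩⟩,⟨true,0,⟨0,[(12,0),(2,0)]⟩,⟨0,[(0,0),(6,0)]⟩⟩,⟨true,0,
  ⟨0,[(0,0)]⟩,⟨5,[(3,0),(0,0),(6,0),(0,0),(0,0)]⟩⟩,⟨false,1,⟨3,[(2,1),(3,0),(5,0),(1,0),(7,1)]⟩,⟨0,
  [(7,0),(15,0)]⟩⟩,⟨false,0,⟨0,[]⟩,⟨0,[]⟩⟩,⟨false,0,⟨0,[]⟩,⟨0,[]⟩⟩,[.a ⟨true,0,⟨0,[(22,0)]⟩,⟨0,[(11,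
  0),(13,0)]⟩⟩ ⟨false,0,⟨0,[(21,0)]⟩,⟨3,[(13,0),(0,0),(10,1)]⟩⟩ ⟨true,0,⟨0,[(1,0)]⟩,⟨0,[(0,0),(6,0),
  (12,0)]⟩⟩,.o ⟨false,1,⟨7,[(6,3),(6,0),(0,0),(2,1)]⟩,⟨0,[(23,0)]⟩⟩,.a ⟨true,0,⟨0,[(0,0),(6,0)]⟩,⟨0,
  [(15,0),(10,0)]⟩⟩ ⟨false,0,⟨0,[]⟩,⟨3,[(13,0),(0,0),(10,1)]⟩⟩ ⟨true,0,⟨0,[(1,0)]⟩,⟨1,[(0,0),(6,0),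
  (1,0),(1,0),(8,0)]⟩⟩,.a ⟨true,0,⟨0,[(16,0)]⟩,⟨0,[(15,0)]⟩⟩ ⟨true,0,⟨0,[(21,0)]⟩,⟨0,[(26,0)]⟩⟩
  ⟨false,1,⟨41,[(1,13),(0,13),(1,3),(1,11),(6,2),(3,0),(6,11)]⟩,⟨0,[(0,0),(6,0),(12,0)]⟩⟩]⟩) (.Q [0,
  0,-1,0,0,0,0,0,1] (.p true [0,0,1] [] (⟨0,[(16,0)]⟩,⟨0,[(15,0)]⟩) .k 0 (⟨0,[]⟩,⟨0,[]⟩) .k .k) (.R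
  ⟨0,false,false,true,[1,0,-1],[1,-1],[1,0,0,0,0,0,-1],(⟨0,[(16,0)]⟩,⟨0,[(17,0)]⟩),(⟨0,[(19,0)]⟩,⟨0,
  [(20,0)]⟩),⟨0,[(6,0)]⟩,.k,.k,(.x (-1) ⟨3,[(14,0),(0,0),(2,1),(0,3)]⟩ ⟨0,[(20,0)]⟩),(.x (-1) ⟨0,
  [(20,0),(4,0)]⟩ ⟨0,[(13,0),(5,0)]⟩),.k,.k,⟨false,0,⟨1,[(4,0),(16,0),(2,0)]⟩,⟨1,[(15,0),(7,1),(1,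
  0)]⟩⟩,⟨true,0,⟨0,[(13,0),(2,0)]⟩,⟨0,[(0,0)]⟩⟩,⟨true,0,⟨0,[]⟩,⟨0,[(28,0)]⟩⟩,⟨false,1,⟨3,[(3,1),(3,
  0),(5,0),(1,0),(7,1)]⟩,⟨0,[(8,0),(15,0)]⟩⟩,⟨false,0,⟨0,[]⟩,⟨0,[]⟩⟩,⟨false,0,⟨0,[]⟩,⟨0,[]⟩⟩,[.a
  ⟨true,0,⟨0,[(23,0)]⟩,⟨0,[(12,0),(13,0)]⟩⟩ ⟨false,0,⟨1,[(4,0),(17,0)]⟩,⟨3,[(14,0),(0,2)]⟩⟩ ⟨true,0,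
  ⟨0,[(2,0)]⟩,⟨0,[(0,0),(20,0)]⟩⟩,.o ⟨false,1,⟨7,[(7,3),(6,0),(0,0),(2,1)]⟩,⟨0,[(24,0)]⟩⟩,.a ⟨true,
  0,⟨0,[(0,0)]⟩,⟨0,[(16,0),(10,0)]⟩⟩ ⟨false,0,⟨0,[(1,0)]⟩,⟨3,[(14,0),(0,2)]⟩⟩ ⟨true,0,⟨0,[(2,0)]⟩,
  ⟨1,[(0,0),(9,0),(1,0),(8,0)]⟩⟩,.a ⟨true,0,⟨0,[(17,0)]⟩,⟨0,[(16,0)]⟩⟩ ⟨true,0,⟨1,[(4,0),(17,0)]⟩,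
  ⟨1,[(12,0),(0,0),(1,0),(7,0)]⟩⟩ ⟨false,1,⟨41,[(2,13),(0,13),(1,3),(1,11),(6,2),(3,0),(6,11)]⟩,⟨0,
  [(0,0),(20,0)]⟩⟩]⟩) (.Q [0,0,1,0,0,0,0,-1,1] (.p true [0,0,1] [1] (⟨0,[(17,0)]⟩,⟨0,[(16,0)]⟩) .k
  1 (⟨0,[]⟩,⟨0,[]⟩) .k .k) (.R ⟨0,false,false,true,[1,0,-1],[0,1],[1,1,1],(⟨0,[(17,0)]⟩,⟨0,[(18,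
  0)]⟩),(⟨0,[(21,0)]⟩,⟨0,[(20,0)]⟩),⟨0,[(7,0)]⟩,.k,.k,(.x (-1) ⟨3,[(15,0),(0,0),(2,1),(0,3)]⟩ ⟨0,
  [(21,0)]⟩),(.x (-1) ⟨3,[(15,0),(0,0),(2,1),(0,3)]⟩ ⟨0,[(21,0)]⟩),.k,.k,⟨false,1,⟨5,[(8,1),(0,0),
  (2,0),(3,0),(0,1),(6,1),(1,1)]⟩,⟨0,[(25,0)]⟩⟩,⟨true,0,⟨0,[(17,0)]⟩,⟨0,[(0,0)]⟩⟩,⟨true,0,⟨1,[(13,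
  0),(0,0),(1,0),(7,0)]⟩,⟨1,[(5,0),(17,0)]⟩⟩,⟨false,0,⟨2,[(1,0),(2,0),(8,1),(2,0),(5,0)]⟩,⟨3,[(8,1),
  (0,2),(2,0),(6,0)]⟩⟩,⟨false,0,⟨0,[]⟩,⟨0,[]⟩⟩,⟨false,0,⟨0,[]⟩,⟨0,[]⟩⟩,[.a ⟨true,(-1),⟨0,[(13,0)]⟩,
  ⟨0,[(24,0),(2,0)]⟩⟩ ⟨false,0,⟨0,[(29,0)]⟩,⟨1,[(26,0),(0,0)]⟩⟩ ⟨true,(-1),⟨0,[(1,0),(11,0)]⟩,⟨3,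
  [(0,1),(7,1),(0,1),(6,0),(10,0)]⟩⟩,.o ⟨false,0,⟨0,[(25,0)]⟩,⟨7,[(8,3),(6,0),(0,0),(2,1)]⟩⟩,.o
  ⟨false,1,⟨5,[(0,1),(10,3),(3,0),(0,0)]⟩,⟨0,[(1,0)]⟩⟩,.e ⟨false,0,⟨0,[]⟩,⟨3,[(15,0),(0,0),(10,
  1)]⟩⟩ ⟨false,0,⟨0,[(17,0),(7,0)]⟩,⟨3,[(0,1),(7,1),(0,1),(6,0),(10,0)]⟩⟩]⟩) (.I [1,0,-1,-1,0,0,-1]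
  (.R ⟨0,false,false,false,[0,0,1],[0,1],[0,1,1],(⟨0,[(19,0)]⟩,⟨0,[(18,0)]⟩),(⟨0,[(22,0)]⟩,⟨0,[(21,
  0)]⟩),⟨0,[(1,0),(0,0),(5,0)]⟩,.k,.k,(.r (-1) ⟨0,[(0,0),(16,0)]⟩ ⟨9,[(6,0),(7,3),(0,3),(0,3),(6,2),
  (2,2)]⟩),(.r (-1) ⟨0,[(0,0),(16,0)]⟩ ⟨9,[(6,0),(7,3),(0,3),(0,3),(6,2),(2,2)]⟩),.k,.k,⟨true,0,⟨0,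
  [(25,0)]⟩,⟨0,[(23,0)]⟩⟩,⟨false,1,⟨4,[(1,2),(8,2),(0,0),(0,3),(1,0),(2,1),(7,0)]⟩,⟨0,[(15,0),(2,
  0)]⟩⟩,⟨true,(-1),⟨0,[(0,0),(13,0),(0,0)]⟩,⟨1,[(17,0),(9,0)]⟩⟩,⟨false,0,⟨0,[(10,0),(15,0)]⟩,⟨3,[(5,
  1),(3,0),(5,0),(1,0),(7,1)]⟩⟩,⟨false,0,⟨0,[]⟩,⟨0,[]⟩⟩,⟨false,0,⟨0,[]⟩,⟨0,[]⟩⟩,[.o ⟨false,0,⟨0,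
  [(26,0)]⟩,⟨7,[(9,3),(6,0),(0,0),(2,1)]⟩⟩,.a ⟨true,0,⟨0,[(14,0),(13,0)]⟩,⟨0,[(25,0)]⟩⟩ ⟨true,0,⟨0,
  [(29,0)]⟩,⟨0,[]⟩⟩ ⟨false,1,⟨1,[(10,1),(6,0),(8,1),(0,0)]⟩,⟨0,[(4,0)]⟩⟩,.o ⟨false,0,⟨0,[(2,0)]⟩,⟨5,
  [(11,0),(0,1),(0,0),(3,0),(1,1),(0,1)]⟩⟩,.o ⟨false,0,⟨0,[(15,0),(2,0)]⟩,⟨0,[(12,0)]⟩⟩]⟩) (.R ⟨0,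
  false,false,false,[1,-1],[0,1],[1,1,1],(⟨0,[(21,0)]⟩,⟨0,[(22,0)]⟩),(⟨0,[(22,0)]⟩,⟨0,[(21,0)]⟩),⟨0,
  [(1,0),(0,0),(5,1)]⟩,.k,.k,(.x (-1) ⟨3,[(15,3),(0,0),(0,0),(2,1),(0,7)]⟩ ⟨0,[(1,1),(6,1)]⟩),(.x
  (-1) ⟨3,[(15,3),(0,0),(0,0),(2,1),(0,7)]⟩ ⟨0,[(1,1),(6,1)]⟩),.k,.k,⟨true,0,⟨0,[(25,0)]⟩,⟨0,[(0,0),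
  (2,0)]⟩⟩,⟨false,1,⟨1,[(1,1),(8,0),(0,0),(5,0),(9,0)]⟩,⟨0,[(15,0)]⟩⟩,⟨true,(-1),⟨0,[(14,0),(0,0)]⟩,
  ⟨5,[(1,3),(7,1),(0,1),(1,1),(4,0),(7,1),(1,0)]⟩⟩,⟨false,0,⟨0,[(14,0),(11,0),(1,0)]⟩,⟨0,[(9,0)]⟩⟩,
  ⟨false,0,⟨0,[]⟩,⟨0,[]⟩⟩,⟨false,0,⟨0,[]⟩,⟨0,[]⟩⟩,[.o ⟨false,0,⟨0,[(26,0)]⟩,⟨7,[(9,3),(6,0),(0,0),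
  (2,1)]⟩⟩,.a ⟨true,0,⟨0,[(14,0),(13,0)]⟩,⟨0,[(25,0)]⟩⟩ ⟨false,0,⟨0,[]⟩,⟨3,[(16,0),(0,0),(9,1)]⟩⟩
  ⟨true,0,⟨0,[(0,0),(0,0),(8,0)]⟩,⟨0,[(15,0),(9,0)]⟩⟩,.e ⟨false,0,⟨0,[(29,0)]⟩,⟨1,[(27,0),(0,0)]⟩⟩
  ⟨false,0,⟨0,[(0,0),(0,0),(8,0)]⟩,⟨3,[(9,1),(5,1),(0,0),(0,0)]⟩⟩,.o ⟨false,0,⟨0,[(15,0)]⟩,⟨0,[(27,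
  0)]⟩⟩]⟩))))) (.R ⟨0,false,false,true,[1,0,-1],[1,-1],[0,1,1],(⟨0,[(14,0)]⟩,⟨0,[(15,0)]⟩),(⟨0,[(17,
  0)]⟩,⟨0,[(18,0)]⟩),⟨0,[(4,0)]⟩,.k,.k,(.x (-1) ⟨3,[(12,0),(0,0),(2,1),(0,3)]⟩ ⟨0,[(18,0)]⟩),(.x
  (-1) ⟨0,[(18,0),(4,0)]⟩ ⟨0,[(11,0),(5,0)]⟩),.k,.k,⟨false,0,⟨5,[(10,1),(0,1),(0,0),(0,0),(5,1),(2,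
  1)]⟩,⟨0,[(0,0),(4,0),(8,0),(5,0)]⟩⟩,⟨true,0,⟨0,[(11,0),(2,0)]⟩,⟨0,[(0,0),(20,0)]⟩⟩,⟨true,0,⟨1,
  [(10,0),(0,0),(1,0),(7,0)]⟩,⟨1,[(2,0),(17,0)]⟩⟩,⟨false,1,⟨3,[(1,1),(3,0),(5,0),(1,0),(7,1)]⟩,⟨2,
  [(0,1),(1,0),(4,0),(11,0)]⟩⟩,⟨false,0,⟨0,[]⟩,⟨0,[]⟩⟩,⟨false,0,⟨0,[]⟩,⟨0,[]⟩⟩,[.e ⟨false,0,⟨0,[(26,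
  0)]⟩,⟨1,[(23,0),(0,0)]⟩⟩ ⟨false,1,⟨3,[(1,1),(10,0),(3,0),(3,1),(0,3)]⟩,⟨0,[(0,0)]⟩⟩,.o ⟨false,1,
  ⟨7,[(5,3),(6,0),(0,0),(2,1)]⟩,⟨0,[(22,0)]⟩⟩,.e ⟨false,0,⟨0,[(25,0)]⟩,⟨1,[(23,0),(0,0)]⟩⟩ ⟨false,1,
  ⟨3,[(1,1),(3,0),(5,0),(0,0),(8,1)]⟩,⟨0,[(0,0)]⟩⟩,.a ⟨true,0,⟨0,[(15,0)]⟩,⟨0,[(14,0)]⟩⟩ ⟨true,0,⟨0,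
  [(26,0)]⟩,⟨0,[]⟩⟩ ⟨false,1,⟨27,[(1,13),(1,5),(1,3),(6,0),(3,4),(4,13),(1,3)]⟩,⟨1,[(0,0),(14,0),(3,
  0)]⟩⟩]⟩)) (.K ⟨0,[0,0,1],0,1,(⟨0,[(14,0)]⟩,⟨0,[(13,0)]⟩),.k,(.x 0 ⟨0,[(10,0),(5,0)]⟩ ⟨0,[(17,0),
  (4,0)]⟩),(.x 0 ⟨0,[(17,0)]⟩ ⟨3,[(11,0),(0,0),(2,1),(0,3)]⟩),.k,.k,[⟨0,[(14,0)]⟩,⟨0,[(10,0),(2,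
  0)]⟩,⟨0,[(0,0),(12,0)]⟩,⟨7,[(10,3),(0,0),(0,4),(0,7),(1,1),(9,7)]⟩]⟩)) (.I [1,1,0,0,-1,0,-2] (.Q
  [0,1,-1,1,-1,0,-1,0,1] (.p true [0,0,1] [] (⟨0,[(14,0)]⟩,⟨0,[(13,0)]⟩) .k 0 (⟨0,[]⟩,⟨0,[]⟩) .k
  .k) (.Q [0,1,0,1,-1,0,0,0,1] (.p true [0,0,1] [] (⟨0,[(15,0)]⟩,⟨0,[(14,0)]⟩) .k 0 (⟨0,[]⟩,⟨0,[]⟩)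
  .k .k) (.R ⟨0,false,false,false,[1,0,-1],[1,-1],[1],(⟨0,[(15,0)]⟩,⟨0,[(16,0)]⟩),(⟨0,[(18,0)]⟩,⟨0,
  [(19,0)]⟩),⟨0,[(5,0)]⟩,.k,.k,(.x (-1) ⟨3,[(13,0),(0,0),(2,1),(0,3)]⟩ ⟨0,[(19,0)]⟩),(.x (-1) ⟨0,
  [(19,0),(4,0)]⟩ ⟨0,[(12,0),(5,0)]⟩),.k,.k,⟨false,0,⟨0,[(23,0)]⟩,⟨5,[(6,1),(0,0),(2,0),(3,0),(0,1),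
  (6,1),(1,1)]⟩⟩,⟨true,0,⟨0,[(12,0),(2,0)]⟩,⟨1,[(3,0),(3,1),(13,0)]⟩⟩,⟨false,1,⟨1,[(14,0),(10,0)]⟩,
  ⟨5,[(2,1),(10,0),(11,0)]⟩⟩,⟨true,1,⟨1,[(6,0),(5,0),(1,0),(0,1)]⟩,⟨0,[(1,0)]⟩⟩,⟨false,0,⟨0,[]⟩,⟨0,
  []⟩⟩,⟨false,0,⟨0,[]⟩,⟨0,[]⟩⟩,[.o ⟨false,1,⟨7,[(6,3),(6,0),(0,0),(2,1)]⟩,⟨0,[(23,0)]⟩⟩,.a ⟨true,1,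
  ⟨0,[(22,0),(2,0)]⟩,⟨0,[(11,0)]⟩⟩ ⟨false,1,⟨1,[(24,0),(0,0)]⟩,⟨0,[(27,0)]⟩⟩ ⟨true,1,⟨1,[(6,0),(5,
  0),(2,1),(9,0)]⟩,⟨0,[(0,0)]⟩⟩,.a ⟨true,0,⟨1,[(3,0),(3,1),(13,0)]⟩,⟨0,[(15,0),(10,0)]⟩⟩ ⟨true,0,⟨0,
  []⟩,⟨0,[(27,0)]⟩⟩ ⟨false,1,⟨1,[(6,0),(5,0),(2,1),(9,0)]⟩,⟨1,[(0,1),(23,0),(0,0)]⟩⟩,.a ⟨true,0,⟨0,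
  [(16,0)]⟩,⟨0,[(15,0)]⟩⟩ ⟨false,1,⟨1,[(24,0),(0,0)]⟩,⟨0,[(26,0)]⟩⟩ ⟨true,1,⟨7,[(6,3),(6,0),(0,0),
  (0,7),(1,1)]⟩,⟨0,[(0,0)]⟩⟩]⟩) (.R ⟨0,false,false,false,[1,0,-1],[1,-1],[1],(⟨0,[(15,0)]⟩,⟨0,[(16,
  0)]⟩),(⟨0,[(18,0)]⟩,⟨0,[(19,0)]⟩),⟨0,[(5,0)]⟩,.k,.k,(.x (-1) ⟨3,[(13,0),(0,0),(2,1),(0,3)]⟩ ⟨0,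
  [(19,0)]⟩),(.x (-1) ⟨0,[(19,0),(4,0)]⟩ ⟨0,[(12,0),(5,0)]⟩),.k,.k,⟨false,0,⟨0,[(23,0)]⟩,⟨5,[(0,1),
  (6,0),(2,0),(3,0),(7,3),(1,1)]⟩⟩,⟨true,0,⟨0,[(12,0),(2,0)]⟩,⟨1,[(3,0),(3,1),(13,0)]⟩⟩,⟨false,1,⟨1,
  [(14,0),(10,0)]⟩,⟨5,[(2,1),(10,0),(11,0)]⟩⟩,⟨true,1,⟨5,[(0,4),(2,3),(8,0),(0,0),(1,0),(6,0)]⟩,⟨0,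
  [(1,0)]⟩⟩,⟨false,0,⟨0,[]⟩,⟨0,[]⟩⟩,⟨false,0,⟨0,[]⟩,⟨0,[]⟩⟩,[.o ⟨false,1,⟨7,[(6,3),(6,0),(0,0),(2,
  1)]⟩,⟨0,[(23,0)]⟩⟩,.e ⟨false,1,⟨1,[(24,0),(0,0)]⟩,⟨0,[(27,0)]⟩⟩ ⟨false,1,⟨0,[(0,0)]⟩,⟨1,[(1,0),(6,
  0),(5,0),(8,0)]⟩⟩,.a ⟨true,0,⟨1,[(3,0),(3,1),(13,0)]⟩,⟨0,[(15,0),(10,0)]⟩⟩ ⟨true,0,⟨0,[]⟩,⟨0,[(27,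
  0)]⟩⟩ ⟨false,1,⟨0,[(0,0),(25,0)]⟩,⟨1,[(1,0),(5,0),(6,0),(8,0)]⟩⟩,.e ⟨false,1,⟨1,[(24,0),(0,0)]⟩,
  ⟨0,[(26,0)]⟩⟩ ⟨false,1,⟨0,[(0,0)]⟩,⟨1,[(1,0),(1,0),(6,0),(9,0)]⟩⟩]⟩)) (.R ⟨0,false,false,true,[1,
  0,-1],[1,-1],[1,1],(⟨0,[(14,0)]⟩,⟨0,[(15,0)]⟩),(⟨0,[(17,0)]⟩,⟨0,[(18,0)]⟩),⟨0,[(4,0)]⟩,.k,.k,(.x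
  (-1) ⟨3,[(12,0),(0,0),(2,1),(0,3)]⟩ ⟨0,[(18,0)]⟩),(.r 0 ⟨9,[(1,0),(8,2),(0,2),(0,3),(6,3),(2,2)]⟩
  ⟨1,[(0,1),(1,0),(3,1),(13,2)]⟩),.k,.k,⟨false,0,⟨0,[(22,0)]⟩,⟨5,[(0,1),(5,0),(2,0),(11,3),(1,2)]⟩⟩,
  ⟨true,0,⟨0,[(11,0),(2,0)]⟩,⟨1,[(2,0),(3,1),(13,0)]⟩⟩,⟨true,0,⟨1,[(2,0),(17,0)]⟩,⟨5,[(1,1),(10,0),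
  (11,0)]⟩⟩,⟨false,1,⟨0,[(0,0),(25,0)]⟩,⟨0,[(6,0),(15,0)]⟩⟩,⟨false,0,⟨0,[]⟩,⟨0,[]⟩⟩,⟨false,0,⟨0,[]⟩,
  ⟨0,[]⟩⟩,[.a ⟨true,0,⟨0,[(21,0)]⟩,⟨0,[(10,0),(13,0)]⟩⟩ ⟨false,0,⟨0,[(20,0)]⟩,⟨3,[(12,0),(0,0),(10,
  1)]⟩⟩ ⟨true,0,⟨1,[(0,1),(0,1),(0,0),(17,0)]⟩,⟨4,[(2,1),(3,3),(1,0),(1,0),(8,3)]⟩⟩,.o ⟨false,1,⟨7,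
  [(5,3),(6,0),(0,0),(2,1)]⟩,⟨0,[(22,0)]⟩⟩,.a ⟨true,0,⟨1,[(2,0),(3,1),(13,0)]⟩,⟨0,[(14,0),(10,0)]⟩⟩
  ⟨false,0,⟨0,[]⟩,⟨3,[(12,0),(0,0),(10,1)]⟩⟩ ⟨true,0,⟨1,[(0,1),(0,1),(0,0),(17,0)]⟩,⟨4,[(2,0),(3,1),
  (1,2),(1,2),(8,1)]⟩⟩,.a ⟨true,0,⟨0,[(15,0)]⟩,⟨0,[(14,0)]⟩⟩ ⟨true,0,⟨0,[(20,0)]⟩,⟨0,[(25,0)]⟩⟩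
  ⟨false,1,⟨7,[(0,1),(4,1),(6,0),(1,5),(1,1),(4,1),(1,0)]⟩,⟨4,[(2,1),(3,3),(1,0),(1,0),(8,3)]⟩⟩]⟩))
  (.Q [0,-1,-1,-1,1,0,0,-1,1] (.p true [0,0,1] [1] (⟨0,[(14,0)]⟩,⟨0,[(13,0)]⟩) .k 1 (⟨0,[]⟩,⟨0,[]⟩)
  .k .k) (.R ⟨0,false,false,true,[1,0,-1],[0,1],[1,1],(⟨0,[(14,0)]⟩,⟨0,[(15,0)]⟩),(⟨0,[(18,0)]⟩,⟨0,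
  [(17,0)]⟩),⟨0,[(4,0)]⟩,.k,.k,(.x (-1) ⟨3,[(12,0),(0,0),(2,1),(0,3)]⟩ ⟨0,[(18,0)]⟩),(.x (-1) ⟨3,
  [(12,0),(0,0),(2,1),(0,3)]⟩ ⟨0,[(18,0)]⟩),.k,.k,⟨false,1,⟨0,[(0,0),(13,0),(5,0)]⟩,⟨4,[(2,0),(7,0),
  (0,0),(0,0),(6,1),(2,1)]⟩⟩,⟨true,0,⟨0,[(14,0)]⟩,⟨3,[(2,1),(3,3),(3,0),(0,2),(4,0),(4,0)]⟩⟩,⟨true,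
  0,⟨1,[(2,0),(17,0)]⟩,⟨21,[(3,7),(6,3),(0,1),(0,2),(3,0),(2,3)]⟩⟩,⟨false,0,⟨1,[(2,0),(11,1),(4,0),
  (2,0)]⟩,⟨17,[(0,13),(2,3),(2,3),(4,1),(0,2),(3,0)]⟩⟩,⟨false,0,⟨0,[]⟩,⟨0,[]⟩⟩,⟨false,0,⟨0,[]⟩,⟨0,
  []⟩⟩,[.e ⟨false,0,⟨0,[(20,0)]⟩,⟨2,[(1,0),(10,0),(11,0)]⟩⟩ ⟨false,0,⟨0,[(14,0),(7,0),(3,0)]⟩,⟨0,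
  [(0,0)]⟩⟩,.o ⟨false,0,⟨0,[(22,0)]⟩,⟨7,[(5,3),(6,0),(0,0),(2,1)]⟩⟩,.e ⟨false,0,⟨0,[]⟩,⟨2,[(1,0),
  (10,0),(11,0)]⟩⟩ ⟨false,0,⟨4,[(2,0),(7,0),(0,0),(0,0),(1,4),(4,1),(2,1)]⟩,⟨0,[(0,0)]⟩⟩,.a ⟨true,0,
  ⟨0,[(15,0)]⟩,⟨0,[(14,0)]⟩⟩ ⟨true,0,⟨0,[(20,0)]⟩,⟨0,[(25,0)]⟩⟩ ⟨false,0,⟨0,[(14,0),(7,0)]⟩,⟨3,[(0,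
  1),(4,0),(5,0),(3,1),(8,0)]⟩⟩]⟩) (.R ⟨0,false,false,true,[1,0,-1],[0,1],[1,1],(⟨0,[(14,0)]⟩,⟨0,
  [(15,0)]⟩),(⟨0,[(18,0)]⟩,⟨0,[(17,0)]⟩),⟨0,[(4,0)]⟩,.k,.k,(.x (-1) ⟨3,[(12,0),(0,0),(2,1),(0,3)]⟩
  ⟨0,[(18,0)]⟩),(.x (-1) ⟨3,[(12,0),(0,0),(2,1),(0,3)]⟩ ⟨0,[(18,0)]⟩),.k,.k,⟨false,1,⟨0,[(1,0),(1,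
  0),(16,0)]⟩,⟨4,[(2,0),(7,0),(0,0),(0,0),(6,1),(2,1)]⟩⟩,⟨true,0,⟨0,[(14,0)]⟩,⟨3,[(2,1),(3,3),(3,0),
  (0,2),(4,0),(4,0)]⟩⟩,⟨true,0,⟨1,[(2,0),(17,0)]⟩,⟨17,[(0,3),(2,3),(2,3),(4,1),(0,2),(3,0)]⟩⟩,
  ⟨false,0,⟨5,[(0,4),(0,3),(10,0),(1,0),(4,0)]⟩,⟨3,[(5,1),(0,2),(2,0),(6,0)]⟩⟩,⟨false,0,⟨0,[]⟩,⟨0,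
  []⟩⟩,⟨false,0,⟨0,[]⟩,⟨0,[]⟩⟩,[.a ⟨true,(-1),⟨0,[(10,0)]⟩,⟨0,[(21,0),(2,0)]⟩⟩ ⟨false,0,⟨0,[(20,
  0)]⟩,⟨2,[(1,0),(10,0),(11,0)]⟩⟩ ⟨true,(-1),⟨0,[(0,0)]⟩,⟨11,[(1,3),(3,5),(0,6),(2,0),(1,3),(3,3),
  (0,0)]⟩⟩,.o ⟨false,0,⟨0,[(22,0)]⟩,⟨7,[(5,3),(6,0),(0,0),(2,1)]⟩⟩,.a ⟨true,0,⟨1,[(2,0),(3,1),(13,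
  0)]⟩,⟨0,[(14,0),(10,0)]⟩⟩ ⟨false,0,⟨0,[]⟩,⟨2,[(1,0),(10,0),(11,0)]⟩⟩ ⟨true,(-1),⟨0,[(0,0)]⟩,⟨1,
  [(5,0),(2,0),(6,0)]⟩⟩,.a ⟨true,0,⟨0,[(15,0)]⟩,⟨0,[(14,0)]⟩⟩ ⟨true,0,⟨0,[(20,0)]⟩,⟨0,[(25,0)]⟩⟩
  ⟨false,0,⟨0,[(14,0),(7,0)]⟩,⟨11,[(1,3),(3,5),(0,6),(2,0),(1,3),(3,3),(0,0)]⟩⟩]⟩))))

def t1 : Tre :=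
  (.I [1,-1,0,0,0,0,1] (.Q [0,1,2,1,-2,0,2,1,-2] (.p false [0,0,1] [1,0,-1] (⟨0,[(9,0)]⟩,⟨0,[(8,
  0)]⟩) .k 2 (⟨0,[(8,0)]⟩,⟨0,[(9,0)]⟩) .k (.r 0 ⟨2,[(0,3),(3,1),(2,0),(2,0),(4,1)]⟩ ⟨0,[(6,0)]⟩))
  (.Q [0,0,0,0,0,1,0,-1,1] (.ed false [0,1,1] .k) (.Q [0,0,-2,0,1,0,-1,-1,2] (.p true [0,0,1] [1,0,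
  -1] (⟨0,[(11,0)]⟩,⟨0,[(10,0)]⟩) .k 2 (⟨0,[(10,0)]⟩,⟨0,[(11,0)]⟩) .k (.r 0 ⟨2,[(1,0),(0,1),(1,0),
  (4,0),(1,0),(5,0)]⟩ ⟨0,[(8,0)]⟩)) (.R ⟨2,true,false,false,[0,1],[1,0,-1],[0,0,1,0,0,0,-1],(⟨0,[]⟩,
  ⟨0,[]⟩),(⟨0,[(11,0)]⟩,⟨0,[(12,0)]⟩),⟨0,[]⟩,.k,.k,.k,(.x 0 ⟨0,[(15,0)]⟩ ⟨3,[(9,0),(0,0),(2,1),(0,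
  3)]⟩),.k,.k,⟨true,0,⟨0,[(22,0)]⟩,⟨0,[]⟩⟩,⟨false,1,⟨3,[(0,1),(9,0),(2,0)]⟩,⟨0,[(11,0)]⟩⟩,⟨true,1,
  ⟨1,[(9,0),(8,1),(2,0)]⟩,⟨0,[(0,0),(1,0)]⟩⟩,⟨false,2,⟨1,[(6,1),(6,0),(4,1),(2,0)]⟩,⟨1,[(2,0),(4,0),
  (13,0)]⟩⟩,⟨false,1,⟨1,[(9,0),(11,0)]⟩,⟨5,[(2,0),(0,1),(1,0),(4,0),(1,0),(5,0)]⟩⟩,⟨true,1,⟨3,[(0,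
  1),(8,0),(3,0)]⟩,⟨1,[(2,0),(8,0),(0,0),(5,0)]⟩⟩,[]⟩) (.I [0,0,-2,0,0,2] (.R ⟨0,false,false,false,
  [0,0,1],[0,1],[0,1,1],(⟨0,[(13,0)]⟩,⟨0,[(12,0)]⟩),(⟨0,[(16,0)]⟩,⟨0,[(15,0)]⟩),⟨3,[(0,1),(0,1),(8,
  0),(3,0)]⟩,.k,.k,(.x 0 ⟨0,[(9,0),(5,0)]⟩ ⟨3,[(0,1),(9,0),(0,0),(9,1)]⟩),(.x 0 ⟨0,[(9,0),(5,0)]⟩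
  ⟨3,[(0,1),(9,0),(0,0),(9,1)]⟩),.k,.k,⟨true,0,⟨0,[(19,0)]⟩,⟨0,[(17,0)]⟩⟩,⟨false,1,⟨1,[(0,0),(5,1),
  (8,1)]⟩,⟨7,[(1,3),(7,3),(0,2),(0,0)]⟩⟩,⟨true,0,⟨1,[(8,0),(0,0),(0,0),(8,0)]⟩,⟨0,[(4,0),(13,0)]⟩⟩,
  ⟨false,1,⟨0,[(7,0),(12,0)]⟩,⟨0,[(5,0),(13,0)]⟩⟩,⟨false,0,⟨0,[]⟩,⟨0,[]⟩⟩,⟨false,0,⟨0,[]⟩,⟨0,[]⟩⟩,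
  [.o ⟨false,0,⟨0,[(20,0)]⟩,⟨1,[(14,0),(4,1),(2,0)]⟩⟩,.a ⟨true,0,⟨0,[(8,0),(13,0)]⟩,⟨0,[(19,0)]⟩⟩
  ⟨true,0,⟨0,[(23,0)]⟩,⟨0,[]⟩⟩ ⟨false,1,⟨2,[(4,1),(1,0),(0,1),(0,0),(11,1),(0,0)]⟩,⟨3,[(1,1),(8,0),
  (3,0),(4,3)]⟩⟩,.o ⟨false,0,⟨3,[(1,1),(8,0),(3,0)]⟩,⟨7,[(6,3),(3,0),(0,0),(1,3),(0,1)]⟩⟩,.o ⟨false,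
  0,⟨7,[(1,3),(7,3),(0,2),(0,0)]⟩,⟨0,[(6,0)]⟩⟩]⟩) (.Q [0,1,0,-1,0,0,0,-1,1] (.p true [0,0,1] [1]
  (⟨0,[(13,0)]⟩,⟨0,[(12,0)]⟩) .k 1 (⟨0,[]⟩,⟨0,[]⟩) .k .k) (.R ⟨0,false,false,false,[1,0,-1],[0,1],
  [0,1],(⟨0,[(13,0)]⟩,⟨0,[(14,0)]⟩),(⟨0,[(17,0)]⟩,⟨0,[(16,0)]⟩),⟨0,[(3,0)]⟩,.k,.k,(.x (-1) ⟨3,[(1,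
  1),(9,0),(0,0),(9,1)]⟩ ⟨0,[(17,0)]⟩),(.x (-1) ⟨3,[(1,1),(9,0),(0,0),(9,1)]⟩ ⟨0,[(17,0)]⟩),.k,.k,
  ⟨false,1,⟨0,[(20,0),(1,0)]⟩,⟨0,[(18,0)]⟩⟩,⟨true,0,⟨0,[(13,0)]⟩,⟨1,[(1,0),(1,1)]⟩⟩,⟨false,0,⟨13,
  [(0,1),(3,0),(0,5),(3,0),(2,2),(6,1)]⟩,⟨1,[(11,0),(11,0)]⟩⟩,⟨true,(-1),⟨1,[(4,0),(4,0),(13,0)]⟩,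
  ⟨1,[(0,1),(10,0),(10,0)]⟩⟩,⟨false,0,⟨0,[]⟩,⟨0,[]⟩⟩,⟨false,0,⟨0,[]⟩,⟨0,[]⟩⟩,[.o ⟨false,0,⟨0,[(21,
  0)]⟩,⟨1,[(15,0),(4,1),(2,0)]⟩⟩,.a ⟨true,0,⟨0,[(9,0),(13,0)]⟩,⟨0,[(20,0)]⟩⟩ ⟨false,1,⟨3,[(11,0),(0,
  0),(9,1)]⟩,⟨0,[]⟩⟩ ⟨true,0,⟨0,[(13,0),(4,0)]⟩,⟨0,[(0,0)]⟩⟩,.o ⟨false,1,⟨7,[(7,3),(3,0),(0,0),(1,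
  3),(0,1)]⟩,⟨3,[(2,1),(8,0),(3,0)]⟩⟩,.e ⟨true,0,⟨0,[(19,0)]⟩,⟨0,[(24,0)]⟩⟩ ⟨true,0,⟨0,[(13,0),(7,
  0)]⟩,⟨0,[(0,0)]⟩⟩]⟩) (.Q [0,1,-1,-1,1,0,-1,-1,1] (.p true [0,0,1] [1] (⟨0,[(14,0)]⟩,⟨0,[(13,0)]⟩)
  .k 1 (⟨0,[]⟩,⟨0,[]⟩) .k .k) (.R ⟨0,false,false,false,[1,0,-1],[0,1],[0,1],(⟨0,[(14,0)]⟩,⟨0,[(15,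
  0)]⟩),(⟨0,[(18,0)]⟩,⟨0,[(17,0)]⟩),⟨0,[(4,0)]⟩,.k,.k,(.x (-1) ⟨3,[(2,1),(9,0),(0,0),(9,1)]⟩ ⟨0,
  [(18,0)]⟩),(.x (-1) ⟨3,[(2,1),(9,0),(0,0),(9,1)]⟩ ⟨0,[(18,0)]⟩),.k,.k,⟨false,1,⟨0,[(21,0),(1,0)]⟩,
  ⟨0,[(19,0)]⟩⟩,⟨true,0,⟨0,[(14,0)]⟩,⟨1,[(2,0),(1,1)]⟩⟩,⟨false,0,⟨5,[(5,0),(0,1),(1,0),(4,0),(1,0),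
  (5,0)]⟩,⟨1,[(12,0),(11,0)]⟩⟩,⟨true,(-1),⟨1,[(1,0),(3,0),(9,0)]⟩,⟨0,[(0,0)]⟩⟩,⟨false,0,⟨0,[]⟩,⟨0,
  []⟩⟩,⟨false,0,⟨0,[]⟩,⟨0,[]⟩⟩,[.o ⟨false,0,⟨0,[(22,0)]⟩,⟨1,[(16,0),(4,1),(2,0)]⟩⟩,.e ⟨false,1,⟨3,
  [(12,0),(0,0),(9,1)]⟩,⟨0,[]⟩⟩ ⟨false,0,⟨0,[(1,0)]⟩,⟨9,[(0,3),(1,0),(1,1),(3,3),(4,1),(7,5)]⟩⟩,.o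
  ⟨false,1,⟨7,[(0,0),(7,2),(0,0),(3,0),(1,2),(0,1),(5,0)]⟩,⟨3,[(3,1),(8,0),(3,0)]⟩⟩,.a ⟨true,0,⟨0,
  [(15,0)]⟩,⟨0,[(14,0)]⟩⟩ ⟨true,0,⟨0,[(20,0)]⟩,⟨0,[(25,0)]⟩⟩ ⟨false,0,⟨0,[(1,0)]⟩,⟨7,[(0,3),(1,1),
  (1,3),(1,1),(6,0),(7,3),(2,2)]⟩⟩]⟩) (.R ⟨2,true,false,true,[0,1],[1,0,-1],[0,1,1,1],(⟨0,[]⟩,⟨0,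
  []⟩),(⟨0,[(14,0)]⟩,⟨0,[(15,0)]⟩),⟨0,[]⟩,.k,.k,.k,(.x 0 ⟨0,[(18,0)]⟩ ⟨3,[(2,1),(9,0),(0,0),(9,
  1)]⟩),.k,.k,⟨true,(-1),⟨1,[(0,1),(1,0),(1,1),(15,1)]⟩,⟨1,[(12,0),(8,1),(2,0)]⟩⟩,⟨false,1,⟨7,[(8,
  3),(3,0),(0,0),(1,3),(0,1)]⟩,⟨0,[(14,0)]⟩⟩,⟨true,0,⟨0,[(26,0)]⟩,⟨0,[]⟩⟩,⟨false,2,⟨3,[(9,3),(2,0),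
  (0,0),(2,1),(4,3)]⟩,⟨0,[(0,0)]⟩⟩,⟨false,0,⟨0,[(22,0)]⟩,⟨0,[(21,0),(2,0)]⟩⟩,⟨true,1,⟨3,[(2,0),(1,
  1),(3,1),(3,1),(7,1),(5,1)]⟩,⟨0,[(0,0),(20,0)]⟩⟩,[]⟩))))) (.Q [0,0,1,0,0,0,0,0,-1] (.p false [0,0,
  1] [] (⟨0,[(11,0)]⟩,⟨0,[(10,0)]⟩) .k 0 (⟨0,[]⟩,⟨0,[]⟩) .k .k) (.S ⟨1,2,[],[1,0,-1],[0,1,0,0,0,0,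
  -1],(⟨0,[(11,0)]⟩,⟨0,[(12,0)]⟩),⟨0,[(1,0)]⟩,.k,(.x (-1) ⟨3,[(9,0),(0,0),(2,1),(0,3)]⟩ ⟨0,[(15,
  0)]⟩),⟨true,0,⟨0,[(23,0)]⟩,⟨0,[]⟩⟩,⟨false,0,⟨13,[(0,5),(1,1),(1,3),(5,2),(2,0),(4,1)]⟩,⟨0,[(6,
  0)]⟩⟩,⟨false,0,⟨0,[(19,0)]⟩,⟨0,[(18,0),(2,0)]⟩⟩,⟨true,(-1),⟨1,[(2,0),(4,0),(5,0)]⟩,⟨0,[(6,0),(11,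
  0)]⟩⟩,[.e ⟨false,1,⟨1,[(9,0),(10,0),(2,1)]⟩,⟨0,[(3,0)]⟩⟩ ⟨false,0,⟨0,[(0,0),(16,0)]⟩,⟨5,[(3,1),(2,
  3),(3,0),(1,1),(7,0)]⟩⟩,.fo,.o ⟨false,1,⟨7,[(5,3),(3,0),(0,0),(1,3),(0,1)]⟩,⟨0,[(0,0)]⟩⟩,.a ⟨true,
  0,⟨0,[(12,0)]⟩,⟨0,[(11,0)]⟩⟩ ⟨false,1,⟨1,[(9,0),(10,0)]⟩,⟨0,[(3,0),(18,0)]⟩⟩ ⟨true,0,⟨0,[(0,0),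
  (16,0)]⟩,⟨0,[(12,0)]⟩⟩]⟩) (.R ⟨2,true,false,false,[0,1],[1,0,-1],[1,1,1],(⟨0,[]⟩,⟨0,[]⟩),(⟨0,[(11,
  0)]⟩,⟨0,[(12,0)]⟩),⟨0,[]⟩,.k,.k,.k,(.x 0 ⟨0,[(15,0)]⟩ ⟨3,[(9,0),(0,0),(2,1),(0,3)]⟩),.k,.k,⟨true,
  (-1),⟨1,[(0,1),(1,0),(5,0),(9,0)]⟩,⟨1,[(9,0),(11,0)]⟩⟩,⟨false,1,⟨7,[(5,3),(3,0),(0,0),(1,3),(0,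
  1)]⟩,⟨0,[(11,0)]⟩⟩,⟨true,0,⟨0,[(18,0)]⟩,⟨0,[(19,0)]⟩⟩,⟨false,2,⟨1,[(6,1),(6,0),(4,1),(2,0)]⟩,⟨1,
  [(2,0),(4,0),(13,0)]⟩⟩,⟨false,0,⟨0,[]⟩,⟨3,[(9,0),(0,0),(10,1)]⟩⟩,⟨true,1,⟨1,[(0,1),(8,0),(3,0)]⟩,
  ⟨1,[(2,0),(8,0),(0,0),(5,0)]⟩⟩,[]⟩))) (.Q [0,0,-1,0,0,0,0,1] (.pp false [-1,1]) (.R ⟨2,false,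
  false,true,[0,1],[1,0,-1],[0,1,1,0,0,0,-1],(⟨0,[]⟩,⟨0,[]⟩),(⟨0,[(10,0)]⟩,⟨0,[(11,0)]⟩),⟨0,[]⟩,.k,
  .k,.k,(.x 0 ⟨0,[(14,0)]⟩ ⟨3,[(8,0),(0,0),(2,1),(0,3)]⟩),.k,.k,⟨true,0,⟨0,[(21,0)]⟩,⟨0,[]⟩⟩,⟨false,
  1,⟨7,[(1,0),(2,2),(4,0),(1,2),(0,1),(5,0),(3,0)]⟩,⟨0,[(10,0)]⟩⟩,⟨false,1,⟨1,[(8,0),(8,1),(2,0)]⟩,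
  ⟨0,[(2,0),(15,0)]⟩⟩,⟨true,1,⟨1,[(1,0),(4,0),(5,0),(4,1)]⟩,⟨0,[(3,0),(2,0)]⟩⟩,⟨false,1,⟨3,[(8,2),
  (0,0)]⟩,⟨0,[(2,0)]⟩⟩,⟨false,1,⟨1,[(1,0),(4,0),(5,0)]⟩,⟨0,[(2,0),(7,0),(10,0)]⟩⟩,[.o ⟨false,1,⟨1,
  [(1,0),(4,0),(5,0),(9,1)]⟩,⟨0,[(3,0)]⟩⟩,.o ⟨false,1,⟨1,[(1,0),(4,0),(5,0)]⟩,⟨0,[(3,0),(18,0)]⟩⟩,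
  .a ⟨true,0,⟨0,[(0,0)]⟩,⟨0,[(21,0)]⟩⟩ ⟨true,0,⟨1,[(6,0),(0,0),(0,0),(8,0)]⟩,⟨0,[(2,0),(13,0)]⟩⟩
  ⟨false,1,⟨1,[(1,0),(5,0),(10,0),(3,0)]⟩,⟨0,[(2,0),(7,0)]⟩⟩,.e ⟨false,1,⟨3,[(8,2),(0,0)]⟩,⟨0,[(2,
  0)]⟩⟩ ⟨false,1,⟨1,[(1,0),(4,0),(5,0)]⟩,⟨0,[(2,0),(7,0),(10,0)]⟩⟩]⟩) (.R ⟨2,true,false,false,[0,1],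
  [1,0,-1],[0,0,1,0,0,0,-1],(⟨0,[]⟩,⟨0,[]⟩),(⟨0,[(10,0)]⟩,⟨0,[(11,0)]⟩),⟨0,[]⟩,.k,.k,.k,(.x 0 ⟨0,
  [(14,0)]⟩ ⟨3,[(8,0),(0,0),(2,1),(0,3)]⟩),.k,.k,⟨true,0,⟨0,[(21,0)]⟩,⟨0,[]⟩⟩,⟨false,1,⟨7,[(1,0),(2,
  2),(4,0),(1,2),(0,1),(5,0),(3,0)]⟩,⟨0,[(10,0)]⟩⟩,⟨true,1,⟨1,[(8,0),(8,1),(2,0)]⟩,⟨0,[(0,0),(1,0),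
  (3,0),(9,0)]⟩⟩,⟨false,2,⟨7,[(1,3),(6,0),(0,0),(2,1),(4,3),(2,3)]⟩,⟨0,[(3,0),(2,0)]⟩⟩,⟨false,1,⟨1,
  [(8,0),(11,0)]⟩,⟨4,[(0,0),(1,2),(3,0),(2,0),(6,0),(0,0)]⟩⟩,⟨true,1,⟨1,[(1,0),(4,0),(5,0)]⟩,⟨0,[(3,
  0),(2,0),(10,0)]⟩⟩,[]⟩))) (.Q [0,1,-1,1,0,0,-1,0,1] (.p true [0,0,1] [] (⟨0,[(9,0)]⟩,⟨0,[(8,0)]⟩)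
  .k 0 (⟨0,[]⟩,⟨0,[]⟩) .k .k) (.R ⟨2,true,false,false,[0,1],[0,0,1],[0,1],(⟨0,[]⟩,⟨0,[]⟩),(⟨0,[(10,
  0)]⟩,⟨0,[(9,0)]⟩),⟨0,[]⟩,.k,.k,.k,(.r 0 ⟨0,[(1,0),(12,0)]⟩ ⟨0,[(2,0),(7,0),(5,0),(1,0)]⟩),.k,.k,
  ⟨true,0,⟨0,[(1,0)]⟩,⟨0,[(2,0),(7,0)]⟩⟩,⟨false,0,⟨0,[(1,0),(0,0)]⟩,⟨0,[(10,0),(7,0)]⟩⟩,⟨false,1,⟨1,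
  [(16,1),(1,0),(0,0)]⟩,⟨0,[(14,0)]⟩⟩,⟨true,0,⟨0,[(2,0),(13,0)]⟩,⟨0,[(0,0)]⟩⟩,⟨true,0,⟨0,[(15,0)]⟩,
  ⟨0,[(20,0)]⟩⟩,⟨false,0,⟨0,[(2,0)]⟩,⟨5,[(0,1),(3,3),(2,0),(0,0),(7,1)]⟩⟩,[]⟩) (.Q [0,0,0,0,0,1,0,0,
  -1] (.ed true [1,-1,1] .k) (.R ⟨0,false,false,false,[0,0,1],[0,1],[0,1,1],(⟨0,[(11,0)]⟩,⟨0,[(10,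
  0)]⟩),(⟨0,[(14,0)]⟩,⟨0,[(13,0)]⟩),⟨0,[(0,0)]⟩,.k,.k,(.r (-1) ⟨3,[(1,1),(7,0),(1,1),(5,1),(1,2)]⟩
  ⟨0,[(2,0),(12,0)]⟩),(.r (-1) ⟨3,[(1,1),(7,0),(1,1),(5,1),(1,2)]⟩ ⟨0,[(2,0),(12,0)]⟩),.k,.k,⟨true,
  0,⟨0,[(17,0)]⟩,⟨0,[(15,0)]⟩⟩,⟨false,1,⟨0,[(1,0),(2,0),(0,0),(0,0),(9,0)]⟩,⟨0,[(7,0),(2,0)]⟩⟩,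
  ⟨true,0,⟨1,[(6,0),(0,0),(0,0),(8,0)]⟩,⟨0,[(1,0),(2,0),(1,0)]⟩⟩,⟨false,1,⟨0,[(5,0),(12,0)]⟩,⟨0,[(3,
  0),(13,0)]⟩⟩,⟨false,0,⟨0,[]⟩,⟨0,[]⟩⟩,⟨false,0,⟨0,[]⟩,⟨0,[]⟩⟩,[.o ⟨false,0,⟨0,[(18,0)]⟩,⟨1,[(12,0),
  (4,1),(2,0)]⟩⟩,.a ⟨true,0,⟨0,[(6,0),(13,0)]⟩,⟨0,[(17,0)]⟩⟩ ⟨true,0,⟨0,[(21,0)]⟩,⟨0,[]⟩⟩ ⟨false,1,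
  ⟨0,[(4,0),(1,0),(13,0)]⟩,⟨0,[(2,0),(0,0),(13,0)]⟩⟩,.o ⟨false,0,⟨0,[(2,0),(0,0)]⟩,⟨7,[(4,3),(3,0),
  (0,0),(1,3),(0,1)]⟩⟩,.o ⟨false,0,⟨0,[(7,0),(2,0)]⟩,⟨0,[(4,0)]⟩⟩]⟩) (.S ⟨1,0,[0,1,0,0,0,0,1],[0,0,
  1],[1,0,0,-1,0,0,1],(⟨0,[(11,0)]⟩,⟨0,[(10,0)]⟩),⟨0,[(0,0)]⟩,.k,(.r (-1) ⟨3,[(1,1),(7,0),(1,1),(5,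
  1),(1,2)]⟩ ⟨0,[(2,0),(12,0)]⟩),⟨false,1,⟨0,[(17,0),(2,0)]⟩,⟨0,[(18,0)]⟩⟩,⟨true,0,⟨0,[(22,0)]⟩,⟨0,
  []⟩⟩,⟨true,0,⟨0,[]⟩,⟨0,[(22,0)]⟩⟩,⟨false,0,⟨0,[(18,0)]⟩,⟨0,[(17,0),(2,0)]⟩⟩,[.a ⟨true,(-1),⟨0,[(3,
  0),(2,0),(10,0)]⟩,⟨0,[(5,0)]⟩⟩ ⟨true,0,⟨1,[(1,1),(2,0),(1,0),(4,0),(5,0)]⟩,⟨0,[(2,0),(12,0)]⟩⟩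
  ⟨false,0,⟨5,[(1,3),(2,3),(1,5),(2,0),(2,0),(3,1),(0,1)]⟩,⟨1,[(8,0),(11,0)]⟩⟩,.e ⟨false,1,⟨0,[(1,
  0),(9,0),(7,0)]⟩,⟨0,[(2,0),(15,0)]⟩⟩ ⟨false,0,⟨0,[(1,0),(2,0),(1,0)]⟩,⟨3,[(8,2),(0,0)]⟩⟩,.o
  ⟨false,0,⟨0,[(2,0),(0,0)]⟩,⟨7,[(4,3),(3,0),(0,0),(1,3),(0,1)]⟩⟩,.o ⟨false,0,⟨0,[(7,0),(2,0)]⟩,⟨0,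
  [(4,0)]⟩⟩]⟩))))

def t2 : Tre :=
  (.Q [0,0,2,0,-1,0,0,1,-1] (.p false [0,0,1] [1] (⟨0,[(6,0)]⟩,⟨0,[(5,0)]⟩) .k 1 (⟨0,[]⟩,⟨0,[]⟩) .k
  .k) (.Q [0,1,1,0,-1,0,1,1,-1] (.p false [0,0,1] [1] (⟨0,[(7,0)]⟩,⟨0,[(6,0)]⟩) .k 1 (⟨0,[]⟩,⟨0,
  []⟩) .k .k) (.I [0,0,-1,-1,1,0,1] (.K ⟨0,[1,0,-1],1,1,(⟨0,[(8,0)]⟩,⟨0,[(9,0)]⟩),.k,(.x (-1) ⟨3,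
  [(6,0),(0,0),(2,1),(0,3)]⟩ ⟨0,[(12,0)]⟩),(.r 0 ⟨0,[(2,0),(0,0),(0,0),(5,0)]⟩ ⟨0,[(0,0)]⟩),.k,.k,
  [⟨0,[(2,0)]⟩,⟨3,[(6,0),(0,0),(1,3),(0,1)]⟩,⟨0,[(1,0)]⟩,⟨1,[(6,0),(2,1),(0,0),(3,1)]⟩]⟩) (.K ⟨0,[1,
  0,-1],1,1,(⟨0,[(8,0)]⟩,⟨0,[(9,0)]⟩),.k,(.x (-1) ⟨3,[(6,0),(0,0),(2,1),(0,3)]⟩ ⟨0,[(12,0)]⟩),(.x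
  (-1) ⟨0,[(12,0),(4,0)]⟩ ⟨0,[(5,0),(5,0)]⟩),.k,.k,[⟨0,[(2,0)]⟩,⟨3,[(6,0),(0,0),(1,3),(0,1)]⟩,⟨0,
  [(1,0)]⟩,⟨1,[(6,0),(2,1),(0,0),(3,1)]⟩]⟩)) (.I [0,0,-1,-1,1,0,1] (.K ⟨0,[0,0,1],0,0,(⟨0,[(9,0)]⟩,
  ⟨0,[(8,0)]⟩),.k,(.r (-1) ⟨0,[(0,0)]⟩ ⟨4,[(1,0),(0,0),(1,2),(0,0),(0,1),(3,0),(2,1)]⟩),(.x 0 ⟨0,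
  [(12,0)]⟩ ⟨3,[(6,0),(0,0),(2,1),(0,3)]⟩),.k,.k,[⟨0,[(9,0)]⟩,⟨0,[(5,0),(2,0)]⟩,⟨0,[(1,0),(2,0),(10,
  0)]⟩,⟨1,[(2,1),(4,0),(2,0),(3,1)]⟩]⟩) (.K ⟨0,[0,0,1],0,0,(⟨0,[(9,0)]⟩,⟨0,[(8,0)]⟩),.k,(.x 0 ⟨0,
  [(5,0),(5,0)]⟩ ⟨0,[(12,0),(4,0)]⟩),(.x 0 ⟨0,[(12,0)]⟩ ⟨3,[(6,0),(0,0),(2,1),(0,3)]⟩),.k,.k,[⟨0,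
  [(9,0)]⟩,⟨0,[(5,0),(2,0)]⟩,⟨0,[(1,0),(2,0),(10,0)]⟩,⟨1,[(2,1),(4,0),(2,0),(3,1)]⟩]⟩))) (.Q [0,1,
  -1,0,0,0,-1,0,1] (.p true [0,0,1] [] (⟨0,[(7,0)]⟩,⟨0,[(6,0)]⟩) .k 0 (⟨0,[]⟩,⟨0,[]⟩) .k .k) (.Q [0,
  1,1,0,0,0,1,0,-1] (.p false [0,0,1] [] (⟨0,[(8,0)]⟩,⟨0,[(7,0)]⟩) .k 0 (⟨0,[]⟩,⟨0,[]⟩) .k .k) (.K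
  ⟨0,[0,0,1],0,0,(⟨0,[(9,0)]⟩,⟨0,[(8,0)]⟩),.k,(.x 0 ⟨0,[(5,0),(5,0)]⟩ ⟨0,[(12,0),(4,0)]⟩),(.x 0 ⟨0,
  [(12,0)]⟩ ⟨3,[(6,0),(0,0),(2,1),(0,3)]⟩),.k,.k,[⟨0,[(9,0)]⟩,⟨0,[(5,0),(2,0)]⟩,⟨0,[(1,0)]⟩,⟨0,[(0,
  0)]⟩]⟩) (.Q [0,0,0,2,-1,0,0,1] (.pp false [-1,1]) (.Q [0,0,-1,0,0,0,0,1] (.pp false [-1,1]) (.R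
  ⟨2,true,false,true,[0,1],[1,-1],[0,1],(⟨0,[]⟩,⟨0,[]⟩),(⟨0,[(13,0)]⟩,⟨0,[(14,0)]⟩),⟨0,[]⟩,.k,.k,.k,
  (.r 1 ⟨0,[(1,0),(5,0)]⟩ ⟨0,[(17,1),(1,0),(0,0)]⟩),.k,.k,⟨false,0,⟨0,[(18,0)]⟩,⟨1,[(17,1),(1,0),(0,
  0)]⟩⟩,⟨true,0,⟨0,[(7,0)]⟩,⟨0,[(0,0)]⟩⟩,⟨false,1,⟨1,[(17,1),(1,0),(0,0)]⟩,⟨0,[(15,0)]⟩⟩,⟨true,1,⟨1,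
  [(12,0),(4,3),(2,0)]⟩,⟨0,[(1,0)]⟩⟩,⟨true,0,⟨0,[(16,0)]⟩,⟨0,[(21,0)]⟩⟩,⟨false,1,⟨1,[(12,0),(4,1),
  (2,0)]⟩,⟨0,[(0,0),(14,0)]⟩⟩,[]⟩) (.R ⟨2,true,false,false,[0,1],[1,0,-1],[1,1,1],(⟨0,[]⟩,⟨0,[]⟩),
  (⟨0,[(10,0)]⟩,⟨0,[(11,0)]⟩),⟨0,[]⟩,.k,.k,.k,(.x 0 ⟨0,[(14,0)]⟩ ⟨3,[(8,0),(0,0),(2,1),(0,3)]⟩),.k,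
  .k,⟨true,0,⟨1,[(6,0),(0,0),(1,0),(7,0)]⟩,⟨0,[(0,0),(1,0),(7,0)]⟩⟩,⟨false,1,⟨5,[(3,0),(0,1),(0,0),
  (3,0),(1,1),(0,1)]⟩,⟨0,[(10,0)]⟩⟩,⟨true,0,⟨0,[(17,0)]⟩,⟨0,[(18,0)]⟩⟩,⟨false,1,⟨1,[(2,1),(9,0),(4,
  1),(2,0)]⟩,⟨1,[(1,0),(5,0),(1,0),(0,1)]⟩⟩,⟨false,0,⟨0,[]⟩,⟨3,[(8,0),(0,0),(10,1)]⟩⟩,⟨true,0,⟨0,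
  [(0,0),(1,0),(13,0)]⟩,⟨1,[(6,0),(0,0),(1,0),(0,1),(6,0)]⟩⟩,[]⟩)) (.Q [0,0,0,0,0,1,0,-1,1] (.ed
  false [0,1,1] .k) (.I [0,0,-1,-1,0,0,-2] t0 (.Q [0,-1,-1,1,0,0,0,1] (.pp false [-1,1]) (.Q [0,-1,
  -1,-1,1,0,0,-1,1] (.p true [0,0,1] [1] (⟨0,[(13,0)]⟩,⟨0,[(12,0)]⟩) .k 1 (⟨0,[]⟩,⟨0,[]⟩) .k .k)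
  (.R ⟨0,false,false,true,[1,0,-1],[0,1],[1,1],(⟨0,[(13,0)]⟩,⟨0,[(14,0)]⟩),(⟨0,[(17,0)]⟩,⟨0,[(16,
  0)]⟩),⟨0,[(3,0)]⟩,.k,.k,(.x (-1) ⟨3,[(11,0),(0,0),(2,1),(0,3)]⟩ ⟨0,[(17,0)]⟩),(.x (-1) ⟨3,[(11,0),
  (0,0),(2,1),(0,3)]⟩ ⟨0,[(17,0)]⟩),.k,.k,⟨false,1,⟨0,[(0,0),(12,0),(5,0)]⟩,⟨3,[(2,0),(6,0),(0,0),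
  (0,0),(6,0),(2,0)]⟩⟩,⟨true,0,⟨0,[(13,0)]⟩,⟨0,[(0,0),(8,0),(0,0)]⟩⟩,⟨true,0,⟨1,[(2,0),(16,0),(0,
  0)]⟩,⟨1,[(5,1),(3,0),(0,0),(2,1),(1,0),(4,0)]⟩⟩,⟨false,0,⟨7,[(2,4),(6,0),(0,0),(0,0),(1,7),(4,0),
  (2,0)]⟩,⟨5,[(0,1),(3,1),(0,3),(5,0),(3,0)]⟩⟩,⟨false,0,⟨0,[]⟩,⟨0,[]⟩⟩,⟨false,0,⟨0,[]⟩,⟨0,[]⟩⟩,[.e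
  ⟨false,0,⟨0,[(19,0)]⟩,⟨3,[(11,0),(0,0),(10,1)]⟩⟩ ⟨false,0,⟨0,[(13,0),(7,0),(3,0)]⟩,⟨0,[(0,0)]⟩⟩,
  .o ⟨false,0,⟨0,[(21,0)]⟩,⟨7,[(4,3),(6,0),(0,0),(2,1)]⟩⟩,.e ⟨false,0,⟨0,[]⟩,⟨3,[(11,0),(0,0),(10,
  1)]⟩⟩ ⟨false,0,⟨3,[(2,0),(6,0),(0,0),(0,0),(1,3),(4,0),(2,0)]⟩,⟨0,[(0,0)]⟩⟩,.a ⟨true,0,⟨0,[(14,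
  0)]⟩,⟨0,[(13,0)]⟩⟩ ⟨true,0,⟨0,[(19,0)]⟩,⟨0,[(24,0)]⟩⟩ ⟨false,0,⟨0,[(13,0),(7,0)]⟩,⟨3,[(0,1),(3,0),
  (5,0),(3,1),(8,0)]⟩⟩]⟩) (.R ⟨0,false,false,true,[1,0,-1],[0,1],[1,1],(⟨0,[(13,0)]⟩,⟨0,[(14,0)]⟩),
  (⟨0,[(17,0)]⟩,⟨0,[(16,0)]⟩),⟨0,[(3,0)]⟩,.k,.k,(.x (-1) ⟨3,[(11,0),(0,0),(2,1),(0,3)]⟩ ⟨0,[(17,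
  0)]⟩),(.x (-1) ⟨3,[(11,0),(0,0),(2,1),(0,3)]⟩ ⟨0,[(17,0)]⟩),.k,.k,⟨false,1,⟨0,[(1,0),(2,0),(14,
  0)]⟩,⟨3,[(2,0),(6,0),(0,0),(0,0),(6,0),(2,0)]⟩⟩,⟨true,0,⟨0,[(13,0)]⟩,⟨3,[(2,1),(2,3),(3,0),(0,2),
  (4,0),(4,2)]⟩⟩,⟨true,0,⟨1,[(2,0),(16,0),(0,0)]⟩,⟨5,[(0,3),(3,1),(0,3),(5,0),(3,0)]⟩⟩,⟨false,0,⟨1,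
  [(0,1),(11,0),(10,0)]⟩,⟨3,[(4,1),(0,2),(2,0),(6,0)]⟩⟩,⟨false,0,⟨0,[]⟩,⟨0,[]⟩⟩,⟨false,0,⟨0,[]⟩,⟨0,
  []⟩⟩,[.a ⟨true,(-1),⟨0,[(9,0)]⟩,⟨0,[(20,0),(2,0)]⟩⟩ ⟨false,0,⟨0,[(19,0)]⟩,⟨3,[(11,0),(0,0),(10,
  1)]⟩⟩ ⟨true,(-1),⟨0,[(0,0)]⟩,⟨7,[(2,1),(1,4),(0,3),(4,0),(3,3),(0,0),(7,1)]⟩⟩,.o ⟨false,0,⟨0,[(21,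
  0)]⟩,⟨7,[(4,3),(6,0),(0,0),(2,1)]⟩⟩,.a ⟨true,0,⟨1,[(2,0),(2,1),(13,0),(0,0)]⟩,⟨0,[(13,0),(10,
  0)]⟩⟩ ⟨false,0,⟨0,[]⟩,⟨3,[(11,0),(0,0),(10,1)]⟩⟩ ⟨true,(-1),⟨0,[(0,0)]⟩,⟨1,[(4,0),(2,0),(6,0)]⟩⟩,
  .a ⟨true,0,⟨0,[(14,0)]⟩,⟨0,[(13,0)]⟩⟩ ⟨true,0,⟨0,[(19,0)]⟩,⟨0,[(24,0)]⟩⟩ ⟨false,0,⟨7,[(0,3),(0,3),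
  (9,0),(0,0),(0,3),(1,1)]⟩,⟨7,[(2,1),(1,4),(0,3),(4,0),(3,3),(0,0),(7,1)]⟩⟩]⟩)) (.R ⟨0,false,false,
  false,[1,0,-1],[0,1],[0,0,0,0,0,0,-1],(⟨0,[(12,0)]⟩,⟨0,[(13,0)]⟩),(⟨0,[(16,0)]⟩,⟨0,[(15,0)]⟩),⟨0,
  [(2,0)]⟩,.k,.k,(.x (-1) ⟨3,[(10,0),(0,0),(2,1),(0,3)]⟩ ⟨0,[(16,0)]⟩),(.x (-1) ⟨3,[(10,0),(0,0),(2,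
  1),(0,3)]⟩ ⟨0,[(16,0)]⟩),.k,.k,⟨false,1,⟨7,[(3,3),(0,5),(5,0),(1,5),(1,0),(3,5),(2,1)]⟩,⟨7,[(1,4),
  (6,0),(0,0),(0,0),(6,0),(2,0)]⟩⟩,⟨true,0,⟨0,[(12,0)]⟩,⟨6,[(0,2),(0,1),(2,3),(3,0),(0,2),(3,2),(0,
  0)]⟩⟩,⟨false,1,⟨3,[(10,0),(0,0),(10,1)]⟩,⟨0,[]⟩⟩,⟨true,0,⟨7,[(1,4),(6,0),(0,0),(0,0),(1,7),(4,0),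
  (2,0)]⟩,⟨0,[(0,0),(3,0),(13,0)]⟩⟩,⟨false,0,⟨0,[]⟩,⟨0,[]⟩⟩,⟨false,0,⟨0,[]⟩,⟨0,[]⟩⟩,[.o ⟨false,0,⟨0,
  [(20,0)]⟩,⟨7,[(3,3),(6,0),(0,0),(2,1)]⟩⟩,.a ⟨true,0,⟨0,[(8,0),(13,0)]⟩,⟨0,[(19,0)]⟩⟩ ⟨false,1,⟨3,
  [(4,1),(5,0),(1,1),(1,0),(6,0),(0,0)]⟩,⟨1,[(1,0),(16,0),(0,0)]⟩⟩ ⟨true,0,⟨0,[(12,0),(4,0)]⟩,⟨1,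
  [(0,1),(0,0),(2,1),(13,0),(0,0)]⟩⟩,.a ⟨true,0,⟨1,[(1,0),(2,1),(13,0),(0,0)]⟩,⟨0,[(12,0),(10,0)]⟩⟩
  ⟨true,0,⟨9,[(0,3),(3,7),(3,3),(0,1),(0,0),(1,7),(1,2)]⟩,⟨1,[(1,0),(16,0),(0,0)]⟩⟩ ⟨false,0,⟨0,
  [(12,0),(4,0)]⟩,⟨1,[(3,0),(2,0),(6,0)]⟩⟩,.a ⟨true,0,⟨0,[(13,0)]⟩,⟨0,[(12,0)]⟩⟩ ⟨false,1,⟨3,[(4,1),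
  (5,0),(1,1),(1,0),(6,0),(0,0)]⟩,⟨0,[(0,0),(0,0),(2,0),(7,0)]⟩⟩ ⟨true,0,⟨0,[(12,0),(7,0)]⟩,⟨1,[(0,
  1),(0,0),(2,1),(13,0),(0,0)]⟩⟩]⟩))) (.Q [0,0,1,0,0,0,0,0,-1] (.p false [0,0,1] [] (⟨0,[(11,0)]⟩,
  ⟨0,[(10,0)]⟩) .k 0 (⟨0,[]⟩,⟨0,[]⟩) .k .k) (.S ⟨1,2,[],[1,0,-1],[0,1,0,0,0,0,-1],(⟨0,[(11,0)]⟩,⟨0,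
  [(12,0)]⟩),⟨0,[(1,0)]⟩,.k,(.x (-1) ⟨3,[(9,0),(0,0),(2,1),(0,3)]⟩ ⟨0,[(15,0)]⟩),⟨true,0,⟨0,[(23,
  0)]⟩,⟨0,[]⟩⟩,⟨false,1,⟨3,[(0,3),(8,0),(0,2)]⟩,⟨0,[(3,0)]⟩⟩,⟨false,0,⟨0,[(19,0)]⟩,⟨0,[(18,0),(2,
  0)]⟩⟩,⟨true,0,⟨1,[(0,1),(6,1),(2,0),(2,0)]⟩,⟨0,[(3,0),(14,0)]⟩⟩,[.e ⟨false,0,⟨1,[(0,1),(2,0),(0,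
  0),(12,1)]⟩,⟨1,[(10,0),(10,0)]⟩⟩ ⟨false,0,⟨0,[(0,0),(16,0)]⟩,⟨1,[(3,0),(2,0),(3,0)]⟩⟩,.fo,.o
  ⟨false,1,⟨5,[(4,0),(0,1),(0,0),(3,0),(1,1),(0,1)]⟩,⟨0,[(0,0)]⟩⟩,.a ⟨true,0,⟨0,[(12,0)]⟩,⟨0,[(11,
  0)]⟩⟩ ⟨false,0,⟨0,[(0,0),(2,0),(13,0)]⟩,⟨1,[(10,0),(10,0),(0,1)]⟩⟩ ⟨true,0,⟨0,[(0,0),(16,0)]⟩,⟨0,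
  [(12,0)]⟩⟩]⟩) (.I [0,-1,-1,-1,1] (.S ⟨1,0,[0,0,-1,-1],[1,-1],[0,1,-1,-1],(⟨0,[(15,0)]⟩,⟨0,[(16,
  0)]⟩),⟨0,[(1,1),(0,1),(6,0)]⟩,.k,(.x 0 ⟨0,[(1,1),(0,1),(6,1)]⟩ ⟨0,[(16,1),(4,0)]⟩),⟨true,0,⟨0,
  [(24,0)]⟩,⟨0,[]⟩⟩,⟨false,1,⟨3,[(10,0),(0,0),(10,1)]⟩,⟨0,[]⟩⟩,⟨false,0,⟨0,[(20,0)]⟩,⟨0,[(19,0),(2,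
  0)]⟩⟩,⟨true,0,⟨0,[(20,0)]⟩,⟨0,[(19,0)]⟩⟩,[.o ⟨false,1,⟨7,[(3,3),(6,0),(0,0),(2,1)]⟩,⟨0,[(20,0)]⟩⟩,
  .a ⟨true,1,⟨0,[(19,0),(2,0)]⟩,⟨0,[(8,0)]⟩⟩ ⟨false,1,⟨0,[(0,0),(17,0)]⟩,⟨5,[(8,1),(0,1),(0,0),(0,
  0),(5,1),(2,1)]⟩⟩ ⟨true,1,⟨0,[(0,0)]⟩,⟨0,[(8,0),(0,0)]⟩⟩,.e ⟨false,1,⟨7,[(0,3),(9,0),(0,0),(7,3),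
  (1,1)]⟩,⟨0,[(17,0)]⟩⟩ ⟨false,1,⟨0,[(0,0)]⟩,⟨5,[(8,1),(0,1),(0,0),(0,0),(5,1),(2,1)]⟩⟩,.o ⟨false,0,
  ⟨0,[(9,0)]⟩,⟨0,[(21,0)]⟩⟩]⟩) (.R ⟨1,false,false,true,[1,0,-1],[1,-1],[1,1,0,-1,0,0,-1],(⟨0,[(12,
  0)]⟩,⟨0,[(13,0)]⟩),(⟨0,[(15,0)]⟩,⟨0,[(16,0)]⟩),⟨0,[(2,0)]⟩,.k,.k,(.x (-1) ⟨3,[(10,0),(0,0),(2,1),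
  (0,3)]⟩ ⟨0,[(16,0)]⟩),(.x (-1) ⟨0,[(16,0),(4,0)]⟩ ⟨0,[(9,0),(5,0)]⟩),.k,.k,⟨false,0,⟨5,[(0,3),(2,
  1),(0,3),(5,0),(1,3),(1,0)]⟩,⟨1,[(11,0),(9,0)]⟩⟩,⟨true,0,⟨0,[(9,0),(2,0)]⟩,⟨0,[(1,0)]⟩⟩,⟨true,0,
  ⟨0,[(19,0)]⟩,⟨0,[(20,0)]⟩⟩,⟨false,1,⟨1,[(3,0),(5,0),(1,0),(0,1)]⟩,⟨0,[(4,0),(15,0)]⟩⟩,⟨false,0,⟨0,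
  []⟩,⟨3,[(10,0),(0,0),(10,1)]⟩⟩,⟨false,1,⟨7,[(9,3),(0,0),(0,4),(0,7),(1,1)]⟩,⟨0,[(4,0)]⟩⟩,[.a
  ⟨true,0,⟨0,[(19,0)]⟩,⟨0,[(8,0),(13,0)]⟩⟩ ⟨false,0,⟨0,[(0,0),(2,0),(0,0),(7,0),(5,0)]⟩,⟨1,[(11,0),
  (8,1),(1,0)]⟩⟩ ⟨true,0,⟨0,[(0,0),(2,0),(8,0)]⟩,⟨0,[(1,0),(15,0)]⟩⟩,.o ⟨false,1,⟨7,[(3,3),(6,0),(0,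
  0),(2,1)]⟩,⟨0,[(20,0)]⟩⟩,.a ⟨true,0,⟨0,[(1,0)]⟩,⟨0,[(12,0),(10,0)]⟩⟩ ⟨false,0,⟨0,[(0,0),(2,0),(0,
  0),(7,0)]⟩,⟨1,[(11,0),(8,1),(1,0)]⟩⟩ ⟨true,0,⟨0,[(0,0),(2,0),(8,0)]⟩,⟨1,[(1,0),(4,0),(1,0),(8,
  0)]⟩⟩,.a ⟨true,0,⟨0,[(13,0)]⟩,⟨0,[(12,0)]⟩⟩ ⟨true,0,⟨0,[(0,0),(2,0),(0,0),(7,0),(5,0)]⟩,⟨1,[(0,0),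
  (10,0),(5,0)]⟩⟩ ⟨false,1,⟨7,[(3,3),(6,0),(0,0),(0,7),(1,1)]⟩,⟨0,[(1,0),(15,0)]⟩⟩]⟩)))))) t1))

def tree : Tre :=
  (.Q [0,1,1,0,-1,0,1,0,-1] (.p false [0,0,1] [] (⟨0,[(5,0)]⟩,⟨0,[(4,0)]⟩) .k 0 (⟨0,[]⟩,⟨0,[]⟩) .k
  .k) (.K ⟨0,[0,0,1],0,(-1),(⟨0,[(6,0)]⟩,⟨0,[(5,0)]⟩),.k,(.x 0 ⟨0,[(2,0),(5,0)]⟩ ⟨0,[(9,0),(4,0)]⟩),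
  (.x 0 ⟨0,[(9,0)]⟩ ⟨3,[(3,0),(0,0),(2,1),(0,3)]⟩),.k,.k,[⟨0,[(6,0)]⟩,⟨0,[(2,0),(2,0)]⟩,⟨1,[(3,0),
  (2,1),(7,0),(2,1)]⟩,⟨0,[(0,0)]⟩]⟩) t2)

theorem ok : chk (cPU (-1) true) tree base = true := by
  decide +kernel

theorem closed {p a b c J l q : ℤ} {D dl : ℝ} {Cl : ℤ → ℤ → ℤ → ℤ → ℝ → Prop}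
    (W : World p a b c J (-1) l q D dl Cl) (hE : KEmp p a b (-1) (P1 l p) Cl)
    (g : G0 p a b c J D)
    {N R : ℤ} {I : ℝ} (hu : UFac p b D Cl N R I)
    (s0 : (1 : ℝ) ≤ c)
    (s1 : (b : ℝ) + 1 ≤ a)
    (s2 : (a : ℝ) ≤ b + c)
    (s3 : D < 2 * b)
    (s4 : p - D - c < a) : False := by
  have g1 := g.a2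
  have g2 := g.b2
  have g3 := g.pa
  have g4 := g.pb
  have g5 := g.J1
  have g6 := g.JD
  have g7 := g.D2
  have g8 := g.ca
  have g9 := g.ca'
  have t1 := TF.ofU hu
  have i1 := t1.I0
  have i2 := t1.ID
  have i3 := t1.R1
  have i4 := t1.R2
  refine (val_PU W.toBase (UV.ofU hu)).sound W rfl (Nk := 0) (fun kf hkf hh => ?_) (kok_B hE (by simp [xv]) (by simp [xv]) 0) ?_ ok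
  · simp only [cPU, kfB, List.mem_cons, List.not_mem_nil, or_false] at hkf
    subst hkf
    exact absurd hh (by norm_num)
  · simp only [base, List.forall_mem_cons, List.not_mem_nil, false_imp_iff, implies_true,
      and_true, hld, xv, evg_cons, evg_nil, List.map_cons, List.map_nil, List.cons_append,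
      List.nil_append, if_true, if_false, Bool.false_eq_true]
    push_cast
    refine ⟨?_, ?_, ?_, ?_, ?_, ?_, ?_, ?_, ?_, ?_, ?_, ?_, ?_, ?_, ?_, ?_, ?_⟩ <;> linarith

end Helper25.KG.P1_2_m1_1_u
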