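import Pool.Agent.Helper25.KG.PL

set_option autoImplicit false
set_option linter.unusedVariables false

namespace Helper25.KG.P1_2_m1_1_v

open Helper11.CT Helper25.KW Helper25.KG

def base : List Con :=
  [(false,[0,1,0,1,-1,0,0,1]),
  (false,[0,0,2,0,0,0,0,-1]),
  (true,[0,0,0,0,1,0,-2]),
  (true,[0,0,0,0,1,0,2]),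
  (false,[0,0,0,0,0,0,0,1,-2]),
  (false,[0,0,0,0,0,0,0,0,1]),
  (false,[0,0,0,0,1,0,0,-2]),
  (false,[0,0,0,0,0,-1,0,1]),
  (true,[0,0,0,0,0,1]),
  (true,[1,-1,1,1]),
  (true,[0,1,-1]),
  (true,[0,1,0,-1]),
  (true,[0,0,0,1]),
  (true,[0,0,-2,0,1]),
  (true,[0,-2,0,0,1]),
  (true,[-1,0,1]),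
  (true,[-1,1])]

def t0 : Tre :=
  (.Q [0,-1,1,1,0,0,0,0,-1] (.p false [0,0,1] [] (⟨0,[(10,0)]⟩,⟨1,[(9,0),(2,0),(0,0)]⟩) .k 0 (⟨0,
  []⟩,⟨0,[]⟩) .k .k) (.I [0,0,1,0,0,0,1] (.Q [0,1,1,-1,0,0,0,-1] (.pp true [-1,1]) (.I [0,0,2,2,-1,
  0,-1] (.Q [0,0,0,0,0,1,0,-1,1] (.ed false [0,1,1] .k) (.Q [0,1,0,0,0,0,1,0,-1] (.p false [0,0,1]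
  [] (⟨0,[(15,0)]⟩,⟨1,[(14,0),(2,0),(0,0)]⟩) .k 0 (⟨0,[]⟩,⟨0,[]⟩) .k .k) (.K ⟨0,[0,0,1],0,0,(⟨0,
  [(16,0)]⟩,⟨1,[(15,0),(2,0),(0,0)]⟩),.k,(.r (-1) ⟨0,[(7,0),(8,0),(4,0)]⟩ ⟨7,[(2,3),(10,2),(0,0)]⟩),
  (.r 0 ⟨3,[(4,1),(6,1),(2,0),(2,0),(2,1)]⟩ ⟨1,[(6,0),(2,0),(0,0)]⟩),.k,.k,[⟨0,[(16,0),(9,0)]⟩,⟨1,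
  [(12,0),(2,0)]⟩,⟨1,[(3,0),(2,0),(4,0),(4,1)]⟩,⟨0,[(0,0)]⟩]⟩) (.K ⟨0,[1,-1,1],0,1,(⟨0,[(16,0),(1,
  0)]⟩,⟨1,[(8,1),(3,0),(2,0)]⟩),(.r (-1) ⟨0,[(7,0),(8,0),(4,0)]⟩ ⟨7,[(2,3),(10,2),(0,0)]⟩),(.r (-2)
  ⟨1,[(9,1),(0,1),(3,0),(9,0)]⟩ ⟨0,[(2,0)]⟩),.k,.k,.k,[⟨0,[(16,0),(1,0),(0,0)]⟩,⟨0,[(3,0),(1,0)]⟩,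
  ⟨3,[(0,1),(2,0),(2,0),(4,4),(4,1)]⟩,⟨2,[(3,1),(3,0),(6,0),(0,0),(1,0),(3,1)]⟩]⟩)) (.Q [0,1,0,1,-1,
  0,-1,1,1] (.p true [1,-1,1] [] (⟨0,[(15,0),(1,0)]⟩,⟨1,[(7,1),(3,0),(2,0)]⟩) (.r (-1) ⟨0,[(6,0),(8,
  0),(4,0)]⟩ ⟨7,[(1,3),(10,2),(0,0)]⟩) 0 (⟨0,[]⟩,⟨0,[]⟩) .k .k) (.K ⟨0,[1,-1,1],0,1,(⟨0,[(16,0),(1,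
  0)]⟩,⟨1,[(8,1),(3,0),(2,0)]⟩),(.r (-1) ⟨0,[(7,0),(8,0),(4,0)]⟩ ⟨7,[(2,3),(10,2),(0,0)]⟩),(.r (-2)
  ⟨1,[(9,1),(0,1),(3,0),(9,0)]⟩ ⟨0,[(2,0)]⟩),.k,.k,.k,[⟨0,[(0,0),(6,0),(8,0)]⟩,⟨0,[(3,0),(1,0)]⟩,⟨0,
  [(0,0)]⟩,⟨2,[(3,1),(3,0),(6,0),(0,0),(1,0),(3,1)]⟩]⟩) (.K ⟨0,[0,1,-1],0,0,(⟨1,[(8,1),(3,0),(2,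
  0)]⟩,⟨0,[(16,0),(1,0)]⟩),(.r 0 ⟨7,[(2,3),(10,2),(0,0)]⟩ ⟨2,[(0,0),(8,1),(0,0),(3,0),(1,0),(4,
  0)]⟩),.k,(.r 1 ⟨0,[(2,0)]⟩ ⟨1,[(9,1),(0,1),(3,0),(9,0)]⟩),.k,.k,[⟨1,[(12,0),(2,0),(10,1)]⟩,⟨0,
  [(16,0)]⟩,⟨0,[(0,0),(10,0),(10,0)]⟩,⟨3,[(2,1),(3,0),(9,3),(4,0),(2,0),(2,2)]⟩]⟩))) (.K ⟨0,[0,0,1],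
  0,0,(⟨0,[(14,0)]⟩,⟨1,[(13,0),(2,0),(0,0)]⟩),.k,(.r (-1) ⟨7,[(0,3),(10,0),(0,2)]⟩ ⟨1,[(4,0),(4,0),
  (0,0),(7,0)]⟩),(.r 0 ⟨3,[(2,1),(6,1),(2,0),(2,0),(2,1)]⟩ ⟨1,[(4,0),(2,0),(0,0)]⟩),.k,.k,[⟨0,[(14,
  0),(9,0)]⟩,⟨1,[(10,0),(2,0)]⟩,⟨1,[(1,0),(2,0),(4,0),(4,1)]⟩,⟨7,[(0,4),(0,2),(0,2),(0,3),(5,8),(3,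
  1),(1,3)]⟩]⟩)) (.I [0,0,-2,0,0,2] (.R ⟨0,false,false,false,[1,-1],[0,1],[1,1,1],(⟨0,[(16,0)]⟩,⟨0,
  [(17,0)]⟩),(⟨0,[(17,0)]⟩,⟨0,[(16,0)]⟩),⟨0,[(0,0),(9,0)]⟩,.k,.k,(.x (-1) ⟨3,[(10,3),(0,0),(0,0),(2,
  1),(0,7)]⟩ ⟨0,[(0,0)]⟩),(.x (-1) ⟨3,[(10,3),(0,0),(0,0),(2,1),(0,7)]⟩ ⟨0,[(0,0)]⟩),.k,.k,⟨true,0,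
  ⟨0,[(20,0)]⟩,⟨0,[(1,0),(8,0)]⟩⟩,⟨false,1,⟨0,[(7,0),(14,0)]⟩,⟨0,[(10,0)]⟩⟩,⟨true,(-1),⟨0,[(9,0),(0,
  0)]⟩,⟨0,[(1,0),(6,0),(10,0)]⟩⟩,⟨false,0,⟨5,[(1,3),(7,1),(1,0),(0,0),(5,3),(2,1)]⟩,⟨0,[(8,0)]⟩⟩,
  ⟨false,0,⟨0,[]⟩,⟨0,[]⟩⟩,⟨false,0,⟨0,[]⟩,⟨0,[]⟩⟩,[.o ⟨false,0,⟨0,[(21,0)]⟩,⟨7,[(8,3),(2,0),(0,0),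
  (2,1)]⟩⟩,.a ⟨true,0,⟨0,[(9,0),(13,0)]⟩,⟨0,[(20,0)]⟩⟩ ⟨false,0,⟨0,[]⟩,⟨3,[(11,0),(0,0),(9,1)]⟩⟩
  ⟨true,0,⟨0,[(1,0)]⟩,⟨0,[(10,0),(9,0)]⟩⟩,.e ⟨false,0,⟨0,[(24,0)]⟩,⟨1,[(22,0),(0,0)]⟩⟩ ⟨false,0,⟨0,
  [(1,0)]⟩,⟨3,[(8,1),(1,1),(0,0),(0,0)]⟩⟩,.o ⟨false,0,⟨0,[(10,0)]⟩,⟨0,[(22,0)]⟩⟩]⟩) (.I [1,1,-1,-1,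
  0,0,1] (.K ⟨0,[0,1,-1],0,0,(⟨1,[(7,1),(3,0),(2,0)]⟩,⟨0,[(15,0),(1,0)]⟩),(.r 0 ⟨1,[(5,0),(4,0),(0,
  0),(7,0)]⟩ ⟨5,[(0,1),(7,1),(0,1),(3,1),(9,0),(0,0)]⟩),.k,(.r 0 ⟨11,[(10,7),(0,7),(0,6),(0,0),(5,
  7),(2,7)]⟩ ⟨0,[(0,0),(1,0),(6,0)]⟩),.k,.k,[⟨1,[(11,0),(2,0),(10,1)]⟩,⟨0,[(15,0)]⟩,⟨1,[(0,1),(10,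
  0),(2,0)]⟩,⟨1,[(10,1),(1,0),(2,1),(0,0)]⟩]⟩) (.I [0,0,1,1,0,0,2] (.Q [0,1,0,0,0,0,1,0,-1] (.p
  false [0,0,1] [] (⟨0,[(16,0)]⟩,⟨1,[(15,0),(2,0),(0,0)]⟩) .k 0 (⟨0,[]⟩,⟨0,[]⟩) .k .k) (.K ⟨0,[0,0,
  1],0,0,(⟨0,[(17,0)]⟩,⟨1,[(16,0),(2,0),(0,0)]⟩),.k,(.r (-1) ⟨0,[(8,0),(8,0),(4,0)]⟩ ⟨2,[(2,0),(9,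
  0),(0,0),(0,0),(9,0)]⟩),(.r 0 ⟨8,[(1,5),(0,0),(9,0),(0,0),(0,0),(9,0)]⟩ ⟨1,[(7,0),(2,0),(0,0)]⟩),
  .k,.k,[⟨0,[(17,0),(9,0)]⟩,⟨1,[(13,0),(2,0)]⟩,⟨0,[(2,0),(14,0),(4,0),(0,0)]⟩,⟨0,[(0,0)]⟩]⟩) (.R ⟨0,
  false,false,false,[0,1,-1],[0,1],[1,0,1,1,0,0,-1],(⟨1,[(9,1),(3,0),(2,0)]⟩,⟨0,[(17,0),(1,0)]⟩),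
  (⟨0,[(20,0)]⟩,⟨0,[(19,0)]⟩),⟨0,[(17,0)]⟩,(.r 0 ⟨2,[(2,0),(9,0),(0,0),(0,0),(9,0)]⟩ ⟨0,[(8,0),(8,
  0),(4,0)]⟩),.k,.k,.k,.k,.k,⟨true,0,⟨1,[(0,1),(11,0),(3,0),(1,0),(4,0)]⟩,⟨0,[(5,0)]⟩⟩,⟨false,1,⟨7,
  [(14,0),(0,0),(0,3),(1,1),(6,3)]⟩,⟨0,[(17,0)]⟩⟩,⟨true,0,⟨0,[]⟩,⟨0,[(28,0)]⟩⟩,⟨false,1,⟨3,[(6,1),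
  (1,1),(6,0),(9,0)]⟩,⟨0,[(0,0),(27,0)]⟩⟩,⟨false,0,⟨0,[]⟩,⟨0,[]⟩⟩,⟨false,0,⟨0,[]⟩,⟨0,[]⟩⟩,[.o
  ⟨false,0,⟨0,[(24,0)]⟩,⟨7,[(11,3),(2,0),(0,0),(2,1)]⟩⟩,.a ⟨true,0,⟨0,[(12,0),(13,0)]⟩,⟨0,[(23,
  0)]⟩⟩ ⟨false,0,⟨0,[(0,0),(5,0),(15,0)]⟩,⟨1,[(15,0),(7,1),(1,0)]⟩⟩ ⟨true,0,⟨0,[(6,0)]⟩,⟨0,[(17,0),
  (5,0)]⟩⟩,.e ⟨false,0,⟨0,[(2,0)]⟩,⟨0,[(8,0),(8,0),(4,0)]⟩⟩ ⟨false,0,⟨0,[(6,0)]⟩,⟨7,[(10,3),(0,3),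
  (2,0),(0,0),(1,7),(7,1)]⟩⟩,.o ⟨false,0,⟨0,[(17,0)]⟩,⟨7,[(14,0),(0,0),(0,3),(1,5)]⟩⟩]⟩)) (.R ⟨0,
  false,false,false,[0,1,-1],[0,1],[0,0,2,1],(⟨1,[(8,1),(3,0),(2,0)]⟩,⟨0,[(16,0),(1,0)]⟩),(⟨0,[(19,
  0)]⟩,⟨0,[(18,0)]⟩),⟨0,[(16,0)]⟩,(.r 0 ⟨2,[(1,0),(9,0),(0,0),(0,0),(9,0)]⟩ ⟨0,[(7,0),(8,0),(4,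
  0)]⟩),.k,.k,.k,.k,.k,⟨true,0,⟨0,[(26,0)]⟩,⟨0,[]⟩⟩,⟨false,1,⟨7,[(13,0),(0,0),(0,3),(1,1),(6,3)]⟩,
  ⟨0,[(16,0)]⟩⟩,⟨true,0,⟨0,[(4,0)]⟩,⟨5,[(0,1),(5,0),(4,1),(5,0),(3,2),(5,0)]⟩⟩,⟨false,1,⟨3,[(5,1),
  (1,1),(6,0),(9,0)]⟩,⟨25,[(0,7),(0,3),(9,3),(0,1),(0,2),(2,25),(0,0)]⟩⟩,⟨false,0,⟨0,[]⟩,⟨0,[]⟩⟩,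
  ⟨false,0,⟨0,[]⟩,⟨0,[]⟩⟩,[.o ⟨false,0,⟨0,[(23,0)]⟩,⟨7,[(10,3),(2,0),(0,0),(2,1)]⟩⟩,.a ⟨true,0,⟨0,
  [(11,0),(13,0)]⟩,⟨0,[(22,0)]⟩⟩ ⟨false,0,⟨0,[(3,0),(8,0)]⟩,⟨0,[(22,0),(1,0)]⟩⟩ ⟨true,0,⟨0,[(5,0)]⟩,
  ⟨0,[(16,0),(5,0)]⟩⟩,.e ⟨false,0,⟨0,[(20,0),(5,0)]⟩,⟨0,[(3,0),(6,0),(10,0)]⟩⟩ ⟨false,0,⟨0,[(5,0)]⟩,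
  ⟨7,[(9,3),(0,3),(2,0),(0,0),(1,7),(7,1)]⟩⟩,.o ⟨false,0,⟨0,[(16,0)]⟩,⟨7,[(13,0),(0,0),(0,3),(1,
  5)]⟩⟩]⟩))))) (.R ⟨0,false,false,true,[0,1,-1],[1,0,-1],[1,0,1,1,0,0,-1],(⟨1,[(4,1),(3,0),(2,0)]⟩,
  ⟨0,[(12,0),(1,0)]⟩),(⟨1,[(11,0),(2,0),(0,0)]⟩,⟨0,[(12,0)]⟩),⟨0,[(12,0)]⟩,(.r 0 ⟨1,[(2,0),(4,0),(0,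
  0),(7,0)]⟩ ⟨0,[(3,0),(8,0),(4,0)]⟩),.k,.k,.k,.k,.k,⟨true,0,⟨0,[(16,0)]⟩,⟨0,[(18,0)]⟩⟩,⟨false,1,⟨3,
  [(9,0),(0,0),(2,1)]⟩,⟨0,[(5,0)]⟩⟩,⟨true,0,⟨0,[]⟩,⟨0,[(23,0)]⟩⟩,⟨false,1,⟨7,[(6,3),(2,0),(0,0),(2,
  1)]⟩,⟨0,[(7,0),(13,0)]⟩⟩,⟨false,0,⟨0,[]⟩,⟨0,[]⟩⟩,⟨false,0,⟨0,[]⟩,⟨0,[]⟩⟩,[.o ⟨false,0,⟨1,[(0,1),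
  (6,0),(0,0),(3,1),(0,0),(4,0)]⟩,⟨3,[(1,1),(1,1),(6,0),(9,0)]⟩⟩,.a ⟨true,0,⟨0,[(0,0),(11,0),(9,
  0)]⟩,⟨0,[(3,0),(3,0)]⟩⟩ ⟨false,0,⟨0,[(0,0),(15,0)]⟩,⟨1,[(10,0),(7,1),(1,0)]⟩⟩ ⟨true,0,⟨0,[(0,0),
  (7,0)]⟩,⟨0,[(3,0),(3,0),(4,0)]⟩⟩,.e ⟨false,0,⟨0,[(0,0),(15,0),(5,0)]⟩,⟨0,[(3,0),(8,0),(4,0)]⟩⟩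
  ⟨false,0,⟨0,[(0,0),(7,0)]⟩,⟨1,[(5,1),(4,0),(10,0)]⟩⟩,.o ⟨false,0,⟨0,[(12,0)]⟩,⟨7,[(9,0),(0,0),(0,
  3),(1,5)]⟩⟩]⟩)) (.Q [0,1,0,0,0,0,1,0,-1] (.p false [0,0,1] [] (⟨0,[(11,0)]⟩,⟨1,[(10,0),(2,0),(0,
  0)]⟩) .k 0 (⟨0,[]⟩,⟨0,[]⟩) .k .k) (.K ⟨0,[0,0,1],0,0,(⟨0,[(12,0)]⟩,⟨1,[(11,0),(2,0),(0,0)]⟩),.k,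
  (.r (-1) ⟨3,[(1,1),(1,1),(6,0),(9,0)]⟩ ⟨1,[(2,0),(4,0),(0,0),(7,0)]⟩),(.r 0 ⟨0,[(0,0),(11,0),(3,
  0)]⟩ ⟨1,[(2,0),(2,0),(0,0)]⟩),.k,.k,[⟨0,[(12,0),(9,0)]⟩,⟨1,[(8,0),(2,0)]⟩,⟨1,[(1,0),(0,0),(4,0),
  (0,0),(3,0)]⟩,⟨0,[(0,0)]⟩]⟩) (.I [0,0,-2,-2,1] (.I [1,0,2,2,-1,0,-1] (.R ⟨0,false,false,true,[1,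
  -1],[1,0,-1],[0,1,-1,-2],(⟨0,[(16,0)]⟩,⟨0,[(17,0)]⟩),(⟨1,[(13,0),(2,0),(0,0)]⟩,⟨0,[(14,0)]⟩),⟨0,
  [(6,1),(3,0)]⟩,.k,.k,(.r (-1) ⟨0,[(1,0)]⟩ ⟨3,[(0,3),(10,0),(0,2)]⟩),(.r (-1) ⟨1,[(1,0),(10,0)]⟩
  ⟨7,[(0,3),(10,2),(0,0)]⟩),.k,.k,⟨true,1,⟨0,[(3,0),(1,0)]⟩,⟨0,[(0,0)]⟩⟩,⟨false,1,⟨0,[(14,0),(7,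
  0)]⟩,⟨1,[(10,0),(2,0)]⟩⟩,⟨true,0,⟨0,[(20,0)]⟩,⟨0,[(21,0)]⟩⟩,⟨false,0,⟨6,[(0,3),(1,0),(0,0),(0,0),
  (9,4),(7,2)]⟩,⟨0,[(5,0)]⟩⟩,⟨false,0,⟨0,[]⟩,⟨0,[]⟩⟩,⟨false,0,⟨0,[]⟩,⟨0,[]⟩⟩,[.o ⟨false,0,⟨1,[(0,1),
  (0,0),(1,1),(11,0)]⟩,⟨0,[(5,0),(15,0)]⟩⟩,.a ⟨true,0,⟨4,[(0,0),(1,1),(0,1),(7,0),(2,0)]⟩,⟨0,[(5,0),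
  (3,0)]⟩⟩ ⟨false,1,⟨0,[(1,0)]⟩,⟨7,[(0,3),(10,0),(0,2),(8,7)]⟩⟩ ⟨true,0,⟨0,[(2,0),(16,0)]⟩,⟨0,[(5,
  0),(3,0),(0,0)]⟩⟩,.e ⟨false,1,⟨1,[(1,0),(18,1),(2,0)]⟩,⟨0,[(18,0),(2,0)]⟩⟩ ⟨false,0,⟨0,[(2,0),(16,
  0)]⟩,⟨7,[(0,3),(4,7),(5,0),(0,2)]⟩⟩,.o ⟨false,0,⟨0,[(10,0)]⟩,⟨0,[(22,0)]⟩⟩]⟩) (.R ⟨0,false,false,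
  true,[1,-1],[1,0,-1],[1,1,1],(⟨0,[(16,0)]⟩,⟨0,[(17,0)]⟩),(⟨1,[(13,0),(2,0),(0,0)]⟩,⟨0,[(14,0)]⟩),
  ⟨0,[(6,1),(3,0)]⟩,.k,.k,(.r (-1) ⟨0,[(1,0)]⟩ ⟨2,[(9,1),(0,1),(0,0),(0,0),(5,1),(2,1)]⟩),(.r (-1)
  ⟨7,[(0,3),(10,0),(0,2)]⟩ ⟨1,[(4,0),(4,0),(0,0),(7,0)]⟩),.k,.k,⟨true,0,⟨0,[(0,0),(8,0),(0,0),(7,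
  0)]⟩,⟨1,[(2,1),(6,0),(3,0),(1,0),(4,0)]⟩⟩,⟨false,1,⟨0,[(14,0),(7,0)]⟩,⟨1,[(10,0),(2,0)]⟩⟩,⟨true,
  (-1),⟨0,[(9,0),(0,0)]⟩,⟨1,[(1,0),(20,0)]⟩⟩,⟨false,0,⟨3,[(2,1),(6,1),(1,0),(2,1),(0,0),(5,1)]⟩,⟨0,
  [(5,0)]⟩⟩,⟨false,0,⟨0,[]⟩,⟨0,[]⟩⟩,⟨false,0,⟨0,[]⟩,⟨0,[]⟩⟩,[.o ⟨false,0,⟨0,[(2,0),(6,0),(5,0),(4,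
  0)]⟩,⟨0,[(5,0),(15,0)]⟩⟩,.a ⟨true,0,⟨13,[(2,7),(0,3),(5,3),(0,1),(0,2),(2,1),(0,0)]⟩,⟨0,[(5,0),(3,
  0)]⟩⟩ ⟨false,0,⟨0,[]⟩,⟨3,[(11,0),(0,0),(9,1)]⟩⟩ ⟨true,0,⟨0,[(2,0),(16,0)]⟩,⟨0,[(5,0),(3,0),(0,
  0)]⟩⟩,.e ⟨false,0,⟨0,[(24,0)]⟩,⟨1,[(22,0),(0,0)]⟩⟩ ⟨false,0,⟨0,[(2,0),(16,0)]⟩,⟨7,[(5,3),(4,1),(0,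
  0),(0,2),(0,1),(4,3)]⟩⟩,.o ⟨false,0,⟨0,[(10,0)]⟩,⟨0,[(22,0)]⟩⟩]⟩)) (.R ⟨0,false,false,false,[0,1,
  -1],[0,1],[0,0,2,1],(⟨1,[(5,1),(3,0),(2,0)]⟩,⟨0,[(13,0),(1,0)]⟩),(⟨0,[(16,0)]⟩,⟨0,[(15,0)]⟩),⟨0,
  [(13,0)]⟩,(.r 0 ⟨1,[(0,0),(9,0)]⟩ ⟨3,[(2,1),(1,1),(6,0),(9,0)]⟩),.k,.k,.k,.k,.k,⟨true,0,⟨0,[(23,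
  0)]⟩,⟨0,[]⟩⟩,⟨false,1,⟨7,[(10,0),(0,0),(0,3),(1,1),(6,3)]⟩,⟨0,[(13,0)]⟩⟩,⟨true,0,⟨0,[(0,0),(1,0),
  (1,0)]⟩,⟨1,[(1,1),(6,0),(3,0),(1,0),(3,1),(0,0)]⟩⟩,⟨false,1,⟨0,[(4,0),(15,0)]⟩,⟨3,[(0,0),(0,1),(0,
  1),(7,0)]⟩⟩,⟨false,0,⟨0,[]⟩,⟨0,[]⟩⟩,⟨false,0,⟨0,[]⟩,⟨0,[]⟩⟩,[.o ⟨false,0,⟨0,[(20,0)]⟩,⟨7,[(7,3),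
  (2,0),(0,0),(2,1)]⟩⟩,.e ⟨false,0,⟨0,[(0,0),(0,0),(2,0),(13,0)]⟩,⟨0,[(19,0),(1,0)]⟩⟩ ⟨false,1,⟨7,
  [(10,0),(0,0),(0,3),(1,1),(5,7),(1,3)]⟩,⟨0,[(2,0)]⟩⟩,.a ⟨true,0,⟨0,[(6,0),(6,0)]⟩,⟨1,[(9,0),(2,
  0)]⟩⟩ ⟨false,0,⟨0,[(17,0),(5,0)]⟩,⟨0,[(1,0),(2,0),(13,1)]⟩⟩ ⟨true,0,⟨7,[(0,3),(9,0),(0,0),(0,3),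
  (1,1)]⟩,⟨0,[(2,0)]⟩⟩,.o ⟨false,0,⟨0,[(13,0)]⟩,⟨7,[(10,0),(0,0),(0,3),(1,5)]⟩⟩]⟩))))

def t1 : Tre :=
  (.Q [0,1,0,1,-1,0,-1,0,1] (.p true [0,0,1] [] (⟨0,[(8,0)]⟩,⟨1,[(7,0),(2,0),(0,0)]⟩) .k 0 (⟨0,[]⟩,
  ⟨0,[]⟩) .k .k) (.I [0,0,-1,-1,1,0,1] (.K ⟨0,[0,1,-1],0,(-1),(⟨1,[(2,1),(3,0),(2,0)]⟩,⟨0,[(10,0),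
  (1,0)]⟩),(.r 0 ⟨9,[(1,1),(3,1),(0,2),(0,3),(1,0),(4,3),(2,1)]⟩ ⟨0,[(0,0)]⟩),.k,(.r 1 ⟨1,[(1,1),(4,
  0),(2,0),(4,1)]⟩ ⟨5,[(0,7),(2,1),(0,1),(2,0),(10,0)]⟩),.k,.k,[⟨1,[(6,0),(2,0),(10,1)]⟩,⟨0,[(10,
  0)]⟩,⟨1,[(4,0),(3,0),(0,0),(11,1)]⟩,⟨0,[(1,0)]⟩]⟩) (.Q [0,0,0,0,0,1,0,-1,1] (.ed false [0,1,1]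
  .k) (.I [0,0,-2,-2,1,0,-1] (.K ⟨0,[-1,1,1],0,0,(⟨0,[(1,0)]⟩,⟨1,[(11,0),(2,2),(0,0)]⟩),(.r 0 ⟨0,
  [(2,0),(7,0)]⟩ ⟨7,[(0,3),(8,2),(0,0)]⟩),.k,(.r 0 ⟨11,[(7,7),(0,7),(0,0),(0,6),(5,7),(2,7)]⟩ ⟨0,
  [(0,0)]⟩),.k,.k,[⟨0,[(8,0),(3,0)]⟩,⟨1,[(11,0),(2,0),(0,0)]⟩,⟨0,[(3,0),(2,0)]⟩,⟨1,[(7,0),(2,0),(0,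
  0),(7,0),(3,0)]⟩]⟩) (.I [0,0,1,1,-1,0,-1] (.K ⟨0,[0,1,-1],0,(-1),(⟨0,[(2,0),(9,0)]⟩,⟨0,[(13,0),(1,
  0)]⟩),(.r 1 ⟨0,[(0,0)]⟩ ⟨7,[(6,3),(0,3),(2,2),(0,6),(9,1)]⟩),.k,(.r 1 ⟨4,[(0,3),(0,2),(8,1)]⟩ ⟨1,
  [(6,1),(0,1),(3,0),(9,0)]⟩),.k,.k,[⟨1,[(9,0),(2,0),(10,1)]⟩,⟨0,[(13,0)]⟩,⟨1,[(7,0),(3,0),(0,0),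
  (11,1)]⟩,⟨0,[(4,0)]⟩]⟩) (.Q [0,0,1,0,0,0,0,-1,1] (.p true [0,0,1] [1] (⟨0,[(13,0)]⟩,⟨1,[(12,0),(2,
  0),(0,0)]⟩) .k 1 (⟨0,[]⟩,⟨0,[]⟩) .k .k) (.R ⟨0,false,false,true,[1,0,-1],[2,-1,-1],[0,1],(⟨1,[(13,
  0),(2,0),(0,0)]⟩,⟨0,[(14,0)]⟩),(⟨1,[(13,0),(2,2),(0,0)]⟩,⟨0,[(3,0)]⟩),⟨0,[(3,0)]⟩,.k,(.r (-1) ⟨2,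
  [(4,0),(2,1),(0,1),(2,0),(10,0)]⟩ ⟨7,[(2,3),(8,0),(0,2)]⟩),(.r (-1) ⟨2,[(4,0),(2,1),(0,1),(2,0),
  (10,0)]⟩ ⟨7,[(2,3),(8,0),(0,2)]⟩),.k,.k,.k,⟨true,0,⟨7,[(2,3),(8,0),(0,2)]⟩,⟨0,[(4,0),(2,0),(0,
  0)]⟩⟩,⟨false,1,⟨3,[(11,0),(0,0),(2,1)]⟩,⟨0,[(7,0)]⟩⟩,⟨true,0,⟨1,[(1,0),(0,0),(16,0),(0,0)]⟩,⟨5,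
  [(4,3),(2,1),(0,1),(2,0),(10,0)]⟩⟩,⟨false,1,⟨7,[(8,3),(2,0),(0,0),(2,1)]⟩,⟨0,[(9,0),(13,0)]⟩⟩,
  ⟨false,0,⟨0,[]⟩,⟨0,[]⟩⟩,⟨false,0,⟨0,[]⟩,⟨0,[]⟩⟩,[.a ⟨true,0,⟨0,[(5,0),(2,0)]⟩,⟨1,[(2,1),(4,3),(0,
  0),(4,0),(9,0)]⟩⟩ ⟨false,0,⟨0,[(19,0)]⟩,⟨3,[(11,0),(0,0),(10,1)]⟩⟩ ⟨true,0,⟨0,[(4,0),(3,0),(10,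
  0)]⟩,⟨0,[(2,0),(4,0),(12,0),(2,0)]⟩⟩,.o ⟨false,1,⟨1,[(5,1),(2,1),(6,0),(7,0)]⟩,⟨3,[(2,1),(4,1),(4,
  0),(0,1),(8,0)]⟩⟩,.e ⟨true,0,⟨0,[(25,0)]⟩,⟨0,[]⟩⟩ ⟨true,0,⟨0,[(4,0),(3,0),(10,0)]⟩,⟨1,[(9,1),(2,
  0),(10,0)]⟩⟩,.o ⟨false,0,⟨0,[(0,0)]⟩,⟨7,[(11,0),(0,0),(0,3),(1,1),(6,3)]⟩⟩]⟩) (.K ⟨0,[0,1,-1],0,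
  (-1),(⟨0,[(3,0),(9,0)]⟩,⟨0,[(14,0),(1,0)]⟩),(.x 0 ⟨0,[(0,0),(2,0)]⟩ ⟨7,[(10,3),(0,2),(0,2),(2,1),
  (0,7)]⟩),.k,(.r 1 ⟨4,[(2,2),(1,3),(6,1)]⟩ ⟨5,[(1,7),(5,1),(0,1),(2,0),(10,0)]⟩),.k,.k,[⟨1,[(10,0),
  (2,0),(10,1)]⟩,⟨0,[(14,0)]⟩,⟨1,[(8,0),(3,0),(0,0),(11,1)]⟩,⟨0,[(5,0)]⟩]⟩)))) (.S ⟨1,0,[0,0,1,1,0,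
  0,1],[0,1,1],[0,1,1,1,0,0,1],(⟨0,[(11,0),(2,0)]⟩,⟨0,[(0,0)]⟩),⟨0,[(11,0)]⟩,(.r 0 ⟨0,[(1,0),(7,
  0)]⟩ ⟨2,[(1,0),(2,1),(0,1),(2,0),(10,0)]⟩),.k,⟨true,0,⟨0,[(22,0)]⟩,⟨0,[]⟩⟩,⟨false,1,⟨3,[(8,0),(0,
  0),(10,1)]⟩,⟨0,[]⟩⟩,⟨false,0,⟨0,[(18,0)]⟩,⟨0,[(17,0),(2,0)]⟩⟩,⟨true,0,⟨0,[(18,0)]⟩,⟨0,[(17,0)]⟩⟩,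
  [.a ⟨true,0,⟨0,[(0,0),(0,0),(1,0),(5,0)]⟩,⟨0,[(1,0),(2,0),(0,0),(5,0)]⟩⟩ ⟨false,0,⟨1,[(6,1),(2,0),
  (2,0)]⟩,⟨1,[(1,1),(2,1),(0,1),(13,0),(0,0)]⟩⟩ ⟨true,0,⟨0,[(1,0),(7,0)]⟩,⟨0,[(1,0),(2,0),(0,0)]⟩⟩,
  .o ⟨false,1,⟨1,[(0,1),(2,1),(5,0),(2,0),(2,1)]⟩,⟨0,[(2,0),(2,0)]⟩⟩,.a ⟨true,0,⟨0,[(0,0),(2,0)]⟩,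
  ⟨0,[(11,0),(9,0)]⟩⟩ ⟨false,0,⟨0,[(1,0),(7,0)]⟩,⟨1,[(1,1),(2,1),(0,1),(13,0),(0,0)]⟩⟩ ⟨true,0,⟨0,
  [(1,0),(7,0)]⟩,⟨0,[(0,0),(1,0),(0,0),(1,0)]⟩⟩,.a ⟨true,0,⟨1,[(10,0),(2,0),(0,0)]⟩,⟨0,[(11,0)]⟩⟩
  ⟨true,0,⟨1,[(6,1),(2,0),(2,0)]⟩,⟨0,[(1,0),(2,0),(0,0)]⟩⟩ ⟨false,1,⟨1,[(9,0),(8,1),(1,0)]⟩,⟨0,[(1,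
  0),(2,0),(0,0)]⟩⟩]⟩))) (.I [1,0,1,0,-1,0,2] (.I [0,0,1,1,0,0,-1] (.I [0,0,-1,-1,0,0,2] (.I [0,0,
  -2,-2,1,0,1] (.K ⟨0,[0,1,-1],0,0,(⟨1,[(5,1),(3,0),(2,0)]⟩,⟨0,[(13,0),(1,0)]⟩),(.r 0 ⟨0,[(2,0)]⟩
  ⟨7,[(0,3),(9,0),(0,2)]⟩),.k,(.r 0 ⟨4,[(2,6),(5,0),(0,0),(1,0),(5,0),(2,0)]⟩ ⟨0,[(0,0)]⟩),.k,.k,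
  [⟨1,[(9,0),(2,0),(10,1)]⟩,⟨0,[(13,0)]⟩,⟨3,[(1,0),(1,0),(8,1),(1,0),(4,2),(4,0)]⟩,⟨1,[(8,1),(1,0),
  (2,1),(0,0)]⟩]⟩) (.K ⟨0,[0,0,1],0,0,(⟨0,[(13,0)]⟩,⟨1,[(12,0),(2,0),(0,0)]⟩),.k,(.r (-1) ⟨13,[(1,
  1),(4,5),(0,5),(3,4),(9,2)]⟩ ⟨0,[(2,0)]⟩),(.r 1 ⟨0,[(0,0),(0,0)]⟩ ⟨7,[(6,3),(0,3),(2,6),(0,2),(9,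
  1)]⟩),.k,.k,[⟨0,[(13,0),(9,0)]⟩,⟨1,[(9,0),(2,0)]⟩,⟨0,[(0,0),(5,0),(0,0),(5,0),(4,0)]⟩,⟨7,[(3,2),
  (7,0),(0,3),(1,1),(3,2),(5,4)]⟩]⟩)) (.Q [0,-1,0,-1,1,0,0,-1,1] (.p true [0,0,1] [1] (⟨0,[(12,0)]⟩,
  ⟨1,[(11,0),(2,0),(0,0)]⟩) .k 1 (⟨0,[]⟩,⟨0,[]⟩) .k .k) (.R ⟨0,false,false,true,[0,0,1],[0,0,2],[0,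
  1],(⟨0,[(13,0)]⟩,⟨1,[(12,0),(2,0),(0,0)]⟩),(⟨0,[(13,1)]⟩,⟨0,[(12,0)]⟩),⟨1,[(5,1),(3,0),(2,0)]⟩,.k,
  .k,(.r (-1) ⟨5,[(3,0),(2,2),(0,2),(3,1),(9,1)]⟩ ⟨0,[(2,0)]⟩),.k,.k,.k,⟨true,1,⟨0,[(10,0)]⟩,⟨0,[(3,
  0)]⟩⟩,⟨false,1,⟨7,[(10,0),(0,0),(0,3),(1,1),(6,3)]⟩,⟨0,[(13,0)]⟩⟩,⟨true,0,⟨1,[(1,0),(16,0),(0,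
  0)]⟩,⟨5,[(3,1),(7,0),(9,0)]⟩⟩,⟨false,0,⟨3,[(3,1),(8,1),(1,0),(6,0)]⟩,⟨1,[(10,0),(2,1),(8,0)]⟩⟩,
  ⟨false,0,⟨0,[]⟩,⟨0,[]⟩⟩,⟨false,0,⟨0,[]⟩,⟨0,[]⟩⟩,[.e ⟨false,0,⟨0,[(18,0)]⟩,⟨3,[(10,0),(0,0),(10,
  1)]⟩⟩ ⟨false,0,⟨11,[(3,9),(7,1),(0,5),(1,2),(3,11),(2,4)]⟩,⟨0,[(0,0),(0,0),(4,0)]⟩⟩,.o ⟨false,0,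
  ⟨1,[(3,1),(8,1),(1,0),(6,0)]⟩,⟨0,[(0,0),(0,0),(11,0),(4,0)]⟩⟩,.a ⟨true,0,⟨1,[(12,0),(2,0),(0,0)]⟩,
  ⟨0,[(13,0)]⟩⟩ ⟨true,0,⟨0,[(24,0)]⟩,⟨0,[]⟩⟩ ⟨false,0,⟨11,[(3,9),(7,1),(0,5),(1,2),(6,4)]⟩,⟨0,[(0,
  0),(0,0),(4,0)]⟩⟩,.o ⟨false,0,⟨1,[(9,0),(2,0)]⟩,⟨1,[(13,1),(0,0),(6,0)]⟩⟩]⟩) (.R ⟨0,false,false,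
  false,[0,1,-1],[1,0,-1],[],(⟨1,[(5,1),(3,0),(2,0)]⟩,⟨0,[(13,0),(1,0)]⟩),(⟨1,[(12,0),(2,0),(0,0)]⟩,
  ⟨0,[(13,0)]⟩),⟨0,[(13,0)]⟩,(.r 0 ⟨0,[(2,0)]⟩ ⟨5,[(3,0),(2,2),(0,2),(3,1),(9,1)]⟩),.k,.k,.k,.k,.k,
  ⟨true,0,⟨5,[(3,1),(7,0),(9,0)]⟩,⟨1,[(1,1),(1,0),(2,0),(0,0)]⟩⟩,⟨false,1,⟨3,[(10,0),(0,0),(2,1)]⟩,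
  ⟨0,[(6,0)]⟩⟩,⟨false,1,⟨1,[(3,0),(2,0),(0,0),(13,0),(0,0)]⟩,⟨0,[(2,0)]⟩⟩,⟨true,1,⟨7,[(7,3),(2,0),
  (0,0),(2,1)]⟩,⟨0,[(8,0)]⟩⟩,⟨false,0,⟨0,[]⟩,⟨0,[]⟩⟩,⟨false,0,⟨0,[]⟩,⟨0,[]⟩⟩,[.o ⟨false,1,⟨1,[(10,
  0),(2,1),(0,0)]⟩,⟨3,[(3,1),(8,1),(1,0),(6,0)]⟩⟩,.a ⟨true,1,⟨1,[(10,0),(2,1),(8,0)]⟩,⟨1,[(0,1),(2,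
  0),(2,0),(0,0)]⟩⟩ ⟨false,1,⟨1,[(21,0),(0,0)]⟩,⟨0,[(24,0)]⟩⟩ ⟨true,1,⟨3,[(1,1),(5,0),(1,0),(4,0),
  (7,1)]⟩,⟨1,[(3,0),(2,0),(1,0),(10,0)]⟩⟩,.e ⟨false,1,⟨3,[(10,0),(0,0),(10,1)]⟩,⟨0,[]⟩⟩ ⟨false,1,⟨3,
  [(1,1),(5,0),(1,0),(4,0),(7,1)]⟩,⟨5,[(3,1),(2,5),(4,0),(9,0)]⟩⟩,.o ⟨false,0,⟨0,[(13,0)]⟩,⟨7,[(10,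
  0),(0,0),(0,3),(1,5)]⟩⟩]⟩))) (.Q [0,0,0,0,0,1,0,-1,1] (.ed false [0,1,1] .k) (.K ⟨0,[-1,1,1],0,
  (-1),(⟨0,[(0,0)]⟩,⟨1,[(11,0),(2,2),(0,0)]⟩),(.r 0 ⟨9,[(2,0),(4,2),(0,2),(1,3),(5,2),(2,3)]⟩ ⟨0,
  [(1,0),(7,0)]⟩),.k,(.r 1 ⟨1,[(2,0),(4,0),(0,0),(7,0),(2,1)]⟩ ⟨1,[(5,1),(0,1),(2,0),(10,0)]⟩),.k,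
  .k,[⟨0,[(8,0),(3,0)]⟩,⟨1,[(11,0),(2,0),(0,0)]⟩,⟨1,[(9,0),(2,1),(0,0),(4,1)]⟩,⟨3,[(2,1),(4,3),(3,
  1),(1,0),(6,0)]⟩]⟩) (.K ⟨0,[1,-1,-1],0,1,(⟨0,[(0,0)]⟩,⟨0,[(12,0),(2,0)]⟩),(.r (-1) ⟨0,[(1,0),(7,
  0)]⟩ ⟨9,[(2,0),(4,2),(0,2),(1,3),(5,2),(2,3)]⟩),(.r (-2) ⟨1,[(5,1),(0,1),(2,0),(10,0)]⟩ ⟨1,[(2,0),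
  (4,0),(0,0),(7,0),(2,1)]⟩),.k,.k,.k,[⟨1,[(11,0),(2,0),(0,0)]⟩,⟨0,[(8,0),(3,0)]⟩,⟨3,[(2,1),(4,3),
  (3,1),(1,0),(6,0)]⟩,⟨1,[(9,0),(2,1),(0,0),(4,1)]⟩]⟩))) t0))

def t2 : Tre :=
  (.I [0,0,1,0,0,-1] (.Q [0,1,0,0,0,0,1,0,-1] (.p false [0,0,1] [] (⟨0,[(8,0)]⟩,⟨1,[(7,0),(2,0),(0,
  0)]⟩) .k 0 (⟨0,[]⟩,⟨0,[]⟩) .k .k) (.Q [0,1,0,0,0,0,-1,0,1] (.p true [0,0,1] [] (⟨0,[(9,0)]⟩,⟨1,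
  [(8,0),(2,0),(0,0)]⟩) .k 0 (⟨0,[]⟩,⟨0,[]⟩) .k .k) (.K ⟨0,[0,0,1],0,0,(⟨0,[(10,0)]⟩,⟨1,[(9,0),(2,
  0),(0,0)]⟩),.k,(.x 0 ⟨0,[(2,0)]⟩ ⟨3,[(7,0),(0,0),(4,3),(4,1)]⟩),(.x (-1) ⟨3,[(7,0),(0,0),(4,3),(4,
  1)]⟩ ⟨0,[(2,0)]⟩),.k,.k,[⟨0,[(10,0),(9,0)]⟩,⟨1,[(6,0),(2,0)]⟩,⟨0,[(0,0)]⟩,⟨0,[(1,0)]⟩]⟩) (.R ⟨2,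
  true,false,false,[0,1],[0,0,1],[0,1],(⟨0,[]⟩,⟨0,[]⟩),(⟨0,[(10,0)]⟩,⟨1,[(9,0),(2,0),(0,0)]⟩),⟨0,
  []⟩,.k,.k,.k,(.x (-1) ⟨3,[(7,0),(0,0),(4,3),(4,1)]⟩ ⟨0,[(2,0)]⟩),.k,.k,⟨false,1,⟨1,[(7,0),(10,0),
  (2,1)]⟩,⟨0,[(0,0),(9,0)]⟩⟩,⟨true,0,⟨1,[(6,0),(2,0)]⟩,⟨0,[(10,0)]⟩⟩,⟨false,1,⟨7,[(3,3),(0,3),(2,0),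
  (0,0),(9,1)]⟩,⟨0,[(14,0)]⟩⟩,⟨true,0,⟨0,[(0,0),(15,0)]⟩,⟨1,[(5,1),(1,0),(2,1),(0,0)]⟩⟩,⟨true,0,⟨0,
  [(15,0)]⟩,⟨0,[(20,0)]⟩⟩,⟨false,0,⟨0,[(0,0)]⟩,⟨3,[(7,2),(0,0),(1,3)]⟩⟩,[]⟩)) (.Q [0,0,-1,0,0,0,0,1,
  -1] (.p false [0,0,1] [1] (⟨0,[(9,0)]⟩,⟨1,[(8,0),(2,0),(0,0)]⟩) .k 1 (⟨0,[]⟩,⟨0,[]⟩) .k .k) (.Q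
  [0,0,0,0,0,1,0,0,-1] (.ed true [1,-1,1] .k) (.I [0,0,-1,0,0,0,-1] (.I [0,-1,-1,-1,1] (.Q [0,0,0,0,
  0,-2,0,1] (.pp false [-1,1]) (.S ⟨1,0,[0,0,-1,-1],[1,-1],[0,1,-1,-1],(⟨0,[(16,0)]⟩,⟨0,[(17,0)]⟩),
  ⟨0,[(0,0)]⟩,.k,(.x 0 ⟨0,[(0,0),(9,0)]⟩ ⟨0,[(17,1),(4,0)]⟩),⟨true,0,⟨0,[(25,0)]⟩,⟨0,[]⟩⟩,⟨false,1,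
  ⟨3,[(11,0),(0,0),(10,1)]⟩,⟨0,[]⟩⟩,⟨false,0,⟨0,[(21,0)]⟩,⟨0,[(20,0),(2,0)]⟩⟩,⟨true,0,⟨0,[(21,0)]⟩,
  ⟨0,[(20,0)]⟩⟩,[.o ⟨false,1,⟨7,[(8,3),(2,0),(0,0),(2,1)]⟩,⟨0,[(21,0)]⟩⟩,.a ⟨true,1,⟨0,[(20,0),(2,
  0)]⟩,⟨0,[(9,0)]⟩⟩ ⟨false,1,⟨0,[(1,0),(17,0)]⟩,⟨5,[(9,1),(0,1),(0,0),(0,0),(5,1),(2,1)]⟩⟩ ⟨true,1,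
  ⟨0,[(1,0)]⟩,⟨0,[(9,0),(0,0)]⟩⟩,.e ⟨false,1,⟨7,[(1,3),(9,0),(0,0),(7,3),(1,1)]⟩,⟨0,[(18,0)]⟩⟩
  ⟨false,1,⟨0,[(1,0)]⟩,⟨5,[(9,1),(0,1),(0,0),(0,0),(5,1),(2,1)]⟩⟩,.o ⟨false,0,⟨0,[(10,0)]⟩,⟨0,[(22,
  0)]⟩⟩]⟩) (.Q [0,-1,0,0,1,0,1,0,-1] (.p false [0,0,1] [] (⟨0,[(14,0)]⟩,⟨1,[(13,0),(2,0),(0,0)]⟩)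
  .k 0 (⟨0,[]⟩,⟨0,[]⟩) .k .k) (.I [0,0,1,1,0,0,1] (.S ⟨1,0,[0,1,0,0,0,0,-1],[1,0,-1],[0,0,1],(⟨1,
  [(15,0),(2,0),(0,0)]⟩,⟨0,[(16,0)]⟩),⟨0,[(6,0),(1,0)]⟩,.k,(.r (-1) ⟨7,[(3,3),(0,1),(8,2),(8,3),(1,
  0)]⟩ ⟨0,[(0,0)]⟩),⟨false,1,⟨1,[(14,0),(10,0),(0,1)]⟩,⟨0,[(4,0)]⟩⟩,⟨true,0,⟨0,[(27,0)]⟩,⟨0,[]⟩⟩,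
  ⟨true,0,⟨0,[(0,0)]⟩,⟨0,[(4,0),(17,0)]⟩⟩,⟨false,0,⟨0,[(23,0)]⟩,⟨0,[(22,0),(2,0)]⟩⟩,[.o ⟨false,0,⟨0,
  [(7,0),(3,0),(5,0),(4,0)]⟩,⟨0,[(1,0)]⟩⟩,.e ⟨false,1,⟨3,[(13,0),(0,0),(10,1)]⟩,⟨0,[(21,0)]⟩⟩
  ⟨false,0,⟨0,[(4,0)]⟩,⟨3,[(13,0),(0,2)]⟩⟩,.a ⟨true,0,⟨0,[(16,0)]⟩,⟨1,[(15,0),(2,0),(0,0)]⟩⟩ ⟨true,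
  0,⟨0,[(26,0)]⟩,⟨0,[(21,0)]⟩⟩ ⟨false,0,⟨7,[(4,3),(2,1),(3,0),(0,1),(0,0),(1,0),(6,0)]⟩,⟨1,[(14,0),
  (10,0)]⟩⟩,.e ⟨false,1,⟨3,[(13,0),(0,0),(10,1)]⟩,⟨0,[]⟩⟩ ⟨false,0,⟨0,[(4,0)]⟩,⟨1,[(14,0),(10,0),(0,
  1)]⟩⟩]⟩) (.R ⟨0,false,false,false,[1,-1],[0,0,1],[0,1],(⟨0,[(18,0)]⟩,⟨0,[(19,0)]⟩),(⟨0,[(16,0)]⟩,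
  ⟨1,[(15,0),(2,0),(0,0)]⟩),⟨0,[(2,0)]⟩,.k,.k,(.r (-1) ⟨0,[(0,1),(13,0)]⟩ ⟨2,[(11,1),(0,1),(0,0),(0,
  0),(5,1),(2,1)]⟩),(.x 0 ⟨0,[(8,0)]⟩ ⟨7,[(2,3),(6,3),(3,2),(0,2),(9,1)]⟩),.k,.k,⟨false,0,⟨3,[(0,1),
  (10,1),(1,0),(3,0),(3,1)]⟩,⟨1,[(14,0),(10,0)]⟩⟩,⟨true,0,⟨0,[(6,0)]⟩,⟨0,[(12,0),(3,0)]⟩⟩,⟨false,0,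
  ⟨5,[(11,1),(0,1),(0,0),(0,0),(5,1),(2,1)]⟩,⟨0,[(3,0)]⟩⟩,⟨true,0,⟨0,[(1,0),(9,0)]⟩,⟨1,[(0,1),(10,
  0),(0,0),(3,1),(0,0),(4,0)]⟩⟩,⟨false,0,⟨0,[]⟩,⟨0,[]⟩⟩,⟨false,0,⟨0,[]⟩,⟨0,[]⟩⟩,[.e ⟨false,0,⟨0,
  [(21,0)]⟩,⟨3,[(13,0),(0,0),(10,1)]⟩⟩ ⟨false,1,⟨1,[(6,1),(7,0),(9,0)]⟩,⟨1,[(7,1),(3,0),(0,0),(4,0),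
  (4,0)]⟩⟩,.o ⟨false,1,⟨0,[(1,0)]⟩,⟨0,[(7,0),(3,0),(5,0),(4,0)]⟩⟩,.a ⟨true,0,⟨0,[(26,0)]⟩,⟨0,[(9,
  0)]⟩⟩ ⟨true,0,⟨0,[(27,0)]⟩,⟨0,[]⟩⟩ ⟨false,1,⟨1,[(6,1),(7,0),(10,0)]⟩,⟨1,[(7,1),(3,0),(0,0),(4,0),
  (4,0)]⟩⟩,.o ⟨false,0,⟨0,[(12,0)]⟩,⟨0,[(24,0)]⟩⟩]⟩)) (.K ⟨0,[0,0,1],0,1,(⟨0,[(15,0)]⟩,⟨1,[(14,0),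
  (2,0),(0,0)]⟩),.k,(.x 0 ⟨0,[(7,0)]⟩ ⟨7,[(1,3),(6,3),(3,2),(0,2),(9,1)]⟩),(.x (-1) ⟨7,[(1,3),(6,3),
  (3,2),(0,2),(9,1)]⟩ ⟨0,[(7,0)]⟩),.k,.k,[⟨0,[(15,0),(9,0)]⟩,⟨1,[(11,0),(2,0)]⟩,⟨0,[(0,0)]⟩,⟨7,[(12,
  0),(0,4),(0,3),(1,1),(9,7)]⟩]⟩))) (.R ⟨0,false,false,false,[0,0,1],[0,1],[1,1,1],(⟨0,[(13,0)]⟩,⟨1,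
  [(12,0),(2,0),(0,0)]⟩),(⟨0,[(16,0)]⟩,⟨0,[(15,0)]⟩),⟨0,[(2,0)]⟩,.k,.k,(.x 0 ⟨0,[(5,0)]⟩ ⟨3,[(10,0),
  (0,0),(4,3),(4,1)]⟩),(.x 0 ⟨0,[(5,0)]⟩ ⟨3,[(10,0),(0,0),(4,3),(4,1)]⟩),.k,.k,⟨true,0,⟨0,[(19,0)]⟩,
  ⟨0,[(0,0),(21,0)]⟩⟩,⟨false,1,⟨0,[(13,0),(7,0)]⟩,⟨1,[(9,0),(2,0)]⟩⟩,⟨true,(-1),⟨0,[(0,1),(2,0),(0,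
  0),(2,0)]⟩,⟨1,[(11,0),(9,0)]⟩⟩,⟨false,0,⟨0,[(4,0),(15,0)]⟩,⟨1,[(7,0),(3,0),(0,0)]⟩⟩,⟨false,0,⟨0,
  []⟩,⟨0,[]⟩⟩,⟨false,0,⟨0,[]⟩,⟨0,[]⟩⟩,[.o ⟨false,0,⟨0,[(20,0)]⟩,⟨7,[(7,3),(2,0),(0,0),(2,1)]⟩⟩,.e
  ⟨false,0,⟨0,[]⟩,⟨3,[(10,0),(0,0),(9,1)]⟩⟩ ⟨false,1,⟨1,[(4,1),(6,0),(8,1),(0,0)]⟩,⟨0,[(0,0),(2,0),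
  (3,0)]⟩⟩,.a ⟨true,0,⟨1,[(12,0),(2,0),(0,0)]⟩,⟨0,[(13,0)]⟩⟩ ⟨false,0,⟨0,[(23,0)]⟩,⟨1,[(21,0),(0,
  0)]⟩⟩ ⟨true,0,⟨0,[(13,0),(6,0)]⟩,⟨0,[(0,0),(2,0),(3,0)]⟩⟩,.o ⟨false,0,⟨1,[(9,0),(2,0)]⟩,⟨1,[(13,
  1),(0,0),(6,0)]⟩⟩]⟩)) (.S ⟨1,2,[],[1,0,-1],[0,1,0,0,0,0,-1],(⟨1,[(11,0),(2,0),(0,0)]⟩,⟨0,[(12,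
  0)]⟩),⟨0,[(2,0),(1,0)]⟩,.k,(.x 0 ⟨0,[(4,0)]⟩ ⟨3,[(9,0),(0,0),(4,3),(4,1)]⟩),⟨true,0,⟨0,[(23,0)]⟩,
  ⟨0,[]⟩⟩,⟨false,1,⟨7,[(9,0),(0,4),(0,3),(1,1)]⟩,⟨0,[(3,0)]⟩⟩,⟨false,0,⟨0,[(19,0)]⟩,⟨0,[(18,0),(2,
  0)]⟩⟩,⟨true,0,⟨0,[(0,0),(1,0),(4,0),(5,0)]⟩,⟨0,[(3,0),(14,0)]⟩⟩,[.a ⟨true,0,⟨0,[(23,0)]⟩,⟨0,[(0,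
  0),(1,0),(0,0)]⟩⟩ ⟨false,0,⟨1,[(3,1),(3,0),(3,0),(1,0),(3,1),(0,0)]⟩,⟨1,[(10,0),(10,0)]⟩⟩ ⟨true,0,
  ⟨1,[(7,0),(3,0),(1,0),(4,0)]⟩,⟨0,[(0,0),(2,0)]⟩⟩,.fo,.a ⟨true,0,⟨0,[(12,0)]⟩,⟨1,[(11,0),(2,0),(0,
  0)]⟩⟩ ⟨false,0,⟨1,[(3,1),(3,0),(3,0),(1,0),(4,0)]⟩,⟨1,[(10,0),(10,0)]⟩⟩ ⟨true,0,⟨1,[(7,0),(3,0),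
  (1,0),(4,0)]⟩,⟨0,[(12,0)]⟩⟩,.a ⟨true,0,⟨0,[(12,0),(9,0)]⟩,⟨0,[(2,0)]⟩⟩ ⟨true,0,⟨1,[(3,1),(3,0),(3,
  0),(1,0),(3,1),(0,0)]⟩,⟨0,[(0,0)]⟩⟩ ⟨false,1,⟨7,[(9,0),(0,0),(0,3),(1,1),(6,3)]⟩,⟨0,[(0,0),(2,
  0)]⟩⟩]⟩)) (.I [0,-1,-1,-1,1] (.S ⟨1,0,[0,0,-1,-1],[1,-1],[0,1,-1,-1],(⟨0,[(14,0)]⟩,⟨0,[(15,0)]⟩),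
  ⟨0,[(1,1),(9,0)]⟩,.k,(.x 0 ⟨0,[(4,1)]⟩ ⟨0,[(15,1),(4,0)]⟩),⟨true,0,⟨0,[(23,0)]⟩,⟨0,[]⟩⟩,⟨false,1,
  ⟨3,[(9,0),(0,0),(10,1)]⟩,⟨0,[]⟩⟩,⟨false,0,⟨0,[(19,0)]⟩,⟨0,[(18,0),(2,0)]⟩⟩,⟨true,0,⟨0,[(19,0)]⟩,
  ⟨0,[(18,0)]⟩⟩,[.o ⟨false,1,⟨7,[(6,3),(2,0),(0,0),(2,1)]⟩,⟨0,[(19,0)]⟩⟩,.a ⟨true,1,⟨0,[(18,0),(2,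
  0)]⟩,⟨0,[(7,0)]⟩⟩ ⟨false,1,⟨0,[(0,0),(16,0)]⟩,⟨5,[(7,1),(0,1),(0,0),(0,0),(5,1),(2,1)]⟩⟩ ⟨true,1,
  ⟨0,[(0,0)]⟩,⟨0,[(7,0),(0,0)]⟩⟩,.e ⟨false,1,⟨7,[(0,3),(8,0),(0,0),(7,3),(1,1)]⟩,⟨0,[(16,0)]⟩⟩
  ⟨false,1,⟨0,[(0,0)]⟩,⟨5,[(7,1),(0,1),(0,0),(0,0),(5,1),(2,1)]⟩⟩,.o ⟨false,0,⟨0,[(8,0)]⟩,⟨0,[(20,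
  0)]⟩⟩]⟩) (.R ⟨1,false,false,true,[1,0,-1],[1,-1],[1,1,0,-1,0,0,-1],(⟨1,[(11,0),(2,0),(0,0)]⟩,⟨0,
  [(12,0)]⟩),(⟨0,[(14,0)]⟩,⟨0,[(15,0)]⟩),⟨0,[(1,0),(9,0)]⟩,.k,.k,(.x 0 ⟨0,[(4,0)]⟩ ⟨3,[(9,0),(0,0),
  (4,3),(4,1)]⟩),(.x (-1) ⟨3,[(9,0),(0,0),(4,3),(4,1)]⟩ ⟨0,[(4,0)]⟩),.k,.k,⟨false,0,⟨13,[(0,3),(2,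
  11),(5,0),(1,5),(1,2),(3,3),(0,3)]⟩,⟨1,[(10,0),(9,0)]⟩⟩,⟨true,0,⟨1,[(8,0),(2,0)]⟩,⟨0,[(12,0)]⟩⟩,
  ⟨true,0,⟨0,[(18,0)]⟩,⟨0,[(19,0)]⟩⟩,⟨false,1,⟨1,[(6,0),(3,0),(0,0)]⟩,⟨0,[(3,0),(15,0)]⟩⟩,⟨false,0,
  ⟨0,[]⟩,⟨3,[(9,0),(0,0),(10,1)]⟩⟩,⟨false,1,⟨7,[(9,0),(0,4),(0,3),(1,1)]⟩,⟨0,[(3,0)]⟩⟩,[.a ⟨true,0,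
  ⟨0,[(18,0)]⟩,⟨0,[(7,0),(13,0)]⟩⟩ ⟨false,0,⟨0,[(0,0),(1,0),(0,0),(2,0),(10,0)]⟩,⟨1,[(10,0),(8,1),
  (1,0)]⟩⟩ ⟨true,0,⟨0,[(0,0),(1,0),(3,0)]⟩,⟨0,[(12,0),(3,0)]⟩⟩,.o ⟨false,1,⟨7,[(6,3),(2,0),(0,0),(2,
  1)]⟩,⟨0,[(19,0)]⟩⟩,.a ⟨true,0,⟨0,[(12,0)]⟩,⟨1,[(11,0),(2,0),(0,0)]⟩⟩ ⟨false,0,⟨0,[(0,0),(1,0),(0,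
  0),(2,0)]⟩,⟨1,[(10,0),(8,1),(1,0)]⟩⟩ ⟨true,0,⟨0,[(0,0),(1,0),(3,0)]⟩,⟨0,[(12,0),(6,0)]⟩⟩,.a ⟨true,
  0,⟨0,[(12,0),(9,0)]⟩,⟨0,[(2,0)]⟩⟩ ⟨true,0,⟨0,[(0,0),(1,0),(0,0),(2,0),(10,0)]⟩,⟨1,[(0,0),(9,0),(5,
  0)]⟩⟩ ⟨false,1,⟨1,[(6,0),(4,0),(8,0)]⟩,⟨0,[(12,0),(3,0)]⟩⟩]⟩))) (.K ⟨0,[1,0,-1],0,0,(⟨1,[(9,0),(2,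
  0),(0,0)]⟩,⟨0,[(10,0)]⟩),.k,(.x 0 ⟨0,[(2,0)]⟩ ⟨3,[(7,0),(0,0),(4,3),(4,1)]⟩),(.x (-1) ⟨3,[(7,0),
  (0,0),(4,3),(4,1)]⟩ ⟨0,[(2,0)]⟩),.k,.k,[⟨1,[(9,0),(2,0),(0,0),(6,1)]⟩,⟨0,[(0,0)]⟩,⟨1,[(5,0),(2,0),
  (0,0),(6,0)]⟩,⟨0,[(1,0),(3,0),(5,0),(4,0)]⟩]⟩))) t1)

def tree : Tre :=
  (.Q [0,0,0,-2,1,0,0,-1] (.pp true [-1,1]) (.Q [0,0,-1,0,0,0,0,1] (.pp false [-1,1]) t2 (.R ⟨2,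
  false,false,false,[0,1],[1,-1],[0,1],(⟨0,[]⟩,⟨0,[]⟩),(⟨0,[(9,0)]⟩,⟨0,[(10,0)]⟩),⟨0,[]⟩,.k,.k,.k,
  (.r 1 ⟨0,[(0,0),(1,0),(8,0)]⟩ ⟨0,[(13,1),(1,0),(0,0)]⟩),.k,.k,⟨true,(-1),⟨0,[(0,0),(1,0)]⟩,⟨0,
  [(13,0),(2,0)]⟩⟩,⟨false,0,⟨0,[(0,0)]⟩,⟨0,[(9,0),(0,0),(4,0)]⟩⟩,⟨false,1,⟨1,[(13,1),(1,0),(0,0)]⟩,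
  ⟨0,[(11,0)]⟩⟩,⟨true,1,⟨0,[(1,0)]⟩,⟨0,[(2,0),(11,0)]⟩⟩,⟨true,0,⟨0,[(12,0)]⟩,⟨0,[(17,0)]⟩⟩,⟨true,1,
  ⟨7,[(1,3),(2,0),(0,0),(2,1)]⟩,⟨0,[(2,0)]⟩⟩,[.o ⟨false,1,⟨7,[(1,3),(2,0),(0,0),(2,1)]⟩,⟨0,[(14,
  0)]⟩⟩,.a ⟨true,1,⟨0,[(13,0),(2,0)]⟩,⟨0,[(2,0)]⟩⟩ ⟨false,1,⟨3,[(4,0),(0,0),(9,1)]⟩,⟨0,[]⟩⟩ ⟨true,1,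
  ⟨1,[(1,0),(1,0),(12,0)]⟩,⟨0,[(2,0)]⟩⟩,.o ⟨false,1,⟨3,[(4,0),(0,0),(9,1)]⟩,⟨0,[(0,0)]⟩⟩,.e ⟨true,0,
  ⟨0,[(12,0)]⟩,⟨0,[(17,0)]⟩⟩ ⟨true,1,⟨7,[(1,3),(2,0),(0,0),(2,1)]⟩,⟨0,[(2,0)]⟩⟩]⟩)) (.Q [0,0,-1,0,0,
  0,0,1] (.pp false [-1,1]) (.R ⟨2,true,false,true,[0,1],[1,-1],[0,1],(⟨0,[]⟩,⟨0,[]⟩),(⟨0,[(9,0)]⟩,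
  ⟨0,[(10,0)]⟩),⟨0,[]⟩,.k,.k,.k,(.r 1 ⟨0,[(1,0),(1,0)]⟩ ⟨0,[(13,1),(1,0),(0,0)]⟩),.k,.k,⟨false,0,⟨0,
  [(14,0)]⟩,⟨1,[(13,1),(1,0),(0,0)]⟩⟩,⟨true,0,⟨0,[(3,0)]⟩,⟨0,[(0,0)]⟩⟩,⟨false,1,⟨1,[(13,1),(1,0),(0,
  0)]⟩,⟨0,[(11,0)]⟩⟩,⟨true,1,⟨1,[(8,0),(4,3),(2,0)]⟩,⟨0,[(1,0)]⟩⟩,⟨true,0,⟨0,[(12,0)]⟩,⟨0,[(17,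
  0)]⟩⟩,⟨false,1,⟨1,[(8,0),(4,1),(2,0)]⟩,⟨1,[(1,0),(7,0),(0,0),(5,0)]⟩⟩,[]⟩) (.I [0,0,-1,-1,1,0,-1]
  (.I [0,1,-1,0,0,0,-1] (.K ⟨0,[1,0,-1],0,0,(⟨1,[(8,0),(2,0),(0,0)]⟩,⟨0,[(9,0)]⟩),.k,(.r (-1) ⟨0,
  [(1,0)]⟩ ⟨1,[(3,0),(1,0),(1,0)]⟩),(.x (-1) ⟨3,[(6,0),(0,0),(4,3),(4,1)]⟩ ⟨0,[(2,0),(8,0)]⟩),.k,.k,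
  [⟨1,[(8,0),(2,0),(0,0),(6,1)]⟩,⟨0,[(2,0),(6,0)]⟩,⟨1,[(4,0),(2,0),(0,0),(6,0)]⟩,⟨0,[(0,0),(1,0),(6,
  0)]⟩]⟩) (.K ⟨0,[0,0,1],0,0,(⟨0,[(9,0)]⟩,⟨1,[(8,0),(2,0),(0,0)]⟩),.k,(.r (-1) ⟨0,[(0,0),(14,0),(1,
  0)]⟩ ⟨1,[(3,0),(1,0),(0,0)]⟩),(.r 0 ⟨1,[(3,0),(1,0),(1,0)]⟩ ⟨0,[(1,0)]⟩),.k,.k,[⟨0,[(9,0),(9,0)]⟩,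
  ⟨1,[(5,0),(2,0)]⟩,⟨0,[(1,0),(0,0),(1,0),(4,0)]⟩,⟨5,[(0,3),(1,3),(1,0),(2,0),(0,2),(5,7),(0,
  0)]⟩]⟩)) (.Q [0,1,0,0,0,0,-1,0,1] (.p true [0,0,1] [] (⟨0,[(8,0)]⟩,⟨1,[(7,0),(2,0),(0,0)]⟩) .k 0
  (⟨0,[]⟩,⟨0,[]⟩) .k .k) (.K ⟨0,[0,0,1],0,0,(⟨0,[(9,0)]⟩,⟨1,[(8,0),(2,0),(0,0)]⟩),.k,(.r (-1) ⟨0,
  [(1,0),(13,1),(1,0),(0,0)]⟩ ⟨1,[(3,0),(1,0),(0,0)]⟩),(.x (-1) ⟨3,[(6,0),(0,0),(4,3),(4,1)]⟩ ⟨0,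
  [(2,0),(8,0)]⟩),.k,.k,[⟨0,[(9,0),(9,0)]⟩,⟨1,[(5,0),(2,0)]⟩,⟨0,[(0,0)]⟩,⟨3,[(1,1),(5,0),(0,1),(1,
  0),(3,1),(0,1)]⟩]⟩) (.K ⟨0,[1,0,-1],0,1,(⟨1,[(8,0),(2,0),(0,0)]⟩,⟨0,[(9,0)]⟩),.k,(.r (-2) ⟨3,[(6,
  2),(0,0),(7,3),(1,1),(0,1)]⟩ ⟨0,[(0,0),(1,0),(0,0),(5,0),(5,0)]⟩),(.r 0 ⟨1,[(3,0),(1,0),(0,0)]⟩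
  ⟨3,[(0,1),(6,0),(1,1),(5,3),(1,1),(0,0)]⟩),.k,.k,[⟨1,[(8,0),(2,0),(0,0),(6,1)]⟩,⟨0,[(2,0),(6,0)]⟩,
  ⟨0,[(0,0),(3,0),(10,0)]⟩,⟨1,[(6,0),(2,1),(0,0),(9,1)]⟩]⟩)))))

theorem ok : chk (cPU (-1) false) tree base = true := by
  decide +kernel

theorem closed {p a b c J l q : ℤ} {D dl : ℝ} {Cl : ℤ → ℤ → ℤ → ℤ → ℝ → Prop}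
    (W : World p a b c J (-1) l q D dl Cl) (hE : KEmp p a b (-1) (P1 l p) Cl)
    (g : G0 p a b c J D)
    {N R : ℤ} {I : ℝ} (hu : VFac p D Cl N R I)
    (s0 : (1 : ℝ) ≤ c)
    (s1 : (b : ℝ) + 1 ≤ a)
    (s2 : (a : ℝ) ≤ b + c)
    (s3 : D < 2 * b)
    (s4 : p - D - c < a) : False := by
  have g1 := g.a2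
  have g2 := g.b2
  have g3 := g.pa
  have g4 := g.pb
  have g5 := g.J1
  have g6 := g.JD
  have g7 := g.D2
  have g8 := g.ca
  have g9 := g.ca'
  have t1 := TF.ofV hu
  have i1 := t1.I0
  have i2 := hu.ID
  have i3 := t1.R1
  have i4 := t1.R2
  refine (val_PU W.toBase (UV.ofV hu)).sound W rfl (Nk := 0) (fun kf hkf hh => ?_) (kok_B hE (by simp [xv]) (by simp [xv]) 0) ?_ ok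
  · simp only [cPU, kfB, List.mem_cons, List.not_mem_nil, or_false] at hkf
    subst hkf
    exact absurd hh (by norm_num)
  · simp only [base, List.forall_mem_cons, List.not_mem_nil, false_imp_iff, implies_true,
      and_true, hld, xv, evg_cons, evg_nil, List.map_cons, List.map_nil, List.cons_append,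
      List.nil_append, if_true, if_false, Bool.false_eq_true]
    push_cast
    refine ⟨?_, ?_, ?_, ?_, ?_, ?_, ?_, ?_, ?_, ?_, ?_, ?_, ?_, ?_, ?_, ?_, ?_⟩ <;> linarith

end Helper25.KG.P1_2_m1_1_v
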