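import Pool.Agent.Helper25.KG.PL

set_option autoImplicit false
set_option linter.unusedVariables false

namespace Helper25.KG.P1_2_m1_1_v2_hab

open Helper11.CT Helper25.KW Helper25.KG

def base : List Con :=
  [(false,[0,1,0,1,0,-2,0,2]),
  (false,[0,0,2,0,0,0,0,-2]),
  (true,[0,0,0,0,0,2,-2]),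
  (true,[0,0,0,0,0,2,2]),
  (false,[0,0,0,0,0,0,0,2,-1]),
  (false,[0,0,0,0,0,0,0,0,1]),
  (false,[0,0,0,0,0,0,0,1]),
  (false,[0,0,0,0,0,2,0,-4]),
  (false,[0,0,0,0,-1,0,0,2]),
  (true,[0,0,0,0,1]),
  (true,[1,-1,1,1]),
  (true,[0,1,-1]),
  (true,[0,1,0,-1]),
  (true,[0,0,0,1]),
  (true,[0,0,-2,0,0,2]),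
  (true,[0,-2,0,0,0,2]),
  (true,[-1,0,1]),
  (true,[-1,1])]

def t0 : Tre :=
  (.Q [0,0,1,0,0,0,1,0,-1] (.p false [0,0,0,1] [] (⟨0,[(11,0)]⟩,⟨0,[(10,0)]⟩) .k 0 (⟨0,[]⟩,⟨0,[]⟩)
  .k .k) (.I [1,0,0,-1,0,0,1] (.Q [0,1,0,0,0,0,0,0,-1] (.p false [0,0,0,1] [] (⟨0,[(13,0)]⟩,⟨0,[(12,
  0)]⟩) .k 0 (⟨0,[]⟩,⟨0,[]⟩) .k .k) (.Q [0,0,-1,-1,0,2,-1,-2,1] (.p true [0,0,0,1] [1] (⟨0,[(14,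
  0)]⟩,⟨0,[(13,0)]⟩) .k 1 (⟨0,[]⟩,⟨0,[]⟩) .k .k) (.R ⟨0,false,false,false,[1,0,0,-1],[0,1],[1,0,1,
  1],(⟨0,[(14,0)]⟩,⟨0,[(15,0)]⟩),(⟨0,[(19,0)]⟩,⟨0,[(18,0)]⟩),⟨0,[(0,0),(1,0),(3,1),(2,0)]⟩,.k,.k,
  (.r (-1) ⟨1,[(7,1),(4,0)]⟩ ⟨1,[(6,1),(6,0)]⟩),(.r (-1) ⟨1,[(7,1),(4,0)]⟩ ⟨1,[(6,1),(6,0)]⟩),.k,.k,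
  ⟨true,0,⟨0,[]⟩,⟨0,[(26,0)]⟩⟩,⟨false,0,⟨0,[(14,0),(6,0)]⟩,⟨1,[(15,1),(1,0),(7,0)]⟩⟩,⟨false,0,⟨7,
  [(2,3),(0,1),(0,1),(1,1),(3,1),(2,0),(6,7)]⟩,⟨1,[(7,1),(4,0)]⟩⟩,⟨true,(-1),⟨0,[(3,0),(6,0)]⟩,⟨0,
  [(0,0)]⟩⟩,⟨false,0,⟨0,[]⟩,⟨0,[]⟩⟩,⟨false,0,⟨0,[]⟩,⟨0,[]⟩⟩,[.o ⟨false,0,⟨0,[(23,0)]⟩,⟨1,[(2,1),(9,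
  0),(4,0)]⟩⟩,.a ⟨true,0,⟨0,[(10,0),(14,0)]⟩,⟨0,[(22,0)]⟩⟩ ⟨true,0,⟨0,[(20,0)]⟩,⟨0,[(22,0)]⟩⟩
  ⟨false,0,⟨0,[(14,0),(8,0)]⟩,⟨7,[(0,3),(1,1),(1,1),(8,0),(1,1),(1,0),(4,1)]⟩⟩,.o ⟨false,1,⟨3,[(4,
  1),(10,1),(1,0),(7,0)]⟩,⟨7,[(1,5),(3,1),(4,0),(0,2),(0,0),(9,0)]⟩⟩,.o ⟨false,1,⟨1,[(15,1),(1,0),
  (7,0)]⟩,⟨0,[(1,0)]⟩⟩]⟩) (.Q [0,0,0,0,1,0,0,-2,1] (.ed false [0,1,0,1] .k) (.R ⟨2,false,false,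
  false,[0,1],[-1,1,0,1],[1],(⟨0,[]⟩,⟨0,[]⟩),(⟨0,[(0,0)]⟩,⟨0,[(15,0),(3,0)]⟩),⟨0,[]⟩,.k,(.r 0 ⟨1,
  [(7,1),(6,0)]⟩ ⟨1,[(8,1),(4,0)]⟩),.k,.k,(.r (-1) ⟨1,[(8,1),(4,0)]⟩ ⟨1,[(7,1),(6,0)]⟩),.k,⟨true,1,
  ⟨1,[(8,1),(4,0)]⟩,⟨0,[(0,0),(0,0),(7,0)]⟩⟩,⟨false,0,⟨5,[(2,1),(3,1),(4,1),(1,0),(1,1),(7,1),(1,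
  0)]⟩,⟨3,[(5,1),(10,1),(1,0),(7,0)]⟩⟩,⟨false,1,⟨1,[(8,1),(17,0)]⟩,⟨3,[(7,3),(5,0),(0,0)]⟩⟩,⟨true,
  (-1),⟨0,[(1,0),(21,0)]⟩,⟨1,[(0,0),(4,0),(3,0),(3,0),(8,0)]⟩⟩,⟨false,1,⟨1,[(25,0),(0,0)]⟩,⟨0,[(27,
  0)]⟩⟩,⟨false,(-1),⟨0,[(1,0)]⟩,⟨1,[(8,1),(4,0),(2,1),(1,0),(7,0)]⟩⟩,[.o ⟨false,(-1),⟨0,[(1,0),(26,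
  0)]⟩,⟨1,[(5,1),(2,1),(3,1),(0,0)]⟩⟩,.o ⟨false,(-1),⟨0,[(1,0)]⟩,⟨1,[(8,1),(4,0),(2,1),(1,1)]⟩⟩,.a
  ⟨true,0,⟨0,[(10,0),(8,0)]⟩,⟨0,[(27,0)]⟩⟩ ⟨true,0,⟨0,[]⟩,⟨0,[(28,0)]⟩⟩ ⟨false,(-1),⟨0,[(1,0),(25,
  0)]⟩,⟨3,[(5,1),(2,3),(4,1),(2,1),(1,0),(7,0)]⟩⟩,.e ⟨false,1,⟨1,[(25,0),(0,0)]⟩,⟨0,[(27,0)]⟩⟩
  ⟨false,(-1),⟨0,[(1,0)]⟩,⟨1,[(8,1),(4,0),(2,1),(1,0),(7,0)]⟩⟩]⟩) (.Q [0,-1,-1,0,0,2,-1,0,1] (.p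
  true [0,0,0,1] [] (⟨0,[(16,0)]⟩,⟨0,[(15,0)]⟩) .k 0 (⟨0,[]⟩,⟨0,[]⟩) .k .k) (.R ⟨1,false,false,
  false,[1,0,0,-1],[0,1],[1,0,1,1],(⟨0,[(16,0)]⟩,⟨0,[(17,0)]⟩),(⟨0,[(21,0)]⟩,⟨0,[(20,0)]⟩),⟨0,[(1,
  0)]⟩,.k,.k,(.r (-1) ⟨1,[(9,1),(4,0)]⟩ ⟨1,[(8,1),(6,0)]⟩),(.r (-1) ⟨1,[(9,1),(4,0)]⟩ ⟨1,[(8,1),(6,
  0)]⟩),(.r (-2) ⟨3,[(9,7),(4,2),(0,0)]⟩ ⟨1,[(2,1),(5,1),(8,1),(1,0)]⟩),.k,⟨true,0,⟨0,[]⟩,⟨0,[(28,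
  0)]⟩⟩,⟨false,0,⟨0,[(16,0),(6,0)]⟩,⟨1,[(17,1),(1,0),(7,0)]⟩⟩,⟨false,0,⟨10,[(2,4),(1,1),(1,2),(6,1),
  (1,1),(1,1),(4,7)]⟩,⟨1,[(9,1),(4,0)]⟩⟩,⟨false,(-1),⟨0,[(2,0)]⟩,⟨1,[(0,1),(3,1),(9,0),(4,0)]⟩⟩,
  ⟨true,(-1),⟨3,[(2,1),(1,1),(1,1),(1,5),(3,1),(6,0)]⟩,⟨1,[(9,1),(4,0),(9,1)]⟩⟩,⟨false,(-1),⟨0,[(2,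
  0),(22,0)]⟩,⟨0,[(0,0),(8,1),(3,0)]⟩⟩,[.o ⟨false,0,⟨0,[(25,0)]⟩,⟨1,[(4,1),(9,0),(4,0)]⟩⟩,.a ⟨true,
  0,⟨0,[(12,0),(14,0)]⟩,⟨0,[(24,0)]⟩⟩ ⟨true,0,⟨0,[(22,0)]⟩,⟨0,[(24,0)]⟩⟩ ⟨false,0,⟨1,[(2,1),(11,0),
  (11,0)]⟩,⟨2,[(0,0),(3,0),(1,0),(10,0),(1,0),(4,1)]⟩⟩,.o ⟨false,1,⟨3,[(6,1),(10,1),(1,0),(7,0)]⟩,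
  ⟨7,[(3,5),(3,1),(4,0),(0,2),(0,0),(9,0)]⟩⟩,.o ⟨false,1,⟨1,[(17,1),(1,0),(7,0)]⟩,⟨0,[(3,0)]⟩⟩]⟩)
  (.R ⟨1,true,false,false,[1,0,0,-1],[0,0,0,1],[1,0,0,0,0,0,1],(⟨0,[(16,0)]⟩,⟨0,[(17,0)]⟩),(⟨0,[(17,
  0)]⟩,⟨0,[(16,0)]⟩),⟨0,[(1,0)]⟩,.k,.k,(.r (-1) ⟨1,[(9,1),(4,0)]⟩ ⟨1,[(8,1),(6,0)]⟩),.k,(.r (-2) ⟨3,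
  [(9,3),(4,4),(0,0)]⟩ ⟨14,[(0,10),(1,15),(1,0),(1,10),(6,4),(1,0),(1,15)]⟩),.k,⟨true,0,⟨0,[]⟩,⟨0,
  [(28,0)]⟩⟩,⟨false,(-1),⟨3,[(0,5),(8,1),(2,1),(1,2),(1,1)]⟩,⟨3,[(6,3),(7,0),(0,0),(1,3),(9,1)]⟩⟩,
  ⟨false,0,⟨10,[(2,7),(1,11),(1,6),(6,0),(1,0),(1,0),(4,3)]⟩,⟨0,[(14,0)]⟩⟩,⟨true,(-2),⟨0,[(0,0),(1,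
  0),(21,0)]⟩,⟨0,[(6,0),(7,0),(2,0)]⟩⟩,⟨true,(-1),⟨0,[(0,0),(1,0),(3,0),(10,0)]⟩,⟨0,[(14,0),(9,
  0)]⟩⟩,⟨false,(-2),⟨0,[(0,0),(1,0)]⟩,⟨3,[(6,1),(2,3),(4,3),(2,5),(1,0),(7,2)]⟩⟩,[]⟩)))) (.R ⟨0,
  false,false,false,[1,0,0,-1],[2,-1,0,-1],[1,0,1],(⟨0,[(13,0)]⟩,⟨0,[(14,0)]⟩),(⟨0,[(13,0),(3,0)]⟩,
  ⟨1,[(0,1),(7,1),(0,0),(0,0),(5,0),(4,0)]⟩),⟨1,[(0,1),(7,1),(0,0),(0,0),(5,0),(4,0)]⟩,.k,(.r (-1)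
  ⟨1,[(6,1),(4,0)]⟩ ⟨1,[(5,1),(6,0)]⟩),(.r (-1) ⟨1,[(6,1),(4,0)]⟩ ⟨1,[(5,1),(6,0)]⟩),.k,.k,.k,⟨true,
  (-1),⟨0,[(1,0),(3,1)]⟩,⟨1,[(6,1),(4,0)]⟩⟩,⟨false,1,⟨3,[(11,0),(0,0),(3,1)]⟩,⟨0,[(8,0),(8,0)]⟩⟩,
  ⟨false,0,⟨0,[(1,0),(17,0)]⟩,⟨1,[(11,0),(11,0)]⟩⟩,⟨true,1,⟨1,[(1,1),(9,0),(4,0)]⟩,⟨0,[(9,0)]⟩⟩,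
  ⟨false,0,⟨0,[]⟩,⟨0,[]⟩⟩,⟨false,0,⟨0,[]⟩,⟨0,[]⟩⟩,[.o ⟨false,2,⟨1,[(0,1),(5,1),(4,0),(4,1)]⟩,⟨0,[(2,
  0),(6,0)]⟩⟩,.e ⟨false,1,⟨3,[(11,0),(0,0),(11,1)]⟩,⟨0,[(20,0)]⟩⟩ ⟨false,2,⟨1,[(6,1),(4,0),(4,0),(7,
  0)]⟩,⟨7,[(1,3),(0,1),(0,1),(1,1),(3,9),(2,0)]⟩⟩,.o ⟨false,1,⟨3,[(3,1),(10,1),(1,0),(7,0)]⟩,⟨1,[(9,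
  0),(0,0),(2,1),(2,0),(4,0)]⟩⟩,.a ⟨true,0,⟨0,[(0,0)]⟩,⟨0,[(13,0),(12,0)]⟩⟩ ⟨true,0,⟨0,[]⟩,⟨0,[(26,
  0)]⟩⟩ ⟨false,2,⟨1,[(6,1),(4,0),(4,0),(7,0)]⟩,⟨0,[(1,0),(7,0),(9,0)]⟩⟩]⟩)) (.I [0,0,0,0,0,0,1] (.Q
  [0,0,-1,1,0,0,-1,0,1] (.p true [0,0,0,1] [] (⟨0,[(14,0)]⟩,⟨0,[(13,0)]⟩) .k 0 (⟨0,[]⟩,⟨0,[]⟩) .k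
  .k) (.R ⟨2,true,false,false,[0,1],[0,0,0,1],[0,0,1,0,0,0,1],(⟨0,[]⟩,⟨0,[]⟩),(⟨0,[(15,0)]⟩,⟨0,[(14,
  0)]⟩),⟨0,[]⟩,.k,.k,.k,(.r 0 ⟨1,[(6,1),(5,0)]⟩ ⟨1,[(7,1),(5,0)]⟩),.k,.k,⟨true,0,⟨0,[(26,0)]⟩,⟨0,
  []⟩⟩,⟨false,0,⟨0,[(2,0),(0,0),(18,0)]⟩,⟨3,[(4,1),(4,1),(5,1),(2,1),(5,0),(0,0)]⟩⟩,⟨false,1,⟨0,[(1,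
  0),(20,0),(2,0)]⟩,⟨0,[(2,0)]⟩⟩,⟨true,0,⟨0,[(3,0),(18,0)]⟩,⟨0,[(0,0)]⟩⟩,⟨true,0,⟨0,[(1,0)]⟩,⟨0,[(2,
  0),(19,0)]⟩⟩,⟨false,0,⟨0,[(3,0)]⟩,⟨3,[(0,1),(6,1),(4,0),(2,1),(9,1)]⟩⟩,[]⟩) (.Q [0,-2,-1,1,0,2,-1,
  0,1] (.p true [0,0,0,1] [] (⟨0,[(15,0)]⟩,⟨0,[(14,0)]⟩) .k 0 (⟨0,[]⟩,⟨0,[]⟩) .k .k) (.R ⟨0,false,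
  false,false,[0,0,0,1],[0,1],[0,1,1],(⟨0,[(16,0)]⟩,⟨0,[(15,0)]⟩),(⟨0,[(20,0)]⟩,⟨0,[(19,0)]⟩),⟨0,
  [(1,0),(1,0),(6,0)]⟩,.k,.k,(.r (-1) ⟨1,[(8,1),(5,0)]⟩ ⟨1,[(7,1),(5,0)]⟩),(.r (-1) ⟨1,[(8,1),(5,
  0)]⟩ ⟨1,[(7,1),(5,0)]⟩),.k,.k,⟨true,0,⟨0,[(23,0)]⟩,⟨0,[(21,0)]⟩⟩,⟨false,1,⟨0,[(5,0),(4,0),(8,0)]⟩,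
  ⟨1,[(1,0),(2,0),(6,0),(0,0),(0,0),(14,0)]⟩⟩,⟨true,0,⟨1,[(11,0),(0,0),(0,0),(9,0)]⟩,⟨0,[(1,0),(3,
  0),(5,0)]⟩⟩,⟨false,1,⟨0,[(0,0)]⟩,⟨0,[(1,0),(26,0)]⟩⟩,⟨false,0,⟨0,[]⟩,⟨0,[]⟩⟩,⟨false,0,⟨0,[]⟩,⟨0,
  []⟩⟩,[.o ⟨false,0,⟨0,[(24,0)]⟩,⟨1,[(18,0),(4,1),(2,0)]⟩⟩,.a ⟨true,0,⟨0,[(11,0),(14,0)]⟩,⟨0,[(23,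
  0)]⟩⟩ ⟨true,0,⟨0,[(27,0)]⟩,⟨0,[]⟩⟩ ⟨false,1,⟨0,[(5,0),(5,0),(14,0)]⟩,⟨0,[(1,0),(1,0),(19,0),(4,
  0)]⟩⟩,.o ⟨false,0,⟨0,[(1,0),(1,0),(24,0)]⟩,⟨3,[(5,1),(10,1),(1,0),(7,0)]⟩⟩,.o ⟨false,0,⟨1,[(1,0),
  (2,0),(6,0),(0,0),(0,0),(14,0)]⟩,⟨0,[(5,0)]⟩⟩]⟩) (.R ⟨0,false,false,false,[0,1,0,-1],[0,1],[0,1,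
  1],(⟨0,[(1,0),(1,0),(6,0)]⟩,⟨0,[(16,0),(2,0)]⟩),(⟨0,[(20,0)]⟩,⟨0,[(19,0)]⟩),⟨0,[(16,0)]⟩,(.r 0 ⟨1,
  [(7,1),(5,0)]⟩ ⟨1,[(8,1),(5,0)]⟩),.k,.k,.k,.k,.k,⟨true,0,⟨0,[(23,0)]⟩,⟨0,[(21,0)]⟩⟩,⟨false,0,⟨2,
  [(0,0),(2,0),(11,1),(2,0),(3,0)]⟩,⟨1,[(16,1),(8,0),(0,0)]⟩⟩,⟨true,0,⟨3,[(0,1),(7,1),(5,0),(1,1)]⟩,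
  ⟨0,[(3,0)]⟩⟩,⟨false,0,⟨0,[(4,0)]⟩,⟨1,[(3,1),(4,1),(7,1),(9,0)]⟩⟩,⟨false,0,⟨0,[]⟩,⟨0,[]⟩⟩,⟨false,0,
  ⟨0,[]⟩,⟨0,[]⟩⟩,[.o ⟨false,0,⟨0,[(24,0)]⟩,⟨1,[(18,0),(4,1),(2,0)]⟩⟩,.a ⟨true,0,⟨0,[(11,0),(14,0)]⟩,
  ⟨0,[(23,0)]⟩⟩ ⟨true,0,⟨0,[(27,0)]⟩,⟨0,[]⟩⟩ ⟨false,0,⟨0,[(3,0),(0,0)]⟩,⟨1,[(8,1),(7,1),(8,0)]⟩⟩,.o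
  ⟨false,1,⟨3,[(5,1),(4,1),(5,1),(2,1),(5,0),(0,0)]⟩,⟨3,[(0,1),(2,1),(0,1),(7,1),(0,0),(4,0)]⟩⟩,.o
  ⟨false,1,⟨1,[(16,1),(8,0),(0,0)]⟩,⟨1,[(0,0),(0,0),(1,1),(14,0)]⟩⟩]⟩))) (.R ⟨2,false,false,false,
  [0,1],[0,0,0,1],[1],(⟨0,[]⟩,⟨0,[]⟩),(⟨0,[(14,0)]⟩,⟨0,[(13,0)]⟩),⟨0,[]⟩,.k,.k,.k,(.r 0 ⟨1,[(5,1),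
  (5,0)]⟩ ⟨1,[(6,1),(5,0)]⟩),.k,.k,⟨true,0,⟨0,[(0,0)]⟩,⟨0,[(2,0),(11,0)]⟩⟩,⟨false,0,⟨0,[(1,0),(0,0),
  (18,0)]⟩,⟨3,[(3,1),(4,1),(5,1),(2,1),(5,0),(0,0)]⟩⟩,⟨false,1,⟨1,[(6,1),(17,0)]⟩,⟨3,[(5,3),(5,0),
  (0,0)]⟩⟩,⟨true,0,⟨0,[(2,0),(18,0)]⟩,⟨1,[(0,0),(0,0),(1,0),(5,0),(4,0)]⟩⟩,⟨false,1,⟨1,[(23,0),(0,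
  0)]⟩,⟨0,[(25,0)]⟩⟩,⟨false,0,⟨0,[(2,0)]⟩,⟨2,[(0,0),(2,0),(4,0),(2,0),(2,1),(2,0),(6,0)]⟩⟩,[.o
  ⟨false,0,⟨0,[(2,0),(23,0)]⟩,⟨7,[(0,5),(2,5),(6,1),(0,0),(2,1),(9,0)]⟩⟩,.o ⟨false,0,⟨0,[(2,0)]⟩,⟨2,
  [(0,0),(2,0),(7,0),(2,1),(1,0),(3,0)]⟩⟩,.a ⟨true,0,⟨0,[(8,0),(8,0)]⟩,⟨0,[(25,0)]⟩⟩ ⟨true,0,⟨0,[]⟩,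
  ⟨0,[(26,0)]⟩⟩ ⟨false,0,⟨1,[(2,0),(1,0),(5,0)]⟩,⟨5,[(0,3),(2,3),(4,3),(2,0),(2,1),(2,3),(6,0)]⟩⟩,
  .e ⟨false,1,⟨1,[(23,0),(0,0)]⟩,⟨0,[(25,0)]⟩⟩ ⟨false,0,⟨0,[(2,0)]⟩,⟨2,[(0,0),(2,0),(4,0),(2,0),(2,
  1),(2,0),(6,0)]⟩⟩]⟩))) (.Q [0,1,0,0,0,0,0,0,-1] (.p false [0,0,0,1] [] (⟨0,[(12,0)]⟩,⟨0,[(11,
  0)]⟩) .k 0 (⟨0,[]⟩,⟨0,[]⟩) .k .k) (.Q [0,0,0,0,1,0,0,-2,1] (.ed false [0,1,0,1] .k) (.I [0,1,1,1,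
  0,-2,-1] (.Q [0,1,1,0,0,-2,0,4,-1] (.p false [-1,1,0,1] [1] (⟨0,[(1,0)]⟩,⟨0,[(14,0),(3,0)]⟩) (.r
  0 ⟨1,[(6,1),(6,0)]⟩ ⟨1,[(7,1),(4,0)]⟩) 1 (⟨0,[]⟩,⟨0,[]⟩) .k .k) (.K ⟨0,[2,-1,0,-1],1,1,(⟨0,[(15,
  0),(3,0)]⟩,⟨0,[(2,0)]⟩),(.r (-1) ⟨1,[(8,1),(4,0)]⟩ ⟨1,[(7,1),(6,0)]⟩),(.r (-1) ⟨1,[(1,1),(6,5),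
  (17,0)]⟩ ⟨0,[(1,0),(12,0),(6,0)]⟩),.k,.k,.k,[⟨0,[(0,0)]⟩,⟨3,[(5,1),(6,3),(3,1),(1,0),(7,0)]⟩,⟨2,
  [(0,1),(0,0),(1,0),(7,1),(2,1)]⟩,⟨0,[(1,0),(3,0),(2,1),(3,0)]⟩]⟩) (.Q [0,-1,-1,-1,0,2,-1,-2,1]
  (.p true [0,0,0,1] [1] (⟨0,[(16,0)]⟩,⟨0,[(15,0)]⟩) .k 1 (⟨0,[]⟩,⟨0,[]⟩) .k .k) (.R ⟨0,false,false,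
  false,[1,0,0,-1],[0,1],[1,0,1,1],(⟨0,[(16,0)]⟩,⟨0,[(17,0)]⟩),(⟨0,[(21,0)]⟩,⟨0,[(20,0)]⟩),⟨0,[(3,
  0)]⟩,.k,.k,(.r (-1) ⟨1,[(9,1),(4,0)]⟩ ⟨1,[(8,1),(6,0)]⟩),(.r (-1) ⟨1,[(9,1),(4,0)]⟩ ⟨1,[(8,1),(6,
  0)]⟩),.k,.k,⟨true,0,⟨0,[]⟩,⟨0,[(28,0)]⟩⟩,⟨false,0,⟨0,[(16,0),(6,0)]⟩,⟨19,[(1,7),(11,3),(0,2),(0,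
  2),(1,11),(9,5)]⟩⟩,⟨true,0,⟨1,[(8,1),(6,0)]⟩,⟨0,[(2,0),(6,1)]⟩⟩,⟨false,0,⟨0,[(7,0),(17,0)]⟩,⟨0,
  [(0,0)]⟩⟩,⟨false,0,⟨0,[]⟩,⟨0,[]⟩⟩,⟨false,0,⟨0,[]⟩,⟨0,[]⟩⟩,[.o ⟨false,0,⟨0,[(25,0)]⟩,⟨1,[(19,0),(4,
  1),(2,0)]⟩⟩,.a ⟨true,0,⟨0,[(12,0),(14,0)]⟩,⟨0,[(24,0)]⟩⟩ ⟨true,0,⟨0,[(22,0)]⟩,⟨0,[(24,0)]⟩⟩
  ⟨false,0,⟨0,[(16,0),(8,0)]⟩,⟨5,[(0,1),(5,1),(8,0),(1,1),(1,0),(4,3)]⟩⟩,.o ⟨false,1,⟨11,[(1,3),(4,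
  3),(7,0),(0,0),(1,3),(9,1)]⟩,⟨9,[(2,0),(1,6),(2,2),(5,2),(0,0),(9,0),(4,0)]⟩⟩,.o ⟨false,1,⟨19,[(1,
  7),(11,3),(0,2),(0,2),(1,11),(9,5)]⟩,⟨0,[(4,0)]⟩⟩]⟩) (.R ⟨0,false,false,false,[1,0,0,-1],[0,1],[0,
  1,1],(⟨0,[(16,0)]⟩,⟨0,[(17,0)]⟩),(⟨0,[(21,0)]⟩,⟨0,[(20,0)]⟩),⟨0,[(3,0)]⟩,.k,.k,(.r (-1) ⟨1,[(9,1),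
  (4,0)]⟩ ⟨1,[(8,1),(6,0)]⟩),(.r (-1) ⟨1,[(9,1),(4,0)]⟩ ⟨1,[(8,1),(6,0)]⟩),.k,.k,⟨true,0,⟨0,[(24,
  0)]⟩,⟨0,[(22,0)]⟩⟩,⟨false,0,⟨0,[(16,0),(6,0)]⟩,⟨19,[(1,7),(11,3),(0,2),(0,2),(1,11),(9,5)]⟩⟩,
  ⟨false,0,⟨1,[(0,1),(2,1),(5,1),(0,1),(16,0)]⟩,⟨3,[(1,1),(3,1),(8,0),(1,3),(10,0)]⟩⟩,⟨true,(-1),⟨0,
  [(0,0)]⟩,⟨9,[(1,3),(3,3),(3,5),(3,1),(0,2),(2,1),(6,3)]⟩⟩,⟨false,0,⟨0,[]⟩,⟨0,[]⟩⟩,⟨false,0,⟨0,[]⟩,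
  ⟨0,[]⟩⟩,[.o ⟨false,0,⟨0,[(25,0)]⟩,⟨1,[(19,0),(4,1),(2,0)]⟩⟩,.a ⟨true,0,⟨0,[(12,0),(14,0)]⟩,⟨0,
  [(24,0)]⟩⟩ ⟨true,0,⟨0,[(28,0)]⟩,⟨0,[]⟩⟩ ⟨false,0,⟨0,[(16,0),(8,0)]⟩,⟨7,[(1,3),(7,3),(4,0),(0,0),
  (1,3),(6,3)]⟩⟩,.o ⟨false,1,⟨11,[(1,3),(4,3),(7,0),(0,0),(1,3),(9,1)]⟩,⟨5,[(0,0),(3,3),(2,0),(5,1),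
  (0,0),(9,0)]⟩⟩,.o ⟨false,1,⟨19,[(1,7),(11,3),(0,2),(0,2),(1,11),(9,5)]⟩,⟨0,[(4,0)]⟩⟩]⟩))) (.Q [0,
  1,1,-1,0,0,1,0,-1] (.p false [0,0,0,1] [] (⟨0,[(15,0)]⟩,⟨0,[(14,0)]⟩) .k 0 (⟨0,[]⟩,⟨0,[]⟩) .k .k)
  (.R ⟨0,false,false,false,[1,0,0,-1],[1,-1],[1,0,-1,-1],(⟨0,[(15,0)]⟩,⟨0,[(16,0)]⟩),(⟨0,[(19,0)]⟩,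
  ⟨0,[(20,0)]⟩),⟨0,[(2,0)]⟩,.k,.k,(.r (-1) ⟨1,[(8,1),(4,0)]⟩ ⟨1,[(7,1),(6,0)]⟩),(.r 0 ⟨1,[(7,1),(5,
  0)]⟩ ⟨1,[(8,1),(5,0)]⟩),.k,.k,⟨true,0,⟨0,[]⟩,⟨0,[(27,0)]⟩⟩,⟨false,0,⟨5,[(0,0),(2,3),(2,0),(4,0),
  (0,1),(0,0)]⟩,⟨2,[(1,0),(2,0),(0,0),(5,0),(4,0),(8,0),(0,0)]⟩⟩,⟨false,1,⟨0,[(1,0)]⟩,⟨1,[(7,1),(5,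
  0)]⟩⟩,⟨true,0,⟨0,[(0,0)]⟩,⟨0,[(4,0),(19,0)]⟩⟩,⟨false,0,⟨0,[]⟩,⟨0,[]⟩⟩,⟨false,0,⟨0,[]⟩,⟨0,[]⟩⟩,[.o
  ⟨false,1,⟨5,[(1,1),(6,1),(3,1),(0,0),(4,1),(4,1)]⟩,⟨0,[(24,0)]⟩⟩,.a ⟨true,1,⟨0,[(23,0),(2,0)]⟩,⟨0,
  [(11,0)]⟩⟩ ⟨true,1,⟨1,[(8,1),(17,0)]⟩,⟨0,[(11,0),(0,0)]⟩⟩ ⟨false,1,⟨3,[(0,1),(2,1),(4,1),(4,0),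
  (12,1)]⟩,⟨1,[(5,0),(5,0),(4,0),(7,0)]⟩⟩,.o ⟨false,1,⟨3,[(5,1),(10,1),(1,0),(7,0)]⟩,⟨5,[(0,0),(2,
  3),(2,0),(4,0),(0,1),(0,0)]⟩⟩,.o ⟨false,1,⟨1,[(16,1),(1,0),(7,0)]⟩,⟨0,[(3,0)]⟩⟩]⟩) (.I [0,0,2,2,0,
  -2,-1] (.R ⟨2,true,false,true,[0,1],[0,0,0,1],[0,1],(⟨0,[]⟩,⟨0,[]⟩),(⟨0,[(17,0)]⟩,⟨0,[(16,0)]⟩),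
  ⟨0,[]⟩,.k,.k,.k,(.r 0 ⟨7,[(0,3),(13,2),(0,0)]⟩ ⟨1,[(9,1),(5,0)]⟩),.k,.k,⟨true,0,⟨0,[(0,0),(8,1)]⟩,
  ⟨0,[(2,0),(9,0),(0,0)]⟩⟩,⟨false,0,⟨10,[(0,0),(3,7),(2,2),(5,2),(0,0),(9,1),(4,0)]⟩,⟨1,[(1,0),(0,
  0),(14,0),(8,0)]⟩⟩,⟨false,1,⟨3,[(9,3),(4,0),(0,0)]⟩,⟨0,[(22,0)]⟩⟩,⟨true,0,⟨0,[(2,0),(1,0),(7,0),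
  (0,0),(10,0)]⟩,⟨0,[(1,0)]⟩⟩,⟨true,0,⟨0,[(23,0)]⟩,⟨0,[(28,0)]⟩⟩,⟨false,0,⟨0,[(2,0),(1,0),(7,0),(0,
  0)]⟩,⟨0,[(5,0),(21,0)]⟩⟩,[]⟩) (.R ⟨2,true,false,true,[0,1],[0,0,0,1],[0,0,1,1],(⟨0,[]⟩,⟨0,[]⟩),
  (⟨0,[(17,0)]⟩,⟨0,[(16,0)]⟩),⟨0,[]⟩,.k,.k,.k,(.r 0 ⟨1,[(8,1),(5,0)]⟩ ⟨7,[(0,3),(13,0),(0,2)]⟩),.k,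
  .k,⟨true,0,⟨0,[(1,0),(11,0),(2,0)]⟩,⟨0,[(0,0),(11,0),(0,0)]⟩⟩,⟨false,0,⟨7,[(4,5),(2,1),(4,0),(0,
  2),(0,0),(9,0)]⟩,⟨1,[(1,0),(0,0),(14,0),(8,0)]⟩⟩,⟨false,1,⟨3,[(14,0),(0,0),(11,1)]⟩,⟨0,[]⟩⟩,⟨true,
  0,⟨7,[(0,3),(3,5),(2,1),(4,4),(0,6),(1,0),(8,4)]⟩,⟨0,[(1,0)]⟩⟩,⟨true,0,⟨0,[(25,0)]⟩,⟨0,[(24,0)]⟩⟩,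
  ⟨false,0,⟨7,[(0,3),(3,5),(2,1),(0,5),(3,1),(0,3),(1,0)]⟩,⟨0,[(5,0),(21,0)]⟩⟩,[]⟩)))) (.I [1,0,0,1,
  0,0,1] (.R ⟨2,true,false,false,[0,1],[0,1,0,1],[1,0,1,1,0,0,1],(⟨0,[]⟩,⟨0,[]⟩),(⟨0,[(15,0),(3,
  0)]⟩,⟨0,[(1,0)]⟩),⟨0,[]⟩,.k,(.r 0 ⟨1,[(6,1),(6,0)]⟩ ⟨1,[(7,1),(4,0)]⟩),.k,.k,(.r (-1) ⟨1,[(7,1),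
  (4,0)]⟩ ⟨1,[(6,1),(6,0)]⟩),.k,⟨true,0,⟨0,[]⟩,⟨0,[(26,0)]⟩⟩,⟨false,0,⟨0,[(2,0)]⟩,⟨1,[(15,1),(8,0),
  (0,0)]⟩⟩,⟨false,1,⟨1,[(13,0),(11,0)]⟩,⟨0,[(1,0),(1,0),(5,0),(1,0)]⟩⟩,⟨true,0,⟨0,[(0,0),(0,0),(7,
  0),(1,0),(10,0)]⟩,⟨0,[(3,0)]⟩⟩,⟨true,0,⟨0,[(0,0)]⟩,⟨0,[(1,0),(1,0),(5,0),(1,0),(10,0)]⟩⟩,⟨false,0,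
  ⟨0,[(0,0),(0,0),(7,0),(1,0)]⟩,⟨0,[(3,0),(18,0),(2,0)]⟩⟩,[]⟩) (.S ⟨1,0,[0,1,0,0,0,0,-1],[1,0,0,-1],
  [1,0,0,-1,0,0,-1],(⟨0,[(14,0)]⟩,⟨0,[(15,0)]⟩),⟨0,[(1,0)]⟩,.k,(.r (-1) ⟨1,[(7,1),(4,0)]⟩ ⟨1,[(6,1),
  (6,0)]⟩),⟨false,1,⟨0,[(22,0),(2,0)]⟩,⟨0,[(23,0)]⟩⟩,⟨true,0,⟨0,[(27,0)]⟩,⟨0,[]⟩⟩,⟨true,0,⟨0,[]⟩,⟨0,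
  [(27,0)]⟩⟩,⟨false,0,⟨0,[(23,0)]⟩,⟨0,[(22,0),(2,0)]⟩⟩,[.a ⟨true,0,⟨0,[(3,0)]⟩,⟨0,[(5,0)]⟩⟩ ⟨true,0,
  ⟨0,[(0,0)]⟩,⟨1,[(6,1),(6,0)]⟩⟩ ⟨false,0,⟨0,[(2,0),(0,0)]⟩,⟨1,[(13,0),(11,0)]⟩⟩,.e ⟨false,1,⟨1,[(0,
  1),(23,0),(0,0)]⟩,⟨1,[(10,1),(2,0),(3,0)]⟩⟩ ⟨false,0,⟨2,[(0,2),(0,0),(0,0),(1,1),(1,1),(2,0),(0,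
  0)]⟩,⟨3,[(12,0),(0,2)]⟩⟩,.o ⟨false,1,⟨3,[(4,1),(10,1),(1,0),(7,0)]⟩,⟨7,[(2,5),(2,1),(4,0),(0,2),
  (0,0),(9,0)]⟩⟩,.o ⟨false,1,⟨1,[(15,1),(1,0),(7,0)]⟩,⟨0,[(2,0)]⟩⟩]⟩))) (.K ⟨0,[0,0,0,1],0,0,(⟨0,
  [(13,0)]⟩,⟨0,[(12,0)]⟩),.k,(.r (-1) ⟨1,[(5,1),(5,0)]⟩ ⟨1,[(4,1),(5,0)]⟩),(.r 0 ⟨1,[(4,1),(6,0)]⟩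
  ⟨1,[(5,1),(4,0)]⟩),.k,.k,[⟨0,[(0,0)]⟩,⟨0,[(9,0),(2,0),(12,0)]⟩,⟨0,[(1,0)]⟩,⟨0,[(3,0),(4,0),(6,0),
  (4,0)]⟩]⟩)))

def t1 : Tre :=
  (.I [0,0,1,1,0,-1] (.K ⟨0,[0,0,1],0,0,(⟨0,[(9,0)]⟩,⟨0,[(9,0)]⟩),.k,(.r (-1) ⟨3,[(5,0),(0,0),(8,3),
  (1,1),(0,1)]⟩ ⟨0,[(0,0)]⟩),(.r 1 ⟨0,[(0,0)]⟩ ⟨3,[(5,0),(0,0),(8,3),(1,1),(0,1)]⟩),.k,.k,[⟨1,[(7,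
  0),(0,0),(10,1)]⟩,⟨1,[(4,0)]⟩,⟨1,[(3,0),(11,0)]⟩,⟨7,[(5,0),(0,0),(3,1),(9,7)]⟩]⟩) (.I [0,0,-1,-1,
  0,1] (.K ⟨0,[0,0,1],0,0,(⟨0,[(10,0)]⟩,⟨0,[(10,0)]⟩),.k,(.r 0 ⟨0,[(0,0)]⟩ ⟨11,[(4,3),(0,3),(0,4),
  (0,4),(6,3),(2,3)]⟩),(.r 0 ⟨11,[(4,3),(0,3),(0,4),(0,4),(6,3),(2,3)]⟩ ⟨0,[(0,0)]⟩),.k,.k,[⟨1,[(8,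
  0),(0,0),(10,1)]⟩,⟨1,[(5,0)]⟩,⟨1,[(4,0),(11,0)]⟩,⟨7,[(6,0),(0,0),(3,1),(9,7)]⟩]⟩) (.Q [0,0,-1,0,0,
  0,-1,-2,1] (.p true [0,0,0,1] [1] (⟨0,[(9,0)]⟩,⟨0,[(8,0)]⟩) .k 1 (⟨0,[]⟩,⟨0,[]⟩) .k .k) (.R ⟨2,
  true,false,true,[0,1],[1,0,0,-1],[1,1,0,0,0,0,-1],(⟨0,[]⟩,⟨0,[]⟩),(⟨0,[(9,0)]⟩,⟨0,[(10,0)]⟩),⟨0,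
  []⟩,.k,.k,.k,(.r 0 ⟨1,[(1,1),(6,0)]⟩ ⟨1,[(2,1),(4,0)]⟩),.k,.k,⟨true,0,⟨0,[]⟩,⟨0,[(21,0)]⟩⟩,⟨false,
  1,⟨1,[(0,1),(7,0),(11,0)]⟩,⟨0,[(9,0),(12,0)]⟩⟩,⟨true,0,⟨0,[(0,0),(8,0),(7,0)]⟩,⟨1,[(1,1),(6,0)]⟩⟩,
  ⟨false,1,⟨0,[(0,0),(16,0),(2,0)]⟩,⟨1,[(1,1),(6,0),(0,1)]⟩⟩,⟨false,0,⟨0,[(0,0),(8,0)]⟩,⟨1,[(8,0),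
  (11,0),(0,1)]⟩⟩,⟨true,0,⟨0,[(0,0)]⟩,⟨1,[(5,0),(0,0),(1,0),(0,1),(7,0)]⟩⟩,[]⟩) (.Q [0,1,2,0,0,-2,0,
  2,-1] (.p false [0,0,0,1] [1] (⟨0,[(10,0)]⟩,⟨0,[(9,0)]⟩) .k 1 (⟨0,[]⟩,⟨0,[]⟩) .k .k) (.Q [0,2,1,0,
  0,-2,1,2,-1] (.p false [0,0,0,1] [1] (⟨0,[(11,0)]⟩,⟨0,[(10,0)]⟩) .k 1 (⟨0,[]⟩,⟨0,[]⟩) .k .k) (.Q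
  [0,0,-1,0,0,2,-1,-2,1] (.p true [0,0,0,1] [1] (⟨0,[(12,0)]⟩,⟨0,[(11,0)]⟩) .k 1 (⟨0,[]⟩,⟨0,[]⟩) .k
  .k) (.K ⟨0,[1,0,0,-1],1,1,(⟨0,[(12,0)]⟩,⟨0,[(13,0)]⟩),.k,(.r (-1) ⟨1,[(5,1),(4,0)]⟩ ⟨1,[(4,1),(6,
  0)]⟩),(.r 0 ⟨1,[(4,1),(5,0)]⟩ ⟨1,[(5,1),(5,0)]⟩),.k,.k,[⟨0,[(2,0)]⟩,⟨1,[(13,1),(1,0),(7,0)]⟩,⟨0,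
  [(1,0)]⟩,⟨0,[(0,0)]⟩]⟩) (.Q [0,-1,-2,0,0,2,0,0,1] (.p true [0,0,0,1] [] (⟨0,[(13,0)]⟩,⟨0,[(12,
  0)]⟩) .k 0 (⟨0,[]⟩,⟨0,[]⟩) .k .k) (.R ⟨0,false,false,true,[0,1,0,-1],[1,0,0,-1],[1,0,1,1,0,0,-1],
  (⟨1,[(1,1),(6,1),(2,0),(4,0)]⟩,⟨0,[(14,0),(2,0)]⟩),(⟨0,[(13,0)]⟩,⟨0,[(14,0)]⟩),⟨0,[(14,0)]⟩,(.r 0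
  ⟨1,[(5,1),(5,0)]⟩ ⟨1,[(6,1),(5,0)]⟩),.k,.k,.k,.k,.k,⟨true,0,⟨0,[(19,0)]⟩,⟨0,[(21,0)]⟩⟩,⟨false,1,
  ⟨3,[(11,0),(0,0),(3,1)]⟩,⟨0,[(8,0),(8,0)]⟩⟩,⟨true,0,⟨0,[]⟩,⟨0,[(26,0)]⟩⟩,⟨false,1,⟨1,[(16,0),(4,
  1),(2,0)]⟩,⟨0,[(9,0),(14,0)]⟩⟩,⟨false,0,⟨0,[]⟩,⟨0,[]⟩⟩,⟨false,0,⟨0,[]⟩,⟨0,[]⟩⟩,[.a ⟨true,1,⟨1,[(0,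
  0),(10,0),(2,0),(11,0)]⟩,⟨0,[(1,0)]⟩⟩ ⟨true,0,⟨1,[(5,1),(5,0)]⟩,⟨1,[(1,1),(4,1),(7,1),(1,0)]⟩⟩
  ⟨false,1,⟨1,[(11,0),(4,0),(9,1)]⟩,⟨0,[(0,0),(0,0)]⟩⟩,.e ⟨false,1,⟨1,[(11,0),(10,1),(1,0)]⟩,⟨1,[(1,
  1),(4,1),(7,1),(1,0),(3,1)]⟩⟩ ⟨false,1,⟨1,[(11,0),(4,0)]⟩,⟨1,[(0,1),(0,0),(0,0)]⟩⟩,.o ⟨false,1,⟨0,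
  [(0,0)]⟩,⟨0,[(3,0),(12,0)]⟩⟩,.e ⟨false,1,⟨1,[(11,0),(10,1),(1,0)]⟩,⟨1,[(1,1),(4,1),(7,1),(1,0)]⟩⟩
  ⟨false,1,⟨1,[(11,0),(4,0)]⟩,⟨3,[(0,1),(0,2),(2,0),(9,1),(9,0)]⟩⟩]⟩) (.K ⟨0,[0,0,0,1],(-1),(-1),
  (⟨0,[(14,0)]⟩,⟨0,[(13,0)]⟩),.k,(.r (-1) ⟨1,[(6,1),(5,0)]⟩ ⟨1,[(5,1),(5,0)]⟩),(.r 0 ⟨1,[(5,1),(6,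
  0)]⟩ ⟨1,[(6,1),(4,0)]⟩),.k,.k,[⟨3,[(11,0),(0,0),(1,3),(9,1)]⟩,⟨0,[(0,0)]⟩,⟨1,[(11,0),(2,1),(8,
  0)]⟩,⟨3,[(0,1),(0,2),(0,0),(11,1),(1,1),(3,3)]⟩]⟩))) (.I [1,1,0,0,0,0,1] (.Q [0,2,1,1,0,-2,1,2,
  -1] (.p false [0,0,0,1] [1] (⟨0,[(13,0)]⟩,⟨0,[(12,0)]⟩) .k 1 (⟨0,[]⟩,⟨0,[]⟩) .k .k) (.R ⟨2,true,
  false,false,[0,1],[1,0,0,-1],[1,1],(⟨0,[]⟩,⟨0,[]⟩),(⟨0,[(13,0)]⟩,⟨0,[(14,0)]⟩),⟨0,[]⟩,.k,.k,.k,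
  (.r 0 ⟨1,[(5,1),(6,0)]⟩ ⟨1,[(6,1),(4,0)]⟩),.k,.k,⟨true,0,⟨0,[(1,0)]⟩,⟨0,[(2,0),(0,0)]⟩⟩,⟨false,1,
  ⟨0,[(1,0),(0,0)]⟩,⟨5,[(0,1),(10,0),(1,3),(7,1),(1,0)]⟩⟩,⟨false,1,⟨3,[(6,3),(4,0),(0,0)]⟩,⟨1,[(5,
  1),(18,0)]⟩⟩,⟨true,1,⟨0,[(2,0),(18,0)]⟩,⟨0,[(0,0)]⟩⟩,⟨true,0,⟨0,[(20,0)]⟩,⟨13,[(3,1),(0,1),(5,3),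
  (0,0),(2,3),(9,0)]⟩⟩,⟨false,1,⟨0,[(2,0)]⟩,⟨5,[(0,1),(3,3),(6,0),(0,0),(8,1)]⟩⟩,[]⟩) (.K ⟨0,[2,-1,
  0,-1],1,1,(⟨0,[(13,0),(3,0)]⟩,⟨0,[(0,0),(0,0),(6,0),(0,0),(0,0)]⟩),(.r (-1) ⟨1,[(6,1),(4,0)]⟩ ⟨1,
  [(5,1),(6,0)]⟩),(.r (-1) ⟨7,[(0,5),(2,3),(2,9),(4,0),(1,1),(6,7)]⟩ ⟨3,[(5,7),(5,0),(0,2)]⟩),.k,.k,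
  .k,[⟨0,[(3,0),(4,0),(8,0)]⟩,⟨3,[(0,1),(4,1),(4,1),(1,0),(1,1),(1,1)]⟩,⟨0,[(4,0),(4,0),(16,0)]⟩,⟨0,
  [(0,0),(8,0),(6,0),(4,0)]⟩]⟩)) (.Q [0,0,0,0,-1,0,0,2,-1] (.ed true [0,1,0,1] .k) (.Q [0,-1,-1,0,0,
  2,0,-2,1] (.p true [0,0,0,1] [1] (⟨0,[(14,0)]⟩,⟨0,[(13,0)]⟩) .k 1 (⟨0,[]⟩,⟨0,[]⟩) .k .k) (.S ⟨1,0,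
  [0,1,0,0,0,0,-1],[1,0,0,-1],[1,0,0,-1,0,0,-1],(⟨0,[(14,0)]⟩,⟨0,[(15,0)]⟩),⟨0,[(1,0)]⟩,.k,(.r (-1)
  ⟨1,[(7,1),(4,0)]⟩ ⟨1,[(6,1),(6,0)]⟩),⟨false,1,⟨0,[(22,0),(2,0)]⟩,⟨0,[(23,0)]⟩⟩,⟨true,0,⟨0,[(27,
  0)]⟩,⟨0,[]⟩⟩,⟨true,0,⟨0,[]⟩,⟨0,[(27,0)]⟩⟩,⟨false,0,⟨0,[(23,0)]⟩,⟨0,[(22,0),(2,0)]⟩⟩,[.a ⟨true,0,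
  ⟨0,[(3,0),(6,0),(11,0)]⟩,⟨0,[(5,0)]⟩⟩ ⟨true,0,⟨0,[(2,0),(19,0)]⟩,⟨1,[(6,1),(6,0)]⟩⟩ ⟨false,0,⟨5,
  [(2,3),(7,1),(1,0),(4,0),(3,5),(0,1)]⟩,⟨1,[(13,0),(11,0)]⟩⟩,.e ⟨false,1,⟨3,[(2,1),(4,3),(4,0),(12,
  0)]⟩,⟨1,[(10,1),(2,0),(3,0)]⟩⟩ ⟨false,0,⟨0,[(2,0),(18,0)]⟩,⟨3,[(12,0),(0,2)]⟩⟩,.o ⟨false,1,⟨0,[(0,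
  0)]⟩,⟨1,[(4,0),(9,0),(2,0),(9,0)]⟩⟩,.o ⟨false,1,⟨11,[(0,7),(10,3),(0,0),(0,0),(1,3),(9,1)]⟩,⟨1,
  [(1,0),(2,0),(4,0),(7,0),(3,0)]⟩⟩]⟩) (.K ⟨0,[1,-1,0,-1],1,1,(⟨0,[(1,0)]⟩,⟨0,[(15,0),(3,0)]⟩),(.r
  (-1) ⟨1,[(7,1),(4,0)]⟩ ⟨1,[(6,1),(6,0)]⟩),(.r (-1) ⟨5,[(2,3),(4,9),(4,0),(8,1),(0,1)]⟩ ⟨3,[(6,7),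
  (5,0),(0,2)]⟩),.k,.k,.k,[⟨0,[(0,0)]⟩,⟨5,[(3,1),(7,3),(0,0),(0,1),(1,3),(9,0)]⟩,⟨1,[(0,1),(9,1),(2,
  0),(3,0)]⟩,⟨5,[(3,3),(8,0),(2,1),(1,0),(3,1),(0,5)]⟩]⟩)) (.K ⟨0,[2,-1,0,-1],1,1,(⟨0,[(13,0),(3,
  0)]⟩,⟨0,[(0,0)]⟩),(.r (-1) ⟨1,[(6,1),(4,0)]⟩ ⟨1,[(5,1),(6,0)]⟩),(.r (-1) ⟨5,[(1,3),(4,9),(4,0),(8,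
  1),(0,1)]⟩ ⟨3,[(5,7),(5,0),(0,2)]⟩),.k,.k,.k,[⟨0,[(3,0),(4,0),(8,0)]⟩,⟨3,[(0,1),(1,1),(4,1),(2,1),
  (1,0),(3,0)]⟩,⟨0,[(4,0),(4,0),(16,0)]⟩,⟨1,[(0,1),(0,1),(4,1),(0,1),(8,0),(3,1)]⟩]⟩)))) t0))))

def tree : Tre :=
  (.I [0,0,1,0,-1] (.K ⟨0,[0,0,1],0,0,(⟨0,[(7,0)]⟩,⟨0,[(7,0)]⟩),.k,(.x 0 ⟨0,[(0,0)]⟩ ⟨3,[(3,0),(0,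
  0),(5,3),(4,1)]⟩),(.x (-1) ⟨3,[(3,0),(0,0),(5,3),(4,1)]⟩ ⟨0,[(0,0)]⟩),.k,.k,[⟨1,[(5,0),(0,0),(10,
  1)]⟩,⟨1,[(2,0)]⟩,⟨1,[(1,0),(11,0)]⟩,⟨7,[(3,0),(0,0),(3,1),(9,7)]⟩]⟩) (.I [0,0,-1,0,1] (.K ⟨0,[0,0,
  1],0,0,(⟨0,[(8,0)]⟩,⟨0,[(8,0)]⟩),.k,(.x (-1) ⟨7,[(3,3),(0,2),(0,2),(3,1),(0,7)]⟩ ⟨0,[(0,0)]⟩),(.x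
  0 ⟨0,[(0,0)]⟩ ⟨7,[(3,3),(0,2),(0,2),(3,1),(0,7)]⟩),.k,.k,[⟨1,[(6,0),(0,0),(10,1)]⟩,⟨1,[(3,0)]⟩,⟨1,
  [(2,0),(11,0)]⟩,⟨7,[(4,0),(0,0),(3,1),(9,7)]⟩]⟩) t1))

theorem ok : chk (cPH (-1)) tree base = true := by
  decide +kernel

theorem closed {p a b c J l q : ℤ} {D dl : ℝ} {Cl : ℤ → ℤ → ℤ → ℤ → ℝ → Prop}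
    (W : World p a b c J (-1) l q D dl Cl) (hE : KEmp p a b (-1) (P1 l p) Cl)
    (g : G0 p a b c J D)
    {N R : ℤ} {I : ℝ} (hu : WFac p D Cl N R I) {N2 R2 : ℤ} {I2 : ℝ}
    (hw : UFac p (a + b) D Cl N2 R2 I2)
    (s0 : (1 : ℝ) ≤ c)
    (s1 : (b : ℝ) + 1 ≤ a)
    (s2 : (a : ℝ) ≤ b + c)
    (s3 : D < 2 * b)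
    (s4 : p - D - c < a) : False := by
  have g1 := g.a2
  have g2 := g.b2
  have g3 := g.pa
  have g4 := g.pb
  have g5 := g.J1
  have g6 := g.JD
  have g7 := g.D2
  have g8 := g.ca
  have g9 := g.ca'
  have i1 := hu.I0
  have i2 := hu.ID
  have i3 : (2 : ℝ) * R = p := by exact_mod_cast hu.R2
  have t2 := TF.ofU hw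
  have j1 := t2.I0
  have j2 := t2.ID
  have j3 := t2.R1
  have j4 := t2.R2
  refine (val_PH W.toBase hu hw).sound W rfl (Nk := 0) (fun kf hkf hh => ?_) (kok_B hE (by simp [xv]) (by simp [xv]) 0) ?_ ok
  · simp only [cPH, kfB, List.mem_cons, List.not_mem_nil, or_false] at hkf
    subst hkf
    exact absurd hh (by norm_num)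
  · simp only [base, List.forall_mem_cons, List.not_mem_nil, false_imp_iff, implies_true,
      and_true, hld, xv, evg_cons, evg_nil, List.map_cons, List.map_nil, List.cons_append,
      List.nil_append, if_true, if_false, Bool.false_eq_true]
    push_cast
    refine ⟨?_, ?_, ?_, ?_, ?_, ?_, ?_, ?_, ?_, ?_, ?_, ?_, ?_, ?_, ?_, ?_, ?_, ?_⟩ <;> linarith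

end Helper25.KG.P1_2_m1_1_v2_hab
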