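import Pool.Agent.Helper25.KG.PL

set_option autoImplicit false
set_option linter.unusedVariables false

namespace Helper25.KG.P1_35_1_0_u

open Helper11.CT Helper25.KW Helper25.KG

def base : List Con :=
  [(false,[0,1,0,1,0,0,0,-1]),
  (false,[0,0,2,0,-1,0,0,1]),
  (true,[0,0,0,0,1,0,-2]),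
  (true,[0,0,0,0,1,0,2]),
  (false,[0,0,0,0,0,0,0,1,-1]),
  (false,[0,0,0,0,0,0,0,0,1]),
  (false,[0,0,0,0,1,0,0,-2]),
  (false,[0,0,0,0,0,-1,0,1]),
  (true,[0,0,0,0,0,1]),
  (true,[0,2,-1]),
  (true,[1,-1,1]),
  (true,[0,1,0,-1]),
  (true,[0,0,0,1]),
  (true,[0,0,-2,0,1]),
  (true,[0,-2,0,0,1]),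
  (true,[-1,0,1]),
  (true,[-1,1])]

def t0 : Tre :=
  (.Q [0,1,-1,-1,0,0,-1,1,-1] (.p false [0,0,1] [1] (⟨0,[(12,0)]⟩,⟨0,[(11,0)]⟩) .k 1 (⟨0,[]⟩,⟨0,
  []⟩) .k .k) (.Q [0,0,0,0,0,1,0,-1,1] (.ed false [0,1,1] .k) (.I [0,0,-1,-1,0,0,-2] (.K ⟨0,[-1,1,
  1],0,0,(⟨0,[(1,0)]⟩,⟨0,[(14,0),(2,0)]⟩),(.x (-1) ⟨3,[(12,0),(0,0),(2,1),(0,3)]⟩ ⟨0,[(18,0)]⟩),.k,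
  (.r 0 ⟨1,[(11,1),(1,0),(2,0),(5,3)]⟩ ⟨0,[(0,0),(8,0)]⟩),.k,.k,[⟨7,[(11,3),(0,0),(0,0),(0,7),(1,
  1)]⟩,⟨1,[(5,0),(0,0),(8,0),(0,0)]⟩,⟨0,[(2,0)]⟩,⟨0,[(6,0),(3,0),(11,0)]⟩]⟩) (.K ⟨0,[-1,1,1],0,0,
  (⟨0,[(1,0)]⟩,⟨0,[(14,0),(2,0)]⟩),(.x (-1) ⟨3,[(12,0),(0,0),(2,1),(0,3)]⟩ ⟨0,[(18,0)]⟩),.k,(.x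
  (-1) ⟨1,[(0,0),(3,3),(0,1),(14,2),(0,2)]⟩ ⟨3,[(3,1),(8,0),(0,0),(4,5)]⟩),.k,.k,[⟨7,[(11,3),(0,0),
  (0,0),(0,7),(1,1)]⟩,⟨1,[(5,0),(0,0),(8,0),(0,0)]⟩,⟨0,[(2,0)]⟩,⟨9,[(0,3),(4,0),(0,4),(3,9),(1,0),
  (2,4)]⟩]⟩)) (.I [0,0,1,1,0,0,2] (.K ⟨0,[1,-1,-1],0,0,(⟨0,[(1,0)]⟩,⟨0,[(15,0),(2,0)]⟩),(.x 0 ⟨0,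
  [(18,0)]⟩ ⟨3,[(12,0),(0,0),(2,1),(0,3)]⟩),(.r (-2) ⟨1,[(7,2),(1,0),(11,2),(2,2)]⟩ ⟨0,[(0,0),(4,
  0)]⟩),.k,.k,.k,[⟨1,[(5,0),(0,0),(8,0),(0,0)]⟩,⟨7,[(11,3),(0,0),(0,0),(0,7),(1,1)]⟩,⟨9,[(0,3),(4,
  0),(0,4),(3,9),(1,0),(2,4)]⟩,⟨0,[(2,0)]⟩]⟩) (.I [0,0,-1,-1,0,0,-2] (.K ⟨0,[1,-1,-1],0,0,(⟨0,[(2,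
  0)]⟩,⟨0,[(16,0),(2,0)]⟩),(.x 0 ⟨0,[(19,0)]⟩ ⟨3,[(13,0),(0,0),(2,1),(0,3)]⟩),(.r (-1) ⟨0,[(0,0),(9,
  0)]⟩ ⟨1,[(12,1),(1,0),(2,0),(5,3)]⟩),.k,.k,.k,[⟨1,[(6,0),(0,0),(8,0),(0,0)]⟩,⟨7,[(12,3),(0,0),(0,
  0),(0,7),(1,1)]⟩,⟨0,[(7,0),(3,0),(11,0)]⟩,⟨0,[(3,0)]⟩]⟩) (.K ⟨0,[1,-1,-1],0,0,(⟨0,[(2,0)]⟩,⟨0,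
  [(16,0),(2,0)]⟩),(.x 0 ⟨0,[(19,0)]⟩ ⟨3,[(13,0),(0,0),(2,1),(0,3)]⟩),(.x 0 ⟨3,[(4,1),(8,0),(0,0),
  (4,5)]⟩ ⟨1,[(2,0),(2,1),(0,0),(0,0),(9,0),(0,0)]⟩),.k,.k,.k,[⟨1,[(6,0),(0,0),(8,0),(0,0)]⟩,⟨7,
  [(12,3),(0,0),(0,0),(0,7),(1,1)]⟩,⟨9,[(0,3),(5,0),(0,4),(3,9),(1,0),(2,4)]⟩,⟨0,[(3,0)]⟩]⟩)))) (.I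
  [0,0,0,1,0,0,1] (.R ⟨2,true,false,true,[0,1],[1,0,-1],[0,1,1,1],(⟨0,[]⟩,⟨0,[]⟩),(⟨0,[(13,0)]⟩,⟨0,
  [(14,0)]⟩),⟨0,[]⟩,.k,.k,.k,(.x (-1) ⟨3,[(11,0),(0,0),(2,1),(0,3)]⟩ ⟨0,[(17,0)]⟩),.k,.k,⟨false,0,
  ⟨0,[(0,0)]⟩,⟨0,[(6,0),(13,0),(2,0)]⟩⟩,⟨true,0,⟨0,[(13,0)]⟩,⟨1,[(4,0),(0,0),(8,0),(0,0)]⟩⟩,⟨true,0,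
  ⟨0,[(25,0)]⟩,⟨0,[]⟩⟩,⟨false,1,⟨0,[(7,0),(12,0),(2,0)]⟩,⟨0,[(1,0)]⟩⟩,⟨false,0,⟨0,[(21,0)]⟩,⟨0,[(20,
  0),(2,0)]⟩⟩,⟨true,0,⟨0,[(7,0)]⟩,⟨0,[(1,0),(18,0)]⟩⟩,[]⟩) (.Q [0,1,-2,0,0,0,-2,1,-1] (.p false [0,
  0,1] [1] (⟨0,[(14,0)]⟩,⟨0,[(13,0)]⟩) .k 1 (⟨0,[]⟩,⟨0,[]⟩) .k .k) (.Q [0,0,0,0,0,0,0,-1,2] (.ed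
  false [0,0,2] (.r (-1) ⟨0,[(13,0)]⟩ ⟨2,[(0,0),(0,1),(0,0),(2,0),(6,0)]⟩)) (.K ⟨0,[2,0,-2],1,0,(⟨0,
  [(15,1)]⟩,⟨0,[(0,0)]⟩),.k,(.x (-1) ⟨3,[(13,0),(0,0),(4,3),(4,1)]⟩ ⟨0,[(3,0),(1,0),(0,0),(8,0),(5,
  0),(0,1)]⟩),(.r 1 ⟨33,[(0,1),(0,3),(0,7),(3,41),(6,4),(3,0),(7,1)]⟩ ⟨3,[(10,3),(2,0),(0,2)]⟩),.k,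
  .k,[⟨0,[(2,0),(0,1),(2,0),(15,1)]⟩,⟨3,[(13,0),(0,0),(0,7),(8,1)]⟩,⟨0,[(3,0),(3,0),(3,0),(10,0)]⟩,
  ⟨0,[(1,0),(13,0)]⟩]⟩) (.S ⟨1,0,[0,0,0,0,0,0,-1],[1,0,-1],[0,1,0,0,0,0,-1],(⟨0,[(15,0)]⟩,⟨0,[(16,
  0)]⟩),⟨0,[(0,0),(4,0),(0,0),(0,0)]⟩,.k,(.x 0 ⟨0,[(19,0)]⟩ ⟨3,[(13,0),(0,0),(2,1),(0,3)]⟩),⟨true,0,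
  ⟨0,[(27,0)]⟩,⟨0,[]⟩⟩,⟨false,1,⟨3,[(13,0),(0,0),(10,1)]⟩,⟨0,[]⟩⟩,⟨false,0,⟨0,[(23,0)]⟩,⟨25,[(0,3),
  (1,9),(4,7),(2,7),(2,2),(3,1),(7,12)]⟩⟩,⟨true,0,⟨0,[(23,0)]⟩,⟨0,[(22,0)]⟩⟩,[.o ⟨false,1,⟨9,[(0,3),
  (0,1),(11,2),(3,2),(6,2),(0,0)]⟩,⟨0,[(3,0),(18,0)]⟩⟩,.o ⟨false,1,⟨3,[(0,1),(0,1),(0,1),(0,1),(13,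
  0),(6,0),(0,1)]⟩,⟨0,[(7,0),(3,0)]⟩⟩,.o ⟨false,1,⟨7,[(0,3),(12,0),(0,0),(2,1),(6,3)]⟩,⟨1,[(6,0),(0,
  0),(8,0),(0,0)]⟩⟩,.a ⟨true,0,⟨0,[(15,0)]⟩,⟨0,[(16,0)]⟩⟩ ⟨true,0,⟨0,[(8,0)]⟩,⟨7,[(0,2),(2,1),(3,3),
  (3,1),(0,0),(1,0)]⟩⟩ ⟨false,1,⟨0,[(8,0),(16,0)]⟩,⟨7,[(0,2),(2,1),(3,3),(3,1),(0,0),(1,0)]⟩⟩]⟩))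
  (.Q [0,-1,-2,0,1,0,-2,1,-2] (.p false [0,0,1] [1,0,-1] (⟨0,[(15,0)]⟩,⟨0,[(14,0)]⟩) .k 2 (⟨0,[(14,
  0)]⟩,⟨0,[(15,0)]⟩) .k (.r (-1) ⟨0,[(13,0)]⟩ ⟨3,[(1,1),(3,1),(1,1),(4,0),(11,0)]⟩)) (.Q [0,0,2,0,
  -1,0,0,-1,2] (.p true [0,0,1] [1,0,-1] (⟨0,[(16,0)]⟩,⟨0,[(15,0)]⟩) .k 2 (⟨0,[(15,0)]⟩,⟨0,[(16,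
  0)]⟩) .k (.r (-1) ⟨0,[(14,0)]⟩ ⟨6,[(0,0),(1,3),(0,0),(2,2),(1,1),(4,1),(2,0)]⟩)) (.S ⟨1,0,[0,1,0,
  0,0,0,2],[-1,0,2],[1,0,0,-1,0,0,2],(⟨0,[(0,0),(24,0)]⟩,⟨0,[(16,1)]⟩),⟨0,[(0,0),(5,0)]⟩,.k,(.r
  (-2) ⟨3,[(11,3),(2,0),(0,2)]⟩ ⟨6,[(0,0),(0,0),(1,0),(3,7),(1,0),(4,0)]⟩),⟨false,1,⟨3,[(1,1),(6,3),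
  (9,0),(7,0)]⟩,⟨0,[(24,0)]⟩⟩,⟨true,0,⟨0,[(28,0)]⟩,⟨0,[]⟩⟩,⟨true,0,⟨0,[]⟩,⟨0,[(28,0)]⟩⟩,⟨false,0,⟨0,
  [(24,0)]⟩,⟨3,[(1,1),(6,3),(9,0),(7,0)]⟩⟩,[.o ⟨false,0,⟨3,[(0,1),(1,1),(5,1),(3,1),(2,0),(2,0),(2,
  1)]⟩,⟨0,[(1,0)]⟩⟩,.o ⟨false,0,⟨3,[(0,1),(1,2),(1,0),(6,0),(6,0),(2,1)]⟩,⟨11,[(1,7),(8,7),(3,0),(0,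
  0),(2,1)]⟩⟩,.a ⟨true,(-1),⟨0,[(0,0)]⟩,⟨0,[(16,1),(8,0)]⟩⟩ ⟨true,1,⟨2,[(2,0),(8,1),(3,0),(0,0),(6,
  0)]⟩,⟨0,[(7,0),(1,0)]⟩⟩ ⟨false,1,⟨0,[(15,0)]⟩,⟨0,[(0,0),(0,0)]⟩⟩,.o ⟨false,(-1),⟨4,[(0,3),(1,1),
  (0,0),(3,2),(10,1),(4,1)]⟩,⟨3,[(1,1),(9,1),(0,1),(2,0),(0,3),(8,2)]⟩⟩]⟩) (.Q [0,0,0,0,0,1,0,-1,1]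
  (.ed false [0,1,1] .k) (.I [0,1,1,1,-1] (.R ⟨0,false,false,true,[1,0,-1],[0,1],[1,0,1],(⟨0,[(18,
  0)]⟩,⟨0,[(19,0)]⟩),(⟨0,[(22,0)]⟩,⟨0,[(21,0)]⟩),⟨0,[(1,0)]⟩,.k,.k,(.x 0 ⟨0,[(22,0)]⟩ ⟨3,[(16,0),(0,
  0),(2,1),(0,3)]⟩),(.x 0 ⟨0,[(22,0)]⟩ ⟨3,[(16,0),(0,0),(2,1),(0,3)]⟩),.k,.k,⟨true,1,⟨3,[(3,1),(6,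
  3),(9,0),(7,0)]⟩,⟨0,[(0,0)]⟩⟩,⟨false,1,⟨7,[(1,3),(6,3),(7,0),(0,0),(1,3),(0,1)]⟩,⟨0,[(18,0)]⟩⟩,
  ⟨true,0,⟨13,[(0,1),(3,3),(10,1),(1,2),(0,3),(1,0),(4,1)]⟩,⟨0,[(11,0)]⟩⟩,⟨false,0,⟨9,[(0,1),(5,7),
  (3,1),(3,1),(1,0),(0,0),(5,1)]⟩,⟨0,[(3,0),(6,0)]⟩⟩,⟨false,0,⟨0,[]⟩,⟨0,[]⟩⟩,⟨false,0,⟨0,[]⟩,⟨0,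
  []⟩⟩,[.o ⟨false,0,⟨0,[(14,0)]⟩,⟨3,[(3,1),(6,3),(9,0),(7,0)]⟩⟩,.o ⟨false,0,⟨0,[(0,0),(0,0),(0,0),
  (1,0),(0,0),(2,0),(0,0)]⟩,⟨8,[(3,0),(6,4),(2,2),(2,2),(1,2),(1,1),(4,0)]⟩⟩,.o ⟨false,1,⟨7,[(2,3),
  (13,0),(0,0),(2,1)]⟩,⟨1,[(9,0),(0,0),(8,0),(0,0)]⟩⟩,.a ⟨true,0,⟨0,[(18,0)]⟩,⟨0,[(19,0)]⟩⟩ ⟨true,0,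
  ⟨0,[]⟩,⟨0,[(30,0)]⟩⟩ ⟨false,0,⟨0,[(6,0),(4,0)]⟩,⟨3,[(3,1),(6,3),(7,3),(1,0),(7,0)]⟩⟩]⟩) (.R ⟨0,
  false,false,true,[1,0,-1],[-1,0,2],[1,0,1],(⟨0,[(18,0)]⟩,⟨0,[(19,0)]⟩),(⟨0,[(1,0),(6,0),(0,0),(0,
  0)]⟩,⟨0,[(18,1)]⟩),⟨0,[(1,0)]⟩,.k,.k,(.x 0 ⟨0,[(22,0)]⟩ ⟨3,[(16,0),(0,0),(2,1),(0,3)]⟩),.k,.k,.k,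
  ⟨false,0,⟨4,[(1,0),(1,0),(1,3),(2,0),(0,3),(9,0),(8,1)]⟩,⟨0,[(6,0),(6,0),(4,0),(4,0)]⟩⟩,⟨true,
  (-1),⟨0,[(5,1),(0,1),(2,0),(0,0),(12,0)]⟩,⟨0,[(2,0),(15,0)]⟩⟩,⟨true,0,⟨5,[(4,1),(9,0),(0,0),(1,0),
  (0,1),(6,0)]⟩,⟨0,[(11,0)]⟩⟩,⟨false,0,⟨0,[(6,0),(3,1),(3,0)]⟩,⟨0,[(0,1),(1,0),(6,1),(2,0)]⟩⟩,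
  ⟨false,0,⟨0,[]⟩,⟨0,[]⟩⟩,⟨false,0,⟨0,[]⟩,⟨0,[]⟩⟩,[.o ⟨false,0,⟨0,[(6,0),(3,0),(3,0),(10,0)]⟩,⟨0,
  [(3,0)]⟩⟩,.o ⟨false,0,⟨0,[(6,1),(18,1)]⟩,⟨6,[(2,0),(0,3),(8,3),(3,0),(3,0)]⟩⟩,.o ⟨false,1,⟨7,[(2,
  3),(13,0),(0,0),(2,1)]⟩,⟨1,[(9,0),(0,0),(8,0),(0,0)]⟩⟩,.a ⟨true,0,⟨0,[(18,0)]⟩,⟨0,[(19,0)]⟩⟩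
  ⟨true,0,⟨0,[]⟩,⟨0,[(30,0)]⟩⟩ ⟨false,0,⟨0,[(5,0),(0,1),(3,0),(12,0)]⟩,⟨0,[(3,0),(14,0)]⟩⟩]⟩)) (.S
  ⟨1,0,[0,0,0,0,0,0,-1],[1,0,-1],[0,1,0,0,0,0,-1],(⟨0,[(17,0)]⟩,⟨0,[(18,0)]⟩),⟨0,[(0,0)]⟩,.k,(.x 0
  ⟨0,[(21,0)]⟩ ⟨3,[(15,0),(0,0),(2,1),(0,3)]⟩),⟨true,0,⟨0,[(29,0)]⟩,⟨0,[]⟩⟩,⟨false,1,⟨3,[(15,0),(0,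
  0),(10,1)]⟩,⟨0,[]⟩⟩,⟨false,0,⟨0,[(25,0)]⟩,⟨3,[(2,1),(6,3),(9,0),(7,0)]⟩⟩,⟨true,0,⟨0,[(25,0)]⟩,⟨0,
  [(24,0)]⟩⟩,[.o ⟨false,1,⟨6,[(1,1),(0,0),(8,0),(3,1),(3,1)]⟩,⟨0,[(5,0),(18,0)]⟩⟩,.o ⟨false,1,⟨3,
  [(2,1),(16,0),(7,0)]⟩,⟨0,[(9,0),(3,0)]⟩⟩,.o ⟨false,1,⟨7,[(1,3),(13,0),(0,0),(2,1)]⟩,⟨1,[(8,0),(0,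
  0),(8,0),(0,0)]⟩⟩,.a ⟨true,0,⟨0,[(17,0)]⟩,⟨0,[(18,0)]⟩⟩ ⟨true,0,⟨0,[(10,0)]⟩,⟨9,[(0,1),(2,1),(2,
  1),(6,0),(0,0),(1,2),(7,0)]⟩⟩ ⟨false,1,⟨0,[(10,0),(16,0)]⟩,⟨9,[(0,1),(2,1),(2,1),(6,0),(0,0),(1,
  2),(7,0)]⟩⟩]⟩))) (.K ⟨0,[-1,0,2],(-1),(-1),(⟨1,[(0,0),(1,1),(0,0),(2,0),(9,0),(7,1)]⟩,⟨0,[(15,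
  1)]⟩),.k,(.r (-2) ⟨3,[(10,3),(2,0),(0,2)]⟩ ⟨7,[(2,1),(3,9),(1,1),(4,0),(11,0)]⟩),(.x 0 ⟨4,[(1,1),
  (0,0),(2,0),(0,2),(8,1),(1,1),(0,3),(3,1)]⟩ ⟨3,[(13,0),(0,0),(4,3),(4,1)]⟩),.k,.k,[⟨1,[(15,3),(1,
  0),(6,0)]⟩,⟨2,[(0,1),(1,2),(0,1),(2,0),(5,0),(0,0)]⟩,⟨1,[(9,3),(7,0),(7,0)]⟩,⟨0,[(0,0)]⟩]⟩)))))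

def t1 : Tre :=
  (.Q [0,0,0,-2,0,0,0,1] (.pp false [-1,1]) (.Q [0,0,-2,1,1,0,0,-1] (.pp true [-1,1]) (.R ⟨0,false,
  false,false,[1,-1],[0,1],[1,1,1],(⟨0,[(15,0)]⟩,⟨0,[(16,0)]⟩),(⟨0,[(16,0)]⟩,⟨0,[(15,0)]⟩),⟨0,[(0,
  1),(0,0),(1,1)]⟩,.k,.k,(.x 1 ⟨0,[(3,0),(12,0)]⟩ ⟨3,[(2,3),(7,0),(0,0),(2,1),(0,3)]⟩),(.x 1 ⟨0,[(3,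
  0),(12,0)]⟩ ⟨3,[(2,3),(7,0),(0,0),(2,1),(0,3)]⟩),.k,.k,⟨true,0,⟨0,[(19,0)]⟩,⟨0,[(18,0),(1,0)]⟩⟩,
  ⟨false,2,⟨1,[(14,0),(6,2)]⟩,⟨0,[(9,0)]⟩⟩,⟨true,(-1),⟨0,[(8,0),(0,0)]⟩,⟨0,[(0,0),(0,0)]⟩⟩,⟨false,1,
  ⟨1,[(14,0),(5,3),(1,0)]⟩,⟨0,[(1,0)]⟩⟩,⟨false,0,⟨0,[]⟩,⟨0,[]⟩⟩,⟨false,0,⟨0,[]⟩,⟨0,[]⟩⟩,[.e ⟨false,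
  0,⟨0,[(24,0)]⟩,⟨1,[(21,0),(0,0)]⟩⟩ ⟨false,1,⟨0,[(0,0)]⟩,⟨3,[(1,1),(7,1),(0,0),(0,0)]⟩⟩,.o ⟨false,
  1,⟨1,[(14,0),(5,1),(1,0)]⟩,⟨0,[(19,0)]⟩⟩,.o ⟨false,0,⟨7,[(9,3),(0,0),(0,0),(2,1)]⟩,⟨1,[(14,0),(6,
  0)]⟩⟩,.a ⟨true,(-1),⟨0,[(9,0)]⟩,⟨0,[(21,0)]⟩⟩ ⟨false,0,⟨0,[]⟩,⟨3,[(10,0),(0,0),(10,1)]⟩⟩ ⟨true,1,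
  ⟨0,[(0,0)]⟩,⟨0,[(9,0),(9,0)]⟩⟩]⟩) (.I [0,0,-1,-1,1,0,1] (.K ⟨0,[0,1,-1],1,0,(⟨0,[(0,0),(3,0),(0,
  0)]⟩,⟨0,[(14,0),(1,0)]⟩),(.r 0 ⟨4,[(5,0),(3,1),(0,1),(0,1),(2,0),(4,1),(1,1)]⟩ ⟨0,[(0,0)]⟩),.k,
  (.r 1 ⟨0,[(5,0),(3,0),(0,0),(3,0),(4,0)]⟩ ⟨5,[(0,7),(1,1),(8,0),(3,0),(6,1)]⟩),.k,.k,[⟨0,[(1,0),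
  (7,0),(4,0),(4,0)]⟩,⟨7,[(0,3),(4,3),(5,0),(0,0),(0,3),(1,1)]⟩,⟨0,[(0,0),(0,0),(7,0),(4,0)]⟩,⟨1,
  [(5,0),(1,0),(1,0)]⟩]⟩) (.I [0,0,-1,-1,0,0,-2] (.Q [0,0,0,0,0,2,0,-1,1] (.p true [0,0,1] [1] (⟨0,
  [(15,0)]⟩,⟨0,[(14,0)]⟩) .k 1 (⟨0,[]⟩,⟨0,[]⟩) .k .k) (.Q [0,0,0,0,0,-2,0,1] (.pp false [-1,1]) (.Q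
  [0,0,3,0,-1,0,0,-1,2] (.p true [0,0,1] [1,0,-1] (⟨0,[(17,0)]⟩,⟨0,[(16,0)]⟩) .k 2 (⟨0,[(16,0)]⟩,⟨0,
  [(17,0)]⟩) .k (.r (-1) ⟨0,[(15,0)]⟩ ⟨4,[(2,1),(0,1),(10,1)]⟩)) (.Q [0,1,1,1,0,0,1,-1,1] (.p true
  [0,0,1] [1] (⟨0,[(18,0)]⟩,⟨0,[(17,0)]⟩) .k 1 (⟨0,[]⟩,⟨0,[]⟩) .k .k) (.K ⟨0,[1,-1,-1],0,0,(⟨0,[(2,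
  0),(6,0),(0,0),(2,0)]⟩,⟨0,[(3,0),(17,0)]⟩),(.x 0 ⟨0,[(22,0)]⟩ ⟨7,[(2,3),(13,2),(0,2),(2,1)]⟩),(.r
  (-1) ⟨0,[(4,0),(8,0)]⟩ ⟨1,[(0,1),(9,1),(4,1),(1,0),(10,0)]⟩),.k,.k,.k,[⟨93,[(0,1),(0,41),(1,7),(4,
  15),(4,1),(2,1),(3,20),(7,0)]⟩,⟨7,[(15,3),(0,0),(0,0),(0,7),(1,1)]⟩,⟨0,[(0,0)]⟩,⟨1,[(7,0),(2,0),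
  (1,0),(12,0)]⟩]⟩) (.K ⟨0,[0,1,1],0,0,(⟨0,[(3,0),(17,0)]⟩,⟨1,[(0,0),(1,0),(3,0),(3,0),(3,0),(2,
  0)]⟩),(.x (-1) ⟨7,[(2,3),(13,2),(0,2),(2,1)]⟩ ⟨0,[(22,0)]⟩),.k,(.r 0 ⟨1,[(15,1),(1,0),(2,0),(5,
  3)]⟩ ⟨0,[(4,0),(8,0)]⟩),.k,.k,[⟨1,[(6,1),(3,1),(6,0),(2,0)]⟩,⟨4,[(1,0),(13,0),(0,0),(0,0),(1,2)]⟩,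
  ⟨0,[(0,0),(13,0),(10,0)]⟩,⟨19,[(1,5),(13,5),(0,0),(0,10),(1,7),(3,9),(2,19)]⟩]⟩)) (.Q [0,1,-1,-1,
  0,0,-1,0,-1] (.p false [0,0,1] [] (⟨0,[(18,0)]⟩,⟨0,[(17,0)]⟩) .k 0 (⟨0,[]⟩,⟨0,[]⟩) .k .k) (.K ⟨0,
  [0,1,1],0,0,(⟨0,[(3,0),(17,0)]⟩,⟨4,[(1,1),(0,3),(6,2),(8,0),(1,0)]⟩),(.x (-1) ⟨7,[(2,3),(13,2),(0,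
  2),(2,1)]⟩ ⟨0,[(22,0)]⟩),.k,(.r 0 ⟨1,[(15,1),(1,0),(2,0),(5,3)]⟩ ⟨0,[(4,0),(8,0)]⟩),.k,.k,[⟨4,[(1,
  0),(0,1),(6,3),(8,2),(1,2)]⟩,⟨7,[(15,3),(0,0),(0,0),(1,7),(0,1)]⟩,⟨0,[(0,0)]⟩,⟨19,[(14,11),(0,11),
  (0,0),(0,10),(1,19),(3,3),(2,7)]⟩]⟩) (.R ⟨2,true,false,false,[0,1],[0,1,1],[1,0,1],(⟨0,[]⟩,⟨0,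
  []⟩),(⟨5,[(0,1),(2,2),(3,0),(4,1),(6,2)]⟩,⟨4,[(1,1),(0,3),(6,2),(8,0),(1,0)]⟩),⟨0,[]⟩,.k,(.x (-1)
  ⟨7,[(2,3),(13,2),(0,2),(2,1)]⟩ ⟨0,[(22,0)]⟩),.k,.k,(.x 0 ⟨0,[(22,0)]⟩ ⟨7,[(2,3),(13,2),(0,2),(2,
  1)]⟩),.k,⟨true,0,⟨25,[(4,11),(1,5),(0,3),(8,0),(3,4)]⟩,⟨0,[(5,0),(11,0)]⟩⟩,⟨false,0,⟨0,[(19,0)]⟩,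
  ⟨5,[(1,1),(14,0),(0,0),(0,1),(1,1)]⟩⟩,⟨false,1,⟨7,[(7,3),(8,0),(0,0),(2,1),(7,3)]⟩,⟨0,[(26,0)]⟩⟩,
  ⟨true,0,⟨0,[(0,0),(24,0)]⟩,⟨0,[(10,0),(14,0)]⟩⟩,⟨true,0,⟨0,[]⟩,⟨0,[(30,0)]⟩⟩,⟨false,0,⟨0,[(0,0)]⟩,
  ⟨25,[(1,12),(2,4),(1,8),(0,5),(8,7),(3,13)]⟩⟩,[]⟩))) (.R ⟨0,false,false,false,[1,-1],[0,1],[1,1,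
  1],(⟨0,[(19,0)]⟩,⟨0,[(20,0)]⟩),(⟨0,[(20,0)]⟩,⟨0,[(19,0)]⟩),⟨0,[(0,0)]⟩,.k,.k,(.r (-2) ⟨4,[(2,1),
  (8,7),(2,1)]⟩ ⟨0,[(3,1),(11,0)]⟩),(.r (-2) ⟨4,[(2,1),(8,7),(2,1)]⟩ ⟨0,[(3,1),(11,0)]⟩),.k,.k,
  ⟨true,0,⟨0,[(23,0)]⟩,⟨1,[(3,1),(11,0),(10,0)]⟩⟩,⟨false,2,⟨1,[(18,0),(6,2)]⟩,⟨0,[(13,0)]⟩⟩,⟨true,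
  (-1),⟨0,[(12,0),(0,0)]⟩,⟨1,[(0,0),(4,0),(0,1)]⟩⟩,⟨false,1,⟨1,[(18,0),(5,3),(1,0)]⟩,⟨0,[(5,0)]⟩⟩,
  ⟨false,0,⟨0,[]⟩,⟨0,[]⟩⟩,⟨false,0,⟨0,[]⟩,⟨0,[]⟩⟩,[.a ⟨true,0,⟨0,[(24,0)]⟩,⟨3,[(1,0),(3,1),(10,0),
  (2,1)]⟩⟩ ⟨false,0,⟨0,[(28,0)]⟩,⟨1,[(25,0),(0,0)]⟩⟩ ⟨true,1,⟨1,[(18,0),(5,1),(0,0)]⟩,⟨0,[(4,0)]⟩⟩,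
  .o ⟨false,1,⟨1,[(18,0),(5,1),(1,0)]⟩,⟨0,[(23,0)]⟩⟩,.o ⟨false,0,⟨7,[(13,3),(0,0),(0,0),(2,1)]⟩,⟨1,
  [(18,0),(6,0)]⟩⟩,.e ⟨false,0,⟨0,[]⟩,⟨3,[(14,0),(0,0),(10,1)]⟩⟩ ⟨false,2,⟨1,[(18,0),(5,1),(0,1),(0,
  0)]⟩,⟨0,[(4,0)]⟩⟩]⟩)) (.Q [0,1,-2,0,0,0,-2,0,-2] (.p false [0,0,2] [] (⟨0,[(16,1)]⟩,⟨1,[(0,0),(5,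
  1),(0,1),(2,1),(4,0)]⟩) .k 0 (⟨0,[]⟩,⟨0,[]⟩) .k (.r (-1) ⟨0,[(14,0)]⟩ ⟨4,[(1,1),(0,1),(10,1)]⟩))
  (.K ⟨0,[0,0,2],(-1),0,(⟨0,[(17,1)]⟩,⟨1,[(1,0),(5,1),(0,1),(2,1),(4,0)]⟩),.k,(.r (-2) ⟨3,[(11,3),
  (2,0),(0,2)]⟩ ⟨4,[(2,0),(0,5),(10,0)]⟩),(.r (-1) ⟨7,[(13,3),(0,0),(0,8),(2,1),(5,7)]⟩ ⟨0,[(2,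
  0)]⟩),.k,.k,[⟨0,[(0,0),(14,0),(6,0)]⟩,⟨1,[(3,1),(0,1),(10,0),(1,3),(0,0)]⟩,⟨0,[(0,0)]⟩,⟨0,[(4,0),
  (7,0),(2,0),(1,1)]⟩]⟩) (.R ⟨2,true,false,false,[0,1],[0,1,1],[1,0,1],(⟨0,[]⟩,⟨0,[]⟩),(⟨0,[(17,0),
  (2,0)]⟩,⟨1,[(1,0),(14,0)]⟩),⟨0,[]⟩,.k,(.x (-1) ⟨18,[(0,3),(0,7),(4,2),(7,7),(0,3),(2,3),(2,1)]⟩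
  ⟨0,[(20,0)]⟩),.k,.k,(.x 0 ⟨0,[(20,0)]⟩ ⟨18,[(0,3),(0,7),(4,2),(7,7),(0,3),(2,3),(2,1)]⟩),.k,⟨true,
  0,⟨25,[(2,11),(1,5),(0,3),(8,0),(3,4)]⟩,⟨0,[(3,0),(11,0)]⟩⟩,⟨false,0,⟨0,[(17,0)]⟩,⟨7,[(8,3),(2,3),
  (2,0),(0,0),(0,3),(1,1)]⟩⟩,⟨false,1,⟨7,[(5,3),(8,0),(0,0),(2,1),(7,3)]⟩,⟨0,[(24,0)]⟩⟩,⟨true,0,⟨1,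
  [(0,0),(27,0)]⟩,⟨0,[(8,0),(14,0)]⟩⟩,⟨true,0,⟨0,[]⟩,⟨0,[(28,0)]⟩⟩,⟨false,0,⟨0,[(0,0),(7,0)]⟩,⟨9,
  [(2,5),(8,3),(2,0),(1,9),(1,4)]⟩⟩,[]⟩))) (.R ⟨1,true,false,true,[1,-1],[0,1],[0,0,-1,-1],(⟨0,[(17,
  0)]⟩,⟨0,[(18,0)]⟩),(⟨0,[(18,0)]⟩,⟨0,[(17,0)]⟩),⟨4,[(0,1),(0,3),(0,5),(1,8),(11,0),(0,0)]⟩,.k,.k,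
  (.r (-2) ⟨2,[(3,1),(5,1),(2,0),(3,0),(6,1)]⟩ ⟨4,[(0,3),(0,5),(10,0)]⟩),(.r (-2) ⟨2,[(3,1),(5,1),
  (2,0),(3,0),(6,1)]⟩ ⟨4,[(0,3),(0,5),(10,0)]⟩),(.x 1 ⟨3,[(5,5),(6,0),(0,0),(4,5)]⟩ ⟨4,[(0,0),(0,1),
  (0,2),(1,11),(11,2),(0,2)]⟩),.k,⟨true,2,⟨1,[(3,1),(12,0),(6,1),(0,0)]⟩,⟨0,[(0,0),(0,1),(19,0)]⟩⟩,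
  ⟨false,2,⟨1,[(16,0),(6,2)]⟩,⟨0,[(11,0)]⟩⟩,⟨false,1,⟨3,[(12,0),(0,0),(10,1)]⟩,⟨0,[]⟩⟩,⟨true,0,⟨0,
  [(10,0),(11,0)]⟩,⟨0,[(3,0)]⟩⟩,⟨true,0,⟨0,[(22,0)]⟩,⟨0,[(21,0)]⟩⟩,⟨false,0,⟨1,[(0,1),(0,0),(4,2),
  (8,2),(0,0)]⟩,⟨7,[(3,11),(8,0),(0,0),(2,1),(7,3)]⟩⟩,[]⟩)))) (.Q [0,0,0,-1,0,0,0,1] (.pp false [-1,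
  1]) (.R ⟨2,true,false,true,[0,1],[1,-1],[1,0,1],(⟨0,[]⟩,⟨0,[]⟩),(⟨0,[(15,0)]⟩,⟨0,[(16,0)]⟩),⟨0,
  []⟩,.k,.k,.k,(.r 1 ⟨0,[(1,0),(7,0)]⟩ ⟨0,[(5,0),(1,0),(11,0),(2,0)]⟩),.k,.k,⟨false,0,⟨1,[(1,0),(7,
  0),(12,0)]⟩,⟨0,[(5,0),(1,0)]⟩⟩,⟨true,(-1),⟨0,[(9,0)]⟩,⟨1,[(14,0),(6,0)]⟩⟩,⟨false,1,⟨0,[(19,0),(2,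
  0)]⟩,⟨0,[(20,0)]⟩⟩,⟨true,0,⟨0,[(0,0),(18,0)]⟩,⟨0,[(1,0)]⟩⟩,⟨true,0,⟨0,[]⟩,⟨0,[(24,0)]⟩⟩,⟨false,0,
  ⟨0,[(0,0)]⟩,⟨7,[(1,3),(8,0),(0,0),(2,1),(7,3)]⟩⟩,[]⟩) (.Q [0,0,0,0,0,-2,0,1] (.pp false [-1,1])
  (.S ⟨1,0,[0,0,-1,-1],[1,-1],[0,1,-1,-1],(⟨0,[(16,0)]⟩,⟨0,[(17,0)]⟩),⟨0,[(0,0)]⟩,.k,(.r (-2) ⟨0,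
  [(6,0),(1,0),(11,0),(2,0)]⟩ ⟨0,[(2,0),(7,0)]⟩),⟨true,0,⟨0,[(25,0)]⟩,⟨0,[]⟩⟩,⟨false,1,⟨3,[(11,0),
  (0,0),(10,1)]⟩,⟨0,[]⟩⟩,⟨false,0,⟨0,[(21,0)]⟩,⟨0,[(20,0),(2,0)]⟩⟩,⟨true,0,⟨0,[(21,0)]⟩,⟨0,[(20,
  0)]⟩⟩,[.o ⟨false,1,⟨5,[(8,3),(1,1),(0,1),(3,0),(4,1),(2,0)]⟩,⟨0,[(1,0)]⟩⟩,.o ⟨false,1,⟨0,[(20,0),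
  (2,0)]⟩,⟨0,[(9,0)]⟩⟩,.o ⟨false,0,⟨7,[(10,3),(0,0),(0,0),(2,1)]⟩,⟨1,[(15,0),(6,0)]⟩⟩,.a ⟨true,(-1),
  ⟨0,[(10,0)]⟩,⟨0,[(22,0)]⟩⟩ ⟨true,1,⟨0,[(6,0),(1,0)]⟩,⟨0,[(1,0),(8,0)]⟩⟩ ⟨false,2,⟨0,[(6,0),(1,0),
  (14,0)]⟩,⟨0,[(1,0),(8,0)]⟩⟩]⟩) (.Q [0,1,-1,-1,0,0,-1,1,-1] (.p false [0,0,1] [1] (⟨0,[(14,0)]⟩,⟨0,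
  [(13,0)]⟩) .k 1 (⟨0,[]⟩,⟨0,[]⟩) .k .k) (.R ⟨0,false,false,false,[1,-1],[0,0,1],[],(⟨0,[(17,0)]⟩,
  ⟨0,[(18,0)]⟩),(⟨0,[(15,0)]⟩,⟨0,[(14,0)]⟩),⟨0,[(1,0)]⟩,.k,.k,(.r (-2) ⟨6,[(0,1),(0,1),(2,3),(4,3),
  (2,0),(2,1),(5,7),(2,4)]⟩ ⟨0,[(3,0),(7,0)]⟩),(.x 0 ⟨0,[(18,0)]⟩ ⟨3,[(12,0),(0,0),(2,1),(0,3)]⟩),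
  .k,.k,⟨true,0,⟨0,[(7,0),(12,0)]⟩,⟨0,[(2,0),(6,0),(1,0)]⟩⟩,⟨false,1,⟨1,[(15,1),(0,0),(6,0)]⟩,⟨0,
  [(14,0)]⟩⟩,⟨false,0,⟨1,[(3,0),(7,0),(12,0)]⟩,⟨13,[(0,1),(0,1),(2,3),(4,3),(2,0),(2,1),(5,7),(2,
  4)]⟩⟩,⟨true,0,⟨0,[(2,1),(6,0),(1,0),(3,0)]⟩,⟨0,[(0,0)]⟩⟩,⟨false,0,⟨0,[]⟩,⟨0,[]⟩⟩,⟨false,0,⟨0,[]⟩,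
  ⟨0,[]⟩⟩,[.e ⟨false,1,⟨3,[(12,0),(0,0),(9,1)]⟩,⟨0,[]⟩⟩ ⟨false,1,⟨0,[(2,0),(6,0),(5,0)]⟩,⟨5,[(0,1),
  (5,1),(4,1),(0,0),(1,1),(9,0)]⟩⟩,.o ⟨false,1,⟨1,[(13,0),(1,1),(0,0),(3,1)]⟩,⟨0,[(6,0),(14,0)]⟩⟩,
  .o ⟨false,0,⟨7,[(11,3),(0,0),(0,0),(2,1)]⟩,⟨1,[(16,0),(6,0)]⟩⟩,.a ⟨true,(-1),⟨0,[(11,0)]⟩,⟨0,[(23,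
  0)]⟩⟩ ⟨false,1,⟨1,[(23,0),(0,0)]⟩,⟨7,[(11,3),(0,0),(0,0),(2,1)]⟩⟩ ⟨true,1,⟨0,[(2,0),(6,0),(5,0)]⟩,
  ⟨0,[(6,0),(4,0),(9,0)]⟩⟩]⟩) (.I [0,0,0,1,0,0,1] (.R ⟨2,true,false,true,[0,1],[1,0,-1],[0,1,1,1],
  (⟨0,[]⟩,⟨0,[]⟩),(⟨0,[(15,0)]⟩,⟨0,[(16,0)]⟩),⟨0,[]⟩,.k,.k,.k,(.x (-1) ⟨3,[(13,0),(0,0),(2,1),(0,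
  3)]⟩ ⟨0,[(19,0)]⟩),.k,.k,⟨false,0,⟨0,[(0,0)]⟩,⟨0,[(8,0),(13,0),(2,0)]⟩⟩,⟨true,0,⟨0,[(15,0)]⟩,⟨0,
  [(3,0),(12,0),(4,0),(0,0)]⟩⟩,⟨true,0,⟨0,[(27,0)]⟩,⟨0,[]⟩⟩,⟨false,1,⟨0,[(9,0),(12,0),(2,0)]⟩,⟨0,
  [(1,0)]⟩⟩,⟨false,0,⟨0,[(23,0)]⟩,⟨0,[(22,0),(2,0)]⟩⟩,⟨true,0,⟨0,[(9,0)]⟩,⟨0,[(1,0),(20,0)]⟩⟩,[]⟩)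
  (.I [0,1,0,0,0,0,1] (.R ⟨0,false,false,true,[1,-1],[0,0,1],[0,1,1,0,0,0,1],(⟨0,[(19,0)]⟩,⟨0,[(20,
  0)]⟩),(⟨0,[(17,0)]⟩,⟨0,[(16,0)]⟩),⟨0,[(3,0)]⟩,.k,.k,(.r (-2) ⟨2,[(1,1),(9,3),(2,0),(10,0)]⟩ ⟨0,
  [(5,0),(7,0)]⟩),(.x 0 ⟨0,[(20,0)]⟩ ⟨3,[(14,0),(0,0),(2,1),(0,3)]⟩),.k,.k,⟨true,0,⟨7,[(13,3),(0,0),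
  (0,0),(2,1)]⟩,⟨0,[]⟩⟩,⟨false,1,⟨1,[(17,1),(0,0),(6,0)]⟩,⟨0,[(16,0)]⟩⟩,⟨true,(-1),⟨0,[(0,0),(3,0),
  (8,0)]⟩,⟨0,[(1,0),(23,0)]⟩⟩,⟨false,0,⟨0,[(2,0),(25,0)]⟩,⟨1,[(1,1),(14,1),(8,0),(0,0)]⟩⟩,⟨false,0,
  ⟨0,[]⟩,⟨0,[]⟩⟩,⟨false,0,⟨0,[]⟩,⟨0,[]⟩⟩,[.o ⟨false,0,⟨0,[(2,0),(20,0),(4,0)]⟩,⟨13,[(1,5),(6,9),(2,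
  3),(2,0),(1,3),(1,1),(7,6)]⟩⟩,.o ⟨false,0,⟨0,[(2,0),(20,0)]⟩,⟨13,[(1,1),(6,7),(2,5),(2,4),(1,5),
  (1,2)]⟩⟩,.o ⟨false,0,⟨7,[(13,3),(0,0),(0,0),(2,1)]⟩,⟨1,[(18,0),(6,0)]⟩⟩,.a ⟨true,(-1),⟨0,[(13,
  0)]⟩,⟨0,[(25,0)]⟩⟩ ⟨true,0,⟨0,[(0,0)]⟩,⟨7,[(1,3),(3,0),(2,1),(4,0),(0,0),(2,1)]⟩⟩ ⟨false,1,⟨8,[(2,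
  4),(0,1),(2,3),(4,3),(5,3),(0,0),(2,1),(1,0)]⟩,⟨5,[(1,1),(6,1),(4,1),(0,0),(1,3),(5,3),(3,
  0)]⟩⟩]⟩) (.Q [0,0,0,0,0,1,0,-1,1] (.ed false [0,1,1] .k) (.R ⟨0,false,false,true,[1,0,-1],[-1,1,
  1],[1,0,1],(⟨0,[(17,0)]⟩,⟨0,[(18,0)]⟩),(⟨0,[(0,0)]⟩,⟨0,[(17,0),(2,0)]⟩),⟨0,[(0,0)]⟩,.k,(.x (-1)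
  ⟨3,[(15,0),(0,0),(2,1),(0,3)]⟩ ⟨0,[(21,0)]⟩),(.x 0 ⟨0,[(21,0)]⟩ ⟨3,[(15,0),(0,0),(2,1),(0,3)]⟩),
  (.x (-1) ⟨3,[(15,0),(0,0),(4,3),(4,1)]⟩ ⟨0,[(5,0),(14,0),(2,0),(0,0)]⟩),.k,.k,⟨false,1,⟨1,[(2,1),
  (23,0),(0,0)]⟩,⟨0,[(3,0),(13,0),(4,0)]⟩⟩,⟨true,0,⟨0,[(2,0),(0,0),(1,0),(12,0),(5,0)]⟩,⟨0,[(17,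
  1)]⟩⟩,⟨true,0,⟨0,[(5,0),(6,0),(1,0)]⟩,⟨0,[(10,0)]⟩⟩,⟨false,0,⟨0,[(3,1),(20,0),(4,0)]⟩,⟨0,[(1,0),
  (0,0),(14,1),(8,0)]⟩⟩,⟨false,0,⟨0,[]⟩,⟨0,[]⟩⟩,⟨false,0,⟨0,[]⟩,⟨0,[]⟩⟩,[.o ⟨false,0,⟨0,[(3,0),(9,
  0),(10,0)]⟩,⟨1,[(2,1),(14,1),(8,0),(0,0)]⟩⟩,.o ⟨false,0,⟨0,[(3,0),(1,0),(18,0)]⟩,⟨3,[(2,1),(8,1),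
  (0,1),(2,0),(1,1),(9,0)]⟩⟩,.o ⟨false,1,⟨7,[(9,3),(2,3),(2,0),(0,0),(0,3),(1,1)]⟩,⟨3,[(2,1),(0,1),
  (9,0),(0,0),(3,1),(0,0),(4,0)]⟩⟩,.a ⟨true,0,⟨0,[(17,0)]⟩,⟨0,[(18,0)]⟩⟩ ⟨true,0,⟨0,[]⟩,⟨0,[(29,
  0)]⟩⟩ ⟨false,0,⟨0,[(3,0),(1,0),(12,0),(5,0)]⟩,⟨1,[(2,1),(14,3),(8,0),(0,0)]⟩⟩]⟩) (.R ⟨1,true,true,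
  true,[0,1,1],[],[1,0,1],(⟨0,[(18,0),(2,0)]⟩,⟨0,[(0,0)]⟩),(⟨0,[]⟩,⟨0,[]⟩),⟨0,[(18,0)]⟩,(.x (-1) ⟨3,
  [(15,0),(0,0),(2,1),(0,3)]⟩ ⟨0,[(21,0)]⟩),.k,.k,(.x (-1) ⟨3,[(15,0),(0,0),(2,1),(0,3)]⟩ ⟨0,[(21,
  0)]⟩),.k,.k,⟨true,0,⟨0,[(23,0)]⟩,⟨0,[(29,0)]⟩⟩,⟨false,1,⟨7,[(9,3),(2,3),(2,0),(0,0),(0,3),(1,1)]⟩,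
  ⟨0,[(18,0)]⟩⟩,⟨true,0,⟨0,[(2,0)]⟩,⟨0,[(3,0),(13,0),(4,0)]⟩⟩,⟨false,1,⟨6,[(2,5),(6,2),(2,3),(2,0),
  (1,3),(1,1)]⟩,⟨0,[(3,0),(13,0),(0,0)]⟩⟩,⟨false,0,⟨0,[(1,0)]⟩,⟨3,[(15,0),(0,2)]⟩⟩,⟨true,0,⟨0,[(9,
  0),(14,0)]⟩,⟨2,[(3,0),(10,0),(1,0),(1,1),(5,0)]⟩⟩,[]⟩))))))))

def t2 : Tre :=
  (.I [0,0,-2,0,1,-1] (.Q [0,-1,-1,0,0,0,-1,1,-1] (.p false [0,0,1] [1] (⟨0,[(10,0)]⟩,⟨0,[(9,0)]⟩)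
  .k 1 (⟨0,[]⟩,⟨0,[]⟩) .k .k) (.I [0,0,-1,0,0,0,-1] (.Q [0,0,1,0,0,0,1,0,1] (.p true [0,0,1] [] (⟨0,
  [(12,0)]⟩,⟨0,[(11,0)]⟩) .k 0 (⟨0,[]⟩,⟨0,[]⟩) .k .k) (.R ⟨2,true,false,false,[0,1],[0,0,1],[0,1,1,
  1],(⟨0,[]⟩,⟨0,[]⟩),(⟨0,[(13,0)]⟩,⟨0,[(12,0)]⟩),⟨0,[]⟩,.k,.k,.k,(.x (-1) ⟨0,[(3,0)]⟩ ⟨3,[(9,3),(0,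
  0),(0,0),(2,1),(1,3)]⟩),.k,.k,⟨true,(-1),⟨0,[(1,0),(6,0),(0,0)]⟩,⟨0,[(7,0),(10,0)]⟩⟩,⟨false,0,⟨5,
  [(0,1),(8,1),(0,0),(2,3),(0,0)]⟩,⟨0,[(4,0),(2,0)]⟩⟩,⟨true,0,⟨0,[(24,0)]⟩,⟨0,[]⟩⟩,⟨false,1,⟨0,[(0,
  0),(18,0),(2,0)]⟩,⟨0,[(4,0)]⟩⟩,⟨false,0,⟨0,[(20,0)]⟩,⟨0,[(19,0),(2,0)]⟩⟩,⟨true,0,⟨0,[(0,0)]⟩,⟨0,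
  [(4,0),(14,0)]⟩⟩,[]⟩) (.Q [0,0,0,0,0,-1,0,1,-1] (.ed true [0,1,1] .k) (.S ⟨1,0,[0,1,0,0,0,0,-1],
  [1,0,-1],[0,0,0,0,0,0,-1],(⟨0,[(13,0)]⟩,⟨0,[(14,0)]⟩),⟨0,[(0,0)]⟩,.k,(.x 0 ⟨0,[(17,0)]⟩ ⟨3,[(11,
  0),(0,0),(2,1),(0,3)]⟩),⟨false,1,⟨3,[(11,0),(0,0),(10,1)]⟩,⟨0,[]⟩⟩,⟨true,0,⟨0,[(25,0)]⟩,⟨0,[]⟩⟩,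
  ⟨true,0,⟨0,[(21,0)]⟩,⟨0,[(20,0)]⟩⟩,⟨false,0,⟨0,[(21,0)]⟩,⟨0,[(20,0),(2,0)]⟩⟩,[.o ⟨false,0,⟨2,[(1,
  1),(5,0),(1,0),(10,0)]⟩,⟨1,[(12,0),(1,1),(0,0),(3,1)]⟩⟩,.o ⟨false,0,⟨0,[(1,0)]⟩,⟨7,[(10,3),(0,0),
  (0,4),(1,7),(0,5)]⟩⟩,.e ⟨false,0,⟨0,[(2,0),(16,0)]⟩,⟨3,[(11,0),(0,2)]⟩⟩ ⟨false,0,⟨5,[(2,3),(7,1),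
  (0,0),(3,0)]⟩,⟨1,[(12,0),(10,0)]⟩⟩,.a ⟨true,0,⟨0,[(13,0)]⟩,⟨0,[(14,0)]⟩⟩ ⟨true,0,⟨0,[(2,0)]⟩,⟨1,
  [(9,0),(0,0),(1,0),(7,0)]⟩⟩ ⟨false,0,⟨0,[(2,0)]⟩,⟨7,[(10,3),(0,0),(0,4),(2,1),(7,3)]⟩⟩]⟩) (.Q [0,
  0,3,0,-1,0,0,0,1] (.p true [0,0,1] [] (⟨0,[(14,0)]⟩,⟨0,[(13,0)]⟩) .k 0 (⟨0,[]⟩,⟨0,[]⟩) .k .k) (.R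
  ⟨0,false,false,true,[1,-1],[1,0,-1],[0,1,1],(⟨0,[(17,0)]⟩,⟨0,[(18,0)]⟩),(⟨0,[(14,0)]⟩,⟨0,[(15,
  0)]⟩),⟨0,[(1,1),(0,1),(8,0),(1,0)]⟩,.k,.k,(.x 1 ⟨0,[(1,1),(0,1),(8,1),(1,0)]⟩ ⟨3,[(5,3),(6,0),(0,
  0),(2,1),(0,3)]⟩),(.x 0 ⟨3,[(11,3),(0,0),(0,0),(2,1),(1,3)]⟩ ⟨0,[(5,0)]⟩),.k,.k,⟨false,1,⟨3,[(12,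
  0),(0,2)]⟩,⟨0,[(3,0)]⟩⟩,⟨true,1,⟨0,[(6,0),(2,0)]⟩,⟨0,[(0,0)]⟩⟩,⟨true,(-1),⟨0,[(10,0),(0,0)]⟩,⟨0,
  [(3,0),(5,0)]⟩⟩,⟨false,0,⟨0,[(6,0)]⟩,⟨11,[(0,7),(8,11),(2,0),(0,0),(1,3),(8,5)]⟩⟩,⟨false,0,⟨0,[]⟩,
  ⟨0,[]⟩⟩,⟨false,0,⟨0,[]⟩,⟨0,[]⟩⟩,[.o ⟨false,0,⟨2,[(2,1),(5,0),(1,0),(10,0)]⟩,⟨3,[(0,1),(0,1),(3,1),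
  (7,1),(2,0),(3,1),(3,0)]⟩⟩,.o ⟨false,0,⟨0,[(2,0)]⟩,⟨5,[(0,1),(11,0),(0,3),(1,3),(0,2)]⟩⟩,.o
  ⟨false,0,⟨7,[(11,3),(0,0),(0,0),(2,1)]⟩,⟨1,[(16,0),(6,0)]⟩⟩,.a ⟨true,(-1),⟨0,[(11,0)]⟩,⟨0,[(23,
  0)]⟩⟩ ⟨true,0,⟨0,[(26,0)]⟩,⟨0,[]⟩⟩ ⟨false,1,⟨0,[(2,0),(20,0)]⟩,⟨1,[(0,1),(12,0),(10,0)]⟩⟩]⟩) (.R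
  ⟨0,false,false,false,[1,0,-1],[0,1],[0,1,1],(⟨0,[(14,0)]⟩,⟨0,[(15,0)]⟩),(⟨0,[(18,0)]⟩,⟨0,[(17,
  0)]⟩),⟨0,[(1,0)]⟩,.k,.k,(.x 0 ⟨0,[(18,0)]⟩ ⟨3,[(12,0),(0,0),(2,1),(0,3)]⟩),(.x 0 ⟨0,[(18,0)]⟩ ⟨3,
  [(12,0),(0,0),(2,1),(0,3)]⟩),.k,.k,⟨true,0,⟨0,[(21,0)]⟩,⟨0,[(20,0),(1,0)]⟩⟩,⟨false,1,⟨7,[(1,3),(3,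
  3),(6,0),(0,0),(1,3),(0,1)]⟩,⟨0,[(14,0)]⟩⟩,⟨true,0,⟨1,[(10,0),(0,0),(1,0),(7,0)]⟩,⟨0,[(3,0)]⟩⟩,
  ⟨false,1,⟨1,[(13,0),(1,1),(0,0),(3,1),(1,1)]⟩,⟨0,[(4,0),(16,0)]⟩⟩,⟨false,0,⟨0,[]⟩,⟨0,[]⟩⟩,⟨false,
  0,⟨0,[]⟩,⟨0,[]⟩⟩,[.a ⟨true,0,⟨0,[(22,0)]⟩,⟨1,[(4,0),(4,0),(1,0),(3,0),(5,0)]⟩⟩ ⟨false,0,⟨0,[(26,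
  0)]⟩,⟨1,[(23,0),(0,0)]⟩⟩ ⟨true,0,⟨0,[(10,0),(4,0),(4,0)]⟩,⟨0,[(2,0),(6,0),(1,0)]⟩⟩,.o ⟨false,1,⟨1,
  [(16,0),(5,1),(1,0)]⟩,⟨0,[(21,0)]⟩⟩,.a ⟨true,0,⟨0,[(0,0),(10,0)]⟩,⟨7,[(11,3),(0,0),(0,0),(1,7),(0,
  1)]⟩⟩ ⟨false,0,⟨7,[(11,3),(0,0),(0,0),(2,1)]⟩,⟨1,[(23,0),(0,0)]⟩⟩ ⟨true,0,⟨0,[(10,0),(4,0),(4,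
  0)]⟩,⟨0,[(0,0),(10,0),(9,0)]⟩⟩,.a ⟨true,0,⟨0,[(14,0)]⟩,⟨0,[(15,0)]⟩⟩ ⟨true,0,⟨0,[(26,0)]⟩,⟨0,[]⟩⟩
  ⟨false,1,⟨1,[(15,1),(0,0),(5,1),(1,0)]⟩,⟨0,[(2,0),(6,0),(1,0)]⟩⟩]⟩)))) (.R ⟨2,false,false,true,[0,
  1],[0,0,1],[0,1],(⟨0,[]⟩,⟨0,[]⟩),(⟨0,[(12,0)]⟩,⟨0,[(11,0)]⟩),⟨0,[]⟩,.k,.k,.k,(.x (-1) ⟨0,[(2,0)]⟩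
  ⟨3,[(8,3),(0,0),(0,0),(2,1),(1,3)]⟩),.k,.k,⟨true,0,⟨0,[(4,0),(12,0)]⟩,⟨0,[(0,0)]⟩⟩,⟨false,0,⟨7,
  [(8,3),(0,0),(0,0),(1,7),(0,1)]⟩,⟨0,[(3,0),(2,0)]⟩⟩,⟨false,1,⟨1,[(4,0),(1,0),(11,0),(2,0)]⟩,⟨0,
  [(17,0),(1,0)]⟩⟩,⟨true,0,⟨0,[(0,0),(11,0),(5,0)]⟩,⟨0,[(3,0)]⟩⟩,⟨false,1,⟨3,[(9,0),(0,0),(9,1)]⟩,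
  ⟨0,[(17,0)]⟩⟩,⟨false,0,⟨0,[(0,0),(11,0)]⟩,⟨4,[(1,2),(1,0),(2,0),(2,0),(1,0),(1,1),(7,0)]⟩⟩,[.a
  ⟨true,0,⟨1,[(7,0),(0,0),(1,0),(1,1),(5,0)]⟩,⟨0,[(1,0)]⟩⟩ ⟨true,0,⟨0,[(23,0)]⟩,⟨0,[(17,0)]⟩⟩
  ⟨false,0,⟨1,[(7,0),(0,0),(1,0),(1,1),(5,0)]⟩,⟨1,[(1,1),(11,0),(6,0)]⟩⟩,.e ⟨false,1,⟨3,[(9,0),(0,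
  0),(9,1)]⟩,⟨0,[]⟩⟩ ⟨false,0,⟨0,[(0,0),(11,0)]⟩,⟨1,[(1,0),(3,0),(7,0),(6,0)]⟩⟩,.o ⟨false,1,⟨1,[(13,
  0),(6,0)]⟩,⟨7,[(8,3),(0,0),(0,0),(2,1)]⟩⟩,.fo]⟩)) (.K ⟨0,[1,0,-1],0,0,(⟨0,[(10,0)]⟩,⟨0,[(11,0)]⟩),
  .k,(.x 0 ⟨0,[(14,0)]⟩ ⟨3,[(8,0),(0,0),(2,1),(0,3)]⟩),(.x (-1) ⟨0,[(1,0)]⟩ ⟨3,[(7,3),(0,0),(0,0),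
  (2,1),(1,3)]⟩),.k,.k,[⟨0,[(7,0),(3,0),(0,0)]⟩,⟨0,[(10,0)]⟩,⟨0,[(0,0)]⟩,⟨0,[(4,0)]⟩]⟩)) (.I [0,0,2,
  0,-1,1] (.Q [0,-1,-1,0,0,0,-1,1,-1] (.p false [0,0,1] [1] (⟨0,[(11,0)]⟩,⟨0,[(10,0)]⟩) .k 1 (⟨0,
  []⟩,⟨0,[]⟩) .k .k) (.I [1,0,1,0,0,0,1] (.R ⟨2,false,false,true,[0,1],[0,0,1],[0,1],(⟨0,[]⟩,⟨0,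
  []⟩),(⟨0,[(13,0)]⟩,⟨0,[(12,0)]⟩),⟨0,[]⟩,.k,.k,.k,(.x (-2) ⟨3,[(10,0),(0,0),(2,1),(0,3),(5,3)]⟩ ⟨0,
  [(2,0)]⟩),.k,.k,⟨true,0,⟨0,[(5,0),(12,0)]⟩,⟨0,[(0,0)]⟩⟩,⟨false,0,⟨7,[(9,3),(0,0),(0,0),(1,7),(0,
  1)]⟩,⟨0,[(4,0),(2,0)]⟩⟩,⟨false,1,⟨1,[(5,0),(1,0),(11,0),(2,0)]⟩,⟨0,[(18,0),(1,0)]⟩⟩,⟨true,0,⟨0,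
  [(0,0),(12,0),(5,0)]⟩,⟨0,[(4,0)]⟩⟩,⟨false,1,⟨3,[(10,0),(0,0),(9,1)]⟩,⟨0,[(18,0)]⟩⟩,⟨false,0,⟨0,
  [(0,0),(12,0)]⟩,⟨4,[(1,2),(2,0),(2,0),(2,0),(1,0),(1,1),(7,0)]⟩⟩,[.a ⟨true,0,⟨0,[(0,0),(12,0),(10,
  0)]⟩,⟨0,[(1,0)]⟩⟩ ⟨true,0,⟨0,[(24,0)]⟩,⟨0,[(18,0)]⟩⟩ ⟨false,0,⟨0,[(0,0),(12,0),(10,0)]⟩,⟨1,[(1,1),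
  (12,0),(6,0)]⟩⟩,.e ⟨false,1,⟨3,[(10,0),(0,0),(9,1)]⟩,⟨0,[]⟩⟩ ⟨false,0,⟨0,[(0,0),(12,0)]⟩,⟨1,[(1,
  0),(4,0),(7,0),(6,0)]⟩⟩,.o ⟨false,1,⟨1,[(14,0),(6,0)]⟩,⟨7,[(9,3),(0,0),(0,0),(2,1)]⟩⟩,.fo]⟩) (.Q
  [0,0,-1,0,0,0,0,1,-1] (.p false [0,0,1] [1] (⟨0,[(13,0)]⟩,⟨0,[(12,0)]⟩) .k 1 (⟨0,[]⟩,⟨0,[]⟩) .k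
  .k) (.I [0,0,1,1,0,0,1] (.R ⟨0,false,false,true,[0,0,1],[1,-1],[1,1,-1,-1],(⟨0,[(15,0)]⟩,⟨0,[(14,
  0)]⟩),(⟨0,[(17,0)]⟩,⟨0,[(18,0)]⟩),⟨1,[(1,1),(2,0),(11,0),(1,0)]⟩,.k,.k,(.x 1 ⟨0,[(4,0)]⟩ ⟨3,[(12,
  0),(0,0),(2,1),(0,3),(5,3)]⟩),(.r 0 ⟨0,[(0,0)]⟩ ⟨2,[(2,1),(6,0),(2,0),(8,1),(2,0)]⟩),.k,.k,⟨true,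
  0,⟨0,[]⟩,⟨7,[(11,3),(0,0),(0,0),(2,1)]⟩⟩,⟨false,0,⟨0,[(1,0)]⟩,⟨3,[(12,0),(0,0),(1,3),(0,1)]⟩⟩,
  ⟨true,0,⟨0,[(2,0),(18,0)]⟩,⟨0,[(0,0)]⟩⟩,⟨false,0,⟨0,[(3,0),(17,0)]⟩,⟨1,[(0,1),(14,1),(0,0),(7,
  0)]⟩⟩,⟨false,0,⟨0,[]⟩,⟨0,[]⟩⟩,⟨false,0,⟨0,[]⟩,⟨0,[]⟩⟩,[.o ⟨false,0,⟨0,[(21,0)]⟩,⟨1,[(16,0),(5,1),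
  (1,0)]⟩⟩,.e ⟨false,1,⟨0,[(2,0),(6,0)]⟩,⟨4,[(0,1),(9,0),(0,0),(0,0),(7,0),(1,1)]⟩⟩ ⟨false,1,⟨1,[(3,
  0),(4,0),(0,1)]⟩,⟨0,[(10,0),(4,0),(4,0)]⟩⟩,.a ⟨true,0,⟨7,[(11,3),(0,0),(0,0),(1,7),(0,1)]⟩,⟨0,[(1,
  0)]⟩⟩ ⟨false,1,⟨5,[(2,1),(6,3),(2,0),(8,1),(2,0)]⟩,⟨0,[(20,0),(1,0)]⟩⟩ ⟨true,0,⟨0,[(1,0),(19,0)]⟩,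
  ⟨0,[(10,0),(4,0),(4,0)]⟩⟩,.o ⟨false,0,⟨0,[(11,0),(3,0),(0,0)]⟩,⟨0,[(6,0),(2,0)]⟩⟩]⟩) (.Q [0,0,-2,
  1,1,0,0,-1] (.pp true [-1,1]) (.R ⟨0,false,false,false,[1,-1],[0,1],[1,1,1],(⟨0,[(18,0)]⟩,⟨0,[(19,
  0)]⟩),(⟨0,[(19,0)]⟩,⟨0,[(18,0)]⟩),⟨1,[(0,1),(0,0),(3,2),(4,0),(8,0)]⟩,.k,.k,(.r (-1) ⟨0,[(1,1),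
  (12,0)]⟩ ⟨3,[(12,3),(0,0),(0,0),(2,1),(5,7)]⟩),(.r (-1) ⟨0,[(1,1),(12,0)]⟩ ⟨3,[(12,3),(0,0),(0,0),
  (2,1),(5,7)]⟩),.k,.k,⟨true,0,⟨0,[(22,0)]⟩,⟨0,[(21,0),(1,0)]⟩⟩,⟨false,2,⟨1,[(17,0),(6,2)]⟩,⟨0,[(12,
  0)]⟩⟩,⟨true,(-1),⟨0,[(11,0),(0,0)]⟩,⟨1,[(1,0),(8,0),(13,0)]⟩⟩,⟨false,1,⟨1,[(17,0),(5,3),(1,0)]⟩,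
  ⟨0,[(1,0),(8,0),(1,0)]⟩⟩,⟨false,0,⟨0,[]⟩,⟨0,[]⟩⟩,⟨false,0,⟨0,[]⟩,⟨0,[]⟩⟩,[.e ⟨false,0,⟨0,[(27,
  0)]⟩,⟨1,[(24,0),(0,0)]⟩⟩ ⟨false,1,⟨0,[(0,0)]⟩,⟨3,[(1,0),(8,2),(1,3),(0,0)]⟩⟩,.o ⟨false,1,⟨1,[(17,
  0),(5,1),(1,0)]⟩,⟨0,[(22,0)]⟩⟩,.o ⟨false,0,⟨7,[(12,3),(0,0),(0,0),(2,1)]⟩,⟨1,[(17,0),(6,0)]⟩⟩,.a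
  ⟨true,(-1),⟨0,[(12,0)]⟩,⟨0,[(24,0)]⟩⟩ ⟨false,0,⟨0,[]⟩,⟨3,[(13,0),(0,0),(10,1)]⟩⟩ ⟨true,1,⟨0,[(0,
  0)]⟩,⟨0,[(12,0),(9,0)]⟩⟩]⟩) (.R ⟨0,false,false,true,[0,0,1],[0,1],[0,1,1,1],(⟨0,[(16,0)]⟩,⟨0,[(15,
  0)]⟩),(⟨0,[(19,0)]⟩,⟨0,[(18,0)]⟩),⟨1,[(2,1),(2,0),(11,0),(1,0)]⟩,.k,.k,(.x 1 ⟨0,[(5,0)]⟩ ⟨3,[(13,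
  0),(0,0),(2,1),(0,3),(5,3)]⟩),(.x 1 ⟨0,[(5,0)]⟩ ⟨3,[(13,0),(0,0),(2,1),(0,3),(5,3)]⟩),.k,.k,
  ⟨false,1,⟨3,[(13,0),(0,0),(9,1)]⟩,⟨0,[]⟩⟩,⟨true,1,⟨0,[(7,0),(2,0)]⟩,⟨0,[(0,0),(10,0),(4,0),(4,
  0)]⟩⟩,⟨true,(-1),⟨0,[(3,0),(7,0),(0,0)]⟩,⟨0,[(10,0)]⟩⟩,⟨false,0,⟨0,[(7,0)]⟩,⟨11,[(0,7),(9,3),(2,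
  0),(0,4),(1,11),(0,3),(7,5)]⟩⟩,⟨false,0,⟨0,[]⟩,⟨0,[]⟩⟩,⟨false,0,⟨0,[]⟩,⟨0,[]⟩⟩,[.o ⟨false,0,⟨0,
  [(11,0)]⟩,⟨5,[(0,1),(0,0),(8,2),(2,0),(3,0),(7,2)]⟩⟩,.e ⟨false,0,⟨0,[(23,0)]⟩,⟨3,[(1,0),(8,2),(2,
  0)]⟩⟩ ⟨false,1,⟨1,[(7,1),(6,0),(9,0)]⟩,⟨11,[(0,7),(0,0),(8,2),(2,0),(2,11),(0,3)]⟩⟩,.a ⟨true,0,⟨7,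
  [(12,3),(0,0),(0,0),(1,7),(0,1)]⟩,⟨0,[(2,0)]⟩⟩ ⟨false,0,⟨7,[(12,3),(0,0),(0,0),(2,1),(5,7)]⟩,⟨1,
  [(1,0),(8,0),(14,0)]⟩⟩ ⟨true,0,⟨0,[(2,0),(8,0)]⟩,⟨11,[(0,7),(0,0),(8,2),(2,0),(2,11),(0,3)]⟩⟩,.o
  ⟨false,0,⟨0,[(12,0),(3,0),(0,0)]⟩,⟨0,[(7,0),(2,0)]⟩⟩]⟩))) (.Q [0,1,1,-1,0,0,1,0,1] (.p true [0,0,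
  1] [] (⟨0,[(14,0)]⟩,⟨0,[(13,0)]⟩) .k 0 (⟨0,[]⟩,⟨0,[]⟩) .k .k) (.R ⟨0,false,false,false,[0,0,1],[0,
  1],[1],(⟨0,[(15,0)]⟩,⟨0,[(14,0)]⟩),(⟨0,[(18,0)]⟩,⟨0,[(17,0)]⟩),⟨0,[(4,0),(1,0),(2,0)]⟩,.k,.k,(.x
  1 ⟨0,[(4,0)]⟩ ⟨3,[(12,0),(0,0),(2,1),(0,3),(5,3)]⟩),(.x 1 ⟨0,[(4,0)]⟩ ⟨3,[(12,0),(0,0),(2,1),(0,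
  3),(5,3)]⟩),.k,.k,⟨false,1,⟨0,[(2,0),(6,0)]⟩,⟨7,[(11,3),(0,0),(0,0),(2,1),(5,7)]⟩⟩,⟨true,1,⟨0,[(6,
  0),(2,0)]⟩,⟨0,[(1,0),(9,0)]⟩⟩,⟨false,0,⟨0,[(1,0),(1,0)]⟩,⟨3,[(12,0),(0,2)]⟩⟩,⟨true,0,⟨0,[(6,0)]⟩,
  ⟨0,[(0,0)]⟩⟩,⟨false,0,⟨0,[]⟩,⟨0,[]⟩⟩,⟨false,0,⟨0,[]⟩,⟨0,[]⟩⟩,[.a ⟨true,0,⟨0,[(22,0)]⟩,⟨0,[(0,0),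
  (2,0)]⟩⟩ ⟨true,0,⟨0,[]⟩,⟨7,[(11,3),(0,0),(0,0),(2,1)]⟩⟩ ⟨false,1,⟨1,[(6,1),(6,0),(9,0)]⟩,⟨0,[(15,
  0),(4,0),(0,0)]⟩⟩,.o ⟨false,1,⟨1,[(16,0),(5,1),(1,0)]⟩,⟨0,[(21,0)]⟩⟩,.o ⟨false,0,⟨0,[(1,0)]⟩,⟨7,
  [(6,3),(2,3),(2,0),(0,0),(0,3),(1,1)]⟩⟩,.o ⟨false,0,⟨7,[(1,7),(9,3),(0,0),(0,0),(2,1)]⟩,⟨0,[(6,0),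
  (2,0)]⟩⟩]⟩) (.I [0,0,-2,-2,1] (.R ⟨0,false,false,false,[1,-1],[0,1],[0,1,-1,-2],(⟨0,[(18,0)]⟩,⟨0,
  [(19,0)]⟩),(⟨0,[(19,0)]⟩,⟨0,[(18,0)]⟩),⟨1,[(0,0),(0,1),(3,2),(4,1),(0,1),(4,1),(2,0)]⟩,.k,.k,(.r
  (-1) ⟨0,[(0,0)]⟩ ⟨3,[(12,3),(0,0),(0,0),(2,1),(5,7)]⟩),(.r (-1) ⟨0,[(0,0)]⟩ ⟨3,[(12,3),(0,0),(0,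
  0),(2,1),(5,7)]⟩),.k,.k,⟨true,1,⟨0,[(0,0),(21,0)]⟩,⟨0,[(1,1),(0,0),(8,0),(0,1),(1,0),(1,0)]⟩⟩,
  ⟨false,2,⟨1,[(17,0),(6,2)]⟩,⟨0,[(12,0)]⟩⟩,⟨true,0,⟨0,[(22,0)]⟩,⟨0,[(23,0)]⟩⟩,⟨false,1,⟨1,[(17,0),
  (5,3),(1,0)]⟩,⟨0,[(0,0),(11,0)]⟩⟩,⟨false,0,⟨0,[]⟩,⟨0,[]⟩⟩,⟨false,0,⟨0,[]⟩,⟨0,[]⟩⟩,[.e ⟨false,1,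
  ⟨11,[(0,8),(9,1),(2,0),(6,3),(1,3)]⟩,⟨0,[(21,0),(1,1)]⟩⟩ ⟨false,1,⟨0,[(1,0),(8,0),(0,0),(4,0)]⟩,
  ⟨3,[(0,0),(9,1),(1,3),(0,0)]⟩⟩,.o ⟨false,1,⟨1,[(17,0),(5,1),(1,0)]⟩,⟨0,[(22,0)]⟩⟩,.o ⟨false,0,⟨7,
  [(12,3),(0,0),(0,0),(2,1)]⟩,⟨1,[(17,0),(6,0)]⟩⟩,.a ⟨true,(-1),⟨0,[(12,0)]⟩,⟨0,[(24,0)]⟩⟩ ⟨false,1,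
  ⟨0,[(0,0)]⟩,⟨1,[(12,1),(4,0),(5,3),(1,0)]⟩⟩ ⟨true,1,⟨0,[(1,0),(8,0),(0,0),(4,0)]⟩,⟨0,[(12,0),(9,
  0)]⟩⟩]⟩) (.I [0,0,2,2,-1] (.R ⟨0,false,false,true,[1,-1],[1,0,-1],[0,1,-1,-2],(⟨0,[(19,0)]⟩,⟨0,
  [(20,0)]⟩),(⟨0,[(16,0)]⟩,⟨0,[(17,0)]⟩),⟨0,[(2,0),(1,0),(1,1),(4,1),(0,0),(4,0)]⟩,.k,.k,(.r (-2)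
  ⟨2,[(4,1),(6,3),(2,0),(8,1),(2,0)]⟩ ⟨0,[(0,0)]⟩),(.x 1 ⟨0,[(6,0)]⟩ ⟨3,[(14,0),(0,0),(2,1),(0,3),
  (5,3)]⟩),.k,.k,⟨false,2,⟨5,[(4,1),(6,9),(2,0),(8,1),(2,0)]⟩,⟨0,[(1,0),(2,0)]⟩⟩,⟨true,1,⟨0,[(8,0),
  (2,0)]⟩,⟨0,[(3,0),(9,0)]⟩⟩,⟨true,0,⟨0,[(23,0)]⟩,⟨0,[(24,0)]⟩⟩,⟨false,0,⟨0,[(8,0)]⟩,⟨11,[(3,7),(7,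
  11),(1,7),(0,0),(0,0),(1,3),(8,5)]⟩⟩,⟨false,0,⟨0,[]⟩,⟨0,[]⟩⟩,⟨false,0,⟨0,[]⟩,⟨0,[]⟩⟩,[.o ⟨false,0,
  ⟨0,[(8,0),(14,0)]⟩,⟨1,[(3,1),(11,0),(10,0)]⟩⟩,.o ⟨false,0,⟨0,[(2,0),(20,0)]⟩,⟨3,[(3,3),(10,0),(0,
  2)]⟩⟩,.o ⟨false,0,⟨7,[(13,3),(0,0),(0,0),(2,1)]⟩,⟨1,[(18,0),(6,0)]⟩⟩,.a ⟨true,(-1),⟨0,[(13,0)]⟩,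
  ⟨0,[(25,0)]⟩⟩ ⟨true,1,⟨0,[(4,0),(6,0),(11,0)]⟩,⟨0,[(1,0)]⟩⟩ ⟨false,1,⟨0,[(4,0),(3,0),(2,0)]⟩,⟨1,
  [(3,1),(9,1),(1,0),(10,0)]⟩⟩]⟩) (.R ⟨0,false,false,false,[1,-1],[0,1],[1,1,-1,-2],(⟨0,[(19,0)]⟩,
  ⟨0,[(20,0)]⟩),(⟨0,[(20,0)]⟩,⟨0,[(19,0)]⟩),⟨1,[(0,0),(1,1),(3,2),(4,1),(0,1),(4,1),(2,0)]⟩,.k,.k,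
  (.x 1 ⟨0,[(6,0),(13,0)]⟩ ⟨0,[(18,0),(0,1),(5,0)]⟩),(.x 1 ⟨0,[(6,0),(13,0)]⟩ ⟨0,[(18,0),(0,1),(5,
  0)]⟩),.k,.k,⟨true,1,⟨0,[(0,0),(22,0)]⟩,⟨1,[(1,2),(24,0)]⟩⟩,⟨false,2,⟨1,[(18,0),(6,2)]⟩,⟨0,[(13,
  0)]⟩⟩,⟨true,0,⟨0,[(23,0)]⟩,⟨0,[(24,0)]⟩⟩,⟨false,1,⟨1,[(18,0),(5,3),(1,0)]⟩,⟨0,[(0,0),(12,0)]⟩⟩,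
  ⟨false,0,⟨0,[]⟩,⟨0,[]⟩⟩,⟨false,0,⟨0,[]⟩,⟨0,[]⟩⟩,[.e ⟨false,1,⟨11,[(0,8),(10,1),(2,0),(6,3),(1,
  3)]⟩,⟨1,[(1,0),(22,1),(1,0)]⟩⟩ ⟨false,1,⟨0,[(2,0),(8,0),(0,0),(4,0)]⟩,⟨3,[(0,0),(10,1),(1,3),(0,
  0)]⟩⟩,.o ⟨false,1,⟨1,[(18,0),(5,1),(1,0)]⟩,⟨0,[(23,0)]⟩⟩,.o ⟨false,0,⟨7,[(13,3),(0,0),(0,0),(2,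
  1)]⟩,⟨1,[(18,0),(6,0)]⟩⟩,.a ⟨true,(-1),⟨0,[(13,0)]⟩,⟨0,[(25,0)]⟩⟩ ⟨false,1,⟨0,[(0,0)]⟩,⟨3,[(1,3),
  (12,0),(0,0),(10,1)]⟩⟩ ⟨true,1,⟨0,[(2,0),(8,0),(0,0),(4,0)]⟩,⟨0,[(13,0),(9,0)]⟩⟩]⟩)))))) (.K ⟨0,
  [1,0,-1],0,0,(⟨0,[(11,0)]⟩,⟨0,[(12,0)]⟩),.k,(.x 0 ⟨0,[(15,0)]⟩ ⟨3,[(9,0),(0,0),(2,1),(0,3)]⟩),(.x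
  (-2) ⟨3,[(9,0),(0,0),(2,1),(0,3),(5,3)]⟩ ⟨0,[(1,0)]⟩),.k,.k,[⟨0,[(8,0),(3,0),(0,0)]⟩,⟨0,[(11,0)]⟩,
  ⟨0,[(0,0)]⟩,⟨0,[(5,0)]⟩]⟩)) t1))

def t3 : Tre :=
  (.I [0,0,0,0,0,0,-1] (.Q [0,0,0,-1,0,0,0,1] (.pp false [-1,1]) (.Q [0,0,0,-2,0,0,0,1] (.pp false
  [-1,1]) (.I [0,1,2,1,-1,0,1] (.Q [0,0,0,0,0,1,0,-1,1] (.ed false [0,1,1] .k) (.Q [0,0,0,-1,0,0,0,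
  0,1] (.p true [0,0,1] [] (⟨0,[(16,0)]⟩,⟨0,[(15,0)]⟩) .k 0 (⟨0,[]⟩,⟨0,[]⟩) .k .k) (.R ⟨0,false,
  false,true,[1,0,-1],[1,-1],[0,1,0,0,0,0,-1],(⟨0,[(16,0)]⟩,⟨0,[(17,0)]⟩),(⟨0,[(19,0)]⟩,⟨0,[(20,
  0)]⟩),⟨0,[(1,0)]⟩,.k,.k,(.x 0 ⟨0,[(20,0)]⟩ ⟨3,[(14,0),(0,0),(2,1),(0,3)]⟩),(.r 0 ⟨2,[(7,0),(0,0),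
  (3,0),(0,0),(0,0),(9,1)]⟩ ⟨0,[(10,0),(5,0),(6,0),(1,0)]⟩),.k,.k,⟨false,0,⟨0,[(5,0),(18,0)]⟩,⟨0,
  [(11,0)]⟩⟩,⟨true,(-1),⟨0,[(8,0)]⟩,⟨1,[(16,1),(1,0),(6,0)]⟩⟩,⟨true,0,⟨23,[(2,3),(11,2),(0,0),(5,7),
  (1,3)]⟩,⟨0,[]⟩⟩,⟨false,0,⟨2,[(0,0),(5,0),(1,0),(6,0),(7,0)]⟩,⟨0,[(7,0),(16,0)]⟩⟩,⟨false,0,⟨0,[]⟩,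
  ⟨0,[]⟩⟩,⟨false,0,⟨0,[]⟩,⟨0,[]⟩⟩,[.o ⟨false,0,⟨0,[(23,0)]⟩,⟨1,[(18,0),(5,1),(1,0)]⟩⟩,.a ⟨true,0,⟨0,
  [(4,0)]⟩,⟨0,[(24,0)]⟩⟩ ⟨true,0,⟨0,[(5,0)]⟩,⟨5,[(2,1),(3,1),(8,0),(0,1),(1,0)]⟩⟩ ⟨false,0,⟨0,[(0,
  0)]⟩,⟨3,[(7,1),(4,1),(2,0),(0,1),(7,1),(0,0)]⟩⟩,.o ⟨false,1,⟨1,[(16,1),(1,0),(6,0)]⟩,⟨1,[(8,0),(8,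
  0),(0,0)]⟩⟩,.e ⟨false,1,⟨1,[(14,0),(10,0)]⟩,⟨0,[(10,0),(5,0)]⟩⟩ ⟨false,0,⟨0,[(0,0)]⟩,⟨3,[(2,1),(4,
  3),(7,0),(8,1),(1,0)]⟩⟩]⟩) (.R ⟨0,false,false,true,[1,0,-1],[1,-1],[0,1,0,0,0,0,-1],(⟨0,[(16,0)]⟩,
  ⟨0,[(17,0)]⟩),(⟨0,[(19,0)]⟩,⟨0,[(20,0)]⟩),⟨0,[(1,0)]⟩,.k,.k,(.x 0 ⟨0,[(20,0)]⟩ ⟨3,[(14,0),(0,0),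
  (2,1),(0,3)]⟩),(.r 0 ⟨1,[(0,0),(7,0),(5,0),(9,0)]⟩ ⟨0,[(0,2),(2,1),(1,0),(2,0),(1,1),(10,0),(3,
  1)]⟩),.k,.k,⟨false,0,⟨0,[(5,0),(18,0)]⟩,⟨0,[(11,0)]⟩⟩,⟨true,(-1),⟨0,[(8,0)]⟩,⟨11,[(0,5),(6,3),(1,
  1),(1,3),(3,0),(2,0),(2,1)]⟩⟩,⟨true,0,⟨23,[(2,3),(11,2),(0,0),(5,7),(1,3)]⟩,⟨0,[]⟩⟩,⟨false,0,⟨15,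
  [(6,11),(1,3),(5,0),(0,2),(5,3),(1,3)]⟩,⟨0,[(7,0),(16,0)]⟩⟩,⟨false,0,⟨0,[]⟩,⟨0,[]⟩⟩,⟨false,0,⟨0,
  []⟩,⟨0,[]⟩⟩,[.o ⟨false,0,⟨0,[(23,0)]⟩,⟨1,[(18,0),(5,1),(1,0)]⟩⟩,.e ⟨true,0,⟨0,[(5,0)]⟩,⟨5,[(2,1),
  (3,1),(8,0),(0,1),(1,0)]⟩⟩ ⟨true,0,⟨3,[(6,1),(1,0),(5,0),(2,0),(5,1)]⟩,⟨0,[(0,0)]⟩⟩,.o ⟨false,1,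
  ⟨11,[(0,5),(6,3),(1,1),(1,3),(3,0),(2,0),(2,1)]⟩,⟨1,[(8,0),(8,0),(0,0)]⟩⟩,.a ⟨true,0,⟨0,[(16,0)]⟩,
  ⟨0,[(17,0)]⟩⟩ ⟨false,1,⟨1,[(14,0),(10,0)]⟩,⟨0,[(10,0),(5,0)]⟩⟩ ⟨true,0,⟨0,[(17,0),(5,0)]⟩,⟨0,[(0,
  0)]⟩⟩]⟩)) (.Q [0,0,0,-1,0,0,0,0,1] (.p true [0,0,1] [] (⟨0,[(16,0)]⟩,⟨0,[(15,0)]⟩) .k 0 (⟨0,[]⟩,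
  ⟨0,[]⟩) .k .k) (.R ⟨1,false,false,true,[1,0,-1],[1,-1],[0,1,0,0,0,0,-1],(⟨0,[(16,0)]⟩,⟨0,[(17,
  0)]⟩),(⟨0,[(19,0)]⟩,⟨0,[(20,0)]⟩),⟨0,[(1,0)]⟩,.k,.k,(.x 0 ⟨0,[(20,0)]⟩ ⟨3,[(14,0),(0,0),(2,1),(0,
  3)]⟩),(.r 0 ⟨2,[(7,0),(0,0),(3,0),(0,0),(0,0),(9,1)]⟩ ⟨0,[(1,0),(8,0),(9,0),(2,0),(1,0)]⟩),.k,.k,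
  ⟨false,0,⟨0,[(5,0),(18,0)]⟩,⟨0,[(11,0)]⟩⟩,⟨true,(-1),⟨0,[(8,0)]⟩,⟨1,[(16,1),(1,0),(6,0)]⟩⟩,⟨true,
  0,⟨23,[(2,3),(11,2),(0,0),(5,7),(1,3)]⟩,⟨0,[]⟩⟩,⟨false,0,⟨2,[(0,0),(5,0),(1,0),(6,0),(7,0)]⟩,⟨0,
  [(7,0),(16,0)]⟩⟩,⟨false,0,⟨0,[(24,0)]⟩,⟨7,[(3,3),(10,0),(0,0),(2,1),(7,3)]⟩⟩,⟨false,0,⟨1,[(8,0),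
  (6,0),(1,0)]⟩,⟨0,[(7,0)]⟩⟩,[.o ⟨false,0,⟨0,[(23,0)]⟩,⟨1,[(18,0),(5,1),(1,0)]⟩⟩,.a ⟨true,0,⟨0,[(4,
  0)]⟩,⟨0,[(24,0)]⟩⟩ ⟨true,0,⟨0,[(5,0)]⟩,⟨5,[(2,1),(3,1),(8,0),(0,1),(1,0)]⟩⟩ ⟨false,0,⟨0,[(0,0)]⟩,
  ⟨3,[(7,1),(4,1),(2,0),(0,1),(7,1),(0,0)]⟩⟩,.o ⟨false,1,⟨1,[(16,1),(1,0),(6,0)]⟩,⟨1,[(8,0),(8,0),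
  (0,0)]⟩⟩,.e ⟨false,1,⟨1,[(14,0),(10,0)]⟩,⟨0,[(10,0),(5,0)]⟩⟩ ⟨false,0,⟨0,[(0,0)]⟩,⟨3,[(2,1),(4,3),
  (7,0),(8,1),(1,0)]⟩⟩]⟩) (.R ⟨1,false,false,true,[1,0,-1],[1,-1],[0,1,0,0,0,0,-1],(⟨0,[(16,0)]⟩,⟨0,
  [(17,0)]⟩),(⟨0,[(19,0)]⟩,⟨0,[(20,0)]⟩),⟨0,[(1,0)]⟩,.k,.k,(.x 0 ⟨0,[(20,0)]⟩ ⟨3,[(14,0),(0,0),(2,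
  1),(0,3)]⟩),(.r 0 ⟨1,[(0,0),(7,0),(5,0),(9,0)]⟩ ⟨0,[(0,2),(2,1),(1,0),(2,0),(1,1),(10,0),(3,1)]⟩),
  .k,.k,⟨false,0,⟨0,[(5,0),(18,0)]⟩,⟨0,[(11,0)]⟩⟩,⟨true,(-1),⟨0,[(8,0)]⟩,⟨11,[(0,5),(6,3),(1,1),(1,
  3),(3,0),(2,0),(2,1)]⟩⟩,⟨true,0,⟨23,[(2,3),(11,2),(0,0),(5,7),(1,3)]⟩,⟨0,[]⟩⟩,⟨false,0,⟨15,[(6,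
  11),(1,3),(5,0),(0,2),(5,3),(1,3)]⟩,⟨0,[(7,0),(16,0)]⟩⟩,⟨false,0,⟨0,[(24,0)]⟩,⟨7,[(3,3),(10,0),(0,
  0),(2,1),(7,3)]⟩⟩,⟨false,0,⟨1,[(8,0),(6,0),(1,0)]⟩,⟨0,[(7,0)]⟩⟩,[.o ⟨false,0,⟨0,[(23,0)]⟩,⟨1,[(18,
  0),(5,1),(1,0)]⟩⟩,.e ⟨true,0,⟨0,[(5,0)]⟩,⟨5,[(2,1),(3,1),(8,0),(0,1),(1,0)]⟩⟩ ⟨true,0,⟨3,[(6,1),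
  (1,0),(5,0),(2,0),(5,1)]⟩,⟨0,[(0,0)]⟩⟩,.o ⟨false,1,⟨11,[(0,5),(6,3),(1,1),(1,3),(3,0),(2,0),(2,
  1)]⟩,⟨1,[(8,0),(8,0),(0,0)]⟩⟩,.a ⟨true,0,⟨0,[(16,0)]⟩,⟨0,[(17,0)]⟩⟩ ⟨false,1,⟨1,[(14,0),(10,0)]⟩,
  ⟨0,[(10,0),(5,0)]⟩⟩ ⟨true,0,⟨0,[(17,0),(5,0)]⟩,⟨0,[(0,0)]⟩⟩]⟩))) (.Q [0,0,0,0,0,1,0,-1,1] (.ed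
  false [0,1,1] .k) (.R ⟨0,false,false,true,[1,0,-1],[1,-1],[0,1,0,0,0,0,-1],(⟨0,[(15,0)]⟩,⟨0,[(16,
  0)]⟩),(⟨0,[(18,0)]⟩,⟨0,[(19,0)]⟩),⟨0,[(0,0)]⟩,.k,.k,(.x 0 ⟨0,[(19,0)]⟩ ⟨3,[(13,0),(0,0),(2,1),(0,
  3)]⟩),(.r 0 ⟨2,[(6,0),(0,0),(3,0),(0,0),(0,0),(9,1)]⟩ ⟨0,[(1,0),(2,0),(4,2),(5,2),(4,1)]⟩),.k,.k,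
  ⟨false,0,⟨0,[(4,0),(18,0)]⟩,⟨0,[(10,0)]⟩⟩,⟨true,(-1),⟨0,[(7,0)]⟩,⟨1,[(15,1),(1,0),(6,0)]⟩⟩,⟨true,
  0,⟨0,[(27,0)]⟩,⟨0,[]⟩⟩,⟨false,0,⟨15,[(5,11),(1,3),(5,0),(0,2),(5,3),(1,3)]⟩,⟨0,[(6,0),(16,0)]⟩⟩,
  ⟨false,0,⟨0,[]⟩,⟨0,[]⟩⟩,⟨false,0,⟨0,[]⟩,⟨0,[]⟩⟩,[.o ⟨false,0,⟨0,[(22,0)]⟩,⟨1,[(17,0),(5,1),(1,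
  0)]⟩⟩,.a ⟨true,0,⟨0,[(3,0)]⟩,⟨0,[(23,0)]⟩⟩ ⟨true,0,⟨0,[(4,0)]⟩,⟨3,[(9,1),(1,0),(0,0),(1,0),(0,1),
  (6,0)]⟩⟩ ⟨false,0,⟨1,[(1,0),(3,0),(1,0),(12,0)]⟩,⟨3,[(6,1),(4,1),(2,0),(0,1),(7,1),(0,0)]⟩⟩,.o
  ⟨false,1,⟨1,[(15,1),(1,0),(6,0)]⟩,⟨1,[(7,0),(8,0),(0,0)]⟩⟩,.e ⟨false,1,⟨1,[(13,0),(10,0)]⟩,⟨0,[(9,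
  0),(5,0)]⟩⟩ ⟨false,0,⟨1,[(1,0),(3,0),(1,0),(12,0)]⟩,⟨1,[(15,1),(1,0),(5,1),(1,0)]⟩⟩]⟩) (.R ⟨1,
  false,false,true,[1,0,-1],[1,-1],[0,1,0,0,0,0,-1],(⟨0,[(15,0)]⟩,⟨0,[(16,0)]⟩),(⟨0,[(18,0)]⟩,⟨0,
  [(19,0)]⟩),⟨0,[(0,0)]⟩,.k,.k,(.x 0 ⟨0,[(19,0)]⟩ ⟨3,[(13,0),(0,0),(2,1),(0,3)]⟩),(.r 0 ⟨2,[(6,0),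
  (0,0),(3,0),(0,0),(0,0),(9,1)]⟩ ⟨0,[(0,3),(0,1),(5,0),(1,2),(1,0),(7,3),(0,1)]⟩),.k,.k,⟨false,0,
  ⟨0,[(4,0),(18,0)]⟩,⟨0,[(10,0)]⟩⟩,⟨true,(-1),⟨0,[(7,0)]⟩,⟨1,[(15,1),(1,0),(6,0)]⟩⟩,⟨true,0,⟨0,[(27,
  0)]⟩,⟨0,[]⟩⟩,⟨false,0,⟨15,[(5,11),(1,3),(5,0),(0,2),(5,3),(1,3)]⟩,⟨0,[(6,0),(16,0)]⟩⟩,⟨false,0,⟨0,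
  [(23,0)]⟩,⟨7,[(2,3),(10,0),(0,0),(2,1),(7,3)]⟩⟩,⟨false,0,⟨1,[(7,0),(6,0),(1,0)]⟩,⟨0,[(6,0)]⟩⟩,[.o
  ⟨false,0,⟨0,[(22,0)]⟩,⟨1,[(17,0),(5,1),(1,0)]⟩⟩,.a ⟨true,0,⟨0,[(3,0)]⟩,⟨0,[(23,0)]⟩⟩ ⟨true,0,⟨0,
  [(4,0)]⟩,⟨3,[(9,1),(1,0),(0,0),(1,0),(0,1),(6,0)]⟩⟩ ⟨false,0,⟨1,[(1,0),(3,0),(1,0),(12,0)]⟩,⟨3,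
  [(6,1),(4,1),(2,0),(0,1),(7,1),(0,0)]⟩⟩,.o ⟨false,1,⟨1,[(15,1),(1,0),(6,0)]⟩,⟨1,[(7,0),(8,0),(0,
  0)]⟩⟩,.e ⟨false,1,⟨1,[(13,0),(10,0)]⟩,⟨0,[(9,0),(5,0)]⟩⟩ ⟨false,0,⟨1,[(1,0),(3,0),(1,0),(12,0)]⟩,
  ⟨1,[(15,1),(1,0),(5,1),(1,0)]⟩⟩]⟩))) (.R ⟨2,true,false,true,[0,1],[1,-1],[1,0,1],(⟨0,[]⟩,⟨0,[]⟩),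
  (⟨0,[(16,0)]⟩,⟨0,[(17,0)]⟩),⟨0,[]⟩,.k,.k,.k,(.r 1 ⟨0,[(0,0),(9,0)]⟩ ⟨2,[(3,1),(2,1),(8,0),(4,1),
  (1,2)]⟩),.k,.k,⟨false,0,⟨1,[(0,0),(9,0),(12,0)]⟩,⟨0,[(20,0),(1,0)]⟩⟩,⟨true,(-1),⟨0,[(10,0)]⟩,⟨1,
  [(15,0),(6,0)]⟩⟩,⟨false,1,⟨3,[(3,1),(2,1),(8,0),(7,0)]⟩,⟨0,[(21,0)]⟩⟩,⟨true,0,⟨0,[(1,0),(18,0)]⟩,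
  ⟨0,[(0,0)]⟩⟩,⟨true,0,⟨0,[]⟩,⟨0,[(25,0)]⟩⟩,⟨false,0,⟨0,[(1,0)]⟩,⟨7,[(0,3),(10,0),(0,0),(2,1),(7,
  3)]⟩⟩,[]⟩)) (.Q [0,0,0,0,0,2,0,-1] (.pp true [-1,1]) (.R ⟨0,false,false,true,[1,-1],[1,0,-1],[0,1,
  -1,-1],(⟨0,[(16,0)]⟩,⟨0,[(17,0)]⟩),(⟨0,[(13,0)]⟩,⟨0,[(14,0)]⟩),⟨0,[(0,0)]⟩,.k,.k,(.r (-2) ⟨2,[(3,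
  1),(2,1),(8,0),(4,1),(1,2)]⟩ ⟨0,[(1,0),(8,0),(10,0)]⟩),(.r (-1) ⟨0,[(1,0),(1,0),(9,0),(6,0),(1,
  0)]⟩ ⟨1,[(1,0),(8,0),(0,0),(9,0)]⟩),.k,.k,⟨true,1,⟨0,[(1,0),(1,0),(9,0),(6,0),(1,0)]⟩,⟨0,[(1,0),
  (0,0),(7,0)]⟩⟩,⟨false,2,⟨1,[(13,1),(1,0),(6,2)]⟩,⟨0,[(5,0)]⟩⟩,⟨true,0,⟨0,[(25,0)]⟩,⟨0,[]⟩⟩,⟨false,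
  1,⟨15,[(4,11),(4,3),(1,2),(0,0),(0,3),(4,3),(2,11)]⟩,⟨0,[(3,0)]⟩⟩,⟨false,0,⟨0,[]⟩,⟨0,[]⟩⟩,⟨false,
  0,⟨0,[]⟩,⟨0,[]⟩⟩,[.o ⟨false,1,⟨0,[(6,0),(2,0)]⟩,⟨0,[(7,0)]⟩⟩,.o ⟨false,1,⟨1,[(4,0),(1,0),(2,0)]⟩,
  ⟨5,[(5,1),(1,3),(4,0),(2,0),(2,1)]⟩⟩,.o ⟨false,0,⟨7,[(10,3),(0,0),(0,0),(2,1)]⟩,⟨1,[(15,0),(6,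
  0)]⟩⟩,.a ⟨true,(-1),⟨0,[(10,0)]⟩,⟨0,[(22,0)]⟩⟩ ⟨true,1,⟨0,[(20,0),(1,0)]⟩,⟨0,[(1,0),(8,0)]⟩⟩
  ⟨false,2,⟨7,[(4,7),(6,0),(0,0),(5,3),(3,5)]⟩,⟨0,[(7,0),(2,0)]⟩⟩]⟩) (.S ⟨1,0,[0,1,-1,-1],[1,-1],[1,
  0,-1,-2],(⟨0,[(16,0)]⟩,⟨0,[(17,0)]⟩),⟨0,[(0,0)]⟩,.k,(.r (-2) ⟨2,[(3,1),(2,1),(8,0),(4,1),(1,2)]⟩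
  ⟨0,[(1,0),(8,0),(10,0)]⟩),⟨false,1,⟨3,[(3,1),(2,1),(8,0),(7,0)]⟩,⟨0,[(21,0)]⟩⟩,⟨true,0,⟨0,[(25,
  0)]⟩,⟨0,[]⟩⟩,⟨true,0,⟨0,[]⟩,⟨0,[(25,0)]⟩⟩,⟨false,0,⟨0,[(21,0)]⟩,⟨3,[(3,1),(2,1),(8,0),(7,0)]⟩⟩,
  [.o ⟨false,0,⟨0,[(20,0)]⟩,⟨1,[(15,0),(5,1),(1,0)]⟩⟩,.o ⟨false,1,⟨11,[(3,3),(2,3),(4,2),(0,2),(2,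
  1),(4,3)]⟩,⟨0,[(1,0)]⟩⟩,.o ⟨false,0,⟨7,[(10,3),(0,0),(0,0),(2,1)]⟩,⟨1,[(15,0),(6,0)]⟩⟩,.a ⟨true,
  (-1),⟨0,[(10,0)]⟩,⟨0,[(22,0)]⟩⟩ ⟨false,2,⟨0,[(3,0),(0,0),(15,0),(1,0)]⟩,⟨0,[(1,0),(8,0),(10,0)]⟩⟩
  ⟨true,1,⟨0,[(20,0),(1,0)]⟩,⟨0,[(1,0),(8,0)]⟩⟩]⟩))) (.I [1,0,0,0,0,0,-1] (.N [0,0,1] 0 ⟨0,[(1,0)]⟩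
  ⟨0,[(0,0)]⟩ .k) (.Q [0,0,0,0,0,-1,0,0,1] (.ed false [1,-1,1] .k) (.Q [0,0,-2,-1,1,0,0,1,-1] (.p
  false [0,0,1] [1] (⟨0,[(14,0)]⟩,⟨0,[(13,0)]⟩) .k 1 (⟨0,[]⟩,⟨0,[]⟩) .k .k) (.R ⟨1,false,false,true,
  [0,0,1],[1,-1],[0,1,0,0,0,0,1],(⟨0,[(15,0)]⟩,⟨0,[(14,0)]⟩),(⟨0,[(17,0)]⟩,⟨0,[(18,0)]⟩),⟨0,[(1,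
  0)]⟩,.k,.k,(.r (-1) ⟨0,[(2,1),(2,0),(0,0),(14,0),(1,0)]⟩ ⟨2,[(5,0),(0,0),(3,0),(0,0),(0,0),(9,
  1)]⟩),(.x (-1) ⟨3,[(12,0),(0,0),(2,1),(0,3)]⟩ ⟨0,[(18,0)]⟩),.k,.k,⟨false,0,⟨0,[(2,0),(19,0)]⟩,⟨0,
  [(5,0),(9,0),(5,0)]⟩⟩,⟨true,0,⟨0,[(14,0)]⟩,⟨1,[(6,0),(8,0),(0,0)]⟩⟩,⟨true,0,⟨0,[(26,0)]⟩,⟨0,[]⟩⟩,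
  ⟨false,1,⟨0,[(7,0)]⟩,⟨0,[(8,0),(13,0)]⟩⟩,⟨false,0,⟨0,[(22,0)]⟩,⟨3,[(4,1),(2,1),(8,0),(7,0)]⟩⟩,
  ⟨false,1,⟨1,[(12,0),(1,1),(8,0)]⟩,⟨0,[(8,0)]⟩⟩,[.o ⟨false,0,⟨0,[(21,0)]⟩,⟨1,[(16,0),(5,1),(1,
  0)]⟩⟩,.a ⟨true,0,⟨0,[(0,0),(5,0)]⟩,⟨0,[(22,0)]⟩⟩ ⟨true,0,⟨0,[(2,0)]⟩,⟨3,[(5,1),(0,1),(3,0),(0,0),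
  (0,0),(8,0)]⟩⟩ ⟨false,1,⟨0,[(0,0)]⟩,⟨3,[(6,0),(1,1),(1,1),(1,0),(2,0),(6,1)]⟩⟩,.o ⟨false,0,⟨1,[(6,
  0),(8,0),(0,0)]⟩,⟨5,[(0,1),(4,1),(4,1),(2,0),(0,1),(1,0)]⟩⟩,.e ⟨false,1,⟨1,[(13,0),(9,0)]⟩,⟨0,[(5,
  0),(0,0)]⟩⟩ ⟨false,1,⟨0,[(0,0)]⟩,⟨1,[(6,1),(9,0),(5,1),(1,0)]⟩⟩]⟩) (.R ⟨1,false,false,true,[0,0,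
  1],[1,-1],[0,1,0,0,0,0,1],(⟨0,[(15,0)]⟩,⟨0,[(14,0)]⟩),(⟨0,[(17,0)]⟩,⟨0,[(18,0)]⟩),⟨0,[(1,0)]⟩,.k,
  .k,(.r (-1) ⟨0,[(2,1),(2,0),(0,0),(14,0),(1,0)]⟩ ⟨4,[(0,0),(4,0),(4,0),(0,1),(0,1),(9,2)]⟩),(.x
  (-1) ⟨3,[(12,0),(0,0),(2,1),(0,3)]⟩ ⟨0,[(18,0)]⟩),.k,.k,⟨false,0,⟨0,[(2,0),(19,0)]⟩,⟨0,[(5,0),(9,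
  0),(5,0)]⟩⟩,⟨true,0,⟨0,[(14,0)]⟩,⟨1,[(6,0),(8,0),(0,0)]⟩⟩,⟨true,0,⟨0,[(26,0)]⟩,⟨0,[]⟩⟩,⟨false,1,
  ⟨0,[(7,0)]⟩,⟨0,[(8,0),(13,0)]⟩⟩,⟨false,0,⟨0,[(22,0)]⟩,⟨3,[(4,1),(2,1),(8,0),(7,0)]⟩⟩,⟨false,1,⟨1,
  [(12,0),(1,1),(8,0)]⟩,⟨0,[(8,0)]⟩⟩,[.o ⟨false,0,⟨0,[(21,0)]⟩,⟨1,[(16,0),(5,1),(1,0)]⟩⟩,.e ⟨true,0,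
  ⟨0,[(2,0)]⟩,⟨2,[(0,0),(4,0),(5,0),(0,0),(8,0)]⟩⟩ ⟨true,1,⟨1,[(7,0),(1,0),(4,0)]⟩,⟨0,[(0,0)]⟩⟩,.o
  ⟨false,0,⟨1,[(6,0),(8,0),(0,0)]⟩,⟨1,[(14,1),(1,0),(6,0)]⟩⟩,.a ⟨true,(-1),⟨0,[(6,0)]⟩,⟨0,[(14,0),
  (8,0)]⟩⟩ ⟨false,1,⟨1,[(13,0),(9,0)]⟩,⟨0,[(5,0),(0,0)]⟩⟩ ⟨true,1,⟨0,[(14,0),(6,0),(1,0)]⟩,⟨0,[(0,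
  0)]⟩⟩]⟩)) (.Q [0,0,-2,-1,1,0,0,1,-1] (.p false [0,0,1] [1] (⟨0,[(14,0)]⟩,⟨0,[(13,0)]⟩) .k 1 (⟨0,
  []⟩,⟨0,[]⟩) .k .k) (.R ⟨0,false,false,true,[0,0,1],[1,-1],[1,1],(⟨0,[(15,0)]⟩,⟨0,[(14,0)]⟩),(⟨0,
  [(17,0)]⟩,⟨0,[(18,0)]⟩),⟨0,[(1,0)]⟩,.k,.k,(.r (-1) ⟨0,[(2,1),(2,0),(0,0),(14,0),(1,0)]⟩ ⟨2,[(5,0),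
  (0,0),(3,0),(0,0),(0,0),(9,1)]⟩),(.x (-1) ⟨3,[(12,0),(0,0),(2,1),(0,3)]⟩ ⟨0,[(18,0)]⟩),.k,.k,
  ⟨false,0,⟨0,[(22,0)]⟩,⟨5,[(4,1),(2,1),(8,0),(4,1),(1,2)]⟩⟩,⟨true,0,⟨0,[(14,0)]⟩,⟨1,[(6,0),(8,0),
  (0,0)]⟩⟩,⟨true,0,⟨0,[(5,0),(0,0),(12,0)]⟩,⟨0,[(2,0)]⟩⟩,⟨false,1,⟨0,[(7,0)]⟩,⟨0,[(8,0),(13,0)]⟩⟩,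
  ⟨false,0,⟨0,[]⟩,⟨0,[]⟩⟩,⟨false,0,⟨0,[]⟩,⟨0,[]⟩⟩,[.o ⟨false,0,⟨0,[(21,0)]⟩,⟨1,[(16,0),(5,1),(1,
  0)]⟩⟩,.a ⟨true,0,⟨0,[(0,0),(5,0)]⟩,⟨0,[(22,0)]⟩⟩ ⟨true,0,⟨0,[]⟩,⟨7,[(11,3),(0,0),(0,0),(2,1)]⟩⟩
  ⟨false,1,⟨0,[(0,0)]⟩,⟨3,[(6,0),(1,1),(1,1),(1,0),(2,0),(6,1)]⟩⟩,.o ⟨false,0,⟨1,[(6,0),(8,0),(0,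
  0)]⟩,⟨5,[(0,1),(4,1),(4,1),(2,0),(0,1),(1,0)]⟩⟩,.e ⟨false,1,⟨3,[(12,0),(0,0),(9,1)]⟩,⟨0,[(2,0),(2,
  0),(0,0)]⟩⟩ ⟨false,1,⟨0,[(0,0)]⟩,⟨1,[(6,1),(9,0),(5,1),(1,0)]⟩⟩]⟩) (.R ⟨0,false,false,true,[0,0,
  1],[1,-1],[1,1],(⟨0,[(15,0)]⟩,⟨0,[(14,0)]⟩),(⟨0,[(17,0)]⟩,⟨0,[(18,0)]⟩),⟨0,[(1,0)]⟩,.k,.k,(.r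
  (-1) ⟨0,[(2,1),(2,0),(0,0),(14,0),(1,0)]⟩ ⟨4,[(0,0),(4,0),(4,0),(0,1),(0,1),(9,2)]⟩),(.x (-1) ⟨3,
  [(12,0),(0,0),(2,1),(0,3)]⟩ ⟨0,[(18,0)]⟩),.k,.k,⟨false,0,⟨0,[(22,0)]⟩,⟨5,[(4,1),(2,1),(8,0),(4,1),
  (1,2)]⟩⟩,⟨true,0,⟨0,[(14,0)]⟩,⟨1,[(6,0),(8,0),(0,0)]⟩⟩,⟨true,0,⟨0,[(5,0),(0,0),(12,0)]⟩,⟨0,[(2,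
  0)]⟩⟩,⟨false,1,⟨0,[(7,0)]⟩,⟨0,[(8,0),(13,0)]⟩⟩,⟨false,0,⟨0,[]⟩,⟨0,[]⟩⟩,⟨false,0,⟨0,[]⟩,⟨0,[]⟩⟩,
  [.o ⟨false,0,⟨0,[(21,0)]⟩,⟨1,[(16,0),(5,1),(1,0)]⟩⟩,.e ⟨true,0,⟨0,[]⟩,⟨7,[(11,3),(0,0),(0,0),(2,
  1)]⟩⟩ ⟨true,1,⟨1,[(7,0),(1,0),(4,0)]⟩,⟨0,[(0,0)]⟩⟩,.o ⟨false,0,⟨1,[(6,0),(8,0),(0,0)]⟩,⟨1,[(14,1),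
  (1,0),(6,0)]⟩⟩,.a ⟨true,(-1),⟨0,[(6,0)]⟩,⟨0,[(14,0),(8,0)]⟩⟩ ⟨false,1,⟨3,[(12,0),(0,0),(9,1)]⟩,⟨0,
  [(2,0),(2,0),(0,0)]⟩⟩ ⟨true,1,⟨0,[(14,0),(6,0),(1,0)]⟩,⟨0,[(0,0)]⟩⟩]⟩)))))

def t4 : Tre :=
  (.Q [0,0,1,0,0,0,0,-1,1] (.p true [0,0,1] [1] (⟨0,[(17,0)]⟩,⟨0,[(16,0)]⟩) .k 1 (⟨0,[]⟩,⟨0,[]⟩) .k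
  .k) (.I [1,0,-2,-2,1,0,1] (.Q [0,0,0,-1,0,0,0,1] (.pp false [-1,1]) (.R ⟨0,false,false,false,[0,0,
  1],[1,-1],[1,1,0,-1,0,0,1],(⟨0,[(20,0)]⟩,⟨0,[(19,0)]⟩),(⟨0,[(22,0)]⟩,⟨0,[(23,0)]⟩),⟨0,[(7,0)]⟩,.k,
  .k,(.r (-1) ⟨7,[(1,3),(15,0),(0,2)]⟩ ⟨1,[(3,0),(13,0)]⟩),(.x (-1) ⟨3,[(17,0),(0,0),(2,1),(0,3)]⟩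
  ⟨0,[(23,0)]⟩),.k,.k,⟨false,0,⟨7,[(1,1),(2,3),(13,0),(5,1),(3,0)]⟩,⟨0,[(8,0),(11,0)]⟩⟩,⟨true,0,⟨0,
  [(19,0)]⟩,⟨0,[(2,0)]⟩⟩,⟨true,0,⟨0,[(26,0)]⟩,⟨0,[(27,0)]⟩⟩,⟨false,1,⟨0,[(6,0)]⟩,⟨3,[(3,0),(9,1),(1,
  1),(2,0),(1,1)]⟩⟩,⟨false,0,⟨0,[]⟩,⟨0,[]⟩⟩,⟨false,0,⟨0,[]⟩,⟨0,[]⟩⟩,[.a ⟨true,0,⟨0,[(0,0)]⟩,⟨0,[(27,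
  0)]⟩⟩ ⟨true,0,⟨1,[(1,0),(2,0),(21,0)]⟩,⟨0,[(9,0)]⟩⟩ ⟨false,1,⟨0,[(0,0),(10,0)]⟩,⟨0,[(2,0),(24,
  0)]⟩⟩,.o ⟨false,1,⟨3,[(5,1),(15,0),(7,2)]⟩,⟨0,[(15,0)]⟩⟩,.o ⟨false,0,⟨0,[(2,0)]⟩,⟨7,[(11,3),(5,0),
  (0,0),(0,3),(1,1)]⟩⟩,.o ⟨false,0,⟨7,[(2,7),(13,3),(0,0),(0,0),(2,1)]⟩,⟨0,[(11,0)]⟩⟩]⟩) (.Q [0,0,0,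
  0,0,2,0,-1] (.pp true [-1,1]) (.R ⟨0,false,false,false,[1,-1],[0,1],[0,0,2,1],(⟨0,[(23,0)]⟩,⟨0,
  [(24,0)]⟩),(⟨0,[(24,0)]⟩,⟨0,[(23,0)]⟩),⟨0,[(0,0)]⟩,.k,.k,(.r (-2) ⟨2,[(2,1),(12,1),(2,1)]⟩ ⟨0,[(1,
  1),(15,1),(11,0)]⟩),(.r (-2) ⟨2,[(2,1),(12,1),(2,1)]⟩ ⟨0,[(1,1),(15,1),(11,0)]⟩),.k,.k,⟨true,0,⟨7,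
  [(17,3),(0,0),(0,0),(2,1)]⟩,⟨0,[]⟩⟩,⟨false,2,⟨1,[(22,0),(6,2)]⟩,⟨0,[(17,0)]⟩⟩,⟨false,(-1),⟨0,[(1,
  2),(0,0),(7,0),(6,2),(11,0)]⟩,⟨1,[(2,1),(15,0),(10,0)]⟩⟩,⟨true,0,⟨0,[(1,0),(26,0)]⟩,⟨0,[(6,0)]⟩⟩,
  ⟨false,0,⟨0,[]⟩,⟨0,[]⟩⟩,⟨false,0,⟨0,[]⟩,⟨0,[]⟩⟩,[.o ⟨false,0,⟨0,[(1,0)]⟩,⟨3,[(6,1),(11,0),(0,0),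
  (2,0),(7,0)]⟩⟩,.o ⟨false,1,⟨1,[(22,0),(5,1),(1,0)]⟩,⟨0,[(27,0)]⟩⟩,.o ⟨false,0,⟨7,[(17,3),(0,0),(0,
  0),(2,1)]⟩,⟨1,[(22,0),(6,0)]⟩⟩,.a ⟨true,(-1),⟨0,[(17,0)]⟩,⟨0,[(29,0)]⟩⟩ ⟨false,0,⟨1,[(4,0),(25,
  0)]⟩,⟨2,[(2,0),(12,0),(2,0)]⟩⟩ ⟨true,1,⟨0,[(1,0),(27,0)]⟩,⟨0,[(17,0),(9,0)]⟩⟩]⟩) (.S ⟨1,0,[0,1,-1,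
  -1],[1,-1],[1,0,-1,-2],(⟨0,[(23,0)]⟩,⟨0,[(24,0)]⟩),⟨0,[(0,0)]⟩,.k,(.r (-2) ⟨2,[(2,1),(12,1),(2,
  1)]⟩ ⟨0,[(0,0),(0,1),(15,0),(6,1)]⟩),⟨false,1,⟨3,[(6,1),(15,0),(7,2)]⟩,⟨0,[(28,0)]⟩⟩,⟨true,0,⟨43,
  [(5,7),(0,3),(11,4),(0,0),(2,1),(2,15)]⟩,⟨0,[]⟩⟩,⟨true,0,⟨0,[]⟩,⟨43,[(5,7),(0,3),(11,4),(0,0),(2,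
  1),(2,15)]⟩⟩,⟨false,0,⟨0,[(28,0)]⟩,⟨3,[(6,1),(15,0),(7,2)]⟩⟩,[.o ⟨false,0,⟨0,[(27,0)]⟩,⟨1,[(22,0),
  (5,1),(1,0)]⟩⟩,.o ⟨false,1,⟨3,[(6,1),(11,0),(0,0),(2,0),(7,0)]⟩,⟨0,[(1,0)]⟩⟩,.o ⟨false,0,⟨7,[(17,
  3),(0,0),(0,0),(2,1)]⟩,⟨1,[(22,0),(6,0)]⟩⟩,.a ⟨true,(-1),⟨0,[(17,0)]⟩,⟨0,[(29,0)]⟩⟩ ⟨false,2,⟨1,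
  [(2,1),(15,0),(11,0)]⟩,⟨0,[(0,0),(0,1),(15,0),(6,1)]⟩⟩ ⟨true,1,⟨3,[(2,1),(15,0),(6,1),(3,0)]⟩,⟨0,
  [(1,0),(15,0)]⟩⟩]⟩))) (.Q [0,0,-2,1,1,0,0,-1] (.pp true [-1,1]) (.Q [0,0,0,-1,0,0,0,1] (.pp false
  [-1,1]) (.I [1,0,0,0,0,0,-1] (.R ⟨0,false,false,false,[0,0,1],[1,-1],[1],(⟨0,[(22,0)]⟩,⟨0,[(21,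
  0)]⟩),(⟨0,[(24,0)]⟩,⟨0,[(25,0)]⟩),⟨0,[(9,0)]⟩,.k,.k,(.r (-1) ⟨0,[(1,0),(11,0),(1,0),(17,0)]⟩ ⟨7,
  [(3,3),(15,2),(0,0)]⟩),(.x (-1) ⟨3,[(19,0),(0,0),(2,1),(0,3)]⟩ ⟨0,[(25,0)]⟩),.k,.k,⟨false,0,⟨0,
  [(29,0)]⟩,⟨3,[(7,0),(0,0),(7,0),(5,0),(0,0),(6,0)]⟩⟩,⟨true,0,⟨0,[(21,0)]⟩,⟨0,[(4,0)]⟩⟩,⟨true,0,⟨0,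
  [(0,0)]⟩,⟨1,[(1,0),(4,0),(6,0),(1,0),(10,0)]⟩⟩,⟨false,1,⟨0,[(8,0)]⟩,⟨5,[(2,1),(1,1),(0,0),(0,1),
  (8,1),(4,0),(1,1)]⟩⟩,⟨false,0,⟨0,[]⟩,⟨0,[]⟩⟩,⟨false,0,⟨0,[]⟩,⟨0,[]⟩⟩,[.a ⟨true,0,⟨0,[(1,0)]⟩,⟨0,
  [(29,0)]⟩⟩ ⟨true,0,⟨0,[]⟩,⟨7,[(18,3),(0,0),(0,0),(2,1)]⟩⟩ ⟨false,1,⟨0,[(1,0),(11,0)]⟩,⟨7,[(2,1),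
  (0,1),(0,5),(0,0),(14,0),(1,1)]⟩⟩,.o ⟨false,1,⟨3,[(7,1),(15,0),(7,2)]⟩,⟨0,[(17,0)]⟩⟩,.o ⟨false,0,
  ⟨0,[(4,0)]⟩,⟨7,[(13,3),(5,0),(0,0),(0,3),(1,1)]⟩⟩,.o ⟨false,0,⟨7,[(4,7),(13,3),(0,0),(0,0),(2,
  1)]⟩,⟨0,[(13,0)]⟩⟩]⟩) (.R ⟨0,false,false,false,[0,0,1],[1,-1],[1,1,0,-1,0,0,1],(⟨0,[(22,0)]⟩,⟨0,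
  [(21,0)]⟩),(⟨0,[(24,0)]⟩,⟨0,[(25,0)]⟩),⟨0,[(9,0)]⟩,.k,.k,(.r (-1) ⟨2,[(0,3),(0,0),(8,0),(0,0),(3,
  0),(12,2),(1,1)]⟩ ⟨7,[(3,3),(15,2),(0,0)]⟩),(.x (-1) ⟨3,[(19,0),(0,0),(2,1),(0,3)]⟩ ⟨0,[(25,0)]⟩),
  .k,.k,⟨false,0,⟨2,[(0,0),(5,0),(9,0),(9,0)]⟩,⟨0,[(10,0),(11,0)]⟩⟩,⟨true,0,⟨0,[(21,0)]⟩,⟨0,[(4,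
  0)]⟩⟩,⟨true,0,⟨0,[(28,0)]⟩,⟨0,[(29,0)]⟩⟩,⟨false,1,⟨0,[(8,0)]⟩,⟨5,[(2,1),(1,1),(0,0),(0,1),(8,1),
  (4,0),(1,1)]⟩⟩,⟨false,0,⟨0,[]⟩,⟨0,[]⟩⟩,⟨false,0,⟨0,[]⟩,⟨0,[]⟩⟩,[.a ⟨true,0,⟨0,[(1,0)]⟩,⟨0,[(29,
  0)]⟩⟩ ⟨true,0,⟨0,[(0,0),(27,0)]⟩,⟨0,[(11,0)]⟩⟩ ⟨false,1,⟨0,[(1,0),(11,0)]⟩,⟨7,[(2,1),(0,1),(0,5),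
  (0,0),(14,0),(1,1)]⟩⟩,.o ⟨false,1,⟨3,[(7,1),(15,0),(7,2)]⟩,⟨0,[(17,0)]⟩⟩,.o ⟨false,0,⟨0,[(4,0)]⟩,
  ⟨7,[(13,3),(5,0),(0,0),(0,3),(1,1)]⟩⟩,.o ⟨false,0,⟨7,[(4,7),(13,3),(0,0),(0,0),(2,1)]⟩,⟨0,[(13,
  0)]⟩⟩]⟩)) (.Q [0,0,0,0,0,-2,0,1] (.pp false [-1,1]) (.S ⟨1,0,[0,1,-1,-1],[1,-1],[1,0,-1,-2],(⟨0,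
  [(24,0)]⟩,⟨0,[(25,0)]⟩),⟨0,[(0,0)]⟩,.k,(.r (-2) ⟨1,[(7,0),(0,0),(7,0),(5,0),(0,0),(6,0)]⟩ ⟨0,[(0,
  0),(0,1),(16,0),(6,1)]⟩),⟨false,1,⟨3,[(7,1),(15,0),(7,2)]⟩,⟨0,[(29,0)]⟩⟩,⟨true,0,⟨43,[(6,7),(0,3),
  (11,4),(0,0),(2,1),(2,15)]⟩,⟨0,[]⟩⟩,⟨true,0,⟨0,[]⟩,⟨43,[(6,7),(0,3),(11,4),(0,0),(2,1),(2,15)]⟩⟩,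
  ⟨false,0,⟨0,[(29,0)]⟩,⟨3,[(7,1),(15,0),(7,2)]⟩⟩,[.o ⟨false,0,⟨0,[(28,0)]⟩,⟨5,[(2,1),(0,1),(16,0),
  (2,1),(7,2)]⟩⟩,.o ⟨false,1,⟨3,[(7,1),(11,0),(0,0),(2,0),(7,0)]⟩,⟨0,[(1,0)]⟩⟩,.o ⟨false,0,⟨7,[(18,
  3),(0,0),(0,0),(2,1)]⟩,⟨1,[(23,0),(6,0)]⟩⟩,.a ⟨true,(-1),⟨0,[(18,0)]⟩,⟨0,[(30,0)]⟩⟩ ⟨false,2,⟨0,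
  [(8,0),(6,0),(12,0),(1,0)]⟩,⟨0,[(0,0),(0,1),(16,0),(6,1)]⟩⟩ ⟨true,1,⟨0,[(28,0),(1,0)]⟩,⟨0,[(1,0),
  (16,0)]⟩⟩]⟩) (.R ⟨0,false,false,false,[1,-1],[0,1],[1],(⟨0,[(24,0)]⟩,⟨0,[(25,0)]⟩),(⟨0,[(25,0)]⟩,
  ⟨0,[(24,0)]⟩),⟨0,[(0,0)]⟩,.k,.k,(.r (-2) ⟨1,[(7,0),(0,0),(7,0),(5,0),(0,0),(6,0)]⟩ ⟨0,[(1,1),(16,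
  1),(11,0)]⟩),(.r (-2) ⟨1,[(7,0),(0,0),(7,0),(5,0),(0,0),(6,0)]⟩ ⟨0,[(1,1),(16,1),(11,0)]⟩),.k,.k,
  ⟨true,1,⟨3,[(7,0),(0,0),(7,0),(5,0),(0,0),(6,0)]⟩,⟨0,[(1,0),(16,0)]⟩⟩,⟨false,2,⟨1,[(23,0),(6,2)]⟩,
  ⟨0,[(18,0)]⟩⟩,⟨false,0,⟨1,[(5,0),(25,0)]⟩,⟨3,[(7,0),(0,0),(7,0),(5,0),(0,0),(6,0)]⟩⟩,⟨true,0,⟨1,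
  [(1,0),(0,0),(2,0)]⟩,⟨0,[(7,0)]⟩⟩,⟨false,0,⟨0,[]⟩,⟨0,[]⟩⟩,⟨false,0,⟨0,[]⟩,⟨0,[]⟩⟩,[.o ⟨false,0,⟨0,
  [(1,0)]⟩,⟨3,[(7,1),(11,0),(0,0),(2,0),(7,0)]⟩⟩,.o ⟨false,1,⟨5,[(2,1),(0,1),(16,0),(2,1),(7,2)]⟩,
  ⟨0,[(28,0)]⟩⟩,.o ⟨false,0,⟨7,[(18,3),(0,0),(0,0),(2,1)]⟩,⟨1,[(23,0),(6,0)]⟩⟩,.a ⟨true,(-1),⟨0,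
  [(18,0)]⟩,⟨0,[(30,0)]⟩⟩ ⟨false,1,⟨1,[(30,0),(0,0)]⟩,⟨7,[(18,3),(0,0),(0,0),(2,1)]⟩⟩ ⟨true,1,⟨0,
  [(2,0)]⟩,⟨0,[(18,0),(9,0)]⟩⟩]⟩))) (.R ⟨0,false,false,false,[0,0,1],[1,-1],[1,1,0,-1,0,0,1],(⟨0,
  [(20,0)]⟩,⟨0,[(19,0)]⟩),(⟨0,[(22,0)]⟩,⟨0,[(23,0)]⟩),⟨0,[(7,0)]⟩,.k,.k,(.r (-1) ⟨1,[(0,2),(0,0),(9,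
  2),(1,2),(10,0),(1,0),(1,2)]⟩ ⟨7,[(1,3),(15,2),(0,0)]⟩),(.x (-1) ⟨3,[(17,0),(0,0),(2,1),(0,3)]⟩
  ⟨0,[(23,0)]⟩),.k,.k,⟨false,0,⟨0,[(13,0),(5,0),(4,0)]⟩,⟨0,[(8,0),(11,0)]⟩⟩,⟨true,0,⟨0,[(19,0)]⟩,⟨0,
  [(2,0)]⟩⟩,⟨true,0,⟨0,[(26,0)]⟩,⟨0,[(27,0)]⟩⟩,⟨false,1,⟨0,[(6,0)]⟩,⟨3,[(3,0),(9,1),(1,1),(2,0),(1,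
  1)]⟩⟩,⟨false,0,⟨0,[]⟩,⟨0,[]⟩⟩,⟨false,0,⟨0,[]⟩,⟨0,[]⟩⟩,[.a ⟨true,0,⟨0,[(0,0),(27,0)]⟩,⟨0,[(27,
  0)]⟩⟩ ⟨true,0,⟨0,[(0,0),(10,0),(1,0),(10,0)]⟩,⟨0,[(9,0)]⟩⟩ ⟨false,1,⟨0,[(0,0),(10,0),(16,0)]⟩,⟨0,
  [(2,0),(24,0)]⟩⟩,.o ⟨false,1,⟨3,[(5,1),(15,0),(7,2)]⟩,⟨0,[(15,0)]⟩⟩,.o ⟨false,0,⟨0,[(2,0)]⟩,⟨7,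
  [(11,3),(5,0),(0,0),(0,3),(1,1)]⟩⟩,.o ⟨false,0,⟨7,[(2,7),(13,3),(0,0),(0,0),(2,1)]⟩,⟨0,[(11,
  0)]⟩⟩]⟩))) (.Q [0,0,3,0,-1,0,0,0,1] (.p true [0,0,1] [] (⟨0,[(18,0)]⟩,⟨0,[(17,0)]⟩) .k 0 (⟨0,[]⟩,
  ⟨0,[]⟩) .k .k) (.R ⟨0,false,false,false,[0,0,1],[0,1],[1,0,0,0,0,0,1],(⟨0,[(19,0)]⟩,⟨0,[(18,0)]⟩),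
  (⟨0,[(22,0)]⟩,⟨0,[(21,0)]⟩),⟨0,[(6,0)]⟩,.k,.k,(.r (-1) ⟨0,[(1,5),(5,0),(0,1),(3,3),(1,1),(4,2),(5,
  4)]⟩ ⟨1,[(2,0),(13,0)]⟩),(.r (-1) ⟨0,[(1,5),(5,0),(0,1),(3,3),(1,1),(4,2),(5,4)]⟩ ⟨1,[(2,0),(13,
  0)]⟩),.k,.k,⟨false,1,⟨0,[(1,0),(10,0),(12,0),(1,0)]⟩,⟨1,[(2,0),(13,0)]⟩⟩,⟨true,1,⟨0,[(10,0)]⟩,⟨0,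
  [(0,0)]⟩⟩,⟨true,0,⟨0,[]⟩,⟨43,[(3,7),(0,3),(11,4),(0,0),(2,1),(2,15)]⟩⟩,⟨false,1,⟨0,[(8,0),(1,0)]⟩,
  ⟨16,[(0,0),(2,0),(0,8),(7,9),(2,0),(1,2),(1,5)]⟩⟩,⟨false,0,⟨0,[]⟩,⟨0,[]⟩⟩,⟨false,0,⟨0,[]⟩,⟨0,[]⟩⟩,
  [.a ⟨true,0,⟨0,[(26,0)]⟩,⟨4,[(1,1),(2,1),(0,0),(6,0),(2,0),(3,1)]⟩⟩ ⟨true,0,⟨4,[(1,2),(1,0),(8,2),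
  (0,0),(9,0)]⟩,⟨0,[(8,0),(16,0)]⟩⟩ ⟨false,1,⟨0,[(10,0),(15,0)]⟩,⟨2,[(0,0),(4,0),(6,0),(6,1),(5,
  1)]⟩⟩,.o ⟨false,1,⟨1,[(20,0),(5,1),(1,0)]⟩,⟨0,[(25,0)]⟩⟩,.e ⟨false,0,⟨0,[(1,0),(10,0)]⟩,⟨3,[(16,
  2),(0,0)]⟩⟩ ⟨false,1,⟨1,[(2,0),(7,1),(17,0)]⟩,⟨2,[(0,0),(4,0),(6,0),(6,1),(5,1)]⟩⟩,.o ⟨false,0,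
  ⟨11,[(0,7),(15,0),(0,0),(1,3),(0,5)]⟩,⟨0,[(10,0)]⟩⟩]⟩) (.Q [0,1,2,0,-1,0,2,-1,2] (.p true [0,0,1]
  [1,0,-1] (⟨0,[(19,0)]⟩,⟨0,[(18,0)]⟩) .k 2 (⟨0,[(18,0)]⟩,⟨0,[(19,0)]⟩) .k (.r 0 ⟨4,[(1,5),(1,1),(8,
  5),(0,1),(9,1)]⟩ ⟨0,[(16,0)]⟩)) (.R ⟨0,false,false,false,[0,0,1],[1,0,-1],[1],(⟨0,[(20,0)]⟩,⟨0,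
  [(19,0)]⟩),(⟨0,[(19,0)]⟩,⟨0,[(20,0)]⟩),⟨0,[(7,0)]⟩,.k,.k,(.r (-1) ⟨0,[(1,7),(1,1),(5,3),(3,4),(2,
  4),(3,2),(5,8)]⟩ ⟨1,[(3,0),(13,0)]⟩),.k,.k,.k,⟨true,0,⟨8,[(0,0),(0,0),(0,3),(1,1),(8,2),(0,1)]⟩,
  ⟨0,[(9,0),(16,0)]⟩⟩,⟨false,1,⟨0,[(1,0),(17,0)]⟩,⟨1,[(0,0),(8,0),(3,0),(3,0),(2,0),(5,0)]⟩⟩,⟨false,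
  1,⟨1,[(17,0),(11,0)]⟩,⟨8,[(0,0),(0,0),(0,3),(1,1),(8,2),(0,1)]⟩⟩,⟨true,1,⟨0,[(1,0),(0,0),(6,1),
  (16,1)]⟩,⟨0,[(0,0)]⟩⟩,⟨false,0,⟨0,[]⟩,⟨0,[]⟩⟩,⟨false,0,⟨0,[]⟩,⟨0,[]⟩⟩,[.o ⟨false,1,⟨1,[(8,0),(3,
  0),(2,0)]⟩,⟨3,[(0,1),(20,0),(7,0)]⟩⟩,.o ⟨false,1,⟨0,[(8,0)]⟩,⟨21,[(0,10),(3,1),(0,0),(11,3),(0,2),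
  (2,5),(2,3)]⟩⟩,.a ⟨true,0,⟨15,[(0,3),(15,3),(0,4),(0,0),(1,7),(8,1)]⟩,⟨0,[(2,0)]⟩⟩ ⟨true,0,⟨0,[]⟩,
  ⟨43,[(4,7),(0,3),(11,4),(0,0),(2,1),(2,15)]⟩⟩ ⟨false,1,⟨0,[(2,0),(5,0)]⟩,⟨1,[(0,1),(16,0),(11,
  0)]⟩⟩,.o ⟨false,0,⟨2,[(0,0),(8,0),(3,0),(2,0),(0,0),(3,0),(4,0)]⟩,⟨0,[(11,0)]⟩⟩]⟩) (.Q [0,0,0,0,0,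
  2,0,-1] (.pp true [-1,1]) (.R ⟨0,false,false,false,[1,-1],[0,0,1],[0,1,-1,-2],(⟨0,[(23,0)]⟩,⟨0,
  [(24,0)]⟩),(⟨0,[(21,0)]⟩,⟨0,[(20,0)]⟩),⟨0,[(0,0)]⟩,.k,.k,(.x 1 ⟨0,[(0,0),(16,0)]⟩ ⟨0,[(22,0),(0,
  1),(5,0)]⟩),(.x 0 ⟨0,[(24,0)]⟩ ⟨3,[(18,0),(0,0),(2,1),(0,3)]⟩),.k,.k,⟨true,1,⟨1,[(1,0),(4,0),(14,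
  1),(0,0),(4,1)]⟩,⟨0,[(3,0),(0,0),(9,0)]⟩⟩,⟨false,1,⟨1,[(21,1),(0,0),(6,0)]⟩,⟨0,[(20,0)]⟩⟩,⟨true,0,
  ⟨0,[(27,0)]⟩,⟨0,[(28,0)]⟩⟩,⟨false,0,⟨0,[(14,0),(13,0)]⟩,⟨0,[(13,0)]⟩⟩,⟨false,0,⟨0,[]⟩,⟨0,[]⟩⟩,
  ⟨false,0,⟨0,[]⟩,⟨0,[]⟩⟩,[.o ⟨false,0,⟨17,[(5,3),(8,11),(4,0),(1,5),(0,2),(2,1),(1,3)]⟩,⟨17,[(1,4),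
  (3,2),(6,4),(0,2),(4,3),(3,3),(2,0)]⟩⟩,.o ⟨false,0,⟨0,[(14,0)]⟩,⟨17,[(1,3),(3,5),(6,3),(0,5),(4,
  4),(3,4),(2,7)]⟩⟩,.o ⟨false,0,⟨7,[(17,3),(0,0),(0,0),(2,1)]⟩,⟨1,[(22,0),(6,0)]⟩⟩,.a ⟨true,(-1),⟨0,
  [(17,0)]⟩,⟨0,[(29,0)]⟩⟩ ⟨true,1,⟨5,[(1,0),(0,3),(3,2),(7,1),(6,3),(0,0),(4,5)]⟩,⟨0,[(4,0)]⟩⟩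
  ⟨false,1,⟨0,[(14,0),(14,0)]⟩,⟨5,[(1,1),(3,1),(7,1),(3,3),(0,0),(3,0)]⟩⟩]⟩) (.Q [0,0,-1,0,0,0,0,1,
  -2] (.p false [0,0,1] [1,0,-1] (⟨0,[(21,0)]⟩,⟨0,[(20,0)]⟩) .k 2 (⟨0,[(20,0)]⟩,⟨0,[(21,0)]⟩) .k
  (.r 0 ⟨4,[(3,5),(1,1),(8,5),(0,1),(9,1)]⟩ ⟨0,[(18,0)]⟩)) (.R ⟨1,true,false,true,[1,0,-1],[0,0,1],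
  [0,1,0,0,0,0,-1],(⟨0,[(21,0)]⟩,⟨0,[(22,0)]⟩),(⟨0,[(22,0)]⟩,⟨0,[(21,0)]⟩),⟨5,[(0,1),(0,2),(16,0),
  (2,1),(1,0)]⟩,.k,.k,(.x 0 ⟨0,[(25,0)]⟩ ⟨7,[(1,3),(17,2),(0,2),(2,1)]⟩),.k,(.x (-1) ⟨3,[(12,1),(6,
  0),(0,0),(9,3)]⟩ ⟨1,[(1,0),(16,0),(4,0)]⟩),.k,⟨false,1,⟨5,[(2,3),(8,1),(5,1),(1,0),(2,7),(0,0),(4,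
  3)]⟩,⟨4,[(4,5),(1,1),(8,5),(0,1),(9,1)]⟩⟩,⟨true,0,⟨0,[(18,0),(3,1),(0,0)]⟩,⟨0,[(0,0)]⟩⟩,⟨true,0,
  ⟨43,[(6,7),(0,3),(11,4),(0,0),(2,1),(2,15)]⟩,⟨0,[]⟩⟩,⟨false,0,⟨27,[(6,15),(0,7),(7,23),(3,0),(0,
  8),(1,31),(0,5)]⟩,⟨0,[(2,0)]⟩⟩,⟨false,0,⟨0,[(29,0)]⟩,⟨3,[(7,1),(15,0),(7,2)]⟩⟩,⟨true,(-1),⟨1,[(4,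
  0),(0,0),(9,3),(2,0),(3,0),(3,2)]⟩,⟨0,[(2,0),(25,0)]⟩⟩,[]⟩) (.R ⟨1,false,false,true,[1,0,-1],[0,0,
  1],[0,1,1],(⟨0,[(21,0)]⟩,⟨0,[(22,0)]⟩),(⟨0,[(22,0)]⟩,⟨0,[(21,0)]⟩),⟨0,[(1,0),(7,0)]⟩,.k,.k,(.x 0
  ⟨0,[(25,0)]⟩ ⟨7,[(1,3),(17,2),(0,2),(2,1)]⟩),.k,(.r (-1) ⟨0,[(0,0),(1,0),(25,0)]⟩ ⟨6,[(3,0),(0,2),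
  (0,1),(0,2),(8,2),(4,3),(1,0)]⟩),.k,⟨true,0,⟨0,[(11,0),(16,0)]⟩,⟨4,[(4,2),(1,0),(8,2),(0,0),(9,
  0)]⟩⟩,⟨false,0,⟨0,[(0,0)]⟩,⟨0,[(13,0),(7,0)]⟩⟩,⟨false,0,⟨8,[(6,1),(0,0),(7,2),(2,0),(1,1),(0,2),
  (1,0)]⟩,⟨3,[(0,1),(1,1),(27,0),(0,0)]⟩⟩,⟨false,0,⟨18,[(0,8),(5,7),(0,3),(7,13),(4,7),(1,5),(3,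
  0)]⟩,⟨0,[(2,0)]⟩⟩,⟨false,0,⟨1,[(5,0),(14,0)]⟩,⟨0,[(2,0),(12,0),(6,0),(5,0)]⟩⟩,⟨true,(-1),⟨1,[(4,
  0),(0,0),(9,3),(2,0),(3,0),(3,2)]⟩,⟨0,[(2,0),(25,0)]⟩⟩,[.o ⟨false,0,⟨5,[(0,1),(5,1),(8,1),(4,0),
  (2,0),(2,1),(1,1)]⟩,⟨0,[(10,0)]⟩⟩,.o ⟨false,0,⟨11,[(0,1),(5,1),(8,7),(4,0),(2,0),(2,1),(1,1)]⟩,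
  ⟨17,[(2,4),(3,2),(6,4),(0,2),(4,3),(3,3),(2,0)]⟩⟩,.e ⟨false,0,⟨7,[(18,3),(0,0),(0,0),(2,1)]⟩,⟨1,
  [(30,0),(0,0)]⟩⟩ ⟨false,0,⟨53,[(0,47),(5,7),(0,3),(7,11),(2,15),(1,16),(2,6)]⟩,⟨3,[(1,0),(0,1),(0,
  0),(0,0),(4,1),(21,0)]⟩⟩,.a ⟨true,0,⟨0,[(21,0)]⟩,⟨0,[(22,0)]⟩⟩ ⟨true,0,⟨43,[(6,7),(0,3),(11,4),(0,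
  0),(2,1),(2,15)]⟩,⟨0,[]⟩⟩ ⟨false,0,⟨18,[(0,6),(5,1),(0,0),(7,12),(4,1),(1,10),(3,4)]⟩,⟨3,[(2,1),
  (18,3),(1,0),(7,0)]⟩⟩]⟩))))))

def t5 : Tre :=
  (.Q [0,0,0,0,0,-1,0,0,1] (.ed false [1,-1,1] .k) (.Q [0,0,1,-2,0,0,1,0,1] (.p true [0,0,1] [] (⟨0,
  [(13,0)]⟩,⟨0,[(12,0)]⟩) .k 0 (⟨0,[]⟩,⟨0,[]⟩) .k .k) (.I [0,0,2,2,-1,0,-1] (.Q [0,0,0,-1,0,0,0,1]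
  (.pp false [-1,1]) (.I [1,0,0,0,0,0,1] (.R ⟨1,false,false,false,[0,0,1],[1,-1],[1,1,0,-1,0,0,1],
  (⟨0,[(17,0)]⟩,⟨0,[(16,0)]⟩),(⟨0,[(19,0)]⟩,⟨0,[(20,0)]⟩),⟨0,[(4,0)]⟩,.k,.k,(.r (-1) ⟨0,[(4,0),(3,
  1),(1,0),(2,0),(6,0),(2,0)]⟩ ⟨7,[(2,3),(11,2),(0,0)]⟩),(.x (-1) ⟨3,[(14,0),(0,0),(2,1),(0,3)]⟩ ⟨0,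
  [(20,0)]⟩),.k,.k,⟨false,0,⟨5,[(0,3),(11,0),(0,0),(1,0),(5,1),(1,0)]⟩,⟨0,[(5,0),(11,0)]⟩⟩,⟨true,0,
  ⟨0,[(16,0)]⟩,⟨1,[(4,1),(2,0),(10,0)]⟩⟩,⟨true,0,⟨0,[(23,0)]⟩,⟨0,[(24,0)]⟩⟩,⟨false,1,⟨0,[(1,0),(3,
  0)]⟩,⟨3,[(2,0),(7,2),(1,0),(2,0),(1,0),(3,0),(2,0)]⟩⟩,⟨false,0,⟨0,[]⟩,⟨3,[(14,0),(0,0),(10,1)]⟩⟩,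
  ⟨false,1,⟨1,[(1,0),(3,0),(0,0),(9,0),(8,0)]⟩,⟨9,[(2,0),(0,2),(6,5),(1,3),(2,0),(1,0),(3,0)]⟩⟩,[.a
  ⟨true,0,⟨0,[(1,0)]⟩,⟨0,[(24,0)]⟩⟩ ⟨true,0,⟨0,[(0,0),(22,0)]⟩,⟨0,[(6,0)]⟩⟩ ⟨false,1,⟨0,[(1,0),(6,
  0)]⟩,⟨9,[(2,3),(7,1),(1,1),(2,0),(1,7),(0,2)]⟩⟩,.o ⟨false,1,⟨5,[(3,1),(5,1),(8,0),(7,2)]⟩,⟨0,[(12,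
  0)]⟩⟩,.o ⟨false,0,⟨1,[(4,1),(2,0),(10,0)]⟩,⟨7,[(8,3),(5,0),(0,0),(0,3),(1,1)]⟩⟩,.o ⟨false,0,⟨11,
  [(2,7),(0,7),(10,0),(0,0),(1,3),(0,5)]⟩,⟨0,[(8,0)]⟩⟩]⟩) (.R ⟨1,false,false,false,[0,0,1],[0,1],[0,
  1,0,0,0,0,1],(⟨0,[(17,0)]⟩,⟨0,[(16,0)]⟩),(⟨0,[(20,0)]⟩,⟨0,[(19,0)]⟩),⟨0,[(4,0)]⟩,.k,.k,(.r (-1)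
  ⟨0,[(0,0),(0,0),(6,1),(1,1),(2,0),(7,0)]⟩ ⟨7,[(2,3),(11,2),(0,0)]⟩),(.r (-1) ⟨0,[(0,0),(0,0),(6,
  1),(1,1),(2,0),(7,0)]⟩ ⟨7,[(2,3),(11,2),(0,0)]⟩),(.r (-2) ⟨5,[(3,1),(5,1),(1,5),(6,0),(6,2)]⟩ ⟨0,
  [(2,0)]⟩),.k,⟨false,1,⟨0,[(1,0),(6,0),(1,0),(10,0)]⟩,⟨0,[(6,0)]⟩⟩,⟨true,1,⟨0,[(8,0)]⟩,⟨0,[(2,0),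
  (0,0)]⟩⟩,⟨true,0,⟨0,[(28,0)]⟩,⟨0,[]⟩⟩,⟨false,1,⟨0,[(6,0),(1,0)]⟩,⟨15,[(2,0),(0,8),(6,1),(2,1),(1,
  2),(1,4),(3,0)]⟩⟩,⟨false,0,⟨0,[(24,0)]⟩,⟨5,[(3,1),(5,1),(8,0),(7,2)]⟩⟩,⟨false,1,⟨0,[(6,0),(1,0),
  (15,0)]⟩,⟨0,[(3,0)]⟩⟩,[.a ⟨true,0,⟨0,[(24,0)]⟩,⟨0,[(1,0)]⟩⟩ ⟨true,0,⟨0,[(10,0),(5,0),(4,0)]⟩,⟨0,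
  [(0,0),(21,0)]⟩⟩ ⟨false,1,⟨0,[(8,0),(15,0)]⟩,⟨3,[(3,1),(0,1),(2,0),(6,0)]⟩⟩,.o ⟨false,1,⟨1,[(18,
  0),(5,1),(1,0)]⟩,⟨0,[(23,0)]⟩⟩,.o ⟨false,0,⟨1,[(4,1),(2,0),(10,0)]⟩,⟨7,[(8,3),(5,0),(0,0),(0,3),
  (1,1)]⟩⟩,.o ⟨false,0,⟨11,[(2,7),(0,7),(10,0),(0,0),(1,3),(0,5)]⟩,⟨0,[(8,0)]⟩⟩]⟩)) (.Q [0,0,0,0,0,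
  -2,0,1] (.pp false [-1,1]) (.S ⟨1,0,[0,1,-1,-1],[1,-1],[1,0,-1,-2],(⟨0,[(19,0)]⟩,⟨0,[(20,0)]⟩),⟨0,
  [(0,0)]⟩,.k,(.r (-2) ⟨2,[(3,1),(5,1),(8,0),(6,2)]⟩ ⟨0,[(1,0),(11,0),(10,0)]⟩),⟨false,1,⟨5,[(3,1),
  (5,1),(8,0),(7,2)]⟩,⟨0,[(24,0)]⟩⟩,⟨true,0,⟨0,[(28,0)]⟩,⟨0,[]⟩⟩,⟨true,0,⟨0,[]⟩,⟨0,[(28,0)]⟩⟩,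
  ⟨false,0,⟨0,[(24,0)]⟩,⟨5,[(3,1),(5,1),(8,0),(7,2)]⟩⟩,[.o ⟨false,0,⟨0,[(23,0)]⟩,⟨1,[(18,0),(5,1),
  (1,0)]⟩⟩,.o ⟨false,1,⟨11,[(3,3),(5,3),(4,2),(0,2),(2,1)]⟩,⟨0,[(1,0)]⟩⟩,.o ⟨false,0,⟨7,[(13,3),(0,
  0),(0,0),(2,1)]⟩,⟨1,[(18,0),(6,0)]⟩⟩,.a ⟨true,(-1),⟨0,[(13,0)]⟩,⟨0,[(25,0)]⟩⟩ ⟨false,2,⟨0,[(3,0),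
  (1,0),(19,0)]⟩,⟨0,[(1,0),(11,0),(10,0)]⟩⟩ ⟨true,1,⟨0,[(23,0),(1,0)]⟩,⟨0,[(1,0),(11,0)]⟩⟩]⟩) (.I
  [0,0,0,0,0,0,1] (.R ⟨0,false,false,false,[1,0,-1],[0,1],[1,0,0,0,0,0,-1],(⟨0,[(17,0)]⟩,⟨0,[(18,
  0)]⟩),(⟨0,[(21,0)]⟩,⟨0,[(20,0)]⟩),⟨0,[(1,0),(3,0)]⟩,.k,.k,(.x 0 ⟨0,[(21,0)]⟩ ⟨3,[(15,0),(0,0),(2,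
  1),(0,3)]⟩),(.x 0 ⟨0,[(21,0)]⟩ ⟨3,[(15,0),(0,0),(2,1),(0,3)]⟩),.k,.k,⟨true,1,⟨1,[(1,0),(3,1),(0,
  0),(3,0),(13,0)]⟩,⟨0,[(0,0),(1,0),(11,0)]⟩⟩,⟨false,1,⟨1,[(18,1),(0,0),(6,0)]⟩,⟨0,[(17,0)]⟩⟩,⟨true,
  0,⟨0,[]⟩,⟨0,[(29,0)]⟩⟩,⟨false,0,⟨0,[(11,0),(13,0)]⟩,⟨0,[(10,0)]⟩⟩,⟨false,0,⟨0,[]⟩,⟨0,[]⟩⟩,⟨false,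
  0,⟨0,[]⟩,⟨0,[]⟩⟩,[.o ⟨false,0,⟨0,[(2,0)]⟩,⟨11,[(4,3),(5,3),(4,2),(0,2),(2,1)]⟩⟩,.o ⟨false,1,⟨1,
  [(19,0),(5,1),(1,0)]⟩,⟨0,[(24,0)]⟩⟩,.o ⟨false,1,⟨7,[(9,3),(5,0),(0,0),(0,3),(1,1)]⟩,⟨1,[(5,1),(2,
  0),(10,0)]⟩⟩,.a ⟨true,0,⟨0,[(17,0)]⟩,⟨0,[(18,0)]⟩⟩ ⟨false,1,⟨0,[(6,0),(11,0)]⟩,⟨3,[(0,1),(13,1),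
  (1,0),(2,0)]⟩⟩ ⟨true,0,⟨0,[(2,0),(15,0)]⟩,⟨0,[(17,0),(6,0)]⟩⟩]⟩) (.I [1,1,1,1,-1,0,1] (.R ⟨0,
  false,false,false,[1,0,-1],[0,1],[0,0,2,1],(⟨0,[(18,0)]⟩,⟨0,[(19,0)]⟩),(⟨0,[(22,0)]⟩,⟨0,[(21,
  0)]⟩),⟨0,[(2,0),(3,0)]⟩,.k,.k,(.x 0 ⟨0,[(22,0)]⟩ ⟨3,[(16,0),(0,0),(2,1),(0,3)]⟩),(.x 0 ⟨0,[(22,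
  0)]⟩ ⟨3,[(16,0),(0,0),(2,1),(0,3)]⟩),.k,.k,⟨true,0,⟨7,[(15,3),(0,0),(0,0),(2,1)]⟩,⟨0,[]⟩⟩,⟨false,
  1,⟨1,[(19,1),(0,0),(6,0)]⟩,⟨0,[(18,0)]⟩⟩,⟨true,(-1),⟨0,[(0,0),(0,0),(8,0),(1,0),(2,0)]⟩,⟨0,[(1,0),
  (23,0),(1,0)]⟩⟩,⟨false,0,⟨0,[(12,0),(13,0)]⟩,⟨0,[(11,0)]⟩⟩,⟨false,0,⟨0,[]⟩,⟨0,[]⟩⟩,⟨false,0,⟨0,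
  []⟩,⟨0,[]⟩⟩,[.o ⟨false,0,⟨0,[(3,0)]⟩,⟨11,[(5,3),(5,3),(4,2),(0,2),(2,1)]⟩⟩,.o ⟨false,1,⟨1,[(20,0),
  (5,1),(1,0)]⟩,⟨0,[(25,0)]⟩⟩,.o ⟨false,1,⟨7,[(10,3),(5,0),(0,0),(0,3),(1,1)]⟩,⟨1,[(6,1),(2,0),(10,
  0)]⟩⟩,.a ⟨true,0,⟨0,[(18,0)]⟩,⟨0,[(19,0)]⟩⟩ ⟨false,0,⟨2,[(0,0),(3,0),(23,1)]⟩,⟨5,[(5,1),(5,1),(8,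
  0),(6,2)]⟩⟩ ⟨true,0,⟨0,[(3,0),(15,0)]⟩,⟨0,[(18,0),(6,0)]⟩⟩]⟩) (.R ⟨0,false,false,true,[1,-1],[0,0,
  1],[1,0,1],(⟨0,[(21,0)]⟩,⟨0,[(22,0)]⟩),(⟨0,[(19,0)]⟩,⟨0,[(18,0)]⟩),⟨0,[(2,0)]⟩,.k,.k,(.r (-2) ⟨8,
  [(0,5),(12,9),(2,1),(6,1),(1,1)]⟩ ⟨0,[(3,0),(11,0),(10,0)]⟩),(.x 0 ⟨0,[(22,0)]⟩ ⟨3,[(16,0),(0,0),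
  (2,1),(0,3)]⟩),.k,.k,⟨true,0,⟨0,[(1,0),(22,0)]⟩,⟨0,[(12,0),(5,0),(4,0)]⟩⟩,⟨false,1,⟨1,[(19,1),(0,
  0),(6,0)]⟩,⟨0,[(18,0)]⟩⟩,⟨true,(-1),⟨0,[(3,0),(11,0)]⟩,⟨2,[(0,0),(4,0),(4,0),(12,1),(3,0)]⟩⟩,
  ⟨false,0,⟨3,[(4,0),(7,2),(1,0),(2,0),(1,0),(3,0),(2,0)]⟩,⟨0,[(0,0),(17,0)]⟩⟩,⟨false,0,⟨0,[]⟩,⟨0,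
  []⟩⟩,⟨false,0,⟨0,[]⟩,⟨0,[]⟩⟩,[.o ⟨false,0,⟨4,[(4,0),(0,2),(6,0),(1,3),(2,0),(1,0),(3,0)]⟩,⟨0,[(7,
  0)]⟩⟩,.o ⟨false,0,⟨9,[(4,0),(0,2),(6,5),(1,3),(2,0),(1,0),(3,0)]⟩,⟨1,[(7,0),(3,0),(2,0)]⟩⟩,.o
  ⟨false,0,⟨7,[(15,3),(0,0),(0,0),(2,1)]⟩,⟨1,[(20,0),(6,0)]⟩⟩,.a ⟨true,(-1),⟨0,[(15,0)]⟩,⟨0,[(27,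
  0)]⟩⟩ ⟨true,0,⟨0,[]⟩,⟨0,[(30,0)]⟩⟩ ⟨false,1,⟨5,[(12,3),(4,0),(1,1),(0,0),(2,1),(3,3)]⟩,⟨0,[(7,0),
  (7,0)]⟩⟩]⟩))))) (.Q [0,0,0,-1,0,0,0,1] (.pp false [-1,1]) (.R ⟨1,false,false,false,[0,0,1],[1,-1],
  [1,1,0,-1,0,0,1],(⟨0,[(16,0)]⟩,⟨0,[(15,0)]⟩),(⟨0,[(18,0)]⟩,⟨0,[(19,0)]⟩),⟨0,[(3,0)]⟩,.k,.k,(.r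
  (-1) ⟨7,[(1,3),(11,0),(0,2)]⟩ ⟨2,[(5,0),(5,0),(0,0),(0,0),(9,0)]⟩),(.x (-1) ⟨3,[(13,0),(0,0),(2,
  1),(0,3)]⟩ ⟨0,[(19,0)]⟩),.k,.k,⟨false,0,⟨0,[(9,0),(5,0),(4,0)]⟩,⟨0,[(4,0),(11,0)]⟩⟩,⟨true,0,⟨0,
  [(15,0)]⟩,⟨1,[(3,1),(2,0),(10,0)]⟩⟩,⟨true,0,⟨0,[(22,0)]⟩,⟨0,[(23,0)]⟩⟩,⟨false,1,⟨0,[(0,0),(3,0)]⟩,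
  ⟨4,[(9,2),(1,2),(0,0),(1,0),(1,1),(6,1)]⟩⟩,⟨false,0,⟨0,[]⟩,⟨3,[(13,0),(0,0),(10,1)]⟩⟩,⟨false,1,⟨1,
  [(0,0),(3,0),(0,0),(9,0),(8,0)]⟩,⟨10,[(2,2),(6,5),(1,5),(0,0),(1,0),(1,1)]⟩⟩,[.a ⟨true,0,⟨0,[(0,
  0)]⟩,⟨0,[(23,0)]⟩⟩ ⟨true,0,⟨0,[(1,0),(9,0),(0,0)]⟩,⟨0,[(5,0)]⟩⟩ ⟨false,1,⟨0,[(0,0),(6,0)]⟩,⟨27,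
  [(5,7),(3,11),(1,19),(0,3),(0,2),(0,0),(1,15)]⟩⟩,.o ⟨false,1,⟨5,[(2,1),(5,1),(8,0),(7,2)]⟩,⟨0,
  [(11,0)]⟩⟩,.o ⟨false,0,⟨1,[(3,1),(2,0),(10,0)]⟩,⟨7,[(7,3),(5,0),(0,0),(0,3),(1,1)]⟩⟩,.o ⟨false,0,
  ⟨7,[(2,1),(0,1),(2,0),(2,3),(1,3),(0,3),(0,2),(3,1)]⟩,⟨0,[(7,0)]⟩⟩]⟩) (.Q [0,0,0,0,0,-2,0,1] (.pp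
  false [-1,1]) (.S ⟨1,0,[0,1,-1,-1],[1,-1],[1,0,-1,-2],(⟨0,[(19,0)]⟩,⟨0,[(20,0)]⟩),⟨0,[(0,0)]⟩,.k,
  (.r (-2) ⟨2,[(2,1),(8,1),(2,1)]⟩ ⟨0,[(1,0),(11,0),(10,0)]⟩),⟨false,1,⟨5,[(3,1),(5,1),(8,0),(7,
  2)]⟩,⟨0,[(24,0)]⟩⟩,⟨true,0,⟨0,[(28,0)]⟩,⟨0,[]⟩⟩,⟨true,0,⟨0,[]⟩,⟨0,[(28,0)]⟩⟩,⟨false,0,⟨0,[(24,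
  0)]⟩,⟨5,[(3,1),(5,1),(8,0),(7,2)]⟩⟩,[.o ⟨false,0,⟨0,[(23,0)]⟩,⟨1,[(18,0),(5,1),(1,0)]⟩⟩,.o ⟨false,
  1,⟨11,[(3,3),(5,3),(4,2),(0,2),(2,1)]⟩,⟨0,[(1,0)]⟩⟩,.o ⟨false,0,⟨7,[(13,3),(0,0),(0,0),(2,1)]⟩,⟨1,
  [(18,0),(6,0)]⟩⟩,.a ⟨true,(-1),⟨0,[(13,0)]⟩,⟨0,[(25,0)]⟩⟩ ⟨false,2,⟨1,[(2,1),(11,0),(11,0)]⟩,⟨0,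
  [(1,0),(11,0),(10,0)]⟩⟩ ⟨true,1,⟨3,[(2,1),(11,0),(6,1),(3,0)]⟩,⟨0,[(1,0),(11,0)]⟩⟩]⟩) (.R ⟨0,
  false,false,false,[1,0,-1],[0,1],[1,0,0,0,0,0,-1],(⟨0,[(16,0)]⟩,⟨0,[(17,0)]⟩),(⟨0,[(20,0)]⟩,⟨0,
  [(19,0)]⟩),⟨0,[(0,0),(3,0)]⟩,.k,.k,(.x 0 ⟨0,[(20,0)]⟩ ⟨3,[(14,0),(0,0),(2,1),(0,3)]⟩),(.x 0 ⟨0,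
  [(20,0)]⟩ ⟨3,[(14,0),(0,0),(2,1),(0,3)]⟩),.k,.k,⟨true,1,⟨1,[(0,0),(3,1),(0,0),(3,0),(13,0)]⟩,⟨0,
  [(1,1),(0,0),(10,1),(10,0)]⟩⟩,⟨false,1,⟨1,[(17,1),(0,0),(6,0)]⟩,⟨0,[(16,0)]⟩⟩,⟨true,0,⟨0,[]⟩,⟨0,
  [(28,0)]⟩⟩,⟨false,0,⟨0,[(10,0),(13,0)]⟩,⟨0,[(9,0)]⟩⟩,⟨false,0,⟨0,[]⟩,⟨0,[]⟩⟩,⟨false,0,⟨0,[]⟩,⟨0,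
  []⟩⟩,[.o ⟨false,0,⟨0,[(1,0)]⟩,⟨11,[(3,3),(5,3),(4,2),(0,2),(2,1)]⟩⟩,.o ⟨false,1,⟨1,[(18,0),(5,1),
  (1,0)]⟩,⟨0,[(23,0)]⟩⟩,.o ⟨false,1,⟨7,[(8,3),(5,0),(0,0),(0,3),(1,1)]⟩,⟨1,[(4,1),(2,0),(10,0)]⟩⟩,
  .a ⟨true,0,⟨0,[(16,0)]⟩,⟨0,[(17,0)]⟩⟩ ⟨false,1,⟨0,[(5,0),(11,0)]⟩,⟨2,[(1,1),(1,0),(9,0),(1,0),(0,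
  0)]⟩⟩ ⟨true,0,⟨0,[(1,0),(15,0)]⟩,⟨0,[(16,0),(6,0)]⟩⟩]⟩)))) (.Q [0,0,0,0,0,2,0,-1] (.pp true [-1,
  1]) (.R ⟨0,false,false,false,[1,0,-1],[1,-1],[1,0,1],(⟨0,[(14,0)]⟩,⟨0,[(15,0)]⟩),(⟨0,[(17,0)]⟩,⟨0,
  [(18,0)]⟩),⟨0,[(0,0),(1,0)]⟩,.k,.k,(.x 0 ⟨0,[(18,0)]⟩ ⟨3,[(12,0),(0,0),(2,1),(0,3)]⟩),(.r 0 ⟨2,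
  [(4,0),(5,0),(0,0),(0,0),(9,0)]⟩ ⟨0,[(2,0),(3,1),(1,0),(2,0),(6,0),(2,0)]⟩),.k,.k,⟨true,(-1),⟨0,
  [(1,0),(6,0),(2,0),(9,0)]⟩,⟨1,[(21,1),(1,0),(0,0)]⟩⟩,⟨false,0,⟨7,[(11,3),(0,0),(0,0),(1,7),(0,
  1)]⟩,⟨0,[(6,0)]⟩⟩,⟨false,0,⟨0,[(8,0),(5,0)]⟩,⟨1,[(12,0),(10,0)]⟩⟩,⟨true,0,⟨1,[(8,0),(0,0),(1,0),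
  (3,0),(5,0)]⟩,⟨0,[(1,0),(19,0)]⟩⟩,⟨false,0,⟨0,[]⟩,⟨0,[]⟩⟩,⟨false,0,⟨0,[]⟩,⟨0,[]⟩⟩,[.o ⟨false,1,⟨5,
  [(9,3),(1,1),(0,1),(3,0),(4,1),(2,0)]⟩,⟨0,[(1,0),(6,0),(12,0)]⟩⟩,.o ⟨false,1,⟨0,[(21,0),(2,0)]⟩,
  ⟨0,[(10,0)]⟩⟩,.o ⟨false,1,⟨17,[(1,1),(4,5),(0,3),(5,2),(0,5),(1,4)]⟩,⟨1,[(2,1),(2,0),(10,0)]⟩⟩,.a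
  ⟨true,0,⟨0,[(14,0)]⟩,⟨0,[(15,0)]⟩⟩ ⟨true,0,⟨0,[]⟩,⟨0,[(26,0)]⟩⟩ ⟨false,1,⟨0,[(15,0),(5,0),(2,0)]⟩,
  ⟨0,[(1,0),(6,0),(5,0),(6,0)]⟩⟩]⟩) (.S ⟨1,0,[0,0,-1,-1],[1,-1],[1,0,1],(⟨0,[(17,0)]⟩,⟨0,[(18,0)]⟩),
  ⟨0,[(0,0)]⟩,.k,(.r (-2) ⟨0,[(21,1),(1,0),(0,0)]⟩ ⟨1,[(1,0),(6,0),(1,0),(0,1),(10,0)]⟩),⟨true,(-1),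
  ⟨0,[(1,0),(6,0),(2,0),(9,0)]⟩,⟨0,[(21,0),(1,0)]⟩⟩,⟨false,1,⟨3,[(12,0),(0,0),(10,1)]⟩,⟨0,[]⟩⟩,
  ⟨false,(-1),⟨0,[(1,0),(6,0),(2,0)]⟩,⟨0,[(21,1),(1,0),(0,0)]⟩⟩,⟨true,0,⟨0,[(22,0)]⟩,⟨0,[(21,0)]⟩⟩,
  [.o ⟨false,1,⟨5,[(9,3),(1,1),(0,1),(3,0),(4,1),(2,0)]⟩,⟨0,[(1,0),(6,0),(12,0)]⟩⟩,.o ⟨false,1,⟨0,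
  [(21,0),(2,0)]⟩,⟨0,[(10,0)]⟩⟩,.o ⟨false,0,⟨7,[(11,3),(0,0),(0,0),(2,1)]⟩,⟨1,[(16,0),(6,0)]⟩⟩,.a
  ⟨true,(-1),⟨0,[(11,0)]⟩,⟨0,[(23,0)]⟩⟩ ⟨true,0,⟨0,[]⟩,⟨0,[(26,0)]⟩⟩ ⟨false,2,⟨0,[(21,0),(1,0),(0,
  0)]⟩,⟨0,[(1,0),(6,0),(2,0),(9,0)]⟩⟩]⟩))) (.Q [0,-1,-1,-1,1,0,-1,1,-1] (.p false [0,0,1] [1] (⟨0,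
  [(13,0)]⟩,⟨0,[(12,0)]⟩) .k 1 (⟨0,[]⟩,⟨0,[]⟩) .k .k) (.Q [0,1,0,-2,0,0,0,1] (.pp false [-1,1]) (.I
  [0,1,2,1,-1,0,1] (.I [1,0,2,2,-1] t4 (.Q [0,0,0,0,0,2,0,-1] (.pp true [-1,1]) (.R ⟨0,false,false,
  true,[1,-1],[0,0,1],[1,0,-1,-1],(⟨0,[(20,0)]⟩,⟨0,[(21,0)]⟩),(⟨0,[(18,0)]⟩,⟨0,[(17,0)]⟩),⟨0,[(0,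
  0)]⟩,.k,.k,(.r (-1) ⟨0,[(1,0)]⟩ ⟨2,[(2,1),(4,1),(7,0),(0,0),(8,1)]⟩),(.x 0 ⟨0,[(21,0)]⟩ ⟨3,[(15,
  0),(0,0),(2,1),(0,3)]⟩),.k,.k,⟨true,1,⟨0,[(1,0),(5,0)]⟩,⟨0,[(2,0)]⟩⟩,⟨false,1,⟨1,[(18,1),(0,0),(6,
  0)]⟩,⟨0,[(17,0)]⟩⟩,⟨true,0,⟨0,[]⟩,⟨43,[(2,7),(0,3),(11,4),(0,0),(2,1),(2,15)]⟩⟩,⟨false,0,⟨10,[(2,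
  1),(4,0),(3,5),(1,4),(2,1),(1,4),(6,2)]⟩,⟨0,[(4,0)]⟩⟩,⟨false,0,⟨0,[]⟩,⟨0,[]⟩⟩,⟨false,0,⟨0,[]⟩,⟨0,
  []⟩⟩,[.o ⟨false,0,⟨8,[(2,3),(8,2),(4,0),(1,5),(0,2),(2,1),(1,3)]⟩,⟨0,[(6,0)]⟩⟩,.o ⟨false,0,⟨17,
  [(2,3),(8,11),(4,0),(1,5),(0,2),(2,1),(1,3)]⟩,⟨1,[(6,0),(3,0),(2,0)]⟩⟩,.o ⟨false,0,⟨7,[(14,3),(0,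
  0),(0,0),(2,1)]⟩,⟨1,[(19,0),(6,0)]⟩⟩,.a ⟨true,(-1),⟨0,[(14,0)]⟩,⟨0,[(26,0)]⟩⟩ ⟨true,1,⟨1,[(1,0),
  (24,0)]⟩,⟨0,[(13,0),(0,0)]⟩⟩ ⟨false,1,⟨5,[(11,3),(4,0),(1,1),(0,0),(2,1),(3,3)]⟩,⟨0,[(6,0),(7,
  0)]⟩⟩]⟩) (.S ⟨1,0,[0,0,-1,-1],[1,-1],[1,1,-1,-2],(⟨0,[(20,0)]⟩,⟨0,[(21,0)]⟩),⟨0,[(0,0)]⟩,.k,(.r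
  (-1) ⟨0,[(1,0)]⟩ ⟨2,[(2,1),(4,1),(7,0),(0,0),(8,1)]⟩),⟨true,0,⟨0,[(24,0)]⟩,⟨0,[(25,0)]⟩⟩,⟨false,1,
  ⟨3,[(15,0),(0,0),(10,1)]⟩,⟨0,[]⟩⟩,⟨false,0,⟨0,[]⟩,⟨3,[(15,0),(0,0),(10,1)]⟩⟩,⟨true,0,⟨0,[(25,0)]⟩,
  ⟨0,[(24,0)]⟩⟩,[.e ⟨false,1,⟨19,[(1,14),(1,3),(8,1),(2,0),(3,1),(2,7)]⟩,⟨1,[(7,0),(3,0),(5,0),(7,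
  2)]⟩⟩ ⟨false,1,⟨1,[(1,0),(24,0)]⟩,⟨5,[(2,1),(4,1),(7,0),(0,0),(8,1)]⟩⟩,.o ⟨false,1,⟨3,[(3,1),(15,
  0),(7,2)]⟩,⟨0,[(13,0)]⟩⟩,.o ⟨false,0,⟨7,[(14,3),(0,0),(0,0),(2,1)]⟩,⟨1,[(19,0),(6,0)]⟩⟩,.a ⟨true,
  (-1),⟨0,[(14,0)]⟩,⟨0,[(26,0)]⟩⟩ ⟨false,1,⟨0,[(1,0)]⟩,⟨3,[(2,1),(4,3),(8,0),(8,1),(1,0)]⟩⟩ ⟨true,1,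
  ⟨1,[(1,0),(24,0)]⟩,⟨0,[(13,0),(0,0)]⟩⟩]⟩))) (.R ⟨0,false,false,false,[0,0,1],[1,-1],[1],(⟨0,[(16,
  0)]⟩,⟨0,[(15,0)]⟩),(⟨0,[(18,0)]⟩,⟨0,[(19,0)]⟩),⟨0,[(3,0)]⟩,.k,.k,(.r (-1) ⟨0,[(0,0),(6,1),(1,1),
  (2,1),(7,0),(6,0)]⟩ ⟨2,[(5,0),(5,0),(0,0),(0,0),(9,0)]⟩),(.x (-1) ⟨3,[(13,0),(0,0),(2,1),(0,3)]⟩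
  ⟨0,[(19,0)]⟩),.k,.k,⟨false,0,⟨0,[(23,0)]⟩,⟨49,[(0,9),(0,5),(8,27),(2,8),(3,2),(2,1)]⟩⟩,⟨true,0,⟨0,
  [(15,0)]⟩,⟨2,[(0,0),(4,0),(3,1),(1,1),(0,0),(3,0),(5,1)]⟩⟩,⟨true,0,⟨0,[(0,0),(10,0),(0,0)]⟩,⟨0,
  [(9,0),(5,0),(4,0)]⟩⟩,⟨false,1,⟨0,[(2,0)]⟩,⟨4,[(9,2),(1,2),(0,0),(1,0),(1,1),(6,1)]⟩⟩,⟨false,0,⟨0,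
  []⟩,⟨0,[]⟩⟩,⟨false,0,⟨0,[]⟩,⟨0,[]⟩⟩,[.a ⟨true,0,⟨0,[(0,0),(8,0),(2,0),(2,0),(4,0)]⟩,⟨0,[(23,0)]⟩⟩
  ⟨true,0,⟨0,[]⟩,⟨7,[(12,3),(0,0),(0,0),(2,1)]⟩⟩ ⟨false,1,⟨0,[(0,0),(8,0),(5,1),(4,0)]⟩,⟨27,[(5,7),
  (3,11),(1,19),(0,3),(0,2),(0,0),(1,15)]⟩⟩,.o ⟨false,1,⟨3,[(1,1),(15,0),(7,2)]⟩,⟨0,[(11,0)]⟩⟩,.o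
  ⟨false,0,⟨2,[(0,0),(4,0),(3,1),(1,1),(0,0),(3,0),(5,1)]⟩,⟨7,[(7,3),(5,0),(0,0),(0,3),(1,1)]⟩⟩,.o
  ⟨false,0,⟨0,[(12,0),(3,0),(0,0)]⟩,⟨0,[(7,0)]⟩⟩]⟩)) (.Q [0,0,0,0,0,2,0,-1] (.pp true [-1,1]) (.I
  [1,-1,1,0,0,0,-1] (.R ⟨0,false,false,true,[1,-1],[0,0,1],[1,0,1],(⟨0,[(19,0)]⟩,⟨0,[(20,0)]⟩),(⟨0,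
  [(17,0)]⟩,⟨0,[(16,0)]⟩),⟨0,[(1,0)]⟩,.k,.k,(.r (-2) ⟨2,[(3,1),(7,1),(5,1),(0,0),(4,1),(1,0)]⟩ ⟨1,
  [(2,0),(9,0),(0,1),(10,0)]⟩),(.x 0 ⟨0,[(20,0)]⟩ ⟨3,[(14,0),(0,0),(2,1),(0,3)]⟩),.k,.k,⟨true,0,⟨0,
  [(0,0)]⟩,⟨0,[(10,0),(5,0),(4,0)]⟩⟩,⟨false,1,⟨1,[(17,1),(0,0),(6,0)]⟩,⟨0,[(16,0)]⟩⟩,⟨true,(-1),⟨0,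
  [(2,0),(10,0),(9,0)]⟩,⟨0,[(23,0),(1,0)]⟩⟩,⟨false,0,⟨10,[(2,1),(7,4),(1,6),(0,2),(1,2),(1,5)]⟩,⟨0,
  [(3,0)]⟩⟩,⟨false,0,⟨0,[]⟩,⟨0,[]⟩⟩,⟨false,0,⟨0,[]⟩,⟨0,[]⟩⟩,[.o ⟨false,0,⟨0,[(10,0),(17,1)]⟩,⟨0,[(5,
  0)]⟩⟩,.o ⟨false,0,⟨0,[(10,0),(17,0)]⟩,⟨1,[(5,0),(3,0),(2,0)]⟩⟩,.o ⟨false,0,⟨7,[(13,3),(0,0),(0,0),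
  (2,1)]⟩,⟨1,[(18,0),(6,0)]⟩⟩,.a ⟨true,(-1),⟨0,[(13,0)]⟩,⟨0,[(25,0)]⟩⟩ ⟨true,0,⟨0,[]⟩,⟨0,[(28,0)]⟩⟩
  ⟨false,1,⟨5,[(10,3),(4,0),(1,1),(0,0),(2,1),(3,3)]⟩,⟨0,[(5,0),(7,0)]⟩⟩]⟩) (.R ⟨0,false,false,true,
  [1,-1],[0,0,1],[1,1,0,0,0,0,1],(⟨0,[(19,0)]⟩,⟨0,[(20,0)]⟩),(⟨0,[(17,0)]⟩,⟨0,[(16,0)]⟩),⟨0,[(1,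
  0)]⟩,.k,.k,(.r (-2) ⟨2,[(3,1),(7,1),(5,1),(0,0),(4,1),(1,0)]⟩ ⟨1,[(2,0),(9,0),(0,1),(10,0)]⟩),(.x
  0 ⟨0,[(20,0)]⟩ ⟨3,[(14,0),(0,0),(2,1),(0,3)]⟩),.k,.k,⟨true,0,⟨0,[]⟩,⟨7,[(13,3),(0,0),(0,0),(2,
  1)]⟩⟩,⟨false,1,⟨1,[(17,1),(0,0),(6,0)]⟩,⟨0,[(16,0)]⟩⟩,⟨true,(-1),⟨0,[(0,0),(1,0),(10,0),(9,0)]⟩,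
  ⟨0,[(5,0),(11,0),(5,0)]⟩⟩,⟨false,0,⟨10,[(2,1),(7,4),(1,6),(0,2),(1,2),(1,5)]⟩,⟨0,[(3,0)]⟩⟩,⟨false,
  0,⟨0,[]⟩,⟨0,[]⟩⟩,⟨false,0,⟨0,[]⟩,⟨0,[]⟩⟩,[.o ⟨false,0,⟨0,[(10,0),(17,1)]⟩,⟨0,[(5,0)]⟩⟩,.o ⟨false,
  0,⟨0,[(10,0),(17,0)]⟩,⟨1,[(5,0),(3,0),(2,0)]⟩⟩,.o ⟨false,0,⟨7,[(13,3),(0,0),(0,0),(2,1)]⟩,⟨1,[(18,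
  0),(6,0)]⟩⟩,.a ⟨true,(-1),⟨0,[(13,0)]⟩,⟨0,[(25,0)]⟩⟩ ⟨true,0,⟨0,[(0,0)]⟩,⟨0,[(6,0),(16,0)]⟩⟩
  ⟨false,1,⟨5,[(0,1),(9,1),(4,0),(1,3),(0,1),(6,2)]⟩,⟨0,[(5,0),(7,0)]⟩⟩]⟩)) (.S ⟨1,0,[0,1,-1,-1],[1,
  -1],[1,0,-1,-2],(⟨0,[(18,0)]⟩,⟨0,[(19,0)]⟩),⟨0,[(0,0)]⟩,.k,(.r (-2) ⟨2,[(2,1),(7,1),(5,1),(0,0),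
  (4,1),(1,0)]⟩ ⟨1,[(1,0),(9,0),(0,1),(10,0)]⟩),⟨false,1,⟨0,[(22,0),(2,0)]⟩,⟨0,[(23,0)]⟩⟩,⟨true,0,
  ⟨0,[(27,0)]⟩,⟨0,[]⟩⟩,⟨true,0,⟨0,[]⟩,⟨0,[(27,0)]⟩⟩,⟨false,0,⟨0,[(23,0)]⟩,⟨0,[(22,0),(2,0)]⟩⟩,[.o
  ⟨false,0,⟨0,[(22,0)]⟩,⟨3,[(1,1),(11,0),(0,0),(2,0),(7,0)]⟩⟩,.o ⟨false,1,⟨5,[(10,3),(1,1),(0,1),(3,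
  0),(4,1),(2,0)]⟩,⟨0,[(1,0),(20,0)]⟩⟩,.o ⟨false,0,⟨7,[(12,3),(0,0),(0,0),(2,1)]⟩,⟨1,[(17,0),(6,
  0)]⟩⟩,.a ⟨true,(-1),⟨0,[(12,0)]⟩,⟨0,[(24,0)]⟩⟩ ⟨false,2,⟨0,[(2,0),(6,0),(12,0),(1,0)]⟩,⟨1,[(1,0),
  (9,0),(0,1),(10,0)]⟩⟩ ⟨true,1,⟨0,[(22,0),(1,0)]⟩,⟨0,[(1,0),(10,0),(9,0)]⟩⟩]⟩))) (.R ⟨2,true,false,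
  false,[0,1],[1,0,-1],[0,0,1,1],(⟨0,[]⟩,⟨0,[]⟩),(⟨0,[(13,0)]⟩,⟨0,[(14,0)]⟩),⟨0,[]⟩,.k,.k,.k,(.x
  (-1) ⟨3,[(11,0),(0,0),(2,1),(0,3)]⟩ ⟨0,[(17,0)]⟩),.k,.k,⟨false,0,⟨1,[(0,1),(12,1),(8,0),(0,0)]⟩,
  ⟨0,[(2,0),(11,0),(5,0)]⟩⟩,⟨true,0,⟨0,[(13,0)]⟩,⟨1,[(0,0),(1,0),(0,0),(3,0),(6,0),(5,1)]⟩⟩,⟨false,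
  1,⟨3,[(11,0),(0,0),(10,1)]⟩,⟨0,[]⟩⟩,⟨true,1,⟨0,[(6,0)]⟩,⟨0,[(0,0)]⟩⟩,⟨true,0,⟨0,[(21,0)]⟩,⟨0,[(20,
  0)]⟩⟩,⟨false,1,⟨0,[(2,0),(10,0),(0,0)]⟩,⟨5,[(0,1),(6,3),(3,0),(0,0),(7,1)]⟩⟩,[]⟩)))

def t6 : Tre :=
  (.Q [0,0,3,0,-1,0,0,0,1] (.p true [0,0,1] [] (⟨0,[(16,0)]⟩,⟨0,[(15,0)]⟩) .k 0 (⟨0,[]⟩,⟨0,[]⟩) .k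
  .k) (.Q [0,0,-1,0,1,0,-1,0,-1] (.p false [0,0,1] [] (⟨0,[(17,0)]⟩,⟨0,[(16,0)]⟩) .k 0 (⟨0,[]⟩,⟨0,
  []⟩) .k .k) (.Q [0,0,1,0,0,0,0,-1,1] (.p true [0,0,1] [1] (⟨0,[(18,0)]⟩,⟨0,[(17,0)]⟩) .k 1 (⟨0,
  []⟩,⟨0,[]⟩) .k .k) (.Q [0,1,1,1,-1,0,1,-1,1] (.p true [0,0,1] [1] (⟨0,[(19,0)]⟩,⟨0,[(18,0)]⟩) .k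
  1 (⟨0,[]⟩,⟨0,[]⟩) .k .k) (.R ⟨2,true,false,false,[0,1],[1,0,-1],[1,0,1],(⟨0,[]⟩,⟨0,[]⟩),(⟨0,[(19,
  0)]⟩,⟨0,[(20,0)]⟩),⟨0,[]⟩,.k,.k,.k,(.x (-1) ⟨3,[(17,0),(0,0),(2,1),(0,3)]⟩ ⟨0,[(23,0)]⟩),.k,.k,
  ⟨false,0,⟨5,[(0,0),(4,1),(3,0),(8,0),(0,0)]⟩,⟨1,[(17,0),(10,0)]⟩⟩,⟨true,0,⟨0,[(19,0)]⟩,⟨0,[(1,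
  0)]⟩⟩,⟨false,1,⟨0,[(26,0),(2,0)]⟩,⟨0,[(27,0)]⟩⟩,⟨true,1,⟨0,[(12,0)]⟩,⟨0,[(0,0)]⟩⟩,⟨true,0,⟨0,[]⟩,
  ⟨0,[(31,0)]⟩⟩,⟨false,1,⟨0,[(6,0)]⟩,⟨25,[(0,3),(0,11),(1,1),(5,3),(3,7),(4,4),(2,0)]⟩⟩,[]⟩) (.I [0,
  0,1,1,0,0,-1] (.R ⟨0,false,false,true,[0,0,1],[1,-1],[0,1,0,-1,0,0,1],(⟨0,[(21,0)]⟩,⟨0,[(20,0)]⟩),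
  (⟨0,[(23,0)]⟩,⟨0,[(24,0)]⟩),⟨0,[(8,0)]⟩,.k,.k,(.r (-1) ⟨1,[(6,3),(11,0),(8,1),(1,0),(2,1)]⟩ ⟨0,
  [(0,0)]⟩),(.x (-1) ⟨3,[(18,0),(0,0),(2,1),(0,3)]⟩ ⟨0,[(24,0)]⟩),.k,.k,⟨false,0,⟨6,[(6,2),(3,1),(5,
  0),(0,0),(1,0),(8,0)]⟩,⟨1,[(18,0),(10,0)]⟩⟩,⟨true,0,⟨0,[(20,0)]⟩,⟨0,[(2,0)]⟩⟩,⟨true,0,⟨0,[(27,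
  0)]⟩,⟨0,[(28,0)]⟩⟩,⟨false,1,⟨0,[(13,0)]⟩,⟨0,[(14,0),(13,0)]⟩⟩,⟨false,0,⟨0,[]⟩,⟨0,[]⟩⟩,⟨false,0,⟨0,
  []⟩,⟨0,[]⟩⟩,[.o ⟨false,0,⟨0,[(27,0)]⟩,⟨1,[(22,0),(5,1),(1,0)]⟩⟩,.a ⟨true,0,⟨1,[(1,0),(8,0),(6,0),
  (3,0)]⟩,⟨0,[(28,0)]⟩⟩ ⟨true,0,⟨0,[(9,0)]⟩,⟨0,[(5,0)]⟩⟩ ⟨false,1,⟨0,[(7,0),(2,0)]⟩,⟨0,[(2,0),(25,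
  0)]⟩⟩,.o ⟨false,0,⟨0,[(2,0)]⟩,⟨5,[(3,1),(8,1),(6,0),(0,1),(1,0)]⟩⟩,.o ⟨false,0,⟨7,[(2,3),(1,3),
  (13,0),(0,0),(2,1)]⟩,⟨0,[(12,0)]⟩⟩]⟩) (.Q [0,0,0,0,0,-2,0,1] (.pp false [-1,1]) (.S ⟨1,0,[0,1,0,0,
  0,0,-1],[1,0,-1],[1,0,0,-1,0,0,-1],(⟨0,[(21,0)]⟩,⟨0,[(22,0)]⟩),⟨0,[(0,0),(8,0)]⟩,.k,(.x 0 ⟨0,[(25,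
  0)]⟩ ⟨7,[(0,3),(18,2),(0,2),(2,1)]⟩),⟨false,1,⟨9,[(2,5),(0,1),(1,1),(9,1),(0,3),(6,0),(7,0)]⟩,⟨0,
  [(29,0)]⟩⟩,⟨true,0,⟨0,[(33,0)]⟩,⟨0,[]⟩⟩,⟨true,0,⟨0,[]⟩,⟨0,[(33,0)]⟩⟩,⟨false,0,⟨0,[(29,0)]⟩,⟨9,[(2,
  5),(0,1),(1,1),(9,1),(0,3),(6,0),(7,0)]⟩⟩,[.o ⟨false,1,⟨0,[(4,0),(28,0)]⟩,⟨0,[(15,0)]⟩⟩,.o ⟨false,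
  1,⟨0,[(4,0)]⟩,⟨6,[(3,1),(1,0),(5,0),(3,3),(1,0),(2,0),(5,0)]⟩⟩,.o ⟨false,1,⟨5,[(4,1),(8,1),(6,0),
  (0,1),(1,0)]⟩,⟨0,[(3,0)]⟩⟩,.a ⟨true,0,⟨0,[(21,0)]⟩,⟨0,[(22,0)]⟩⟩ ⟨true,1,⟨0,[(1,0),(17,0)]⟩,⟨0,
  [(1,0),(15,0),(0,0),(10,0)]⟩⟩ ⟨false,1,⟨1,[(19,0),(10,0)]⟩,⟨5,[(7,3),(10,1),(1,0),(2,0),(3,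
  1)]⟩⟩]⟩) (.R ⟨0,false,false,false,[1,-1],[0,0,1],[0,1,1],(⟨0,[(24,0)]⟩,⟨0,[(25,0)]⟩),(⟨0,[(22,
  0)]⟩,⟨0,[(21,0)]⟩),⟨0,[(0,0)]⟩,.k,.k,(.r (-1) ⟨0,[(1,1),(17,0)]⟩ ⟨4,[(6,5),(0,1),(9,1),(0,1),(1,
  1),(8,1)]⟩),(.x 0 ⟨0,[(25,0)]⟩ ⟨3,[(19,0),(0,0),(2,1),(0,3)]⟩),.k,.k,⟨true,0,⟨0,[(6,0),(21,0)]⟩,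
  ⟨0,[(7,0)]⟩⟩,⟨false,1,⟨0,[(3,0),(26,0)]⟩,⟨0,[(21,0)]⟩⟩,⟨true,(-1),⟨0,[(17,0),(0,0)]⟩,⟨1,[(1,1),
  (17,0),(10,0)]⟩⟩,⟨false,0,⟨0,[(15,0),(13,0)]⟩,⟨0,[(14,0)]⟩⟩,⟨false,0,⟨0,[]⟩,⟨0,[]⟩⟩,⟨false,0,⟨0,
  []⟩,⟨0,[]⟩⟩,[.o ⟨false,0,⟨6,[(3,1),(1,0),(5,0),(3,3),(1,0),(2,0),(5,0)]⟩,⟨0,[(4,0)]⟩⟩,.o ⟨false,0,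
  ⟨0,[(15,0)]⟩,⟨0,[(4,0),(28,0)]⟩⟩,.o ⟨false,0,⟨7,[(18,3),(0,0),(0,0),(2,1)]⟩,⟨1,[(23,0),(6,0)]⟩⟩,
  .a ⟨true,(-1),⟨0,[(18,0)]⟩,⟨0,[(30,0)]⟩⟩ ⟨true,0,⟨0,[(33,0)]⟩,⟨0,[]⟩⟩ ⟨false,1,⟨0,[(15,0),(14,
  0)]⟩,⟨0,[(4,0),(13,0)]⟩⟩]⟩)))) (.Q [0,1,1,1,-1,0,1,-1,1] (.p true [0,0,1] [1] (⟨0,[(19,0)]⟩,⟨0,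
  [(18,0)]⟩) .k 1 (⟨0,[]⟩,⟨0,[]⟩) .k .k) (.R ⟨2,true,false,false,[0,1],[1,0,-1],[0,0,1,1],(⟨0,[]⟩,
  ⟨0,[]⟩),(⟨0,[(19,0)]⟩,⟨0,[(20,0)]⟩),⟨0,[]⟩,.k,.k,.k,(.x (-1) ⟨3,[(17,0),(0,0),(2,1),(0,3)]⟩ ⟨0,
  [(23,0)]⟩),.k,.k,⟨true,(-1),⟨0,[(0,0),(0,0),(23,0)]⟩,⟨1,[(17,0),(8,1),(2,0)]⟩⟩,⟨false,0,⟨0,[(1,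
  0)]⟩,⟨3,[(17,0),(0,0),(1,3),(0,1)]⟩⟩,⟨false,1,⟨3,[(17,0),(0,0),(10,1)]⟩,⟨0,[]⟩⟩,⟨true,1,⟨0,[(12,
  0)]⟩,⟨0,[(0,0)]⟩⟩,⟨true,0,⟨0,[(27,0)]⟩,⟨0,[(26,0)]⟩⟩,⟨false,1,⟨0,[(6,0)]⟩,⟨25,[(0,7),(2,5),(9,7),
  (0,7),(3,0),(1,3),(0,4)]⟩⟩,[]⟩) (.Q [0,0,0,0,0,-1,0,1,-1] (.ed true [0,1,1] .k) (.I [1,1,1,0,-1,0,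
  1] (.S ⟨1,0,[0,1,0,0,0,0,-1],[1,0,-1],[0,0,0,0,0,0,-1],(⟨0,[(21,0)]⟩,⟨0,[(22,0)]⟩),⟨0,[(1,0)]⟩,.k,
  (.x 0 ⟨0,[(25,0)]⟩ ⟨3,[(19,0),(0,0),(2,1),(0,3)]⟩),⟨false,1,⟨3,[(19,0),(0,0),(10,1)]⟩,⟨0,[]⟩⟩,
  ⟨true,0,⟨0,[(33,0)]⟩,⟨0,[]⟩⟩,⟨true,0,⟨0,[(29,0)]⟩,⟨0,[(28,0)]⟩⟩,⟨false,0,⟨0,[(29,0)]⟩,⟨0,[(28,0),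
  (2,0)]⟩⟩,[.o ⟨false,1,⟨0,[(4,0),(28,0)]⟩,⟨0,[(15,0)]⟩⟩,.o ⟨false,1,⟨0,[(4,0)]⟩,⟨9,[(5,1),(9,7),(4,
  0),(2,0),(2,3)]⟩⟩,.e ⟨false,1,⟨1,[(19,0),(11,0)]⟩,⟨5,[(0,0),(6,1),(3,0),(8,0),(8,0)]⟩⟩ ⟨false,1,
  ⟨3,[(19,2),(0,0)]⟩,⟨0,[(7,0)]⟩⟩,.a ⟨true,0,⟨0,[(21,0)]⟩,⟨0,[(22,0)]⟩⟩ ⟨true,1,⟨1,[(19,0),(10,0)]⟩,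
  ⟨0,[(0,0)]⟩⟩ ⟨false,1,⟨1,[(19,0),(10,0)]⟩,⟨5,[(7,3),(10,1),(1,0),(2,0),(3,1)]⟩⟩]⟩) (.I [0,0,1,0,0,
  0,-1] (.R ⟨0,false,false,false,[0,0,1],[0,1],[1,0,0,0,0,0,1],(⟨0,[(23,0)]⟩,⟨0,[(22,0)]⟩),(⟨0,[(26,
  0)]⟩,⟨0,[(25,0)]⟩),⟨0,[(10,0)]⟩,.k,.k,(.r (-1) ⟨0,[(0,1),(0,0),(2,1),(3,3),(9,1),(4,1),(5,2)]⟩ ⟨0,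
  [(0,1),(3,0),(3,0),(9,0),(4,0)]⟩),(.r (-1) ⟨0,[(0,1),(0,0),(2,1),(3,3),(9,1),(4,1),(5,2)]⟩ ⟨0,[(0,
  1),(3,0),(3,0),(9,0),(4,0)]⟩),.k,.k,⟨false,1,⟨1,[(12,1),(18,0),(0,0)]⟩,⟨0,[(0,1),(3,0),(3,0),(9,
  0),(4,0)]⟩⟩,⟨true,1,⟨0,[(14,0)]⟩,⟨0,[(6,0)]⟩⟩,⟨true,0,⟨0,[]⟩,⟨0,[(34,0)]⟩⟩,⟨false,1,⟨0,[(1,0),(2,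
  0),(13,0),(9,0)]⟩,⟨1,[(6,0),(4,0),(5,0),(5,0)]⟩⟩,⟨false,0,⟨0,[]⟩,⟨0,[]⟩⟩,⟨false,0,⟨0,[]⟩,⟨0,[]⟩⟩,
  [.a ⟨true,0,⟨0,[(30,0)]⟩,⟨1,[(3,0),(8,0),(6,0),(3,0)]⟩⟩ ⟨true,0,⟨6,[(8,2),(3,1),(5,0),(0,0),(1,0),
  (8,0)]⟩,⟨0,[(0,0)]⟩⟩ ⟨false,1,⟨0,[(14,0),(15,0)]⟩,⟨2,[(3,0),(2,0),(9,0),(6,1),(5,1)]⟩⟩,.o ⟨false,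
  1,⟨1,[(24,0),(5,1),(1,0)]⟩,⟨0,[(29,0)]⟩⟩,.e ⟨false,0,⟨0,[(8,0)]⟩,⟨3,[(20,2),(0,0)]⟩⟩ ⟨false,1,⟨1,
  [(4,1),(19,0),(5,1),(1,0)]⟩,⟨2,[(3,0),(2,0),(9,0),(6,1),(5,1)]⟩⟩,.o ⟨false,0,⟨11,[(6,7),(13,0),(0,
  0),(1,3),(0,5)]⟩,⟨0,[(14,0)]⟩⟩]⟩) (.S ⟨1,0,[0,1,0,0,0,0,-1],[1,0,-1],[1,0,0,-1,0,0,-1],(⟨0,[(22,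
  0)]⟩,⟨0,[(23,0)]⟩),⟨0,[(2,0)]⟩,.k,(.x 0 ⟨0,[(26,0)]⟩ ⟨3,[(20,0),(0,0),(2,1),(0,3)]⟩),⟨false,1,⟨0,
  [(29,0),(2,0)]⟩,⟨0,[(30,0)]⟩⟩,⟨true,0,⟨0,[(34,0)]⟩,⟨0,[]⟩⟩,⟨true,0,⟨0,[]⟩,⟨0,[(34,0)]⟩⟩,⟨false,0,
  ⟨0,[(30,0)]⟩,⟨0,[(29,0),(2,0)]⟩⟩,[.o ⟨false,1,⟨0,[(5,0),(28,0)]⟩,⟨0,[(16,0)]⟩⟩,.o ⟨false,1,⟨0,[(5,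
  0)]⟩,⟨9,[(6,1),(9,7),(4,0),(2,0),(2,3)]⟩⟩,.e ⟨false,1,⟨0,[(1,0),(26,0),(0,0)]⟩,⟨4,[(0,1),(7,0),(9,
  0),(0,0),(1,0),(8,3)]⟩⟩ ⟨false,1,⟨3,[(20,2),(0,0)]⟩,⟨0,[(8,0)]⟩⟩,.a ⟨true,0,⟨0,[(22,0)]⟩,⟨0,[(23,
  0)]⟩⟩ ⟨true,1,⟨0,[(1,0),(27,0)]⟩,⟨0,[(0,0),(17,0),(0,0)]⟩⟩ ⟨false,1,⟨1,[(20,0),(10,0)]⟩,⟨5,[(8,3),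
  (10,1),(1,0),(2,0),(3,1)]⟩⟩]⟩))) (.I [0,0,-2,-1,1] (.R ⟨0,false,false,false,[1,-1],[0,0,1],[0,1,
  1],(⟨0,[(24,0)]⟩,⟨0,[(25,0)]⟩),(⟨0,[(22,0)]⟩,⟨0,[(21,0)]⟩),⟨0,[(1,0),(7,0)]⟩,.k,.k,(.x 1 ⟨0,[(1,
  1),(1,2),(1,0),(11,0),(9,1),(0,0)]⟩ ⟨0,[(23,0),(0,1),(5,0)]⟩),(.x 0 ⟨0,[(25,0)]⟩ ⟨3,[(19,0),(0,0),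
  (2,1),(0,3)]⟩),.k,.k,⟨true,0,⟨0,[(6,0),(21,0)]⟩,⟨0,[(7,0)]⟩⟩,⟨false,1,⟨1,[(22,1),(0,0),(6,0)]⟩,⟨0,
  [(21,0)]⟩⟩,⟨true,(-1),⟨0,[(17,0),(0,0)]⟩,⟨0,[(0,0)]⟩⟩,⟨false,0,⟨0,[(15,0),(13,0)]⟩,⟨0,[(14,0)]⟩⟩,
  ⟨false,0,⟨0,[]⟩,⟨0,[]⟩⟩,⟨false,0,⟨0,[]⟩,⟨0,[]⟩⟩,[.o ⟨false,0,⟨9,[(5,1),(9,7),(4,0),(2,0),(2,3)]⟩,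
  ⟨0,[(4,0)]⟩⟩,.o ⟨false,0,⟨0,[(15,0)]⟩,⟨0,[(4,0),(28,0)]⟩⟩,.o ⟨false,0,⟨7,[(18,3),(0,0),(0,0),(2,
  1)]⟩,⟨1,[(23,0),(6,0)]⟩⟩,.a ⟨true,(-1),⟨0,[(18,0)]⟩,⟨0,[(30,0)]⟩⟩ ⟨true,0,⟨0,[(33,0)]⟩,⟨0,[]⟩⟩
  ⟨false,1,⟨0,[(15,0),(14,0)]⟩,⟨0,[(4,0),(13,0)]⟩⟩]⟩) (.R ⟨0,false,false,false,[1,-1],[0,0,1],[0,1,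
  -1,-1],(⟨0,[(24,0)]⟩,⟨0,[(25,0)]⟩),(⟨0,[(22,0)]⟩,⟨0,[(21,0)]⟩),⟨0,[(1,0),(7,0)]⟩,.k,.k,(.r (-2)
  ⟨2,[(2,1),(13,1),(5,1),(0,0),(4,1),(1,0)]⟩ ⟨0,[(0,0),(28,0)]⟩),(.x 0 ⟨0,[(25,0)]⟩ ⟨3,[(19,0),(0,
  0),(2,1),(0,3)]⟩),.k,.k,⟨true,1,⟨1,[(19,0),(8,1),(1,0)]⟩,⟨0,[(0,0),(6,0)]⟩⟩,⟨false,1,⟨1,[(22,1),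
  (0,0),(6,0)]⟩,⟨0,[(21,0)]⟩⟩,⟨true,0,⟨0,[(33,0)]⟩,⟨0,[]⟩⟩,⟨false,0,⟨0,[(15,0),(13,0)]⟩,⟨0,[(14,
  0)]⟩⟩,⟨false,0,⟨0,[]⟩,⟨0,[]⟩⟩,⟨false,0,⟨0,[]⟩,⟨0,[]⟩⟩,[.o ⟨false,0,⟨9,[(5,1),(9,7),(4,0),(2,0),(2,
  3)]⟩,⟨0,[(4,0)]⟩⟩,.o ⟨false,0,⟨0,[(15,0)]⟩,⟨0,[(4,0),(28,0)]⟩⟩,.o ⟨false,0,⟨7,[(18,3),(0,0),(0,0),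
  (2,1)]⟩,⟨1,[(23,0),(6,0)]⟩⟩,.a ⟨true,(-1),⟨0,[(18,0)]⟩,⟨0,[(30,0)]⟩⟩ ⟨true,1,⟨0,[(28,0),(1,0)]⟩,
  ⟨0,[(0,0)]⟩⟩ ⟨false,1,⟨0,[(15,0),(14,0)]⟩,⟨0,[(4,0),(13,0)]⟩⟩]⟩))))) (.R ⟨2,true,false,false,[0,
  1],[1,0,-1],[1,0,1],(⟨0,[]⟩,⟨0,[]⟩),(⟨0,[(17,0)]⟩,⟨0,[(18,0)]⟩),⟨0,[]⟩,.k,.k,.k,(.x (-1) ⟨3,[(15,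
  0),(0,0),(2,1),(0,3)]⟩ ⟨0,[(21,0)]⟩),.k,.k,⟨false,0,⟨5,[(0,0),(2,1),(3,0),(5,0),(2,0),(0,0)]⟩,⟨1,
  [(15,0),(10,0)]⟩⟩,⟨true,0,⟨0,[(17,0)]⟩,⟨1,[(0,1),(14,0),(3,0)]⟩⟩,⟨false,1,⟨0,[(24,0),(2,0)]⟩,⟨0,
  [(25,0)]⟩⟩,⟨true,1,⟨0,[(10,0)]⟩,⟨0,[(0,0),(12,0)]⟩⟩,⟨true,0,⟨0,[]⟩,⟨0,[(29,0)]⟩⟩,⟨false,1,⟨0,[(4,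
  0)]⟩,⟨9,[(1,1),(9,7),(4,0),(2,0),(2,3)]⟩⟩,[]⟩)) (.Q [0,0,0,0,0,2,0,-1] (.pp true [-1,1]) (.R ⟨0,
  false,false,false,[1,-1],[0,0,1],[0,1,1],(⟨0,[(20,0)]⟩,⟨0,[(21,0)]⟩),(⟨0,[(18,0)]⟩,⟨0,[(17,0)]⟩),
  ⟨0,[(0,0)]⟩,.k,.k,(.x 1 ⟨0,[(0,0),(13,0)]⟩ ⟨0,[(19,0),(0,1),(5,0)]⟩),(.x 0 ⟨0,[(21,0)]⟩ ⟨3,[(15,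
  0),(0,0),(2,1),(0,3)]⟩),.k,.k,⟨true,0,⟨0,[(2,0),(21,0)]⟩,⟨0,[(3,0)]⟩⟩,⟨false,1,⟨1,[(18,1),(0,0),
  (6,0)]⟩,⟨0,[(17,0)]⟩⟩,⟨true,(-1),⟨0,[(13,0),(0,0)]⟩,⟨0,[(1,0),(16,0),(4,0),(0,0)]⟩⟩,⟨false,0,⟨0,
  [(11,0),(13,0)]⟩,⟨0,[(10,0)]⟩⟩,⟨false,0,⟨0,[]⟩,⟨0,[]⟩⟩,⟨false,0,⟨0,[]⟩,⟨0,[]⟩⟩,[.o ⟨false,0,⟨0,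
  [(11,0),(17,0)]⟩,⟨1,[(1,1),(12,1),(0,0),(3,0)]⟩⟩,.o ⟨false,0,⟨0,[(11,0)]⟩,⟨0,[(10,0),(2,0)]⟩⟩,.o
  ⟨false,0,⟨7,[(14,3),(0,0),(0,0),(2,1)]⟩,⟨1,[(19,0),(6,0)]⟩⟩,.a ⟨true,(-1),⟨0,[(14,0)]⟩,⟨0,[(26,
  0)]⟩⟩ ⟨true,0,⟨0,[(29,0)]⟩,⟨0,[]⟩⟩ ⟨false,1,⟨0,[(11,0),(14,0)]⟩,⟨1,[(1,1),(12,3),(0,0),(3,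
  0)]⟩⟩]⟩) (.Q [0,1,1,0,-1,0,1,0,1] (.p true [0,0,1] [] (⟨0,[(18,0)]⟩,⟨0,[(17,0)]⟩) .k 0 (⟨0,[]⟩,⟨0,
  []⟩) .k .k) (.R ⟨1,false,false,true,[1,0,-1],[1,-1],[0,1,0,-1],(⟨0,[(18,0)]⟩,⟨0,[(19,0)]⟩),(⟨0,
  [(21,0)]⟩,⟨0,[(22,0)]⟩),⟨0,[(1,0),(4,0)]⟩,.k,.k,(.x 0 ⟨0,[(22,0)]⟩ ⟨7,[(1,3),(14,2),(0,2),(2,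
  1)]⟩),(.x (-1) ⟨3,[(1,1),(0,1),(16,1),(0,0),(6,0)]⟩ ⟨7,[(9,3),(5,3),(0,2),(0,2),(2,1)]⟩),.k,.k,
  ⟨true,0,⟨7,[(15,3),(0,0),(0,0),(2,1)]⟩,⟨0,[]⟩⟩,⟨false,0,⟨7,[(0,1),(11,1),(2,1),(0,2),(0,0),(1,
  3)]⟩,⟨0,[(10,0)]⟩⟩,⟨false,0,⟨0,[(7,0)]⟩,⟨1,[(16,0),(9,1),(1,0)]⟩⟩,⟨false,0,⟨1,[(12,0),(0,0),(1,0),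
  (3,0),(5,0)]⟩,⟨0,[(2,0),(0,0),(20,0)]⟩⟩,⟨false,0,⟨6,[(0,0),(3,2),(3,0),(5,0),(2,0),(0,0)]⟩,⟨1,
  [(16,0),(11,0)]⟩⟩,⟨true,(-1),⟨0,[(0,0)]⟩,⟨5,[(1,1),(0,1),(3,3),(9,2),(3,0)]⟩⟩,[.o ⟨false,0,⟨0,
  [(25,0)]⟩,⟨1,[(20,0),(5,1),(1,0)]⟩⟩,.a ⟨true,0,⟨0,[(2,0),(12,0),(3,0),(4,0),(0,0)]⟩,⟨0,[(26,0)]⟩⟩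
  ⟨false,1,⟨7,[(2,1),(10,1),(2,0),(2,1),(5,5),(2,2)]⟩,⟨0,[(26,0)]⟩⟩ ⟨true,0,⟨0,[(19,0),(4,0),(0,
  0)]⟩,⟨0,[(2,0),(11,0),(0,0),(8,0)]⟩⟩,.a ⟨true,0,⟨0,[(2,0),(12,0)]⟩,⟨7,[(0,1),(11,1),(2,1),(0,2),
  (0,0),(1,3)]⟩⟩ ⟨true,0,⟨0,[(25,0)]⟩,⟨0,[(26,0)]⟩⟩ ⟨false,0,⟨0,[(19,0),(4,0),(0,0)]⟩,⟨0,[(3,0),(0,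
  0),(5,0)]⟩⟩,.a ⟨true,0,⟨0,[(18,0)]⟩,⟨0,[(19,0)]⟩⟩ ⟨false,1,⟨7,[(2,1),(10,1),(2,0),(2,1),(5,5),(2,
  2)]⟩,⟨0,[(3,0),(0,0)]⟩⟩ ⟨true,0,⟨0,[(19,0),(5,0)]⟩,⟨0,[(2,0),(11,0),(0,0),(8,0)]⟩⟩]⟩) (.I [1,0,-1,
  0,0,0,1] (.S ⟨1,0,[0,1,0,0,0,0,-1],[1,0,-1],[1,0,0,-1,0,0,-1],(⟨0,[(19,0)]⟩,⟨0,[(20,0)]⟩),⟨0,[(2,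
  0),(4,0)]⟩,.k,(.x 0 ⟨0,[(23,0)]⟩ ⟨7,[(2,3),(14,2),(0,2),(2,1)]⟩),⟨false,1,⟨0,[(26,0),(2,0)]⟩,⟨0,
  [(27,0)]⟩⟩,⟨true,0,⟨0,[(31,0)]⟩,⟨0,[]⟩⟩,⟨true,0,⟨0,[]⟩,⟨0,[(31,0)]⟩⟩,⟨false,0,⟨0,[(27,0)]⟩,⟨0,
  [(26,0),(2,0)]⟩⟩,[.o ⟨false,1,⟨0,[(12,0),(2,0)]⟩,⟨0,[(13,0)]⟩⟩,.o ⟨false,1,⟨1,[(1,0),(10,0),(2,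
  0)]⟩,⟨0,[(13,0),(17,0)]⟩⟩,.e ⟨false,1,⟨0,[(1,0),(18,0),(4,0),(0,0)]⟩,⟨4,[(0,1),(4,0),(9,0),(0,0),
  (1,0),(8,3)]⟩⟩ ⟨false,1,⟨3,[(17,2),(0,0)]⟩,⟨0,[(5,0)]⟩⟩,.a ⟨true,0,⟨0,[(19,0)]⟩,⟨0,[(20,0)]⟩⟩
  ⟨true,1,⟨0,[(1,0),(18,0),(5,0)]⟩,⟨0,[(0,0),(14,0),(0,0)]⟩⟩ ⟨false,1,⟨1,[(17,0),(10,0)]⟩,⟨5,[(5,3),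
  (10,1),(1,0),(2,0),(3,1)]⟩⟩]⟩) (.R ⟨0,false,false,false,[0,0,1],[1,0,-1],[1],(⟨0,[(20,0)]⟩,⟨0,
  [(19,0)]⟩),(⟨0,[(19,0)]⟩,⟨0,[(20,0)]⟩),⟨0,[(7,0)]⟩,.k,.k,(.r (-1) ⟨0,[(0,3),(2,2),(1,4),(9,1),(0,
  1),(3,2),(5,2)]⟩ ⟨0,[(0,1),(2,0),(1,0),(9,0),(0,0),(3,0)]⟩),.k,.k,.k,⟨true,0,⟨6,[(5,2),(3,1),(5,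
  0),(0,0),(1,0),(8,0)]⟩,⟨0,[(0,0)]⟩⟩,⟨false,1,⟨0,[(3,0),(15,0)]⟩,⟨0,[(16,0),(3,1),(0,0)]⟩⟩,⟨false,
  1,⟨1,[(17,0),(11,0)]⟩,⟨6,[(5,2),(3,1),(5,0),(0,0),(1,0),(8,0)]⟩⟩,⟨true,1,⟨0,[(0,1),(2,1),(12,0)]⟩,
  ⟨0,[(9,0),(3,0),(1,0),(0,0),(3,0)]⟩⟩,⟨false,0,⟨0,[]⟩,⟨0,[]⟩⟩,⟨false,0,⟨0,[]⟩,⟨0,[]⟩⟩,[.o ⟨false,1,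
  ⟨1,[(1,0),(10,0),(2,0)]⟩,⟨0,[(13,0),(17,0)]⟩⟩,.o ⟨false,1,⟨0,[(1,0)]⟩,⟨0,[(13,0),(17,1)]⟩⟩,.a
  ⟨true,0,⟨7,[(16,3),(0,0),(0,0),(1,7),(0,1)]⟩,⟨0,[(3,0),(12,0)]⟩⟩ ⟨true,0,⟨0,[]⟩,⟨0,[(31,0)]⟩⟩
  ⟨false,1,⟨0,[(1,0),(1,0),(12,0)]⟩,⟨5,[(13,3),(2,3),(1,0),(1,7),(0,2),(9,3)]⟩⟩,.o ⟨false,0,⟨0,[(16,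
  0),(3,0),(0,0)]⟩,⟨0,[(11,0)]⟩⟩]⟩)))))

def t7 : Tre :=
  (.Q [0,-1,-1,0,1,0,-1,1,-1] (.p false [0,0,1] [1] (⟨0,[(13,0)]⟩,⟨0,[(12,0)]⟩) .k 1 (⟨0,[]⟩,⟨0,
  []⟩) .k .k) (.I [1,1,0,0,0,0,-1] (.Q [0,1,1,1,-1,0,1,-1,1] (.p true [0,0,1] [1] (⟨0,[(15,0)]⟩,⟨0,
  [(14,0)]⟩) .k 1 (⟨0,[]⟩,⟨0,[]⟩) .k .k) (.R ⟨2,true,false,false,[0,1],[1,0,-1],[1,0,1],(⟨0,[]⟩,⟨0,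
  []⟩),(⟨0,[(15,0)]⟩,⟨0,[(16,0)]⟩),⟨0,[]⟩,.k,.k,.k,(.x (-1) ⟨3,[(13,0),(0,0),(2,1),(0,3)]⟩ ⟨0,[(19,
  0)]⟩),.k,.k,⟨false,0,⟨1,[(0,0),(4,0),(9,0),(9,0)]⟩,⟨1,[(13,0),(10,0)]⟩⟩,⟨true,0,⟨0,[(15,0)]⟩,⟨0,
  [(1,0),(7,0)]⟩⟩,⟨false,1,⟨0,[(22,0),(2,0)]⟩,⟨0,[(23,0)]⟩⟩,⟨true,1,⟨0,[(8,0)]⟩,⟨0,[(0,0)]⟩⟩,⟨true,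
  0,⟨0,[]⟩,⟨0,[(27,0)]⟩⟩,⟨false,1,⟨0,[(2,0)]⟩,⟨5,[(0,1),(8,3),(3,0),(0,0),(7,1)]⟩⟩,[]⟩) (.R ⟨0,
  false,false,true,[0,0,1],[1,-1],[1,1],(⟨0,[(16,0)]⟩,⟨0,[(15,0)]⟩),(⟨0,[(18,0)]⟩,⟨0,[(19,0)]⟩),⟨0,
  [(3,0)]⟩,.k,.k,(.r (-1) ⟨1,[(0,0),(3,1),(4,0),(13,0),(0,0),(2,1)]⟩ ⟨0,[(1,0),(19,0),(1,0)]⟩),(.x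
  (-1) ⟨3,[(13,0),(0,0),(2,1),(0,3)]⟩ ⟨0,[(19,0)]⟩),.k,.k,⟨false,0,⟨0,[(23,0)]⟩,⟨5,[(0,1),(9,1),(5,
  1),(0,0),(4,1),(1,0)]⟩⟩,⟨true,0,⟨0,[(15,0)]⟩,⟨0,[(1,0),(7,0)]⟩⟩,⟨true,0,⟨0,[(1,0)]⟩,⟨1,[(5,0),(3,
  0),(5,0),(7,0)]⟩⟩,⟨false,1,⟨0,[(8,0)]⟩,⟨0,[(9,0),(13,0)]⟩⟩,⟨false,0,⟨0,[]⟩,⟨0,[]⟩⟩,⟨false,0,⟨0,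
  []⟩,⟨0,[]⟩⟩,[.o ⟨false,0,⟨0,[(22,0)]⟩,⟨1,[(17,0),(5,1),(1,0)]⟩⟩,.a ⟨true,0,⟨1,[(0,0),(4,0),(6,0),
  (3,0)]⟩,⟨0,[(23,0)]⟩⟩ ⟨true,0,⟨0,[]⟩,⟨7,[(12,3),(0,0),(0,0),(2,1)]⟩⟩ ⟨false,1,⟨0,[(2,0),(2,0)]⟩,
  ⟨0,[(11,0),(4,0),(4,0)]⟩⟩,.o ⟨false,0,⟨0,[(1,0),(7,0)]⟩,⟨7,[(7,3),(5,0),(0,0),(0,3),(1,1)]⟩⟩,.o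
  ⟨false,0,⟨0,[(12,0),(3,0),(0,0)]⟩,⟨0,[(7,0)]⟩⟩]⟩)) (.I [1,0,1,1,0,0,-1] t6 (.Q [0,0,1,0,0,0,0,-1,
  1] (.p true [0,0,1] [1] (⟨0,[(16,0)]⟩,⟨0,[(15,0)]⟩) .k 1 (⟨0,[]⟩,⟨0,[]⟩) .k .k) (.R ⟨0,false,
  false,true,[0,0,1],[1,-1],[0,1,1],(⟨0,[(17,0)]⟩,⟨0,[(16,0)]⟩),(⟨0,[(19,0)]⟩,⟨0,[(20,0)]⟩),⟨0,[(4,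
  0)]⟩,.k,.k,(.r 0 ⟨0,[(1,0)]⟩ ⟨7,[(13,3),(0,6),(0,2),(2,1),(5,7)]⟩),(.x (-1) ⟨3,[(14,0),(0,0),(2,
  1),(0,3)]⟩ ⟨0,[(20,0)]⟩),.k,.k,⟨false,0,⟨7,[(13,3),(0,0),(0,0),(2,1),(5,7)]⟩,⟨1,[(1,1),(12,0),(10,
  0)]⟩⟩,⟨true,0,⟨0,[(16,0)]⟩,⟨0,[(0,0)]⟩⟩,⟨true,0,⟨1,[(12,0),(0,0),(0,0),(8,0)]⟩,⟨0,[(1,0),(22,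
  0)]⟩⟩,⟨false,1,⟨0,[(9,0)]⟩,⟨0,[(10,0),(13,0)]⟩⟩,⟨false,0,⟨0,[]⟩,⟨0,[]⟩⟩,⟨false,0,⟨0,[]⟩,⟨0,[]⟩⟩,
  [.o ⟨false,0,⟨0,[(23,0)]⟩,⟨1,[(18,0),(5,1),(1,0)]⟩⟩,.a ⟨true,0,⟨1,[(1,0),(7,0),(3,0),(3,0)]⟩,⟨0,
  [(24,0)]⟩⟩ ⟨true,0,⟨7,[(13,3),(0,0),(0,0),(2,1)]⟩,⟨0,[]⟩⟩ ⟨false,1,⟨0,[(3,0),(2,0)]⟩,⟨0,[(0,0),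
  (23,0)]⟩⟩,.o ⟨false,0,⟨0,[(0,0)]⟩,⟨7,[(8,3),(5,0),(0,0),(0,3),(1,1)]⟩⟩,.o ⟨false,0,⟨7,[(0,7),(12,
  3),(0,0),(0,0),(2,1)]⟩,⟨0,[(8,0)]⟩⟩]⟩) (.Q [0,0,-3,0,1,0,0,0,-1] (.p false [0,0,1] [] (⟨0,[(17,
  0)]⟩,⟨0,[(16,0)]⟩) .k 0 (⟨0,[]⟩,⟨0,[]⟩) .k .k) (.R ⟨0,false,false,true,[0,0,1],[0,1],[1,1,1,1],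
  (⟨0,[(18,0)]⟩,⟨0,[(17,0)]⟩),(⟨0,[(21,0)]⟩,⟨0,[(20,0)]⟩),⟨0,[(5,0)]⟩,.k,.k,(.r 0 ⟨0,[(2,0)]⟩ ⟨7,
  [(14,3),(0,6),(0,2),(2,1),(5,7)]⟩),(.r 0 ⟨0,[(2,0)]⟩ ⟨7,[(14,3),(0,6),(0,2),(2,1),(5,7)]⟩),.k,.k,
  ⟨true,0,⟨0,[]⟩,⟨7,[(14,3),(0,0),(0,0),(2,1)]⟩⟩,⟨false,1,⟨0,[(0,0)]⟩,⟨3,[(14,3),(0,0),(0,0),(1,3),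
  (0,1)]⟩⟩,⟨true,0,⟨19,[(13,11),(0,11),(0,10),(0,0),(5,3),(2,7)]⟩,⟨0,[(2,0)]⟩⟩,⟨false,1,⟨0,[(4,0),
  (8,0)]⟩,⟨1,[(2,0),(8,0),(2,0),(3,0),(5,0),(2,0)]⟩⟩,⟨false,0,⟨0,[]⟩,⟨0,[]⟩⟩,⟨false,0,⟨0,[]⟩,⟨0,
  []⟩⟩,[.o ⟨false,0,⟨0,[(13,0)]⟩,⟨0,[(24,0),(2,0)]⟩⟩,.e ⟨false,0,⟨0,[(25,0)]⟩,⟨1,[(2,0),(9,0),(2,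
  0)]⟩⟩ ⟨false,1,⟨0,[(9,0),(15,0)]⟩,⟨1,[(2,0),(8,0),(2,0),(0,0),(2,0),(5,0)]⟩⟩,.a ⟨true,0,⟨7,[(14,
  3),(0,0),(0,0),(1,7),(0,1)]⟩,⟨0,[(1,0)]⟩⟩ ⟨false,0,⟨7,[(14,3),(0,0),(0,0),(2,1),(5,7)]⟩,⟨1,[(2,1),
  (12,0),(11,0)]⟩⟩ ⟨true,0,⟨0,[(1,0),(11,0)]⟩,⟨1,[(2,0),(8,0),(2,0),(0,0),(2,0),(5,0)]⟩⟩,.o ⟨false,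
  0,⟨0,[(14,0),(3,0),(0,0)]⟩,⟨0,[(9,0)]⟩⟩]⟩) (.R ⟨0,false,false,true,[0,0,1],[0,1],[1,1,1],(⟨0,[(18,
  0)]⟩,⟨0,[(17,0)]⟩),(⟨0,[(21,0)]⟩,⟨0,[(20,0)]⟩),⟨0,[(5,0)]⟩,.k,.k,(.r 0 ⟨0,[(2,0)]⟩ ⟨7,[(14,3),(0,
  6),(0,2),(2,1),(5,7)]⟩),(.r 0 ⟨0,[(2,0)]⟩ ⟨7,[(14,3),(0,6),(0,2),(2,1),(5,7)]⟩),.k,.k,⟨false,1,⟨1,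
  [(2,0),(9,0),(2,0)]⟩,⟨0,[(25,0)]⟩⟩,⟨true,1,⟨0,[(9,0)]⟩,⟨0,[(0,0)]⟩⟩,⟨true,0,⟨1,[(13,0),(0,0),(0,
  0),(8,0)]⟩,⟨0,[(2,0),(22,0)]⟩⟩,⟨false,1,⟨0,[(4,0),(8,0)]⟩,⟨5,[(0,3),(1,4),(9,0),(5,1),(8,2)]⟩⟩,
  ⟨false,0,⟨0,[]⟩,⟨0,[]⟩⟩,⟨false,0,⟨0,[]⟩,⟨0,[]⟩⟩,[.o ⟨false,0,⟨0,[(13,0)]⟩,⟨0,[(24,0),(2,0)]⟩⟩,.e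
  ⟨false,0,⟨0,[]⟩,⟨3,[(15,0),(0,0),(9,1)]⟩⟩ ⟨false,1,⟨0,[(9,0),(15,0)]⟩,⟨3,[(0,1),(1,1),(12,0),(2,
  1),(5,1),(2,0)]⟩⟩,.a ⟨true,0,⟨5,[(0,1),(14,0),(0,0),(1,3)]⟩,⟨0,[(1,0)]⟩⟩ ⟨false,0,⟨7,[(14,3),(0,
  0),(0,0),(2,1)]⟩,⟨1,[(26,0),(0,0)]⟩⟩ ⟨true,0,⟨0,[(1,0),(11,0)]⟩,⟨3,[(0,1),(1,1),(12,0),(2,1),(5,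
  1),(2,0)]⟩⟩,.o ⟨false,0,⟨11,[(0,7),(14,0),(0,0),(1,3),(0,5)]⟩,⟨0,[(9,0)]⟩⟩]⟩))))) (.I [0,0,1,1,0,
  0,-1] (.K ⟨0,[1,0,-1],0,1,(⟨0,[(14,0)]⟩,⟨0,[(15,0)]⟩),.k,(.x 0 ⟨0,[(18,0)]⟩ ⟨3,[(12,0),(0,0),(2,
  1),(0,3)]⟩),(.r 0 ⟨0,[(0,0)]⟩ ⟨1,[(3,1),(19,0),(0,0),(1,1)]⟩),.k,.k,[⟨7,[(1,3),(6,3),(2,3),(0,4),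
  (0,0),(2,1)]⟩,⟨0,[(14,0)]⟩,⟨0,[(1,0)]⟩,⟨7,[(12,4),(0,0),(0,7),(4,3),(3,1)]⟩]⟩) (.I [0,0,2,0,-1,1]
  (.K ⟨0,[1,0,-1],0,1,(⟨0,[(15,0)]⟩,⟨0,[(16,0)]⟩),.k,(.x 0 ⟨0,[(19,0)]⟩ ⟨3,[(13,0),(0,0),(2,1),(0,
  3)]⟩),(.x (-2) ⟨3,[(13,0),(0,0),(2,1),(0,3),(5,3)]⟩ ⟨0,[(0,0)]⟩),.k,.k,[⟨7,[(2,3),(6,3),(2,3),(0,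
  4),(0,0),(2,1)]⟩,⟨0,[(15,0)]⟩,⟨0,[(2,0)]⟩,⟨7,[(13,4),(0,0),(0,7),(4,3),(3,1)]⟩]⟩) (.I [0,0,-2,0,1,
  -1] (.K ⟨0,[1,0,-1],0,1,(⟨0,[(16,0)]⟩,⟨0,[(17,0)]⟩),.k,(.x 0 ⟨0,[(20,0)]⟩ ⟨3,[(14,0),(0,0),(2,1),
  (0,3)]⟩),(.x (-1) ⟨0,[(0,0)]⟩ ⟨7,[(7,3),(5,3),(0,2),(0,2),(2,1)]⟩),.k,.k,[⟨7,[(3,3),(6,3),(2,3),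
  (0,4),(0,0),(2,1)]⟩,⟨0,[(16,0)]⟩,⟨0,[(3,0)]⟩,⟨7,[(14,4),(0,0),(0,7),(4,3),(3,1)]⟩]⟩) (.Q [0,0,-2,
  1,1,0,0,-1] (.pp true [-1,1]) (.R ⟨0,false,false,false,[1,-1],[0,1],[1,1,1],(⟨0,[(20,0)]⟩,⟨0,[(21,
  0)]⟩),(⟨0,[(21,0)]⟩,⟨0,[(20,0)]⟩),⟨1,[(0,1),(0,1),(1,1),(4,0),(6,0)]⟩,.k,.k,(.r (-1) ⟨0,[(3,1),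
  (11,0)]⟩ ⟨3,[(14,3),(0,0),(0,0),(2,1),(5,7)]⟩),(.r (-1) ⟨0,[(3,1),(11,0)]⟩ ⟨3,[(14,3),(0,0),(0,0),
  (2,1),(5,7)]⟩),.k,.k,⟨true,0,⟨0,[(24,0)]⟩,⟨0,[(23,0),(1,0)]⟩⟩,⟨false,2,⟨1,[(19,0),(6,2)]⟩,⟨0,[(14,
  0)]⟩⟩,⟨true,(-1),⟨0,[(13,0),(0,0)]⟩,⟨1,[(3,1),(11,0),(10,0)]⟩⟩,⟨false,1,⟨1,[(19,0),(5,3),(1,0)]⟩,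
  ⟨0,[(3,1),(10,0),(0,0)]⟩⟩,⟨false,0,⟨0,[]⟩,⟨0,[]⟩⟩,⟨false,0,⟨0,[]⟩,⟨0,[]⟩⟩,[.e ⟨false,0,⟨0,[(29,
  0)]⟩,⟨1,[(26,0),(0,0)]⟩⟩ ⟨false,1,⟨0,[(0,0)]⟩,⟨3,[(10,0),(1,0),(1,2),(3,0),(5,1),(2,0)]⟩⟩,.o
  ⟨false,1,⟨1,[(19,0),(5,1),(1,0)]⟩,⟨0,[(24,0)]⟩⟩,.o ⟨false,0,⟨7,[(14,3),(0,0),(0,0),(2,1)]⟩,⟨1,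
  [(19,0),(6,0)]⟩⟩,.a ⟨true,(-1),⟨0,[(14,0)]⟩,⟨0,[(26,0)]⟩⟩ ⟨false,0,⟨0,[]⟩,⟨3,[(15,0),(0,0),(10,
  1)]⟩⟩ ⟨true,1,⟨0,[(0,0)]⟩,⟨0,[(14,0),(9,0)]⟩⟩]⟩) (.Q [0,0,0,0,0,-2,0,1] (.pp false [-1,1]) (.S ⟨1,
  0,[0,0,-1,-1],[1,-1],[1,1,-1,-2],(⟨0,[(21,0)]⟩,⟨0,[(22,0)]⟩),⟨0,[(0,0)]⟩,.k,(.r (-1) ⟨0,[(4,1),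
  (11,0)]⟩ ⟨3,[(15,3),(0,0),(0,0),(2,1),(5,7)]⟩),⟨true,0,⟨0,[(25,0)]⟩,⟨0,[(26,0)]⟩⟩,⟨false,1,⟨3,
  [(16,0),(0,0),(10,1)]⟩,⟨0,[]⟩⟩,⟨false,0,⟨0,[]⟩,⟨3,[(16,0),(0,0),(10,1)]⟩⟩,⟨true,0,⟨0,[(26,0)]⟩,⟨0,
  [(25,0)]⟩⟩,[.e ⟨false,1,⟨1,[(4,1),(11,0),(8,1),(1,0)]⟩,⟨0,[(24,0),(1,1)]⟩⟩ ⟨false,1,⟨1,[(4,1),(11,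
  0),(10,0)]⟩,⟨7,[(15,3),(0,0),(0,0),(2,1),(5,7)]⟩⟩,.o ⟨false,1,⟨0,[(25,0),(2,0)]⟩,⟨0,[(14,0)]⟩⟩,.o
  ⟨false,0,⟨7,[(15,3),(0,0),(0,0),(2,1)]⟩,⟨1,[(20,0),(6,0)]⟩⟩,.a ⟨true,(-1),⟨0,[(15,0)]⟩,⟨0,[(27,
  0)]⟩⟩ ⟨false,1,⟨0,[(4,1),(11,0)]⟩,⟨1,[(15,1),(4,0),(5,3),(1,0)]⟩⟩ ⟨true,1,⟨1,[(4,1),(11,0),(10,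
  0)]⟩,⟨0,[(14,0),(0,0)]⟩⟩]⟩) (.R ⟨0,false,false,false,[1,-1],[0,1],[1,1,1],(⟨0,[(21,0)]⟩,⟨0,[(22,
  0)]⟩),(⟨0,[(22,0)]⟩,⟨0,[(21,0)]⟩),⟨0,[(0,0)]⟩,.k,.k,(.r (-1) ⟨0,[(4,1),(11,0)]⟩ ⟨3,[(15,3),(0,0),
  (0,0),(2,1),(5,7)]⟩),(.r (-1) ⟨0,[(4,1),(11,0)]⟩ ⟨3,[(15,3),(0,0),(0,0),(2,1),(5,7)]⟩),.k,.k,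
  ⟨true,0,⟨0,[(25,0)]⟩,⟨0,[(24,0),(1,0)]⟩⟩,⟨false,2,⟨1,[(20,0),(6,2)]⟩,⟨0,[(15,0)]⟩⟩,⟨true,(-1),⟨0,
  [(14,0),(0,0)]⟩,⟨1,[(4,1),(11,0),(10,0)]⟩⟩,⟨false,1,⟨1,[(20,0),(5,3),(1,0)]⟩,⟨2,[(1,1),(2,2),(6,
  0),(4,0),(2,0)]⟩⟩,⟨false,0,⟨0,[]⟩,⟨0,[]⟩⟩,⟨false,0,⟨0,[]⟩,⟨0,[]⟩⟩,[.a ⟨true,0,⟨0,[(26,0)]⟩,⟨1,[(4,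
  0),(6,0),(3,0),(3,0)]⟩⟩ ⟨false,0,⟨0,[(30,0)]⟩,⟨1,[(27,0),(0,0)]⟩⟩ ⟨true,1,⟨1,[(20,0),(5,1),(0,
  0)]⟩,⟨0,[(1,0)]⟩⟩,.o ⟨false,1,⟨1,[(20,0),(5,1),(1,0)]⟩,⟨0,[(25,0)]⟩⟩,.o ⟨false,0,⟨7,[(15,3),(0,0),
  (0,0),(2,1)]⟩,⟨1,[(20,0),(6,0)]⟩⟩,.e ⟨false,0,⟨0,[]⟩,⟨3,[(16,0),(0,0),(10,1)]⟩⟩ ⟨false,2,⟨1,[(20,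
  0),(5,1),(0,1),(0,0)]⟩,⟨0,[(1,0)]⟩⟩]⟩)))))))

def t8 : Tre :=
  (.I [0,0,-2,0,1,-2] (.I [0,0,-2,-1,1] (.S ⟨1,0,[0,0,-1,-1],[1,-1],[0,1,-1,-1],(⟨0,[(13,0)]⟩,⟨0,
  [(14,0)]⟩),⟨0,[(1,0),(5,0)]⟩,.k,(.x 0 ⟨3,[(7,3),(0,0),(0,0),(2,1),(1,7)]⟩ ⟨0,[(1,0)]⟩),⟨true,0,⟨0,
  [(22,0)]⟩,⟨0,[]⟩⟩,⟨false,1,⟨3,[(8,0),(0,0),(10,1)]⟩,⟨0,[]⟩⟩,⟨false,0,⟨0,[(18,0)]⟩,⟨0,[(17,0),(2,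
  0)]⟩⟩,⟨true,0,⟨0,[(18,0)]⟩,⟨0,[(17,0)]⟩⟩,[.e ⟨false,1,⟨8,[(0,5),(4,1),(2,0),(6,3),(1,0)]⟩,⟨0,[(16,
  0),(1,0)]⟩⟩ ⟨false,1,⟨0,[(0,0)]⟩,⟨7,[(7,3),(0,0),(0,0),(2,1),(5,7)]⟩⟩,.o ⟨false,1,⟨0,[(17,0),(2,
  0)]⟩,⟨0,[(6,0)]⟩⟩,.o ⟨false,0,⟨7,[(7,3),(0,0),(0,0),(2,1)]⟩,⟨1,[(12,0),(6,0)]⟩⟩,.a ⟨true,(-1),⟨0,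
  [(7,0)]⟩,⟨0,[(19,0)]⟩⟩ ⟨false,1,⟨0,[(0,0)]⟩,⟨1,[(7,1),(4,0),(5,1),(1,0)]⟩⟩ ⟨true,1,⟨0,[(0,0)]⟩,⟨0,
  [(6,0),(0,0)]⟩⟩]⟩) (.Q [0,0,0,-1,0,0,0,1] (.pp false [-1,1]) (.Q [0,0,0,2,0,0,0,-1] (.pp true [-1,
  1]) (.R ⟨2,true,false,true,[0,1],[1,-1],[1,0,1],(⟨0,[]⟩,⟨0,[]⟩),(⟨0,[(15,0)]⟩,⟨0,[(16,0)]⟩),⟨0,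
  []⟩,.k,.k,.k,(.x (-1) ⟨0,[(3,0)]⟩ ⟨3,[(9,3),(0,0),(0,0),(2,1),(1,7)]⟩),.k,.k,⟨false,0,⟨1,[(0,0),
  (8,0),(12,0)]⟩,⟨0,[(19,0),(1,0)]⟩⟩,⟨true,(-1),⟨0,[(9,0)]⟩,⟨1,[(14,0),(6,0)]⟩⟩,⟨false,1,⟨0,[(19,0),
  (2,0)]⟩,⟨0,[(20,0)]⟩⟩,⟨true,0,⟨0,[(1,0),(17,0)]⟩,⟨0,[(0,0)]⟩⟩,⟨true,0,⟨0,[]⟩,⟨0,[(24,0)]⟩⟩,⟨false,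
  0,⟨0,[(1,0)]⟩,⟨7,[(0,3),(9,0),(0,0),(2,1),(7,3)]⟩⟩,[]⟩) (.I [0,-1,-1,-1,1] (.S ⟨1,0,[0,1,-1,-1],
  [1,-1],[0,0,-1,-1],(⟨0,[(16,0)]⟩,⟨0,[(17,0)]⟩),⟨0,[(4,0),(5,0)]⟩,.k,(.x 0 ⟨3,[(10,3),(0,0),(0,0),
  (2,1),(1,7)]⟩ ⟨0,[(4,0)]⟩),⟨false,1,⟨3,[(11,0),(0,0),(10,1)]⟩,⟨0,[]⟩⟩,⟨true,0,⟨0,[(25,0)]⟩,⟨0,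
  []⟩⟩,⟨true,0,⟨0,[(21,0)]⟩,⟨0,[(20,0)]⟩⟩,⟨false,0,⟨0,[(21,0)]⟩,⟨7,[(1,3),(9,0),(0,0),(2,1),(7,
  3)]⟩⟩,[.o ⟨false,0,⟨0,[(20,0)]⟩,⟨1,[(15,0),(5,1),(1,0)]⟩⟩,.e ⟨true,1,⟨0,[(0,0)]⟩,⟨0,[(3,0),(21,
  0)]⟩⟩ ⟨true,1,⟨5,[(0,2),(7,1),(2,0),(6,0),(1,0)]⟩,⟨0,[(3,0)]⟩⟩,.o ⟨false,0,⟨7,[(10,3),(0,0),(0,0),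
  (2,1)]⟩,⟨1,[(15,0),(6,0)]⟩⟩,.a ⟨true,(-1),⟨0,[(10,0)]⟩,⟨0,[(22,0)]⟩⟩ ⟨false,2,⟨3,[(0,1),(7,1),(2,
  0),(10,1),(0,0)]⟩,⟨0,[(3,0)]⟩⟩ ⟨true,1,⟨0,[(0,0),(17,0)]⟩,⟨0,[(3,0)]⟩⟩]⟩) (.I [0,-1,0,2] (.R ⟨1,
  true,false,true,[1,-1],[0,1],[0,0,-1,-1],(⟨0,[(17,0)]⟩,⟨0,[(18,0)]⟩),(⟨0,[(18,0)]⟩,⟨0,[(17,0)]⟩),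
  ⟨0,[(5,0),(5,0)]⟩,.k,.k,(.x 0 ⟨3,[(11,3),(0,0),(0,0),(2,1),(1,7)]⟩ ⟨0,[(5,0)]⟩),(.x 0 ⟨3,[(11,3),
  (0,0),(0,0),(2,1),(1,7)]⟩ ⟨0,[(5,0)]⟩),(.x 1 ⟨1,[(2,0),(1,1),(6,0),(4,0),(1,5)]⟩ ⟨3,[(5,5),(6,0),
  (0,0)]⟩),.k,⟨true,2,⟨1,[(2,1),(13,0),(6,1),(0,0)]⟩,⟨0,[(1,0),(2,0)]⟩⟩,⟨false,2,⟨1,[(16,0),(6,2)]⟩,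
  ⟨0,[(11,0)]⟩⟩,⟨false,1,⟨3,[(12,0),(0,0),(10,1)]⟩,⟨0,[]⟩⟩,⟨true,0,⟨13,[(0,5),(0,1),(8,13),(1,0),(0,
  0),(5,1)]⟩,⟨0,[(2,0)]⟩⟩,⟨true,0,⟨0,[(22,0)]⟩,⟨0,[(21,0)]⟩⟩,⟨false,0,⟨0,[(0,0),(9,0)]⟩,⟨7,[(2,11),
  (9,0),(0,0),(2,1),(7,3)]⟩⟩,[]⟩) (.Q [0,0,-1,0,1,0,-1,0,-1] (.p false [0,0,1] [] (⟨0,[(15,0)]⟩,⟨0,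
  [(14,0)]⟩) .k 0 (⟨0,[]⟩,⟨0,[]⟩) .k .k) (.R ⟨1,false,false,true,[1,-1],[1,0,-1],[0,1,-1,-1],(⟨0,
  [(18,0)]⟩,⟨0,[(19,0)]⟩),(⟨0,[(15,0)]⟩,⟨0,[(16,0)]⟩),⟨0,[(6,0),(5,0)]⟩,.k,.k,(.x 0 ⟨3,[(12,3),(0,
  0),(0,0),(2,1),(1,7)]⟩ ⟨0,[(6,0)]⟩),(.r (-1) ⟨0,[(1,0),(1,0),(1,2),(0,2),(0,0),(1,0),(9,5)]⟩ ⟨1,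
  [(5,0),(7,0),(9,0)]⟩),(.x 1 ⟨2,[(1,0),(3,1),(6,1),(4,0),(1,5),(1,0)]⟩ ⟨3,[(6,3),(6,0),(0,0),(9,
  1)]⟩),.k,⟨false,1,⟨0,[(2,0),(0,0),(3,0),(1,0),(14,0)]⟩,⟨1,[(5,0),(7,0),(9,0)]⟩⟩,⟨true,1,⟨0,[(7,
  0)]⟩,⟨5,[(1,1),(3,3),(3,1),(2,3),(0,0),(2,3),(0,0)]⟩⟩,⟨true,0,⟨0,[(27,0)]⟩,⟨0,[]⟩⟩,⟨false,1,⟨0,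
  [(0,0),(22,0)]⟩,⟨0,[(4,0),(4,0)]⟩⟩,⟨false,0,⟨0,[(23,0)]⟩,⟨7,[(3,3),(9,0),(0,0),(2,1),(7,3)]⟩⟩,
  ⟨false,1,⟨0,[(0,0),(22,1)]⟩,⟨0,[(3,0),(5,0)]⟩⟩,[.o ⟨false,1,⟨0,[(0,0),(26,0)]⟩,⟨0,[(9,0)]⟩⟩,.o
  ⟨false,1,⟨0,[(0,0)]⟩,⟨0,[(9,0),(17,0)]⟩⟩,.o ⟨false,0,⟨7,[(12,3),(0,0),(0,0),(2,1)]⟩,⟨1,[(17,0),(6,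
  0)]⟩⟩,.a ⟨true,(-1),⟨0,[(12,0)]⟩,⟨0,[(24,0)]⟩⟩ ⟨true,1,⟨13,[(1,5),(8,1),(2,0),(6,3),(3,10)]⟩,⟨0,
  [(5,0)]⟩⟩ ⟨false,2,⟨1,[(7,1),(5,0),(10,0)]⟩,⟨0,[(9,0),(2,0)]⟩⟩]⟩) (.R ⟨2,true,false,false,[0,1],
  [0,0,1],[1,1,1],(⟨0,[]⟩,⟨0,[]⟩),(⟨0,[(16,0)]⟩,⟨0,[(15,0)]⟩),⟨0,[]⟩,.k,.k,.k,(.r 0 ⟨1,[(5,0),(7,0),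
  (9,0)]⟩ ⟨0,[(0,0),(0,1),(3,2),(0,3),(0,0),(11,7),(1,1)]⟩),.k,.k,⟨true,0,⟨5,[(2,1),(9,1),(0,2),(3,
  0),(4,1),(4,1)]⟩,⟨0,[(0,0),(6,0),(13,0)]⟩⟩,⟨false,0,⟨7,[(12,3),(0,0),(0,0),(1,7),(0,1)]⟩,⟨0,[(7,
  0)]⟩⟩,⟨true,0,⟨0,[(22,0)]⟩,⟨0,[(23,0)]⟩⟩,⟨false,0,⟨9,[(0,1),(2,4),(5,5),(2,0),(1,0),(1,1),(8,1)]⟩,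
  ⟨1,[(5,0),(1,1),(5,0),(9,0)]⟩⟩,⟨false,0,⟨0,[]⟩,⟨3,[(13,0),(0,0),(10,1)]⟩⟩,⟨true,(-1),⟨0,[(0,0)]⟩,
  ⟨0,[(8,0),(2,0)]⟩⟩,[]⟩))))) (.S ⟨1,0,[0,0,-1,-1],[1,-1],[0,1,-1,-1],(⟨0,[(14,0)]⟩,⟨0,[(15,0)]⟩),
  ⟨0,[(2,0),(5,0)]⟩,.k,(.x 0 ⟨3,[(8,3),(0,0),(0,0),(2,1),(1,7)]⟩ ⟨0,[(2,0)]⟩),⟨true,0,⟨0,[(23,0)]⟩,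
  ⟨0,[]⟩⟩,⟨false,1,⟨3,[(9,0),(0,0),(10,1)]⟩,⟨0,[]⟩⟩,⟨false,0,⟨0,[(19,0)]⟩,⟨0,[(18,0),(2,0)]⟩⟩,⟨true,
  0,⟨0,[(19,0)]⟩,⟨0,[(18,0)]⟩⟩,[.o ⟨false,1,⟨5,[(6,3),(1,1),(0,1),(3,0),(4,1),(2,0)]⟩,⟨0,[(0,0)]⟩⟩,
  .o ⟨false,1,⟨0,[(18,0),(2,0)]⟩,⟨0,[(7,0)]⟩⟩,.o ⟨false,0,⟨7,[(8,3),(0,0),(0,0),(2,1)]⟩,⟨1,[(13,0),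
  (6,0)]⟩⟩,.a ⟨true,(-1),⟨0,[(8,0)]⟩,⟨0,[(20,0)]⟩⟩ ⟨true,1,⟨0,[(18,0),(1,0)]⟩,⟨0,[(1,0)]⟩⟩ ⟨false,2,
  ⟨0,[(18,0),(1,0),(0,0)]⟩,⟨0,[(1,0)]⟩⟩]⟩))) (.I [0,-1,1,1,0,0,-1] (.Q [0,-1,-1,0,1,0,-1,0,-1] (.p
  false [0,0,1] [] (⟨0,[(11,0)]⟩,⟨0,[(10,0)]⟩) .k 0 (⟨0,[]⟩,⟨0,[]⟩) .k .k) t5 (.R ⟨2,true,false,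
  true,[0,1],[0,0,1],[1,1,1],(⟨0,[]⟩,⟨0,[]⟩),(⟨0,[(12,0)]⟩,⟨0,[(11,0)]⟩),⟨0,[]⟩,.k,.k,.k,(.r 0 ⟨2,
  [(1,0),(5,0),(0,0),(0,0),(9,0)]⟩ ⟨0,[(3,0),(1,0),(8,0),(0,0),(2,0)]⟩),.k,.k,⟨true,0,⟨0,[(1,0),(16,
  0)]⟩,⟨1,[(0,0),(2,0),(1,0),(5,0)]⟩⟩,⟨false,0,⟨7,[(0,1),(4,1),(2,1),(0,2),(0,0),(1,3)]⟩,⟨0,[(3,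
  0)]⟩⟩,⟨true,0,⟨0,[(18,0)]⟩,⟨0,[(19,0)]⟩⟩,⟨false,0,⟨1,[(5,0),(0,0),(1,0),(3,0),(5,0)]⟩,⟨0,[(1,0),
  (1,0)]⟩⟩,⟨false,0,⟨0,[]⟩,⟨3,[(9,0),(0,0),(10,1)]⟩⟩,⟨true,(-1),⟨0,[(0,0)]⟩,⟨0,[(1,0),(1,0),(14,
  0)]⟩⟩,[]⟩)) (.I [0,0,0,-1,0,0,1] (.Q [0,0,0,0,0,1,0,0,-1] (.ed true [1,-1,1] .k) t7 (.I [1,-1,-1,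
  0,1,0,-1] (.R ⟨1,false,false,true,[0,0,1],[1,-1],[1,1,0,-1,0,0,1],(⟨0,[(14,0)]⟩,⟨0,[(13,0)]⟩),(⟨0,
  [(16,0)]⟩,⟨0,[(17,0)]⟩),⟨0,[(1,0)]⟩,.k,.k,(.r (-1) ⟨0,[(0,0),(1,1),(18,0),(3,0)]⟩ ⟨0,[(0,0),(8,0),
  (0,0)]⟩),(.x (-1) ⟨3,[(11,0),(0,0),(2,1),(0,3)]⟩ ⟨0,[(17,0)]⟩),.k,.k,⟨false,0,⟨1,[(3,0),(3,0),(5,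
  0),(7,0)]⟩,⟨1,[(11,0),(10,0)]⟩⟩,⟨true,0,⟨0,[(13,0)]⟩,⟨1,[(1,1),(2,0),(10,0)]⟩⟩,⟨true,0,⟨0,[(20,
  0)]⟩,⟨0,[(21,0)]⟩⟩,⟨false,1,⟨0,[(6,0)]⟩,⟨0,[(7,0),(13,0)]⟩⟩,⟨false,0,⟨0,[]⟩,⟨3,[(11,0),(0,0),(10,
  1)]⟩⟩,⟨false,1,⟨1,[(11,0),(1,1),(8,0)]⟩,⟨0,[(7,0)]⟩⟩,[.o ⟨false,0,⟨0,[(20,0)]⟩,⟨1,[(15,0),(5,1),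
  (1,0)]⟩⟩,.a ⟨true,0,⟨0,[(0,0),(2,0),(6,0)]⟩,⟨0,[(21,0)]⟩⟩ ⟨true,0,⟨0,[(2,0)]⟩,⟨0,[(0,0),(8,0),(0,
  0)]⟩⟩ ⟨false,1,⟨0,[(0,0),(2,0),(9,0)]⟩,⟨3,[(1,1),(2,0),(2,1),(1,1),(1,0),(9,1)]⟩⟩,.o ⟨false,0,⟨1,
  [(1,1),(2,0),(10,0)]⟩,⟨7,[(5,3),(5,0),(0,0),(0,3),(1,1)]⟩⟩,.o ⟨false,0,⟨0,[(10,0),(3,0),(0,0)]⟩,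
  ⟨0,[(5,0)]⟩⟩]⟩) (.I [1,0,1,1,0,0,-1] (.Q [0,1,-1,1,0,0,-1,1,-1] (.p false [0,0,1] [1] (⟨0,[(15,
  0)]⟩,⟨0,[(14,0)]⟩) .k 1 (⟨0,[]⟩,⟨0,[]⟩) .k .k) (.S ⟨1,4,[],[0,0,1],[1,1,0,-1,0,0,1],(⟨0,[(16,0)]⟩,
  ⟨0,[(15,0)]⟩),⟨0,[(3,0)]⟩,.k,(.r (-1) ⟨0,[(2,0),(0,1),(3,1),(11,1),(1,1),(0,0)]⟩ ⟨3,[(0,1),(2,1),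
  (2,0),(4,1),(1,0),(7,3)]⟩),⟨true,0,⟨0,[(22,0)]⟩,⟨0,[(23,0)]⟩⟩,⟨false,1,⟨7,[(0,3),(7,3),(4,0),(0,
  0),(10,1)]⟩,⟨0,[(9,0)]⟩⟩,⟨false,0,⟨0,[]⟩,⟨3,[(13,0),(0,0),(10,1)]⟩⟩,⟨true,0,⟨0,[(0,0)]⟩,⟨0,[(9,0),
  (12,0)]⟩⟩,[.o ⟨false,0,⟨0,[(27,0)]⟩,⟨1,[(17,0),(7,0)]⟩⟩,.fa ⟨true,0,⟨0,[(4,0)]⟩,⟨3,[(0,1),(2,1),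
  (2,0),(4,1),(1,0),(7,3)]⟩⟩ ⟨false,1,⟨0,[(15,0),(8,0)]⟩,⟨1,[(3,1),(2,0),(10,0)]⟩⟩,.o ⟨false,0,⟨1,
  [(3,1),(2,0),(10,0)]⟩,⟨7,[(7,3),(5,0),(0,0),(0,3),(1,1)]⟩⟩,.o ⟨false,0,⟨0,[(12,0),(3,0),(0,0)]⟩,
  ⟨0,[(7,0)]⟩⟩]⟩) (.Q [0,1,1,0,-1,0,1,-1,1] (.p true [0,0,1] [1] (⟨0,[(16,0)]⟩,⟨0,[(15,0)]⟩) .k 1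
  (⟨0,[]⟩,⟨0,[]⟩) .k .k) (.K ⟨0,[1,0,-1],0,1,(⟨0,[(16,0)]⟩,⟨0,[(17,0)]⟩),.k,(.x 0 ⟨0,[(20,0)]⟩ ⟨3,
  [(14,0),(0,0),(2,1),(0,3)]⟩),(.x (-1) ⟨0,[(4,0),(3,0)]⟩ ⟨7,[(7,3),(5,3),(0,2),(0,2),(2,1)]⟩),.k,
  .k,[⟨7,[(0,3),(9,3),(2,3),(0,4),(0,0),(2,1)]⟩,⟨0,[(16,0)]⟩,⟨0,[(0,0)]⟩,⟨7,[(14,4),(0,0),(0,7),(4,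
  3),(3,1)]⟩]⟩) (.Q [0,1,1,1,-1,0,1,-1,1] (.p true [0,0,1] [1] (⟨0,[(17,0)]⟩,⟨0,[(16,0)]⟩) .k 1 (⟨0,
  []⟩,⟨0,[]⟩) .k .k) (.R ⟨2,true,false,false,[0,1],[1,0,-1],[1,0,1],(⟨0,[]⟩,⟨0,[]⟩),(⟨0,[(17,0)]⟩,
  ⟨0,[(18,0)]⟩),⟨0,[]⟩,.k,.k,.k,(.x (-1) ⟨3,[(15,0),(0,0),(2,1),(0,3)]⟩ ⟨0,[(21,0)]⟩),.k,.k,⟨false,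
  0,⟨1,[(4,0),(2,0),(17,0),(1,0)]⟩,⟨1,[(15,0),(10,0)]⟩⟩,⟨true,0,⟨0,[(17,0)]⟩,⟨1,[(0,0),(1,0),(12,
  0)]⟩⟩,⟨false,1,⟨7,[(2,3),(7,3),(4,0),(0,0),(10,1)]⟩,⟨0,[(25,0)]⟩⟩,⟨true,1,⟨0,[(10,0)]⟩,⟨0,[(0,
  0)]⟩⟩,⟨true,0,⟨0,[]⟩,⟨0,[(29,0)]⟩⟩,⟨false,1,⟨0,[(1,0)]⟩,⟨3,[(0,1),(1,1),(12,0),(0,0)]⟩⟩,[]⟩) (.I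
  [1,0,1,0,0,0,-1] (.S ⟨1,0,[0,1,0,0,0,0,1],[0,0,1],[1,0,0,-1,0,0,1],(⟨0,[(19,0)]⟩,⟨0,[(18,0)]⟩),⟨0,
  [(6,0)]⟩,.k,(.r (-1) ⟨0,[(1,1),(1,0),(1,1),(0,1),(3,0),(3,0),(7,1),(3,0)]⟩ ⟨0,[(0,0),(25,0)]⟩),
  ⟨false,1,⟨7,[(3,3),(7,3),(4,0),(0,0),(10,1)]⟩,⟨0,[(26,0)]⟩⟩,⟨true,0,⟨0,[(30,0)]⟩,⟨0,[]⟩⟩,⟨true,0,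
  ⟨0,[]⟩,⟨0,[(30,0)]⟩⟩,⟨false,0,⟨0,[(26,0)]⟩,⟨7,[(3,3),(7,3),(4,0),(0,0),(10,1)]⟩⟩,[.a ⟨true,(-1),
  ⟨0,[(5,0),(13,0)]⟩,⟨0,[(2,0)]⟩⟩ ⟨true,0,⟨0,[(7,0)]⟩,⟨0,[(0,0),(25,0)]⟩⟩ ⟨false,0,⟨0,[(8,0),(17,
  0)]⟩,⟨1,[(16,0),(11,0)]⟩⟩,.o ⟨false,0,⟨7,[(5,2),(6,2),(2,0),(1,0),(1,4),(0,2)]⟩,⟨0,[(0,0),(9,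
  0)]⟩⟩,.o ⟨false,0,⟨1,[(6,1),(2,0),(10,0)]⟩,⟨7,[(10,3),(5,0),(0,0),(0,3),(1,1)]⟩⟩,.o ⟨false,0,⟨0,
  [(15,0),(3,0),(0,0)]⟩,⟨0,[(10,0)]⟩⟩]⟩) (.R ⟨1,false,false,true,[0,0,1],[1,-1],[1,0,1],(⟨0,[(19,
  0)]⟩,⟨0,[(18,0)]⟩),(⟨0,[(21,0)]⟩,⟨0,[(22,0)]⟩),⟨0,[(6,0)]⟩,.k,.k,(.x 0 ⟨7,[(9,3),(5,3),(0,2),(0,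
  2),(2,1)]⟩ ⟨0,[(6,0),(3,0)]⟩),(.x (-1) ⟨3,[(16,0),(0,0),(2,1),(0,3)]⟩ ⟨0,[(22,0)]⟩),.k,.k,⟨false,
  0,⟨0,[(24,0),(1,0)]⟩,⟨0,[(25,0),(1,0)]⟩⟩,⟨true,0,⟨0,[(18,0)]⟩,⟨1,[(6,1),(2,0),(10,0)]⟩⟩,⟨false,1,
  ⟨7,[(15,3),(0,4),(0,0),(2,1),(7,3)]⟩,⟨0,[(0,0)]⟩⟩,⟨false,1,⟨0,[(11,0)]⟩,⟨0,[(12,0),(13,0)]⟩⟩,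
  ⟨true,0,⟨0,[(4,0)]⟩,⟨0,[(0,0),(24,0)]⟩⟩,⟨false,1,⟨11,[(2,7),(13,2),(0,0),(0,3),(4,3)]⟩,⟨0,[(12,
  0)]⟩⟩,[.o ⟨false,0,⟨0,[(25,0)]⟩,⟨1,[(20,0),(5,1),(1,0)]⟩⟩,.a ⟨true,0,⟨1,[(1,0),(6,0),(6,0),(3,
  0)]⟩,⟨0,[(26,0)]⟩⟩ ⟨true,0,⟨0,[(24,0)]⟩,⟨0,[(30,0)]⟩⟩ ⟨false,1,⟨0,[(0,0),(10,0)]⟩,⟨1,[(4,0),(7,0),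
  (1,0),(4,0)]⟩⟩,.o ⟨false,0,⟨1,[(6,1),(2,0),(10,0)]⟩,⟨7,[(10,3),(5,0),(0,0),(0,3),(1,1)]⟩⟩,.o
  ⟨false,0,⟨0,[(15,0),(3,0),(0,0)]⟩,⟨0,[(10,0)]⟩⟩]⟩))))) (.R ⟨1,false,false,true,[0,0,1],[1,-1],[0,
  0,0,0,0,0,1],(⟨0,[(15,0)]⟩,⟨0,[(14,0)]⟩),(⟨0,[(17,0)]⟩,⟨0,[(18,0)]⟩),⟨0,[(2,0)]⟩,.k,.k,(.r 0 ⟨0,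
  [(0,0)]⟩ ⟨7,[(11,3),(0,6),(0,2),(2,1),(5,7)]⟩),(.x (-1) ⟨3,[(12,0),(0,0),(2,1),(0,3)]⟩ ⟨0,[(18,
  0)]⟩),.k,.k,⟨false,0,⟨0,[(0,0),(19,0),(1,1)]⟩,⟨1,[(12,0),(8,1),(1,0)]⟩⟩,⟨true,0,⟨0,[(14,0)]⟩,⟨1,
  [(2,1),(2,0),(10,0)]⟩⟩,⟨false,1,⟨3,[(12,0),(0,0),(10,1)]⟩,⟨0,[]⟩⟩,⟨false,1,⟨0,[(7,0)]⟩,⟨0,[(8,0),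
  (13,0)]⟩⟩,⟨true,0,⟨0,[(22,0)]⟩,⟨0,[(21,0)]⟩⟩,⟨false,1,⟨1,[(12,0),(1,1),(8,0)]⟩,⟨0,[(8,0)]⟩⟩,[.o
  ⟨false,0,⟨0,[(21,0)]⟩,⟨1,[(16,0),(5,1),(1,0)]⟩⟩,.a ⟨true,0,⟨1,[(0,0),(6,0),(3,0),(3,0)]⟩,⟨0,[(22,
  0)]⟩⟩ ⟨true,0,⟨0,[(0,0),(19,0),(1,0)]⟩,⟨0,[(1,0),(10,0)]⟩⟩ ⟨false,1,⟨1,[(0,0),(6,0),(6,0),(8,0)]⟩,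
  ⟨3,[(2,1),(2,0),(2,1),(1,1),(1,0),(9,1)]⟩⟩,.o ⟨false,0,⟨1,[(2,1),(2,0),(10,0)]⟩,⟨7,[(6,3),(5,0),
  (0,0),(0,3),(1,1)]⟩⟩,.o ⟨false,0,⟨0,[(11,0),(3,0),(0,0)]⟩,⟨0,[(6,0)]⟩⟩]⟩)))) (.R ⟨2,true,false,
  true,[0,1],[0,0,1],[0,1,1,1],(⟨0,[]⟩,⟨0,[]⟩),(⟨0,[(12,0)]⟩,⟨0,[(11,0)]⟩),⟨0,[]⟩,.k,.k,.k,(.r 0 ⟨3,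
  [(0,1),(7,1),(0,0),(3,0),(5,1)]⟩ ⟨0,[(1,0),(19,0),(1,0)]⟩),.k,.k,⟨true,0,⟨3,[(0,1),(7,1),(0,0),(3,
  0),(5,1)]⟩,⟨0,[(1,0),(15,0)]⟩⟩,⟨false,0,⟨7,[(8,3),(0,0),(0,0),(1,7),(0,1)]⟩,⟨0,[(3,0)]⟩⟩,⟨true,0,
  ⟨0,[(23,0)]⟩,⟨0,[]⟩⟩,⟨false,0,⟨1,[(5,0),(0,0),(1,0),(3,0),(5,0)]⟩,⟨0,[(0,0),(2,0),(13,0)]⟩⟩,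
  ⟨false,0,⟨0,[(19,0)]⟩,⟨0,[(18,0),(2,0)]⟩⟩,⟨true,(-1),⟨0,[(0,1),(0,1),(3,0),(2,0)]⟩,⟨0,[(0,0),(2,
  0),(13,0),(0,0)]⟩⟩,[]⟩))))

def t9 : Tre :=
  (.Q [0,1,-1,0,0,0,-1,1,-1] (.p false [0,0,1] [1] (⟨0,[(6,0)]⟩,⟨0,[(5,0)]⟩) .k 1 (⟨0,[]⟩,⟨0,[]⟩)
  .k .k) (.I [0,1,-1,0,0,0,-1] (.Q [0,0,1,-1,0,0,1,0,1] (.p true [0,0,1] [] (⟨0,[(8,0)]⟩,⟨0,[(7,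
  0)]⟩) .k 0 (⟨0,[]⟩,⟨0,[]⟩) .k .k) (.I [0,0,-1,-1,1,0,1] (.K ⟨0,[1,0,-1],0,0,(⟨0,[(9,0)]⟩,⟨0,[(10,
  0)]⟩),.k,(.x 0 ⟨0,[(13,0)]⟩ ⟨3,[(7,0),(0,0),(2,1),(0,3)]⟩),(.r 0 ⟨2,[(2,0),(2,0),(0,0),(0,0),(7,
  1),(1,1)]⟩ ⟨0,[(0,0)]⟩),.k,.k,[⟨0,[(6,0),(3,0),(0,0)]⟩,⟨0,[(9,0)]⟩,⟨0,[(1,0),(3,0)]⟩,⟨0,[(3,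
  0)]⟩]⟩) (.I [0,0,2,0,-1,1] (.K ⟨0,[1,0,-1],0,0,(⟨0,[(10,0)]⟩,⟨0,[(11,0)]⟩),.k,(.x 0 ⟨0,[(14,0)]⟩
  ⟨3,[(8,0),(0,0),(2,1),(0,3)]⟩),(.x (-2) ⟨3,[(8,0),(0,0),(2,1),(0,3),(5,3)]⟩ ⟨0,[(0,0)]⟩),.k,.k,
  [⟨0,[(7,0),(3,0),(0,0)]⟩,⟨0,[(10,0)]⟩,⟨0,[(2,0),(3,0)]⟩,⟨0,[(4,0)]⟩]⟩) (.I [0,0,-2,0,1,-1] (.K ⟨0,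
  [1,0,-1],0,0,(⟨0,[(11,0)]⟩,⟨0,[(12,0)]⟩),.k,(.x 0 ⟨0,[(15,0)]⟩ ⟨3,[(9,0),(0,0),(2,1),(0,3)]⟩),(.x
  (-1) ⟨0,[(0,0)]⟩ ⟨3,[(8,3),(0,0),(0,0),(2,1),(1,3)]⟩),.k,.k,[⟨0,[(8,0),(3,0),(0,0)]⟩,⟨0,[(11,0)]⟩,
  ⟨0,[(3,0),(3,0)]⟩,⟨0,[(5,0)]⟩]⟩) t0))) t2) (.K ⟨0,[1,0,-1],0,0,(⟨0,[(7,0)]⟩,⟨0,[(8,0)]⟩),.k,(.x 0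
  ⟨0,[(11,0)]⟩ ⟨3,[(5,0),(0,0),(2,1),(0,3)]⟩),(.r 0 ⟨0,[(1,0),(1,0),(4,0),(4,1)]⟩ ⟨0,[(0,0),(13,0),
  (1,0)]⟩),.k,.k,[⟨0,[(4,0),(3,0),(0,0)]⟩,⟨0,[(7,0)]⟩,⟨0,[(0,0),(2,0),(4,0),(5,0)]⟩,⟨0,[(1,0)]⟩]⟩))
  (.Q [0,0,-1,-1,1,0,-1,1,-1] (.p false [0,0,1] [1] (⟨0,[(7,0)]⟩,⟨0,[(6,0)]⟩) .k 1 (⟨0,[]⟩,⟨0,[]⟩)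
  .k .k) (.Q [0,0,2,0,-1,0,0,0,1] (.p true [0,0,1] [] (⟨0,[(8,0)]⟩,⟨0,[(7,0)]⟩) .k 0 (⟨0,[]⟩,⟨0,
  []⟩) .k .k) (.Q [0,1,1,0,-1,0,1,0,1] (.p true [0,0,1] [] (⟨0,[(9,0)]⟩,⟨0,[(8,0)]⟩) .k 0 (⟨0,[]⟩,
  ⟨0,[]⟩) .k .k) (.I [0,0,1,1,0,0,-1] (.K ⟨0,[0,0,1],(-1),(-1),(⟨0,[(11,0)]⟩,⟨0,[(10,0)]⟩),.k,(.r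
  (-1) ⟨0,[(4,0),(5,0),(6,0),(1,0)]⟩ ⟨0,[(0,0)]⟩),(.x (-1) ⟨3,[(8,0),(0,0),(2,1),(0,3)]⟩ ⟨0,[(14,
  0)]⟩),.k,.k,[⟨3,[(8,0),(0,0),(0,3),(1,1)]⟩,⟨0,[(2,0)]⟩,⟨0,[(3,0),(2,0)]⟩,⟨0,[(1,0)]⟩]⟩) (.I [0,0,
  -2,0,1,-1] (.K ⟨0,[0,0,1],(-1),(-1),(⟨0,[(12,0)]⟩,⟨0,[(11,0)]⟩),.k,(.x 0 ⟨3,[(8,3),(0,0),(0,0),(2,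
  1),(1,3)]⟩ ⟨0,[(0,0)]⟩),(.x (-1) ⟨3,[(9,0),(0,0),(2,1),(0,3)]⟩ ⟨0,[(15,0)]⟩),.k,.k,[⟨3,[(9,0),(0,
  0),(0,3),(1,1)]⟩,⟨0,[(3,0)]⟩,⟨0,[(4,0),(2,0)]⟩,⟨0,[(2,0)]⟩]⟩) (.Q [0,0,0,-1,0,0,0,1,-1] (.p false
  [0,0,1] [1] (⟨0,[(12,0)]⟩,⟨0,[(11,0)]⟩) .k 1 (⟨0,[]⟩,⟨0,[]⟩) .k .k) (.Q [0,0,0,0,0,2,0,-1] (.pp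
  true [-1,1]) (.R ⟨0,false,false,false,[1,-1],[0,1],[1,1,1],(⟨0,[(16,0)]⟩,⟨0,[(17,0)]⟩),(⟨0,[(17,
  0)]⟩,⟨0,[(16,0)]⟩),⟨0,[(0,0)]⟩,.k,.k,(.r (-1) ⟨0,[(3,1),(7,0)]⟩ ⟨3,[(10,3),(0,0),(0,0),(2,1),(5,
  7)]⟩),(.r (-1) ⟨0,[(3,1),(7,0)]⟩ ⟨3,[(10,3),(0,0),(0,0),(2,1),(5,7)]⟩),.k,.k,⟨true,0,⟨0,[(20,0)]⟩,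
  ⟨0,[(19,0),(1,0)]⟩⟩,⟨false,2,⟨1,[(15,0),(6,2)]⟩,⟨0,[(10,0)]⟩⟩,⟨true,(-1),⟨0,[(9,0),(0,0)]⟩,⟨1,[(3,
  1),(7,0),(10,0)]⟩⟩,⟨false,1,⟨1,[(15,0),(5,3),(1,0)]⟩,⟨0,[(3,0),(1,0),(0,0)]⟩⟩,⟨false,0,⟨0,[]⟩,⟨0,
  []⟩⟩,⟨false,0,⟨0,[]⟩,⟨0,[]⟩⟩,[.a ⟨true,0,⟨0,[(21,0)]⟩,⟨1,[(3,0),(2,0),(3,0),(3,0)]⟩⟩ ⟨false,0,⟨0,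
  [(25,0)]⟩,⟨1,[(22,0),(0,0)]⟩⟩ ⟨true,1,⟨1,[(15,0),(5,1),(0,0)]⟩,⟨0,[(1,0),(3,0)]⟩⟩,.o ⟨false,1,⟨1,
  [(15,0),(5,1),(1,0)]⟩,⟨0,[(20,0)]⟩⟩,.o ⟨false,0,⟨7,[(10,3),(0,0),(0,0),(2,1)]⟩,⟨1,[(15,0),(6,
  0)]⟩⟩,.e ⟨false,0,⟨0,[]⟩,⟨3,[(11,0),(0,0),(10,1)]⟩⟩ ⟨false,2,⟨1,[(15,0),(5,1),(0,1),(0,0)]⟩,⟨0,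
  [(1,0),(3,0)]⟩⟩]⟩) (.S ⟨1,0,[0,0,-1,-1],[1,-1],[1,1,-1,-2],(⟨0,[(16,0)]⟩,⟨0,[(17,0)]⟩),⟨0,[(0,
  0)]⟩,.k,(.r (-1) ⟨0,[(3,1),(7,0)]⟩ ⟨3,[(10,3),(0,0),(0,0),(2,1),(5,7)]⟩),⟨true,0,⟨0,[(20,0)]⟩,⟨0,
  [(21,0)]⟩⟩,⟨false,1,⟨3,[(11,0),(0,0),(10,1)]⟩,⟨0,[]⟩⟩,⟨false,0,⟨0,[]⟩,⟨3,[(11,0),(0,0),(10,1)]⟩⟩,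
  ⟨true,0,⟨0,[(21,0)]⟩,⟨0,[(20,0)]⟩⟩,[.e ⟨false,1,⟨1,[(3,1),(7,0),(8,1),(1,0)]⟩,⟨0,[(19,0),(1,1)]⟩⟩
  ⟨false,1,⟨1,[(3,1),(7,0),(10,0)]⟩,⟨7,[(10,3),(0,0),(0,0),(2,1),(5,7)]⟩⟩,.o ⟨false,1,⟨0,[(20,0),(2,
  0)]⟩,⟨0,[(9,0)]⟩⟩,.o ⟨false,0,⟨7,[(10,3),(0,0),(0,0),(2,1)]⟩,⟨1,[(15,0),(6,0)]⟩⟩,.a ⟨true,(-1),⟨0,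
  [(10,0)]⟩,⟨0,[(22,0)]⟩⟩ ⟨false,1,⟨0,[(3,1),(7,0)]⟩,⟨1,[(10,1),(4,0),(5,3),(1,0)]⟩⟩ ⟨true,1,⟨1,[(3,
  1),(7,0),(10,0)]⟩,⟨0,[(9,0),(0,0)]⟩⟩]⟩)) (.R ⟨0,false,false,false,[1,0,-1],[0,1],[1,1,1],(⟨0,[(12,
  0)]⟩,⟨0,[(13,0)]⟩),(⟨0,[(16,0)]⟩,⟨0,[(15,0)]⟩),⟨1,[(0,1),(0,0),(0,1),(7,0),(5,0)]⟩,.k,.k,(.x 0 ⟨0,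
  [(16,0)]⟩ ⟨3,[(10,0),(0,0),(2,1),(0,3)]⟩),(.x 0 ⟨0,[(16,0)]⟩ ⟨3,[(10,0),(0,0),(2,1),(0,3)]⟩),.k,
  .k,⟨true,0,⟨0,[(19,0)]⟩,⟨0,[(18,0),(1,0)]⟩⟩,⟨false,1,⟨1,[(13,1),(0,0),(6,0)]⟩,⟨0,[(12,0)]⟩⟩,⟨true,
  (-1),⟨0,[(2,0),(5,0),(0,0)]⟩,⟨1,[(10,0),(10,0)]⟩⟩,⟨false,0,⟨0,[(6,0),(13,0)]⟩,⟨0,[(5,0)]⟩⟩,⟨false,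
  0,⟨0,[]⟩,⟨0,[]⟩⟩,⟨false,0,⟨0,[]⟩,⟨0,[]⟩⟩,[.e ⟨false,0,⟨0,[(24,0)]⟩,⟨1,[(21,0),(0,0)]⟩⟩ ⟨false,0,
  ⟨0,[(0,0)]⟩,⟨1,[(5,0),(1,0),(4,0)]⟩⟩,.o ⟨false,1,⟨1,[(14,0),(5,1),(1,0)]⟩,⟨0,[(19,0)]⟩⟩,.o ⟨false,
  1,⟨1,[(12,1),(1,0),(6,0)]⟩,⟨1,[(4,0),(8,0),(0,0)]⟩⟩,.a ⟨true,0,⟨0,[(12,0)]⟩,⟨0,[(13,0)]⟩⟩ ⟨false,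
  0,⟨0,[]⟩,⟨3,[(10,0),(0,0),(10,1)]⟩⟩ ⟨true,0,⟨0,[(0,0)]⟩,⟨0,[(12,0),(6,0)]⟩⟩]⟩)))) (.Q [0,-1,1,-1,
  0,0,1,0,1] (.p true [0,0,1] [] (⟨0,[(10,0)]⟩,⟨0,[(9,0)]⟩) .k 0 (⟨0,[]⟩,⟨0,[]⟩) .k .k) t3 (.R ⟨2,
  true,false,false,[0,1],[0,0,1],[0,0,1,1],(⟨0,[]⟩,⟨0,[]⟩),(⟨0,[(11,0)]⟩,⟨0,[(10,0)]⟩),⟨0,[]⟩,.k,.k,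
  .k,(.r 0 ⟨4,[(0,0),(1,0),(3,0),(0,0),(0,1),(7,1),(1,2)]⟩ ⟨0,[(4,0),(5,0),(6,0),(1,0)]⟩),.k,.k,
  ⟨false,0,⟨1,[(0,1),(1,0),(8,0),(8,0)]⟩,⟨0,[(5,0)]⟩⟩,⟨true,(-1),⟨0,[(2,0)]⟩,⟨5,[(0,1),(0,1),(3,1),
  (3,0),(0,1),(1,0)]⟩⟩,⟨false,1,⟨3,[(8,0),(0,0),(10,1)]⟩,⟨0,[]⟩⟩,⟨true,0,⟨0,[(2,0),(2,0)]⟩,⟨0,[(0,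
  0)]⟩⟩,⟨true,0,⟨0,[(18,0)]⟩,⟨0,[(17,0)]⟩⟩,⟨false,0,⟨0,[(4,0),(5,0),(0,0)]⟩,⟨11,[(0,3),(0,3),(1,3),
  (4,0),(0,0),(2,1)]⟩⟩,[]⟩))) t8) (.K ⟨0,[1,0,-1],0,1,(⟨0,[(7,0)]⟩,⟨0,[(8,0)]⟩),.k,(.x 0 ⟨0,[(11,
  0)]⟩ ⟨3,[(5,0),(0,0),(2,1),(0,3)]⟩),(.r 0 ⟨0,[(0,0),(4,0),(1,0)]⟩ ⟨0,[(0,0),(6,0),(6,1),(1,0),(0,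
  0)]⟩),.k,.k,[⟨0,[(4,0),(3,0),(0,0)]⟩,⟨0,[(7,0)]⟩,⟨0,[(0,0),(13,0)]⟩,⟨7,[(5,4),(0,0),(0,7),(4,3),
  (3,1)]⟩]⟩)))

def tree : Tre :=
  (.I [0,0,1,1,-1,0,-1] (.Q [0,1,1,0,0,0,1,-1,1] (.p true [0,0,1] [1] (⟨0,[(6,0)]⟩,⟨0,[(5,0)]⟩) .k
  1 (⟨0,[]⟩,⟨0,[]⟩) .k .k) (.K ⟨0,[1,0,-1],0,0,(⟨0,[(6,0)]⟩,⟨0,[(7,0)]⟩),.k,(.x 0 ⟨0,[(10,0)]⟩ ⟨3,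
  [(4,0),(0,0),(2,1),(0,3)]⟩),(.r 1 ⟨0,[(1,0)]⟩ ⟨3,[(4,0),(0,2),(7,3),(1,1),(0,1)]⟩),.k,.k,[⟨0,[(3,
  0),(3,0),(0,0)]⟩,⟨0,[(6,0)]⟩,⟨0,[(0,0)]⟩,⟨0,[(1,0),(4,0),(6,0),(1,0)]⟩]⟩) (.Q [0,0,0,2,0,0,0,-1]
  (.pp true [-1,1]) (.Q [0,0,0,-1,0,0,0,1] (.pp false [-1,1]) (.R ⟨2,true,false,true,[0,1],[1,-1],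
  [1,0,1],(⟨0,[]⟩,⟨0,[]⟩),(⟨0,[(11,0)]⟩,⟨0,[(12,0)]⟩),⟨0,[]⟩,.k,.k,.k,(.r 1 ⟨0,[(1,0),(3,0)]⟩ ⟨0,
  [(0,1),(9,0),(6,0)]⟩),.k,.k,⟨false,0,⟨1,[(1,0),(3,0),(12,0)]⟩,⟨0,[(15,0),(1,0)]⟩⟩,⟨true,(-1),⟨0,
  [(5,0)]⟩,⟨1,[(10,0),(6,0)]⟩⟩,⟨false,1,⟨1,[(0,1),(9,0),(7,0)]⟩,⟨0,[(16,0)]⟩⟩,⟨true,0,⟨0,[(0,0),(14,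
  0)]⟩,⟨0,[(1,0)]⟩⟩,⟨true,0,⟨0,[]⟩,⟨0,[(20,0)]⟩⟩,⟨false,0,⟨0,[(0,0)]⟩,⟨7,[(1,3),(4,0),(0,0),(2,1),
  (7,3)]⟩⟩,[]⟩) (.R ⟨2,true,false,false,[0,1],[1,0,-1],[1,0,1],(⟨0,[]⟩,⟨0,[]⟩),(⟨0,[(8,0)]⟩,⟨0,[(9,
  0)]⟩),⟨0,[]⟩,.k,.k,.k,(.x (-1) ⟨3,[(6,0),(0,0),(2,1),(0,3)]⟩ ⟨0,[(12,0)]⟩),.k,.k,⟨false,1,⟨3,[(6,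
  0),(0,2)]⟩,⟨0,[(0,0),(1,0),(6,0),(5,0)]⟩⟩,⟨true,0,⟨0,[(8,0)]⟩,⟨0,[(0,0),(8,0),(4,0),(0,0)]⟩⟩,
  ⟨false,1,⟨0,[(15,0),(2,0)]⟩,⟨0,[(16,0)]⟩⟩,⟨true,0,⟨0,[(2,0),(12,0)]⟩,⟨1,[(0,1),(3,0),(0,0),(1,0),
  (1,1),(5,0)]⟩⟩,⟨true,0,⟨0,[]⟩,⟨0,[(20,0)]⟩⟩,⟨false,0,⟨0,[(2,0)]⟩,⟨7,[(5,3),(0,0),(0,4),(1,7),(0,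
  5)]⟩⟩,[]⟩)) (.Q [0,0,-2,0,1,0,0,0,-1] (.p false [0,0,1] [] (⟨0,[(8,0)]⟩,⟨0,[(7,0)]⟩) .k 0 (⟨0,[]⟩,
  ⟨0,[]⟩) .k .k) (.Q [0,0,1,0,0,0,1,0,1] (.p true [0,0,1] [] (⟨0,[(9,0)]⟩,⟨0,[(8,0)]⟩) .k 0 (⟨0,[]⟩,
  ⟨0,[]⟩) .k .k) (.R ⟨2,true,false,false,[0,1],[0,0,1],[1,1,1],(⟨0,[]⟩,⟨0,[]⟩),(⟨0,[(10,0)]⟩,⟨0,[(9,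
  0)]⟩),⟨0,[]⟩,.k,.k,.k,(.r 1 ⟨0,[(4,0)]⟩ ⟨7,[(2,3),(4,2),(0,6),(2,1),(6,3)]⟩),.k,.k,⟨true,(-1),⟨0,
  [(4,0),(11,0)]⟩,⟨1,[(8,0),(10,0)]⟩⟩,⟨false,0,⟨5,[(0,1),(5,1),(0,0),(2,3),(0,0)]⟩,⟨0,[(1,0)]⟩⟩,
  ⟨true,0,⟨0,[(16,0)]⟩,⟨0,[(17,0)]⟩⟩,⟨false,1,⟨7,[(0,7),(1,3),(4,0),(0,0),(2,1),(7,3)]⟩,⟨0,[(1,0),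
  (2,0)]⟩⟩,⟨false,0,⟨0,[]⟩,⟨3,[(7,0),(0,0),(10,1)]⟩⟩,⟨true,0,⟨0,[(0,0)]⟩,⟨0,[(1,0),(2,0),(11,0)]⟩⟩,
  []⟩) (.Q [0,0,0,0,0,2,0,-1] (.pp true [-1,1]) (.R ⟨0,false,false,false,[1,-1],[0,0,1],[1,0,0,0,0,
  0,1],(⟨0,[(13,0)]⟩,⟨0,[(14,0)]⟩),(⟨0,[(11,0)]⟩,⟨0,[(10,0)]⟩),⟨0,[(0,0)]⟩,.k,.k,(.r (-2) ⟨3,[(3,3),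
  (4,0),(0,0),(2,1),(6,3)]⟩ ⟨0,[(5,1),(3,0)]⟩),(.x 0 ⟨0,[(14,0)]⟩ ⟨3,[(8,0),(0,0),(2,1),(0,3)]⟩),.k,
  .k,⟨true,0,⟨0,[]⟩,⟨7,[(7,3),(0,0),(0,0),(2,1)]⟩⟩,⟨false,1,⟨1,[(11,1),(0,0),(6,0)]⟩,⟨0,[(10,0)]⟩⟩,
  ⟨true,0,⟨0,[(5,0),(3,0)]⟩,⟨0,[(1,0),(9,0),(5,0)]⟩⟩,⟨false,1,⟨1,[(5,1),(3,1),(1,1),(0,0),(7,0)]⟩,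
  ⟨21,[(1,11),(1,10),(0,7),(2,0),(0,0),(1,1),(4,3)]⟩⟩,⟨false,0,⟨0,[]⟩,⟨0,[]⟩⟩,⟨false,0,⟨0,[]⟩,⟨0,
  []⟩⟩,[.o ⟨false,1,⟨7,[(7,3),(0,0),(0,4),(1,7),(0,5)]⟩,⟨0,[(1,0)]⟩⟩,.o ⟨false,1,⟨1,[(9,0),(1,1),(0,
  0),(3,1)]⟩,⟨13,[(1,11),(4,2),(0,0),(0,0),(1,1),(4,3),(1,2)]⟩⟩,.o ⟨false,0,⟨7,[(7,3),(0,0),(0,0),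
  (2,1)]⟩,⟨1,[(12,0),(6,0)]⟩⟩,.a ⟨true,(-1),⟨0,[(7,0)]⟩,⟨0,[(19,0)]⟩⟩ ⟨true,1,⟨1,[(9,0),(9,0)]⟩,⟨0,
  [(5,0),(11,0)]⟩⟩ ⟨false,2,⟨1,[(9,0),(1,1),(0,0),(6,0),(0,0)]⟩,⟨0,[(1,0),(5,0)]⟩⟩]⟩) (.S ⟨1,0,[0,1,
  0,0,0,0,-1],[1,0,-1],[1,0,1],(⟨0,[(10,0)]⟩,⟨0,[(11,0)]⟩),⟨1,[(0,0),(0,1),(5,0),(1,0)]⟩,.k,(.x 0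
  ⟨0,[(14,0)]⟩ ⟨7,[(0,3),(7,2),(0,2),(2,1)]⟩),⟨false,1,⟨7,[(7,3),(0,0),(0,4),(2,1),(7,3)]⟩,⟨0,[(1,
  0),(9,0)]⟩⟩,⟨true,0,⟨0,[(22,0)]⟩,⟨0,[]⟩⟩,⟨true,0,⟨0,[(5,0),(3,0)]⟩,⟨0,[(1,0),(9,0),(5,0)]⟩⟩,
  ⟨false,0,⟨0,[(18,0)]⟩,⟨7,[(3,3),(4,0),(0,0),(2,1),(7,3)]⟩⟩,[.o ⟨false,0,⟨13,[(1,11),(4,2),(0,0),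
  (0,0),(1,1),(4,3),(1,2)]⟩,⟨1,[(9,0),(1,1),(0,0),(3,1)]⟩⟩,.o ⟨false,0,⟨0,[(1,0)]⟩,⟨7,[(7,3),(0,0),
  (0,4),(1,7),(0,5)]⟩⟩,.e ⟨false,0,⟨0,[(16,0)]⟩,⟨3,[(8,0),(0,0),(9,1)]⟩⟩ ⟨false,0,⟨13,[(1,3),(1,1),
  (1,3),(2,2),(2,3),(0,0)]⟩,⟨1,[(9,0),(10,0)]⟩⟩,.a ⟨true,0,⟨0,[(10,0)]⟩,⟨0,[(11,0)]⟩⟩ ⟨true,0,⟨0,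
  []⟩,⟨0,[(22,0)]⟩⟩ ⟨false,0,⟨0,[(1,0),(9,0)]⟩,⟨7,[(7,3),(0,0),(0,4),(2,1),(7,3)]⟩⟩]⟩))) (.K ⟨0,[0,
  0,1],(-1),0,(⟨0,[(9,0)]⟩,⟨0,[(8,0)]⟩),.k,(.r (-2) ⟨7,[(1,3),(4,2),(0,6),(2,1),(6,3)]⟩ ⟨0,[(3,
  0)]⟩),(.x (-1) ⟨3,[(6,0),(0,0),(2,1),(0,3)]⟩ ⟨0,[(12,0)]⟩),.k,.k,[⟨3,[(6,0),(0,0),(0,3),(1,1)]⟩,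
  ⟨0,[(0,0)]⟩,⟨0,[(2,0),(1,0),(10,0)]⟩,⟨7,[(0,5),(5,0),(0,4),(1,1),(3,3)]⟩]⟩)))) t9)

theorem ok : chk (cPU 1 true) tree base = true := by
  decide +kernel

theorem closed {p a b c J l q : ℤ} {D dl : ℝ} {Cl : ℤ → ℤ → ℤ → ℤ → ℝ → Prop}
    (W : World p a b c J 1 l q D dl Cl) (hE : KEmp p a b 1 (P1 l p) Cl)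
    (g : G0 p a b c J D)
    {N R : ℤ} {I : ℝ} (hu : UFac p b D Cl N R I)
    (s0 : (1 : ℝ) ≤ c)
    (s1 : (a : ℝ) ≤ b)
    (s2 : (b : ℝ) + 1 ≤ 2 * a)
    (s3 : p - D < 2 * b)
    (s4 : D - c < a) : False := by
  have g1 := g.a2
  have g2 := g.b2
  have g3 := g.pa
  have g4 := g.pb
  have g5 := g.J1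
  have g6 := g.JD
  have g7 := g.D2
  have g8 := g.ca
  have g9 := g.ca'
  have t1 := TF.ofU hu
  have i1 := t1.I0
  have i2 := t1.ID
  have i3 := t1.R1
  have i4 := t1.R2
  refine (val_PU W.toBase (UV.ofU hu)).sound W rfl (Nk := 0) (fun kf hkf hh => ?_) (kok_B hE (by simp [xv]) (by simp [xv]) 0) ?_ ok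
  · simp only [cPU, kfB, List.mem_cons, List.not_mem_nil, or_false] at hkf
    subst hkf
    exact absurd hh (by norm_num)
  · simp only [base, List.forall_mem_cons, List.not_mem_nil, false_imp_iff, implies_true,
      and_true, hld, xv, evg_cons, evg_nil, List.map_cons, List.map_nil, List.cons_append,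
      List.nil_append, if_true, if_false, Bool.false_eq_true]
    push_cast
    refine ⟨?_, ?_, ?_, ?_, ?_, ?_, ?_, ?_, ?_, ?_, ?_, ?_, ?_, ?_, ?_, ?_, ?_⟩ <;> linarith

end Helper25.KG.P1_35_1_0_u
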