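import Pool.Agent.Helper25.KG.PL

set_option autoImplicit false
set_option linter.unusedVariables false

namespace Helper25.KG.P1_35_1_0_v

open Helper11.CT Helper25.KW Helper25.KG

def base : List Con :=
  [(false,[0,1,0,1,0,0,0,-1]),
  (false,[0,0,2,0,-1,0,0,1]),
  (true,[0,0,0,0,1,0,-2]),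
  (true,[0,0,0,0,1,0,2]),
  (false,[0,0,0,0,0,0,0,1,-2]),
  (false,[0,0,0,0,0,0,0,0,1]),
  (false,[0,0,0,0,1,0,0,-2]),
  (false,[0,0,0,0,0,-1,0,1]),
  (true,[0,0,0,0,0,1]),
  (true,[0,2,-1]),
  (true,[1,-1,1]),
  (true,[0,1,0,-1]),
  (true,[0,0,0,1]),
  (true,[0,0,-2,0,1]),
  (true,[0,-2,0,0,1]),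
  (true,[-1,0,1]),
  (true,[-1,1])]

def t0 : Tre :=
  (.I [0,0,-2,-2,1] (.S ⟨1,0,[0,0,-1,-1],[1,-1],[1,1,-1,-2],(⟨0,[(18,0)]⟩,⟨0,[(19,0)]⟩),⟨0,[(2,0)]⟩,
  .k,(.r (-1) ⟨0,[(0,0)]⟩ ⟨3,[(12,3),(0,0),(0,0),(2,1),(5,7)]⟩),⟨true,0,⟨0,[(22,0)]⟩,⟨0,[(23,0)]⟩⟩,
  ⟨false,1,⟨3,[(13,0),(0,0),(10,1)]⟩,⟨0,[]⟩⟩,⟨false,0,⟨0,[]⟩,⟨3,[(13,0),(0,0),(10,1)]⟩⟩,⟨true,0,⟨0,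
  [(23,0)]⟩,⟨0,[(22,0)]⟩⟩,[.e ⟨false,1,⟨11,[(0,8),(9,1),(3,0),(5,3),(1,3)]⟩,⟨0,[(21,0),(1,1)]⟩⟩
  ⟨false,1,⟨1,[(0,0),(23,0)]⟩,⟨7,[(12,3),(0,0),(0,0),(2,1),(5,7)]⟩⟩,.o ⟨false,1,⟨7,[(4,2),(1,1),(6,
  0),(1,0),(1,1),(7,2)]⟩,⟨0,[(11,0)]⟩⟩,.o ⟨false,0,⟨7,[(12,3),(0,0),(0,0),(2,1)]⟩,⟨11,[(0,0),(2,3),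
  (6,1),(3,0),(2,3)]⟩⟩,.a ⟨true,(-1),⟨0,[(12,0)]⟩,⟨0,[(24,0)]⟩⟩ ⟨false,1,⟨0,[(1,0)]⟩,⟨1,[(12,1),(4,
  0),(5,3),(1,0)]⟩⟩ ⟨true,1,⟨1,[(0,0),(23,0)]⟩,⟨0,[(11,0),(0,0)]⟩⟩]⟩) (.Q [0,-1,0,0,1,0,1,-1,1] (.p
  true [0,0,1] [1] (⟨0,[(16,0)]⟩,⟨1,[(12,0),(2,0),(8,0)]⟩) .k 1 (⟨0,[]⟩,⟨0,[]⟩) .k .k) (.I [1,-1,0,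
  -1,0,0,-1] (.Q [0,0,0,0,0,1,0,0,-1] (.ed true [1,-1,1] .k) (.Q [0,0,1,0,0,0,0,-1,1] (.p true [0,0,
  1] [1] (⟨0,[(19,0)]⟩,⟨1,[(15,0),(2,0),(8,0)]⟩) .k 1 (⟨0,[]⟩,⟨0,[]⟩) .k .k) (.R ⟨0,false,false,
  true,[0,0,1],[1,-1],[1,1,-1,-1],(⟨0,[(20,0)]⟩,⟨1,[(16,0),(2,0),(8,0)]⟩),(⟨0,[(22,0)]⟩,⟨0,[(23,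
  0)]⟩),⟨0,[(1,0)]⟩,.k,.k,(.r (-1) ⟨1,[(5,0),(12,0)]⟩ ⟨1,[(4,0),(12,0)]⟩),(.r 0 ⟨1,[(4,0),(13,0)]⟩
  ⟨0,[(14,0)]⟩),.k,.k,⟨true,0,⟨0,[]⟩,⟨7,[(16,3),(0,0),(0,0),(2,1)]⟩⟩,⟨false,0,⟨1,[(16,0),(2,0),(8,
  0)]⟩,⟨14,[(0,4),(2,3),(1,0),(1,5),(6,3),(5,5),(3,1)]⟩⟩,⟨true,0,⟨0,[(2,0),(21,0)]⟩,⟨1,[(4,0),(13,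
  0)]⟩⟩,⟨false,0,⟨9,[(8,4),(2,5),(0,1),(3,0),(0,0),(1,3),(4,1)]⟩,⟨1,[(3,0),(0,0),(2,0),(2,0)]⟩⟩,
  ⟨false,0,⟨0,[]⟩,⟨0,[]⟩⟩,⟨false,0,⟨0,[]⟩,⟨0,[]⟩⟩,[.o ⟨false,0,⟨0,[(26,0)]⟩,⟨11,[(4,3),(2,3),(9,0),
  (0,0),(2,3),(7,5)]⟩⟩,.a ⟨true,0,⟨1,[(8,0),(7,0),(11,0)]⟩,⟨0,[(27,0)]⟩⟩ ⟨false,1,⟨1,[(5,0),(22,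
  0)]⟩,⟨3,[(4,1),(12,0),(0,0)]⟩⟩ ⟨true,0,⟨1,[(8,0),(10,0)]⟩,⟨13,[(0,7),(2,1),(0,4),(2,1),(7,1),(1,
  0),(2,3)]⟩⟩,.e ⟨false,1,⟨3,[(5,0),(8,1),(3,0)]⟩,⟨1,[(4,0),(24,0)]⟩⟩ ⟨false,0,⟨1,[(8,0),(10,0)]⟩,
  ⟨11,[(3,7),(0,3),(2,3),(3,1),(5,2),(2,3),(8,0)]⟩⟩,.o ⟨false,0,⟨0,[(0,0)]⟩,⟨23,[(7,7),(6,7),(2,0),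
  (0,4),(0,11),(1,1)]⟩⟩]⟩) (.Q [0,0,0,1,1,0,2,-1,2] (.p true [0,0,1] [1,0,-1] (⟨0,[(20,0)]⟩,⟨7,[(0,
  3),(15,1),(0,0),(0,0),(0,1)]⟩) .k 2 (⟨7,[(0,3),(15,1),(0,0),(0,0),(0,1)]⟩,⟨0,[(20,0)]⟩) .k .k)
  (.R ⟨1,false,false,true,[1,0,-1],[0,0,1],[0,1,1,0,0,0,1],(⟨7,[(1,3),(15,1),(0,0),(0,0),(0,1)]⟩,⟨0,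
  [(21,0)]⟩),(⟨0,[(21,0)]⟩,⟨7,[(1,3),(15,1),(0,0),(0,0),(0,1)]⟩),⟨1,[(7,0),(12,0)]⟩,.k,.k,(.r (-1)
  ⟨0,[(15,0)]⟩ ⟨1,[(5,0),(13,0)]⟩),.k,(.r 0 ⟨0,[(3,0),(8,0),(12,0)]⟩ ⟨3,[(5,1),(12,0),(0,4)]⟩),.k,
  ⟨true,0,⟨7,[(17,3),(0,0),(0,0),(2,1)]⟩,⟨0,[]⟩⟩,⟨false,1,⟨9,[(0,0),(5,0),(1,2),(6,1),(5,17),(0,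
  2)]⟩,⟨0,[(20,0)]⟩⟩,⟨false,1,⟨7,[(17,3),(0,0),(0,8),(2,1)]⟩,⟨1,[(1,0),(1,2),(1,0),(2,0),(3,0),(8,
  0),(3,0)]⟩⟩,⟨true,1,⟨0,[(0,0),(26,0)]⟩,⟨0,[(1,1),(1,1),(1,0),(10,0),(10,0)]⟩⟩,⟨false,1,⟨3,[(5,1),
  (12,0),(0,4)]⟩,⟨0,[(1,0),(1,1),(12,0),(4,0)]⟩⟩,⟨false,1,⟨0,[(0,0)]⟩,⟨5,[(1,1),(1,5),(6,1),(2,1),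
  (3,0),(0,0),(1,2)]⟩⟩,[.o ⟨false,1,⟨7,[(0,3),(17,0),(0,0),(2,1),(4,3),(4,3)]⟩,⟨0,[(10,0)]⟩⟩,.o
  ⟨false,1,⟨19,[(0,7),(10,3),(6,0),(0,0),(2,5),(4,3)]⟩,⟨1,[(10,0),(2,0)]⟩⟩,.a ⟨true,0,⟨7,[(1,3),(15,
  1),(0,0),(0,0),(0,1)]⟩,⟨0,[(21,0)]⟩⟩ ⟨true,0,⟨1,[(5,0),(13,0),(7,1)]⟩,⟨0,[(1,0),(1,0),(12,0),(4,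
  0)]⟩⟩ ⟨false,1,⟨17,[(0,7),(10,3),(6,0),(2,15),(0,4),(4,3)]⟩,⟨0,[(12,0),(7,0)]⟩⟩,.o ⟨false,0,⟨1,
  [(17,0),(2,0),(1,0)]⟩,⟨9,[(0,0),(5,0),(1,2),(6,1),(5,7),(0,2)]⟩⟩]⟩) (.Q [0,0,2,0,-1,0,0,1,-1] (.p
  false [0,0,1] [1] (⟨0,[(21,0)]⟩,⟨7,[(1,3),(15,1),(0,0),(0,0),(0,1)]⟩) .k 1 (⟨0,[]⟩,⟨0,[]⟩) .k .k)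
  (.R ⟨1,false,false,false,[1,0,-1],[0,1],[1,0,0,-1,0,0,-1],(⟨7,[(2,3),(15,1),(0,0),(0,0),(0,1)]⟩,
  ⟨0,[(22,0)]⟩),(⟨0,[(25,0)]⟩,⟨0,[(24,0)]⟩),⟨1,[(8,0),(12,0)]⟩,.k,.k,(.r (-1) ⟨0,[(16,0)]⟩ ⟨1,[(6,
  0),(13,0)]⟩),(.r (-1) ⟨0,[(16,0)]⟩ ⟨1,[(6,0),(13,0)]⟩),(.r (-1) ⟨2,[(4,0),(2,1),(5,0),(2,0),(9,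
  0)]⟩ ⟨3,[(6,3),(12,0),(0,2)]⟩),.k,⟨false,1,⟨2,[(4,0),(2,1),(5,0),(2,0),(9,0)]⟩,⟨1,[(6,0),(13,0),
  (8,1)]⟩⟩,⟨true,1,⟨19,[(5,3),(1,0),(1,5),(6,3),(5,15),(0,4),(2,1)]⟩,⟨0,[(0,0)]⟩⟩,⟨false,1,⟨7,[(10,
  2),(1,1),(6,0),(1,0),(1,1),(7,2)]⟩,⟨0,[(29,0)]⟩⟩,⟨false,1,⟨1,[(5,0),(0,0),(2,0),(2,0)]⟩,⟨17,[(1,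
  3),(0,1),(7,6),(7,0),(0,4),(1,3)]⟩⟩,⟨true,0,⟨0,[]⟩,⟨0,[(33,0)]⟩⟩,⟨false,1,⟨0,[(6,0),(2,0),(2,0)]⟩,
  ⟨5,[(1,1),(8,4),(8,0),(1,0),(1,0)]⟩⟩,[.a ⟨true,0,⟨0,[(29,0)]⟩,⟨13,[(2,4),(7,5),(1,1),(5,2),(0,0),
  (2,2),(3,0)]⟩⟩ ⟨true,0,⟨8,[(1,0),(2,4),(12,0),(1,0),(2,1),(5,3)]⟩,⟨1,[(6,0),(13,0)]⟩⟩ ⟨false,1,⟨4,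
  [(5,1),(0,0),(2,2),(9,0),(2,2),(3,0)]⟩,⟨1,[(10,0),(10,0)]⟩⟩,.o ⟨false,1,⟨11,[(6,3),(2,3),(9,0),(0,
  0),(2,3),(7,5)]⟩,⟨0,[(28,0)]⟩⟩,.e ⟨false,0,⟨0,[(4,0)]⟩,⟨3,[(19,0),(0,2),(8,3)]⟩⟩ ⟨false,1,⟨11,[(5,
  7),(0,3),(2,3),(3,1),(5,2),(2,3),(8,0)]⟩,⟨1,[(10,0),(10,0)]⟩⟩,.o ⟨false,0,⟨15,[(0,7),(18,0),(0,0),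
  (0,3),(1,5)]⟩,⟨19,[(5,3),(1,0),(1,5),(6,3),(5,15),(0,4),(2,1)]⟩⟩]⟩) (.Q [0,0,1,0,0,0,0,-1,2] (.p
  true [0,0,1] [1,0,-1] (⟨0,[(22,0)]⟩,⟨7,[(2,3),(15,1),(0,0),(0,0),(0,1)]⟩) .k 2 (⟨7,[(2,3),(15,1),
  (0,0),(0,0),(0,1)]⟩,⟨0,[(22,0)]⟩) .k .k) (.Q [0,1,0,0,1,0,2,-1,2] (.p true [0,0,1] [1,0,-1] (⟨0,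
  [(23,0)]⟩,⟨7,[(3,3),(15,1),(0,0),(0,0),(0,1)]⟩) .k 2 (⟨7,[(3,3),(15,1),(0,0),(0,0),(0,1)]⟩,⟨0,
  [(23,0)]⟩) .k .k) (.R ⟨0,false,false,false,[0,0,1],[1,0,-1],[0,1],(⟨0,[(24,0)]⟩,⟨7,[(4,3),(15,1),
  (0,0),(0,0),(0,1)]⟩),(⟨7,[(4,3),(15,1),(0,0),(0,0),(0,1)]⟩,⟨0,[(24,0)]⟩),⟨0,[(5,0)]⟩,.k,.k,(.r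
  (-1) ⟨1,[(9,0),(12,0)]⟩ ⟨1,[(8,0),(12,0)]⟩),.k,.k,.k,⟨false,1,⟨7,[(21,0),(0,4),(5,3),(3,1)]⟩,⟨0,
  [(15,0)]⟩⟩,⟨true,0,⟨0,[(23,0)]⟩,⟨0,[(1,0)]⟩⟩,⟨false,0,⟨17,[(1,1),(1,1),(4,0),(6,7),(5,2),(6,3)]⟩,
  ⟨1,[(22,0),(10,0)]⟩⟩,⟨true,(-1),⟨19,[(3,16),(0,5),(3,6),(2,2),(3,3),(5,0),(6,1)]⟩,⟨0,[(0,0)]⟩⟩,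
  ⟨false,0,⟨0,[]⟩,⟨0,[]⟩⟩,⟨false,0,⟨0,[]⟩,⟨0,[]⟩⟩,[.o ⟨false,0,⟨1,[(13,0),(2,0)]⟩,⟨3,[(0,1),(24,0),
  (7,0)]⟩⟩,.o ⟨false,0,⟨0,[(13,0)]⟩,⟨11,[(0,7),(15,3),(4,0),(0,0),(2,1)]⟩⟩,.a ⟨true,0,⟨0,[(24,0)]⟩,
  ⟨7,[(4,3),(15,1),(0,0),(0,0),(0,1)]⟩⟩ ⟨true,0,⟨6,[(0,0),(15,1),(3,0),(7,1)]⟩,⟨0,[]⟩⟩ ⟨false,0,⟨13,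
  [(3,3),(0,3),(3,1),(4,3),(7,0),(1,5),(9,4)]⟩,⟨25,[(0,13),(0,7),(0,3),(18,0),(2,3),(8,6)]⟩⟩,.e
  ⟨false,1,⟨3,[(21,0),(0,0),(9,1)]⟩,⟨0,[(29,0)]⟩⟩ ⟨false,0,⟨0,[(4,0),(8,0)]⟩,⟨5,[(0,3),(0,1),(18,1),
  (0,0),(3,0),(7,1)]⟩⟩]⟩) (.R ⟨1,false,false,true,[1,0,-1],[0,0,1],[0,1,1,0,0,0,1],(⟨7,[(4,3),(15,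
  1),(0,0),(0,0),(0,1)]⟩,⟨0,[(24,0)]⟩),(⟨0,[(24,0)]⟩,⟨7,[(4,3),(15,1),(0,0),(0,0),(0,1)]⟩),⟨1,[(10,
  0),(12,0)]⟩,.k,.k,(.r (-1) ⟨0,[(18,0)]⟩ ⟨1,[(8,0),(13,0)]⟩),.k,(.r 0 ⟨10,[(1,2),(0,5),(0,8),(14,
  1),(2,0),(2,5)]⟩ ⟨3,[(8,1),(12,0),(0,4)]⟩),.k,⟨true,0,⟨7,[(20,3),(0,0),(0,0),(2,1)]⟩,⟨0,[]⟩⟩,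
  ⟨false,1,⟨0,[(1,0),(30,0)]⟩,⟨0,[(23,0)]⟩⟩,⟨false,1,⟨7,[(20,3),(0,0),(0,8),(2,1)]⟩,⟨6,[(0,4),(0,0),
  (0,3),(12,1),(5,0),(2,3)]⟩⟩,⟨false,2,⟨3,[(1,3),(19,0),(0,4),(9,1)]⟩,⟨0,[(0,0)]⟩⟩,⟨false,1,⟨3,[(8,
  1),(12,0),(0,4)]⟩,⟨1,[(2,0),(0,0),(2,0),(8,0),(8,0)]⟩⟩,⟨true,1,⟨1,[(1,0),(0,0),(5,0),(13,1),(1,0),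
  (3,0)]⟩,⟨0,[(3,0)]⟩⟩,[.o ⟨false,1,⟨7,[(1,3),(19,0),(0,4),(2,1),(2,3)]⟩,⟨0,[(13,0)]⟩⟩,.o ⟨false,1,
  ⟨19,[(1,7),(0,3),(18,0),(0,10),(2,3)]⟩,⟨10,[(0,2),(15,2),(4,0),(1,0),(1,1)]⟩⟩,.a ⟨true,0,⟨7,[(4,
  3),(15,1),(0,0),(0,0),(0,1)]⟩,⟨0,[(24,0)]⟩⟩ ⟨true,0,⟨1,[(8,0),(13,0),(7,1)]⟩,⟨21,[(0,9),(0,0),(0,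
  8),(18,0),(2,8),(3,4)]⟩⟩ ⟨false,1,⟨1,[(1,1),(20,0),(9,0)]⟩,⟨9,[(0,3),(20,0),(1,5),(9,2)]⟩⟩,.o
  ⟨false,0,⟨1,[(20,0),(2,0),(1,0)]⟩,⟨19,[(1,3),(0,11),(18,2),(0,2),(2,1)]⟩⟩]⟩)) (.Q [0,1,0,0,1,0,2,
  -1,2] (.p true [0,0,1] [1,0,-1] (⟨0,[(23,0)]⟩,⟨7,[(3,3),(15,1),(0,0),(0,0),(0,1)]⟩) .k 2 (⟨7,[(3,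
  3),(15,1),(0,0),(0,0),(0,1)]⟩,⟨0,[(23,0)]⟩) .k .k) (.R ⟨0,false,false,false,[0,0,1],[1,0,-1],[1,0,
  0,0,0,0,-1],(⟨0,[(24,0)]⟩,⟨7,[(4,3),(15,1),(0,0),(0,0),(0,1)]⟩),(⟨7,[(4,3),(15,1),(0,0),(0,0),(0,
  1)]⟩,⟨0,[(24,0)]⟩),⟨0,[(5,0)]⟩,.k,.k,(.r (-1) ⟨1,[(9,0),(12,0)]⟩ ⟨1,[(8,0),(12,0)]⟩),.k,.k,.k,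
  ⟨true,0,⟨0,[]⟩,⟨7,[(20,3),(0,0),(0,0),(2,1)]⟩⟩,⟨false,0,⟨0,[(1,0)]⟩,⟨3,[(0,1),(14,1),(5,0),(2,3),
  (0,0)]⟩⟩,⟨false,0,⟨4,[(3,0),(11,5),(3,0),(1,0),(2,1)]⟩,⟨0,[(22,0)]⟩⟩,⟨true,(-1),⟨19,[(3,16),(0,5),
  (3,6),(2,2),(3,3),(5,0),(6,1)]⟩,⟨0,[(0,0)]⟩⟩,⟨false,0,⟨0,[]⟩,⟨0,[]⟩⟩,⟨false,0,⟨0,[]⟩,⟨0,[]⟩⟩,[.o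
  ⟨false,0,⟨1,[(13,0),(2,0)]⟩,⟨3,[(0,1),(24,0),(7,0)]⟩⟩,.o ⟨false,0,⟨0,[(13,0)]⟩,⟨11,[(0,7),(15,3),
  (4,0),(0,0),(2,1)]⟩⟩,.e ⟨false,0,⟨0,[(15,0)]⟩,⟨3,[(21,0),(0,2)]⟩⟩ ⟨false,0,⟨9,[(1,3),(1,3),(4,1),
  (12,0),(1,1),(9,4)]⟩,⟨0,[(0,0),(14,0)]⟩⟩,.a ⟨true,0,⟨5,[(0,1),(5,1),(1,0),(11,1),(0,0),(2,1)]⟩,⟨0,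
  [(4,0)]⟩⟩ ⟨true,0,⟨5,[(2,2),(0,1),(0,0),(3,0),(6,1),(8,1),(3,0)]⟩,⟨1,[(8,0),(13,0),(7,1)]⟩⟩
  ⟨false,0,⟨0,[(1,0),(13,0)]⟩,⟨21,[(0,17),(5,9),(0,7),(0,4),(11,5),(0,5),(3,0)]⟩⟩]⟩) (.R ⟨1,false,
  false,true,[1,0,-1],[0,0,1],[0,1,1,0,0,0,1],(⟨7,[(4,3),(15,1),(0,0),(0,0),(0,1)]⟩,⟨0,[(24,0)]⟩),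
  (⟨0,[(24,0)]⟩,⟨7,[(4,3),(15,1),(0,0),(0,0),(0,1)]⟩),⟨1,[(10,0),(12,0)]⟩,.k,.k,(.r (-1) ⟨0,[(18,
  0)]⟩ ⟨1,[(8,0),(13,0)]⟩),.k,(.r 0 ⟨12,[(2,4),(0,6),(2,7),(12,1),(1,1),(2,8),(3,2)]⟩ ⟨3,[(8,1),(12,
  0),(0,4)]⟩),.k,⟨true,0,⟨7,[(20,3),(0,0),(0,0),(2,1)]⟩,⟨0,[]⟩⟩,⟨false,1,⟨6,[(2,2),(4,1),(13,0),(2,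
  8),(0,0),(2,0)]⟩,⟨0,[(23,0)]⟩⟩,⟨false,1,⟨7,[(20,3),(0,0),(0,8),(2,1)]⟩,⟨2,[(0,0),(1,0),(12,3),(8,
  0),(3,0)]⟩⟩,⟨false,2,⟨3,[(7,3),(0,1),(5,3),(6,0),(0,0),(5,3)]⟩,⟨0,[(0,0)]⟩⟩,⟨false,1,⟨3,[(8,1),
  (12,0),(0,4)]⟩,⟨1,[(2,0),(0,0),(2,0),(8,0),(8,0)]⟩⟩,⟨true,1,⟨1,[(7,1),(0,0),(13,0),(1,1),(3,1)]⟩,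
  ⟨0,[(3,0)]⟩⟩,[.o ⟨false,1,⟨0,[(7,0),(27,1)]⟩,⟨0,[(13,0)]⟩⟩,.o ⟨false,1,⟨0,[(7,0),(27,0)]⟩,⟨10,[(0,
  2),(15,2),(4,0),(1,0),(1,1)]⟩⟩,.a ⟨true,0,⟨7,[(4,3),(15,1),(0,0),(0,0),(0,1)]⟩,⟨0,[(24,0)]⟩⟩
  ⟨true,0,⟨1,[(8,0),(13,0),(7,1)]⟩,⟨2,[(0,0),(1,0),(12,0),(8,0),(3,0)]⟩⟩ ⟨false,1,⟨0,[(7,0),(16,0),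
  (10,0)]⟩,⟨9,[(0,3),(20,0),(1,5),(9,2)]⟩⟩,.o ⟨false,0,⟨1,[(20,0),(2,0),(1,0)]⟩,⟨6,[(2,2),(4,1),(13,
  0),(2,1),(0,0),(2,0)]⟩⟩]⟩)))))) (.R ⟨1,false,false,true,[0,0,1],[1,-1],[0,1,0,0,0,0,1],(⟨0,[(19,
  0)]⟩,⟨1,[(15,0),(2,0),(8,0)]⟩),(⟨0,[(21,0)]⟩,⟨0,[(22,0)]⟩),⟨0,[(0,0)]⟩,.k,.k,(.r (-1) ⟨1,[(4,0),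
  (12,0)]⟩ ⟨1,[(3,0),(12,0)]⟩),(.r 0 ⟨1,[(3,0),(13,0)]⟩ ⟨0,[(13,0)]⟩),.k,.k,⟨true,0,⟨1,[(3,0),(13,
  0)]⟩,⟨13,[(0,1),(0,9),(9,1),(0,0),(3,0),(6,1),(1,3)]⟩⟩,⟨false,0,⟨1,[(15,0),(2,0),(8,0)]⟩,⟨19,[(2,
  3),(1,0),(1,5),(6,3),(5,15),(0,4),(2,1)]⟩⟩,⟨true,0,⟨0,[(30,0)]⟩,⟨0,[]⟩⟩,⟨false,0,⟨9,[(7,4),(2,5),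
  (0,1),(3,0),(0,0),(1,3),(4,1)]⟩,⟨1,[(2,0),(0,0),(2,0),(2,0)]⟩⟩,⟨false,0,⟨0,[(26,0)]⟩,⟨7,[(7,2),(1,
  1),(6,0),(1,0),(1,1),(7,2)]⟩⟩,⟨false,0,⟨5,[(10,3),(4,2),(0,0),(1,2),(4,1),(3,1)]⟩,⟨0,[(2,0)]⟩⟩,
  [.o ⟨false,0,⟨0,[(25,0)]⟩,⟨11,[(3,3),(2,3),(9,0),(0,0),(2,3),(7,5)]⟩⟩,.a ⟨true,0,⟨1,[(7,0),(7,0),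
  (11,0)]⟩,⟨0,[(26,0)]⟩⟩ ⟨false,1,⟨1,[(17,0),(9,0)]⟩,⟨5,[(1,1),(1,0),(6,1),(5,0),(6,1)]⟩⟩ ⟨true,0,
  ⟨1,[(7,0),(10,0)]⟩,⟨1,[(3,0),(15,1),(0,0)]⟩⟩,.e ⟨false,1,⟨3,[(16,0),(0,2)]⟩,⟨0,[(10,0)]⟩⟩ ⟨false,
  0,⟨1,[(7,0),(10,0)]⟩,⟨11,[(2,7),(0,3),(2,3),(3,1),(5,2),(2,3),(8,0)]⟩⟩,.o ⟨false,0,⟨1,[(0,1),(11,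
  0),(7,0)]⟩,⟨23,[(6,7),(6,7),(2,0),(0,4),(0,11),(1,1)]⟩⟩]⟩)) (.S ⟨1,0,[0,1,0,0,0,0,-1],[1,0,-1],[1,
  0,0,-1,0,0,-1],(⟨1,[(14,0),(2,0),(8,0)]⟩,⟨0,[(18,0)]⟩),⟨1,[(4,0),(12,0)]⟩,.k,(.r (-1) ⟨0,[(12,
  0)]⟩ ⟨1,[(2,0),(13,0)]⟩),⟨false,1,⟨7,[(6,2),(1,1),(6,0),(1,0),(1,1),(7,2)]⟩,⟨0,[(25,0)]⟩⟩,⟨true,0,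
  ⟨0,[(29,0)]⟩,⟨0,[]⟩⟩,⟨true,0,⟨0,[]⟩,⟨0,[(29,0)]⟩⟩,⟨false,0,⟨0,[(25,0)]⟩,⟨7,[(6,2),(1,1),(6,0),(1,
  0),(1,1),(7,2)]⟩⟩,[.o ⟨false,0,⟨0,[(10,0)]⟩,⟨0,[(1,0)]⟩⟩,.o ⟨false,0,⟨1,[(7,0),(2,0)]⟩,⟨1,[(0,0),
  (7,0),(9,0),(0,0)]⟩⟩,.a ⟨true,0,⟨1,[(14,0),(2,0),(8,0)]⟩,⟨0,[(18,0)]⟩⟩ ⟨true,0,⟨0,[(9,0),(14,0)]⟩,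
  ⟨0,[(0,0)]⟩⟩ ⟨false,0,⟨7,[(2,0),(6,5),(5,0),(6,1),(1,1)]⟩,⟨1,[(16,0),(10,0)]⟩⟩,.o ⟨false,0,⟨1,
  [(14,0),(2,0),(1,0)]⟩,⟨19,[(1,3),(1,0),(1,5),(6,3),(5,15),(0,4),(2,1)]⟩⟩]⟩)) (.Q [0,-1,0,1,1,0,1,
  -1,1] (.p true [0,0,1] [1] (⟨0,[(17,0)]⟩,⟨1,[(13,0),(2,0),(8,0)]⟩) .k 1 (⟨0,[]⟩,⟨0,[]⟩) .k .k)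
  (.R ⟨2,true,false,true,[0,1],[1,0,-1],[0,1,1,1],(⟨0,[]⟩,⟨0,[]⟩),(⟨1,[(14,0),(2,0),(8,0)]⟩,⟨0,[(18,
  0)]⟩),⟨0,[]⟩,.k,.k,.k,(.r 0 ⟨1,[(2,0),(13,0)]⟩ ⟨0,[(12,0)]⟩),.k,.k,⟨true,0,⟨1,[(2,0),(13,0)]⟩,⟨0,
  [(9,0),(14,0)]⟩⟩,⟨false,0,⟨1,[(14,0),(2,0),(8,0)]⟩,⟨23,[(0,3),(2,2),(1,5),(6,3),(5,19),(0,6),(2,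
  1)]⟩⟩,⟨true,0,⟨0,[(29,0)]⟩,⟨0,[]⟩⟩,⟨false,0,⟨3,[(1,0),(4,1),(0,0),(7,0),(1,0)]⟩,⟨0,[(0,0)]⟩⟩,
  ⟨false,0,⟨0,[(25,0)]⟩,⟨7,[(6,2),(1,1),(6,0),(1,0),(1,1),(7,2)]⟩⟩,⟨true,(-1),⟨0,[(1,0)]⟩,⟨0,[(0,0),
  (23,0)]⟩⟩,[]⟩) (.R ⟨1,true,false,false,[1,0,-1],[0,1],[0,0,0,0,0,0,-1],(⟨1,[(14,0),(2,0),(8,0)]⟩,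
  ⟨0,[(18,0)]⟩),(⟨0,[(21,0)]⟩,⟨0,[(20,0)]⟩),⟨1,[(4,0),(12,0)]⟩,.k,.k,(.r (-1) ⟨0,[(12,0)]⟩ ⟨1,[(2,
  0),(13,0)]⟩),(.r (-1) ⟨0,[(12,0)]⟩ ⟨1,[(2,0),(13,0)]⟩),(.r (-1) ⟨11,[(0,1),(2,8),(5,5),(2,3),(5,
  1),(0,0),(2,1)]⟩ ⟨3,[(2,3),(12,0),(0,2)]⟩),.k,⟨false,1,⟨2,[(3,0),(5,1),(2,0),(9,0),(3,0)]⟩,⟨1,[(2,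
  0),(13,0)]⟩⟩,⟨true,1,⟨27,[(3,0),(1,9),(2,3),(3,3),(5,23),(0,8),(2,1)]⟩,⟨1,[(0,1),(1,0),(13,0),(6,
  1)]⟩⟩,⟨false,1,⟨3,[(15,0),(0,0),(10,1)]⟩,⟨0,[]⟩⟩,⟨true,1,⟨11,[(2,3),(2,3),(9,0),(0,6),(1,11),(0,
  3)]⟩,⟨0,[(0,0)]⟩⟩,⟨true,0,⟨0,[(25,0)]⟩,⟨0,[(24,0)]⟩⟩,⟨false,1,⟨0,[(2,0),(2,0),(2,0)]⟩,⟨5,[(0,1),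
  (5,4),(0,1),(7,0),(1,0),(1,0)]⟩⟩,[]⟩))))

def t1 : Tre :=
  (.Q [0,0,2,0,-1,0,0,1,-1] (.p false [0,0,1] [1] (⟨0,[(15,0)]⟩,⟨1,[(11,0),(2,0),(8,0)]⟩) .k 1 (⟨0,
  []⟩,⟨0,[]⟩) .k .k) (.I [0,0,-1,-1,1,0,1] (.Q [0,0,0,1,1,0,2,-1,2] (.p true [0,0,1] [1,0,-1] (⟨0,
  [(17,0)]⟩,⟨1,[(13,0),(2,0),(8,0)]⟩) .k 2 (⟨1,[(13,0),(2,0),(8,0)]⟩,⟨0,[(17,0)]⟩) .k .k) (.Q [0,0,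
  1,0,0,0,0,-1,1] (.p true [0,0,1] [1] (⟨0,[(18,0)]⟩,⟨1,[(14,0),(2,0),(8,0)]⟩) .k 1 (⟨0,[]⟩,⟨0,[]⟩)
  .k .k) (.I [0,0,1,1,0,0,1] (.R ⟨0,false,false,true,[0,0,1],[1,-1],[0,1,0,0,0,0,1],(⟨0,[(20,0)]⟩,
  ⟨1,[(16,0),(2,0),(8,0)]⟩),(⟨0,[(22,0)]⟩,⟨0,[(23,0)]⟩),⟨0,[(5,0)]⟩,.k,.k,(.r (-1) ⟨0,[(3,0)]⟩ ⟨4,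
  [(1,0),(7,0),(5,0),(0,1),(0,1),(9,3)]⟩),(.r 0 ⟨0,[(0,0)]⟩ ⟨0,[(14,0)]⟩),.k,.k,⟨true,0,⟨0,[(0,0)]⟩,
  ⟨0,[(11,0),(14,0)]⟩⟩,⟨false,0,⟨1,[(16,0),(2,0),(8,0)]⟩,⟨0,[(1,0),(26,0)]⟩⟩,⟨true,0,⟨0,[(31,0)]⟩,
  ⟨0,[]⟩⟩,⟨false,0,⟨9,[(8,4),(2,5),(0,1),(3,0),(0,0),(1,3),(4,1)]⟩,⟨0,[(6,0),(20,0)]⟩⟩,⟨false,0,⟨0,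
  []⟩,⟨0,[]⟩⟩,⟨false,0,⟨0,[]⟩,⟨0,[]⟩⟩,[.o ⟨false,0,⟨0,[(26,0)]⟩,⟨1,[(21,0),(5,1),(1,0)]⟩⟩,.a ⟨true,
  0,⟨1,[(8,0),(7,0),(11,0)]⟩,⟨0,[(27,0)]⟩⟩ ⟨false,1,⟨1,[(18,0),(9,0)]⟩,⟨9,[(1,0),(9,6),(0,0),(3,0),
  (0,0),(6,2)]⟩⟩ ⟨true,0,⟨1,[(8,0),(10,0)]⟩,⟨0,[(1,0),(25,0)]⟩⟩,.e ⟨false,1,⟨3,[(17,0),(0,2)]⟩,⟨0,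
  [(11,0)]⟩⟩ ⟨false,0,⟨1,[(8,0),(10,0)]⟩,⟨7,[(2,3),(8,5),(5,0),(3,1),(5,3),(1,0)]⟩⟩,.o ⟨false,0,⟨0,
  [(1,0)]⟩,⟨7,[(17,0),(0,0),(0,3),(1,1),(6,3)]⟩⟩]⟩) (.Q [0,0,0,0,0,-2,0,1] (.pp false [-1,1]) (.S
  ⟨1,0,[0,0,-1,-1],[1,-1],[1,1,-1,-2],(⟨0,[(23,0)]⟩,⟨0,[(24,0)]⟩),⟨0,[(0,0)]⟩,.k,(.r (-1) ⟨0,[(1,0),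
  (2,0)]⟩ ⟨10,[(2,1),(0,3),(1,9),(12,3),(3,1),(5,17)]⟩),⟨true,0,⟨0,[(27,0)]⟩,⟨0,[(28,0)]⟩⟩,⟨false,1,
  ⟨3,[(18,0),(0,0),(10,1)]⟩,⟨0,[]⟩⟩,⟨false,0,⟨0,[]⟩,⟨3,[(18,0),(0,0),(10,1)]⟩⟩,⟨true,0,⟨0,[(28,0)]⟩,
  ⟨0,[(27,0)]⟩⟩,[.e ⟨false,1,⟨5,[(1,3),(2,4),(10,0),(9,1),(1,1)]⟩,⟨0,[(26,0),(1,1)]⟩⟩ ⟨false,1,⟨1,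
  [(1,0),(2,0),(24,0)]⟩,⟨10,[(2,0),(0,1),(1,4),(12,1),(3,0),(5,8)]⟩⟩,.o ⟨false,1,⟨7,[(9,2),(1,1),(6,
  0),(1,0),(1,1),(7,2)]⟩,⟨0,[(16,0)]⟩⟩,.o ⟨false,0,⟨7,[(17,3),(0,0),(0,0),(2,1)]⟩,⟨1,[(22,0),(6,
  0)]⟩⟩,.a ⟨true,(-1),⟨0,[(17,0)]⟩,⟨0,[(29,0)]⟩⟩ ⟨false,1,⟨0,[(1,0),(2,0)]⟩,⟨21,[(2,11),(0,1),(1,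
  15),(12,1),(3,0),(5,41),(1,10)]⟩⟩ ⟨true,1,⟨1,[(1,0),(2,0),(24,0)]⟩,⟨0,[(16,0),(0,0)]⟩⟩]⟩) (.R ⟨0,
  false,false,false,[1,-1],[0,1],[1,1,1],(⟨0,[(23,0)]⟩,⟨0,[(24,0)]⟩),(⟨0,[(24,0)]⟩,⟨0,[(23,0)]⟩),⟨0,
  [(0,0)]⟩,.k,.k,(.r (-1) ⟨0,[(1,0),(2,0)]⟩ ⟨10,[(2,1),(0,3),(1,9),(12,3),(3,1),(5,17)]⟩),(.r (-1)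
  ⟨0,[(1,0),(2,0)]⟩ ⟨10,[(2,1),(0,3),(1,9),(12,3),(3,1),(5,17)]⟩),.k,.k,⟨true,0,⟨0,[(27,0)]⟩,⟨0,
  [(26,0),(1,0)]⟩⟩,⟨false,2,⟨1,[(22,0),(6,2)]⟩,⟨0,[(17,0)]⟩⟩,⟨true,(-1),⟨0,[(16,0),(0,0)]⟩,⟨1,[(1,
  0),(2,0),(24,0)]⟩⟩,⟨false,1,⟨1,[(22,0),(5,3),(1,0)]⟩,⟨0,[(9,0)]⟩⟩,⟨false,0,⟨0,[]⟩,⟨0,[]⟩⟩,⟨false,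
  0,⟨0,[]⟩,⟨0,[]⟩⟩,[.a ⟨true,0,⟨0,[(28,0)]⟩,⟨1,[(9,0),(7,0),(11,0)]⟩⟩ ⟨false,0,⟨0,[(32,0)]⟩,⟨1,[(29,
  0),(0,0)]⟩⟩ ⟨true,1,⟨1,[(22,0),(5,1),(0,0)]⟩,⟨0,[(8,0)]⟩⟩,.o ⟨false,1,⟨1,[(22,0),(5,1),(1,0)]⟩,⟨0,
  [(27,0)]⟩⟩,.o ⟨false,0,⟨7,[(17,3),(0,0),(0,0),(2,1)]⟩,⟨1,[(22,0),(6,0)]⟩⟩,.e ⟨false,0,⟨0,[]⟩,⟨3,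
  [(18,0),(0,0),(10,1)]⟩⟩ ⟨false,2,⟨1,[(22,0),(5,1),(0,1),(0,0)]⟩,⟨0,[(8,0)]⟩⟩]⟩))) (.Q [0,0,0,0,0,
  -2,0,1] (.pp false [-1,1]) (.S ⟨1,0,[0,1,0,0,0,0,-1],[1,0,-1],[1,0,0,-1,0,0,-1],(⟨7,[(1,3),(14,1),
  (0,0),(0,0),(0,1)]⟩,⟨0,[(20,0)]⟩),⟨1,[(0,0),(18,0)]⟩,.k,(.r (-1) ⟨0,[(14,0)]⟩ ⟨2,[(1,0),(0,0),(1,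
  1),(1,0),(8,0),(11,0)]⟩),⟨false,1,⟨7,[(8,2),(1,1),(6,0),(1,0),(1,1),(7,2)]⟩,⟨0,[(27,0)]⟩⟩,⟨true,0,
  ⟨0,[(31,0)]⟩,⟨0,[]⟩⟩,⟨true,0,⟨0,[]⟩,⟨0,[(31,0)]⟩⟩,⟨false,0,⟨0,[(27,0)]⟩,⟨7,[(8,2),(1,1),(6,0),(1,
  0),(1,1),(7,2)]⟩⟩,[.o ⟨false,0,⟨0,[(12,0)]⟩,⟨0,[(6,0)]⟩⟩,.o ⟨false,0,⟨1,[(9,0),(2,0)]⟩,⟨19,[(2,7),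
  (7,3),(6,0),(0,0),(2,5),(4,3)]⟩⟩,.a ⟨true,0,⟨7,[(1,3),(14,1),(0,0),(0,0),(0,1)]⟩,⟨0,[(20,0)]⟩⟩
  ⟨true,0,⟨0,[(11,0),(14,0)]⟩,⟨1,[(1,1),(0,0),(4,0),(7,1)]⟩⟩ ⟨false,0,⟨6,[(7,0),(3,4),(3,0),(1,0),
  (6,1)]⟩,⟨1,[(18,0),(10,0)]⟩⟩,.o ⟨false,0,⟨15,[(4,7),(12,0),(0,0),(0,3),(1,5)]⟩,⟨1,[(20,1),(0,0),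
  (6,0)]⟩⟩]⟩) (.R ⟨0,false,false,true,[1,-1],[1,0,-1],[1,1,0,0,0,0,-1],(⟨0,[(22,0)]⟩,⟨0,[(23,0)]⟩),
  (⟨7,[(1,3),(14,1),(0,0),(0,0),(0,1)]⟩,⟨0,[(20,0)]⟩),⟨0,[(0,0)]⟩,.k,.k,(.x 1 ⟨0,[(0,0),(0,1),(4,0),
  (0,1),(3,0),(3,1),(4,0)]⟩ ⟨0,[(21,0),(0,1),(5,0)]⟩),(.r (-1) ⟨0,[(3,0)]⟩ ⟨4,[(11,0),(3,1),(0,1),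
  (0,1),(7,0),(1,2)]⟩),.k,.k,⟨true,0,⟨0,[]⟩,⟨7,[(16,3),(0,0),(0,0),(2,1)]⟩⟩,⟨false,1,⟨1,[(1,1),(19,
  0),(6,0)]⟩,⟨5,[(2,0),(4,0),(8,1),(0,0),(2,3),(0,0)]⟩⟩,⟨true,(-1),⟨0,[(1,0),(5,0),(3,0),(3,1),(4,
  0)]⟩,⟨0,[(3,0)]⟩⟩,⟨false,0,⟨1,[(9,0),(2,0),(14,1)]⟩,⟨0,[(10,0)]⟩⟩,⟨false,0,⟨0,[]⟩,⟨0,[]⟩⟩,⟨false,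
  0,⟨0,[]⟩,⟨0,[]⟩⟩,[.o ⟨false,0,⟨0,[(12,0)]⟩,⟨0,[(6,0)]⟩⟩,.o ⟨false,0,⟨1,[(9,0),(2,0)]⟩,⟨19,[(2,7),
  (7,3),(6,0),(0,0),(2,5),(4,3)]⟩⟩,.o ⟨false,0,⟨7,[(16,3),(0,0),(0,0),(2,1)]⟩,⟨1,[(21,0),(6,0)]⟩⟩,
  .a ⟨true,(-1),⟨0,[(16,0)]⟩,⟨0,[(28,0)]⟩⟩ ⟨true,0,⟨0,[(11,0),(12,0)]⟩,⟨0,[(1,0),(4,0),(0,0),(7,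
  0)]⟩⟩ ⟨false,1,⟨1,[(9,0),(2,0),(15,1)]⟩,⟨0,[(6,0),(9,0)]⟩⟩]⟩))) (.I [0,0,-2,-2,1] (.Q [0,0,0,0,0,
  2,0,-1] (.pp true [-1,1]) (.R ⟨0,false,false,false,[1,-1],[0,1],[1,1,1],(⟨0,[(22,0)]⟩,⟨0,[(23,
  0)]⟩),(⟨0,[(23,0)]⟩,⟨0,[(22,0)]⟩),⟨0,[(0,0)]⟩,.k,.k,(.r (-1) ⟨0,[(1,0)]⟩ ⟨3,[(16,3),(0,0),(0,0),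
  (2,1),(5,7)]⟩),(.r (-1) ⟨0,[(1,0)]⟩ ⟨3,[(16,3),(0,0),(0,0),(2,1),(5,7)]⟩),.k,.k,⟨true,0,⟨0,[(26,
  0)]⟩,⟨0,[(25,0),(1,0)]⟩⟩,⟨false,2,⟨1,[(21,0),(6,2)]⟩,⟨0,[(16,0)]⟩⟩,⟨true,(-1),⟨0,[(15,0),(0,0)]⟩,
  ⟨1,[(1,0),(26,0)]⟩⟩,⟨false,1,⟨1,[(21,0),(5,3),(1,0)]⟩,⟨0,[(8,0)]⟩⟩,⟨false,0,⟨0,[]⟩,⟨0,[]⟩⟩,⟨false,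
  0,⟨0,[]⟩,⟨0,[]⟩⟩,[.a ⟨true,0,⟨0,[(27,0)]⟩,⟨1,[(8,0),(7,0),(11,0)]⟩⟩ ⟨false,0,⟨0,[(31,0)]⟩,⟨1,[(28,
  0),(0,0)]⟩⟩ ⟨true,1,⟨1,[(21,0),(5,1),(0,0)]⟩,⟨0,[(7,0)]⟩⟩,.o ⟨false,1,⟨1,[(21,0),(5,1),(1,0)]⟩,⟨0,
  [(26,0)]⟩⟩,.o ⟨false,0,⟨7,[(16,3),(0,0),(0,0),(2,1)]⟩,⟨1,[(21,0),(6,0)]⟩⟩,.e ⟨false,0,⟨0,[]⟩,⟨3,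
  [(17,0),(0,0),(10,1)]⟩⟩ ⟨false,2,⟨1,[(21,0),(5,1),(0,1),(0,0)]⟩,⟨0,[(7,0)]⟩⟩]⟩) (.S ⟨1,0,[0,0,-1,
  -1],[1,-1],[1,1,-1,-2],(⟨0,[(22,0)]⟩,⟨0,[(23,0)]⟩),⟨0,[(0,0)]⟩,.k,(.r (-1) ⟨0,[(1,0)]⟩ ⟨3,[(16,3),
  (0,0),(0,0),(2,1),(5,7)]⟩),⟨true,0,⟨0,[(26,0)]⟩,⟨0,[(27,0)]⟩⟩,⟨false,1,⟨3,[(17,0),(0,0),(10,1)]⟩,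
  ⟨0,[]⟩⟩,⟨false,0,⟨0,[]⟩,⟨3,[(17,0),(0,0),(10,1)]⟩⟩,⟨true,0,⟨0,[(27,0)]⟩,⟨0,[(26,0)]⟩⟩,[.e ⟨false,
  1,⟨11,[(1,9),(15,0),(0,0),(5,3),(1,3)]⟩,⟨0,[(25,0),(1,1)]⟩⟩ ⟨false,1,⟨1,[(1,0),(26,0)]⟩,⟨7,[(16,
  3),(0,0),(0,0),(2,1),(5,7)]⟩⟩,.o ⟨false,1,⟨7,[(8,2),(1,1),(6,0),(1,0),(1,1),(7,2)]⟩,⟨0,[(15,0)]⟩⟩,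
  .o ⟨false,0,⟨7,[(16,3),(0,0),(0,0),(2,1)]⟩,⟨1,[(21,0),(6,0)]⟩⟩,.a ⟨true,(-1),⟨0,[(16,0)]⟩,⟨0,[(28,
  0)]⟩⟩ ⟨false,1,⟨0,[(1,0)]⟩,⟨1,[(16,1),(4,0),(5,3),(1,0)]⟩⟩ ⟨true,1,⟨1,[(1,0),(26,0)]⟩,⟨0,[(15,0),
  (0,0)]⟩⟩]⟩)) (.R ⟨0,false,false,true,[0,0,1],[1,-1],[0,1,0,0,0,0,1],(⟨0,[(19,0)]⟩,⟨1,[(15,0),(2,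
  0),(8,0)]⟩),(⟨0,[(21,0)]⟩,⟨0,[(22,0)]⟩),⟨0,[(4,0)]⟩,.k,.k,(.r (-1) ⟨0,[(2,0)]⟩ ⟨1,[(0,0),(15,
  0)]⟩),(.r 0 ⟨1,[(0,0),(16,0)]⟩ ⟨0,[(13,0)]⟩),.k,.k,⟨true,0,⟨1,[(0,0),(16,0)]⟩,⟨0,[(10,0),(14,
  0)]⟩⟩,⟨false,0,⟨1,[(15,0),(2,0),(8,0)]⟩,⟨1,[(19,1),(0,0),(6,0)]⟩⟩,⟨true,0,⟨0,[(30,0)]⟩,⟨0,[]⟩⟩,
  ⟨false,0,⟨7,[(1,1),(5,2),(7,0),(0,1),(1,1),(8,0)]⟩,⟨1,[(0,0),(4,1),(21,0)]⟩⟩,⟨false,0,⟨0,[]⟩,⟨0,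
  []⟩⟩,⟨false,0,⟨0,[]⟩,⟨0,[]⟩⟩,[.o ⟨false,0,⟨0,[(25,0)]⟩,⟨1,[(0,0),(19,0),(6,0),(0,0)]⟩⟩,.a ⟨true,0,
  ⟨1,[(7,0),(7,0),(11,0)]⟩,⟨0,[(26,0)]⟩⟩ ⟨false,1,⟨1,[(17,0),(9,0)]⟩,⟨4,[(1,0),(8,0),(3,0),(1,0),(2,
  1)]⟩⟩ ⟨true,0,⟨1,[(7,0),(10,0)]⟩,⟨1,[(0,0),(18,1),(0,0)]⟩⟩,.e ⟨false,1,⟨3,[(16,0),(0,2)]⟩,⟨0,[(10,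
  0)]⟩⟩ ⟨false,0,⟨1,[(7,0),(10,0)]⟩,⟨4,[(0,1),(4,3),(4,1),(3,0),(1,0),(2,0),(7,1)]⟩⟩,.o ⟨false,0,⟨1,
  [(1,0),(3,1),(0,0),(7,1),(4,1)]⟩,⟨7,[(16,0),(0,0),(0,3),(1,1),(6,3)]⟩⟩]⟩))) (.R ⟨0,false,false,
  true,[0,0,1],[1,-1],[0,1,0,0,0,0,1],(⟨0,[(17,0)]⟩,⟨1,[(13,0),(2,0),(8,0)]⟩),(⟨0,[(19,0)]⟩,⟨0,[(20,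
  0)]⟩),⟨0,[(2,0)]⟩,.k,.k,(.x 0 ⟨3,[(10,1),(3,0),(0,0)]⟩ ⟨1,[(18,0),(0,1),(5,0)]⟩),(.r 0 ⟨0,[(0,0),
  (14,0)]⟩ ⟨0,[(11,0)]⟩),.k,.k,⟨true,0,⟨0,[(0,0),(14,0)]⟩,⟨0,[(8,0),(14,0)]⟩⟩,⟨false,0,⟨1,[(13,0),
  (2,0),(8,0)]⟩,⟨1,[(17,1),(0,0),(6,0)]⟩⟩,⟨true,0,⟨0,[(28,0)]⟩,⟨0,[]⟩⟩,⟨false,0,⟨6,[(0,0),(4,3),(2,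
  2),(0,0),(4,0),(1,2),(4,0)]⟩,⟨0,[(3,0),(20,0)]⟩⟩,⟨false,0,⟨0,[]⟩,⟨0,[]⟩⟩,⟨false,0,⟨0,[]⟩,⟨0,[]⟩⟩,
  [.o ⟨false,0,⟨0,[(23,0)]⟩,⟨1,[(18,0),(5,1),(1,0)]⟩⟩,.a ⟨true,0,⟨1,[(5,0),(7,0),(11,0)]⟩,⟨0,[(24,
  0)]⟩⟩ ⟨false,1,⟨1,[(15,0),(9,0)]⟩,⟨1,[(0,0),(10,0)]⟩⟩ ⟨true,0,⟨1,[(5,0),(10,0)]⟩,⟨13,[(0,5),(2,7),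
  (8,7),(0,3),(0,0),(2,5),(0,0)]⟩⟩,.e ⟨false,1,⟨3,[(14,0),(0,2)]⟩,⟨0,[(8,0)]⟩⟩ ⟨false,0,⟨1,[(5,0),
  (10,0)]⟩,⟨3,[(0,1),(2,3),(10,0),(9,1),(0,0)]⟩⟩,.o ⟨false,0,⟨0,[(0,0),(2,0),(19,0)]⟩,⟨7,[(14,0),(0,
  0),(0,3),(1,1),(6,3)]⟩⟩]⟩)) (.Q [0,0,0,0,0,2,0,-1] (.pp true [-1,1]) (.R ⟨0,false,false,false,[1,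
  -1],[0,1],[1,1,1],(⟨0,[(19,0)]⟩,⟨0,[(20,0)]⟩),(⟨0,[(20,0)]⟩,⟨0,[(19,0)]⟩),⟨0,[(0,0)]⟩,.k,.k,(.x 1
  ⟨0,[(0,0),(3,0),(19,0)]⟩ ⟨0,[(18,0),(0,1),(5,0)]⟩),(.x 1 ⟨0,[(0,0),(3,0),(19,0)]⟩ ⟨0,[(18,0),(0,
  1),(5,0)]⟩),.k,.k,⟨true,0,⟨0,[(23,0)]⟩,⟨0,[(22,0),(1,0)]⟩⟩,⟨false,2,⟨1,[(18,0),(6,2)]⟩,⟨0,[(13,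
  0)]⟩⟩,⟨true,(-1),⟨0,[(12,0),(0,0)]⟩,⟨1,[(1,1),(3,0),(10,0)]⟩⟩,⟨false,1,⟨1,[(18,0),(5,3),(1,0)]⟩,
  ⟨0,[(5,0)]⟩⟩,⟨false,0,⟨0,[]⟩,⟨0,[]⟩⟩,⟨false,0,⟨0,[]⟩,⟨0,[]⟩⟩,[.a ⟨true,0,⟨0,[(24,0)]⟩,⟨1,[(5,0),
  (7,0),(11,0)]⟩⟩ ⟨false,0,⟨0,[(28,0)]⟩,⟨1,[(25,0),(0,0)]⟩⟩ ⟨true,1,⟨1,[(18,0),(5,1),(0,0)]⟩,⟨0,[(4,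
  0)]⟩⟩,.o ⟨false,1,⟨1,[(18,0),(5,1),(1,0)]⟩,⟨0,[(23,0)]⟩⟩,.o ⟨false,0,⟨7,[(13,3),(0,0),(0,0),(2,
  1)]⟩,⟨1,[(18,0),(6,0)]⟩⟩,.e ⟨false,0,⟨0,[]⟩,⟨3,[(14,0),(0,0),(10,1)]⟩⟩ ⟨false,2,⟨1,[(18,0),(5,1),
  (0,1),(0,0)]⟩,⟨0,[(4,0)]⟩⟩]⟩) (.I [0,0,-2,-2,1] (.S ⟨1,0,[0,0,-1,-1],[1,-1],[1,1,-1,-2],(⟨0,[(20,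
  0)]⟩,⟨0,[(21,0)]⟩),⟨0,[(1,0)]⟩,.k,(.r (-1) ⟨0,[(0,0)]⟩ ⟨3,[(14,3),(0,0),(0,0),(2,1),(5,7)]⟩),
  ⟨true,0,⟨0,[(24,0)]⟩,⟨0,[(25,0)]⟩⟩,⟨false,1,⟨3,[(15,0),(0,0),(10,1)]⟩,⟨0,[]⟩⟩,⟨false,0,⟨0,[]⟩,⟨3,
  [(15,0),(0,0),(10,1)]⟩⟩,⟨true,0,⟨0,[(25,0)]⟩,⟨0,[(24,0)]⟩⟩,[.e ⟨false,1,⟨11,[(0,8),(11,1),(3,0),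
  (5,3),(1,3)]⟩,⟨0,[(23,0),(1,1)]⟩⟩ ⟨false,1,⟨1,[(0,0),(25,0)]⟩,⟨7,[(14,3),(0,0),(0,0),(2,1),(5,
  7)]⟩⟩,.o ⟨false,1,⟨7,[(6,2),(1,1),(6,0),(1,0),(1,1),(7,2)]⟩,⟨0,[(13,0)]⟩⟩,.o ⟨false,0,⟨7,[(14,3),
  (0,0),(0,0),(2,1)]⟩,⟨1,[(19,0),(6,0)]⟩⟩,.a ⟨true,(-1),⟨0,[(14,0)]⟩,⟨0,[(26,0)]⟩⟩ ⟨false,1,⟨0,[(0,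
  0)]⟩,⟨1,[(14,1),(4,0),(5,3),(1,0)]⟩⟩ ⟨true,1,⟨1,[(0,0),(25,0)]⟩,⟨0,[(13,0),(0,0)]⟩⟩]⟩) (.S ⟨1,0,
  [0,0,-1,-1],[1,-1],[1,1,1],(⟨0,[(20,0)]⟩,⟨0,[(21,0)]⟩),⟨0,[(1,0)]⟩,.k,(.x 1 ⟨0,[(0,0),(1,1),(0,1),
  (1,1)]⟩ ⟨3,[(1,3),(13,0),(0,0),(2,1),(6,3)]⟩),⟨true,(-1),⟨0,[(0,0),(23,0)]⟩,⟨1,[(2,1),(3,0),(10,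
  0)]⟩⟩,⟨false,1,⟨3,[(15,0),(0,0),(10,1)]⟩,⟨0,[]⟩⟩,⟨false,(-1),⟨0,[(0,0)]⟩,⟨1,[(6,1),(12,0),(6,1),
  (0,0)]⟩⟩,⟨true,0,⟨0,[(25,0)]⟩,⟨0,[(24,0)]⟩⟩,[.e ⟨false,0,⟨0,[(29,0)]⟩,⟨1,[(26,0),(0,0)]⟩⟩ ⟨false,
  1,⟨1,[(2,1),(3,0),(10,0)]⟩,⟨3,[(0,1),(14,0),(0,0)]⟩⟩,.o ⟨false,1,⟨7,[(6,2),(1,1),(6,0),(1,0),(1,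
  1),(7,2)]⟩,⟨0,[(13,0)]⟩⟩,.o ⟨false,0,⟨7,[(14,3),(0,0),(0,0),(2,1)]⟩,⟨1,[(19,0),(6,0)]⟩⟩,.a ⟨true,
  (-1),⟨0,[(14,0)]⟩,⟨0,[(26,0)]⟩⟩ ⟨false,0,⟨0,[]⟩,⟨3,[(15,0),(0,0),(10,1)]⟩⟩ ⟨true,1,⟨1,[(2,1),(3,
  0),(10,0)]⟩,⟨0,[(0,0),(23,0)]⟩⟩]⟩))))

def t2 : Tre :=
  (.Q [0,0,-2,1,1,0,0,-1] (.pp true [-1,1]) (.Q [0,0,0,0,0,2,0,-1] (.pp true [-1,1]) (.R ⟨0,false,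
  false,false,[1,-1],[0,1],[1,1,1],(⟨0,[(16,0)]⟩,⟨0,[(17,0)]⟩),(⟨0,[(17,0)]⟩,⟨0,[(16,0)]⟩),⟨0,[(0,
  0)]⟩,.k,.k,(.x 1 ⟨0,[(0,0),(9,0)]⟩ ⟨0,[(15,0),(0,1),(5,0)]⟩),(.x 1 ⟨0,[(0,0),(9,0)]⟩ ⟨0,[(15,0),
  (0,1),(5,0)]⟩),.k,.k,⟨true,0,⟨0,[(20,0)]⟩,⟨0,[(19,0),(1,0)]⟩⟩,⟨false,2,⟨1,[(15,0),(6,2)]⟩,⟨0,[(10,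
  0)]⟩⟩,⟨true,(-1),⟨0,[(9,0),(0,0)]⟩,⟨0,[(1,0),(0,0)]⟩⟩,⟨false,1,⟨1,[(15,0),(5,3),(1,0)]⟩,⟨0,[(2,
  0)]⟩⟩,⟨false,0,⟨0,[]⟩,⟨0,[]⟩⟩,⟨false,0,⟨0,[]⟩,⟨0,[]⟩⟩,[.e ⟨false,0,⟨0,[(25,0)]⟩,⟨1,[(22,0),(0,
  0)]⟩⟩ ⟨false,1,⟨0,[(1,0)]⟩,⟨3,[(2,1),(7,1),(0,0),(0,0)]⟩⟩,.o ⟨false,1,⟨1,[(15,0),(5,1),(1,0)]⟩,⟨0,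
  [(20,0)]⟩⟩,.o ⟨false,0,⟨7,[(10,3),(0,0),(0,0),(2,1)]⟩,⟨1,[(15,0),(6,0)]⟩⟩,.a ⟨true,(-1),⟨0,[(10,
  0)]⟩,⟨0,[(22,0)]⟩⟩ ⟨false,0,⟨0,[]⟩,⟨3,[(11,0),(0,0),(10,1)]⟩⟩ ⟨true,1,⟨0,[(1,0)]⟩,⟨0,[(10,0),(9,
  0)]⟩⟩]⟩) (.I [1,0,-2,-2,1] t0 (.R ⟨1,true,false,false,[1,-1],[0,1],[0,1,1],(⟨0,[(17,0)]⟩,⟨0,[(18,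
  0)]⟩),(⟨0,[(18,0)]⟩,⟨0,[(17,0)]⟩),⟨0,[(1,0)]⟩,.k,.k,(.r (-2) ⟨2,[(3,1),(5,1),(3,0),(2,0),(6,1)]⟩
  ⟨0,[(0,0)]⟩),(.r (-2) ⟨2,[(3,1),(5,1),(3,0),(2,0),(6,1)]⟩ ⟨0,[(0,0)]⟩),(.r (-2) ⟨1,[(2,1),(0,3),
  (12,0),(6,0)]⟩ ⟨3,[(0,5),(11,0),(0,0)]⟩),.k,⟨true,0,⟨0,[(21,0)]⟩,⟨1,[(0,0),(23,0)]⟩⟩,⟨false,2,⟨1,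
  [(16,0),(6,2)]⟩,⟨0,[(11,0)]⟩⟩,⟨true,(-1),⟨0,[(10,0),(0,0)]⟩,⟨0,[(2,0),(0,0)]⟩⟩,⟨false,1,⟨5,[(0,3),
  (1,3),(9,0),(0,0),(2,0),(7,2)]⟩,⟨0,[(3,0)]⟩⟩,⟨false,(-1),⟨0,[(0,0)]⟩,⟨1,[(3,1),(12,0),(6,1),(0,
  0)]⟩⟩,⟨true,0,⟨0,[(0,0),(1,0)]⟩,⟨0,[(3,0),(17,0)]⟩⟩,[]⟩))) (.Q [0,1,0,0,-1,0,-1,1,-1] (.p false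
  [0,0,1] [1] (⟨0,[(13,0)]⟩,⟨1,[(9,0),(2,0),(8,0)]⟩) .k 1 (⟨0,[]⟩,⟨0,[]⟩) .k .k) (.Q [0,1,0,-1,-1,0,
  -1,1,-1] (.p false [0,0,1] [1] (⟨0,[(14,0)]⟩,⟨1,[(10,0),(2,0),(8,0)]⟩) .k 1 (⟨0,[]⟩,⟨0,[]⟩) .k
  .k) (.Q [0,0,1,0,0,0,0,-1,1] (.p true [0,0,1] [1] (⟨0,[(15,0)]⟩,⟨1,[(11,0),(2,0),(8,0)]⟩) .k 1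
  (⟨0,[]⟩,⟨0,[]⟩) .k .k) (.I [0,0,-1,-1,1,0,1] (.K ⟨0,[1,0,-1],0,(-1),(⟨1,[(13,0),(2,0),(8,0)]⟩,⟨0,
  [(17,0)]⟩),.k,(.x 0 ⟨3,[(10,1),(3,0),(0,0)]⟩ ⟨1,[(18,0),(0,1),(5,0)]⟩),(.r 0 ⟨4,[(1,0),(4,0),(5,
  0),(0,1),(0,1),(9,3)]⟩ ⟨0,[(0,0)]⟩),.k,.k,[⟨0,[(1,0)]⟩,⟨3,[(13,1),(0,0),(0,0),(0,1)]⟩,⟨7,[(1,3),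
  (12,0),(0,4),(1,3),(0,1),(2,3)]⟩,⟨0,[(3,0)]⟩]⟩) (.K ⟨0,[1,0,-1],0,(-1),(⟨1,[(13,0),(2,0),(8,0)]⟩,
  ⟨0,[(17,0)]⟩),.k,(.r (-1) ⟨0,[(11,0)]⟩ ⟨0,[(0,0),(14,0)]⟩),(.x (-1) ⟨1,[(18,0),(0,1),(5,0)]⟩ ⟨3,
  [(10,1),(3,0),(0,0)]⟩),.k,.k,[⟨0,[(1,0)]⟩,⟨3,[(13,1),(0,0),(0,0),(0,1)]⟩,⟨7,[(1,3),(12,0),(0,4),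
  (1,3),(0,1),(2,3)]⟩,⟨0,[(3,0)]⟩]⟩)) (.R ⟨0,false,false,false,[0,0,1],[0,1],[0,1,1],(⟨0,[(16,0)]⟩,
  ⟨7,[(0,3),(11,1),(0,0),(0,0),(0,1)]⟩),(⟨0,[(19,0)]⟩,⟨0,[(18,0)]⟩),⟨1,[(0,1),(8,0),(7,0)]⟩,.k,.k,
  (.x 0 ⟨3,[(9,1),(3,0),(0,0)]⟩ ⟨1,[(17,0),(0,1),(5,0)]⟩),(.x 0 ⟨3,[(9,1),(3,0),(0,0)]⟩ ⟨1,[(17,0),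
  (0,1),(5,0)]⟩),.k,.k,⟨true,0,⟨0,[(22,0)]⟩,⟨0,[(21,0),(1,0)]⟩⟩,⟨false,1,⟨1,[(0,1),(16,0),(6,0)]⟩,
  ⟨7,[(12,3),(0,0),(0,0),(1,7),(0,1)]⟩⟩,⟨true,(-1),⟨1,[(1,0),(1,0),(3,0),(3,1),(4,0)]⟩,⟨1,[(14,0),
  (9,0)]⟩⟩,⟨false,0,⟨0,[(5,0),(17,0)]⟩,⟨0,[(6,0),(20,0)]⟩⟩,⟨false,0,⟨0,[]⟩,⟨0,[]⟩⟩,⟨false,0,⟨0,[]⟩,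
  ⟨0,[]⟩⟩,[.a ⟨true,0,⟨0,[(23,0)]⟩,⟨13,[(0,4),(3,5),(1,1),(5,2),(0,0),(2,2),(3,0)]⟩⟩ ⟨false,0,⟨0,
  [(27,0)]⟩,⟨1,[(24,0),(0,0)]⟩⟩ ⟨true,0,⟨0,[(0,0),(10,0),(9,0)]⟩,⟨6,[(3,3),(2,0),(3,0),(5,5),(0,1),
  (4,0)]⟩⟩,.o ⟨false,1,⟨1,[(17,0),(5,1),(1,0)]⟩,⟨0,[(22,0)]⟩⟩,.a ⟨true,0,⟨0,[(16,0)]⟩,⟨7,[(0,3),(11,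
  1),(0,0),(0,0),(0,1)]⟩⟩ ⟨false,0,⟨7,[(12,3),(0,0),(0,0),(2,1)]⟩,⟨1,[(24,0),(0,0)]⟩⟩ ⟨true,0,⟨0,
  [(0,0),(10,0),(9,0)]⟩,⟨0,[(16,0),(5,0)]⟩⟩,.a ⟨true,0,⟨7,[(12,3),(0,0),(0,0),(1,7),(0,1)]⟩,⟨0,[(0,
  0)]⟩⟩ ⟨true,0,⟨0,[(27,0)]⟩,⟨0,[]⟩⟩ ⟨false,1,⟨1,[(0,1),(16,0),(5,1),(1,0)]⟩,⟨6,[(3,3),(2,0),(3,0),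
  (5,5),(0,1),(4,0)]⟩⟩]⟩)) (.I [1,0,2,2,-1] (.R ⟨2,true,false,true,[0,1],[1,0,-1],[0,1,1,1],(⟨0,[]⟩,
  ⟨0,[]⟩),(⟨1,[(12,0),(2,0),(8,0)]⟩,⟨0,[(16,0)]⟩),⟨0,[]⟩,.k,.k,.k,(.r 0 ⟨1,[(0,0),(13,0)]⟩ ⟨0,[(10,
  0)]⟩),.k,.k,⟨true,0,⟨1,[(0,0),(13,0)]⟩,⟨0,[(7,0),(14,0)]⟩⟩,⟨false,0,⟨1,[(12,0),(2,0),(8,0)]⟩,⟨1,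
  [(16,1),(0,0),(6,0)]⟩⟩,⟨true,0,⟨0,[(27,0)]⟩,⟨0,[]⟩⟩,⟨false,0,⟨3,[(2,0),(1,1),(0,0),(7,0),(1,0)]⟩,
  ⟨0,[(1,0)]⟩⟩,⟨false,0,⟨0,[(23,0)]⟩,⟨7,[(4,2),(1,1),(6,0),(1,0),(1,1),(7,2)]⟩⟩,⟨true,(-1),⟨0,[(2,
  0)]⟩,⟨0,[(1,0),(20,0)]⟩⟩,[]⟩) (.Q [0,0,1,0,0,0,0,-1,1] (.p true [0,0,1] [1] (⟨0,[(16,0)]⟩,⟨1,[(12,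
  0),(2,0),(8,0)]⟩) .k 1 (⟨0,[]⟩,⟨0,[]⟩) .k .k) (.K ⟨0,[1,0,-1],0,(-1),(⟨1,[(13,0),(2,0),(8,0)]⟩,⟨0,
  [(17,0)]⟩),.k,(.x 0 ⟨3,[(10,1),(3,0),(0,0)]⟩ ⟨1,[(18,0),(0,1),(5,0)]⟩),(.r 0 ⟨9,[(2,0),(3,0),(1,
  1),(3,3),(0,4),(0,3),(9,4)]⟩ ⟨1,[(1,0),(13,0)]⟩),.k,.k,[⟨0,[(0,0)]⟩,⟨3,[(13,1),(0,0),(0,0),(0,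
  1)]⟩,⟨23,[(0,15),(1,3),(4,3),(6,2),(0,10),(2,1),(2,15)]⟩,⟨0,[(3,0)]⟩]⟩) (.R ⟨2,true,false,true,[0,
  1],[1,0,-1],[0,1,1,1],(⟨0,[]⟩,⟨0,[]⟩),(⟨7,[(0,3),(12,1),(0,0),(0,0),(0,1)]⟩,⟨0,[(17,0)]⟩),⟨0,[]⟩,
  .k,.k,.k,(.r 0 ⟨0,[(0,0),(1,0),(1,0),(7,0)]⟩ ⟨0,[(11,0)]⟩),.k,.k,⟨true,0,⟨0,[(0,0),(1,0),(1,0),(7,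
  0)]⟩,⟨0,[(8,0),(14,0)]⟩⟩,⟨false,0,⟨7,[(0,3),(12,1),(0,0),(0,0),(0,1)]⟩,⟨1,[(17,1),(0,0),(6,0)]⟩⟩,
  ⟨true,0,⟨0,[(28,0)]⟩,⟨0,[]⟩⟩,⟨false,0,⟨3,[(3,0),(1,1),(0,0),(7,0),(1,0)]⟩,⟨0,[(2,0)]⟩⟩,⟨false,0,
  ⟨0,[(24,0)]⟩,⟨7,[(5,2),(1,1),(6,0),(1,0),(1,1),(7,2)]⟩⟩,⟨true,(-1),⟨0,[(3,0)]⟩,⟨0,[(2,0),(20,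
  0)]⟩⟩,[]⟩)))) (.Q [0,0,0,0,0,1,0,0,-1] (.ed true [1,-1,1] .k) t1 (.I [0,0,1,1,0,0,1] (.R ⟨1,false,
  false,true,[0,0,1],[1,-1],[0,1,0,0,0,0,1],(⟨0,[(16,0)]⟩,⟨1,[(12,0),(2,0),(8,0)]⟩),(⟨0,[(18,0)]⟩,
  ⟨0,[(19,0)]⟩),⟨0,[(1,0)]⟩,.k,.k,(.x 0 ⟨3,[(9,1),(3,0),(0,0)]⟩ ⟨1,[(17,0),(0,1),(5,0)]⟩),(.r 0 ⟨0,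
  [(0,0)]⟩ ⟨0,[(10,0)]⟩),.k,.k,⟨true,0,⟨0,[(0,0)]⟩,⟨0,[(7,0),(14,0)]⟩⟩,⟨false,0,⟨1,[(12,0),(2,0),(8,
  0)]⟩,⟨1,[(16,1),(0,0),(6,0)]⟩⟩,⟨true,0,⟨0,[(27,0)]⟩,⟨0,[]⟩⟩,⟨false,0,⟨9,[(4,4),(2,5),(0,1),(3,0),
  (0,0),(1,3),(4,1)]⟩,⟨0,[(2,0),(20,0)]⟩⟩,⟨false,0,⟨0,[(23,0)]⟩,⟨7,[(4,2),(1,1),(6,0),(1,0),(1,1),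
  (7,2)]⟩⟩,⟨false,0,⟨5,[(7,3),(4,2),(0,0),(1,2),(4,1),(3,1)]⟩,⟨0,[(2,0)]⟩⟩,[.o ⟨false,0,⟨0,[(22,
  0)]⟩,⟨1,[(17,0),(5,1),(1,0)]⟩⟩,.a ⟨true,0,⟨1,[(4,0),(7,0),(11,0)]⟩,⟨0,[(23,0)]⟩⟩ ⟨false,1,⟨1,[(14,
  0),(9,0)]⟩,⟨6,[(3,0),(3,4),(3,0),(1,0),(6,1)]⟩⟩ ⟨true,0,⟨1,[(4,0),(10,0)]⟩,⟨17,[(1,9),(0,7),(4,5),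
  (1,4),(1,13),(0,3),(0,0),(9,3)]⟩⟩,.e ⟨false,1,⟨3,[(13,0),(0,2)]⟩,⟨0,[(7,0)]⟩⟩ ⟨false,0,⟨1,[(4,0),
  (10,0)]⟩,⟨4,[(2,3),(4,1),(3,0),(1,0),(2,0),(6,3)]⟩⟩,.o ⟨false,0,⟨1,[(1,1),(7,0),(7,0)]⟩,⟨7,[(13,
  0),(0,0),(0,3),(1,1),(6,3)]⟩⟩]⟩) (.S ⟨1,0,[0,0,-1,-1],[1,-1],[1,1,-1,-2],(⟨0,[(18,0)]⟩,⟨0,[(19,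
  0)]⟩),⟨0,[(1,1),(13,0)]⟩,.k,(.r (-1) ⟨0,[(0,1),(13,0)]⟩ ⟨3,[(12,3),(0,0),(0,0),(2,1),(5,7)]⟩),
  ⟨true,0,⟨0,[(22,0)]⟩,⟨0,[(23,0)]⟩⟩,⟨false,1,⟨3,[(13,0),(0,0),(10,1)]⟩,⟨0,[]⟩⟩,⟨false,0,⟨0,[]⟩,⟨3,
  [(13,0),(0,0),(10,1)]⟩⟩,⟨true,0,⟨0,[(23,0)]⟩,⟨0,[(22,0)]⟩⟩,[.e ⟨false,1,⟨1,[(0,1),(13,0),(7,1),(1,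
  0)]⟩,⟨0,[(21,0),(1,1)]⟩⟩ ⟨false,1,⟨1,[(0,1),(13,0),(9,0)]⟩,⟨7,[(12,3),(0,0),(0,0),(2,1),(5,7)]⟩⟩,
  .o ⟨false,1,⟨7,[(4,2),(1,1),(6,0),(1,0),(1,1),(7,2)]⟩,⟨0,[(11,0)]⟩⟩,.o ⟨false,0,⟨7,[(12,3),(0,0),
  (0,0),(2,1)]⟩,⟨1,[(17,0),(6,0)]⟩⟩,.a ⟨true,(-1),⟨0,[(12,0)]⟩,⟨0,[(24,0)]⟩⟩ ⟨false,1,⟨0,[(0,1),(13,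
  0)]⟩,⟨1,[(12,1),(4,0),(5,3),(1,0)]⟩⟩ ⟨true,1,⟨1,[(0,1),(13,0),(9,0)]⟩,⟨0,[(11,0),(0,0)]⟩⟩]⟩)))))

def t3 : Tre :=
  (.I [0,1,1,0,-1,0,1] (.Q [0,0,0,0,0,-2,0,1] (.pp false [-1,1]) (.I [0,0,-2,-1,1] (.S ⟨1,0,[0,0,-1,
  -1],[1,-1],[0,1,-1,-1],(⟨0,[(18,0)]⟩,⟨0,[(19,0)]⟩),⟨0,[(1,0)]⟩,.k,(.x 1 ⟨0,[(3,0)]⟩ ⟨3,[(1,3),(11,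
  0),(0,0),(2,1),(6,3)]⟩),⟨true,0,⟨0,[(27,0)]⟩,⟨0,[]⟩⟩,⟨false,1,⟨3,[(13,0),(0,0),(10,1)]⟩,⟨0,[]⟩⟩,
  ⟨false,0,⟨0,[(23,0)]⟩,⟨0,[(22,0),(2,0)]⟩⟩,⟨true,0,⟨0,[(23,0)]⟩,⟨0,[(22,0)]⟩⟩,[.e ⟨false,1,⟨8,[(0,
  5),(9,1),(3,0),(5,3),(1,0)]⟩,⟨0,[(21,0),(1,0)]⟩⟩ ⟨false,1,⟨0,[(0,0)]⟩,⟨7,[(12,3),(0,0),(0,0),(2,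
  1),(5,7)]⟩⟩,.o ⟨false,1,⟨0,[(22,0),(2,0)]⟩,⟨0,[(11,0)]⟩⟩,.o ⟨false,0,⟨7,[(12,3),(0,0),(0,0),(2,
  1)]⟩,⟨1,[(17,0),(6,0)]⟩⟩,.a ⟨true,(-1),⟨0,[(12,0)]⟩,⟨0,[(24,0)]⟩⟩ ⟨false,1,⟨0,[(0,0)]⟩,⟨1,[(12,1),
  (4,0),(5,1),(1,0)]⟩⟩ ⟨true,1,⟨0,[(0,0)]⟩,⟨0,[(11,0),(0,0)]⟩⟩]⟩) (.S ⟨1,0,[0,1,-1,-1],[1,-1],[0,0,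
  -1,-1],(⟨0,[(18,0)]⟩,⟨0,[(19,0)]⟩),⟨0,[(1,0)]⟩,.k,(.x 1 ⟨0,[(3,0)]⟩ ⟨3,[(1,3),(11,0),(0,0),(2,1),
  (6,3)]⟩),⟨false,1,⟨3,[(13,0),(0,0),(10,1)]⟩,⟨0,[]⟩⟩,⟨true,0,⟨0,[(27,0)]⟩,⟨0,[]⟩⟩,⟨true,0,⟨0,[(23,
  0)]⟩,⟨0,[(22,0)]⟩⟩,⟨false,0,⟨0,[(23,0)]⟩,⟨0,[(22,0),(2,0)]⟩⟩,[.o ⟨false,0,⟨0,[(22,0)]⟩,⟨1,[(17,0),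
  (5,1),(1,0)]⟩⟩,.e ⟨true,1,⟨5,[(5,1),(0,1),(3,3),(4,1),(8,0),(0,0)]⟩,⟨0,[(0,0),(26,0)]⟩⟩ ⟨true,1,
  ⟨17,[(5,3),(4,9),(3,2),(0,1),(1,0),(4,3),(1,3)]⟩,⟨0,[(0,0)]⟩⟩,.o ⟨false,0,⟨7,[(12,3),(0,0),(0,0),
  (2,1)]⟩,⟨1,[(17,0),(6,0)]⟩⟩,.a ⟨true,(-1),⟨0,[(12,0)]⟩,⟨0,[(24,0)]⟩⟩ ⟨false,2,⟨13,[(5,3),(4,9),(3,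
  2),(0,1),(1,0),(6,8),(0,4)]⟩,⟨0,[(0,0)]⟩⟩ ⟨true,1,⟨0,[(22,0),(1,0)]⟩,⟨0,[(0,0)]⟩⟩]⟩)) (.Q [0,0,0,
  1,0,0,0,-1,1] (.p true [0,0,1] [1] (⟨0,[(15,0)]⟩,⟨1,[(11,0),(2,0),(8,0)]⟩) .k 1 (⟨0,[]⟩,⟨0,[]⟩)
  .k .k) (.Q [0,0,0,-1,0,0,0,1] (.pp false [-1,1]) (.R ⟨2,true,false,true,[0,1],[1,-1],[1,0,1],(⟨0,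
  []⟩,⟨0,[]⟩),(⟨0,[(19,0)]⟩,⟨0,[(20,0)]⟩),⟨0,[]⟩,.k,.k,.k,(.x (-2) ⟨0,[(18,0),(0,1),(5,0)]⟩ ⟨0,[(4,
  0)]⟩),.k,.k,⟨false,0,⟨0,[(22,0),(1,0)]⟩,⟨0,[(23,0),(1,0)]⟩⟩,⟨true,(-1),⟨0,[(13,0)]⟩,⟨1,[(18,0),(6,
  0)]⟩⟩,⟨false,1,⟨0,[(23,0),(2,0)]⟩,⟨0,[(24,0)]⟩⟩,⟨true,0,⟨0,[(0,0),(22,0)]⟩,⟨0,[(1,1),(14,0)]⟩⟩,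
  ⟨true,0,⟨0,[]⟩,⟨0,[(28,0)]⟩⟩,⟨false,0,⟨0,[(0,0)]⟩,⟨1,[(18,0),(5,1),(1,0)]⟩⟩,[]⟩) (.Q [0,1,0,-2,0,
  0,0,1] (.pp false [-1,1]) (.R ⟨0,false,false,false,[1,-1],[0,1],[0,0,2,1],(⟨0,[(20,0)]⟩,⟨0,[(21,
  0)]⟩),(⟨0,[(21,0)]⟩,⟨0,[(20,0)]⟩),⟨0,[(3,0)]⟩,.k,.k,(.x 1 ⟨0,[(5,0)]⟩ ⟨0,[(19,0),(0,1),(5,0)]⟩),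
  (.x 1 ⟨0,[(5,0)]⟩ ⟨0,[(19,0),(0,1),(5,0)]⟩),.k,.k,⟨true,0,⟨7,[(14,3),(0,0),(0,0),(2,1)]⟩,⟨0,[]⟩⟩,
  ⟨false,2,⟨1,[(19,0),(6,2)]⟩,⟨0,[(14,0)]⟩⟩,⟨false,(-1),⟨1,[(1,2),(12,2),(10,0),(1,0)]⟩,⟨5,[(7,3),
  (4,3),(4,1),(1,0),(4,3),(1,6)]⟩⟩,⟨true,0,⟨0,[(1,0),(23,0)]⟩,⟨0,[(0,0)]⟩⟩,⟨false,0,⟨0,[]⟩,⟨0,[]⟩⟩,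
  ⟨false,0,⟨0,[]⟩,⟨0,[]⟩⟩,[.o ⟨false,0,⟨0,[(1,0)]⟩,⟨3,[(0,1),(14,0),(0,0),(2,0),(7,0)]⟩⟩,.o ⟨false,
  1,⟨1,[(19,0),(5,1),(1,0)]⟩,⟨0,[(24,0)]⟩⟩,.o ⟨false,0,⟨7,[(14,3),(0,0),(0,0),(2,1)]⟩,⟨1,[(19,0),(6,
  0)]⟩⟩,.a ⟨true,(-1),⟨0,[(14,0)]⟩,⟨0,[(26,0)]⟩⟩ ⟨false,0,⟨1,[(1,0),(12,0),(10,0),(1,0)]⟩,⟨21,[(0,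
  3),(6,3),(4,9),(3,2),(0,1),(1,2),(6,5)]⟩⟩ ⟨true,1,⟨0,[(1,0),(24,0)]⟩,⟨0,[(14,0),(9,0)]⟩⟩]⟩) (.R
  ⟨0,false,false,true,[1,-1],[0,0,1],[1,1,0,0,0,0,1],(⟨0,[(20,0)]⟩,⟨0,[(21,0)]⟩),(⟨0,[(18,0)]⟩,⟨1,
  [(14,0),(2,0),(8,0)]⟩),⟨0,[(3,0)]⟩,.k,.k,(.x 1 ⟨0,[(5,0)]⟩ ⟨0,[(19,0),(0,1),(5,0)]⟩),(.r (-1) ⟨0,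
  [(12,0)]⟩ ⟨3,[(0,0),(12,0),(0,1),(1,1),(8,0)]⟩),.k,.k,⟨true,0,⟨0,[]⟩,⟨7,[(14,3),(0,0),(0,0),(2,
  1)]⟩⟩,⟨false,1,⟨0,[(0,0),(6,0),(4,0),(9,0)]⟩,⟨3,[(14,1),(0,0),(0,0),(0,1)]⟩⟩,⟨true,(-1),⟨0,[(4,0),
  (20,0)]⟩,⟨0,[(12,0)]⟩⟩,⟨false,0,⟨4,[(0,0),(1,2),(1,0),(3,0),(1,0),(5,0),(5,0)]⟩,⟨6,[(6,3),(0,2),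
  (4,3),(1,1),(1,0),(0,0)]⟩⟩,⟨false,0,⟨0,[]⟩,⟨0,[]⟩⟩,⟨false,0,⟨0,[]⟩,⟨0,[]⟩⟩,[.o ⟨false,0,⟨5,[(4,0),
  (3,2),(0,2),(6,0),(5,3)]⟩,⟨3,[(6,1),(12,0),(7,0)]⟩⟩,.o ⟨false,0,⟨11,[(4,0),(3,8),(0,2),(6,0),(5,
  3)]⟩,⟨7,[(15,4),(0,0),(0,3),(1,1)]⟩⟩,.o ⟨false,0,⟨7,[(14,3),(0,0),(0,0),(2,1)]⟩,⟨1,[(19,0),(6,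
  0)]⟩⟩,.a ⟨true,(-1),⟨0,[(14,0)]⟩,⟨0,[(26,0)]⟩⟩ ⟨true,0,⟨0,[(4,0),(21,0)]⟩,⟨0,[(1,0),(10,0),(1,
  0)]⟩⟩ ⟨false,1,⟨9,[(2,1),(4,1),(0,5),(7,0),(2,0),(2,3),(3,7)]⟩,⟨3,[(6,1),(7,3),(4,0),(7,
  0)]⟩⟩]⟩))) (.Q [0,0,-2,0,1,0,0,-1,1] (.p true [0,0,1] [1] (⟨0,[(16,0)]⟩,⟨1,[(12,0),(2,0),(8,0)]⟩)
  .k 1 (⟨0,[]⟩,⟨0,[]⟩) .k .k) (.R ⟨0,false,false,false,[1,-1],[0,0,1],[0,1,1],(⟨0,[(19,0)]⟩,⟨0,[(20,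
  0)]⟩),(⟨0,[(17,0)]⟩,⟨1,[(13,0),(2,0),(8,0)]⟩),⟨0,[(2,0)]⟩,.k,.k,(.x 1 ⟨0,[(4,0)]⟩ ⟨0,[(18,0),(0,
  1),(5,0)]⟩),(.r (-1) ⟨0,[(11,0)]⟩ ⟨4,[(3,0),(8,0),(0,0),(1,1),(6,1),(1,3)]⟩),.k,.k,⟨true,0,⟨0,[(3,
  0),(10,0)]⟩,⟨1,[(7,0),(1,0),(6,0)]⟩⟩,⟨false,1,⟨0,[(0,0)]⟩,⟨3,[(13,1),(0,0),(0,0),(0,1)]⟩⟩,⟨true,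
  (-1),⟨0,[(12,0),(0,0)]⟩,⟨0,[(0,0),(0,0)]⟩⟩,⟨false,0,⟨0,[(7,0),(16,0)]⟩,⟨3,[(1,3),(12,2),(0,0)]⟩⟩,
  ⟨false,0,⟨0,[]⟩,⟨0,[]⟩⟩,⟨false,0,⟨0,[]⟩,⟨0,[]⟩⟩,[.o ⟨false,0,⟨11,[(3,0),(3,8),(0,2),(6,0),(5,3)]⟩,
  ⟨7,[(14,4),(0,0),(0,3),(1,1)]⟩⟩,.o ⟨false,0,⟨0,[(7,0)]⟩,⟨7,[(14,4),(0,0),(0,3),(1,1),(9,7)]⟩⟩,.o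
  ⟨false,0,⟨7,[(13,3),(0,0),(0,0),(2,1)]⟩,⟨1,[(18,0),(6,0)]⟩⟩,.a ⟨true,(-1),⟨0,[(13,0)]⟩,⟨0,[(25,
  0)]⟩⟩ ⟨true,0,⟨0,[(28,0)]⟩,⟨0,[]⟩⟩ ⟨false,1,⟨0,[(7,0),(17,0)]⟩,⟨7,[(13,7),(0,4),(0,0),(0,3),(1,
  1)]⟩⟩]⟩) (.I [1,0,2,1,-1] (.R ⟨0,false,false,true,[1,-1],[0,0,1],[1,0,1],(⟨0,[(20,0)]⟩,⟨0,[(21,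
  0)]⟩),(⟨0,[(18,0)]⟩,⟨1,[(14,0),(2,0),(8,0)]⟩),⟨0,[(3,0)]⟩,.k,.k,(.x 1 ⟨0,[(5,0)]⟩ ⟨0,[(19,0),(0,
  1),(5,0)]⟩),(.r (-1) ⟨0,[(12,0)]⟩ ⟨1,[(0,0),(15,0),(8,0)]⟩),.k,.k,⟨false,1,⟨1,[(15,0),(11,0)]⟩,⟨0,
  [(4,0),(21,0)]⟩⟩,⟨true,1,⟨0,[(9,0),(16,0)]⟩,⟨0,[(1,0)]⟩⟩,⟨true,(-1),⟨0,[(0,0)]⟩,⟨0,[(24,0),(1,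
  0)]⟩⟩,⟨false,0,⟨0,[(10,0),(2,0)]⟩,⟨1,[(2,1),(12,0),(11,0)]⟩⟩,⟨false,0,⟨0,[]⟩,⟨0,[]⟩⟩,⟨false,0,⟨0,
  []⟩,⟨0,[]⟩⟩,[.o ⟨false,0,⟨5,[(4,0),(3,2),(0,2),(6,0),(5,3)]⟩,⟨3,[(6,1),(12,0),(7,0)]⟩⟩,.o ⟨false,
  0,⟨11,[(4,0),(3,8),(0,2),(6,0),(5,3)]⟩,⟨7,[(15,4),(0,0),(0,3),(1,1)]⟩⟩,.o ⟨false,0,⟨7,[(14,3),(0,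
  0),(0,0),(2,1)]⟩,⟨1,[(19,0),(6,0)]⟩⟩,.a ⟨true,(-1),⟨0,[(14,0)]⟩,⟨0,[(26,0)]⟩⟩ ⟨true,0,⟨0,[]⟩,⟨0,
  [(29,0)]⟩⟩ ⟨false,1,⟨9,[(8,7),(0,1),(6,0),(5,3),(3,8)]⟩,⟨3,[(6,1),(7,3),(4,0),(7,0)]⟩⟩]⟩) (.R ⟨0,
  false,false,true,[1,-1],[0,0,1],[1,0,-1,-1],(⟨0,[(20,0)]⟩,⟨0,[(21,0)]⟩),(⟨0,[(18,0)]⟩,⟨1,[(14,0),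
  (2,0),(8,0)]⟩),⟨0,[(3,0)]⟩,.k,.k,(.x 1 ⟨0,[(5,0)]⟩ ⟨0,[(19,0),(0,1),(5,0)]⟩),(.r (-1) ⟨0,[(12,
  0)]⟩ ⟨11,[(1,1),(6,1),(4,1),(0,3),(1,4),(2,0),(5,9)]⟩),.k,.k,⟨false,2,⟨1,[(12,1),(13,0),(0,0)]⟩,
  ⟨0,[(4,0),(20,0)]⟩⟩,⟨true,1,⟨0,[(9,0),(16,0)]⟩,⟨0,[(1,0)]⟩⟩,⟨true,0,⟨0,[]⟩,⟨0,[(29,0)]⟩⟩,⟨false,0,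
  ⟨0,[(10,0),(2,0)]⟩,⟨1,[(2,1),(12,0),(11,0)]⟩⟩,⟨false,0,⟨0,[]⟩,⟨0,[]⟩⟩,⟨false,0,⟨0,[]⟩,⟨0,[]⟩⟩,[.o
  ⟨false,0,⟨5,[(4,0),(3,2),(0,2),(6,0),(5,3)]⟩,⟨3,[(6,1),(12,0),(7,0)]⟩⟩,.o ⟨false,0,⟨11,[(4,0),(3,
  8),(0,2),(6,0),(5,3)]⟩,⟨7,[(15,4),(0,0),(0,3),(1,1)]⟩⟩,.o ⟨false,0,⟨7,[(14,3),(0,0),(0,0),(2,1)]⟩,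
  ⟨1,[(19,0),(6,0)]⟩⟩,.a ⟨true,(-1),⟨0,[(14,0)]⟩,⟨0,[(26,0)]⟩⟩ ⟨true,1,⟨0,[(0,0)]⟩,⟨0,[(13,0),(0,
  0)]⟩⟩ ⟨false,1,⟨9,[(8,7),(0,1),(6,0),(5,3),(3,8)]⟩,⟨3,[(6,1),(7,3),(4,0),(7,0)]⟩⟩]⟩))))) (.Q [0,0,
  0,-2,0,0,0,1] (.pp false [-1,1]) (.Q [0,0,0,0,0,2,0,-1] (.pp true [-1,1]) (.R ⟨0,false,false,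
  false,[1,-1],[0,0,1],[0,1,1],(⟨0,[(18,0)]⟩,⟨0,[(19,0)]⟩),(⟨0,[(16,0)]⟩,⟨1,[(12,0),(2,0),(8,0)]⟩),
  ⟨0,[(0,0)]⟩,.k,.k,(.x 1 ⟨0,[(3,0)]⟩ ⟨0,[(17,0),(0,1),(5,0)]⟩),(.r (-1) ⟨0,[(10,0)]⟩ ⟨11,[(6,1),(4,
  3),(0,4),(1,4),(0,0),(5,1),(1,7)]⟩),.k,.k,⟨true,0,⟨1,[(11,0),(0,0),(0,0),(8,0)]⟩,⟨1,[(6,0),(1,0),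
  (6,0)]⟩⟩,⟨false,1,⟨0,[(2,0),(3,0),(13,0)]⟩,⟨3,[(12,1),(0,0),(0,0),(0,1)]⟩⟩,⟨true,(-1),⟨0,[(11,0),
  (0,0)]⟩,⟨1,[(1,0),(0,1),(3,1),(8,0),(4,1)]⟩⟩,⟨false,0,⟨0,[(6,0),(16,0)]⟩,⟨23,[(1,9),(2,11),(7,1),
  (0,6),(0,6),(5,3),(1,3)]⟩⟩,⟨false,0,⟨0,[]⟩,⟨0,[]⟩⟩,⟨false,0,⟨0,[]⟩,⟨0,[]⟩⟩,[.o ⟨false,0,⟨11,[(6,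
  9),(0,1),(3,0),(0,0),(1,0),(5,3),(1,0)]⟩,⟨7,[(13,4),(0,0),(0,3),(1,1)]⟩⟩,.o ⟨false,0,⟨0,[(6,0)]⟩,
  ⟨7,[(13,4),(0,0),(0,3),(1,1),(9,7)]⟩⟩,.o ⟨false,0,⟨7,[(12,3),(0,0),(0,0),(2,1)]⟩,⟨1,[(17,0),(6,
  0)]⟩⟩,.a ⟨true,(-1),⟨0,[(12,0)]⟩,⟨0,[(24,0)]⟩⟩ ⟨true,0,⟨0,[(27,0)]⟩,⟨0,[]⟩⟩ ⟨false,1,⟨0,[(6,0),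
  (17,0)]⟩,⟨7,[(12,7),(0,4),(0,0),(0,3),(1,1)]⟩⟩]⟩) (.S ⟨1,0,[0,0,-1,-1],[1,-1],[0,1,-1,-1],(⟨0,
  [(18,0)]⟩,⟨0,[(19,0)]⟩),⟨0,[(0,0)]⟩,.k,(.x 1 ⟨0,[(3,0)]⟩ ⟨3,[(0,3),(12,0),(0,0),(2,1),(6,3)]⟩),
  ⟨true,0,⟨0,[(27,0)]⟩,⟨0,[]⟩⟩,⟨false,1,⟨3,[(13,0),(0,0),(10,1)]⟩,⟨0,[]⟩⟩,⟨false,0,⟨0,[(23,0)]⟩,⟨7,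
  [(1,3),(11,0),(0,0),(2,1),(7,3)]⟩⟩,⟨true,0,⟨0,[(23,0)]⟩,⟨0,[(22,0)]⟩⟩,[.e ⟨false,1,⟨0,[(22,0),(1,
  0)]⟩,⟨0,[(21,0),(1,0)]⟩⟩ ⟨false,1,⟨1,[(1,0),(0,1),(3,1),(8,0),(4,1)]⟩,⟨7,[(12,3),(0,0),(0,0),(2,
  1),(5,7)]⟩⟩,.o ⟨false,1,⟨7,[(1,3),(11,0),(0,0),(2,1),(7,3)]⟩,⟨0,[(11,0)]⟩⟩,.o ⟨false,0,⟨7,[(12,3),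
  (0,0),(0,0),(2,1)]⟩,⟨1,[(17,0),(6,0)]⟩⟩,.a ⟨true,(-1),⟨0,[(12,0)]⟩,⟨0,[(24,0)]⟩⟩ ⟨false,1,⟨1,[(1,
  0),(0,1),(3,1),(8,0),(4,1)]⟩,⟨1,[(12,1),(4,0),(5,1),(1,0)]⟩⟩ ⟨true,1,⟨1,[(1,0),(0,1),(3,1),(8,0),
  (4,1)]⟩,⟨0,[(11,0),(0,0)]⟩⟩]⟩)) (.Q [0,0,0,0,0,1,0,-1,1] (.ed false [0,1,1] .k) (.R ⟨0,false,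
  false,true,[1,0,-1],[1,-1],[0,1,0,0,0,0,-1],(⟨1,[(12,0),(2,0),(8,0)]⟩,⟨0,[(16,0)]⟩),(⟨0,[(18,0)]⟩,
  ⟨0,[(19,0)]⟩),⟨0,[(0,0)]⟩,.k,.k,(.r (-1) ⟨0,[(10,0)]⟩ ⟨1,[(1,0),(10,0),(1,0)]⟩),(.r 0 ⟨1,[(1,0),
  (10,0),(0,0)]⟩ ⟨8,[(5,3),(4,0),(3,2),(0,1),(1,0),(4,3),(1,3)]⟩),.k,.k,⟨true,0,⟨1,[(1,0),(10,0),(0,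
  0)]⟩,⟨15,[(5,5),(0,7),(5,0),(1,0),(0,6),(4,1),(1,9)]⟩⟩,⟨false,0,⟨0,[(16,0)]⟩,⟨27,[(4,3),(9,3),(0,
  9),(1,6),(2,1),(3,12)]⟩⟩,⟨true,0,⟨0,[(27,0)]⟩,⟨0,[]⟩⟩,⟨false,0,⟨9,[(5,7),(1,0),(4,0),(1,0),(1,0),
  (3,2),(1,1)]⟩,⟨7,[(1,3),(2,3),(8,0),(0,0),(10,1)]⟩⟩,⟨false,0,⟨0,[]⟩,⟨0,[]⟩⟩,⟨false,0,⟨0,[]⟩,⟨0,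
  []⟩⟩,[.o ⟨false,0,⟨0,[(22,0)]⟩,⟨7,[(1,3),(11,0),(0,0),(2,1),(7,3)]⟩⟩,.e ⟨false,1,⟨1,[(13,0),(10,
  0)]⟩,⟨5,[(6,2),(1,0),(3,0),(1,0),(0,1),(4,1)]⟩⟩ ⟨false,1,⟨13,[(5,3),(4,9),(3,2),(1,9),(3,1),(3,
  0)]⟩,⟨1,[(1,0),(13,0)]⟩⟩,.a ⟨true,0,⟨1,[(12,0),(2,0),(8,0)]⟩,⟨0,[(16,0)]⟩⟩ ⟨false,1,⟨3,[(13,2),(0,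
  0)]⟩,⟨1,[(6,0),(1,0),(6,0)]⟩⟩ ⟨true,0,⟨0,[(16,0),(5,0)]⟩,⟨1,[(1,0),(13,0)]⟩⟩,.o ⟨false,0,⟨1,[(12,
  0),(2,0),(1,0)]⟩,⟨0,[(7,0),(16,0)]⟩⟩]⟩) (.R ⟨1,false,false,true,[1,0,-1],[1,-1],[0,1,0,0,0,0,-1],
  (⟨1,[(12,0),(2,0),(8,0)]⟩,⟨0,[(16,0)]⟩),(⟨0,[(18,0)]⟩,⟨0,[(19,0)]⟩),⟨0,[(0,0)]⟩,.k,.k,(.r (-1) ⟨0,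
  [(10,0)]⟩ ⟨1,[(1,0),(10,0),(1,0)]⟩),(.r 0 ⟨1,[(1,0),(10,0),(0,0)]⟩ ⟨8,[(5,3),(4,0),(3,2),(0,1),(1,
  0),(4,3),(1,3)]⟩),.k,.k,⟨true,0,⟨1,[(1,0),(10,0),(0,0)]⟩,⟨15,[(5,5),(0,7),(5,0),(1,0),(0,6),(4,1),
  (1,9)]⟩⟩,⟨false,0,⟨0,[(16,0)]⟩,⟨27,[(4,3),(9,3),(0,9),(1,6),(2,1),(3,12)]⟩⟩,⟨true,0,⟨0,[(27,0)]⟩,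
  ⟨0,[]⟩⟩,⟨false,0,⟨9,[(5,7),(1,0),(4,0),(1,0),(1,0),(3,2),(1,1)]⟩,⟨7,[(1,3),(2,3),(8,0),(0,0),(10,
  1)]⟩⟩,⟨false,0,⟨0,[(23,0)]⟩,⟨0,[(22,0),(2,0)]⟩⟩,⟨false,0,⟨7,[(7,0),(0,5),(3,0),(1,0),(1,0),(3,
  2)]⟩,⟨3,[(4,1),(12,0),(7,0)]⟩⟩,[.o ⟨false,0,⟨0,[(22,0)]⟩,⟨7,[(1,3),(11,0),(0,0),(2,1),(7,3)]⟩⟩,.e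
  ⟨false,1,⟨1,[(13,0),(10,0)]⟩,⟨5,[(6,2),(1,0),(3,0),(1,0),(0,1),(4,1)]⟩⟩ ⟨false,1,⟨13,[(5,3),(4,9),
  (3,2),(1,9),(3,1),(3,0)]⟩,⟨1,[(1,0),(13,0)]⟩⟩,.a ⟨true,0,⟨1,[(12,0),(2,0),(8,0)]⟩,⟨0,[(16,0)]⟩⟩
  ⟨false,1,⟨3,[(13,2),(0,0)]⟩,⟨1,[(6,0),(1,0),(6,0)]⟩⟩ ⟨true,0,⟨0,[(16,0),(5,0)]⟩,⟨1,[(1,0),(13,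
  0)]⟩⟩,.o ⟨false,0,⟨1,[(12,0),(2,0),(1,0)]⟩,⟨0,[(7,0),(16,0)]⟩⟩]⟩))))

def t4 : Tre :=
  (.Q [0,1,0,0,-1,0,2,-1,2] (.p true [0,0,1] [1,0,-1] (⟨0,[(11,0)]⟩,⟨1,[(7,0),(2,0),(8,0)]⟩) .k 2
  (⟨1,[(7,0),(2,0),(8,0)]⟩,⟨0,[(11,0)]⟩) .k .k) (.Q [0,0,0,0,0,1,0,0,-1] (.ed true [1,-1,1] .k) (.R
  ⟨0,false,false,false,[0,0,1],[1,0,-1],[0,1],(⟨0,[(13,0)]⟩,⟨1,[(9,0),(2,0),(8,0)]⟩),(⟨1,[(9,0),(2,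
  0),(8,0)]⟩,⟨0,[(13,0)]⟩),⟨0,[(0,0)]⟩,.k,.k,(.x 0 ⟨3,[(6,1),(3,0),(0,0)]⟩ ⟨1,[(14,0),(0,1),(5,
  0)]⟩),.k,.k,.k,⟨false,0,⟨13,[(1,5),(9,0),(0,5),(4,3),(3,4)]⟩,⟨1,[(10,0),(11,0)]⟩⟩,⟨true,0,⟨0,[(12,
  0)]⟩,⟨0,[(4,0),(8,0)]⟩⟩,⟨false,1,⟨3,[(10,2),(0,0)]⟩,⟨1,[(3,0),(1,0),(6,0)]⟩⟩,⟨true,1,⟨0,[(10,0),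
  (1,0)]⟩,⟨0,[(1,0)]⟩⟩,⟨false,0,⟨0,[]⟩,⟨0,[]⟩⟩,⟨false,0,⟨0,[]⟩,⟨0,[]⟩⟩,[.o ⟨false,1,⟨7,[(10,4),(0,
  0),(0,3),(1,1)]⟩,⟨2,[(1,0),(3,0),(8,0)]⟩⟩,.o ⟨false,1,⟨0,[(3,0),(6,0),(1,0)]⟩,⟨5,[(1,1),(2,1),(6,
  0),(2,0),(2,1)]⟩⟩,.a ⟨true,0,⟨0,[(13,0)]⟩,⟨1,[(9,0),(2,0),(8,0)]⟩⟩ ⟨true,0,⟨0,[(24,0)]⟩,⟨0,[]⟩⟩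
  ⟨false,1,⟨1,[(10,0),(1,1),(9,0)]⟩,⟨2,[(1,0),(2,1),(0,0),(7,0),(7,0)]⟩⟩,.o ⟨false,0,⟨0,[(4,0)]⟩,⟨7,
  [(10,0),(0,0),(0,3),(1,1),(6,3)]⟩⟩]⟩) (.Q [0,0,0,-2,0,0,0,1] (.pp false [-1,1]) (.Q [0,0,-2,0,1,0,
  0,-1,1] (.p true [0,0,1] [1] (⟨0,[(14,0)]⟩,⟨1,[(10,0),(2,0),(8,0)]⟩) .k 1 (⟨0,[]⟩,⟨0,[]⟩) .k .k)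
  (.R ⟨1,false,false,true,[1,0,-1],[0,1],[0,1,0,0,0,0,-1],(⟨1,[(11,0),(2,0),(8,0)]⟩,⟨0,[(15,0)]⟩),
  (⟨0,[(18,0)]⟩,⟨0,[(17,0)]⟩),⟨0,[(2,0),(11,0)]⟩,.k,.k,(.r (-1) ⟨0,[(9,0)]⟩ ⟨11,[(5,1),(4,3),(0,4),
  (1,4),(0,0),(5,1),(1,7)]⟩),(.r (-1) ⟨0,[(9,0)]⟩ ⟨11,[(5,1),(4,3),(0,4),(1,4),(0,0),(5,1),(1,7)]⟩),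
  (.r (-2) ⟨5,[(1,1),(7,7),(3,0),(2,0),(6,1)]⟩ ⟨13,[(3,0),(1,9),(4,8),(0,13),(1,0),(0,5),(7,18)]⟩),
  .k,⟨true,1,⟨0,[(9,0)]⟩,⟨13,[(3,0),(1,9),(4,8),(0,13),(1,0),(0,5),(7,4)]⟩⟩,⟨false,1,⟨0,[(0,0)]⟩,⟨3,
  [(11,1),(0,0),(0,0),(0,1)]⟩⟩,⟨true,0,⟨0,[(26,0)]⟩,⟨0,[]⟩⟩,⟨false,0,⟨25,[(0,1),(2,4),(1,9),(0,3),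
  (3,4),(2,2),(8,20)]⟩,⟨1,[(1,0),(10,0),(1,0),(9,0)]⟩⟩,⟨false,0,⟨0,[(22,0)]⟩,⟨7,[(1,3),(10,0),(0,0),
  (2,1),(7,3)]⟩⟩,⟨false,0,⟨25,[(0,1),(2,4),(1,9),(0,3),(3,4),(2,2),(8,46)]⟩,⟨1,[(1,0),(7,1),(4,0),
  (5,1)]⟩⟩,[.o ⟨false,0,⟨0,[(10,0)]⟩,⟨7,[(1,3),(10,0),(0,0),(2,1),(7,3)]⟩⟩,.e ⟨false,1,⟨1,[(12,0),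
  (10,0)]⟩,⟨9,[(3,1),(1,0),(1,0),(5,1),(0,2)]⟩⟩ ⟨false,1,⟨5,[(0,3),(5,1),(5,0),(0,0),(8,5)]⟩,⟨1,[(1,
  0),(12,0)]⟩⟩,.a ⟨true,0,⟨1,[(11,0),(2,0),(8,0)]⟩,⟨0,[(15,0)]⟩⟩ ⟨false,1,⟨3,[(12,2),(0,0)]⟩,⟨1,[(5,
  0),(1,0),(6,0)]⟩⟩ ⟨true,0,⟨1,[(3,0),(6,0),(1,0),(9,0)]⟩,⟨1,[(1,0),(12,0)]⟩⟩,.o ⟨false,0,⟨1,[(11,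
  0),(2,0),(1,0)]⟩,⟨5,[(0,3),(5,1),(5,0),(0,0)]⟩⟩]⟩) (.I [0,0,1,2,-1,0,1] (.R ⟨1,false,false,true,
  [1,0,-1],[0,1],[0,1,1,1],(⟨1,[(12,0),(2,0),(8,0)]⟩,⟨0,[(16,0)]⟩),(⟨0,[(19,0)]⟩,⟨0,[(18,0)]⟩),⟨0,
  [(3,0),(11,0)]⟩,.k,.k,(.r (-1) ⟨0,[(10,0)]⟩ ⟨15,[(0,7),(11,3),(0,2),(0,6),(2,1)]⟩),(.r (-1) ⟨0,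
  [(10,0)]⟩ ⟨15,[(0,7),(11,3),(0,2),(0,6),(2,1)]⟩),(.r (-2) ⟨5,[(2,1),(7,7),(3,0),(2,0),(6,1)]⟩ ⟨7,
  [(0,7),(11,3),(0,0),(0,0),(2,1)]⟩),.k,⟨false,1,⟨3,[(13,0),(0,0),(9,1)]⟩,⟨0,[]⟩⟩,⟨true,1,⟨0,[(7,0),
  (16,0)]⟩,⟨0,[(1,0)]⟩⟩,⟨true,(-1),⟨58,[(0,22),(0,25),(2,13),(6,12),(2,3),(0,0),(4,15)]⟩,⟨0,[(10,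
  0)]⟩⟩,⟨false,0,⟨5,[(0,2),(3,0),(2,2),(0,0),(8,0),(6,2)]⟩,⟨1,[(2,0),(10,0),(1,0),(9,0)]⟩⟩,⟨false,
  (-1),⟨0,[(0,0)]⟩,⟨7,[(2,3),(7,7),(2,0),(0,0),(2,1),(7,3)]⟩⟩,⟨false,0,⟨0,[(0,0),(6,0),(16,0)]⟩,⟨1,
  [(2,0),(7,1),(4,0),(5,1)]⟩⟩,[.o ⟨false,0,⟨0,[(11,0)]⟩,⟨7,[(2,3),(10,0),(0,0),(2,1),(7,3)]⟩⟩,.e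
  ⟨false,0,⟨0,[(23,0)]⟩,⟨5,[(2,1),(7,1),(3,0),(2,0),(6,1)]⟩⟩ ⟨false,1,⟨3,[(0,1),(6,3),(5,0),(10,
  4)]⟩,⟨1,[(2,0),(12,0)]⟩⟩,.a ⟨true,0,⟨1,[(12,0),(2,0),(8,0)]⟩,⟨0,[(16,0)]⟩⟩ ⟨false,0,⟨15,[(0,7),
  (11,3),(0,6),(0,2),(2,1)]⟩,⟨5,[(5,1),(0,1),(3,3),(4,1),(8,0),(0,0)]⟩⟩ ⟨true,0,⟨7,[(0,1),(3,3),(6,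
  3),(1,4),(10,0)]⟩,⟨1,[(2,0),(12,0)]⟩⟩,.o ⟨false,0,⟨15,[(1,7),(11,0),(0,0),(0,3),(1,5)]⟩,⟨0,[(7,0),
  (16,0)]⟩⟩]⟩) (.I [0,0,-2,-2,1] (.S ⟨1,0,[0,0,-1,-1],[1,-1],[1,1,-1,-2],(⟨0,[(19,0)]⟩,⟨0,[(20,
  0)]⟩),⟨0,[(4,1),(11,0)]⟩,.k,(.r (-1) ⟨0,[(0,0)]⟩ ⟨3,[(13,3),(0,0),(0,0),(2,1),(5,7)]⟩),⟨true,0,⟨0,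
  [(23,0)]⟩,⟨0,[(24,0)]⟩⟩,⟨false,1,⟨3,[(14,0),(0,0),(10,1)]⟩,⟨0,[]⟩⟩,⟨false,0,⟨0,[]⟩,⟨3,[(14,0),(0,
  0),(10,1)]⟩⟩,⟨true,0,⟨0,[(24,0)]⟩,⟨0,[(23,0)]⟩⟩,[.e ⟨false,1,⟨9,[(0,6),(0,1),(13,0),(5,3),(1,1)]⟩,
  ⟨0,[(22,0),(1,1)]⟩⟩ ⟨false,1,⟨1,[(0,0),(24,0)]⟩,⟨7,[(13,3),(0,0),(0,0),(2,1),(5,7)]⟩⟩,.o ⟨false,1,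
  ⟨7,[(3,3),(10,0),(0,0),(2,1),(7,3)]⟩,⟨0,[(12,0)]⟩⟩,.o ⟨false,0,⟨7,[(13,3),(0,0),(0,0),(2,1)]⟩,⟨1,
  [(18,0),(6,0)]⟩⟩,.a ⟨true,(-1),⟨0,[(13,0)]⟩,⟨0,[(25,0)]⟩⟩ ⟨false,1,⟨0,[(0,0)]⟩,⟨1,[(13,1),(4,0),
  (5,3),(1,0)]⟩⟩ ⟨true,1,⟨1,[(0,0),(24,0)]⟩,⟨0,[(12,0),(0,0)]⟩⟩]⟩) (.Q [0,0,0,-1,0,0,0,0,1] (.p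
  true [0,0,1] [] (⟨0,[(17,0)]⟩,⟨1,[(13,0),(2,0),(8,0)]⟩) .k 0 (⟨0,[]⟩,⟨0,[]⟩) .k .k) (.R ⟨1,false,
  false,true,[1,0,-1],[1,-1],[0,1,0,0,0,0,-1],(⟨1,[(14,0),(2,0),(8,0)]⟩,⟨0,[(18,0)]⟩),(⟨0,[(20,0)]⟩,
  ⟨0,[(21,0)]⟩),⟨0,[(5,0),(11,0)]⟩,.k,.k,(.r (-1) ⟨0,[(12,0)]⟩ ⟨1,[(1,0),(14,0)]⟩),(.r 0 ⟨1,[(1,0),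
  (13,0)]⟩ ⟨43,[(2,17),(3,7),(0,7),(8,18),(0,11),(1,1),(6,12)]⟩),.k,.k,⟨true,0,⟨1,[(1,0),(13,0)]⟩,
  ⟨19,[(4,6),(1,5),(0,5),(8,0),(0,8),(1,4)]⟩⟩,⟨false,0,⟨0,[(18,0)]⟩,⟨7,[(15,0),(0,0),(0,3),(1,1),(6,
  3)]⟩⟩,⟨true,0,⟨0,[(29,0)]⟩,⟨0,[]⟩⟩,⟨false,0,⟨4,[(0,1),(3,0),(1,0),(0,0),(8,0)]⟩,⟨0,[(8,0),(6,0),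
  (1,0),(7,0)]⟩⟩,⟨false,0,⟨0,[(25,0)]⟩,⟨7,[(4,3),(10,0),(0,0),(2,1),(7,3)]⟩⟩,⟨false,0,⟨10,[(6,0),(3,
  4),(3,0),(1,1),(1,3),(3,1)]⟩,⟨0,[(8,0),(6,0),(1,0)]⟩⟩,[.o ⟨false,0,⟨0,[(24,0)]⟩,⟨1,[(19,0),(5,1),
  (1,0)]⟩⟩,.a ⟨true,0,⟨1,[(4,0),(9,0),(11,0)]⟩,⟨0,[(25,0)]⟩⟩ ⟨false,1,⟨1,[(15,0),(10,0)]⟩,⟨9,[(6,1),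
  (1,0),(1,0),(5,1),(0,2)]⟩⟩ ⟨true,0,⟨0,[(0,0)]⟩,⟨7,[(1,3),(13,0),(0,0),(0,3),(1,1)]⟩⟩,.e ⟨false,1,
  ⟨3,[(15,2),(0,0)]⟩,⟨1,[(8,0),(1,0),(6,0)]⟩⟩ ⟨false,0,⟨0,[(0,0)]⟩,⟨7,[(15,0),(0,0),(0,3),(1,1),(5,
  7),(1,3)]⟩⟩,.o ⟨false,0,⟨15,[(3,7),(11,0),(0,0),(0,3),(1,5)]⟩,⟨0,[(9,0),(16,0)]⟩⟩]⟩) (.R ⟨1,false,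
  false,true,[1,0,-1],[1,-1],[0,1,0,0,0,0,-1],(⟨1,[(14,0),(2,0),(8,0)]⟩,⟨0,[(18,0)]⟩),(⟨0,[(20,0)]⟩,
  ⟨0,[(21,0)]⟩),⟨0,[(5,0),(11,0)]⟩,.k,.k,(.r (-1) ⟨0,[(12,0)]⟩ ⟨1,[(1,0),(14,0)]⟩),(.r 0 ⟨1,[(1,0),
  (13,0)]⟩ ⟨43,[(2,17),(3,7),(0,7),(8,18),(0,11),(1,1),(6,12)]⟩),.k,.k,⟨true,0,⟨1,[(1,0),(13,0)]⟩,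
  ⟨19,[(4,6),(1,5),(0,5),(8,0),(0,8),(1,4)]⟩⟩,⟨false,0,⟨0,[(18,0)]⟩,⟨7,[(15,0),(0,0),(0,3),(1,1),(6,
  3)]⟩⟩,⟨true,0,⟨0,[(29,0)]⟩,⟨0,[]⟩⟩,⟨false,0,⟨28,[(2,1),(1,8),(1,6),(0,6),(1,1),(6,4),(1,5)]⟩,⟨1,
  [(0,1),(14,0),(11,0)]⟩⟩,⟨false,0,⟨0,[(25,0)]⟩,⟨7,[(4,3),(10,0),(0,0),(2,1),(7,3)]⟩⟩,⟨false,0,⟨10,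
  [(6,0),(3,4),(3,0),(1,1),(1,3),(3,1)]⟩,⟨3,[(0,3),(1,1),(12,0),(7,1),(3,0)]⟩⟩,[.o ⟨false,0,⟨0,[(24,
  0)]⟩,⟨1,[(19,0),(5,1),(1,0)]⟩⟩,.e ⟨false,1,⟨1,[(15,0),(10,0)]⟩,⟨9,[(6,1),(1,0),(1,0),(5,1),(0,
  2)]⟩⟩ ⟨false,1,⟨3,[(2,1),(13,0),(1,3),(7,0)]⟩,⟨0,[(0,0)]⟩⟩,.a ⟨true,0,⟨1,[(14,0),(2,0),(8,0)]⟩,⟨0,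
  [(18,0)]⟩⟩ ⟨false,1,⟨3,[(15,2),(0,0)]⟩,⟨1,[(8,0),(1,0),(6,0)]⟩⟩ ⟨true,0,⟨27,[(4,13),(1,11),(2,3),
  (4,1),(0,12),(0,0),(5,7)]⟩,⟨0,[(0,0)]⟩⟩,.o ⟨false,0,⟨15,[(3,7),(11,0),(0,0),(0,3),(1,5)]⟩,⟨0,[(9,
  0),(16,0)]⟩⟩]⟩))))) (.R ⟨1,false,false,true,[1,0,-1],[1,-1],[0,1,0,0,0,0,-1],(⟨1,[(10,0),(2,0),(8,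
  0)]⟩,⟨0,[(14,0)]⟩),(⟨0,[(16,0)]⟩,⟨0,[(17,0)]⟩),⟨0,[(1,0),(11,0)]⟩,.k,.k,(.r (-1) ⟨0,[(8,0)]⟩ ⟨1,
  [(0,0),(9,0),(1,0)]⟩),(.r 0 ⟨1,[(0,0),(9,0),(0,0)]⟩ ⟨8,[(3,3),(4,0),(3,2),(0,1),(1,0),(4,3),(1,
  3)]⟩),.k,.k,⟨true,0,⟨1,[(0,0),(9,0),(0,0)]⟩,⟨33,[(2,5),(0,19),(8,0),(0,15),(1,4),(4,13)]⟩⟩,⟨false,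
  0,⟨0,[(14,0)]⟩,⟨7,[(11,0),(0,0),(0,3),(1,1),(6,3)]⟩⟩,⟨true,0,⟨0,[(25,0)]⟩,⟨0,[]⟩⟩,⟨false,0,⟨16,
  [(2,0),(0,10),(6,0),(1,1),(1,3),(3,1),(1,5)]⟩,⟨1,[(0,0),(10,0),(1,0),(9,0)]⟩⟩,⟨false,0,⟨0,[(21,
  0)]⟩,⟨0,[(20,0),(2,0)]⟩⟩,⟨false,0,⟨10,[(2,0),(3,4),(3,0),(1,1),(1,3),(3,1)]⟩,⟨1,[(0,0),(7,1),(4,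
  0),(5,1)]⟩⟩,[.o ⟨false,0,⟨0,[(20,0)]⟩,⟨7,[(0,3),(10,0),(0,0),(2,1),(7,3)]⟩⟩,.e ⟨false,1,⟨1,[(11,
  0),(10,0)]⟩,⟨9,[(2,1),(1,0),(1,0),(5,1),(0,2)]⟩⟩ ⟨false,1,⟨13,[(3,3),(4,9),(3,2),(1,9),(3,1),(3,
  0)]⟩,⟨1,[(0,0),(12,0)]⟩⟩,.a ⟨true,0,⟨1,[(10,0),(2,0),(8,0)]⟩,⟨0,[(14,0)]⟩⟩ ⟨false,1,⟨3,[(11,2),(0,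
  0)]⟩,⟨1,[(4,0),(1,0),(6,0)]⟩⟩ ⟨true,0,⟨0,[(14,0),(5,0)]⟩,⟨1,[(0,0),(12,0)]⟩⟩,.o ⟨false,0,⟨1,[(10,
  0),(2,0),(1,0)]⟩,⟨0,[(5,0),(16,0)]⟩⟩]⟩))) (.I [0,0,2,0,-1,2] t3 (.Q [0,1,0,1,-1,0,2,-1,2] (.p
  true [0,0,1] [1,0,-1] (⟨0,[(13,0)]⟩,⟨1,[(9,0),(2,0),(8,0)]⟩) .k 2 (⟨1,[(9,0),(2,0),(8,0)]⟩,⟨0,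
  [(13,0)]⟩) .k .k) (.R ⟨1,true,false,true,[1,0,-1],[0,0,1],[0,1,0,0,0,0,-1],(⟨1,[(10,0),(2,0),(8,
  0)]⟩,⟨0,[(14,0)]⟩),(⟨0,[(14,0)]⟩,⟨1,[(10,0),(2,0),(8,0)]⟩),⟨1,[(1,0),(8,0),(2,0)]⟩,.k,.k,(.r (-1)
  ⟨0,[(8,0)]⟩ ⟨9,[(0,0),(8,2),(0,2),(1,3),(0,0),(5,3),(1,5)]⟩),.k,(.r (-2) ⟨3,[(8,3),(2,2),(0,0)]⟩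
  ⟨0,[(0,0),(12,0),(5,0)]⟩),.k,⟨true,1,⟨0,[(11,0)]⟩,⟨1,[(0,0),(3,1),(5,0),(2,1),(6,0)]⟩⟩,⟨false,1,
  ⟨1,[(0,1),(7,1),(2,0),(11,0)]⟩,⟨0,[(13,0)]⟩⟩,⟨true,0,⟨0,[(25,0)]⟩,⟨0,[]⟩⟩,⟨false,0,⟨23,[(0,15),(2,
  9),(1,5),(2,5),(3,5),(2,0),(7,2)]⟩,⟨0,[(2,0)]⟩⟩,⟨false,0,⟨0,[(21,0)]⟩,⟨0,[(20,0),(2,0)]⟩⟩,⟨true,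
  (-1),⟨0,[(0,0)]⟩,⟨0,[(2,0),(17,0)]⟩⟩,[]⟩) (.I [1,0,2,2,-1] (.Q [0,0,0,1,0,0,0,0,-1] (.p false [0,
  0,1] [] (⟨0,[(15,0)]⟩,⟨1,[(11,0),(2,0),(8,0)]⟩) .k 0 (⟨0,[]⟩,⟨0,[]⟩) .k .k) (.R ⟨1,false,false,
  true,[1,0,-1],[1,-1],[0,1,0,0,0,0,-1],(⟨1,[(12,0),(2,0),(8,0)]⟩,⟨0,[(16,0)]⟩),(⟨0,[(18,0)]⟩,⟨0,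
  [(19,0)]⟩),⟨1,[(3,0),(8,0),(2,0)]⟩,.k,.k,(.r (-1) ⟨0,[(10,0)]⟩ ⟨1,[(1,0),(12,0)]⟩),(.r 0 ⟨1,[(1,
  0),(11,0)]⟩ ⟨8,[(5,3),(4,0),(3,2),(0,1),(1,0),(4,3),(1,3)]⟩),.k,.k,⟨true,0,⟨1,[(1,0),(11,0)]⟩,⟨15,
  [(5,5),(0,7),(5,0),(1,0),(0,6),(4,1),(1,9)]⟩⟩,⟨false,0,⟨0,[(16,0)]⟩,⟨27,[(4,3),(9,3),(0,9),(1,6),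
  (2,1),(3,12)]⟩⟩,⟨true,0,⟨0,[(27,0)]⟩,⟨0,[]⟩⟩,⟨false,0,⟨9,[(5,7),(1,0),(4,0),(1,0),(1,0),(3,2),(1,
  1)]⟩,⟨1,[(0,1),(12,0),(11,0)]⟩⟩,⟨false,0,⟨0,[(23,0)]⟩,⟨23,[(2,7),(2,9),(1,5),(2,5),(3,5),(2,0),(7,
  2)]⟩⟩,⟨false,0,⟨7,[(7,0),(0,5),(3,0),(1,0),(1,0),(3,2)]⟩,⟨3,[(4,1),(12,0),(7,0)]⟩⟩,[.o ⟨false,0,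
  ⟨0,[(22,0)]⟩,⟨1,[(17,0),(5,1),(1,0)]⟩⟩,.e ⟨false,1,⟨1,[(13,0),(10,0)]⟩,⟨5,[(6,2),(1,0),(3,0),(1,
  0),(0,1),(4,1)]⟩⟩ ⟨false,1,⟨13,[(5,3),(4,9),(3,2),(1,9),(3,1),(3,0)]⟩,⟨0,[(0,0)]⟩⟩,.a ⟨true,0,⟨1,
  [(12,0),(2,0),(8,0)]⟩,⟨0,[(16,0)]⟩⟩ ⟨false,1,⟨3,[(13,2),(0,0)]⟩,⟨1,[(6,0),(1,0),(6,0)]⟩⟩ ⟨true,0,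
  ⟨0,[(16,0),(5,0)]⟩,⟨0,[(0,0)]⟩⟩,.o ⟨false,0,⟨1,[(12,0),(2,0),(1,0)]⟩,⟨0,[(7,0),(16,0)]⟩⟩]⟩) (.R
  ⟨1,false,false,true,[1,0,-1],[1,-1],[0,1,0,0,0,0,-1],(⟨1,[(12,0),(2,0),(8,0)]⟩,⟨0,[(16,0)]⟩),(⟨0,
  [(18,0)]⟩,⟨0,[(19,0)]⟩),⟨1,[(3,0),(8,0),(2,0)]⟩,.k,.k,(.r (-1) ⟨0,[(10,0)]⟩ ⟨1,[(1,0),(12,0)]⟩),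
  (.r 0 ⟨1,[(1,0),(11,0)]⟩ ⟨8,[(5,3),(4,0),(3,2),(0,1),(1,0),(4,3),(1,3)]⟩),.k,.k,⟨true,0,⟨1,[(1,0),
  (11,0)]⟩,⟨15,[(5,5),(0,7),(5,0),(1,0),(0,6),(4,1),(1,9)]⟩⟩,⟨false,0,⟨0,[(16,0)]⟩,⟨27,[(4,3),(9,3),
  (0,9),(1,6),(2,1),(3,12)]⟩⟩,⟨true,0,⟨0,[(27,0)]⟩,⟨0,[]⟩⟩,⟨false,0,⟨8,[(0,0),(4,6),(1,0),(4,0),(1,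
  0),(5,2),(1,0)]⟩,⟨3,[(4,1),(12,0),(5,3),(1,0)]⟩⟩,⟨false,0,⟨0,[(23,0)]⟩,⟨23,[(2,7),(2,9),(1,5),(2,
  5),(3,5),(2,0),(7,2)]⟩⟩,⟨false,0,⟨7,[(7,0),(0,5),(3,0),(1,0),(1,0),(3,2)]⟩,⟨3,[(4,1),(12,0),(7,
  0)]⟩⟩,[.o ⟨false,0,⟨0,[(22,0)]⟩,⟨1,[(17,0),(5,1),(1,0)]⟩⟩,.a ⟨true,0,⟨1,[(0,1),(11,0),(2,0),(8,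
  0)]⟩,⟨0,[(23,0)]⟩⟩ ⟨false,1,⟨1,[(13,0),(10,0)]⟩,⟨5,[(6,2),(1,0),(3,0),(1,0),(0,1),(4,1)]⟩⟩ ⟨true,
  0,⟨0,[(0,0)]⟩,⟨7,[(1,3),(11,0),(0,0),(0,3),(1,1)]⟩⟩,.e ⟨false,1,⟨3,[(13,2),(0,0)]⟩,⟨1,[(6,0),(1,
  0),(6,0)]⟩⟩ ⟨false,0,⟨0,[(0,0)]⟩,⟨11,[(4,1),(9,1),(0,3),(1,2),(5,11),(1,4)]⟩⟩,.o ⟨false,0,⟨1,[(12,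
  0),(2,0),(1,0)]⟩,⟨0,[(7,0),(16,0)]⟩⟩]⟩)) (.S ⟨1,0,[0,0,-1,-1],[1,-1],[1,1,-1,-2],(⟨0,[(17,0)]⟩,⟨0,
  [(18,0)]⟩),⟨0,[(2,0),(8,0)]⟩,.k,(.r (-1) ⟨0,[(0,0)]⟩ ⟨3,[(11,3),(0,0),(0,0),(2,1),(5,7)]⟩),⟨true,
  0,⟨0,[(21,0)]⟩,⟨0,[(22,0)]⟩⟩,⟨false,1,⟨3,[(12,0),(0,0),(10,1)]⟩,⟨0,[]⟩⟩,⟨false,0,⟨0,[]⟩,⟨3,[(12,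
  0),(0,0),(10,1)]⟩⟩,⟨true,0,⟨0,[(22,0)]⟩,⟨0,[(21,0)]⟩⟩,[.e ⟨false,1,⟨11,[(0,8),(8,1),(3,0),(5,3),
  (1,3)]⟩,⟨0,[(20,0),(1,1)]⟩⟩ ⟨false,1,⟨1,[(0,0),(22,0)]⟩,⟨7,[(11,3),(0,0),(0,0),(2,1),(5,7)]⟩⟩,.o
  ⟨false,1,⟨23,[(1,7),(2,9),(1,5),(2,5),(3,5),(2,0),(7,2)]⟩,⟨0,[(10,0)]⟩⟩,.o ⟨false,0,⟨7,[(11,3),(0,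
  0),(0,0),(2,1)]⟩,⟨1,[(16,0),(6,0)]⟩⟩,.a ⟨true,(-1),⟨0,[(11,0)]⟩,⟨0,[(23,0)]⟩⟩ ⟨false,1,⟨0,[(0,
  0)]⟩,⟨1,[(11,1),(4,0),(5,3),(1,0)]⟩⟩ ⟨true,1,⟨1,[(0,0),(22,0)]⟩,⟨0,[(10,0),(0,0)]⟩⟩]⟩)))))

def t5 : Tre :=
  (.Q [0,1,0,0,0,0,-1,0,-1] (.p false [0,0,1] [] (⟨0,[(7,0)]⟩,⟨1,[(3,0),(2,0),(8,0)]⟩) .k 0 (⟨0,[]⟩,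
  ⟨0,[]⟩) .k .k) (.I [1,1,0,0,0,0,1] (.K ⟨0,[0,0,1],0,0,(⟨0,[(9,0)]⟩,⟨1,[(5,0),(2,0),(8,0)]⟩),.k,
  (.x 0 ⟨3,[(2,1),(3,0),(0,0)]⟩ ⟨1,[(10,0),(0,1),(5,0)]⟩),(.r 0 ⟨0,[(0,0),(13,0),(1,0)]⟩ ⟨0,[(3,
  0)]⟩),.k,.k,[⟨1,[(5,0),(2,0),(1,0)]⟩,⟨7,[(5,3),(0,0),(0,0),(1,7),(0,1)]⟩,⟨0,[(1,0)]⟩,⟨0,[(0,0),(8,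
  0)]⟩]⟩) (.Q [0,-1,0,-1,1,0,1,0,1] (.p true [0,0,1] [] (⟨0,[(9,0)]⟩,⟨1,[(5,0),(2,0),(8,0)]⟩) .k 0
  (⟨0,[]⟩,⟨0,[]⟩) .k .k) (.Q [0,-1,0,0,0,0,-1,0,-1] (.p false [0,0,1] [] (⟨0,[(10,0)]⟩,⟨1,[(6,0),(2,
  0),(8,0)]⟩) .k 0 (⟨0,[]⟩,⟨0,[]⟩) .k .k) (.Q [0,0,0,-2,0,0,0,1] (.pp false [-1,1]) t2 (.Q [0,0,0,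
  -1,0,0,0,1] (.pp false [-1,1]) (.R ⟨2,true,false,true,[0,1],[1,-1],[1,0,1],(⟨0,[]⟩,⟨0,[]⟩),(⟨0,
  [(15,0)]⟩,⟨0,[(16,0)]⟩),⟨0,[]⟩,.k,.k,.k,(.r 1 ⟨0,[(1,0),(7,0)]⟩ ⟨8,[(2,1),(0,5),(3,3),(4,1),(1,0),
  (4,7),(1,6)]⟩),.k,.k,⟨false,0,⟨1,[(1,0),(7,0),(12,0)]⟩,⟨0,[(19,0),(1,0)]⟩⟩,⟨true,(-1),⟨0,[(9,0)]⟩,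
  ⟨1,[(14,0),(6,0)]⟩⟩,⟨false,1,⟨5,[(2,1),(0,3),(3,1),(1,0),(2,0),(1,0)]⟩,⟨0,[(20,0)]⟩⟩,⟨true,0,⟨0,
  [(0,0),(18,0)]⟩,⟨0,[(1,0)]⟩⟩,⟨true,0,⟨0,[]⟩,⟨0,[(24,0)]⟩⟩,⟨false,0,⟨0,[(0,0)]⟩,⟨7,[(1,3),(8,0),(0,
  0),(2,1),(7,3)]⟩⟩,[]⟩) (.Q [0,0,0,0,0,-2,0,1] (.pp false [-1,1]) (.S ⟨1,0,[0,1,-1,-1],[1,-1],[1,0,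
  -1,-2],(⟨0,[(16,0)]⟩,⟨0,[(17,0)]⟩),⟨0,[(0,0)]⟩,.k,(.r (-2) ⟨8,[(3,1),(0,5),(3,3),(4,1),(1,0),(4,
  7),(1,6)]⟩ ⟨0,[(2,0),(7,0)]⟩),⟨false,1,⟨5,[(3,1),(0,3),(3,1),(1,0),(2,0),(1,0)]⟩,⟨0,[(21,0)]⟩⟩,
  ⟨true,0,⟨0,[(25,0)]⟩,⟨0,[]⟩⟩,⟨true,0,⟨0,[]⟩,⟨0,[(25,0)]⟩⟩,⟨false,0,⟨0,[(21,0)]⟩,⟨5,[(3,1),(0,3),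
  (3,1),(1,0),(2,0),(1,0)]⟩⟩,[.o ⟨false,0,⟨0,[(20,0)]⟩,⟨7,[(2,3),(8,0),(0,0),(2,1),(7,3)]⟩⟩,.o
  ⟨false,1,⟨15,[(4,7),(6,4),(0,0),(0,3),(1,1),(4,7)]⟩,⟨0,[(1,0)]⟩⟩,.o ⟨false,0,⟨7,[(10,3),(0,0),(0,
  0),(2,1)]⟩,⟨1,[(15,0),(6,0)]⟩⟩,.a ⟨true,(-1),⟨0,[(10,0)]⟩,⟨0,[(22,0)]⟩⟩ ⟨false,2,⟨0,[(3,0),(0,0),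
  (15,0),(1,0)]⟩,⟨0,[(2,0),(7,0)]⟩⟩ ⟨true,1,⟨0,[(20,0),(1,0)]⟩,⟨0,[(1,0),(8,0)]⟩⟩]⟩) (.Q [0,1,0,-2,
  0,0,0,1] (.pp false [-1,1]) (.R ⟨0,false,false,false,[1,-1],[0,1],[1],(⟨0,[(17,0)]⟩,⟨0,[(18,0)]⟩),
  (⟨0,[(18,0)]⟩,⟨0,[(17,0)]⟩),⟨0,[(1,0)]⟩,.k,.k,(.r (-2) ⟨12,[(0,7),(3,1),(0,5),(3,3),(4,1),(1,4),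
  (6,10)]⟩ ⟨0,[(3,0),(7,0)]⟩),(.r (-2) ⟨12,[(0,7),(3,1),(0,5),(3,3),(4,1),(1,4),(6,10)]⟩ ⟨0,[(3,0),
  (7,0)]⟩),.k,.k,⟨true,1,⟨25,[(0,7),(3,1),(0,5),(3,3),(4,1),(1,4),(6,10)]⟩,⟨0,[(2,0),(8,0)]⟩⟩,
  ⟨false,2,⟨1,[(16,0),(6,2)]⟩,⟨0,[(11,0)]⟩⟩,⟨false,0,⟨1,[(3,0),(7,0),(12,0)]⟩,⟨25,[(0,7),(3,1),(0,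
  5),(3,3),(4,1),(1,4),(6,10)]⟩⟩,⟨true,0,⟨0,[(3,0)]⟩,⟨0,[(0,0)]⟩⟩,⟨false,0,⟨0,[]⟩,⟨0,[]⟩⟩,⟨false,0,
  ⟨0,[]⟩,⟨0,[]⟩⟩,[.o ⟨false,0,⟨0,[(2,0)]⟩,⟨23,[(0,7),(4,7),(6,6),(0,2),(0,3),(1,5)]⟩⟩,.o ⟨false,1,
  ⟨7,[(3,3),(8,0),(0,0),(2,1),(7,3)]⟩,⟨0,[(21,0)]⟩⟩,.o ⟨false,0,⟨7,[(11,3),(0,0),(0,0),(2,1)]⟩,⟨1,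
  [(16,0),(6,0)]⟩⟩,.a ⟨true,(-1),⟨0,[(11,0)]⟩,⟨0,[(23,0)]⟩⟩ ⟨false,1,⟨1,[(23,0),(0,0)]⟩,⟨7,[(11,3),
  (0,0),(0,0),(2,1)]⟩⟩ ⟨true,1,⟨0,[(2,0),(20,0)]⟩,⟨0,[(11,0),(9,0)]⟩⟩]⟩) (.I [0,0,1,1,-1,0,-1] (.R
  ⟨0,false,false,true,[0,0,1],[1,-1],[0,1,0,0,0,0,1],(⟨0,[(16,0)]⟩,⟨1,[(12,0),(2,0),(8,0)]⟩),(⟨0,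
  [(18,0)]⟩,⟨0,[(19,0)]⟩),⟨1,[(2,0),(12,0)]⟩,.k,.k,(.r (-2) ⟨0,[(10,0),(3,0)]⟩ ⟨0,[(0,0)]⟩),(.r 0
  ⟨1,[(4,0),(7,0),(1,0)]⟩ ⟨0,[(10,0)]⟩),.k,.k,⟨true,0,⟨1,[(4,0),(7,0),(1,0)]⟩,⟨0,[(7,0),(14,0)]⟩⟩,
  ⟨false,0,⟨1,[(12,0),(2,0),(8,0)]⟩,⟨1,[(16,1),(0,0),(6,0)]⟩⟩,⟨true,0,⟨0,[(27,0)]⟩,⟨0,[]⟩⟩,⟨false,0,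
  ⟨1,[(7,1),(4,0),(2,0),(6,1),(1,0)]⟩,⟨0,[(4,0),(1,0)]⟩⟩,⟨false,0,⟨0,[]⟩,⟨0,[]⟩⟩,⟨false,0,⟨0,[]⟩,⟨0,
  []⟩⟩,[.o ⟨false,0,⟨0,[(22,0)]⟩,⟨7,[(4,3),(8,0),(0,0),(2,1),(7,3)]⟩⟩,.o ⟨false,1,⟨15,[(6,7),(6,4),
  (0,0),(0,3),(1,1),(4,7)]⟩,⟨0,[(3,0)]⟩⟩,.a ⟨true,0,⟨0,[(16,0)]⟩,⟨1,[(12,0),(2,0),(8,0)]⟩⟩ ⟨false,1,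
  ⟨3,[(13,0),(0,2)]⟩,⟨0,[(7,0)]⟩⟩ ⟨true,0,⟨1,[(12,0),(2,0),(6,1),(1,0)]⟩,⟨0,[(3,0),(12,0)]⟩⟩,.o
  ⟨false,0,⟨0,[(0,0),(2,0),(2,0),(15,0)]⟩,⟨7,[(13,0),(0,0),(0,3),(1,1),(6,3)]⟩⟩]⟩) (.R ⟨0,false,
  false,true,[0,0,1],[1,-1],[0,1,0,0,0,0,1],(⟨0,[(16,0)]⟩,⟨1,[(12,0),(2,0),(8,0)]⟩),(⟨0,[(18,0)]⟩,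
  ⟨0,[(19,0)]⟩),⟨1,[(2,0),(12,0)]⟩,.k,.k,(.x 0 ⟨3,[(9,1),(3,0),(0,0)]⟩ ⟨1,[(17,0),(0,1),(5,0)]⟩),
  (.r 0 ⟨1,[(4,0),(7,0),(1,0)]⟩ ⟨0,[(10,0)]⟩),.k,.k,⟨true,0,⟨1,[(4,0),(7,0),(1,0)]⟩,⟨0,[(7,0),(14,
  0)]⟩⟩,⟨false,0,⟨1,[(12,0),(2,0),(8,0)]⟩,⟨1,[(16,1),(0,0),(6,0)]⟩⟩,⟨true,0,⟨0,[(27,0)]⟩,⟨0,[]⟩⟩,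
  ⟨false,0,⟨1,[(7,1),(4,0),(2,0),(6,1),(1,0)]⟩,⟨0,[(4,0),(1,0)]⟩⟩,⟨false,0,⟨0,[]⟩,⟨0,[]⟩⟩,⟨false,0,
  ⟨0,[]⟩,⟨0,[]⟩⟩,[.o ⟨false,0,⟨0,[(22,0)]⟩,⟨7,[(4,3),(8,0),(0,0),(2,1),(7,3)]⟩⟩,.o ⟨false,1,⟨15,[(6,
  7),(6,4),(0,0),(0,3),(1,1),(4,7)]⟩,⟨0,[(3,0)]⟩⟩,.a ⟨true,0,⟨0,[(16,0)]⟩,⟨1,[(12,0),(2,0),(8,0)]⟩⟩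
  ⟨false,1,⟨3,[(13,0),(0,2)]⟩,⟨0,[(7,0)]⟩⟩ ⟨true,0,⟨1,[(12,0),(2,0),(6,1),(1,0)]⟩,⟨0,[(3,0),(12,
  0)]⟩⟩,.o ⟨false,0,⟨0,[(3,0),(12,0),(4,0),(0,0)]⟩,⟨7,[(13,0),(0,0),(0,3),(1,1),(6,3)]⟩⟩]⟩))))))
  (.I [0,0,1,1,0,0,1] (.K ⟨0,[0,0,1],0,0,(⟨0,[(12,0)]⟩,⟨1,[(8,0),(2,0),(8,0)]⟩),.k,(.x 0 ⟨3,[(5,1),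
  (3,0),(0,0)]⟩ ⟨1,[(13,0),(0,1),(5,0)]⟩),(.r 0 ⟨0,[(0,0)]⟩ ⟨0,[(6,0)]⟩),.k,.k,[⟨1,[(8,0),(2,0),(1,
  0)]⟩,⟨21,[(0,1),(0,1),(0,1),(5,9),(0,2),(2,17),(0,4)]⟩,⟨0,[(4,0)]⟩,⟨0,[(1,0)]⟩]⟩) (.K ⟨0,[0,0,1],
  0,0,(⟨0,[(12,0)]⟩,⟨1,[(8,0),(2,0),(8,0)]⟩),.k,(.r (-1) ⟨0,[(0,0),(9,0)]⟩ ⟨4,[(3,0),(3,1),(0,1),(0,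
  1),(7,0),(1,2)]⟩),(.x (-1) ⟨1,[(13,0),(0,1),(5,0)]⟩ ⟨3,[(5,1),(3,0),(0,0)]⟩),.k,.k,[⟨1,[(8,0),(2,
  0),(1,0)]⟩,⟨7,[(1,1),(6,3),(0,0),(2,5),(0,1),(7,0)]⟩,⟨0,[(4,0)]⟩,⟨0,[(1,0)]⟩]⟩))) (.R ⟨2,true,
  false,false,[0,1],[0,0,1],[0,0,1,1],(⟨0,[]⟩,⟨0,[]⟩),(⟨0,[(10,0)]⟩,⟨1,[(6,0),(2,0),(8,0)]⟩),⟨0,[]⟩,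
  .k,.k,.k,(.r 1 ⟨0,[(0,0),(9,0),(4,0)]⟩ ⟨0,[(4,0),(3,0)]⟩),.k,.k,⟨true,(-1),⟨0,[(0,0),(9,0),(4,
  0)]⟩,⟨1,[(8,0),(7,1),(2,0)]⟩⟩,⟨false,0,⟨0,[(10,0)]⟩,⟨7,[(7,0),(0,0),(0,3),(1,1),(6,3)]⟩⟩,⟨false,1,
  ⟨3,[(7,0),(0,0),(10,1)]⟩,⟨0,[]⟩⟩,⟨true,1,⟨1,[(8,0),(1,1),(5,1),(2,0)]⟩,⟨0,[(0,0)]⟩⟩,⟨true,0,⟨0,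
  [(17,0)]⟩,⟨0,[(16,0)]⟩⟩,⟨false,1,⟨1,[(8,0),(1,1),(8,0)]⟩,⟨6,[(0,0),(0,3),(0,1),(6,1),(1,0),(4,
  0)]⟩⟩,[]⟩))) (.Q [0,0,1,0,0,0,0,-1,1] (.p true [0,0,1] [1] (⟨0,[(8,0)]⟩,⟨1,[(4,0),(2,0),(8,0)]⟩)
  .k 1 (⟨0,[]⟩,⟨0,[]⟩) .k .k) (.Q [0,1,0,0,0,0,-1,1,-1] (.p false [0,0,1] [1] (⟨0,[(9,0)]⟩,⟨1,[(5,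
  0),(2,0),(8,0)]⟩) .k 1 (⟨0,[]⟩,⟨0,[]⟩) .k .k) (.K ⟨0,[1,0,-1],0,0,(⟨1,[(6,0),(2,0),(8,0)]⟩,⟨0,
  [(10,0)]⟩),.k,(.r (-1) ⟨0,[(4,0)]⟩ ⟨7,[(2,1),(2,3),(0,2),(1,2),(0,0),(5,1),(1,3)]⟩),(.x (-1) ⟨1,
  [(11,0),(0,1),(5,0)]⟩ ⟨3,[(3,1),(3,0),(0,0)]⟩),.k,.k,[⟨0,[(1,0)]⟩,⟨3,[(6,1),(0,0),(0,0),(0,1)]⟩,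
  ⟨0,[(2,0),(2,0),(10,0)]⟩,⟨0,[(0,0)]⟩]⟩) (.Q [0,-1,0,-1,0,0,1,0,1] (.p true [0,0,1] [] (⟨0,[(10,
  0)]⟩,⟨1,[(6,0),(2,0),(8,0)]⟩) .k 0 (⟨0,[]⟩,⟨0,[]⟩) .k .k) t4 (.R ⟨2,true,false,false,[0,1],[0,0,
  1],[0,0,1,1],(⟨0,[]⟩,⟨0,[]⟩),(⟨0,[(11,0)]⟩,⟨1,[(7,0),(2,0),(8,0)]⟩),⟨0,[]⟩,.k,.k,.k,(.r 0 ⟨1,[(0,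
  0),(0,0),(5,0),(0,0),(9,0)]⟩ ⟨2,[(1,0),(1,0),(1,0),(3,0),(0,0),(6,1),(1,0)]⟩),.k,.k,⟨true,0,⟨1,
  [(0,0),(0,0),(5,0),(0,0),(9,0)]⟩,⟨1,[(1,0),(1,0),(6,0),(6,1)]⟩⟩,⟨false,0,⟨0,[(11,0)]⟩,⟨7,[(8,0),
  (0,0),(0,3),(1,1),(6,3)]⟩⟩,⟨false,1,⟨3,[(8,0),(0,0),(10,1)]⟩,⟨0,[]⟩⟩,⟨true,0,⟨0,[(3,0),(13,0)]⟩,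
  ⟨0,[(0,0)]⟩⟩,⟨true,0,⟨0,[(18,0)]⟩,⟨0,[(17,0)]⟩⟩,⟨false,0,⟨0,[(3,0)]⟩,⟨7,[(8,4),(0,0),(0,3),(1,
  1)]⟩⟩,[]⟩))) (.Q [0,1,0,1,0,0,-1,0,-1] (.p false [0,0,1] [] (⟨0,[(9,0)]⟩,⟨7,[(0,3),(4,1),(0,0),(0,
  0),(0,1)]⟩) .k 0 (⟨0,[]⟩,⟨0,[]⟩) .k .k) (.Q [0,1,0,-1,0,0,-1,1,-1] (.p false [0,0,1] [1] (⟨0,[(10,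
  0)]⟩,⟨7,[(1,3),(4,1),(0,0),(0,0),(0,1)]⟩) .k 1 (⟨0,[]⟩,⟨0,[]⟩) .k .k) (.R ⟨0,false,false,true,[0,
  0,1],[1,-1],[1],(⟨0,[(11,0)]⟩,⟨7,[(2,3),(4,1),(0,0),(0,0),(0,1)]⟩),(⟨0,[(13,0)]⟩,⟨0,[(14,0)]⟩),⟨1,
  [(2,1),(1,0),(7,0)]⟩,.k,.k,(.r (-1) ⟨2,[(2,1),(0,1),(1,0),(3,0),(2,0),(4,1)]⟩ ⟨0,[(1,0),(9,0),(4,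
  0)]⟩),(.r 0 ⟨7,[(3,1),(2,3),(0,2),(1,2),(0,0),(5,1),(1,3)]⟩ ⟨0,[(5,0)]⟩),.k,.k,⟨true,0,⟨0,[(16,0),
  (1,0)]⟩,⟨0,[(17,0)]⟩⟩,⟨false,0,⟨7,[(2,3),(4,1),(0,0),(0,0),(0,1)]⟩,⟨1,[(11,1),(0,0),(6,0)]⟩⟩,
  ⟨false,1,⟨1,[(8,0),(11,0)]⟩,⟨1,[(3,1),(2,0),(3,0),(6,0)]⟩⟩,⟨true,0,⟨0,[(0,0)]⟩,⟨0,[(3,0),(2,0)]⟩⟩,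
  ⟨false,0,⟨0,[]⟩,⟨0,[]⟩⟩,⟨false,0,⟨0,[]⟩,⟨0,[]⟩⟩,[.o ⟨false,0,⟨0,[(17,0)]⟩,⟨1,[(12,0),(5,1),(1,
  0)]⟩⟩,.a ⟨true,0,⟨0,[(0,0),(2,0)]⟩,⟨0,[(18,0)]⟩⟩ ⟨false,1,⟨1,[(19,0),(0,0)]⟩,⟨0,[(22,0)]⟩⟩ ⟨true,
  0,⟨0,[(2,0),(13,0),(0,0)]⟩,⟨0,[(6,0),(4,0),(4,0)]⟩⟩,.a ⟨true,0,⟨0,[(11,0)]⟩,⟨7,[(2,3),(4,1),(0,0),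
  (0,0),(0,1)]⟩⟩ ⟨true,0,⟨0,[]⟩,⟨0,[(22,0)]⟩⟩ ⟨false,0,⟨0,[(2,0),(13,0),(0,0)]⟩,⟨1,[(3,1),(4,0),(3,
  0),(5,1)]⟩⟩,.a ⟨true,0,⟨7,[(7,3),(0,0),(0,0),(1,7),(0,1)]⟩,⟨0,[(2,0)]⟩⟩ ⟨false,1,⟨1,[(19,0),(0,
  0)]⟩,⟨7,[(7,3),(0,0),(0,0),(2,1)]⟩⟩ ⟨true,0,⟨0,[(2,0),(14,0)]⟩,⟨0,[(6,0),(4,0),(4,0)]⟩⟩]⟩) (.R ⟨2,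
  true,false,false,[0,1],[0,0,1],[1,0,0,0,0,0,1],(⟨0,[]⟩,⟨0,[]⟩),(⟨0,[(11,0)]⟩,⟨7,[(2,3),(4,1),(0,
  0),(0,0),(0,1)]⟩),⟨0,[]⟩,.k,.k,.k,(.r 0 ⟨1,[(0,0),(0,0),(5,0),(0,0)]⟩ ⟨2,[(2,1),(0,1),(1,0),(3,0),
  (2,0),(4,1)]⟩),.k,.k,⟨true,0,⟨0,[]⟩,⟨7,[(7,3),(0,0),(0,0),(2,1)]⟩⟩,⟨false,0,⟨0,[(11,0)]⟩,⟨7,[(8,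
  0),(0,0),(0,3),(1,1),(6,3)]⟩⟩,⟨false,1,⟨1,[(2,1),(0,1),(8,0),(4,1),(2,0)]⟩,⟨1,[(0,0),(0,0),(5,0),
  (0,0)]⟩⟩,⟨true,0,⟨0,[(3,0),(13,0)]⟩,⟨0,[(1,0)]⟩⟩,⟨true,0,⟨0,[(0,0),(1,0),(14,0)]⟩,⟨1,[(6,0),(0,0),
  (0,0),(8,0)]⟩⟩,⟨false,0,⟨0,[(3,0)]⟩,⟨7,[(8,4),(0,0),(0,3),(1,1)]⟩⟩,[]⟩)) (.R ⟨0,false,false,false,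
  [0,0,1],[0,1],[0,1,1],(⟨0,[(10,0)]⟩,⟨7,[(1,3),(4,1),(0,0),(0,0),(0,1)]⟩),(⟨0,[(13,0)]⟩,⟨0,[(12,
  0)]⟩),⟨1,[(1,1),(1,0),(7,0)]⟩,.k,.k,(.x 0 ⟨3,[(3,1),(3,0),(0,0)]⟩ ⟨1,[(11,0),(0,1),(5,0)]⟩),(.x 0
  ⟨3,[(3,1),(3,0),(0,0)]⟩ ⟨1,[(11,0),(0,1),(5,0)]⟩),.k,.k,⟨true,0,⟨0,[(16,0)]⟩,⟨0,[(15,0),(1,0)]⟩⟩,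
  ⟨false,1,⟨1,[(1,1),(9,0),(6,0)]⟩,⟨7,[(6,3),(0,0),(0,0),(1,7),(0,1)]⟩⟩,⟨true,0,⟨1,[(5,0),(0,0),(0,
  0),(8,0)]⟩,⟨0,[(0,0),(0,0),(3,0)]⟩⟩,⟨false,1,⟨1,[(1,1),(5,0),(3,0),(3,1),(1,1)]⟩,⟨9,[(0,7),(4,0),
  (0,0),(1,0),(1,1),(3,1),(1,2)]⟩⟩,⟨false,0,⟨0,[]⟩,⟨0,[]⟩⟩,⟨false,0,⟨0,[]⟩,⟨0,[]⟩⟩,[.a ⟨true,0,⟨0,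
  [(17,0)]⟩,⟨20,[(0,8),(0,8),(2,10),(1,11),(1,0),(5,3),(1,0)]⟩⟩ ⟨false,0,⟨0,[(21,0)]⟩,⟨1,[(18,0),(0,
  0)]⟩⟩ ⟨true,0,⟨0,[(1,0),(3,0),(9,0)]⟩,⟨3,[(0,1),(5,1),(0,0),(2,1),(0,0),(4,1)]⟩⟩,.o ⟨false,1,⟨1,
  [(11,0),(5,1),(1,0)]⟩,⟨0,[(16,0)]⟩⟩,.a ⟨true,0,⟨0,[(10,0)]⟩,⟨7,[(1,3),(4,1),(0,0),(0,0),(0,1)]⟩⟩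
  ⟨false,0,⟨7,[(6,3),(0,0),(0,0),(2,1)]⟩,⟨1,[(18,0),(0,0)]⟩⟩ ⟨true,0,⟨0,[(1,0),(3,0),(9,0)]⟩,⟨0,
  [(10,0),(5,0)]⟩⟩,.a ⟨true,0,⟨7,[(6,3),(0,0),(0,0),(1,7),(0,1)]⟩,⟨0,[(1,0)]⟩⟩ ⟨true,0,⟨0,[(21,0)]⟩,
  ⟨0,[]⟩⟩ ⟨false,1,⟨1,[(1,1),(9,0),(5,1),(1,0)]⟩,⟨3,[(0,1),(5,1),(0,0),(2,1),(0,0),(4,1)]⟩⟩]⟩))))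

def t6 : Tre :=
  (.I [0,1,1,1,-1] (.Q [0,0,1,0,0,0,0,-1,1] (.p true [0,0,1] [1] (⟨0,[(7,0)]⟩,⟨1,[(3,0),(2,0),(8,
  0)]⟩) .k 1 (⟨0,[]⟩,⟨0,[]⟩) .k .k) (.Q [0,1,0,0,0,0,-1,1,-1] (.p false [0,0,1] [1] (⟨0,[(8,0)]⟩,⟨1,
  [(4,0),(2,0),(8,0)]⟩) .k 1 (⟨0,[]⟩,⟨0,[]⟩) .k .k) (.K ⟨0,[1,0,-1],0,0,(⟨1,[(5,0),(2,0),(8,0)]⟩,⟨0,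
  [(9,0)]⟩),.k,(.x 0 ⟨7,[(5,3),(0,0),(0,0),(2,1),(1,7)]⟩ ⟨1,[(10,0),(0,1),(5,0)]⟩),(.r 0 ⟨0,[(3,0),
  (2,0)]⟩ ⟨0,[(3,0),(11,1),(1,0),(0,0)]⟩),.k,.k,[⟨0,[(1,0)]⟩,⟨3,[(5,1),(0,0),(0,0),(0,1)]⟩,⟨1,[(3,
  1),(5,1),(0,0),(4,1),(1,0)]⟩,⟨0,[(0,0)]⟩]⟩) (.Q [0,1,0,1,0,0,-1,0,-1] (.p false [0,0,1] [] (⟨0,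
  [(9,0)]⟩,⟨1,[(5,0),(2,0),(8,0)]⟩) .k 0 (⟨0,[]⟩,⟨0,[]⟩) .k .k) (.R ⟨2,true,false,false,[0,1],[0,0,
  1],[0,0,1,1],(⟨0,[]⟩,⟨0,[]⟩),(⟨0,[(10,0)]⟩,⟨1,[(6,0),(2,0),(8,0)]⟩),⟨0,[]⟩,.k,.k,.k,(.r 0 ⟨0,[(4,
  0),(2,0)]⟩ ⟨3,[(1,1),(4,0),(1,0),(0,0),(6,3),(1,2),(0,0)]⟩),.k,.k,⟨true,0,⟨0,[(4,0),(2,0)]⟩,⟨1,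
  [(1,1),(4,0),(2,0),(6,1),(1,0)]⟩⟩,⟨false,0,⟨0,[(10,0)]⟩,⟨7,[(7,0),(0,0),(0,3),(1,1),(6,3)]⟩⟩,
  ⟨false,1,⟨3,[(7,0),(0,0),(10,1)]⟩,⟨0,[]⟩⟩,⟨true,0,⟨0,[(1,0),(4,0),(9,0),(1,0)]⟩,⟨0,[(0,0)]⟩⟩,
  ⟨true,0,⟨0,[(17,0)]⟩,⟨0,[(16,0)]⟩⟩,⟨false,0,⟨0,[(1,0),(4,0),(11,0)]⟩,⟨7,[(7,4),(0,0),(0,3),(1,
  1)]⟩⟩,[]⟩) (.Q [0,0,0,0,0,2,0,-1] (.pp true [-1,1]) (.R ⟨0,false,false,false,[0,0,1],[1,0,-1],[0,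
  1],(⟨0,[(11,0)]⟩,⟨1,[(7,0),(2,0),(8,0)]⟩),(⟨1,[(7,0),(2,0),(8,0)]⟩,⟨0,[(11,0)]⟩),⟨1,[(0,0),(9,
  0)]⟩,.k,.k,(.r (-1) ⟨9,[(1,3),(7,2),(0,1),(1,0),(4,5),(1,4),(0,0)]⟩ ⟨0,[(5,0),(2,0)]⟩),.k,.k,.k,
  ⟨false,0,⟨19,[(1,5),(0,5),(2,5),(3,0),(0,5),(4,15),(3,4)]⟩,⟨1,[(8,0),(11,0)]⟩⟩,⟨true,0,⟨0,[(10,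
  0)]⟩,⟨0,[(3,0),(7,0)]⟩⟩,⟨false,1,⟨3,[(8,2),(0,0)]⟩,⟨5,[(1,1),(0,1),(2,1),(4,1),(8,0),(0,0)]⟩⟩,
  ⟨true,1,⟨0,[(8,0),(1,0)]⟩,⟨0,[(1,0),(0,0),(1,0),(10,0)]⟩⟩,⟨false,0,⟨0,[]⟩,⟨0,[]⟩⟩,⟨false,0,⟨0,[]⟩,
  ⟨0,[]⟩⟩,[.o ⟨false,1,⟨7,[(8,4),(0,0),(0,3),(1,1)]⟩,⟨11,[(2,8),(0,2),(1,0),(3,0),(5,3),(1,0)]⟩⟩,.o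
  ⟨false,1,⟨0,[(2,0),(5,0),(1,0)]⟩,⟨5,[(2,2),(0,2),(1,0),(3,0),(5,3),(1,0)]⟩⟩,.a ⟨true,0,⟨0,[(11,
  0)]⟩,⟨1,[(7,0),(2,0),(8,0)]⟩⟩ ⟨true,0,⟨0,[(22,0)]⟩,⟨0,[]⟩⟩ ⟨false,1,⟨1,[(8,0),(1,1),(9,0)]⟩,⟨12,
  [(1,0),(0,8),(0,3),(1,0),(3,0),(1,11),(3,4)]⟩⟩,.o ⟨false,0,⟨0,[(3,0)]⟩,⟨7,[(8,0),(0,0),(0,3),(1,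
  1),(6,3)]⟩⟩]⟩) (.R ⟨1,true,false,false,[1,0,-1],[0,0,1],[0,1,0,0,0,0,-1],(⟨1,[(7,0),(2,0),(8,0)]⟩,
  ⟨0,[(11,0)]⟩),(⟨0,[(11,0)]⟩,⟨1,[(7,0),(2,0),(8,0)]⟩),⟨1,[(0,0),(9,0)]⟩,.k,.k,(.x 0 ⟨7,[(7,3),(0,
  0),(0,0),(2,1),(1,7)]⟩ ⟨7,[(0,3),(7,0),(0,0),(2,1),(6,3)]⟩),.k,(.x 0 ⟨7,[(7,3),(0,0),(0,0),(2,1),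
  (1,7)]⟩ ⟨7,[(0,3),(7,0),(0,0),(2,1),(6,3)]⟩),.k,⟨true,1,⟨0,[(8,0),(13,0)]⟩,⟨0,[(1,0),(0,0),(1,0),
  (5,0)]⟩⟩,⟨false,1,⟨1,[(11,3),(0,0),(6,0)]⟩,⟨0,[(10,0)]⟩⟩,⟨true,0,⟨0,[(22,0)]⟩,⟨0,[]⟩⟩,⟨false,0,
  ⟨13,[(1,3),(0,13),(2,3),(3,2),(1,9),(3,1),(3,0)]⟩,⟨0,[(8,0),(1,0)]⟩⟩,⟨false,0,⟨0,[(18,0)]⟩,⟨0,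
  [(17,0),(2,0)]⟩⟩,⟨true,(-1),⟨0,[(1,0),(0,0),(1,1),(14,0)]⟩,⟨0,[(8,0),(1,0),(6,0)]⟩⟩,[]⟩)))) (.Q
  [0,0,0,2,0,0,0,-1] (.pp true [-1,1]) (.R ⟨2,true,false,false,[0,1],[1,-1],[1,1,1],(⟨0,[]⟩,⟨0,[]⟩),
  (⟨0,[(11,0)]⟩,⟨0,[(12,0)]⟩),⟨0,[]⟩,.k,.k,.k,(.r 1 ⟨0,[(0,0),(4,0)]⟩ ⟨0,[(15,1),(1,0),(0,0)]⟩),.k,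
  .k,⟨false,(-1),⟨0,[(2,0)]⟩,⟨0,[(15,0),(1,0),(0,0)]⟩⟩,⟨true,(-1),⟨0,[(5,0)]⟩,⟨1,[(10,0),(6,0)]⟩⟩,
  ⟨true,0,⟨0,[(15,0)]⟩,⟨0,[(16,0)]⟩⟩,⟨false,1,⟨0,[(1,0),(7,0),(4,0),(0,1),(2,0)]⟩,⟨0,[(0,0)]⟩⟩,
  ⟨false,0,⟨0,[]⟩,⟨3,[(6,0),(0,0),(10,1)]⟩⟩,⟨true,0,⟨0,[(1,0),(7,0),(4,0),(0,0)]⟩,⟨0,[(4,0)]⟩⟩,[]⟩)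
  (.Q [0,0,0,0,0,0,-1,1,-1] (.p false [0,0,1] [1] (⟨0,[(9,0)]⟩,⟨7,[(1,3),(3,1),(0,0),(0,0),(0,1)]⟩)
  .k 1 (⟨0,[]⟩,⟨0,[]⟩) .k .k) (.R ⟨2,true,false,false,[0,1],[1,0,-1],[1,1,1],(⟨0,[]⟩,⟨0,[]⟩),(⟨5,
  [(0,1),(1,1),(3,0),(1,0),(0,0)]⟩,⟨0,[(10,0)]⟩),⟨0,[]⟩,.k,.k,.k,(.x (-1) ⟨1,[(11,0),(0,1),(5,0)]⟩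
  ⟨7,[(6,3),(0,0),(0,0),(2,1),(1,7)]⟩),.k,.k,⟨true,(-1),⟨0,[(4,0),(11,0)]⟩,⟨1,[(7,0),(11,0)]⟩⟩,
  ⟨false,0,⟨5,[(0,1),(1,1),(3,0),(1,0),(0,0)]⟩,⟨1,[(10,1),(0,0),(6,0)]⟩⟩,⟨true,0,⟨0,[(16,0)]⟩,⟨0,
  [(17,0)]⟩⟩,⟨false,1,⟨1,[(1,0),(5,0),(1,0),(9,0)]⟩,⟨1,[(4,1),(5,1),(0,0),(6,0)]⟩⟩,⟨false,0,⟨0,[]⟩,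
  ⟨3,[(7,0),(0,0),(10,1)]⟩⟩,⟨true,0,⟨0,[(0,0)]⟩,⟨3,[(1,1),(2,3),(5,3),(0,2),(2,1),(3,0)]⟩⟩,[]⟩) (.R
  ⟨2,true,false,false,[0,1],[0,0,1],[0,0,1,1],(⟨0,[]⟩,⟨0,[]⟩),(⟨0,[(10,0)]⟩,⟨7,[(2,3),(3,1),(0,0),
  (0,0),(0,1)]⟩),⟨0,[]⟩,.k,.k,.k,(.r 0 ⟨0,[(4,0),(2,0)]⟩ ⟨7,[(0,1),(0,3),(0,1),(5,2),(2,1),(6,2)]⟩),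
  .k,.k,⟨true,0,⟨0,[(4,0),(2,0)]⟩,⟨1,[(0,1),(0,0),(7,0)]⟩⟩,⟨false,0,⟨0,[(10,0)]⟩,⟨7,[(7,0),(0,0),(0,
  3),(1,1),(6,3)]⟩⟩,⟨false,1,⟨3,[(7,0),(0,0),(10,1)]⟩,⟨0,[]⟩⟩,⟨true,0,⟨9,[(0,5),(0,5),(2,1),(3,0),
  (1,3),(7,0)]⟩,⟨1,[(2,1),(0,1),(3,0),(3,0)]⟩⟩,⟨true,0,⟨0,[(17,0)]⟩,⟨0,[(16,0)]⟩⟩,⟨false,0,⟨0,[(0,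
  0),(1,0),(7,0),(4,0)]⟩,⟨7,[(7,4),(0,0),(0,3),(1,1)]⟩⟩,[]⟩)))) (.Q [0,1,0,1,0,0,-1,0,-1] (.p false
  [0,0,1] [] (⟨0,[(7,0)]⟩,⟨1,[(3,0),(2,0),(8,0)]⟩) .k 0 (⟨0,[]⟩,⟨0,[]⟩) .k .k) (.R ⟨2,true,false,
  false,[0,1],[0,0,1],[0,0,1,1],(⟨0,[]⟩,⟨0,[]⟩),(⟨0,[(8,0)]⟩,⟨1,[(4,0),(2,0),(8,0)]⟩),⟨0,[]⟩,.k,.k,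
  .k,(.r 0 ⟨0,[(2,0),(2,0)]⟩ ⟨2,[(1,1),(0,0),(3,0),(7,1),(1,0)]⟩),.k,.k,⟨true,0,⟨0,[(2,0),(2,0)]⟩,
  ⟨0,[(1,0),(0,0),(11,0)]⟩⟩,⟨false,0,⟨0,[(8,0)]⟩,⟨7,[(5,0),(0,0),(0,3),(1,1),(6,3)]⟩⟩,⟨false,1,⟨3,
  [(5,0),(0,0),(10,1)]⟩,⟨0,[]⟩⟩,⟨true,0,⟨0,[(1,0),(0,0),(5,0),(5,0)]⟩,⟨0,[(0,0)]⟩⟩,⟨true,0,⟨0,[(15,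
  0)]⟩,⟨0,[(14,0)]⟩⟩,⟨false,0,⟨0,[(1,0),(0,0),(5,0)]⟩,⟨7,[(5,4),(0,0),(0,3),(1,1)]⟩⟩,[]⟩) (.Q [0,1,
  0,-1,0,0,-1,1,-1] (.p false [0,0,1] [1] (⟨0,[(8,0)]⟩,⟨1,[(4,0),(2,0),(8,0)]⟩) .k 1 (⟨0,[]⟩,⟨0,
  []⟩) .k .k) (.Q [0,0,0,0,0,1,0,-1,1] (.ed false [0,1,1] .k) (.R ⟨0,false,false,true,[1,0,-1],[0,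
  1],[1,1,1],(⟨1,[(6,0),(2,0),(8,0)]⟩,⟨0,[(10,0)]⟩),(⟨0,[(13,0)]⟩,⟨0,[(12,0)]⟩),⟨0,[(0,0)]⟩,.k,.k,
  (.x 0 ⟨7,[(6,3),(0,0),(0,0),(2,1),(1,7)]⟩ ⟨1,[(11,0),(0,1),(5,0)]⟩),(.x 0 ⟨7,[(6,3),(0,0),(0,0),
  (2,1),(1,7)]⟩ ⟨1,[(11,0),(0,1),(5,0)]⟩),.k,.k,⟨false,1,⟨7,[(3,3),(3,0),(0,0),(7,3),(1,1)]⟩,⟨0,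
  [(17,0)]⟩⟩,⟨true,1,⟨1,[(10,1),(0,0),(6,0)]⟩,⟨0,[(1,0),(2,0),(10,0)]⟩⟩,⟨true,(-1),⟨0,[(4,0),(11,
  0)]⟩,⟨1,[(7,0),(10,0)]⟩⟩,⟨false,0,⟨1,[(4,1),(5,1),(0,0),(6,0)]⟩,⟨0,[(1,0),(17,0)]⟩⟩,⟨false,0,⟨0,
  []⟩,⟨0,[]⟩⟩,⟨false,0,⟨0,[]⟩,⟨0,[]⟩⟩,[.o ⟨false,0,⟨0,[(5,0)]⟩,⟨0,[(16,0),(2,0)]⟩⟩,.e ⟨false,0,⟨0,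
  []⟩,⟨3,[(7,0),(0,0),(9,1)]⟩⟩ ⟨false,1,⟨1,[(10,1),(0,0),(5,1),(0,0)]⟩,⟨1,[(1,0),(0,0),(6,0)]⟩⟩,.a
  ⟨true,0,⟨1,[(6,0),(2,0),(8,0)]⟩,⟨0,[(10,0)]⟩⟩ ⟨false,0,⟨7,[(6,3),(0,0),(0,0),(2,1)]⟩,⟨1,[(18,0),
  (0,0)]⟩⟩ ⟨true,0,⟨0,[(5,0),(4,0)]⟩,⟨1,[(1,0),(0,0),(6,0)]⟩⟩,.o ⟨false,0,⟨1,[(6,0),(2,0),(1,0)]⟩,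
  ⟨1,[(10,1),(0,0),(6,0)]⟩⟩]⟩) (.R ⟨1,false,false,true,[1,0,-1],[0,1],[1,1,1],(⟨1,[(6,0),(2,0),(8,
  0)]⟩,⟨0,[(10,0)]⟩),(⟨0,[(13,0)]⟩,⟨0,[(12,0)]⟩),⟨0,[(0,0)]⟩,.k,.k,(.x 0 ⟨7,[(6,3),(0,0),(0,0),(2,
  1),(1,7)]⟩ ⟨1,[(11,0),(0,1),(5,0)]⟩),(.x 0 ⟨7,[(6,3),(0,0),(0,0),(2,1),(1,7)]⟩ ⟨1,[(11,0),(0,1),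
  (5,0)]⟩),(.r (-2) ⟨1,[(3,1),(3,0),(8,1),(1,0)]⟩ ⟨9,[(4,7),(1,5),(1,0),(2,2),(5,11)]⟩),.k,⟨false,1,
  ⟨7,[(3,3),(3,0),(0,0),(7,3),(1,1)]⟩,⟨0,[(17,0)]⟩⟩,⟨true,1,⟨1,[(10,1),(0,0),(6,0)]⟩,⟨0,[(1,0),(2,
  0),(10,0)]⟩⟩,⟨true,(-1),⟨0,[(4,0),(11,0)]⟩,⟨1,[(7,0),(10,0)]⟩⟩,⟨false,0,⟨1,[(4,1),(5,1),(0,0),(6,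
  0)]⟩,⟨0,[(1,0),(17,0)]⟩⟩,⟨false,(-1),⟨0,[(4,0)]⟩,⟨3,[(3,3),(3,2),(0,0)]⟩⟩,⟨false,0,⟨1,[(4,1),(5,
  1),(0,0),(5,1),(0,0)]⟩,⟨0,[(1,0),(1,0),(11,0)]⟩⟩,[.o ⟨false,0,⟨0,[(5,0)]⟩,⟨0,[(16,0),(2,0)]⟩⟩,.e
  ⟨false,0,⟨0,[]⟩,⟨3,[(7,0),(0,0),(9,1)]⟩⟩ ⟨false,1,⟨1,[(10,1),(0,0),(5,1),(0,0)]⟩,⟨1,[(1,0),(0,0),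
  (6,0)]⟩⟩,.a ⟨true,0,⟨1,[(6,0),(2,0),(8,0)]⟩,⟨0,[(10,0)]⟩⟩ ⟨false,0,⟨7,[(6,3),(0,0),(0,0),(2,1)]⟩,
  ⟨1,[(18,0),(0,0)]⟩⟩ ⟨true,0,⟨0,[(5,0),(4,0)]⟩,⟨1,[(1,0),(0,0),(6,0)]⟩⟩,.o ⟨false,0,⟨1,[(6,0),(2,
  0),(1,0)]⟩,⟨1,[(10,1),(0,0),(6,0)]⟩⟩]⟩)) (.Q [0,1,0,0,0,0,-1,1,-1] (.p false [0,0,1] [1] (⟨0,[(9,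
  0)]⟩,⟨1,[(5,0),(2,0),(8,0)]⟩) .k 1 (⟨0,[]⟩,⟨0,[]⟩) .k .k) (.Q [0,0,1,0,0,0,0,-1,1] (.p true [0,0,
  1] [1] (⟨0,[(10,0)]⟩,⟨1,[(6,0),(2,0),(8,0)]⟩) .k 1 (⟨0,[]⟩,⟨0,[]⟩) .k .k) (.K ⟨0,[1,0,-1],0,0,(⟨1,
  [(7,0),(2,0),(8,0)]⟩,⟨0,[(11,0)]⟩),.k,(.x 0 ⟨7,[(7,3),(0,0),(0,0),(2,1),(1,7)]⟩ ⟨1,[(12,0),(0,1),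
  (5,0)]⟩),(.r 0 ⟨0,[(5,0),(2,0)]⟩ ⟨11,[(3,3),(0,1),(4,3),(0,1),(1,0),(4,5),(1,4)]⟩),.k,.k,[⟨0,[(0,
  0)]⟩,⟨3,[(7,1),(0,0),(0,0),(0,1)]⟩,⟨33,[(0,15),(1,3),(0,13),(1,9),(3,2),(2,6),(2,25)]⟩,⟨0,[(1,
  0)]⟩]⟩) (.Q [0,0,0,0,0,2,0,-1] (.pp true [-1,1]) (.R ⟨0,false,false,false,[0,0,1],[0,1],[0,1,1],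
  (⟨0,[(12,0)]⟩,⟨9,[(1,3),(0,1),(5,1),(1,0),(0,1),(9,0)]⟩),(⟨0,[(15,0)]⟩,⟨0,[(14,0)]⟩),⟨1,[(0,0),
  (10,0)]⟩,.k,.k,(.r (-1) ⟨7,[(1,1),(2,1),(0,1),(4,2),(2,0),(4,3),(1,1)]⟩ ⟨0,[(6,0),(2,0)]⟩),(.r
  (-1) ⟨7,[(1,1),(2,1),(0,1),(4,2),(2,0),(4,3),(1,1)]⟩ ⟨0,[(6,0),(2,0)]⟩),.k,.k,⟨true,0,⟨0,[(18,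
  0)]⟩,⟨1,[(6,1),(2,0),(11,0)]⟩⟩,⟨false,1,⟨1,[(1,1),(11,0),(6,0)]⟩,⟨7,[(8,3),(0,0),(0,0),(1,7),(0,
  1)]⟩⟩,⟨true,0,⟨1,[(7,0),(0,0),(0,0),(8,0)]⟩,⟨0,[(1,0),(1,0),(14,0)]⟩⟩,⟨false,1,⟨0,[(3,0),(5,0),(1,
  0)]⟩,⟨9,[(3,0),(0,6),(3,0),(1,0),(1,1),(3,1),(1,3)]⟩⟩,⟨false,0,⟨0,[]⟩,⟨0,[]⟩⟩,⟨false,0,⟨0,[]⟩,⟨0,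
  []⟩⟩,[.a ⟨true,0,⟨0,[(19,0)]⟩,⟨0,[(2,0),(1,0)]⟩⟩ ⟨false,0,⟨0,[(23,0)]⟩,⟨1,[(20,0),(0,0)]⟩⟩ ⟨true,
  0,⟨1,[(1,1),(4,1),(2,0),(3,0)]⟩,⟨3,[(4,1),(3,1),(0,0),(2,1),(0,0),(4,1)]⟩⟩,.o ⟨false,1,⟨1,[(13,0),
  (5,1),(1,0)]⟩,⟨0,[(18,0)]⟩⟩,.a ⟨true,0,⟨0,[(12,0)]⟩,⟨9,[(1,3),(0,1),(5,1),(1,0),(0,1),(9,0)]⟩⟩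
  ⟨false,0,⟨7,[(8,3),(0,0),(0,0),(2,1)]⟩,⟨1,[(20,0),(0,0)]⟩⟩ ⟨true,0,⟨1,[(1,1),(4,1),(2,0),(3,0)]⟩,
  ⟨0,[(12,0),(5,0)]⟩⟩,.a ⟨true,0,⟨7,[(8,3),(0,0),(0,0),(1,7),(0,1)]⟩,⟨0,[(1,0)]⟩⟩ ⟨true,0,⟨0,[(23,
  0)]⟩,⟨0,[]⟩⟩ ⟨false,1,⟨1,[(1,1),(11,0),(5,1),(1,0)]⟩,⟨3,[(4,1),(3,1),(0,0),(2,1),(0,0),(4,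
  1)]⟩⟩]⟩) (.R ⟨1,false,false,true,[1,0,-1],[1,-1],[0,1,0,0,0,0,-1],(⟨9,[(1,3),(0,1),(5,1),(1,0),(0,
  1),(9,0)]⟩,⟨0,[(12,0)]⟩),(⟨0,[(14,0)]⟩,⟨0,[(15,0)]⟩),⟨1,[(0,0),(10,0)]⟩,.k,.k,(.x 0 ⟨7,[(8,3),(0,
  0),(0,0),(2,1),(1,7)]⟩ ⟨7,[(0,3),(8,0),(0,0),(2,1),(6,3)]⟩),(.r 0 ⟨0,[(6,0),(2,0)]⟩ ⟨7,[(1,1),(2,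
  1),(0,1),(4,2),(2,0),(4,3),(1,1)]⟩),.k,.k,⟨true,0,⟨0,[(6,0),(2,0)]⟩,⟨4,[(4,3),(1,0),(4,1),(1,0),
  (2,0),(1,1)]⟩⟩,⟨false,0,⟨0,[(12,0)]⟩,⟨7,[(9,0),(0,0),(0,3),(1,1),(6,3)]⟩⟩,⟨true,0,⟨0,[(23,0)]⟩,⟨0,
  []⟩⟩,⟨false,0,⟨9,[(3,0),(0,6),(3,0),(1,0),(1,1),(3,1),(1,3)]⟩,⟨0,[(3,0),(5,0),(1,0)]⟩⟩,⟨false,0,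
  ⟨0,[(19,0)]⟩,⟨0,[(18,0),(2,0)]⟩⟩,⟨false,0,⟨17,[(1,0),(1,0),(0,4),(1,3),(3,3),(1,12),(3,2)]⟩,⟨1,
  [(1,1),(7,0),(3,0),(3,1)]⟩⟩,[.o ⟨false,0,⟨0,[(18,0)]⟩,⟨1,[(13,0),(5,1),(1,0)]⟩⟩,.e ⟨false,1,⟨1,
  [(9,0),(10,0)]⟩,⟨25,[(1,3),(2,7),(1,7),(3,4),(0,1),(1,2),(2,3)]⟩⟩ ⟨false,1,⟨7,[(4,7),(4,4),(0,0),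
  (5,3),(3,1)]⟩,⟨1,[(1,1),(4,1),(2,0),(3,0)]⟩⟩,.a ⟨true,0,⟨9,[(1,3),(0,1),(5,1),(1,0),(0,1),(9,0)]⟩,
  ⟨0,[(12,0)]⟩⟩ ⟨false,1,⟨3,[(9,2),(0,0)]⟩,⟨1,[(3,0),(0,0),(6,0)]⟩⟩ ⟨true,0,⟨0,[(12,0),(5,0)]⟩,⟨1,
  [(1,1),(4,1),(2,0),(3,0)]⟩⟩,.o ⟨false,0,⟨1,[(8,0),(2,0),(1,0)]⟩,⟨1,[(12,1),(0,0),(6,0)]⟩⟩]⟩)))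
  (.Q [0,0,0,0,0,-2,0,1] (.pp false [-1,1]) (.Q [0,0,0,1,0,0,0,0,-1] (.p false [0,0,1] [] (⟨0,[(11,
  0)]⟩,⟨1,[(7,0),(2,0),(8,0)]⟩) .k 0 (⟨0,[]⟩,⟨0,[]⟩) .k .k) (.R ⟨1,false,false,true,[1,0,-1],[1,-1],
  [0,1,0,0,0,0,-1],(⟨1,[(8,0),(2,0),(8,0)]⟩,⟨0,[(12,0)]⟩),(⟨0,[(14,0)]⟩,⟨0,[(15,0)]⟩),⟨1,[(1,0),(9,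
  0)]⟩,.k,.k,(.x 0 ⟨7,[(8,3),(0,0),(0,0),(2,1),(1,7)]⟩ ⟨7,[(1,3),(7,0),(0,0),(2,1),(6,3)]⟩),(.r 0
  ⟨0,[(6,0),(2,0)]⟩ ⟨11,[(4,3),(0,1),(4,3),(0,1),(1,0),(4,5),(1,4)]⟩),.k,.k,⟨true,0,⟨0,[(6,0),(2,
  0)]⟩,⟨14,[(2,5),(1,5),(1,0),(3,0),(0,5),(4,0),(1,9)]⟩⟩,⟨false,0,⟨0,[(12,0)]⟩,⟨7,[(9,0),(0,0),(0,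
  3),(1,1),(6,3)]⟩⟩,⟨true,0,⟨0,[(23,0)]⟩,⟨0,[]⟩⟩,⟨false,0,⟨9,[(3,0),(0,6),(3,0),(1,0),(1,1),(3,1),
  (1,3)]⟩,⟨1,[(0,1),(8,0),(11,0)]⟩⟩,⟨false,0,⟨0,[(19,0)]⟩,⟨0,[(18,0),(2,0)]⟩⟩,⟨false,0,⟨13,[(4,3),
  (1,3),(3,2),(1,9),(3,1),(3,0)]⟩,⟨0,[(2,0),(6,0),(1,0)]⟩⟩,[.o ⟨false,0,⟨0,[(18,0)]⟩,⟨1,[(13,0),(5,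
  1),(1,0)]⟩⟩,.e ⟨false,1,⟨1,[(9,0),(10,0)]⟩,⟨4,[(2,0),(1,0),(1,0),(3,0),(0,0),(4,0)]⟩⟩ ⟨false,1,⟨7,
  [(4,7),(4,4),(0,0),(5,3),(3,1)]⟩,⟨0,[(0,0)]⟩⟩,.a ⟨true,0,⟨1,[(8,0),(2,0),(8,0)]⟩,⟨0,[(12,0)]⟩⟩
  ⟨false,1,⟨3,[(9,2),(0,0)]⟩,⟨1,[(3,0),(0,0),(6,0)]⟩⟩ ⟨true,0,⟨0,[(12,0),(5,0)]⟩,⟨0,[(0,0)]⟩⟩,.o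
  ⟨false,0,⟨1,[(8,0),(2,0),(1,0)]⟩,⟨1,[(12,1),(0,0),(6,0)]⟩⟩]⟩) (.R ⟨1,false,false,true,[1,0,-1],[1,
  -1],[0,1,0,0,0,0,-1],(⟨1,[(8,0),(2,0),(8,0)]⟩,⟨0,[(12,0)]⟩),(⟨0,[(14,0)]⟩,⟨0,[(15,0)]⟩),⟨1,[(1,0),
  (9,0)]⟩,.k,.k,(.x 0 ⟨7,[(8,3),(0,0),(0,0),(2,1),(1,7)]⟩ ⟨7,[(1,3),(7,0),(0,0),(2,1),(6,3)]⟩),(.r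
  0 ⟨0,[(6,0),(2,0)]⟩ ⟨11,[(4,3),(0,1),(4,3),(0,1),(1,0),(4,5),(1,4)]⟩),.k,.k,⟨true,0,⟨0,[(6,0),(2,
  0)]⟩,⟨14,[(2,5),(1,5),(1,0),(3,0),(0,5),(4,0),(1,9)]⟩⟩,⟨false,0,⟨0,[(12,0)]⟩,⟨7,[(9,0),(0,0),(0,
  3),(1,1),(6,3)]⟩⟩,⟨true,0,⟨0,[(23,0)]⟩,⟨0,[]⟩⟩,⟨false,0,⟨5,[(0,2),(3,2),(1,0),(3,0),(5,0),(1,0)]⟩,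
  ⟨0,[(3,0),(5,0),(1,0)]⟩⟩,⟨false,0,⟨0,[(19,0)]⟩,⟨0,[(18,0),(2,0)]⟩⟩,⟨false,0,⟨13,[(4,3),(1,3),(3,
  2),(1,9),(3,1),(3,0)]⟩,⟨0,[(2,0),(6,0),(1,0)]⟩⟩,[.o ⟨false,0,⟨0,[(18,0)]⟩,⟨1,[(13,0),(5,1),(1,
  0)]⟩⟩,.a ⟨true,0,⟨1,[(0,1),(7,0),(2,0),(8,0)]⟩,⟨0,[(19,0)]⟩⟩ ⟨false,1,⟨1,[(9,0),(10,0)]⟩,⟨4,[(2,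
  0),(1,0),(1,0),(3,0),(0,0),(4,0)]⟩⟩ ⟨true,0,⟨0,[(0,0)]⟩,⟨1,[(8,0),(2,0),(1,0),(5,1)]⟩⟩,.e ⟨false,
  1,⟨3,[(9,2),(0,0)]⟩,⟨1,[(3,0),(0,0),(6,0)]⟩⟩ ⟨false,0,⟨0,[(0,0)]⟩,⟨7,[(9,0),(0,0),(0,3),(1,1),(5,
  7),(1,3)]⟩⟩,.o ⟨false,0,⟨1,[(8,0),(2,0),(1,0)]⟩,⟨1,[(12,1),(0,0),(6,0)]⟩⟩]⟩)) (.Q [0,1,0,0,-1,0,2,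
  -1,2] (.p true [0,0,1] [1,0,-1] (⟨0,[(11,0)]⟩,⟨1,[(7,0),(2,0),(8,0)]⟩) .k 2 (⟨1,[(7,0),(2,0),(8,
  0)]⟩,⟨0,[(11,0)]⟩) .k .k) (.R ⟨0,false,false,false,[0,0,1],[1,0,-1],[0,1],(⟨0,[(12,0)]⟩,⟨1,[(8,0),
  (2,0),(8,0)]⟩),(⟨1,[(8,0),(2,0),(8,0)]⟩,⟨0,[(12,0)]⟩),⟨1,[(1,0),(9,0)]⟩,.k,.k,(.r (-1) ⟨13,[(0,1),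
  (4,7),(4,4),(0,1),(6,5),(1,2)]⟩ ⟨0,[(6,0),(2,0)]⟩),.k,.k,.k,⟨false,0,⟨13,[(0,5),(9,0),(0,5),(4,3),
  (3,4)]⟩,⟨1,[(9,0),(11,0)]⟩⟩,⟨true,0,⟨0,[(11,0)]⟩,⟨5,[(0,3),(1,1),(0,0),(0,0),(3,2),(0,5),(3,0)]⟩⟩,
  ⟨false,1,⟨3,[(9,2),(0,0)]⟩,⟨1,[(3,0),(0,0),(6,0)]⟩⟩,⟨true,1,⟨0,[(9,0),(1,0)]⟩,⟨0,[(0,0)]⟩⟩,⟨false,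
  0,⟨0,[]⟩,⟨0,[]⟩⟩,⟨false,0,⟨0,[]⟩,⟨0,[]⟩⟩,[.o ⟨false,1,⟨7,[(9,4),(0,0),(0,3),(1,1)]⟩,⟨25,[(0,7),(2,
  3),(0,3),(5,0),(1,1),(0,6)]⟩⟩,.o ⟨false,1,⟨0,[(2,0),(6,0),(1,0)]⟩,⟨7,[(0,3),(8,0),(0,0),(2,1),(9,
  3)]⟩⟩,.a ⟨true,0,⟨0,[(12,0)]⟩,⟨1,[(8,0),(2,0),(8,0)]⟩⟩ ⟨true,0,⟨0,[(23,0)]⟩,⟨0,[]⟩⟩ ⟨false,1,⟨1,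
  [(9,0),(1,1),(9,0)]⟩,⟨25,[(0,7),(2,3),(0,3),(5,0),(1,27),(0,6)]⟩⟩,.o ⟨false,0,⟨1,[(2,1),(4,0),(0,
  0),(0,0),(8,0)]⟩,⟨7,[(9,0),(0,0),(0,3),(1,1),(6,3)]⟩⟩]⟩) (.Q [0,0,0,0,0,1,0,-1,1] (.ed false [0,1,
  1] .k) (.R ⟨0,false,false,true,[1,0,-1],[1,-1],[0,1,0,0,0,0,-1],(⟨1,[(9,0),(2,0),(8,0)]⟩,⟨0,[(13,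
  0)]⟩),(⟨0,[(15,0)]⟩,⟨0,[(16,0)]⟩),⟨0,[(0,0)]⟩,.k,.k,(.x 0 ⟨3,[(2,1),(6,1),(0,0),(0,0)]⟩ ⟨1,[(14,
  0),(0,1),(5,0)]⟩),(.r 0 ⟨0,[(7,0),(2,0)]⟩ ⟨11,[(5,3),(0,1),(4,3),(0,1),(1,0),(4,5),(1,4)]⟩),.k,.k,
  ⟨true,0,⟨0,[(7,0),(2,0)]⟩,⟨14,[(3,5),(1,5),(1,0),(3,0),(0,5),(4,0),(1,9)]⟩⟩,⟨false,0,⟨0,[(13,0)]⟩,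
  ⟨27,[(1,3),(9,3),(0,9),(1,6),(2,1),(3,12)]⟩⟩,⟨true,0,⟨0,[(24,0)]⟩,⟨0,[]⟩⟩,⟨false,0,⟨9,[(4,0),(0,
  6),(3,0),(1,0),(1,1),(3,1),(1,3)]⟩,⟨3,[(1,1),(12,0),(5,3),(1,0)]⟩⟩,⟨false,0,⟨0,[]⟩,⟨0,[]⟩⟩,⟨false,
  0,⟨0,[]⟩,⟨0,[]⟩⟩,[.o ⟨false,0,⟨0,[(19,0)]⟩,⟨1,[(14,0),(5,1),(1,0)]⟩⟩,.e ⟨false,1,⟨1,[(10,0),(10,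
  0)]⟩,⟨4,[(3,0),(1,0),(1,0),(3,0),(0,0),(4,0)]⟩⟩ ⟨false,1,⟨7,[(5,7),(4,4),(0,0),(5,3),(3,1)]⟩,⟨0,
  [(1,0),(1,0),(3,0),(9,0)]⟩⟩,.a ⟨true,0,⟨1,[(9,0),(2,0),(8,0)]⟩,⟨0,[(13,0)]⟩⟩ ⟨false,1,⟨3,[(10,2),
  (0,0)]⟩,⟨1,[(4,0),(0,0),(6,0)]⟩⟩ ⟨true,0,⟨0,[(13,0),(5,0)]⟩,⟨0,[(1,0),(1,0),(3,0),(9,0)]⟩⟩,.o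
  ⟨false,0,⟨1,[(9,0),(2,0),(1,0)]⟩,⟨1,[(13,1),(0,0),(6,0)]⟩⟩]⟩) (.R ⟨1,true,false,true,[1,0,-1],[0,
  0,1],[0,1,0,0,0,0,-1],(⟨1,[(9,0),(2,0),(8,0)]⟩,⟨0,[(13,0)]⟩),(⟨0,[(13,0)]⟩,⟨1,[(9,0),(2,0),(8,
  0)]⟩),⟨0,[(0,0)]⟩,.k,.k,(.x 0 ⟨3,[(2,1),(6,1),(0,0),(0,0)]⟩ ⟨1,[(14,0),(0,1),(5,0)]⟩),.k,(.r (-2)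
  ⟨7,[(6,3),(3,8),(0,0),(7,3),(1,1)]⟩ ⟨4,[(3,0),(1,0),(1,5),(3,0),(0,0),(4,0)]⟩),.k,⟨true,1,⟨0,[(10,
  0)]⟩,⟨14,[(3,5),(1,5),(1,15),(3,0),(0,5),(4,0),(1,9)]⟩⟩,⟨false,1,⟨1,[(13,3),(0,0),(6,0)]⟩,⟨0,[(12,
  0)]⟩⟩,⟨true,0,⟨0,[(24,0)]⟩,⟨0,[]⟩⟩,⟨false,0,⟨4,[(4,5),(0,1),(3,0),(1,0),(1,1),(3,1),(1,3)]⟩,⟨0,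
  [(1,0)]⟩⟩,⟨false,0,⟨0,[(20,0)]⟩,⟨0,[(19,0),(2,0)]⟩⟩,⟨true,(-1),⟨0,[(3,0),(3,0),(5,0),(3,0)]⟩,⟨0,
  [(1,0),(17,0)]⟩⟩,[]⟩))))))))

def t7 : Tre :=
  (.I [0,0,-1,-1,1,0,-1] (.I [0,0,-2,0,1,-2] (.I [0,0,-2,-1,1] (.S ⟨1,0,[0,0,-1,-1],[1,-1],[0,1,-1,
  -1],(⟨0,[(10,0)]⟩,⟨0,[(11,0)]⟩),⟨0,[(1,0),(2,0)]⟩,.k,(.x 0 ⟨3,[(4,3),(0,0),(0,0),(2,1),(1,7)]⟩ ⟨0,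
  [(1,0)]⟩),⟨true,0,⟨0,[(19,0)]⟩,⟨0,[]⟩⟩,⟨false,1,⟨3,[(5,0),(0,0),(10,1)]⟩,⟨0,[]⟩⟩,⟨false,0,⟨0,[(15,
  0)]⟩,⟨0,[(14,0),(2,0)]⟩⟩,⟨true,0,⟨0,[(15,0)]⟩,⟨0,[(14,0)]⟩⟩,[.e ⟨false,1,⟨8,[(0,5),(1,1),(3,0),(5,
  3),(1,0)]⟩,⟨0,[(13,0),(1,0)]⟩⟩ ⟨false,1,⟨0,[(0,0)]⟩,⟨7,[(4,3),(0,0),(0,0),(2,1),(5,7)]⟩⟩,.o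
  ⟨false,1,⟨0,[(14,0),(2,0)]⟩,⟨0,[(3,0)]⟩⟩,.o ⟨false,0,⟨7,[(4,3),(0,0),(0,0),(2,1)]⟩,⟨1,[(9,0),(6,
  0)]⟩⟩,.a ⟨true,(-1),⟨0,[(4,0)]⟩,⟨0,[(16,0)]⟩⟩ ⟨false,1,⟨0,[(0,0)]⟩,⟨1,[(4,1),(4,0),(5,1),(1,0)]⟩⟩
  ⟨true,1,⟨0,[(0,0)]⟩,⟨0,[(3,0),(0,0)]⟩⟩]⟩) (.I [1,1,1,1,-1] (.Q [0,1,0,1,-1,0,-1,0,-1] (.p false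
  [0,0,1] [] (⟨0,[(9,0)]⟩,⟨1,[(5,0),(2,0),(8,0)]⟩) .k 0 (⟨0,[]⟩,⟨0,[]⟩) .k .k) (.R ⟨2,true,false,
  false,[0,1],[0,0,1],[0,0,1,1],(⟨0,[]⟩,⟨0,[]⟩),(⟨0,[(10,0)]⟩,⟨1,[(6,0),(2,0),(8,0)]⟩),⟨0,[]⟩,.k,.k,
  .k,(.r 1 ⟨0,[(0,0),(9,0),(4,0)]⟩ ⟨0,[(4,0),(3,0)]⟩),.k,.k,⟨true,(-1),⟨0,[(0,0),(9,0),(4,0)]⟩,⟨1,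
  [(8,0),(7,1),(2,0)]⟩⟩,⟨false,0,⟨0,[(10,0)]⟩,⟨7,[(7,0),(0,0),(0,3),(1,1),(6,3)]⟩⟩,⟨false,1,⟨3,[(7,
  0),(0,0),(10,1)]⟩,⟨0,[]⟩⟩,⟨true,1,⟨1,[(8,0),(1,1),(5,1),(2,0)]⟩,⟨0,[(0,0)]⟩⟩,⟨true,0,⟨0,[(17,0)]⟩,
  ⟨0,[(16,0)]⟩⟩,⟨false,1,⟨1,[(8,0),(1,1),(8,0)]⟩,⟨0,[(0,0),(15,0),(2,0)]⟩⟩,[]⟩) (.I [1,0,0,0,0,0,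
  -1] (.Q [0,1,0,0,0,0,1,0,1] (.p true [0,0,1] [] (⟨0,[(11,0)]⟩,⟨1,[(7,0),(2,0),(8,0)]⟩) .k 0 (⟨0,
  []⟩,⟨0,[]⟩) .k .k) (.K ⟨0,[0,0,1],0,0,(⟨0,[(12,0)]⟩,⟨1,[(8,0),(2,0),(8,0)]⟩),.k,(.x 0 ⟨7,[(8,3),
  (0,0),(0,0),(2,1),(1,7)]⟩ ⟨3,[(5,1),(3,0),(0,0)]⟩),(.r 0 ⟨1,[(4,0),(5,0),(8,0)]⟩ ⟨0,[(6,0)]⟩),.k,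
  .k,[⟨1,[(8,0),(2,0),(1,0)]⟩,⟨5,[(0,0),(1,0),(1,0),(3,1),(0,0),(2,3),(0,0)]⟩,⟨3,[(1,3),(1,0),(7,1),
  (1,0),(2,0),(1,0)]⟩,⟨0,[(0,0)]⟩]⟩) (.Q [0,1,0,0,-1,0,-1,1,-1] (.p false [0,0,1] [1] (⟨0,[(12,0)]⟩,
  ⟨1,[(8,0),(2,0),(8,0)]⟩) .k 1 (⟨0,[]⟩,⟨0,[]⟩) .k .k) (.S ⟨1,0,[0,1,0,0,0,0,-1],[1,0,-1],[1,1],(⟨1,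
  [(9,0),(2,0),(8,0)]⟩,⟨0,[(13,0)]⟩),⟨1,[(6,0),(2,0),(2,0)]⟩,.k,(.r (-1) ⟨0,[(7,0)]⟩ ⟨1,[(5,0),(5,
  0),(8,0)]⟩),⟨false,1,⟨3,[(10,0),(0,2)]⟩,⟨0,[(1,0),(11,0)]⟩⟩,⟨true,0,⟨0,[(24,0)]⟩,⟨0,[]⟩⟩,⟨true,0,
  ⟨1,[(4,1),(6,0),(9,0)]⟩,⟨0,[(1,0),(11,0),(5,0)]⟩⟩,⟨false,0,⟨0,[(20,0)]⟩,⟨5,[(1,1),(1,3),(3,1),(1,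
  0),(2,0),(1,0)]⟩⟩,[.a ⟨true,(-1),⟨0,[(0,0)]⟩,⟨0,[(3,0),(16,0)]⟩⟩ ⟨true,0,⟨0,[(24,0)]⟩,⟨0,[(1,0),
  (1,0),(0,0)]⟩⟩ ⟨false,0,⟨1,[(0,1),(12,1),(0,0),(6,0)]⟩,⟨1,[(11,0),(10,0)]⟩⟩,.o ⟨false,0,⟨7,[(0,2),
  (0,2),(8,0),(1,0),(1,1)]⟩,⟨1,[(11,0),(1,1),(0,0)]⟩⟩,.e ⟨false,0,⟨0,[]⟩,⟨3,[(10,0),(0,0),(10,1)]⟩⟩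
  ⟨false,0,⟨0,[(1,1),(1,0),(0,1),(1,0),(6,0),(2,1),(2,0)]⟩,⟨1,[(11,0),(10,0)]⟩⟩,.o ⟨false,0,⟨1,[(9,
  0),(2,0),(1,0)]⟩,⟨1,[(13,1),(0,0),(6,0)]⟩⟩]⟩) (.S ⟨1,0,[0,1,0,0,0,0,-1],[1,0,-1],[1,0,0,-1,0,0,
  -1],(⟨1,[(9,0),(2,0),(8,0)]⟩,⟨0,[(13,0)]⟩),⟨1,[(6,0),(2,0),(2,0)]⟩,.k,(.r (-1) ⟨0,[(7,0)]⟩ ⟨1,[(5,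
  0),(5,0),(8,0)]⟩),⟨false,1,⟨5,[(1,1),(1,3),(3,1),(1,0),(2,0),(1,0)]⟩,⟨0,[(20,0)]⟩⟩,⟨true,0,⟨0,
  [(24,0)]⟩,⟨0,[]⟩⟩,⟨true,0,⟨0,[]⟩,⟨0,[(24,0)]⟩⟩,⟨false,0,⟨0,[(20,0)]⟩,⟨5,[(1,1),(1,3),(3,1),(1,0),
  (2,0),(1,0)]⟩⟩,[.o ⟨false,0,⟨7,[(1,3),(2,2),(5,1),(1,1),(1,0),(2,2),(1,2)]⟩,⟨0,[(0,0)]⟩⟩,.o
  ⟨false,0,⟨15,[(1,11),(2,2),(5,1),(1,1),(1,0),(2,2),(1,2)]⟩,⟨0,[(0,0),(23,0)]⟩⟩,.a ⟨true,0,⟨1,[(9,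
  0),(2,0),(8,0)]⟩,⟨0,[(13,0)]⟩⟩ ⟨true,0,⟨0,[(1,0),(11,0),(5,0)]⟩,⟨1,[(4,1),(6,0),(9,0)]⟩⟩ ⟨false,0,
  ⟨0,[(1,1),(1,0),(0,1),(1,0),(6,0),(2,1),(2,0)]⟩,⟨1,[(11,0),(10,0)]⟩⟩,.o ⟨false,0,⟨1,[(9,0),(2,0),
  (1,0)]⟩,⟨1,[(13,1),(0,0),(6,0)]⟩⟩]⟩))) (.Q [0,1,0,0,0,0,-1,0,-1] (.p false [0,0,1] [] (⟨0,[(11,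
  0)]⟩,⟨1,[(7,0),(2,0),(8,0)]⟩) .k 0 (⟨0,[]⟩,⟨0,[]⟩) .k .k) (.K ⟨0,[0,0,1],0,0,(⟨0,[(12,0)]⟩,⟨1,[(8,
  0),(2,0),(8,0)]⟩),.k,(.r (-1) ⟨0,[(1,1),(4,0)]⟩ ⟨1,[(4,0),(4,0),(9,0)]⟩),(.r 0 ⟨1,[(4,0),(5,0),(8,
  0)]⟩ ⟨0,[(6,0)]⟩),.k,.k,[⟨1,[(8,0),(2,0),(1,0)]⟩,⟨5,[(2,1),(0,1),(4,1),(0,0),(2,3),(0,0)]⟩,⟨0,[(0,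
  0)]⟩,⟨1,[(1,0),(0,0),(0,0),(8,0),(3,0)]⟩]⟩) (.Q [0,-1,0,0,1,0,-2,1,-2] (.p false [0,0,1] [1,0,-1]
  (⟨0,[(12,0)]⟩,⟨1,[(8,0),(2,0),(8,0)]⟩) .k 2 (⟨1,[(8,0),(2,0),(8,0)]⟩,⟨0,[(12,0)]⟩) .k .k) (.Q [0,
  1,0,1,0,0,-1,0,-1] (.p false [0,0,1] [] (⟨0,[(13,0)]⟩,⟨1,[(9,0),(2,0),(8,0)]⟩) .k 0 (⟨0,[]⟩,⟨0,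
  []⟩) .k .k) (.R ⟨2,true,false,false,[0,1],[0,0,1],[1,0,1],(⟨0,[]⟩,⟨0,[]⟩),(⟨0,[(14,0)]⟩,⟨1,[(10,
  0),(2,0),(8,0)]⟩),⟨0,[]⟩,.k,.k,.k,(.r 0 ⟨1,[(6,0),(4,0),(9,0)]⟩ ⟨5,[(2,1),(0,1),(0,1),(8,1),(1,0),
  (4,3),(1,2)]⟩),.k,.k,⟨true,0,⟨0,[(6,0),(1,0)]⟩,⟨0,[(3,0)]⟩⟩,⟨false,0,⟨0,[(14,0)]⟩,⟨27,[(1,3),(10,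
  3),(0,9),(1,6),(2,1),(3,12)]⟩⟩,⟨false,1,⟨0,[(20,0),(2,0)]⟩,⟨0,[(21,0)]⟩⟩,⟨true,0,⟨0,[(2,0),(17,
  0)]⟩,⟨0,[(0,0)]⟩⟩,⟨true,0,⟨0,[]⟩,⟨0,[(25,0)]⟩⟩,⟨false,0,⟨0,[(2,0)]⟩,⟨4,[(0,0),(0,1),(9,0),(0,0),
  (2,0),(4,0)]⟩⟩,[]⟩) (.K ⟨0,[1,0,-1],0,0,(⟨1,[(10,0),(2,0),(8,0)]⟩,⟨0,[(14,0)]⟩),.k,(.r (-1) ⟨0,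
  [(8,0)]⟩ ⟨1,[(6,0),(5,0),(8,0)]⟩),(.r 0 ⟨1,[(6,0),(4,0),(9,0)]⟩ ⟨8,[(0,3),(7,0),(3,2),(0,1),(1,0),
  (4,3),(1,3)]⟩),.k,.k,[⟨1,[(0,1),(4,1),(5,0),(3,0)]⟩,⟨3,[(1,0),(8,1),(1,0),(0,0),(11,0)]⟩,⟨7,[(0,
  5),(4,3),(3,1),(2,0),(1,1),(0,2),(2,3)]⟩,⟨1,[(5,1),(2,1),(1,0),(2,0),(8,0)]⟩]⟩)) (.K ⟨0,[1,0,-1],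
  0,0,(⟨1,[(9,0),(2,0),(8,0)]⟩,⟨0,[(13,0)]⟩),.k,(.r (-1) ⟨0,[(7,0)]⟩ ⟨1,[(5,0),(5,0),(8,0)]⟩),(.r 0
  ⟨1,[(5,0),(4,0),(9,0)]⟩ ⟨6,[(0,1),(2,3),(3,0),(4,3),(1,0),(4,1),(1,2)]⟩),.k,.k,[⟨3,[(0,1),(4,1),
  (1,1),(2,0),(3,0),(3,1)]⟩,⟨3,[(9,1),(0,0),(0,0),(0,1)]⟩,⟨7,[(0,3),(9,0),(0,0),(2,1),(9,3)]⟩,⟨1,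
  [(4,1),(2,1),(1,0),(2,0),(8,0)]⟩]⟩))))) (.S ⟨1,0,[0,1,-1,-1],[1,-1],[0,0,-1,-1],(⟨0,[(11,0)]⟩,⟨0,
  [(12,0)]⟩),⟨0,[(2,0),(2,0)]⟩,.k,(.x 0 ⟨3,[(5,3),(0,0),(0,0),(2,1),(1,7)]⟩ ⟨0,[(2,0)]⟩),⟨false,1,
  ⟨3,[(6,0),(0,0),(10,1)]⟩,⟨0,[]⟩⟩,⟨true,0,⟨0,[(20,0)]⟩,⟨0,[]⟩⟩,⟨true,0,⟨0,[(16,0)]⟩,⟨0,[(15,0)]⟩⟩,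
  ⟨false,0,⟨0,[(16,0)]⟩,⟨7,[(0,7),(4,3),(0,0),(0,0),(2,1)]⟩⟩,[.o ⟨false,0,⟨0,[(15,0)]⟩,⟨1,[(10,0),
  (5,1),(1,0)]⟩⟩,.e ⟨true,1,⟨0,[(0,0)]⟩,⟨0,[(1,0),(18,0)]⟩⟩ ⟨true,1,⟨5,[(0,2),(2,1),(3,0),(5,0),(1,
  0)]⟩,⟨0,[(1,0)]⟩⟩,.o ⟨false,0,⟨7,[(5,3),(0,0),(0,0),(2,1)]⟩,⟨1,[(10,0),(6,0)]⟩⟩,.a ⟨true,(-1),⟨0,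
  [(5,0)]⟩,⟨0,[(17,0)]⟩⟩ ⟨false,2,⟨3,[(0,3),(5,0),(0,0),(9,1)]⟩,⟨0,[(1,0)]⟩⟩ ⟨true,1,⟨0,[(0,0),(12,
  0)]⟩,⟨0,[(1,0)]⟩⟩]⟩))) t5) t6)

def tree : Tre :=
  t7

theorem ok : chk (cPU 1 false) tree base = true := by
  decide +kernel

theorem closed {p a b c J l q : ℤ} {D dl : ℝ} {Cl : ℤ → ℤ → ℤ → ℤ → ℝ → Prop}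
    (W : World p a b c J 1 l q D dl Cl) (hE : KEmp p a b 1 (P1 l p) Cl)
    (g : G0 p a b c J D)
    {N R : ℤ} {I : ℝ} (hu : VFac p D Cl N R I)
    (s0 : (1 : ℝ) ≤ c)
    (s1 : (a : ℝ) ≤ b)
    (s2 : (b : ℝ) + 1 ≤ 2 * a)
    (s3 : p - D < 2 * b)
    (s4 : D - c < a) : False := by
  have g1 := g.a2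
  have g2 := g.b2
  have g3 := g.pa
  have g4 := g.pb
  have g5 := g.J1
  have g6 := g.JD
  have g7 := g.D2
  have g8 := g.ca
  have g9 := g.ca'
  have t1 := TF.ofV hu
  have i1 := t1.I0
  have i2 := hu.ID
  have i3 := t1.R1
  have i4 := t1.R2
  refine (val_PU W.toBase (UV.ofV hu)).sound W rfl (Nk := 0) (fun kf hkf hh => ?_) (kok_B hE (by simp [xv]) (by simp [xv]) 0) ?_ ok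
  · simp only [cPU, kfB, List.mem_cons, List.not_mem_nil, or_false] at hkf
    subst hkf
    exact absurd hh (by norm_num)
  · simp only [base, List.forall_mem_cons, List.not_mem_nil, false_imp_iff, implies_true,
      and_true, hld, xv, evg_cons, evg_nil, List.map_cons, List.map_nil, List.cons_append,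
      List.nil_append, if_true, if_false, Bool.false_eq_true]
    push_cast
    refine ⟨?_, ?_, ?_, ?_, ?_, ?_, ?_, ?_, ?_, ?_, ?_, ?_, ?_, ?_, ?_, ?_, ?_⟩ <;> linarith

end Helper25.KG.P1_35_1_0_v
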