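import Pool.Agent.Helper25.KG.PL

set_option autoImplicit false
set_option linter.unusedVariables false

namespace Helper25.KG.P1_35_1_0_v2

open Helper11.CT Helper25.KW Helper25.KG

def base : List Con :=
  [(false,[0,1,0,1,0,0,-2]),
  (false,[0,0,2,0,0,-2,2]),
  (false,[0,0,0,0,0,0,1]),
  (false,[0,0,0,0,0,2,-4]),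
  (false,[0,0,0,0,-1,0,2]),
  (true,[0,0,0,0,1]),
  (true,[0,2,-1]),
  (true,[1,-1,1]),
  (true,[0,1,0,-1]),
  (true,[0,0,0,1]),
  (true,[0,0,-2,0,0,2]),
  (true,[0,-2,0,0,0,2]),
  (true,[-1,0,1]),
  (true,[-1,1])]

def tree : Tre :=
  (.Q [0,1,0,0,0,-1,1] (.p true [0,0,1] [] (⟨0,[(2,0)]⟩,⟨0,[(2,0)]⟩) .k 0 (⟨0,[]⟩,⟨0,[]⟩) .k .k)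
  (.K ⟨0,[0,0,1],0,(-1),(⟨0,[(3,0)]⟩,⟨0,[(3,0)]⟩),.k,(.x 0 ⟨0,[(6,0),(6,0)]⟩ ⟨1,[(4,0),(0,1),(5,
  0)]⟩),(.x (-1) ⟨1,[(4,0),(0,1),(5,0)]⟩ ⟨0,[(6,0),(6,0)]⟩),.k,.k,[⟨1,[(2,0),(1,0)]⟩,⟨1,[(2,0),(9,
  0),(1,1)]⟩,⟨3,[(4,0),(7,0),(1,5)]⟩,⟨0,[(0,0)]⟩]⟩) (.Q [0,0,0,0,-2,0,2] (.pp false [-1,1]) (.Q [0,
  1,0,1,0,-1,1] (.p true [0,0,1] [] (⟨0,[(4,0)]⟩,⟨0,[(4,0)]⟩) .k 0 (⟨0,[]⟩,⟨0,[]⟩) .k .k) (.R ⟨2,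
  true,false,true,[0,1],[1,1,-1],[0,1,1,1],(⟨0,[]⟩,⟨0,[]⟩),(⟨1,[(4,0),(3,1),(4,0)]⟩,⟨1,[(1,0)]⟩),⟨0,
  []⟩,.k,(.x (-1) ⟨3,[(1,1),(4,0),(2,1),(3,0),(0,1)]⟩ ⟨0,[(8,0),(6,0)]⟩),.k,.k,(.x 0 ⟨0,[(8,0),(6,
  0)]⟩ ⟨3,[(1,1),(4,0),(2,1),(3,0),(0,1)]⟩),.k,⟨false,0,⟨1,[(13,0)]⟩,⟨1,[(14,0),(1,1)]⟩⟩,⟨true,0,⟨0,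
  [(5,0)]⟩,⟨1,[(4,0),(1,0)]⟩⟩,⟨true,0,⟨0,[(16,0)]⟩,⟨0,[]⟩⟩,⟨false,1,⟨1,[(4,0),(4,1),(4,1)]⟩,⟨0,[(2,
  0)]⟩⟩,⟨false,0,⟨0,[(12,0)]⟩,⟨0,[(11,0),(2,0)]⟩⟩,⟨true,0,⟨0,[(0,0)]⟩,⟨0,[(2,0),(8,0)]⟩⟩,[]⟩) (.I
  [0,0,-2,-2,0,2] (.S ⟨1,0,[0,0,-1,-1],[1,-1],[1,1,-1,-2],(⟨0,[(8,0)]⟩,⟨0,[(9,0)]⟩),⟨0,[(2,0)]⟩,.k,
  (.r (-1) ⟨0,[(0,0)]⟩ ⟨0,[(13,1),(2,1)]⟩),⟨true,0,⟨0,[(12,0)]⟩,⟨0,[(13,0)]⟩⟩,⟨false,1,⟨0,[(15,0),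
  (1,0)]⟩,⟨0,[]⟩⟩,⟨false,0,⟨0,[]⟩,⟨0,[(15,0),(1,0)]⟩⟩,⟨true,0,⟨0,[(13,0)]⟩,⟨0,[(12,0)]⟩⟩,[.e ⟨false,
  1,⟨0,[(0,0),(16,0)]⟩,⟨0,[(11,0),(1,1)]⟩⟩ ⟨false,1,⟨1,[(0,0),(13,0)]⟩,⟨0,[(13,0),(2,0)]⟩⟩,.o
  ⟨false,1,⟨0,[(12,0),(2,0)]⟩,⟨0,[(4,0)]⟩⟩,.o ⟨false,0,⟨0,[(16,0)]⟩,⟨1,[(7,0),(6,0)]⟩⟩,.a ⟨true,
  (-1),⟨0,[(5,0)]⟩,⟨0,[(14,0)]⟩⟩ ⟨false,1,⟨0,[(0,0)]⟩,⟨1,[(5,1),(1,0),(5,3),(1,0)]⟩⟩ ⟨true,1,⟨1,[(0,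
  0),(13,0)]⟩,⟨0,[(4,0),(0,0)]⟩⟩]⟩) (.I [1,0,-1,-1,0,1] (.Q [0,0,2,0,0,-2,1] (.p true [0,0,1] []
  (⟨0,[(7,0)]⟩,⟨0,[(7,0)]⟩) .k 0 (⟨0,[]⟩,⟨0,[]⟩) .k .k) (.R ⟨1,false,false,true,[0,0,1],[0,1],[0,1,
  1,1],(⟨0,[(8,0)]⟩,⟨0,[(8,0)]⟩),(⟨0,[(11,0)]⟩,⟨0,[(10,0)]⟩),⟨1,[(4,0)]⟩,.k,.k,(.x 0 ⟨0,[(11,0),(6,
  0)]⟩ ⟨3,[(4,1),(4,0),(2,1),(3,0),(0,1)]⟩),(.x 0 ⟨0,[(11,0),(6,0)]⟩ ⟨3,[(4,1),(4,0),(2,1),(3,0),(0,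
  1)]⟩),(.r (-1) ⟨1,[(1,1),(12,1),(1,0),(0,0)]⟩ ⟨1,[(2,1),(14,0),(1,1)]⟩),.k,⟨false,1,⟨0,[(12,0),(4,
  0)]⟩,⟨0,[]⟩⟩,⟨true,1,⟨3,[(9,0),(2,1),(3,0),(0,1)]⟩,⟨0,[(0,0)]⟩⟩,⟨true,0,⟨1,[(2,0),(16,1)]⟩,⟨0,[(1,
  0)]⟩⟩,⟨false,1,⟨3,[(9,0),(5,3),(1,0),(1,1)]⟩,⟨1,[(1,1),(5,0),(9,0)]⟩⟩,⟨false,0,⟨1,[(2,0),(12,1)]⟩,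
  ⟨0,[(1,0),(12,0),(2,0)]⟩⟩,⟨false,1,⟨3,[(9,0),(5,7),(1,0),(1,1)]⟩,⟨3,[(1,5),(1,1),(3,2),(9,0)]⟩⟩,
  [.o ⟨false,0,⟨0,[(6,0)]⟩,⟨0,[(14,0),(2,0)]⟩⟩,.e ⟨false,0,⟨0,[(15,0)]⟩,⟨1,[(14,1),(1,0),(0,0)]⟩⟩
  ⟨false,1,⟨3,[(9,0),(2,1),(2,3),(0,0),(0,1)]⟩,⟨1,[(1,1),(5,0)]⟩⟩,.a ⟨true,0,⟨0,[(8,0)]⟩,⟨0,[(8,
  0)]⟩⟩ ⟨false,0,⟨1,[(2,0),(14,0),(1,1)]⟩,⟨1,[(1,1),(15,0)]⟩⟩ ⟨true,0,⟨3,[(2,0),(6,0),(2,1),(2,1)]⟩,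
  ⟨1,[(1,1),(5,0)]⟩⟩,.o ⟨false,0,⟨1,[(7,0),(1,0)]⟩,⟨3,[(9,0),(2,1),(3,0),(0,1)]⟩⟩]⟩) (.Q [0,0,0,0,2,
  0,-1] (.p false [0,0,1] [] (⟨0,[(8,0)]⟩,⟨0,[(8,0)]⟩) .k 0 (⟨0,[]⟩,⟨0,[]⟩) .k .k) (.R ⟨0,false,
  false,false,[0,-1,1],[1,-1],[0,1],(⟨1,[(5,0)]⟩,⟨0,[(0,0),(10,0)]⟩),(⟨0,[(11,0)]⟩,⟨0,[(12,0)]⟩),⟨0,
  [(0,0)]⟩,(.x 0 ⟨3,[(0,1),(7,0),(9,0),(0,1),(0,1)]⟩ ⟨3,[(5,1),(4,0),(2,1),(3,0),(0,1)]⟩),.k,(.r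
  (-1) ⟨1,[(2,1),(12,1),(1,0),(0,0)]⟩ ⟨1,[(3,1),(14,0),(1,1)]⟩),.k,.k,.k,⟨false,0,⟨1,[(3,0),(9,1),
  (4,0)]⟩,⟨1,[(2,1),(15,0)]⟩⟩,⟨true,0,⟨0,[(9,0)]⟩,⟨1,[(8,0),(1,0)]⟩⟩,⟨true,0,⟨1,[(3,0),(16,1)]⟩,⟨0,
  [(2,0)]⟩⟩,⟨false,1,⟨5,[(0,1),(10,3),(6,2)]⟩,⟨3,[(10,0),(7,0),(1,1)]⟩⟩,⟨false,0,⟨0,[]⟩,⟨0,[]⟩⟩,
  ⟨false,0,⟨0,[]⟩,⟨0,[]⟩⟩,[.a ⟨true,0,⟨5,[(0,1),(1,5),(5,2),(2,3)]⟩,⟨0,[(16,0)]⟩⟩ ⟨true,0,⟨0,[(20,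
  0)]⟩,⟨0,[(14,0)]⟩⟩ ⟨false,1,⟨5,[(0,1),(1,5),(8,3),(5,2)]⟩,⟨3,[(3,1),(6,0),(7,0),(1,1)]⟩⟩,.o
  ⟨false,1,⟨0,[(15,0),(2,0)]⟩,⟨0,[(7,0)]⟩⟩,.o ⟨false,0,⟨1,[(8,0),(1,0)]⟩,⟨3,[(10,0),(2,1),(3,0),(0,
  1)]⟩⟩,.o ⟨false,0,⟨1,[(8,0),(1,0),(8,1)]⟩,⟨0,[(1,0)]⟩⟩]⟩) (.S ⟨1,0,[0,0,-1,-1],[1,-1],[1,1,1],(⟨0,
  [(11,0)]⟩,⟨0,[(12,0)]⟩),⟨0,[(5,0)]⟩,.k,(.x 0 ⟨0,[(12,1),(6,1)]⟩ ⟨0,[(0,0),(0,0)]⟩),⟨true,(-1),⟨0,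
  [(3,0),(11,0)]⟩,⟨1,[(2,1),(14,0)]⟩⟩,⟨false,1,⟨0,[(18,0),(1,0)]⟩,⟨0,[]⟩⟩,⟨false,(-1),⟨0,[(3,0)]⟩,
  ⟨1,[(2,1),(12,1),(1,0),(0,1)]⟩⟩,⟨true,0,⟨0,[(16,0)]⟩,⟨0,[(15,0)]⟩⟩,[.e ⟨false,0,⟨0,[(20,0)]⟩,⟨1,
  [(17,0),(0,0)]⟩⟩ ⟨false,1,⟨1,[(2,1),(14,0)]⟩,⟨1,[(3,0),(14,0),(1,1)]⟩⟩,.o ⟨false,1,⟨0,[(15,0),(2,
  0)]⟩,⟨0,[(7,0)]⟩⟩,.o ⟨false,0,⟨0,[(19,0)]⟩,⟨1,[(10,0),(6,0)]⟩⟩,.a ⟨true,(-1),⟨0,[(8,0)]⟩,⟨0,[(17,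
  0)]⟩⟩ ⟨false,0,⟨0,[]⟩,⟨0,[(18,0),(1,0)]⟩⟩ ⟨true,1,⟨1,[(2,1),(14,0)]⟩,⟨0,[(3,0),(11,0)]⟩⟩]⟩))) (.R
  ⟨1,false,false,true,[1,-1],[0,-1,1],[0,1,0,-1,0,1],(⟨0,[(9,0)]⟩,⟨0,[(10,0)]⟩),(⟨1,[(3,0)]⟩,⟨1,[(6,
  0),(3,1),(4,0)]⟩),⟨0,[(3,0)]⟩,.k,(.r (-1) ⟨1,[(11,1),(1,1),(2,2)]⟩ ⟨0,[(0,0)]⟩),(.r (-2) ⟨0,[(13,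
  1),(1,0),(0,0)]⟩ ⟨0,[(0,1)]⟩),.k,(.r (-2) ⟨1,[(11,1),(1,1),(2,2)]⟩ ⟨0,[(0,0)]⟩),.k,⟨true,0,⟨0,
  [(17,0)]⟩,⟨0,[]⟩⟩,⟨false,1,⟨3,[(8,0),(2,1),(3,0),(0,1)]⟩,⟨0,[(7,0)]⟩⟩,⟨true,(-1),⟨1,[(1,0),(11,
  1)]⟩,⟨1,[(15,0)]⟩⟩,⟨false,0,⟨3,[(8,0),(7,0),(1,1)]⟩,⟨1,[(6,0),(8,0),(0,0)]⟩⟩,⟨false,(-1),⟨0,[(0,
  0)]⟩,⟨1,[(13,1),(1,0),(0,1)]⟩⟩,⟨false,0,⟨3,[(8,0),(5,3),(1,0),(1,1)]⟩,⟨0,[(2,0),(3,0),(8,0)]⟩⟩,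
  [.o ⟨false,0,⟨3,[(8,0),(4,3),(2,0),(1,1)]⟩,⟨0,[(4,0),(9,0)]⟩⟩,.o ⟨false,0,⟨5,[(2,1),(5,0),(4,3),
  (2,0)]⟩,⟨3,[(8,0),(5,3),(1,0),(1,1)]⟩⟩,.o ⟨false,0,⟨0,[(17,0)]⟩,⟨1,[(8,0),(6,0)]⟩⟩,.a ⟨true,(-1),
  ⟨0,[(6,0)]⟩,⟨0,[(15,0)]⟩⟩ ⟨true,0,⟨1,[(13,1),(1,0)]⟩,⟨1,[(1,0)]⟩⟩ ⟨false,1,⟨5,[(2,1),(5,0),(4,3),
  (1,5),(0,0)]⟩,⟨1,[(1,0),(4,0),(9,0)]⟩⟩]⟩)))) (.Q [0,0,0,-2,0,0,2] (.pp false [-1,1]) (.Q [0,0,2,0,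
  0,-2,1] (.p true [0,0,1] [] (⟨0,[(5,0)]⟩,⟨0,[(5,0)]⟩) .k 0 (⟨0,[]⟩,⟨0,[]⟩) .k .k) (.R ⟨0,false,
  false,true,[0,0,1],[0,1],[1,1,1],(⟨0,[(6,0)]⟩,⟨0,[(6,0)]⟩),(⟨0,[(9,0)]⟩,⟨0,[(8,0)]⟩),⟨1,[(2,0)]⟩,
  .k,.k,(.x 0 ⟨0,[(9,0),(6,0)]⟩ ⟨1,[(7,0),(0,1),(5,0)]⟩),(.x 0 ⟨0,[(9,0),(6,0)]⟩ ⟨1,[(7,0),(0,1),(5,
  0)]⟩),.k,.k,⟨false,1,⟨1,[(12,1),(1,0),(0,0)]⟩,⟨0,[(13,0)]⟩⟩,⟨true,1,⟨3,[(7,0),(2,1),(3,0),(0,1)]⟩,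
  ⟨0,[(0,0)]⟩⟩,⟨true,0,⟨5,[(0,3),(6,0),(2,1),(6,1)]⟩,⟨1,[(14,0)]⟩⟩,⟨false,1,⟨3,[(7,0),(5,3),(1,0),
  (1,1)]⟩,⟨1,[(1,0),(13,0)]⟩⟩,⟨false,0,⟨0,[]⟩,⟨0,[]⟩⟩,⟨false,0,⟨0,[]⟩,⟨0,[]⟩⟩,[.o ⟨false,0,⟨0,[(4,
  0)]⟩,⟨0,[(12,0),(2,0)]⟩⟩,.e ⟨false,0,⟨0,[]⟩,⟨0,[(10,0),(4,0)]⟩⟩ ⟨false,1,⟨3,[(7,0),(2,1),(2,3),(0,
  0),(0,1)]⟩,⟨1,[(1,0)]⟩⟩,.a ⟨true,0,⟨0,[(6,0)]⟩,⟨0,[(6,0)]⟩⟩ ⟨false,0,⟨0,[(16,0)]⟩,⟨1,[(14,0),(0,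
  0)]⟩⟩ ⟨true,0,⟨1,[(4,0),(8,0),(3,0)]⟩,⟨1,[(1,0)]⟩⟩,.o ⟨false,0,⟨1,[(5,0),(1,0)]⟩,⟨3,[(7,0),(2,1),
  (3,0),(0,1)]⟩⟩]⟩) (.R ⟨0,false,false,false,[1,-1],[0,0,1],[0,1,1],(⟨0,[(8,0)]⟩,⟨0,[(9,0)]⟩),(⟨0,
  [(6,0)]⟩,⟨0,[(6,0)]⟩),⟨0,[(2,0)]⟩,.k,.k,(.x 1 ⟨0,[(2,0),(2,0)]⟩ ⟨0,[(7,0),(0,1),(5,0)]⟩),(.x 0 ⟨0,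
  [(9,0),(6,0)]⟩ ⟨1,[(7,0),(0,1),(5,0)]⟩),.k,.k,⟨true,0,⟨1,[(4,0),(0,0),(6,0)]⟩,⟨1,[(15,0)]⟩⟩,
  ⟨false,1,⟨0,[(0,0)]⟩,⟨1,[(5,0),(9,0),(1,1)]⟩⟩,⟨true,(-1),⟨0,[(4,0),(0,0)]⟩,⟨1,[(0,1),(0,0)]⟩⟩,
  ⟨false,0,⟨0,[(3,0),(9,0)]⟩,⟨1,[(1,0),(13,0),(1,1)]⟩⟩,⟨false,0,⟨0,[]⟩,⟨0,[]⟩⟩,⟨false,0,⟨0,[]⟩,⟨0,
  []⟩⟩,[.o ⟨false,0,⟨3,[(7,0),(7,0),(1,1)]⟩,⟨3,[(7,0),(7,0),(1,1)]⟩⟩,.o ⟨false,0,⟨0,[(3,0)]⟩,⟨3,[(7,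
  0),(7,0),(1,5)]⟩⟩,.o ⟨false,0,⟨0,[(16,0)]⟩,⟨1,[(7,0),(6,0)]⟩⟩,.a ⟨true,(-1),⟨0,[(5,0)]⟩,⟨0,[(14,
  0)]⟩⟩ ⟨true,0,⟨0,[(17,0)]⟩,⟨0,[]⟩⟩ ⟨false,1,⟨1,[(0,1),(14,0)]⟩,⟨1,[(5,0),(10,1)]⟩⟩]⟩)) (.R ⟨0,
  false,false,true,[0,0,1],[1,-1],[0,1,0,0,0,1],(⟨0,[(5,0)]⟩,⟨0,[(5,0)]⟩),(⟨0,[(7,0)]⟩,⟨0,[(8,0)]⟩),
  ⟨1,[(1,0)]⟩,.k,.k,(.r (-1) ⟨1,[(9,1),(1,1),(2,2)]⟩ ⟨1,[(0,0),(3,0)]⟩),(.r 1 ⟨1,[(0,0),(3,0)]⟩ ⟨1,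
  [(9,1),(1,1),(2,2)]⟩),.k,.k,⟨true,(-1),⟨1,[(0,0),(3,0)]⟩,⟨1,[(11,1),(2,0)]⟩⟩,⟨false,0,⟨0,[(5,0)]⟩,
  ⟨3,[(6,0),(2,1),(3,0),(0,1)]⟩⟩,⟨true,0,⟨0,[(16,0)]⟩,⟨0,[]⟩⟩,⟨false,1,⟨1,[(4,0),(6,1),(1,0),(0,
  0)]⟩,⟨1,[(0,0),(13,0)]⟩⟩,⟨false,0,⟨0,[]⟩,⟨0,[]⟩⟩,⟨false,0,⟨0,[]⟩,⟨0,[]⟩⟩,[.o ⟨false,0,⟨0,[(11,
  0)]⟩,⟨3,[(0,1),(5,0),(7,2),(1,1)]⟩⟩,.e ⟨false,0,⟨1,[(13,0)]⟩,⟨1,[(14,0),(1,1)]⟩⟩ ⟨false,1,⟨1,[(4,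
  0),(6,1),(1,1),(0,0)]⟩,⟨1,[(0,0)]⟩⟩,.a ⟨true,0,⟨0,[(5,0)]⟩,⟨0,[(5,0)]⟩⟩ ⟨false,0,⟨1,[(14,0),(1,
  1)]⟩,⟨1,[(14,0)]⟩⟩ ⟨true,0,⟨1,[(4,0),(6,1),(1,0)]⟩,⟨1,[(0,0)]⟩⟩,.o ⟨false,0,⟨1,[(4,0),(1,0)]⟩,⟨3,
  [(6,0),(2,1),(3,0),(0,1)]⟩⟩]⟩))))

theorem ok : chk (cPW 1) tree base = true := by
  decide +kernel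

theorem closed {p a b c J l q : ℤ} {D dl : ℝ} {Cl : ℤ → ℤ → ℤ → ℤ → ℝ → Prop}
    (W : World p a b c J 1 l q D dl Cl) (hE : KEmp p a b 1 (P1 l p) Cl)
    (g : G0 p a b c J D)
    {N R : ℤ} {I : ℝ} (hu : WFac p D Cl N R I)
    (s0 : (1 : ℝ) ≤ c)
    (s1 : (a : ℝ) ≤ b)
    (s2 : (b : ℝ) + 1 ≤ 2 * a)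
    (s3 : p - D < 2 * b)
    (s4 : D - c < a) : False := by
  have g1 := g.a2
  have g2 := g.b2
  have g3 := g.pa
  have g4 := g.pb
  have g5 := g.J1
  have g6 := g.JD
  have g7 := g.D2
  have g8 := g.ca
  have g9 := g.ca'
  have i1 := hu.I0
  have i2 := hu.ID
  have i3 : (2 : ℝ) * R = p := by exact_mod_cast hu.R2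
  refine (val_PW W.toBase hu).sound W rfl (Nk := 0) (fun kf hkf hh => ?_) (kok_B hE (by simp [xv]) (by simp [xv]) 0) ?_ ok
  · simp only [cPW, kfB, List.mem_cons, List.not_mem_nil, or_false] at hkf
    subst hkf
    exact absurd hh (by norm_num)
  · simp only [base, List.forall_mem_cons, List.not_mem_nil, false_imp_iff, implies_true,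
      and_true, hld, xv, evg_cons, evg_nil, List.map_cons, List.map_nil, List.cons_append,
      List.nil_append, if_true, if_false, Bool.false_eq_true]
    push_cast
    refine ⟨?_, ?_, ?_, ?_, ?_, ?_, ?_, ?_, ?_, ?_, ?_, ?_, ?_, ?_⟩ <;> linarith

end Helper25.KG.P1_35_1_0_v2
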