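import Pool.Agent.Helper25.KG.PL

set_option autoImplicit false
set_option linter.unusedVariables false

namespace Helper25.KG.P1_35_m1_0_u

open Helper11.CT Helper25.KW Helper25.KG

def base : List Con :=
  [(false,[0,1,0,-1,0,0,0,-1]),
  (false,[0,0,2,0,0,0,0,-1]),
  (true,[0,0,0,0,1,0,-2]),
  (true,[0,0,0,0,1,0,2]),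
  (false,[0,0,0,0,0,0,0,1,-1]),
  (false,[0,0,0,0,0,0,0,0,1]),
  (false,[0,0,0,0,1,0,0,-2]),
  (false,[0,0,0,0,0,-1,0,1]),
  (true,[0,0,0,0,0,1]),
  (true,[0,2,-1]),
  (true,[1,-1,1]),
  (true,[0,1,0,-1]),
  (true,[0,0,0,1]),
  (true,[0,0,-2,0,1]),
  (true,[0,-2,0,0,1]),
  (true,[-1,0,1]),
  (true,[-1,1])]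

def t0 : Tre :=
  (.Q [0,0,-1,-1,0,0,-1,-1,1] (.p true [0,0,1] [1] (⟨0,[(5,0)]⟩,⟨0,[(4,0)]⟩) .k 1 (⟨0,[]⟩,⟨0,[]⟩)
  .k .k) (.Q [0,-1,-1,0,0,0,-1,0,1] (.p true [0,0,1] [] (⟨0,[(6,0)]⟩,⟨0,[(5,0)]⟩) .k 0 (⟨0,[]⟩,⟨0,
  []⟩) .k .k) (.I [0,1,-2,-1,0,0,-1] (.Q [0,0,0,0,0,1,0,-1,1] (.ed false [0,1,1] .k) (.R ⟨0,false,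
  false,false,[1,0,-1],[0,1],[0,1,0,0,0,0,-1],(⟨0,[(8,0)]⟩,⟨0,[(9,0)]⟩),(⟨0,[(12,0)]⟩,⟨0,[(11,0)]⟩),
  ⟨0,[(0,0)]⟩,.k,.k,(.x (-1) ⟨3,[(6,0),(0,0),(2,1),(0,3)]⟩ ⟨0,[(12,0)]⟩),(.x (-1) ⟨3,[(6,0),(0,0),
  (2,1),(0,3)]⟩ ⟨0,[(12,0)]⟩),.k,.k,⟨false,0,⟨0,[(1,0)]⟩,⟨1,[(7,0),(8,1),(1,0),(0,1)]⟩⟩,⟨true,0,⟨0,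
  [(8,0)]⟩,⟨0,[(4,0),(4,0),(4,0),(1,0)]⟩⟩,⟨true,0,⟨0,[(20,0)]⟩,⟨0,[]⟩⟩,⟨false,1,⟨1,[(7,0),(0,1),(7,
  1),(1,0),(0,1)]⟩,⟨0,[(3,0)]⟩⟩,⟨false,0,⟨0,[]⟩,⟨0,[]⟩⟩,⟨false,0,⟨0,[]⟩,⟨0,[]⟩⟩,[.o ⟨false,0,⟨0,
  [(16,0)]⟩,⟨1,[(10,0),(4,1),(2,0)]⟩⟩,.o ⟨false,1,⟨3,[(6,0),(0,0),(8,3),(1,1)]⟩,⟨0,[(4,0)]⟩⟩,.o
  ⟨false,1,⟨1,[(9,1),(0,0),(6,0)]⟩,⟨0,[(4,0),(3,0),(5,0),(1,0)]⟩⟩,.a ⟨true,0,⟨0,[(9,0)]⟩,⟨0,[(8,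
  0)]⟩⟩ ⟨false,0,⟨0,[(3,0),(4,0),(7,0)]⟩,⟨1,[(7,0),(10,0),(0,1)]⟩⟩ ⟨true,0,⟨0,[(8,0),(7,0)]⟩,⟨0,[(4,
  0),(4,0)]⟩⟩]⟩) (.I [1,-1,-1,-1,0,0,-1] (.I [0,0,1,0,0,-2] (.R ⟨1,false,false,false,[1,0,-1],[0,1],
  [0,1,0,0,0,0,-1],(⟨0,[(10,0)]⟩,⟨0,[(11,0)]⟩),(⟨0,[(14,0)]⟩,⟨0,[(13,0)]⟩),⟨0,[(2,0)]⟩,.k,.k,(.x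
  (-1) ⟨7,[(0,3),(7,2),(0,2),(9,1)]⟩ ⟨0,[(14,0)]⟩),(.x (-1) ⟨7,[(0,3),(7,2),(0,2),(9,1)]⟩ ⟨0,[(14,
  0)]⟩),(.x 0 ⟨0,[(0,0)]⟩ ⟨3,[(8,0),(0,0),(4,7),(4,1)]⟩),.k,⟨false,0,⟨0,[(3,0)]⟩,⟨1,[(9,0),(8,1),(1,
  0),(0,1)]⟩⟩,⟨true,0,⟨0,[(10,0)]⟩,⟨0,[(6,0),(4,0),(4,0),(1,0)]⟩⟩,⟨true,0,⟨0,[(22,0)]⟩,⟨0,[]⟩⟩,
  ⟨false,1,⟨1,[(9,0),(0,1),(7,1),(1,0),(0,1)]⟩,⟨0,[(5,0)]⟩⟩,⟨false,0,⟨0,[(18,0)]⟩,⟨0,[(17,0),(2,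
  0)]⟩⟩,⟨false,1,⟨1,[(9,0),(0,1),(7,3),(1,0),(0,1)]⟩,⟨0,[(1,0),(4,0),(4,0)]⟩⟩,[.o ⟨false,0,⟨0,[(18,
  0)]⟩,⟨1,[(12,0),(4,1),(2,0)]⟩⟩,.o ⟨false,1,⟨3,[(8,0),(0,0),(8,3),(1,1)]⟩,⟨0,[(6,0)]⟩⟩,.o ⟨false,1,
  ⟨1,[(11,1),(0,0),(6,0)]⟩,⟨0,[(6,0),(3,0),(5,0),(1,0)]⟩⟩,.a ⟨true,0,⟨0,[(11,0)]⟩,⟨0,[(10,0)]⟩⟩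
  ⟨false,0,⟨3,[(1,0),(1,1),(0,0),(2,0),(2,0),(7,2)]⟩,⟨1,[(9,0),(10,0),(0,1)]⟩⟩ ⟨true,0,⟨0,[(10,0),
  (7,0)]⟩,⟨0,[(6,0),(4,0)]⟩⟩]⟩) (.Q [0,1,1,0,0,0,1,1,-1] (.p false [0,0,1] [1] (⟨0,[(11,0)]⟩,⟨0,
  [(10,0)]⟩) .k 1 (⟨0,[]⟩,⟨0,[]⟩) .k .k) (.R ⟨0,false,false,true,[1,-1],[0,0,1],[1],(⟨0,[(14,0)]⟩,
  ⟨0,[(15,0)]⟩),(⟨0,[(12,0)]⟩,⟨0,[(11,0)]⟩),⟨0,[(1,0),(5,0),(9,0),(1,0)]⟩,.k,.k,(.r (-1) ⟨2,[(2,1),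
  (1,1),(5,1),(7,1),(2,0)]⟩ ⟨0,[(19,1),(2,1)]⟩),(.x (-1) ⟨3,[(9,0),(0,0),(2,1),(0,3)]⟩ ⟨0,[(15,
  0)]⟩),.k,.k,⟨false,0,⟨0,[(2,0),(16,0)]⟩,⟨6,[(0,0),(7,0),(0,1),(0,4),(1,0),(3,2)]⟩⟩,⟨true,0,⟨0,
  [(11,0)]⟩,⟨0,[(7,0),(4,0),(4,0),(1,0)]⟩⟩,⟨false,0,⟨0,[(17,0),(1,0)]⟩,⟨1,[(18,1),(1,0),(0,0)]⟩⟩,
  ⟨true,0,⟨0,[(0,0),(18,0)]⟩,⟨0,[(6,0)]⟩⟩,⟨false,0,⟨0,[]⟩,⟨0,[]⟩⟩,⟨false,0,⟨0,[]⟩,⟨0,[]⟩⟩,[.a ⟨true,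
  0,⟨0,[(0,0)]⟩,⟨0,[(5,0)]⟩⟩ ⟨true,0,⟨0,[]⟩,⟨0,[(22,0)]⟩⟩ ⟨false,1,⟨0,[(0,0),(19,0)]⟩,⟨0,[(6,0),(10,
  0),(1,0)]⟩⟩,.o ⟨false,1,⟨1,[(0,1),(12,0),(7,0)]⟩,⟨0,[(6,0),(12,0)]⟩⟩,.o ⟨false,0,⟨0,[(7,0),(9,0),
  (1,0)]⟩,⟨3,[(9,0),(0,0),(9,1)]⟩⟩,.o ⟨false,0,⟨0,[(8,0)]⟩,⟨0,[(20,0)]⟩⟩]⟩) (.I [0,0,-2,-2,0,0,-1]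
  (.R ⟨1,false,false,false,[1,0,-1],[0,1],[0,1,0,0,0,0,-1],(⟨0,[(12,0)]⟩,⟨0,[(13,0)]⟩),(⟨0,[(16,
  0)]⟩,⟨0,[(15,0)]⟩),⟨0,[(4,0)]⟩,.k,.k,(.x (-1) ⟨3,[(10,0),(0,0),(2,1),(0,3)]⟩ ⟨0,[(16,0)]⟩),(.x
  (-1) ⟨3,[(10,0),(0,0),(2,1),(0,3)]⟩ ⟨0,[(16,0)]⟩),(.r 0 ⟨0,[(0,0)]⟩ ⟨3,[(10,0),(0,2),(8,7),(2,
  7)]⟩),.k,⟨false,0,⟨0,[(5,0)]⟩,⟨1,[(11,0),(8,1),(1,0),(0,1)]⟩⟩,⟨true,0,⟨0,[(12,0)]⟩,⟨0,[(8,0),(4,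
  0),(4,0),(1,0)]⟩⟩,⟨true,0,⟨0,[(24,0)]⟩,⟨0,[]⟩⟩,⟨false,1,⟨1,[(11,0),(0,1),(7,1),(1,0),(0,1)]⟩,⟨0,
  [(7,0)]⟩⟩,⟨false,0,⟨0,[(20,0)]⟩,⟨0,[(19,0),(2,0)]⟩⟩,⟨false,1,⟨1,[(11,0),(0,1),(7,3),(1,0),(0,1)]⟩,
  ⟨1,[(0,0),(6,0),(0,0),(4,0),(4,0)]⟩⟩,[.o ⟨false,0,⟨0,[(20,0)]⟩,⟨1,[(14,0),(4,1),(2,0)]⟩⟩,.o
  ⟨false,1,⟨3,[(10,0),(0,0),(8,3),(1,1)]⟩,⟨0,[(8,0)]⟩⟩,.o ⟨false,1,⟨1,[(13,1),(0,0),(6,0)]⟩,⟨1,[(2,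
  0),(1,1),(3,0),(0,0),(8,0),(1,0)]⟩⟩,.a ⟨true,0,⟨0,[(13,0)]⟩,⟨0,[(12,0)]⟩⟩ ⟨false,0,⟨3,[(1,0),(3,
  1),(0,0),(2,0),(2,1),(7,1)]⟩,⟨1,[(11,0),(10,0),(0,1)]⟩⟩ ⟨true,0,⟨0,[(12,0),(7,0)]⟩,⟨0,[(8,0),(4,
  0)]⟩⟩]⟩) (.R ⟨2,false,false,true,[0,1],[0,1,1],[1,1,1],(⟨0,[]⟩,⟨0,[]⟩),(⟨1,[(2,0),(10,1),(9,0)]⟩,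
  ⟨0,[(4,0)]⟩),⟨0,[]⟩,.k,(.x 0 ⟨0,[(16,0)]⟩ ⟨3,[(10,0),(0,0),(2,1),(0,3)]⟩),.k,.k,(.x (-1) ⟨3,[(10,
  0),(0,0),(2,1),(0,3)]⟩ ⟨0,[(16,0)]⟩),.k,⟨false,0,⟨1,[(3,0),(1,0),(17,0)]⟩,⟨7,[(0,3),(9,0),(0,2),
  (9,3)]⟩⟩,⟨true,0,⟨4,[(0,0),(0,0),(0,2),(1,5),(3,1),(0,2),(8,0)]⟩,⟨0,[(13,0)]⟩⟩,⟨true,0,⟨0,[(19,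
  0)]⟩,⟨0,[(20,0)]⟩⟩,⟨false,1,⟨7,[(9,3),(0,0),(0,4),(0,7),(1,1)]⟩,⟨0,[(6,0)]⟩⟩,⟨false,0,⟨0,[]⟩,⟨3,
  [(10,0),(0,0),(10,1)]⟩⟩,⟨false,1,⟨7,[(0,3),(9,0),(0,2),(0,7),(1,3)]⟩,⟨0,[(3,0),(9,0)]⟩⟩,[.a ⟨true,
  0,⟨0,[(0,0),(1,0),(1,0),(3,0),(6,0)]⟩,⟨0,[(3,0),(9,0)]⟩⟩ ⟨false,0,⟨0,[(24,0)]⟩,⟨1,[(21,0),(0,
  0)]⟩⟩ ⟨true,0,⟨0,[(0,0),(7,0),(3,0)]⟩,⟨0,[(3,0),(9,0)]⟩⟩,.o ⟨false,1,⟨7,[(0,3),(9,0),(0,2),(0,7),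
  (1,3)]⟩,⟨0,[(7,0)]⟩⟩,.o ⟨false,1,⟨3,[(10,0),(0,0),(9,1)]⟩,⟨4,[(0,1),(0,1),(0,0),(1,1),(3,3),(0,0),
  (8,1)]⟩⟩,.e ⟨false,0,⟨0,[]⟩,⟨3,[(10,0),(0,0),(10,1)]⟩⟩ ⟨false,1,⟨7,[(0,3),(9,0),(0,2),(0,7),(1,
  3)]⟩,⟨0,[(3,0),(9,0)]⟩⟩]⟩)))) (.S ⟨1,0,[0,1,0,0,0,0,-1],[1,0,-1],[1,0,0,-1,0,0,-1],(⟨0,[(9,0)]⟩,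
  ⟨0,[(10,0)]⟩),⟨0,[(1,0)]⟩,.k,(.x (-1) ⟨3,[(7,0),(0,0),(2,1),(0,3)]⟩ ⟨0,[(13,0)]⟩),⟨false,1,⟨0,
  [(16,0),(2,0)]⟩,⟨0,[(17,0)]⟩⟩,⟨true,0,⟨0,[(21,0)]⟩,⟨0,[]⟩⟩,⟨true,0,⟨0,[]⟩,⟨0,[(21,0)]⟩⟩,⟨false,0,
  ⟨0,[(17,0)]⟩,⟨0,[(16,0),(2,0)]⟩⟩,[.o ⟨false,0,⟨2,[(3,0),(0,1),(1,0),(7,1),(2,1)]⟩,⟨1,[(8,0),(0,1),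
  (1,0),(3,1)]⟩⟩,.o ⟨false,0,⟨0,[(4,0),(12,0)]⟩,⟨7,[(6,3),(0,0),(0,4),(0,7),(1,1)]⟩⟩,.o ⟨false,1,⟨1,
  [(10,1),(0,0),(6,0)]⟩,⟨0,[(5,0),(3,0),(5,0),(1,0)]⟩⟩,.a ⟨true,0,⟨0,[(10,0)]⟩,⟨0,[(9,0)]⟩⟩ ⟨true,0,
  ⟨0,[(4,0),(4,0)]⟩,⟨0,[(0,0)]⟩⟩ ⟨false,0,⟨0,[(4,0),(4,0),(7,0)]⟩,⟨1,[(8,0),(10,0),(0,1)]⟩⟩]⟩)))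
  (.Q [0,0,0,0,0,1,0,-1,1] (.ed false [0,1,1] .k) (.R ⟨0,false,false,true,[1,0,-1],[0,1],[1,0,1],
  (⟨0,[(8,0)]⟩,⟨0,[(9,0)]⟩),(⟨0,[(12,0)]⟩,⟨0,[(11,0)]⟩),⟨0,[(0,0)]⟩,.k,.k,(.x (-1) ⟨3,[(6,0),(0,0),
  (2,1),(0,3)]⟩ ⟨0,[(12,0)]⟩),(.x (-1) ⟨3,[(6,0),(0,0),(2,1),(0,3)]⟩ ⟨0,[(12,0)]⟩),.k,.k,⟨false,1,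
  ⟨1,[(3,1),(3,0),(0,1),(9,0)]⟩,⟨0,[(16,0),(3,0)]⟩⟩,⟨true,0,⟨0,[(8,0)]⟩,⟨2,[(1,1),(1,1),(1,0),(3,0),
  (3,0)]⟩⟩,⟨false,1,⟨7,[(1,3),(4,0),(0,2),(7,3),(2,3)]⟩,⟨0,[(3,0),(4,0),(7,0)]⟩⟩,⟨true,0,⟨0,[(1,0),
  (6,0),(4,0)]⟩,⟨0,[(3,0)]⟩⟩,⟨false,0,⟨0,[]⟩,⟨0,[]⟩⟩,⟨false,0,⟨0,[]⟩,⟨0,[]⟩⟩,[.o ⟨false,0,⟨0,[(16,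
  0),(3,0)]⟩,⟨0,[(4,0),(13,0)]⟩⟩,.o ⟨false,0,⟨0,[(16,0)]⟩,⟨1,[(10,0),(4,1),(2,0)]⟩⟩,.o ⟨false,1,⟨1,
  [(9,1),(0,0),(6,0)]⟩,⟨0,[(4,0),(3,0),(5,0),(1,0)]⟩⟩,.a ⟨true,0,⟨0,[(9,0)]⟩,⟨0,[(8,0)]⟩⟩ ⟨true,0,
  ⟨0,[]⟩,⟨0,[(20,0)]⟩⟩ ⟨false,0,⟨0,[(8,0),(7,0)]⟩,⟨2,[(3,1),(1,0),(1,0),(1,0),(5,0),(2,1)]⟩⟩]⟩) (.S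
  ⟨1,0,[0,1,0,0,0,0,-1],[1,0,-1],[1,0,0,-1,0,0,-1],(⟨0,[(8,0)]⟩,⟨0,[(9,0)]⟩),⟨0,[(0,0)]⟩,.k,(.x
  (-1) ⟨3,[(6,0),(0,0),(2,1),(0,3)]⟩ ⟨0,[(12,0)]⟩),⟨false,1,⟨0,[(15,0),(2,0)]⟩,⟨0,[(16,0)]⟩⟩,⟨true,
  0,⟨0,[(20,0)]⟩,⟨0,[]⟩⟩,⟨true,0,⟨0,[]⟩,⟨0,[(20,0)]⟩⟩,⟨false,0,⟨0,[(16,0)]⟩,⟨0,[(15,0),(2,0)]⟩⟩,[.o
  ⟨false,0,⟨2,[(2,0),(0,1),(1,0),(7,1),(2,1)]⟩,⟨3,[(1,1),(2,1),(2,0),(0,3),(1,0),(7,1)]⟩⟩,.o ⟨false,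
  0,⟨0,[(3,0),(12,0)]⟩,⟨7,[(5,3),(0,0),(0,4),(0,7),(1,1)]⟩⟩,.o ⟨false,1,⟨1,[(9,1),(0,0),(6,0)]⟩,⟨0,
  [(4,0),(3,0),(5,0),(1,0)]⟩⟩,.a ⟨true,0,⟨0,[(9,0)]⟩,⟨0,[(8,0)]⟩⟩ ⟨true,0,⟨0,[(3,0),(4,0)]⟩,⟨0,[(1,
  0),(11,0)]⟩⟩ ⟨false,0,⟨0,[(3,0),(4,0),(7,0)]⟩,⟨7,[(1,3),(4,0),(0,2),(7,3),(2,3)]⟩⟩]⟩))) (.K ⟨0,[0,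
  0,1],0,0,(⟨0,[(7,0)]⟩,⟨0,[(6,0)]⟩),.k,(.r (-1) ⟨0,[(1,0),(3,0),(0,0)]⟩ ⟨0,[(1,0),(4,0),(7,1),(2,
  1)]⟩),(.x 0 ⟨0,[(10,0)]⟩ ⟨3,[(4,0),(0,0),(2,1),(0,3)]⟩),.k,.k,[⟨0,[(7,0)]⟩,⟨0,[(3,0),(2,0)]⟩,⟨0,
  [(1,0),(4,0),(0,0),(6,0),(3,0)]⟩,⟨0,[(0,0)]⟩]⟩)) (.Q [0,1,0,2,-1,0,0,1] (.pp false [-1,1]) (.R ⟨2,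
  true,false,false,[0,1],[1,-1],[1,0,1],(⟨0,[]⟩,⟨0,[]⟩),(⟨0,[(9,0)]⟩,⟨0,[(10,0)]⟩),⟨0,[]⟩,.k,.k,.k,
  (.r 1 ⟨2,[(0,3),(1,1),(5,0),(3,5)]⟩ ⟨0,[(13,1),(1,0),(0,0)]⟩),.k,.k,⟨true,(-1),⟨0,[(0,0),(1,0),(9,
  1)]⟩,⟨1,[(13,1),(1,0),(0,0)]⟩⟩,⟨false,0,⟨2,[(0,0),(1,1),(5,0),(3,2)]⟩,⟨0,[(6,0),(0,0),(7,0)]⟩⟩,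
  ⟨false,1,⟨0,[(13,0),(2,0)]⟩,⟨0,[(14,0)]⟩⟩,⟨true,1,⟨0,[(2,0),(10,0),(2,0)]⟩,⟨0,[(0,0)]⟩⟩,⟨true,0,
  ⟨0,[]⟩,⟨0,[(18,0)]⟩⟩,⟨false,1,⟨0,[(2,0),(13,0)]⟩,⟨9,[(0,3),(0,1),(2,0),(1,3),(0,5),(7,0),(0,1)]⟩⟩,
  []⟩) (.Q [0,1,-1,0,0,0,-1,0,1] (.p true [0,0,1] [] (⟨0,[(7,0)]⟩,⟨0,[(6,0)]⟩) .k 0 (⟨0,[]⟩,⟨0,[]⟩)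
  .k .k) (.K ⟨0,[0,0,1],0,0,(⟨0,[(8,0)]⟩,⟨0,[(7,0)]⟩),.k,(.x 0 ⟨0,[(4,0),(5,0)]⟩ ⟨0,[(11,0),(4,
  0)]⟩),(.x 0 ⟨0,[(11,0)]⟩ ⟨3,[(5,0),(0,0),(2,1),(0,3)]⟩),.k,.k,[⟨0,[(8,0)]⟩,⟨0,[(4,0),(2,0)]⟩,⟨0,
  [(0,0)]⟩,⟨0,[(2,0),(0,0)]⟩]⟩) (.Q [0,-1,-1,0,1,0,-1,0,1] (.p true [0,0,1] [] (⟨0,[(8,0)]⟩,⟨0,[(7,
  0)]⟩) .k 0 (⟨0,[]⟩,⟨0,[]⟩) .k .k) (.Q [0,0,0,0,0,1,0,-1,1] (.ed false [0,1,1] .k) (.I [0,1,-2,-1,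
  1,0,-1] (.R ⟨0,false,false,false,[1,0,-1],[0,1],[0,1,0,0,0,0,-1],(⟨0,[(10,0)]⟩,⟨0,[(11,0)]⟩),(⟨0,
  [(14,0)]⟩,⟨0,[(13,0)]⟩),⟨0,[(1,0)]⟩,.k,.k,(.x (-1) ⟨3,[(8,0),(0,0),(2,1),(0,3)]⟩ ⟨0,[(14,0)]⟩),
  (.x (-1) ⟨3,[(8,0),(0,0),(2,1),(0,3)]⟩ ⟨0,[(14,0)]⟩),.k,.k,⟨false,1,⟨0,[(0,0)]⟩,⟨0,[(3,0),(7,0),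
  (6,0)]⟩⟩,⟨true,0,⟨0,[(10,0)]⟩,⟨0,[(6,0),(4,0),(4,0),(1,0)]⟩⟩,⟨true,0,⟨0,[(22,0)]⟩,⟨0,[]⟩⟩,⟨false,
  0,⟨0,[(3,0),(6,0),(0,0),(6,0)]⟩,⟨0,[(2,0),(3,0)]⟩⟩,⟨false,0,⟨0,[]⟩,⟨0,[]⟩⟩,⟨false,0,⟨0,[]⟩,⟨0,
  []⟩⟩,[.o ⟨false,0,⟨0,[(18,0)]⟩,⟨5,[(0,1),(3,1),(2,1),(1,0),(2,0)]⟩⟩,.o ⟨false,1,⟨3,[(2,1),(2,1),
  (6,0),(5,1),(1,0)]⟩,⟨0,[(6,0)]⟩⟩,.o ⟨false,1,⟨1,[(11,1),(0,0),(6,0)]⟩,⟨0,[(6,0),(3,0),(5,0),(1,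
  0)]⟩⟩,.a ⟨true,0,⟨0,[(11,0)]⟩,⟨0,[(10,0)]⟩⟩ ⟨false,1,⟨1,[(8,0),(10,0)]⟩,⟨0,[(3,0),(7,0)]⟩⟩ ⟨true,
  0,⟨0,[(10,0),(7,0)]⟩,⟨0,[(6,0),(4,0)]⟩⟩]⟩) (.I [1,1,1,0,-1,0,1] (.R ⟨0,false,false,true,[1,0,-1],
  [0,1],[0,0,0,0,0,0,-1],(⟨0,[(11,0)]⟩,⟨0,[(12,0)]⟩),(⟨0,[(15,0)]⟩,⟨0,[(14,0)]⟩),⟨0,[(2,0)]⟩,.k,.k,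
  (.x (-1) ⟨3,[(9,0),(0,0),(2,1),(0,3)]⟩ ⟨0,[(15,0)]⟩),(.x (-1) ⟨3,[(9,0),(0,0),(2,1),(0,3)]⟩ ⟨0,
  [(15,0)]⟩),.k,.k,⟨false,2,⟨3,[(3,1),(1,1),(3,0),(1,1),(8,2)]⟩,⟨0,[(1,0),(14,0)]⟩⟩,⟨true,0,⟨0,[(11,
  0)]⟩,⟨3,[(1,1),(5,1),(1,0),(2,3),(0,0)]⟩⟩,⟨false,1,⟨3,[(9,0),(0,0),(10,1)]⟩,⟨0,[]⟩⟩,⟨true,(-1),⟨0,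
  [(1,0),(9,0),(4,0)]⟩,⟨0,[(3,0),(3,0)]⟩⟩,⟨false,0,⟨0,[]⟩,⟨0,[]⟩⟩,⟨false,0,⟨0,[]⟩,⟨0,[]⟩⟩,[.o
  ⟨false,0,⟨8,[(1,0),(4,0),(1,0),(0,0),(2,0),(3,4),(2,6)]⟩,⟨3,[(5,1),(7,0),(7,0)]⟩⟩,.o ⟨false,0,⟨0,
  [(19,0)]⟩,⟨5,[(5,1),(3,0),(0,0),(2,1),(4,1)]⟩⟩,.o ⟨false,1,⟨1,[(12,1),(0,0),(6,0)]⟩,⟨3,[(1,1),(5,
  1),(1,0),(1,3),(1,0)]⟩⟩,.a ⟨true,0,⟨0,[(12,0)]⟩,⟨0,[(11,0)]⟩⟩ ⟨true,1,⟨1,[(9,0),(10,0)]⟩,⟨0,[(0,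
  0)]⟩⟩ ⟨false,0,⟨0,[(11,0),(7,0)]⟩,⟨13,[(1,1),(1,3),(1,7),(4,0),(1,9),(0,2)]⟩⟩]⟩) (.R ⟨0,false,
  false,true,[1,0,-1],[0,1],[0,1,1],(⟨0,[(11,0)]⟩,⟨0,[(12,0)]⟩),(⟨0,[(15,0)]⟩,⟨0,[(14,0)]⟩),⟨0,[(2,
  0)]⟩,.k,.k,(.x (-1) ⟨3,[(9,0),(0,0),(2,1),(0,3)]⟩ ⟨0,[(15,0)]⟩),(.x (-1) ⟨3,[(9,0),(0,0),(2,1),(0,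
  3)]⟩ ⟨0,[(15,0)]⟩),.k,.k,⟨false,1,⟨7,[(3,1),(1,1),(4,0),(0,1),(6,3),(1,2)]⟩,⟨0,[(19,0)]⟩⟩,⟨true,0,
  ⟨0,[(11,0)]⟩,⟨3,[(1,1),(5,1),(1,0),(2,3),(0,0)]⟩⟩,⟨false,0,⟨2,[(1,0),(8,0),(7,0),(3,0)]⟩,⟨0,[(0,
  0)]⟩⟩,⟨true,(-1),⟨0,[(1,0),(9,0),(4,0)]⟩,⟨0,[(3,0),(3,0)]⟩⟩,⟨false,0,⟨0,[]⟩,⟨0,[]⟩⟩,⟨false,0,⟨0,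
  []⟩,⟨0,[]⟩⟩,[.o ⟨false,0,⟨8,[(1,0),(4,0),(1,0),(0,0),(2,0),(3,4),(2,6)]⟩,⟨3,[(5,1),(7,0),(7,0)]⟩⟩,
  .o ⟨false,0,⟨0,[(19,0)]⟩,⟨5,[(5,1),(3,0),(0,0),(2,1),(4,1)]⟩⟩,.o ⟨false,1,⟨1,[(12,1),(0,0),(6,
  0)]⟩,⟨3,[(1,1),(5,1),(1,0),(1,3),(1,0)]⟩⟩,.a ⟨true,0,⟨0,[(12,0)]⟩,⟨0,[(11,0)]⟩⟩ ⟨true,0,⟨0,[(23,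
  0)]⟩,⟨0,[]⟩⟩ ⟨false,0,⟨0,[(11,0),(7,0)]⟩,⟨13,[(1,1),(1,3),(1,7),(4,0),(1,9),(0,2)]⟩⟩]⟩))) (.I [0,
  0,-2,-2,1,0,-1] (.R ⟨1,false,false,false,[1,0,-1],[0,1],[0,0,0,0,0,0,-1],(⟨0,[(10,0)]⟩,⟨0,[(11,
  0)]⟩),(⟨0,[(14,0)]⟩,⟨0,[(13,0)]⟩),⟨0,[(1,0)]⟩,.k,.k,(.x (-1) ⟨3,[(8,0),(0,0),(2,1),(0,3)]⟩ ⟨0,
  [(14,0)]⟩),(.x (-1) ⟨3,[(8,0),(0,0),(2,1),(0,3)]⟩ ⟨0,[(14,0)]⟩),(.r (-1) ⟨0,[(0,0)]⟩ ⟨4,[(3,1),(1,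
  2),(1,2),(3,4),(3,0),(2,6)]⟩),.k,⟨false,1,⟨0,[(0,0),(17,0)]⟩,⟨4,[(3,3),(1,0),(1,0),(3,4),(3,1),(2,
  3)]⟩⟩,⟨true,0,⟨0,[(10,0)]⟩,⟨0,[(6,0),(4,0),(4,0),(1,0)]⟩⟩,⟨false,1,⟨3,[(8,0),(0,0),(10,1)]⟩,⟨0,
  []⟩⟩,⟨false,0,⟨0,[(3,0),(6,0),(0,0),(6,0)]⟩,⟨0,[(2,0),(3,0)]⟩⟩,⟨true,0,⟨0,[(18,0)]⟩,⟨0,[(17,0)]⟩⟩,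
  ⟨false,0,⟨0,[(3,0),(6,0),(0,0),(6,1)]⟩,⟨1,[(0,0),(1,0),(3,1),(4,0),(4,0)]⟩⟩,[.o ⟨false,0,⟨0,[(18,
  0)]⟩,⟨5,[(4,1),(3,0),(0,0),(2,1),(4,1)]⟩⟩,.o ⟨false,1,⟨3,[(2,1),(2,1),(6,0),(5,1),(1,0)]⟩,⟨0,[(6,
  0)]⟩⟩,.o ⟨false,1,⟨1,[(11,1),(0,0),(6,0)]⟩,⟨0,[(6,0),(3,0),(5,0),(1,0)]⟩⟩,.a ⟨true,0,⟨0,[(11,0)]⟩,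
  ⟨0,[(10,0)]⟩⟩ ⟨false,1,⟨0,[(0,0),(15,0),(1,1)]⟩,⟨1,[(3,0),(1,0),(0,0),(4,1)]⟩⟩ ⟨true,0,⟨0,[(10,0),
  (7,0)]⟩,⟨0,[(6,0),(4,0)]⟩⟩]⟩) (.I [0,1,1,1,-1,0,1] (.S ⟨1,0,[0,1,0,0,0,0,-1],[1,0,-1],[1,0,0,-1,0,
  0,-1],(⟨0,[(11,0)]⟩,⟨0,[(12,0)]⟩),⟨0,[(2,0)]⟩,.k,(.x (-1) ⟨3,[(9,0),(0,0),(2,1),(0,3)]⟩ ⟨0,[(15,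
  0)]⟩),⟨false,1,⟨0,[(18,0),(2,0)]⟩,⟨0,[(19,0)]⟩⟩,⟨true,0,⟨0,[(23,0)]⟩,⟨0,[]⟩⟩,⟨true,0,⟨0,[]⟩,⟨0,
  [(23,0)]⟩⟩,⟨false,0,⟨0,[(19,0)]⟩,⟨0,[(18,0),(2,0)]⟩⟩,[.o ⟨false,1,⟨5,[(1,1),(1,5),(3,3),(1,0),(3,
  0),(2,3)]⟩,⟨0,[(4,0)]⟩⟩,.o ⟨false,1,⟨0,[(3,0),(3,0),(11,0)]⟩,⟨1,[(4,0),(1,0),(0,0)]⟩⟩,.o ⟨false,1,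
  ⟨1,[(12,1),(0,0),(6,0)]⟩,⟨0,[(7,0),(3,0),(5,0),(1,0)]⟩⟩,.a ⟨true,0,⟨0,[(12,0)]⟩,⟨0,[(11,0)]⟩⟩
  ⟨true,1,⟨0,[(3,0),(3,0),(3,0)]⟩,⟨0,[(0,0)]⟩⟩ ⟨false,1,⟨1,[(9,0),(10,0)]⟩,⟨0,[(4,0),(7,0)]⟩⟩]⟩)
  (.I [0,0,1,0,0,-2] (.R ⟨1,false,false,false,[1,0,-1],[0,1],[0,1,0,0,0,0,-1],(⟨0,[(12,0)]⟩,⟨0,[(13,
  0)]⟩),(⟨0,[(16,0)]⟩,⟨0,[(15,0)]⟩),⟨0,[(3,0)]⟩,.k,.k,(.x (-1) ⟨7,[(0,3),(9,2),(0,2),(9,1)]⟩ ⟨0,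
  [(16,0)]⟩),(.x (-1) ⟨7,[(0,3),(9,2),(0,2),(9,1)]⟩ ⟨0,[(16,0)]⟩),(.x 0 ⟨0,[(0,0)]⟩ ⟨3,[(10,0),(0,
  0),(4,7),(4,1)]⟩),.k,⟨false,1,⟨0,[(1,0),(15,0)]⟩,⟨3,[(2,1),(2,1),(7,1),(7,0),(0,0)]⟩⟩,⟨true,0,⟨0,
  [(12,0)]⟩,⟨1,[(2,0),(1,0),(3,1),(4,0),(4,0)]⟩⟩,⟨true,0,⟨0,[(24,0)]⟩,⟨0,[]⟩⟩,⟨false,0,⟨3,[(2,1),(2,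
  1),(6,3),(0,1),(7,0),(0,0)]⟩,⟨0,[(4,0),(3,0)]⟩⟩,⟨false,0,⟨0,[(20,0)]⟩,⟨0,[(19,0),(2,0)]⟩⟩,⟨false,
  0,⟨1,[(2,1),(9,1),(8,0),(0,0)]⟩,⟨0,[(1,0),(6,0),(4,0)]⟩⟩,[.o ⟨false,0,⟨0,[(20,0)]⟩,⟨5,[(6,1),(3,
  0),(0,0),(2,1),(4,1)]⟩⟩,.o ⟨false,1,⟨3,[(4,1),(2,1),(6,0),(5,1),(1,0)]⟩,⟨0,[(8,0)]⟩⟩,.o ⟨false,1,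
  ⟨1,[(13,1),(0,0),(6,0)]⟩,⟨0,[(8,0),(3,0),(5,0),(1,0)]⟩⟩,.a ⟨true,0,⟨0,[(13,0)]⟩,⟨0,[(12,0)]⟩⟩
  ⟨false,1,⟨1,[(10,0),(10,0)]⟩,⟨0,[(5,0),(7,0)]⟩⟩ ⟨true,0,⟨0,[(12,0),(7,0)]⟩,⟨0,[(8,0),(4,0)]⟩⟩]⟩)
  (.I [0,0,0,1,0,0,1] (.R ⟨2,false,false,true,[0,1],[0,1,1],[1,1,1],(⟨0,[]⟩,⟨0,[]⟩),(⟨1,[(1,0),(12,
  1),(9,0)]⟩,⟨0,[(4,0)]⟩),⟨0,[]⟩,.k,(.x 0 ⟨0,[(17,0)]⟩ ⟨3,[(11,0),(0,0),(2,1),(0,3)]⟩),.k,.k,(.x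
  (-1) ⟨3,[(11,0),(0,0),(2,1),(0,3)]⟩ ⟨0,[(17,0)]⟩),.k,⟨false,1,⟨3,[(2,1),(8,0),(8,1),(1,0)]⟩,⟨0,
  [(0,0)]⟩⟩,⟨true,0,⟨2,[(1,0),(1,0),(0,1),(1,0),(2,1),(1,0),(7,0)]⟩,⟨0,[(14,0)]⟩⟩,⟨true,0,⟨0,[(20,
  0)]⟩,⟨0,[(21,0)]⟩⟩,⟨false,0,⟨1,[(6,0),(1,0),(0,0)]⟩,⟨0,[(5,0)]⟩⟩,⟨false,0,⟨0,[]⟩,⟨3,[(11,0),(0,0),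
  (10,1)]⟩⟩,⟨false,0,⟨5,[(0,0),(2,1),(2,1),(1,0),(4,2),(1,1),(2,0)]⟩,⟨0,[(2,0),(11,0)]⟩⟩,[.a ⟨true,
  (-1),⟨0,[(1,0),(1,0),(0,0),(4,0),(6,0)]⟩,⟨0,[(2,0),(11,0)]⟩⟩ ⟨false,0,⟨0,[(25,0)]⟩,⟨1,[(22,0),(0,
  0)]⟩⟩ ⟨true,(-1),⟨0,[(3,0),(5,0),(3,0)]⟩,⟨0,[(2,0),(11,0)]⟩⟩,.o ⟨false,0,⟨5,[(0,0),(2,1),(2,1),(1,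
  0),(4,2),(1,1),(2,0)]⟩,⟨0,[(5,0),(3,0)]⟩⟩,.o ⟨false,1,⟨3,[(11,0),(0,0),(9,1)]⟩,⟨0,[(9,0),(9,0),(1,
  0)]⟩⟩,.e ⟨false,0,⟨0,[]⟩,⟨3,[(11,0),(0,0),(10,1)]⟩⟩ ⟨false,0,⟨5,[(0,0),(2,1),(2,1),(1,0),(4,2),(1,
  1),(2,0)]⟩,⟨0,[(2,0),(11,0)]⟩⟩]⟩) (.K ⟨0,[1,0,-2],1,1,(⟨5,[(0,2),(0,4),(1,1),(0,9),(1,0),(2,0),(3,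
  0),(1,1)]⟩,⟨0,[(14,1)]⟩),.k,(.r (-1) ⟨1,[(0,1),(10,0),(10,0)]⟩ ⟨3,[(3,1),(2,3),(5,0),(1,3),(3,1),
  (3,0)]⟩),(.r 0 ⟨1,[(0,2),(2,0),(7,0),(9,2)]⟩ ⟨1,[(1,0),(4,3),(2,1),(4,3),(1,1),(1,0),(3,1)]⟩),.k,
  .k,[⟨3,[(0,5),(2,3),(2,1),(2,0),(0,0),(2,5),(6,0)]⟩,⟨1,[(14,3),(0,0),(6,0)]⟩,⟨0,[(1,0),(1,0),(0,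
  0),(1,0),(2,0),(6,0),(3,0)]⟩,⟨0,[(0,1),(8,0),(4,1),(6,2),(0,0)]⟩]⟩)))))) (.K ⟨0,[0,0,1],0,(-1),
  (⟨0,[(9,0)]⟩,⟨0,[(8,0)]⟩),.k,(.x 0 ⟨0,[(5,0),(5,0)]⟩ ⟨0,[(12,0),(4,0)]⟩),(.x 0 ⟨0,[(12,0)]⟩ ⟨3,
  [(6,0),(0,0),(2,1),(0,3)]⟩),.k,.k,[⟨0,[(9,0)]⟩,⟨0,[(5,0),(2,0)]⟩,⟨7,[(6,4),(0,0),(1,7),(3,3),(3,
  1)]⟩,⟨0,[(0,0)]⟩]⟩)))))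

def tree : Tre :=
  t0

theorem ok : chk (cPU (-1) true) tree base = true := by
  decide +kernel

theorem closed {p a b c J l q : ℤ} {D dl : ℝ} {Cl : ℤ → ℤ → ℤ → ℤ → ℝ → Prop}
    (W : World p a b c J (-1) l q D dl Cl) (hE : KEmp p a b (-1) (P1 l p) Cl)
    (g : G0 p a b c J D)
    {N R : ℤ} {I : ℝ} (hu : UFac p b D Cl N R I)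
    (s0 : (1 : ℝ) ≤ c)
    (s1 : (a : ℝ) ≤ b)
    (s2 : (b : ℝ) + 1 ≤ 2 * a)
    (s3 : D < 2 * b)
    (s4 : -(a : ℝ) < -D - c) : False := by
  have g1 := g.a2
  have g2 := g.b2
  have g3 := g.pa
  have g4 := g.pb
  have g5 := g.J1
  have g6 := g.JD
  have g7 := g.D2
  have g8 := g.ca
  have g9 := g.ca'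
  have t1 := TF.ofU hu
  have i1 := t1.I0
  have i2 := t1.ID
  have i3 := t1.R1
  have i4 := t1.R2
  refine (val_PU W.toBase (UV.ofU hu)).sound W rfl (Nk := 0) (fun kf hkf hh => ?_) (kok_B hE (by simp [xv]) (by simp [xv]) 0) ?_ ok
  · simp only [cPU, kfB, List.mem_cons, List.not_mem_nil, or_false] at hkf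
    subst hkf
    exact absurd hh (by norm_num)
  · simp only [base, List.forall_mem_cons, List.not_mem_nil, false_imp_iff, implies_true,
      and_true, hld, xv, evg_cons, evg_nil, List.map_cons, List.map_nil, List.cons_append,
      List.nil_append, if_true, if_false, Bool.false_eq_true]
    push_cast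
    refine ⟨?_, ?_, ?_, ?_, ?_, ?_, ?_, ?_, ?_, ?_, ?_, ?_, ?_, ?_, ?_, ?_, ?_⟩ <;> linarith

end Helper25.KG.P1_35_m1_0_u
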