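import Pool.Agent.Helper25.KG.PL

set_option autoImplicit false
set_option linter.unusedVariables false

namespace Helper25.KG.P1_35_m1_0_v

open Helper11.CT Helper25.KW Helper25.KG

def base : List Con :=
  [(false,[0,1,0,-1,0,0,0,-1]),
  (false,[0,0,2,0,0,0,0,-1]),
  (true,[0,0,0,0,1,0,-2]),
  (true,[0,0,0,0,1,0,2]),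
  (false,[0,0,0,0,0,0,0,1,-2]),
  (false,[0,0,0,0,0,0,0,0,1]),
  (false,[0,0,0,0,1,0,0,-2]),
  (false,[0,0,0,0,0,-1,0,1]),
  (true,[0,0,0,0,0,1]),
  (true,[0,2,-1]),
  (true,[1,-1,1]),
  (true,[0,1,0,-1]),
  (true,[0,0,0,1]),
  (true,[0,0,-2,0,1]),
  (true,[0,-2,0,0,1]),
  (true,[-1,0,1]),
  (true,[-1,1])]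

def t0 : Tre :=
  (.I [1,-1,0,1,0,0,1] (.I [1,1,0,0,0,0,-1] (.K ⟨0,[0,0,1],0,0,(⟨0,[(9,0)]⟩,⟨1,[(8,0),(2,0),(0,
  0)]⟩),.k,(.r (-1) ⟨2,[(1,0),(0,1),(4,0),(6,0),(0,1)]⟩ ⟨0,[(0,0),(13,0),(1,0)]⟩),(.r 0 ⟨0,[(1,0),
  (2,1),(6,1),(0,1),(1,0),(1,1)]⟩ ⟨0,[(0,0),(1,0),(11,0)]⟩),.k,.k,[⟨0,[(9,0),(9,0)]⟩,⟨1,[(5,0),(2,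
  0)]⟩,⟨0,[(0,0),(8,0)]⟩,⟨5,[(1,3),(1,1),(0,2),(3,2),(4,1),(1,2)]⟩]⟩) (.Q [0,0,0,-2,1,0,-1,-1,1]
  (.p true [0,0,1] [1] (⟨0,[(9,0)]⟩,⟨1,[(8,0),(2,0),(0,0)]⟩) .k 1 (⟨0,[]⟩,⟨0,[]⟩) .k .k) (.Q [0,0,0,
  0,0,1,0,0,-1] (.ed true [1,-1,1] .k) (.I [1,-1,2,1,0,0,-1] (.I [1,1,-1,-2,0,0,1] (.R ⟨0,false,
  false,false,[0,0,1],[0,1],[0,1,0,0,0,0,1],(⟨0,[(13,0)]⟩,⟨1,[(12,0),(2,0),(0,0)]⟩),(⟨0,[(16,0)]⟩,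
  ⟨0,[(15,0)]⟩),⟨0,[(2,0)]⟩,.k,.k,(.x 0 ⟨1,[(1,0),(3,0),(2,1),(6,1)]⟩ ⟨3,[(10,0),(0,0),(4,3),(4,
  1)]⟩),(.x 0 ⟨1,[(1,0),(3,0),(2,1),(6,1)]⟩ ⟨3,[(10,0),(0,0),(4,3),(4,1)]⟩),.k,.k,⟨true,0,⟨2,[(0,1),
  (4,0),(11,0)]⟩,⟨0,[(1,0)]⟩⟩,⟨false,1,⟨0,[(13,0),(7,0)]⟩,⟨1,[(9,0),(2,0)]⟩⟩,⟨true,0,⟨0,[(24,0)]⟩,
  ⟨0,[]⟩⟩,⟨false,1,⟨1,[(10,0),(2,1),(6,1),(1,0)]⟩,⟨5,[(0,1),(3,3),(3,1),(0,0),(2,2)]⟩⟩,⟨false,0,⟨0,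
  []⟩,⟨0,[]⟩⟩,⟨false,0,⟨0,[]⟩,⟨0,[]⟩⟩,[.o ⟨false,0,⟨0,[(20,0)]⟩,⟨23,[(0,1),(2,9),(5,0),(1,3),(0,4),
  (1,8),(7,0)]⟩⟩,.o ⟨false,1,⟨3,[(7,1),(2,0),(9,1),(0,0),(0,1)]⟩,⟨0,[(8,0)]⟩⟩,.a ⟨true,0,⟨1,[(12,0),
  (2,0),(0,0)]⟩,⟨0,[(13,0)]⟩⟩ ⟨false,0,⟨0,[(4,0),(3,0),(6,0),(0,0),(3,0)]⟩,⟨1,[(10,0),(11,0)]⟩⟩
  ⟨true,0,⟨0,[(13,0),(6,0)]⟩,⟨1,[(8,0),(3,0),(6,0)]⟩⟩,.o ⟨false,0,⟨1,[(9,0),(2,0)]⟩,⟨1,[(13,1),(0,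
  0),(6,0)]⟩⟩]⟩) (.R ⟨0,false,false,true,[0,0,1],[1,-1],[1,0,0,0,0,0,1],(⟨0,[(13,0)]⟩,⟨1,[(12,0),(2,
  0),(0,0)]⟩),(⟨0,[(15,0)]⟩,⟨0,[(16,0)]⟩),⟨0,[(2,0)]⟩,.k,.k,(.r (-1) ⟨7,[(4,1),(1,3),(4,2),(7,3),(2,
  0)]⟩ ⟨0,[(0,0),(18,0)]⟩),(.x (-1) ⟨3,[(10,0),(0,0),(4,3),(4,1)]⟩ ⟨2,[(0,0),(3,0),(3,1),(0,0),(5,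
  2)]⟩),.k,.k,⟨false,0,⟨0,[(5,0)]⟩,⟨19,[(6,7),(3,10),(0,0),(5,3),(1,11)]⟩⟩,⟨true,0,⟨2,[(0,0),(3,0),
  (3,1),(0,0),(3,2)]⟩,⟨1,[(12,0),(2,0),(0,0)]⟩⟩,⟨true,0,⟨0,[]⟩,⟨0,[(24,0)]⟩⟩,⟨false,1,⟨3,[(3,1),(6,
  0),(2,1),(0,0)]⟩,⟨1,[(5,1),(6,0),(2,0),(0,0)]⟩⟩,⟨false,0,⟨0,[]⟩,⟨0,[]⟩⟩,⟨false,0,⟨0,[]⟩,⟨0,[]⟩⟩,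
  [.o ⟨false,0,⟨0,[(8,0)]⟩,⟨7,[(0,3),(9,0),(0,2),(9,1),(0,1)]⟩⟩,.o ⟨false,1,⟨25,[(3,11),(0,1),(3,1),
  (2,4),(0,5),(1,8)]⟩,⟨0,[(20,0)]⟩⟩,.a ⟨true,0,⟨1,[(12,0),(2,0),(0,0)]⟩,⟨0,[(13,0)]⟩⟩ ⟨false,0,⟨0,
  [(4,0)]⟩,⟨3,[(10,2),(0,0)]⟩⟩ ⟨true,0,⟨0,[(8,0),(4,0)]⟩,⟨5,[(0,1),(4,1),(6,2),(2,2),(0,2),(0,1)]⟩⟩,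
  .o ⟨false,0,⟨1,[(9,0),(2,0)]⟩,⟨1,[(13,1),(0,0),(6,0)]⟩⟩]⟩)) (.R ⟨0,false,false,true,[0,0,1],[1,
  -1],[1,0,0,0,0,0,1],(⟨0,[(12,0)]⟩,⟨1,[(11,0),(2,0),(0,0)]⟩),(⟨0,[(14,0)]⟩,⟨0,[(15,0)]⟩),⟨0,[(1,
  0)]⟩,.k,.k,(.r 0 ⟨0,[(0,0),(16,0)]⟩ ⟨0,[(6,0),(2,0)]⟩),(.r 0 ⟨0,[(0,0),(6,1),(6,1),(0,1),(1,2),(1,
  3)]⟩ ⟨0,[(0,0),(8,0),(7,0)]⟩),.k,.k,⟨false,0,⟨0,[(4,0)]⟩,⟨19,[(5,7),(3,10),(0,0),(5,3),(1,11)]⟩⟩,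
  ⟨true,0,⟨0,[(7,0),(4,0),(4,0),(1,0)]⟩,⟨1,[(11,0),(2,0),(0,0)]⟩⟩,⟨true,0,⟨0,[]⟩,⟨0,[(23,0)]⟩⟩,
  ⟨false,1,⟨3,[(2,1),(6,0),(2,1),(0,0)]⟩,⟨1,[(4,1),(6,0),(2,0),(0,0)]⟩⟩,⟨false,0,⟨0,[]⟩,⟨0,[]⟩⟩,
  ⟨false,0,⟨0,[]⟩,⟨0,[]⟩⟩,[.o ⟨false,0,⟨0,[(7,0)]⟩,⟨3,[(6,1),(2,0),(9,1),(0,0),(0,1)]⟩⟩,.o ⟨false,1,
  ⟨25,[(2,11),(0,1),(3,1),(2,4),(0,5),(1,8)]⟩,⟨0,[(19,0)]⟩⟩,.a ⟨true,0,⟨1,[(11,0),(2,0),(0,0)]⟩,⟨0,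
  [(12,0)]⟩⟩ ⟨false,0,⟨0,[(3,0)]⟩,⟨3,[(9,2),(0,0)]⟩⟩ ⟨true,0,⟨0,[(7,0),(4,0)]⟩,⟨1,[(11,0),(2,0),(0,
  0),(3,1)]⟩⟩,.o ⟨false,0,⟨1,[(8,0),(2,0)]⟩,⟨1,[(12,1),(0,0),(6,0)]⟩⟩]⟩)) (.I [0,0,-1,-1,1,0,-1]
  (.R ⟨1,false,false,true,[0,0,1],[1,-1],[0,0,0,0,0,0,1],(⟨0,[(12,0)]⟩,⟨1,[(11,0),(2,0),(0,0)]⟩),
  (⟨0,[(14,0)]⟩,⟨0,[(15,0)]⟩),⟨0,[(1,0)]⟩,.k,.k,(.x 0 ⟨1,[(1,1),(6,0),(2,0)]⟩ ⟨3,[(9,0),(0,0),(4,3),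
  (4,1)]⟩),(.r 0 ⟨0,[(1,3),(1,0),(3,1),(3,1),(3,3),(1,0),(1,2)]⟩ ⟨0,[(0,0)]⟩),.k,.k,⟨false,0,⟨0,[(3,
  0),(15,0)]⟩,⟨11,[(0,7),(8,2),(0,0),(5,3),(1,3)]⟩⟩,⟨true,0,⟨0,[(7,0),(4,0),(4,0),(1,0)]⟩,⟨1,[(11,
  0),(2,0),(0,0)]⟩⟩,⟨false,1,⟨3,[(9,0),(0,0),(10,1)]⟩,⟨0,[]⟩⟩,⟨false,1,⟨3,[(2,1),(6,0),(2,1),(0,
  0)]⟩,⟨1,[(4,1),(6,0),(2,0),(0,0)]⟩⟩,⟨true,0,⟨0,[(19,0)]⟩,⟨0,[(18,0)]⟩⟩,⟨false,1,⟨1,[(9,0),(2,1),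
  (0,0)]⟩,⟨1,[(3,1),(7,0),(2,0),(0,0)]⟩⟩,[.o ⟨false,0,⟨0,[(7,0)]⟩,⟨3,[(6,1),(2,0),(9,1),(0,0),(0,
  1)]⟩⟩,.o ⟨false,1,⟨25,[(2,11),(0,1),(3,1),(2,4),(0,5),(1,8)]⟩,⟨0,[(19,0)]⟩⟩,.a ⟨true,0,⟨1,[(11,0),
  (2,0),(0,0)]⟩,⟨0,[(12,0)]⟩⟩ ⟨false,0,⟨0,[(3,0)]⟩,⟨3,[(9,2),(0,0)]⟩⟩ ⟨true,0,⟨0,[(7,0),(4,0)]⟩,⟨1,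
  [(11,0),(2,0),(0,0),(3,1)]⟩⟩,.o ⟨false,0,⟨1,[(8,0),(2,0)]⟩,⟨1,[(12,1),(0,0),(6,0)]⟩⟩]⟩) (.R ⟨1,
  false,false,true,[0,0,1],[1,-1],[0,0,0,0,0,0,1],(⟨0,[(12,0)]⟩,⟨1,[(11,0),(2,0),(0,0)]⟩),(⟨0,[(14,
  0)]⟩,⟨0,[(15,0)]⟩),⟨0,[(1,0)]⟩,.k,.k,(.r (-1) ⟨7,[(3,1),(1,3),(4,2),(7,3),(2,0)]⟩ ⟨0,[(0,0),(8,
  0)]⟩),(.x (-1) ⟨3,[(9,0),(0,0),(4,3),(4,1)]⟩ ⟨1,[(1,1),(6,0),(2,0)]⟩),.k,.k,⟨false,0,⟨0,[(0,1),(2,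
  0),(1,0),(3,0)]⟩,⟨19,[(5,7),(3,10),(0,0),(5,3),(1,11)]⟩⟩,⟨true,0,⟨3,[(0,3),(1,1),(6,0),(2,1),(0,
  0)]⟩,⟨1,[(11,0),(2,0),(0,0)]⟩⟩,⟨false,1,⟨3,[(9,0),(0,0),(10,1)]⟩,⟨0,[]⟩⟩,⟨false,1,⟨3,[(2,1),(6,0),
  (2,1),(0,0)]⟩,⟨1,[(4,1),(6,0),(2,0),(0,0)]⟩⟩,⟨true,0,⟨0,[(19,0)]⟩,⟨0,[(18,0)]⟩⟩,⟨false,1,⟨1,[(9,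
  0),(2,1),(0,0)]⟩,⟨1,[(3,1),(7,0),(2,0),(0,0)]⟩⟩,[.o ⟨false,0,⟨0,[(7,0)]⟩,⟨3,[(6,1),(2,0),(9,1),(0,
  0),(0,1)]⟩⟩,.o ⟨false,1,⟨25,[(2,11),(0,1),(3,1),(2,4),(0,5),(1,8)]⟩,⟨0,[(19,0)]⟩⟩,.a ⟨true,0,⟨1,
  [(11,0),(2,0),(0,0)]⟩,⟨0,[(12,0)]⟩⟩ ⟨false,0,⟨0,[(3,0)]⟩,⟨3,[(9,2),(0,0)]⟩⟩ ⟨true,0,⟨0,[(7,0),(4,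
  0)]⟩,⟨1,[(11,0),(2,0),(0,0),(3,1)]⟩⟩,.o ⟨false,0,⟨1,[(8,0),(2,0)]⟩,⟨1,[(12,1),(0,0),(6,0)]⟩⟩]⟩)))
  (.R ⟨2,true,false,true,[0,1],[1,-1],[0,1,1,1],(⟨0,[]⟩,⟨0,[]⟩),(⟨0,[(12,0)]⟩,⟨0,[(13,0)]⟩),⟨0,[]⟩,
  .k,.k,.k,(.r 1 ⟨0,[(0,1),(4,1),(1,0),(2,1),(4,1)]⟩ ⟨3,[(3,3),(3,0),(0,0),(7,3),(2,1)]⟩),.k,.k,
  ⟨true,(-1),⟨0,[(0,1),(4,1),(1,0),(2,1),(4,1)]⟩,⟨0,[(3,0),(11,0),(0,0)]⟩⟩,⟨false,0,⟨0,[(5,0),(9,0),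
  (1,0)]⟩,⟨0,[(12,0),(0,0),(4,0)]⟩⟩,⟨true,0,⟨0,[(21,0)]⟩,⟨0,[]⟩⟩,⟨false,1,⟨0,[(5,0),(10,0),(2,0)]⟩,
  ⟨1,[(0,1),(6,0),(2,1),(8,0)]⟩⟩,⟨false,0,⟨0,[(17,0)]⟩,⟨0,[(16,0),(2,0)]⟩⟩,⟨true,0,⟨0,[(5,0)]⟩,⟨7,
  [(0,3),(6,2),(0,0),(1,3),(1,3),(0,3)]⟩⟩,[]⟩))) (.Q [0,-1,0,0,0,0,-1,0,1] (.p true [0,0,1] [] (⟨0,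
  [(8,0)]⟩,⟨1,[(7,0),(2,0),(0,0)]⟩) .k 0 (⟨0,[]⟩,⟨0,[]⟩) .k .k) (.Q [0,1,0,0,0,0,1,1,-1] (.p false
  [0,0,1] [1] (⟨0,[(9,0)]⟩,⟨1,[(8,0),(2,0),(0,0)]⟩) .k 1 (⟨0,[]⟩,⟨0,[]⟩) .k .k) (.R ⟨2,false,false,
  true,[0,1],[0,0,1],[1,1,1],(⟨0,[]⟩,⟨0,[]⟩),(⟨0,[(10,0)]⟩,⟨1,[(0,0),(0,0),(7,0)]⟩),⟨0,[]⟩,.k,.k,.k,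
  (.x (-1) ⟨3,[(7,0),(0,0),(4,3),(4,1)]⟩ ⟨0,[(5,0),(6,0),(2,0),(1,0)]⟩),.k,.k,⟨false,0,⟨2,[(1,1),(0,
  0),(2,0),(3,0),(7,1)]⟩,⟨1,[(8,0),(9,0)]⟩⟩,⟨true,0,⟨1,[(6,0),(2,0)]⟩,⟨0,[(10,0)]⟩⟩,⟨true,0,⟨0,[(16,
  0)]⟩,⟨0,[(17,0)]⟩⟩,⟨false,1,⟨1,[(5,0),(2,0),(0,0),(6,0),(2,0)]⟩,⟨0,[(1,0),(15,0)]⟩⟩,⟨false,0,⟨0,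
  []⟩,⟨3,[(7,0),(0,0),(10,1)]⟩⟩,⟨false,1,⟨7,[(7,0),(0,4),(0,3),(1,1)]⟩,⟨0,[(1,0)]⟩⟩,[.a ⟨true,0,⟨0,
  [(0,0)]⟩,⟨0,[(1,0)]⟩⟩ ⟨false,0,⟨0,[(21,0)]⟩,⟨1,[(18,0),(0,0)]⟩⟩ ⟨true,0,⟨3,[(0,1),(3,1),(0,1),(0,
  0),(2,0)]⟩,⟨0,[(1,0)]⟩⟩,.o ⟨false,1,⟨7,[(7,0),(0,4),(0,3),(1,1)]⟩,⟨0,[(1,0),(3,0),(11,0)]⟩⟩,.o
  ⟨false,1,⟨3,[(7,0),(0,0),(9,1)]⟩,⟨0,[(5,0),(9,0),(1,0)]⟩⟩,.e ⟨false,0,⟨0,[]⟩,⟨3,[(7,0),(0,0),(10,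
  1)]⟩⟩ ⟨false,1,⟨7,[(7,0),(0,4),(0,3),(1,1)]⟩,⟨0,[(1,0)]⟩⟩]⟩) (.I [1,1,-1] (.R ⟨2,true,false,false,
  [0,1],[1,0,-1],[1,0,1],(⟨0,[]⟩,⟨0,[]⟩),(⟨1,[(10,0),(2,0),(0,0)]⟩,⟨0,[(11,0)]⟩),⟨0,[]⟩,.k,.k,.k,
  (.x (-1) ⟨3,[(8,0),(0,0),(4,3),(4,1)]⟩ ⟨3,[(1,1),(3,1),(0,1),(0,0),(2,0),(2,3)]⟩),.k,.k,⟨false,1,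
  ⟨3,[(8,0),(0,2)]⟩,⟨1,[(0,1),(0,0),(0,0),(7,0)]⟩⟩,⟨true,0,⟨2,[(1,0),(3,0),(0,0),(0,0),(3,1)]⟩,⟨1,
  [(10,0),(2,0),(0,0)]⟩⟩,⟨false,1,⟨0,[(17,0),(2,0)]⟩,⟨0,[(18,0)]⟩⟩,⟨true,0,⟨0,[(2,0),(3,0)]⟩,⟨1,[(0,
  1),(4,1),(4,0),(2,0),(0,0)]⟩⟩,⟨true,0,⟨0,[]⟩,⟨0,[(22,0)]⟩⟩,⟨false,0,⟨0,[(1,0)]⟩,⟨3,[(8,0),(0,2),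
  (0,1),(2,1),(0,1)]⟩⟩,[]⟩) (.Q [0,0,0,0,0,1,0,0,-1] (.ed true [1,-1,1] .k) (.I [1,1,1,0,-1,0,-1]
  (.R ⟨0,false,false,false,[0,0,1],[0,1],[1,1,1],(⟨0,[(13,0)]⟩,⟨1,[(12,0),(2,0),(0,0)]⟩),(⟨0,[(16,
  0)]⟩,⟨0,[(15,0)]⟩),⟨0,[(1,0)]⟩,.k,.k,(.x 0 ⟨3,[(3,1),(3,1),(0,1),(0,0),(2,0),(2,3)]⟩ ⟨3,[(10,0),
  (0,0),(4,3),(4,1)]⟩),(.x 0 ⟨3,[(3,1),(3,1),(0,1),(0,0),(2,0),(2,3)]⟩ ⟨3,[(10,0),(0,0),(4,3),(4,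
  1)]⟩),.k,.k,⟨true,0,⟨0,[(19,0)]⟩,⟨0,[(2,0),(17,0)]⟩⟩,⟨false,1,⟨0,[(13,0),(7,0)]⟩,⟨1,[(9,0),(2,
  0)]⟩⟩,⟨true,(-1),⟨0,[(0,0)]⟩,⟨1,[(11,0),(9,0)]⟩⟩,⟨false,0,⟨0,[(4,0),(15,0)]⟩,⟨1,[(8,0),(2,0),(0,
  0),(6,0),(2,0)]⟩⟩,⟨false,0,⟨0,[]⟩,⟨0,[]⟩⟩,⟨false,0,⟨0,[]⟩,⟨0,[]⟩⟩,[.o ⟨false,0,⟨0,[(20,0)]⟩,⟨1,
  [(14,0),(4,1),(2,0)]⟩⟩,.o ⟨false,1,⟨3,[(7,1),(2,0),(9,1),(0,0),(0,1)]⟩,⟨0,[(8,0)]⟩⟩,.a ⟨true,0,⟨1,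
  [(12,0),(2,0),(0,0)]⟩,⟨0,[(13,0)]⟩⟩ ⟨false,0,⟨0,[(23,0)]⟩,⟨1,[(21,0),(0,0)]⟩⟩ ⟨true,0,⟨0,[(13,0),
  (6,0)]⟩,⟨1,[(8,0),(3,0),(6,0)]⟩⟩,.o ⟨false,0,⟨1,[(9,0),(2,0)]⟩,⟨1,[(13,1),(0,0),(6,0)]⟩⟩]⟩) (.I
  [0,1,-1,-1,0,0,-1] (.R ⟨0,false,false,true,[0,0,1],[1,-1],[0,1,-1,-1],(⟨0,[(14,0)]⟩,⟨1,[(13,0),(2,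
  0),(0,0)]⟩),(⟨0,[(16,0)]⟩,⟨0,[(17,0)]⟩),⟨0,[(2,0)]⟩,.k,.k,(.r (-1) ⟨0,[(1,0),(18,0)]⟩ ⟨3,[(5,1),
  (0,1),(3,0),(2,0),(7,5),(2,1)]⟩),(.x (-1) ⟨3,[(11,0),(0,0),(4,3),(4,1)]⟩ ⟨3,[(4,1),(3,1),(0,1),(0,
  0),(2,0),(2,3)]⟩),.k,.k,⟨false,1,⟨3,[(11,0),(0,0),(9,1)]⟩,⟨0,[]⟩⟩,⟨true,0,⟨2,[(4,0),(3,0),(0,0),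
  (0,0),(3,1)]⟩,⟨1,[(13,0),(2,0),(0,0)]⟩⟩,⟨true,0,⟨0,[(0,0)]⟩,⟨0,[(8,0)]⟩⟩,⟨false,0,⟨0,[(5,0),(3,
  0)]⟩,⟨5,[(1,3),(6,3),(2,0),(1,2),(2,2),(0,2),(3,1),(1,0)]⟩⟩,⟨false,0,⟨0,[]⟩,⟨0,[]⟩⟩,⟨false,0,⟨0,
  []⟩,⟨0,[]⟩⟩,[.o ⟨false,0,⟨0,[(9,0)]⟩,⟨2,[(1,0),(6,0),(2,0),(9,1),(1,0)]⟩⟩,.o ⟨false,1,⟨1,[(15,0),
  (4,1),(2,0)]⟩,⟨0,[(21,0)]⟩⟩,.a ⟨true,0,⟨1,[(13,0),(2,0),(0,0)]⟩,⟨0,[(14,0)]⟩⟩ ⟨false,1,⟨7,[(7,3),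
  (3,0),(0,0),(7,3),(2,1)]⟩,⟨0,[(3,0),(17,0)]⟩⟩ ⟨true,0,⟨0,[(9,0),(4,0)]⟩,⟨1,[(13,0),(2,0),(0,0),(3,
  1)]⟩⟩,.o ⟨false,0,⟨1,[(10,0),(2,0)]⟩,⟨1,[(14,1),(0,0),(6,0)]⟩⟩]⟩) (.R ⟨0,false,false,false,[0,0,
  1],[1,-1],[0,1],(⟨0,[(14,0)]⟩,⟨1,[(13,0),(2,0),(0,0)]⟩),(⟨0,[(16,0)]⟩,⟨0,[(17,0)]⟩),⟨0,[(2,0)]⟩,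
  .k,.k,(.r (-1) ⟨0,[(1,0),(18,0)]⟩ ⟨3,[(5,1),(0,1),(3,0),(2,0),(7,5),(2,1)]⟩),(.r 0 ⟨1,[(0,3),(3,
  1),(4,1),(3,0),(2,2),(0,2),(0,1)]⟩ ⟨3,[(6,1),(0,1),(3,0),(11,0)]⟩),.k,.k,⟨false,0,⟨0,[(21,0),(3,
  0)]⟩,⟨0,[(3,0),(3,0)]⟩⟩,⟨true,0,⟨2,[(4,0),(3,0),(0,0),(0,0),(3,1)]⟩,⟨1,[(13,0),(2,0),(0,0)]⟩⟩,
  ⟨false,0,⟨3,[(4,0),(0,0),(0,1),(6,0),(7,1)]⟩,⟨1,[(12,0),(10,0)]⟩⟩,⟨true,0,⟨0,[(5,0),(3,0)]⟩,⟨1,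
  [(0,1),(12,0),(2,0),(0,0),(0,1)]⟩⟩,⟨false,0,⟨0,[]⟩,⟨0,[]⟩⟩,⟨false,0,⟨0,[]⟩,⟨0,[]⟩⟩,[.o ⟨false,1,
  ⟨1,[(15,0),(4,1),(2,0)]⟩,⟨0,[(21,0)]⟩⟩,.o ⟨false,1,⟨0,[(9,0),(13,0)]⟩,⟨0,[(21,0),(3,0)]⟩⟩,.a
  ⟨true,0,⟨1,[(13,0),(2,0),(0,0)]⟩,⟨0,[(14,0)]⟩⟩ ⟨true,0,⟨0,[(25,0)]⟩,⟨0,[]⟩⟩ ⟨false,1,⟨1,[(5,1),(3,
  1),(2,0),(10,0)]⟩,⟨1,[(13,0),(2,0),(0,0),(3,1)]⟩⟩,.o ⟨false,0,⟨1,[(10,0),(2,0)]⟩,⟨1,[(14,1),(0,0),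
  (6,0)]⟩⟩]⟩))) (.I [1,1,-1,-2,0,0,-1] (.Q [0,0,0,-2,0,0,-1,-1,1] (.p true [0,0,1] [1] (⟨0,[(13,
  0)]⟩,⟨1,[(12,0),(2,0),(0,0)]⟩) .k 1 (⟨0,[]⟩,⟨0,[]⟩) .k .k) (.R ⟨1,false,false,false,[1,0,-1],[0,
  1],[1,1,0,-1,0,0,-1],(⟨1,[(13,0),(2,0),(0,0)]⟩,⟨0,[(14,0)]⟩),(⟨0,[(17,0)]⟩,⟨0,[(16,0)]⟩),⟨0,[(2,
  0),(10,0)]⟩,.k,.k,(.x 0 ⟨1,[(2,1),(7,0),(2,0)]⟩ ⟨3,[(11,0),(0,0),(4,3),(4,1)]⟩),(.x 0 ⟨1,[(2,1),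
  (7,0),(2,0)]⟩ ⟨3,[(11,0),(0,0),(4,3),(4,1)]⟩),(.r (-1) ⟨11,[(1,7),(2,0),(0,0),(1,7),(3,0),(1,0),
  (9,2)]⟩ ⟨0,[(8,0),(12,0),(2,0)]⟩),.k,⟨true,0,⟨0,[(1,0)]⟩,⟨0,[(3,0),(4,0),(12,0)]⟩⟩,⟨false,1,⟨1,
  [(13,0),(2,0),(0,0),(4,1)]⟩,⟨2,[(4,0),(3,0),(0,0),(0,0),(3,1)]⟩⟩,⟨true,0,⟨0,[(20,0)]⟩,⟨0,[(21,
  0)]⟩⟩,⟨false,1,⟨1,[(8,1),(4,0),(2,0),(0,0),(4,0),(0,0)]⟩,⟨7,[(0,3),(3,2),(0,0),(4,0),(7,1)]⟩⟩,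
  ⟨false,0,⟨0,[]⟩,⟨3,[(11,0),(0,0),(10,1)]⟩⟩,⟨false,1,⟨1,[(8,1),(4,0),(2,0),(0,0),(3,1),(0,0),(0,
  0)]⟩,⟨0,[(0,0)]⟩⟩,[.o ⟨false,0,⟨0,[(21,0)]⟩,⟨15,[(0,7),(10,2),(0,6),(0,3),(1,5)]⟩⟩,.o ⟨false,1,⟨3,
  [(8,1),(2,0),(9,1),(0,0),(0,1)]⟩,⟨0,[(9,0)]⟩⟩,.a ⟨true,0,⟨0,[(14,0)]⟩,⟨1,[(13,0),(2,0),(0,0)]⟩⟩
  ⟨false,0,⟨2,[(0,0),(4,0),(0,0),(6,0)]⟩,⟨1,[(8,1),(13,0),(0,0)]⟩⟩ ⟨true,0,⟨1,[(13,0),(2,0),(0,0),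
  (3,1)]⟩,⟨0,[(9,0),(4,0)]⟩⟩,.o ⟨false,0,⟨2,[(4,0),(3,0),(0,0),(0,0),(3,1)]⟩,⟨7,[(11,0),(0,0),(0,3),
  (1,1),(6,3)]⟩⟩]⟩) (.R ⟨1,true,false,false,[1,0,-1],[0,1],[1,1,0,-1,0,0,-1],(⟨1,[(13,0),(2,0),(0,
  0)]⟩,⟨0,[(14,0)]⟩),(⟨0,[(17,0)]⟩,⟨0,[(16,0)]⟩),⟨0,[(2,0),(10,0)]⟩,.k,.k,(.x 0 ⟨1,[(2,1),(7,0),(2,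
  0)]⟩ ⟨3,[(11,0),(0,0),(4,3),(4,1)]⟩),(.x 0 ⟨1,[(2,1),(7,0),(2,0)]⟩ ⟨3,[(11,0),(0,0),(4,3),(4,
  1)]⟩),(.r (-1) ⟨11,[(1,7),(2,0),(0,0),(1,7),(3,0),(1,0),(9,2)]⟩ ⟨1,[(0,0),(4,0),(2,1),(1,0),(14,
  0)]⟩),.k,⟨true,0,⟨0,[(1,0)]⟩,⟨3,[(0,1),(2,1),(0,0),(0,0),(2,3),(1,0)]⟩⟩,⟨false,1,⟨17,[(0,11),(0,
  3),(3,3),(1,15),(3,1),(1,4),(2,0),(0,0)]⟩,⟨2,[(4,0),(3,0),(0,0),(0,0),(3,1)]⟩⟩,⟨true,0,⟨0,[(20,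
  0)]⟩,⟨0,[(21,0)]⟩⟩,⟨false,1,⟨7,[(0,3),(10,0),(0,2),(0,1),(2,1),(0,1),(5,3)]⟩,⟨4,[(1,1),(2,2),(4,
  0),(0,0),(3,1)]⟩⟩,⟨false,0,⟨0,[]⟩,⟨3,[(11,0),(0,0),(10,1)]⟩⟩,⟨true,0,⟨0,[(0,0)]⟩,⟨4,[(1,3),(2,0),
  (4,1),(0,1),(3,3)]⟩⟩,[]⟩)) (.R ⟨1,false,false,true,[1,0,-1],[1,-1],[0,0,0,0,0,0,-1],(⟨1,[(12,0),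
  (2,0),(0,0)]⟩,⟨0,[(13,0)]⟩),(⟨0,[(15,0)]⟩,⟨0,[(16,0)]⟩),⟨0,[(1,0),(10,0)]⟩,.k,.k,(.r (-1) ⟨3,[(5,
  1),(0,1),(3,0),(11,0)]⟩ ⟨0,[(0,0),(0,1),(6,0),(3,0),(3,1)]⟩),(.x (-1) ⟨3,[(10,0),(0,0),(4,3),(4,
  1)]⟩ ⟨1,[(1,1),(7,0),(2,0)]⟩),.k,.k,⟨false,0,⟨1,[(3,0),(0,0),(7,0),(7,1)]⟩,⟨19,[(6,7),(3,0),(0,
  10),(5,3),(1,11)]⟩⟩,⟨true,0,⟨1,[(9,0),(2,0)]⟩,⟨0,[(13,0)]⟩⟩,⟨false,1,⟨3,[(10,0),(0,0),(10,1)]⟩,⟨0,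
  []⟩⟩,⟨false,1,⟨1,[(8,0),(2,0),(0,0),(6,0),(2,0)]⟩,⟨0,[(4,0),(15,0)]⟩⟩,⟨true,0,⟨0,[(20,0)]⟩,⟨0,
  [(19,0)]⟩⟩,⟨false,1,⟨7,[(10,0),(0,4),(0,3),(1,1)]⟩,⟨0,[(4,0)]⟩⟩,[.o ⟨false,0,⟨0,[(8,0)]⟩,⟨7,[(0,
  3),(9,2),(0,0),(9,1),(0,1)]⟩⟩,.o ⟨false,1,⟨1,[(14,0),(4,1),(2,0)]⟩,⟨0,[(20,0)]⟩⟩,.a ⟨true,0,⟨0,
  [(13,0)]⟩,⟨1,[(12,0),(2,0),(0,0)]⟩⟩ ⟨false,0,⟨1,[(3,0),(0,0),(7,0)]⟩,⟨3,[(10,0),(0,2)]⟩⟩ ⟨true,0,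
  ⟨1,[(8,0),(3,0),(6,0)]⟩,⟨1,[(0,0),(3,0),(8,0),(3,0)]⟩⟩,.o ⟨false,0,⟨2,[(3,0),(3,0),(0,0),(0,0),(3,
  1)]⟩,⟨7,[(10,0),(0,0),(0,3),(1,1),(6,3)]⟩⟩]⟩))))) (.K ⟨0,[0,0,1],0,0,(⟨0,[(9,0)]⟩,⟨1,[(8,0),(2,0),
  (0,0)]⟩),.k,(.r (-1) ⟨0,[(0,0),(1,0),(6,0),(4,0)]⟩ ⟨0,[(1,0),(12,0),(1,1)]⟩),(.r 0 ⟨0,[(0,0),(8,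
  0),(4,0),(1,0)]⟩ ⟨3,[(1,1),(0,1),(3,0),(11,0)]⟩),.k,.k,[⟨0,[(9,0),(9,0)]⟩,⟨1,[(5,0),(2,0)]⟩,⟨0,
  [(1,0),(7,0),(6,0)]⟩,⟨0,[(0,0)]⟩]⟩)))

def tree : Tre :=
  (.I [0,0,-1,-1,0,0,-1] (.Q [0,0,0,0,0,1,0,0,-1] (.ed true [1,-1,1] .k) (.R ⟨0,false,false,true,[0,
  0,1],[1,-1],[1,0,0,0,0,0,1],(⟨0,[(7,0)]⟩,⟨1,[(6,0),(2,0),(0,0)]⟩),(⟨0,[(9,0)]⟩,⟨0,[(10,0)]⟩),⟨0,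
  [(0,0)]⟩,.k,.k,(.r (-1) ⟨0,[(1,0),(3,0)]⟩ ⟨0,[(1,0),(12,1),(2,1)]⟩),(.r (-1) ⟨3,[(4,0),(0,2),(8,
  3),(2,3)]⟩ ⟨0,[(1,0)]⟩),.k,.k,⟨false,1,⟨1,[(5,0),(8,1),(1,0)]⟩,⟨0,[(1,0),(16,0)]⟩⟩,⟨true,0,⟨0,[(2,
  0),(4,0),(4,0),(1,0)]⟩,⟨1,[(6,0),(2,0),(0,0)]⟩⟩,⟨true,0,⟨0,[]⟩,⟨0,[(18,0)]⟩⟩,⟨false,0,⟨0,[(1,0),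
  (0,0),(4,0),(4,0),(1,0)]⟩,⟨1,[(5,0),(0,0),(2,0),(0,0),(3,1),(1,0)]⟩⟩,⟨false,0,⟨0,[]⟩,⟨0,[]⟩⟩,
  ⟨false,0,⟨0,[]⟩,⟨0,[]⟩⟩,[.o ⟨false,0,⟨0,[(2,0)]⟩,⟨3,[(4,0),(0,0),(8,3),(1,1)]⟩⟩,.o ⟨false,1,⟨1,
  [(8,0),(4,1),(2,0)]⟩,⟨0,[(14,0)]⟩⟩,.a ⟨true,0,⟨1,[(6,0),(2,0),(0,0)]⟩,⟨0,[(7,0)]⟩⟩ ⟨false,1,⟨1,
  [(5,0),(10,0)]⟩,⟨0,[(1,0),(12,0),(2,0)]⟩⟩ ⟨true,0,⟨0,[(2,0),(4,0)]⟩,⟨1,[(6,0),(2,0),(0,0),(3,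
  1)]⟩⟩,.o ⟨false,0,⟨1,[(3,0),(2,0)]⟩,⟨1,[(7,1),(0,0),(6,0)]⟩⟩]⟩) (.R ⟨1,false,false,true,[0,0,1],
  [1,-1],[0,0,0,0,0,0,1],(⟨0,[(7,0)]⟩,⟨1,[(6,0),(2,0),(0,0)]⟩),(⟨0,[(9,0)]⟩,⟨0,[(10,0)]⟩),⟨0,[(0,
  0)]⟩,.k,.k,(.r (-1) ⟨0,[(1,0),(3,0)]⟩ ⟨0,[(1,0),(12,1),(2,1)]⟩),(.r (-1) ⟨3,[(4,0),(0,2),(8,3),(2,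
  3)]⟩ ⟨0,[(1,0)]⟩),.k,.k,⟨false,1,⟨1,[(5,0),(8,1),(1,0)]⟩,⟨0,[(1,0),(16,0)]⟩⟩,⟨true,0,⟨0,[(2,0),(4,
  0),(4,0),(1,0)]⟩,⟨1,[(6,0),(2,0),(0,0)]⟩⟩,⟨false,1,⟨3,[(4,0),(0,0),(10,1)]⟩,⟨0,[]⟩⟩,⟨false,0,⟨0,
  [(1,0),(0,0),(4,0),(4,0),(1,0)]⟩,⟨1,[(5,0),(0,0),(2,0),(0,0),(3,1),(1,0)]⟩⟩,⟨true,0,⟨0,[(14,0)]⟩,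
  ⟨0,[(13,0)]⟩⟩,⟨false,0,⟨0,[(1,0),(0,0),(4,0),(4,0),(1,1)]⟩,⟨1,[(5,0),(0,0),(2,0),(0,0),(5,0)]⟩⟩,
  [.o ⟨false,0,⟨0,[(2,0)]⟩,⟨3,[(4,0),(0,0),(8,3),(1,1)]⟩⟩,.o ⟨false,1,⟨1,[(8,0),(4,1),(2,0)]⟩,⟨0,
  [(14,0)]⟩⟩,.a ⟨true,0,⟨1,[(6,0),(2,0),(0,0)]⟩,⟨0,[(7,0)]⟩⟩ ⟨false,1,⟨1,[(5,0),(10,0)]⟩,⟨0,[(1,0),
  (12,0),(2,0)]⟩⟩ ⟨true,0,⟨0,[(2,0),(4,0)]⟩,⟨1,[(6,0),(2,0),(0,0),(3,1)]⟩⟩,.o ⟨false,0,⟨1,[(3,0),(2,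
  0)]⟩,⟨1,[(7,1),(0,0),(6,0)]⟩⟩]⟩)) (.I [1,0,2,1,-1] (.Q [0,-1,0,2,0,0,0,1] (.pp false [-1,1]) (.R
  ⟨2,true,false,true,[0,1],[1,-1],[1,1,1],(⟨0,[]⟩,⟨0,[]⟩),(⟨0,[(10,0)]⟩,⟨0,[(11,0)]⟩),⟨0,[]⟩,.k,.k,
  .k,(.r 1 ⟨0,[(1,0),(13,0)]⟩ ⟨0,[(14,1),(1,0),(0,0)]⟩),.k,.k,⟨true,(-1),⟨0,[(1,0)]⟩,⟨1,[(14,1),(1,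
  0),(0,0)]⟩⟩,⟨false,0,⟨2,[(1,0),(1,0),(5,0),(3,0)]⟩,⟨0,[(10,0),(0,0),(4,0)]⟩⟩,⟨true,0,⟨0,[(14,0)]⟩,
  ⟨0,[(15,0)]⟩⟩,⟨false,1,⟨0,[(3,0),(10,0),(2,0)]⟩,⟨0,[(0,0)]⟩⟩,⟨false,0,⟨0,[]⟩,⟨3,[(5,0),(0,0),(10,
  1)]⟩⟩,⟨true,0,⟨0,[(3,0)]⟩,⟨0,[(0,0),(13,0)]⟩⟩,[]⟩) (.Q [0,1,0,0,0,0,1,0,-1] (.p false [0,0,1] []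
  (⟨0,[(8,0)]⟩,⟨1,[(7,0),(2,0),(0,0)]⟩) .k 0 (⟨0,[]⟩,⟨0,[]⟩) .k .k) (.Q [0,1,0,0,0,0,-1,0,1] (.p
  true [0,0,1] [] (⟨0,[(9,0)]⟩,⟨1,[(8,0),(2,0),(0,0)]⟩) .k 0 (⟨0,[]⟩,⟨0,[]⟩) .k .k) (.I [0,0,-1,-1,
  1,0,1] (.K ⟨0,[0,0,1],0,0,(⟨0,[(11,0)]⟩,⟨1,[(10,0),(2,0),(0,0)]⟩),.k,(.r (-1) ⟨0,[(0,0)]⟩ ⟨1,[(4,
  0),(3,0),(9,0)]⟩),(.x (-1) ⟨3,[(8,0),(0,0),(4,3),(4,1)]⟩ ⟨4,[(3,0),(0,1),(7,1),(0,4),(2,0)]⟩),.k,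
  .k,[⟨0,[(11,0),(9,0)]⟩,⟨1,[(7,0),(2,0)]⟩,⟨0,[(1,0)]⟩,⟨0,[(2,0)]⟩]⟩) (.K ⟨0,[0,0,1],0,0,(⟨0,[(11,
  0)]⟩,⟨1,[(10,0),(2,0),(0,0)]⟩),.k,(.x 0 ⟨4,[(3,0),(0,1),(7,1),(0,4),(2,0)]⟩ ⟨3,[(8,0),(0,0),(4,3),
  (4,1)]⟩),(.r 0 ⟨0,[(0,0),(1,1),(8,1),(8,0)]⟩ ⟨2,[(0,0),(2,1),(4,0),(4,1),(0,1),(4,1),(0,0)]⟩),.k,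
  .k,[⟨0,[(11,0),(9,0)]⟩,⟨1,[(7,0),(2,0)]⟩,⟨0,[(1,0)]⟩,⟨0,[(2,0)]⟩]⟩)) (.Q [0,0,0,0,0,1,0,0,-1]
  (.ed true [1,-1,1] .k) (.R ⟨0,false,false,true,[0,0,1],[1,-1],[1,0,0,0,0,0,1],(⟨0,[(11,0)]⟩,⟨1,
  [(10,0),(2,0),(0,0)]⟩),(⟨0,[(13,0)]⟩,⟨0,[(14,0)]⟩),⟨0,[(0,0)]⟩,.k,.k,(.r (-1) ⟨3,[(1,1),(7,0),(1,
  1),(5,3),(1,1),(0,0)]⟩ ⟨1,[(4,0),(3,0),(9,0)]⟩),(.x (-1) ⟨3,[(8,0),(0,0),(4,3),(4,1)]⟩ ⟨4,[(3,0),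
  (0,1),(7,1),(0,4),(2,0)]⟩),.k,.k,⟨false,0,⟨0,[(1,0),(9,0),(6,0)]⟩,⟨1,[(8,0),(8,1),(1,0)]⟩⟩,⟨true,
  0,⟨4,[(3,0),(0,1),(6,4),(0,1),(3,0)]⟩,⟨1,[(10,0),(2,0),(0,0)]⟩⟩,⟨true,0,⟨0,[]⟩,⟨0,[(22,0)]⟩⟩,
  ⟨false,1,⟨3,[(3,1),(4,1),(2,3),(0,0),(7,0)]⟩,⟨0,[(1,0),(11,0),(0,0),(3,0)]⟩⟩,⟨false,0,⟨0,[]⟩,⟨0,
  []⟩⟩,⟨false,0,⟨0,[]⟩,⟨0,[]⟩⟩,[.o ⟨false,0,⟨0,[(6,0)]⟩,⟨3,[(5,1),(2,0),(9,1),(0,0),(0,1)]⟩⟩,.o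
  ⟨false,1,⟨3,[(3,1),(4,0),(0,0),(2,0),(7,0)]⟩,⟨0,[(18,0)]⟩⟩,.a ⟨true,0,⟨1,[(10,0),(2,0),(0,0)]⟩,⟨0,
  [(11,0)]⟩⟩ ⟨false,0,⟨0,[(1,0),(9,0)]⟩,⟨3,[(8,2),(0,0)]⟩⟩ ⟨true,0,⟨0,[(6,0),(4,0)]⟩,⟨1,[(10,0),(2,
  0),(0,0),(3,1)]⟩⟩,.o ⟨false,0,⟨1,[(7,0),(2,0)]⟩,⟨1,[(11,1),(0,0),(6,0)]⟩⟩]⟩) (.R ⟨1,false,false,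
  true,[0,0,1],[1,-1],[0,0,0,0,0,0,1],(⟨0,[(11,0)]⟩,⟨1,[(10,0),(2,0),(0,0)]⟩),(⟨0,[(13,0)]⟩,⟨0,[(14,
  0)]⟩),⟨0,[(0,0)]⟩,.k,.k,(.r (-1) ⟨3,[(1,1),(7,0),(1,1),(5,3),(1,1),(0,0)]⟩ ⟨1,[(4,0),(3,0),(9,
  0)]⟩),(.x (-1) ⟨3,[(8,0),(0,0),(4,3),(4,1)]⟩ ⟨1,[(0,1),(6,0),(2,0)]⟩),.k,.k,⟨false,0,⟨0,[(1,0),(9,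
  0),(6,0)]⟩,⟨1,[(8,0),(8,1),(1,0)]⟩⟩,⟨true,0,⟨4,[(3,0),(0,1),(6,4),(0,1),(3,0)]⟩,⟨1,[(10,0),(2,0),
  (0,0)]⟩⟩,⟨false,1,⟨3,[(8,0),(0,0),(10,1)]⟩,⟨0,[]⟩⟩,⟨false,1,⟨3,[(3,1),(4,1),(2,3),(0,0),(7,0)]⟩,
  ⟨0,[(1,0),(11,0),(0,0),(3,0)]⟩⟩,⟨true,0,⟨0,[(18,0)]⟩,⟨0,[(17,0)]⟩⟩,⟨false,1,⟨1,[(8,0),(2,1),(0,
  0)]⟩,⟨0,[(1,0),(11,0),(0,0)]⟩⟩,[.o ⟨false,0,⟨0,[(6,0)]⟩,⟨3,[(5,1),(2,0),(9,1),(0,0),(0,1)]⟩⟩,.o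
  ⟨false,1,⟨3,[(3,1),(4,0),(0,0),(2,0),(7,0)]⟩,⟨0,[(18,0)]⟩⟩,.a ⟨true,0,⟨1,[(10,0),(2,0),(0,0)]⟩,⟨0,
  [(11,0)]⟩⟩ ⟨false,0,⟨0,[(1,0),(9,0)]⟩,⟨3,[(8,2),(0,0)]⟩⟩ ⟨true,0,⟨0,[(6,0),(4,0)]⟩,⟨1,[(10,0),(2,
  0),(0,0),(3,1)]⟩⟩,.o ⟨false,0,⟨1,[(7,0),(2,0)]⟩,⟨1,[(11,1),(0,0),(6,0)]⟩⟩]⟩))) (.Q [0,0,0,0,0,-1,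
  0,1,-1] (.ed true [0,1,1] .k) (.R ⟨1,false,false,true,[1,0,-1],[1,-1],[1,1,0,-1,0,0,-1],(⟨1,[(9,
  0),(2,0),(0,0)]⟩,⟨0,[(10,0)]⟩),(⟨0,[(12,0)]⟩,⟨0,[(13,0)]⟩),⟨0,[(0,0)]⟩,.k,.k,(.r (-1) ⟨9,[(1,3),
  (0,1),(4,2),(1,1),(6,5),(1,4),(0,1)]⟩ ⟨1,[(3,0),(4,0),(8,0)]⟩),(.x (-1) ⟨3,[(7,0),(0,0),(4,3),(4,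
  1)]⟩ ⟨4,[(2,0),(0,1),(7,1),(0,4),(2,0)]⟩),.k,.k,⟨false,0,⟨21,[(1,19),(1,3),(1,3),(1,0),(1,9),(1,
  2),(2,7)]⟩,⟨1,[(8,0),(9,0)]⟩⟩,⟨true,0,⟨1,[(6,0),(2,0)]⟩,⟨0,[(10,0)]⟩⟩,⟨true,0,⟨0,[(16,0)]⟩,⟨0,
  [(17,0)]⟩⟩,⟨false,1,⟨7,[(2,3),(4,0),(0,4),(0,3),(9,1)]⟩,⟨0,[(1,0),(15,0)]⟩⟩,⟨false,0,⟨0,[]⟩,⟨3,
  [(7,0),(0,0),(10,1)]⟩⟩,⟨false,1,⟨7,[(7,0),(0,4),(0,3),(1,1)]⟩,⟨0,[(1,0)]⟩⟩,[.o ⟨false,0,⟨0,[(5,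
  0)]⟩,⟨3,[(4,1),(2,0),(9,1),(0,0),(0,1)]⟩⟩,.o ⟨false,1,⟨3,[(2,1),(4,0),(0,0),(2,0),(7,0)]⟩,⟨0,[(17,
  0)]⟩⟩,.a ⟨true,0,⟨0,[(10,0)]⟩,⟨1,[(9,0),(2,0),(0,0)]⟩⟩ ⟨false,0,⟨15,[(1,13),(0,6),(0,0),(3,0),(1,
  6),(4,1),(1,2)]⟩,⟨1,[(4,1),(13,0),(0,0)]⟩⟩ ⟨true,0,⟨9,[(2,3),(3,0),(2,4),(4,1),(1,1)]⟩,⟨0,[(10,0),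
  (6,0)]⟩⟩,.o ⟨false,0,⟨4,[(2,0),(0,1),(6,4),(0,1),(3,0)]⟩,⟨7,[(7,0),(0,0),(0,3),(1,1),(6,3)]⟩⟩]⟩)
  (.R ⟨0,false,false,true,[1,0,-1],[1,-1],[0,1,0,-1,0,0,-1],(⟨1,[(9,0),(2,0),(0,0)]⟩,⟨0,[(10,0)]⟩),
  (⟨0,[(12,0)]⟩,⟨0,[(13,0)]⟩),⟨0,[(0,0)]⟩,.k,.k,(.r (-1) ⟨9,[(1,3),(0,1),(4,2),(1,1),(6,5),(1,4),(0,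
  1)]⟩ ⟨1,[(3,0),(4,0),(8,0)]⟩),(.x (-1) ⟨3,[(7,0),(0,0),(4,3),(4,1)]⟩ ⟨4,[(2,0),(0,1),(7,1),(0,4),
  (2,0)]⟩),.k,.k,⟨false,0,⟨21,[(1,19),(1,3),(1,3),(1,0),(1,9),(1,2),(2,7)]⟩,⟨1,[(8,0),(9,0)]⟩⟩,
  ⟨true,0,⟨1,[(6,0),(2,0)]⟩,⟨0,[(10,0)]⟩⟩,⟨true,0,⟨0,[(16,0)]⟩,⟨0,[(17,0)]⟩⟩,⟨false,1,⟨7,[(2,3),(4,
  0),(0,4),(0,3),(9,1)]⟩,⟨0,[(1,0),(15,0)]⟩⟩,⟨false,0,⟨0,[]⟩,⟨0,[]⟩⟩,⟨false,0,⟨0,[]⟩,⟨0,[]⟩⟩,[.o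
  ⟨false,0,⟨0,[(5,0)]⟩,⟨3,[(4,1),(2,0),(9,1),(0,0),(0,1)]⟩⟩,.o ⟨false,1,⟨3,[(2,1),(4,0),(0,0),(2,0),
  (7,0)]⟩,⟨0,[(17,0)]⟩⟩,.a ⟨true,0,⟨0,[(10,0)]⟩,⟨1,[(9,0),(2,0),(0,0)]⟩⟩ ⟨false,0,⟨15,[(1,13),(0,6),
  (0,0),(3,0),(1,6),(4,1),(1,2)]⟩,⟨1,[(4,1),(13,0),(0,0)]⟩⟩ ⟨true,0,⟨9,[(2,3),(3,0),(2,4),(4,1),(1,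
  1)]⟩,⟨0,[(10,0),(6,0)]⟩⟩,.o ⟨false,0,⟨4,[(2,0),(0,1),(6,4),(0,1),(3,0)]⟩,⟨7,[(7,0),(0,0),(0,3),(1,
  1),(6,3)]⟩⟩]⟩)))) t0))

theorem ok : chk (cPU (-1) false) tree base = true := by
  decide +kernel

theorem closed {p a b c J l q : ℤ} {D dl : ℝ} {Cl : ℤ → ℤ → ℤ → ℤ → ℝ → Prop}
    (W : World p a b c J (-1) l q D dl Cl) (hE : KEmp p a b (-1) (P1 l p) Cl)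
    (g : G0 p a b c J D)
    {N R : ℤ} {I : ℝ} (hu : VFac p D Cl N R I)
    (s0 : (1 : ℝ) ≤ c)
    (s1 : (a : ℝ) ≤ b)
    (s2 : (b : ℝ) + 1 ≤ 2 * a)
    (s3 : D < 2 * b)
    (s4 : -(a : ℝ) < -D - c) : False := by
  have g1 := g.a2
  have g2 := g.b2
  have g3 := g.pa
  have g4 := g.pb
  have g5 := g.J1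
  have g6 := g.JD
  have g7 := g.D2
  have g8 := g.ca
  have g9 := g.ca'
  have t1 := TF.ofV hu
  have i1 := t1.I0
  have i2 := hu.ID
  have i3 := t1.R1
  have i4 := t1.R2
  refine (val_PU W.toBase (UV.ofV hu)).sound W rfl (Nk := 0) (fun kf hkf hh => ?_) (kok_B hE (by simp [xv]) (by simp [xv]) 0) ?_ ok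
  · simp only [cPU, kfB, List.mem_cons, List.not_mem_nil, or_false] at hkf
    subst hkf
    exact absurd hh (by norm_num)
  · simp only [base, List.forall_mem_cons, List.not_mem_nil, false_imp_iff, implies_true,
      and_true, hld, xv, evg_cons, evg_nil, List.map_cons, List.map_nil, List.cons_append,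
      List.nil_append, if_true, if_false, Bool.false_eq_true]
    push_cast
    refine ⟨?_, ?_, ?_, ?_, ?_, ?_, ?_, ?_, ?_, ?_, ?_, ?_, ?_, ?_, ?_, ?_, ?_⟩ <;> linarith

end Helper25.KG.P1_35_m1_0_v
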