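import Pool.Agent.Helper25.KG.PL

set_option autoImplicit false
set_option linter.unusedVariables false

namespace Helper25.KG.P1_35_m1_1_u

open Helper11.CT Helper25.KW Helper25.KG

def base : List Con :=
  [(false,[0,1,0,1,-1,0,0,1]),
  (false,[0,0,2,0,0,0,0,-1]),
  (true,[0,0,0,0,1,0,-2]),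
  (true,[0,0,0,0,1,0,2]),
  (false,[0,0,0,0,0,0,0,1,-1]),
  (false,[0,0,0,0,0,0,0,0,1]),
  (false,[0,0,0,0,1,0,0,-2]),
  (false,[0,0,0,0,0,-1,0,1]),
  (true,[0,0,0,0,0,1]),
  (true,[0,2,-1]),
  (true,[1,-1,1]),
  (true,[0,1,0,-1]),
  (true,[0,0,0,1]),
  (true,[0,0,-2,0,1]),
  (true,[0,-2,0,0,1]),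
  (true,[-1,0,1]),
  (true,[-1,1])]

def t0 : Tre :=
  (.Q [0,0,0,0,0,-1,0,0,1] (.ed false [1,-1,1] .k) (.I [1,0,1,1,-1,0,-1] (.Q [0,0,1,0,0,0,0,0,-1]
  (.p false [0,0,1] [] (⟨0,[(15,0)]⟩,⟨0,[(14,0)]⟩) .k 0 (⟨0,[]⟩,⟨0,[]⟩) .k .k) (.Q [0,0,-3,0,1,0,0,
  0,1] (.p true [0,0,1] [] (⟨0,[(16,0)]⟩,⟨0,[(15,0)]⟩) .k 0 (⟨0,[]⟩,⟨0,[]⟩) .k .k) (.Q [0,0,-2,0,1,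
  0,0,-1,1] (.p true [0,0,1] [1] (⟨0,[(17,0)]⟩,⟨0,[(16,0)]⟩) .k 1 (⟨0,[]⟩,⟨0,[]⟩) .k .k) (.S ⟨1,0,
  [0,1,0,0,0,0,1],[0,0,1],[1,0,1],(⟨0,[(18,0)]⟩,⟨0,[(17,0)]⟩),⟨0,[(4,0)]⟩,.k,(.x 0 ⟨0,[(14,0),(5,
  0)]⟩ ⟨0,[(21,0),(4,0)]⟩),⟨false,0,⟨4,[(3,0),(2,1),(8,0),(7,3),(0,0)]⟩,⟨1,[(16,0),(9,0)]⟩⟩,⟨true,0,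
  ⟨0,[(29,0)]⟩,⟨0,[]⟩⟩,⟨true,(-1),⟨0,[(3,0)]⟩,⟨1,[(16,0),(7,1),(1,0)]⟩⟩,⟨false,0,⟨0,[(25,0)]⟩,⟨0,
  [(24,0),(2,0)]⟩⟩,[.e ⟨false,0,⟨0,[]⟩,⟨3,[(15,0),(0,0),(9,1)]⟩⟩ ⟨false,1,⟨7,[(15,0),(0,4),(5,3),(3,
  1)]⟩,⟨0,[(6,0)]⟩⟩,.a ⟨true,0,⟨0,[(5,0)]⟩,⟨1,[(9,0),(0,0)]⟩⟩ ⟨true,0,⟨0,[(23,0)]⟩,⟨0,[(29,0)]⟩⟩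
  ⟨false,1,⟨1,[(16,0),(9,0)]⟩,⟨4,[(3,0),(2,0),(1,0),(6,0)]⟩⟩,.o ⟨false,0,⟨0,[(2,0)]⟩,⟨5,[(0,3),(9,
  0),(1,0),(1,1),(1,0)]⟩⟩,.o ⟨false,0,⟨7,[(2,4),(0,0),(1,2),(8,2),(0,0),(7,0),(0,0)]⟩,⟨0,[(0,
  0)]⟩⟩]⟩) (.K ⟨0,[1,0,-1],1,0,(⟨0,[(17,0)]⟩,⟨0,[(18,0)]⟩),.k,(.x (-1) ⟨3,[(15,0),(0,0),(2,1),(0,
  3)]⟩ ⟨0,[(21,0)]⟩),(.x (-1) ⟨0,[(21,0),(4,0)]⟩ ⟨0,[(14,0),(5,0)]⟩),.k,.k,[⟨0,[(0,0)]⟩,⟨2,[(10,0),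
  (1,0),(1,0),(1,0),(1,0),(0,0)]⟩,⟨0,[(5,0),(23,0)]⟩,⟨3,[(7,2),(2,0),(0,0),(1,0),(5,0)]⟩]⟩)) (.R ⟨1,
  false,false,false,[0,0,1],[1,-1],[0,0,1],(⟨0,[(17,0)]⟩,⟨0,[(16,0)]⟩),(⟨0,[(19,0)]⟩,⟨0,[(20,0)]⟩),
  ⟨0,[(3,0)]⟩,.k,.k,(.r (-2) ⟨3,[(14,0),(0,2),(7,3),(1,1),(0,1)]⟩ ⟨1,[(0,1),(5,0),(1,0),(1,0),(1,0),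
  (12,0)]⟩),(.x 0 ⟨0,[(20,0)]⟩ ⟨3,[(14,0),(0,0),(2,1),(0,3)]⟩),.k,.k,⟨true,(-1),⟨1,[(0,1),(5,0),(1,
  0),(1,0),(1,0),(2,0)]⟩,⟨1,[(23,1),(1,0),(0,0)]⟩⟩,⟨false,1,⟨1,[(8,0),(0,0),(5,0),(2,0)]⟩,⟨0,[(16,
  0)]⟩⟩,⟨false,0,⟨3,[(0,1),(7,1),(5,0),(11,0)]⟩,⟨1,[(15,0),(9,0)]⟩⟩,⟨false,1,⟨0,[(6,0),(19,0)]⟩,⟨21,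
  [(4,21),(5,9),(1,1),(0,1),(0,0),(0,0),(5,3)]⟩⟩,⟨true,(-1),⟨1,[(0,1),(5,0),(1,0),(1,0),(1,0),(12,
  0)]⟩,⟨1,[(15,0),(7,1),(1,0)]⟩⟩,⟨false,1,⟨1,[(8,0),(2,0),(6,0)]⟩,⟨0,[(4,0)]⟩⟩,[.o ⟨false,1,⟨1,[(18,
  0),(4,1),(2,0)]⟩,⟨0,[(24,0)]⟩⟩,.a ⟨true,1,⟨0,[(23,0),(2,0)]⟩,⟨0,[(12,0)]⟩⟩ ⟨true,0,⟨1,[(0,1),(7,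
  1),(6,0),(9,0)]⟩,⟨0,[(28,0)]⟩⟩ ⟨false,2,⟨1,[(6,1),(8,0),(9,0),(0,1)]⟩,⟨0,[(1,0),(10,0)]⟩⟩,.o
  ⟨false,0,⟨0,[(1,0)]⟩,⟨1,[(8,0),(0,0),(5,0),(2,0)]⟩⟩,.e ⟨false,1,⟨3,[(14,0),(0,0),(10,1)]⟩,⟨0,[]⟩⟩
  ⟨false,2,⟨1,[(6,1),(8,0),(9,0),(0,1)]⟩,⟨0,[(2,0),(1,0)]⟩⟩]⟩)) (.S ⟨1,0,[0,1,0,0,0,0,1],[0,0,1],[1,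
  0,1],(⟨0,[(16,0)]⟩,⟨0,[(15,0)]⟩),⟨0,[(2,0)]⟩,.k,(.x 0 ⟨0,[(12,0),(5,0)]⟩ ⟨0,[(19,0),(4,0)]⟩),
  ⟨false,0,⟨4,[(1,0),(2,1),(8,0),(7,3),(0,0)]⟩,⟨1,[(14,0),(9,0)]⟩⟩,⟨true,0,⟨0,[(27,0)]⟩,⟨0,[]⟩⟩,
  ⟨true,(-1),⟨0,[(1,0)]⟩,⟨1,[(14,0),(7,1),(1,0)]⟩⟩,⟨false,0,⟨0,[(23,0)]⟩,⟨0,[(22,0),(2,0)]⟩⟩,[.e
  ⟨false,0,⟨0,[]⟩,⟨3,[(13,0),(0,0),(9,1)]⟩⟩ ⟨false,1,⟨7,[(13,0),(0,4),(5,3),(3,1)]⟩,⟨0,[(4,0)]⟩⟩,.a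
  ⟨true,0,⟨0,[(3,0)]⟩,⟨1,[(7,0),(0,0)]⟩⟩ ⟨true,0,⟨0,[(21,0)]⟩,⟨0,[(27,0)]⟩⟩ ⟨false,1,⟨1,[(14,0),(9,
  0)]⟩,⟨4,[(1,0),(2,0),(1,0),(6,0)]⟩⟩,.e ⟨false,0,⟨0,[(21,0)]⟩,⟨3,[(13,0),(0,0),(9,1)]⟩⟩ ⟨false,1,
  ⟨3,[(13,0),(0,2)]⟩,⟨0,[(4,0)]⟩⟩,.o ⟨false,0,⟨0,[(12,0),(2,0)]⟩,⟨1,[(0,1),(16,0),(6,0)]⟩⟩]⟩)) (.S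
  ⟨1,0,[0,1,0,0,0,0,1],[0,0,1],[1,0,0,-1,0,0,1],(⟨0,[(15,0)]⟩,⟨0,[(14,0)]⟩),⟨0,[(1,0)]⟩,.k,(.r (-1)
  ⟨0,[(0,0)]⟩ ⟨10,[(3,0),(4,2),(1,4),(0,4),(0,4),(7,0)]⟩),⟨false,1,⟨0,[(21,0),(2,0)]⟩,⟨0,[(22,0)]⟩⟩,
  ⟨true,0,⟨0,[(26,0)]⟩,⟨0,[]⟩⟩,⟨true,0,⟨0,[]⟩,⟨0,[(26,0)]⟩⟩,⟨false,0,⟨0,[(22,0)]⟩,⟨0,[(21,0),(2,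
  0)]⟩⟩,[.e ⟨false,1,⟨0,[(0,0)]⟩,⟨9,[(3,3),(4,1),(1,5),(1,2),(3,2)]⟩⟩ ⟨false,1,⟨7,[(12,0),(0,4),(5,
  3),(3,1)]⟩,⟨0,[(3,0)]⟩⟩,.a ⟨true,0,⟨0,[(2,0)]⟩,⟨1,[(6,0),(0,0)]⟩⟩ ⟨true,1,⟨0,[(0,0),(19,0)]⟩,⟨2,
  [(3,1),(1,0),(4,3),(0,1),(4,0)]⟩⟩ ⟨false,1,⟨1,[(13,0),(9,0)]⟩,⟨17,[(3,7),(1,3),(4,3),(0,1),(0,2),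
  (3,0)]⟩⟩,.e ⟨false,1,⟨0,[(0,0),(19,0)]⟩,⟨9,[(3,3),(4,1),(1,5),(1,2),(3,2)]⟩⟩ ⟨false,1,⟨3,[(12,0),
  (0,2)]⟩,⟨0,[(3,0)]⟩⟩,.o ⟨false,0,⟨0,[(11,0),(2,0)]⟩,⟨0,[(0,0),(3,0),(3,0)]⟩⟩]⟩)) (.Q [0,1,1,1,-1,
  0,0,1,-1] (.p false [0,0,1] [1] (⟨0,[(14,0)]⟩,⟨0,[(13,0)]⟩) .k 1 (⟨0,[]⟩,⟨0,[]⟩) .k .k) (.I [0,0,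
  1,1,-1,0,-1] (.Q [0,0,-2,0,1,0,0,-1,1] (.p true [0,0,1] [1] (⟨0,[(16,0)]⟩,⟨0,[(15,0)]⟩) .k 1 (⟨0,
  []⟩,⟨0,[]⟩) .k .k) (.Q [0,0,1,0,0,0,0,0,-1] (.p false [0,0,1] [] (⟨0,[(17,0)]⟩,⟨0,[(16,0)]⟩) .k 0
  (⟨0,[]⟩,⟨0,[]⟩) .k .k) (.R ⟨0,false,false,false,[0,0,1],[1,-1],[1,1,0,-1,0,0,1],(⟨0,[(18,0)]⟩,⟨0,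
  [(17,0)]⟩),(⟨0,[(20,0)]⟩,⟨0,[(21,0)]⟩),⟨0,[(4,0)]⟩,.k,.k,(.r (-2) ⟨3,[(15,0),(0,2),(7,3),(1,1),(0,
  1)]⟩ ⟨0,[(2,0)]⟩),(.x 0 ⟨0,[(21,0)]⟩ ⟨3,[(15,0),(0,0),(2,1),(0,3)]⟩),.k,.k,⟨true,0,⟨1,[(13,0),(0,
  0),(1,0),(7,0)]⟩,⟨0,[(6,0)]⟩⟩,⟨false,1,⟨5,[(1,1),(8,0),(1,0),(3,0),(1,1),(0,1)]⟩,⟨0,[(17,0)]⟩⟩,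
  ⟨true,0,⟨0,[(24,0)]⟩,⟨0,[(25,0)]⟩⟩,⟨false,1,⟨0,[(7,0),(19,0)]⟩,⟨11,[(3,3),(1,7),(5,3),(3,0),(0,
  2)]⟩⟩,⟨false,0,⟨0,[]⟩,⟨0,[]⟩⟩,⟨false,0,⟨0,[]⟩,⟨0,[]⟩⟩,[.o ⟨false,1,⟨1,[(19,0),(4,1),(2,0)]⟩,⟨0,
  [(25,0)]⟩⟩,.a ⟨true,1,⟨0,[(24,0),(2,0)]⟩,⟨0,[(13,0)]⟩⟩ ⟨true,1,⟨1,[(16,0),(7,1),(2,0)]⟩,⟨0,[(2,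
  0)]⟩⟩ ⟨false,2,⟨0,[(1,0),(22,0),(2,0)]⟩,⟨0,[(3,0)]⟩⟩,.o ⟨false,0,⟨0,[(0,0)]⟩,⟨5,[(1,1),(8,0),(1,
  0),(3,0),(1,1),(0,1)]⟩⟩,.o ⟨false,0,⟨7,[(0,4),(1,0),(2,2),(8,2),(0,0),(7,0),(0,0)]⟩,⟨0,[(1,
  0)]⟩⟩]⟩) (.Q [0,1,-1,1,-1,0,-1,0,1] (.p true [0,0,1] [] (⟨0,[(18,0)]⟩,⟨0,[(17,0)]⟩) .k 0 (⟨0,[]⟩,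
  ⟨0,[]⟩) .k .k) (.R ⟨2,true,false,false,[0,1],[0,0,1],[1,0,1],(⟨0,[]⟩,⟨0,[]⟩),(⟨0,[(19,0)]⟩,⟨0,
  [(18,0)]⟩),⟨0,[]⟩,.k,.k,.k,(.r 1 ⟨0,[(3,0)]⟩ ⟨3,[(16,0),(0,2),(7,3),(1,1),(0,1)]⟩),.k,.k,⟨false,0,
  ⟨4,[(3,0),(3,0),(1,0),(6,0)]⟩,⟨1,[(17,0),(9,0)]⟩⟩,⟨true,0,⟨0,[(15,0),(2,0)]⟩,⟨0,[(1,0)]⟩⟩,⟨false,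
  1,⟨0,[(25,0),(2,0)]⟩,⟨0,[(26,0)]⟩⟩,⟨true,1,⟨1,[(6,1),(13,0),(4,1),(2,0)]⟩,⟨0,[(0,0)]⟩⟩,⟨true,0,⟨0,
  []⟩,⟨0,[(30,0)]⟩⟩,⟨false,1,⟨1,[(6,1),(13,0),(7,0)]⟩,⟨1,[(10,0),(0,0)]⟩⟩,[]⟩) (.R ⟨0,false,false,
  false,[0,0,1],[0,1],[1,1,1],(⟨0,[(19,0)]⟩,⟨0,[(18,0)]⟩),(⟨0,[(22,0)]⟩,⟨0,[(21,0)]⟩),⟨0,[(5,0)]⟩,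
  .k,.k,(.r (-2) ⟨5,[(0,1),(12,1),(2,0),(0,3),(7,3),(1,2)]⟩ ⟨0,[(3,0)]⟩),(.r (-2) ⟨5,[(0,1),(12,1),
  (2,0),(0,3),(7,3),(1,2)]⟩ ⟨0,[(3,0)]⟩),.k,.k,⟨true,0,⟨0,[(25,0)]⟩,⟨10,[(3,0),(2,1),(5,4),(0,0),(1,
  1),(3,0),(4,4)]⟩⟩,⟨false,1,⟨0,[(1,0),(25,0)]⟩,⟨8,[(0,4),(2,1),(0,3),(4,0),(5,3),(0,0)]⟩⟩,⟨true,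
  (-1),⟨0,[(3,0),(21,0)]⟩,⟨1,[(17,0),(9,0)]⟩⟩,⟨false,0,⟨3,[(10,2),(0,0),(0,1)]⟩,⟨11,[(0,9),(5,1),(8,
  1),(0,0),(0,0),(5,3),(1,1)]⟩⟩,⟨false,0,⟨0,[]⟩,⟨0,[]⟩⟩,⟨false,0,⟨0,[]⟩,⟨0,[]⟩⟩,[.o ⟨false,0,⟨0,
  [(26,0)]⟩,⟨7,[(0,3),(7,3),(7,0),(0,0),(2,1)]⟩⟩,.e ⟨false,0,⟨0,[]⟩,⟨3,[(16,0),(0,0),(9,1)]⟩⟩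
  ⟨false,1,⟨3,[(1,1),(8,0),(1,1),(0,0),(3,0),(9,1)]⟩,⟨0,[(0,0),(3,0),(3,0)]⟩⟩,.a ⟨true,0,⟨4,[(3,0),
  (2,2),(9,0),(1,1),(5,0),(0,0)]⟩,⟨0,[(1,0)]⟩⟩ ⟨false,0,⟨0,[(29,0)]⟩,⟨1,[(27,0),(0,0)]⟩⟩ ⟨true,0,⟨2,
  [(1,0),(0,0),(9,0),(1,0),(4,0)]⟩,⟨0,[(0,0),(3,0),(3,0)]⟩⟩,.o ⟨false,0,⟨8,[(0,4),(2,1),(0,3),(4,0),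
  (5,3),(0,0)]⟩,⟨0,[(2,0)]⟩⟩]⟩))) (.K ⟨0,[1,0,-1],1,0,(⟨0,[(16,0)]⟩,⟨0,[(17,0)]⟩),.k,(.x (-1) ⟨3,
  [(14,0),(0,0),(2,1),(0,3)]⟩ ⟨0,[(20,0)]⟩),(.r 1 ⟨0,[(1,0)]⟩ ⟨3,[(14,0),(0,2),(7,3),(1,1),(0,1)]⟩),
  .k,.k,[⟨0,[(0,0)]⟩,⟨2,[(9,0),(1,0),(1,0),(1,0),(1,0),(0,0)]⟩,⟨0,[(4,0),(23,0)]⟩,⟨3,[(6,2),(2,0),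
  (0,0),(1,0),(5,0)]⟩]⟩)) (.Q [0,0,0,0,0,2,0,-1] (.pp true [-1,1]) (.R ⟨0,false,false,true,[1,-1],
  [0,0,1],[1,1,-1,-2],(⟨0,[(19,0)]⟩,⟨0,[(20,0)]⟩),(⟨0,[(17,0)]⟩,⟨0,[(16,0)]⟩),⟨0,[(0,0)]⟩,.k,.k,(.r
  (-2) ⟨2,[(1,3),(5,1),(6,0),(11,0)]⟩ ⟨0,[(12,1),(5,0),(3,1)]⟩),(.x (-1) ⟨3,[(14,0),(0,0),(2,1),(0,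
  3)]⟩ ⟨0,[(20,0)]⟩),.k,.k,⟨false,1,⟨0,[(1,0),(3,0),(1,0)]⟩,⟨43,[(10,31),(1,23),(0,23),(0,0),(0,22),
  (5,3)]⟩⟩,⟨true,0,⟨0,[(16,0)]⟩,⟨1,[(6,1),(5,1),(2,0),(2,0),(3,3)]⟩⟩,⟨true,0,⟨0,[(23,0)]⟩,⟨0,[(24,
  0)]⟩⟩,⟨false,0,⟨11,[(2,3),(1,7),(5,3),(3,0),(0,2)]⟩,⟨0,[(6,0),(19,0)]⟩⟩,⟨false,0,⟨0,[]⟩,⟨0,[]⟩⟩,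
  ⟨false,0,⟨0,[]⟩,⟨0,[]⟩⟩,[.a ⟨true,0,⟨0,[(4,0),(23,0)]⟩,⟨0,[(8,0)]⟩⟩ ⟨false,1,⟨0,[(1,0),(5,0)]⟩,
  ⟨18,[(4,3),(5,17),(1,1),(0,5),(0,1),(2,3),(4,2)]⟩⟩ ⟨true,0,⟨0,[(1,0),(0,0)]⟩,⟨0,[(8,0),(4,0)]⟩⟩,
  .a ⟨true,0,⟨0,[(4,0)]⟩,⟨1,[(8,0),(0,0)]⟩⟩ ⟨true,1,⟨0,[(1,0),(3,0),(17,0)]⟩,⟨0,[(12,1),(5,0),(3,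
  1)]⟩⟩ ⟨false,1,⟨1,[(15,0),(0,1),(8,0)]⟩,⟨7,[(6,3),(1,2),(0,0),(0,1),(2,3)]⟩⟩,.a ⟨true,0,⟨0,[(27,
  0)]⟩,⟨1,[(1,0),(6,0),(3,0),(3,0)]⟩⟩ ⟨false,1,⟨0,[(1,0),(3,0),(17,0)]⟩,⟨18,[(4,3),(5,17),(1,1),(0,
  5),(0,1),(2,3),(4,2)]⟩⟩ ⟨true,0,⟨0,[(1,0),(0,0)]⟩,⟨7,[(6,3),(1,2),(0,0),(0,1),(2,3)]⟩⟩,.o ⟨false,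
  0,⟨0,[(13,0)]⟩,⟨0,[(25,0)]⟩⟩]⟩) (.R ⟨1,true,false,false,[1,0,-1],[0,1],[1,0,1],(⟨0,[(16,0)]⟩,⟨0,
  [(17,0)]⟩),(⟨0,[(20,0)]⟩,⟨0,[(19,0)]⟩),⟨0,[(0,0),(2,0)]⟩,.k,.k,(.x (-1) ⟨7,[(0,3),(13,2),(0,2),(2,
  1)]⟩ ⟨0,[(20,0)]⟩),(.x (-1) ⟨7,[(0,3),(13,2),(0,2),(2,1)]⟩ ⟨0,[(20,0)]⟩),(.r (-1) ⟨0,[(1,0),(3,0),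
  (1,0)]⟩ ⟨35,[(4,7),(5,23),(1,23),(0,31),(0,4),(0,18),(1,7)]⟩),.k,⟨false,1,⟨5,[(1,3),(5,1),(6,0),
  (11,0)]⟩,⟨0,[(24,0)]⟩⟩,⟨true,0,⟨0,[(16,0)]⟩,⟨1,[(6,1),(5,1),(2,0),(2,0),(3,3)]⟩⟩,⟨false,1,⟨4,[(4,
  1),(6,0),(1,1),(1,1),(1,0),(8,1)]⟩,⟨2,[(0,0),(2,1),(2,0),(0,0),(0,0),(1,0)]⟩⟩,⟨true,0,⟨11,[(2,3),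
  (1,7),(5,3),(3,0),(0,2)]⟩,⟨0,[(6,0)]⟩⟩,⟨true,0,⟨1,[(12,1),(2,0),(2,0),(3,1)]⟩,⟨0,[(7,0)]⟩⟩,⟨false,
  0,⟨0,[(4,0),(5,0)]⟩,⟨0,[(6,0),(16,0),(2,0)]⟩⟩,[]⟩))) (.R ⟨0,false,false,true,[1,0,-1],[0,1],[0,1,
  0,-1,0,0,-1],(⟨0,[(14,0)]⟩,⟨0,[(15,0)]⟩),(⟨0,[(18,0)]⟩,⟨0,[(17,0)]⟩),⟨0,[(0,1),(0,0),(8,1),(0,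
  0)]⟩,.k,.k,(.x (-1) ⟨3,[(12,0),(0,0),(2,1),(0,3)]⟩ ⟨0,[(18,0)]⟩),(.x (-1) ⟨3,[(12,0),(0,0),(2,1),
  (0,3)]⟩ ⟨0,[(18,0)]⟩),.k,.k,⟨false,1,⟨0,[(0,0),(4,0),(8,0)]⟩,⟨43,[(8,31),(1,23),(0,23),(0,0),(0,
  22),(5,3)]⟩⟩,⟨true,0,⟨0,[(14,0)]⟩,⟨0,[(0,0),(9,0),(0,0)]⟩⟩,⟨true,0,⟨0,[(21,0)]⟩,⟨21,[(8,9),(1,1),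
  (0,1),(0,0),(0,0),(5,3)]⟩⟩,⟨false,0,⟨21,[(2,21),(5,9),(1,1),(0,1),(0,0),(0,0),(5,3)]⟩,⟨4,[(0,3),
  (2,1),(0,0),(7,0)]⟩⟩,⟨false,0,⟨0,[]⟩,⟨0,[]⟩⟩,⟨false,0,⟨0,[]⟩,⟨0,[]⟩⟩,[.e ⟨false,0,⟨0,[(5,0)]⟩,⟨7,
  [(8,3),(3,0),(0,4),(10,1)]⟩⟩ ⟨false,0,⟨18,[(2,5),(5,7),(1,2),(0,2),(0,2),(1,12),(4,11)]⟩,⟨0,[(0,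
  0)]⟩⟩,.o ⟨false,0,⟨0,[(22,0)]⟩,⟨1,[(16,0),(4,1),(2,0)]⟩⟩,.e ⟨false,0,⟨0,[(3,0),(17,0)]⟩,⟨7,[(8,3),
  (3,0),(0,4),(10,1)]⟩⟩ ⟨false,0,⟨18,[(2,9),(5,6),(1,4),(0,4),(0,4),(1,8),(4,0)]⟩,⟨0,[(0,0)]⟩⟩,.a
  ⟨true,0,⟨0,[(15,0)]⟩,⟨0,[(14,0)]⟩⟩ ⟨true,0,⟨0,[(5,0)]⟩,⟨1,[(10,1),(2,0),(2,0),(3,1)]⟩⟩ ⟨false,0,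
  ⟨18,[(2,1),(5,8),(1,0),(0,0),(0,0),(1,16),(4,3)]⟩,⟨2,[(0,1),(10,0),(3,0),(5,0),(2,0)]⟩⟩]⟩)))

def t1 : Tre :=
  (.Q [0,1,-1,0,0,0,-1,0,1] (.p true [0,0,1] [] (⟨0,[(7,0)]⟩,⟨0,[(6,0)]⟩) .k 0 (⟨0,[]⟩,⟨0,[]⟩) .k
  .k) (.Q [0,1,1,0,0,0,1,0,-1] (.p false [0,0,1] [] (⟨0,[(8,0)]⟩,⟨0,[(7,0)]⟩) .k 0 (⟨0,[]⟩,⟨0,[]⟩)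
  .k .k) (.K ⟨0,[0,0,1],0,0,(⟨0,[(9,0)]⟩,⟨0,[(8,0)]⟩),.k,(.x 0 ⟨0,[(5,0),(5,0)]⟩ ⟨0,[(12,0),(4,
  0)]⟩),(.x 0 ⟨0,[(12,0)]⟩ ⟨3,[(6,0),(0,0),(2,1),(0,3)]⟩),.k,.k,[⟨0,[(9,0)]⟩,⟨0,[(5,0),(2,0)]⟩,⟨0,
  [(1,0)]⟩,⟨0,[(0,0)]⟩]⟩) (.I [0,1,-1,-1,0,0,-1] (.Q [0,-1,1,1,0,0,1,1,-1] (.p false [0,0,1] [1]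
  (⟨0,[(10,0)]⟩,⟨0,[(9,0)]⟩) .k 1 (⟨0,[]⟩,⟨0,[]⟩) .k .k) (.R ⟨2,true,false,true,[0,1],[1,0,-1],[0,1,
  1,1],(⟨0,[]⟩,⟨0,[]⟩),(⟨0,[(10,0)]⟩,⟨0,[(11,0)]⟩),⟨0,[]⟩,.k,.k,.k,(.x 0 ⟨0,[(14,0)]⟩ ⟨3,[(8,0),(0,
  0),(2,1),(0,3)]⟩),.k,.k,⟨true,0,⟨1,[(6,1),(2,0),(2,0),(3,1)]⟩,⟨0,[(1,0),(14,0)]⟩⟩,⟨false,1,⟨1,[(2,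
  0),(0,0),(5,0),(2,0)]⟩,⟨0,[(10,0)]⟩⟩,⟨true,0,⟨0,[(22,0)]⟩,⟨0,[]⟩⟩,⟨false,1,⟨1,[(2,0),(2,0),(6,0),
  (4,1)]⟩,⟨0,[(0,0)]⟩⟩,⟨false,0,⟨0,[(18,0)]⟩,⟨0,[(17,0),(2,0)]⟩⟩,⟨true,0,⟨0,[(2,0),(3,0),(5,0),(4,
  0)]⟩,⟨0,[(0,0),(16,0)]⟩⟩,[]⟩) (.I [1,1,0,0,0,0,1] (.Q [0,0,0,0,0,1,0,-1,1] (.ed false [0,1,1] .k)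
  (.R ⟨0,false,false,false,[1,0,-1],[0,1],[0,0,0,0,0,0,-1],(⟨0,[(12,0)]⟩,⟨0,[(13,0)]⟩),(⟨0,[(16,
  0)]⟩,⟨0,[(15,0)]⟩),⟨0,[(0,0)]⟩,.k,.k,(.x (-1) ⟨3,[(10,0),(0,0),(2,1),(0,3)]⟩ ⟨0,[(16,0)]⟩),(.x
  (-1) ⟨3,[(10,0),(0,0),(2,1),(0,3)]⟩ ⟨0,[(16,0)]⟩),.k,.k,⟨false,1,⟨1,[(3,1),(17,0),(0,0)]⟩,⟨2,[(1,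
  0),(4,0),(1,0),(0,0),(1,0),(6,0)]⟩⟩,⟨true,0,⟨0,[(12,0)]⟩,⟨0,[(1,0),(2,0),(4,0)]⟩⟩,⟨false,1,⟨3,
  [(10,0),(0,0),(10,1)]⟩,⟨0,[]⟩⟩,⟨true,0,⟨2,[(1,0),(4,0),(1,0),(0,0),(1,0),(0,2),(5,0)]⟩,⟨0,[(2,
  0)]⟩⟩,⟨false,0,⟨0,[]⟩,⟨0,[]⟩⟩,⟨false,0,⟨0,[]⟩,⟨0,[]⟩⟩,[.o ⟨false,0,⟨0,[(20,0)]⟩,⟨1,[(14,0),(4,1),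
  (2,0)]⟩⟩,.a ⟨true,0,⟨0,[(8,0),(13,0)]⟩,⟨0,[(19,0)]⟩⟩ ⟨false,1,⟨3,[(4,1),(5,0),(1,1),(1,0),(6,0),
  (0,0)]⟩,⟨0,[(1,0)]⟩⟩ ⟨true,0,⟨1,[(6,0),(5,1),(5,0),(4,0)]⟩,⟨0,[(1,0),(0,0),(15,0)]⟩⟩,.a ⟨true,0,
  ⟨0,[(1,0),(2,0)]⟩,⟨0,[(12,0),(10,0)]⟩⟩ ⟨true,0,⟨13,[(3,6),(0,4),(1,2),(1,0),(0,5),(0,0),(1,4)]⟩,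
  ⟨0,[(1,0)]⟩⟩ ⟨false,0,⟨1,[(6,0),(5,1),(5,0),(4,0)]⟩,⟨1,[(2,1),(8,0),(10,0)]⟩⟩,.a ⟨true,0,⟨0,[(13,
  0)]⟩,⟨0,[(12,0)]⟩⟩ ⟨false,1,⟨3,[(4,1),(5,0),(1,1),(1,0),(6,0),(0,0)]⟩,⟨0,[(1,0),(16,0)]⟩⟩ ⟨true,0,
  ⟨21,[(6,9),(1,1),(0,1),(0,0),(0,0),(0,21),(4,3)]⟩,⟨0,[(1,0),(0,0),(15,0)]⟩⟩]⟩) (.S ⟨1,0,[0,1,0,0,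
  0,0,-1],[1,0,-1],[0,0,0,0,0,0,-1],(⟨0,[(12,0)]⟩,⟨0,[(13,0)]⟩),⟨0,[(0,0)]⟩,.k,(.x (-1) ⟨3,[(10,0),
  (0,0),(2,1),(0,3)]⟩ ⟨0,[(16,0)]⟩),⟨false,1,⟨3,[(10,0),(0,0),(10,1)]⟩,⟨0,[]⟩⟩,⟨true,0,⟨0,[(24,0)]⟩,
  ⟨0,[]⟩⟩,⟨true,0,⟨0,[(20,0)]⟩,⟨0,[(19,0)]⟩⟩,⟨false,0,⟨0,[(20,0)]⟩,⟨0,[(19,0),(2,0)]⟩⟩,[.o ⟨false,0,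
  ⟨3,[(2,2),(2,0),(0,0),(1,0),(5,0)]⟩,⟨1,[(11,0),(0,1),(1,0),(3,1)]⟩⟩,.a ⟨true,0,⟨1,[(4,0),(0,0)]⟩,
  ⟨0,[(1,0),(10,0),(5,0)]⟩⟩ ⟨false,1,⟨3,[(4,1),(5,0),(1,1),(1,0),(6,0),(0,0)]⟩,⟨0,[(1,0)]⟩⟩ ⟨true,0,
  ⟨13,[(3,6),(0,4),(1,2),(1,0),(0,5),(0,0),(1,4)]⟩,⟨0,[(1,0),(16,0)]⟩⟩,.a ⟨true,0,⟨0,[(1,0),(2,0)]⟩,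
  ⟨0,[(12,0),(10,0)]⟩⟩ ⟨true,0,⟨13,[(3,6),(0,4),(1,2),(1,0),(0,5),(0,0),(1,4)]⟩,⟨0,[(1,0)]⟩⟩ ⟨false,
  0,⟨13,[(3,6),(0,4),(1,2),(1,0),(0,5),(0,0),(1,4)]⟩,⟨1,[(11,0),(10,0)]⟩⟩,.a ⟨true,0,⟨0,[(13,0)]⟩,
  ⟨0,[(12,0)]⟩⟩ ⟨false,1,⟨3,[(4,1),(5,0),(1,1),(1,0),(6,0),(0,0)]⟩,⟨0,[(1,0),(16,0)]⟩⟩ ⟨true,0,⟨11,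
  [(3,9),(2,3),(1,1),(1,0),(3,0),(2,1)]⟩,⟨0,[(1,0),(16,0)]⟩⟩]⟩)) (.Q [0,0,-1,0,0,0,-1,-1,1] (.p
  true [0,0,1] [1] (⟨0,[(12,0)]⟩,⟨0,[(11,0)]⟩) .k 1 (⟨0,[]⟩,⟨0,[]⟩) .k .k) (.R ⟨2,true,false,false,
  [0,1],[1,0,-1],[1,1,1],(⟨0,[]⟩,⟨0,[]⟩),(⟨0,[(12,0)]⟩,⟨0,[(13,0)]⟩),⟨0,[]⟩,.k,.k,.k,(.x 0 ⟨0,[(16,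
  0)]⟩ ⟨3,[(10,0),(0,0),(2,1),(0,3)]⟩),.k,.k,⟨true,0,⟨1,[(8,0),(0,0),(1,0),(7,0)]⟩,⟨0,[(1,0)]⟩⟩,
  ⟨false,1,⟨3,[(0,1),(4,0),(1,0),(3,1),(2,0)]⟩,⟨0,[(12,0)]⟩⟩,⟨true,0,⟨0,[(19,0)]⟩,⟨0,[(20,0)]⟩⟩,
  ⟨false,1,⟨0,[(2,0),(19,0)]⟩,⟨1,[(8,1),(2,0),(0,1),(1,0),(3,1)]⟩⟩,⟨false,0,⟨0,[]⟩,⟨3,[(10,0),(0,0),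
  (10,1)]⟩⟩,⟨true,0,⟨0,[(0,0)]⟩,⟨1,[(8,0),(0,0),(1,0),(0,1),(6,0)]⟩⟩,[]⟩) t0))) (.R ⟨2,true,false,
  true,[0,1],[1,0,-1],[1,1,1],(⟨0,[]⟩,⟨0,[]⟩),(⟨0,[(9,0)]⟩,⟨0,[(10,0)]⟩),⟨0,[]⟩,.k,.k,.k,(.x 0 ⟨0,
  [(13,0)]⟩ ⟨3,[(7,0),(0,0),(2,1),(0,3)]⟩),.k,.k,⟨true,0,⟨0,[(0,0),(15,0)]⟩,⟨1,[(1,1),(3,0),(0,0),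
  (2,1),(1,0),(4,0)]⟩⟩,⟨false,1,⟨1,[(1,0),(0,0),(5,0),(2,0)]⟩,⟨0,[(9,0)]⟩⟩,⟨true,0,⟨0,[(16,0)]⟩,⟨0,
  [(17,0)]⟩⟩,⟨false,1,⟨1,[(1,0),(2,0),(6,0),(4,1)]⟩,⟨0,[(0,0),(8,0)]⟩⟩,⟨false,0,⟨0,[]⟩,⟨3,[(7,0),(0,
  0),(10,1)]⟩⟩,⟨true,0,⟨0,[(1,0),(3,0),(5,0),(4,0)]⟩,⟨0,[(0,0),(8,0),(6,0)]⟩⟩,[]⟩))) (.Q [0,0,2,0,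
  -1,0,0,1,-1] (.p false [0,0,1] [1] (⟨0,[(8,0)]⟩,⟨0,[(7,0)]⟩) .k 1 (⟨0,[]⟩,⟨0,[]⟩) .k .k) (.K ⟨0,
  [1,0,-1],1,1,(⟨0,[(8,0)]⟩,⟨0,[(9,0)]⟩),.k,(.x (-1) ⟨3,[(6,0),(0,0),(2,1),(0,3)]⟩ ⟨0,[(12,0)]⟩),
  (.r 0 ⟨1,[(4,1),(1,0),(3,0),(3,1)]⟩ ⟨0,[(1,0),(7,0),(5,0),(1,0)]⟩),.k,.k,[⟨0,[(0,0)]⟩,⟨3,[(6,0),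
  (0,0),(1,3),(0,1)]⟩,⟨0,[(1,0),(2,0),(10,0)]⟩,⟨0,[(3,0),(0,0),(5,0),(4,0)]⟩]⟩) (.I [1,0,1,0,0,0,
  -1] (.I [1,0,-1,0,1,0,-2] (.Q [0,0,1,0,0,0,0,0,-1] (.p false [0,0,1] [] (⟨0,[(11,0)]⟩,⟨0,[(10,
  0)]⟩) .k 0 (⟨0,[]⟩,⟨0,[]⟩) .k .k) (.R ⟨2,true,false,false,[0,1],[0,0,1],[1,0,1],(⟨0,[]⟩,⟨0,[]⟩),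
  (⟨0,[(12,0)]⟩,⟨0,[(11,0)]⟩),⟨0,[]⟩,.k,.k,.k,(.r 0 ⟨2,[(2,0),(2,0),(1,0),(0,0),(0,0)]⟩ ⟨0,[(4,0),
  (7,0),(5,0),(1,0)]⟩),.k,.k,⟨true,0,⟨0,[(2,0)]⟩,⟨1,[(3,0),(0,1),(2,0),(4,0),(5,0)]⟩⟩,⟨false,0,⟨0,
  [(0,0)]⟩,⟨0,[(12,0),(7,0)]⟩⟩,⟨false,1,⟨0,[(18,0),(2,0)]⟩,⟨0,[(19,0)]⟩⟩,⟨true,0,⟨0,[(4,0),(13,0)]⟩,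
  ⟨0,[(2,0),(0,0),(3,0)]⟩⟩,⟨true,0,⟨0,[]⟩,⟨0,[(23,0)]⟩⟩,⟨false,0,⟨0,[(4,0)]⟩,⟨11,[(6,7),(2,2),(0,0),
  (1,3),(3,3)]⟩⟩,[]⟩) (.R ⟨2,true,false,false,[0,1],[1,0,-1],[0,1,1,1],(⟨0,[]⟩,⟨0,[]⟩),(⟨0,[(11,
  0)]⟩,⟨0,[(12,0)]⟩),⟨0,[]⟩,.k,.k,.k,(.x 0 ⟨0,[(15,0)]⟩ ⟨3,[(9,0),(0,0),(2,1),(0,3)]⟩),.k,.k,⟨true,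
  (-1),⟨1,[(0,1),(3,1),(2,2),(0,0),(4,0),(4,0)]⟩,⟨0,[(0,0),(0,0),(2,0),(12,0),(0,0)]⟩⟩,⟨false,1,⟨7,
  [(3,5),(4,1),(0,0),(0,0),(1,1)]⟩,⟨0,[(11,0)]⟩⟩,⟨true,0,⟨0,[(23,0)]⟩,⟨0,[]⟩⟩,⟨false,2,⟨1,[(6,1),(6,
  0),(4,1),(2,0)]⟩,⟨0,[(4,0),(2,0)]⟩⟩,⟨false,0,⟨0,[(19,0)]⟩,⟨0,[(18,0),(2,0)]⟩⟩,⟨true,1,⟨1,[(0,0),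
  (0,0),(1,0),(4,0)]⟩,⟨0,[(4,0),(2,0),(10,0)]⟩⟩,[]⟩)) (.Q [0,-1,-1,0,1,0,-1,-1,2] (.p true [0,0,1]
  [1,0,-1] (⟨0,[(11,0)]⟩,⟨0,[(10,0)]⟩) .k 2 (⟨0,[(10,0)]⟩,⟨0,[(11,0)]⟩) .k (.r 0 ⟨2,[(0,1),(8,0),(9,
  0)]⟩ ⟨0,[(8,0)]⟩)) (.Q [0,0,1,0,0,0,0,-1] (.pp true [-1,1]) (.R ⟨2,true,false,false,[0,1],[0,0,1],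
  [1,0,1],(⟨0,[]⟩,⟨0,[]⟩),(⟨0,[(13,0)]⟩,⟨0,[(12,0)]⟩),⟨0,[]⟩,.k,.k,.k,(.r 0 ⟨2,[(3,0),(2,0),(1,0),
  (0,0),(0,0)]⟩ ⟨5,[(2,1),(8,0),(7,5),(1,3),(0,2)]⟩),.k,.k,⟨true,0,⟨0,[(3,0)]⟩,⟨5,[(2,1),(8,0),(9,
  0)]⟩⟩,⟨false,0,⟨0,[(0,0),(11,0)]⟩,⟨0,[(13,0),(7,0)]⟩⟩,⟨false,1,⟨0,[(19,0),(2,0)]⟩,⟨0,[(20,0)]⟩⟩,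
  ⟨true,0,⟨0,[(5,0),(13,0)]⟩,⟨0,[(3,0),(0,0),(3,0)]⟩⟩,⟨true,0,⟨0,[]⟩,⟨0,[(24,0)]⟩⟩,⟨false,0,⟨0,[(5,
  0)]⟩,⟨11,[(7,7),(2,2),(0,0),(1,3),(3,3)]⟩⟩,[]⟩) (.R ⟨2,false,false,true,[0,1],[1,0,-1],[0,1],(⟨0,
  []⟩,⟨0,[]⟩),(⟨0,[(12,0)]⟩,⟨0,[(13,0)]⟩),⟨0,[]⟩,.k,.k,.k,(.x 0 ⟨0,[(16,0)]⟩ ⟨3,[(10,0),(0,0),(2,1),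
  (0,3)]⟩),.k,.k,⟨true,0,⟨5,[(2,1),(8,0),(9,0)]⟩,⟨0,[(3,0)]⟩⟩,⟨false,1,⟨4,[(1,1),(2,0),(6,0),(2,0),
  (2,0)]⟩,⟨0,[(12,0)]⟩⟩,⟨false,1,⟨1,[(19,1),(1,0),(0,0)]⟩,⟨1,[(6,0),(11,0),(4,0)]⟩⟩,⟨true,1,⟨0,[(3,
  0),(0,0),(14,0)]⟩,⟨0,[(5,0),(2,0)]⟩⟩,⟨false,1,⟨3,[(10,0),(0,0),(9,1)]⟩,⟨0,[(18,0)]⟩⟩,⟨false,1,⟨0,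
  [(3,0),(0,0)]⟩,⟨5,[(2,1),(8,0),(0,5),(5,3),(3,0)]⟩⟩,[.o ⟨false,1,⟨31,[(1,15),(7,3),(0,8),(0,0),(2,
  5),(2,23)]⟩,⟨0,[(5,0)]⟩⟩,.o ⟨false,1,⟨0,[(3,0),(0,0)]⟩,⟨13,[(2,0),(2,9),(3,3),(1,0),(0,3),(4,
  4)]⟩⟩,.a ⟨true,0,⟨0,[(0,0)]⟩,⟨0,[(23,0)]⟩⟩ ⟨true,0,⟨0,[(24,0)]⟩,⟨0,[]⟩⟩ ⟨false,1,⟨31,[(1,15),(7,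
  11),(0,10),(0,2),(2,1),(2,7)]⟩,⟨0,[(0,0),(4,0)]⟩⟩,.e ⟨false,1,⟨3,[(10,0),(0,0),(9,1)]⟩,⟨0,[(18,
  0)]⟩⟩ ⟨false,1,⟨0,[(3,0),(0,0)]⟩,⟨5,[(2,1),(8,0),(0,5),(5,3),(3,0)]⟩⟩]⟩)) (.R ⟨2,true,false,false,
  [0,1],[0,0,1],[1,0,1],(⟨0,[]⟩,⟨0,[]⟩),(⟨0,[(12,0)]⟩,⟨0,[(11,0)]⟩),⟨0,[]⟩,.k,.k,.k,(.r 0 ⟨2,[(2,0),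
  (2,0),(1,0),(0,0),(0,0)]⟩ ⟨5,[(1,1),(8,0),(7,5),(1,3),(0,2)]⟩),.k,.k,⟨true,0,⟨0,[(2,0)]⟩,⟨5,[(1,
  1),(8,0),(9,0)]⟩⟩,⟨false,0,⟨5,[(0,1),(1,1),(1,1),(4,0),(3,0)]⟩,⟨0,[(12,0),(7,0)]⟩⟩,⟨false,1,⟨0,
  [(18,0),(2,0)]⟩,⟨0,[(19,0)]⟩⟩,⟨true,0,⟨0,[(4,0),(13,0)]⟩,⟨0,[(2,0),(0,0),(3,0)]⟩⟩,⟨true,0,⟨0,[]⟩,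
  ⟨0,[(23,0)]⟩⟩,⟨false,0,⟨0,[(4,0)]⟩,⟨11,[(6,7),(2,2),(0,0),(1,3),(3,3)]⟩⟩,[]⟩))) (.Q [0,0,-1,0,0,0,
  0,0,1] (.p true [0,0,1] [] (⟨0,[(10,0)]⟩,⟨0,[(9,0)]⟩) .k 0 (⟨0,[]⟩,⟨0,[]⟩) .k .k) (.R ⟨2,true,
  false,false,[0,1],[0,0,1],[1,0,1],(⟨0,[]⟩,⟨0,[]⟩),(⟨0,[(11,0)]⟩,⟨0,[(10,0)]⟩),⟨0,[]⟩,.k,.k,.k,(.r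
  0 ⟨1,[(6,1),(1,0),(3,0),(3,1)]⟩ ⟨3,[(1,1),(7,0),(7,3),(1,0),(0,1)]⟩),.k,.k,⟨false,1,⟨3,[(8,2),(0,
  0)]⟩,⟨0,[(1,0)]⟩⟩,⟨true,0,⟨0,[(7,0),(2,0)]⟩,⟨0,[(0,0)]⟩⟩,⟨false,1,⟨0,[(17,0),(2,0)]⟩,⟨0,[(18,
  0)]⟩⟩,⟨true,0,⟨0,[(3,0),(13,0)]⟩,⟨1,[(0,1),(5,1),(1,0),(3,0)]⟩⟩,⟨true,0,⟨0,[]⟩,⟨0,[(22,0)]⟩⟩,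
  ⟨false,0,⟨0,[(3,0)]⟩,⟨11,[(5,7),(2,2),(0,0),(1,3),(3,3)]⟩⟩,[]⟩) (.Q [0,0,0,0,0,-1,0,1,-1] (.ed
  true [0,1,1] .k) (.R ⟨1,false,false,true,[1,0,-1],[1,-1],[0,1,0,0,0,0,-1],(⟨0,[(11,0)]⟩,⟨0,[(12,
  0)]⟩),(⟨0,[(14,0)]⟩,⟨0,[(15,0)]⟩),⟨0,[(0,0)]⟩,.k,.k,(.x (-1) ⟨3,[(9,0),(0,0),(2,1),(0,3)]⟩ ⟨0,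
  [(15,0)]⟩),(.r 0 ⟨1,[(7,1),(1,0),(3,0),(3,1)]⟩ ⟨3,[(2,1),(7,0),(7,3),(1,0),(0,1)]⟩),.k,.k,⟨true,0,
  ⟨1,[(7,1),(1,0),(3,0),(3,1)]⟩,⟨0,[(2,0),(14,0),(0,0)]⟩⟩,⟨false,0,⟨0,[(1,0)]⟩,⟨0,[(12,0),(7,0)]⟩⟩,
  ⟨true,0,⟨0,[(23,0)]⟩,⟨0,[]⟩⟩,⟨false,0,⟨0,[(4,0),(13,0)]⟩,⟨23,[(5,11),(0,19),(2,2),(0,0),(1,3),(3,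
  3)]⟩⟩,⟨false,0,⟨0,[(19,0)]⟩,⟨0,[(18,0),(2,0)]⟩⟩,⟨false,0,⟨7,[(1,1),(2,5),(2,0),(0,0),(1,0),(5,1),
  (1,0)]⟩,⟨0,[(6,0)]⟩⟩,[.a ⟨true,0,⟨0,[(18,0)]⟩,⟨0,[(7,0),(13,0)]⟩⟩ ⟨false,1,⟨7,[(9,4),(0,0),(5,3),
  (3,1)]⟩,⟨0,[(2,0),(14,0)]⟩⟩ ⟨true,0,⟨0,[(1,0),(16,0)]⟩,⟨0,[(3,0),(3,0),(9,1)]⟩⟩,.o ⟨false,1,⟨1,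
  [(13,0),(4,1),(2,0)]⟩,⟨0,[(19,0)]⟩⟩,.o ⟨false,1,⟨7,[(3,5),(4,1),(0,0),(0,0),(1,1)]⟩,⟨0,[(1,0)]⟩⟩,
  .e ⟨false,1,⟨1,[(9,0),(10,0)]⟩,⟨0,[(4,0),(7,0)]⟩⟩ ⟨false,1,⟨1,[(11,1),(1,0),(4,1),(2,0)]⟩,⟨0,[(3,
  0),(3,0),(9,1)]⟩⟩]⟩) (.R ⟨0,false,false,true,[1,0,-1],[1,-1],[0,1,0,0,0,0,-1],(⟨0,[(11,0)]⟩,⟨0,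
  [(12,0)]⟩),(⟨0,[(14,0)]⟩,⟨0,[(15,0)]⟩),⟨0,[(0,0)]⟩,.k,.k,(.x (-1) ⟨3,[(9,0),(0,0),(2,1),(0,3)]⟩
  ⟨0,[(15,0)]⟩),(.r 0 ⟨1,[(7,1),(1,0),(3,0),(3,1)]⟩ ⟨3,[(2,1),(7,0),(7,3),(1,0),(0,1)]⟩),.k,.k,
  ⟨true,0,⟨1,[(7,1),(1,0),(3,0),(3,1)]⟩,⟨0,[(2,0),(14,0),(0,0)]⟩⟩,⟨false,0,⟨0,[(1,0)]⟩,⟨0,[(12,0),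
  (7,0)]⟩⟩,⟨true,0,⟨0,[(23,0)]⟩,⟨0,[]⟩⟩,⟨false,0,⟨0,[(4,0),(13,0)]⟩,⟨23,[(5,11),(0,19),(2,2),(0,0),
  (1,3),(3,3)]⟩⟩,⟨false,0,⟨0,[]⟩,⟨0,[]⟩⟩,⟨false,0,⟨0,[]⟩,⟨0,[]⟩⟩,[.a ⟨true,0,⟨0,[(18,0)]⟩,⟨0,[(7,0),
  (13,0)]⟩⟩ ⟨false,1,⟨7,[(9,4),(0,0),(5,3),(3,1)]⟩,⟨0,[(2,0),(14,0)]⟩⟩ ⟨true,0,⟨0,[(1,0),(16,0)]⟩,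
  ⟨0,[(3,0),(3,0),(9,1)]⟩⟩,.o ⟨false,1,⟨1,[(13,0),(4,1),(2,0)]⟩,⟨0,[(19,0)]⟩⟩,.o ⟨false,1,⟨7,[(3,5),
  (4,1),(0,0),(0,0),(1,1)]⟩,⟨0,[(1,0)]⟩⟩,.e ⟨false,1,⟨1,[(9,0),(10,0)]⟩,⟨0,[(4,0),(7,0)]⟩⟩ ⟨false,1,
  ⟨1,[(11,1),(1,0),(4,1),(2,0)]⟩,⟨0,[(3,0),(3,0),(9,1)]⟩⟩]⟩))))))

def t2 : Tre :=
  (.Q [0,1,-1,0,0,0,-1,0,1] (.p true [0,0,1] [] (⟨0,[(8,0)]⟩,⟨0,[(7,0)]⟩) .k 0 (⟨0,[]⟩,⟨0,[]⟩) .k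
  .k) (.Q [0,1,1,0,0,0,1,0,-1] (.p false [0,0,1] [] (⟨0,[(9,0)]⟩,⟨0,[(8,0)]⟩) .k 0 (⟨0,[]⟩,⟨0,[]⟩)
  .k .k) (.K ⟨0,[0,0,1],0,0,(⟨0,[(10,0)]⟩,⟨0,[(9,0)]⟩),.k,(.x 0 ⟨0,[(6,0),(5,0)]⟩ ⟨0,[(13,0),(4,
  0)]⟩),(.x 0 ⟨0,[(13,0)]⟩ ⟨3,[(7,0),(0,0),(2,1),(0,3)]⟩),.k,.k,[⟨0,[(10,0)]⟩,⟨0,[(6,0),(2,0)]⟩,⟨0,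
  [(1,0)]⟩,⟨0,[(0,0)]⟩]⟩) (.Q [0,0,-2,0,1,0,0,-1,1] (.p true [0,0,1] [1] (⟨0,[(10,0)]⟩,⟨0,[(9,0)]⟩)
  .k 1 (⟨0,[]⟩,⟨0,[]⟩) .k .k) (.Q [0,0,-1,0,0,0,0,0,1] (.p true [0,0,1] [] (⟨0,[(11,0)]⟩,⟨0,[(10,
  0)]⟩) .k 0 (⟨0,[]⟩,⟨0,[]⟩) .k .k) (.Q [0,0,0,0,0,1,0,-1,1] (.ed false [0,1,1] .k) (.R ⟨0,false,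
  false,false,[1,0,-1],[0,1],[1,0,0,-1,0,0,-1],(⟨0,[(12,0)]⟩,⟨0,[(13,0)]⟩),(⟨0,[(16,0)]⟩,⟨0,[(15,
  0)]⟩),⟨0,[(0,0)]⟩,.k,.k,(.x (-1) ⟨3,[(10,0),(0,0),(2,1),(0,3)]⟩ ⟨0,[(16,0)]⟩),(.x (-1) ⟨3,[(10,0),
  (0,0),(2,1),(0,3)]⟩ ⟨0,[(16,0)]⟩),.k,.k,⟨false,1,⟨1,[(3,1),(2,1),(5,1),(1,0),(6,0)]⟩,⟨1,[(8,1),(2,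
  0),(2,0),(3,1),(1,1)]⟩⟩,⟨true,0,⟨0,[(12,0)]⟩,⟨0,[(1,0),(7,0)]⟩⟩,⟨false,1,⟨7,[(6,3),(3,0),(0,0),
  (10,5)]⟩,⟨0,[(20,0)]⟩⟩,⟨true,0,⟨1,[(8,1),(2,0),(0,1),(1,0),(3,1)]⟩,⟨0,[(3,0),(2,0),(1,0),(5,0)]⟩⟩,
  ⟨false,0,⟨0,[]⟩,⟨0,[]⟩⟩,⟨false,0,⟨0,[]⟩,⟨0,[]⟩⟩,[.o ⟨false,0,⟨0,[(20,0)]⟩,⟨7,[(6,3),(3,0),(0,0),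
  (2,3),(7,1)]⟩⟩,.a ⟨true,0,⟨0,[(8,0),(13,0)]⟩,⟨0,[(19,0)]⟩⟩ ⟨false,1,⟨7,[(3,5),(2,3),(3,0),(1,5),
  (1,2),(6,0),(0,2)]⟩,⟨1,[(8,1),(2,0),(2,0)]⟩⟩ ⟨true,0,⟨0,[(12,0),(5,0),(1,0)]⟩,⟨0,[(1,0),(4,0),(1,
  0),(5,0),(3,0)]⟩⟩,.a ⟨true,0,⟨0,[(1,0)]⟩,⟨0,[(12,0),(10,0)]⟩⟩ ⟨true,0,⟨0,[(3,0),(2,0),(1,0),(3,0),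
  (1,0),(3,0)]⟩,⟨1,[(8,1),(2,0),(2,0)]⟩⟩ ⟨false,0,⟨0,[(12,0),(5,0),(1,0)]⟩,⟨3,[(2,2),(3,1),(2,0),(3,
  0),(8,0)]⟩⟩,.a ⟨true,0,⟨0,[(13,0)]⟩,⟨0,[(12,0)]⟩⟩ ⟨false,1,⟨7,[(3,5),(2,3),(3,0),(1,5),(1,2),(6,
  0),(0,2)]⟩,⟨1,[(8,1),(2,0),(2,0),(3,1)]⟩⟩ ⟨true,0,⟨0,[(12,0),(7,0)]⟩,⟨0,[(1,0),(4,0),(1,0),(5,0),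
  (3,0)]⟩⟩]⟩) (.R ⟨1,false,false,true,[1,0,-1],[1,-1],[1,1,0,-1,0,0,-1],(⟨0,[(12,0)]⟩,⟨0,[(13,0)]⟩),
  (⟨0,[(15,0)]⟩,⟨0,[(16,0)]⟩),⟨0,[(0,0)]⟩,.k,.k,(.x (-1) ⟨3,[(10,0),(0,0),(2,1),(0,3)]⟩ ⟨0,[(16,
  0)]⟩),(.x (-1) ⟨0,[(16,0),(4,0)]⟩ ⟨0,[(9,0),(5,0)]⟩),.k,.k,⟨false,0,⟨13,[(3,11),(2,3),(1,7),(0,5),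
  (0,0),(1,11),(1,6)]⟩,⟨1,[(11,0),(9,0)]⟩⟩,⟨true,0,⟨0,[(9,0),(2,0)]⟩,⟨0,[(1,0)]⟩⟩,⟨true,0,⟨0,[(19,
  0)]⟩,⟨0,[(20,0)]⟩⟩,⟨false,1,⟨3,[(6,1),(2,1),(1,1),(0,3),(1,0),(7,0)]⟩,⟨0,[(3,0),(16,0)]⟩⟩,⟨false,
  0,⟨0,[]⟩,⟨3,[(10,0),(0,0),(10,1)]⟩⟩,⟨false,1,⟨7,[(9,3),(0,0),(0,4),(0,7),(1,1)]⟩,⟨0,[(3,0)]⟩⟩,[.a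
  ⟨true,0,⟨0,[(19,0)]⟩,⟨0,[(8,0),(13,0)]⟩⟩ ⟨false,0,⟨0,[(3,0),(2,0),(1,0),(3,0),(1,0)]⟩,⟨1,[(11,0),
  (8,1),(1,0)]⟩⟩ ⟨true,0,⟨0,[(6,0),(1,0),(3,0),(1,0),(3,0)]⟩,⟨0,[(1,0),(16,0),(1,0)]⟩⟩,.o ⟨false,1,
  ⟨7,[(6,3),(3,0),(0,0),(2,3),(7,1)]⟩,⟨0,[(20,0)]⟩⟩,.a ⟨true,0,⟨0,[(1,0)]⟩,⟨0,[(12,0),(10,0)]⟩⟩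
  ⟨false,0,⟨0,[(3,0),(2,0),(1,0),(3,0),(1,0),(3,0)]⟩,⟨1,[(11,0),(8,1),(1,0)]⟩⟩ ⟨true,0,⟨0,[(6,0),(1,
  0),(3,0),(1,0),(3,0)]⟩,⟨0,[(1,0),(18,0)]⟩⟩,.a ⟨true,0,⟨0,[(13,0)]⟩,⟨0,[(12,0)]⟩⟩ ⟨true,0,⟨0,[(3,
  0),(2,0),(1,0),(3,0),(1,0)]⟩,⟨1,[(8,1),(2,0),(2,0),(3,1)]⟩⟩ ⟨false,1,⟨7,[(6,3),(3,0),(0,0),(0,7),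
  (1,3),(7,1)]⟩,⟨0,[(1,0),(16,0),(1,0)]⟩⟩]⟩)) (.Q [0,-1,1,-1,1,0,1,0,-1] (.p false [0,0,1] [] (⟨0,
  [(12,0)]⟩,⟨0,[(11,0)]⟩) .k 0 (⟨0,[]⟩,⟨0,[]⟩) .k .k) (.Q [0,0,0,0,0,-1,0,0,1] (.ed false [1,-1,1]
  .k) (.S ⟨1,0,[0,1,0,0,0,0,1],[0,0,1],[0,0,0,0,0,0,1],(⟨0,[(14,0)]⟩,⟨0,[(13,0)]⟩),⟨0,[(0,0)]⟩,.k,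
  (.x 0 ⟨0,[(10,0),(5,0)]⟩ ⟨0,[(17,0),(4,0)]⟩),⟨false,1,⟨3,[(11,0),(0,0),(10,1)]⟩,⟨0,[]⟩⟩,⟨true,0,
  ⟨0,[(25,0)]⟩,⟨0,[]⟩⟩,⟨true,0,⟨0,[(21,0)]⟩,⟨0,[(20,0)]⟩⟩,⟨false,0,⟨0,[(21,0)]⟩,⟨2,[(1,0),(5,0),(0,
  0),(14,0)]⟩⟩,[.e ⟨false,1,⟨1,[(12,0),(9,0)]⟩,⟨1,[(2,1),(1,0),(0,0)]⟩⟩ ⟨false,1,⟨7,[(11,0),(0,4),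
  (5,3),(3,1)]⟩,⟨0,[(2,0),(1,0)]⟩⟩,.a ⟨true,0,⟨0,[(1,0),(7,0)]⟩,⟨1,[(4,0),(0,0)]⟩⟩ ⟨true,1,⟨1,[(12,
  0),(10,0)]⟩,⟨0,[(2,0),(1,0),(2,0),(1,1),(5,0),(3,0)]⟩⟩ ⟨false,1,⟨1,[(12,0),(9,0)]⟩,⟨1,[(2,1),(1,
  0),(0,0)]⟩⟩,.o ⟨false,0,⟨0,[(2,0)]⟩,⟨5,[(3,3),(1,0),(2,0),(1,1),(1,0)]⟩⟩,.o ⟨false,0,⟨0,[(10,0),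
  (2,0)]⟩,⟨0,[(3,0)]⟩⟩]⟩) (.R ⟨0,false,false,false,[0,0,1],[0,1],[0,1,1],(⟨0,[(14,0)]⟩,⟨0,[(13,
  0)]⟩),(⟨0,[(17,0)]⟩,⟨0,[(16,0)]⟩),⟨0,[(0,0)]⟩,.k,.k,(.x 0 ⟨0,[(10,0),(5,0)]⟩ ⟨0,[(17,0),(4,0)]⟩),
  (.x 0 ⟨0,[(10,0),(5,0)]⟩ ⟨0,[(17,0),(4,0)]⟩),.k,.k,⟨true,0,⟨0,[(20,0)]⟩,⟨0,[(19,0),(1,0)]⟩⟩,
  ⟨false,1,⟨0,[(3,0),(2,0)]⟩,⟨0,[(10,0),(2,0)]⟩⟩,⟨true,(-1),⟨0,[(2,0),(1,0),(2,0),(1,1),(5,0),(3,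
  0)]⟩,⟨1,[(12,0),(9,0)]⟩⟩,⟨false,0,⟨0,[(4,0),(16,0)]⟩,⟨0,[(1,0),(23,0)]⟩⟩,⟨false,0,⟨0,[]⟩,⟨0,[]⟩⟩,
  ⟨false,0,⟨0,[]⟩,⟨0,[]⟩⟩,[.o ⟨false,0,⟨0,[(21,0)]⟩,⟨19,[(1,3),(5,7),(0,3),(2,0),(0,0),(2,9)]⟩⟩,.a
  ⟨true,0,⟨0,[(9,0),(13,0)]⟩,⟨0,[(20,0)]⟩⟩ ⟨true,0,⟨0,[(24,0)]⟩,⟨0,[]⟩⟩ ⟨false,1,⟨0,[(3,0),(5,0),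
  (13,0)]⟩,⟨0,[(2,0),(17,0)]⟩⟩,.o ⟨false,0,⟨0,[(2,0)]⟩,⟨5,[(3,3),(1,0),(2,0),(1,1),(1,0)]⟩⟩,.o
  ⟨false,0,⟨0,[(10,0),(2,0)]⟩,⟨0,[(3,0)]⟩⟩]⟩)) (.R ⟨2,true,false,false,[0,1],[0,0,1],[0,0,1,1],(⟨0,
  []⟩,⟨0,[]⟩),(⟨0,[(13,0)]⟩,⟨0,[(12,0)]⟩),⟨0,[]⟩,.k,.k,.k,(.r 1 ⟨0,[(0,0),(0,0),(16,0)]⟩ ⟨7,[(6,3),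
  (3,2),(0,6),(9,3),(0,1)]⟩),.k,.k,⟨true,(-1),⟨0,[(0,0),(0,0),(16,0)]⟩,⟨7,[(6,3),(3,0),(0,4),(10,
  1)]⟩⟩,⟨false,0,⟨0,[(1,0)]⟩,⟨3,[(2,1),(1,0),(0,1),(1,0),(3,0)]⟩⟩,⟨false,1,⟨3,[(10,0),(0,0),(10,
  1)]⟩,⟨0,[]⟩⟩,⟨true,1,⟨7,[(1,7),(4,3),(3,0),(0,4),(10,1)]⟩,⟨0,[(0,0)]⟩⟩,⟨true,0,⟨0,[(20,0)]⟩,⟨0,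
  [(19,0)]⟩⟩,⟨false,1,⟨1,[(1,1),(9,0),(10,0)]⟩,⟨1,[(3,0),(0,0)]⟩⟩,[]⟩))) (.K ⟨0,[1,0,-1],1,0,(⟨0,
  [(10,0)]⟩,⟨0,[(11,0)]⟩),.k,(.x (-1) ⟨3,[(8,0),(0,0),(2,1),(0,3)]⟩ ⟨0,[(14,0)]⟩),(.r 1 ⟨0,[(0,0),
  (0,0),(4,0),(5,0)]⟩ ⟨7,[(4,3),(3,2),(0,6),(9,3),(0,1)]⟩),.k,.k,[⟨0,[(0,0)]⟩,⟨2,[(2,0),(2,0),(1,0),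
  (1,0),(1,0),(0,0)]⟩,⟨7,[(0,5),(7,0),(0,4),(0,1),(4,3)]⟩,⟨3,[(1,2),(0,0),(1,1),(1,3),(5,3)]⟩]⟩)))
  (.Q [0,0,2,0,-1,0,0,1,-1] (.p false [0,0,1] [1] (⟨0,[(9,0)]⟩,⟨0,[(8,0)]⟩) .k 1 (⟨0,[]⟩,⟨0,[]⟩) .k
  .k) (.K ⟨0,[1,0,-1],1,1,(⟨0,[(9,0)]⟩,⟨0,[(10,0)]⟩),.k,(.x (-1) ⟨3,[(7,0),(0,0),(2,1),(0,3)]⟩ ⟨0,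
  [(13,0)]⟩),(.r 0 ⟨1,[(5,1),(1,0),(3,0),(3,1)]⟩ ⟨3,[(1,1),(1,1),(4,0),(1,1),(7,2)]⟩),.k,.k,[⟨0,[(0,
  0)]⟩,⟨3,[(7,0),(0,0),(1,3),(0,1)]⟩,⟨16,[(0,1),(0,14),(1,7),(1,15),(0,0),(1,0),(5,3)]⟩,⟨5,[(3,1),
  (0,3),(0,3),(1,0),(2,1),(0,4),(2,1)]⟩]⟩) (.I [1,0,1,0,0,0,-1] (.R ⟨2,false,false,true,[0,1],[1,0,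
  -1],[0,1],(⟨0,[]⟩,⟨0,[]⟩),(⟨0,[(10,0)]⟩,⟨0,[(11,0)]⟩),⟨0,[]⟩,.k,.k,.k,(.x 0 ⟨0,[(14,0)]⟩ ⟨3,[(8,
  0),(0,0),(2,1),(0,3)]⟩),.k,.k,⟨true,0,⟨13,[(1,5),(0,11),(1,3),(1,7),(2,0),(1,5),(0,0)]⟩,⟨0,[(0,
  0)]⟩⟩,⟨false,1,⟨7,[(1,3),(6,0),(0,0),(1,3),(0,1)]⟩,⟨0,[(10,0)]⟩⟩,⟨false,1,⟨7,[(4,3),(3,0),(0,0),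
  (9,3),(0,1)]⟩,⟨0,[(16,0),(1,0)]⟩⟩,⟨true,1,⟨7,[(0,5),(0,5),(2,3),(3,0),(2,1),(0,0),(2,1)]⟩,⟨0,[(2,
  0),(3,0)]⟩⟩,⟨false,1,⟨3,[(8,0),(0,0),(9,1)]⟩,⟨0,[(16,0)]⟩⟩,⟨false,1,⟨0,[(0,0),(0,0)]⟩,⟨8,[(2,4),
  (0,2),(0,0),(1,1),(2,1),(0,3),(5,6)]⟩⟩,[.o ⟨false,1,⟨3,[(0,1),(0,1),(6,0),(2,1),(0,0),(2,1)]⟩,⟨0,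
  [(2,0)]⟩⟩,.o ⟨false,1,⟨0,[(0,0),(0,0)]⟩,⟨11,[(2,9),(3,0),(0,2),(1,0),(0,1),(4,3),(1,0)]⟩⟩,.a
  ⟨true,0,⟨0,[(3,0)]⟩,⟨0,[(21,0)]⟩⟩ ⟨true,0,⟨0,[(22,0)]⟩,⟨0,[]⟩⟩ ⟨false,1,⟨1,[(8,0),(2,1),(0,0)]⟩,
  ⟨0,[(2,0),(0,0)]⟩⟩,.e ⟨false,1,⟨3,[(8,0),(0,0),(9,1)]⟩,⟨0,[(16,0)]⟩⟩ ⟨false,1,⟨0,[(0,0),(0,0)]⟩,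
  ⟨8,[(2,4),(0,2),(0,0),(1,1),(2,1),(0,3),(5,6)]⟩⟩]⟩) (.Q [0,0,1,0,-1,0,1,1,-1] (.p false [0,0,1]
  [1] (⟨0,[(11,0)]⟩,⟨0,[(10,0)]⟩) .k 1 (⟨0,[]⟩,⟨0,[]⟩) .k .k) (.Q [0,0,0,0,0,2,0,-1] (.pp true [-1,
  1]) (.I [1,-1,-1,-1,1] (.I [0,0,-2,-1,1] (.R ⟨0,false,false,false,[1,-1],[0,1],[1,1,1],(⟨0,[(17,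
  0)]⟩,⟨0,[(18,0)]⟩),(⟨0,[(18,0)]⟩,⟨0,[(17,0)]⟩),⟨0,[(2,0)]⟩,.k,.k,(.r (-2) ⟨4,[(0,3),(0,1),(6,1),
  (3,1),(0,1)]⟩ ⟨0,[(10,1),(5,0),(3,1)]⟩),(.r (-2) ⟨4,[(0,3),(0,1),(6,1),(3,1),(0,1)]⟩ ⟨0,[(10,1),
  (5,0),(3,1)]⟩),.k,.k,⟨true,0,⟨0,[(21,0)]⟩,⟨0,[(20,0),(1,0)]⟩⟩,⟨false,1,⟨0,[(7,0),(15,0)]⟩,⟨0,[(11,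
  0)]⟩⟩,⟨true,(-1),⟨0,[(10,0),(0,0)]⟩,⟨0,[(0,0)]⟩⟩,⟨false,0,⟨0,[(10,0),(11,0),(1,0)]⟩,⟨2,[(1,1),(6,
  1),(2,0),(4,0)]⟩⟩,⟨false,0,⟨0,[]⟩,⟨0,[]⟩⟩,⟨false,0,⟨0,[]⟩,⟨0,[]⟩⟩,[.o ⟨false,0,⟨0,[(22,0)]⟩,⟨23,
  [(1,7),(6,7),(2,3),(0,2),(0,2),(2,9)]⟩⟩,.e ⟨false,0,⟨0,[]⟩,⟨3,[(12,0),(0,0),(9,1)]⟩⟩ ⟨false,1,⟨1,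
  [(7,1),(14,1),(0,0),(0,0)]⟩,⟨0,[(8,0),(1,0),(5,0),(3,0)]⟩⟩,.a ⟨true,0,⟨0,[(25,0)]⟩,⟨0,[(7,0)]⟩⟩
  ⟨false,0,⟨0,[(25,0)]⟩,⟨1,[(23,0),(0,0)]⟩⟩ ⟨true,0,⟨0,[(7,0),(14,0)]⟩,⟨0,[(8,0),(1,0),(5,0),(3,
  0)]⟩⟩,.o ⟨false,0,⟨0,[(11,0)]⟩,⟨0,[(23,0)]⟩⟩]⟩) (.R ⟨0,false,false,true,[1,0,-1],[0,1],[1,1,1],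
  (⟨0,[(14,0)]⟩,⟨0,[(15,0)]⟩),(⟨0,[(18,0)]⟩,⟨0,[(17,0)]⟩),⟨1,[(0,1),(1,0),(1,0),(0,0),(2,0),(0,0)]⟩,
  .k,.k,(.x (-1) ⟨3,[(12,0),(0,0),(2,1),(0,3)]⟩ ⟨0,[(18,0)]⟩),(.x (-1) ⟨3,[(12,0),(0,0),(2,1),(0,
  3)]⟩ ⟨0,[(18,0)]⟩),.k,.k,⟨false,1,⟨6,[(1,4),(6,0),(3,0),(0,0),(5,1)]⟩,⟨0,[(22,0)]⟩⟩,⟨true,0,⟨0,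
  [(14,0)]⟩,⟨2,[(0,1),(4,0),(2,0),(6,1),(0,0),(3,0)]⟩⟩,⟨true,(-1),⟨16,[(0,17),(3,14),(3,8),(4,0),(5,
  3)]⟩,⟨1,[(12,0),(10,0)]⟩⟩,⟨false,(-1),⟨0,[(6,0),(3,0)]⟩,⟨23,[(1,7),(6,7),(0,23),(1,3),(0,2),(0,2),
  (2,9)]⟩⟩,⟨false,0,⟨0,[]⟩,⟨0,[]⟩⟩,⟨false,0,⟨0,[]⟩,⟨0,[]⟩⟩,[.a ⟨true,(-1),⟨0,[(10,0)]⟩,⟨7,[(8,3),(3,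
  0),(0,0),(10,5)]⟩⟩ ⟨false,0,⟨0,[(26,0)]⟩,⟨1,[(23,0),(0,0)]⟩⟩ ⟨true,(-1),⟨1,[(3,1),(6,1),(1,0),(3,
  0)]⟩,⟨2,[(1,0),(3,0),(2,0),(6,1),(0,0),(3,2)]⟩⟩,.o ⟨false,0,⟨0,[(22,0)]⟩,⟨23,[(1,7),(6,7),(2,3),
  (0,2),(0,2),(2,9)]⟩⟩,.o ⟨false,1,⟨7,[(5,3),(6,0),(0,0),(1,3),(0,1)]⟩,⟨1,[(3,1),(8,0),(3,0)]⟩⟩,.e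
  ⟨false,0,⟨0,[]⟩,⟨3,[(12,0),(0,0),(10,1)]⟩⟩ ⟨false,0,⟨0,[(14,0),(7,0)]⟩,⟨2,[(1,0),(3,0),(2,0),(6,
  1),(0,0),(3,2)]⟩⟩]⟩)) (.R ⟨0,false,false,true,[1,0,-1],[0,1],[1,1,1],(⟨0,[(13,0)]⟩,⟨0,[(14,0)]⟩),
  (⟨0,[(17,0)]⟩,⟨0,[(16,0)]⟩),⟨1,[(0,1),(0,0),(1,0),(0,0),(2,0),(0,0),(10,1)]⟩,.k,.k,(.x (-1) ⟨3,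
  [(11,0),(0,0),(2,1),(0,3)]⟩ ⟨0,[(17,0)]⟩),(.x (-1) ⟨3,[(11,0),(0,0),(2,1),(0,3)]⟩ ⟨0,[(17,0)]⟩),
  .k,.k,⟨false,1,⟨7,[(7,3),(3,0),(0,0),(9,3),(0,1)]⟩,⟨0,[(21,0)]⟩⟩,⟨true,0,⟨0,[(13,0)]⟩,⟨2,[(0,1),
  (3,0),(2,0),(6,1),(0,0),(3,2)]⟩⟩,⟨true,(-1),⟨2,[(0,1),(1,0),(0,1),(3,0),(2,0),(3,0)]⟩,⟨1,[(11,0),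
  (10,0)]⟩⟩,⟨false,(-1),⟨0,[(5,0),(3,0)]⟩,⟨7,[(7,3),(0,7),(2,0),(0,0),(2,3),(7,1)]⟩⟩,⟨false,0,⟨0,
  []⟩,⟨0,[]⟩⟩,⟨false,0,⟨0,[]⟩,⟨0,[]⟩⟩,[.a ⟨true,(-1),⟨0,[(9,0)]⟩,⟨7,[(7,3),(3,0),(0,0),(10,5)]⟩⟩
  ⟨false,0,⟨0,[(25,0)]⟩,⟨1,[(22,0),(0,0)]⟩⟩ ⟨true,(-1),⟨0,[(0,0),(12,0)]⟩,⟨3,[(4,1),(2,1),(6,1),(0,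
  0),(3,3),(3,0)]⟩⟩,.o ⟨false,0,⟨0,[(21,0)]⟩,⟨7,[(7,3),(3,0),(0,0),(2,3),(7,1)]⟩⟩,.o ⟨false,1,⟨7,
  [(4,3),(6,0),(0,0),(1,3),(0,1)]⟩,⟨1,[(2,1),(8,0),(3,0)]⟩⟩,.e ⟨false,0,⟨0,[]⟩,⟨3,[(11,0),(0,0),(10,
  1)]⟩⟩ ⟨false,0,⟨0,[(13,0),(7,0)]⟩,⟨3,[(4,1),(2,1),(6,1),(0,0),(3,3),(3,0)]⟩⟩]⟩)) (.Q [0,1,0,0,-1,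
  0,1,1,-1] (.p false [0,0,1] [1] (⟨0,[(13,0)]⟩,⟨0,[(12,0)]⟩) .k 1 (⟨0,[]⟩,⟨0,[]⟩) .k .k) (.R ⟨1,
  false,false,true,[1,-1],[0,0,1],[1,1,-1,-2],(⟨0,[(16,0)]⟩,⟨0,[(17,0)]⟩),(⟨0,[(14,0)]⟩,⟨0,[(13,
  0)]⟩),⟨0,[(1,0)]⟩,.k,.k,(.r (-2) ⟨3,[(7,3),(3,0),(0,0),(9,3),(0,1)]⟩ ⟨0,[(9,1),(5,0),(3,1)]⟩),(.x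
  (-1) ⟨7,[(1,3),(9,2),(0,2),(2,1)]⟩ ⟨0,[(17,0)]⟩),(.r (-2) ⟨1,[(7,1),(3,0),(10,1),(0,0)]⟩ ⟨0,[(3,
  0),(5,0),(0,0),(8,0),(1,0)]⟩),.k,⟨false,2,⟨1,[(7,1),(3,0),(10,1),(0,0)]⟩,⟨0,[(3,0),(5,1),(5,0),(3,
  1)]⟩⟩,⟨true,0,⟨0,[(13,0)]⟩,⟨0,[(4,0),(2,0),(1,1),(5,0),(3,2)]⟩⟩,⟨true,0,⟨0,[(20,0)]⟩,⟨0,[(21,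
  0)]⟩⟩,⟨false,(-1),⟨0,[(5,0),(3,0)]⟩,⟨7,[(7,3),(0,7),(2,0),(0,0),(2,3),(7,1)]⟩⟩,⟨false,0,⟨0,[]⟩,⟨3,
  [(11,0),(0,0),(10,1)]⟩⟩,⟨false,(-1),⟨0,[(5,0),(3,0),(11,0)]⟩,⟨1,[(7,1),(0,1),(6,0),(7,0)]⟩⟩,[.a
  ⟨true,(-1),⟨9,[(0,3),(1,3),(6,2),(0,2),(1,0),(0,1),(6,2)]⟩,⟨0,[(8,0)]⟩⟩ ⟨false,1,⟨0,[(7,0),(14,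
  0)]⟩,⟨0,[(19,0),(1,1)]⟩⟩ ⟨true,(-1),⟨0,[(0,0)]⟩,⟨0,[(8,0),(1,0)]⟩⟩,.a ⟨true,(-1),⟨0,[(2,0)]⟩,⟨11,
  [(8,7),(2,2),(0,0),(1,3),(3,3)]⟩⟩ ⟨true,1,⟨1,[(7,1),(14,0),(0,0)]⟩,⟨0,[(9,1),(5,0),(3,1)]⟩⟩
  ⟨false,0,⟨0,[(3,0),(9,0)]⟩,⟨1,[(11,0),(2,1),(0,0)]⟩⟩,.a ⟨true,0,⟨0,[(24,0)]⟩,⟨0,[(6,0)]⟩⟩ ⟨false,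
  1,⟨1,[(7,1),(14,0),(0,0)]⟩,⟨0,[(19,0),(1,1)]⟩⟩ ⟨true,(-1),⟨0,[(0,0)]⟩,⟨1,[(11,0),(2,1),(0,0)]⟩⟩,
  .o ⟨false,0,⟨0,[(10,0)]⟩,⟨0,[(22,0)]⟩⟩]⟩) (.R ⟨1,false,false,true,[1,-1],[0,0,1],[1,1,-1,-2],(⟨0,
  [(16,0)]⟩,⟨0,[(17,0)]⟩),(⟨0,[(14,0)]⟩,⟨0,[(13,0)]⟩),⟨0,[(1,0)]⟩,.k,.k,(.r (-2) ⟨3,[(7,3),(3,0),(0,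
  0),(9,3),(0,1)]⟩ ⟨0,[(9,1),(5,0),(3,1)]⟩),(.x (-1) ⟨7,[(1,3),(9,2),(0,2),(2,1)]⟩ ⟨0,[(17,0)]⟩),
  (.r (-2) ⟨1,[(7,1),(3,0),(10,1),(0,0)]⟩ ⟨0,[(3,0),(5,0),(0,0),(8,0),(1,0)]⟩),.k,⟨false,2,⟨1,[(7,
  1),(3,0),(10,1),(0,0)]⟩,⟨0,[(3,0),(5,1),(5,0),(3,1)]⟩⟩,⟨true,0,⟨0,[(13,0)]⟩,⟨0,[(0,0),(2,0),(3,0),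
  (1,1),(5,0),(3,1)]⟩⟩,⟨true,0,⟨0,[(20,0)]⟩,⟨0,[(21,0)]⟩⟩,⟨false,(-1),⟨0,[(5,0),(3,0)]⟩,⟨7,[(7,3),
  (0,7),(2,0),(0,0),(2,3),(7,1)]⟩⟩,⟨false,0,⟨0,[]⟩,⟨3,[(11,0),(0,0),(10,1)]⟩⟩,⟨false,(-1),⟨0,[(5,0),
  (3,0),(11,0)]⟩,⟨1,[(7,1),(0,1),(6,0),(7,0)]⟩⟩,[.e ⟨false,1,⟨0,[(7,0),(14,0)]⟩,⟨0,[(19,0),(1,1)]⟩⟩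
  ⟨false,0,⟨7,[(2,0),(0,4),(8,0),(0,6),(4,3)]⟩,⟨0,[(0,0)]⟩⟩,.a ⟨true,(-1),⟨0,[(2,0)]⟩,⟨11,[(8,7),(2,
  2),(0,0),(1,3),(3,3)]⟩⟩ ⟨true,1,⟨1,[(7,1),(14,0),(0,0)]⟩,⟨0,[(9,1),(5,0),(3,1)]⟩⟩ ⟨false,0,⟨0,[(3,
  0),(9,0)]⟩,⟨19,[(0,15),(9,3),(0,2),(0,0),(1,3),(3,7)]⟩⟩,.e ⟨false,1,⟨1,[(7,1),(14,0),(0,0)]⟩,⟨0,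
  [(19,0),(1,1)]⟩⟩ ⟨false,0,⟨3,[(2,0),(0,0),(8,0),(0,2)]⟩,⟨0,[(0,0)]⟩⟩,.o ⟨false,0,⟨0,[(10,0)]⟩,⟨0,
  [(22,0)]⟩⟩]⟩))) (.R ⟨2,true,false,false,[0,1],[1,0,-1],[1,1,1],(⟨0,[]⟩,⟨0,[]⟩),(⟨0,[(11,0)]⟩,⟨0,
  [(12,0)]⟩),⟨0,[]⟩,.k,.k,.k,(.x 0 ⟨0,[(15,0)]⟩ ⟨3,[(9,0),(0,0),(2,1),(0,3)]⟩),.k,.k,⟨true,(-1),⟨0,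
  [(1,0),(3,0),(1,1),(5,0),(3,1)]⟩,⟨1,[(9,0),(11,0)]⟩⟩,⟨false,1,⟨5,[(0,1),(1,1),(7,0),(1,1),(0,0)]⟩,
  ⟨0,[(11,0)]⟩⟩,⟨true,0,⟨0,[(18,0)]⟩,⟨0,[(19,0)]⟩⟩,⟨false,2,⟨7,[(5,3),(0,7),(2,0),(0,0),(2,3),(7,
  1)]⟩,⟨0,[(3,0),(3,0)]⟩⟩,⟨false,0,⟨0,[]⟩,⟨3,[(9,0),(0,0),(10,1)]⟩⟩,⟨true,1,⟨0,[(0,0)]⟩,⟨0,[(3,0),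
  (3,0),(10,0)]⟩⟩,[]⟩)))))

def tree : Tre :=
  (.Q [0,1,1,0,-1,0,1,0,-1] (.p false [0,0,1] [] (⟨0,[(5,0)]⟩,⟨0,[(4,0)]⟩) .k 0 (⟨0,[]⟩,⟨0,[]⟩) .k
  .k) (.K ⟨0,[0,0,1],0,(-1),(⟨0,[(6,0)]⟩,⟨0,[(5,0)]⟩),.k,(.r (-1) ⟨0,[(0,0),(5,0),(5,0),(1,0),(0,
  0)]⟩ ⟨1,[(1,1),(1,0),(3,0),(3,1)]⟩),(.x 0 ⟨0,[(9,0)]⟩ ⟨3,[(3,0),(0,0),(2,1),(0,3)]⟩),.k,.k,[⟨0,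
  [(6,0)]⟩,⟨0,[(2,0),(2,0)]⟩,⟨7,[(3,4),(0,0),(1,7),(3,3),(3,1)]⟩,⟨0,[(0,0)]⟩]⟩) (.I [0,-1,0,2] t1
  (.Q [0,0,-1,0,0,0,0,1] (.pp false [-1,1]) t2 (.R ⟨2,false,false,true,[0,1],[1,-1],[],(⟨0,[]⟩,⟨0,
  []⟩),(⟨0,[(10,0)]⟩,⟨0,[(11,0)]⟩),⟨0,[]⟩,.k,.k,.k,(.r 1 ⟨0,[(0,0),(2,0),(9,0),(1,0)]⟩ ⟨3,[(1,3),(3,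
  0),(0,0),(9,3),(0,1)]⟩),.k,.k,⟨true,0,⟨0,[(13,0),(1,0)]⟩,⟨0,[(14,0)]⟩⟩,⟨false,0,⟨0,[(0,0)]⟩,⟨0,
  [(7,0),(0,0),(7,0)]⟩⟩,⟨true,1,⟨7,[(1,3),(3,0),(0,0),(9,3),(0,1)]⟩,⟨0,[(0,0),(2,0)]⟩⟩,⟨false,1,⟨1,
  [(1,1),(7,0),(7,0)]⟩,⟨0,[(3,0),(11,0),(1,0)]⟩⟩,⟨false,1,⟨1,[(16,0),(0,0)]⟩,⟨0,[(18,0)]⟩⟩,⟨false,1,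
  ⟨7,[(1,3),(3,0),(0,0),(2,3),(7,1)]⟩,⟨0,[(3,0),(13,0)]⟩⟩,[.a ⟨true,0,⟨0,[(14,0)]⟩,⟨0,[(3,0),(13,
  0)]⟩⟩ ⟨false,1,⟨3,[(5,0),(0,0),(9,1)]⟩,⟨0,[]⟩⟩ ⟨true,0,⟨3,[(0,2),(0,1),(2,0),(7,0)]⟩,⟨0,[(3,0),
  (13,0)]⟩⟩,.o ⟨false,1,⟨7,[(1,3),(3,0),(0,0),(2,3),(7,1)]⟩,⟨0,[(15,0)]⟩⟩,.o ⟨false,1,⟨3,[(5,0),(0,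
  0),(9,1)]⟩,⟨0,[(0,0)]⟩⟩,.e ⟨false,1,⟨1,[(16,0),(0,0)]⟩,⟨0,[(18,0)]⟩⟩ ⟨false,1,⟨7,[(1,3),(3,0),(0,
  0),(2,3),(7,1)]⟩,⟨0,[(3,0),(13,0)]⟩⟩]⟩))))

theorem ok : chk (cPU (-1) true) tree base = true := by
  decide +kernel

theorem closed {p a b c J l q : ℤ} {D dl : ℝ} {Cl : ℤ → ℤ → ℤ → ℤ → ℝ → Prop}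
    (W : World p a b c J (-1) l q D dl Cl) (hE : KEmp p a b (-1) (P1 l p) Cl)
    (g : G0 p a b c J D)
    {N R : ℤ} {I : ℝ} (hu : UFac p b D Cl N R I)
    (s0 : (1 : ℝ) ≤ c)
    (s1 : (a : ℝ) ≤ b)
    (s2 : (b : ℝ) + 1 ≤ 2 * a)
    (s3 : D < 2 * b)
    (s4 : p - D - c < a) : False := by
  have g1 := g.a2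
  have g2 := g.b2
  have g3 := g.pa
  have g4 := g.pb
  have g5 := g.J1
  have g6 := g.JD
  have g7 := g.D2
  have g8 := g.ca
  have g9 := g.ca'
  have t1 := TF.ofU hu
  have i1 := t1.I0
  have i2 := t1.ID
  have i3 := t1.R1
  have i4 := t1.R2
  refine (val_PU W.toBase (UV.ofU hu)).sound W rfl (Nk := 0) (fun kf hkf hh => ?_) (kok_B hE (by simp [xv]) (by simp [xv]) 0) ?_ ok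
  · simp only [cPU, kfB, List.mem_cons, List.not_mem_nil, or_false] at hkf
    subst hkf
    exact absurd hh (by norm_num)
  · simp only [base, List.forall_mem_cons, List.not_mem_nil, false_imp_iff, implies_true,
      and_true, hld, xv, evg_cons, evg_nil, List.map_cons, List.map_nil, List.cons_append,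
      List.nil_append, if_true, if_false, Bool.false_eq_true]
    push_cast
    refine ⟨?_, ?_, ?_, ?_, ?_, ?_, ?_, ?_, ?_, ?_, ?_, ?_, ?_, ?_, ?_, ?_, ?_⟩ <;> linarith

end Helper25.KG.P1_35_m1_1_u
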