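import Pool.Agent.Helper25.KG.PL

set_option autoImplicit false
set_option linter.unusedVariables false

namespace Helper25.KG.P1_35_m1_1_v

open Helper11.CT Helper25.KW Helper25.KG

def base : List Con :=
  [(false,[0,1,0,1,-1,0,0,1]),
  (false,[0,0,2,0,0,0,0,-1]),
  (true,[0,0,0,0,1,0,-2]),
  (true,[0,0,0,0,1,0,2]),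
  (false,[0,0,0,0,0,0,0,1,-2]),
  (false,[0,0,0,0,0,0,0,0,1]),
  (false,[0,0,0,0,1,0,0,-2]),
  (false,[0,0,0,0,0,-1,0,1]),
  (true,[0,0,0,0,0,1]),
  (true,[0,2,-1]),
  (true,[1,-1,1]),
  (true,[0,1,0,-1]),
  (true,[0,0,0,1]),
  (true,[0,0,-2,0,1]),
  (true,[0,-2,0,0,1]),
  (true,[-1,0,1]),
  (true,[-1,1])]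

def t0 : Tre :=
  (.Q [0,0,0,0,0,-1,0,1,-1] (.ed true [0,1,1] .k) (.I [0,0,-2,-2,1,0,-1] (.K ⟨0,[1,-1,-1],0,0,(⟨0,
  [(1,0)]⟩,⟨0,[(11,0),(2,0)]⟩),(.r (-1) ⟨7,[(0,3),(7,2),(0,0)]⟩ ⟨1,[(6,1),(2,0),(2,0),(3,1)]⟩),(.r
  (-1) ⟨0,[(0,0)]⟩ ⟨1,[(6,1),(0,1),(1,0),(8,1),(1,0)]⟩),.k,.k,.k,[⟨1,[(2,0),(7,0),(10,0)]⟩,⟨0,[(7,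
  0),(3,0)]⟩,⟨19,[(6,11),(0,1),(0,0),(0,10),(0,9),(4,3),(2,7)]⟩,⟨0,[(5,0)]⟩]⟩) (.I [0,0,1,0,0,-1]
  (.K ⟨0,[1,-1,-1],0,0,(⟨0,[(2,0)]⟩,⟨0,[(12,0),(2,0)]⟩),(.x 0 ⟨0,[(0,0)]⟩ ⟨7,[(3,3),(1,3),(3,2),(0,
  2),(9,1)]⟩),(.x 0 ⟨0,[(0,1)]⟩ ⟨3,[(3,3),(1,3),(3,0),(0,0),(9,1)]⟩),.k,.k,.k,[⟨1,[(3,0),(7,0),(10,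
  0)]⟩,⟨0,[(8,0),(3,0)]⟩,⟨31,[(1,3),(5,15),(1,2),(0,16),(0,15),(4,7),(2,7)]⟩,⟨0,[(6,0)]⟩]⟩) (.S ⟨1,
  0,[0,0,1,1,0,0,1],[0,1,1],[0,1,1,1,0,0,1],(⟨0,[(12,0),(2,0)]⟩,⟨0,[(2,0)]⟩),⟨0,[(12,0)]⟩,(.r 0 ⟨7,
  [(1,3),(7,0),(0,2)]⟩ ⟨5,[(3,1),(2,3),(2,0),(1,1),(6,1),(1,1),(0,2)]⟩),.k,⟨true,0,⟨0,[(23,0)]⟩,⟨0,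
  []⟩⟩,⟨false,1,⟨3,[(9,0),(0,0),(10,1)]⟩,⟨0,[]⟩⟩,⟨false,0,⟨0,[(19,0)]⟩,⟨0,[(18,0),(2,0)]⟩⟩,⟨true,0,
  ⟨0,[(19,0)]⟩,⟨0,[(18,0)]⟩⟩,[.a ⟨true,0,⟨3,[(1,1),(1,1),(6,0),(0,1),(8,0)]⟩,⟨0,[(3,0),(2,0),(10,
  0)]⟩⟩ ⟨false,0,⟨3,[(1,1),(8,0),(5,1),(3,0)]⟩,⟨0,[(0,0),(1,0),(3,0),(14,0)]⟩⟩ ⟨true,0,⟨7,[(1,3),(7,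
  0),(0,2)]⟩,⟨0,[(0,0),(1,0),(3,0),(10,0)]⟩⟩,.o ⟨false,1,⟨3,[(1,1),(8,0),(0,1),(1,0),(6,1),(0,1)]⟩,
  ⟨0,[(6,0)]⟩⟩,.a ⟨true,0,⟨0,[(0,0),(1,0)]⟩,⟨0,[(12,0),(9,0)]⟩⟩ ⟨false,0,⟨7,[(1,3),(7,0),(0,2)]⟩,⟨0,
  [(0,0),(1,0),(3,0),(14,0)]⟩⟩ ⟨true,0,⟨7,[(1,3),(7,0),(0,2)]⟩,⟨0,[(0,0),(1,0),(3,0)]⟩⟩,.a ⟨true,0,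
  ⟨1,[(3,0),(7,0),(10,0)]⟩,⟨0,[(12,0)]⟩⟩ ⟨true,0,⟨3,[(1,1),(8,0),(5,1),(3,0)]⟩,⟨0,[(0,0),(1,0),(3,
  0),(10,0)]⟩⟩ ⟨false,1,⟨1,[(10,0),(8,1),(1,0)]⟩,⟨0,[(0,0),(1,0),(3,0),(10,0)]⟩⟩]⟩))) (.I [0,0,-2,
  -2,1,0,-1] (.K ⟨0,[-1,1,1],0,0,(⟨0,[(1,0)]⟩,⟨1,[(2,0),(7,0),(2,1),(7,0)]⟩),(.r 0 ⟨1,[(6,1),(2,0),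
  (2,0),(3,1)]⟩ ⟨7,[(0,3),(7,2),(0,0)]⟩),.k,(.r 0 ⟨1,[(6,1),(0,1),(1,0),(8,1),(1,0)]⟩ ⟨0,[(0,0)]⟩),
  .k,.k,[⟨0,[(7,0),(3,0)]⟩,⟨1,[(2,0),(7,0),(10,0)]⟩,⟨0,[(5,0)]⟩,⟨19,[(6,11),(0,1),(0,0),(0,10),(0,
  9),(4,3),(2,7)]⟩]⟩) (.I [0,0,2,2,-1,0,1] (.K ⟨0,[-1,1,1],0,0,(⟨0,[(2,0)]⟩,⟨1,[(3,0),(7,0),(2,1),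
  (7,0)]⟩),(.r 0 ⟨7,[(1,3),(7,0),(0,2)]⟩ ⟨5,[(3,1),(2,3),(2,0),(1,1),(6,1),(1,1),(0,2)]⟩),.k,(.r 1
  ⟨0,[(0,0)]⟩ ⟨5,[(3,1),(2,3),(2,0),(1,1),(6,7),(1,4),(0,5)]⟩),.k,.k,[⟨0,[(8,0),(3,0)]⟩,⟨1,[(3,0),
  (7,0),(10,0)]⟩,⟨0,[(6,0)]⟩,⟨31,[(1,3),(5,15),(1,2),(0,16),(0,15),(4,7),(2,7)]⟩]⟩) (.I [0,0,2,0,0,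
  -2] (.K ⟨0,[-1,1,1],0,0,(⟨0,[(3,0)]⟩,⟨1,[(4,0),(7,0),(2,1),(7,0)]⟩),(.r 0 ⟨7,[(2,3),(7,0),(0,2)]⟩
  ⟨7,[(1,3),(8,2),(0,0)]⟩),.k,(.x (-1) ⟨3,[(4,3),(1,3),(3,0),(0,0),(9,1)]⟩ ⟨0,[(0,0)]⟩),.k,.k,[⟨0,
  [(9,0),(3,0)]⟩,⟨1,[(4,0),(7,0),(10,0)]⟩,⟨0,[(7,0)]⟩,⟨31,[(2,3),(5,15),(1,2),(0,16),(0,15),(4,7),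
  (2,7)]⟩]⟩) (.I [1,0,1,1,-1,0,-1] (.Q [0,0,0,2,-1,0,0,1] (.pp false [-1,1]) (.R ⟨2,true,false,
  false,[0,1],[1,-1],[0,1,1,1],(⟨0,[]⟩,⟨0,[]⟩),(⟨0,[(17,0)]⟩,⟨0,[(18,0)]⟩),⟨0,[]⟩,.k,.k,.k,(.r 1 ⟨6,
  [(4,5),(2,1),(4,0)]⟩ ⟨3,[(3,3),(8,0),(0,2)]⟩),.k,.k,⟨false,(-1),⟨55,[(0,13),(3,33),(2,15),(4,0),
  (3,6),(2,27)]⟩,⟨1,[(3,1),(9,0),(10,0)]⟩⟩,⟨true,0,⟨0,[(11,0)]⟩,⟨0,[(6,0)]⟩⟩,⟨true,0,⟨0,[(26,0)]⟩,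
  ⟨0,[]⟩⟩,⟨false,2,⟨1,[(3,1),(7,1),(1,0),(10,0)]⟩,⟨0,[(0,0)]⟩⟩,⟨false,0,⟨0,[(22,0)]⟩,⟨0,[(21,0),(2,
  0)]⟩⟩,⟨true,1,⟨3,[(3,1),(7,1),(1,0),(2,0)]⟩,⟨0,[(10,0)]⟩⟩,[]⟩) (.Q [0,-1,-1,0,1,0,1,1,-1] (.p
  false [0,0,1] [1] (⟨0,[(15,0)]⟩,⟨1,[(6,0),(7,0),(10,0)]⟩) .k 1 (⟨0,[]⟩,⟨0,[]⟩) .k .k) (.Q [0,0,1,
  0,0,0,0,-1,1] (.p true [0,0,1] [1] (⟨0,[(16,0)]⟩,⟨1,[(7,0),(7,0),(10,0)]⟩) .k 1 (⟨0,[]⟩,⟨0,[]⟩)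
  .k .k) (.R ⟨0,false,false,false,[1,0,-1],[0,1],[],(⟨1,[(8,0),(7,0),(10,0)]⟩,⟨0,[(17,0)]⟩),(⟨0,
  [(20,0)]⟩,⟨0,[(19,0)]⟩),⟨0,[(7,0)]⟩,.k,.k,(.r (-1) ⟨7,[(5,3),(8,2),(0,0)]⟩ ⟨7,[(6,3),(7,0),(0,
  2)]⟩),(.r (-1) ⟨7,[(5,3),(8,2),(0,0)]⟩ ⟨7,[(6,3),(7,0),(0,2)]⟩),.k,.k,⟨true,1,⟨7,[(5,3),(8,0),(0,
  2)]⟩,⟨1,[(3,0),(2,0),(15,0),(0,0)]⟩⟩,⟨false,1,⟨7,[(1,1),(6,2),(5,0),(1,2),(4,0),(3,4)]⟩,⟨0,[(0,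
  0)]⟩⟩,⟨false,1,⟨1,[(15,0),(10,0)]⟩,⟨6,[(5,0),(3,1),(4,0)]⟩⟩,⟨true,0,⟨4,[(1,2),(4,1),(5,0),(3,0),
  (4,0)]⟩,⟨0,[(11,0)]⟩⟩,⟨false,0,⟨0,[]⟩,⟨0,[]⟩⟩,⟨false,0,⟨0,[]⟩,⟨0,[]⟩⟩,[.o ⟨false,0,⟨0,[(24,0)]⟩,
  ⟨7,[(2,3),(11,0),(0,0),(2,1)]⟩⟩,.a ⟨true,0,⟨13,[(6,5),(1,13),(0,1),(4,0),(11,6)]⟩,⟨0,[(23,0)]⟩⟩
  ⟨false,1,⟨1,[(25,0),(0,0)]⟩,⟨0,[(28,0)]⟩⟩ ⟨true,0,⟨0,[(1,0),(1,0)]⟩,⟨0,[(0,0),(22,0)]⟩⟩,.e ⟨false,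
  1,⟨3,[(14,0),(0,0),(10,1)]⟩,⟨0,[]⟩⟩ ⟨false,0,⟨0,[(1,0),(1,0)]⟩,⟨1,[(11,1),(3,0),(10,0)]⟩⟩,.o
  ⟨false,0,⟨0,[(0,0)]⟩,⟨15,[(1,3),(12,1),(1,5),(1,4),(2,1),(3,4)]⟩⟩]⟩) (.K ⟨0,[-1,1,1],0,0,(⟨0,[(7,
  0)]⟩,⟨1,[(8,0),(7,0),(2,1),(7,0)]⟩),(.r 0 ⟨7,[(6,3),(7,0),(0,2)]⟩ ⟨7,[(5,3),(8,2),(0,0)]⟩),.k,(.x
  0 ⟨0,[(0,1),(6,1)]⟩ ⟨3,[(13,3),(0,0),(0,0),(2,1),(0,7)]⟩),.k,.k,[⟨0,[(13,0),(3,0)]⟩,⟨1,[(8,0),(7,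
  0),(10,0)]⟩,⟨0,[(11,0)]⟩,⟨39,[(1,7),(4,11),(5,15),(1,4),(0,14),(0,15),(4,15)]⟩]⟩)) (.R ⟨2,true,
  false,true,[0,1],[1,0,-1],[1,0,1],(⟨0,[]⟩,⟨0,[]⟩),(⟨1,[(7,0),(7,0),(10,0)]⟩,⟨0,[(16,0)]⟩),⟨0,[]⟩,
  .k,.k,.k,(.r 0 ⟨7,[(5,3),(7,0),(0,2)]⟩ ⟨7,[(4,3),(8,2),(0,0)]⟩),.k,.k,⟨false,1,⟨1,[(14,0),(10,
  0)]⟩,⟨3,[(2,0),(1,0),(3,0),(11,1),(3,0)]⟩⟩,⟨true,0,⟨1,[(0,1),(13,0),(10,0)]⟩,⟨1,[(7,0),(7,0),(10,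
  0)]⟩⟩,⟨false,1,⟨0,[(22,0),(2,0)]⟩,⟨0,[(23,0)]⟩⟩,⟨true,0,⟨0,[(10,0)]⟩,⟨3,[(5,1),(1,1),(6,0),(0,1),
  (8,0)]⟩⟩,⟨true,0,⟨0,[]⟩,⟨0,[(27,0)]⟩⟩,⟨false,0,⟨1,[(0,1),(23,0),(0,0)]⟩,⟨1,[(7,0),(6,0),(0,0),(9,
  0),(0,0)]⟩⟩,[]⟩))) (.Q [0,0,2,0,0,0,0,-1,-1] (.p false [1,-1,1] [] (⟨0,[(14,0),(1,0)]⟩,⟨1,[(7,0),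
  (5,0)]⟩) (.r (-1) ⟨0,[(0,0)]⟩ ⟨6,[(3,2),(2,0),(4,3)]⟩) 0 (⟨0,[]⟩,⟨0,[]⟩) .k .k) (.Q [0,1,0,-1,1,0,
  1,-1,-1] (.p false [1,-1,1] [] (⟨0,[(15,0),(1,0)]⟩,⟨1,[(8,0),(5,0)]⟩) (.r (-1) ⟨0,[(1,0)]⟩ ⟨6,[(4,
  2),(2,0),(4,3)]⟩) 0 (⟨0,[]⟩,⟨0,[]⟩) .k .k) (.K ⟨0,[1,-1,1],0,1,(⟨0,[(16,0),(1,0)]⟩,⟨1,[(9,0),(5,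
  0)]⟩),(.r (-1) ⟨0,[(2,0)]⟩ ⟨6,[(5,2),(2,0),(4,3)]⟩),(.r (-2) ⟨4,[(2,7),(1,0),(8,0)]⟩ ⟨6,[(5,4),(2,
  3),(4,1)]⟩),.k,.k,.k,[⟨0,[(7,0),(8,0),(9,0)]⟩,⟨0,[(1,0)]⟩,⟨6,[(7,1),(0,1),(1,0),(0,5),(1,0),(2,
  5)]⟩,⟨0,[(0,0)]⟩]⟩) (.K ⟨0,[0,1,-1],0,(-1),(⟨1,[(9,0),(5,0)]⟩,⟨0,[(16,0),(1,0)]⟩),(.r 0 ⟨6,[(5,2),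
  (2,0),(4,3)]⟩ ⟨0,[(2,0)]⟩),.k,(.r 1 ⟨6,[(5,4),(2,3),(4,1)]⟩ ⟨4,[(2,7),(1,0),(8,0)]⟩),.k,.k,[⟨1,
  [(12,0),(2,0),(10,1)]⟩,⟨0,[(16,0)]⟩,⟨35,[(1,11),(0,15),(10,4),(0,14),(0,11),(4,7),(1,19)]⟩,⟨1,[(0,
  0),(9,0),(0,1),(5,0)]⟩]⟩)) (.K ⟨0,[1,0,-1],0,0,(⟨1,[(6,0),(7,0),(10,0)]⟩,⟨0,[(15,0)]⟩),.k,(.r
  (-1) ⟨4,[(1,0),(1,1),(8,1)]⟩ ⟨7,[(4,3),(7,0),(0,2)]⟩),(.r 0 ⟨6,[(4,2),(2,0),(4,3)]⟩ ⟨0,[(1,0)]⟩),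
  .k,.k,[⟨1,[(6,0),(7,0),(10,2)]⟩,⟨3,[(0,0),(0,0),(2,1),(4,2),(6,0),(3,2)]⟩,⟨1,[(10,0),(2,0),(0,0),
  (6,0)]⟩,⟨6,[(0,1),(3,1),(2,0),(1,4),(2,0),(3,1),(2,0)]⟩]⟩)))))))

def t1 : Tre :=
  (.I [0,0,-1,-1,1,0,1] (.Q [0,0,2,0,-1,0,0,0,1] (.p true [0,0,1] [] (⟨0,[(9,0)]⟩,⟨1,[(8,0),(2,0),
  (0,0)]⟩) .k 0 (⟨0,[]⟩,⟨0,[]⟩) .k .k) (.Q [0,1,0,0,0,0,1,0,-1] (.p false [0,0,1] [] (⟨0,[(10,0)]⟩,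
  ⟨1,[(9,0),(2,0),(0,0)]⟩) .k 0 (⟨0,[]⟩,⟨0,[]⟩) .k .k) (.K ⟨0,[0,0,1],0,0,(⟨0,[(11,0)]⟩,⟨1,[(10,0),
  (2,0),(0,0)]⟩),.k,(.r (-1) ⟨0,[(2,0)]⟩ ⟨1,[(6,1),(1,0),(3,0),(3,1)]⟩),(.r 0 ⟨2,[(3,0),(2,0),(0,0),
  (1,0),(8,0)]⟩ ⟨0,[(4,0)]⟩),.k,.k,[⟨3,[(1,1),(6,0),(0,0),(1,1)]⟩,⟨1,[(7,0),(2,0)]⟩,⟨1,[(1,0),(2,1),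
  (1,1),(4,0),(0,0)]⟩,⟨0,[(0,0)]⟩]⟩) (.K ⟨0,[1,0,-1],0,0,(⟨1,[(10,0),(2,0),(0,0)]⟩,⟨0,[(11,0)]⟩),.k,
  (.r (-1) ⟨0,[(4,0)]⟩ ⟨2,[(3,0),(2,0),(0,0),(1,0),(8,0)]⟩),(.r 0 ⟨5,[(0,1),(5,1),(0,2),(0,1),(1,0),
  (7,3)]⟩ ⟨0,[(2,0)]⟩),.k,.k,[⟨3,[(1,1),(6,0),(0,0),(0,2),(2,0),(0,0)]⟩,⟨1,[(1,0),(9,0),(0,0)]⟩,⟨1,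
  [(6,0),(2,0),(0,0),(6,0)]⟩,⟨0,[(0,0),(5,0),(5,0),(4,0)]⟩]⟩)) (.Q [0,1,0,0,0,0,1,0,-1] (.p false
  [0,0,1] [] (⟨0,[(10,0)]⟩,⟨1,[(9,0),(2,0),(0,0)]⟩) .k 0 (⟨0,[]⟩,⟨0,[]⟩) .k .k) (.Q [0,1,0,0,0,0,-1,
  0,1] (.p true [0,0,1] [] (⟨0,[(11,0)]⟩,⟨1,[(10,0),(2,0),(0,0)]⟩) .k 0 (⟨0,[]⟩,⟨0,[]⟩) .k .k) (.K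
  ⟨0,[0,0,1],0,0,(⟨0,[(12,0)]⟩,⟨1,[(11,0),(2,0),(0,0)]⟩),.k,(.r (-1) ⟨0,[(3,0)]⟩ ⟨1,[(7,1),(1,0),(3,
  0),(3,1)]⟩),(.r 0 ⟨2,[(4,0),(2,0),(0,0),(1,0),(8,0)]⟩ ⟨0,[(5,0)]⟩),.k,.k,[⟨0,[(12,0),(9,0)]⟩,⟨1,
  [(8,0),(2,0)]⟩,⟨0,[(0,0)]⟩,⟨0,[(1,0)]⟩]⟩) (.R ⟨2,true,false,false,[0,1],[1,0,-1],[0,1,1,1],(⟨0,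
  []⟩,⟨0,[]⟩),(⟨1,[(11,0),(2,0),(0,0)]⟩,⟨0,[(12,0)]⟩),⟨0,[]⟩,.k,.k,.k,(.r 0 ⟨2,[(4,0),(2,0),(0,0),
  (1,0),(8,0)]⟩ ⟨0,[(5,0)]⟩),.k,.k,⟨true,(-1),⟨1,[(0,1),(6,2),(0,0),(3,1),(0,0),(4,0)]⟩,⟨0,[(5,0),
  (11,0)]⟩⟩,⟨false,1,⟨3,[(9,0),(0,0),(1,3),(0,1)]⟩,⟨0,[(0,0),(4,0),(1,0)]⟩⟩,⟨true,0,⟨0,[(23,0)]⟩,⟨0,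
  []⟩⟩,⟨false,2,⟨3,[(3,0),(1,2),(2,1),(0,0),(2,3),(0,0),(7,1)]⟩,⟨0,[(0,0),(6,0)]⟩⟩,⟨false,0,⟨0,[(19,
  0)]⟩,⟨0,[(18,0),(2,0)]⟩⟩,⟨true,1,⟨1,[(9,0),(2,1),(0,0)]⟩,⟨0,[(0,0),(6,0),(10,0)]⟩⟩,[]⟩)) (.Q [0,0,
  0,0,0,-1,0,1,-1] (.ed true [0,1,1] .k) (.R ⟨2,true,false,true,[0,1],[0,1,1],[0,1,1,1],(⟨0,[]⟩,⟨0,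
  []⟩),(⟨0,[(12,0),(2,0)]⟩,⟨0,[(0,0)]⟩),⟨0,[]⟩,.k,(.r 0 ⟨2,[(4,0),(2,0),(0,0),(1,0),(8,0)]⟩ ⟨0,[(5,
  0)]⟩),.k,.k,(.r (-1) ⟨0,[(5,0)]⟩ ⟨2,[(4,0),(2,0),(0,0),(1,0),(8,0)]⟩),.k,⟨true,0,⟨1,[(1,1),(5,0),
  (3,0),(1,0),(4,0)]⟩,⟨0,[(4,0),(13,0)]⟩⟩,⟨false,1,⟨15,[(2,7),(6,2),(0,2),(0,3),(1,1)]⟩,⟨0,[(12,
  0)]⟩⟩,⟨true,0,⟨0,[(23,0)]⟩,⟨0,[]⟩⟩,⟨false,1,⟨7,[(9,0),(0,4),(0,3),(1,1)]⟩,⟨0,[(1,0)]⟩⟩,⟨false,0,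
  ⟨0,[(19,0)]⟩,⟨0,[(18,0),(2,0)]⟩⟩,⟨true,0,⟨0,[(6,0),(0,0),(5,0),(4,0)]⟩,⟨0,[(1,0),(16,0)]⟩⟩,[]⟩)
  (.I [0,0,1,1,0,0,2] (.Q [0,0,1,0,0,0,0,-1,2] (.p true [0,0,1] [1,0,-1] (⟨0,[(13,0)]⟩,⟨1,[(12,0),
  (2,0),(0,0)]⟩) .k 2 (⟨1,[(12,0),(2,0),(0,0)]⟩,⟨0,[(13,0)]⟩) .k .k) (.R ⟨0,false,false,true,[1,0,
  -2],[2,-1,-1],[1],(⟨0,[(13,0)]⟩,⟨0,[(14,1)]⟩),(⟨1,[(13,0),(2,2),(0,0)]⟩,⟨0,[(2,0)]⟩),⟨0,[(2,0),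
  (11,0)]⟩,.k,(.r (-1) ⟨0,[(7,0)]⟩ ⟨6,[(1,3),(4,0),(2,0),(0,0),(0,0),(9,0)]⟩),(.r (-1) ⟨9,[(3,11),
  (3,5),(3,0),(1,5),(1,2),(2,3),(1,3)]⟩ ⟨0,[(1,0)]⟩),(.r 0 ⟨5,[(3,1),(5,1),(0,2),(0,1),(1,0),(7,
  3)]⟩ ⟨0,[(5,0)]⟩),.k,.k,⟨true,0,⟨0,[(6,0)]⟩,⟨1,[(3,1),(5,0),(3,0),(1,0),(4,2)]⟩⟩,⟨false,1,⟨7,[(11,
  0),(0,0),(0,3),(1,5)]⟩,⟨0,[(3,0),(1,0),(3,0)]⟩⟩,⟨false,1,⟨0,[(5,0),(0,0)]⟩,⟨0,[(3,1),(5,0),(3,0),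
  (1,0),(4,0)]⟩⟩,⟨true,1,⟨0,[(8,0),(6,0),(4,1)]⟩,⟨0,[(3,0),(5,0)]⟩⟩,⟨false,0,⟨0,[]⟩,⟨0,[]⟩⟩,⟨false,
  0,⟨0,[]⟩,⟨0,[]⟩⟩,[.o ⟨false,1,⟨7,[(0,0),(2,5),(6,0),(0,0),(3,6),(2,2),(1,7)]⟩,⟨0,[(8,0)]⟩⟩,.o
  ⟨false,1,⟨0,[(3,0),(11,0),(4,0)]⟩,⟨9,[(1,1),(6,5),(0,1),(1,0),(0,0),(0,1),(4,1)]⟩⟩,.a ⟨true,0,⟨0,
  [(14,1)]⟩,⟨0,[(13,0)]⟩⟩ ⟨true,0,⟨0,[]⟩,⟨0,[(25,0)]⟩⟩ ⟨false,1,⟨0,[(3,0),(9,0),(1,0),(4,0)]⟩,⟨0,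
  [(8,0),(5,1)]⟩⟩,.o ⟨false,0,⟨0,[(0,0)]⟩,⟨15,[(4,7),(6,0),(0,0),(0,11),(1,5)]⟩⟩]⟩) (.R ⟨0,false,
  false,true,[1,0,-2],[2,-1,-1],[1],(⟨0,[(13,0)]⟩,⟨0,[(14,1)]⟩),(⟨1,[(13,0),(2,2),(0,0)]⟩,⟨0,[(2,
  0)]⟩),⟨0,[(2,0),(11,0)]⟩,.k,(.r (-1) ⟨0,[(7,0)]⟩ ⟨6,[(1,3),(4,0),(2,0),(0,0),(0,0),(9,0)]⟩),(.r
  (-1) ⟨13,[(0,5),(2,11),(3,5),(3,4),(3,2),(2,1),(1,7)]⟩ ⟨0,[(1,0)]⟩),(.r 0 ⟨5,[(3,1),(5,1),(0,2),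
  (0,1),(1,0),(7,3)]⟩ ⟨0,[(5,0)]⟩),.k,.k,⟨true,0,⟨0,[(6,0)]⟩,⟨1,[(0,0),(2,1),(6,0),(7,0),(1,1)]⟩⟩,
  ⟨false,1,⟨7,[(11,0),(0,0),(0,3),(1,5)]⟩,⟨0,[(3,0),(1,0),(3,0)]⟩⟩,⟨false,1,⟨0,[(5,0),(0,0)]⟩,⟨0,
  [(0,0),(2,1),(6,0),(7,0)]⟩⟩,⟨true,1,⟨5,[(0,1),(0,1),(3,1),(4,0),(2,0),(1,3),(4,5)]⟩,⟨0,[(3,0),(5,
  0)]⟩⟩,⟨false,0,⟨0,[]⟩,⟨0,[]⟩⟩,⟨false,0,⟨0,[]⟩,⟨0,[]⟩⟩,[.o ⟨false,1,⟨9,[(3,7),(6,1),(0,0),(2,1),(0,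
  8),(2,3),(1,9)]⟩,⟨0,[(8,0)]⟩⟩,.o ⟨false,1,⟨0,[(3,0),(11,0),(4,0)]⟩,⟨9,[(1,1),(6,5),(0,1),(1,0),(0,
  0),(0,1),(4,1)]⟩⟩,.a ⟨true,0,⟨0,[(14,1)]⟩,⟨0,[(13,0)]⟩⟩ ⟨true,0,⟨0,[]⟩,⟨0,[(25,0)]⟩⟩ ⟨false,1,⟨4,
  [(0,3),(2,2),(3,1),(2,2),(4,2),(4,2)]⟩,⟨0,[(8,0),(5,1)]⟩⟩,.e ⟨false,1,⟨1,[(22,0),(0,0)]⟩,⟨0,[(24,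
  0)]⟩⟩ ⟨false,1,⟨0,[(0,0),(2,0),(11,0),(4,0)]⟩,⟨0,[(1,0),(1,0),(12,0),(0,0)]⟩⟩]⟩)) (.R ⟨0,false,
  false,false,[0,1,-1],[0,1],[1,0,1,1,0,0,-1],(⟨0,[(1,0),(10,0)]⟩,⟨0,[(13,0),(1,0)]⟩),(⟨0,[(16,0)]⟩,
  ⟨0,[(15,0)]⟩),⟨0,[(13,0)]⟩,(.r 0 ⟨5,[(2,1),(5,1),(0,2),(0,1),(1,0),(7,3)]⟩ ⟨0,[(4,0)]⟩),.k,.k,.k,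
  .k,.k,⟨true,0,⟨17,[(0,5),(1,1),(5,1),(0,2),(0,1),(1,0),(7,3)]⟩,⟨0,[(5,0),(13,0)]⟩⟩,⟨false,1,⟨15,
  [(3,7),(6,2),(0,2),(0,3),(1,1)]⟩,⟨0,[(13,0)]⟩⟩,⟨true,0,⟨0,[]⟩,⟨0,[(24,0)]⟩⟩,⟨false,1,⟨3,[(4,1),(2,
  1),(1,0),(2,0),(1,0),(7,0)]⟩,⟨7,[(2,5),(5,0),(0,0),(0,0),(2,1),(3,1),(1,0)]⟩⟩,⟨false,0,⟨0,[]⟩,⟨0,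
  []⟩⟩,⟨false,0,⟨0,[]⟩,⟨0,[]⟩⟩,[.o ⟨false,0,⟨0,[(20,0)]⟩,⟨7,[(0,1),(3,4),(1,0),(2,3),(4,1)]⟩⟩,.a
  ⟨true,0,⟨5,[(2,3),(4,3),(0,1),(1,0),(0,0)]⟩,⟨0,[(19,0)]⟩⟩ ⟨false,0,⟨0,[(0,0),(4,0),(14,0)]⟩,⟨11,
  [(4,7),(5,0),(0,2),(5,3),(1,3)]⟩⟩ ⟨true,0,⟨2,[(0,1),(4,0),(1,2),(0,0),(0,1),(4,0)]⟩,⟨0,[(13,0),(5,
  0)]⟩⟩,.e ⟨false,0,⟨1,[(2,1),(6,0),(2,0),(7,1)]⟩,⟨0,[(4,0)]⟩⟩ ⟨false,0,⟨2,[(0,1),(4,0),(1,2),(0,0),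
  (0,1),(4,0)]⟩,⟨1,[(4,0),(1,0),(6,1)]⟩⟩,.o ⟨false,0,⟨0,[(13,0)]⟩,⟨7,[(10,0),(0,0),(0,3),(1,
  5)]⟩⟩]⟩))))) (.Q [0,1,0,0,0,0,0,-1,1] (.p true [0,0,1] [1] (⟨0,[(9,0)]⟩,⟨1,[(8,0),(2,0),(0,0)]⟩)
  .k 1 (⟨0,[]⟩,⟨0,[]⟩) .k .k) (.R ⟨2,true,false,true,[0,1],[1,0,-1],[0,1,1,1],(⟨0,[]⟩,⟨0,[]⟩),(⟨1,
  [(9,0),(2,0),(0,0)]⟩,⟨0,[(10,0)]⟩),⟨0,[]⟩,.k,.k,.k,(.r 0 ⟨2,[(2,0),(2,0),(0,0),(1,0),(8,0)]⟩ ⟨0,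
  [(3,0)]⟩),.k,.k,⟨false,0,⟨0,[(0,0),(3,0)]⟩,⟨0,[(3,0)]⟩⟩,⟨true,0,⟨0,[(0,0),(14,0)]⟩,⟨1,[(9,0),(2,
  0),(0,0)]⟩⟩,⟨true,0,⟨0,[(21,0)]⟩,⟨0,[]⟩⟩,⟨false,1,⟨0,[(0,0),(2,0),(11,0)]⟩,⟨0,[(4,0)]⟩⟩,⟨false,0,
  ⟨0,[(17,0)]⟩,⟨0,[(16,0),(2,0)]⟩⟩,⟨true,0,⟨1,[(0,1),(0,0),(1,0)]⟩,⟨0,[(4,0),(11,0)]⟩⟩,[]⟩) (.Q [0,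
  0,-1,0,0,0,0,1,-1] (.p false [0,0,1] [1] (⟨0,[(10,0)]⟩,⟨7,[(0,3),(4,1),(1,0),(0,0),(0,1),(6,1)]⟩)
  .k 1 (⟨0,[]⟩,⟨0,[]⟩) .k .k) (.R ⟨2,true,false,true,[0,1],[1,0,-1],[1,1,1],(⟨0,[]⟩,⟨0,[]⟩),(⟨7,[(1,
  3),(4,1),(1,0),(0,0),(0,1),(6,1)]⟩,⟨0,[(11,0)]⟩),⟨0,[]⟩,.k,.k,.k,(.r 0 ⟨2,[(3,0),(2,0),(0,0),(1,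
  0),(8,0)]⟩ ⟨0,[(4,0)]⟩),.k,.k,⟨true,0,⟨0,[(3,0),(13,0)]⟩,⟨1,[(2,0),(1,0)]⟩⟩,⟨false,1,⟨3,[(8,0),(0,
  0),(1,3),(0,1)]⟩,⟨0,[(0,0)]⟩⟩,⟨true,0,⟨0,[(17,0)]⟩,⟨0,[(18,0)]⟩⟩,⟨false,1,⟨3,[(2,0),(1,2),(6,3),
  (0,1),(3,1),(0,1)]⟩,⟨0,[(5,0)]⟩⟩,⟨false,0,⟨0,[]⟩,⟨3,[(8,0),(0,0),(10,1)]⟩⟩,⟨true,0,⟨1,[(2,1),(8,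
  1),(0,0),(4,1),(1,0)]⟩,⟨0,[(5,0),(11,0)]⟩⟩,[]⟩) (.I [0,0,1,0,0,-1] (.K ⟨0,[1,0,-1],0,0,(⟨7,[(2,3),
  (4,1),(1,0),(0,0),(0,1),(6,1)]⟩,⟨0,[(12,0)]⟩),.k,(.r (-1) ⟨0,[(5,0)]⟩ ⟨2,[(4,0),(2,0),(0,0),(1,0),
  (8,0)]⟩),(.x (-1) ⟨3,[(9,0),(0,0),(4,3),(4,1)]⟩ ⟨0,[(0,0)]⟩),.k,.k,[⟨7,[(2,3),(4,1),(1,0),(0,0),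
  (0,1),(6,1),(3,7)]⟩,⟨0,[(1,0)]⟩,⟨1,[(7,0),(2,0),(0,0),(6,0)]⟩,⟨1,[(3,1),(8,1),(0,0),(4,1),(1,
  0)]⟩]⟩) (.R ⟨0,false,false,true,[-1,1,1],[0,1],[1,1],(⟨0,[(0,0),(0,0)]⟩,⟨7,[(2,3),(4,1),(1,0),(0,
  0),(0,1),(2,7),(3,1)]⟩),(⟨0,[(15,0)]⟩,⟨0,[(14,0)]⟩),⟨7,[(2,3),(4,1),(1,0),(0,0),(0,1),(6,1)]⟩,(.r
  0 ⟨2,[(4,0),(2,0),(0,0),(1,0),(8,0)]⟩ ⟨0,[(5,0)]⟩),.k,.k,.k,.k,.k,⟨true,1,⟨1,[(18,1),(1,0),(0,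
  0)]⟩,⟨0,[(3,0),(0,0),(13,0)]⟩⟩,⟨false,1,⟨1,[(12,1),(0,0),(6,0)]⟩,⟨7,[(2,3),(4,1),(1,0),(0,0),(0,
  1),(6,1)]⟩⟩,⟨false,1,⟨0,[(5,0)]⟩,⟨0,[(4,0)]⟩⟩,⟨true,0,⟨1,[(3,1),(8,1),(0,0),(4,1),(1,0)]⟩,⟨0,[(6,
  0),(11,0)]⟩⟩,⟨false,0,⟨0,[]⟩,⟨0,[]⟩⟩,⟨false,0,⟨0,[]⟩,⟨0,[]⟩⟩,[.a ⟨true,(-1),⟨0,[(7,0)]⟩,⟨0,[(18,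
  0),(2,0)]⟩⟩ ⟨true,0,⟨0,[(23,0)]⟩,⟨0,[(1,0),(0,0)]⟩⟩ ⟨false,0,⟨0,[(7,0),(4,0),(0,0)]⟩,⟨1,[(2,1),
  (15,1),(1,0),(0,0)]⟩⟩,.o ⟨false,0,⟨0,[(19,0)]⟩,⟨1,[(13,0),(4,1),(2,0)]⟩⟩,.e ⟨false,0,⟨0,[]⟩,⟨3,
  [(9,0),(0,0),(10,1)]⟩⟩ ⟨false,0,⟨0,[(1,0),(17,0)]⟩,⟨1,[(2,1),(15,1),(1,0),(0,0)]⟩⟩,.o ⟨false,0,⟨7,
  [(2,3),(4,1),(1,0),(0,0),(0,1),(6,1)]⟩,⟨0,[(12,0),(0,0)]⟩⟩]⟩)))))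

def t2 : Tre :=
  (.I [0,0,-1,-1,0,0,2] (.Q [0,1,0,0,-1,0,2,0,-2] (.p false [0,0,2] [] (⟨0,[(8,1)]⟩,⟨0,[(7,0)]⟩) .k
  0 (⟨0,[]⟩,⟨0,[]⟩) .k .k) (.K ⟨0,[0,0,2],0,(-1),(⟨0,[(9,1)]⟩,⟨0,[(8,0)]⟩),.k,(.r 0 ⟨0,[(1,0)]⟩ ⟨15,
  [(3,3),(0,3),(0,7),(0,18),(0,0),(1,3),(6,7)]⟩),(.r 1 ⟨4,[(1,0),(0,5),(4,0)]⟩ ⟨1,[(6,1),(8,1),(1,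
  0),(0,0)]⟩),.k,.k,[⟨0,[(9,1),(9,0)]⟩,⟨0,[(0,0),(5,0),(7,0)]⟩,⟨0,[(6,0),(2,1),(10,0)]⟩,⟨0,[(0,
  0)]⟩]⟩) (.Q [0,0,0,0,0,1,0,-1,2] (.p true [0,0,1] [1,0,-1] (⟨0,[(9,0)]⟩,⟨1,[(8,0),(2,0),(0,0)]⟩)
  .k 2 (⟨1,[(8,0),(2,0),(0,0)]⟩,⟨0,[(9,0)]⟩) .k .k) (.Q [0,0,1,0,0,0,0,-1,2] (.p true [0,0,1] [1,0,
  -1] (⟨0,[(10,0)]⟩,⟨1,[(9,0),(2,0),(0,0)]⟩) .k 2 (⟨1,[(9,0),(2,0),(0,0)]⟩,⟨0,[(10,0)]⟩) .k .k) (.Q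
  [0,1,0,0,-1,0,2,1,-2] (.p false [0,0,1] [1,0,-1] (⟨0,[(11,0)]⟩,⟨1,[(10,0),(2,0),(0,0)]⟩) .k 2 (⟨1,
  [(10,0),(2,0),(0,0)]⟩,⟨0,[(11,0)]⟩) .k .k) (.K ⟨0,[1,0,-2],0,1,(⟨0,[(11,0)]⟩,⟨1,[(1,0),(1,0),(0,
  0),(2,0)]⟩),.k,(.r (-2) ⟨1,[(9,1),(8,1),(1,0),(0,0)]⟩ ⟨4,[(4,0),(0,5),(4,0)]⟩),(.r (-1) ⟨9,[(3,0),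
  (2,1),(0,2),(0,4),(0,10),(0,0),(8,4)]⟩ ⟨0,[(4,0)]⟩),.k,.k,[⟨0,[(11,0),(10,0)]⟩,⟨0,[(1,0)]⟩,⟨0,[(0,
  0)]⟩,⟨0,[(3,0),(3,0),(5,0),(4,0)]⟩]⟩) (.R ⟨2,true,false,false,[0,1],[0,0,2],[0,1,1,1],(⟨0,[]⟩,⟨0,
  []⟩),(⟨1,[(1,0),(1,0),(0,0),(2,0)]⟩,⟨0,[(11,0)]⟩),⟨0,[]⟩,.k,.k,.k,(.r (-1) ⟨9,[(3,0),(2,1),(0,2),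
  (0,4),(0,10),(0,0),(8,4)]⟩ ⟨0,[(4,0)]⟩),.k,.k,⟨true,0,⟨1,[(0,1),(6,2),(0,0),(2,1),(1,0),(4,0)]⟩,
  ⟨0,[(4,0),(12,0)]⟩⟩,⟨false,1,⟨3,[(9,0),(0,0),(0,3),(1,1)]⟩,⟨0,[(0,0),(3,0),(2,0)]⟩⟩,⟨true,0,⟨0,
  [(23,0)]⟩,⟨0,[]⟩⟩,⟨false,1,⟨6,[(4,5),(3,2),(1,0),(0,6),(1,1),(4,0),(2,3)]⟩,⟨0,[(0,0),(6,0)]⟩⟩,
  ⟨false,0,⟨0,[(19,0)]⟩,⟨0,[(18,0),(2,0)]⟩⟩,⟨true,0,⟨9,[(4,5),(0,5),(4,0),(0,9),(1,4)]⟩,⟨0,[(0,0),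
  (6,0),(10,0)]⟩⟩,[]⟩)) (.K ⟨0,[0,1,-1],0,0,(⟨1,[(0,1),(0,0),(5,0),(6,0)]⟩,⟨1,[(1,0),(11,2)]⟩),(.r
  0 ⟨0,[(4,0),(3,0)]⟩ ⟨7,[(3,1),(5,1),(7,5),(1,2),(0,2)]⟩),.k,(.x 0 ⟨0,[(0,1),(0,1)]⟩ ⟨3,[(7,3),(0,
  0),(0,0),(2,1),(0,7)]⟩),.k,.k,[⟨1,[(7,0),(2,0),(10,1)]⟩,⟨0,[(11,0)]⟩,⟨3,[(0,0),(2,1),(3,1),(2,0),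
  (4,0),(1,1)]⟩,⟨5,[(2,2),(3,4),(0,0),(4,1),(2,1),(2,0)]⟩]⟩)) (.Q [0,0,0,-1,1,0,-1,-1,1] (.p true
  [0,0,1] [1] (⟨0,[(10,0)]⟩,⟨1,[(9,0),(2,0),(0,0)]⟩) .k 1 (⟨0,[]⟩,⟨0,[]⟩) .k .k) (.K ⟨0,[0,0,1],0,0,
  (⟨0,[(11,0)]⟩,⟨1,[(10,0),(2,0),(0,0)]⟩),.k,(.r (-1) ⟨7,[(3,1),(5,1),(7,5),(1,2),(0,2)]⟩ ⟨0,[(4,0),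
  (3,0)]⟩),(.x (-1) ⟨3,[(8,0),(0,0),(4,3),(4,1)]⟩ ⟨1,[(0,1),(0,0),(2,1),(8,0)]⟩),.k,.k,[⟨0,[(11,0),
  (9,0)]⟩,⟨1,[(7,0),(2,0)]⟩,⟨0,[(0,0),(5,0)]⟩,⟨7,[(3,1),(0,1),(2,1),(1,0),(0,3),(1,0),(2,3)]⟩]⟩)
  (.Q [0,0,1,0,0,0,0,-1,2] (.p true [0,0,1] [1,0,-1] (⟨0,[(11,0)]⟩,⟨1,[(10,0),(2,0),(0,0)]⟩) .k 2
  (⟨1,[(10,0),(2,0),(0,0)]⟩,⟨0,[(11,0)]⟩) .k .k) (.K ⟨0,[1,0,-2],0,1,(⟨0,[(11,0)]⟩,⟨1,[(0,0),(2,0),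
  (0,0),(2,0)]⟩),.k,(.r (-2) ⟨1,[(9,1),(8,1),(1,0),(0,0)]⟩ ⟨4,[(4,0),(0,5),(4,0)]⟩),(.r (-1) ⟨9,[(3,
  0),(2,1),(0,2),(0,4),(0,10),(0,0),(8,4)]⟩ ⟨0,[(4,0)]⟩),.k,.k,[⟨0,[(11,0),(10,0)]⟩,⟨0,[(0,0)]⟩,⟨6,
  [(1,7),(2,2),(3,1),(2,2),(1,0),(2,0),(1,4)]⟩,⟨0,[(3,0),(3,0),(5,0),(4,0)]⟩]⟩) (.S ⟨1,2,[],[1,0,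
  -2],[0,1,0,0,0,0,-2],(⟨0,[(11,0)]⟩,⟨0,[(12,1)]⟩),⟨0,[(2,0)]⟩,.k,(.r (-2) ⟨1,[(9,1),(8,1),(1,0),(0,
  0)]⟩ ⟨4,[(4,0),(0,5),(4,0)]⟩),⟨true,0,⟨0,[(23,0)]⟩,⟨0,[]⟩⟩,⟨false,0,⟨9,[(1,5),(2,5),(3,2),(1,0),
  (0,6),(1,4)]⟩,⟨0,[(3,0)]⟩⟩,⟨false,0,⟨0,[(19,0)]⟩,⟨0,[(18,0),(2,0)]⟩⟩,⟨true,(-1),⟨0,[(1,1),(11,0),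
  (4,0)]⟩,⟨0,[(3,0),(14,0)]⟩⟩,[.a ⟨true,0,⟨0,[(23,0)]⟩,⟨2,[(0,0),(0,1),(1,1),(0,0),(12,1),(0,0)]⟩⟩
  ⟨false,1,⟨0,[(0,0),(2,0),(3,0),(5,0),(4,0)]⟩,⟨9,[(4,5),(0,5),(4,0),(10,4)]⟩⟩ ⟨true,0,⟨1,[(0,1),(6,
  0),(0,0),(4,0),(4,0)]⟩,⟨0,[(12,1),(4,0)]⟩⟩,.fo,.a ⟨true,0,⟨0,[(12,1)]⟩,⟨0,[(11,0)]⟩⟩ ⟨false,1,⟨0,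
  [(9,0)]⟩,⟨9,[(4,5),(0,5),(4,0),(10,4)]⟩⟩ ⟨true,0,⟨1,[(0,1),(6,0),(0,0),(4,0),(4,0)]⟩,⟨0,[(12,
  1)]⟩⟩,.a ⟨true,0,⟨0,[(12,1),(9,0)]⟩,⟨0,[(0,0)]⟩⟩ ⟨true,1,⟨0,[(0,0),(2,0),(3,0),(5,0),(4,0)]⟩,⟨1,
  [(4,0),(0,1),(11,0),(0,0)]⟩⟩ ⟨false,1,⟨1,[(11,1),(1,0),(6,0)]⟩,⟨0,[(12,1),(4,0)]⟩⟩]⟩))))) (.I [0,
  0,1,0,0,-1] (.Q [0,1,0,0,0,0,-1,0,1] (.p true [0,0,1] [] (⟨0,[(9,0)]⟩,⟨1,[(8,0),(2,0),(0,0)]⟩) .k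
  0 (⟨0,[]⟩,⟨0,[]⟩) .k .k) (.K ⟨0,[0,0,1],0,0,(⟨0,[(10,0)]⟩,⟨1,[(9,0),(2,0),(0,0)]⟩),.k,(.x 0 ⟨0,
  [(1,0)]⟩ ⟨3,[(7,0),(0,0),(4,3),(4,1)]⟩),(.x (-1) ⟨3,[(7,0),(0,0),(4,3),(4,1)]⟩ ⟨0,[(1,0)]⟩),.k,.k,
  [⟨0,[(10,0),(9,0)]⟩,⟨1,[(6,0),(2,0)]⟩,⟨0,[(0,0)]⟩,⟨11,[(3,7),(4,1),(0,5),(1,2),(2,1),(1,7),(1,
  2)]⟩]⟩) (.Q [0,0,1,0,0,0,0,-1,1] (.p true [0,0,1] [1] (⟨0,[(10,0)]⟩,⟨1,[(9,0),(2,0),(0,0)]⟩) .k 1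
  (⟨0,[]⟩,⟨0,[]⟩) .k .k) (.K ⟨0,[1,0,-1],0,1,(⟨1,[(10,0),(2,0),(0,0)]⟩,⟨0,[(11,0)]⟩),.k,(.x 0 ⟨0,
  [(2,0)]⟩ ⟨3,[(8,0),(0,0),(4,3),(4,1)]⟩),(.x (-1) ⟨3,[(8,0),(0,0),(4,3),(4,1)]⟩ ⟨0,[(2,0)]⟩),.k,.k,
  [⟨1,[(10,0),(2,0),(0,0),(6,1)]⟩,⟨0,[(0,0)]⟩,⟨0,[(1,0),(4,0),(10,0)]⟩,⟨7,[(0,3),(7,4),(0,0),(1,3),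
  (0,1),(2,3)]⟩]⟩) (.K ⟨0,[1,-1,-1],0,1,(⟨0,[(0,0),(1,0)]⟩,⟨0,[(11,0),(2,0)]⟩),(.x 0 ⟨0,[(2,0)]⟩ ⟨3,
  [(8,0),(0,0),(4,3),(4,1)]⟩),(.x 0 ⟨0,[(2,1)]⟩ ⟨0,[(14,1),(4,0)]⟩),.k,.k,.k,[⟨1,[(10,0),(2,0),(0,
  0)]⟩,⟨0,[(7,0),(3,0)]⟩,⟨11,[(0,5),(3,9),(1,2),(2,0),(0,2),(4,3),(1,0)]⟩,⟨1,[(8,0),(2,1),(0,0),(4,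
  1)]⟩]⟩))) (.Q [0,0,0,2,-1,0,0,1] (.pp false [-1,1]) (.R ⟨2,true,false,true,[0,1],[1,-1],[1,0,1],
  (⟨0,[]⟩,⟨0,[]⟩),(⟨0,[(12,0)]⟩,⟨0,[(13,0)]⟩),⟨0,[]⟩,.k,.k,.k,(.r 1 ⟨0,[(0,0),(5,0)]⟩ ⟨0,[(16,1),(1,
  0),(0,0)]⟩),.k,.k,⟨false,0,⟨1,[(0,0),(5,0),(12,0)]⟩,⟨0,[(16,0),(1,0)]⟩⟩,⟨true,0,⟨0,[(6,0)]⟩,⟨0,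
  [(1,0),(10,0)]⟩⟩,⟨false,1,⟨0,[(16,0),(2,0)]⟩,⟨0,[(17,0)]⟩⟩,⟨true,1,⟨1,[(11,0),(4,3),(2,0)]⟩,⟨0,
  [(0,0)]⟩⟩,⟨true,0,⟨0,[]⟩,⟨0,[(21,0)]⟩⟩,⟨false,1,⟨1,[(11,0),(4,1),(2,0)]⟩,⟨0,[(5,0),(13,0)]⟩⟩,[]⟩)
  (.Q [0,0,0,1,0,0,-1,0,1] (.p true [0,0,1] [] (⟨0,[(10,0)]⟩,⟨1,[(9,0),(2,0),(0,0)]⟩) .k 0 (⟨0,[]⟩,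
  ⟨0,[]⟩) .k .k) (.R ⟨2,true,false,false,[0,1],[0,0,1],[0,1,1,1],(⟨0,[]⟩,⟨0,[]⟩),(⟨0,[(11,0)]⟩,⟨1,
  [(10,0),(2,0),(0,0)]⟩),⟨0,[]⟩,.k,.k,.k,(.r 0 ⟨4,[(3,3),(0,0),(4,0)]⟩ ⟨2,[(1,1),(0,1),(1,0),(4,0),
  (3,1),(5,0)]⟩),.k,.k,⟨false,0,⟨1,[(3,0),(11,0),(2,0)]⟩,⟨1,[(1,1),(0,1),(1,1),(8,1),(5,0),(0,0)]⟩⟩,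
  ⟨true,0,⟨1,[(7,0),(2,0)]⟩,⟨0,[(11,0)]⟩⟩,⟨true,0,⟨0,[(22,0)]⟩,⟨0,[]⟩⟩,⟨false,1,⟨0,[(1,0),(3,0)]⟩,
  ⟨0,[(0,0)]⟩⟩,⟨false,0,⟨0,[(18,0)]⟩,⟨0,[(17,0),(2,0)]⟩⟩,⟨true,0,⟨1,[(1,0),(2,1),(5,0),(8,0)]⟩,⟨0,
  [(0,0),(16,0)]⟩⟩,[]⟩) (.R ⟨0,false,false,false,[0,1,-1],[1,0,-1],[],(⟨1,[(2,1),(4,0),(2,0)]⟩,⟨0,
  [(11,0),(1,0)]⟩),(⟨1,[(10,0),(2,0),(0,0)]⟩,⟨0,[(11,0)]⟩),⟨0,[(11,0)]⟩,(.r 0 ⟨4,[(3,3),(0,0),(4,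
  0)]⟩ ⟨2,[(0,0),(0,0),(0,0),(6,0),(1,0),(1,0),(5,0)]⟩),.k,.k,.k,.k,.k,⟨true,0,⟨5,[(0,1),(3,1),(4,
  0),(1,1),(7,0)]⟩,⟨1,[(3,0),(12,0),(0,0)]⟩⟩,⟨false,1,⟨3,[(8,0),(0,0),(2,1)]⟩,⟨0,[(2,0),(10,0)]⟩⟩,
  ⟨false,1,⟨1,[(0,1),(10,1),(7,0),(0,0)]⟩,⟨4,[(3,3),(0,0),(4,0)]⟩⟩,⟨true,1,⟨7,[(1,3),(6,0),(0,0),(2,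
  1)]⟩,⟨0,[(6,0)]⟩⟩,⟨false,0,⟨0,[]⟩,⟨0,[]⟩⟩,⟨false,0,⟨0,[]⟩,⟨0,[]⟩⟩,[.o ⟨false,1,⟨1,[(8,0),(2,1),(0,
  0)]⟩,⟨15,[(0,7),(3,3),(0,3),(4,1),(1,2),(2,1),(3,0)]⟩⟩,.a ⟨true,1,⟨1,[(8,0),(2,1),(8,0)]⟩,⟨0,[(0,
  0),(5,0)]⟩⟩ ⟨false,1,⟨1,[(19,0),(0,0)]⟩,⟨0,[(22,0)]⟩⟩ ⟨true,1,⟨3,[(1,0),(1,1),(3,0),(4,0),(7,1)]⟩,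
  ⟨0,[(0,0),(5,0),(4,0)]⟩⟩,.e ⟨false,1,⟨3,[(8,0),(0,0),(10,1)]⟩,⟨0,[]⟩⟩ ⟨false,1,⟨3,[(1,0),(1,1),(3,
  0),(4,0),(7,1)]⟩,⟨5,[(0,1),(1,5),(1,1),(4,0),(1,1),(1,5),(5,0)]⟩⟩,.o ⟨false,0,⟨0,[(11,0)]⟩,⟨7,[(8,
  0),(0,0),(0,3),(1,5)]⟩⟩]⟩)))))

def tree : Tre :=
  (.Q [0,1,0,-1,0,0,-1,-1,1] (.p true [0,0,1] [1] (⟨0,[(5,0)]⟩,⟨1,[(4,0),(2,0),(0,0)]⟩) .k 1 (⟨0,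
  []⟩,⟨0,[]⟩) .k .k) (.Q [0,0,0,0,0,-2,0,1] (.pp false [-1,1]) (.K ⟨0,[1,-1,-1],0,0,(⟨1,[(0,0),(5,
  0)]⟩,⟨0,[(7,0),(2,0)]⟩),(.r (-1) ⟨1,[(1,1),(4,0),(2,0),(0,0),(4,0),(0,0)]⟩ ⟨1,[(2,1),(2,0),(2,0),
  (3,1)]⟩),(.x 0 ⟨0,[(0,0),(2,0)]⟩ ⟨0,[(10,1),(4,0)]⟩),.k,.k,.k,[⟨1,[(6,0),(2,0),(0,0)]⟩,⟨0,[(3,0),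
  (3,0)]⟩,⟨19,[(2,11),(0,1),(0,0),(0,10),(0,9),(4,3),(2,7)]⟩,⟨0,[(1,0)]⟩]⟩) (.I [0,0,1,1,-1,0,-2]
  (.Q [0,0,-1,0,0,0,0,1] (.pp false [-1,1]) t0 (.Q [0,0,0,-2,1,0,0,-1] (.pp true [-1,1]) (.K ⟨0,[1,
  0,-1],0,0,(⟨1,[(9,0),(2,0),(0,0)]⟩,⟨0,[(10,0)]⟩),.k,(.r (-1) ⟨3,[(2,1),(13,5),(1,2),(0,2)]⟩ ⟨1,
  [(1,0),(3,0),(2,0),(6,0),(1,0)]⟩),(.x (-1) ⟨3,[(7,0),(0,0),(4,3),(4,1)]⟩ ⟨0,[(1,0),(10,0)]⟩),.k,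
  .k,[⟨1,[(9,0),(2,0),(0,0),(6,1)]⟩,⟨0,[(1,0),(8,0)]⟩,⟨1,[(5,0),(2,0),(0,0),(6,0)]⟩,⟨0,[(4,0),(12,
  0)]⟩]⟩) (.R ⟨2,true,false,true,[0,1],[1,-1],[0,0,1,1],(⟨0,[]⟩,⟨0,[]⟩),(⟨0,[(12,0)]⟩,⟨0,[(13,0)]⟩),
  ⟨0,[]⟩,.k,.k,.k,(.r 1 ⟨0,[(0,0),(5,0)]⟩ ⟨0,[(16,1),(1,0),(0,0)]⟩),.k,.k,⟨true,(-1),⟨0,[(0,0),(0,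
  0),(13,0)]⟩,⟨1,[(16,3),(1,0),(0,0)]⟩⟩,⟨false,0,⟨0,[(1,0)]⟩,⟨0,[(12,0),(0,0),(4,0)]⟩⟩,⟨false,1,⟨3,
  [(7,0),(0,0),(10,1)]⟩,⟨0,[]⟩⟩,⟨true,1,⟨1,[(11,0),(4,3),(2,0)]⟩,⟨0,[(0,0)]⟩⟩,⟨true,0,⟨0,[(17,0)]⟩,
  ⟨0,[(16,0)]⟩⟩,⟨false,1,⟨1,[(11,0),(4,1),(2,0)]⟩,⟨0,[(5,0),(13,0)]⟩⟩,[]⟩))) (.Q [0,1,0,0,0,0,1,0,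
  -1] (.p false [0,0,1] [] (⟨0,[(8,0)]⟩,⟨1,[(7,0),(2,0),(0,0)]⟩) .k 0 (⟨0,[]⟩,⟨0,[]⟩) .k .k) (.K ⟨0,
  [0,0,1],0,0,(⟨0,[(9,0)]⟩,⟨1,[(8,0),(2,0),(0,0)]⟩),.k,(.r (-1) ⟨3,[(1,1),(13,1),(1,0),(0,0)]⟩ ⟨5,
  [(3,1),(0,1),(0,0),(0,1),(1,0),(5,3),(1,5)]⟩),(.r 0 ⟨1,[(1,0),(2,0),(0,0),(8,0),(1,1)]⟩ ⟨1,[(3,1),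
  (4,0),(2,0),(0,0),(4,0),(0,0)]⟩),.k,.k,[⟨0,[(9,0),(9,0)]⟩,⟨1,[(5,0),(2,0)]⟩,⟨2,[(3,0),(0,0),(1,0),
  (2,1),(10,0)]⟩,⟨0,[(0,0)]⟩]⟩) (.I [1,-1,0,1,0,0,-1] (.Q [0,0,2,0,0,0,0,-1,-1] (.p false [1,-1,1]
  [] (⟨0,[(10,0),(1,0)]⟩,⟨1,[(3,0),(5,0)]⟩) (.r (-1) ⟨3,[(2,1),(13,1),(1,0),(0,0)]⟩ ⟨7,[(0,1),(4,3),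
  (0,3),(0,2),(9,1),(1,0)]⟩) 0 (⟨0,[]⟩,⟨0,[]⟩) .k .k) (.K ⟨0,[1,-1,1],0,1,(⟨0,[(11,0),(1,0)]⟩,⟨1,
  [(4,0),(5,0)]⟩),(.r (-1) ⟨3,[(3,1),(13,1),(1,0),(0,0)]⟩ ⟨7,[(1,1),(4,3),(0,3),(0,2),(9,1),(1,
  0)]⟩),(.r (-2) ⟨3,[(3,1),(13,5),(1,2),(0,2)]⟩ ⟨0,[(1,0),(4,0),(0,0)]⟩),.k,.k,.k,[⟨0,[(11,0),(1,0),
  (0,0)]⟩,⟨0,[(0,0)]⟩,⟨4,[(2,1),(2,0),(0,5),(1,0),(2,1)]⟩,⟨45,[(0,17),(2,23),(4,0),(1,13),(1,20),(2,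
  11),(1,21)]⟩]⟩) (.R ⟨0,false,false,true,[0,0,1],[1,-1,1],[0,1,0,-1,0,0,1],(⟨0,[(11,0)]⟩,⟨1,[(10,
  0),(2,0),(0,0)]⟩),(⟨0,[(11,0),(1,0)]⟩,⟨1,[(4,0),(5,0)]⟩),⟨1,[(4,0),(5,0)]⟩,.k,(.r (-1) ⟨3,[(3,1),
  (13,1),(1,0),(0,0)]⟩ ⟨7,[(1,1),(4,3),(0,3),(0,2),(9,1),(1,0)]⟩),(.r (-1) ⟨3,[(3,1),(13,1),(1,0),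
  (0,0)]⟩ ⟨7,[(1,1),(4,3),(0,3),(0,2),(9,1),(1,0)]⟩),.k,.k,.k,⟨true,0,⟨0,[(21,0)]⟩,⟨0,[]⟩⟩,⟨false,1,
  ⟨3,[(8,0),(0,0),(2,1)]⟩,⟨3,[(0,1),(9,0),(2,0),(0,0)]⟩⟩,⟨true,0,⟨0,[(17,0)]⟩,⟨0,[(18,0)]⟩⟩,⟨false,
  1,⟨1,[(12,0),(4,1),(2,0)]⟩,⟨0,[(6,0),(13,0)]⟩⟩,⟨false,0,⟨0,[]⟩,⟨0,[]⟩⟩,⟨false,0,⟨0,[]⟩,⟨0,[]⟩⟩,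
  [.o ⟨false,1,⟨3,[(3,1),(2,0),(0,0),(2,1),(1,2),(4,2)]⟩,⟨0,[(2,0),(15,0)]⟩⟩,.a ⟨true,1,⟨9,[(3,5),
  (3,2),(0,0),(1,4),(1,0),(4,3),(2,1)]⟩,⟨0,[(2,0),(3,0)]⟩⟩ ⟨false,1,⟨3,[(3,1),(13,1),(1,0),(0,0)]⟩,
  ⟨3,[(1,1),(4,1),(1,0),(3,0)]⟩⟩ ⟨true,1,⟨1,[(3,0),(8,0),(3,0),(0,0)]⟩,⟨1,[(2,1),(3,1),(0,0),(2,
  0)]⟩⟩,.e ⟨false,1,⟨1,[(9,0),(7,1),(2,0)]⟩,⟨0,[(1,0)]⟩⟩ ⟨false,1,⟨1,[(3,0),(8,0),(3,0),(0,0)]⟩,⟨4,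
  [(1,0),(0,1),(3,3),(1,0),(1,0),(9,2)]⟩⟩,.o ⟨false,0,⟨1,[(7,0),(2,0)]⟩,⟨7,[(0,3),(7,0),(0,0),(1,3),
  (0,5)]⟩⟩]⟩)) (.K ⟨0,[1,0,-1],0,0,(⟨1,[(9,0),(2,0),(0,0)]⟩,⟨0,[(10,0)]⟩),.k,(.r (-1) ⟨5,[(1,1),(2,
  1),(2,0),(1,1),(6,3),(1,2),(0,1)]⟩ ⟨1,[(2,0),(2,0),(0,0),(8,0),(1,1)]⟩),(.r 0 ⟨5,[(1,1),(3,1),(0,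
  2),(0,1),(1,0),(7,3)]⟩ ⟨3,[(2,1),(13,1),(1,0),(0,0)]⟩),.k,.k,[⟨1,[(9,0),(2,0),(0,0),(6,1)]⟩,⟨0,
  [(0,0),(0,0),(3,0),(5,0),(3,0)]⟩,⟨1,[(5,0),(2,0),(0,0),(6,0)]⟩,⟨0,[(4,0),(12,0)]⟩]⟩))))) (.I [0,0,
  -1,-1,1,0,-1] (.I [0,-1,1,1,0,0,1] t1 (.R ⟨2,true,false,true,[0,1],[1,0,-1],[0,1,1,1],(⟨0,[]⟩,⟨0,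
  []⟩),(⟨1,[(7,0),(2,0),(0,0)]⟩,⟨0,[(8,0)]⟩),⟨0,[]⟩,.k,.k,.k,(.r 0 ⟨3,[(2,1),(0,1),(0,1),(1,0),(1,
  1),(0,0)]⟩ ⟨0,[(1,0)]⟩),.k,.k,⟨true,0,⟨3,[(2,1),(0,1),(0,1),(1,0),(1,1),(0,0)]⟩,⟨0,[(0,0),(12,
  0)]⟩⟩,⟨false,1,⟨3,[(5,0),(0,0),(1,3),(0,1)]⟩,⟨0,[(0,0),(1,0)]⟩⟩,⟨true,0,⟨0,[(19,0)]⟩,⟨0,[]⟩⟩,
  ⟨false,1,⟨3,[(0,1),(0,1),(2,1),(3,3),(0,0),(7,0)]⟩,⟨0,[(2,0)]⟩⟩,⟨false,0,⟨0,[(15,0)]⟩,⟨0,[(14,0),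
  (2,0)]⟩⟩,⟨true,0,⟨0,[(0,0),(2,0),(4,0),(0,0),(3,0)]⟩,⟨0,[(2,0),(11,0)]⟩⟩,[]⟩)) t2))

theorem ok : chk (cPU (-1) false) tree base = true := by
  decide +kernel

theorem closed {p a b c J l q : ℤ} {D dl : ℝ} {Cl : ℤ → ℤ → ℤ → ℤ → ℝ → Prop}
    (W : World p a b c J (-1) l q D dl Cl) (hE : KEmp p a b (-1) (P1 l p) Cl)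
    (g : G0 p a b c J D)
    {N R : ℤ} {I : ℝ} (hu : VFac p D Cl N R I)
    (s0 : (1 : ℝ) ≤ c)
    (s1 : (a : ℝ) ≤ b)
    (s2 : (b : ℝ) + 1 ≤ 2 * a)
    (s3 : D < 2 * b)
    (s4 : p - D - c < a) : False := by
  have g1 := g.a2
  have g2 := g.b2
  have g3 := g.pa
  have g4 := g.pb
  have g5 := g.J1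
  have g6 := g.JD
  have g7 := g.D2
  have g8 := g.ca
  have g9 := g.ca'
  have t1 := TF.ofV hu
  have i1 := t1.I0
  have i2 := hu.ID
  have i3 := t1.R1
  have i4 := t1.R2
  refine (val_PU W.toBase (UV.ofV hu)).sound W rfl (Nk := 0) (fun kf hkf hh => ?_) (kok_B hE (by simp [xv]) (by simp [xv]) 0) ?_ ok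
  · simp only [cPU, kfB, List.mem_cons, List.not_mem_nil, or_false] at hkf
    subst hkf
    exact absurd hh (by norm_num)
  · simp only [base, List.forall_mem_cons, List.not_mem_nil, false_imp_iff, implies_true,
      and_true, hld, xv, evg_cons, evg_nil, List.map_cons, List.map_nil, List.cons_append,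
      List.nil_append, if_true, if_false, Bool.false_eq_true]
    push_cast
    refine ⟨?_, ?_, ?_, ?_, ?_, ?_, ?_, ?_, ?_, ?_, ?_, ?_, ?_, ?_, ?_, ?_, ?_⟩ <;> linarith

end Helper25.KG.P1_35_m1_1_v
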