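import Pool.Agent.Helper11.CT.S2
import Pool.Agent.Helper25.KW.Pr

set_option autoImplicit false
set_option linter.unusedSectionVars false
set_option linter.unusedSimpArgs false

/-!
# The classes of `PL`
-/

noncomputable section

namespace Helper25.KG

open Helper25.KW Helper55.KE Helper11.CT

/-- general facts in real form -/
structure G0 (p a b c J : ℤ) (D : ℝ) : Prop where
  a2 : (2 : ℝ) ≤ a
  b2 : (2 : ℝ) ≤ b
  pa : 2 * (a : ℝ) + 1 ≤ p
  pb : 2 * (b : ℝ) + 1 ≤ p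
  J1 : (1 : ℝ) ≤ J
  JD : (J : ℝ) < D
  D2 : 2 * D < p
  ca : -(a : ℝ) + 1 ≤ c
  ca' : (c : ℝ) + 1 ≤ a

theorem G0.of {p a b c J ds l q : ℤ} {D dl : ℝ} {Cl : ℤ → ℤ → ℤ → ℤ → ℝ → Prop}
    (W : Base p a b c J ds l q D dl Cl) (hc : -a < c) : G0 p a b c J D where
  a2 := by exact_mod_cast W.ha
  b2 := by exact_mod_cast W.hb
  pa := by exact_mod_cast (by have := W.h2a; omega : 2 * a + 1 ≤ p)
  pb := by exact_mod_cast (by have := W.h2b; omega : 2 * b + 1 ≤ p)
  J1 := by exact_mod_cast W.hJ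
  JD := W.hJD
  D2 := W.hD
  ca := by exact_mod_cast (by omega : -a + 1 ≤ c)
  ca' := by exact_mod_cast (by have := W.hca'; omega : c + 1 ≤ a)

/-- the `K` form of `PL` -/
def kfB : List (ℕ × List (ℤ × ℤ × List ℤ)) :=
  [(0, [(-1, 0, [0, 0, 1]), (1, 0, [0, 0, 1]), (0, -1, [0, 1]), (0, 1, [0, 1])])]

/-- facts on an extra cluster in real form -/
structure TF (p : ℤ) (D : ℝ) (R : ℤ) (I : ℝ) : Prop where
  I0 : 0 < I
  ID : I < D
  R1 : -(p : ℝ) + 1 ≤ 2 * R
  R2 : 2 * (R : ℝ) + 1 ≤ p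

section

variable {p a b c J ds l q : ℤ} {D dl : ℝ} {Cl : ℤ → ℤ → ℤ → ℤ → ℝ → Prop}

theorem TF.ofU {N R : ℤ} {I : ℝ} (h : UFac p b D Cl N R I) : TF p D R I where
  I0 := h.I0
  ID := h.ID
  R1 := by exact_mod_cast (by have := h.R1; omega : -p + 1 ≤ 2 * R)
  R2 := by exact_mod_cast (by have := h.R2; omega : 2 * R + 1 ≤ p)

theorem TF.ofS {B N R : ℤ} {I : ℝ} (h : SFac p B D Cl N R I) : TF p D R I where
  I0 := h.I0
  ID := h.ID
  R1 := by exact_mod_cast (by have := h.R1; omega : -p + 1 ≤ 2 * R)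
  R2 := by exact_mod_cast (by have := h.R2; omega : 2 * R + 1 ≤ p)

theorem TF.ofV {N R : ℤ} {I : ℝ} (h : VFac p D Cl N R I) : TF p D R I where
  I0 := h.I0
  ID := by have := h.I0; have := h.ID; linarith
  R1 := by exact_mod_cast (by have := h.R1; omega : -p + 1 ≤ 2 * R)
  R2 := by exact_mod_cast (by have := h.R2; omega : 2 * R + 1 ≤ p)

theorem TF.ofY {N R : ℤ} {I : ℝ} (h : YFac p D Cl N R I) : TF p D R I where
  I0 := h.I0
  ID := by have := h.I0; have := h.ID; linarith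
  R1 := by exact_mod_cast (by have := h.R1; omega : -p + 1 ≤ 2 * R)
  R2 := by exact_mod_cast (by have := h.R2; omega : 2 * R + 1 ≤ p)

theorem kok_B (hE : KEmp p a b ds (P1 l p) Cl) {x : List ℝ}
    (hA : evg x [0, 1] = a) (hB : evg x [0, 0, 1] = b) (N : ℤ) :
    ∀ kf ∈ kfB, KOk p l Cl ds x N kf := by
  intro kf hkf
  simp only [kfB, List.mem_cons, List.not_mem_nil, or_false] at hkf
  subst hkf
  intro N' τ' X' R' I' hC ht h1 h2 h3 h4 _ hg
  simp only [List.forall_mem_cons, List.not_mem_nil, false_imp_iff, implies_true, and_true,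
    hA, hB] at hg
  push_cast at hg
  obtain ⟨g1, g2, g3, g4⟩ := hg
  exact hE hC ht h1 h2 ⟨h3, h4⟩ ⟨by linarith, by linarith, by linarith, by linarith⟩

/-! ### `u` and `v` -/

/-- class data of `u` (`tok = true`), `v`: variables `1 a b c p J ru | D iu` -/
def cPU (ds : ℤ) (tok : Bool) : Cls where
  nI := 7
  ds := ds
  P := [0, 0, 0, 0, 1]
  D := [0, 0, 0, 0, 0, 0, 0, 1]
  A := [0, 1]
  B := [0, 0, 1]
  C := [0, 0, 0, 1]
  J := [0, 0, 0, 0, 0, 1]
  gI := [[0, 0, 0, 0, 0, 0, 0, 1], [0, 0, 0, 0, 0, 1], [0, 0, 0, 0, 0, 0, 0, 0, 1]]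
  gX := [[], [0, 0, -1, 0, 0, Int.neg ds], match tok with | true => [0, 0, 1] | false => []]
  gR := [[], [0, 0, 1, 1], [0, 0, 0, 0, 0, 0, 1]]
  known := [1] :: [0, 1] :: (match tok with | true => [] | false => [[0, 2]])
  kf := kfB

theorem val_PU (W : Base p a b c J ds l q D dl Cl) {tok : Bool} {Nu Ru : ℤ} {Iu : ℝ}
    (hu : UV p b D Cl tok Nu Ru Iu) :
    Val (cPU ds tok) p a b c J ds l q D dl Cl [1, a, b, c, p, J, Ru] [D, Iu] [Nu] := by
  have hn : Int.neg ds = -ds := rfl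
  have hl := W.hl
  have hlp := W.hlp
  have u1 := hu.N0
  have u2 := hu.Np
  refine Val.mk W ⟨_, rfl⟩ rfl rfl ?_ rfl ?_ rfl ?_ rfl ?_ rfl ?_ rfl ?_ ?_ ?_
  · simp [cPU]
  · simp [cPU]
  · simp [cPU]
  · simp [cPU]
  · simp [cPU]
  · simp [cPU]
  · have g1 := W.cp
    have g2 := W.cl
    have g4 := hu.cl
    have e1 : -b - ds * J = -b + -(ds * J) := by ring
    rw [e1] at g2
    cases tok
    · simp only [cPU, GOk, List.length_cons, List.length_nil, List.replicate_succ,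
        List.replicate_zero, evg_cons, evg_nil, List.map_cons, List.map_nil,
        List.cons_append, List.nil_append, hn]
      refine ⟨⟨?_, ?_, ?_⟩, ⟨?_, ?_, ?_⟩, ⟨?_, ?_, ?_⟩, trivial⟩ <;>
        simp only [Int.cast_zero, Int.cast_one, zero_mul, one_mul, mul_one, zero_add, add_zero,
          Int.cast_neg, neg_mul, Int.cast_add, Int.cast_mul, Int.cast_id, add_comm c b] <;>
        first | exact g1 | (rw [add_comm c b] at g2; exact g2) | exact g4
    · simp only [cPU, GOk, List.length_cons, List.length_nil, List.replicate_succ,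
        List.replicate_zero, evg_cons, evg_nil, List.map_cons, List.map_nil,
        List.cons_append, List.nil_append, hn]
      refine ⟨⟨?_, ?_, ?_⟩, ⟨?_, ?_, ?_⟩, ⟨?_, ?_, ?_⟩, trivial⟩ <;>
        simp only [Int.cast_zero, Int.cast_one, zero_mul, one_mul, mul_one, zero_add, add_zero,
          Int.cast_neg, neg_mul, Int.cast_add, Int.cast_mul, Int.cast_id, add_comm c b] <;>
        first | exact g1 | (rw [add_comm c b] at g2; exact g2) | exact g4
  · intro w hw
    simp only [cPU, List.mem_cons] at hw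
    rcases hw with rfl | rfl | hw
    · simp only [evg_cons, evg_nil, Int.cast_one, one_mul, add_zero]
      exact nd_pos (by omega) hlp
    · simp only [evg_cons, evg_nil]
      simp only [Int.cast_zero, Int.cast_one, one_mul, zero_mul, zero_add, add_zero]
      exact nd_pos u1 u2
    · cases tok
      · simp only [List.mem_cons, List.not_mem_nil, or_false] at hw
        subst hw
        have u3 := hu.ID.2
        simp only [evg_cons, evg_nil]
        simp only [Int.cast_zero, zero_mul, zero_add, add_zero]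
        exact nd_pos (by push_cast; omega) (by push_cast; omega)
      · exact absurd hw (by simp)

/-! ### `v2` -/

/-- class data of `v2`: variables `1 a b c J ru | iu`, `p = 2 ru`, `D = 2 iu` -/
def cPW (ds : ℤ) : Cls where
  nI := 6
  ds := ds
  P := [0, 0, 0, 0, 0, 2]
  D := [0, 0, 0, 0, 0, 0, 2]
  A := [0, 1]
  B := [0, 0, 1]
  C := [0, 0, 0, 1]
  J := [0, 0, 0, 0, 1]
  gI := [[0, 0, 0, 0, 0, 0, 2], [0, 0, 0, 0, 1], [0, 0, 0, 0, 0, 0, 1]]
  gX := [[], [0, 0, -1, 0, Int.neg ds], []]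
  gR := [[], [0, 0, 1, 1], [0, 0, 0, 0, 0, 1]]
  known := [[1], [0, 1]]
  kf := kfB

theorem val_PW (W : Base p a b c J ds l q D dl Cl) {Nu Ru : ℤ} {Iu : ℝ}
    (hu : WFac p D Cl Nu Ru Iu) :
    Val (cPW ds) p a b c J ds l q D dl Cl [1, a, b, c, J, Ru] [Iu] [Nu] := by
  have hn : Int.neg ds = -ds := rfl
  have hl := W.hl
  have hlp := W.hlp
  have u1 := hu.N0
  have u2 := hu.Np
  have u3 := hu.ID
  have u4 := hu.R2
  refine Val.mk W ⟨_, rfl⟩ rfl rfl ?_ rfl ?_ rfl ?_ rfl ?_ rfl ?_ rfl ?_ ?_ ?_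
  · simp [cPW]; omega
  · simp [cPW]
  · simp [cPW]
  · simp [cPW]
  · simp [cPW]
  · simp [cPW]; linarith
  · have g1 := W.cp
    have g2 := W.cl
    have g4 := hu.cl
    have e2 : ((2 : ℤ) : ℝ) * Iu = D := by push_cast; linarith
    have e1 : -b - ds * J = -b + -(ds * J) := by ring
    rw [e1] at g2
    simp only [cPW, GOk, List.length_cons, List.length_nil, List.replicate_succ,
      List.replicate_zero, evg_cons, evg_nil, List.map_cons, List.map_nil,
      List.cons_append, List.nil_append, hn]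
    refine ⟨⟨?_, ?_, ?_⟩, ⟨?_, ?_, ?_⟩, ⟨?_, ?_, ?_⟩, trivial⟩ <;>
      simp only [Int.cast_zero, Int.cast_one, zero_mul, one_mul, mul_one, zero_add, add_zero,
        Int.cast_neg, neg_mul, Int.cast_add, Int.cast_mul, Int.cast_id, add_comm c b, e2] <;>
      first | exact g1 | (rw [add_comm c b] at g2; exact g2) | exact g4
  · intro w hw
    simp only [cPW, List.mem_cons, List.not_mem_nil, or_false] at hw
    rcases hw with rfl | rfl
    · simp only [evg_cons, evg_nil]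
      simp only [Int.cast_zero, Int.cast_one, Int.cast_ofNat, one_mul, zero_mul, zero_add, add_zero]
      exact nd_pos (by omega) hlp
    · simp only [evg_cons, evg_nil]
      simp only [Int.cast_zero, Int.cast_one, Int.cast_ofNat, one_mul, zero_mul, zero_add, add_zero]
      exact nd_pos u1 (by omega)

/-! ### `u` and `w` -/

/-- class data of `u`, `w` (`X + R = a`): variables `1 a b c p J ru rw | D iu iw` -/
def cPS (ds : ℤ) : Cls where
  nI := 8
  ds := ds
  P := [0, 0, 0, 0, 1]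
  D := [0, 0, 0, 0, 0, 0, 0, 0, 1]
  A := [0, 1]
  B := [0, 0, 1]
  C := [0, 0, 0, 1]
  J := [0, 0, 0, 0, 0, 1]
  gI := [[0, 0, 0, 0, 0, 0, 0, 0, 1], [0, 0, 0, 0, 0, 1], [0, 0, 0, 0, 0, 0, 0, 0, 0, 1],
    [0, 0, 0, 0, 0, 0, 0, 0, 0, 0, 1]]
  gX := [[], [0, 0, -1, 0, 0, Int.neg ds], [0, 0, 1], [0, 1, 0, 0, 0, 0, 0, -1]]
  gR := [[], [0, 0, 1, 1], [0, 0, 0, 0, 0, 0, 1], [0, 0, 0, 0, 0, 0, 0, 1]]
  known := [[1], [0, 1], [0, 0, 1]]
  kf := kfB

theorem val_PS (W : Base p a b c J ds l q D dl Cl) {Nu Ru Nw Rw : ℤ} {Iu Iw : ℝ}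
    (hu : UFac p b D Cl Nu Ru Iu) (hw : SFac p a D Cl Nw Rw Iw) :
    Val (cPS ds) p a b c J ds l q D dl Cl [1, a, b, c, p, J, Ru, Rw] [D, Iu, Iw] [Nu, Nw] := by
  have hn : Int.neg ds = -ds := rfl
  have hl := W.hl
  have hlp := W.hlp
  have u1 := hu.N0
  have u2 := hu.Np
  have v1 := hw.N0
  have v2 := hw.Np
  refine Val.mk W ⟨_, rfl⟩ rfl rfl ?_ rfl ?_ rfl ?_ rfl ?_ rfl ?_ rfl ?_ ?_ ?_
  · simp [cPS]
  · simp [cPS]
  · simp [cPS]
  · simp [cPS]
  · simp [cPS]
  · simp [cPS]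
  · have g1 := W.cp
    have g2 := W.cl
    have g4 := hu.cl
    have g5 := hw.cl
    rw [sub_eq_add_neg] at g5
    have e1 : -b - ds * J = -b + -(ds * J) := by ring
    rw [e1] at g2
    simp only [cPS, GOk, List.length_cons, List.length_nil, List.replicate_succ,
      List.replicate_zero, evg_cons, evg_nil, List.map_cons, List.map_nil,
      List.cons_append, List.nil_append, hn]
    refine ⟨⟨?_, ?_, ?_⟩, ⟨?_, ?_, ?_⟩, ⟨?_, ?_, ?_⟩, ⟨?_, ?_, ?_⟩, trivial⟩ <;>
      simp only [Int.cast_zero, Int.cast_one, zero_mul, one_mul, mul_one, zero_add, add_zero,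
        Int.cast_neg, neg_mul, Int.cast_add, Int.cast_mul, Int.cast_id, add_comm c b] <;>
      first | exact g1 | (rw [add_comm c b] at g2; exact g2) | exact g4 | exact g5
  · intro w hw
    simp only [cPS, List.mem_cons, List.not_mem_nil, or_false] at hw
    rcases hw with rfl | rfl | rfl
    · simp only [evg_cons, evg_nil]
      simp only [Int.cast_zero, Int.cast_one, Int.cast_ofNat, one_mul, zero_mul, zero_add, add_zero]
      exact nd_pos (by omega) hlp
    · simp only [evg_cons, evg_nil]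
      simp only [Int.cast_zero, Int.cast_one, Int.cast_ofNat, one_mul, zero_mul, zero_add, add_zero]
      exact nd_pos u1 u2
    · simp only [evg_cons, evg_nil]
      simp only [Int.cast_zero, Int.cast_one, Int.cast_ofNat, one_mul, zero_mul, zero_add, add_zero]
      exact nd_pos v1 v2

/-! ### `u` and `y` -/

/-- class data of `u`, `y` (`X + R = 0`): variables `1 a b c p J ru rw | D iu iw` -/
def cPY (ds : ℤ) : Cls where
  nI := 8
  ds := ds
  P := [0, 0, 0, 0, 1]
  D := [0, 0, 0, 0, 0, 0, 0, 0, 1]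
  A := [0, 1]
  B := [0, 0, 1]
  C := [0, 0, 0, 1]
  J := [0, 0, 0, 0, 0, 1]
  gI := [[0, 0, 0, 0, 0, 0, 0, 0, 1], [0, 0, 0, 0, 0, 1], [0, 0, 0, 0, 0, 0, 0, 0, 0, 1],
    [0, 0, 0, 0, 0, 0, 0, 0, 0, 0, 1]]
  gX := [[], [0, 0, -1, 0, 0, Int.neg ds], [0, 0, 1], [0, 0, 0, 0, 0, 0, 0, -1]]
  gR := [[], [0, 0, 1, 1], [0, 0, 0, 0, 0, 0, 1], [0, 0, 0, 0, 0, 0, 0, 1]]
  known := [[1], [0, 1], [0, 0, 1], [0, 0, 2]]
  kf := kfB

theorem val_PY (W : Base p a b c J ds l q D dl Cl) {Nu Ru Nw Rw : ℤ} {Iu Iw : ℝ}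
    (hu : UFac p b D Cl Nu Ru Iu) (hw : YFac p D Cl Nw Rw Iw) :
    Val (cPY ds) p a b c J ds l q D dl Cl [1, a, b, c, p, J, Ru, Rw] [D, Iu, Iw] [Nu, Nw] := by
  have hn : Int.neg ds = -ds := rfl
  have hl := W.hl
  have hlp := W.hlp
  have u1 := hu.N0
  have u2 := hu.Np
  have v1 := hw.N0
  have v2 := hw.Np
  refine Val.mk W ⟨_, rfl⟩ rfl rfl ?_ rfl ?_ rfl ?_ rfl ?_ rfl ?_ rfl ?_ ?_ ?_
  · simp [cPY]
  · simp [cPY]
  · simp [cPY]
  · simp [cPY]
  · simp [cPY]
  · simp [cPY]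
  · have g1 := W.cp
    have g2 := W.cl
    have g4 := hu.cl
    have g5 := hw.cl
    have e1 : -b - ds * J = -b + -(ds * J) := by ring
    rw [e1] at g2
    simp only [cPY, GOk, List.length_cons, List.length_nil, List.replicate_succ,
      List.replicate_zero, evg_cons, evg_nil, List.map_cons, List.map_nil,
      List.cons_append, List.nil_append, hn]
    refine ⟨⟨?_, ?_, ?_⟩, ⟨?_, ?_, ?_⟩, ⟨?_, ?_, ?_⟩, ⟨?_, ?_, ?_⟩, trivial⟩ <;>
      simp only [Int.cast_zero, Int.cast_one, zero_mul, one_mul, mul_one, zero_add, add_zero,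
        Int.cast_neg, neg_mul, Int.cast_add, Int.cast_mul, Int.cast_id, add_comm c b] <;>
      first | exact g1 | (rw [add_comm c b] at g2; exact g2) | exact g4 | exact g5
  · intro w hw
    simp only [cPY, List.mem_cons, List.not_mem_nil, or_false] at hw
    rcases hw with rfl | rfl | rfl | rfl
    · simp only [evg_cons, evg_nil]
      simp only [Int.cast_zero, Int.cast_one, Int.cast_ofNat, one_mul, zero_mul, zero_add, add_zero]
      exact nd_pos (by omega) hlp
    · simp only [evg_cons, evg_nil]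
      simp only [Int.cast_zero, Int.cast_one, Int.cast_ofNat, one_mul, zero_mul, zero_add, add_zero]
      exact nd_pos u1 u2
    · simp only [evg_cons, evg_nil]
      simp only [Int.cast_zero, Int.cast_one, Int.cast_ofNat, one_mul, zero_mul, zero_add, add_zero]
      exact nd_pos v1 (by omega)
    · simp only [evg_cons, evg_nil]
      simp only [Int.cast_zero, Int.cast_one, Int.cast_ofNat, one_mul, zero_mul, zero_add, add_zero]
      exact nd_pos (by omega) (by omega)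

/-! ### `u` and `y2` -/

/-- class data of `u`, `y2`: variables `1 a b c J ru rw | iu iw`, `p = 2 rw`, `D = 2 iw` -/
def cPZ (ds : ℤ) : Cls where
  nI := 7
  ds := ds
  P := [0, 0, 0, 0, 0, 0, 2]
  D := [0, 0, 0, 0, 0, 0, 0, 0, 2]
  A := [0, 1]
  B := [0, 0, 1]
  C := [0, 0, 0, 1]
  J := [0, 0, 0, 0, 1]
  gI := [[0, 0, 0, 0, 0, 0, 0, 0, 2], [0, 0, 0, 0, 1], [0, 0, 0, 0, 0, 0, 0, 1],
    [0, 0, 0, 0, 0, 0, 0, 0, 1]]
  gX := [[], [0, 0, -1, 0, Int.neg ds], [0, 0, 1], [0, 0, 0, 0, 0, 0, -1]]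
  gR := [[], [0, 0, 1, 1], [0, 0, 0, 0, 0, 1], [0, 0, 0, 0, 0, 0, 1]]
  known := [[1], [0, 1], [0, 0, 1]]
  kf := kfB

theorem val_PZ (W : Base p a b c J ds l q D dl Cl) {Nu Ru Nw Rw : ℤ} {Iu Iw : ℝ}
    (hu : UFac p b D Cl Nu Ru Iu) (hw : ZFac p D Cl Nw Rw Iw) :
    Val (cPZ ds) p a b c J ds l q D dl Cl [1, a, b, c, J, Ru, Rw] [Iu, Iw] [Nu, Nw] := by
  have hn : Int.neg ds = -ds := rfl
  have hl := W.hl
  have hlp := W.hlp
  have u1 := hu.N0
  have u2 := hu.Np
  have v1 := hw.N0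
  have v2 := hw.Np
  have v3 := hw.ID
  have v4 := hw.R2
  refine Val.mk W ⟨_, rfl⟩ rfl rfl ?_ rfl ?_ rfl ?_ rfl ?_ rfl ?_ rfl ?_ ?_ ?_
  · simp [cPZ]; omega
  · simp [cPZ]
  · simp [cPZ]
  · simp [cPZ]
  · simp [cPZ]
  · simp [cPZ]; linarith
  · have g1 := W.cp
    have g2 := W.cl
    have g4 := hu.cl
    have g5 := hw.cl
    have e2 : ((2 : ℤ) : ℝ) * Iw = D := by push_cast; linarith
    have e1 : -b - ds * J = -b + -(ds * J) := by ring
    rw [e1] at g2
    simp only [cPZ, GOk, List.length_cons, List.length_nil, List.replicate_succ,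
      List.replicate_zero, evg_cons, evg_nil, List.map_cons, List.map_nil,
      List.cons_append, List.nil_append, hn]
    refine ⟨⟨?_, ?_, ?_⟩, ⟨?_, ?_, ?_⟩, ⟨?_, ?_, ?_⟩, ⟨?_, ?_, ?_⟩, trivial⟩ <;>
      simp only [Int.cast_zero, Int.cast_one, zero_mul, one_mul, mul_one, zero_add, add_zero,
        Int.cast_neg, neg_mul, Int.cast_add, Int.cast_mul, Int.cast_id, add_comm c b, e2] <;>
      first | exact g1 | (rw [add_comm c b] at g2; exact g2) | exact g4 | exact g5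
  · intro w hw
    simp only [cPZ, List.mem_cons, List.not_mem_nil, or_false] at hw
    rcases hw with rfl | rfl | rfl
    · simp only [evg_cons, evg_nil]
      simp only [Int.cast_zero, Int.cast_one, Int.cast_ofNat, one_mul, zero_mul, zero_add, add_zero]
      exact nd_pos (by omega) hlp
    · simp only [evg_cons, evg_nil]
      simp only [Int.cast_zero, Int.cast_one, Int.cast_ofNat, one_mul, zero_mul, zero_add, add_zero]
      exact nd_pos u1 u2
    · simp only [evg_cons, evg_nil]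
      simp only [Int.cast_zero, Int.cast_one, Int.cast_ofNat, one_mul, zero_mul, zero_add, add_zero]
      exact nd_pos v1 (by omega)

/-! ### `v2` and `h` -/

/-- class data of `v2`, `h` (`X = a + b`): variables `1 a b c J ru rw | iu iw`, `p = 2 ru`, `D = 2 iu` -/
def cPH (ds : ℤ) : Cls where
  nI := 7
  ds := ds
  P := [0, 0, 0, 0, 0, 2]
  D := [0, 0, 0, 0, 0, 0, 0, 2]
  A := [0, 1]
  B := [0, 0, 1]
  C := [0, 0, 0, 1]
  J := [0, 0, 0, 0, 1]
  gI := [[0, 0, 0, 0, 0, 0, 0, 2], [0, 0, 0, 0, 1], [0, 0, 0, 0, 0, 0, 0, 1],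
    [0, 0, 0, 0, 0, 0, 0, 0, 1]]
  gX := [[], [0, 0, -1, 0, Int.neg ds], [], [0, 1, 1]]
  gR := [[], [0, 0, 1, 1], [0, 0, 0, 0, 0, 1], [0, 0, 0, 0, 0, 0, 1]]
  known := [[1], [0, 1], [0, 0, 1]]
  kf := kfB

theorem val_PH (W : Base p a b c J ds l q D dl Cl) {Nu Ru Nw Rw : ℤ} {Iu Iw : ℝ}
    (hu : WFac p D Cl Nu Ru Iu) (hw : UFac p (a + b) D Cl Nw Rw Iw) :
    Val (cPH ds) p a b c J ds l q D dl Cl [1, a, b, c, J, Ru, Rw] [Iu, Iw] [Nu, Nw] := by
  have hn : Int.neg ds = -ds := rfl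
  have hl := W.hl
  have hlp := W.hlp
  have u1 := hu.N0
  have u2 := hu.Np
  have v1 := hw.N0
  have v2 := hw.Np
  have u3 := hu.ID
  have u4 := hu.R2
  refine Val.mk W ⟨_, rfl⟩ rfl rfl ?_ rfl ?_ rfl ?_ rfl ?_ rfl ?_ rfl ?_ ?_ ?_
  · simp [cPH]; omega
  · simp [cPH]
  · simp [cPH]
  · simp [cPH]
  · simp [cPH]
  · simp [cPH]; linarith
  · have g1 := W.cp
    have g2 := W.cl
    have g4 := hu.cl
    have g5 := hw.cl
    have e2 : ((2 : ℤ) : ℝ) * Iu = D := by push_cast; linarith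
    have e1 : -b - ds * J = -b + -(ds * J) := by ring
    rw [e1] at g2
    simp only [cPH, GOk, List.length_cons, List.length_nil, List.replicate_succ,
      List.replicate_zero, evg_cons, evg_nil, List.map_cons, List.map_nil,
      List.cons_append, List.nil_append, hn]
    refine ⟨⟨?_, ?_, ?_⟩, ⟨?_, ?_, ?_⟩, ⟨?_, ?_, ?_⟩, ⟨?_, ?_, ?_⟩, trivial⟩ <;>
      simp only [Int.cast_zero, Int.cast_one, zero_mul, one_mul, mul_one, zero_add, add_zero,
        Int.cast_neg, neg_mul, Int.cast_add, Int.cast_mul, Int.cast_id, add_comm c b, e2] <;>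
      first | exact g1 | (rw [add_comm c b] at g2; exact g2) | exact g4 | exact g5
  · intro w hw
    simp only [cPH, List.mem_cons, List.not_mem_nil, or_false] at hw
    rcases hw with rfl | rfl | rfl
    · simp only [evg_cons, evg_nil]
      simp only [Int.cast_zero, Int.cast_one, Int.cast_ofNat, one_mul, zero_mul, zero_add, add_zero]
      exact nd_pos (by omega) hlp
    · simp only [evg_cons, evg_nil]
      simp only [Int.cast_zero, Int.cast_one, Int.cast_ofNat, one_mul, zero_mul, zero_add, add_zero]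
      exact nd_pos u1 (by omega)
    · simp only [evg_cons, evg_nil]
      simp only [Int.cast_zero, Int.cast_one, Int.cast_ofNat, one_mul, zero_mul, zero_add, add_zero]
      exact nd_pos v1 v2

end

end Helper25.KG
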