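import Pool.Agent.Helper25.KG.PL

set_option autoImplicit false
set_option linter.unusedVariables false

namespace Helper25.KG.Pm1_1_1_0_u

open Helper11.CT Helper25.KW Helper25.KG

def base : List Con :=
  [(false,[0,1,0,1,0,0,0,-1]),
  (false,[0,0,2,0,-1,0,0,1]),
  (true,[0,0,0,0,1,0,-2]),
  (true,[0,0,0,0,1,0,2]),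
  (false,[0,0,0,0,0,0,0,1,-1]),
  (false,[0,0,0,0,0,0,0,0,1]),
  (false,[0,0,0,0,1,0,0,-2]),
  (false,[0,0,0,0,0,-1,0,1]),
  (true,[0,0,0,0,0,1]),
  (true,[0,1,-1,1]),
  (true,[0,1,0,1]),
  (true,[0,0,0,-1]),
  (true,[0,0,-2,0,1]),
  (true,[0,-2,0,0,1]),
  (true,[-1,0,1]),
  (true,[-1,1])]

def t0 : Tre :=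
  (.I [0,0,1,1,0,0,-1] (.Q [0,-1,-3,0,2,0,-1,0,-1] (.p false [0,0,1] [] (⟨0,[(9,0)]⟩,⟨0,[(8,0)]⟩)
  .k 0 (⟨0,[]⟩,⟨0,[]⟩) .k .k) (.Q [0,0,0,0,0,-1,0,0,1] (.ed false [1,-1,1] .k) (.I [0,0,0,1,0,0,-1]
  (.K ⟨0,[1,0,-1],0,0,(⟨0,[(11,0)]⟩,⟨0,[(12,0)]⟩),.k,(.x 0 ⟨0,[(15,0)]⟩ ⟨3,[(9,0),(0,0),(2,1),(0,
  3)]⟩),(.r 0 ⟨0,[(3,0)]⟩ ⟨11,[(4,3),(4,0),(0,6),(7,3)]⟩),.k,.k,[⟨0,[(8,0),(3,0),(0,0)]⟩,⟨0,[(11,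
  0)]⟩,⟨1,[(1,1),(3,0),(1,1),(0,0),(1,0),(7,1)]⟩,⟨0,[(0,0),(3,0),(2,0),(0,0),(2,0)]⟩]⟩) (.R ⟨0,
  false,false,true,[1,0,-1],[0,1],[0,1,2,1],(⟨0,[(11,0)]⟩,⟨0,[(12,0)]⟩),(⟨0,[(15,0)]⟩,⟨0,[(14,0)]⟩),
  ⟨0,[(1,0),(3,0)]⟩,.k,.k,(.x 0 ⟨0,[(15,0)]⟩ ⟨3,[(9,0),(0,0),(2,1),(0,3)]⟩),(.x 0 ⟨0,[(15,0)]⟩ ⟨3,
  [(9,0),(0,0),(2,1),(0,3)]⟩),.k,.k,⟨true,0,⟨7,[(8,3),(0,0),(0,0),(2,1)]⟩,⟨0,[]⟩⟩,⟨false,1,⟨1,[(12,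
  1),(0,0),(5,0)]⟩,⟨0,[(11,0)]⟩⟩,⟨true,(-1),⟨0,[(0,0),(5,0),(1,0)]⟩,⟨0,[(3,0),(0,0)]⟩⟩,⟨false,0,⟨1,
  [(0,1),(0,1),(3,0),(0,1),(1,0),(11,0)]⟩,⟨0,[(2,0),(5,0),(9,0)]⟩⟩,⟨false,0,⟨0,[]⟩,⟨0,[]⟩⟩,⟨false,0,
  ⟨0,[]⟩,⟨0,[]⟩⟩,[.o ⟨false,0,⟨0,[(7,0)]⟩,⟨1,[(0,1),(8,0),(10,0)]⟩⟩,.o ⟨false,1,⟨3,[(6,1),(2,0),(0,
  0),(2,0),(6,0)]⟩,⟨0,[(18,0)]⟩⟩,.o ⟨false,1,⟨23,[(2,5),(1,1),(2,3),(2,2),(0,17),(1,6),(8,1)]⟩,⟨1,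
  [(1,1),(3,0),(2,0),(4,0)]⟩⟩,.a ⟨true,0,⟨0,[(11,0)]⟩,⟨0,[(12,0)]⟩⟩ ⟨false,0,⟨5,[(3,1),(2,1),(1,1),
  (1,0),(9,0)]⟩,⟨5,[(0,1),(3,1),(4,0),(10,2)]⟩⟩ ⟨true,0,⟨0,[(7,0),(4,0)]⟩,⟨0,[(11,0),(6,0)]⟩⟩]⟩))
  (.Q [0,-1,-1,1,1,0,-1,0,-1] (.p false [0,0,1] [] (⟨0,[(11,0)]⟩,⟨0,[(10,0)]⟩) .k 0 (⟨0,[]⟩,⟨0,[]⟩)
  .k .k) (.Q [0,1,1,0,0,0,1,-1,1] (.p true [0,0,1] [1] (⟨0,[(12,0)]⟩,⟨0,[(11,0)]⟩) .k 1 (⟨0,[]⟩,⟨0,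
  []⟩) .k .k) (.K ⟨0,[1,0,-1],0,0,(⟨0,[(12,0)]⟩,⟨0,[(13,0)]⟩),.k,(.x 0 ⟨0,[(16,0)]⟩ ⟨3,[(10,0),(0,
  0),(2,1),(0,3)]⟩),(.r 0 ⟨0,[(4,0)]⟩ ⟨11,[(5,3),(4,0),(0,6),(7,3)]⟩),.k,.k,[⟨0,[(9,0),(3,0),(0,
  0)]⟩,⟨0,[(12,0)]⟩,⟨0,[(0,0)]⟩,⟨1,[(1,1),(3,2),(2,2),(0,4),(7,0)]⟩]⟩) (.Q [0,0,3,0,-1,0,0,0,1] (.p
  true [0,0,1] [] (⟨0,[(13,0)]⟩,⟨0,[(12,0)]⟩) .k 0 (⟨0,[]⟩,⟨0,[]⟩) .k .k) (.Q [0,-1,1,0,1,0,1,-1,1]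
  (.p true [0,0,1] [1] (⟨0,[(14,0)]⟩,⟨0,[(13,0)]⟩) .k 1 (⟨0,[]⟩,⟨0,[]⟩) .k .k) (.R ⟨0,false,false,
  true,[1,-1],[1,0,-1],[0,0,-1,-2],(⟨0,[(17,0)]⟩,⟨0,[(18,0)]⟩),(⟨0,[(14,0)]⟩,⟨0,[(15,0)]⟩),⟨0,[(8,
  0)]⟩,.k,.k,(.r (-1) ⟨5,[(7,3),(4,0),(0,0),(7,3)]⟩ ⟨2,[(6,1),(2,1),(1,1),(1,0),(9,0)]⟩),(.r (-1)
  ⟨11,[(7,3),(4,0),(0,6),(7,3)]⟩ ⟨0,[(6,0)]⟩),.k,.k,⟨false,2,⟨5,[(7,3),(4,0),(0,3),(7,3),(1,2)]⟩,⟨0,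
  [(1,0),(0,0),(7,0),(8,0)]⟩⟩,⟨true,1,⟨10,[(2,6),(2,0),(1,3),(2,7),(2,3),(0,2),(1,0)]⟩,⟨0,[(1,0)]⟩⟩,
  ⟨true,0,⟨0,[(21,0)]⟩,⟨0,[(20,0)]⟩⟩,⟨false,0,⟨0,[(2,0),(7,0)]⟩,⟨11,[(0,9),(6,5),(3,9),(0,1),(0,2),
  (1,1),(7,0)]⟩⟩,⟨false,0,⟨0,[]⟩,⟨0,[]⟩⟩,⟨false,0,⟨0,[]⟩,⟨0,[]⟩⟩,[.o ⟨false,0,⟨0,[(2,0),(7,0),(10,
  0),(3,0)]⟩,⟨0,[(0,0)]⟩⟩,.o ⟨false,0,⟨0,[(2,0),(7,0),(10,0)]⟩,⟨0,[(0,0),(24,0)]⟩⟩,.o ⟨false,0,⟨7,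
  [(11,3),(0,0),(0,0),(2,1)]⟩,⟨1,[(16,0),(5,0)]⟩⟩,.a ⟨true,(-1),⟨0,[(11,0)]⟩,⟨0,[(22,0)]⟩⟩ ⟨true,1,
  ⟨5,[(7,3),(4,0),(0,0),(7,3)]⟩,⟨0,[(9,0),(1,0)]⟩⟩ ⟨false,1,⟨6,[(2,4),(2,1),(1,2),(2,4),(8,0),(5,
  0)]⟩,⟨0,[(0,0),(10,0)]⟩⟩]⟩) (.K ⟨0,[1,0,-1],0,(-1),(⟨0,[(14,0)]⟩,⟨0,[(15,0)]⟩),.k,(.x 0 ⟨0,[(18,
  0)]⟩ ⟨3,[(12,0),(0,0),(2,1),(0,3)]⟩),(.r 0 ⟨0,[(6,0)]⟩ ⟨11,[(7,3),(4,0),(0,6),(7,3)]⟩),.k,.k,[⟨11,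
  [(1,7),(10,0),(0,0),(1,3),(0,5)]⟩,⟨0,[(14,0)]⟩,⟨5,[(1,1),(10,0),(0,3),(1,3),(0,2),(8,5)]⟩,⟨0,[(0,
  0)]⟩]⟩)) (.R ⟨0,false,false,true,[0,0,1],[0,1],[1,1,1,1],(⟨0,[(14,0)]⟩,⟨0,[(13,0)]⟩),(⟨0,[(17,
  0)]⟩,⟨0,[(16,0)]⟩),⟨0,[(3,0)]⟩,.k,.k,(.r (-1) ⟨11,[(6,3),(4,0),(0,6),(7,3)]⟩ ⟨0,[(5,0)]⟩),(.r
  (-1) ⟨11,[(6,3),(4,0),(0,6),(7,3)]⟩ ⟨0,[(5,0)]⟩),.k,.k,⟨true,0,⟨0,[]⟩,⟨7,[(10,3),(0,0),(0,0),(2,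
  1)]⟩⟩,⟨false,1,⟨0,[(0,0)]⟩,⟨3,[(10,3),(0,0),(0,0),(1,3),(0,1)]⟩⟩,⟨true,(-1),⟨0,[(1,0),(7,1),(0,0),
  (3,0),(5,0)]⟩,⟨11,[(6,3),(4,0),(0,6),(7,3)]⟩⟩,⟨false,0,⟨0,[(1,0),(7,0)]⟩,⟨7,[(10,3),(0,0),(0,4),
  (1,7),(0,1),(4,7),(1,3)]⟩⟩,⟨false,0,⟨0,[]⟩,⟨0,[]⟩⟩,⟨false,0,⟨0,[]⟩,⟨0,[]⟩⟩,[.o ⟨false,0,⟨0,[(9,
  0)]⟩,⟨3,[(11,0),(0,0),(7,3),(1,1)]⟩⟩,.o ⟨false,1,⟨3,[(8,1),(2,0),(0,0),(2,0),(6,0)]⟩,⟨0,[(20,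
  0)]⟩⟩,.a ⟨true,0,⟨7,[(10,3),(0,0),(0,0),(1,7),(0,1)]⟩,⟨0,[(0,0),(9,0)]⟩⟩ ⟨false,0,⟨5,[(5,1),(2,1),
  (1,1),(1,0),(9,0)]⟩,⟨11,[(6,3),(4,0),(0,0),(7,3),(1,5)]⟩⟩ ⟨true,0,⟨0,[(0,0),(8,0),(0,0)]⟩,⟨7,[(10,
  3),(0,0),(0,0),(1,7),(0,1),(4,7)]⟩⟩,.o ⟨false,0,⟨0,[(10,0),(3,0),(0,0)]⟩,⟨17,[(0,9),(3,1),(7,0),
  (0,5),(1,2),(8,1)]⟩⟩]⟩))) (.Q [0,1,-3,0,1,0,-1,0,-1] (.p false [0,0,1] [] (⟨0,[(12,0)]⟩,⟨0,[(11,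
  0)]⟩) .k 0 (⟨0,[]⟩,⟨0,[]⟩) .k .k) (.K ⟨0,[1,0,-1],0,0,(⟨0,[(12,0)]⟩,⟨0,[(13,0)]⟩),.k,(.x 0 ⟨0,
  [(16,0)]⟩ ⟨3,[(10,0),(0,0),(2,1),(0,3)]⟩),(.r 0 ⟨0,[(4,0)]⟩ ⟨11,[(5,3),(4,0),(0,6),(7,3)]⟩),.k,.k,
  [⟨0,[(9,0),(3,0),(0,0)]⟩,⟨0,[(12,0)]⟩,⟨15,[(1,11),(2,3),(2,3),(2,0),(0,4),(1,3),(0,5)]⟩,⟨0,[(0,0),
  (8,0)]⟩]⟩) (.R ⟨0,false,false,true,[1,-1],[0,0,1],[1,1,1],(⟨0,[(15,0)]⟩,⟨0,[(16,0)]⟩),(⟨0,[(13,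
  0)]⟩,⟨0,[(12,0)]⟩),⟨0,[(6,0)]⟩,.k,.k,(.r (-1) ⟨5,[(5,3),(4,0),(0,0),(7,3)]⟩ ⟨2,[(4,1),(2,1),(1,1),
  (1,0),(9,0)]⟩),(.x 0 ⟨0,[(16,0)]⟩ ⟨3,[(10,0),(0,0),(2,1),(0,3)]⟩),.k,.k,⟨true,0,⟨0,[(4,0),(14,
  0)]⟩,⟨0,[(0,0),(4,0),(1,0),(4,0)]⟩⟩,⟨false,1,⟨1,[(13,1),(0,0),(5,0)]⟩,⟨0,[(12,0)]⟩⟩,⟨true,(-1),⟨0,
  [(8,0),(0,0)]⟩,⟨7,[(5,3),(4,0),(0,0),(8,1)]⟩⟩,⟨false,0,⟨11,[(0,7),(4,3),(1,9),(3,1),(1,3),(0,0),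
  (6,0)]⟩,⟨0,[(3,0),(5,0),(9,0)]⟩⟩,⟨false,0,⟨0,[]⟩,⟨0,[]⟩⟩,⟨false,0,⟨0,[]⟩,⟨0,[]⟩⟩,[.e ⟨false,0,⟨0,
  [(23,0)]⟩,⟨1,[(20,0),(0,0)]⟩⟩ ⟨false,0,⟨2,[(0,1),(0,0),(3,2),(1,2),(9,0)]⟩,⟨1,[(10,0),(1,1),(8,
  0)]⟩⟩,.o ⟨false,0,⟨21,[(0,11),(0,3),(3,5),(1,7),(3,2),(1,5),(0,6)]⟩,⟨1,[(3,0),(0,0),(3,0),(3,0),
  (6,1)]⟩⟩,.o ⟨false,0,⟨7,[(9,3),(0,0),(0,0),(2,1)]⟩,⟨1,[(14,0),(5,0)]⟩⟩,.a ⟨true,(-1),⟨0,[(9,0)]⟩,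
  ⟨0,[(20,0)]⟩⟩ ⟨false,0,⟨0,[]⟩,⟨3,[(10,0),(0,0),(9,1)]⟩⟩ ⟨true,0,⟨2,[(0,1),(0,0),(3,2),(1,2),(9,
  0)]⟩,⟨0,[(4,0),(7,0),(6,0)]⟩⟩]⟩)))) (.Q [0,0,2,0,-1,0,0,0,1] (.p true [0,0,1] [] (⟨0,[(10,0)]⟩,⟨0,
  [(9,0)]⟩) .k 0 (⟨0,[]⟩,⟨0,[]⟩) .k .k) (.K ⟨0,[0,0,1],(-1),(-1),(⟨0,[(11,0)]⟩,⟨0,[(10,0)]⟩),.k,(.r
  (-1) ⟨11,[(3,3),(4,0),(0,6),(7,3)]⟩ ⟨0,[(2,0)]⟩),(.x (-1) ⟨3,[(8,0),(0,0),(2,1),(0,3)]⟩ ⟨0,[(14,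
  0)]⟩),.k,.k,[⟨3,[(8,0),(0,0),(0,3),(1,1)]⟩,⟨0,[(0,0)]⟩,⟨5,[(3,1),(2,3),(1,2),(1,5),(1,0),(8,1)]⟩,
  ⟨7,[(1,5),(1,1),(5,0),(1,1),(3,3),(3,0)]⟩]⟩) (.Q [0,1,1,0,-1,0,1,-1,1] (.p true [0,0,1] [1] (⟨0,
  [(11,0)]⟩,⟨0,[(10,0)]⟩) .k 1 (⟨0,[]⟩,⟨0,[]⟩) .k .k) (.K ⟨0,[1,0,-1],0,1,(⟨0,[(11,0)]⟩,⟨0,[(12,
  0)]⟩),.k,(.x 0 ⟨0,[(15,0)]⟩ ⟨3,[(9,0),(0,0),(2,1),(0,3)]⟩),(.r 0 ⟨0,[(3,0)]⟩ ⟨11,[(4,3),(4,0),(0,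
  6),(7,3)]⟩),.k,.k,[⟨11,[(2,7),(6,4),(0,0),(1,3),(0,5),(6,3)]⟩,⟨0,[(11,0)]⟩,⟨0,[(0,0)]⟩,⟨11,[(4,3),
  (4,6),(0,0),(0,11),(5,7),(4,3)]⟩]⟩) (.R ⟨0,false,false,true,[1,-1],[0,0,1],[],(⟨0,[(14,0)]⟩,⟨0,
  [(15,0)]⟩),(⟨0,[(12,0)]⟩,⟨0,[(11,0)]⟩),⟨0,[(5,0)]⟩,.k,.k,(.r (-1) ⟨5,[(4,3),(4,0),(0,0),(7,3)]⟩
  ⟨2,[(3,1),(2,1),(1,1),(1,0),(9,0)]⟩),(.x 0 ⟨0,[(15,0)]⟩ ⟨3,[(9,0),(0,0),(2,1),(0,3)]⟩),.k,.k,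
  ⟨true,1,⟨1,[(9,0),(10,0)]⟩,⟨0,[(1,0),(0,0)]⟩⟩,⟨false,1,⟨1,[(12,1),(0,0),(5,0)]⟩,⟨0,[(11,0)]⟩⟩,
  ⟨true,0,⟨5,[(3,1),(2,1),(1,1),(1,0),(9,0)]⟩,⟨0,[(4,0),(2,0),(0,0)]⟩⟩,⟨false,0,⟨11,[(2,7),(1,3),(1,
  9),(3,1),(1,3),(0,0),(6,8)]⟩,⟨0,[(0,0),(17,0)]⟩⟩,⟨false,0,⟨0,[]⟩,⟨0,[]⟩⟩,⟨false,0,⟨0,[]⟩,⟨0,[]⟩⟩,
  [.e ⟨false,1,⟨3,[(9,0),(0,0),(8,1)]⟩,⟨0,[]⟩⟩ ⟨false,0,⟨15,[(2,13),(1,17),(1,15),(3,0),(1,1),(3,3),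
  (3,8)]⟩,⟨7,[(0,7),(7,3),(0,0),(0,0),(2,1)]⟩⟩,.o ⟨false,0,⟨5,[(2,3),(1,1),(1,1),(3,0),(1,1),(0,1),
  (6,2)]⟩,⟨0,[(0,0),(6,0),(10,0)]⟩⟩,.o ⟨false,0,⟨7,[(8,3),(0,0),(0,0),(2,1)]⟩,⟨1,[(13,0),(5,0)]⟩⟩,
  .a ⟨true,(-1),⟨0,[(8,0)]⟩,⟨0,[(19,0)]⟩⟩ ⟨false,1,⟨1,[(19,0),(0,0)]⟩,⟨7,[(8,3),(0,0),(0,0),(2,
  1)]⟩⟩ ⟨true,0,⟨15,[(2,13),(1,17),(1,15),(3,0),(1,1),(3,3),(3,8)]⟩,⟨0,[(3,0),(7,0),(6,0)]⟩⟩]⟩))))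
  (.Q [0,1,1,1,-1,0,1,-1,1] (.p true [0,0,1] [1] (⟨0,[(9,0)]⟩,⟨0,[(8,0)]⟩) .k 1 (⟨0,[]⟩,⟨0,[]⟩) .k
  .k) (.I [0,0,-1,-1,0,0,1] (.K ⟨0,[1,0,-1],0,1,(⟨0,[(10,0)]⟩,⟨0,[(11,0)]⟩),.k,(.x 0 ⟨0,[(14,0)]⟩
  ⟨3,[(8,0),(0,0),(2,1),(0,3)]⟩),(.r (-1) ⟨7,[(5,3),(1,3),(0,6),(0,2),(9,1)]⟩ ⟨0,[(0,0)]⟩),.k,.k,
  [⟨0,[(7,0),(3,0),(0,0)]⟩,⟨0,[(10,0)]⟩,⟨0,[(1,0),(15,0)]⟩,⟨11,[(3,3),(4,6),(0,0),(0,11),(5,7),(4,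
  3)]⟩]⟩) (.K ⟨0,[-1,1,1],0,(-1),(⟨1,[(0,1),(0,1),(1,1),(0,0),(2,0),(11,0)]⟩,⟨0,[(10,0),(2,0)]⟩),
  (.x (-1) ⟨3,[(8,0),(0,0),(2,1),(0,3)]⟩ ⟨0,[(14,0)]⟩),.k,(.r 0 ⟨1,[(5,1),(1,1),(1,0),(9,0)]⟩ ⟨0,
  [(0,0),(2,0),(13,0)]⟩),.k,.k,[⟨7,[(7,3),(0,0),(0,0),(0,7),(1,1)]⟩,⟨3,[(0,1),(0,1),(9,1),(0,0),(4,
  3),(1,0)]⟩,⟨11,[(3,3),(4,6),(0,0),(0,11),(6,3),(3,11)]⟩,⟨0,[(1,0)]⟩]⟩)) (.R ⟨0,false,false,true,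
  [1,-1],[0,0,1],[],(⟨0,[(12,0)]⟩,⟨0,[(13,0)]⟩),(⟨0,[(10,0)]⟩,⟨0,[(9,0)]⟩),⟨0,[(3,0)]⟩,.k,.k,(.r
  (-1) ⟨5,[(2,3),(4,0),(0,0),(7,3)]⟩ ⟨3,[(4,3),(1,3),(0,0),(0,0),(9,1)]⟩),(.x 0 ⟨0,[(13,0)]⟩ ⟨3,[(7,
  0),(0,0),(2,1),(0,3)]⟩),.k,.k,⟨true,1,⟨1,[(7,0),(10,0)]⟩,⟨0,[(1,0),(3,0),(0,0)]⟩⟩,⟨false,1,⟨1,
  [(10,1),(0,0),(5,0)]⟩,⟨0,[(9,0)]⟩⟩,⟨true,0,⟨7,[(4,3),(1,3),(0,0),(0,0),(9,1)]⟩,⟨0,[(2,0),(2,0),(0,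
  0)]⟩⟩,⟨false,0,⟨1,[(1,1),(2,1),(1,1),(3,1),(0,0),(6,0)]⟩,⟨0,[(0,0)]⟩⟩,⟨false,0,⟨0,[]⟩,⟨0,[]⟩⟩,
  ⟨false,0,⟨0,[]⟩,⟨0,[]⟩⟩,[.e ⟨false,1,⟨3,[(7,0),(0,0),(8,1)]⟩,⟨0,[]⟩⟩ ⟨false,0,⟨0,[(1,0),(3,0),(4,
  0)]⟩,⟨1,[(7,0),(1,1),(8,0)]⟩⟩,.o ⟨false,0,⟨3,[(1,3),(2,1),(1,3),(3,3),(0,2),(6,0)]⟩,⟨0,[(0,0),(4,
  0)]⟩⟩,.o ⟨false,0,⟨7,[(6,3),(0,0),(0,0),(2,1)]⟩,⟨1,[(11,0),(5,0)]⟩⟩,.a ⟨true,(-1),⟨0,[(6,0)]⟩,⟨0,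
  [(17,0)]⟩⟩ ⟨false,1,⟨1,[(17,0),(0,0)]⟩,⟨7,[(6,3),(0,0),(0,0),(2,1)]⟩⟩ ⟨true,0,⟨0,[(1,0),(3,0),(4,
  0)]⟩,⟨0,[(0,0),(4,0),(0,0)]⟩⟩]⟩)))

def tree : Tre :=
  (.Q [0,-1,0,-2,0,0,0,1] (.pp false [-1,1]) (.R ⟨2,true,false,false,[0,1],[1,-1],[1,0,1,1],(⟨0,[]⟩,
  ⟨0,[]⟩),(⟨0,[(8,0)]⟩,⟨0,[(9,0)]⟩),⟨0,[]⟩,.k,.k,.k,(.r 0 ⟨0,[(1,0),(0,0),(8,0),(2,0)]⟩ ⟨0,[(12,1),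
  (0,0)]⟩),.k,.k,⟨false,0,⟨0,[(1,0),(0,0),(7,0),(3,0)]⟩,⟨0,[(12,1),(0,0)]⟩⟩,⟨true,(-1),⟨0,[(2,0)]⟩,
  ⟨1,[(7,0),(5,0)]⟩⟩,⟨true,0,⟨0,[]⟩,⟨0,[(16,0)]⟩⟩,⟨false,0,⟨0,[(0,0)]⟩,⟨0,[(1,0),(9,0),(2,0)]⟩⟩,
  ⟨false,1,⟨0,[(11,0),(2,0)]⟩,⟨0,[(12,0)]⟩⟩,⟨true,0,⟨1,[(0,0),(4,0),(0,0),(9,0)]⟩,⟨0,[(1,0)]⟩⟩,[]⟩)
  (.Q [0,0,0,0,0,2,0,-1] (.pp true [-1,1]) (.I [0,0,3,2,-1] (.R ⟨0,false,false,true,[1,-1],[0,1],[0,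
  1,2,1],(⟨0,[(10,0)]⟩,⟨0,[(11,0)]⟩),(⟨0,[(11,0)]⟩,⟨0,[(10,0)]⟩),⟨0,[(1,0)]⟩,.k,.k,(.r (-1) ⟨0,[(14,
  1),(0,0)]⟩ ⟨5,[(0,3),(4,0),(0,0),(6,3),(2,1)]⟩),(.r (-1) ⟨0,[(14,1),(0,0)]⟩ ⟨5,[(0,3),(4,0),(0,0),
  (6,3),(2,1)]⟩),.k,.k,⟨true,0,⟨7,[(4,3),(0,0),(0,0),(2,1)]⟩,⟨0,[]⟩⟩,⟨false,2,⟨1,[(9,0),(5,2)]⟩,⟨0,
  [(4,0)]⟩⟩,⟨false,(-1),⟨0,[(0,0)]⟩,⟨1,[(14,3),(0,2),(0,0)]⟩⟩,⟨true,0,⟨0,[(2,0)]⟩,⟨0,[(7,0),(0,0),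
  (5,1)]⟩⟩,⟨false,0,⟨0,[]⟩,⟨0,[]⟩⟩,⟨false,0,⟨0,[]⟩,⟨0,[]⟩⟩,[.o ⟨false,0,⟨0,[(3,0)]⟩,⟨3,[(5,0),(0,0),
  (7,3),(1,1)]⟩⟩,.o ⟨false,1,⟨3,[(2,1),(2,0),(0,0),(2,0),(6,0)]⟩,⟨0,[(14,0)]⟩⟩,.o ⟨false,0,⟨7,[(4,
  3),(0,0),(0,0),(2,1)]⟩,⟨1,[(9,0),(5,0)]⟩⟩,.a ⟨true,(-1),⟨0,[(4,0)]⟩,⟨0,[(15,0)]⟩⟩ ⟨false,0,⟨11,
  [(0,3),(4,0),(0,0),(6,3),(2,1)]⟩,⟨1,[(14,1),(0,0),(0,0)]⟩⟩ ⟨true,1,⟨0,[(3,0),(11,0)]⟩,⟨0,[(4,0),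
  (9,0)]⟩⟩]⟩) t0) (.S ⟨1,0,[0,0,-1,-2],[1,-1],[1,1,-1,-1],(⟨0,[(9,0)]⟩,⟨0,[(10,0)]⟩),⟨0,[(0,0)]⟩,.k,
  (.r (-1) ⟨0,[(13,1),(0,0)]⟩ ⟨3,[(1,3),(1,3),(0,0),(0,0),(9,1)]⟩),⟨false,0,⟨0,[]⟩,⟨3,[(4,0),(0,0),
  (9,1)]⟩⟩,⟨true,0,⟨0,[(13,0)]⟩,⟨0,[(12,0)]⟩⟩,⟨true,0,⟨0,[(12,0)]⟩,⟨0,[(13,0)]⟩⟩,⟨false,1,⟨3,[(4,0),
  (0,0),(9,1)]⟩,⟨0,[]⟩⟩,[.o ⟨false,0,⟨0,[(13,1)]⟩,⟨3,[(1,3),(2,0),(0,0),(9,1)]⟩⟩,.o ⟨false,1,⟨3,[(4,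
  0),(0,0),(7,7),(1,1)]⟩,⟨0,[(1,0)]⟩⟩,.o ⟨false,0,⟨7,[(3,3),(0,0),(0,0),(2,1)]⟩,⟨1,[(8,0),(5,0)]⟩⟩,
  .a ⟨true,(-1),⟨0,[(3,0)]⟩,⟨0,[(14,0)]⟩⟩ ⟨false,1,⟨0,[(13,0),(0,0)]⟩,⟨3,[(1,1),(1,3),(4,0),(6,
  2)]⟩⟩ ⟨true,1,⟨0,[(13,1),(0,0)]⟩,⟨0,[(1,0),(1,0)]⟩⟩]⟩)))

theorem ok : chk (cPU 1 true) tree base = true := by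
  decide +kernel

theorem closed {p a b c J l q : ℤ} {D dl : ℝ} {Cl : ℤ → ℤ → ℤ → ℤ → ℝ → Prop}
    (W : World p a b c J 1 l q D dl Cl) (hE : KEmp p a b 1 (P1 l p) Cl)
    (g : G0 p a b c J D)
    {N R : ℤ} {I : ℝ} (hu : UFac p b D Cl N R I)
    (s0 : (c : ℝ) + 1 ≤ 0)
    (s1 : (b : ℝ) - c + 1 ≤ a)
    (s2 : p - D < 2 * b)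
    (s3 : D - c < a) : False := by
  have g1 := g.a2
  have g2 := g.b2
  have g3 := g.pa
  have g4 := g.pb
  have g5 := g.J1
  have g6 := g.JD
  have g7 := g.D2
  have g8 := g.ca
  have g9 := g.ca'
  have t1 := TF.ofU hu
  have i1 := t1.I0
  have i2 := t1.ID
  have i3 := t1.R1
  have i4 := t1.R2
  refine (val_PU W.toBase (UV.ofU hu)).sound W rfl (Nk := 0) (fun kf hkf hh => ?_) (kok_B hE (by simp [xv]) (by simp [xv]) 0) ?_ ok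
  · simp only [cPU, kfB, List.mem_cons, List.not_mem_nil, or_false] at hkf
    subst hkf
    exact absurd hh (by norm_num)
  · simp only [base, List.forall_mem_cons, List.not_mem_nil, false_imp_iff, implies_true,
      and_true, hld, xv, evg_cons, evg_nil, List.map_cons, List.map_nil, List.cons_append,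
      List.nil_append, if_true, if_false, Bool.false_eq_true]
    push_cast
    refine ⟨?_, ?_, ?_, ?_, ?_, ?_, ?_, ?_, ?_, ?_, ?_, ?_, ?_, ?_, ?_, ?_⟩ <;> linarith

end Helper25.KG.Pm1_1_1_0_u
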