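import Pool.Agent.Helper25.KG.PL

set_option autoImplicit false
set_option linter.unusedVariables false

namespace Helper25.KG.Pm1_1_1_0_v

open Helper11.CT Helper25.KW Helper25.KG

def base : List Con :=
  [(false,[0,1,0,1,0,0,0,-1]),
  (false,[0,0,2,0,-1,0,0,1]),
  (true,[0,0,0,0,1,0,-2]),
  (true,[0,0,0,0,1,0,2]),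
  (false,[0,0,0,0,0,0,0,1,-2]),
  (false,[0,0,0,0,0,0,0,0,1]),
  (false,[0,0,0,0,1,0,0,-2]),
  (false,[0,0,0,0,0,-1,0,1]),
  (true,[0,0,0,0,0,1]),
  (true,[0,1,-1,1]),
  (true,[0,1,0,1]),
  (true,[0,0,0,-1]),
  (true,[0,0,-2,0,1]),
  (true,[0,-2,0,0,1]),
  (true,[-1,0,1]),
  (true,[-1,1])]

def tree : Tre :=
  (.Q [0,-1,0,-2,0,0,0,1] (.pp false [-1,1]) (.R ⟨2,true,false,false,[0,1],[1,-1],[1,0,1,1],(⟨0,[]⟩,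
  ⟨0,[]⟩),(⟨0,[(8,0)]⟩,⟨0,[(9,0)]⟩),⟨0,[]⟩,.k,.k,.k,(.r 0 ⟨0,[(1,0),(0,0),(8,0),(2,0)]⟩ ⟨0,[(12,1),
  (0,0)]⟩),.k,.k,⟨false,0,⟨0,[(1,0),(0,0),(7,0),(3,0)]⟩,⟨0,[(12,1),(0,0)]⟩⟩,⟨true,(-1),⟨0,[(2,0)]⟩,
  ⟨1,[(7,0),(5,0)]⟩⟩,⟨true,0,⟨0,[]⟩,⟨0,[(16,0)]⟩⟩,⟨false,0,⟨0,[(0,0)]⟩,⟨0,[(1,0),(9,0),(2,0)]⟩⟩,
  ⟨false,1,⟨0,[(11,0),(2,0)]⟩,⟨0,[(12,0)]⟩⟩,⟨true,0,⟨0,[(0,0),(10,0)]⟩,⟨0,[(1,0)]⟩⟩,[]⟩) (.Q [0,0,0,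
  0,0,2,0,-1] (.pp true [-1,1]) (.I [0,0,3,2,-1] (.R ⟨0,false,false,true,[1,-1],[0,1],[0,1,2,1],(⟨0,
  [(10,0)]⟩,⟨0,[(11,0)]⟩),(⟨0,[(11,0)]⟩,⟨0,[(10,0)]⟩),⟨0,[(1,0)]⟩,.k,.k,(.r (-1) ⟨0,[(14,1),(0,0)]⟩
  ⟨5,[(0,3),(4,0),(0,0),(6,3),(2,1)]⟩),(.r (-1) ⟨0,[(14,1),(0,0)]⟩ ⟨5,[(0,3),(4,0),(0,0),(6,3),(2,
  1)]⟩),.k,.k,⟨true,0,⟨7,[(4,3),(0,0),(0,0),(2,1)]⟩,⟨0,[]⟩⟩,⟨false,2,⟨1,[(9,0),(5,2)]⟩,⟨0,[(4,0)]⟩⟩,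
  ⟨false,(-1),⟨0,[(0,0)]⟩,⟨1,[(14,3),(0,2),(0,0)]⟩⟩,⟨true,0,⟨0,[(2,0)]⟩,⟨0,[(10,0),(0,0),(2,1)]⟩⟩,
  ⟨false,0,⟨0,[]⟩,⟨0,[]⟩⟩,⟨false,0,⟨0,[]⟩,⟨0,[]⟩⟩,[.o ⟨false,0,⟨0,[(3,0)]⟩,⟨3,[(5,0),(0,0),(7,3),(1,
  1)]⟩⟩,.o ⟨false,1,⟨3,[(2,1),(2,0),(0,0),(2,0),(6,0)]⟩,⟨0,[(14,0)]⟩⟩,.o ⟨false,0,⟨7,[(4,3),(0,0),
  (0,0),(2,1)]⟩,⟨1,[(9,0),(5,0)]⟩⟩,.a ⟨true,(-1),⟨0,[(4,0)]⟩,⟨0,[(15,0)]⟩⟩ ⟨false,0,⟨11,[(0,3),(4,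
  0),(0,0),(6,3),(2,1)]⟩,⟨1,[(14,1),(0,0),(0,0)]⟩⟩ ⟨true,1,⟨0,[(3,0),(11,0)]⟩,⟨0,[(4,0),(9,0)]⟩⟩]⟩)
  (.Q [0,1,-2,0,0,0,-1,0,-1] (.p false [0,0,1] [] (⟨0,[(8,0)]⟩,⟨1,[(7,0),(2,0),(0,0)]⟩) .k 0 (⟨0,
  []⟩,⟨0,[]⟩) .k .k) (.I [0,0,-1,-1,0,0,-1] (.R ⟨0,false,false,true,[1,-1],[1,0,-1],[],(⟨0,[(12,
  0)]⟩,⟨0,[(13,0)]⟩),(⟨1,[(9,0),(2,0),(0,0)]⟩,⟨0,[(10,0)]⟩),⟨0,[(3,0)]⟩,.k,.k,(.r (-1) ⟨5,[(2,3),(4,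
  0),(0,0),(7,3)]⟩ ⟨3,[(4,3),(1,3),(0,0),(0,0),(9,1)]⟩),(.r (-1) ⟨11,[(2,3),(4,0),(0,6),(7,3)]⟩ ⟨2,
  [(0,0),(3,1),(1,1),(0,0),(10,0)]⟩),.k,.k,⟨true,1,⟨1,[(8,0),(9,0)]⟩,⟨0,[(0,0),(4,0),(0,0)]⟩⟩,
  ⟨false,1,⟨1,[(1,1),(6,0),(9,0)]⟩,⟨7,[(6,3),(0,0),(0,0),(1,7),(0,1)]⟩⟩,⟨true,0,⟨7,[(4,3),(1,3),(0,
  0),(0,0),(9,1)]⟩,⟨0,[(2,0),(2,0),(0,0)]⟩⟩,⟨false,0,⟨1,[(0,1),(3,1),(1,0),(2,0),(8,0)]⟩,⟨1,[(8,0),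
  (1,1),(5,1),(1,0)]⟩⟩,⟨false,0,⟨0,[]⟩,⟨0,[]⟩⟩,⟨false,0,⟨0,[]⟩,⟨0,[]⟩⟩,[.e ⟨false,1,⟨3,[(7,0),(0,0),
  (8,1)]⟩,⟨0,[]⟩⟩ ⟨false,0,⟨0,[(1,0)]⟩,⟨7,[(6,3),(0,0),(0,4),(1,7),(0,1),(6,3)]⟩⟩,.o ⟨false,0,⟨3,
  [(0,3),(3,1),(1,1),(2,1),(1,0),(6,0)]⟩,⟨1,[(8,0),(1,1),(0,0)]⟩⟩,.o ⟨false,0,⟨7,[(6,3),(0,0),(0,0),
  (2,1)]⟩,⟨1,[(11,0),(5,0)]⟩⟩,.a ⟨true,(-1),⟨0,[(6,0)]⟩,⟨0,[(17,0)]⟩⟩ ⟨false,1,⟨1,[(17,0),(0,0)]⟩,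
  ⟨7,[(6,3),(0,0),(0,0),(2,1)]⟩⟩ ⟨true,0,⟨0,[(1,0)]⟩,⟨1,[(6,1),(1,0),(1,1),(0,0)]⟩⟩]⟩) (.K ⟨0,[0,0,
  1],0,0,(⟨0,[(10,0)]⟩,⟨1,[(9,0),(2,0),(0,0)]⟩),.k,(.r (-1) ⟨11,[(2,3),(4,0),(0,6),(7,3)]⟩ ⟨3,[(1,
  1),(2,1),(1,3),(0,0),(2,1),(0,0),(6,1)]⟩),(.x (-1) ⟨1,[(11,0),(0,1),(4,0)]⟩ ⟨3,[(3,1),(2,1),(0,0),
  (0,0)]⟩),.k,.k,[⟨1,[(6,0),(2,0),(1,0)]⟩,⟨7,[(6,3),(0,0),(0,0),(1,7),(0,1)]⟩,⟨4,[(1,2),(4,2),(0,0),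
  (1,0),(1,1),(8,1)]⟩,⟨0,[(0,0),(1,0),(2,0),(0,0),(3,0)]⟩]⟩)) (.Q [0,1,0,1,0,0,1,-1,1] (.p true [0,
  0,1] [1] (⟨0,[(9,0)]⟩,⟨1,[(8,0),(2,0),(0,0)]⟩) .k 1 (⟨0,[]⟩,⟨0,[]⟩) .k .k) (.Q [0,0,1,0,0,0,0,-1,
  1] (.p true [0,0,1] [1] (⟨0,[(10,0)]⟩,⟨1,[(9,0),(2,0),(0,0)]⟩) .k 1 (⟨0,[]⟩,⟨0,[]⟩) .k .k) (.K ⟨0,
  [1,0,-1],0,0,(⟨1,[(10,0),(2,0),(0,0)]⟩,⟨0,[(11,0)]⟩),.k,(.r (-1) ⟨11,[(3,3),(4,6),(0,0),(7,3)]⟩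
  ⟨1,[(1,1),(5,0),(2,0),(8,0)]⟩),(.x (-1) ⟨1,[(12,0),(0,1),(4,0)]⟩ ⟨3,[(4,1),(2,1),(0,0),(0,0)]⟩),
  .k,.k,[⟨0,[(0,0)]⟩,⟨3,[(7,1),(0,0),(0,0),(0,1)]⟩,⟨0,[(1,0),(15,0)]⟩,⟨1,[(3,0),(2,0),(0,1),(0,0),
  (1,0),(4,0)]⟩]⟩) (.Q [0,1,0,0,0,0,-1,0,-1] (.p false [0,0,1] [] (⟨0,[(11,0)]⟩,⟨7,[(0,3),(6,1),(0,
  0),(0,0),(0,1)]⟩) .k 0 (⟨0,[]⟩,⟨0,[]⟩) .k .k) (.K ⟨0,[0,0,1],0,0,(⟨0,[(12,0)]⟩,⟨7,[(1,3),(6,1),(0,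
  0),(0,0),(0,1)]⟩),.k,(.x 0 ⟨3,[(5,1),(2,1),(0,0),(0,0)]⟩ ⟨1,[(13,0),(0,1),(4,0)]⟩),(.r 0 ⟨2,[(1,
  0),(0,0),(0,1),(2,0),(4,0)]⟩ ⟨11,[(4,3),(4,6),(0,0),(7,3)]⟩),.k,.k,[⟨1,[(8,0),(2,0),(1,0)]⟩,⟨7,
  [(3,1),(4,1),(0,0),(2,5),(0,0),(8,1)]⟩,⟨0,[(0,0)]⟩,⟨8,[(2,4),(1,2),(3,4),(1,1),(1,3),(3,0),(5,
  2)]⟩]⟩) (.R ⟨0,false,false,true,[0,0,1],[0,1],[1,1,1,1],(⟨0,[(12,0)]⟩,⟨7,[(1,3),(6,1),(0,0),(0,0),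
  (0,1)]⟩),(⟨0,[(15,0)]⟩,⟨0,[(14,0)]⟩),⟨1,[(5,0),(5,0)]⟩,.k,.k,(.r 0 ⟨0,[(0,0),(0,0),(5,0),(10,1)]⟩
  ⟨15,[(3,7),(2,3),(2,12),(0,0),(0,3),(5,7),(2,1)]⟩),(.r 0 ⟨0,[(0,0),(0,0),(5,0),(10,1)]⟩ ⟨15,[(3,
  7),(2,3),(2,12),(0,0),(0,3),(5,7),(2,1)]⟩),.k,.k,⟨true,0,⟨0,[]⟩,⟨7,[(8,3),(0,0),(0,0),(2,1)]⟩⟩,
  ⟨false,1,⟨1,[(1,1),(11,0),(5,0)]⟩,⟨7,[(3,1),(4,1),(0,0),(2,5),(0,0),(8,1)]⟩⟩,⟨true,0,⟨1,[(7,0),(0,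
  0),(0,0),(7,0)]⟩,⟨0,[(0,0),(0,0),(5,0),(10,1)]⟩⟩,⟨false,1,⟨7,[(6,3),(2,4),(0,0),(0,3),(8,1)]⟩,⟨0,
  [(0,0),(17,0)]⟩⟩,⟨false,0,⟨0,[]⟩,⟨0,[]⟩⟩,⟨false,0,⟨0,[]⟩,⟨0,[]⟩⟩,[.o ⟨false,0,⟨0,[(7,0)]⟩,⟨3,[(9,
  0),(0,0),(7,3),(1,1)]⟩⟩,.o ⟨false,1,⟨3,[(6,1),(2,0),(0,0),(2,0),(6,0)]⟩,⟨0,[(18,0)]⟩⟩,.a ⟨true,0,
  ⟨0,[(12,0)]⟩,⟨7,[(1,3),(6,1),(0,0),(0,0),(0,1)]⟩⟩ ⟨false,0,⟨9,[(3,1),(2,3),(1,2),(0,0),(1,0),(5,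
  1),(2,1)]⟩,⟨11,[(4,3),(4,0),(0,0),(7,3),(1,5)]⟩⟩ ⟨true,0,⟨1,[(7,0),(3,0),(5,0)]⟩,⟨0,[(12,0),(5,
  0)]⟩⟩,.e ⟨true,0,⟨0,[(17,0)]⟩,⟨0,[(18,0)]⟩⟩ ⟨true,0,⟨0,[(1,0),(5,0)]⟩,⟨7,[(3,1),(4,1),(0,0),(2,5),
  (0,0),(4,7),(3,1)]⟩⟩]⟩))) (.K ⟨0,[0,0,1],0,0,(⟨0,[(10,0)]⟩,⟨1,[(9,0),(2,0),(0,0)]⟩),.k,(.r (-1)
  ⟨11,[(2,3),(4,0),(0,6),(7,3)]⟩ ⟨7,[(0,3),(3,5),(1,3),(0,1),(2,3),(0,0),(6,0)]⟩),(.x (-1) ⟨1,[(11,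
  0),(0,1),(4,0)]⟩ ⟨3,[(3,1),(2,1),(0,0),(0,0)]⟩),.k,.k,[⟨1,[(6,0),(2,0),(1,0)]⟩,⟨7,[(1,1),(4,1),(0,
  0),(2,5),(0,0),(8,1)]⟩,⟨0,[(0,0),(4,0),(14,0)]⟩,⟨0,[(1,0),(0,0),(2,0),(0,0),(7,0)]⟩]⟩)))) (.S ⟨1,
  0,[0,0,-1,-2],[1,-1],[1,1,-1,-1],(⟨0,[(9,0)]⟩,⟨0,[(10,0)]⟩),⟨0,[(0,0)]⟩,.k,(.r (-1) ⟨0,[(13,1),(0,
  0)]⟩ ⟨3,[(1,3),(1,3),(0,0),(0,0),(9,1)]⟩),⟨false,0,⟨0,[]⟩,⟨3,[(4,0),(0,0),(9,1)]⟩⟩,⟨true,0,⟨0,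
  [(13,0)]⟩,⟨0,[(12,0)]⟩⟩,⟨true,0,⟨0,[(12,0)]⟩,⟨0,[(13,0)]⟩⟩,⟨false,1,⟨3,[(4,0),(0,0),(9,1)]⟩,⟨0,
  []⟩⟩,[.o ⟨false,0,⟨0,[(13,1)]⟩,⟨3,[(1,3),(2,0),(0,0),(9,1)]⟩⟩,.o ⟨false,1,⟨3,[(4,0),(0,0),(7,7),
  (1,1)]⟩,⟨0,[(1,0)]⟩⟩,.o ⟨false,0,⟨7,[(3,3),(0,0),(0,0),(2,1)]⟩,⟨1,[(8,0),(5,0)]⟩⟩,.a ⟨true,(-1),
  ⟨0,[(3,0)]⟩,⟨0,[(14,0)]⟩⟩ ⟨false,1,⟨0,[(13,0),(0,0)]⟩,⟨3,[(1,1),(1,3),(4,0),(6,2)]⟩⟩ ⟨true,1,⟨0,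
  [(13,1),(0,0)]⟩,⟨0,[(1,0),(1,0)]⟩⟩]⟩)))

theorem ok : chk (cPU 1 false) tree base = true := by
  decide +kernel

theorem closed {p a b c J l q : ℤ} {D dl : ℝ} {Cl : ℤ → ℤ → ℤ → ℤ → ℝ → Prop}
    (W : World p a b c J 1 l q D dl Cl) (hE : KEmp p a b 1 (P1 l p) Cl)
    (g : G0 p a b c J D)
    {N R : ℤ} {I : ℝ} (hu : VFac p D Cl N R I)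
    (s0 : (c : ℝ) + 1 ≤ 0)
    (s1 : (b : ℝ) - c + 1 ≤ a)
    (s2 : p - D < 2 * b)
    (s3 : D - c < a) : False := by
  have g1 := g.a2
  have g2 := g.b2
  have g3 := g.pa
  have g4 := g.pb
  have g5 := g.J1
  have g6 := g.JD
  have g7 := g.D2
  have g8 := g.ca
  have g9 := g.ca'
  have t1 := TF.ofV hu
  have i1 := t1.I0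
  have i2 := hu.ID
  have i3 := t1.R1
  have i4 := t1.R2
  refine (val_PU W.toBase (UV.ofV hu)).sound W rfl (Nk := 0) (fun kf hkf hh => ?_) (kok_B hE (by simp [xv]) (by simp [xv]) 0) ?_ ok
  · simp only [cPU, kfB, List.mem_cons, List.not_mem_nil, or_false] at hkf
    subst hkf
    exact absurd hh (by norm_num)
  · simp only [base, List.forall_mem_cons, List.not_mem_nil, false_imp_iff, implies_true,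
      and_true, hld, xv, evg_cons, evg_nil, List.map_cons, List.map_nil, List.cons_append,
      List.nil_append, if_true, if_false, Bool.false_eq_true]
    push_cast
    refine ⟨?_, ?_, ?_, ?_, ?_, ?_, ?_, ?_, ?_, ?_, ?_, ?_, ?_, ?_, ?_, ?_⟩ <;> linarith

end Helper25.KG.Pm1_1_1_0_v
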