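import Pool.Agent.Helper25.KG.PL

set_option autoImplicit false
set_option linter.unusedVariables false

namespace Helper25.KG.Pm1_1_1_1_u

open Helper11.CT Helper25.KW Helper25.KG

def base : List Con :=
  [(false,[0,1,0,-1,-1,0,0,1]),
  (false,[0,0,2,0,-1,0,0,1]),
  (true,[0,0,0,0,1,0,-2]),
  (true,[0,0,0,0,1,0,2]),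
  (false,[0,0,0,0,0,0,0,1,-1]),
  (false,[0,0,0,0,0,0,0,0,1]),
  (false,[0,0,0,0,1,0,0,-2]),
  (false,[0,0,0,0,0,-1,0,1]),
  (true,[0,0,0,0,0,1]),
  (true,[0,1,-1,1]),
  (true,[0,1,0,1]),
  (true,[0,0,0,-1]),
  (true,[0,0,-2,0,1]),
  (true,[0,-2,0,0,1]),
  (true,[-1,0,1]),
  (true,[-1,1])]

def t0 : Tre :=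
  (.I [0,0,1,1,0,0,-1] (.Q [0,1,-2,-1,0,0,0,1,-1] (.p false [0,0,1] [1] (⟨0,[(10,0)]⟩,⟨0,[(9,0)]⟩)
  .k 1 (⟨0,[]⟩,⟨0,[]⟩) .k .k) (.K ⟨0,[1,0,-1],0,0,(⟨0,[(10,0)]⟩,⟨0,[(11,0)]⟩),.k,(.x 0 ⟨0,[(14,0)]⟩
  ⟨3,[(8,0),(0,0),(2,1),(0,3)]⟩),(.r 0 ⟨0,[(1,0)]⟩ ⟨1,[(9,0),(7,1),(0,0)]⟩),.k,.k,[⟨0,[(7,0),(3,0),
  (0,0)]⟩,⟨0,[(10,0)]⟩,⟨0,[(3,0)]⟩,⟨0,[(0,0),(0,0)]⟩]⟩) (.K ⟨0,[0,0,1],(-1),(-1),(⟨0,[(11,0)]⟩,⟨0,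
  [(10,0)]⟩),.k,(.r (-1) ⟨1,[(9,0),(7,1),(0,0)]⟩ ⟨0,[(1,0)]⟩),(.x (-1) ⟨3,[(8,0),(0,0),(2,1),(0,
  3)]⟩ ⟨0,[(14,0)]⟩),.k,.k,[⟨3,[(8,0),(0,0),(0,3),(1,1)]⟩,⟨0,[(0,0),(5,0)]⟩,⟨3,[(6,1),(1,1),(1,3),
  (1,2),(2,1),(2,0)]⟩,⟨3,[(0,2),(1,3),(3,4),(4,0),(0,0),(2,1)]⟩]⟩)) (.I [0,0,-2,0,1,-1] (.Q [0,1,-1,
  0,0,0,-1,1,-1] (.p false [0,0,1] [1] (⟨0,[(11,0)]⟩,⟨0,[(10,0)]⟩) .k 1 (⟨0,[]⟩,⟨0,[]⟩) .k .k) (.K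
  ⟨0,[1,0,-1],0,0,(⟨0,[(11,0)]⟩,⟨0,[(12,0)]⟩),.k,(.x 0 ⟨0,[(15,0)]⟩ ⟨3,[(9,0),(0,0),(2,1),(0,3)]⟩),
  (.x (-1) ⟨0,[(1,0)]⟩ ⟨3,[(8,3),(0,0),(0,0),(2,1),(1,3)]⟩),.k,.k,[⟨0,[(8,0),(3,0),(0,0)]⟩,⟨0,[(11,
  0)]⟩,⟨0,[(4,0)]⟩,⟨0,[(0,0)]⟩]⟩) (.K ⟨0,[0,0,1],(-1),(-1),(⟨0,[(12,0)]⟩,⟨0,[(11,0)]⟩),.k,(.x 0 ⟨3,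
  [(8,3),(0,0),(0,0),(2,1),(1,3)]⟩ ⟨0,[(1,0)]⟩),(.x (-1) ⟨3,[(9,0),(0,0),(2,1),(0,3)]⟩ ⟨0,[(15,
  0)]⟩),.k,.k,[⟨3,[(9,0),(0,0),(0,3),(1,1)]⟩,⟨0,[(0,0),(4,0),(1,0)]⟩,⟨3,[(7,1),(1,1),(1,3),(1,2),(2,
  1),(2,0)]⟩,⟨2,[(0,1),(3,0),(2,1),(0,0),(7,1)]⟩]⟩)) (.I [1,-1,2,1] (.Q [0,0,0,0,0,2,0,-1] (.pp
  true [-1,1]) (.R ⟨0,false,false,false,[1,-1],[0,1],[0,1],(⟨0,[(15,0)]⟩,⟨0,[(16,0)]⟩),(⟨0,[(16,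
  0)]⟩,⟨0,[(15,0)]⟩),⟨0,[(0,0)]⟩,.k,.k,(.r (-1) ⟨0,[(3,1),(6,0)]⟩ ⟨0,[(1,0),(16,0)]⟩),(.r (-1) ⟨0,
  [(3,1),(6,0)]⟩ ⟨0,[(1,0),(16,0)]⟩),.k,.k,⟨true,0,⟨1,[(8,1),(5,0),(5,0)]⟩,⟨0,[(1,0)]⟩⟩,⟨false,2,⟨1,
  [(14,0),(5,2)]⟩,⟨0,[(9,0)]⟩⟩,⟨false,0,⟨1,[(1,0),(16,0)]⟩,⟨1,[(3,1),(6,0),(10,0)]⟩⟩,⟨true,1,⟨1,[(1,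
  0),(12,0),(2,1),(0,0),(2,0)]⟩,⟨0,[(8,0),(10,0)]⟩⟩,⟨false,0,⟨0,[]⟩,⟨0,[]⟩⟩,⟨false,0,⟨0,[]⟩,⟨0,[]⟩⟩,
  [.o ⟨false,1,⟨1,[(14,0),(3,1),(2,0)]⟩,⟨0,[(19,0)]⟩⟩,.e ⟨false,1,⟨3,[(10,0),(0,0),(8,1)]⟩,⟨0,[]⟩⟩
  ⟨false,2,⟨1,[(14,0),(2,1),(2,0),(0,1)]⟩,⟨7,[(8,7),(0,3),(0,0),(0,0),(2,1)]⟩⟩,.o ⟨false,0,⟨7,[(9,
  3),(0,0),(0,0),(2,1)]⟩,⟨1,[(14,0),(5,0)]⟩⟩,.a ⟨true,(-1),⟨0,[(9,0)]⟩,⟨0,[(20,0)]⟩⟩ ⟨true,0,⟨3,[(8,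
  1),(5,0),(2,1),(2,0)]⟩,⟨7,[(9,3),(0,0),(0,0),(2,1)]⟩⟩ ⟨false,2,⟨1,[(14,0),(2,1),(2,0),(0,1)]⟩,⟨0,
  [(9,0),(9,0)]⟩⟩]⟩) (.Q [0,0,0,0,0,-1,0,1,-1] (.ed true [0,1,1] .k) (.K ⟨0,[0,1,1],0,(-1),(⟨0,[(14,
  0),(2,0)]⟩,⟨0,[(0,0)]⟩),(.x (-1) ⟨7,[(1,3),(9,2),(0,2),(2,1)]⟩ ⟨0,[(17,0)]⟩),.k,(.x (-1) ⟨1,[(1,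
  1),(13,0),(5,0)]⟩ ⟨3,[(3,1),(7,0),(0,0),(4,5)]⟩),.k,.k,[⟨1,[(0,0),(2,0),(9,0),(1,0)]⟩,⟨5,[(6,0),
  (1,0),(1,1),(0,0),(2,3)]⟩,⟨1,[(9,1),(1,0),(1,1),(1,1),(5,0)]⟩,⟨1,[(1,1),(1,3),(0,1),(9,1),(0,0),
  (2,3),(3,0)]⟩]⟩) (.Q [0,0,2,1,-1,0,2,-2,2] (.p true [-1,0,2] [1] (⟨0,[(0,1),(0,0)]⟩,⟨0,[(13,1)]⟩)
  .k 1 (⟨0,[]⟩,⟨0,[]⟩) .k (.r 0 ⟨0,[(5,1)]⟩ ⟨0,[(11,0)]⟩)) (.R ⟨0,false,false,true,[-1,1,1],[0,1],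
  [],(⟨0,[(1,0)]⟩,⟨0,[(14,0),(2,0)]⟩),(⟨0,[(18,0)]⟩,⟨0,[(17,0)]⟩),⟨0,[(14,0)]⟩,(.x (-1) ⟨7,[(2,3),
  (9,2),(0,2),(2,1)]⟩ ⟨0,[(18,0)]⟩),.k,.k,.k,.k,.k,⟨true,1,⟨1,[(5,1),(6,0),(10,0)]⟩,⟨2,[(2,1),(1,3),
  (11,0),(2,1),(0,0)]⟩⟩,⟨false,1,⟨0,[(14,0),(7,0)]⟩,⟨1,[(0,0),(11,0),(8,0)]⟩⟩,⟨true,1,⟨0,[(5,0),(6,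
  0)]⟩,⟨1,[(2,1),(1,3),(0,1),(10,0),(2,3),(3,0)]⟩⟩,⟨false,1,⟨1,[(12,0),(1,1),(7,0)]⟩,⟨1,[(0,0),(20,
  0),(1,0)]⟩⟩,⟨false,0,⟨0,[]⟩,⟨0,[]⟩⟩,⟨false,0,⟨0,[]⟩,⟨0,[]⟩⟩,[.e ⟨false,1,⟨3,[(12,0),(0,0),(8,1)]⟩,
  ⟨0,[]⟩⟩ ⟨false,0,⟨0,[(14,0),(4,0)]⟩,⟨1,[(15,1),(0,0),(4,1),(1,0)]⟩⟩,.o ⟨false,1,⟨1,[(16,0),(3,1),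
  (2,0)]⟩,⟨0,[(21,0)]⟩⟩,.o ⟨false,1,⟨0,[(15,0),(0,0)]⟩,⟨0,[(14,0)]⟩⟩,.a ⟨true,0,⟨1,[(0,0),(11,0),(8,
  0)]⟩,⟨0,[(10,0),(3,0),(4,0),(3,0)]⟩⟩ ⟨false,1,⟨1,[(22,0),(0,0)]⟩,⟨7,[(11,3),(0,0),(0,0),(2,1)]⟩⟩
  ⟨true,0,⟨0,[(14,0),(4,0)]⟩,⟨1,[(0,0),(11,0),(8,2)]⟩⟩]⟩) (.R ⟨0,false,false,true,[1,0,-1],[0,1],[],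
  (⟨0,[(14,0)]⟩,⟨0,[(15,0)]⟩),(⟨0,[(18,0)]⟩,⟨0,[(17,0)]⟩),⟨0,[(1,0)]⟩,.k,.k,(.x 0 ⟨0,[(18,0)]⟩ ⟨7,
  [(2,3),(9,2),(0,2),(2,1)]⟩),(.x 0 ⟨0,[(18,0)]⟩ ⟨7,[(2,3),(9,2),(0,2),(2,1)]⟩),.k,.k,⟨true,1,⟨1,
  [(5,1),(6,0),(10,0)]⟩,⟨2,[(2,1),(1,3),(11,0),(2,1),(0,0)]⟩⟩,⟨false,1,⟨1,[(15,1),(0,0),(5,0)]⟩,⟨0,
  [(14,0)]⟩⟩,⟨true,0,⟨0,[(6,0)]⟩,⟨2,[(8,0),(1,1),(1,0),(3,0),(2,0)]⟩⟩,⟨false,0,⟨2,[(1,2),(0,1),(0,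
  1),(0,0),(0,0),(0,1),(9,0),(2,1)]⟩,⟨1,[(0,0),(20,0),(1,0)]⟩⟩,⟨false,0,⟨0,[]⟩,⟨0,[]⟩⟩,⟨false,0,⟨0,
  []⟩,⟨0,[]⟩⟩,[.e ⟨false,1,⟨3,[(12,0),(0,0),(8,1)]⟩,⟨0,[]⟩⟩ ⟨false,0,⟨6,[(1,5),(0,3),(1,1),(2,0),(0,
  0),(7,1),(2,5)]⟩,⟨5,[(0,1),(4,1),(7,0),(0,1),(6,1),(1,2)]⟩⟩,.o ⟨false,1,⟨1,[(16,0),(3,1),(2,0)]⟩,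
  ⟨0,[(21,0)]⟩⟩,.o ⟨false,1,⟨1,[(14,1),(1,0),(5,0)]⟩,⟨1,[(1,0),(0,0),(1,0),(10,0),(0,0)]⟩⟩,.a ⟨true,
  0,⟨0,[(14,0)]⟩,⟨0,[(15,0)]⟩⟩ ⟨false,1,⟨1,[(22,0),(0,0)]⟩,⟨7,[(11,3),(0,0),(0,0),(2,1)]⟩⟩ ⟨true,0,
  ⟨6,[(1,5),(0,3),(1,1),(2,0),(0,0),(7,1),(2,5)]⟩,⟨0,[(14,0),(6,0)]⟩⟩]⟩)))) (.Q [0,0,1,0,0,0,0,-1,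
  1] (.p true [0,0,1] [1] (⟨0,[(12,0)]⟩,⟨0,[(11,0)]⟩) .k 1 (⟨0,[]⟩,⟨0,[]⟩) .k .k) (.K ⟨0,[-1,1,1],0,
  0,(⟨0,[(0,0),(0,0),(0,0),(14,0),(3,0)]⟩,⟨0,[(12,0),(2,0)]⟩),(.x (-1) ⟨3,[(10,0),(0,0),(2,1),(0,
  3)]⟩ ⟨0,[(16,0)]⟩),.k,(.r 0 ⟨0,[(4,2),(1,1)]⟩ ⟨1,[(1,1),(8,0),(8,1),(1,0)]⟩),.k,.k,[⟨7,[(9,3),(0,
  0),(0,0),(0,7),(1,1)]⟩,⟨0,[(0,0)]⟩,⟨0,[(1,0),(4,0),(5,0),(6,0)]⟩,⟨0,[(0,0),(3,0),(13,0)]⟩]⟩) (.I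
  [0,-1,3,2] (.R ⟨0,false,false,false,[1,-1],[0,1],[0,0,2,1],(⟨0,[(16,0)]⟩,⟨0,[(17,0)]⟩),(⟨0,[(17,
  0)]⟩,⟨0,[(16,0)]⟩),⟨1,[(2,1),(0,2),(11,0),(1,0),(0,1),(3,1)]⟩,.k,.k,(.r (-1) ⟨0,[(4,1),(6,0)]⟩ ⟨2,
  [(0,1),(18,1)]⟩),(.r (-1) ⟨0,[(4,1),(6,0)]⟩ ⟨2,[(0,1),(18,1)]⟩),.k,.k,⟨true,0,⟨7,[(10,3),(0,0),(0,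
  0),(2,1)]⟩,⟨0,[]⟩⟩,⟨false,2,⟨1,[(15,0),(5,2)]⟩,⟨0,[(10,0)]⟩⟩,⟨false,0,⟨0,[(0,0)]⟩,⟨1,[(2,1),(1,1),
  (6,0),(10,0)]⟩⟩,⟨true,1,⟨3,[(0,1),(14,1),(2,3),(2,0),(0,0)]⟩,⟨0,[(9,0),(10,0)]⟩⟩,⟨false,0,⟨0,[]⟩,
  ⟨0,[]⟩⟩,⟨false,0,⟨0,[]⟩,⟨0,[]⟩⟩,[.o ⟨false,1,⟨5,[(0,1),(14,2),(3,1),(1,2)]⟩,⟨0,[(20,0)]⟩⟩,.e
  ⟨false,1,⟨3,[(0,1),(10,0),(0,0),(8,0),(0,0)]⟩,⟨0,[(2,0)]⟩⟩ ⟨false,2,⟨1,[(15,0),(2,1),(2,0),(0,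
  1)]⟩,⟨7,[(9,7),(0,3),(0,0),(0,0),(2,1)]⟩⟩,.o ⟨false,0,⟨7,[(10,3),(0,0),(0,0),(2,1)]⟩,⟨1,[(15,0),
  (5,0)]⟩⟩,.a ⟨true,(-1),⟨0,[(10,0)]⟩,⟨0,[(21,0)]⟩⟩ ⟨true,0,⟨2,[(0,0),(18,0)]⟩,⟨7,[(2,3),(6,3),(1,
  0),(0,0),(2,1)]⟩⟩ ⟨false,2,⟨1,[(15,0),(2,1),(2,0),(0,1)]⟩,⟨0,[(10,0),(9,0)]⟩⟩]⟩) (.Q [0,0,-1,0,0,
  0,0,1,-2] (.p false [0,0,1] [1,0,-1] (⟨0,[(14,0)]⟩,⟨0,[(13,0)]⟩) .k 2 (⟨0,[(13,0)]⟩,⟨0,[(14,0)]⟩)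
  .k (.r 0 ⟨0,[(5,1)]⟩ ⟨0,[(11,0)]⟩)) (.K ⟨0,[1,0,-2],0,0,(⟨7,[(0,7),(10,3),(0,0),(0,0),(2,1)]⟩,⟨0,
  [(15,1)]⟩),.k,(.r (-1) ⟨3,[(1,1),(6,1),(3,2),(8,1),(1,0)]⟩ ⟨0,[(6,2),(1,0)]⟩),(.r (-1) ⟨3,[(8,3),
  (3,2),(0,0)]⟩ ⟨0,[(5,0),(0,0)]⟩),.k,.k,[⟨5,[(7,0),(1,0),(1,7),(0,0),(2,9),(0,5)]⟩,⟨0,[(0,0)]⟩,⟨5,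
  [(6,1),(0,6),(1,0),(1,1),(1,0),(1,3)]⟩,⟨0,[(0,0),(0,0),(6,1)]⟩]⟩) (.K ⟨0,[2,-1,-1],(-1),(-1),(⟨0,
  [(14,0),(2,0)]⟩,⟨3,[(0,1),(0,1),(2,3),(11,0),(2,3),(3,2)]⟩),(.x 0 ⟨0,[(18,0)]⟩ ⟨3,[(12,0),(0,0),
  (2,1),(0,3)]⟩),(.r (-1) ⟨11,[(1,7),(10,6),(0,0),(7,7),(1,3)]⟩ ⟨0,[(6,2),(1,1)]⟩),.k,.k,.k,[⟨13,
  [(0,3),(6,2),(1,2),(1,1),(0,2),(3,9)]⟩,⟨0,[(2,0),(8,0)]⟩,⟨1,[(7,0),(1,0),(6,0),(3,1)]⟩,⟨0,[(1,0),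
  (0,0),(5,0),(2,0)]⟩]⟩)))))))

def t1 : Tre :=
  (.I [0,0,-1,-1,0,0,1] (.Q [0,1,-1,0,0,0,-1,1,-1] (.p false [0,0,1] [1] (⟨0,[(7,0)]⟩,⟨0,[(6,0)]⟩)
  .k 1 (⟨0,[]⟩,⟨0,[]⟩) .k .k) (.K ⟨0,[1,0,-1],0,0,(⟨0,[(7,0)]⟩,⟨0,[(8,0)]⟩),.k,(.x 0 ⟨0,[(11,0)]⟩
  ⟨3,[(5,0),(0,0),(2,1),(0,3)]⟩),(.r (-1) ⟨7,[(4,3),(0,4),(0,0),(2,1),(3,7),(2,3)]⟩ ⟨0,[(1,0)]⟩),.k,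
  .k,[⟨0,[(4,0),(3,0),(0,0)]⟩,⟨0,[(7,0)]⟩,⟨0,[(1,0),(2,0),(3,0),(0,0),(3,0)]⟩,⟨0,[(0,0)]⟩]⟩) (.Q [0,
  1,1,0,-1,0,1,-1,1] (.p true [0,0,1] [1] (⟨0,[(8,0)]⟩,⟨0,[(7,0)]⟩) .k 1 (⟨0,[]⟩,⟨0,[]⟩) .k .k) (.K
  ⟨0,[1,0,-1],0,1,(⟨0,[(8,0)]⟩,⟨0,[(9,0)]⟩),.k,(.x 0 ⟨0,[(12,0)]⟩ ⟨3,[(6,0),(0,0),(2,1),(0,3)]⟩),
  (.r (-1) ⟨7,[(5,3),(0,4),(0,0),(2,1),(3,7),(2,3)]⟩ ⟨0,[(2,0)]⟩),.k,.k,[⟨3,[(0,1),(0,0),(1,0),(1,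
  1),(0,1),(3,0)]⟩,⟨0,[(8,0)]⟩,⟨0,[(0,0)]⟩,⟨1,[(6,0),(1,1),(7,0),(2,1)]⟩]⟩) (.I [1,1,-1,-1,0,0,-1]
  (.R ⟨2,true,false,true,[0,1],[1,0,-1],[0,1,1],(⟨0,[]⟩,⟨0,[]⟩),(⟨0,[(9,0)]⟩,⟨0,[(10,0)]⟩),⟨0,[]⟩,
  .k,.k,.k,(.x (-1) ⟨3,[(7,0),(0,0),(2,1),(0,3)]⟩ ⟨0,[(13,0)]⟩),.k,.k,⟨false,0,⟨1,[(2,0),(0,0),(5,
  0),(5,0)]⟩,⟨1,[(7,0),(9,0)]⟩⟩,⟨true,0,⟨0,[(9,0)]⟩,⟨3,[(0,1),(1,3),(3,1),(0,0),(3,0),(2,1)]⟩⟩,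
  ⟨false,0,⟨0,[(16,0)]⟩,⟨0,[(15,0),(2,0)]⟩⟩,⟨true,0,⟨0,[(0,0),(8,0)]⟩,⟨0,[(2,0),(12,0)]⟩⟩,⟨true,0,
  ⟨0,[(20,0)]⟩,⟨0,[]⟩⟩,⟨false,1,⟨0,[(1,0),(18,0)]⟩,⟨0,[(2,0)]⟩⟩,[]⟩) (.Q [0,0,1,0,-1,0,1,0,1] (.p
  true [0,0,1] [] (⟨0,[(10,0)]⟩,⟨0,[(9,0)]⟩) .k 0 (⟨0,[]⟩,⟨0,[]⟩) .k .k) (.R ⟨2,false,false,false,
  [0,1],[1,0,-1],[0,0,1],(⟨0,[]⟩,⟨0,[]⟩),(⟨0,[(10,0)]⟩,⟨0,[(11,0)]⟩),⟨0,[]⟩,.k,.k,.k,(.x (-1) ⟨3,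
  [(8,0),(0,0),(2,1),(0,3)]⟩ ⟨0,[(14,0)]⟩),.k,.k,⟨false,0,⟨9,[(1,3),(2,3),(1,1),(2,0),(2,0),(3,1)]⟩,
  ⟨1,[(8,0),(9,0)]⟩⟩,⟨true,0,⟨0,[(10,0)]⟩,⟨1,[(0,1),(7,0),(3,0)]⟩⟩,⟨true,0,⟨0,[(17,0)]⟩,⟨0,[(16,
  0)]⟩⟩,⟨false,1,⟨0,[(2,0),(14,0)]⟩,⟨0,[(3,0),(12,0)]⟩⟩,⟨false,1,⟨3,[(8,0),(0,0),(9,1)]⟩,⟨0,[]⟩⟩,
  ⟨false,1,⟨0,[(2,0)]⟩,⟨2,[(0,1),(4,0),(6,0),(8,0)]⟩⟩,[.a ⟨true,1,⟨0,[(2,0),(18,0)]⟩,⟨0,[(0,0)]⟩⟩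
  ⟨true,0,⟨7,[(7,3),(0,0),(0,0),(2,1)]⟩,⟨0,[]⟩⟩ ⟨false,1,⟨0,[(2,0),(18,0)]⟩,⟨2,[(0,0),(2,0),(0,0),
  (6,0),(0,0),(2,0)]⟩⟩,.e ⟨false,1,⟨3,[(8,0),(0,0),(9,1)]⟩,⟨3,[(6,1),(5,0),(2,1),(2,0)]⟩⟩ ⟨false,1,
  ⟨0,[(2,0)]⟩,⟨13,[(0,7),(3,3),(4,0),(1,5),(0,6),(2,3),(5,9)]⟩⟩,.o ⟨false,1,⟨1,[(12,0),(5,0)]⟩,⟨7,
  [(7,3),(0,0),(0,0),(2,1)]⟩⟩,.fo]⟩) (.I [1,-1,0,0,0,0,1] (.R ⟨2,true,false,false,[0,1],[0,0,1],[0,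
  1,1],(⟨0,[]⟩,⟨0,[]⟩),(⟨0,[(12,0)]⟩,⟨0,[(11,0)]⟩),⟨0,[]⟩,.k,.k,.k,(.r (-1) ⟨15,[(2,7),(5,3),(0,14),
  (0,2),(2,1),(3,7)]⟩ ⟨0,[(5,0)]⟩),.k,.k,⟨true,0,⟨1,[(7,0),(0,0),(0,0),(3,0),(3,0)]⟩,⟨0,[(0,0)]⟩⟩,
  ⟨false,0,⟨9,[(6,1),(1,3),(0,0),(2,7),(0,0),(8,1)]⟩,⟨1,[(0,0),(0,1),(3,0),(10,0)]⟩⟩,⟨false,0,⟨0,
  [(18,0)]⟩,⟨0,[(17,0),(2,0)]⟩⟩,⟨true,(-1),⟨0,[(4,0),(2,0)]⟩,⟨0,[(1,0),(15,0)]⟩⟩,⟨true,0,⟨0,[(22,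
  0)]⟩,⟨0,[]⟩⟩,⟨false,0,⟨2,[(0,1),(5,0),(1,0),(3,1)]⟩,⟨0,[(1,0)]⟩⟩,[]⟩) (.R ⟨2,true,false,true,[0,
  1],[1,0,-1],[0,1,1],(⟨0,[]⟩,⟨0,[]⟩),(⟨0,[(11,0)]⟩,⟨0,[(12,0)]⟩),⟨0,[]⟩,.k,.k,.k,(.x (-1) ⟨3,[(9,
  0),(0,0),(2,1),(0,3)]⟩ ⟨0,[(15,0)]⟩),.k,.k,⟨false,0,⟨9,[(2,3),(2,3),(1,1),(2,0),(2,0),(3,1)]⟩,⟨1,
  [(9,0),(9,0)]⟩⟩,⟨true,0,⟨0,[(11,0)]⟩,⟨0,[(0,0),(3,0)]⟩⟩,⟨false,0,⟨0,[(18,0)]⟩,⟨0,[(17,0),(2,0)]⟩⟩,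
  ⟨true,0,⟨0,[(1,0),(5,0)]⟩,⟨0,[(4,0),(12,0)]⟩⟩,⟨true,0,⟨0,[(22,0)]⟩,⟨0,[]⟩⟩,⟨false,1,⟨0,[(3,0),(18,
  0)]⟩,⟨0,[(4,0)]⟩⟩,[]⟩)))))) (.Q [0,1,1,0,0,0,1,-1,1] (.p true [0,0,1] [1] (⟨0,[(7,0)]⟩,⟨0,[(6,
  0)]⟩) .k 1 (⟨0,[]⟩,⟨0,[]⟩) .k .k) (.I [1,0,0,0,0,0,-1] (.K ⟨0,[1,0,-1],0,0,(⟨0,[(8,0)]⟩,⟨0,[(9,
  0)]⟩),.k,(.x 0 ⟨0,[(12,0)]⟩ ⟨3,[(6,0),(0,0),(2,1),(0,3)]⟩),(.r 0 ⟨1,[(0,1),(4,1),(4,0),(2,1),(3,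
  0)]⟩ ⟨1,[(7,0),(7,1),(0,0)]⟩),.k,.k,[⟨0,[(5,0),(3,0),(0,0)]⟩,⟨0,[(8,0)]⟩,⟨0,[(1,0)]⟩,⟨3,[(0,3),(3,
  1),(3,3),(1,0),(2,1),(2,0)]⟩]⟩) t0) (.Q [0,0,1,0,0,0,1,0,1] (.p true [0,0,1] [] (⟨0,[(8,0)]⟩,⟨0,
  [(7,0)]⟩) .k 0 (⟨0,[]⟩,⟨0,[]⟩) .k .k) (.I [1,1,0,0,0,0,1] (.R ⟨2,false,false,true,[0,1],[0,0,1],
  [0,0,1],(⟨0,[]⟩,⟨0,[]⟩),(⟨0,[(10,0)]⟩,⟨0,[(9,0)]⟩),⟨0,[]⟩,.k,.k,.k,(.r 0 ⟨1,[(2,1),(3,3),(3,1),(0,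
  2),(2,3),(1,1),(1,0)]⟩ ⟨1,[(8,0),(7,1),(0,0)]⟩),.k,.k,⟨true,0,⟨0,[(2,0),(3,0),(3,0),(0,0)]⟩,⟨0,
  [(0,0)]⟩⟩,⟨false,0,⟨5,[(1,1),(4,1),(0,0),(2,3),(0,0)]⟩,⟨1,[(0,1),(1,1),(8,0),(5,0)]⟩⟩,⟨true,0,⟨0,
  [(16,0)]⟩,⟨0,[(15,0)]⟩⟩,⟨false,0,⟨0,[(4,0),(0,0)]⟩,⟨1,[(2,1),(8,0),(3,1),(2,0)]⟩⟩,⟨false,1,⟨3,[(7,
  0),(0,0),(9,1)]⟩,⟨0,[]⟩⟩,⟨false,0,⟨0,[(1,0)]⟩,⟨5,[(2,3),(4,0),(1,1),(1,2),(5,0),(0,0)]⟩⟩,[.a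
  ⟨true,0,⟨0,[(1,0),(18,0)]⟩,⟨0,[(2,0)]⟩⟩ ⟨true,0,⟨7,[(6,3),(0,0),(0,0),(2,1)]⟩,⟨0,[]⟩⟩ ⟨false,0,⟨0,
  [(1,0),(18,0)]⟩,⟨1,[(2,1),(8,0),(5,0)]⟩⟩,.e ⟨false,1,⟨3,[(7,0),(0,0),(9,1)]⟩,⟨3,[(5,1),(5,0),(2,
  1),(2,0)]⟩⟩ ⟨false,0,⟨0,[(1,0)]⟩,⟨1,[(2,1),(8,0),(5,0),(2,1)]⟩⟩,.o ⟨false,1,⟨1,[(11,0),(5,0)]⟩,⟨7,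
  [(6,3),(0,0),(0,0),(2,1)]⟩⟩,.fo]⟩) (.R ⟨2,false,false,true,[0,1],[0,0,1],[0,1,1,0,0,0,1],(⟨0,[]⟩,
  ⟨0,[]⟩),(⟨0,[(10,0)]⟩,⟨0,[(9,0)]⟩),⟨0,[]⟩,.k,.k,.k,(.r 0 ⟨0,[(0,4),(4,1),(0,1),(1,1),(2,1),(2,
  2)]⟩ ⟨1,[(8,0),(7,1),(0,0)]⟩),.k,.k,⟨true,0,⟨7,[(6,3),(0,0),(0,0),(2,1)]⟩,⟨0,[]⟩⟩,⟨false,0,⟨5,[(1,
  1),(4,1),(0,0),(2,3),(0,0)]⟩,⟨3,[(2,3),(2,1),(2,1),(2,2),(2,1),(2,0)]⟩⟩,⟨true,0,⟨1,[(5,1),(2,0),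
  (2,0)]⟩,⟨1,[(0,0),(2,0),(10,0)]⟩⟩,⟨false,0,⟨0,[(4,0),(0,0)]⟩,⟨1,[(2,1),(8,0),(3,1),(2,0)]⟩⟩,
  ⟨false,1,⟨3,[(7,0),(0,2)]⟩,⟨0,[(0,0)]⟩⟩,⟨false,0,⟨0,[(1,0)]⟩,⟨5,[(2,3),(4,0),(1,1),(1,2),(5,0),(0,
  0)]⟩⟩,[.a ⟨true,0,⟨0,[(1,0),(18,0)]⟩,⟨0,[(2,0)]⟩⟩ ⟨true,0,⟨1,[(5,0),(0,0),(1,0),(2,0),(3,0)]⟩,⟨0,
  [(0,0)]⟩⟩ ⟨false,0,⟨0,[(1,0),(18,0)]⟩,⟨1,[(2,1),(8,0),(5,0)]⟩⟩,.e ⟨false,1,⟨3,[(7,0),(0,2)]⟩,⟨3,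
  [(0,3),(4,1),(5,0),(2,1),(2,0)]⟩⟩ ⟨false,0,⟨0,[(1,0)]⟩,⟨1,[(2,1),(8,0),(5,0),(2,1)]⟩⟩,.o ⟨false,1,
  ⟨1,[(11,0),(5,0)]⟩,⟨7,[(6,3),(0,0),(0,0),(2,1)]⟩⟩,.fo]⟩)) (.I [1,-1,0,0,0,0,-1] (.R ⟨2,true,false,
  false,[0,1],[0,0,1],[0,1,1],(⟨0,[]⟩,⟨0,[]⟩),(⟨0,[(10,0)]⟩,⟨0,[(9,0)]⟩),⟨0,[]⟩,.k,.k,.k,(.r 0 ⟨0,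
  [(0,0),(5,1),(4,0),(2,2),(1,1),(1,0)]⟩ ⟨1,[(8,0),(7,1),(0,0)]⟩),.k,.k,⟨true,(-1),⟨0,[(0,0),(4,0),
  (0,0),(4,0),(2,0)]⟩,⟨1,[(8,0),(9,0)]⟩⟩,⟨false,0,⟨9,[(4,1),(1,3),(0,0),(2,7),(0,0),(8,1)]⟩,⟨1,[(1,
  1),(6,0),(8,0)]⟩⟩,⟨false,0,⟨0,[(16,0)]⟩,⟨0,[(15,0),(2,0)]⟩⟩,⟨true,0,⟨0,[(4,0),(0,0)]⟩,⟨0,[(1,0),
  (13,0)]⟩⟩,⟨true,0,⟨0,[(20,0)]⟩,⟨0,[]⟩⟩,⟨false,1,⟨5,[(4,1),(1,1),(0,0),(0,2),(1,3),(7,1)]⟩,⟨0,[(1,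
  0)]⟩⟩,[]⟩) (.R ⟨2,true,false,true,[0,1],[0,0,1],[0,0,1],(⟨0,[]⟩,⟨0,[]⟩),(⟨0,[(10,0)]⟩,⟨0,[(9,
  0)]⟩),⟨0,[]⟩,.k,.k,.k,(.r 0 ⟨0,[(1,0),(4,1),(3,0),(0,0),(2,1),(1,0),(1,0)]⟩ ⟨1,[(8,0),(7,1),(0,
  0)]⟩),.k,.k,⟨true,0,⟨1,[(1,1),(4,1),(3,1),(0,0),(6,0)]⟩,⟨0,[(0,0)]⟩⟩,⟨false,0,⟨9,[(4,1),(1,3),(0,
  0),(2,7),(0,0),(8,1)]⟩,⟨1,[(1,1),(6,0),(8,0)]⟩⟩,⟨true,0,⟨0,[(16,0)]⟩,⟨0,[(15,0)]⟩⟩,⟨false,0,⟨0,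
  [(4,0),(0,0)]⟩,⟨0,[(1,0),(13,0),(2,0)]⟩⟩,⟨false,1,⟨3,[(7,0),(0,0),(9,1)]⟩,⟨0,[]⟩⟩,⟨true,0,⟨2,[(0,
  1),(3,0),(1,0),(3,1),(9,1)]⟩,⟨0,[(1,0)]⟩⟩,[]⟩)))))

def tree : Tre :=
  (.Q [0,-1,1,0,1,0,1,-1,1] (.p true [0,0,1] [1] (⟨0,[(5,0)]⟩,⟨0,[(4,0)]⟩) .k 1 (⟨0,[]⟩,⟨0,[]⟩) .k
  .k) t1 (.K ⟨0,[1,0,-1],0,(-1),(⟨0,[(5,0)]⟩,⟨0,[(6,0)]⟩),.k,(.x 0 ⟨0,[(9,0)]⟩ ⟨3,[(3,0),(0,0),(2,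
  1),(0,3)]⟩),(.r 0 ⟨5,[(0,3),(1,7),(0,0),(2,3),(0,5),(2,5),(3,4)]⟩ ⟨1,[(4,0),(7,1),(0,0)]⟩),.k,.k,
  [⟨0,[(2,0),(3,0),(0,0)]⟩,⟨0,[(5,0)]⟩,⟨7,[(2,3),(0,0),(0,4),(1,7),(0,5),(8,7)]⟩,⟨0,[(0,0)]⟩]⟩))

theorem ok : chk (cPU 1 true) tree base = true := by
  decide +kernel

theorem closed {p a b c J l q : ℤ} {D dl : ℝ} {Cl : ℤ → ℤ → ℤ → ℤ → ℝ → Prop}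
    (W : World p a b c J 1 l q D dl Cl) (hE : KEmp p a b 1 (P1 l p) Cl)
    (g : G0 p a b c J D)
    {N R : ℤ} {I : ℝ} (hu : UFac p b D Cl N R I)
    (s0 : (c : ℝ) + 1 ≤ 0)
    (s1 : (b : ℝ) - c + 1 ≤ a)
    (s2 : p - D < 2 * b)
    (s3 : -(a : ℝ) < D - c - p) : False := by
  have g1 := g.a2
  have g2 := g.b2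
  have g3 := g.pa
  have g4 := g.pb
  have g5 := g.J1
  have g6 := g.JD
  have g7 := g.D2
  have g8 := g.ca
  have g9 := g.ca'
  have t1 := TF.ofU hu
  have i1 := t1.I0
  have i2 := t1.ID
  have i3 := t1.R1
  have i4 := t1.R2
  refine (val_PU W.toBase (UV.ofU hu)).sound W rfl (Nk := 0) (fun kf hkf hh => ?_) (kok_B hE (by simp [xv]) (by simp [xv]) 0) ?_ ok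
  · simp only [cPU, kfB, List.mem_cons, List.not_mem_nil, or_false] at hkf
    subst hkf
    exact absurd hh (by norm_num)
  · simp only [base, List.forall_mem_cons, List.not_mem_nil, false_imp_iff, implies_true,
      and_true, hld, xv, evg_cons, evg_nil, List.map_cons, List.map_nil, List.cons_append,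
      List.nil_append, if_true, if_false, Bool.false_eq_true]
    push_cast
    refine ⟨?_, ?_, ?_, ?_, ?_, ?_, ?_, ?_, ?_, ?_, ?_, ?_, ?_, ?_, ?_, ?_⟩ <;> linarith

end Helper25.KG.Pm1_1_1_1_u
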