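import Pool.Agent.Helper25.KG.PL

set_option autoImplicit false
set_option linter.unusedVariables false

namespace Helper25.KG.Pm1_1_m1_0_u

open Helper11.CT Helper25.KW Helper25.KG

def base : List Con :=
  [(false,[0,1,0,-1,0,0,0,-1]),
  (false,[0,0,2,0,0,0,0,-1]),
  (true,[0,0,0,0,1,0,-2]),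
  (true,[0,0,0,0,1,0,2]),
  (false,[0,0,0,0,0,0,0,1,-1]),
  (false,[0,0,0,0,0,0,0,0,1]),
  (false,[0,0,0,0,1,0,0,-2]),
  (false,[0,0,0,0,0,-1,0,1]),
  (true,[0,0,0,0,0,1]),
  (true,[0,1,-1,1]),
  (true,[0,1,0,1]),
  (true,[0,0,0,-1]),
  (true,[0,0,-2,0,1]),
  (true,[0,-2,0,0,1]),
  (true,[-1,0,1]),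
  (true,[-1,1])]

def t0 : Tre :=
  (.Q [0,1,2,0,-1,0,2,1,-2] (.p false [0,0,1] [1,0,-1] (⟨0,[(15,0)]⟩,⟨0,[(14,0)]⟩) .k 2 (⟨0,[(14,
  0)]⟩,⟨0,[(15,0)]⟩) .k (.r 0 ⟨0,[(7,1),(7,1),(3,1),(1,1)]⟩ ⟨0,[(12,0)]⟩)) (.Q [0,-1,1,1,0,0,1,1,
  -1] (.p false [0,0,1] [1] (⟨0,[(16,0)]⟩,⟨0,[(15,0)]⟩) .k 1 (⟨0,[]⟩,⟨0,[]⟩) .k .k) (.Q [0,0,1,0,0,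
  0,0,-1] (.pp true [-1,1]) (.Q [0,0,0,0,0,1,0,-1,1] (.ed false [0,1,1] .k) (.Q [0,0,2,1,-1,0,2,2,
  -2] (.p false [-1,0,2] [1] (⟨0,[(0,0),(6,0)]⟩,⟨0,[(18,1)]⟩) .k 1 (⟨0,[]⟩,⟨0,[]⟩) .k (.r 0 ⟨2,[(0,
  1),(1,1),(0,1),(1,1),(1,1)]⟩ ⟨0,[(16,0)]⟩)) (.Q [0,1,-2,-1,1,0,-2,-2,2] (.p true [-1,0,2] [1] (⟨0,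
  [(1,0),(6,0)]⟩,⟨0,[(19,1)]⟩) .k 1 (⟨0,[]⟩,⟨0,[]⟩) .k (.r 0 ⟨20,[(0,9),(0,11),(2,5),(1,9),(1,11),
  (2,3),(0,5),(5,1)]⟩ ⟨0,[(17,0)]⟩)) (.R ⟨0,false,false,false,[1,0,-1],[-1,1,1],[1,0,1,1,0,0,1],(⟨0,
  [(20,0)]⟩,⟨0,[(21,0)]⟩),(⟨0,[(2,0)]⟩,⟨0,[(20,0),(2,0)]⟩),⟨0,[(2,0)]⟩,.k,(.x 0 ⟨0,[(24,0)]⟩ ⟨3,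
  [(18,0),(0,0),(2,1),(0,3)]⟩),(.x (-1) ⟨3,[(18,0),(0,0),(2,1),(0,3)]⟩ ⟨0,[(24,0)]⟩),(.r (-1) ⟨1,
  [(0,0),(7,0),(6,0),(4,2),(6,2)]⟩ ⟨31,[(1,27),(0,21),(5,1),(0,21),(2,9),(6,4),(2,10),(2,1)]⟩),.k,
  .k,⟨true,0,⟨0,[]⟩,⟨0,[(30,0)]⟩⟩,⟨false,0,⟨0,[(20,1)]⟩,⟨25,[(0,1),(1,17),(5,1),(0,17),(2,9),(6,2),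
  (2,8)]⟩⟩,⟨false,0,⟨3,[(1,2),(0,2),(5,0),(0,2),(2,1),(0,2)]⟩,⟨1,[(0,0),(7,0),(6,0),(4,2),(6,2)]⟩⟩,
  ⟨true,(-1),⟨0,[(1,0)]⟩,⟨0,[(0,0)]⟩⟩,⟨false,0,⟨0,[]⟩,⟨0,[]⟩⟩,⟨false,0,⟨0,[]⟩,⟨0,[]⟩⟩,[.o ⟨false,0,
  ⟨5,[(1,1),(2,1),(13,0),(0,0),(6,1)]⟩,⟨0,[(0,0),(12,0)]⟩⟩,.o ⟨false,0,⟨0,[(4,0)]⟩,⟨7,[(0,3),(15,3),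
  (1,0),(0,0),(2,1)]⟩⟩,.o ⟨false,1,⟨25,[(0,5),(1,1),(5,5),(0,1),(2,3),(6,8),(2,0)]⟩,⟨1,[(13,0),(1,
  0),(0,0),(3,0)]⟩⟩,.a ⟨true,0,⟨0,[(21,0)]⟩,⟨0,[(20,0)]⟩⟩ ⟨true,0,⟨7,[(1,2),(0,2),(5,0),(0,2),(2,1),
  (0,2),(11,3)]⟩,⟨0,[(15,0),(9,0),(1,2)]⟩⟩ ⟨false,0,⟨0,[(4,0),(15,0)]⟩,⟨7,[(0,3),(1,2),(4,1),(1,2),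
  (7,2),(9,1),(1,1)]⟩⟩]⟩) (.R ⟨0,false,false,true,[1,0,-1],[-1,1,1],[1,1,1,1,0,0,1],(⟨0,[(20,0)]⟩,
  ⟨0,[(21,0)]⟩),(⟨0,[(2,0)]⟩,⟨0,[(20,0),(2,0)]⟩),⟨0,[(2,0)]⟩,.k,(.x 0 ⟨0,[(24,0)]⟩ ⟨3,[(18,0),(0,0),
  (2,1),(0,3)]⟩),(.x (-1) ⟨3,[(18,0),(0,0),(2,1),(0,3)]⟩ ⟨0,[(24,0)]⟩),(.r (-1) ⟨0,[(7,0),(7,1),(4,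
  0),(6,1)]⟩ ⟨2,[(0,0),(0,0),(0,1),(6,1),(9,0),(2,0),(2,0)]⟩),.k,.k,⟨true,0,⟨0,[]⟩,⟨0,[(30,0)]⟩⟩,
  ⟨false,0,⟨0,[(20,1)]⟩,⟨1,[(2,0),(6,0),(2,0),(8,0),(0,0)]⟩⟩,⟨true,(-1),⟨0,[(0,0),(1,0),(6,0),(6,0),
  (8,0)]⟩,⟨0,[(7,0),(7,1),(4,0),(6,1)]⟩⟩,⟨false,(-1),⟨0,[(1,0)]⟩,⟨0,[(8,0),(2,0),(4,0),(10,0)]⟩⟩,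
  ⟨false,0,⟨0,[]⟩,⟨0,[]⟩⟩,⟨false,0,⟨0,[]⟩,⟨0,[]⟩⟩,[.e ⟨false,0,⟨13,[(1,1),(0,3),(2,1),(3,3),(9,2),
  (2,0),(2,7),(0,3)]⟩,⟨0,[(8,0),(11,0),(6,1)]⟩⟩ ⟨false,(-1),⟨0,[(0,0),(14,0),(9,1),(1,2)]⟩,⟨0,[(7,
  0),(3,0),(5,0)]⟩⟩,.o ⟨false,0,⟨5,[(1,1),(2,1),(13,0),(0,0),(6,1)]⟩,⟨0,[(8,0),(7,0),(10,0)]⟩⟩,.o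
  ⟨false,1,⟨7,[(12,3),(5,0),(0,0),(1,3),(0,1)]⟩,⟨1,[(13,0),(1,0),(0,0),(3,0)]⟩⟩,.a ⟨true,0,⟨0,[(21,
  0)]⟩,⟨0,[(20,0)]⟩⟩ ⟨false,0,⟨51,[(0,23),(1,17),(5,1),(0,17),(2,9),(6,2),(2,8),(2,25)]⟩,⟨1,[(18,0),
  (8,1),(1,0)]⟩⟩ ⟨true,(-1),⟨0,[(0,0),(14,0),(9,1),(1,2)]⟩,⟨1,[(2,0),(5,0),(0,0),(1,0),(4,1),(10,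
  0)]⟩⟩]⟩)) (.Q [0,0,-2,0,1,0,-2,-1,2] (.p true [0,0,1] [1,0,-1] (⟨0,[(20,0)]⟩,⟨0,[(19,0)]⟩) .k 2
  (⟨0,[(19,0)]⟩,⟨0,[(20,0)]⟩) .k (.r 0 ⟨2,[(1,1),(1,1),(0,1),(1,1),(1,1)]⟩ ⟨0,[(17,0)]⟩)) (.R ⟨0,
  false,false,true,[1,0,-1],[0,0,1],[0,1,1],(⟨0,[(20,0)]⟩,⟨0,[(21,0)]⟩),(⟨0,[(21,0)]⟩,⟨0,[(20,0)]⟩),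
  ⟨0,[(2,0)]⟩,.k,.k,(.x (-1) ⟨3,[(18,0),(0,0),(2,1),(0,3)]⟩ ⟨0,[(24,0)]⟩),.k,.k,.k,⟨true,0,⟨0,[(15,
  0),(11,0)]⟩,⟨2,[(2,0),(1,0),(0,0),(1,0),(1,0)]⟩⟩,⟨false,0,⟨1,[(13,0),(1,0),(0,0),(3,2)]⟩,⟨0,[(12,
  0),(8,0)]⟩⟩,⟨false,0,⟨4,[(5,0),(7,0),(3,0),(1,0),(1,2)]⟩,⟨2,[(1,0),(6,0),(11,2),(8,0)]⟩⟩,⟨true,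
  (-1),⟨0,[(5,0)]⟩,⟨0,[(0,0)]⟩⟩,⟨false,0,⟨0,[]⟩,⟨0,[]⟩⟩,⟨false,0,⟨0,[]⟩,⟨0,[]⟩⟩,[.o ⟨false,0,⟨0,
  [(14,0)]⟩,⟨2,[(1,0),(6,0),(20,0)]⟩⟩,.o ⟨false,0,⟨3,[(5,1),(16,0),(6,0)]⟩,⟨7,[(0,3),(17,0),(0,0),
  (2,1)]⟩⟩,.o ⟨false,1,⟨9,[(0,2),(1,0),(6,0),(2,1),(6,2),(2,1)]⟩,⟨1,[(13,0),(1,0),(0,0),(3,0)]⟩⟩,.a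
  ⟨true,0,⟨0,[(21,0)]⟩,⟨0,[(20,0)]⟩⟩ ⟨true,0,⟨0,[(31,0)]⟩,⟨0,[]⟩⟩ ⟨false,0,⟨3,[(5,1),(14,3),(1,0),
  (6,0)]⟩,⟨2,[(1,0),(6,0),(12,2),(7,0)]⟩⟩]⟩) (.R ⟨0,false,false,false,[1,0,-1],[0,0,1],[1,0,1],(⟨0,
  [(20,0)]⟩,⟨0,[(21,0)]⟩),(⟨0,[(21,0)]⟩,⟨0,[(20,0)]⟩),⟨0,[(2,0)]⟩,.k,.k,(.x (-1) ⟨3,[(18,0),(0,0),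
  (2,1),(0,3)]⟩ ⟨0,[(24,0)]⟩),.k,.k,.k,⟨true,0,⟨0,[(15,0),(11,0)]⟩,⟨8,[(0,2),(1,1),(1,0),(2,1),(1,
  1),(9,0),(1,0),(3,0)]⟩⟩,⟨false,0,⟨1,[(13,0),(1,0),(0,0),(3,2)]⟩,⟨0,[(12,0),(8,0)]⟩⟩,⟨false,0,⟨1,
  [(0,0),(1,0),(6,0),(19,0)]⟩,⟨1,[(18,0),(9,0)]⟩⟩,⟨true,(-1),⟨0,[(0,0)]⟩,⟨2,[(1,1),(16,0),(1,0),(0,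
  2),(3,1),(5,0)]⟩⟩,⟨false,0,⟨0,[]⟩,⟨0,[]⟩⟩,⟨false,0,⟨0,[]⟩,⟨0,[]⟩⟩,[.o ⟨false,0,⟨5,[(0,1),(13,1),
  (7,0),(6,0)]⟩,⟨19,[(1,7),(8,3),(7,2),(0,2),(2,1),(3,3)]⟩⟩,.o ⟨false,0,⟨0,[(13,0)]⟩,⟨3,[(1,1),(16,
  0),(0,0),(6,1),(4,1)]⟩⟩,.o ⟨false,1,⟨37,[(1,11),(0,1),(5,5),(0,1),(2,3),(6,14),(2,0),(3,5)]⟩,⟨1,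
  [(13,0),(1,0),(0,0),(3,0)]⟩⟩,.a ⟨true,0,⟨0,[(21,0)]⟩,⟨0,[(20,0)]⟩⟩ ⟨true,0,⟨0,[]⟩,⟨0,[(31,0)]⟩⟩
  ⟨false,0,⟨0,[(13,0),(6,0)]⟩,⟨25,[(1,11),(8,5),(6,1),(0,2),(0,4),(1,21),(4,5)]⟩⟩]⟩))) (.Q [0,0,0,1,
  0,0,0,0,1] (.p true [0,0,1] [] (⟨0,[(19,0)]⟩,⟨0,[(18,0)]⟩) .k 0 (⟨0,[]⟩,⟨0,[]⟩) .k .k) (.R ⟨1,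
  false,false,false,[1,0,-1],[1,-1],[1,0,0,0,0,0,-1],(⟨0,[(19,0)]⟩,⟨0,[(20,0)]⟩),(⟨0,[(22,0)]⟩,⟨0,
  [(23,0)]⟩),⟨0,[(1,0)]⟩,.k,.k,(.x (-1) ⟨7,[(1,3),(6,3),(8,2),(0,2),(2,1)]⟩ ⟨0,[(23,0)]⟩),(.r 0 ⟨0,
  [(14,0)]⟩ ⟨11,[(6,3),(10,0),(0,6),(0,3),(6,7)]⟩),.k,.k,⟨true,0,⟨0,[(14,0)]⟩,⟨2,[(4,0),(1,0),(5,0),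
  (7,1),(5,1)]⟩⟩,⟨false,0,⟨2,[(1,1),(0,0),(2,0),(10,0)]⟩,⟨0,[(20,0),(6,0)]⟩⟩,⟨true,0,⟨0,[]⟩,⟨0,[(30,
  0)]⟩⟩,⟨false,0,⟨0,[(12,0),(13,0)]⟩,⟨0,[(10,0),(14,0)]⟩⟩,⟨false,1,⟨7,[(3,3),(5,3),(7,0),(0,0),(2,
  1)]⟩,⟨0,[(26,0)]⟩⟩,⟨false,0,⟨0,[(12,0)]⟩,⟨0,[(10,0),(19,0)]⟩⟩,[.a ⟨true,0,⟨0,[(26,0)]⟩,⟨0,[(0,0),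
  (18,0)]⟩⟩ ⟨false,1,⟨1,[(17,0),(9,0)]⟩,⟨2,[(0,0),(3,0),(1,0),(5,0),(7,0)]⟩⟩ ⟨true,0,⟨2,[(1,1),(0,
  0),(2,0),(10,0),(9,2)]⟩,⟨0,[(0,0)]⟩⟩,.o ⟨false,1,⟨0,[(15,0),(12,0)]⟩,⟨0,[(25,0)]⟩⟩,.o ⟨false,1,⟨7,
  [(11,3),(5,0),(0,0),(1,3),(0,1)]⟩,⟨2,[(1,1),(0,0),(2,0),(10,0)]⟩⟩,.e ⟨false,1,⟨2,[(1,1),(3,0),(1,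
  1),(2,0),(15,1)]⟩,⟨4,[(4,0),(7,0),(3,0),(1,0),(1,2)]⟩⟩ ⟨false,1,⟨11,[(1,7),(3,3),(9,7),(1,0),(0,
  0),(7,3),(1,9)]⟩,⟨0,[(0,0)]⟩⟩]⟩) (.R ⟨1,false,false,false,[1,0,-1],[1,-1],[1,0,0,0,0,0,-1],(⟨0,
  [(19,0)]⟩,⟨0,[(20,0)]⟩),(⟨0,[(22,0)]⟩,⟨0,[(23,0)]⟩),⟨0,[(1,0)]⟩,.k,.k,(.x (-1) ⟨7,[(1,3),(6,3),(8,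
  2),(0,2),(2,1)]⟩ ⟨0,[(23,0)]⟩),(.r 0 ⟨0,[(14,0)]⟩ ⟨11,[(6,3),(10,0),(0,6),(0,3),(6,7)]⟩),.k,.k,
  ⟨true,0,⟨0,[(14,0)]⟩,⟨2,[(4,0),(1,0),(5,0),(7,1),(5,1)]⟩⟩,⟨false,0,⟨9,[(0,3),(3,1),(7,1),(1,3),(2,
  0),(3,0)]⟩,⟨0,[(20,0),(6,0)]⟩⟩,⟨true,0,⟨0,[]⟩,⟨0,[(30,0)]⟩⟩,⟨false,0,⟨0,[(12,0),(13,0)]⟩,⟨0,[(10,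
  0),(14,0)]⟩⟩,⟨false,1,⟨7,[(3,3),(5,3),(7,0),(0,0),(2,1)]⟩,⟨0,[(26,0)]⟩⟩,⟨false,0,⟨0,[(12,0)]⟩,⟨0,
  [(10,0),(19,0)]⟩⟩,[.e ⟨false,1,⟨1,[(17,0),(9,0)]⟩,⟨3,[(4,0),(1,0),(5,1),(7,2),(3,0)]⟩⟩ ⟨false,0,
  ⟨0,[(0,0)]⟩,⟨2,[(9,0),(0,0),(7,0),(1,0),(3,0),(0,0)]⟩⟩,.o ⟨false,1,⟨0,[(15,0),(12,0)]⟩,⟨0,[(25,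
  0)]⟩⟩,.o ⟨false,1,⟨7,[(11,3),(5,0),(0,0),(1,3),(0,1)]⟩,⟨9,[(0,3),(3,1),(7,1),(1,3),(2,0),(3,0)]⟩⟩,
  .a ⟨true,0,⟨0,[(20,0)]⟩,⟨0,[(19,0)]⟩⟩ ⟨false,1,⟨4,[(0,1),(0,1),(3,0),(1,1),(2,2)]⟩,⟨4,[(4,0),(7,
  0),(3,0),(1,0),(1,2)]⟩⟩ ⟨true,0,⟨0,[(0,0)]⟩,⟨0,[(20,0),(4,0)]⟩⟩]⟩))) (.R ⟨2,false,false,true,[0,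
  1],[1,0,-1],[0,0,1],(⟨0,[]⟩,⟨0,[]⟩),(⟨0,[(17,0)]⟩,⟨0,[(18,0)]⟩),⟨0,[]⟩,.k,.k,.k,(.x 0 ⟨0,[(21,
  0)]⟩ ⟨3,[(15,0),(0,0),(2,1),(0,3)]⟩),.k,.k,⟨true,0,⟨0,[(10,0),(7,0)]⟩,⟨0,[(0,0),(11,0),(0,0)]⟩⟩,
  ⟨false,1,⟨7,[(9,3),(5,0),(0,0),(1,3),(0,1)]⟩,⟨0,[(17,0)]⟩⟩,⟨true,0,⟨0,[(24,0)]⟩,⟨0,[(23,0)]⟩⟩,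
  ⟨false,1,⟨0,[(8,0),(4,0)]⟩,⟨0,[(1,0)]⟩⟩,⟨false,1,⟨3,[(15,0),(0,0),(9,1)]⟩,⟨0,[]⟩⟩,⟨false,1,⟨2,[(5,
  0),(3,0),(3,0),(1,0),(2,0)]⟩,⟨0,[(1,0),(22,0)]⟩⟩,[.o ⟨false,1,⟨1,[(9,0),(3,0),(1,0),(2,0),(4,0)]⟩,
  ⟨0,[(10,0)]⟩⟩,.o ⟨false,1,⟨2,[(5,0),(3,0),(3,0),(1,0),(2,0)]⟩,⟨3,[(2,1),(16,0),(6,0)]⟩⟩,.a ⟨true,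
  0,⟨0,[(0,0)]⟩,⟨0,[(27,0)]⟩⟩ ⟨true,0,⟨0,[(27,0)]⟩,⟨1,[(0,0),(12,0),(8,0)]⟩⟩ ⟨false,1,⟨1,[(15,0),(2,
  1),(0,0)]⟩,⟨0,[(0,0),(9,0)]⟩⟩,.e ⟨false,1,⟨3,[(15,0),(0,0),(9,1)]⟩,⟨0,[]⟩⟩ ⟨false,1,⟨2,[(5,0),(3,
  0),(3,0),(1,0),(2,0)]⟩,⟨0,[(1,0),(22,0)]⟩⟩]⟩)) (.Q [0,0,0,0,0,1,0,-1,1] (.ed false [0,1,1] .k)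
  (.K ⟨0,[-1,1,1],0,0,(⟨0,[(0,0)]⟩,⟨0,[(17,0),(2,0)]⟩),(.x 0 ⟨0,[(21,0)]⟩ ⟨3,[(15,0),(0,0),(2,1),(0,
  3)]⟩),.k,(.r 0 ⟨1,[(10,2),(1,0),(5,2),(4,2)]⟩ ⟨3,[(1,1),(2,1),(10,0),(1,3),(6,3),(1,0)]⟩),.k,.k,
  [⟨1,[(0,0),(5,0),(7,0)]⟩,⟨0,[(17,0),(9,0)]⟩,⟨0,[(1,0)]⟩,⟨2,[(2,0),(9,0),(3,0),(0,1),(0,0),(4,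
  1)]⟩]⟩) (.K ⟨0,[1,-1,-1],0,0,(⟨0,[(0,0)]⟩,⟨1,[(3,0),(14,2)]⟩),(.x (-1) ⟨7,[(0,3),(5,3),(8,2),(0,
  2),(2,1)]⟩ ⟨0,[(21,0)]⟩),(.r (-1) ⟨3,[(0,1),(0,0),(1,0),(0,1),(3,0),(6,0),(1,0),(6,4)]⟩ ⟨1,[(10,
  2),(1,0),(5,2),(4,2)]⟩),.k,.k,.k,[⟨0,[(17,0),(9,0)]⟩,⟨2,[(1,1),(8,2),(1,0),(1,0),(3,3),(3,0)]⟩,⟨2,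
  [(2,0),(9,0),(3,0),(0,1),(0,0),(4,1)]⟩,⟨0,[(1,0)]⟩]⟩))) (.Q [0,0,0,1,0,0,0,1] (.pp false [-1,1])
  (.R ⟨0,false,false,false,[0,-1,1],[1,-1],[1],(⟨0,[(5,0)]⟩,⟨1,[(2,0),(13,1),(0,0)]⟩),(⟨0,[(19,0)]⟩,
  ⟨0,[(20,0)]⟩),⟨0,[(2,0)]⟩,(.r (-1) ⟨11,[(3,3),(10,0),(0,6),(0,3),(6,7)]⟩ ⟨0,[(11,0)]⟩),.k,(.r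
  (-1) ⟨2,[(3,1),(5,0),(5,0),(0,1),(0,0),(3,0),(1,4)]⟩ ⟨1,[(9,0),(1,2),(5,0),(4,0)]⟩),.k,.k,.k,
  ⟨true,0,⟨1,[(9,0),(1,0),(5,0),(4,0)]⟩,⟨0,[(23,0)]⟩⟩,⟨false,1,⟨0,[(8,0)]⟩,⟨0,[(16,0),(9,0)]⟩⟩,
  ⟨true,0,⟨0,[(11,0)]⟩,⟨0,[(9,0),(7,0),(3,1),(1,2)]⟩⟩,⟨false,1,⟨3,[(1,1),(16,0),(6,0)]⟩,⟨1,[(9,0),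
  (0,0),(5,1),(0,1)]⟩⟩,⟨false,0,⟨0,[]⟩,⟨0,[]⟩⟩,⟨false,0,⟨0,[]⟩,⟨0,[]⟩⟩,[.a ⟨true,0,⟨0,[(23,0)]⟩,⟨0,
  [(0,0)]⟩⟩ ⟨true,0,⟨0,[]⟩,⟨0,[(26,0)]⟩⟩ ⟨false,1,⟨0,[(3,0)]⟩,⟨0,[(0,0),(12,0),(2,0)]⟩⟩,.o ⟨false,1,
  ⟨0,[(12,0),(12,0)]⟩,⟨0,[(22,0)]⟩⟩,.o ⟨false,0,⟨0,[(13,0),(2,0)]⟩,⟨0,[(8,0)]⟩⟩,.o ⟨false,0,⟨0,[(13,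
  0),(2,0),(9,0)]⟩,⟨3,[(1,0),(1,2),(5,1),(7,0),(3,2)]⟩⟩]⟩) (.Q [0,0,0,0,0,1,0,-1,1] (.ed false [0,1,
  1] .k) (.R ⟨0,false,false,true,[1,0,-1],[0,1],[1,0,0,0,0,0,-1],(⟨0,[(17,0)]⟩,⟨0,[(18,0)]⟩),(⟨0,
  [(21,0)]⟩,⟨0,[(20,0)]⟩),⟨0,[(0,0)]⟩,.k,.k,(.x (-1) ⟨3,[(15,0),(0,0),(2,1),(0,3)]⟩ ⟨0,[(21,0)]⟩),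
  (.x (-1) ⟨3,[(15,0),(0,0),(2,1),(0,3)]⟩ ⟨0,[(21,0)]⟩),.k,.k,⟨false,1,⟨2,[(1,0),(0,1),(1,0),(5,0),
  (6,3),(6,0)]⟩,⟨1,[(10,0),(0,0),(6,1),(4,1)]⟩⟩,⟨true,0,⟨0,[(17,0)]⟩,⟨1,[(0,0),(5,0),(7,0)]⟩⟩,⟨true,
  0,⟨0,[]⟩,⟨0,[(28,0)]⟩⟩,⟨false,0,⟨0,[(10,0),(6,0),(0,0),(4,0)]⟩,⟨0,[(1,0),(6,0)]⟩⟩,⟨false,0,⟨0,[]⟩,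
  ⟨0,[]⟩⟩,⟨false,0,⟨0,[]⟩,⟨0,[]⟩⟩,[.o ⟨false,0,⟨0,[(23,0)]⟩,⟨0,[(13,0),(12,0)]⟩⟩,.o ⟨false,1,⟨3,
  [(15,0),(0,0),(6,3),(2,1)]⟩,⟨0,[(1,0)]⟩⟩,.o ⟨false,1,⟨3,[(2,0),(6,0),(6,0),(1,0),(0,0),(8,0)]⟩,⟨3,
  [(1,1),(8,0),(0,0),(0,1),(4,1)]⟩⟩,.a ⟨true,0,⟨0,[(18,0)]⟩,⟨0,[(17,0)]⟩⟩ ⟨false,1,⟨3,[(2,1),(14,3),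
  (1,0),(6,0)]⟩,⟨1,[(10,0),(0,0),(6,1)]⟩⟩ ⟨true,0,⟨0,[(17,0),(5,0)]⟩,⟨0,[(1,0),(16,0)]⟩⟩]⟩) (.R ⟨1,
  false,false,false,[1,0,-1],[1,-1],[1,0,0,0,0,0,-1],(⟨0,[(17,0)]⟩,⟨0,[(18,0)]⟩),(⟨0,[(20,0)]⟩,⟨0,
  [(21,0)]⟩),⟨0,[(0,0)]⟩,.k,.k,(.x (-1) ⟨7,[(0,3),(5,3),(8,2),(0,2),(2,1)]⟩ ⟨0,[(21,0)]⟩),(.r 0 ⟨0,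
  [(12,0)]⟩ ⟨11,[(4,3),(10,0),(0,6),(0,3),(6,7)]⟩),.k,.k,⟨true,0,⟨0,[(12,0)]⟩,⟨0,[(10,0),(7,0),(3,
  0),(1,1)]⟩⟩,⟨false,0,⟨7,[(0,3),(0,1),(1,1),(6,0),(0,0),(0,1),(1,1)]⟩,⟨0,[(18,0),(6,0)]⟩⟩,⟨true,0,
  ⟨0,[]⟩,⟨0,[(28,0)]⟩⟩,⟨false,0,⟨0,[(10,0),(13,0)]⟩,⟨0,[(8,0),(14,0)]⟩⟩,⟨false,1,⟨0,[(23,0),(2,0)]⟩,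
  ⟨0,[(24,0)]⟩⟩,⟨false,0,⟨0,[(10,0)]⟩,⟨0,[(8,0),(19,0)]⟩⟩,[.o ⟨false,0,⟨0,[(1,0)]⟩,⟨3,[(15,0),(0,0),
  (6,3),(2,1)]⟩⟩,.o ⟨false,1,⟨0,[(13,0),(12,0)]⟩,⟨0,[(23,0)]⟩⟩,.o ⟨false,1,⟨3,[(2,0),(6,0),(6,0),(1,
  0),(0,0),(8,0)]⟩,⟨7,[(0,3),(0,1),(1,1),(6,0),(0,0),(0,1),(1,1)]⟩⟩,.a ⟨true,0,⟨0,[(18,0)]⟩,⟨0,[(17,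
  0)]⟩⟩ ⟨false,1,⟨15,[(0,7),(1,3),(0,3),(0,1),(0,1),(9,2),(10,4)]⟩,⟨1,[(10,0),(0,0),(6,1)]⟩⟩ ⟨true,
  0,⟨0,[(1,0),(15,0)]⟩,⟨0,[(18,0),(4,0)]⟩⟩]⟩))))

def t1 : Tre :=
  (.Q [0,0,-3,-1,1,0,0,-1,1] (.p true [0,0,1] [1] (⟨0,[(13,0)]⟩,⟨0,[(12,0)]⟩) .k 1 (⟨0,[]⟩,⟨0,[]⟩)
  .k .k) (.Q [0,0,0,0,0,2,0,0,-1] (.p false [0,0,1] [] (⟨0,[(14,0)]⟩,⟨0,[(13,0)]⟩) .k 0 (⟨0,[]⟩,⟨0,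
  []⟩) .k .k) t0 (.Q [0,0,0,0,0,-1,0,1,-1] (.ed true [0,1,1] .k) (.Q [0,1,-1,-1,0,0,-1,0,1] (.p
  true [0,0,1] [] (⟨0,[(16,0)]⟩,⟨0,[(15,0)]⟩) .k 0 (⟨0,[]⟩,⟨0,[]⟩) .k .k) (.K ⟨0,[0,1,1],0,0,(⟨0,
  [(17,0),(2,0)]⟩,⟨0,[(1,0)]⟩),(.x 0 ⟨0,[(20,0)]⟩ ⟨11,[(1,3),(0,3),(11,4),(0,4),(2,1)]⟩),.k,(.r 0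
  ⟨1,[(9,2),(1,0),(5,2),(4,2)]⟩ ⟨2,[(0,0),(2,0),(0,1),(7,0),(3,3),(6,4)]⟩),.k,.k,[⟨0,[(17,0),(8,
  0)]⟩,⟨1,[(9,0),(1,0),(0,0),(3,0)]⟩,⟨0,[(0,0)]⟩,⟨1,[(9,0),(0,0),(11,1)]⟩]⟩) (.Q [0,0,0,1,0,0,0,0,
  1] (.p true [0,0,1] [] (⟨0,[(17,0)]⟩,⟨0,[(16,0)]⟩) .k 0 (⟨0,[]⟩,⟨0,[]⟩) .k .k) (.R ⟨1,false,false,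
  false,[1,0,-1],[1,-1],[1,0,0,0,0,0,-1],(⟨0,[(17,0)]⟩,⟨0,[(18,0)]⟩),(⟨0,[(20,0)]⟩,⟨0,[(21,0)]⟩),⟨0,
  [(2,0)]⟩,.k,.k,(.x (-1) ⟨11,[(2,3),(0,3),(11,4),(0,4),(2,1)]⟩ ⟨0,[(21,0)]⟩),(.r 0 ⟨0,[(12,0)]⟩
  ⟨11,[(4,3),(10,0),(0,6),(0,3),(6,7)]⟩),.k,.k,⟨true,0,⟨0,[(12,0)]⟩,⟨0,[(10,0),(7,0),(3,0),(1,1)]⟩⟩,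
  ⟨false,0,⟨1,[(10,0),(1,0),(0,0),(3,0)]⟩,⟨0,[(18,0),(6,0)]⟩⟩,⟨true,0,⟨0,[]⟩,⟨0,[(28,0)]⟩⟩,⟨false,0,
  ⟨0,[(10,0),(13,0)]⟩,⟨0,[(8,0),(14,0)]⟩⟩,⟨false,1,⟨3,[(1,1),(5,1),(7,0),(0,0)]⟩,⟨0,[(24,0)]⟩⟩,
  ⟨false,0,⟨0,[(10,0)]⟩,⟨0,[(8,0),(19,0)]⟩⟩,[.a ⟨true,0,⟨0,[(24,0)]⟩,⟨0,[(0,0),(16,0)]⟩⟩ ⟨false,1,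
  ⟨1,[(15,0),(9,0)]⟩,⟨0,[(10,0),(7,0),(3,0),(1,0)]⟩⟩ ⟨true,0,⟨1,[(10,0),(1,0),(0,0),(3,0),(6,1)]⟩,
  ⟨0,[(0,0)]⟩⟩,.o ⟨false,1,⟨0,[(13,0),(12,0)]⟩,⟨0,[(23,0)]⟩⟩,.o ⟨false,1,⟨7,[(9,3),(5,0),(0,0),(1,
  3),(0,1)]⟩,⟨1,[(10,0),(1,0),(0,0),(3,0)]⟩⟩,.e ⟨false,1,⟨0,[(5,0),(11,0),(6,0)]⟩,⟨1,[(10,0),(0,0),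
  (6,1)]⟩⟩ ⟨false,1,⟨0,[(13,0),(3,0),(8,0)]⟩,⟨0,[(0,0)]⟩⟩]⟩) (.R ⟨1,false,false,false,[1,0,-1],[1,
  -1],[1,0,0,0,0,0,-1],(⟨0,[(17,0)]⟩,⟨0,[(18,0)]⟩),(⟨0,[(20,0)]⟩,⟨0,[(21,0)]⟩),⟨0,[(2,0)]⟩,.k,.k,
  (.x (-1) ⟨11,[(2,3),(0,3),(11,4),(0,4),(2,1)]⟩ ⟨0,[(21,0)]⟩),(.r 0 ⟨0,[(12,0)]⟩ ⟨11,[(4,3),(10,0),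
  (0,6),(0,3),(6,7)]⟩),.k,.k,⟨true,0,⟨0,[(12,0)]⟩,⟨0,[(10,0),(7,0),(3,0),(1,1)]⟩⟩,⟨false,0,⟨5,[(0,
  2),(0,0),(9,0),(0,1),(1,0),(2,0)]⟩,⟨0,[(18,0),(6,0)]⟩⟩,⟨true,0,⟨0,[]⟩,⟨0,[(28,0)]⟩⟩,⟨false,0,⟨0,
  [(10,0),(13,0)]⟩,⟨0,[(8,0),(14,0)]⟩⟩,⟨false,1,⟨3,[(1,1),(5,1),(7,0),(0,0)]⟩,⟨0,[(24,0)]⟩⟩,⟨false,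
  0,⟨0,[(10,0)]⟩,⟨0,[(8,0),(19,0)]⟩⟩,[.e ⟨false,1,⟨1,[(15,0),(9,0)]⟩,⟨0,[(10,0),(7,0),(3,0),(1,
  0)]⟩⟩ ⟨false,0,⟨0,[(0,0)]⟩,⟨2,[(7,0),(0,0),(7,0),(1,0),(3,0),(0,0)]⟩⟩,.o ⟨false,1,⟨0,[(13,0),(12,
  0)]⟩,⟨0,[(23,0)]⟩⟩,.o ⟨false,1,⟨7,[(9,3),(5,0),(0,0),(1,3),(0,1)]⟩,⟨5,[(0,2),(0,0),(9,0),(0,1),(1,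
  0),(2,0)]⟩⟩,.a ⟨true,0,⟨0,[(18,0)]⟩,⟨0,[(17,0)]⟩⟩ ⟨false,1,⟨1,[(0,0),(4,0),(2,0),(8,0)]⟩,⟨1,[(10,
  0),(0,0),(6,1)]⟩⟩ ⟨true,0,⟨0,[(0,0)]⟩,⟨0,[(18,0),(4,0)]⟩⟩]⟩))) (.Q [0,0,0,1,0,0,0,1] (.pp false
  [-1,1]) (.R ⟨0,false,false,true,[-1,1,1],[0,1],[0,1,1],(⟨0,[(1,0)]⟩,⟨0,[(16,0),(2,0)]⟩),(⟨0,[(20,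
  0)]⟩,⟨0,[(19,0)]⟩),⟨0,[(16,0)]⟩,(.x 0 ⟨0,[(20,0)]⟩ ⟨7,[(2,3),(7,3),(3,2),(0,0),(8,1),(0,1)]⟩),.k,
  .k,.k,.k,.k,⟨true,0,⟨0,[(23,0)]⟩,⟨9,[(0,3),(0,1),(0,0),(6,2),(1,2),(1,1),(8,2)]⟩⟩,⟨false,1,⟨0,[(8,
  0)]⟩,⟨0,[(16,0),(9,0)]⟩⟩,⟨true,0,⟨0,[(11,0),(9,0),(1,2)]⟩,⟨0,[(9,0),(7,0),(3,0)]⟩⟩,⟨false,1,⟨6,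
  [(1,1),(0,0),(1,0),(3,2),(3,0),(1,2)]⟩,⟨0,[(9,0),(6,0),(0,0)]⟩⟩,⟨false,0,⟨0,[]⟩,⟨0,[]⟩⟩,⟨false,0,
  ⟨0,[]⟩,⟨0,[]⟩⟩,[.o ⟨false,0,⟨0,[(22,0)]⟩,⟨0,[(12,0),(12,0)]⟩⟩,.a ⟨true,0,⟨0,[(0,0)]⟩,⟨0,[(23,
  0)]⟩⟩ ⟨true,0,⟨0,[(26,0)]⟩,⟨0,[]⟩⟩ ⟨false,1,⟨19,[(1,3),(0,1),(1,9),(3,3),(6,4),(2,0),(2,1),(0,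
  7)]⟩,⟨0,[(16,0),(6,0)]⟩⟩,.o ⟨false,0,⟨0,[(16,0)]⟩,⟨0,[(17,0),(0,0)]⟩⟩,.o ⟨false,0,⟨0,[(16,0),(9,
  0)]⟩,⟨18,[(1,7),(0,3),(0,2),(0,0),(3,3),(0,0),(8,10),(2,1)]⟩⟩]⟩) (.R ⟨0,false,false,true,[1,0,-1],
  [0,1],[0,1,0,0,0,0,-1],(⟨0,[(16,0)]⟩,⟨0,[(17,0)]⟩),(⟨0,[(20,0)]⟩,⟨0,[(19,0)]⟩),⟨0,[(1,0)]⟩,.k,.k,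
  (.x (-1) ⟨7,[(2,3),(7,3),(3,2),(0,0),(8,1),(0,1)]⟩ ⟨0,[(20,0)]⟩),(.x (-1) ⟨7,[(2,3),(7,3),(3,2),
  (0,0),(8,1),(0,1)]⟩ ⟨0,[(20,0)]⟩),.k,.k,⟨false,1,⟨0,[(3,0),(7,0),(4,0),(6,0)]⟩,⟨0,[(9,0),(7,0),(4,
  0)]⟩⟩,⟨true,0,⟨0,[(16,0)]⟩,⟨3,[(1,1),(0,0),(10,1),(3,0)]⟩⟩,⟨true,0,⟨0,[(27,0)]⟩,⟨0,[]⟩⟩,⟨false,0,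
  ⟨0,[(9,0),(6,0),(0,0),(4,0)]⟩,⟨0,[(0,0),(6,0)]⟩⟩,⟨false,0,⟨0,[]⟩,⟨0,[]⟩⟩,⟨false,0,⟨0,[]⟩,⟨0,[]⟩⟩,
  [.o ⟨false,0,⟨0,[(22,0)]⟩,⟨0,[(12,0),(12,0)]⟩⟩,.o ⟨false,1,⟨3,[(14,0),(0,0),(6,3),(2,1)]⟩,⟨0,[(0,
  0)]⟩⟩,.o ⟨false,1,⟨7,[(8,3),(5,0),(0,0),(1,3),(0,1)]⟩,⟨3,[(0,1),(8,0),(0,0),(0,1),(4,1)]⟩⟩,.a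
  ⟨true,0,⟨0,[(17,0)]⟩,⟨0,[(16,0)]⟩⟩ ⟨false,1,⟨1,[(14,0),(9,0)]⟩,⟨0,[(9,0),(7,0)]⟩⟩ ⟨true,0,⟨0,[(16,
  0),(5,0)]⟩,⟨0,[(0,0),(16,0)]⟩⟩]⟩)))) (.Q [0,0,0,0,0,2,0,0,-1] (.p false [0,0,1] [] (⟨0,[(14,0)]⟩,
  ⟨0,[(13,0)]⟩) .k 0 (⟨0,[]⟩,⟨0,[]⟩) .k .k) (.Q [0,0,0,1,0,0,0,1] (.pp false [-1,1]) (.R ⟨0,false,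
  false,false,[0,-1,1],[1,-1],[],(⟨0,[(4,0)]⟩,⟨1,[(1,0),(13,1),(0,0)]⟩),(⟨0,[(18,0)]⟩,⟨0,[(19,0)]⟩),
  ⟨0,[(1,0)]⟩,(.r (-1) ⟨1,[(14,0),(7,1),(0,0)]⟩ ⟨0,[(10,0)]⟩),.k,(.r (-1) ⟨0,[(8,0),(7,0),(3,0),(1,
  2),(0,0)]⟩ ⟨3,[(2,1),(0,0),(1,0),(4,1),(1,0),(8,1)]⟩),.k,.k,.k,⟨true,0,⟨14,[(2,4),(0,3),(4,1),(3,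
  0),(1,0),(1,2),(4,5)]⟩,⟨0,[(22,0)]⟩⟩,⟨false,1,⟨0,[(7,0)]⟩,⟨5,[(2,1),(10,0),(0,0),(0,3),(6,1)]⟩⟩,
  ⟨true,0,⟨0,[(10,0)]⟩,⟨0,[(8,0),(7,0),(3,1),(1,2)]⟩⟩,⟨false,1,⟨0,[(3,0),(18,0)]⟩,⟨1,[(8,0),(0,0),
  (5,1),(0,1)]⟩⟩,⟨false,0,⟨0,[]⟩,⟨0,[]⟩⟩,⟨false,0,⟨0,[]⟩,⟨0,[]⟩⟩,[.a ⟨true,0,⟨0,[(22,0)]⟩,⟨0,[(0,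
  0)]⟩⟩ ⟨false,1,⟨3,[(13,0),(0,0),(8,1)]⟩,⟨0,[]⟩⟩ ⟨true,1,⟨0,[(7,0),(14,0)]⟩,⟨0,[(2,0)]⟩⟩,.o ⟨false,
  1,⟨0,[(11,0),(12,0)]⟩,⟨0,[(21,0)]⟩⟩,.o ⟨false,0,⟨11,[(2,3),(5,4),(0,2),(1,1),(0,1),(0,3),(8,1)]⟩,
  ⟨0,[(7,0)]⟩⟩,.e ⟨false,1,⟨1,[(23,0),(0,0)]⟩,⟨9,[(2,1),(9,1),(0,0),(0,0),(1,1),(5,1)]⟩⟩ ⟨false,2,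
  ⟨1,[(7,1),(14,1),(0,0),(0,0)]⟩,⟨0,[(2,0)]⟩⟩]⟩) (.Q [0,0,0,0,0,0,0,-1,2] (.ed false [0,0,2] (.r 0
  ⟨0,[(8,1),(7,1),(3,1),(1,1)]⟩ ⟨0,[(13,0)]⟩)) (.K ⟨0,[-1,0,2],(-1),(-1),(⟨0,[(0,0)]⟩,⟨0,[(16,1)]⟩),
  .k,(.x 1 ⟨0,[(1,0),(1,0),(1,0)]⟩ ⟨3,[(2,1),(4,1),(7,0),(8,4),(2,1)]⟩),(.r 0 ⟨1,[(9,2),(0,0),(6,3),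
  (3,1)]⟩ ⟨0,[(1,0),(5,0),(3,0),(4,0),(4,0),(1,1)]⟩),.k,.k,[⟨11,[(0,7),(6,3),(0,3),(5,0),(0,2),(11,
  3)]⟩,⟨0,[(1,0),(1,0),(12,0)]⟩,⟨1,[(0,0),(0,0),(5,1),(3,1),(9,3),(1,4)]⟩,⟨0,[(3,0),(5,1),(7,0),(3,
  2),(1,3)]⟩]⟩) (.K ⟨0,[1,0,-2],1,1,(⟨0,[(0,0)]⟩,⟨0,[(17,1)]⟩),.k,(.r (-1) ⟨1,[(0,0),(0,0),(5,1),(3,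
  1),(9,1),(1,4)]⟩ ⟨1,[(9,2),(0,0),(6,3),(3,1)]⟩),(.x (-2) ⟨3,[(2,1),(4,1),(7,0),(8,4),(2,1)]⟩ ⟨0,
  [(1,0),(1,0),(1,0)]⟩),.k,.k,[⟨1,[(0,0),(0,0),(1,1),(19,0)]⟩,⟨7,[(8,3),(5,0),(0,0),(1,11),(0,1)]⟩,
  ⟨0,[(3,0),(5,1),(7,0),(3,2),(1,3)]⟩,⟨0,[(1,0),(5,0),(3,0),(5,0),(3,1),(1,1)]⟩]⟩))) (.Q [0,0,-3,0,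
  1,0,0,0,1] (.p true [0,0,1] [] (⟨0,[(15,0)]⟩,⟨0,[(14,0)]⟩) .k 0 (⟨0,[]⟩,⟨0,[]⟩) .k .k) (.R ⟨1,
  false,false,false,[0,-1,1],[1,-1],[1,0,-1,-1,0,0,1],(⟨0,[(4,0)]⟩,⟨0,[(15,0),(3,0)]⟩),(⟨0,[(18,
  0)]⟩,⟨0,[(19,0)]⟩),⟨0,[(1,0)]⟩,(.r (-1) ⟨1,[(14,0),(7,1),(0,0)]⟩ ⟨0,[(10,0)]⟩),.k,(.r (-1) ⟨1,[(0,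
  1),(7,0),(0,0),(12,3)]⟩ ⟨3,[(2,1),(0,0),(1,0),(4,1),(1,0),(8,1)]⟩),.k,(.r (-1) ⟨1,[(14,0),(7,1),
  (0,0)]⟩ ⟨0,[(10,0)]⟩),.k,⟨true,0,⟨0,[(8,0),(7,0),(3,0),(1,0)]⟩,⟨0,[(10,0),(11,0)]⟩⟩,⟨false,1,⟨0,
  [(7,0)]⟩,⟨5,[(2,1),(10,0),(0,0),(0,3),(6,1)]⟩⟩,⟨true,0,⟨0,[]⟩,⟨0,[(26,0)]⟩⟩,⟨false,1,⟨0,[(3,0),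
  (18,0)]⟩,⟨1,[(8,0),(0,0),(5,1),(0,1)]⟩⟩,⟨false,1,⟨0,[(21,0),(2,0)]⟩,⟨0,[(22,0)]⟩⟩,⟨false,1,⟨0,[(3,
  0)]⟩,⟨1,[(8,0),(0,0),(5,1),(0,1),(5,1)]⟩⟩,[.a ⟨true,0,⟨0,[(22,0)]⟩,⟨0,[(0,0),(1,0)]⟩⟩ ⟨false,1,⟨1,
  [(0,1),(7,0),(0,0),(12,1)]⟩,⟨0,[(10,0)]⟩⟩ ⟨true,1,⟨0,[(7,0),(14,0)]⟩,⟨0,[(2,0)]⟩⟩,.o ⟨false,1,⟨0,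
  [(11,0),(12,0)]⟩,⟨0,[(21,0)]⟩⟩,.o ⟨false,0,⟨11,[(2,3),(5,4),(0,2),(1,1),(0,1),(0,3),(8,1)]⟩,⟨0,
  [(7,0)]⟩⟩,.e ⟨false,1,⟨0,[(0,0),(7,0),(13,0)]⟩,⟨15,[(2,3),(7,11),(1,3),(0,2),(0,0),(1,3)]⟩⟩
  ⟨false,2,⟨0,[(0,0),(10,0),(12,0)]⟩,⟨0,[(2,0)]⟩⟩]⟩) (.Q [0,0,0,1,0,0,0,1] (.pp false [-1,1]) (.R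
  ⟨1,false,false,false,[0,-1,1],[1,-1],[1,0,-1,-1,0,0,1],(⟨0,[(5,0)]⟩,⟨0,[(16,0),(3,0)]⟩),(⟨0,[(19,
  0)]⟩,⟨0,[(20,0)]⟩),⟨0,[(2,0)]⟩,(.r (-1) ⟨1,[(15,0),(7,1),(0,0)]⟩ ⟨0,[(11,0)]⟩),.k,(.r (-1) ⟨0,[(9,
  0),(7,0),(3,0),(1,2),(0,0)]⟩ ⟨3,[(3,1),(0,0),(1,0),(4,1),(1,0),(8,1)]⟩),.k,(.r (-1) ⟨1,[(15,0),(7,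
  1),(0,0)]⟩ ⟨0,[(11,0)]⟩),.k,⟨true,0,⟨0,[(9,0),(7,0),(3,0),(1,0)]⟩,⟨0,[(11,0),(11,0)]⟩⟩,⟨false,1,
  ⟨0,[(8,0)]⟩,⟨5,[(3,1),(10,0),(0,0),(0,3),(6,1)]⟩⟩,⟨true,0,⟨0,[]⟩,⟨0,[(27,0)]⟩⟩,⟨false,1,⟨0,[(4,0),
  (18,0)]⟩,⟨1,[(9,0),(0,0),(5,1),(0,1)]⟩⟩,⟨false,1,⟨0,[(22,0),(2,0)]⟩,⟨0,[(23,0)]⟩⟩,⟨false,1,⟨0,[(4,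
  0)]⟩,⟨1,[(9,0),(0,0),(5,1),(0,1),(5,1)]⟩⟩,[.a ⟨true,0,⟨0,[(23,0)]⟩,⟨0,[(0,0)]⟩⟩ ⟨false,1,⟨0,[(9,
  0),(7,0),(3,0),(1,1),(0,0)]⟩,⟨0,[(11,0)]⟩⟩ ⟨true,1,⟨0,[(8,0),(14,0)]⟩,⟨0,[(3,0)]⟩⟩,.o ⟨false,1,⟨0,
  [(12,0),(12,0)]⟩,⟨0,[(22,0)]⟩⟩,.o ⟨false,0,⟨3,[(1,1),(8,1),(3,0),(10,0)]⟩,⟨0,[(8,0)]⟩⟩,.o ⟨false,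
  (-1),⟨0,[(1,0)]⟩,⟨3,[(8,3),(5,0),(0,0),(8,1)]⟩⟩]⟩) (.Q [0,0,0,0,0,1,0,-1,1] (.ed false [0,1,1]
  .k) (.R ⟨0,false,false,true,[1,0,-1],[0,1],[1,1,2,1],(⟨0,[(17,0)]⟩,⟨0,[(18,0)]⟩),(⟨0,[(21,0)]⟩,⟨0,
  [(20,0)]⟩),⟨0,[(0,0)]⟩,.k,.k,(.x (-1) ⟨7,[(3,3),(7,3),(3,2),(0,0),(8,1),(0,1)]⟩ ⟨0,[(21,0)]⟩),(.x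
  (-1) ⟨7,[(3,3),(7,3),(3,2),(0,0),(8,1),(0,1)]⟩ ⟨0,[(21,0)]⟩),.k,.k,⟨false,0,⟨0,[]⟩,⟨3,[(15,0),(0,
  0),(8,1)]⟩⟩,⟨true,0,⟨0,[(17,0)]⟩,⟨3,[(0,1),(2,0),(10,1),(3,0)]⟩⟩,⟨true,(-1),⟨0,[(2,0),(7,0),(7,1),
  (3,1),(1,0)]⟩,⟨0,[(1,0),(6,0),(8,0),(4,0),(1,0)]⟩⟩,⟨false,0,⟨12,[(4,4),(2,0),(2,5),(5,3),(0,7),(0,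
  4),(3,6)]⟩,⟨0,[(1,0),(6,0)]⟩⟩,⟨false,0,⟨0,[]⟩,⟨0,[]⟩⟩,⟨false,0,⟨0,[]⟩,⟨0,[]⟩⟩,[.o ⟨false,0,⟨0,
  [(23,0)]⟩,⟨0,[(13,0),(12,0)]⟩⟩,.o ⟨false,1,⟨3,[(15,0),(0,0),(6,3),(2,1)]⟩,⟨0,[(1,0)]⟩⟩,.o ⟨false,
  1,⟨7,[(9,3),(5,0),(0,0),(1,3),(0,1)]⟩,⟨2,[(2,0),(14,1),(1,0)]⟩⟩,.a ⟨true,0,⟨0,[(18,0)]⟩,⟨0,[(17,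
  0)]⟩⟩ ⟨false,0,⟨56,[(0,5),(2,2),(0,22),(0,15),(4,1),(3,0),(1,6),(6,17)]⟩,⟨1,[(24,1),(0,0),(0,
  0)]⟩⟩ ⟨true,0,⟨0,[(17,0),(5,0)]⟩,⟨0,[(1,0),(16,0)]⟩⟩]⟩) (.R ⟨1,false,false,false,[1,0,-1],[1,-1],
  [1,0,0,0,0,0,-1],(⟨0,[(17,0)]⟩,⟨0,[(18,0)]⟩),(⟨0,[(20,0)]⟩,⟨0,[(21,0)]⟩),⟨0,[(0,0)]⟩,.k,.k,(.x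
  (-1) ⟨11,[(0,3),(2,3),(11,4),(0,4),(2,1)]⟩ ⟨0,[(21,0)]⟩),(.r 0 ⟨0,[(12,0)]⟩ ⟨1,[(16,0),(7,1),(0,
  0)]⟩),.k,.k,⟨true,0,⟨0,[(12,0)]⟩,⟨0,[(10,0),(7,0),(3,0),(1,1)]⟩⟩,⟨false,0,⟨2,[(2,0),(14,1),(1,
  0)]⟩,⟨0,[(18,0),(6,0)]⟩⟩,⟨true,0,⟨0,[]⟩,⟨0,[(28,0)]⟩⟩,⟨false,0,⟨0,[(10,0),(13,0)]⟩,⟨0,[(8,0),(14,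
  0)]⟩⟩,⟨false,1,⟨0,[(23,0),(2,0)]⟩,⟨0,[(24,0)]⟩⟩,⟨false,0,⟨0,[(10,0)]⟩,⟨0,[(8,0),(19,0)]⟩⟩,[.o
  ⟨false,0,⟨0,[(1,0)]⟩,⟨3,[(15,0),(0,0),(6,3),(2,1)]⟩⟩,.o ⟨false,1,⟨0,[(13,0),(12,0)]⟩,⟨0,[(23,
  0)]⟩⟩,.o ⟨false,1,⟨7,[(9,3),(5,0),(0,0),(1,3),(0,1)]⟩,⟨2,[(2,0),(14,1),(1,0)]⟩⟩,.a ⟨true,0,⟨0,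
  [(18,0)]⟩,⟨0,[(17,0)]⟩⟩ ⟨false,1,⟨1,[(1,0),(3,0),(2,0),(8,1)]⟩,⟨1,[(10,0),(0,0),(6,1)]⟩⟩ ⟨true,0,
  ⟨0,[(1,0),(15,0)]⟩,⟨0,[(18,0),(4,0)]⟩⟩]⟩))))))

def t2 : Tre :=
  (.I [1,0,1,1] (.Q [0,0,0,0,0,1,0,-1,1] (.ed false [0,1,1] .k) (.Q [0,1,1,1,0,0,1,1,-1] (.p false
  [0,0,1] [1] (⟨0,[(12,0)]⟩,⟨0,[(11,0)]⟩) .k 1 (⟨0,[]⟩,⟨0,[]⟩) .k .k) (.R ⟨0,false,false,false,[-1,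
  1,1],[0,1],[0,0,1],(⟨0,[(1,0)]⟩,⟨0,[(12,0),(2,0)]⟩),(⟨0,[(16,0)]⟩,⟨0,[(15,0)]⟩),⟨0,[(12,0)]⟩,(.x
  0 ⟨0,[(16,0)]⟩ ⟨3,[(10,0),(0,0),(2,1),(0,3)]⟩),.k,.k,.k,.k,.k,⟨true,0,⟨0,[(19,0)]⟩,⟨0,[(2,0)]⟩⟩,
  ⟨false,1,⟨1,[(4,1),(6,0),(8,0)]⟩,⟨0,[(12,0),(9,0)]⟩⟩,⟨false,0,⟨0,[(3,0),(2,0),(12,0)]⟩,⟨1,[(11,0),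
  (6,1),(2,0)]⟩⟩,⟨true,0,⟨0,[(4,0)]⟩,⟨0,[(0,0),(18,0)]⟩⟩,⟨false,0,⟨0,[]⟩,⟨0,[]⟩⟩,⟨false,0,⟨0,[]⟩,⟨0,
  []⟩⟩,[.a ⟨true,0,⟨0,[(0,0),(5,0)]⟩,⟨0,[(19,0)]⟩⟩ ⟨true,0,⟨0,[(22,0)]⟩,⟨0,[]⟩⟩ ⟨false,1,⟨1,[(6,1),
  (4,0),(2,0),(3,1)]⟩,⟨0,[(12,0),(6,0)]⟩⟩,.o ⟨false,1,⟨0,[(18,0),(2,0)]⟩,⟨0,[(8,0)]⟩⟩,.o ⟨false,0,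
  ⟨0,[(12,0)]⟩,⟨0,[(13,0),(0,0)]⟩⟩,.o ⟨false,0,⟨0,[(12,0),(9,0)]⟩,⟨1,[(4,1),(6,0),(2,0)]⟩⟩]⟩) (.I
  [0,0,-2,0,0,2] (.R ⟨0,false,false,false,[1,-1],[1,-1,1],[1],(⟨0,[(16,0)]⟩,⟨0,[(17,0)]⟩),(⟨0,[(14,
  0),(1,0)]⟩,⟨1,[(0,0),(3,1)]⟩),⟨0,[(0,0),(9,0)]⟩,.k,(.r (-1) ⟨1,[(12,0),(7,1),(0,0)]⟩ ⟨0,[(8,0)]⟩),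
  (.x (-1) ⟨3,[(10,3),(0,0),(0,0),(2,1),(0,7)]⟩ ⟨0,[(0,0)]⟩),.k,.k,.k,⟨false,0,⟨1,[(4,0),(2,0),(0,
  0),(9,0)]⟩,⟨1,[(12,0),(7,1),(0,0)]⟩⟩,⟨true,0,⟨0,[(4,0)]⟩,⟨0,[(14,0)]⟩⟩,⟨true,0,⟨0,[(3,0)]⟩,⟨1,[(0,
  0),(8,1),(6,1)]⟩⟩,⟨false,1,⟨0,[(6,0)]⟩,⟨0,[(7,0),(16,0)]⟩⟩,⟨false,0,⟨0,[]⟩,⟨0,[]⟩⟩,⟨false,0,⟨0,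
  []⟩,⟨0,[]⟩⟩,[.o ⟨false,1,⟨0,[(6,0),(2,0)]⟩,⟨0,[(7,0),(11,0)]⟩⟩,.o ⟨false,1,⟨0,[(1,0),(2,1),(7,
  0)]⟩,⟨0,[(7,0),(11,0),(4,0)]⟩⟩,.a ⟨true,0,⟨0,[(23,0)]⟩,⟨1,[(0,0),(15,1)]⟩⟩ ⟨true,0,⟨0,[]⟩,⟨0,[(24,
  0)]⟩⟩ ⟨false,1,⟨0,[(1,0),(2,0),(7,0),(0,0)]⟩,⟨1,[(7,0),(0,0),(5,0),(4,0)]⟩⟩,.o ⟨false,0,⟨0,[(10,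
  0)]⟩,⟨0,[(21,0)]⟩⟩]⟩) (.Q [0,0,0,1,0,0,0,1] (.pp false [-1,1]) (.Q [0,0,0,-1,0,0,0,-1,1] (.p true
  [0,0,1] [1] (⟨0,[(15,0)]⟩,⟨0,[(14,0)]⟩) .k 1 (⟨0,[]⟩,⟨0,[]⟩) .k .k) (.R ⟨0,false,false,false,[1,0,
  -1],[0,1],[0,1,0,0,0,0,-1],(⟨0,[(15,0)]⟩,⟨0,[(16,0)]⟩),(⟨0,[(19,0)]⟩,⟨0,[(18,0)]⟩),⟨0,[(4,0)]⟩,.k,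
  .k,(.x (-1) ⟨3,[(2,1),(10,0),(0,0),(8,1)]⟩ ⟨0,[(19,0)]⟩),(.x (-1) ⟨3,[(2,1),(10,0),(0,0),(8,1)]⟩
  ⟨0,[(19,0)]⟩),.k,.k,⟨false,0,⟨0,[(9,0),(1,0),(3,0),(4,0),(1,0)]⟩,⟨1,[(5,1),(8,0),(9,0)]⟩⟩,⟨true,0,
  ⟨0,[(15,0)]⟩,⟨1,[(2,0),(1,1)]⟩⟩,⟨true,0,⟨0,[(26,0)]⟩,⟨0,[]⟩⟩,⟨false,1,⟨0,[(1,0),(6,0)]⟩,⟨0,[(9,0),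
  (1,0)]⟩⟩,⟨false,0,⟨0,[]⟩,⟨0,[]⟩⟩,⟨false,0,⟨0,[]⟩,⟨0,[]⟩⟩,[.a ⟨true,0,⟨0,[(1,0)]⟩,⟨0,[(22,0)]⟩⟩
  ⟨false,0,⟨0,[(7,0),(7,0),(10,0)]⟩,⟨1,[(14,0),(9,0)]⟩⟩ ⟨true,0,⟨0,[(1,0),(4,0)]⟩,⟨0,[(0,0)]⟩⟩,.o
  ⟨false,1,⟨0,[(21,0),(2,0)]⟩,⟨0,[(11,0)]⟩⟩,.o ⟨false,1,⟨1,[(16,1),(0,0),(5,0)]⟩,⟨0,[(6,0)]⟩⟩,.e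
  ⟨false,0,⟨0,[(7,0),(7,0)]⟩,⟨0,[(8,0),(7,0)]⟩⟩ ⟨false,1,⟨11,[(1,3),(6,3),(1,1),(2,0),(1,7),(4,5),
  (3,6)]⟩,⟨0,[(0,0)]⟩⟩]⟩) (.R ⟨0,false,false,false,[1,0,-1],[0,1],[1,0,0,0,0,0,-1],(⟨0,[(15,0)]⟩,⟨0,
  [(16,0)]⟩),(⟨0,[(19,0)]⟩,⟨0,[(18,0)]⟩),⟨0,[(4,0)]⟩,.k,.k,(.x (-1) ⟨3,[(2,1),(10,0),(0,0),(8,1)]⟩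
  ⟨0,[(19,0)]⟩),(.x (-1) ⟨3,[(2,1),(10,0),(0,0),(8,1)]⟩ ⟨0,[(19,0)]⟩),.k,.k,⟨false,0,⟨0,[(3,0),(11,
  0),(4,0),(1,0)]⟩,⟨0,[(10,0),(3,0)]⟩⟩,⟨true,0,⟨0,[(15,0)]⟩,⟨1,[(2,0),(1,1)]⟩⟩,⟨true,0,⟨0,[]⟩,⟨0,
  [(26,0)]⟩⟩,⟨false,1,⟨0,[(1,0),(6,0)]⟩,⟨0,[(9,0),(1,0)]⟩⟩,⟨false,0,⟨0,[]⟩,⟨0,[]⟩⟩,⟨false,0,⟨0,[]⟩,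
  ⟨0,[]⟩⟩,[.e ⟨false,0,⟨0,[(7,0),(7,0)]⟩,⟨3,[(13,0),(0,2)]⟩⟩ ⟨false,0,⟨0,[(0,0)]⟩,⟨3,[(3,1),(7,1),
  (1,0),(0,1),(1,1),(6,0)]⟩⟩,.o ⟨false,1,⟨0,[(21,0),(2,0)]⟩,⟨0,[(11,0)]⟩⟩,.o ⟨false,1,⟨1,[(16,1),(0,
  0),(5,0)]⟩,⟨0,[(6,0)]⟩⟩,.a ⟨true,0,⟨0,[(16,0)]⟩,⟨0,[(15,0)]⟩⟩ ⟨false,0,⟨0,[(0,0),(2,0)]⟩,⟨3,[(13,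
  0),(0,2),(10,3)]⟩⟩ ⟨true,0,⟨0,[(0,0)]⟩,⟨0,[(11,0),(4,0)]⟩⟩]⟩)) (.R ⟨0,false,false,true,[1,0,-1],
  [0,1],[0,1,0,0,0,0,-1],(⟨0,[(14,0)]⟩,⟨0,[(15,0)]⟩),(⟨0,[(18,0)]⟩,⟨0,[(17,0)]⟩),⟨0,[(3,0)]⟩,.k,.k,
  (.x (-1) ⟨3,[(1,1),(10,0),(0,0),(8,1)]⟩ ⟨0,[(18,0)]⟩),(.x (-1) ⟨3,[(1,1),(10,0),(0,0),(8,1)]⟩ ⟨0,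
  [(18,0)]⟩),.k,.k,⟨false,0,⟨0,[(2,0),(11,0),(4,0),(1,0)]⟩,⟨0,[(9,0),(3,0)]⟩⟩,⟨true,0,⟨0,[(14,0)]⟩,
  ⟨1,[(1,0),(1,1)]⟩⟩,⟨true,0,⟨0,[(25,0)]⟩,⟨0,[]⟩⟩,⟨false,1,⟨0,[(9,0),(3,0),(0,0)]⟩,⟨0,[(2,0)]⟩⟩,
  ⟨false,0,⟨0,[]⟩,⟨0,[]⟩⟩,⟨false,0,⟨0,[]⟩,⟨0,[]⟩⟩,[.o ⟨false,0,⟨0,[(20,0)]⟩,⟨0,[(10,0),(12,0)]⟩⟩,.o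
  ⟨false,1,⟨3,[(12,0),(0,0),(6,3),(2,1)]⟩,⟨0,[(0,0)]⟩⟩,.o ⟨false,1,⟨1,[(15,1),(0,0),(5,0)]⟩,⟨0,[(5,
  0)]⟩⟩,.a ⟨true,0,⟨0,[(15,0)]⟩,⟨0,[(14,0)]⟩⟩ ⟨false,0,⟨0,[(6,0),(7,0)]⟩,⟨0,[(7,0),(7,0)]⟩⟩ ⟨true,0,
  ⟨0,[(14,0),(5,0)]⟩,⟨0,[(0,0),(14,0)]⟩⟩]⟩)))) (.I [1,-1,-1,0,0,0,-1] (.Q [0,0,-1,0,0,0,0,1] (.pp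
  false [-1,1]) (.R ⟨2,false,false,false,[0,1],[0,1,1],[0,0,1],(⟨0,[]⟩,⟨0,[]⟩),(⟨0,[(14,0),(2,0)]⟩,
  ⟨0,[(2,0)]⟩),⟨0,[]⟩,.k,(.x 0 ⟨0,[(17,0)]⟩ ⟨3,[(11,0),(0,0),(2,1),(0,3)]⟩),.k,.k,(.x (-1) ⟨3,[(11,
  0),(0,0),(2,1),(0,3)]⟩ ⟨0,[(17,0)]⟩),.k,⟨false,0,⟨0,[(7,0),(1,0),(3,0)]⟩,⟨1,[(12,0),(6,1),(2,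
  0)]⟩⟩,⟨true,0,⟨0,[(4,0)]⟩,⟨0,[(14,0)]⟩⟩,⟨true,0,⟨0,[(20,0)]⟩,⟨0,[(19,0)]⟩⟩,⟨false,1,⟨0,[(6,0)]⟩,
  ⟨0,[(7,0),(16,0)]⟩⟩,⟨false,1,⟨3,[(11,0),(0,0),(9,1)]⟩,⟨0,[]⟩⟩,⟨false,1,⟨0,[(1,0),(1,0),(0,0),(7,
  0)]⟩,⟨0,[(7,0),(12,0),(3,0)]⟩⟩,[.o ⟨false,1,⟨0,[(6,0),(12,0)]⟩,⟨0,[(7,0),(1,0)]⟩⟩,.o ⟨false,1,⟨0,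
  [(1,0),(1,0),(0,0),(7,0)]⟩,⟨0,[(7,0),(1,0),(14,0)]⟩⟩,.a ⟨true,0,⟨0,[(0,0)]⟩,⟨0,[(23,0)]⟩⟩ ⟨true,0,
  ⟨0,[(23,0)]⟩,⟨1,[(0,0),(8,0),(8,0)]⟩⟩ ⟨false,1,⟨0,[(3,0),(2,0)]⟩,⟨0,[(0,0),(6,0),(1,0)]⟩⟩,.e
  ⟨false,1,⟨3,[(11,0),(0,0),(9,1)]⟩,⟨0,[]⟩⟩ ⟨false,1,⟨0,[(1,0),(1,0),(0,0),(7,0)]⟩,⟨0,[(7,0),(12,0),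
  (3,0)]⟩⟩]⟩) (.Q [0,0,0,1,0,0,0,1,-1] (.p false [0,0,1] [1] (⟨0,[(14,0)]⟩,⟨0,[(13,0)]⟩) .k 1 (⟨0,
  []⟩,⟨0,[]⟩) .k .k) (.R ⟨1,false,false,false,[1,0,-1],[0,1],[1,0,0,0,0,0,-1],(⟨0,[(14,0)]⟩,⟨0,[(15,
  0)]⟩),(⟨0,[(18,0)]⟩,⟨0,[(17,0)]⟩),⟨0,[(3,0)]⟩,.k,.k,(.x (-1) ⟨3,[(12,0),(0,0),(2,1),(0,3)]⟩ ⟨0,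
  [(18,0)]⟩),(.x (-1) ⟨3,[(12,0),(0,0),(2,1),(0,3)]⟩ ⟨0,[(18,0)]⟩),(.r 0 ⟨0,[(2,0),(16,0),(1,2)]⟩
  ⟨0,[(4,0),(4,0),(3,0)]⟩),.k,⟨false,0,⟨0,[(2,0),(16,0),(1,1)]⟩,⟨0,[(9,0),(3,0)]⟩⟩,⟨true,0,⟨0,[(14,
  0)]⟩,⟨0,[(1,0),(13,0)]⟩⟩,⟨true,0,⟨0,[]⟩,⟨0,[(25,0)]⟩⟩,⟨false,1,⟨0,[(0,0),(6,0),(7,0)]⟩,⟨0,[(8,0),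
  (1,0)]⟩⟩,⟨false,1,⟨0,[(20,0),(2,0)]⟩,⟨0,[(21,0)]⟩⟩,⟨false,1,⟨1,[(0,1),(3,1),(8,0),(9,0)]⟩,⟨0,[(8,
  0),(1,0),(10,0)]⟩⟩,[.e ⟨false,0,⟨0,[(2,0),(22,0)]⟩,⟨3,[(12,0),(0,2)]⟩⟩ ⟨false,0,⟨0,[(0,0)]⟩,⟨1,
  [(10,1),(4,1),(6,0),(0,0)]⟩⟩,.o ⟨false,1,⟨0,[(20,0),(2,0)]⟩,⟨0,[(10,0)]⟩⟩,.o ⟨false,1,⟨1,[(15,1),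
  (0,0),(5,0)]⟩,⟨0,[(5,0)]⟩⟩,.a ⟨true,0,⟨0,[(15,0)]⟩,⟨0,[(14,0)]⟩⟩ ⟨false,0,⟨0,[(2,0)]⟩,⟨3,[(12,0),
  (0,2),(10,3)]⟩⟩ ⟨true,0,⟨0,[(0,0)]⟩,⟨0,[(10,0),(4,0)]⟩⟩]⟩) (.Q [0,0,0,-1,0,0,0,-1] (.pp true [-1,
  1]) (.R ⟨1,false,false,true,[1,0,-1],[0,1],[0,1,0,-1,0,0,-1],(⟨0,[(15,0)]⟩,⟨0,[(16,0)]⟩),(⟨0,[(19,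
  0)]⟩,⟨0,[(18,0)]⟩),⟨0,[(4,0)]⟩,.k,.k,(.x (-1) ⟨3,[(13,0),(0,0),(2,1),(0,3)]⟩ ⟨0,[(19,0)]⟩),(.x
  (-1) ⟨3,[(13,0),(0,0),(2,1),(0,3)]⟩ ⟨0,[(19,0)]⟩),(.r 0 ⟨0,[(3,0),(16,0),(1,2)]⟩ ⟨0,[(5,0),(4,0),
  (3,0)]⟩),.k,⟨false,0,⟨0,[(3,0),(16,0),(1,2)]⟩,⟨1,[(5,1),(8,0),(6,1),(2,0)]⟩⟩,⟨true,0,⟨0,[(15,0)]⟩,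
  ⟨0,[(2,0),(13,0)]⟩⟩,⟨false,0,⟨0,[(22,0)]⟩,⟨0,[(21,0),(2,0)]⟩⟩,⟨false,1,⟨0,[(10,0),(3,0),(0,0)]⟩,
  ⟨0,[(0,0),(8,0)]⟩⟩,⟨true,0,⟨0,[(26,0)]⟩,⟨0,[]⟩⟩,⟨false,1,⟨1,[(5,1),(8,0),(0,1),(5,1),(2,0)]⟩,⟨0,
  [(0,0),(8,0),(12,0)]⟩⟩,[.o ⟨false,0,⟨0,[(21,0)]⟩,⟨0,[(11,0),(12,0)]⟩⟩,.o ⟨false,1,⟨3,[(13,0),(0,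
  0),(6,3),(2,1)]⟩,⟨0,[(0,0)]⟩⟩,.o ⟨false,1,⟨1,[(16,1),(0,0),(5,0)]⟩,⟨0,[(6,0)]⟩⟩,.a ⟨true,0,⟨0,
  [(16,0)]⟩,⟨0,[(15,0)]⟩⟩ ⟨false,0,⟨0,[(9,0),(1,0),(3,0)]⟩,⟨1,[(5,1),(8,0),(9,0)]⟩⟩ ⟨true,0,⟨0,[(15,
  0),(5,0)]⟩,⟨0,[(1,0)]⟩⟩]⟩) (.R ⟨1,false,false,false,[1,0,-1],[0,1],[1,0,0,0,0,0,-1],(⟨0,[(15,0)]⟩,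
  ⟨0,[(16,0)]⟩),(⟨0,[(19,0)]⟩,⟨0,[(18,0)]⟩),⟨0,[(4,0)]⟩,.k,.k,(.x (-1) ⟨3,[(13,0),(0,0),(2,1),(0,
  3)]⟩ ⟨0,[(19,0)]⟩),(.x (-1) ⟨3,[(13,0),(0,0),(2,1),(0,3)]⟩ ⟨0,[(19,0)]⟩),(.r 0 ⟨0,[(3,0),(16,0),
  (1,2)]⟩ ⟨0,[(5,0),(4,0),(3,0)]⟩),.k,⟨false,0,⟨0,[(3,0),(16,0),(1,1)]⟩,⟨0,[(10,0),(3,0)]⟩⟩,⟨true,0,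
  ⟨0,[(15,0)]⟩,⟨0,[(2,0),(13,0)]⟩⟩,⟨true,0,⟨0,[]⟩,⟨0,[(26,0)]⟩⟩,⟨false,1,⟨0,[(0,0),(7,0)]⟩,⟨0,[(9,
  0),(1,0)]⟩⟩,⟨false,1,⟨0,[(21,0),(2,0)]⟩,⟨0,[(22,0)]⟩⟩,⟨false,1,⟨0,[(0,0),(2,0),(1,0),(0,0),(7,
  0)]⟩,⟨0,[(9,0),(1,0),(10,0)]⟩⟩,[.a ⟨true,0,⟨0,[(0,0)]⟩,⟨0,[(22,0)]⟩⟩ ⟨false,0,⟨0,[(3,0),(22,0)]⟩,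
  ⟨3,[(13,0),(0,2)]⟩⟩ ⟨true,0,⟨0,[(0,0),(5,0)]⟩,⟨0,[(1,0)]⟩⟩,.o ⟨false,1,⟨0,[(21,0),(2,0)]⟩,⟨0,[(11,
  0)]⟩⟩,.o ⟨false,1,⟨1,[(16,1),(0,0),(5,0)]⟩,⟨0,[(6,0)]⟩⟩,.e ⟨false,0,⟨0,[(3,0)]⟩,⟨3,[(13,0),(0,2),
  (10,3)]⟩⟩ ⟨false,1,⟨11,[(0,3),(7,3),(1,1),(2,0),(1,7),(4,5),(3,6)]⟩,⟨0,[(1,0)]⟩⟩]⟩)))) (.S ⟨1,0,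
  [0,0,1,0,0,0,1],[0,1,1],[0,1,1,0,0,0,1],(⟨0,[(13,0),(2,0)]⟩,⟨0,[(1,0)]⟩),⟨0,[(13,0)]⟩,(.x 0 ⟨0,
  [(16,0)]⟩ ⟨3,[(10,0),(0,0),(2,1),(0,3)]⟩),.k,⟨false,0,⟨0,[(19,0)]⟩,⟨0,[(18,0),(2,0)]⟩⟩,⟨true,0,⟨0,
  [(19,0)]⟩,⟨0,[(18,0)]⟩⟩,⟨true,0,⟨0,[(23,0)]⟩,⟨0,[]⟩⟩,⟨false,1,⟨3,[(10,0),(0,0),(9,1)]⟩,⟨0,[]⟩⟩,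
  [.o ⟨false,1,⟨3,[(3,3),(6,0),(0,2)]⟩,⟨0,[(4,0)]⟩⟩,.o ⟨false,1,⟨0,[(5,0)]⟩,⟨0,[(4,0),(18,0)]⟩⟩,.a
  ⟨true,0,⟨0,[(12,0)]⟩,⟨0,[(13,0)]⟩⟩ ⟨true,0,⟨0,[(0,0)]⟩,⟨0,[(4,0),(7,0)]⟩⟩ ⟨false,1,⟨0,[(5,0),(7,
  0)]⟩,⟨0,[(4,0),(7,0)]⟩⟩,.o ⟨false,0,⟨0,[(3,0)]⟩,⟨1,[(13,1),(0,0),(5,0)]⟩⟩]⟩))) (.Q [0,0,0,-1,0,0,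
  0,-1] (.pp true [-1,1]) (.Q [0,0,0,0,0,1,0,-1,1] (.ed false [0,1,1] .k) (.Q [0,0,1,0,0,0,0,-1,1]
  (.p true [0,0,1] [1] (⟨0,[(13,0)]⟩,⟨0,[(12,0)]⟩) .k 1 (⟨0,[]⟩,⟨0,[]⟩) .k .k) (.R ⟨0,false,false,
  true,[1,0,-1],[0,1],[0,1,0,0,0,0,-1],(⟨0,[(13,0)]⟩,⟨0,[(14,0)]⟩),(⟨0,[(17,0)]⟩,⟨0,[(16,0)]⟩),⟨0,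
  [(1,0)]⟩,.k,.k,(.x (-1) ⟨3,[(11,0),(0,0),(2,1),(0,3)]⟩ ⟨0,[(17,0)]⟩),(.x (-1) ⟨3,[(11,0),(0,0),(2,
  1),(0,3)]⟩ ⟨0,[(17,0)]⟩),.k,.k,⟨false,0,⟨0,[(3,0),(1,0),(7,0)]⟩,⟨0,[(8,0),(3,0)]⟩⟩,⟨true,0,⟨0,
  [(13,0)]⟩,⟨0,[(0,0)]⟩⟩,⟨true,0,⟨0,[(24,0)]⟩,⟨0,[]⟩⟩,⟨false,1,⟨0,[(8,0),(3,0),(0,0)]⟩,⟨0,[(2,0),(4,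
  0)]⟩⟩,⟨false,0,⟨0,[]⟩,⟨0,[]⟩⟩,⟨false,0,⟨0,[]⟩,⟨0,[]⟩⟩,[.o ⟨false,0,⟨0,[(19,0)]⟩,⟨0,[(9,0),(12,
  0)]⟩⟩,.o ⟨false,1,⟨3,[(11,0),(0,0),(6,3),(2,1)]⟩,⟨0,[(2,0)]⟩⟩,.o ⟨false,1,⟨1,[(14,1),(0,0),(5,
  0)]⟩,⟨0,[(4,0)]⟩⟩,.a ⟨true,0,⟨0,[(14,0)]⟩,⟨0,[(13,0)]⟩⟩ ⟨false,0,⟨0,[(5,0),(7,0)]⟩,⟨0,[(6,0),(7,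
  0)]⟩⟩ ⟨true,0,⟨0,[(13,0),(5,0)]⟩,⟨0,[(2,0),(11,0)]⟩⟩]⟩) (.R ⟨0,false,false,true,[1,0,-1],[0,1,-1],
  [1,1],(⟨0,[(13,0)]⟩,⟨0,[(14,0)]⟩),(⟨0,[(0,0),(0,0),(2,0)]⟩,⟨0,[(14,0),(1,0)]⟩),⟨0,[(1,0)]⟩,.k,(.r
  0 ⟨0,[(8,0)]⟩ ⟨1,[(12,0),(7,1),(0,0)]⟩),(.x (-1) ⟨3,[(11,0),(0,0),(2,1),(0,3)]⟩ ⟨0,[(17,0)]⟩),.k,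
  .k,.k,⟨false,1,⟨1,[(3,1),(8,0),(8,0)]⟩,⟨0,[(8,0)]⟩⟩,⟨true,0,⟨0,[(0,0),(13,0)]⟩,⟨0,[(10,0)]⟩⟩,
  ⟨false,1,⟨3,[(11,0),(0,2)]⟩,⟨0,[(4,0),(2,0)]⟩⟩,⟨true,0,⟨0,[(13,0),(0,0),(4,0)]⟩,⟨0,[(2,0)]⟩⟩,
  ⟨false,0,⟨0,[]⟩,⟨0,[]⟩⟩,⟨false,0,⟨0,[]⟩,⟨0,[]⟩⟩,[.o ⟨false,0,⟨0,[(7,0),(11,0),(4,0)]⟩,⟨0,[(2,0),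
  (3,0)]⟩⟩,.o ⟨false,0,⟨0,[(7,0),(11,0)]⟩,⟨0,[(6,0),(2,0)]⟩⟩,.o ⟨false,1,⟨1,[(14,1),(0,0),(5,0)]⟩,
  ⟨0,[(4,0)]⟩⟩,.a ⟨true,0,⟨0,[(14,0)]⟩,⟨0,[(13,0)]⟩⟩ ⟨true,0,⟨1,[(3,0),(14,0),(5,0)]⟩,⟨0,[(23,0)]⟩⟩
  ⟨false,0,⟨1,[(0,1),(6,0),(0,0),(5,0),(4,0)]⟩,⟨1,[(2,0),(7,0),(1,0),(7,0),(1,0)]⟩⟩]⟩)) (.Q [0,0,-1,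
  0,0,0,0,1] (.pp false [-1,1]) (.R ⟨2,false,false,true,[0,1],[0,1,1],[0,0,1],(⟨0,[]⟩,⟨0,[]⟩),(⟨0,
  [(14,0),(2,0)]⟩,⟨0,[(1,0)]⟩),⟨0,[]⟩,.k,(.x 0 ⟨0,[(17,0)]⟩ ⟨3,[(11,0),(0,0),(2,1),(0,3)]⟩),.k,.k,
  (.x (-1) ⟨3,[(11,0),(0,0),(2,1),(0,3)]⟩ ⟨0,[(17,0)]⟩),.k,⟨false,0,⟨0,[(3,0),(0,0),(2,0)]⟩,⟨3,[(11,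
  0),(0,2),(6,3)]⟩⟩,⟨true,0,⟨0,[(4,0)]⟩,⟨0,[(14,0)]⟩⟩,⟨true,0,⟨0,[(20,0)]⟩,⟨0,[(19,0)]⟩⟩,⟨false,1,
  ⟨3,[(4,3),(6,0),(0,2)]⟩,⟨0,[(7,0)]⟩⟩,⟨false,1,⟨3,[(11,0),(0,0),(9,1)]⟩,⟨0,[]⟩⟩,⟨false,1,⟨0,[(6,0),
  (12,0)]⟩,⟨0,[(7,0),(12,0)]⟩⟩,[.o ⟨false,1,⟨3,[(4,3),(6,0),(0,2),(6,3)]⟩,⟨0,[(2,0),(4,0)]⟩⟩,.o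
  ⟨false,1,⟨0,[(6,0),(12,0)]⟩,⟨0,[(7,0),(1,0)]⟩⟩,.a ⟨true,0,⟨0,[(0,0)]⟩,⟨0,[(23,0)]⟩⟩ ⟨true,0,⟨0,
  [(23,0)]⟩,⟨1,[(0,0),(8,0),(8,0)]⟩⟩ ⟨false,1,⟨0,[(4,0),(3,0),(3,0)]⟩,⟨0,[(3,0),(3,0)]⟩⟩,.e ⟨false,
  1,⟨3,[(11,0),(0,0),(9,1)]⟩,⟨0,[]⟩⟩ ⟨false,1,⟨0,[(6,0),(12,0)]⟩,⟨0,[(7,0),(12,0)]⟩⟩]⟩) (.Q [0,0,1,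
  2,1,0,1,1,-1] (.p false [0,0,1] [1] (⟨0,[(14,0)]⟩,⟨0,[(13,0)]⟩) .k 1 (⟨0,[]⟩,⟨0,[]⟩) .k .k) (.R
  ⟨1,false,false,true,[1,0,-1],[0,1],[1,1,0,0,0,0,-1],(⟨0,[(14,0)]⟩,⟨0,[(15,0)]⟩),(⟨0,[(18,0)]⟩,⟨0,
  [(17,0)]⟩),⟨0,[(2,0)]⟩,.k,.k,(.x (-1) ⟨3,[(12,0),(0,0),(2,1),(0,3)]⟩ ⟨0,[(18,0)]⟩),(.x (-1) ⟨3,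
  [(12,0),(0,0),(2,1),(0,3)]⟩ ⟨0,[(18,0)]⟩),(.r 0 ⟨0,[(4,0),(3,0),(1,0),(3,0)]⟩ ⟨0,[(0,0),(0,0),(13,
  0)]⟩),.k,⟨false,0,⟨0,[(4,0),(1,0),(7,0)]⟩,⟨15,[(0,7),(10,3),(0,0),(0,4),(1,7),(0,1)]⟩⟩,⟨true,0,⟨0,
  [(14,0)]⟩,⟨0,[(1,0),(13,0)]⟩⟩,⟨false,0,⟨0,[]⟩,⟨3,[(12,0),(0,0),(9,1)]⟩⟩,⟨false,1,⟨0,[(0,0),(20,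
  0)]⟩,⟨0,[(3,0),(4,0)]⟩⟩,⟨true,0,⟨0,[(20,0)]⟩,⟨0,[(21,0)]⟩⟩,⟨false,1,⟨0,[(0,0)]⟩,⟨0,[(3,0),(4,0),
  (12,0)]⟩⟩,[.o ⟨false,0,⟨0,[(20,0)]⟩,⟨0,[(10,0),(12,0)]⟩⟩,.o ⟨false,1,⟨5,[(0,2),(5,0),(5,0),(2,1),
  (0,0),(5,0)]⟩,⟨0,[(3,0)]⟩⟩,.o ⟨false,1,⟨1,[(15,1),(0,0),(5,0)]⟩,⟨0,[(5,0)]⟩⟩,.a ⟨true,0,⟨0,[(15,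
  0)]⟩,⟨0,[(14,0)]⟩⟩ ⟨false,0,⟨0,[(6,0),(7,0)]⟩,⟨0,[(7,0),(7,0)]⟩⟩ ⟨true,0,⟨0,[(14,0),(5,0)]⟩,⟨0,
  [(3,0),(11,0)]⟩⟩]⟩) (.R ⟨2,true,false,false,[0,1],[0,1,1],[0,0,1],(⟨0,[]⟩,⟨0,[]⟩),(⟨0,[(15,0),(2,
  0)]⟩,⟨0,[(2,0)]⟩),⟨0,[]⟩,.k,(.x 0 ⟨0,[(18,0)]⟩ ⟨3,[(12,0),(0,0),(2,1),(0,3)]⟩),.k,.k,(.x (-1) ⟨3,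
  [(12,0),(0,0),(2,1),(0,3)]⟩ ⟨0,[(18,0)]⟩),.k,⟨false,0,⟨3,[(0,1),(11,0),(1,1),(7,0)]⟩,⟨1,[(13,0),
  (6,1),(2,0)]⟩⟩,⟨true,0,⟨0,[(5,0)]⟩,⟨0,[(15,0)]⟩⟩,⟨true,0,⟨0,[(21,0)]⟩,⟨0,[(20,0)]⟩⟩,⟨false,1,⟨0,
  [(7,0)]⟩,⟨0,[(8,0),(16,0)]⟩⟩,⟨false,1,⟨3,[(12,0),(0,0),(9,1)]⟩,⟨0,[]⟩⟩,⟨true,1,⟨0,[(7,0),(12,0)]⟩,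
  ⟨0,[(0,0),(13,0),(0,0),(4,0)]⟩⟩,[]⟩)))) (.R ⟨2,true,false,true,[0,1],[1,-1],[0,0,1],(⟨0,[]⟩,⟨0,
  []⟩),(⟨0,[(14,0)]⟩,⟨0,[(15,0)]⟩),⟨0,[]⟩,.k,.k,.k,(.r (-1) ⟨0,[(6,1),(3,0)]⟩ ⟨0,[(1,1)]⟩),.k,.k,
  ⟨false,1,⟨1,[(6,1),(3,0),(9,0)]⟩,⟨1,[(1,2),(14,0),(5,0)]⟩⟩,⟨true,0,⟨0,[(8,0)]⟩,⟨0,[(0,0),(0,0)]⟩⟩,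
  ⟨true,0,⟨0,[(18,0)]⟩,⟨0,[(17,0)]⟩⟩,⟨false,0,⟨0,[(1,1),(6,0)]⟩,⟨0,[(0,0),(16,0),(2,0)]⟩⟩,⟨false,1,
  ⟨3,[(9,0),(0,0),(9,1)]⟩,⟨0,[]⟩⟩,⟨true,0,⟨0,[(7,0)]⟩,⟨0,[(0,0)]⟩⟩,[]⟩)))

def t3 : Tre :=
  (.Q [0,1,1,0,0,0,1,0,-1] (.p false [0,0,1] [] (⟨0,[(6,0)]⟩,⟨0,[(5,0)]⟩) .k 0 (⟨0,[]⟩,⟨0,[]⟩) .k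
  .k) (.Q [0,1,-1,0,0,0,-1,0,1] (.p true [0,0,1] [] (⟨0,[(7,0)]⟩,⟨0,[(6,0)]⟩) .k 0 (⟨0,[]⟩,⟨0,[]⟩)
  .k .k) (.K ⟨0,[0,0,1],0,0,(⟨0,[(8,0)]⟩,⟨0,[(7,0)]⟩),.k,(.r (-1) ⟨1,[(6,0),(7,1),(0,0)]⟩ ⟨0,[(2,
  0)]⟩),(.x 0 ⟨0,[(11,0)]⟩ ⟨3,[(5,0),(0,0),(2,1),(0,3)]⟩),.k,.k,[⟨0,[(8,0)]⟩,⟨0,[(4,0),(2,0)]⟩,⟨0,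
  [(0,0)]⟩,⟨0,[(1,0)]⟩]⟩) (.Q [0,0,-2,0,1,0,0,-1,1] (.p true [0,0,1] [1] (⟨0,[(8,0)]⟩,⟨0,[(7,0)]⟩)
  .k 1 (⟨0,[]⟩,⟨0,[]⟩) .k .k) (.Q [0,-1,-1,0,1,0,-1,0,1] (.p true [0,0,1] [] (⟨0,[(9,0)]⟩,⟨0,[(8,
  0)]⟩) .k 0 (⟨0,[]⟩,⟨0,[]⟩) .k .k) (.Q [0,-1,-1,1,1,0,-1,0,1] (.p true [0,0,1] [] (⟨0,[(10,0)]⟩,⟨0,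
  [(9,0)]⟩) .k 0 (⟨0,[]⟩,⟨0,[]⟩) .k .k) (.Q [0,0,0,0,0,1,0,0,-1] (.ed true [1,-1,1] .k) (.Q [0,-1,1,
  1,0,0,1,1,-1] (.p false [0,0,1] [1] (⟨0,[(12,0)]⟩,⟨0,[(11,0)]⟩) .k 1 (⟨0,[]⟩,⟨0,[]⟩) .k .k) (.Q
  [0,0,0,1,0,0,0,1] (.pp false [-1,1]) (.R ⟨0,false,false,true,[0,0,1],[1,-1],[1,1],(⟨0,[(14,0)]⟩,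
  ⟨0,[(13,0)]⟩),(⟨0,[(16,0)]⟩,⟨0,[(17,0)]⟩),⟨0,[(2,0)]⟩,.k,.k,(.r (-1) ⟨1,[(12,0),(7,1),(0,0)]⟩ ⟨0,
  [(8,0)]⟩),(.x 0 ⟨0,[(17,0)]⟩ ⟨3,[(11,0),(0,0),(2,1),(0,3)]⟩),.k,.k,⟨true,0,⟨2,[(1,0),(6,0),(1,0),
  (3,0),(3,0)]⟩,⟨0,[(20,0)]⟩⟩,⟨false,1,⟨7,[(5,3),(5,0),(0,0),(1,3),(0,1)]⟩,⟨0,[(13,0)]⟩⟩,⟨true,0,⟨0,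
  [(8,0),(9,0),(1,1)]⟩,⟨0,[(6,0),(7,0),(3,0),(1,0)]⟩⟩,⟨false,1,⟨0,[(4,0),(4,0)]⟩,⟨0,[(1,0)]⟩⟩,
  ⟨false,0,⟨0,[]⟩,⟨0,[]⟩⟩,⟨false,0,⟨0,[]⟩,⟨0,[]⟩⟩,[.o ⟨false,0,⟨0,[(9,0)]⟩,⟨7,[(1,3),(1,3),(7,0),(0,
  0),(2,1)]⟩⟩,.a ⟨true,0,⟨0,[(20,0)]⟩,⟨0,[(0,0)]⟩⟩ ⟨true,0,⟨0,[]⟩,⟨0,[(23,0)]⟩⟩ ⟨false,1,⟨0,[(5,0),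
  (14,0)]⟩,⟨3,[(0,0),(0,0),(5,0),(0,1),(4,1)]⟩⟩,.o ⟨false,0,⟨1,[(6,0),(1,0),(0,0),(3,0)]⟩,⟨7,[(5,3),
  (5,0),(0,0),(1,3),(0,1)]⟩⟩,.o ⟨false,0,⟨0,[(10,0),(2,0)]⟩,⟨0,[(5,0)]⟩⟩]⟩) (.Q [0,0,0,0,0,-1,0,1,
  -1] (.ed true [0,1,1] .k) (.R ⟨1,false,false,false,[1,0,-1],[1,-1],[1,0,0,0,0,0,-1],(⟨0,[(14,0)]⟩,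
  ⟨0,[(15,0)]⟩),(⟨0,[(17,0)]⟩,⟨0,[(18,0)]⟩),⟨0,[(0,0)]⟩,.k,.k,(.x (-1) ⟨3,[(12,0),(0,0),(2,1),(0,
  3)]⟩ ⟨0,[(18,0)]⟩),(.r 0 ⟨0,[(9,0)]⟩ ⟨1,[(13,0),(7,1),(0,0)]⟩),.k,.k,⟨true,0,⟨0,[(9,0)]⟩,⟨0,[(7,
  0),(7,0),(3,0),(1,1)]⟩⟩,⟨false,0,⟨1,[(0,0),(2,0),(7,0)]⟩,⟨0,[(15,0),(6,0)]⟩⟩,⟨true,0,⟨0,[]⟩,⟨0,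
  [(25,0)]⟩⟩,⟨false,0,⟨0,[(7,0),(13,0)]⟩,⟨0,[(5,0),(14,0)]⟩⟩,⟨false,1,⟨7,[(2,3),(1,3),(7,0),(0,0),
  (2,1)]⟩,⟨0,[(21,0)]⟩⟩,⟨false,0,⟨0,[(7,0)]⟩,⟨0,[(5,0),(19,0)]⟩⟩,[.o ⟨false,0,⟨0,[(1,0)]⟩,⟨15,[(2,
  3),(1,3),(7,4),(0,4),(2,1),(3,7)]⟩⟩,.o ⟨false,1,⟨0,[(10,0),(12,0)]⟩,⟨0,[(20,0)]⟩⟩,.o ⟨false,1,⟨7,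
  [(6,3),(5,0),(0,0),(1,3),(0,1)]⟩,⟨1,[(0,0),(2,0),(7,0)]⟩⟩,.a ⟨true,0,⟨0,[(15,0)]⟩,⟨0,[(14,0)]⟩⟩
  ⟨false,1,⟨1,[(0,0),(0,0),(1,0),(0,0),(0,0)]⟩,⟨1,[(7,0),(0,0),(6,1)]⟩⟩ ⟨true,0,⟨1,[(0,0),(0,0),(1,
  0),(17,0)]⟩,⟨0,[(15,0),(4,0)]⟩⟩]⟩) (.R ⟨0,false,false,false,[1,0,-1],[1,-1],[1],(⟨0,[(14,0)]⟩,⟨0,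
  [(15,0)]⟩),(⟨0,[(17,0)]⟩,⟨0,[(18,0)]⟩),⟨0,[(0,0)]⟩,.k,.k,(.x (-1) ⟨3,[(12,0),(0,0),(2,1),(0,3)]⟩
  ⟨0,[(18,0)]⟩),(.r 0 ⟨0,[(9,0)]⟩ ⟨1,[(13,0),(7,1),(0,0)]⟩),.k,.k,⟨true,0,⟨2,[(2,0),(6,0),(1,0),(3,
  0),(3,0)]⟩,⟨0,[(21,0)]⟩⟩,⟨false,0,⟨1,[(7,0),(1,0),(0,0),(3,0)]⟩,⟨0,[(15,0),(6,0)]⟩⟩,⟨true,0,⟨0,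
  [(7,0),(7,0),(3,0),(1,0)]⟩,⟨0,[(9,0),(9,0),(1,1)]⟩⟩,⟨false,0,⟨0,[(7,0),(13,0)]⟩,⟨0,[(5,0),(14,
  0)]⟩⟩,⟨false,0,⟨0,[]⟩,⟨0,[]⟩⟩,⟨false,0,⟨0,[]⟩,⟨0,[]⟩⟩,[.o ⟨false,0,⟨0,[(1,0)]⟩,⟨15,[(2,3),(1,3),
  (7,4),(0,4),(2,1),(3,7)]⟩⟩,.o ⟨false,1,⟨0,[(10,0),(12,0)]⟩,⟨0,[(20,0)]⟩⟩,.o ⟨false,1,⟨7,[(6,3),(5,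
  0),(0,0),(1,3),(0,1)]⟩,⟨1,[(7,0),(1,0),(0,0),(3,0)]⟩⟩,.a ⟨true,0,⟨0,[(15,0)]⟩,⟨0,[(14,0)]⟩⟩
  ⟨false,1,⟨1,[(22,0),(0,0)]⟩,⟨0,[(24,0)]⟩⟩ ⟨true,0,⟨0,[(1,0),(12,0)]⟩,⟨0,[(15,0),(4,0)]⟩⟩]⟩))) (.Q
  [0,0,0,0,0,1,0,-1,1] (.ed false [0,1,1] .k) (.K ⟨0,[-1,1,1],0,0,(⟨0,[(0,0)]⟩,⟨0,[(13,0),(2,0)]⟩),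
  (.x 0 ⟨0,[(17,0)]⟩ ⟨3,[(11,0),(0,0),(2,1),(0,3)]⟩),.k,(.r 0 ⟨1,[(6,2),(1,0),(5,2),(4,2)]⟩ ⟨1,[(1,
  1),(11,1),(6,1),(0,0),(0,0)]⟩),.k,.k,[⟨2,[(1,1),(4,2),(1,0),(1,0),(3,3),(3,0)]⟩,⟨0,[(13,0),(9,
  0)]⟩,⟨0,[(1,0)]⟩,⟨1,[(6,0),(0,0),(5,1),(0,1),(4,1)]⟩]⟩) (.K ⟨0,[1,-1,-1],0,0,(⟨0,[(0,0)]⟩,⟨0,[(14,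
  0),(2,0)]⟩),(.x (-1) ⟨3,[(11,0),(0,0),(2,1),(0,3)]⟩ ⟨0,[(17,0)]⟩),(.r (-1) ⟨1,[(0,0),(0,0),(0,0),
  (1,0),(15,2),(0,0)]⟩ ⟨1,[(6,2),(1,0),(5,2),(4,2)]⟩),.k,.k,.k,[⟨0,[(13,0),(9,0)]⟩,⟨2,[(1,1),(4,2),
  (1,0),(1,0),(3,3),(3,0)]⟩,⟨1,[(6,0),(0,0),(5,1),(0,1),(4,1)]⟩,⟨0,[(1,0)]⟩]⟩))) (.Q [0,1,1,-1,-1,0,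
  1,1,-1] (.p false [0,0,1] [1] (⟨0,[(12,0)]⟩,⟨0,[(11,0)]⟩) .k 1 (⟨0,[]⟩,⟨0,[]⟩) .k .k) (.S ⟨1,0,[0,
  1,0,-1,0,0,1],[0,0,1],[1,0,0,0,0,0,1],(⟨0,[(13,0)]⟩,⟨0,[(12,0)]⟩),⟨0,[(1,0)]⟩,.k,(.r (-1) ⟨1,[(11,
  0),(7,1),(0,0)]⟩ ⟨0,[(7,0)]⟩),⟨true,0,⟨0,[]⟩,⟨0,[(23,0)]⟩⟩,⟨false,0,⟨0,[(19,0)]⟩,⟨0,[(18,0),(2,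
  0)]⟩⟩,⟨false,1,⟨0,[(18,0),(2,0)]⟩,⟨0,[(19,0)]⟩⟩,⟨true,0,⟨0,[(23,0)]⟩,⟨0,[]⟩⟩,[.a ⟨true,(-1),⟨0,
  [(0,0)]⟩,⟨0,[(2,0)]⟩⟩ ⟨true,0,⟨2,[(0,0),(3,0),(0,1),(7,1),(3,0)]⟩,⟨0,[(7,0),(11,0)]⟩⟩ ⟨false,0,⟨0,
  [(0,0),(3,0)]⟩,⟨3,[(7,1),(2,0),(6,1),(3,2)]⟩⟩,.o ⟨false,0,⟨3,[(0,1),(4,0),(0,0),(1,1),(12,1)]⟩,⟨0,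
  [(4,0),(2,0)]⟩⟩,.o ⟨false,0,⟨1,[(5,0),(1,0),(0,0),(3,0)]⟩,⟨7,[(4,3),(5,0),(0,0),(1,3),(0,1)]⟩⟩,.o
  ⟨false,0,⟨0,[(9,0),(2,0)]⟩,⟨0,[(4,0)]⟩⟩]⟩) t1)) (.R ⟨2,true,false,true,[0,1],[0,0,1],[0,1,1],(⟨0,
  []⟩,⟨0,[]⟩),(⟨0,[(11,0)]⟩,⟨0,[(10,0)]⟩),⟨0,[]⟩,.k,.k,.k,(.r 0 ⟨0,[(5,0)]⟩ ⟨1,[(9,0),(7,1),(0,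
  0)]⟩),.k,.k,⟨true,0,⟨0,[(5,0),(11,0)]⟩,⟨2,[(0,0),(2,1),(7,2),(3,0),(2,0)]⟩⟩,⟨false,0,⟨5,[(0,1),(2,
  1),(1,1),(2,0),(1,1),(1,0)]⟩,⟨0,[(11,0),(6,0)]⟩⟩,⟨false,0,⟨0,[(17,0)]⟩,⟨0,[(16,0),(2,0)]⟩⟩,⟨true,
  (-1),⟨0,[(0,0)]⟩,⟨0,[(1,0),(14,0)]⟩⟩,⟨true,0,⟨0,[(21,0)]⟩,⟨0,[]⟩⟩,⟨false,0,⟨1,[(3,0),(0,0)]⟩,⟨0,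
  [(1,0)]⟩⟩,[]⟩)) (.K ⟨0,[0,0,1],0,(-1),(⟨0,[(10,0)]⟩,⟨0,[(9,0)]⟩),.k,(.r (-1) ⟨1,[(8,0),(7,1),(0,
  0)]⟩ ⟨0,[(4,0)]⟩),(.x 0 ⟨0,[(13,0)]⟩ ⟨3,[(7,0),(0,0),(2,1),(0,3)]⟩),.k,.k,[⟨0,[(10,0)]⟩,⟨0,[(6,0),
  (2,0)]⟩,⟨1,[(7,0),(2,1),(6,0),(2,1)]⟩,⟨0,[(0,0)]⟩]⟩)) (.K ⟨0,[1,0,-1],1,1,(⟨0,[(8,0)]⟩,⟨0,[(9,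
  0)]⟩),.k,(.x (-1) ⟨3,[(6,0),(0,0),(2,1),(0,3)]⟩ ⟨0,[(12,0)]⟩),(.r 0 ⟨0,[(3,0)]⟩ ⟨1,[(7,0),(7,1),
  (0,0)]⟩),.k,.k,[⟨0,[(0,0)]⟩,⟨3,[(6,0),(0,0),(1,3),(0,1)]⟩,⟨0,[(0,0),(0,0),(7,0),(3,1),(1,1)]⟩,⟨3,
  [(4,1),(1,1),(2,3),(0,0),(2,1),(2,0)]⟩]⟩))) (.Q [0,-1,1,0,1,0,1,0,-1] (.p false [0,0,1] [] (⟨0,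
  [(7,0)]⟩,⟨0,[(6,0)]⟩) .k 0 (⟨0,[]⟩,⟨0,[]⟩) .k .k) (.Q [0,0,-1,0,0,0,-1,-1,1] (.p true [0,0,1] [1]
  (⟨0,[(8,0)]⟩,⟨0,[(7,0)]⟩) .k 1 (⟨0,[]⟩,⟨0,[]⟩) .k .k) (.Q [0,0,-1,0,0,0,0,0,1] (.p true [0,0,1]
  [] (⟨0,[(9,0)]⟩,⟨0,[(8,0)]⟩) .k 0 (⟨0,[]⟩,⟨0,[]⟩) .k .k) (.R ⟨2,false,false,false,[0,1],[0,0,1],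
  [0,0,1],(⟨0,[]⟩,⟨0,[]⟩),(⟨0,[(10,0)]⟩,⟨0,[(9,0)]⟩),⟨0,[]⟩,.k,.k,.k,(.r 0 ⟨0,[(4,0)]⟩ ⟨1,[(8,0),(7,
  1),(0,0)]⟩),.k,.k,⟨false,0,⟨1,[(3,0),(0,0),(0,0),(3,0)]⟩,⟨1,[(8,0),(8,0)]⟩⟩,⟨true,0,⟨0,[(6,0),(2,
  0)]⟩,⟨0,[(0,0)]⟩⟩,⟨true,0,⟨0,[(16,0)]⟩,⟨0,[(15,0)]⟩⟩,⟨false,1,⟨0,[(2,0),(13,0)]⟩,⟨0,[(3,0),(11,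
  0)]⟩⟩,⟨false,1,⟨3,[(7,0),(0,0),(9,1)]⟩,⟨0,[]⟩⟩,⟨false,1,⟨0,[(2,0)]⟩,⟨0,[(3,0),(16,0)]⟩⟩,[.o
  ⟨false,1,⟨0,[(2,0),(17,0)]⟩,⟨0,[(1,0)]⟩⟩,.o ⟨false,1,⟨0,[(2,0)]⟩,⟨0,[(1,0),(18,0)]⟩⟩,.a ⟨true,0,
  ⟨0,[(0,0),(8,0)]⟩,⟨0,[(19,0)]⟩⟩ ⟨true,0,⟨0,[(19,0)]⟩,⟨1,[(0,0),(4,0),(3,0),(4,0)]⟩⟩ ⟨false,1,⟨0,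
  [(2,0),(16,0)]⟩,⟨1,[(0,0),(2,1),(1,0),(3,0),(4,0)]⟩⟩,.e ⟨false,1,⟨3,[(7,0),(0,0),(9,1)]⟩,⟨0,[]⟩⟩
  ⟨false,1,⟨0,[(2,0)]⟩,⟨0,[(3,0),(16,0)]⟩⟩]⟩) t2) (.Q [0,0,-1,0,0,0,0,0,1] (.p true [0,0,1] [] (⟨0,
  [(9,0)]⟩,⟨0,[(8,0)]⟩) .k 0 (⟨0,[]⟩,⟨0,[]⟩) .k .k) (.R ⟨2,true,false,true,[0,1],[0,0,1],[1,1,1,1],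
  (⟨0,[]⟩,⟨0,[]⟩),(⟨0,[(10,0)]⟩,⟨0,[(9,0)]⟩),⟨0,[]⟩,.k,.k,.k,(.r 0 ⟨0,[(4,0)]⟩ ⟨1,[(8,0),(7,1),(0,
  0)]⟩),.k,.k,⟨false,0,⟨0,[(3,0),(2,0),(2,0),(4,0)]⟩,⟨1,[(8,0),(7,1),(0,0)]⟩⟩,⟨true,0,⟨0,[(6,0),(2,
  0)]⟩,⟨0,[(0,0)]⟩⟩,⟨false,0,⟨0,[]⟩,⟨3,[(7,0),(0,0),(9,1)]⟩⟩,⟨true,0,⟨0,[(1,0),(3,0)]⟩,⟨0,[(3,0),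
  (11,0)]⟩⟩,⟨true,0,⟨0,[(15,0)]⟩,⟨0,[(16,0)]⟩⟩,⟨false,1,⟨0,[(2,0),(17,0)]⟩,⟨0,[(3,0)]⟩⟩,[]⟩) (.I [0,
  1,1,0,0,0,1] (.R ⟨2,true,false,false,[0,1],[1,0,-1],[0,1,1],(⟨0,[]⟩,⟨0,[]⟩),(⟨0,[(10,0)]⟩,⟨0,[(11,
  0)]⟩),⟨0,[]⟩,.k,.k,.k,(.x 0 ⟨0,[(14,0)]⟩ ⟨3,[(8,0),(0,0),(2,1),(0,3)]⟩),.k,.k,⟨true,0,⟨0,[(0,0)]⟩,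
  ⟨0,[(1,0),(2,0)]⟩⟩,⟨false,1,⟨1,[(11,1),(0,0),(5,0)]⟩,⟨0,[(10,0)]⟩⟩,⟨false,0,⟨0,[(17,0)]⟩,⟨0,[(16,
  0),(2,0)]⟩⟩,⟨true,0,⟨0,[(4,0),(1,0)]⟩,⟨0,[(2,0),(13,0)]⟩⟩,⟨true,0,⟨0,[(21,0)]⟩,⟨0,[]⟩⟩,⟨false,1,
  ⟨5,[(4,3),(3,0),(2,1),(0,2),(5,0),(0,0)]⟩,⟨0,[(2,0)]⟩⟩,[]⟩) (.Q [0,0,0,0,0,-1,0,1,-1] (.ed true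
  [0,1,1] .k) (.R ⟨2,false,false,false,[0,1],[0,1,1],[0,0,1],(⟨0,[]⟩,⟨0,[]⟩),(⟨0,[(12,0),(2,0)]⟩,⟨0,
  [(0,0)]⟩),⟨0,[]⟩,.k,(.x 0 ⟨0,[(15,0)]⟩ ⟨3,[(9,0),(0,0),(2,1),(0,3)]⟩),.k,.k,(.x (-1) ⟨3,[(9,0),(0,
  0),(2,1),(0,3)]⟩ ⟨0,[(15,0)]⟩),.k,⟨false,0,⟨0,[(5,0),(1,0),(3,0)]⟩,⟨1,[(10,0),(6,1),(2,0)]⟩⟩,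
  ⟨true,0,⟨0,[(2,0)]⟩,⟨0,[(12,0)]⟩⟩,⟨true,0,⟨0,[(18,0)]⟩,⟨0,[(17,0)]⟩⟩,⟨false,1,⟨0,[(4,0)]⟩,⟨0,[(5,
  0),(16,0)]⟩⟩,⟨false,1,⟨3,[(9,0),(0,0),(9,1)]⟩,⟨0,[]⟩⟩,⟨false,1,⟨1,[(1,1),(1,1),(4,1),(1,0),(5,1),
  (3,0)]⟩,⟨0,[(5,0),(12,0),(3,0)]⟩⟩,[.o ⟨false,1,⟨0,[(4,0),(12,0)]⟩,⟨0,[(5,0),(1,0)]⟩⟩,.o ⟨false,1,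
  ⟨1,[(1,1),(1,1),(4,1),(1,0),(5,1),(3,0)]⟩,⟨0,[(5,0),(1,0),(14,0)]⟩⟩,.a ⟨true,0,⟨0,[(3,0),(1,0),
  (10,0),(1,0)]⟩,⟨0,[(21,0)]⟩⟩ ⟨true,0,⟨0,[(21,0)]⟩,⟨0,[(16,0),(1,0)]⟩⟩ ⟨false,1,⟨0,[(3,0),(4,0),(7,
  0),(3,0)]⟩,⟨0,[(5,0),(10,0),(1,1)]⟩⟩,.e ⟨false,1,⟨3,[(9,0),(0,0),(9,1)]⟩,⟨0,[]⟩⟩ ⟨false,1,⟨1,[(1,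
  1),(1,1),(4,1),(1,0),(5,1),(3,0)]⟩,⟨0,[(5,0),(12,0),(3,0)]⟩⟩]⟩) (.R ⟨0,false,false,false,[0,0,1],
  [0,1],[1,0,1,1],(⟨0,[(12,0)]⟩,⟨0,[(11,0)]⟩),(⟨0,[(15,0)]⟩,⟨0,[(14,0)]⟩),⟨1,[(0,0),(0,1),(0,0),(0,
  1),(3,0),(7,0),(0,0)]⟩,.k,.k,(.r (-1) ⟨1,[(10,0),(7,1),(0,0)]⟩ ⟨0,[(6,0)]⟩),(.r (-1) ⟨1,[(10,0),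
  (7,1),(0,0)]⟩ ⟨0,[(6,0)]⟩),.k,.k,⟨true,0,⟨0,[]⟩,⟨0,[(21,0)]⟩⟩,⟨false,1,⟨1,[(5,1),(4,0),(5,1),(1,
  1),(0,0)]⟩,⟨2,[(2,1),(0,0),(2,0),(1,0),(9,0)]⟩⟩,⟨false,0,⟨2,[(1,1),(1,2),(1,2),(0,0),(1,2),(7,
  1)]⟩,⟨1,[(10,0),(7,1),(0,0)]⟩⟩,⟨true,0,⟨0,[(5,0),(11,0)]⟩,⟨0,[(3,0),(3,0)]⟩⟩,⟨false,0,⟨0,[]⟩,⟨0,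
  []⟩⟩,⟨false,0,⟨0,[]⟩,⟨0,[]⟩⟩,[.a ⟨true,0,⟨0,[(3,0),(1,0),(11,0)]⟩,⟨0,[(18,0)]⟩⟩ ⟨true,0,⟨0,[(3,0),
  (1,0),(2,0),(7,0)]⟩,⟨0,[(18,0)]⟩⟩ ⟨false,1,⟨1,[(5,1),(4,0),(6,1),(1,0)]⟩,⟨0,[(2,0),(15,0)]⟩⟩,.o
  ⟨false,1,⟨0,[(17,0),(2,0)]⟩,⟨0,[(7,0)]⟩⟩,.o ⟨false,0,⟨0,[(2,0)]⟩,⟨1,[(12,1),(0,0),(5,0)]⟩⟩,.o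
  ⟨false,0,⟨2,[(2,1),(0,0),(2,0),(1,0),(9,0)]⟩,⟨3,[(5,3),(1,1),(2,1),(2,0),(2,1),(2,0)]⟩⟩]⟩)))))
  (.K ⟨0,[0,0,1],0,1,(⟨0,[(8,0)]⟩,⟨0,[(7,0)]⟩),.k,(.r (-1) ⟨1,[(6,0),(7,1),(0,0)]⟩ ⟨0,[(2,0)]⟩),(.x
  0 ⟨0,[(11,0)]⟩ ⟨3,[(5,0),(0,0),(2,1),(0,3)]⟩),.k,.k,[⟨0,[(8,0)]⟩,⟨0,[(4,0),(2,0)]⟩,⟨0,[(0,0)]⟩,⟨7,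
  [(4,3),(0,0),(0,4),(0,7),(1,1),(8,7)]⟩]⟩)))

def t4 : Tre :=
  (.Q [0,0,0,1,0,0,0,1,-1] (.p false [0,0,1] [1] (⟨0,[(10,0)]⟩,⟨0,[(9,0)]⟩) .k 1 (⟨0,[]⟩,⟨0,[]⟩) .k
  .k) (.I [0,0,-2,0,0,2] (.R ⟨0,false,false,false,[1,0,-1],[0,1,-1],[1,0,1],(⟨0,[(11,0)]⟩,⟨0,[(12,
  0)]⟩),(⟨1,[(0,0),(2,1)]⟩,⟨0,[(12,0),(1,0)]⟩),⟨0,[(2,0)]⟩,.k,(.x (-1) ⟨3,[(0,1),(8,0),(0,0),(8,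
  1)]⟩ ⟨0,[(8,0),(5,0)]⟩),(.x (-1) ⟨3,[(9,0),(0,0),(2,1),(0,3)]⟩ ⟨0,[(15,0)]⟩),.k,.k,.k,⟨false,0,⟨0,
  [(6,0)]⟩,⟨1,[(9,0),(7,1),(2,0)]⟩⟩,⟨true,0,⟨1,[(0,0),(13,1)]⟩,⟨0,[(8,0)]⟩⟩,⟨false,0,⟨0,[(5,0),(6,
  0)]⟩,⟨1,[(9,0),(9,0)]⟩⟩,⟨true,0,⟨0,[(1,0),(10,0)]⟩,⟨0,[(7,0)]⟩⟩,⟨false,0,⟨0,[]⟩,⟨0,[]⟩⟩,⟨false,0,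
  ⟨0,[]⟩,⟨0,[]⟩⟩,[.o ⟨false,1,⟨0,[(4,0),(12,0)]⟩,⟨0,[(5,0),(1,0)]⟩⟩,.e ⟨false,1,⟨3,[(9,0),(0,0),(9,
  1)]⟩,⟨3,[(0,0),(6,1),(6,1),(1,1)]⟩⟩ ⟨false,1,⟨0,[(1,0),(2,0)]⟩,⟨1,[(6,1),(0,0),(0,0),(8,0)]⟩⟩,.o
  ⟨false,1,⟨1,[(12,1),(0,0),(5,0)]⟩,⟨0,[(3,0)]⟩⟩,.a ⟨true,0,⟨0,[(12,0)]⟩,⟨0,[(11,0)]⟩⟩ ⟨true,0,⟨0,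
  []⟩,⟨0,[(22,0)]⟩⟩ ⟨false,1,⟨0,[(1,0),(2,0)]⟩,⟨0,[(6,0),(1,0)]⟩⟩]⟩) (.I [1,-1,-1,0,1,0,-1] (.R ⟨0,
  false,false,false,[1,0,-1],[0,1],[1,0,0,0,0,0,-1],(⟨0,[(12,0)]⟩,⟨0,[(13,0)]⟩),(⟨0,[(16,0)]⟩,⟨0,
  [(15,0)]⟩),⟨0,[(3,0)]⟩,.k,.k,(.x (-1) ⟨3,[(1,1),(8,0),(0,0),(8,1)]⟩ ⟨0,[(16,0)]⟩),(.x (-1) ⟨3,[(1,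
  1),(8,0),(0,0),(8,1)]⟩ ⟨0,[(16,0)]⟩),.k,.k,⟨false,1,⟨0,[(0,0),(16,0),(1,1)]⟩,⟨0,[(6,0),(6,0),(4,
  0)]⟩⟩,⟨true,0,⟨0,[(12,0)]⟩,⟨1,[(1,0),(1,1)]⟩⟩,⟨true,0,⟨0,[]⟩,⟨0,[(23,0)]⟩⟩,⟨false,0,⟨0,[(2,0),(3,
  0),(6,0)]⟩,⟨0,[(5,0),(2,0)]⟩⟩,⟨false,0,⟨0,[]⟩,⟨0,[]⟩⟩,⟨false,0,⟨0,[]⟩,⟨0,[]⟩⟩,[.e ⟨false,1,⟨1,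
  [(10,0),(9,0)]⟩,⟨1,[(6,0),(0,0),(5,0),(4,0)]⟩⟩ ⟨false,0,⟨0,[(2,0)]⟩,⟨5,[(5,3),(1,1),(0,3),(2,0),
  (1,1),(0,0)]⟩⟩,.o ⟨false,1,⟨0,[(18,0),(2,0)]⟩,⟨0,[(8,0)]⟩⟩,.o ⟨false,1,⟨1,[(13,1),(0,0),(5,0)]⟩,
  ⟨0,[(4,0)]⟩⟩,.a ⟨true,0,⟨0,[(13,0)]⟩,⟨0,[(12,0)]⟩⟩ ⟨false,1,⟨0,[(0,0)]⟩,⟨0,[(6,0),(6,0),(9,0)]⟩⟩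
  ⟨true,0,⟨0,[(2,0)]⟩,⟨0,[(8,0),(4,0)]⟩⟩]⟩) (.R ⟨0,false,false,false,[1,0,-1],[0,1],[1,1,1],(⟨0,
  [(12,0)]⟩,⟨0,[(13,0)]⟩),(⟨0,[(16,0)]⟩,⟨0,[(15,0)]⟩),⟨0,[(3,0)]⟩,.k,.k,(.x (-1) ⟨3,[(1,1),(8,0),(0,
  0),(8,1)]⟩ ⟨0,[(16,0)]⟩),(.x (-1) ⟨3,[(1,1),(8,0),(0,0),(8,1)]⟩ ⟨0,[(16,0)]⟩),.k,.k,⟨false,0,⟨0,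
  [(17,0),(1,1)]⟩,⟨0,[(18,0),(2,0)]⟩⟩,⟨true,0,⟨0,[(12,0)]⟩,⟨1,[(1,0),(1,1)]⟩⟩,⟨true,(-1),⟨0,[(0,
  0)]⟩,⟨1,[(10,0),(9,0)]⟩⟩,⟨false,0,⟨0,[(2,0),(3,0),(6,0)]⟩,⟨0,[(5,0),(2,0)]⟩⟩,⟨false,0,⟨0,[]⟩,⟨0,
  []⟩⟩,⟨false,0,⟨0,[]⟩,⟨0,[]⟩⟩,[.e ⟨false,0,⟨0,[(23,0)]⟩,⟨1,[(20,0),(0,0)]⟩⟩ ⟨false,0,⟨0,[(2,0)]⟩,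
  ⟨5,[(5,3),(1,1),(0,3),(2,0),(1,1),(0,0)]⟩⟩,.o ⟨false,1,⟨0,[(18,0),(2,0)]⟩,⟨0,[(8,0)]⟩⟩,.o ⟨false,
  1,⟨1,[(13,1),(0,0),(5,0)]⟩,⟨0,[(4,0)]⟩⟩,.a ⟨true,0,⟨0,[(13,0)]⟩,⟨0,[(12,0)]⟩⟩ ⟨false,0,⟨0,[]⟩,⟨3,
  [(10,0),(0,0),(9,1)]⟩⟩ ⟨true,0,⟨0,[(2,0)]⟩,⟨0,[(8,0),(4,0)]⟩⟩]⟩))) (.I [1,1,0,0,-1,0,2] (.Q [0,1,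
  1,0,-1,0,1,1,-1] (.p false [0,0,1] [1] (⟨0,[(12,0)]⟩,⟨0,[(11,0)]⟩) .k 1 (⟨0,[]⟩,⟨0,[]⟩) .k .k)
  (.I [1,1,0,0,0,0,-1] (.R ⟨0,false,false,false,[1,0,-1],[0,0,1],[1,1],(⟨0,[(13,0)]⟩,⟨0,[(14,0)]⟩),
  (⟨0,[(14,0)]⟩,⟨0,[(13,0)]⟩),⟨0,[(4,0)]⟩,.k,.k,(.x (-1) ⟨3,[(11,0),(0,0),(2,1),(0,3)]⟩ ⟨0,[(17,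
  0)]⟩),.k,.k,.k,⟨true,0,⟨0,[(0,0)]⟩,⟨0,[(7,0),(6,0)]⟩⟩,⟨false,0,⟨0,[(5,0),(7,0)]⟩,⟨3,[(2,1),(0,1),
  (2,3),(7,1),(0,0),(2,1),(2,0)]⟩⟩,⟨false,0,⟨5,[(2,1),(9,0),(9,0)]⟩,⟨1,[(11,0),(10,0)]⟩⟩,⟨true,(-1),
  ⟨0,[(1,0),(5,0)]⟩,⟨0,[(0,0),(2,0),(2,0),(11,0)]⟩⟩,⟨false,0,⟨0,[]⟩,⟨0,[]⟩⟩,⟨false,0,⟨0,[]⟩,⟨0,[]⟩⟩,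
  [.o ⟨false,0,⟨5,[(1,1),(3,1),(1,1),(4,0),(2,0)]⟩,⟨2,[(0,0),(2,0),(2,1),(8,0),(2,0)]⟩⟩,.o ⟨false,0,
  ⟨0,[(7,0)]⟩,⟨0,[(6,0),(2,0),(9,0)]⟩⟩,.o ⟨false,1,⟨1,[(14,1),(0,0),(5,0)]⟩,⟨0,[(5,0)]⟩⟩,.a ⟨true,0,
  ⟨0,[(14,0)]⟩,⟨0,[(13,0)]⟩⟩ ⟨true,0,⟨1,[(0,0),(7,0),(9,0)]⟩,⟨0,[(23,0)]⟩⟩ ⟨false,0,⟨0,[(7,0),(5,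
  0)]⟩,⟨2,[(0,0),(2,0),(2,1),(7,2),(0,0),(2,0)]⟩⟩]⟩) (.Q [0,1,1,0,-1,0,1,1,-2] (.p false [0,0,1] [1,
  0,-1] (⟨0,[(14,0)]⟩,⟨0,[(13,0)]⟩) .k 2 (⟨0,[(13,0)]⟩,⟨0,[(14,0)]⟩) .k (.r 0 ⟨4,[(0,1),(1,1),(9,
  1)]⟩ ⟨0,[(11,0)]⟩)) (.R ⟨0,false,false,true,[1,0,-1],[0,0,1],[1,1,0,0,0,0,1],(⟨0,[(14,0)]⟩,⟨0,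
  [(15,0)]⟩),(⟨0,[(15,0)]⟩,⟨0,[(14,0)]⟩),⟨0,[(5,0)]⟩,.k,.k,(.x (-1) ⟨3,[(12,0),(0,0),(2,1),(0,3)]⟩
  ⟨0,[(18,0)]⟩),.k,.k,.k,⟨true,0,⟨0,[]⟩,⟨0,[(24,0)]⟩⟩,⟨false,0,⟨1,[(0,1),(11,0),(10,0)]⟩,⟨3,[(3,1),
  (0,1),(2,3),(7,1),(0,0),(2,1),(2,0)]⟩⟩,⟨true,(-1),⟨0,[(3,0)]⟩,⟨0,[(12,0)]⟩⟩,⟨false,(-1),⟨0,[(2,0),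
  (5,0)]⟩,⟨3,[(4,1),(2,5),(4,0),(3,0),(2,1)]⟩⟩,⟨false,0,⟨0,[]⟩,⟨0,[]⟩⟩,⟨false,0,⟨0,[]⟩,⟨0,[]⟩⟩,[.e
  ⟨false,0,⟨1,[(3,0),(18,0),(2,0)]⟩,⟨1,[(12,0),(10,0)]⟩⟩ ⟨false,(-1),⟨0,[(0,0)]⟩,⟨1,[(7,1),(7,1),(0,
  0),(5,0)]⟩⟩,.o ⟨false,0,⟨13,[(0,3),(5,1),(1,3),(2,1),(1,2),(2,0)]⟩,⟨3,[(4,1),(2,1),(4,0),(3,0),(2,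
  1)]⟩⟩,.o ⟨false,1,⟨1,[(15,1),(0,0),(5,0)]⟩,⟨0,[(6,0)]⟩⟩,.a ⟨true,0,⟨0,[(15,0)]⟩,⟨0,[(14,0)]⟩⟩
  ⟨false,0,⟨1,[(1,0),(7,0),(9,0)]⟩,⟨1,[(12,0),(10,0),(0,1)]⟩⟩ ⟨true,(-1),⟨0,[(0,0)]⟩,⟨3,[(4,1),(2,
  1),(4,0),(2,3),(0,0),(2,1)]⟩⟩]⟩) (.R ⟨0,false,false,true,[1,0,-1],[0,0,1],[1,1,0,0,0,0,1],(⟨0,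
  [(14,0)]⟩,⟨0,[(15,0)]⟩),(⟨0,[(15,0)]⟩,⟨0,[(14,0)]⟩),⟨0,[(5,0)]⟩,.k,.k,(.x (-1) ⟨3,[(12,0),(0,0),
  (2,1),(0,3)]⟩ ⟨0,[(18,0)]⟩),.k,.k,.k,⟨true,0,⟨0,[]⟩,⟨0,[(24,0)]⟩⟩,⟨false,0,⟨0,[(6,0),(7,0)]⟩,⟨1,
  [(0,1),(2,0),(18,0),(2,0)]⟩⟩,⟨true,(-1),⟨0,[(3,0)]⟩,⟨0,[(12,0)]⟩⟩,⟨false,(-1),⟨0,[(2,0),(5,0)]⟩,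
  ⟨1,[(0,1),(11,0),(9,0)]⟩⟩,⟨false,0,⟨0,[]⟩,⟨0,[]⟩⟩,⟨false,0,⟨0,[]⟩,⟨0,[]⟩⟩,[.a ⟨true,(-1),⟨0,[(2,
  0)]⟩,⟨0,[(7,0)]⟩⟩ ⟨false,0,⟨1,[(3,0),(18,0),(2,0)]⟩,⟨1,[(12,0),(10,0)]⟩⟩ ⟨true,(-1),⟨0,[(2,0),(3,
  0)]⟩,⟨0,[(0,0)]⟩⟩,.o ⟨false,0,⟨5,[(2,1),(3,1),(1,1),(4,0),(2,0)]⟩,⟨7,[(0,3),(9,1),(1,1),(3,0),(2,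
  1),(2,0)]⟩⟩,.o ⟨false,1,⟨7,[(0,3),(9,1),(2,1),(2,0),(2,1),(2,0)]⟩,⟨0,[(6,0)]⟩⟩,.e ⟨false,0,⟨1,[(1,
  0),(7,0),(9,0)]⟩,⟨1,[(12,0),(10,0),(0,1)]⟩⟩ ⟨false,0,⟨5,[(2,1),(3,1),(1,1),(4,0),(0,5),(1,0)]⟩,⟨0,
  [(0,0)]⟩⟩]⟩))) (.Q [0,0,0,-1,0,0,0,-1] (.pp true [-1,1]) (.Q [0,0,1,0,0,0,0,-1,1] (.p true [0,0,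
  1] [1] (⟨0,[(14,0)]⟩,⟨0,[(13,0)]⟩) .k 1 (⟨0,[]⟩,⟨0,[]⟩) .k .k) (.R ⟨0,false,false,true,[1,0,-1],
  [0,1],[0,1,0,0,0,0,-1],(⟨0,[(14,0)]⟩,⟨0,[(15,0)]⟩),(⟨0,[(18,0)]⟩,⟨0,[(17,0)]⟩),⟨0,[(5,0)]⟩,.k,.k,
  (.x (-1) ⟨3,[(12,0),(0,0),(2,1),(0,3)]⟩ ⟨0,[(18,0)]⟩),(.x (-1) ⟨3,[(12,0),(0,0),(2,1),(0,3)]⟩ ⟨0,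
  [(18,0)]⟩),.k,.k,⟨false,1,⟨0,[(1,0),(5,0),(6,0),(4,0),(1,0)]⟩,⟨0,[(8,0),(6,0),(4,0)]⟩⟩,⟨true,0,⟨0,
  [(14,0)]⟩,⟨0,[(0,0)]⟩⟩,⟨true,0,⟨0,[(25,0)]⟩,⟨0,[]⟩⟩,⟨false,0,⟨0,[(8,0),(5,0),(0,0),(4,0)]⟩,⟨0,[(1,
  0),(5,0)]⟩⟩,⟨false,0,⟨0,[]⟩,⟨0,[]⟩⟩,⟨false,0,⟨0,[]⟩,⟨0,[]⟩⟩,[.o ⟨false,0,⟨0,[(20,0)]⟩,⟨0,[(10,0),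
  (12,0)]⟩⟩,.o ⟨false,1,⟨3,[(12,0),(0,0),(6,3),(2,1)]⟩,⟨0,[(1,0)]⟩⟩,.o ⟨false,1,⟨1,[(15,1),(0,0),(5,
  0)]⟩,⟨0,[(6,0)]⟩⟩,.a ⟨true,0,⟨0,[(15,0)]⟩,⟨0,[(14,0)]⟩⟩ ⟨false,1,⟨1,[(12,0),(9,0)]⟩,⟨0,[(8,0),(6,
  0)]⟩⟩ ⟨true,0,⟨0,[(14,0),(5,0)]⟩,⟨0,[(4,0)]⟩⟩]⟩) (.R ⟨0,false,false,true,[1,0,-1],[0,1,-1],[0,1,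
  1],(⟨0,[(14,0)]⟩,⟨0,[(15,0)]⟩),(⟨0,[(0,0),(4,0),(0,0)]⟩,⟨0,[(15,0),(1,0)]⟩),⟨0,[(5,0)]⟩,.k,(.r
  (-1) ⟨1,[(12,0),(7,1),(2,0),(0,1)]⟩ ⟨0,[(0,1),(0,0),(0,0),(0,0),(1,0),(11,0),(6,1)]⟩),(.x (-1) ⟨3,
  [(12,0),(0,0),(2,1),(0,3)]⟩ ⟨0,[(18,0)]⟩),.k,.k,.k,⟨false,0,⟨0,[(0,1),(0,0),(0,0),(0,0),(1,0),(11,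
  0),(6,1)]⟩,⟨1,[(12,0),(7,1),(2,0)]⟩⟩,⟨true,0,⟨0,[(0,0),(14,0)]⟩,⟨0,[(11,0)]⟩⟩,⟨false,0,⟨4,[(3,0),
  (4,0),(4,0),(1,0),(8,3)]⟩,⟨3,[(0,1),(1,1),(9,0),(10,0)]⟩⟩,⟨true,0,⟨0,[(14,0),(0,0),(4,0)]⟩,⟨0,[(1,
  0)]⟩⟩,⟨false,0,⟨0,[]⟩,⟨0,[]⟩⟩,⟨false,0,⟨0,[]⟩,⟨0,[]⟩⟩,[.o ⟨false,1,⟨1,[(12,0),(2,1),(4,1),(1,0)]⟩,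
  ⟨0,[(1,0),(6,0)]⟩⟩,.o ⟨false,1,⟨0,[(7,0),(12,0)]⟩,⟨0,[(8,0),(1,0)]⟩⟩,.o ⟨false,1,⟨1,[(15,1),(0,0),
  (5,0)]⟩,⟨0,[(6,0)]⟩⟩,.a ⟨true,0,⟨0,[(15,0)]⟩,⟨0,[(14,0)]⟩⟩ ⟨true,0,⟨0,[(25,0)]⟩,⟨0,[]⟩⟩ ⟨false,1,
  ⟨0,[(7,0),(6,0),(5,0)]⟩,⟨0,[(4,0),(3,0)]⟩⟩]⟩)) (.I [1,0,1,1] (.R ⟨0,false,false,false,[1,0,-1],[0,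
  1],[1,0,0,0,0,0,-1],(⟨0,[(14,0)]⟩,⟨0,[(15,0)]⟩),(⟨0,[(18,0)]⟩,⟨0,[(17,0)]⟩),⟨0,[(5,0)]⟩,.k,.k,(.x
  (-1) ⟨3,[(12,0),(0,0),(2,1),(0,3)]⟩ ⟨0,[(18,0)]⟩),(.x (-1) ⟨3,[(12,0),(0,0),(2,1),(0,3)]⟩ ⟨0,[(18,
  0)]⟩),.k,.k,⟨false,1,⟨0,[(2,0),(11,0),(4,0),(1,1)]⟩,⟨5,[(0,5),(2,1),(9,0),(9,0)]⟩⟩,⟨true,0,⟨0,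
  [(14,0)]⟩,⟨0,[(0,0),(3,0)]⟩⟩,⟨true,0,⟨0,[]⟩,⟨0,[(25,0)]⟩⟩,⟨false,0,⟨0,[(1,0),(6,0)]⟩,⟨0,[(7,0),(2,
  0)]⟩⟩,⟨false,0,⟨0,[]⟩,⟨0,[]⟩⟩,⟨false,0,⟨0,[]⟩,⟨0,[]⟩⟩,[.a ⟨true,0,⟨0,[(1,0)]⟩,⟨0,[(21,0)]⟩⟩
  ⟨false,1,⟨1,[(12,0),(9,0)]⟩,⟨5,[(3,1),(9,0),(9,0)]⟩⟩ ⟨true,0,⟨0,[(0,0),(13,0)]⟩,⟨0,[(4,0)]⟩⟩,.o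
  ⟨false,1,⟨0,[(20,0),(2,0)]⟩,⟨0,[(10,0)]⟩⟩,.o ⟨false,1,⟨1,[(15,1),(0,0),(5,0)]⟩,⟨0,[(6,0)]⟩⟩,.e
  ⟨false,1,⟨0,[(2,0),(11,0)]⟩,⟨4,[(3,0),(4,0),(4,0),(1,0),(8,3)]⟩⟩ ⟨false,1,⟨0,[(14,0),(5,0),(2,
  0)]⟩,⟨0,[(4,0)]⟩⟩]⟩) (.R ⟨2,true,false,true,[0,1],[1,-1],[0,0,1],(⟨0,[]⟩,⟨0,[]⟩),(⟨0,[(17,0)]⟩,⟨0,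
  [(18,0)]⟩),⟨0,[]⟩,.k,.k,.k,(.r (-1) ⟨3,[(1,3),(9,3),(0,0),(0,0),(6,3),(2,1)]⟩ ⟨0,[(0,1)]⟩),.k,.k,
  ⟨false,1,⟨7,[(1,3),(9,3),(0,0),(0,0),(6,3),(2,5)]⟩,⟨1,[(0,2),(18,0),(5,0)]⟩⟩,⟨true,0,⟨0,[(11,0)]⟩,
  ⟨0,[(0,0),(0,0)]⟩⟩,⟨true,0,⟨0,[(21,0)]⟩,⟨0,[(20,0)]⟩⟩,⟨false,0,⟨0,[(0,1),(10,0)]⟩,⟨0,[(1,0),(18,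
  0),(2,0)]⟩⟩,⟨false,1,⟨3,[(12,0),(0,0),(9,1)]⟩,⟨0,[]⟩⟩,⟨true,0,⟨0,[(10,0)]⟩,⟨0,[(1,0)]⟩⟩,[]⟩))))
  (.Q [0,0,0,1,0,0,0,1] (.pp false [-1,1]) (.I [1,0,1,1] (.R ⟨0,false,false,false,[1,0,-1],[0,1],[0,
  0,0,-1,0,0,-1],(⟨0,[(13,0)]⟩,⟨0,[(14,0)]⟩),(⟨0,[(17,0)]⟩,⟨0,[(16,0)]⟩),⟨0,[(4,0)]⟩,.k,.k,(.x (-1)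
  ⟨3,[(11,0),(0,0),(2,1),(0,3)]⟩ ⟨0,[(17,0)]⟩),(.x (-1) ⟨3,[(11,0),(0,0),(2,1),(0,3)]⟩ ⟨0,[(17,
  0)]⟩),.k,.k,⟨false,1,⟨0,[(2,0),(5,0),(9,0),(1,1)]⟩,⟨0,[(0,0),(6,0),(6,0),(3,0)]⟩⟩,⟨true,0,⟨0,[(13,
  0)]⟩,⟨0,[(0,0),(2,0)]⟩⟩,⟨true,0,⟨0,[(20,0)]⟩,⟨0,[(19,0)]⟩⟩,⟨false,0,⟨0,[(1,0),(5,0)]⟩,⟨0,[(6,0),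
  (2,0)]⟩⟩,⟨false,0,⟨0,[]⟩,⟨0,[]⟩⟩,⟨false,0,⟨0,[]⟩,⟨0,[]⟩⟩,[.a ⟨true,0,⟨0,[(1,0)]⟩,⟨0,[(20,0)]⟩⟩
  ⟨false,1,⟨1,[(11,0),(8,1),(0,0)]⟩,⟨0,[(7,0),(6,0),(3,0)]⟩⟩ ⟨true,0,⟨0,[(0,0),(12,0)]⟩,⟨0,[(3,
  0)]⟩⟩,.o ⟨false,1,⟨0,[(19,0),(2,0)]⟩,⟨0,[(9,0)]⟩⟩,.o ⟨false,1,⟨1,[(14,1),(0,0),(5,0)]⟩,⟨0,[(5,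
  0)]⟩⟩,.e ⟨false,1,⟨0,[(2,0),(5,0)]⟩,⟨0,[(7,0),(6,0),(4,0)]⟩⟩ ⟨false,1,⟨0,[(13,0),(5,0),(2,0)]⟩,⟨0,
  [(3,0)]⟩⟩]⟩) (.R ⟨2,true,false,true,[0,1],[1,-1],[0,0,1],(⟨0,[]⟩,⟨0,[]⟩),(⟨0,[(16,0)]⟩,⟨0,[(17,
  0)]⟩),⟨0,[]⟩,.k,.k,.k,(.r (-1) ⟨2,[(1,2),(0,0),(7,2),(1,0),(6,2),(2,0)]⟩ ⟨0,[(0,1)]⟩),.k,.k,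
  ⟨false,1,⟨5,[(1,2),(0,0),(7,2),(1,0),(6,2),(2,3)]⟩,⟨1,[(0,2),(17,0),(5,0)]⟩⟩,⟨true,0,⟨0,[(10,0)]⟩,
  ⟨0,[(0,0),(0,0)]⟩⟩,⟨true,0,⟨0,[(20,0)]⟩,⟨0,[(19,0)]⟩⟩,⟨false,0,⟨0,[(0,1),(9,0)]⟩,⟨0,[(1,0),(17,0),
  (2,0)]⟩⟩,⟨false,1,⟨2,[(2,0),(9,0),(9,0)]⟩,⟨0,[]⟩⟩,⟨true,0,⟨0,[(9,0)]⟩,⟨0,[(1,0)]⟩⟩,[]⟩)) (.Q [0,0,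
  1,0,0,0,0,-1,1] (.p true [0,0,1] [1] (⟨0,[(13,0)]⟩,⟨0,[(12,0)]⟩) .k 1 (⟨0,[]⟩,⟨0,[]⟩) .k .k) (.R
  ⟨0,false,false,true,[1,0,-1],[0,1],[0,1,0,0,0,0,-1],(⟨0,[(13,0)]⟩,⟨0,[(14,0)]⟩),(⟨0,[(17,0)]⟩,⟨0,
  [(16,0)]⟩),⟨0,[(4,0)]⟩,.k,.k,(.x (-1) ⟨3,[(11,0),(0,0),(2,1),(0,3)]⟩ ⟨0,[(17,0)]⟩),(.x (-1) ⟨3,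
  [(11,0),(0,0),(2,1),(0,3)]⟩ ⟨0,[(17,0)]⟩),.k,.k,⟨false,1,⟨0,[(2,0),(5,0),(9,0),(1,0)]⟩,⟨0,[(7,0),
  (6,0),(4,0)]⟩⟩,⟨true,0,⟨0,[(13,0)]⟩,⟨0,[(0,0)]⟩⟩,⟨true,0,⟨0,[(24,0)]⟩,⟨0,[]⟩⟩,⟨false,0,⟨0,[(7,0),
  (5,0),(0,0),(4,0)]⟩,⟨0,[(1,0),(4,0)]⟩⟩,⟨false,0,⟨0,[]⟩,⟨0,[]⟩⟩,⟨false,0,⟨0,[]⟩,⟨0,[]⟩⟩,[.o ⟨false,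
  0,⟨0,[(19,0)]⟩,⟨0,[(9,0),(12,0)]⟩⟩,.o ⟨false,1,⟨2,[(2,0),(9,0),(6,2),(2,0)]⟩,⟨0,[(1,0)]⟩⟩,.o
  ⟨false,1,⟨1,[(14,1),(0,0),(5,0)]⟩,⟨0,[(5,0)]⟩⟩,.a ⟨true,0,⟨0,[(14,0)]⟩,⟨0,[(13,0)]⟩⟩ ⟨false,1,⟨1,
  [(11,0),(9,0)]⟩,⟨0,[(7,0),(6,0)]⟩⟩ ⟨true,0,⟨0,[(13,0),(5,0)]⟩,⟨0,[(3,0)]⟩⟩]⟩) (.R ⟨2,false,false,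
  true,[0,1],[1,-1],[0,0,1],(⟨0,[]⟩,⟨0,[]⟩),(⟨0,[(16,0)]⟩,⟨0,[(17,0)]⟩),⟨0,[]⟩,.k,.k,.k,(.r (-1) ⟨0,
  [(19,1),(2,0),(0,1)]⟩ ⟨0,[(0,1),(2,1)]⟩),.k,.k,⟨false,1,⟨0,[(19,0),(2,0),(0,0)]⟩,⟨1,[(0,2),(2,1),
  (5,0),(4,0),(3,0)]⟩⟩,⟨true,0,⟨0,[(10,0)]⟩,⟨0,[(0,0),(13,0)]⟩⟩,⟨true,0,⟨0,[(20,0)]⟩,⟨0,[(19,0)]⟩⟩,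
  ⟨false,0,⟨0,[(1,0),(18,0)]⟩,⟨0,[(0,0),(1,0),(4,1),(6,2),(3,0),(0,0)]⟩⟩,⟨false,1,⟨2,[(2,0),(9,0),
  (9,0)]⟩,⟨0,[]⟩⟩,⟨false,0,⟨0,[(1,0)]⟩,⟨0,[(13,0),(0,0),(4,0),(2,0)]⟩⟩,[.o ⟨false,0,⟨0,[(9,0)]⟩,⟨0,
  [(19,0),(2,0)]⟩⟩,.o ⟨false,0,⟨0,[(1,0)]⟩,⟨2,[(2,0),(9,0),(6,2),(2,0)]⟩⟩,.a ⟨true,0,⟨0,[(0,0),(13,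
  0)]⟩,⟨0,[(23,0)]⟩⟩ ⟨true,0,⟨0,[(23,0)]⟩,⟨1,[(0,0),(8,0),(4,0),(3,0)]⟩⟩ ⟨false,0,⟨1,[(1,0),(8,0),
  (9,0)]⟩,⟨0,[(0,0),(13,0),(4,0),(2,0)]⟩⟩,.e ⟨false,1,⟨2,[(2,0),(9,0),(9,0)]⟩,⟨0,[]⟩⟩ ⟨false,0,⟨0,
  [(1,0)]⟩,⟨0,[(13,0),(0,0),(4,0),(2,0)]⟩⟩]⟩)))))

def tree : Tre :=
  (.I [0,0,1,1,0,0,-1] t3 (.Q [0,-1,1,0,0,0,1,0,-1] (.p false [0,0,1] [] (⟨0,[(6,0)]⟩,⟨0,[(5,0)]⟩)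
  .k 0 (⟨0,[]⟩,⟨0,[]⟩) .k .k) (.Q [0,-1,-1,0,1,0,-1,0,1] (.p true [0,0,1] [] (⟨0,[(7,0)]⟩,⟨0,[(6,
  0)]⟩) .k 0 (⟨0,[]⟩,⟨0,[]⟩) .k .k) (.Q [0,0,-1,0,0,0,0,0,1] (.p true [0,0,1] [] (⟨0,[(8,0)]⟩,⟨0,
  [(7,0)]⟩) .k 0 (⟨0,[]⟩,⟨0,[]⟩) .k .k) (.R ⟨2,false,false,false,[0,1],[0,0,1],[0,0,1],(⟨0,[]⟩,⟨0,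
  []⟩),(⟨0,[(9,0)]⟩,⟨0,[(8,0)]⟩),⟨0,[]⟩,.k,.k,.k,(.r (-1) ⟨1,[(6,0),(7,1),(2,0),(0,1)]⟩ ⟨0,[(0,0),
  (1,0),(10,0),(1,1)]⟩),.k,.k,⟨false,1,⟨3,[(6,2),(0,0)]⟩,⟨1,[(0,0),(1,0),(0,0),(9,0)]⟩⟩,⟨true,0,⟨0,
  [(5,0),(2,0)]⟩,⟨0,[(0,0)]⟩⟩,⟨true,0,⟨0,[(15,0)]⟩,⟨0,[(14,0)]⟩⟩,⟨false,0,⟨0,[(2,0),(12,0)]⟩,⟨0,[(1,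
  0),(12,0)]⟩⟩,⟨false,1,⟨3,[(6,0),(0,0),(9,1)]⟩,⟨0,[]⟩⟩,⟨false,0,⟨0,[(2,0)]⟩,⟨1,[(6,0),(2,1),(6,
  0)]⟩⟩,[.o ⟨false,0,⟨0,[(2,0),(16,0)]⟩,⟨1,[(0,1),(5,0),(3,0)]⟩⟩,.o ⟨false,0,⟨0,[(2,0)]⟩,⟨0,[(1,0),
  (2,0),(9,0)]⟩⟩,.a ⟨true,0,⟨0,[(0,0),(7,0)]⟩,⟨0,[(18,0)]⟩⟩ ⟨true,0,⟨0,[(18,0)]⟩,⟨1,[(0,0),(3,0),(3,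
  0),(4,0)]⟩⟩ ⟨false,0,⟨0,[(2,0),(15,0)]⟩,⟨1,[(0,1),(5,0),(9,0)]⟩⟩,.e ⟨false,1,⟨3,[(6,0),(0,0),(9,
  1)]⟩,⟨0,[]⟩⟩ ⟨false,0,⟨0,[(2,0)]⟩,⟨1,[(6,0),(2,1),(6,0)]⟩⟩]⟩) (.Q [0,0,0,0,0,1,0,-1,1] (.ed false
  [0,1,1] .k) t4 (.Q [0,-1,1,1,0,0,1,0,-1] (.p false [0,0,1] [] (⟨0,[(10,0)]⟩,⟨0,[(9,0)]⟩) .k 0 (⟨0,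
  []⟩,⟨0,[]⟩) .k .k) (.Q [0,0,-1,0,0,0,0,1] (.pp false [-1,1]) (.R ⟨2,false,false,false,[0,1],[0,1,
  1],[0,0,1],(⟨0,[]⟩,⟨0,[]⟩),(⟨0,[(12,0),(2,0)]⟩,⟨0,[(2,0)]⟩),⟨0,[]⟩,.k,(.x 0 ⟨0,[(15,0)]⟩ ⟨3,[(9,
  0),(0,0),(2,1),(0,3)]⟩),.k,.k,(.x (-1) ⟨3,[(9,0),(0,0),(2,1),(0,3)]⟩ ⟨0,[(15,0)]⟩),.k,⟨false,1,⟨1,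
  [(9,0),(8,1),(0,0)]⟩,⟨2,[(1,1),(4,0),(5,1),(3,0),(0,0)]⟩⟩,⟨true,0,⟨0,[(3,0)]⟩,⟨0,[(12,0)]⟩⟩,⟨true,
  0,⟨0,[(18,0)]⟩,⟨0,[(17,0)]⟩⟩,⟨false,0,⟨0,[(5,0)]⟩,⟨1,[(9,0),(2,1),(6,0)]⟩⟩,⟨false,1,⟨3,[(9,0),(0,
  0),(9,1)]⟩,⟨0,[]⟩⟩,⟨false,0,⟨0,[(1,0)]⟩,⟨7,[(0,3),(3,3),(2,3),(1,2),(0,0),(1,3),(5,3)]⟩⟩,[.o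
  ⟨false,0,⟨0,[(5,0),(11,0)]⟩,⟨0,[(4,0),(2,0)]⟩⟩,.o ⟨false,0,⟨0,[(1,0)]⟩,⟨1,[(7,1),(1,0),(2,1),(6,
  0)]⟩⟩,.a ⟨true,0,⟨0,[(0,0)]⟩,⟨0,[(21,0)]⟩⟩ ⟨true,0,⟨0,[(21,0)]⟩,⟨1,[(0,0),(6,0),(8,0)]⟩⟩ ⟨false,0,
  ⟨0,[(1,0),(19,0)]⟩,⟨0,[(0,0),(3,0),(2,0)]⟩⟩,.e ⟨false,1,⟨3,[(9,0),(0,0),(9,1)]⟩,⟨0,[]⟩⟩ ⟨false,0,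
  ⟨0,[(1,0)]⟩,⟨7,[(0,3),(3,3),(2,3),(1,2),(0,0),(1,3),(5,3)]⟩⟩]⟩) (.I [1,-1,-1,0,1,0,-1] (.Q [0,0,0,
  1,0,0,0,1,-1] (.p false [0,0,1] [1] (⟨0,[(13,0)]⟩,⟨0,[(12,0)]⟩) .k 1 (⟨0,[]⟩,⟨0,[]⟩) .k .k) (.R
  ⟨1,false,false,false,[1,0,-1],[0,1],[1,0,0,0,0,0,-1],(⟨0,[(13,0)]⟩,⟨0,[(14,0)]⟩),(⟨0,[(17,0)]⟩,⟨0,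
  [(16,0)]⟩),⟨0,[(4,0)]⟩,.k,.k,(.x (-1) ⟨3,[(11,0),(0,0),(2,1),(0,3)]⟩ ⟨0,[(17,0)]⟩),(.x (-1) ⟨3,
  [(11,0),(0,0),(2,1),(0,3)]⟩ ⟨0,[(17,0)]⟩),(.r (-1) ⟨0,[(1,0),(16,0),(1,2)]⟩ ⟨0,[(3,0),(10,0),(4,
  0),(3,0)]⟩),.k,⟨false,1,⟨0,[(1,0),(16,0),(1,1)]⟩,⟨0,[(7,0),(6,0),(4,0)]⟩⟩,⟨true,0,⟨0,[(13,0)]⟩,⟨0,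
  [(2,0),(11,0)]⟩⟩,⟨true,0,⟨0,[]⟩,⟨0,[(24,0)]⟩⟩,⟨false,0,⟨0,[(0,0),(6,0),(6,0)]⟩,⟨0,[(6,0),(2,0)]⟩⟩,
  ⟨false,1,⟨0,[(19,0),(2,0)]⟩,⟨0,[(20,0)]⟩⟩,⟨false,0,⟨0,[(0,0),(2,0),(10,0)]⟩,⟨0,[(6,0),(2,0),(10,
  0)]⟩⟩,[.e ⟨false,1,⟨1,[(11,0),(9,0)]⟩,⟨1,[(7,0),(0,0),(5,0),(4,0)]⟩⟩ ⟨false,0,⟨0,[(0,0)]⟩,⟨5,[(6,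
  3),(1,1),(0,3),(2,0),(1,1),(0,0)]⟩⟩,.o ⟨false,1,⟨0,[(19,0),(2,0)]⟩,⟨0,[(9,0)]⟩⟩,.o ⟨false,1,⟨1,
  [(14,1),(0,0),(5,0)]⟩,⟨0,[(5,0)]⟩⟩,.a ⟨true,0,⟨0,[(14,0)]⟩,⟨0,[(13,0)]⟩⟩ ⟨false,1,⟨0,[(1,0)]⟩,⟨0,
  [(7,0),(6,0),(9,0)]⟩⟩ ⟨true,0,⟨0,[(0,0)]⟩,⟨0,[(9,0),(4,0)]⟩⟩]⟩) (.Q [0,0,0,-1,0,0,0,-1] (.pp true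
  [-1,1]) (.R ⟨1,false,false,true,[1,0,-1],[0,1],[0,1,0,-1,0,0,-1],(⟨0,[(14,0)]⟩,⟨0,[(15,0)]⟩),(⟨0,
  [(18,0)]⟩,⟨0,[(17,0)]⟩),⟨0,[(5,0)]⟩,.k,.k,(.x (-1) ⟨3,[(12,0),(0,0),(2,1),(0,3)]⟩ ⟨0,[(18,0)]⟩),
  (.x (-1) ⟨3,[(12,0),(0,0),(2,1),(0,3)]⟩ ⟨0,[(18,0)]⟩),(.r (-1) ⟨0,[(2,0),(16,0),(1,2)]⟩ ⟨0,[(4,0),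
  (10,0),(4,0),(3,0)]⟩),.k,⟨false,1,⟨0,[(2,0),(16,0),(1,2)]⟩,⟨0,[(4,0),(10,0),(4,0)]⟩⟩,⟨true,0,⟨0,
  [(14,0)]⟩,⟨0,[(3,0),(11,0)]⟩⟩,⟨false,0,⟨0,[(21,0)]⟩,⟨0,[(20,0),(2,0)]⟩⟩,⟨false,0,⟨0,[(8,0),(5,0),
  (0,0),(4,0)]⟩,⟨0,[(0,0),(6,0)]⟩⟩,⟨true,0,⟨0,[(25,0)]⟩,⟨0,[]⟩⟩,⟨false,0,⟨0,[(4,0),(9,0),(0,0),(4,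
  0)]⟩,⟨0,[(0,0),(6,0),(13,0)]⟩⟩,[.o ⟨false,0,⟨0,[(20,0)]⟩,⟨0,[(10,0),(12,0)]⟩⟩,.o ⟨false,1,⟨3,[(12,
  0),(0,0),(6,3),(2,1)]⟩,⟨0,[(0,0)]⟩⟩,.o ⟨false,1,⟨1,[(15,1),(0,0),(5,0)]⟩,⟨0,[(6,0)]⟩⟩,.a ⟨true,0,
  ⟨0,[(15,0)]⟩,⟨0,[(14,0)]⟩⟩ ⟨false,1,⟨1,[(12,0),(8,1),(0,0)]⟩,⟨0,[(4,0),(10,0)]⟩⟩ ⟨true,0,⟨0,[(14,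
  0),(5,0)]⟩,⟨0,[(1,0)]⟩⟩]⟩) (.R ⟨1,false,false,false,[1,0,-1],[0,1],[1,0,0,0,0,0,-1],(⟨0,[(14,0)]⟩,
  ⟨0,[(15,0)]⟩),(⟨0,[(18,0)]⟩,⟨0,[(17,0)]⟩),⟨0,[(5,0)]⟩,.k,.k,(.x (-1) ⟨3,[(12,0),(0,0),(2,1),(0,
  3)]⟩ ⟨0,[(18,0)]⟩),(.x (-1) ⟨3,[(12,0),(0,0),(2,1),(0,3)]⟩ ⟨0,[(18,0)]⟩),(.r (-1) ⟨0,[(2,0),(16,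
  0),(1,2)]⟩ ⟨1,[(0,0),(3,0),(3,0),(2,0),(3,1),(4,1)]⟩),.k,⟨false,1,⟨0,[(2,0),(16,0),(1,1)]⟩,⟨0,[(8,
  0),(6,0),(4,0)]⟩⟩,⟨true,0,⟨0,[(14,0)]⟩,⟨0,[(3,0),(11,0)]⟩⟩,⟨true,0,⟨0,[]⟩,⟨0,[(25,0)]⟩⟩,⟨false,0,
  ⟨0,[(0,0),(7,0)]⟩,⟨0,[(7,0),(2,0)]⟩⟩,⟨false,1,⟨0,[(20,0),(2,0)]⟩,⟨0,[(21,0)]⟩⟩,⟨false,0,⟨0,[(0,0),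
  (3,0)]⟩,⟨0,[(7,0),(2,0),(10,0)]⟩⟩,[.a ⟨true,0,⟨0,[(0,0)]⟩,⟨0,[(21,0)]⟩⟩ ⟨false,1,⟨1,[(12,0),(9,
  0)]⟩,⟨1,[(8,0),(0,0),(5,0),(4,0)]⟩⟩ ⟨true,0,⟨0,[(0,0),(5,0)]⟩,⟨0,[(1,0)]⟩⟩,.o ⟨false,1,⟨0,[(20,0),
  (2,0)]⟩,⟨0,[(10,0)]⟩⟩,.o ⟨false,1,⟨1,[(15,1),(0,0),(5,0)]⟩,⟨0,[(6,0)]⟩⟩,.e ⟨false,1,⟨0,[(2,0)]⟩,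
  ⟨0,[(8,0),(6,0),(9,0)]⟩⟩ ⟨false,1,⟨7,[(0,3),(3,3),(7,2),(0,0),(0,3),(7,1),(0,1)]⟩,⟨0,[(1,
  0)]⟩⟩]⟩))) (.S ⟨1,0,[0,1,0,-1,0,0,-1],[1,0,-1],[1,0,0,0,0,0,-1],(⟨0,[(12,0)]⟩,⟨0,[(13,0)]⟩),⟨0,
  [(3,0)]⟩,.k,(.x (-1) ⟨3,[(10,0),(0,0),(2,1),(0,3)]⟩ ⟨0,[(16,0)]⟩),⟨true,0,⟨0,[]⟩,⟨0,[(23,0)]⟩⟩,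
  ⟨false,0,⟨0,[(19,0)]⟩,⟨0,[(18,0),(2,0)]⟩⟩,⟨false,1,⟨0,[(18,0),(2,0)]⟩,⟨0,[(19,0)]⟩⟩,⟨true,0,⟨0,
  [(23,0)]⟩,⟨0,[]⟩⟩,[.o ⟨false,1,⟨1,[(8,1),(1,0),(2,1),(6,0)]⟩,⟨0,[(2,0)]⟩⟩,.o ⟨false,1,⟨0,[(5,0),
  (2,0)]⟩,⟨6,[(0,0),(1,3),(1,2),(6,0),(5,0),(0,1)]⟩⟩,.o ⟨false,1,⟨1,[(13,1),(0,0),(5,0)]⟩,⟨0,[(4,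
  0)]⟩⟩,.a ⟨true,0,⟨0,[(13,0)]⟩,⟨0,[(12,0)]⟩⟩ ⟨true,1,⟨1,[(10,0),(9,0)]⟩,⟨0,[(0,0)]⟩⟩ ⟨false,1,⟨1,
  [(10,0),(8,1),(0,0)]⟩,⟨0,[(2,0),(10,0)]⟩⟩]⟩))) (.R ⟨2,true,false,false,[0,1],[0,1,1],[0,0,1],(⟨0,
  []⟩,⟨0,[]⟩),(⟨0,[(11,0),(2,0)]⟩,⟨0,[(1,0)]⟩),⟨0,[]⟩,.k,(.x 0 ⟨0,[(14,0)]⟩ ⟨3,[(8,0),(0,0),(2,1),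
  (0,3)]⟩),.k,.k,(.x (-1) ⟨3,[(8,0),(0,0),(2,1),(0,3)]⟩ ⟨0,[(14,0)]⟩),.k,⟨false,1,⟨1,[(8,0),(8,1),
  (0,0)]⟩,⟨0,[(4,0),(6,0),(3,0)]⟩⟩,⟨true,0,⟨0,[(2,0)]⟩,⟨0,[(11,0)]⟩⟩,⟨true,0,⟨0,[(17,0)]⟩,⟨0,[(16,
  0)]⟩⟩,⟨false,0,⟨0,[(4,0)]⟩,⟨5,[(0,1),(2,3),(4,0),(0,0),(6,1)]⟩⟩,⟨false,1,⟨3,[(8,0),(0,0),(9,1)]⟩,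
  ⟨0,[]⟩⟩,⟨true,0,⟨0,[(4,0),(11,0)]⟩,⟨0,[(0,0)]⟩⟩,[]⟩)))) (.K ⟨0,[0,0,1],0,(-1),(⟨0,[(8,0)]⟩,⟨0,[(7,
  0)]⟩),.k,(.x 0 ⟨0,[(4,0),(5,0)]⟩ ⟨0,[(11,0),(3,0)]⟩),(.x 0 ⟨0,[(11,0)]⟩ ⟨3,[(5,0),(0,0),(2,1),(0,
  3)]⟩),.k,.k,[⟨0,[(8,0)]⟩,⟨0,[(4,0),(2,0)]⟩,⟨1,[(5,0),(2,1),(6,0),(2,1)]⟩,⟨0,[(0,0)]⟩]⟩)) (.K ⟨0,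
  [0,0,1],0,0,(⟨0,[(7,0)]⟩,⟨0,[(6,0)]⟩),.k,(.x 0 ⟨0,[(3,0),(5,0)]⟩ ⟨0,[(10,0),(3,0)]⟩),(.x 0 ⟨0,
  [(10,0)]⟩ ⟨3,[(4,0),(0,0),(2,1),(0,3)]⟩),.k,.k,[⟨0,[(7,0)]⟩,⟨0,[(3,0),(2,0)]⟩,⟨0,[(0,0)]⟩,⟨0,[(1,
  0),(1,0),(2,0),(5,0)]⟩]⟩)))

theorem ok : chk (cPU (-1) true) tree base = true := by
  decide +kernel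

theorem closed {p a b c J l q : ℤ} {D dl : ℝ} {Cl : ℤ → ℤ → ℤ → ℤ → ℝ → Prop}
    (W : World p a b c J (-1) l q D dl Cl) (hE : KEmp p a b (-1) (P1 l p) Cl)
    (g : G0 p a b c J D)
    {N R : ℤ} {I : ℝ} (hu : UFac p b D Cl N R I)
    (s0 : (c : ℝ) + 1 ≤ 0)
    (s1 : (b : ℝ) - c + 1 ≤ a)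
    (s2 : D < 2 * b)
    (s3 : -(a : ℝ) < -D - c) : False := by
  have g1 := g.a2
  have g2 := g.b2
  have g3 := g.pa
  have g4 := g.pb
  have g5 := g.J1
  have g6 := g.JD
  have g7 := g.D2
  have g8 := g.ca
  have g9 := g.ca'
  have t1 := TF.ofU hu
  have i1 := t1.I0
  have i2 := t1.ID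
  have i3 := t1.R1
  have i4 := t1.R2
  refine (val_PU W.toBase (UV.ofU hu)).sound W rfl (Nk := 0) (fun kf hkf hh => ?_) (kok_B hE (by simp [xv]) (by simp [xv]) 0) ?_ ok
  · simp only [cPU, kfB, List.mem_cons, List.not_mem_nil, or_false] at hkf
    subst hkf
    exact absurd hh (by norm_num)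
  · simp only [base, List.forall_mem_cons, List.not_mem_nil, false_imp_iff, implies_true,
      and_true, hld, xv, evg_cons, evg_nil, List.map_cons, List.map_nil, List.cons_append,
      List.nil_append, if_true, if_false, Bool.false_eq_true]
    push_cast
    refine ⟨?_, ?_, ?_, ?_, ?_, ?_, ?_, ?_, ?_, ?_, ?_, ?_, ?_, ?_, ?_, ?_⟩ <;> linarith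

end Helper25.KG.Pm1_1_m1_0_u
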