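import Pool.Agent.Helper25.KG.PL

set_option autoImplicit false
set_option linter.unusedVariables false

namespace Helper25.KG.Pm1_1_m1_0_v

open Helper11.CT Helper25.KW Helper25.KG

def base : List Con :=
  [(false,[0,1,0,-1,0,0,0,-1]),
  (false,[0,0,2,0,0,0,0,-1]),
  (true,[0,0,0,0,1,0,-2]),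
  (true,[0,0,0,0,1,0,2]),
  (false,[0,0,0,0,0,0,0,1,-2]),
  (false,[0,0,0,0,0,0,0,0,1]),
  (false,[0,0,0,0,1,0,0,-2]),
  (false,[0,0,0,0,0,-1,0,1]),
  (true,[0,0,0,0,0,1]),
  (true,[0,1,-1,1]),
  (true,[0,1,0,1]),
  (true,[0,0,0,-1]),
  (true,[0,0,-2,0,1]),
  (true,[0,-2,0,0,1]),
  (true,[-1,0,1]),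
  (true,[-1,1])]

def t0 : Tre :=
  (.Q [0,0,-1,0,0,0,0,1] (.pp false [-1,1]) (.Q [0,-1,0,-2,0,0,0,-1] (.pp true [-1,1]) (.R ⟨2,true,
  false,false,[0,1],[1,-1],[1,0,1,1],(⟨0,[]⟩,⟨0,[]⟩),(⟨0,[(11,0)]⟩,⟨0,[(12,0)]⟩),⟨0,[]⟩,.k,.k,.k,
  (.r (-1) ⟨0,[(14,1),(2,0),(0,1)]⟩ ⟨1,[(0,1),(0,2),(2,0),(8,0)]⟩),.k,.k,⟨false,1,⟨0,[(14,1),(2,0),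
  (0,0)]⟩,⟨1,[(0,1),(0,2),(2,0),(8,0)]⟩⟩,⟨true,0,⟨0,[(5,0)]⟩,⟨0,[(1,0)]⟩⟩,⟨true,0,⟨0,[]⟩,⟨0,[(19,
  0)]⟩⟩,⟨false,0,⟨0,[(0,0)]⟩,⟨0,[(11,0),(0,0),(1,1),(2,0)]⟩⟩,⟨false,1,⟨0,[(14,0),(2,0)]⟩,⟨0,[(15,
  0)]⟩⟩,⟨true,0,⟨4,[(0,2),(3,0),(0,0),(7,1)]⟩,⟨0,[(11,0),(0,0),(1,0)]⟩⟩,[]⟩) (.Q [0,0,0,1,0,0,0,1]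
  (.pp false [-1,1]) (.Q [0,-1,0,0,1,0,1,0,-1] (.p false [0,0,1] [] (⟨0,[(10,0)]⟩,⟨1,[(0,0),(8,0),
  (6,0)]⟩) .k 0 (⟨0,[]⟩,⟨0,[]⟩) .k .k) (.R ⟨2,false,false,false,[0,1],[0,0,1],[0,0,1],(⟨0,[]⟩,⟨0,
  []⟩),(⟨0,[(11,0)]⟩,⟨1,[(1,0),(8,0),(6,0)]⟩),⟨0,[]⟩,.k,.k,.k,(.r 0 ⟨1,[(1,1),(2,1),(2,0),(2,0)]⟩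
  ⟨1,[(9,0),(7,1),(0,0)]⟩),.k,.k,⟨false,0,⟨1,[(1,0),(2,1),(5,0),(6,0)]⟩,⟨1,[(9,0),(8,0)]⟩⟩,⟨true,0,
  ⟨1,[(7,0),(2,0)]⟩,⟨0,[(11,0)]⟩⟩,⟨true,0,⟨0,[(17,0)]⟩,⟨0,[(16,0)]⟩⟩,⟨false,1,⟨0,[(0,0),(16,0)]⟩,⟨0,
  [(1,0),(2,0)]⟩⟩,⟨false,1,⟨3,[(8,0),(0,0),(9,1)]⟩,⟨0,[]⟩⟩,⟨false,1,⟨0,[(0,0)]⟩,⟨0,[(1,0),(2,0),(12,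
  0)]⟩⟩,[.o ⟨false,1,⟨7,[(8,0),(0,4),(0,3),(1,1)]⟩,⟨0,[(4,0)]⟩⟩,.o ⟨false,1,⟨0,[(0,0)]⟩,⟨0,[(4,0),
  (16,0)]⟩⟩,.a ⟨true,0,⟨0,[(3,0)]⟩,⟨0,[(20,0)]⟩⟩ ⟨true,0,⟨0,[(20,0)]⟩,⟨1,[(3,0),(2,0),(8,0)]⟩⟩
  ⟨false,1,⟨1,[(7,0),(1,0),(0,0),(8,0)]⟩,⟨0,[(3,0),(0,0)]⟩⟩,.e ⟨false,1,⟨3,[(8,0),(0,0),(9,1)]⟩,⟨0,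
  []⟩⟩ ⟨false,1,⟨0,[(0,0)]⟩,⟨0,[(1,0),(2,0),(12,0)]⟩⟩]⟩) (.I [0,0,-1,-1,0,0,-1] (.K ⟨0,[0,0,1],0,1,
  (⟨0,[(12,0)]⟩,⟨1,[(2,0),(8,0),(6,0)]⟩),.k,(.r (-1) ⟨0,[(0,0),(9,0)]⟩ ⟨1,[(2,1),(2,1),(2,0),(2,
  0)]⟩),(.r (-1) ⟨7,[(3,3),(4,3),(0,0),(0,4),(9,1)]⟩ ⟨0,[(0,0)]⟩),.k,.k,[⟨0,[(12,0),(8,0)]⟩,⟨1,[(8,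
  0),(2,0)]⟩,⟨0,[(1,0)]⟩,⟨7,[(9,0),(0,4),(0,3),(1,1),(8,7)]⟩]⟩) (.I [0,0,1,0,0,-1] (.K ⟨0,[0,0,1],0,
  1,(⟨0,[(13,0)]⟩,⟨1,[(3,0),(8,0),(6,0)]⟩),.k,(.x 0 ⟨0,[(0,0)]⟩ ⟨3,[(10,0),(0,0),(4,3),(3,1)]⟩),(.x
  (-1) ⟨3,[(10,0),(0,0),(4,3),(3,1)]⟩ ⟨0,[(0,0)]⟩),.k,.k,[⟨0,[(13,0),(8,0)]⟩,⟨1,[(9,0),(2,0)]⟩,⟨0,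
  [(2,0)]⟩,⟨7,[(10,0),(0,4),(0,3),(1,1),(8,7)]⟩]⟩) (.Q [0,0,-1,1,0,0,0,1] (.pp false [-1,1]) (.R ⟨0,
  false,false,false,[1,-1],[0,1],[0,1],(⟨0,[(16,0)]⟩,⟨0,[(17,0)]⟩),(⟨0,[(17,0)]⟩,⟨0,[(16,0)]⟩),⟨0,
  [(1,1),(8,0)]⟩,.k,.k,(.r (-1) ⟨0,[(20,1),(0,0)]⟩ ⟨1,[(2,1),(1,1),(2,1),(2,0),(2,0)]⟩),(.r (-1) ⟨0,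
  [(20,1),(0,0)]⟩ ⟨1,[(2,1),(1,1),(2,1),(2,0),(2,0)]⟩),.k,.k,⟨true,0,⟨0,[(6,0),(2,0)]⟩,⟨1,[(2,1),(0,
  1),(6,0),(2,0),(8,1)]⟩⟩,⟨false,1,⟨0,[(6,0),(14,0)]⟩,⟨0,[(10,0)]⟩⟩,⟨false,0,⟨3,[(2,1),(1,1),(2,1),
  (2,0),(2,0)]⟩,⟨1,[(20,1),(0,0),(0,0)]⟩⟩,⟨true,0,⟨2,[(0,1),(1,1),(1,1),(2,1),(5,0)]⟩,⟨0,[(9,0),(10,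
  0)]⟩⟩,⟨false,0,⟨0,[]⟩,⟨0,[]⟩⟩,⟨false,0,⟨0,[]⟩,⟨0,[]⟩⟩,[.a ⟨true,0,⟨0,[(4,0)]⟩,⟨0,[(20,0)]⟩⟩
  ⟨false,0,⟨1,[(6,0),(2,0),(8,0)]⟩,⟨3,[(11,0),(0,0),(9,1)]⟩⟩ ⟨true,0,⟨0,[(0,0)]⟩,⟨0,[(10,0),(9,
  0)]⟩⟩,.o ⟨false,1,⟨3,[(5,1),(9,0),(6,2)]⟩,⟨0,[(9,0)]⟩⟩,.e ⟨true,0,⟨0,[(24,0)]⟩,⟨0,[]⟩⟩ ⟨true,0,⟨0,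
  [(0,0)]⟩,⟨1,[(9,0),(0,0),(9,0),(3,0)]⟩⟩,.o ⟨false,0,⟨0,[(10,0)]⟩,⟨0,[(21,0)]⟩⟩]⟩) (.R ⟨0,false,
  false,false,[1,-1],[0,1],[0,1],(⟨0,[(16,0)]⟩,⟨0,[(17,0)]⟩),(⟨0,[(17,0)]⟩,⟨0,[(16,0)]⟩),⟨0,[(1,1),
  (8,0)]⟩,.k,.k,(.r (-1) ⟨0,[(20,1),(0,0)]⟩ ⟨1,[(2,1),(1,1),(2,1),(2,0),(2,0)]⟩),(.r (-1) ⟨0,[(20,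
  1),(0,0)]⟩ ⟨1,[(2,1),(1,1),(2,1),(2,0),(2,0)]⟩),.k,.k,⟨true,0,⟨0,[(6,0),(2,0)]⟩,⟨1,[(2,1),(0,1),
  (6,0),(2,0),(8,1)]⟩⟩,⟨false,1,⟨0,[(6,0),(14,0)]⟩,⟨0,[(10,0)]⟩⟩,⟨false,0,⟨3,[(2,1),(1,1),(2,1),(2,
  0),(2,0)]⟩,⟨1,[(20,1),(0,0),(0,0)]⟩⟩,⟨true,0,⟨2,[(2,1),(0,1),(0,1),(8,0),(4,1),(3,1)]⟩,⟨0,[(9,0),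
  (10,0)]⟩⟩,⟨false,0,⟨0,[]⟩,⟨0,[]⟩⟩,⟨false,0,⟨0,[]⟩,⟨0,[]⟩⟩,[.e ⟨false,0,⟨1,[(6,0),(2,0),(8,0)]⟩,⟨3,
  [(11,0),(0,0),(9,1)]⟩⟩ ⟨false,1,⟨0,[(4,0),(16,0)]⟩,⟨0,[(0,0)]⟩⟩,.o ⟨false,1,⟨3,[(5,1),(9,0),(6,
  2)]⟩,⟨0,[(9,0)]⟩⟩,.a ⟨true,0,⟨0,[(23,0)]⟩,⟨0,[(6,0)]⟩⟩ ⟨true,0,⟨0,[(24,0)]⟩,⟨0,[]⟩⟩ ⟨false,1,⟨1,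
  [(4,1),(16,0),(0,0)]⟩,⟨0,[(0,0)]⟩⟩,.o ⟨false,0,⟨0,[(10,0)]⟩,⟨0,[(21,0)]⟩⟩]⟩))))) (.R ⟨2,false,
  false,false,[0,1],[1,-1],[0,1,1],(⟨0,[]⟩,⟨0,[]⟩),(⟨0,[(12,0)]⟩,⟨0,[(13,0)]⟩),⟨0,[]⟩,.k,.k,.k,(.r
  (-1) ⟨3,[(1,3),(4,3),(0,0),(0,0),(9,1)]⟩ ⟨0,[(0,1),(1,1)]⟩),.k,.k,⟨false,0,⟨1,[(1,0),(4,0),(13,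
  0)]⟩,⟨1,[(0,1),(1,1),(14,0),(0,0)]⟩⟩,⟨true,0,⟨0,[(6,0)]⟩,⟨0,[(2,0)]⟩⟩,⟨false,0,⟨0,[(16,0)]⟩,⟨3,
  [(1,1),(9,0),(6,2)]⟩⟩,⟨true,0,⟨0,[(0,0),(15,0)]⟩,⟨0,[(1,0)]⟩⟩,⟨true,0,⟨0,[(20,0)]⟩,⟨0,[]⟩⟩,⟨true,
  0,⟨0,[(0,0)]⟩,⟨1,[(1,0),(10,0),(0,0),(6,0)]⟩⟩,[.o ⟨false,0,⟨0,[(0,0)]⟩,⟨3,[(1,1),(5,0),(0,0),(2,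
  0),(6,0)]⟩⟩,.o ⟨false,1,⟨0,[(5,0),(12,0)]⟩,⟨0,[(15,0)]⟩⟩,.a ⟨true,0,⟨0,[(2,0)]⟩,⟨0,[(19,0)]⟩⟩
  ⟨false,0,⟨0,[(19,0)]⟩,⟨1,[(17,0),(0,0)]⟩⟩ ⟨true,0,⟨1,[(0,0),(5,0),(9,0)]⟩,⟨2,[(1,0),(0,1),(11,0),
  (5,0)]⟩⟩,.e ⟨true,0,⟨0,[(20,0)]⟩,⟨0,[]⟩⟩ ⟨true,0,⟨0,[(0,0)]⟩,⟨1,[(1,0),(10,0),(0,0),(6,0)]⟩⟩]⟩)))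
  (.I [0,0,1,1,0,0,-1] (.Q [0,1,0,0,0,0,1,1,-1] (.p false [0,0,1] [1] (⟨0,[(9,0)]⟩,⟨1,[(8,0),(2,0),
  (0,0)]⟩) .k 1 (⟨0,[]⟩,⟨0,[]⟩) .k .k) (.K ⟨0,[1,0,-1],0,0,(⟨1,[(9,0),(2,0),(0,0)]⟩,⟨0,[(10,0)]⟩),
  .k,(.x 0 ⟨0,[(2,0),(9,0)]⟩ ⟨3,[(7,0),(0,0),(4,3),(3,1)]⟩),(.r 0 ⟨0,[(1,0)]⟩ ⟨1,[(8,0),(7,1),(0,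
  0)]⟩),.k,.k,[⟨1,[(9,0),(2,0),(0,0),(5,1)]⟩,⟨0,[(2,0),(7,0)]⟩,⟨0,[(0,0)]⟩,⟨0,[(3,0),(16,0)]⟩]⟩)
  (.Q [0,-1,0,1,0,0,-1,0,1] (.p true [0,0,1] [] (⟨0,[(10,0)]⟩,⟨1,[(9,0),(2,0),(0,0)]⟩) .k 0 (⟨0,[]⟩,
  ⟨0,[]⟩) .k .k) (.Q [0,0,0,-1,0,0,0,-1,1] (.p true [0,0,1] [1] (⟨0,[(11,0)]⟩,⟨1,[(10,0),(2,0),(0,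
  0)]⟩) .k 1 (⟨0,[]⟩,⟨0,[]⟩) .k .k) (.Q [0,0,0,-1,0,0,0,-1] (.pp true [-1,1]) (.Q [0,0,0,0,0,1,0,0,
  -1] (.ed true [1,-1,1] .k) (.R ⟨0,false,false,false,[0,0,1],[1,-1],[1,0,0,0,0,0,1],(⟨0,[(14,0)]⟩,
  ⟨1,[(13,0),(2,0),(0,0)]⟩),(⟨0,[(16,0)]⟩,⟨0,[(17,0)]⟩),⟨0,[(0,0)]⟩,.k,.k,(.r (-1) ⟨1,[(12,0),(7,1),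
  (0,0)]⟩ ⟨0,[(5,0)]⟩),(.r (-1) ⟨0,[(5,0),(6,0)]⟩ ⟨1,[(3,0),(0,0),(8,0),(4,1),(1,4)]⟩),.k,.k,⟨false,
  1,⟨1,[(12,0),(6,1),(2,0)]⟩,⟨1,[(3,0),(0,0),(8,0),(4,1),(1,4)]⟩⟩,⟨true,0,⟨0,[(6,0),(7,0)]⟩,⟨1,[(13,
  0),(2,0),(0,0)]⟩⟩,⟨true,0,⟨0,[]⟩,⟨0,[(24,0)]⟩⟩,⟨false,0,⟨0,[(4,0),(15,0)]⟩,⟨3,[(3,0),(4,0),(3,2),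
  (0,2),(2,0),(0,0),(1,1)]⟩⟩,⟨false,0,⟨0,[]⟩,⟨0,[]⟩⟩,⟨false,0,⟨0,[]⟩,⟨0,[]⟩⟩,[.o ⟨false,0,⟨0,[(1,
  0)]⟩,⟨15,[(8,7),(2,0),(0,4),(0,3),(1,1),(3,7)]⟩⟩,.o ⟨false,1,⟨0,[(9,0),(12,0)]⟩,⟨0,[(19,0)]⟩⟩,.a
  ⟨true,0,⟨1,[(13,0),(2,0),(0,0)]⟩,⟨0,[(14,0)]⟩⟩ ⟨false,1,⟨1,[(12,0),(9,0)]⟩,⟨1,[(3,0),(3,0),(5,0),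
  (6,0),(3,0)]⟩⟩ ⟨true,0,⟨0,[(2,0)]⟩,⟨1,[(13,0),(2,0),(0,0),(1,1)]⟩⟩,.o ⟨false,0,⟨1,[(10,0),(2,0)]⟩,
  ⟨1,[(14,1),(0,0),(5,0)]⟩⟩]⟩) (.R ⟨1,false,false,false,[0,0,1],[1,-1],[1,0,0,0,0,0,1],(⟨0,[(14,
  0)]⟩,⟨1,[(13,0),(2,0),(0,0)]⟩),(⟨0,[(16,0)]⟩,⟨0,[(17,0)]⟩),⟨0,[(0,0)]⟩,.k,.k,(.r (-1) ⟨1,[(12,0),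
  (7,1),(0,0)]⟩ ⟨0,[(5,0)]⟩),(.r (-1) ⟨0,[(5,0),(6,0)]⟩ ⟨1,[(3,0),(0,0),(8,0),(4,1),(1,4)]⟩),.k,.k,
  ⟨false,1,⟨1,[(12,0),(6,1),(2,0)]⟩,⟨1,[(3,0),(0,0),(8,0),(4,1),(1,4)]⟩⟩,⟨true,0,⟨0,[(6,0),(7,0)]⟩,
  ⟨1,[(13,0),(2,0),(0,0)]⟩⟩,⟨true,0,⟨0,[]⟩,⟨0,[(24,0)]⟩⟩,⟨false,0,⟨0,[(4,0),(15,0)]⟩,⟨3,[(3,0),(4,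
  0),(3,2),(0,2),(2,0),(0,0),(1,1)]⟩⟩,⟨false,1,⟨0,[(19,0),(2,0)]⟩,⟨0,[(20,0)]⟩⟩,⟨false,0,⟨0,[(4,
  0)]⟩,⟨3,[(11,0),(0,2),(0,1),(2,1),(0,1)]⟩⟩,[.o ⟨false,0,⟨0,[(1,0)]⟩,⟨15,[(8,7),(2,0),(0,4),(0,3),
  (1,1),(3,7)]⟩⟩,.o ⟨false,1,⟨0,[(9,0),(12,0)]⟩,⟨0,[(19,0)]⟩⟩,.a ⟨true,0,⟨1,[(13,0),(2,0),(0,0)]⟩,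
  ⟨0,[(14,0)]⟩⟩ ⟨false,1,⟨1,[(12,0),(9,0)]⟩,⟨1,[(3,0),(3,0),(5,0),(6,0),(3,0)]⟩⟩ ⟨true,0,⟨0,[(2,
  0)]⟩,⟨1,[(13,0),(2,0),(0,0),(1,1)]⟩⟩,.o ⟨false,0,⟨1,[(10,0),(2,0)]⟩,⟨1,[(14,1),(0,0),(5,0)]⟩⟩]⟩))
  (.R ⟨2,false,false,false,[0,1],[1,-1],[],(⟨0,[]⟩,⟨0,[]⟩),(⟨0,[(15,0)]⟩,⟨0,[(16,0)]⟩),⟨0,[]⟩,.k,.k,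
  .k,(.r 0 ⟨0,[(0,1),(4,1)]⟩ ⟨0,[(19,1),(0,0)]⟩),.k,.k,⟨true,0,⟨0,[(0,0),(4,0)]⟩,⟨0,[(19,0)]⟩⟩,
  ⟨false,0,⟨0,[(5,0)]⟩,⟨0,[(15,0),(0,0),(3,0)]⟩⟩,⟨false,1,⟨1,[(19,1),(0,0),(0,0)]⟩,⟨0,[(0,0),(4,
  0)]⟩⟩,⟨true,0,⟨0,[(1,1),(10,0)]⟩,⟨0,[(0,0),(17,0)]⟩⟩,⟨false,1,⟨1,[(20,0),(0,0)]⟩,⟨0,[(22,0)]⟩⟩,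
  ⟨false,1,⟨0,[(8,0),(12,0)]⟩,⟨0,[(0,0)]⟩⟩,[.a ⟨true,0,⟨0,[(19,0)]⟩,⟨0,[(0,0)]⟩⟩ ⟨false,1,⟨3,[(10,
  0),(0,0),(8,1)]⟩,⟨0,[]⟩⟩ ⟨true,0,⟨1,[(1,1),(7,0),(2,0)]⟩,⟨0,[(0,0)]⟩⟩,.o ⟨false,1,⟨0,[(8,0),(12,
  0)]⟩,⟨0,[(18,0)]⟩⟩,.o ⟨false,1,⟨3,[(10,0),(0,0),(8,1)]⟩,⟨0,[(5,0)]⟩⟩,.e ⟨false,1,⟨1,[(20,0),(0,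
  0)]⟩,⟨0,[(22,0)]⟩⟩ ⟨false,1,⟨0,[(8,0),(12,0)]⟩,⟨0,[(0,0)]⟩⟩]⟩)) (.Q [0,0,0,0,0,-1,0,0,1] (.ed
  false [1,-1,1] .k) (.R ⟨1,false,false,true,[0,0,1],[1,-1],[1,1,0,0,0,0,1],(⟨0,[(13,0)]⟩,⟨1,[(12,
  0),(2,0),(0,0)]⟩),(⟨0,[(15,0)]⟩,⟨0,[(16,0)]⟩),⟨0,[(0,0)]⟩,.k,.k,(.r (-1) ⟨1,[(11,0),(7,1),(0,0)]⟩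
  ⟨0,[(4,0)]⟩),(.r (-1) ⟨0,[(4,0),(6,0)]⟩ ⟨1,[(2,0),(0,0),(8,0),(4,1),(1,4)]⟩),.k,.k,⟨false,1,⟨5,
  [(1,1),(0,0),(4,0),(3,3),(2,0),(3,1)]⟩,⟨1,[(2,0),(0,0),(8,0),(4,1),(1,4)]⟩⟩,⟨true,0,⟨0,[(5,0),(7,
  0)]⟩,⟨1,[(12,0),(2,0),(0,0)]⟩⟩,⟨false,0,⟨0,[]⟩,⟨3,[(10,0),(0,0),(9,1)]⟩⟩,⟨false,0,⟨0,[(6,0),(12,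
  0)]⟩,⟨1,[(1,1),(9,0),(9,0)]⟩⟩,⟨true,0,⟨0,[(18,0)]⟩,⟨0,[(19,0)]⟩⟩,⟨false,0,⟨0,[(6,0)]⟩,⟨1,[(11,0),
  (0,0),(2,0),(0,0),(4,0)]⟩⟩,[.o ⟨false,0,⟨0,[(8,0)]⟩,⟨3,[(1,1),(0,0),(4,0),(3,0),(2,0),(6,0)]⟩⟩,.e
  ⟨false,1,⟨1,[(11,0),(8,0)]⟩,⟨1,[(2,0),(3,0),(5,0),(6,0),(3,0)]⟩⟩ ⟨false,1,⟨1,[(8,1),(4,1),(6,0),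
  (0,0)]⟩,⟨0,[(1,0)]⟩⟩,.a ⟨true,0,⟨1,[(12,0),(2,0),(0,0)]⟩,⟨0,[(13,0)]⟩⟩ ⟨false,1,⟨3,[(10,0),(0,
  2)]⟩,⟨1,[(2,0),(0,0),(8,0),(6,0)]⟩⟩ ⟨true,0,⟨0,[(8,0),(4,0)]⟩,⟨0,[(1,0)]⟩⟩,.o ⟨false,0,⟨1,[(9,0),
  (2,0)]⟩,⟨1,[(13,1),(0,0),(5,0)]⟩⟩]⟩) (.R ⟨0,false,false,true,[0,0,1],[1,-1],[0,1,0,0,0,0,1],(⟨0,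
  [(13,0)]⟩,⟨1,[(12,0),(2,0),(0,0)]⟩),(⟨0,[(15,0)]⟩,⟨0,[(16,0)]⟩),⟨0,[(0,0)]⟩,.k,.k,(.r (-1) ⟨1,
  [(11,0),(7,1),(0,0)]⟩ ⟨0,[(4,0)]⟩),(.r (-1) ⟨0,[(4,0),(6,0)]⟩ ⟨1,[(2,0),(0,0),(8,0),(4,1),(1,
  4)]⟩),.k,.k,⟨false,1,⟨5,[(1,1),(0,0),(4,0),(3,3),(2,0),(3,1)]⟩,⟨1,[(2,0),(0,0),(8,0),(4,1),(1,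
  4)]⟩⟩,⟨true,0,⟨0,[(5,0),(7,0)]⟩,⟨1,[(12,0),(2,0),(0,0)]⟩⟩,⟨true,0,⟨0,[(23,0)]⟩,⟨0,[]⟩⟩,⟨false,0,
  ⟨0,[(6,0),(12,0)]⟩,⟨1,[(1,1),(9,0),(9,0)]⟩⟩,⟨false,0,⟨0,[]⟩,⟨0,[]⟩⟩,⟨false,0,⟨0,[]⟩,⟨0,[]⟩⟩,[.o
  ⟨false,0,⟨0,[(8,0)]⟩,⟨3,[(1,1),(0,0),(4,0),(3,0),(2,0),(6,0)]⟩⟩,.e ⟨false,1,⟨1,[(11,0),(8,0)]⟩,⟨1,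
  [(2,0),(3,0),(5,0),(6,0),(3,0)]⟩⟩ ⟨false,1,⟨1,[(8,1),(4,1),(6,0),(0,0)]⟩,⟨0,[(1,0)]⟩⟩,.a ⟨true,0,
  ⟨1,[(12,0),(2,0),(0,0)]⟩,⟨0,[(13,0)]⟩⟩ ⟨false,1,⟨3,[(10,0),(0,2)]⟩,⟨1,[(2,0),(0,0),(8,0),(6,0)]⟩⟩
  ⟨true,0,⟨0,[(8,0),(4,0)]⟩,⟨0,[(1,0)]⟩⟩,.o ⟨false,0,⟨1,[(9,0),(2,0)]⟩,⟨1,[(13,1),(0,0),(5,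
  0)]⟩⟩]⟩))) (.R ⟨2,true,false,true,[0,1],[0,0,1],[1,1,1,1],(⟨0,[]⟩,⟨0,[]⟩),(⟨0,[(11,0)]⟩,⟨1,[(10,
  0),(2,0),(0,0)]⟩),⟨0,[]⟩,.k,.k,.k,(.r 0 ⟨0,[(2,0)]⟩ ⟨1,[(9,0),(7,1),(0,0)]⟩),.k,.k,⟨false,0,⟨3,
  [(1,1),(0,1),(7,0),(2,0),(0,0),(0,1)]⟩,⟨1,[(9,0),(7,1),(0,0)]⟩⟩,⟨true,0,⟨1,[(7,0),(2,0)]⟩,⟨0,[(11,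
  0)]⟩⟩,⟨false,0,⟨0,[]⟩,⟨3,[(8,0),(0,0),(9,1)]⟩⟩,⟨true,0,⟨0,[(0,0)]⟩,⟨1,[(1,0),(0,0),(8,0),(1,0),(0,
  0),(0,0)]⟩⟩,⟨true,0,⟨0,[(16,0)]⟩,⟨0,[(17,0)]⟩⟩,⟨false,1,⟨7,[(8,0),(0,4),(0,3),(1,1)]⟩,⟨0,[(1,0),
  (11,0),(0,0)]⟩⟩,[]⟩))) (.K ⟨0,[0,0,1],0,0,(⟨0,[(9,0)]⟩,⟨1,[(8,0),(2,0),(0,0)]⟩),.k,(.x 0 ⟨0,[(1,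
  0),(9,0)]⟩ ⟨3,[(6,0),(0,0),(4,3),(3,1)]⟩),(.r (-1) ⟨1,[(7,0),(6,1),(2,0),(0,1)]⟩ ⟨0,[(0,0),(1,1),
  (5,0),(2,0),(0,0)]⟩),.k,.k,[⟨0,[(9,0),(8,0)]⟩,⟨1,[(5,0),(2,0)]⟩,⟨0,[(2,0),(8,0),(0,0),(6,0)]⟩,⟨1,
  [(0,1),(4,0),(2,0),(5,1)]⟩]⟩)))

def t1 : Tre :=
  (.I [0,-1,0,-1,0,0,-1] (.Q [0,0,0,-1,0,0,-1,-1,1] (.p true [0,0,1] [1] (⟨0,[(10,0)]⟩,⟨1,[(9,0),(2,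
  0),(0,0)]⟩) .k 1 (⟨0,[]⟩,⟨0,[]⟩) .k .k) (.R ⟨2,true,false,false,[0,1],[1,0,-1],[1,1,1,1],(⟨0,[]⟩,
  ⟨0,[]⟩),(⟨1,[(10,0),(2,0),(0,0)]⟩,⟨0,[(11,0)]⟩),⟨0,[]⟩,.k,.k,.k,(.r (-1) ⟨0,[(3,0),(5,0)]⟩ ⟨0,[(1,
  0),(13,0),(1,0)]⟩),.k,.k,⟨true,0,⟨0,[(4,0),(2,0),(3,0),(3,0)]⟩,⟨0,[(1,0)]⟩⟩,⟨false,1,⟨3,[(5,1),(0,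
  1),(2,0),(1,1),(0,0)]⟩,⟨0,[(1,0),(2,0),(10,0)]⟩⟩,⟨false,0,⟨0,[]⟩,⟨3,[(8,0),(0,0),(9,1)]⟩⟩,⟨true,0,
  ⟨0,[(0,0)]⟩,⟨0,[(4,0),(11,0)]⟩⟩,⟨true,0,⟨0,[(16,0)]⟩,⟨0,[(17,0)]⟩⟩,⟨false,1,⟨3,[(0,1),(4,1),(6,0),
  (6,0)]⟩,⟨0,[(4,0)]⟩⟩,[]⟩) (.K ⟨0,[0,0,1],0,0,(⟨0,[(11,0)]⟩,⟨1,[(10,0),(2,0),(0,0)]⟩),.k,(.r (-1)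
  ⟨0,[(2,0),(6,0)]⟩ ⟨0,[(3,0)]⟩),(.r (-1) ⟨0,[(3,0),(5,0)]⟩ ⟨0,[(0,0),(0,1),(4,0),(4,0),(3,0)]⟩),.k,
  .k,[⟨0,[(11,0),(8,0)]⟩,⟨1,[(7,0),(2,0)]⟩,⟨1,[(2,0),(0,0),(7,1),(9,1)]⟩,⟨0,[(0,0),(5,0)]⟩]⟩)) (.I
  [0,0,-1,0,0,1] (.Q [0,1,0,0,0,0,1,0,-1] (.p false [0,0,1] [] (⟨0,[(11,0)]⟩,⟨1,[(10,0),(2,0),(0,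
  0)]⟩) .k 0 (⟨0,[]⟩,⟨0,[]⟩) .k .k) (.K ⟨0,[0,0,1],0,0,(⟨0,[(12,0)]⟩,⟨1,[(11,0),(2,0),(0,0)]⟩),.k,
  (.r (-1) ⟨0,[(3,0),(6,0)]⟩ ⟨0,[(4,0)]⟩),(.x 0 ⟨0,[(1,0)]⟩ ⟨7,[(8,3),(0,2),(0,2),(2,1),(0,7)]⟩),.k,
  .k,[⟨0,[(12,0),(8,0)]⟩,⟨1,[(8,0),(2,0)]⟩,⟨1,[(3,0),(0,0),(7,1),(9,1)]⟩,⟨0,[(0,0)]⟩]⟩) (.R ⟨2,true,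
  false,true,[0,1],[0,0,1],[1,1,1,1],(⟨0,[]⟩,⟨0,[]⟩),(⟨0,[(12,0)]⟩,⟨1,[(11,0),(2,0),(0,0)]⟩),⟨0,[]⟩,
  .k,.k,.k,(.r 0 ⟨0,[(4,0)]⟩ ⟨0,[(3,0),(6,0)]⟩),.k,.k,⟨false,0,⟨1,[(0,1),(7,0),(2,0),(4,1)]⟩,⟨0,[(3,
  0),(6,0)]⟩⟩,⟨true,0,⟨1,[(8,0),(2,0)]⟩,⟨0,[(12,0)]⟩⟩,⟨false,0,⟨0,[]⟩,⟨3,[(9,0),(0,0),(9,1)]⟩⟩,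
  ⟨true,0,⟨0,[(5,0),(1,0)]⟩,⟨0,[(0,0),(16,0)]⟩⟩,⟨true,0,⟨0,[(17,0)]⟩,⟨0,[(18,0)]⟩⟩,⟨false,1,⟨7,[(9,
  0),(0,4),(0,3),(1,1)]⟩,⟨0,[(0,0)]⟩⟩,[]⟩)) (.I [0,0,1,1] (.I [0,0,-2,-2,0,0,-1] (.Q [0,1,0,0,0,0,1,
  0,-1] (.p false [0,0,1] [] (⟨0,[(13,0)]⟩,⟨1,[(12,0),(2,0),(0,0)]⟩) .k 0 (⟨0,[]⟩,⟨0,[]⟩) .k .k)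
  (.K ⟨0,[0,0,1],0,0,(⟨0,[(14,0)]⟩,⟨1,[(13,0),(2,0),(0,0)]⟩),.k,(.r (-1) ⟨7,[(1,3),(9,0),(0,6)]⟩ ⟨0,
  [(6,0)]⟩),(.r (-1) ⟨3,[(2,3),(8,0),(0,2)]⟩ ⟨2,[(1,1),(4,0)]⟩),.k,.k,[⟨0,[(14,0),(8,0)]⟩,⟨1,[(10,
  0),(2,0)]⟩,⟨1,[(5,0),(0,0),(7,1),(9,1)]⟩,⟨0,[(0,0)]⟩]⟩) (.R ⟨2,true,false,true,[0,1],[0,0,1],[1,1,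
  1,1],(⟨0,[]⟩,⟨0,[]⟩),(⟨0,[(14,0)]⟩,⟨1,[(13,0),(2,0),(0,0)]⟩),⟨0,[]⟩,.k,.k,.k,(.r 0 ⟨0,[(6,0)]⟩ ⟨7,
  [(1,3),(9,0),(0,6)]⟩),.k,.k,⟨false,0,⟨1,[(0,1),(9,0),(2,0),(4,1)]⟩,⟨7,[(1,3),(9,0),(0,6)]⟩⟩,⟨true,
  0,⟨1,[(10,0),(2,0)]⟩,⟨0,[(14,0)]⟩⟩,⟨false,0,⟨0,[]⟩,⟨3,[(11,0),(0,0),(9,1)]⟩⟩,⟨true,0,⟨0,[(7,0),(1,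
  0)]⟩,⟨0,[(0,0),(18,0)]⟩⟩,⟨true,0,⟨0,[(19,0)]⟩,⟨0,[(20,0)]⟩⟩,⟨false,1,⟨7,[(11,0),(0,4),(0,3),(1,
  1)]⟩,⟨0,[(0,0)]⟩⟩,[]⟩)) (.I [0,0,1,0,0,-1] (.Q [0,1,0,0,0,0,1,0,-1] (.p false [0,0,1] [] (⟨0,[(14,
  0)]⟩,⟨1,[(13,0),(2,0),(0,0)]⟩) .k 0 (⟨0,[]⟩,⟨0,[]⟩) .k .k) (.K ⟨0,[0,0,1],0,0,(⟨0,[(15,0)]⟩,⟨1,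
  [(14,0),(2,0),(0,0)]⟩),.k,(.r (-1) ⟨0,[(6,0),(6,0)]⟩ ⟨0,[(7,0)]⟩),(.x (-1) ⟨3,[(12,0),(0,0),(4,3),
  (3,1)]⟩ ⟨0,[(1,0)]⟩),.k,.k,[⟨0,[(15,0),(8,0)]⟩,⟨1,[(11,0),(2,0)]⟩,⟨1,[(6,0),(0,0),(7,1),(9,1)]⟩,
  ⟨0,[(0,0)]⟩]⟩) (.R ⟨2,true,false,true,[0,1],[0,0,1],[1,1,1,1],(⟨0,[]⟩,⟨0,[]⟩),(⟨0,[(15,0)]⟩,⟨1,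
  [(14,0),(2,0),(0,0)]⟩),⟨0,[]⟩,.k,.k,.k,(.r 0 ⟨0,[(7,0)]⟩ ⟨0,[(6,0),(6,0)]⟩),.k,.k,⟨false,0,⟨1,[(0,
  1),(10,0),(2,0),(4,1)]⟩,⟨0,[(6,0),(6,0)]⟩⟩,⟨true,0,⟨1,[(11,0),(2,0)]⟩,⟨0,[(15,0)]⟩⟩,⟨false,0,⟨0,
  []⟩,⟨3,[(12,0),(0,0),(9,1)]⟩⟩,⟨true,0,⟨0,[(8,0),(1,0)]⟩,⟨0,[(0,0),(19,0)]⟩⟩,⟨true,0,⟨0,[(20,0)]⟩,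
  ⟨0,[(21,0)]⟩⟩,⟨false,1,⟨7,[(12,0),(0,4),(0,3),(1,1)]⟩,⟨0,[(0,0)]⟩⟩,[]⟩)) (.Q [0,0,0,1,0,0,-1,0,1]
  (.p true [0,0,1] [] (⟨0,[(14,0)]⟩,⟨1,[(13,0),(2,0),(0,0)]⟩) .k 0 (⟨0,[]⟩,⟨0,[]⟩) .k .k) (.I [0,0,
  -1,-1,1,0,2] (.K ⟨0,[0,1,-1],0,0,(⟨1,[(2,1),(9,0),(2,0)]⟩,⟨0,[(16,0),(1,0)]⟩),(.r 0 ⟨0,[(8,0)]⟩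
  ⟨4,[(0,3),(6,0),(5,0)]⟩),.k,(.r 0 ⟨2,[(3,0),(4,3)]⟩ ⟨0,[(0,0),(6,0)]⟩),.k,.k,[⟨1,[(12,0),(2,0),(9,
  1)]⟩,⟨0,[(16,0)]⟩,⟨0,[(9,0),(1,0)]⟩,⟨0,[(1,0),(24,0)]⟩]⟩) (.Q [0,0,0,0,0,0,-1,-1,2] (.p true [0,0,
  1] [1,0,-1] (⟨0,[(16,0)]⟩,⟨1,[(15,0),(2,0),(0,0)]⟩) .k 2 (⟨1,[(15,0),(2,0),(0,0)]⟩,⟨0,[(16,0)]⟩)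
  .k .k) (.R ⟨0,false,false,true,[0,0,1],[1,0,-1],[],(⟨0,[(17,0)]⟩,⟨1,[(16,0),(2,0),(0,0)]⟩),(⟨1,
  [(16,0),(2,0),(0,0)]⟩,⟨0,[(17,0)]⟩),⟨1,[(3,1),(9,0),(2,0)]⟩,.k,.k,(.r (-1) ⟨0,[(8,0),(6,0)]⟩ ⟨0,
  [(9,0)]⟩),.k,.k,.k,⟨true,1,⟨1,[(15,0),(9,0)]⟩,⟨0,[(1,0),(8,0),(1,0),(4,0)]⟩⟩,⟨false,1,⟨1,[(0,1),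
  (14,0),(8,0)]⟩,⟨0,[(16,0)]⟩⟩,⟨true,0,⟨4,[(1,0),(6,0),(5,0)]⟩,⟨1,[(7,0),(2,0),(1,0),(4,0)]⟩⟩,
  ⟨false,0,⟨4,[(0,4),(0,0),(6,0),(5,0)]⟩,⟨1,[(10,3),(7,0),(6,0)]⟩⟩,⟨false,0,⟨0,[]⟩,⟨0,[]⟩⟩,⟨false,0,
  ⟨0,[]⟩,⟨0,[]⟩⟩,[.o ⟨false,0,⟨7,[(0,3),(0,0),(10,3),(1,0),(6,0),(0,1),(4,0)]⟩,⟨1,[(10,1),(7,0),(6,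
  0)]⟩⟩,.a ⟨true,0,⟨4,[(1,0),(6,0),(5,0),(2,4)]⟩,⟨0,[(10,0)]⟩⟩ ⟨false,1,⟨1,[(24,0),(0,0)]⟩,⟨0,[(27,
  0)]⟩⟩ ⟨true,0,⟨0,[(0,0)]⟩,⟨1,[(10,1),(2,0),(2,0)]⟩⟩,.e ⟨false,1,⟨3,[(14,0),(0,0),(9,1)]⟩,⟨0,[]⟩⟩
  ⟨false,0,⟨0,[(0,0)]⟩,⟨1,[(15,0),(0,1),(8,0)]⟩⟩,.o ⟨false,0,⟨1,[(13,0),(2,0)]⟩,⟨3,[(0,1),(14,0),(2,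
  0),(5,1)]⟩⟩]⟩) (.R ⟨0,false,false,false,[0,0,1],[1,0,-1],[0,1],(⟨0,[(17,0)]⟩,⟨1,[(16,0),(2,0),(0,
  0)]⟩),(⟨1,[(16,0),(2,0),(0,0)]⟩,⟨0,[(17,0)]⟩),⟨1,[(3,1),(9,0),(2,0)]⟩,.k,.k,(.r (-1) ⟨0,[(8,0),(6,
  0)]⟩ ⟨0,[(9,0)]⟩),.k,.k,.k,⟨true,0,⟨1,[(7,0),(2,0),(1,0),(4,0)]⟩,⟨1,[(1,0),(21,0),(1,0),(0,0)]⟩⟩,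
  ⟨false,1,⟨1,[(17,3),(0,0),(5,0)]⟩,⟨0,[(16,0)]⟩⟩,⟨false,0,⟨4,[(1,0),(6,0),(5,0)]⟩,⟨1,[(15,0),(9,
  0)]⟩⟩,⟨true,0,⟨4,[(1,1),(0,1),(5,3),(4,0),(3,7),(0,1)]⟩,⟨1,[(0,0),(6,0),(2,1),(1,0)]⟩⟩,⟨false,0,
  ⟨0,[]⟩,⟨0,[]⟩⟩,⟨false,0,⟨0,[]⟩,⟨0,[]⟩⟩,[.e ⟨false,0,⟨1,[(3,0),(8,0),(6,0),(1,0)]⟩,⟨3,[(14,0),(0,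
  0),(9,1)]⟩⟩ ⟨false,1,⟨2,[(2,0),(5,0),(2,0),(0,0),(4,3),(0,0),(5,0)]⟩,⟨0,[(0,0)]⟩⟩,.o ⟨false,1,⟨21,
  [(1,1),(6,9),(2,7),(1,3),(3,13),(0,8),(6,6)]⟩,⟨1,[(0,0),(6,0),(4,0)]⟩⟩,.a ⟨true,0,⟨1,[(16,0),(2,
  0),(0,0)]⟩,⟨0,[(17,0)]⟩⟩ ⟨true,0,⟨0,[(27,0)]⟩,⟨0,[]⟩⟩ ⟨false,1,⟨21,[(1,1),(6,9),(2,7),(1,3),(3,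
  35),(0,8),(6,6)]⟩,⟨0,[(0,0)]⟩⟩,.o ⟨false,0,⟨1,[(13,0),(2,0)]⟩,⟨1,[(17,1),(0,0),(5,0)]⟩⟩]⟩))) (.R
  ⟨2,true,false,true,[0,1],[0,0,1],[0,0,1],(⟨0,[]⟩,⟨0,[]⟩),(⟨0,[(15,0)]⟩,⟨1,[(14,0),(2,0),(0,0)]⟩),
  ⟨0,[]⟩,.k,.k,.k,(.r 0 ⟨0,[(7,0)]⟩ ⟨0,[(6,0),(6,0)]⟩),.k,.k,⟨false,1,⟨1,[(12,0),(10,0)]⟩,⟨0,[(0,0),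
  (14,0),(3,0)]⟩⟩,⟨true,0,⟨1,[(11,0),(2,0)]⟩,⟨0,[(15,0)]⟩⟩,⟨true,0,⟨0,[(21,0)]⟩,⟨0,[(20,0)]⟩⟩,
  ⟨false,0,⟨0,[(0,0)]⟩,⟨0,[(9,0)]⟩⟩,⟨false,1,⟨3,[(12,0),(0,0),(9,1)]⟩,⟨0,[]⟩⟩,⟨true,0,⟨2,[(0,0),(4,
  1),(4,0),(3,0)]⟩,⟨1,[(6,0),(0,0),(7,1)]⟩⟩,[]⟩)))) (.K ⟨0,[0,0,1],0,0,(⟨0,[(12,0)]⟩,⟨1,[(11,0),(2,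
  0),(0,0)]⟩),.k,(.r (-1) ⟨3,[(0,3),(8,0),(0,2)]⟩ ⟨0,[(4,0)]⟩),(.r (-1) ⟨0,[(4,0),(5,0)]⟩ ⟨0,[(0,1),
  (3,0)]⟩),.k,.k,[⟨0,[(12,0),(8,0)]⟩,⟨1,[(8,0),(2,0)]⟩,⟨1,[(3,0),(0,0),(7,1),(9,1)]⟩,⟨1,[(0,1),(1,
  1),(5,0),(2,0)]⟩]⟩))))

def t2 : Tre :=
  (.I [0,0,1,1,0,0,1] (.I [0,0,-1,-1,0,0,1] (.K ⟨0,[0,0,1],0,0,(⟨0,[(13,0)]⟩,⟨1,[(12,0),(2,0),(0,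
  0)]⟩),.k,(.r 0 ⟨0,[(0,0)]⟩ ⟨7,[(3,1),(0,1),(4,1),(0,4),(0,0),(10,1)]⟩),(.r 0 ⟨0,[(1,0)]⟩ ⟨1,[(10,
  0),(8,1),(0,0)]⟩),.k,.k,[⟨0,[(13,0),(8,0)]⟩,⟨1,[(9,0),(2,0)]⟩,⟨0,[(2,0)]⟩,⟨5,[(1,2),(3,0),(0,1),
  (1,3),(3,1),(4,1)]⟩]⟩) (.I [0,0,1,0,0,-1] (.K ⟨0,[0,0,1],0,0,(⟨0,[(14,0)]⟩,⟨1,[(13,0),(2,0),(0,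
  0)]⟩),.k,(.x 0 ⟨0,[(0,0)]⟩ ⟨3,[(11,0),(0,0),(4,3),(3,1)]⟩),(.r 0 ⟨0,[(2,0)]⟩ ⟨1,[(11,0),(8,1),(0,
  0)]⟩),.k,.k,[⟨0,[(14,0),(8,0)]⟩,⟨1,[(10,0),(2,0)]⟩,⟨0,[(3,0)]⟩,⟨5,[(2,2),(3,0),(0,1),(1,3),(3,1),
  (4,1)]⟩]⟩) (.I [0,0,-1,0,0,1] (.K ⟨0,[0,0,1],0,0,(⟨0,[(15,0)]⟩,⟨1,[(14,0),(2,0),(0,0)]⟩),.k,(.x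
  (-1) ⟨7,[(11,3),(0,2),(0,2),(2,1),(0,7)]⟩ ⟨0,[(0,0)]⟩),(.r 0 ⟨0,[(3,0)]⟩ ⟨1,[(12,0),(8,1),(0,
  0)]⟩),.k,.k,[⟨0,[(15,0),(8,0)]⟩,⟨1,[(11,0),(2,0)]⟩,⟨0,[(4,0)]⟩,⟨5,[(3,2),(3,0),(0,1),(1,3),(3,1),
  (4,1)]⟩]⟩) (.I [0,1,-2,-1] (.Q [0,0,-1,0,0,0,0,1,-1] (.p false [0,0,1] [1] (⟨0,[(16,0)]⟩,⟨1,[(15,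
  0),(2,0),(0,0)]⟩) .k 1 (⟨0,[]⟩,⟨0,[]⟩) .k .k) (.Q [0,0,0,0,0,0,1,0,-1] (.p false [0,0,1] [] (⟨0,
  [(17,0)]⟩,⟨1,[(16,0),(2,0),(0,0)]⟩) .k 0 (⟨0,[]⟩,⟨0,[]⟩) .k .k) (.Q [0,1,0,-1,0,0,-1,-1,1] (.p
  true [0,0,1] [1] (⟨0,[(18,0)]⟩,⟨1,[(17,0),(2,0),(0,0)]⟩) .k 1 (⟨0,[]⟩,⟨0,[]⟩) .k .k) (.R ⟨0,false,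
  false,false,[1,-1],[0,0,1],[1,1,1],(⟨0,[(21,0)]⟩,⟨0,[(22,0)]⟩),(⟨0,[(19,0)]⟩,⟨1,[(18,0),(2,0),(0,
  0)]⟩),⟨0,[(5,1),(9,0)]⟩,.k,.k,(.r (-1) ⟨3,[(3,3),(12,0),(0,0),(7,3),(1,1)]⟩ ⟨0,[(6,0),(0,0)]⟩),
  (.r (-1) ⟨7,[(3,3),(12,4),(0,0),(7,3),(1,1)]⟩ ⟨0,[(7,0)]⟩),.k,.k,⟨false,0,⟨4,[(0,1),(5,0),(1,1),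
  (9,1),(4,0)]⟩,⟨3,[(11,1),(5,0),(5,1),(3,2)]⟩⟩,⟨true,0,⟨0,[(2,0)]⟩,⟨0,[(15,0),(3,0)]⟩⟩,⟨false,0,⟨1,
  [(6,0),(0,0),(20,1)]⟩,⟨0,[(3,0),(23,0)]⟩⟩,⟨true,0,⟨0,[(2,0),(4,0)]⟩,⟨0,[(0,0)]⟩⟩,⟨false,0,⟨0,[]⟩,
  ⟨0,[]⟩⟩,⟨false,0,⟨0,[]⟩,⟨0,[]⟩⟩,[.o ⟨false,0,⟨0,[(1,0)]⟩,⟨7,[(0,3),(12,3),(2,0),(0,0),(2,1)]⟩⟩,.e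
  ⟨false,0,⟨0,[]⟩,⟨3,[(16,0),(0,0),(8,1)]⟩⟩ ⟨false,1,⟨2,[(1,0),(0,1),(7,0),(0,1),(14,0),(0,0)]⟩,⟨3,
  [(0,2),(5,0),(2,0),(5,0),(3,0)]⟩⟩,.a ⟨true,0,⟨0,[(28,0)]⟩,⟨0,[(2,0),(16,0)]⟩⟩ ⟨false,0,⟨0,[(28,
  0)]⟩,⟨1,[(26,0),(0,0)]⟩⟩ ⟨true,0,⟨1,[(2,1),(4,0),(3,0)]⟩,⟨3,[(0,2),(5,0),(2,0),(5,0),(3,0)]⟩⟩,.o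
  ⟨false,0,⟨0,[(15,0)]⟩,⟨0,[(26,0)]⟩⟩]⟩) (.R ⟨0,false,false,false,[1,-1],[0,1],[0,0,2,1],(⟨0,[(21,
  0)]⟩,⟨0,[(22,0)]⟩),(⟨0,[(22,0)]⟩,⟨0,[(21,0)]⟩),⟨0,[(5,1),(9,0)]⟩,.k,.k,(.r (-1) ⟨3,[(3,3),(12,0),
  (0,0),(7,3),(1,1)]⟩ ⟨0,[(6,0),(0,0)]⟩),(.r (-1) ⟨3,[(3,3),(12,0),(0,0),(7,3),(1,1)]⟩ ⟨0,[(6,0),(0,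
  0)]⟩),.k,.k,⟨true,0,⟨0,[(28,0)]⟩,⟨0,[]⟩⟩,⟨false,1,⟨0,[(2,0),(16,0),(6,0)]⟩,⟨0,[(15,0)]⟩⟩,⟨false,0,
  ⟨0,[(0,0),(5,0),(8,0),(3,0)]⟩,⟨7,[(3,11),(12,0),(0,0),(7,3),(1,5)]⟩⟩,⟨true,0,⟨1,[(0,1),(5,0),(1,
  0),(10,0),(3,0)]⟩,⟨0,[(14,0),(10,0)]⟩⟩,⟨false,0,⟨0,[]⟩,⟨0,[]⟩⟩,⟨false,0,⟨0,[]⟩,⟨0,[]⟩⟩,[.a ⟨true,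
  0,⟨0,[(0,0),(7,0)]⟩,⟨0,[(25,0)]⟩⟩ ⟨false,0,⟨1,[(6,0),(0,0)]⟩,⟨3,[(3,3),(12,0),(0,0),(9,1)]⟩⟩
  ⟨true,0,⟨0,[(0,0),(2,0),(2,0),(12,0)]⟩,⟨0,[(15,0),(9,0)]⟩⟩,.o ⟨false,1,⟨3,[(10,1),(9,0),(6,0)]⟩,
  ⟨0,[(14,0)]⟩⟩,.e ⟨true,0,⟨1,[(6,0),(0,0),(20,1)]⟩,⟨0,[(3,0)]⟩⟩ ⟨true,0,⟨0,[(0,0),(2,0),(2,0),(12,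
  0)]⟩,⟨1,[(14,0),(0,0),(9,0),(3,0)]⟩⟩,.o ⟨false,0,⟨0,[(15,0)]⟩,⟨0,[(26,0)]⟩⟩]⟩)) (.R ⟨0,false,
  false,true,[1,-1],[0,0,1],[],(⟨0,[(20,0)]⟩,⟨0,[(21,0)]⟩),(⟨0,[(18,0)]⟩,⟨1,[(0,0),(10,0),(5,0)]⟩),
  ⟨0,[(4,1),(9,0)]⟩,.k,.k,(.r (-1) ⟨3,[(2,3),(12,0),(0,0),(7,3),(1,1)]⟩ ⟨0,[(5,0),(0,0)]⟩),(.r (-1)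
  ⟨7,[(2,3),(12,4),(0,0),(7,3),(1,1)]⟩ ⟨0,[(6,0)]⟩),.k,.k,⟨false,1,⟨1,[(0,1),(0,1),(17,0),(6,0)]⟩,
  ⟨1,[(6,0),(3,0),(17,1)]⟩⟩,⟨true,0,⟨0,[(1,0)]⟩,⟨0,[(14,0),(3,0)]⟩⟩,⟨true,0,⟨1,[(5,0),(0,0)]⟩,⟨1,
  [(2,0),(21,0),(3,0)]⟩⟩,⟨false,0,⟨0,[(1,0),(4,0)]⟩,⟨0,[(0,0),(12,0),(12,0)]⟩⟩,⟨false,0,⟨0,[]⟩,⟨0,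
  []⟩⟩,⟨false,0,⟨0,[]⟩,⟨0,[]⟩⟩,[.o ⟨false,0,⟨5,[(6,2),(3,0),(0,1),(1,3),(3,1),(4,1)]⟩,⟨1,[(0,1),(18,
  0),(6,0)]⟩⟩,.a ⟨true,0,⟨0,[(11,0)]⟩,⟨0,[(0,0)]⟩⟩ ⟨false,1,⟨1,[(25,0),(0,0)]⟩,⟨0,[(28,0)]⟩⟩ ⟨true,
  0,⟨1,[(1,1),(4,0),(3,0)]⟩,⟨0,[(0,0),(13,0)]⟩⟩,.e ⟨false,1,⟨3,[(15,0),(0,0),(9,1)]⟩,⟨0,[]⟩⟩ ⟨false,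
  0,⟨1,[(1,1),(4,0),(3,0)]⟩,⟨1,[(0,0),(11,0),(0,0),(0,0),(11,0)]⟩⟩,.o ⟨false,0,⟨0,[(14,0)]⟩,⟨0,[(25,
  0)]⟩⟩]⟩)) (.Q [0,0,0,0,0,0,1,0,-1] (.p false [0,0,1] [] (⟨0,[(17,0)]⟩,⟨1,[(16,0),(2,0),(0,0)]⟩)
  .k 0 (⟨0,[]⟩,⟨0,[]⟩) .k .k) (.R ⟨2,false,false,false,[0,1],[1,0,-1],[0,0,1],(⟨0,[]⟩,⟨0,[]⟩),(⟨1,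
  [(17,0),(2,0),(0,0)]⟩,⟨0,[(18,0)]⟩),⟨0,[]⟩,.k,.k,.k,(.r 0 ⟨0,[(6,0)]⟩ ⟨7,[(2,3),(12,4),(0,0),(7,
  3),(1,1)]⟩),.k,.k,⟨false,0,⟨1,[(6,0),(3,0)]⟩,⟨1,[(15,0),(9,0)]⟩⟩,⟨true,0,⟨0,[(1,0)]⟩,⟨1,[(17,0),
  (2,0),(0,0)]⟩⟩,⟨true,0,⟨0,[(24,0)]⟩,⟨0,[(23,0)]⟩⟩,⟨false,1,⟨0,[(1,0),(0,0),(2,0),(18,0),(1,0)]⟩,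
  ⟨1,[(0,1),(3,1),(0,0),(0,0),(13,1)]⟩⟩,⟨false,1,⟨3,[(15,0),(0,0),(9,1)]⟩,⟨0,[]⟩⟩,⟨false,1,⟨0,[(1,
  0),(0,0),(2,0),(20,0)]⟩,⟨0,[(11,0)]⟩⟩,[.o ⟨false,1,⟨0,[(12,0),(0,0)]⟩,⟨0,[(0,0)]⟩⟩,.o ⟨false,1,⟨0,
  [(1,0),(0,0),(2,0),(20,0)]⟩,⟨1,[(0,0),(10,0),(1,0),(9,0)]⟩⟩,.a ⟨true,0,⟨0,[(4,0),(15,0)]⟩,⟨0,[(27,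
  0)]⟩⟩ ⟨true,0,⟨0,[(27,0)]⟩,⟨1,[(2,0),(20,0)]⟩⟩ ⟨false,1,⟨1,[(1,1),(13,0),(10,0)]⟩,⟨0,[(0,0),(3,0),
  (15,0)]⟩⟩,.e ⟨false,1,⟨3,[(15,0),(0,0),(9,1)]⟩,⟨0,[]⟩⟩ ⟨false,1,⟨0,[(1,0),(0,0),(2,0),(20,0)]⟩,⟨0,
  [(11,0)]⟩⟩]⟩) (.R ⟨0,false,false,false,[1,0,-1],[0,0,1],[0,1],(⟨1,[(0,0),(10,0),(5,0)]⟩,⟨0,[(18,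
  0)]⟩),(⟨0,[(18,0)]⟩,⟨1,[(0,0),(10,0),(5,0)]⟩),⟨0,[(1,0),(2,0)]⟩,.k,.k,(.r (-1) ⟨7,[(2,3),(12,4),
  (0,0),(7,3),(1,1)]⟩ ⟨0,[(6,0)]⟩),.k,.k,.k,⟨false,0,⟨0,[(2,0),(2,0)]⟩,⟨1,[(16,0),(9,0)]⟩⟩,⟨true,0,
  ⟨0,[(17,0)]⟩,⟨0,[(1,0),(16,0)]⟩⟩,⟨false,0,⟨1,[(6,0),(3,0)]⟩,⟨1,[(15,0),(10,0)]⟩⟩,⟨true,0,⟨0,[(6,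
  0),(3,0),(6,0)]⟩,⟨0,[(0,0),(0,0),(0,0),(2,0)]⟩⟩,⟨false,0,⟨0,[]⟩,⟨0,[]⟩⟩,⟨false,0,⟨0,[]⟩,⟨0,[]⟩⟩,
  [.a ⟨true,0,⟨0,[(11,0)]⟩,⟨0,[(0,0)]⟩⟩ ⟨false,0,⟨1,[(2,0),(20,0)]⟩,⟨3,[(15,0),(0,0),(9,1)]⟩⟩ ⟨true,
  0,⟨1,[(6,0),(3,0),(6,1)]⟩,⟨0,[(0,0),(0,0)]⟩⟩,.o ⟨false,1,⟨1,[(11,1),(7,0),(6,0)]⟩,⟨0,[(1,0),(0,0),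
  (2,0)]⟩⟩,.e ⟨true,0,⟨0,[(28,0)]⟩,⟨0,[]⟩⟩ ⟨true,0,⟨1,[(6,0),(3,0),(6,1)]⟩,⟨2,[(0,1),(0,2),(0,0),(4,
  0),(14,0)]⟩⟩,.o ⟨false,0,⟨0,[(1,0)]⟩,⟨7,[(15,0),(0,0),(0,3),(1,1),(5,3)]⟩⟩]⟩))) (.Q [0,0,-1,1,0,0,
  0,1] (.pp false [-1,1]) (.R ⟨0,false,false,false,[1,-1],[0,1],[0,1],(⟨0,[(19,0)]⟩,⟨0,[(20,0)]⟩),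
  (⟨0,[(20,0)]⟩,⟨0,[(19,0)]⟩),⟨0,[(3,1),(9,0)]⟩,.k,.k,(.r (-1) ⟨0,[(23,1),(0,0)]⟩ ⟨0,[(1,1),(19,1),
  (1,1)]⟩),(.r (-1) ⟨0,[(23,1),(0,0)]⟩ ⟨0,[(1,1),(19,1),(1,1)]⟩),.k,.k,⟨true,0,⟨0,[(0,0),(11,0),(10,
  0)]⟩,⟨0,[(1,0)]⟩⟩,⟨false,1,⟨0,[(0,0),(22,0),(0,0)]⟩,⟨0,[(13,0)]⟩⟩,⟨false,0,⟨0,[(1,0),(19,0),(1,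
  0)]⟩,⟨1,[(23,1),(0,0),(0,0)]⟩⟩,⟨true,0,⟨2,[(0,2),(0,0),(5,0)]⟩,⟨0,[(12,0),(10,0)]⟩⟩,⟨false,0,⟨0,
  []⟩,⟨0,[]⟩⟩,⟨false,0,⟨0,[]⟩,⟨0,[]⟩⟩,[.a ⟨true,0,⟨2,[(0,1),(0,0),(4,0),(3,0)]⟩,⟨0,[(23,0)]⟩⟩
  ⟨false,0,⟨0,[(0,0),(11,0)]⟩,⟨3,[(14,0),(0,0),(9,1)]⟩⟩ ⟨true,0,⟨0,[(0,0)]⟩,⟨0,[(13,0),(9,0)]⟩⟩,.o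
  ⟨false,1,⟨3,[(8,1),(9,0),(6,0)]⟩,⟨0,[(12,0)]⟩⟩,.e ⟨true,0,⟨0,[(27,0)]⟩,⟨0,[]⟩⟩ ⟨true,0,⟨0,[(0,
  0)]⟩,⟨1,[(12,0),(0,0),(9,0),(3,0)]⟩⟩,.o ⟨false,0,⟨0,[(13,0)]⟩,⟨0,[(24,0)]⟩⟩]⟩) (.R ⟨0,false,false,
  false,[1,-1],[0,1],[0,1],(⟨0,[(19,0)]⟩,⟨0,[(20,0)]⟩),(⟨0,[(20,0)]⟩,⟨0,[(19,0)]⟩),⟨0,[(3,1),(9,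
  0)]⟩,.k,.k,(.r (-1) ⟨0,[(23,1),(0,0)]⟩ ⟨0,[(1,1),(19,1),(1,1)]⟩),(.r (-1) ⟨0,[(23,1),(0,0)]⟩ ⟨0,
  [(1,1),(19,1),(1,1)]⟩),.k,.k,⟨true,0,⟨0,[(3,0),(8,0),(6,0)]⟩,⟨0,[(1,0)]⟩⟩,⟨false,1,⟨0,[(3,0),(15,
  0),(4,0)]⟩,⟨0,[(13,0)]⟩⟩,⟨false,0,⟨0,[(1,0),(19,0),(1,0)]⟩,⟨1,[(23,1),(0,0),(0,0)]⟩⟩,⟨true,0,⟨0,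
  [(1,0),(1,0),(15,0),(1,0)]⟩,⟨0,[(12,0),(10,0)]⟩⟩,⟨false,0,⟨0,[]⟩,⟨0,[]⟩⟩,⟨false,0,⟨0,[]⟩,⟨0,[]⟩⟩,
  [.e ⟨false,0,⟨1,[(3,0),(8,0),(6,0),(1,0)]⟩,⟨3,[(14,0),(0,0),(9,1)]⟩⟩ ⟨false,1,⟨7,[(3,3),(2,0),(1,
  2),(1,0),(8,3),(1,1),(2,4)]⟩,⟨0,[(0,0)]⟩⟩,.o ⟨false,1,⟨3,[(8,1),(9,0),(6,0)]⟩,⟨0,[(12,0)]⟩⟩,.a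
  ⟨true,0,⟨0,[(26,0)]⟩,⟨0,[(3,0),(15,0)]⟩⟩ ⟨true,0,⟨0,[(27,0)]⟩,⟨0,[]⟩⟩ ⟨false,1,⟨3,[(3,1),(4,1),
  (10,1),(4,0),(0,0)]⟩,⟨0,[(0,0)]⟩⟩,.o ⟨false,0,⟨0,[(13,0)]⟩,⟨0,[(24,0)]⟩⟩]⟩)))))) (.I [0,0,1,0,0,
  -1] (.K ⟨0,[0,0,1],0,0,(⟨0,[(13,0)]⟩,⟨1,[(12,0),(2,0),(0,0)]⟩),.k,(.x 0 ⟨0,[(0,0)]⟩ ⟨3,[(10,0),(0,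
  0),(4,3),(3,1)]⟩),(.x (-1) ⟨3,[(10,0),(0,0),(4,3),(3,1)]⟩ ⟨0,[(0,0)]⟩),.k,.k,[⟨0,[(13,0),(8,0)]⟩,
  ⟨1,[(9,0),(2,0)]⟩,⟨0,[(2,0)]⟩,⟨5,[(5,1),(0,3),(1,1),(0,2),(2,0),(4,3)]⟩]⟩) (.I [0,0,-1,0,0,1] (.K
  ⟨0,[0,0,1],0,0,(⟨0,[(14,0)]⟩,⟨1,[(13,0),(2,0),(0,0)]⟩),.k,(.x (-1) ⟨7,[(10,3),(0,2),(0,2),(2,1),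
  (0,7)]⟩ ⟨0,[(0,0)]⟩),(.x 0 ⟨0,[(0,0)]⟩ ⟨7,[(10,3),(0,2),(0,2),(2,1),(0,7)]⟩),.k,.k,[⟨0,[(14,0),(8,
  0)]⟩,⟨1,[(10,0),(2,0)]⟩,⟨0,[(3,0)]⟩,⟨5,[(6,1),(0,3),(1,1),(0,2),(2,0),(4,3)]⟩]⟩) (.Q [0,0,0,-1,0,
  0,0,-1] (.pp true [-1,1]) (.R ⟨2,false,false,true,[0,1],[1,-1],[0,0,1],(⟨0,[]⟩,⟨0,[]⟩),(⟨0,[(17,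
  0)]⟩,⟨0,[(18,0)]⟩),⟨0,[]⟩,.k,.k,.k,(.r (-1) ⟨3,[(5,1),(0,1),(4,1),(0,0),(0,0),(10,1)]⟩ ⟨0,[(0,1),
  (1,1),(14,1)]⟩),.k,.k,⟨false,1,⟨7,[(6,3),(4,3),(0,0),(0,0),(9,1)]⟩,⟨3,[(3,2),(3,2),(11,1),(5,
  1)]⟩⟩,⟨true,0,⟨0,[(11,0)]⟩,⟨0,[(2,0),(14,0)]⟩⟩,⟨true,0,⟨0,[(21,0)]⟩,⟨0,[(20,0)]⟩⟩,⟨false,0,⟨0,[(0,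
  0),(20,0)]⟩,⟨0,[(6,0)]⟩⟩,⟨false,1,⟨3,[(12,0),(0,0),(9,1)]⟩,⟨0,[]⟩⟩,⟨false,0,⟨0,[(0,0)]⟩,⟨3,[(6,1),
  (1,1),(3,0),(2,1),(7,0)]⟩⟩,[.o ⟨false,0,⟨0,[(10,0)]⟩,⟨3,[(6,1),(9,0),(6,0)]⟩⟩,.o ⟨false,0,⟨0,[(0,
  0)]⟩,⟨7,[(5,1),(0,1),(5,1),(0,1),(2,0),(5,0)]⟩⟩,.a ⟨true,0,⟨0,[(2,0),(14,0)]⟩,⟨0,[(24,0)]⟩⟩ ⟨true,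
  0,⟨0,[(24,0)]⟩,⟨3,[(3,0),(3,0),(11,1),(5,1)]⟩⟩ ⟨false,0,⟨1,[(0,0),(10,0),(9,0)]⟩,⟨1,[(3,0),(2,1),
  (0,0)]⟩⟩,.e ⟨false,1,⟨3,[(12,0),(0,0),(9,1)]⟩,⟨0,[]⟩⟩ ⟨false,0,⟨0,[(0,0)]⟩,⟨3,[(6,1),(1,1),(3,0),
  (2,1),(7,0)]⟩⟩]⟩) (.I [1,0,1,1] (.N [0,1] 0 ⟨0,[(0,0)]⟩ ⟨1,[(4,0),(3,0)]⟩ .k) (.R ⟨2,true,false,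
  true,[0,1],[1,-1],[0,0,1],(⟨0,[]⟩,⟨0,[]⟩),(⟨0,[(18,0)]⟩,⟨0,[(19,0)]⟩),⟨0,[]⟩,.k,.k,.k,(.r (-1) ⟨3,
  [(6,1),(0,1),(4,1),(0,0),(0,0),(10,1)]⟩ ⟨0,[(0,1)]⟩),.k,.k,⟨false,1,⟨7,[(7,3),(4,3),(0,0),(0,0),
  (9,1)]⟩,⟨3,[(4,2),(3,2),(11,1),(5,1)]⟩⟩,⟨true,0,⟨0,[(12,0)]⟩,⟨1,[(1,1),(2,0),(3,0)]⟩⟩,⟨true,0,⟨0,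
  [(22,0)]⟩,⟨0,[(21,0)]⟩⟩,⟨false,0,⟨0,[(4,0),(3,0),(3,0)]⟩,⟨0,[(7,0)]⟩⟩,⟨false,1,⟨3,[(13,0),(0,0),
  (9,1)]⟩,⟨0,[]⟩⟩,⟨true,0,⟨0,[(11,0)]⟩,⟨0,[(1,0)]⟩⟩,[]⟩))))))

def t3 : Tre :=
  (.I [1,1,1,2] (.Q [0,-1,0,0,0,0,1,0,-1] (.p false [0,0,1] [] (⟨0,[(10,0)]⟩,⟨1,[(9,0),(2,0),(0,
  0)]⟩) .k 0 (⟨0,[]⟩,⟨0,[]⟩) .k .k) (.Q [0,0,-1,0,0,0,0,1] (.pp false [-1,1]) (.R ⟨2,false,false,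
  false,[0,1],[0,0,1],[0,0,1],(⟨0,[]⟩,⟨0,[]⟩),(⟨0,[(12,0)]⟩,⟨1,[(0,0),(10,0),(9,0)]⟩),⟨0,[]⟩,.k,.k,
  .k,(.r (-1) ⟨7,[(2,1),(0,1),(4,1),(0,4),(0,0),(10,1)]⟩ ⟨0,[(1,0),(10,0),(3,0),(1,1)]⟩),.k,.k,
  ⟨false,1,⟨3,[(9,2),(0,0)]⟩,⟨1,[(1,0),(2,0),(7,0),(3,0)]⟩⟩,⟨true,0,⟨1,[(8,0),(2,0)]⟩,⟨0,[(12,0)]⟩⟩,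
  ⟨true,0,⟨0,[(18,0)]⟩,⟨0,[(17,0)]⟩⟩,⟨false,0,⟨0,[(1,0),(16,0)]⟩,⟨0,[(6,0),(15,0)]⟩⟩,⟨false,1,⟨3,
  [(9,0),(0,0),(9,1)]⟩,⟨0,[]⟩⟩,⟨false,0,⟨0,[(1,0)]⟩,⟨3,[(9,2),(0,0),(1,3)]⟩⟩,[.o ⟨false,0,⟨7,[(1,4),
  (0,0),(2,2),(1,2),(8,0)]⟩,⟨0,[(6,0),(0,0)]⟩⟩,.o ⟨false,0,⟨0,[(1,0)]⟩,⟨0,[(6,0),(0,0),(14,0)]⟩⟩,.a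
  ⟨true,0,⟨0,[(0,0)]⟩,⟨0,[(21,0)]⟩⟩ ⟨true,0,⟨0,[(21,0)]⟩,⟨1,[(0,0),(6,0),(8,0)]⟩⟩ ⟨false,0,⟨0,[(1,
  0),(19,0)]⟩,⟨1,[(9,0),(2,1),(6,0)]⟩⟩,.e ⟨false,1,⟨3,[(9,0),(0,0),(9,1)]⟩,⟨0,[]⟩⟩ ⟨false,0,⟨0,[(1,
  0)]⟩,⟨3,[(9,2),(0,0),(1,3)]⟩⟩]⟩) (.Q [0,-1,0,1,0,0,1,1,-1] (.p false [0,0,1] [1] (⟨0,[(12,0)]⟩,⟨1,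
  [(11,0),(2,0),(0,0)]⟩) .k 1 (⟨0,[]⟩,⟨0,[]⟩) .k .k) (.I [0,1,0,2] (.Q [0,1,0,0,-1,0,1,1,-1] (.p
  false [0,0,1] [1] (⟨0,[(14,0)]⟩,⟨1,[(13,0),(2,0),(0,0)]⟩) .k 1 (⟨0,[]⟩,⟨0,[]⟩) .k .k) (.K ⟨0,[1,0,
  -1],0,1,(⟨1,[(14,0),(2,0),(0,0)]⟩,⟨0,[(15,0)]⟩),.k,(.r (-1) ⟨1,[(12,0),(8,1),(0,0)]⟩ ⟨6,[(0,0),(1,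
  0),(1,2),(0,2),(5,1),(1,0),(1,4)]⟩),(.r (-1) ⟨7,[(5,1),(0,1),(4,1),(0,4),(0,0),(10,1)]⟩ ⟨0,[(4,0),
  (10,0),(3,0),(1,1)]⟩),.k,.k,[⟨1,[(14,0),(2,0),(0,0),(5,1)]⟩,⟨0,[(3,0),(11,0)]⟩,⟨0,[(0,0)]⟩,⟨0,[(9,
  0),(0,0),(14,0)]⟩]⟩) (.Q [0,0,0,1,0,0,0,1] (.pp false [-1,1]) (.Q [0,0,0,2,0,0,0,1] (.pp false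
  [-1,1]) (.Q [0,0,0,0,0,1,0,0,-1] (.ed true [1,-1,1] .k) (.R ⟨0,false,false,true,[0,0,1],[1,-1],[0,
  1,0,0,0,0,1],(⟨0,[(18,0)]⟩,⟨1,[(17,0),(2,0),(0,0)]⟩),(⟨0,[(20,0)]⟩,⟨0,[(21,0)]⟩),⟨0,[(0,0)]⟩,.k,
  .k,(.r 0 ⟨0,[(7,0),(10,0),(3,0),(1,1)]⟩ ⟨7,[(8,1),(0,1),(4,1),(0,4),(0,0),(10,1)]⟩),(.r 0 ⟨1,[(5,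
  0),(2,0),(1,0),(3,0),(3,0)]⟩ ⟨1,[(15,0),(8,1),(0,0)]⟩),.k,.k,⟨false,0,⟨2,[(4,0),(2,1),(0,0),(1,0),
  (7,1)]⟩,⟨1,[(15,0),(8,1),(0,0)]⟩⟩,⟨true,0,⟨0,[(6,0),(11,0)]⟩,⟨1,[(17,0),(2,0),(0,0)]⟩⟩,⟨true,0,⟨0,
  [(28,0)]⟩,⟨0,[]⟩⟩,⟨false,1,⟨7,[(3,3),(9,3),(1,2),(0,0),(1,3),(5,3)]⟩,⟨0,[(5,0)]⟩⟩,⟨false,0,⟨0,[]⟩,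
  ⟨0,[]⟩⟩,⟨false,0,⟨0,[]⟩,⟨0,[]⟩⟩,[.o ⟨false,0,⟨0,[(13,0)]⟩,⟨3,[(9,1),(9,0),(6,0)]⟩⟩,.e ⟨false,0,⟨1,
  [(7,0),(2,0),(7,0),(3,0)]⟩,⟨3,[(15,2),(0,0)]⟩⟩ ⟨false,1,⟨7,[(3,3),(6,1),(2,3),(2,0),(1,3),(5,1),
  (0,2)]⟩,⟨1,[(1,0),(15,0)]⟩⟩,.a ⟨true,0,⟨1,[(17,0),(2,0),(0,0)]⟩,⟨0,[(18,0)]⟩⟩ ⟨false,0,⟨3,[(5,0),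
  (2,0),(1,2),(3,0),(3,0)]⟩,⟨1,[(15,0),(10,0)]⟩⟩ ⟨true,0,⟨0,[(13,0),(4,0)]⟩,⟨1,[(1,0),(15,0)]⟩⟩,.o
  ⟨false,0,⟨1,[(14,0),(2,0)]⟩,⟨1,[(18,1),(0,0),(5,0)]⟩⟩]⟩) (.R ⟨1,false,false,true,[0,0,1],[1,-1],
  [1,1,0,0,0,0,1],(⟨0,[(18,0)]⟩,⟨1,[(17,0),(2,0),(0,0)]⟩),(⟨0,[(20,0)]⟩,⟨0,[(21,0)]⟩),⟨0,[(0,0)]⟩,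
  .k,.k,(.r 0 ⟨0,[(0,0),(6,0),(13,0),(0,0),(1,1)]⟩ ⟨7,[(8,1),(0,1),(4,1),(0,4),(0,0),(10,1)]⟩),(.r
  0 ⟨1,[(5,0),(2,0),(1,0),(3,0),(3,0)]⟩ ⟨1,[(15,0),(8,1),(0,0)]⟩),.k,.k,⟨false,0,⟨2,[(4,0),(2,1),(0,
  0),(1,0),(7,1)]⟩,⟨1,[(15,0),(8,1),(0,0)]⟩⟩,⟨true,0,⟨0,[(6,0),(11,0)]⟩,⟨1,[(17,0),(2,0),(0,0)]⟩⟩,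
  ⟨false,0,⟨0,[]⟩,⟨3,[(15,0),(0,0),(9,1)]⟩⟩,⟨false,1,⟨7,[(3,3),(9,3),(1,2),(0,0),(1,3),(5,3)]⟩,⟨0,
  [(5,0)]⟩⟩,⟨true,0,⟨0,[(23,0)]⟩,⟨0,[(24,0)]⟩⟩,⟨false,1,⟨0,[(3,0),(24,0)]⟩,⟨0,[(5,0),(18,0)]⟩⟩,[.o
  ⟨false,0,⟨0,[(13,0)]⟩,⟨3,[(9,1),(9,0),(6,0)]⟩⟩,.e ⟨false,0,⟨1,[(7,0),(2,0),(7,0),(3,0)]⟩,⟨3,[(15,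
  2),(0,0)]⟩⟩ ⟨false,1,⟨7,[(3,3),(6,1),(2,3),(2,0),(1,3),(5,1),(0,2)]⟩,⟨1,[(1,0),(15,0)]⟩⟩,.a ⟨true,
  0,⟨1,[(17,0),(2,0),(0,0)]⟩,⟨0,[(18,0)]⟩⟩ ⟨false,0,⟨3,[(5,0),(2,0),(1,2),(3,0),(3,0)]⟩,⟨1,[(15,0),
  (10,0)]⟩⟩ ⟨true,0,⟨0,[(13,0),(4,0)]⟩,⟨1,[(1,0),(15,0)]⟩⟩,.o ⟨false,0,⟨1,[(14,0),(2,0)]⟩,⟨1,[(18,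
  1),(0,0),(5,0)]⟩⟩]⟩)) (.R ⟨2,false,false,true,[0,1],[1,-1],[0,1],(⟨0,[]⟩,⟨0,[]⟩),(⟨0,[(19,0)]⟩,⟨0,
  [(20,0)]⟩),⟨0,[]⟩,.k,.k,.k,(.r 0 ⟨0,[(1,1),(3,1)]⟩ ⟨0,[(23,1),(0,0)]⟩),.k,.k,⟨true,0,⟨0,[(1,0),(3,
  0)]⟩,⟨0,[(23,0)]⟩⟩,⟨false,0,⟨0,[(5,0)]⟩,⟨0,[(19,0),(0,0),(3,0)]⟩⟩,⟨true,0,⟨0,[(21,0),(1,1)]⟩,⟨0,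
  [(1,0),(3,0)]⟩⟩,⟨false,0,⟨0,[(0,0)]⟩,⟨0,[(8,0)]⟩⟩,⟨true,0,⟨0,[(21,0),(1,0)]⟩,⟨0,[(26,0)]⟩⟩,⟨true,
  0,⟨0,[(12,0)]⟩,⟨0,[(1,0)]⟩⟩,[.o ⟨false,0,⟨0,[(12,0)]⟩,⟨3,[(8,1),(9,0),(6,0)]⟩⟩,.a ⟨true,0,⟨0,[(23,
  0)]⟩,⟨0,[(1,0)]⟩⟩ ⟨false,1,⟨3,[(14,0),(0,0),(8,1)]⟩,⟨0,[]⟩⟩ ⟨true,0,⟨1,[(0,0),(12,0)]⟩,⟨0,[(1,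
  0)]⟩⟩,.o ⟨false,1,⟨3,[(14,0),(0,0),(8,1)]⟩,⟨0,[(5,0)]⟩⟩,.e ⟨true,0,⟨0,[(21,0),(1,0)]⟩,⟨0,[(26,
  0)]⟩⟩ ⟨true,0,⟨0,[(12,0)]⟩,⟨0,[(1,0)]⟩⟩]⟩)) (.Q [0,0,0,0,0,1,0,0,-1] (.ed true [1,-1,1] .k) (.R
  ⟨0,false,false,false,[0,0,1],[1,-1],[1,0,0,0,0,0,1],(⟨0,[(17,0)]⟩,⟨1,[(16,0),(2,0),(0,0)]⟩),(⟨0,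
  [(19,0)]⟩,⟨0,[(20,0)]⟩),⟨0,[(0,0)]⟩,.k,.k,(.r 0 ⟨0,[(1,2),(2,0),(12,0),(1,1),(0,1),(0,0)]⟩ ⟨7,[(7,
  1),(0,1),(4,1),(0,4),(0,0),(10,1)]⟩),(.r 0 ⟨1,[(4,0),(2,0),(1,0),(3,0),(3,0)]⟩ ⟨1,[(14,0),(8,1),
  (0,0)]⟩),.k,.k,⟨false,0,⟨2,[(3,0),(2,1),(0,0),(1,0),(7,1)]⟩,⟨1,[(14,0),(8,1),(0,0)]⟩⟩,⟨true,0,⟨0,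
  [(5,0),(11,0)]⟩,⟨1,[(16,0),(2,0),(0,0)]⟩⟩,⟨true,0,⟨0,[]⟩,⟨0,[(27,0)]⟩⟩,⟨false,1,⟨0,[(2,0),(20,
  0)]⟩,⟨2,[(3,0),(0,0),(5,1)]⟩⟩,⟨false,0,⟨0,[]⟩,⟨0,[]⟩⟩,⟨false,0,⟨0,[]⟩,⟨0,[]⟩⟩,[.o ⟨false,0,⟨0,[(1,
  0)]⟩,⟨7,[(7,1),(0,1),(5,1),(0,1),(2,0),(5,0)]⟩⟩,.o ⟨false,1,⟨0,[(12,0),(12,0)]⟩,⟨0,[(22,0)]⟩⟩,.a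
  ⟨true,0,⟨1,[(16,0),(2,0),(0,0)]⟩,⟨0,[(17,0)]⟩⟩ ⟨false,0,⟨0,[(6,0),(10,0)]⟩,⟨3,[(14,2),(0,0)]⟩⟩
  ⟨true,0,⟨0,[(1,0),(15,0)]⟩,⟨1,[(16,0),(2,0),(0,0),(1,1)]⟩⟩,.o ⟨false,0,⟨1,[(13,0),(2,0)]⟩,⟨1,[(17,
  1),(0,0),(5,0)]⟩⟩]⟩) (.R ⟨1,false,false,false,[0,0,1],[1,-1],[1,0,0,0,0,0,1],(⟨0,[(17,0)]⟩,⟨1,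
  [(16,0),(2,0),(0,0)]⟩),(⟨0,[(19,0)]⟩,⟨0,[(20,0)]⟩),⟨0,[(0,0)]⟩,.k,.k,(.r 0 ⟨0,[(0,4),(0,2),(2,0),
  (11,1),(3,4),(0,0)]⟩ ⟨7,[(7,1),(0,1),(4,1),(0,4),(0,0),(10,1)]⟩),(.r 0 ⟨1,[(4,0),(2,0),(1,0),(3,
  0),(3,0)]⟩ ⟨1,[(14,0),(8,1),(0,0)]⟩),.k,.k,⟨false,0,⟨2,[(3,0),(2,1),(0,0),(1,0),(7,1)]⟩,⟨1,[(14,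
  0),(8,1),(0,0)]⟩⟩,⟨true,0,⟨0,[(5,0),(11,0)]⟩,⟨1,[(16,0),(2,0),(0,0)]⟩⟩,⟨true,0,⟨0,[]⟩,⟨0,[(27,
  0)]⟩⟩,⟨false,1,⟨0,[(2,0),(20,0)]⟩,⟨2,[(3,0),(0,0),(5,1)]⟩⟩,⟨false,1,⟨3,[(8,1),(9,0),(6,0)]⟩,⟨0,
  [(23,0)]⟩⟩,⟨false,1,⟨0,[(2,0)]⟩,⟨0,[(10,0)]⟩⟩,[.o ⟨false,0,⟨0,[(1,0)]⟩,⟨7,[(7,1),(0,1),(5,1),(0,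
  1),(2,0),(5,0)]⟩⟩,.o ⟨false,1,⟨0,[(12,0),(12,0)]⟩,⟨0,[(22,0)]⟩⟩,.a ⟨true,0,⟨1,[(16,0),(2,0),(0,
  0)]⟩,⟨0,[(17,0)]⟩⟩ ⟨false,0,⟨0,[(6,0),(10,0)]⟩,⟨3,[(14,2),(0,0)]⟩⟩ ⟨true,0,⟨0,[(1,0),(15,0)]⟩,⟨1,
  [(16,0),(2,0),(0,0),(1,1)]⟩⟩,.o ⟨false,0,⟨1,[(13,0),(2,0)]⟩,⟨1,[(17,1),(0,0),(5,0)]⟩⟩]⟩)))) (.Q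
  [0,0,0,0,0,1,0,0,-1] (.ed true [1,-1,1] .k) (.R ⟨0,false,false,false,[0,0,1],[1,-1],[1,0,0,0,0,0,
  1],(⟨0,[(15,0)]⟩,⟨1,[(14,0),(2,0),(0,0)]⟩),(⟨0,[(17,0)]⟩,⟨0,[(18,0)]⟩),⟨0,[(0,0)]⟩,.k,.k,(.r 0 ⟨0,
  [(1,2),(0,0),(0,0),(11,0),(3,3),(4,1)]⟩ ⟨7,[(5,1),(0,1),(4,1),(0,4),(0,0),(10,1)]⟩),(.r 0 ⟨1,[(2,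
  0),(2,0),(1,0),(3,0),(3,0)]⟩ ⟨1,[(1,0),(10,0),(9,0),(2,0)]⟩),.k,.k,⟨false,0,⟨3,[(4,2),(0,1),(1,0),
  (7,2),(3,0)]⟩,⟨1,[(1,0),(10,0),(9,0),(2,0)]⟩⟩,⟨true,0,⟨0,[(3,0),(11,0)]⟩,⟨1,[(14,0),(2,0),(0,
  0)]⟩⟩,⟨true,0,⟨0,[]⟩,⟨0,[(25,0)]⟩⟩,⟨false,1,⟨1,[(1,1),(1,0),(5,1),(0,0),(8,0)]⟩,⟨4,[(2,1),(2,0),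
  (2,2),(10,0)]⟩⟩,⟨false,0,⟨0,[]⟩,⟨0,[]⟩⟩,⟨false,0,⟨0,[]⟩,⟨0,[]⟩⟩,[.o ⟨false,0,⟨0,[(1,0),(1,0),(15,
  0)]⟩,⟨7,[(5,1),(0,1),(5,1),(0,1),(2,0),(5,0)]⟩⟩,.o ⟨false,1,⟨7,[(1,3),(10,0),(0,0),(2,3),(6,1)]⟩,
  ⟨0,[(20,0)]⟩⟩,.a ⟨true,0,⟨1,[(14,0),(2,0),(0,0)]⟩,⟨0,[(15,0)]⟩⟩ ⟨false,0,⟨0,[(4,0),(10,0)]⟩,⟨3,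
  [(12,2),(0,0)]⟩⟩ ⟨true,0,⟨0,[(1,0),(1,0),(11,0),(3,0)]⟩,⟨1,[(14,0),(2,0),(0,0),(1,1)]⟩⟩,.o ⟨false,
  0,⟨1,[(11,0),(2,0)]⟩,⟨1,[(15,1),(0,0),(5,0)]⟩⟩]⟩) (.R ⟨1,false,false,false,[0,0,1],[1,-1],[1,0,0,
  0,0,0,1],(⟨0,[(15,0)]⟩,⟨1,[(14,0),(2,0),(0,0)]⟩),(⟨0,[(17,0)]⟩,⟨0,[(18,0)]⟩),⟨0,[(0,0)]⟩,.k,.k,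
  (.r 0 ⟨0,[(0,4),(0,2),(0,0),(0,2),(10,1),(3,4),(0,3)]⟩ ⟨7,[(5,1),(0,1),(4,1),(0,4),(0,0),(10,
  1)]⟩),(.r 0 ⟨1,[(2,0),(2,0),(1,0),(3,0),(3,0)]⟩ ⟨1,[(1,0),(10,0),(9,0),(2,0)]⟩),.k,.k,⟨false,0,⟨3,
  [(4,2),(0,1),(1,0),(7,2),(3,0)]⟩,⟨1,[(1,0),(10,0),(9,0),(2,0)]⟩⟩,⟨true,0,⟨0,[(3,0),(11,0)]⟩,⟨1,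
  [(14,0),(2,0),(0,0)]⟩⟩,⟨true,0,⟨0,[]⟩,⟨0,[(25,0)]⟩⟩,⟨false,1,⟨1,[(1,1),(1,0),(5,1),(0,0),(8,0)]⟩,
  ⟨4,[(2,1),(2,0),(2,2),(10,0)]⟩⟩,⟨false,1,⟨3,[(6,1),(9,0),(6,0)]⟩,⟨0,[(21,0)]⟩⟩,⟨false,1,⟨0,[(1,0),
  (1,0),(5,0),(9,0)]⟩,⟨0,[(8,0)]⟩⟩,[.o ⟨false,0,⟨0,[(1,0),(1,0),(15,0)]⟩,⟨7,[(5,1),(0,1),(5,1),(0,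
  1),(2,0),(5,0)]⟩⟩,.o ⟨false,1,⟨7,[(1,3),(10,0),(0,0),(2,3),(6,1)]⟩,⟨0,[(20,0)]⟩⟩,.a ⟨true,0,⟨1,
  [(14,0),(2,0),(0,0)]⟩,⟨0,[(15,0)]⟩⟩ ⟨false,0,⟨0,[(4,0),(10,0)]⟩,⟨3,[(12,2),(0,0)]⟩⟩ ⟨true,0,⟨0,
  [(1,0),(1,0),(11,0),(3,0)]⟩,⟨1,[(14,0),(2,0),(0,0),(1,1)]⟩⟩,.o ⟨false,0,⟨1,[(11,0),(2,0)]⟩,⟨1,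
  [(15,1),(0,0),(5,0)]⟩⟩]⟩))) (.R ⟨2,true,false,true,[0,1],[1,0,-1],[1,1,1,1],(⟨0,[]⟩,⟨0,[]⟩),(⟨1,
  [(12,0),(2,0),(0,0)]⟩,⟨0,[(13,0)]⟩),⟨0,[]⟩,.k,.k,.k,(.r 0 ⟨6,[(2,3),(0,3),(1,0),(0,1),(2,1),(3,
  5)]⟩ ⟨1,[(10,0),(8,1),(0,0)]⟩),.k,.k,⟨false,0,⟨3,[(2,2),(0,1),(1,0),(7,2),(3,0)]⟩,⟨1,[(10,0),(8,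
  1),(0,0)]⟩⟩,⟨true,0,⟨0,[(1,0),(11,0)]⟩,⟨1,[(12,0),(2,0),(0,0)]⟩⟩,⟨false,0,⟨0,[]⟩,⟨3,[(10,0),(0,0),
  (9,1)]⟩⟩,⟨true,0,⟨0,[(0,0)]⟩,⟨2,[(2,1),(0,0),(2,0),(8,1),(0,1),(0,0)]⟩⟩,⟨true,0,⟨0,[(18,0)]⟩,⟨0,
  [(19,0)]⟩⟩,⟨false,1,⟨7,[(0,3),(6,3),(2,0),(0,0),(2,1)]⟩,⟨0,[(2,0),(12,0),(0,0)]⟩⟩,[]⟩))) t2) (.Q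
  [0,0,-1,0,0,0,0,1] (.pp false [-1,1]) (.R ⟨2,false,false,true,[0,1],[1,-1],[0,0,1],(⟨0,[]⟩,⟨0,
  []⟩),(⟨0,[(13,0)]⟩,⟨0,[(14,0)]⟩),⟨0,[]⟩,.k,.k,.k,(.r (-1) ⟨0,[(2,0),(4,0),(13,0)]⟩ ⟨1,[(0,0),(0,
  1),(4,0),(8,0)]⟩),.k,.k,⟨false,1,⟨7,[(2,3),(4,3),(0,0),(0,0),(9,1)]⟩,⟨3,[(0,2),(0,1),(4,2),(8,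
  2)]⟩⟩,⟨true,0,⟨0,[(7,0)]⟩,⟨0,[(0,0)]⟩⟩,⟨true,0,⟨0,[(17,0)]⟩,⟨0,[(16,0)]⟩⟩,⟨false,0,⟨2,[(1,1),(4,
  1),(0,0)]⟩,⟨0,[(2,0)]⟩⟩,⟨false,1,⟨3,[(8,0),(0,0),(9,1)]⟩,⟨0,[]⟩⟩,⟨false,0,⟨0,[(1,0),(5,0),(7,0)]⟩,
  ⟨3,[(2,1),(1,1),(3,0),(2,1),(7,0)]⟩⟩,[.o ⟨false,0,⟨0,[(6,0)]⟩,⟨3,[(2,1),(9,0),(6,0)]⟩⟩,.o ⟨false,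
  0,⟨0,[(1,0),(5,0),(7,0)]⟩,⟨11,[(2,3),(5,2),(0,2),(2,1),(3,3)]⟩⟩,.a ⟨true,0,⟨0,[(0,0)]⟩,⟨0,[(20,
  0)]⟩⟩ ⟨true,0,⟨0,[(20,0)]⟩,⟨1,[(0,0),(5,0),(8,0)]⟩⟩ ⟨false,0,⟨2,[(1,0),(4,0),(0,1)]⟩,⟨3,[(0,0),(0,
  0),(0,2),(15,0)]⟩⟩,.e ⟨false,1,⟨3,[(8,0),(0,0),(9,1)]⟩,⟨0,[]⟩⟩ ⟨false,0,⟨0,[(1,0),(5,0),(7,0)]⟩,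
  ⟨3,[(2,1),(1,1),(3,0),(2,1),(7,0)]⟩⟩]⟩) (.I [0,0,1,1,0,0,1] (.Q [0,-1,0,0,0,0,1,0,-1] (.p false
  [0,0,1] [] (⟨0,[(12,0)]⟩,⟨1,[(11,0),(2,0),(0,0)]⟩) .k 0 (⟨0,[]⟩,⟨0,[]⟩) .k .k) (.Q [0,0,0,0,0,-1,
  0,1,-1] (.ed true [0,1,1] .k) (.R ⟨1,false,false,false,[1,0,-1],[1,-1],[1,0,0,0,0,0,-1],(⟨1,[(13,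
  0),(2,0),(0,0)]⟩,⟨0,[(14,0)]⟩),(⟨0,[(16,0)]⟩,⟨0,[(17,0)]⟩),⟨0,[(0,0)]⟩,.k,.k,(.r (-1) ⟨7,[(4,3),
  (6,4),(0,0),(8,1),(2,3)]⟩ ⟨0,[(2,0)]⟩),(.r (-1) ⟨1,[(5,0),(4,0),(0,0),(12,0)]⟩ ⟨0,[(1,0),(2,1),(9,
  0),(3,2),(4,3)]⟩),.k,.k,⟨false,1,⟨5,[(5,1),(5,2),(3,0),(3,1)]⟩,⟨0,[(1,0),(2,1),(9,0),(3,2),(4,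
  3)]⟩⟩,⟨true,0,⟨1,[(10,0),(2,0)]⟩,⟨0,[(14,0)]⟩⟩,⟨true,0,⟨0,[]⟩,⟨0,[(24,0)]⟩⟩,⟨false,0,⟨8,[(1,5),(2,
  3),(2,2),(1,0),(0,1)]⟩,⟨0,[(8,0),(15,0)]⟩⟩,⟨false,1,⟨3,[(5,1),(9,0),(6,0)]⟩,⟨0,[(20,0)]⟩⟩,⟨false,
  0,⟨0,[(1,0)]⟩,⟨3,[(11,2),(0,0),(1,3)]⟩⟩,[.o ⟨false,0,⟨3,[(3,2),(0,1),(4,0),(8,0)]⟩,⟨11,[(5,3),(5,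
  2),(0,2),(2,1),(3,3)]⟩⟩,.o ⟨false,1,⟨15,[(4,7),(5,3),(0,2),(0,2),(2,5),(6,3)]⟩,⟨0,[(19,0)]⟩⟩,.a
  ⟨true,0,⟨0,[(14,0)]⟩,⟨1,[(13,0),(2,0),(0,0)]⟩⟩ ⟨false,1,⟨1,[(11,0),(10,0)]⟩,⟨1,[(2,0),(3,0)]⟩⟩
  ⟨true,0,⟨5,[(4,1),(4,1),(0,0),(2,2)]⟩,⟨0,[(14,0),(4,0)]⟩⟩,.o ⟨false,0,⟨0,[(3,0),(10,0)]⟩,⟨7,[(11,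
  0),(0,0),(0,3),(1,1),(5,3)]⟩⟩]⟩) (.R ⟨0,false,false,false,[1,0,-1],[1,-1],[1,0,0,0,0,0,-1],(⟨1,
  [(13,0),(2,0),(0,0)]⟩,⟨0,[(14,0)]⟩),(⟨0,[(16,0)]⟩,⟨0,[(17,0)]⟩),⟨0,[(0,0)]⟩,.k,.k,(.r (-1) ⟨7,[(4,
  3),(6,4),(0,0),(8,1),(2,3)]⟩ ⟨0,[(2,0)]⟩),(.r (-1) ⟨1,[(5,0),(4,0),(0,0),(12,0)]⟩ ⟨0,[(0,0),(0,0),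
  (2,1),(11,0),(1,2),(4,3)]⟩),.k,.k,⟨false,1,⟨5,[(5,1),(5,2),(3,0),(3,1)]⟩,⟨0,[(0,0),(0,0),(2,1),
  (11,0),(1,2),(4,3)]⟩⟩,⟨true,0,⟨1,[(10,0),(2,0)]⟩,⟨0,[(14,0)]⟩⟩,⟨true,0,⟨0,[]⟩,⟨0,[(24,0)]⟩⟩,
  ⟨false,0,⟨8,[(1,5),(2,3),(2,2),(1,0),(0,1)]⟩,⟨0,[(8,0),(15,0)]⟩⟩,⟨false,0,⟨0,[]⟩,⟨0,[]⟩⟩,⟨false,0,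
  ⟨0,[]⟩,⟨0,[]⟩⟩,[.o ⟨false,0,⟨3,[(3,2),(0,1),(4,0),(8,0)]⟩,⟨11,[(5,3),(5,2),(0,2),(2,1),(3,3)]⟩⟩,
  .o ⟨false,1,⟨15,[(4,7),(5,3),(0,2),(0,2),(2,5),(6,3)]⟩,⟨0,[(19,0)]⟩⟩,.a ⟨true,0,⟨0,[(14,0)]⟩,⟨1,
  [(13,0),(2,0),(0,0)]⟩⟩ ⟨false,1,⟨1,[(11,0),(10,0)]⟩,⟨1,[(2,0),(3,0)]⟩⟩ ⟨true,0,⟨5,[(4,1),(4,1),(0,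
  0),(2,2)]⟩,⟨0,[(14,0),(4,0)]⟩⟩,.o ⟨false,0,⟨0,[(3,0),(10,0)]⟩,⟨7,[(11,0),(0,0),(0,3),(1,1),(5,
  3)]⟩⟩]⟩)) (.K ⟨0,[0,0,1],0,0,(⟨0,[(13,0)]⟩,⟨1,[(12,0),(2,0),(0,0)]⟩),.k,(.r 0 ⟨0,[(1,0),(1,1),(13,
  1),(4,1)]⟩ ⟨1,[(4,0),(4,0),(0,0),(12,0)]⟩),(.r 0 ⟨0,[(1,0)]⟩ ⟨7,[(3,3),(6,4),(0,0),(8,1),(2,3)]⟩),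
  .k,.k,[⟨0,[(13,0),(8,0)]⟩,⟨1,[(9,0),(2,0)]⟩,⟨0,[(0,0)]⟩,⟨5,[(1,2),(3,0),(0,1),(1,3),(3,1),(4,
  1)]⟩]⟩)) (.I [0,0,-1,-1,0,0,-1] (.K ⟨0,[0,0,1],0,0,(⟨0,[(13,0)]⟩,⟨1,[(12,0),(2,0),(0,0)]⟩),.k,(.r
  0 ⟨0,[(2,0),(0,0),(2,0),(6,0),(3,0)]⟩ ⟨1,[(4,0),(4,0),(0,0),(12,0)]⟩),(.r (-1) ⟨1,[(4,0),(4,0),(1,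
  0),(11,0)]⟩ ⟨0,[(0,0)]⟩),.k,.k,[⟨0,[(13,0),(8,0)]⟩,⟨1,[(9,0),(2,0)]⟩,⟨0,[(1,0),(11,0),(4,0),(3,
  0)]⟩,⟨1,[(2,0),(3,1),(1,0),(8,0)]⟩]⟩) (.K ⟨0,[0,0,1],0,0,(⟨0,[(13,0)]⟩,⟨1,[(12,0),(2,0),(0,0)]⟩),
  .k,(.r 0 ⟨0,[(0,0),(2,1),(13,1),(4,1)]⟩ ⟨1,[(4,0),(4,0),(0,0),(12,0)]⟩),(.x (-1) ⟨3,[(10,0),(0,0),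
  (4,3),(3,1)]⟩ ⟨0,[(2,0),(12,0)]⟩),.k,.k,[⟨0,[(13,0),(8,0)]⟩,⟨1,[(9,0),(2,0)]⟩,⟨0,[(1,0),(11,0),(4,
  0),(3,0)]⟩,⟨5,[(0,2),(4,0),(0,1),(1,3),(3,1),(4,1)]⟩]⟩)))))

def tree : Tre :=
  (.Q [0,-1,0,1,1,0,-1,0,1] (.p true [0,0,1] [] (⟨0,[(5,0)]⟩,⟨1,[(4,0),(2,0),(0,0)]⟩) .k 0 (⟨0,[]⟩,
  ⟨0,[]⟩) .k .k) (.Q [0,0,0,0,0,0,-1,-1,1] (.p true [0,0,1] [1] (⟨0,[(6,0)]⟩,⟨1,[(5,0),(2,0),(0,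
  0)]⟩) .k 1 (⟨0,[]⟩,⟨0,[]⟩) .k .k) t0 (.I [0,0,1,1,0,0,-1] (.I [0,0,1,1,0,0,1] (.Q [0,1,0,0,0,0,1,
  0,-1] (.p false [0,0,1] [] (⟨0,[(9,0)]⟩,⟨1,[(8,0),(2,0),(0,0)]⟩) .k 0 (⟨0,[]⟩,⟨0,[]⟩) .k .k) (.K
  ⟨0,[0,0,1],0,0,(⟨0,[(10,0)]⟩,⟨1,[(9,0),(2,0),(0,0)]⟩),.k,(.r (-1) ⟨1,[(8,0),(7,1),(0,0)]⟩ ⟨0,[(2,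
  0)]⟩),(.r 0 ⟨0,[(1,0)]⟩ ⟨1,[(7,0),(8,1),(0,0)]⟩),.k,.k,[⟨0,[(10,0),(8,0)]⟩,⟨1,[(6,0),(2,0)]⟩,⟨0,
  [(2,0),(7,0),(3,0),(1,1)]⟩,⟨0,[(0,0)]⟩]⟩) (.K ⟨0,[1,0,-1],0,0,(⟨1,[(9,0),(2,0),(0,0)]⟩,⟨0,[(10,
  0)]⟩),.k,(.r (-1) ⟨1,[(7,0),(8,1),(0,0)]⟩ ⟨0,[(1,0)]⟩),(.r 0 ⟨0,[(2,0)]⟩ ⟨1,[(8,0),(7,1),(0,0)]⟩),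
  .k,.k,[⟨1,[(9,0),(2,0),(0,0),(5,1)]⟩,⟨0,[(0,0),(0,0),(3,0)]⟩,⟨0,[(3,0),(16,0)]⟩,⟨0,[(0,0),(4,0),
  (9,0)]⟩]⟩)) t1) (.Q [0,-1,0,2,1,0,0,1] (.pp false [-1,1]) t3 (.Q [0,0,-1,0,0,0,0,1] (.pp false
  [-1,1]) (.R ⟨2,true,false,true,[0,1],[1,-1],[1,1,1,1],(⟨0,[]⟩,⟨0,[]⟩),(⟨0,[(12,0)]⟩,⟨0,[(13,0)]⟩),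
  ⟨0,[]⟩,.k,.k,.k,(.r (-1) ⟨0,[(3,0),(0,0),(1,0),(8,0)]⟩ ⟨1,[(0,1),(0,1),(15,0),(0,0)]⟩),.k,.k,
  ⟨false,1,⟨1,[(3,0),(0,0),(1,0),(8,2),(2,0)]⟩,⟨1,[(0,1),(0,1),(15,0),(0,0)]⟩⟩,⟨true,0,⟨0,[(6,0)]⟩,
  ⟨0,[(0,0)]⟩⟩,⟨false,0,⟨0,[]⟩,⟨3,[(7,0),(0,0),(9,1)]⟩⟩,⟨true,(-1),⟨0,[(1,0)]⟩,⟨0,[(3,0),(0,0),(10,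
  0)]⟩⟩,⟨true,0,⟨0,[(15,0)]⟩,⟨0,[(16,0)]⟩⟩,⟨false,0,⟨3,[(1,1),(9,0),(6,0)]⟩,⟨0,[(3,0),(0,0)]⟩⟩,[]⟩)
  (.K ⟨0,[0,0,1],0,0,(⟨0,[(10,0)]⟩,⟨1,[(9,0),(2,0),(0,0)]⟩),.k,(.r 0 ⟨0,[(1,0),(1,0),(6,0),(3,0),(3,
  0)]⟩ ⟨1,[(3,0),(0,0),(1,0),(0,0),(7,0)]⟩),(.x (-1) ⟨3,[(7,0),(0,0),(4,3),(3,1)]⟩ ⟨0,[(0,0),(11,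
  0)]⟩),.k,.k,[⟨0,[(10,0),(8,0)]⟩,⟨1,[(6,0),(2,0)]⟩,⟨0,[(1,0),(2,0),(7,0),(0,0),(1,0)]⟩,⟨2,[(1,0),
  (1,2),(7,0),(3,1)]⟩]⟩))))) (.R ⟨2,true,false,true,[0,1],[0,0,1],[1,1,1,1],(⟨0,[]⟩,⟨0,[]⟩),(⟨0,[(6,
  0)]⟩,⟨1,[(5,0),(2,0),(0,0)]⟩),⟨0,[]⟩,.k,.k,.k,(.r (-1) ⟨1,[(3,0),(7,1),(2,0),(0,1)]⟩ ⟨1,[(0,1),(5,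
  1),(6,0),(0,0)]⟩),.k,.k,⟨false,1,⟨1,[(3,0),(7,1),(2,0)]⟩,⟨1,[(0,1),(5,1),(6,0),(0,0)]⟩⟩,⟨true,0,
  ⟨1,[(2,0),(2,0)]⟩,⟨0,[(6,0)]⟩⟩,⟨false,0,⟨0,[]⟩,⟨3,[(3,0),(0,0),(9,1)]⟩⟩,⟨true,(-1),⟨0,[(0,0)]⟩,⟨1,
  [(3,0),(2,1),(4,1),(2,0)]⟩⟩,⟨true,0,⟨0,[(11,0)]⟩,⟨0,[(12,0)]⟩⟩,⟨false,0,⟨0,[(0,0),(10,0),(2,0)]⟩,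
  ⟨1,[(3,0),(2,1),(7,0)]⟩⟩,[]⟩))

theorem ok : chk (cPU (-1) false) tree base = true := by
  decide +kernel

theorem closed {p a b c J l q : ℤ} {D dl : ℝ} {Cl : ℤ → ℤ → ℤ → ℤ → ℝ → Prop}
    (W : World p a b c J (-1) l q D dl Cl) (hE : KEmp p a b (-1) (P1 l p) Cl)
    (g : G0 p a b c J D)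
    {N R : ℤ} {I : ℝ} (hu : VFac p D Cl N R I)
    (s0 : (c : ℝ) + 1 ≤ 0)
    (s1 : (b : ℝ) - c + 1 ≤ a)
    (s2 : D < 2 * b)
    (s3 : -(a : ℝ) < -D - c) : False := by
  have g1 := g.a2
  have g2 := g.b2
  have g3 := g.pa
  have g4 := g.pb
  have g5 := g.J1
  have g6 := g.JD
  have g7 := g.D2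
  have g8 := g.ca
  have g9 := g.ca'
  have t1 := TF.ofV hu
  have i1 := t1.I0
  have i2 := hu.ID
  have i3 := t1.R1
  have i4 := t1.R2
  refine (val_PU W.toBase (UV.ofV hu)).sound W rfl (Nk := 0) (fun kf hkf hh => ?_) (kok_B hE (by simp [xv]) (by simp [xv]) 0) ?_ ok
  · simp only [cPU, kfB, List.mem_cons, List.not_mem_nil, or_false] at hkf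
    subst hkf
    exact absurd hh (by norm_num)
  · simp only [base, List.forall_mem_cons, List.not_mem_nil, false_imp_iff, implies_true,
      and_true, hld, xv, evg_cons, evg_nil, List.map_cons, List.map_nil, List.cons_append,
      List.nil_append, if_true, if_false, Bool.false_eq_true]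
    push_cast
    refine ⟨?_, ?_, ?_, ?_, ?_, ?_, ?_, ?_, ?_, ?_, ?_, ?_, ?_, ?_, ?_, ?_⟩ <;> linarith

end Helper25.KG.Pm1_1_m1_0_v
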