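import Pool.Agent.Helper25.KG.PL

set_option autoImplicit false
set_option linter.unusedVariables false

namespace Helper25.KG.Pm1_1_m1_0_v2

open Helper11.CT Helper25.KW Helper25.KG

def base : List Con :=
  [(false,[0,1,0,-1,0,0,-2]),
  (false,[0,0,2,0,0,0,-2]),
  (false,[0,0,0,0,0,0,1]),
  (false,[0,0,0,0,0,2,-4]),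
  (false,[0,0,0,0,-1,0,2]),
  (true,[0,0,0,0,1]),
  (true,[0,1,-1,1]),
  (true,[0,1,0,1]),
  (true,[0,0,0,-1]),
  (true,[0,0,-2,0,0,2]),
  (true,[0,-2,0,0,0,2]),
  (true,[-1,0,1]),
  (true,[-1,1])]

def tree : Tre :=
  (.Q [0,1,0,0,0,-1,1] (.p true [0,0,1] [] (⟨0,[(2,0)]⟩,⟨0,[(2,0)]⟩) .k 0 (⟨0,[]⟩,⟨0,[]⟩) .k .k)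
  (.K ⟨0,[0,0,1],0,0,(⟨0,[(3,0)]⟩,⟨0,[(3,0)]⟩),.k,(.r 0 ⟨1,[(9,1),(0,0)]⟩ ⟨1,[(8,1),(2,0),(0,1)]⟩),
  (.r 0 ⟨1,[(8,1),(2,0),(0,1)]⟩ ⟨1,[(9,1),(0,0)]⟩),.k,.k,[⟨0,[(3,0),(8,0)]⟩,⟨1,[(2,0)]⟩,⟨0,[(0,0)]⟩,
  ⟨3,[(4,0),(6,0),(1,5)]⟩]⟩) (.Q [0,0,1,0,0,0,-2] (.pp true [-1,1]) (.Q [0,-1,0,1,0,1,1] (.p true
  [0,0,1] [] (⟨0,[(4,0)]⟩,⟨0,[(4,0)]⟩) .k 0 (⟨0,[]⟩,⟨0,[]⟩) .k .k) (.Q [0,0,0,1,0,0,1] (.p true [0,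
  0,1] [] (⟨0,[(5,0)]⟩,⟨0,[(5,0)]⟩) .k 0 (⟨0,[]⟩,⟨0,[]⟩) .k .k) (.Q [0,0,0,0,-1,0,1] (.ed false [1,
  -1,1] .k) (.R ⟨1,false,false,true,[0,0,1],[1,-1],[1,1,0,0,0,1],(⟨0,[(7,0)]⟩,⟨0,[(7,0)]⟩),(⟨0,[(9,
  0)]⟩,⟨0,[(10,0)]⟩),⟨0,[(0,0)]⟩,.k,.k,(.r 0 ⟨1,[(13,1),(0,0)]⟩ ⟨1,[(2,1),(3,0),(10,1)]⟩),(.r 0 ⟨1,
  [(2,1),(3,0),(10,1)]⟩ ⟨1,[(13,1),(0,0)]⟩),.k,.k,⟨false,0,⟨5,[(2,3),(5,0),(3,1),(4,1)]⟩,⟨1,[(13,1),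
  (0,0)]⟩⟩,⟨true,0,⟨1,[(6,0)]⟩,⟨0,[(7,0)]⟩⟩,⟨false,0,⟨0,[]⟩,⟨0,[(15,0),(1,0)]⟩⟩,⟨false,1,⟨1,[(5,0),
  (7,0),(1,0),(1,0)]⟩,⟨0,[(2,0)]⟩⟩,⟨true,0,⟨0,[(12,0)]⟩,⟨0,[(13,0)]⟩⟩,⟨false,1,⟨3,[(8,0),(6,0),(1,
  1)]⟩,⟨1,[(7,1),(7,0)]⟩⟩,[.o ⟨false,0,⟨0,[(5,0)]⟩,⟨3,[(2,3),(5,0),(6,0),(1,1)]⟩⟩,.e ⟨false,0,⟨1,
  [(14,0)]⟩,⟨1,[(15,0),(1,1)]⟩⟩ ⟨false,1,⟨1,[(5,0),(7,0),(0,0),(0,0),(1,0)]⟩,⟨0,[(1,0)]⟩⟩,.a ⟨true,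
  0,⟨0,[(7,0)]⟩,⟨0,[(7,0)]⟩⟩ ⟨false,0,⟨1,[(15,0),(1,1)]⟩,⟨1,[(15,0)]⟩⟩ ⟨true,0,⟨1,[(5,0),(7,0),(3,
  0)]⟩,⟨0,[(1,0)]⟩⟩,.o ⟨false,0,⟨1,[(6,0)]⟩,⟨3,[(8,0),(5,1),(0,0),(1,1)]⟩⟩]⟩) (.R ⟨0,false,false,
  true,[0,0,1],[1,-1],[0,1,0,0,0,1],(⟨0,[(7,0)]⟩,⟨0,[(7,0)]⟩),(⟨0,[(9,0)]⟩,⟨0,[(10,0)]⟩),⟨0,[(0,
  0)]⟩,.k,.k,(.r 0 ⟨1,[(13,1),(0,0)]⟩ ⟨1,[(2,1),(3,0),(10,1)]⟩),(.r 0 ⟨1,[(2,1),(3,0),(10,1)]⟩ ⟨1,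
  [(13,1),(0,0)]⟩),.k,.k,⟨false,0,⟨5,[(2,3),(5,0),(3,1),(4,1)]⟩,⟨1,[(13,1),(0,0)]⟩⟩,⟨true,0,⟨1,[(6,
  0)]⟩,⟨0,[(7,0)]⟩⟩,⟨true,0,⟨0,[(17,0)]⟩,⟨0,[]⟩⟩,⟨false,1,⟨1,[(5,0),(7,0),(1,0),(1,0)]⟩,⟨0,[(2,
  0)]⟩⟩,⟨false,0,⟨0,[]⟩,⟨0,[]⟩⟩,⟨false,0,⟨0,[]⟩,⟨0,[]⟩⟩,[.o ⟨false,0,⟨0,[(5,0)]⟩,⟨3,[(2,3),(5,0),(6,
  0),(1,1)]⟩⟩,.e ⟨false,0,⟨1,[(14,0)]⟩,⟨1,[(15,0),(1,1)]⟩⟩ ⟨false,1,⟨1,[(5,0),(7,0),(0,0),(0,0),(1,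
  0)]⟩,⟨0,[(1,0)]⟩⟩,.a ⟨true,0,⟨0,[(7,0)]⟩,⟨0,[(7,0)]⟩⟩ ⟨false,0,⟨1,[(15,0),(1,1)]⟩,⟨1,[(15,0)]⟩⟩
  ⟨true,0,⟨1,[(5,0),(7,0),(3,0)]⟩,⟨0,[(1,0)]⟩⟩,.o ⟨false,0,⟨1,[(6,0)]⟩,⟨3,[(8,0),(5,1),(0,0),(1,
  1)]⟩⟩]⟩)) (.Q [0,0,0,-1,0,0,-2] (.pp true [-1,1]) (.Q [0,0,0,0,1,0,-1] (.ed true [1,-1,1] .k) (.R
  ⟨0,false,false,false,[0,0,1],[1,-1],[1,0,0,0,0,1],(⟨0,[(8,0)]⟩,⟨0,[(8,0)]⟩),(⟨0,[(10,0)]⟩,⟨0,[(11,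
  0)]⟩),⟨0,[(0,0)]⟩,.k,.k,(.r 0 ⟨1,[(14,1),(0,0)]⟩ ⟨1,[(3,1),(3,0),(10,1)]⟩),(.r 0 ⟨1,[(3,1),(3,0),
  (10,1)]⟩ ⟨1,[(14,1),(0,0)]⟩),.k,.k,⟨false,0,⟨5,[(3,3),(5,0),(3,1),(4,1)]⟩,⟨1,[(14,1),(0,0)]⟩⟩,
  ⟨true,0,⟨1,[(7,0)]⟩,⟨0,[(8,0)]⟩⟩,⟨true,0,⟨0,[]⟩,⟨0,[(18,0)]⟩⟩,⟨false,1,⟨1,[(1,0),(12,0),(1,0)]⟩,
  ⟨0,[(3,0),(14,0)]⟩⟩,⟨false,0,⟨0,[]⟩,⟨0,[]⟩⟩,⟨false,0,⟨0,[]⟩,⟨0,[]⟩⟩,[.o ⟨false,0,⟨0,[(1,0)]⟩,⟨3,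
  [(3,3),(5,0),(6,0),(1,5)]⟩⟩,.o ⟨false,1,⟨0,[(6,0),(9,0)]⟩,⟨0,[(13,0)]⟩⟩,.a ⟨true,0,⟨0,[(8,0)]⟩,⟨0,
  [(8,0)]⟩⟩ ⟨false,0,⟨1,[(16,0)]⟩,⟨1,[(16,0),(1,1)]⟩⟩ ⟨true,0,⟨0,[(2,0)]⟩,⟨0,[(8,0),(4,0)]⟩⟩,.o
  ⟨false,0,⟨1,[(7,0)]⟩,⟨3,[(9,0),(5,1),(0,0),(1,1)]⟩⟩]⟩) (.R ⟨1,false,false,false,[0,0,1],[1,-1],[1,
  0,0,0,0,1],(⟨0,[(8,0)]⟩,⟨0,[(8,0)]⟩),(⟨0,[(10,0)]⟩,⟨0,[(11,0)]⟩),⟨0,[(0,0)]⟩,.k,.k,(.r 0 ⟨1,[(14,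
  1),(0,0)]⟩ ⟨1,[(3,1),(3,0),(10,1)]⟩),(.r 0 ⟨1,[(3,1),(3,0),(10,1)]⟩ ⟨1,[(14,1),(0,0)]⟩),.k,.k,
  ⟨false,0,⟨5,[(3,3),(5,0),(3,1),(4,1)]⟩,⟨1,[(14,1),(0,0)]⟩⟩,⟨true,0,⟨1,[(7,0)]⟩,⟨0,[(8,0)]⟩⟩,⟨true,
  0,⟨0,[]⟩,⟨0,[(18,0)]⟩⟩,⟨false,1,⟨1,[(1,0),(12,0),(1,0)]⟩,⟨0,[(3,0),(14,0)]⟩⟩,⟨false,1,⟨3,[(3,3),
  (5,0),(6,0),(1,1)]⟩,⟨0,[(14,0)]⟩⟩,⟨false,1,⟨0,[(5,0)]⟩,⟨1,[(8,1),(7,0),(1,1)]⟩⟩,[.o ⟨false,0,⟨0,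
  [(1,0)]⟩,⟨3,[(3,3),(5,0),(6,0),(1,5)]⟩⟩,.o ⟨false,1,⟨0,[(6,0),(9,0)]⟩,⟨0,[(13,0)]⟩⟩,.a ⟨true,0,⟨0,
  [(8,0)]⟩,⟨0,[(8,0)]⟩⟩ ⟨false,0,⟨1,[(16,0)]⟩,⟨1,[(16,0),(1,1)]⟩⟩ ⟨true,0,⟨0,[(2,0)]⟩,⟨0,[(8,0),(4,
  0)]⟩⟩,.o ⟨false,0,⟨1,[(7,0)]⟩,⟨3,[(9,0),(5,1),(0,0),(1,1)]⟩⟩]⟩)) (.R ⟨2,false,false,false,[0,1],
  [1,-1],[],(⟨0,[]⟩,⟨0,[]⟩),(⟨0,[(9,0)]⟩,⟨0,[(10,0)]⟩),⟨0,[]⟩,.k,.k,.k,(.r 0 ⟨0,[(0,1),(2,1)]⟩ ⟨0,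
  [(13,1),(0,0)]⟩),.k,.k,⟨true,0,⟨0,[(0,0),(2,0)]⟩,⟨0,[(13,0)]⟩⟩,⟨false,0,⟨0,[(3,0)]⟩,⟨0,[(7,1),(6,
  0)]⟩⟩,⟨false,1,⟨1,[(13,1),(0,0),(0,0)]⟩,⟨0,[(0,0),(2,0)]⟩⟩,⟨true,0,⟨0,[(1,1)]⟩,⟨0,[(0,0),(11,
  0)]⟩⟩,⟨false,1,⟨1,[(14,0),(0,0)]⟩,⟨0,[(16,0)]⟩⟩,⟨false,1,⟨0,[(5,0),(9,0)]⟩,⟨0,[(0,0)]⟩⟩,[.a ⟨true,
  0,⟨0,[(13,0)]⟩,⟨0,[(0,0)]⟩⟩ ⟨false,1,⟨1,[(14,0),(0,0),(1,1)]⟩,⟨0,[]⟩⟩ ⟨true,0,⟨1,[(1,1),(4,0)]⟩,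
  ⟨0,[(0,0)]⟩⟩,.o ⟨false,1,⟨0,[(5,0),(9,0)]⟩,⟨0,[(12,0)]⟩⟩,.o ⟨false,1,⟨1,[(14,0),(0,0),(1,1)]⟩,⟨0,
  [(3,0)]⟩⟩,.e ⟨false,1,⟨1,[(14,0),(0,0)]⟩,⟨0,[(16,0)]⟩⟩ ⟨false,1,⟨0,[(5,0),(9,0)]⟩,⟨0,[(0,
  0)]⟩⟩]⟩))) (.R ⟨2,true,false,true,[0,1],[0,0,1],[1,1,1,1],(⟨0,[]⟩,⟨0,[]⟩),(⟨0,[(5,0)]⟩,⟨0,[(5,
  0)]⟩),⟨0,[]⟩,.k,.k,.k,(.r (-1) ⟨1,[(10,1),(2,0),(0,1)]⟩ ⟨1,[(11,1),(0,0)]⟩),.k,.k,⟨false,1,⟨1,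
  [(10,1),(2,0)]⟩,⟨1,[(11,1),(0,0)]⟩⟩,⟨true,0,⟨1,[(4,0)]⟩,⟨0,[(5,0)]⟩⟩,⟨false,0,⟨0,[]⟩,⟨0,[(13,0),
  (1,0)]⟩⟩,⟨true,(-1),⟨0,[(0,0)]⟩,⟨1,[(5,1),(4,1),(2,0)]⟩⟩,⟨true,0,⟨0,[(10,0)]⟩,⟨0,[(11,0)]⟩⟩,
  ⟨false,0,⟨3,[(6,0),(6,0),(1,1)]⟩,⟨1,[(5,1),(7,0)]⟩⟩,[]⟩)) (.R ⟨2,false,false,false,[0,1],[0,0,1],
  [0,0,1],(⟨0,[]⟩,⟨0,[]⟩),(⟨0,[(4,0)]⟩,⟨0,[(4,0)]⟩),⟨0,[]⟩,.k,.k,.k,(.r (-1) ⟨1,[(9,1),(2,0),(0,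
  1)]⟩ ⟨1,[(10,1),(0,0)]⟩),.k,.k,⟨false,1,⟨1,[(12,0),(1,1)]⟩,⟨1,[(11,0)]⟩⟩,⟨true,0,⟨1,[(3,0)]⟩,⟨0,
  [(4,0)]⟩⟩,⟨true,0,⟨0,[(10,0)]⟩,⟨0,[(9,0)]⟩⟩,⟨false,0,⟨0,[(1,0),(8,0)]⟩,⟨1,[(4,1),(4,1),(2,0)]⟩⟩,
  ⟨false,1,⟨0,[(12,0),(1,0)]⟩,⟨0,[]⟩⟩,⟨false,0,⟨0,[(1,0)]⟩,⟨1,[(4,1),(7,0),(1,1)]⟩⟩,[.o ⟨false,0,⟨3,
  [(5,0),(6,0),(1,1)]⟩,⟨3,[(5,0),(6,0),(1,1)]⟩⟩,.o ⟨false,0,⟨0,[(1,0)]⟩,⟨3,[(5,0),(6,0),(1,5)]⟩⟩,.a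
  ⟨true,0,⟨0,[(0,0)]⟩,⟨0,[(13,0)]⟩⟩ ⟨true,0,⟨0,[(13,0)]⟩,⟨1,[(0,0),(1,0),(5,0)]⟩⟩ ⟨false,0,⟨1,[(3,
  0),(8,0)]⟩,⟨1,[(4,1),(6,0)]⟩⟩,.e ⟨false,1,⟨0,[(12,0),(1,0)]⟩,⟨0,[]⟩⟩ ⟨false,0,⟨0,[(1,0)]⟩,⟨1,[(4,
  1),(7,0),(1,1)]⟩⟩]⟩)))

theorem ok : chk (cPW (-1)) tree base = true := by
  decide +kernel

theorem closed {p a b c J l q : ℤ} {D dl : ℝ} {Cl : ℤ → ℤ → ℤ → ℤ → ℝ → Prop}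
    (W : World p a b c J (-1) l q D dl Cl) (hE : KEmp p a b (-1) (P1 l p) Cl)
    (g : G0 p a b c J D)
    {N R : ℤ} {I : ℝ} (hu : WFac p D Cl N R I)
    (s0 : (c : ℝ) + 1 ≤ 0)
    (s1 : (b : ℝ) - c + 1 ≤ a)
    (s2 : D < 2 * b)
    (s3 : -(a : ℝ) < -D - c) : False := by
  have g1 := g.a2
  have g2 := g.b2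
  have g3 := g.pa
  have g4 := g.pb
  have g5 := g.J1
  have g6 := g.JD
  have g7 := g.D2
  have g8 := g.ca
  have g9 := g.ca'
  have i1 := hu.I0
  have i2 := hu.ID
  have i3 : (2 : ℝ) * R = p := by exact_mod_cast hu.R2
  refine (val_PW W.toBase hu).sound W rfl (Nk := 0) (fun kf hkf hh => ?_) (kok_B hE (by simp [xv]) (by simp [xv]) 0) ?_ ok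
  · simp only [cPW, kfB, List.mem_cons, List.not_mem_nil, or_false] at hkf
    subst hkf
    exact absurd hh (by norm_num)
  · simp only [base, List.forall_mem_cons, List.not_mem_nil, false_imp_iff, implies_true,
      and_true, hld, xv, evg_cons, evg_nil, List.map_cons, List.map_nil, List.cons_append,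
      List.nil_append, if_true, if_false, Bool.false_eq_true]
    push_cast
    refine ⟨?_, ?_, ?_, ?_, ?_, ?_, ?_, ?_, ?_, ?_, ?_, ?_, ?_⟩ <;> linarith

end Helper25.KG.Pm1_1_m1_0_v2
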