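import Pool.Agent.Helper25.KG.PL

set_option autoImplicit false
set_option linter.unusedVariables false

namespace Helper25.KG.Pm1_2_1_0_u

open Helper11.CT Helper25.KW Helper25.KG

def base : List Con :=
  [(false,[0,1,0,1,0,0,0,-1]),
  (false,[0,0,2,0,-1,0,0,1]),
  (true,[0,0,0,0,1,0,-2]),
  (true,[0,0,0,0,1,0,2]),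
  (false,[0,0,0,0,0,0,0,1,-1]),
  (false,[0,0,0,0,0,0,0,0,1]),
  (false,[0,0,0,0,1,0,0,-2]),
  (false,[0,0,0,0,0,-1,0,1]),
  (true,[0,0,0,0,0,1]),
  (true,[1,-1,1,-1]),
  (true,[0,1,-1]),
  (true,[0,1,0,1]),
  (true,[0,0,0,-1]),
  (true,[0,0,-2,0,1]),
  (true,[0,-2,0,0,1]),
  (true,[-1,0,1]),
  (true,[-1,1])]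

def t0 : Tre :=
  (.Q [0,0,0,0,0,-2,0,1] (.pp false [-1,1]) (.S ⟨1,0,[0,0,-1,-2],[1,-1],[1,1,-1,-1],(⟨0,[(9,0)]⟩,⟨0,
  [(10,0)]⟩),⟨0,[(0,0)]⟩,.k,(.r (-1) ⟨0,[(14,1),(0,0)]⟩ ⟨3,[(1,3),(1,3),(0,0),(0,0),(10,1)]⟩),
  ⟨false,0,⟨0,[]⟩,⟨3,[(4,0),(0,0),(10,1)]⟩⟩,⟨true,0,⟨0,[(14,0)]⟩,⟨0,[(13,0)]⟩⟩,⟨true,0,⟨0,[(13,0)]⟩,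
  ⟨0,[(14,0)]⟩⟩,⟨false,1,⟨3,[(4,0),(0,0),(10,1)]⟩,⟨0,[]⟩⟩,[.o ⟨false,0,⟨0,[(14,1)]⟩,⟨3,[(1,3),(2,0),
  (0,0),(10,1)]⟩⟩,.o ⟨false,1,⟨3,[(4,0),(0,0),(8,7),(1,1)]⟩,⟨0,[(1,0)]⟩⟩,.o ⟨false,0,⟨7,[(3,3),(0,
  0),(0,0),(2,1)]⟩,⟨1,[(8,0),(6,0)]⟩⟩,.a ⟨true,(-1),⟨0,[(3,0)]⟩,⟨0,[(15,0)]⟩⟩ ⟨false,1,⟨0,[(14,0),
  (0,0)]⟩,⟨3,[(1,1),(1,3),(4,0),(7,2)]⟩⟩ ⟨true,1,⟨0,[(14,1),(0,0)]⟩,⟨0,[(1,0),(1,0)]⟩⟩]⟩) (.I [0,0,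
  3,2,-1] (.R ⟨0,false,false,true,[1,-1],[0,1],[0,1,2,1],(⟨0,[(10,0)]⟩,⟨0,[(11,0)]⟩),(⟨0,[(11,0)]⟩,
  ⟨0,[(10,0)]⟩),⟨0,[(1,0)]⟩,.k,.k,(.r (-1) ⟨0,[(15,1),(0,0)]⟩ ⟨5,[(0,3),(4,0),(0,0),(7,3),(2,1)]⟩),
  (.r (-1) ⟨0,[(15,1),(0,0)]⟩ ⟨5,[(0,3),(4,0),(0,0),(7,3),(2,1)]⟩),.k,.k,⟨true,0,⟨7,[(4,3),(0,0),(0,
  0),(2,1)]⟩,⟨0,[]⟩⟩,⟨false,2,⟨1,[(9,0),(6,2)]⟩,⟨0,[(4,0)]⟩⟩,⟨false,(-1),⟨0,[(0,0)]⟩,⟨1,[(15,3),(0,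
  2),(0,0)]⟩⟩,⟨true,0,⟨0,[(2,0)]⟩,⟨0,[(7,0),(0,0),(6,1)]⟩⟩,⟨false,0,⟨0,[]⟩,⟨0,[]⟩⟩,⟨false,0,⟨0,[]⟩,
  ⟨0,[]⟩⟩,[.o ⟨false,0,⟨0,[(3,0)]⟩,⟨3,[(5,0),(0,0),(8,3),(1,1)]⟩⟩,.o ⟨false,1,⟨3,[(2,1),(2,0),(0,0),
  (2,0),(7,0)]⟩,⟨0,[(15,0)]⟩⟩,.o ⟨false,0,⟨7,[(4,3),(0,0),(0,0),(2,1)]⟩,⟨1,[(9,0),(6,0)]⟩⟩,.a ⟨true,
  (-1),⟨0,[(4,0)]⟩,⟨0,[(16,0)]⟩⟩ ⟨false,0,⟨11,[(0,3),(4,0),(0,0),(7,3),(2,1)]⟩,⟨1,[(15,1),(0,0),(0,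
  0)]⟩⟩ ⟨true,1,⟨3,[(2,1),(6,0),(3,1),(2,2)]⟩,⟨0,[(4,0),(10,0)]⟩⟩]⟩) (.I [0,0,1,1,0,0,-1] (.Q [0,-1,
  -1,0,1,0,-1,1,-2] (.p false [0,0,1] [1,0,-1] (⟨0,[(9,0)]⟩,⟨0,[(8,0)]⟩) .k 2 (⟨0,[(8,0)]⟩,⟨0,[(9,
  0)]⟩) .k (.x 0 ⟨3,[(5,3),(0,0),(0,0),(2,1)]⟩ ⟨0,[(17,0)]⟩)) (.Q [0,1,-1,0,0,0,-1,1,-2] (.p false
  [0,0,1] [1,0,-1] (⟨0,[(10,0)]⟩,⟨0,[(9,0)]⟩) .k 2 (⟨0,[(9,0)]⟩,⟨0,[(10,0)]⟩) .k (.x 0 ⟨3,[(6,3),(0,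
  0),(0,0),(2,1)]⟩ ⟨0,[(18,0)]⟩)) (.Q [0,1,1,0,0,0,1,-1,1] (.p true [0,0,1] [1] (⟨0,[(11,0)]⟩,⟨0,
  [(10,0)]⟩) .k 1 (⟨0,[]⟩,⟨0,[]⟩) .k .k) (.K ⟨0,[1,0,-1],0,0,(⟨0,[(11,0)]⟩,⟨0,[(12,0)]⟩),.k,(.x 0
  ⟨0,[(15,0)]⟩ ⟨3,[(9,0),(0,0),(2,1),(0,3)]⟩),(.r 0 ⟨0,[(3,0)]⟩ ⟨11,[(4,3),(4,0),(0,6),(8,3)]⟩),.k,
  .k,[⟨0,[(8,0),(3,0),(0,0)]⟩,⟨0,[(11,0)]⟩,⟨0,[(0,0)]⟩,⟨0,[(1,0),(10,0)]⟩]⟩) (.R ⟨0,false,false,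
  false,[1,-1],[0,0,1],[0,0,-1,-2],(⟨0,[(14,0)]⟩,⟨0,[(15,0)]⟩),(⟨0,[(12,0)]⟩,⟨0,[(11,0)]⟩),⟨0,[(5,
  0)]⟩,.k,.k,(.r (-1) ⟨5,[(4,3),(4,0),(0,0),(8,3)]⟩ ⟨2,[(3,1),(2,1),(1,1),(1,0),(10,0)]⟩),(.x 0 ⟨0,
  [(15,0)]⟩ ⟨3,[(9,0),(0,0),(2,1),(0,3)]⟩),.k,.k,⟨true,0,⟨0,[(0,0),(6,0),(4,0),(6,2)]⟩,⟨1,[(6,1),(1,
  1),(1,0),(10,0)]⟩⟩,⟨false,1,⟨1,[(12,1),(0,0),(6,0)]⟩,⟨0,[(11,0)]⟩⟩,⟨true,0,⟨0,[(19,0)]⟩,⟨0,[(18,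
  0)]⟩⟩,⟨false,1,⟨1,[(6,1),(3,0),(1,1),(3,1),(4,0)]⟩,⟨8,[(0,4),(0,1),(2,0),(3,1),(0,0),(7,2),(1,
  6)]⟩⟩,⟨false,0,⟨0,[]⟩,⟨0,[]⟩⟩,⟨false,0,⟨0,[]⟩,⟨0,[]⟩⟩,[.o ⟨false,1,⟨7,[(8,3),(0,0),(0,4),(1,7),(0,
  5)]⟩,⟨0,[(0,0),(6,0),(11,0)]⟩⟩,.o ⟨false,1,⟨3,[(6,1),(3,1),(1,3),(0,0),(2,3),(4,0)]⟩,⟨8,[(0,4),(0,
  1),(5,7),(0,0),(0,0),(7,3),(1,7)]⟩⟩,.o ⟨false,0,⟨7,[(8,3),(0,0),(0,0),(2,1)]⟩,⟨1,[(13,0),(6,0)]⟩⟩,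
  .a ⟨true,(-1),⟨0,[(8,0)]⟩,⟨0,[(20,0)]⟩⟩ ⟨true,1,⟨5,[(4,3),(4,0),(0,0),(8,3)]⟩,⟨0,[(6,0),(1,0)]⟩⟩
  ⟨false,2,⟨1,[(10,0),(1,1),(0,0),(6,0),(0,0)]⟩,⟨0,[(0,0),(6,0),(0,0),(10,0)]⟩⟩]⟩)) (.Q [0,1,-1,0,0,
  0,-1,1,-1] (.p false [0,0,1] [1] (⟨0,[(11,0)]⟩,⟨0,[(10,0)]⟩) .k 1 (⟨0,[]⟩,⟨0,[]⟩) .k .k) (.K ⟨0,
  [1,0,-1],0,0,(⟨0,[(11,0)]⟩,⟨0,[(12,0)]⟩),.k,(.x 0 ⟨0,[(15,0)]⟩ ⟨3,[(9,0),(0,0),(2,1),(0,3)]⟩),(.r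
  0 ⟨0,[(3,0)]⟩ ⟨11,[(4,3),(4,0),(0,6),(8,3)]⟩),.k,.k,[⟨3,[(1,1),(5,0),(0,2),(0,0),(3,1),(5,0),(3,
  0)]⟩,⟨0,[(11,0)]⟩,⟨3,[(1,1),(5,2),(0,0),(1,0),(8,2),(3,2)]⟩,⟨0,[(0,0)]⟩]⟩) (.R ⟨0,false,false,
  true,[1,-1],[1,0,-1],[0,0,-1,-2],(⟨0,[(14,0)]⟩,⟨0,[(15,0)]⟩),(⟨0,[(11,0)]⟩,⟨0,[(12,0)]⟩),⟨0,[(5,
  0)]⟩,.k,.k,(.r (-1) ⟨5,[(4,3),(4,0),(0,0),(8,3)]⟩ ⟨2,[(3,1),(2,1),(1,1),(1,0),(10,0)]⟩),(.r (-1)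
  ⟨11,[(4,3),(4,0),(0,6),(8,3)]⟩ ⟨0,[(3,0)]⟩),.k,.k,⟨false,1,⟨0,[(0,0),(3,0),(6,0)]⟩,⟨0,[(3,0),(14,
  0)]⟩⟩,⟨true,1,⟨2,[(0,0),(1,0),(1,1),(1,1),(4,1)]⟩,⟨1,[(1,0),(1,0),(3,0),(0,1),(10,1)]⟩⟩,⟨true,0,
  ⟨0,[(19,0)]⟩,⟨0,[(18,0)]⟩⟩,⟨false,1,⟨3,[(2,1),(3,1),(2,0),(10,0)]⟩,⟨15,[(0,3),(0,5),(2,5),(3,9),
  (1,2),(5,3),(4,0)]⟩⟩,⟨false,0,⟨0,[]⟩,⟨0,[]⟩⟩,⟨false,0,⟨0,[]⟩,⟨0,[]⟩⟩,[.o ⟨false,1,⟨11,[(2,5),(1,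
  1),(2,3),(1,2),(3,0),(9,13)]⟩,⟨0,[(0,0)]⟩⟩,.o ⟨false,1,⟨11,[(2,5),(1,1),(2,3),(1,2),(3,0),(9,1)]⟩,
  ⟨0,[(0,0),(22,0)]⟩⟩,.o ⟨false,0,⟨7,[(8,3),(0,0),(0,0),(2,1)]⟩,⟨1,[(13,0),(6,0)]⟩⟩,.a ⟨true,(-1),
  ⟨0,[(8,0)]⟩,⟨0,[(20,0)]⟩⟩ ⟨true,1,⟨5,[(4,3),(4,0),(0,0),(8,3)]⟩,⟨0,[(6,0),(1,0)]⟩⟩ ⟨false,2,⟨11,
  [(2,5),(1,3),(1,1),(2,2),(3,1),(4,3),(1,8)]⟩,⟨0,[(0,0),(7,0)]⟩⟩]⟩))) (.Q [0,1,-1,0,0,0,-1,1,-1]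
  (.p false [0,0,1] [1] (⟨0,[(10,0)]⟩,⟨0,[(9,0)]⟩) .k 1 (⟨0,[]⟩,⟨0,[]⟩) .k .k) (.K ⟨0,[1,0,-1],0,0,
  (⟨0,[(10,0)]⟩,⟨0,[(11,0)]⟩),.k,(.x 0 ⟨0,[(14,0)]⟩ ⟨3,[(8,0),(0,0),(2,1),(0,3)]⟩),(.r 0 ⟨0,[(2,
  0)]⟩ ⟨11,[(3,3),(4,0),(0,6),(8,3)]⟩),.k,.k,[⟨15,[(1,7),(5,11),(0,4),(0,0),(2,9),(7,3)]⟩,⟨0,[(10,
  0)]⟩,⟨15,[(1,7),(5,3),(0,0),(0,4),(2,5),(9,7)]⟩,⟨0,[(0,0)]⟩]⟩) (.Q [0,-1,-1,-1,1,0,-1,1,-1] (.p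
  false [0,0,1] [1] (⟨0,[(11,0)]⟩,⟨0,[(10,0)]⟩) .k 1 (⟨0,[]⟩,⟨0,[]⟩) .k .k) (.R ⟨0,false,false,true,
  [1,-1],[0,0,1],[1,1,1],(⟨0,[(14,0)]⟩,⟨0,[(15,0)]⟩),(⟨0,[(12,0)]⟩,⟨0,[(11,0)]⟩),⟨0,[(5,0)]⟩,.k,.k,
  (.r (-1) ⟨5,[(4,3),(4,0),(0,0),(8,3)]⟩ ⟨2,[(3,1),(2,1),(1,1),(1,0),(10,0)]⟩),(.x 0 ⟨0,[(15,0)]⟩
  ⟨3,[(9,0),(0,0),(2,1),(0,3)]⟩),.k,.k,⟨true,0,⟨0,[(3,0),(15,0)]⟩,⟨2,[(1,1),(0,0),(1,0),(1,0),(4,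
  3)]⟩⟩,⟨false,1,⟨1,[(12,1),(0,0),(6,0)]⟩,⟨0,[(11,0)]⟩⟩,⟨true,(-1),⟨0,[(7,0),(0,0)]⟩,⟨7,[(4,3),(4,
  0),(0,0),(9,1)]⟩⟩,⟨false,0,⟨8,[(1,4),(0,0),(0,0),(2,3),(1,0),(1,1),(1,1)]⟩,⟨0,[(0,0)]⟩⟩,⟨false,0,
  ⟨0,[]⟩,⟨0,[]⟩⟩,⟨false,0,⟨0,[]⟩,⟨0,[]⟩⟩,[.e ⟨false,0,⟨0,[(23,0)]⟩,⟨1,[(20,0),(0,0)]⟩⟩ ⟨false,0,⟨2,
  [(1,0),(0,1),(1,1),(1,1),(4,1)]⟩,⟨1,[(9,0),(1,1),(9,0)]⟩⟩,.o ⟨false,0,⟨23,[(1,7),(0,7),(5,3),(0,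
  0),(0,4),(2,5)]⟩,⟨0,[(0,0),(6,0)]⟩⟩,.o ⟨false,0,⟨7,[(8,3),(0,0),(0,0),(2,1)]⟩,⟨1,[(13,0),(6,0)]⟩⟩,
  .a ⟨true,(-1),⟨0,[(8,0)]⟩,⟨0,[(20,0)]⟩⟩ ⟨false,0,⟨0,[]⟩,⟨3,[(9,0),(0,0),(10,1)]⟩⟩ ⟨true,0,⟨2,[(1,
  0),(0,1),(1,1),(1,1),(4,1)]⟩,⟨0,[(3,0),(7,0),(7,0)]⟩⟩]⟩) (.K ⟨0,[1,0,-1],0,1,(⟨0,[(11,0)]⟩,⟨0,
  [(12,0)]⟩),.k,(.x 0 ⟨0,[(15,0)]⟩ ⟨3,[(9,0),(0,0),(2,1),(0,3)]⟩),(.r 0 ⟨0,[(3,0)]⟩ ⟨11,[(4,3),(4,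
  0),(0,6),(8,3)]⟩),.k,.k,[⟨11,[(1,3),(0,3),(5,7),(0,4),(0,0),(2,5)]⟩,⟨0,[(11,0)]⟩,⟨0,[(0,0),(18,
  0)]⟩,⟨11,[(4,3),(4,6),(0,0),(0,11),(6,7),(4,3)]⟩]⟩)))) (.Q [0,1,1,1,-1,0,1,-1,1] (.p true [0,0,1]
  [1] (⟨0,[(9,0)]⟩,⟨0,[(8,0)]⟩) .k 1 (⟨0,[]⟩,⟨0,[]⟩) .k .k) (.I [0,0,-1,-1,0,0,1] (.K ⟨0,[1,0,-1],0,
  1,(⟨0,[(10,0)]⟩,⟨0,[(11,0)]⟩),.k,(.x 0 ⟨0,[(14,0)]⟩ ⟨3,[(8,0),(0,0),(2,1),(0,3)]⟩),(.r (-1) ⟨7,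
  [(5,3),(1,3),(0,6),(0,2),(10,1)]⟩ ⟨0,[(0,0)]⟩),.k,.k,[⟨0,[(7,0),(3,0),(0,0)]⟩,⟨0,[(10,0)]⟩,⟨0,[(1,
  0),(16,0)]⟩,⟨11,[(3,3),(4,6),(0,0),(0,11),(6,7),(4,3)]⟩]⟩) (.K ⟨0,[-1,1,1],0,(-1),(⟨1,[(0,1),(0,
  1),(1,1),(0,0),(2,0),(12,0)]⟩,⟨0,[(10,0),(2,0)]⟩),(.x (-1) ⟨3,[(8,0),(0,0),(2,1),(0,3)]⟩ ⟨0,[(14,
  0)]⟩),.k,(.r 0 ⟨1,[(5,1),(1,1),(1,0),(10,0)]⟩ ⟨0,[(0,0),(2,0),(14,0)]⟩),.k,.k,[⟨7,[(7,3),(0,0),(0,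
  0),(0,7),(1,1)]⟩,⟨3,[(1,1),(6,0),(2,1),(0,0),(2,1)]⟩,⟨11,[(3,3),(4,6),(0,0),(0,11),(7,3),(3,11)]⟩,
  ⟨0,[(1,0)]⟩]⟩)) (.R ⟨0,false,false,true,[1,-1],[0,0,1],[],(⟨0,[(12,0)]⟩,⟨0,[(13,0)]⟩),(⟨0,[(10,
  0)]⟩,⟨0,[(9,0)]⟩),⟨0,[(3,0)]⟩,.k,.k,(.r (-1) ⟨5,[(2,3),(4,0),(0,0),(8,3)]⟩ ⟨3,[(4,3),(1,3),(0,0),
  (0,0),(10,1)]⟩),(.x 0 ⟨0,[(13,0)]⟩ ⟨3,[(7,0),(0,0),(2,1),(0,3)]⟩),.k,.k,⟨true,1,⟨1,[(7,0),(11,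
  0)]⟩,⟨0,[(1,0),(3,0),(0,0)]⟩⟩,⟨false,1,⟨1,[(10,1),(0,0),(6,0)]⟩,⟨0,[(9,0)]⟩⟩,⟨true,0,⟨7,[(4,3),(1,
  3),(0,0),(0,0),(10,1)]⟩,⟨0,[(15,0),(1,0)]⟩⟩,⟨false,0,⟨5,[(1,3),(2,7),(1,1),(1,0),(1,5),(3,5),(4,
  0)]⟩,⟨0,[(0,0)]⟩⟩,⟨false,0,⟨0,[]⟩,⟨0,[]⟩⟩,⟨false,0,⟨0,[]⟩,⟨0,[]⟩⟩,[.e ⟨false,1,⟨3,[(7,0),(0,0),(9,
  1)]⟩,⟨0,[]⟩⟩ ⟨false,0,⟨0,[(1,0),(3,0),(4,0)]⟩,⟨1,[(7,0),(1,1),(9,0)]⟩⟩,.o ⟨false,0,⟨7,[(1,5),(2,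
  5),(1,3),(1,0),(1,7),(0,2),(2,5)]⟩,⟨0,[(0,0),(4,0)]⟩⟩,.o ⟨false,0,⟨7,[(6,3),(0,0),(0,0),(2,1)]⟩,
  ⟨1,[(11,0),(6,0)]⟩⟩,.a ⟨true,(-1),⟨0,[(6,0)]⟩,⟨0,[(18,0)]⟩⟩ ⟨false,1,⟨1,[(18,0),(0,0)]⟩,⟨7,[(6,3),
  (0,0),(0,0),(2,1)]⟩⟩ ⟨true,0,⟨0,[(1,0),(3,0),(4,0)]⟩,⟨0,[(0,0),(4,0),(0,0)]⟩⟩]⟩)))))

def tree : Tre :=
  (.Q [0,-1,0,-2,0,0,0,1] (.pp false [-1,1]) (.R ⟨2,true,false,false,[0,1],[1,-1],[0,0,1],(⟨0,[]⟩,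
  ⟨0,[]⟩),(⟨0,[(8,0)]⟩,⟨0,[(9,0)]⟩),⟨0,[]⟩,.k,.k,.k,(.r 0 ⟨0,[(1,0),(0,0),(9,0),(2,0)]⟩ ⟨1,[(0,1),
  (6,0),(3,1),(2,0)]⟩),.k,.k,⟨false,0,⟨1,[(1,0),(0,0),(9,0),(2,0)]⟩,⟨3,[(0,1),(6,0),(3,1),(2,2)]⟩⟩,
  ⟨true,(-1),⟨0,[(2,0)]⟩,⟨1,[(7,0),(6,0)]⟩⟩,⟨true,0,⟨0,[(13,0)]⟩,⟨0,[(12,0)]⟩⟩,⟨false,0,⟨0,[(0,0)]⟩,
  ⟨0,[(1,0),(10,0),(2,0)]⟩⟩,⟨false,1,⟨3,[(3,0),(0,0),(10,1)]⟩,⟨0,[]⟩⟩,⟨true,0,⟨0,[(0,0),(11,0)]⟩,⟨0,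
  [(1,0)]⟩⟩,[]⟩) t0)

theorem ok : chk (cPU 1 true) tree base = true := by
  decide +kernel

theorem closed {p a b c J l q : ℤ} {D dl : ℝ} {Cl : ℤ → ℤ → ℤ → ℤ → ℝ → Prop}
    (W : World p a b c J 1 l q D dl Cl) (hE : KEmp p a b 1 (P1 l p) Cl)
    (g : G0 p a b c J D)
    {N R : ℤ} {I : ℝ} (hu : UFac p b D Cl N R I)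
    (s0 : (c : ℝ) + 1 ≤ 0)
    (s1 : (b : ℝ) + 1 ≤ a)
    (s2 : (a : ℝ) ≤ b - c)
    (s3 : p - D < 2 * b)
    (s4 : D - c < a) : False := by
  have g1 := g.a2
  have g2 := g.b2
  have g3 := g.pa
  have g4 := g.pb
  have g5 := g.J1
  have g6 := g.JD
  have g7 := g.D2
  have g8 := g.ca
  have g9 := g.ca'
  have t1 := TF.ofU hu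
  have i1 := t1.I0
  have i2 := t1.ID
  have i3 := t1.R1
  have i4 := t1.R2
  refine (val_PU W.toBase (UV.ofU hu)).sound W rfl (Nk := 0) (fun kf hkf hh => ?_) (kok_B hE (by simp [xv]) (by simp [xv]) 0) ?_ ok
  · simp only [cPU, kfB, List.mem_cons, List.not_mem_nil, or_false] at hkf
    subst hkf
    exact absurd hh (by norm_num)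
  · simp only [base, List.forall_mem_cons, List.not_mem_nil, false_imp_iff, implies_true,
      and_true, hld, xv, evg_cons, evg_nil, List.map_cons, List.map_nil, List.cons_append,
      List.nil_append, if_true, if_false, Bool.false_eq_true]
    push_cast
    refine ⟨?_, ?_, ?_, ?_, ?_, ?_, ?_, ?_, ?_, ?_, ?_, ?_, ?_, ?_, ?_, ?_, ?_⟩ <;> linarith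

end Helper25.KG.Pm1_2_1_0_u
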