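import Pool.Agent.Helper25.KG.PL

set_option autoImplicit false
set_option linter.unusedVariables false

namespace Helper25.KG.Pm1_2_1_1_u

open Helper11.CT Helper25.KW Helper25.KG

def base : List Con :=
  [(false,[0,1,0,-1,-1,0,0,1]),
  (false,[0,0,2,0,-1,0,0,1]),
  (true,[0,0,0,0,1,0,-2]),
  (true,[0,0,0,0,1,0,2]),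
  (false,[0,0,0,0,0,0,0,1,-1]),
  (false,[0,0,0,0,0,0,0,0,1]),
  (false,[0,0,0,0,1,0,0,-2]),
  (false,[0,0,0,0,0,-1,0,1]),
  (true,[0,0,0,0,0,1]),
  (true,[1,-1,1,-1]),
  (true,[0,1,-1]),
  (true,[0,1,0,1]),
  (true,[0,0,0,-1]),
  (true,[0,0,-2,0,1]),
  (true,[0,-2,0,0,1]),
  (true,[-1,0,1]),
  (true,[-1,1])]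

def t0 : Tre :=
  (.I [1,-1,-2,-1,1,0,-2] (.Q [0,0,3,0,-1,0,0,0,2] (.p true [0,0,2] [] (⟨0,[(20,1)]⟩,⟨0,[(4,0)]⟩)
  .k 0 (⟨0,[]⟩,⟨0,[]⟩) .k (.r 0 ⟨0,[(8,1),(3,0),(3,0)]⟩ ⟨0,[(17,0)]⟩)) (.Q [0,1,-2,0,1,0,-2,0,-2]
  (.p false [0,0,2] [] (⟨0,[(21,1)]⟩,⟨0,[(5,0)]⟩) .k 0 (⟨0,[]⟩,⟨0,[]⟩) .k (.r 0 ⟨0,[(9,1),(3,0),(3,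
  0)]⟩ ⟨0,[(18,0)]⟩)) (.K ⟨0,[0,0,2],(-1),(-1),(⟨0,[(22,1)]⟩,⟨0,[(6,0)]⟩),.k,(.r 0 ⟨1,[(10,3),(3,0),
  (3,0)]⟩ ⟨1,[(14,0),(3,0),(0,1)]⟩),(.r 0 ⟨1,[(10,3),(3,2),(3,2)]⟩ ⟨0,[(7,0)]⟩),.k,.k,[⟨15,[(0,1),
  (4,3),(0,9),(13,1),(2,6),(7,0)]⟩,⟨0,[(1,0)]⟩,⟨0,[(0,0)]⟩,⟨0,[(3,0),(24,0)]⟩]⟩) (.K ⟨0,[-1,1,1],0,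
  0,(⟨11,[(0,5),(1,7),(6,10),(0,3),(3,5),(8,2),(1,0),(1,13)]⟩,⟨0,[(21,0),(2,0)]⟩),(.x (-1) ⟨3,[(19,
  0),(0,0),(2,1),(0,3)]⟩ ⟨0,[(25,0)]⟩),.k,(.r 0 ⟨15,[(0,5),(5,6),(4,1),(2,13),(3,8),(1,0),(7,3)]⟩
  ⟨0,[(7,0),(2,0)]⟩),.k,.k,[⟨3,[(6,1),(11,1),(0,0),(0,0)]⟩,⟨11,[(0,4),(0,0),(0,1),(9,5),(4,3),(5,7),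
  (3,2)]⟩,⟨30,[(5,2),(0,6),(0,10),(5,10),(3,19),(2,0),(2,4)]⟩,⟨2,[(0,0),(10,0),(11,0),(4,2)]⟩]⟩))
  (.R ⟨0,false,false,false,[0,0,2],[0,1],[0,1,0,0,0,0,2],(⟨0,[(21,1)]⟩,⟨0,[(5,0)]⟩),(⟨0,[(24,0)]⟩,
  ⟨0,[(23,0)]⟩),⟨3,[(0,1),(4,1),(2,2),(13,0),(1,0)]⟩,.k,.k,(.r 0 ⟨0,[(0,0),(1,0)]⟩ ⟨1,[(13,0),(3,0),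
  (0,1)]⟩),(.r 0 ⟨0,[(0,0),(1,0)]⟩ ⟨1,[(13,0),(3,0),(0,1)]⟩),.k,.k,⟨false,0,⟨0,[(0,0),(1,0),(23,
  0)]⟩,⟨1,[(11,1),(6,0),(11,0)]⟩⟩,⟨true,1,⟨0,[(0,0)]⟩,⟨9,[(1,0),(0,9),(3,1),(4,13),(4,0),(0,4),(4,
  2)]⟩⟩,⟨true,0,⟨0,[(32,0)]⟩,⟨0,[]⟩⟩,⟨false,2,⟨1,[(0,1),(10,1),(6,0),(11,0)]⟩,⟨0,[(2,0)]⟩⟩,⟨false,0,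
  ⟨0,[]⟩,⟨0,[]⟩⟩,⟨false,0,⟨0,[]⟩,⟨0,[]⟩⟩,[.o ⟨false,1,⟨7,[(13,3),(4,0),(0,0),(2,1)]⟩,⟨0,[(28,0)]⟩⟩,
  .a ⟨true,1,⟨0,[(27,0),(2,0)]⟩,⟨0,[(16,0)]⟩⟩ ⟨true,0,⟨1,[(0,1),(1,1),(10,0),(3,0)]⟩,⟨1,[(1,0),(9,
  1),(4,0),(0,0),(4,0)]⟩⟩ ⟨false,2,⟨1,[(0,0),(3,0),(8,0),(16,0)]⟩,⟨2,[(1,0),(0,1),(7,0),(0,2),(4,2),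
  (4,0),(0,0)]⟩⟩,.o ⟨false,0,⟨2,[(1,0),(0,1),(7,0),(0,2),(9,0),(0,0)]⟩,⟨11,[(0,7),(4,3),(12,0),(0,
  0),(2,1)]⟩⟩,.o ⟨false,0,⟨1,[(2,1),(8,1),(6,0),(3,0)]⟩,⟨0,[(0,0)]⟩⟩]⟩)) (.Q [0,0,3,0,-1,0,3,-1,3]
  (.p true [0,0,1] [1,0,-2] (⟨0,[(20,0)]⟩,⟨0,[(19,0)]⟩) .k 2 (⟨0,[(4,0)]⟩,⟨0,[(20,1)]⟩) .k (.r 0 ⟨2,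
  [(0,1),(0,0),(1,0),(4,2),(3,0),(16,0)]⟩ ⟨0,[(5,0),(4,0)]⟩)) (.I [1,0,1,2] (.Q [0,0,0,0,0,2,0,-1]
  (.pp true [-1,1]) (.R ⟨0,false,false,false,[1,-1],[0,1],[0,1],(⟨0,[(25,0)]⟩,⟨0,[(26,0)]⟩),(⟨0,
  [(26,0)]⟩,⟨0,[(25,0)]⟩),⟨0,[(0,0)]⟩,.k,.k,(.r (-1) ⟨4,[(8,3),(2,5),(9,0)]⟩ ⟨0,[(15,0),(3,0)]⟩),
  (.r (-1) ⟨4,[(8,3),(2,5),(9,0)]⟩ ⟨0,[(15,0),(3,0)]⟩),.k,.k,⟨true,0,⟨4,[(8,0),(2,1),(6,1),(5,0),(3,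
  1),(5,0)]⟩,⟨0,[(1,0),(25,0)]⟩⟩,⟨false,2,⟨1,[(24,0),(6,2)]⟩,⟨0,[(19,0)]⟩⟩,⟨false,0,⟨0,[(16,0)]⟩,⟨5,
  [(5,3),(5,1),(9,0),(10,0)]⟩⟩,⟨true,1,⟨0,[(15,0)]⟩,⟨0,[(18,0),(11,0)]⟩⟩,⟨false,0,⟨0,[]⟩,⟨0,[]⟩⟩,
  ⟨false,0,⟨0,[]⟩,⟨0,[]⟩⟩,[.o ⟨false,1,⟨7,[(15,3),(4,0),(0,0),(2,1)]⟩,⟨0,[(30,0)]⟩⟩,.e ⟨false,1,⟨3,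
  [(20,0),(0,0),(9,1)]⟩,⟨0,[]⟩⟩ ⟨false,2,⟨1,[(0,0),(8,1),(5,0),(16,0)]⟩,⟨12,[(7,1),(0,1),(3,3),(5,
  9),(0,4),(7,0)]⟩⟩,.o ⟨false,0,⟨7,[(19,3),(0,0),(0,0),(2,1)]⟩,⟨1,[(24,0),(6,0)]⟩⟩,.a ⟨true,(-1),⟨0,
  [(19,0)]⟩,⟨0,[(31,0)]⟩⟩ ⟨true,0,⟨0,[(28,0)]⟩,⟨7,[(19,3),(0,0),(0,0),(2,1)]⟩⟩ ⟨false,2,⟨1,[(0,0),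
  (8,1),(5,0),(16,0)]⟩,⟨12,[(7,0),(0,0),(3,1),(5,4),(0,8),(7,6)]⟩⟩]⟩) (.I [1,-1,2,2] (.S ⟨1,0,[0,1,
  -1,-2],[1,-1],[0,0,-1,-2],(⟨0,[(26,0)]⟩,⟨0,[(27,0)]⟩),⟨0,[(1,0)]⟩,.k,(.r (-1) ⟨4,[(9,3),(2,5),(9,
  0)]⟩ ⟨2,[(0,1),(3,0),(16,0),(8,0)]⟩),⟨true,0,⟨0,[(31,0)]⟩,⟨0,[(30,0)]⟩⟩,⟨false,0,⟨0,[(31,0)]⟩,⟨7,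
  [(0,3),(20,0),(0,0),(9,3),(0,1)]⟩⟩,⟨false,1,⟨3,[(21,0),(0,0),(10,1)]⟩,⟨0,[]⟩⟩,⟨true,0,⟨0,[(35,
  0)]⟩,⟨0,[]⟩⟩,[.a ⟨true,(-1),⟨0,[(19,0),(11,0)]⟩,⟨0,[(0,0),(31,0)]⟩⟩ ⟨false,1,⟨4,[(9,3),(2,5),(9,
  0)]⟩,⟨0,[(2,0)]⟩⟩ ⟨true,0,⟨9,[(9,3),(2,5),(6,9),(2,0),(2,4)]⟩,⟨0,[(0,0)]⟩⟩,.o ⟨false,0,⟨0,[(31,
  1)]⟩,⟨0,[(16,0)]⟩⟩,.o ⟨false,0,⟨7,[(20,3),(0,0),(0,0),(2,1)]⟩,⟨1,[(25,0),(6,0)]⟩⟩,.e ⟨false,1,⟨0,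
  [(6,0),(5,0)]⟩,⟨2,[(0,1),(3,0),(16,0),(8,0)]⟩⟩ ⟨false,1,⟨4,[(9,3),(2,5),(9,0)]⟩,⟨0,[(0,0)]⟩⟩]⟩)
  (.S ⟨1,0,[0,0,-1,-2],[1,-1],[0,1,-1,-2],(⟨0,[(26,0)]⟩,⟨0,[(27,0)]⟩),⟨0,[(1,0)]⟩,.k,(.r (-1) ⟨2,
  [(0,1),(5,1),(15,0)]⟩ ⟨0,[(16,0),(3,0)]⟩),⟨false,0,⟨0,[(31,0)]⟩,⟨7,[(2,3),(18,0),(0,0),(9,1),(0,
  3)]⟩⟩,⟨true,0,⟨0,[(31,0)]⟩,⟨0,[(30,0)]⟩⟩,⟨true,0,⟨0,[(35,0)]⟩,⟨0,[]⟩⟩,⟨false,1,⟨3,[(21,0),(0,0),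
  (10,1)]⟩,⟨0,[]⟩⟩,[.o ⟨false,0,⟨8,[(0,4),(7,0),(0,0),(3,1),(6,0),(7,6)]⟩,⟨0,[(16,0)]⟩⟩,.e ⟨false,1,
  ⟨2,[(0,1),(5,1),(15,0)]⟩,⟨0,[(2,0)]⟩⟩ ⟨false,1,⟨0,[(0,0),(32,0)]⟩,⟨3,[(2,1),(1,0),(16,0),(8,2)]⟩⟩,
  .o ⟨false,0,⟨7,[(20,3),(0,0),(0,0),(2,1)]⟩,⟨1,[(25,0),(6,0)]⟩⟩,.a ⟨true,(-1),⟨0,[(20,0)]⟩,⟨0,[(32,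
  0)]⟩⟩ ⟨true,0,⟨0,[(0,0)]⟩,⟨0,[(16,0),(3,0)]⟩⟩ ⟨false,1,⟨0,[(0,0),(32,0)]⟩,⟨0,[(16,0),(3,
  0)]⟩⟩]⟩))) (.Q [0,0,3,0,-1,0,0,0,2] (.p true [0,0,2] [] (⟨0,[(22,1)]⟩,⟨0,[(6,0)]⟩) .k 0 (⟨0,[]⟩,
  ⟨0,[]⟩) .k (.r 0 ⟨14,[(1,3),(0,5),(2,5),(4,5),(12,0),(7,2)]⟩ ⟨0,[(19,0)]⟩)) (.Q [0,1,-2,0,1,0,-2,
  0,-2] (.p false [0,0,2] [] (⟨0,[(23,1)]⟩,⟨0,[(7,0)]⟩) .k 0 (⟨0,[]⟩,⟨0,[]⟩) .k (.r 0 ⟨14,[(2,3),(0,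
  5),(2,5),(4,5),(12,0),(7,2)]⟩ ⟨0,[(20,0)]⟩)) (.K ⟨0,[0,0,2],(-1),(-1),(⟨0,[(24,1)]⟩,⟨0,[(8,0)]⟩),
  .k,(.r 0 ⟨29,[(3,3),(0,5),(2,5),(4,35),(12,0),(7,2)]⟩ ⟨1,[(16,0),(3,0),(0,1)]⟩),(.r 0 ⟨33,[(3,7),
  (0,19),(2,11),(8,6),(3,2),(1,1),(10,9)]⟩ ⟨0,[(9,0)]⟩),.k,.k,[⟨15,[(0,1),(6,3),(0,9),(13,1),(2,6),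
  (7,0)]⟩,⟨0,[(1,0)]⟩,⟨0,[(0,0)]⟩,⟨0,[(5,0),(24,0)]⟩]⟩) (.R ⟨2,false,false,false,[0,1],[0,0,2],[0,0,
  1],(⟨0,[]⟩,⟨0,[]⟩),(⟨0,[(24,1)]⟩,⟨0,[(8,0)]⟩),⟨0,[]⟩,.k,.k,.k,(.r (-1) ⟨1,[(16,0),(3,0),(0,1)]⟩
  ⟨11,[(0,1),(3,1),(2,1),(4,13),(9,0),(2,0)]⟩),.k,.k,⟨true,0,⟨0,[(2,0),(11,1)]⟩,⟨5,[(0,1),(3,1),(2,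
  1),(4,1),(9,0),(2,0)]⟩⟩,⟨false,(-1),⟨0,[(0,0),(1,0),(11,1),(14,0)]⟩,⟨3,[(7,3),(13,0),(0,0),(2,
  1)]⟩⟩,⟨true,0,⟨0,[(31,0)]⟩,⟨0,[(30,0)]⟩⟩,⟨false,(-1),⟨3,[(0,2),(1,0),(2,0),(22,0)]⟩,⟨1,[(7,1),(6,
  1),(6,0),(3,0)]⟩⟩,⟨false,1,⟨3,[(21,0),(0,0),(10,1)]⟩,⟨0,[]⟩⟩,⟨false,(-1),⟨0,[(0,0)]⟩,⟨5,[(7,3),(0,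
  1),(0,1),(4,1),(6,2),(3,2)]⟩⟩,[.a ⟨true,(-1),⟨1,[(0,0),(4,0),(24,0)]⟩,⟨0,[(2,0),(4,0),(6,1)]⟩⟩
  ⟨true,0,⟨7,[(20,3),(0,0),(0,0),(2,1)]⟩,⟨0,[]⟩⟩ ⟨false,(-1),⟨1,[(0,0),(4,0),(24,0)]⟩,⟨1,[(2,0),(3,
  0),(0,1),(6,2),(10,0),(3,0)]⟩⟩,.e ⟨false,1,⟨3,[(21,0),(0,0),(10,1)]⟩,⟨0,[(29,0)]⟩⟩ ⟨false,(-1),⟨0,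
  [(0,0)]⟩,⟨3,[(7,1),(7,3),(5,1),(3,2),(6,0)]⟩⟩,.o ⟨false,1,⟨1,[(25,0),(6,0)]⟩,⟨7,[(20,3),(0,0),(0,
  0),(2,1)]⟩⟩,.fo]⟩)) (.R ⟨2,true,false,true,[0,1],[1,0,-2],[1,1,1,1],(⟨0,[]⟩,⟨0,[]⟩),(⟨0,[(7,0)]⟩,
  ⟨0,[(23,1)]⟩),⟨0,[]⟩,.k,.k,.k,(.r 0 ⟨33,[(2,7),(0,19),(2,11),(8,6),(3,2),(1,1),(10,9)]⟩ ⟨0,[(8,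
  0)]⟩),.k,.k,⟨false,0,⟨0,[(0,1),(1,0),(10,0),(5,0),(3,0)]⟩,⟨0,[(8,0)]⟩⟩,⟨true,0,⟨0,[(0,0),(18,0)]⟩,
  ⟨8,[(1,2),(0,4),(5,2),(4,8),(9,2),(0,1)]⟩⟩,⟨false,0,⟨0,[]⟩,⟨3,[(20,0),(0,0),(10,1)]⟩⟩,⟨true,0,⟨0,
  [(0,0),(0,0),(11,1),(4,0)]⟩,⟨19,[(2,11),(12,9),(3,1),(0,0),(0,2),(1,3)]⟩⟩,⟨true,0,⟨0,[(29,0)]⟩,⟨0,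
  [(30,0)]⟩⟩,⟨false,1,⟨2,[(0,1),(4,1),(7,1),(0,1),(4,0)]⟩,⟨5,[(2,3),(21,0),(7,2)]⟩⟩,[]⟩))) (.Q [0,0,
  0,0,0,-1,0,1,-1] (.ed true [0,1,1] .k) (.K ⟨0,[0,1,1],0,0,(⟨0,[(22,0),(2,0)]⟩,⟨0,[(0,0)]⟩),(.x
  (-1) ⟨3,[(19,0),(0,0),(2,1),(0,3)]⟩ ⟨0,[(25,0)]⟩),.k,(.r 0 ⟨1,[(2,0),(11,0),(3,0),(9,0),(2,0)]⟩
  ⟨0,[(7,0),(2,0)]⟩),.k,.k,[⟨1,[(6,0),(11,0),(4,0)]⟩,⟨5,[(3,1),(10,0),(3,0),(0,1),(2,1)]⟩,⟨2,[(1,0),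
  (15,2),(5,1)]⟩,⟨11,[(3,3),(10,1),(3,1),(0,0),(0,2),(1,3),(5,11)]⟩]⟩) (.Q [0,0,-2,0,0,0,0,2,-3]
  (.p false [0,0,2] [2,-1,-1] (⟨0,[(22,1)]⟩,⟨0,[(6,0)]⟩) .k 2 (⟨0,[(21,0),(2,0)]⟩,⟨0,[(0,0)]⟩) (.r
  (-1) ⟨4,[(7,3),(2,0),(9,0)]⟩ ⟨1,[(2,0),(25,0),(2,0)]⟩) (.r 0 ⟨2,[(2,1),(0,0),(1,0),(4,2),(3,0),
  (16,0)]⟩ ⟨0,[(7,0),(4,0)]⟩)) (.R ⟨0,false,false,true,[1,0,-1],[0,1],[1,1,1,1],(⟨0,[(22,0)]⟩,⟨0,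
  [(23,0)]⟩),(⟨0,[(26,0)]⟩,⟨0,[(25,0)]⟩),⟨0,[(1,0)]⟩,.k,.k,(.x 0 ⟨0,[(26,0)]⟩ ⟨3,[(20,0),(0,0),(2,
  1),(0,3)]⟩),(.x 0 ⟨0,[(26,0)]⟩ ⟨3,[(20,0),(0,0),(2,1),(0,3)]⟩),.k,.k,⟨true,0,⟨0,[]⟩,⟨7,[(19,3),(0,
  0),(0,0),(2,1)]⟩⟩,⟨false,1,⟨5,[(1,3),(7,3),(2,1),(7,0),(11,0)]⟩,⟨0,[(22,0)]⟩⟩,⟨false,0,⟨25,[(0,3),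
  (2,5),(0,5),(10,12),(3,4),(1,0),(10,2)]⟩,⟨0,[(5,0)]⟩⟩,⟨true,0,⟨1,[(3,0),(19,1),(0,0),(4,0)]⟩,⟨11,
  [(0,0),(1,2),(2,2),(12,6),(8,1),(4,0)]⟩⟩,⟨false,0,⟨0,[]⟩,⟨0,[]⟩⟩,⟨false,0,⟨0,[]⟩,⟨0,[]⟩⟩,[.a
  ⟨true,0,⟨0,[(29,0)]⟩,⟨0,[(18,0),(13,0)]⟩⟩ ⟨false,0,⟨0,[(29,0)]⟩,⟨5,[(5,3),(5,1),(9,0),(10,0)]⟩⟩
  ⟨true,0,⟨4,[(1,2),(1,1),(0,0),(4,2),(3,5),(4,1),(5,1),(3,0)]⟩,⟨2,[(0,0),(17,0),(8,1),(4,0)]⟩⟩,.o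
  ⟨false,1,⟨7,[(15,3),(4,0),(0,0),(2,1)]⟩,⟨0,[(30,0)]⟩⟩,.a ⟨true,0,⟨1,[(0,0),(22,0)]⟩,⟨5,[(4,1),(10,
  0),(3,0),(0,1),(2,1)]⟩⟩ ⟨false,0,⟨0,[(17,0)]⟩,⟨5,[(5,3),(5,1),(9,0),(10,0)]⟩⟩ ⟨true,0,⟨4,[(1,2),
  (1,1),(0,0),(4,2),(3,5),(4,1),(5,1),(3,0)]⟩,⟨21,[(0,7),(3,0),(0,5),(5,1),(6,5),(2,0),(8,6)]⟩⟩,.a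
  ⟨true,0,⟨0,[(22,0)]⟩,⟨0,[(23,0)]⟩⟩ ⟨true,0,⟨0,[(29,0)]⟩,⟨0,[(30,0)]⟩⟩ ⟨false,1,⟨2,[(1,0),(2,0),(4,
  0),(5,1),(4,0)]⟩,⟨2,[(0,0),(17,0),(8,1),(4,0)]⟩⟩]⟩) (.K ⟨0,[0,0,2],(-1),(-1),(⟨0,[(23,1)]⟩,⟨0,[(7,
  0)]⟩),.k,(.r 0 ⟨8,[(3,1),(0,0),(1,0),(4,11),(3,0),(16,0)]⟩ ⟨1,[(15,0),(3,0),(0,1)]⟩),(.r 0 ⟨2,[(3,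
  1),(0,0),(1,0),(8,0),(16,0)]⟩ ⟨0,[(8,0)]⟩),.k,.k,[⟨14,[(2,1),(3,2),(0,8),(13,2),(2,6)]⟩,⟨1,[(0,0),
  (18,1),(3,0)]⟩,⟨2,[(2,0),(11,2),(9,1)]⟩,⟨0,[(4,0),(24,0)]⟩]⟩)))))

def t1 : Tre :=
  (.Q [0,1,1,0,0,0,1,-1,1] (.p true [0,0,1] [1] (⟨0,[(10,0)]⟩,⟨0,[(9,0)]⟩) .k 1 (⟨0,[]⟩,⟨0,[]⟩) .k
  .k) (.I [0,0,1,1,0,0,-1] (.K ⟨0,[1,0,-1],0,0,(⟨0,[(11,0)]⟩,⟨0,[(12,0)]⟩),.k,(.x 0 ⟨0,[(15,0)]⟩ ⟨3,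
  [(9,0),(0,0),(2,1),(0,3)]⟩),(.r 0 ⟨0,[(0,0)]⟩ ⟨1,[(10,0),(8,1),(0,0)]⟩),.k,.k,[⟨0,[(8,0),(3,0),(0,
  0)]⟩,⟨0,[(11,0)]⟩,⟨0,[(1,0)]⟩,⟨0,[(3,0)]⟩]⟩) (.I [0,0,-2,0,1,-1] (.K ⟨0,[1,0,-1],0,0,(⟨0,[(12,
  0)]⟩,⟨0,[(13,0)]⟩),.k,(.x 0 ⟨0,[(16,0)]⟩ ⟨3,[(10,0),(0,0),(2,1),(0,3)]⟩),(.x (-1) ⟨0,[(0,0)]⟩ ⟨3,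
  [(9,3),(0,0),(0,0),(2,1),(1,3)]⟩),.k,.k,[⟨0,[(9,0),(3,0),(0,0)]⟩,⟨0,[(12,0)]⟩,⟨0,[(2,0)]⟩,⟨0,[(4,
  0)]⟩]⟩) (.I [0,0,2,0,-1,1] (.K ⟨0,[1,0,-1],0,0,(⟨0,[(13,0)]⟩,⟨0,[(14,0)]⟩),.k,(.x 0 ⟨0,[(17,0)]⟩
  ⟨3,[(11,0),(0,0),(2,1),(0,3)]⟩),(.x (-2) ⟨3,[(11,0),(0,0),(2,1),(0,3),(5,3)]⟩ ⟨0,[(0,0)]⟩),.k,.k,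
  [⟨0,[(10,0),(3,0),(0,0)]⟩,⟨0,[(13,0)]⟩,⟨0,[(3,0)]⟩,⟨0,[(5,0)]⟩]⟩) (.I [0,0,-1,-1,1,0,-2] (.Q [0,0,
  0,0,0,0,0,1,-2] (.ed true [0,0,2] (.r 0 ⟨0,[(3,1),(3,0),(3,0)]⟩ ⟨0,[(12,0)]⟩)) (.Q [0,0,-3,0,1,0,
  0,1,-2] (.p false [0,0,1] [1,0,-1] (⟨0,[(16,0)]⟩,⟨0,[(15,0)]⟩) .k 2 (⟨0,[(15,0)]⟩,⟨0,[(16,0)]⟩)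
  .k (.r 0 ⟨0,[(4,1),(3,0),(3,0)]⟩ ⟨0,[(13,0)]⟩)) (.I [0,-1,-1,-1,1,0,-1] (.Q [0,0,2,-1,-1,0,2,0,2]
  (.p true [0,0,2] [] (⟨0,[(18,1)]⟩,⟨0,[(2,0)]⟩) .k 0 (⟨0,[]⟩,⟨0,[]⟩) .k (.r 0 ⟨0,[(6,1),(3,0),(3,
  0)]⟩ ⟨0,[(15,0)]⟩)) t0 (.K ⟨0,[1,0,-2],0,0,(⟨0,[(3,0)]⟩,⟨0,[(19,1)]⟩),.k,(.r (-1) ⟨0,[(4,0)]⟩ ⟨1,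
  [(7,3),(3,2),(3,2)]⟩),(.r (-1) ⟨1,[(11,0),(3,0),(0,1)]⟩ ⟨1,[(7,3),(3,0),(3,0)]⟩),.k,.k,[⟨0,[(8,0),
  (0,0),(9,0),(3,0)]⟩,⟨1,[(0,1),(6,3),(3,0),(3,2)]⟩,⟨5,[(7,1),(0,7),(2,0),(3,2),(1,0),(1,3),(8,0)]⟩,
  ⟨0,[(0,0),(13,0)]⟩]⟩)) (.K ⟨0,[0,1,1],0,(-1),(⟨0,[(18,0),(2,0)]⟩,⟨1,[(0,1),(0,0),(2,1),(3,1),(4,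
  0),(8,2)]⟩),(.x (-1) ⟨3,[(15,0),(0,0),(2,1),(0,3)]⟩ ⟨0,[(21,0)]⟩),.k,(.r 0 ⟨3,[(0,1),(9,2),(3,2),
  (1,0),(10,0)]⟩ ⟨0,[(3,0),(2,0)]⟩),.k,.k,[⟨1,[(2,0),(11,0),(4,0)]⟩,⟨5,[(7,1),(6,1),(0,0),(2,3),(8,
  0)]⟩,⟨6,[(2,1),(0,3),(5,2),(3,2),(2,1),(2,3),(9,0)]⟩,⟨0,[(0,0),(17,0)]⟩]⟩)) (.K ⟨0,[1,0,-2],1,1,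
  (⟨0,[(1,0)]⟩,⟨0,[(17,1)]⟩),.k,(.r (-1) ⟨0,[(2,0)]⟩ ⟨1,[(5,3),(3,2),(3,2)]⟩),(.r (-1) ⟨1,[(9,0),(3,
  0),(0,1)]⟩ ⟨1,[(5,3),(3,0),(3,0)]⟩),.k,.k,[⟨0,[(0,0)]⟩,⟨3,[(1,3),(12,0),(0,0),(9,1)]⟩,⟨1,[(0,1),
  (4,3),(3,0),(3,0),(9,1)]⟩,⟨1,[(8,3),(9,0),(7,0)]⟩]⟩)) (.Q [0,0,3,0,-1,0,0,-1,2] (.p true [0,0,1]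
  [1,0,-1] (⟨0,[(16,0)]⟩,⟨0,[(15,0)]⟩) .k 2 (⟨0,[(15,0)]⟩,⟨0,[(16,0)]⟩) .k (.r 0 ⟨0,[(4,1),(3,0),(3,
  0)]⟩ ⟨0,[(13,0)]⟩)) (.K ⟨0,[-1,0,2],(-1),(-1),(⟨0,[(1,0)]⟩,⟨0,[(16,1)]⟩),.k,(.r 0 ⟨1,[(5,3),(3,0),
  (3,0)]⟩ ⟨1,[(9,0),(3,0),(0,1)]⟩),(.r 0 ⟨1,[(5,3),(3,2),(3,2)]⟩ ⟨0,[(2,0)]⟩),.k,.k,[⟨1,[(16,3),(1,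
  0),(6,0)]⟩,⟨0,[(0,0)]⟩,⟨1,[(8,3),(9,0),(7,0)]⟩,⟨1,[(0,1),(4,3),(3,0),(3,0),(9,1)]⟩]⟩) (.K ⟨0,[-1,
  1,1],0,0,(⟨3,[(0,1),(0,3),(2,2),(13,0),(1,0)]⟩,⟨0,[(16,0),(2,0)]⟩),(.x (-1) ⟨3,[(14,0),(0,0),(2,
  1),(0,3)]⟩ ⟨0,[(20,0)]⟩),.k,(.r 0 ⟨1,[(5,1),(3,2),(3,2)]⟩ ⟨0,[(2,0),(2,0)]⟩),.k,.k,[⟨7,[(13,3),(0,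
  0),(0,0),(0,7),(1,1)]⟩,⟨1,[(1,0),(11,0),(4,0)]⟩,⟨0,[(8,0),(15,0)]⟩,⟨1,[(1,0),(3,1),(3,0),(3,1),(4,
  0),(4,1)]⟩]⟩))) (.K ⟨0,[0,1,1],0,(-1),(⟨0,[(15,0),(2,0)]⟩,⟨4,[(0,3),(0,3),(3,2),(0,4),(3,0),(5,0),
  (0,0),(1,5)]⟩),(.x (-1) ⟨3,[(12,0),(0,0),(2,1),(0,3)]⟩ ⟨0,[(18,0)]⟩),.k,(.x (-1) ⟨4,[(0,1),(0,6),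
  (3,3),(4,2),(5,2),(0,2),(1,2)]⟩ ⟨3,[(2,1),(9,0),(0,0),(4,5)]⟩),.k,.k,[⟨4,[(0,1),(4,0),(0,2),(4,0),
  (2,1),(1,2),(2,2)]⟩,⟨5,[(4,1),(6,1),(0,0),(2,3),(8,0)]⟩,⟨3,[(6,3),(5,0),(0,0),(2,1),(5,3)]⟩,⟨7,
  [(0,5),(3,0),(0,4),(4,2),(4,6),(0,0),(3,3)]⟩]⟩))))) (.I [1,0,1,0,0,0,1] (.R ⟨2,false,false,true,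
  [0,1],[0,0,1],[0,0,1],(⟨0,[]⟩,⟨0,[]⟩),(⟨0,[(12,0)]⟩,⟨0,[(11,0)]⟩),⟨0,[]⟩,.k,.k,.k,(.r 0 ⟨0,[(1,0),
  (3,0),(2,0),(3,0),(0,0),(3,0)]⟩ ⟨1,[(10,0),(8,1),(0,0)]⟩),.k,.k,⟨true,0,⟨0,[(1,0),(6,0),(3,0),(0,
  0)]⟩,⟨0,[(0,0),(16,0)]⟩⟩,⟨false,0,⟨7,[(8,3),(0,0),(0,0),(1,7),(0,1)]⟩,⟨1,[(1,1),(8,0),(2,0),(3,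
  1)]⟩⟩,⟨true,0,⟨0,[(19,0)]⟩,⟨0,[(18,0)]⟩⟩,⟨false,0,⟨3,[(0,1),(6,1),(2,0),(1,3),(0,0),(2,1)]⟩,⟨3,
  [(1,2),(1,0),(0,1),(8,0),(7,0)]⟩⟩,⟨false,1,⟨3,[(9,0),(0,0),(10,1)]⟩,⟨0,[]⟩⟩,⟨false,0,⟨0,[(0,0),
  (11,0)]⟩,⟨1,[(1,0),(1,0),(9,0),(7,0)]⟩⟩,[.a ⟨true,0,⟨0,[(0,0),(11,0),(10,0)]⟩,⟨0,[(1,0)]⟩⟩ ⟨true,
  0,⟨7,[(8,3),(0,0),(0,0),(2,1)]⟩,⟨0,[]⟩⟩ ⟨false,0,⟨0,[(0,0),(11,0),(10,0)]⟩,⟨1,[(1,1),(11,0),(6,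
  0)]⟩⟩,.e ⟨false,1,⟨3,[(9,0),(0,0),(10,1)]⟩,⟨0,[(17,0)]⟩⟩ ⟨false,0,⟨0,[(0,0),(11,0)]⟩,⟨1,[(1,0),(1,
  0),(9,0),(6,0)]⟩⟩,.o ⟨false,1,⟨1,[(13,0),(6,0)]⟩,⟨7,[(8,3),(0,0),(0,0),(2,1)]⟩⟩,.fo]⟩) (.Q [0,0,
  -1,0,0,0,-1,0,-1] (.p false [0,0,1] [] (⟨0,[(12,0)]⟩,⟨0,[(11,0)]⟩) .k 0 (⟨0,[]⟩,⟨0,[]⟩) .k .k)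
  (.I [1,1,0,0,0,0,1] (.R ⟨2,true,false,true,[0,1],[0,0,1],[0,0,1],(⟨0,[]⟩,⟨0,[]⟩),(⟨0,[(14,0)]⟩,⟨0,
  [(13,0)]⟩),⟨0,[]⟩,.k,.k,.k,(.r 0 ⟨0,[(2,0),(4,0),(16,0)]⟩ ⟨1,[(12,0),(8,1),(0,0)]⟩),.k,.k,⟨true,0,
  ⟨1,[(2,1),(7,1),(4,0),(7,0)]⟩,⟨0,[(0,0)]⟩⟩,⟨false,0,⟨7,[(10,3),(0,0),(0,0),(1,7),(0,1)]⟩,⟨1,[(1,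
  1),(10,0),(9,0)]⟩⟩,⟨true,0,⟨0,[(21,0)]⟩,⟨0,[(20,0)]⟩⟩,⟨false,0,⟨0,[(0,0),(13,0),(3,0)]⟩,⟨3,[(3,2),
  (1,0),(0,1),(8,0),(7,0)]⟩⟩,⟨false,1,⟨3,[(11,0),(0,0),(10,1)]⟩,⟨0,[]⟩⟩,⟨true,0,⟨7,[(0,7),(9,3),(0,
  0),(0,0),(1,7),(0,1)]⟩,⟨0,[(1,0)]⟩⟩,[]⟩) (.Q [0,0,1,-1,0,0,1,0,1] (.p true [0,0,1] [] (⟨0,[(14,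
  0)]⟩,⟨0,[(13,0)]⟩) .k 0 (⟨0,[]⟩,⟨0,[]⟩) .k .k) (.R ⟨2,true,false,true,[0,1],[0,0,1],[1,0,1,1],(⟨0,
  []⟩,⟨0,[]⟩),(⟨0,[(15,0)]⟩,⟨0,[(14,0)]⟩),⟨0,[]⟩,.k,.k,.k,(.r 0 ⟨1,[(1,3),(6,1),(2,1),(1,0),(2,0),
  (3,3)]⟩ ⟨1,[(13,0),(8,1),(0,0)]⟩),.k,.k,⟨true,0,⟨1,[(1,1),(5,0),(3,0)]⟩,⟨1,[(10,1),(2,0),(2,0)]⟩⟩,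
  ⟨false,0,⟨1,[(0,0),(4,0),(9,0)]⟩,⟨1,[(2,1),(10,0),(9,0)]⟩⟩,⟨true,0,⟨0,[]⟩,⟨0,[(26,0)]⟩⟩,⟨false,0,
  ⟨0,[(0,0)]⟩,⟨3,[(4,2),(1,0),(0,1),(8,0),(7,0)]⟩⟩,⟨false,1,⟨0,[(21,0),(2,0)]⟩,⟨0,[(22,0)]⟩⟩,⟨true,
  0,⟨0,[(0,0),(20,0)]⟩,⟨0,[(2,0)]⟩⟩,[]⟩) (.K ⟨0,[1,0,-1],0,(-1),(⟨0,[(14,0)]⟩,⟨0,[(15,0)]⟩),.k,(.x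
  0 ⟨0,[(18,0)]⟩ ⟨3,[(12,0),(0,0),(2,1),(0,3)]⟩),(.r 0 ⟨1,[(1,3),(6,1),(2,1),(1,0),(2,0),(3,3)]⟩ ⟨1,
  [(13,0),(8,1),(0,0)]⟩),.k,.k,[⟨0,[(11,0),(3,0),(0,0)]⟩,⟨0,[(14,0)]⟩,⟨7,[(11,3),(0,0),(0,4),(1,7),
  (0,5),(9,7)]⟩,⟨0,[(0,0),(9,0)]⟩]⟩))) (.I [1,-1,0,0,0,0,-1] (.R ⟨2,false,false,true,[0,1],[0,0,1],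
  [0,1,1,0,0,0,1],(⟨0,[]⟩,⟨0,[]⟩),(⟨0,[(14,0)]⟩,⟨0,[(13,0)]⟩),⟨0,[]⟩,.k,.k,.k,(.r 0 ⟨0,[(2,0),(4,0),
  (16,0)]⟩ ⟨1,[(12,0),(8,1),(0,0)]⟩),.k,.k,⟨true,0,⟨7,[(10,3),(0,0),(0,0),(2,1)]⟩,⟨0,[]⟩⟩,⟨false,0,
  ⟨5,[(1,1),(8,1),(0,0),(2,3),(0,0)]⟩,⟨1,[(3,1),(8,0),(2,0),(3,1)]⟩⟩,⟨true,0,⟨1,[(9,1),(2,0),(2,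
  0)]⟩,⟨0,[(0,0),(19,0)]⟩⟩,⟨false,0,⟨0,[(1,0),(19,0)]⟩,⟨3,[(3,2),(1,0),(0,1),(8,0),(7,0)]⟩⟩,⟨false,
  1,⟨3,[(11,0),(0,2)]⟩,⟨0,[(0,0)]⟩⟩,⟨false,0,⟨0,[(1,0)]⟩,⟨1,[(3,0),(1,0),(9,0),(7,0)]⟩⟩,[.a ⟨true,0,
  ⟨0,[(1,0),(23,0)]⟩,⟨0,[(3,0)]⟩⟩ ⟨true,0,⟨1,[(9,0),(0,0),(1,0),(2,0),(4,0)]⟩,⟨0,[(0,0)]⟩⟩ ⟨false,0,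
  ⟨0,[(1,0),(23,0)]⟩,⟨1,[(3,1),(11,0),(6,0)]⟩⟩,.e ⟨false,1,⟨3,[(11,0),(0,2)]⟩,⟨0,[(2,0)]⟩⟩ ⟨false,0,
  ⟨0,[(1,0)]⟩,⟨1,[(3,0),(1,0),(9,0),(6,0)]⟩⟩,.o ⟨false,1,⟨1,[(15,0),(6,0)]⟩,⟨7,[(10,3),(0,0),(0,0),
  (2,1)]⟩⟩,.fo]⟩) (.R ⟨2,false,false,true,[0,1],[0,0,1],[0,0,1],(⟨0,[]⟩,⟨0,[]⟩),(⟨0,[(14,0)]⟩,⟨0,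
  [(13,0)]⟩),⟨0,[]⟩,.k,.k,.k,(.r 0 ⟨0,[(0,0),(1,1),(4,1),(10,0)]⟩ ⟨1,[(12,0),(8,1),(0,0)]⟩),.k,.k,
  ⟨true,0,⟨1,[(2,1),(7,1),(4,0),(7,0)]⟩,⟨0,[(0,0)]⟩⟩,⟨false,0,⟨5,[(1,1),(8,1),(0,0),(2,3),(0,0)]⟩,
  ⟨1,[(0,1),(2,1),(11,0),(6,0)]⟩⟩,⟨true,0,⟨0,[(21,0)]⟩,⟨0,[(20,0)]⟩⟩,⟨false,0,⟨0,[(1,0),(19,0)]⟩,⟨3,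
  [(3,2),(1,0),(0,1),(8,0),(7,0)]⟩⟩,⟨false,1,⟨3,[(11,0),(0,0),(10,1)]⟩,⟨0,[]⟩⟩,⟨false,0,⟨0,[(1,0)]⟩,
  ⟨1,[(3,0),(1,0),(9,0),(7,0)]⟩⟩,[.a ⟨true,0,⟨0,[(1,0),(23,0)]⟩,⟨0,[(3,0)]⟩⟩ ⟨true,0,⟨7,[(10,3),(0,
  0),(0,0),(2,1)]⟩,⟨0,[]⟩⟩ ⟨false,0,⟨0,[(1,0),(23,0)]⟩,⟨1,[(3,1),(11,0),(6,0)]⟩⟩,.e ⟨false,1,⟨3,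
  [(11,0),(0,0),(10,1)]⟩,⟨0,[(19,0)]⟩⟩ ⟨false,0,⟨0,[(1,0)]⟩,⟨1,[(3,0),(1,0),(9,0),(6,0)]⟩⟩,.o
  ⟨false,1,⟨1,[(15,0),(6,0)]⟩,⟨7,[(10,3),(0,0),(0,0),(2,1)]⟩⟩,.fo]⟩)))))

def t2 : Tre :=
  (.I [0,0,-1,-1,0,0,1] (.Q [0,1,1,0,-1,0,1,-1,1] (.p true [0,0,1] [1] (⟨0,[(11,0)]⟩,⟨0,[(10,0)]⟩)
  .k 1 (⟨0,[]⟩,⟨0,[]⟩) .k .k) (.K ⟨0,[1,0,-1],0,1,(⟨0,[(11,0)]⟩,⟨0,[(12,0)]⟩),.k,(.x 0 ⟨0,[(15,0)]⟩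
  ⟨3,[(9,0),(0,0),(2,1),(0,3)]⟩),(.r (-1) ⟨3,[(4,1),(3,1),(0,2),(0,0)]⟩ ⟨0,[(1,0)]⟩),.k,.k,[⟨7,[(0,
  3),(2,3),(4,3),(0,4),(0,0),(2,1)]⟩,⟨0,[(11,0)]⟩,⟨0,[(0,0)]⟩,⟨1,[(9,0),(1,1),(8,0),(2,1)]⟩]⟩) (.R
  ⟨2,false,false,false,[0,1],[1,0,-1],[0,0,1],(⟨0,[]⟩,⟨0,[]⟩),(⟨0,[(11,0)]⟩,⟨0,[(12,0)]⟩),⟨0,[]⟩,.k,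
  .k,.k,(.x (-1) ⟨3,[(9,0),(0,0),(2,1),(0,3)]⟩ ⟨0,[(15,0)]⟩),.k,.k,⟨false,0,⟨13,[(1,7),(0,3),(5,1),
  (1,0),(0,3),(1,0),(4,3)]⟩,⟨1,[(9,0),(10,0)]⟩⟩,⟨true,0,⟨0,[(11,0)]⟩,⟨1,[(2,1),(4,1),(1,0),(3,0)]⟩⟩,
  ⟨true,0,⟨0,[(19,0)]⟩,⟨0,[(18,0)]⟩⟩,⟨false,1,⟨0,[(0,0),(18,0)]⟩,⟨0,[(3,0),(14,0)]⟩⟩,⟨false,1,⟨3,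
  [(9,0),(0,0),(10,1)]⟩,⟨0,[]⟩⟩,⟨false,1,⟨0,[(0,0)]⟩,⟨0,[(3,0),(19,0)]⟩⟩,[.a ⟨true,1,⟨1,[(9,0),(1,
  1),(8,0)]⟩,⟨0,[(2,0),(4,0)]⟩⟩ ⟨true,0,⟨7,[(8,3),(0,0),(0,0),(2,1)]⟩,⟨0,[]⟩⟩ ⟨false,1,⟨1,[(9,0),(1,
  1),(8,0)]⟩,⟨0,[(3,0),(13,0)]⟩⟩,.e ⟨false,1,⟨3,[(9,0),(0,0),(10,1)]⟩,⟨0,[(17,0)]⟩⟩ ⟨false,1,⟨0,[(0,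
  0)]⟩,⟨0,[(3,0),(13,0),(5,0)]⟩⟩,.o ⟨false,1,⟨1,[(13,0),(6,0)]⟩,⟨7,[(8,3),(0,0),(0,0),(2,1)]⟩⟩,
  .fo]⟩)) (.I [0,0,2,0,-1,1] (.K ⟨0,[0,0,1],(-1),(-1),(⟨0,[(12,0)]⟩,⟨0,[(11,0)]⟩),.k,(.x 1 ⟨0,[(0,
  0)]⟩ ⟨3,[(9,0),(0,0),(2,1),(0,3),(5,3)]⟩),(.x (-1) ⟨3,[(9,0),(0,0),(2,1),(0,3)]⟩ ⟨0,[(15,0)]⟩),.k,
  .k,[⟨3,[(9,0),(0,0),(0,3),(1,1)]⟩,⟨0,[(1,0),(1,0),(3,0)]⟩,⟨1,[(9,0),(1,1),(1,0),(3,1)]⟩,⟨0,[(3,0),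
  (3,0),(10,0)]⟩]⟩) (.I [0,0,-2,0,1,-1] (.K ⟨0,[0,0,1],(-1),(-1),(⟨0,[(13,0)]⟩,⟨0,[(12,0)]⟩),.k,(.x
  0 ⟨3,[(9,3),(0,0),(0,0),(2,1),(1,3)]⟩ ⟨0,[(0,0)]⟩),(.x (-1) ⟨3,[(10,0),(0,0),(2,1),(0,3)]⟩ ⟨0,
  [(16,0)]⟩),.k,.k,[⟨3,[(10,0),(0,0),(0,3),(1,1)]⟩,⟨0,[(2,0),(1,0),(3,0)]⟩,⟨1,[(10,0),(1,1),(1,0),
  (3,1)]⟩,⟨0,[(4,0),(3,0),(10,0)]⟩]⟩) (.I [0,0,1,1,0,0,-1] (.K ⟨0,[0,0,1],(-1),(-1),(⟨0,[(14,0)]⟩,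
  ⟨0,[(13,0)]⟩),.k,(.r (-1) ⟨1,[(12,0),(8,1),(0,0)]⟩ ⟨0,[(0,0)]⟩),(.x (-1) ⟨3,[(11,0),(0,0),(2,1),
  (0,3)]⟩ ⟨0,[(17,0)]⟩),.k,.k,[⟨3,[(11,0),(0,0),(0,3),(1,1)]⟩,⟨0,[(0,0),(4,0),(3,0)]⟩,⟨1,[(11,0),(1,
  1),(1,0),(3,1)]⟩,⟨0,[(5,0),(3,0),(10,0)]⟩]⟩) (.I [1,0,-1,0,1,0,-2] (.R ⟨0,false,false,true,[1,0,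
  -1],[2,0,-2],[1,1,0,0,0,0,-2],(⟨0,[(14,0)]⟩,⟨0,[(15,0)]⟩),(⟨0,[(14,1)]⟩,⟨0,[(0,0),(4,0),(0,0),(3,
  0),(9,0)]⟩),⟨0,[(0,0),(0,0),(0,0),(2,0),(14,0)]⟩,.k,.k,(.x 0 ⟨0,[(18,0)]⟩ ⟨3,[(12,0),(0,0),(2,1),
  (0,3)]⟩),.k,.k,.k,⟨true,0,⟨0,[]⟩,⟨7,[(11,3),(0,0),(0,0),(2,1)]⟩⟩,⟨false,1,⟨0,[(14,0),(8,0)]⟩,⟨1,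
  [(4,0),(1,0),(3,0),(4,0),(0,0)]⟩⟩,⟨true,0,⟨2,[(0,0),(3,0),(5,1),(5,0),(4,0)]⟩,⟨13,[(1,7),(3,3),(5,
  1),(1,0),(0,3),(1,0),(4,3)]⟩⟩,⟨false,1,⟨1,[(12,0),(1,1),(8,0)]⟩,⟨0,[(6,0)]⟩⟩,⟨false,0,⟨0,[]⟩,⟨0,
  []⟩⟩,⟨false,0,⟨0,[]⟩,⟨0,[]⟩⟩,[.e ⟨false,1,⟨0,[(0,0),(25,0)]⟩,⟨0,[(1,0),(3,0),(8,0)]⟩⟩ ⟨false,1,⟨0,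
  [(0,0),(13,0),(5,0)]⟩,⟨5,[(1,3),(3,3),(0,1),(4,1),(1,0),(2,0)]⟩⟩,.o ⟨false,2,⟨1,[(0,1),(13,3),(1,
  0),(6,0)]⟩,⟨0,[(5,1),(4,1),(5,0)]⟩⟩,.o ⟨false,1,⟨1,[(14,1),(1,0),(6,0)]⟩,⟨1,[(4,0),(1,0),(3,0),(4,
  0),(0,0)]⟩⟩,.a ⟨true,0,⟨0,[(14,0)]⟩,⟨0,[(15,0)]⟩⟩ ⟨false,1,⟨0,[(0,0)]⟩,⟨5,[(1,3),(3,3),(0,1),(4,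
  1),(1,0),(0,5),(1,0)]⟩⟩ ⟨true,1,⟨0,[(0,0),(13,0),(5,0)]⟩,⟨0,[(5,1),(4,1),(3,0),(1,0)]⟩⟩]⟩) (.Q [0,
  -1,-1,-1,1,0,0,-1,1] (.p true [0,0,1] [1] (⟨0,[(15,0)]⟩,⟨0,[(14,0)]⟩) .k 1 (⟨0,[]⟩,⟨0,[]⟩) .k .k)
  (.Q [0,1,-1,-2,0,0,-1,1,-1] (.p false [0,0,1] [1] (⟨0,[(16,0)]⟩,⟨0,[(15,0)]⟩) .k 1 (⟨0,[]⟩,⟨0,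
  []⟩) .k .k) (.R ⟨1,true,false,false,[1,-1],[0,0,1],[1,0,-1,-1],(⟨0,[(19,0)]⟩,⟨0,[(20,0)]⟩),(⟨0,
  [(17,0)]⟩,⟨0,[(16,0)]⟩),⟨0,[(2,0),(2,1),(0,1),(5,0),(8,0)]⟩,.k,.k,(.r (-1) ⟨6,[(0,3),(0,3),(1,1),
  (11,0),(9,1)]⟩ ⟨0,[(9,0),(3,0)]⟩),(.x 0 ⟨0,[(20,0)]⟩ ⟨3,[(14,0),(0,0),(2,1),(0,3)]⟩),(.x 0 ⟨3,[(4,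
  1),(9,0),(0,0),(4,5)]⟩ ⟨1,[(2,0),(2,2),(0,1),(5,0),(5,0),(0,0),(1,0)]⟩),.k,⟨true,1,⟨11,[(0,3),(0,
  3),(12,4),(0,0),(9,1)]⟩,⟨0,[(2,0),(3,0)]⟩⟩,⟨false,1,⟨0,[(1,0),(21,0)]⟩,⟨0,[(16,0)]⟩⟩,⟨true,0,⟨0,
  []⟩,⟨0,[(28,0)]⟩⟩,⟨false,0,⟨0,[(7,0)]⟩,⟨7,[(0,3),(13,2),(0,0),(0,3),(8,1),(0,1)]⟩⟩,⟨false,1,⟨0,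
  [(23,0),(2,0)]⟩,⟨0,[(24,0)]⟩⟩,⟨true,0,⟨0,[(7,0),(15,0)]⟩,⟨0,[(0,0)]⟩⟩,[]⟩) (.Q [0,0,0,0,0,1,0,-2,
  2] (.p true [-1,0,2] [1] (⟨3,[(0,2),(0,3),(4,2),(5,4),(4,0),(0,0),(3,1)]⟩,⟨0,[(16,1)]⟩) .k 1 (⟨0,
  []⟩,⟨0,[]⟩) .k (.r 0 ⟨2,[(2,1),(12,0),(9,0)]⟩ ⟨0,[(14,0)]⟩)) (.R ⟨1,false,false,false,[2,-1,-1],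
  [1,0,-1],[1,0,-1,-1,0,0,-1],(⟨0,[(17,0),(2,0)]⟩,⟨1,[(0,0),(20,0)]⟩),(⟨0,[(17,0)]⟩,⟨0,[(18,0)]⟩),
  ⟨0,[(3,0),(2,1),(0,1),(5,0),(3,0),(4,0)]⟩,(.x 0 ⟨0,[(21,0)]⟩ ⟨3,[(15,0),(0,0),(2,1),(0,3)]⟩),.k,
  (.x 0 ⟨3,[(5,1),(9,0),(0,0),(4,5)]⟩ ⟨1,[(3,0),(2,2),(0,1),(5,0),(5,0),(0,0),(1,0)]⟩),.k,(.r (-1)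
  ⟨0,[(4,1),(10,0)]⟩ ⟨0,[(10,0),(3,0)]⟩),.k,⟨false,1,⟨1,[(4,1),(10,0),(10,0)]⟩,⟨0,[(11,0)]⟩⟩,⟨true,
  1,⟨1,[(19,0),(6,0)]⟩,⟨0,[(14,0)]⟩⟩,⟨true,0,⟨0,[]⟩,⟨0,[(29,0)]⟩⟩,⟨true,1,⟨7,[(10,3),(4,0),(0,0),(2,
  1)]⟩,⟨0,[(13,0)]⟩⟩,⟨false,1,⟨0,[(24,0),(2,0)]⟩,⟨0,[(25,0)]⟩⟩,⟨true,1,⟨0,[(10,0)]⟩,⟨0,[(13,0),(11,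
  0)]⟩⟩,[.a ⟨true,1,⟨1,[(15,0),(1,1),(8,0)]⟩,⟨1,[(1,0),(7,0),(3,1)]⟩⟩ ⟨true,1,⟨0,[(4,0),(10,0)]⟩,⟨0,
  [(3,0),(3,0)]⟩⟩ ⟨false,2,⟨1,[(15,0),(3,0),(6,1)]⟩,⟨5,[(1,1),(1,1),(9,3),(0,0),(2,2),(0,0),(8,
  0)]⟩⟩,.o ⟨false,2,⟨1,[(15,0),(1,1),(1,0),(6,0),(0,0)]⟩,⟨0,[(1,0),(11,1),(5,0)]⟩⟩,.o ⟨false,0,⟨0,
  [(17,0)]⟩,⟨7,[(0,3),(14,0),(0,0),(2,5),(0,3)]⟩⟩,.o ⟨false,0,⟨7,[(14,3),(0,0),(0,0),(0,7),(1,1)]⟩,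
  ⟨1,[(0,0),(5,0),(12,0)]⟩⟩]⟩) (.Q [0,0,0,0,0,1,0,-1,1] (.ed false [0,1,1] .k) (.Q [0,-1,-3,0,3,0,
  -3,2,-3] (.p false [0,0,1] [2,0,-2] (⟨0,[(19,0)]⟩,⟨0,[(18,0)]⟩) .k 2 (⟨0,[(18,1)]⟩,⟨2,[(0,0),(1,
  1),(0,1),(3,0),(0,1),(5,3),(4,0),(0,0)]⟩) .k (.x 1 ⟨1,[(4,0),(3,1),(5,0),(0,0),(4,0),(2,0)]⟩ ⟨3,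
  [(16,0),(0,0),(9,5)]⟩)) (.R ⟨0,false,false,false,[-1,1,1],[0,1],[1,0,1],(⟨0,[(1,0)]⟩,⟨0,[(19,0),
  (2,0)]⟩),(⟨0,[(23,0)]⟩,⟨0,[(22,0)]⟩),⟨0,[(19,0)]⟩,(.x (-1) ⟨3,[(17,0),(0,0),(2,1),(0,3)]⟩ ⟨0,[(23,
  0)]⟩),.k,.k,.k,.k,.k,⟨true,0,⟨0,[(27,0)]⟩,⟨0,[(13,0)]⟩⟩,⟨false,1,⟨0,[(19,0),(8,0)]⟩,⟨1,[(9,0),(1,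
  0),(3,0),(4,0),(0,0)]⟩⟩,⟨false,1,⟨67,[(0,7),(3,23),(10,3),(0,3),(0,24),(0,2),(5,39)]⟩,⟨2,[(3,0),
  (1,0),(13,0),(6,0),(1,0)]⟩⟩,⟨true,1,⟨31,[(0,11),(14,5),(0,1),(0,0),(0,2),(1,3),(5,5)]⟩,⟨0,[(3,0),
  (11,1),(5,0)]⟩⟩,⟨false,0,⟨0,[]⟩,⟨0,[]⟩⟩,⟨false,0,⟨0,[]⟩,⟨0,[]⟩⟩,[.o ⟨false,1,⟨7,[(12,3),(4,0),(0,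
  0),(2,1)]⟩,⟨0,[(27,0)]⟩⟩,.e ⟨false,1,⟨3,[(17,0),(0,0),(10,1)]⟩,⟨0,[(25,0)]⟩⟩ ⟨false,1,⟨1,[(0,0),
  (2,1),(2,0),(8,0),(3,0)]⟩,⟨0,[(15,0),(4,0),(0,0)]⟩⟩,.o ⟨false,1,⟨0,[(20,0),(0,0)]⟩,⟨0,[(19,0)]⟩⟩,
  .a ⟨true,0,⟨1,[(9,0),(1,0),(3,0),(4,0),(0,0)]⟩,⟨1,[(0,0),(2,1),(2,0),(8,2),(3,0)]⟩⟩ ⟨true,0,⟨0,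
  []⟩,⟨0,[(31,0)]⟩⟩ ⟨false,1,⟨1,[(0,0),(2,1),(2,0),(8,0),(3,0)]⟩,⟨1,[(11,1),(3,1),(1,0),(3,0)]⟩⟩]⟩)
  (.K ⟨0,[-1,1,1],0,(-1),(⟨0,[(1,0)]⟩,⟨0,[(19,0),(2,0)]⟩),(.x (-1) ⟨3,[(17,0),(0,0),(2,1),(0,3)]⟩
  ⟨0,[(23,0)]⟩),.k,(.x (-1) ⟨7,[(0,1),(1,2),(5,8),(0,1),(7,1),(3,2),(0,3),(1,1)]⟩ ⟨3,[(7,1),(9,0),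
  (0,0),(4,5)]⟩),.k,.k,[⟨3,[(2,1),(4,1),(9,0),(0,0)]⟩,⟨15,[(0,3),(10,3),(5,8),(0,0),(2,1)]⟩,⟨0,[(6,
  0),(10,0),(1,0),(11,0)]⟩,⟨5,[(0,1),(1,0),(0,1),(3,0),(1,1),(11,0),(3,5)]⟩]⟩)) (.K ⟨0,[0,1,1],0,
  (-1),(⟨0,[(19,0),(2,0)]⟩,⟨0,[(0,0)]⟩),(.x (-1) ⟨3,[(16,0),(0,0),(2,1),(0,3)]⟩ ⟨0,[(22,0)]⟩),.k,
  (.r 1 ⟨0,[(0,0),(1,0),(3,0),(17,0)]⟩ ⟨3,[(5,7),(10,6),(0,0)]⟩),.k,.k,[⟨1,[(1,0),(4,0),(13,0)]⟩,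
  ⟨11,[(10,3),(4,3),(0,2),(0,0),(1,7),(10,3)]⟩,⟨3,[(5,1),(8,1),(1,2),(1,3),(1,2),(3,1)]⟩,⟨1,[(2,0),
  (7,0),(3,1),(10,1)]⟩]⟩)))) (.K ⟨0,[0,1,1],0,(-1),(⟨0,[(16,0),(2,0)]⟩,⟨0,[(0,0),(3,0),(15,0)]⟩),
  (.x (-1) ⟨3,[(13,0),(0,0),(2,1),(0,3)]⟩ ⟨0,[(19,0)]⟩),.k,(.r 1 ⟨0,[(0,0),(5,0)]⟩ ⟨3,[(2,7),(10,6),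
  (0,0)]⟩),.k,.k,[⟨1,[(0,0),(14,0),(1,0),(2,0)]⟩,⟨11,[(7,3),(4,3),(0,2),(0,0),(1,7),(10,3)]⟩,⟨3,[(2,
  1),(8,1),(1,2),(1,3),(1,2),(3,1)]⟩,⟨0,[(6,0),(4,0),(10,0)]⟩]⟩)))))))

def tree : Tre :=
  (.I [1,0,1,1] (.I [1,0,-1,-1] (.N [0,1] 0 ⟨0,[(1,0)]⟩ ⟨0,[(0,0)]⟩ .k) (.Q [0,0,0,-2,-1,0,0,1]
  (.pp false [-1,1]) (.R ⟨2,true,false,true,[0,1],[1,-1],[1,0,1,1],(⟨0,[]⟩,⟨0,[]⟩),(⟨0,[(10,0)]⟩,⟨0,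
  [(11,0)]⟩),⟨0,[]⟩,.k,.k,.k,(.r 0 ⟨0,[(1,1)]⟩ ⟨3,[(0,3),(4,0),(0,0),(2,1),(6,3)]⟩),.k,.k,⟨false,1,
  ⟨0,[(2,0),(11,0),(2,0)]⟩,⟨1,[(0,1),(8,0),(3,1),(2,0)]⟩⟩,⟨true,(-1),⟨0,[(4,0)]⟩,⟨1,[(9,0),(6,0)]⟩⟩,
  ⟨true,0,⟨0,[]⟩,⟨0,[(19,0)]⟩⟩,⟨false,(-1),⟨0,[(0,0)]⟩,⟨1,[(9,0),(4,3),(2,2)]⟩⟩,⟨false,1,⟨0,[(14,0),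
  (2,0)]⟩,⟨0,[(15,0)]⟩⟩,⟨true,(-1),⟨0,[(3,0)]⟩,⟨1,[(9,0),(4,1),(2,0)]⟩⟩,[]⟩) (.Q [0,1,-1,0,0,0,-1,1,
  -1] (.p false [0,0,1] [1] (⟨0,[(8,0)]⟩,⟨0,[(7,0)]⟩) .k 1 (⟨0,[]⟩,⟨0,[]⟩) .k .k) (.I [0,0,-1,-1,0,
  0,1] (.K ⟨0,[1,0,-1],0,0,(⟨0,[(9,0)]⟩,⟨0,[(10,0)]⟩),.k,(.x 0 ⟨0,[(13,0)]⟩ ⟨3,[(7,0),(0,0),(2,1),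
  (0,3)]⟩),(.r (-1) ⟨3,[(2,1),(3,1),(0,2),(0,0)]⟩ ⟨0,[(0,0)]⟩),.k,.k,[⟨0,[(6,0),(3,0),(0,0)]⟩,⟨0,
  [(9,0)]⟩,⟨0,[(0,0),(5,0),(3,0),(0,0),(4,0)]⟩,⟨0,[(1,0)]⟩]⟩) t1) (.Q [0,1,-1,-1,0,0,-1,1,-1] (.p
  false [0,0,1] [1] (⟨0,[(9,0)]⟩,⟨0,[(8,0)]⟩) .k 1 (⟨0,[]⟩,⟨0,[]⟩) .k .k) (.Q [0,0,1,0,0,0,0,-1,1]
  (.p true [0,0,1] [1] (⟨0,[(10,0)]⟩,⟨0,[(9,0)]⟩) .k 1 (⟨0,[]⟩,⟨0,[]⟩) .k .k) (.R ⟨2,true,false,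
  true,[0,1],[1,0,-1],[0,1,1],(⟨0,[]⟩,⟨0,[]⟩),(⟨0,[(10,0)]⟩,⟨0,[(11,0)]⟩),⟨0,[]⟩,.k,.k,.k,(.x (-1)
  ⟨3,[(8,0),(0,0),(2,1),(0,3)]⟩ ⟨0,[(14,0)]⟩),.k,.k,⟨false,0,⟨0,[(2,0),(7,0),(5,0)]⟩,⟨1,[(8,0),(10,
  0)]⟩⟩,⟨true,0,⟨0,[(10,0)]⟩,⟨0,[(0,0)]⟩⟩,⟨false,0,⟨0,[(18,0)]⟩,⟨0,[(17,0),(2,0)]⟩⟩,⟨true,0,⟨0,[(1,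
  0)]⟩,⟨0,[(2,0),(14,0)]⟩⟩,⟨true,0,⟨0,[(22,0)]⟩,⟨0,[]⟩⟩,⟨false,1,⟨1,[(8,0),(1,1),(8,0)]⟩,⟨0,[(2,
  0)]⟩⟩,[]⟩) (.R ⟨2,true,false,false,[0,1],[0,0,1],[0,1,1],(⟨0,[]⟩,⟨0,[]⟩),(⟨0,[(11,0)]⟩,⟨0,[(10,
  0)]⟩),⟨0,[]⟩,.k,.k,.k,(.r (-1) ⟨3,[(3,1),(3,1),(0,2),(0,0)]⟩ ⟨1,[(0,1),(1,1),(3,1),(5,0),(6,0)]⟩),
  .k,.k,⟨true,0,⟨1,[(6,0),(0,0),(0,0),(3,0),(4,0)]⟩,⟨0,[(0,0),(1,0)]⟩⟩,⟨false,0,⟨11,[(2,3),(4,3),(0,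
  2),(0,0),(1,7),(10,3)]⟩,⟨1,[(0,1),(11,0),(6,0)]⟩⟩,⟨false,0,⟨0,[(18,0)]⟩,⟨0,[(17,0),(2,0)]⟩⟩,⟨true,
  (-1),⟨0,[(2,0),(3,0)]⟩,⟨0,[(1,0),(1,0)]⟩⟩,⟨true,0,⟨0,[(22,0)]⟩,⟨0,[]⟩⟩,⟨false,0,⟨5,[(0,1),(1,3),
  (4,1),(1,0),(1,3),(8,0)]⟩,⟨1,[(0,1),(7,0),(3,0)]⟩⟩,[]⟩)) t2)))) (.R ⟨2,true,false,false,[0,1],[1,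
  -1],[0,1],(⟨0,[]⟩,⟨0,[]⟩),(⟨0,[(8,0)]⟩,⟨0,[(9,0)]⟩),⟨0,[]⟩,.k,.k,.k,(.r (-1) ⟨3,[(2,3),(0,0),(0,
  0),(2,1),(4,7),(2,3)]⟩ ⟨0,[(0,1)]⟩),.k,.k,⟨false,0,⟨0,[(12,0)]⟩,⟨3,[(0,3),(2,0),(0,0),(10,1)]⟩⟩,
  ⟨true,(-1),⟨0,[(2,0)]⟩,⟨1,[(7,0),(6,0)]⟩⟩,⟨false,0,⟨0,[(0,0)]⟩,⟨7,[(2,3),(0,0),(0,0),(2,1),(4,7),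
  (2,7)]⟩⟩,⟨true,(-1),⟨0,[(0,1),(1,0)]⟩,⟨1,[(7,0),(4,3),(2,0)]⟩⟩,⟨true,0,⟨0,[(11,0)]⟩,⟨7,[(2,3),(0,
  0),(0,0),(2,1)]⟩⟩,⟨false,0,⟨0,[(1,0),(13,0)]⟩,⟨1,[(7,0),(4,1),(2,0)]⟩⟩,[]⟩))

theorem ok : chk (cPU 1 true) tree base = true := by
  decide +kernel

theorem closed {p a b c J l q : ℤ} {D dl : ℝ} {Cl : ℤ → ℤ → ℤ → ℤ → ℝ → Prop}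
    (W : World p a b c J 1 l q D dl Cl) (hE : KEmp p a b 1 (P1 l p) Cl)
    (g : G0 p a b c J D)
    {N R : ℤ} {I : ℝ} (hu : UFac p b D Cl N R I)
    (s0 : (c : ℝ) + 1 ≤ 0)
    (s1 : (b : ℝ) + 1 ≤ a)
    (s2 : (a : ℝ) ≤ b - c)
    (s3 : p - D < 2 * b)
    (s4 : -(a : ℝ) < D - c - p) : False := by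
  have g1 := g.a2
  have g2 := g.b2
  have g3 := g.pa
  have g4 := g.pb
  have g5 := g.J1
  have g6 := g.JD
  have g7 := g.D2
  have g8 := g.ca
  have g9 := g.ca'
  have t1 := TF.ofU hu
  have i1 := t1.I0
  have i2 := t1.ID
  have i3 := t1.R1
  have i4 := t1.R2
  refine (val_PU W.toBase (UV.ofU hu)).sound W rfl (Nk := 0) (fun kf hkf hh => ?_) (kok_B hE (by simp [xv]) (by simp [xv]) 0) ?_ ok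
  · simp only [cPU, kfB, List.mem_cons, List.not_mem_nil, or_false] at hkf
    subst hkf
    exact absurd hh (by norm_num)
  · simp only [base, List.forall_mem_cons, List.not_mem_nil, false_imp_iff, implies_true,
      and_true, hld, xv, evg_cons, evg_nil, List.map_cons, List.map_nil, List.cons_append,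
      List.nil_append, if_true, if_false, Bool.false_eq_true]
    push_cast
    refine ⟨?_, ?_, ?_, ?_, ?_, ?_, ?_, ?_, ?_, ?_, ?_, ?_, ?_, ?_, ?_, ?_, ?_⟩ <;> linarith

end Helper25.KG.Pm1_2_1_1_u
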