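import Pool.Agent.Helper25.KG.PL

set_option autoImplicit false
set_option linter.unusedVariables false

namespace Helper25.KG.Pm1_2_1_1_v

open Helper11.CT Helper25.KW Helper25.KG

def base : List Con :=
  [(false,[0,1,0,-1,-1,0,0,1]),
  (false,[0,0,2,0,-1,0,0,1]),
  (true,[0,0,0,0,1,0,-2]),
  (true,[0,0,0,0,1,0,2]),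
  (false,[0,0,0,0,0,0,0,1,-2]),
  (false,[0,0,0,0,0,0,0,0,1]),
  (false,[0,0,0,0,1,0,0,-2]),
  (false,[0,0,0,0,0,-1,0,1]),
  (true,[0,0,0,0,0,1]),
  (true,[1,-1,1,-1]),
  (true,[0,1,-1]),
  (true,[0,1,0,1]),
  (true,[0,0,0,-1]),
  (true,[0,0,-2,0,1]),
  (true,[0,-2,0,0,1]),
  (true,[-1,0,1]),
  (true,[-1,1])]

def t0 : Tre :=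
  (.I [0,0,-1,-1,0,0,1] (.Q [0,0,1,0,0,0,0,-1,1] (.p true [0,0,1] [1] (⟨0,[(8,0)]⟩,⟨1,[(4,0),(2,0),
  (8,0)]⟩) .k 1 (⟨0,[]⟩,⟨0,[]⟩) .k .k) (.K ⟨0,[1,0,-1],0,0,(⟨1,[(5,0),(2,0),(8,0)]⟩,⟨0,[(9,0)]⟩),.k,
  (.r (-1) ⟨0,[(1,0),(4,0)]⟩ ⟨0,[(1,0),(1,1)]⟩),(.r (-1) ⟨3,[(3,3),(2,2),(0,0)]⟩ ⟨0,[(1,0)]⟩),.k,.k,
  [⟨0,[(0,0)]⟩,⟨3,[(5,1),(0,0),(0,0),(0,1)]⟩,⟨0,[(0,0),(0,0),(13,0)]⟩,⟨1,[(4,0),(1,0),(1,0),(6,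
  0)]⟩]⟩) (.Q [0,1,0,0,0,0,-1,0,-1] (.p false [0,0,1] [] (⟨0,[(9,0)]⟩,⟨7,[(0,3),(4,1),(0,0),(0,0),
  (0,1)]⟩) .k 0 (⟨0,[]⟩,⟨0,[]⟩) .k .k) (.K ⟨0,[0,0,1],0,0,(⟨0,[(10,0)]⟩,⟨7,[(1,3),(4,1),(0,0),(0,0),
  (0,1)]⟩),.k,(.r 0 ⟨0,[(2,0)]⟩ ⟨3,[(4,3),(2,2),(0,0)]⟩),(.r 0 ⟨0,[(2,0),(1,1)]⟩ ⟨0,[(2,0),(4,0)]⟩),
  .k,.k,[⟨1,[(6,0),(2,0),(1,0)]⟩,⟨7,[(6,3),(0,0),(0,0),(1,7),(0,1)]⟩,⟨0,[(0,0)]⟩,⟨3,[(2,1),(2,0),(0,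
  0),(1,0),(1,3),(0,0),(4,2)]⟩]⟩) (.Q [0,0,0,0,0,0,-1,1,-1] (.p false [0,0,1] [1] (⟨0,[(10,0)]⟩,⟨7,
  [(1,3),(4,1),(0,0),(0,0),(0,1)]⟩) .k 1 (⟨0,[]⟩,⟨0,[]⟩) .k .k) (.I [0,1,0,0,0,0,-1] (.R ⟨2,false,
  false,true,[0,1],[1,0,-1],[0,0,1],(⟨0,[]⟩,⟨0,[]⟩),(⟨5,[(1,1),(1,1),(4,0),(1,0),(0,0)]⟩,⟨0,[(12,
  0)]⟩),⟨0,[]⟩,.k,.k,.k,(.r 0 ⟨0,[(4,0),(1,1)]⟩ ⟨0,[(4,0),(4,0)]⟩),.k,.k,⟨true,0,⟨1,[(2,1),(5,0),(2,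
  0),(1,0)]⟩,⟨0,[(0,0)]⟩⟩,⟨false,0,⟨5,[(1,1),(1,1),(4,0),(1,0),(0,0)]⟩,⟨1,[(12,1),(0,0),(6,0)]⟩⟩,
  ⟨true,0,⟨0,[(19,0)]⟩,⟨0,[(18,0)]⟩⟩,⟨false,0,⟨0,[(1,0),(17,0)]⟩,⟨1,[(2,1),(10,0),(4,1),(2,0)]⟩⟩,
  ⟨false,1,⟨3,[(9,0),(0,0),(10,1)]⟩,⟨0,[]⟩⟩,⟨false,0,⟨0,[(1,0)]⟩,⟨3,[(2,1),(7,0),(1,1),(0,1),(7,
  0)]⟩⟩,[.a ⟨true,0,⟨0,[(1,0),(21,0)]⟩,⟨0,[(2,0)]⟩⟩ ⟨true,0,⟨7,[(8,3),(0,0),(0,0),(2,1)]⟩,⟨0,[]⟩⟩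
  ⟨false,0,⟨0,[(1,0),(21,0)]⟩,⟨1,[(2,1),(10,0),(6,0)]⟩⟩,.e ⟨false,1,⟨3,[(9,0),(0,0),(10,1)]⟩,⟨0,
  [(17,0)]⟩⟩ ⟨false,0,⟨0,[(1,0)]⟩,⟨3,[(2,1),(7,0),(1,1),(0,1),(3,1),(2,0)]⟩⟩,.o ⟨false,1,⟨1,[(13,0),
  (6,0)]⟩,⟨7,[(8,3),(0,0),(0,0),(2,1)]⟩⟩,.fo]⟩) (.R ⟨2,false,false,true,[0,1],[1,0,-1],[0,1,1,0,0,0,
  -1],(⟨0,[]⟩,⟨0,[]⟩),(⟨5,[(1,1),(1,1),(4,0),(1,0),(0,0)]⟩,⟨0,[(12,0)]⟩),⟨0,[]⟩,.k,.k,.k,(.r 0 ⟨5,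
  [(0,3),(5,1),(1,1),(1,0),(2,0),(4,3)]⟩ ⟨0,[(4,0),(4,0)]⟩),.k,.k,⟨true,0,⟨7,[(8,3),(0,0),(0,0),(2,
  1)]⟩,⟨0,[]⟩⟩,⟨false,0,⟨5,[(1,1),(1,1),(4,0),(1,0),(0,0)]⟩,⟨1,[(12,1),(0,0),(6,0)]⟩⟩,⟨true,0,⟨1,
  [(7,1),(1,0),(3,0)]⟩,⟨0,[(0,0),(17,0)]⟩⟩,⟨false,0,⟨0,[(1,0),(17,0)]⟩,⟨1,[(2,1),(10,0),(4,1),(2,
  0)]⟩⟩,⟨false,1,⟨3,[(9,2),(0,0)]⟩,⟨0,[(0,0)]⟩⟩,⟨false,0,⟨0,[(1,0)]⟩,⟨3,[(2,1),(7,0),(1,1),(0,1),(7,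
  0)]⟩⟩,[.a ⟨true,0,⟨0,[(1,0),(21,0)]⟩,⟨0,[(2,0)]⟩⟩ ⟨true,0,⟨1,[(7,0),(0,0),(0,0),(3,0),(4,0)]⟩,⟨0,
  [(0,0)]⟩⟩ ⟨false,0,⟨0,[(1,0),(21,0)]⟩,⟨1,[(2,1),(10,0),(6,0)]⟩⟩,.e ⟨false,1,⟨3,[(9,2),(0,0)]⟩,⟨0,
  [(0,0),(16,0)]⟩⟩ ⟨false,0,⟨0,[(1,0)]⟩,⟨3,[(2,1),(7,0),(1,1),(0,1),(3,1),(2,0)]⟩⟩,.o ⟨false,1,⟨1,
  [(13,0),(6,0)]⟩,⟨7,[(8,3),(0,0),(0,0),(2,1)]⟩⟩,.fo]⟩)) (.I [1,1,0,0,0,0,-1] (.R ⟨2,true,false,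
  true,[0,1],[1,0,-1],[0,0,1],(⟨0,[]⟩,⟨0,[]⟩),(⟨7,[(3,3),(4,1),(0,0),(0,0),(0,1)]⟩,⟨0,[(12,0)]⟩),⟨0,
  []⟩,.k,.k,.k,(.r 0 ⟨7,[(1,3),(0,1),(3,5),(1,0),(1,0),(0,2),(6,1)]⟩ ⟨0,[(4,0),(4,0)]⟩),.k,.k,⟨true,
  0,⟨1,[(1,1),(6,0),(2,0),(9,0)]⟩,⟨0,[(0,0)]⟩⟩,⟨false,0,⟨7,[(3,3),(4,1),(0,0),(0,0),(0,1)]⟩,⟨1,[(1,
  1),(7,0),(10,0)]⟩⟩,⟨true,0,⟨0,[(19,0)]⟩,⟨0,[(18,0)]⟩⟩,⟨false,0,⟨0,[(0,0),(2,0),(12,0)]⟩,⟨0,[(1,0),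
  (16,0),(2,0)]⟩⟩,⟨false,1,⟨3,[(9,0),(0,0),(10,1)]⟩,⟨0,[]⟩⟩,⟨true,0,⟨1,[(7,0),(1,0),(1,0),(6,0)]⟩,
  ⟨0,[(1,0)]⟩⟩,[]⟩) (.Q [0,0,0,-1,0,0,-1,1,-1] (.p false [0,0,1] [1] (⟨0,[(12,0)]⟩,⟨7,[(3,3),(4,1),
  (0,0),(0,0),(0,1)]⟩) .k 1 (⟨0,[]⟩,⟨0,[]⟩) .k .k) (.R ⟨2,true,false,true,[0,1],[1,0,-1],[1,0,1,1],
  (⟨0,[]⟩,⟨0,[]⟩),(⟨7,[(4,3),(4,1),(0,0),(0,0),(0,1)]⟩,⟨0,[(13,0)]⟩),⟨0,[]⟩,.k,.k,.k,(.r 0 ⟨5,[(1,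
  1),(0,1),(4,3),(1,0),(1,0),(0,0),(6,1)]⟩ ⟨0,[(5,0),(4,0)]⟩),.k,.k,⟨true,0,⟨0,[(1,0),(5,0)]⟩,⟨1,
  [(8,1),(1,0),(3,0)]⟩⟩,⟨false,0,⟨7,[(4,3),(4,1),(0,0),(0,0),(0,1)]⟩,⟨1,[(2,1),(7,0),(10,0)]⟩⟩,
  ⟨true,0,⟨0,[]⟩,⟨0,[(24,0)]⟩⟩,⟨false,0,⟨0,[(0,0)]⟩,⟨0,[(2,0),(16,0),(2,0)]⟩⟩,⟨false,1,⟨0,[(19,0),
  (2,0)]⟩,⟨0,[(20,0)]⟩⟩,⟨true,0,⟨0,[(0,0),(18,0)]⟩,⟨0,[(2,0)]⟩⟩,[]⟩) (.K ⟨0,[0,0,1],0,(-1),(⟨0,[(13,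
  0)]⟩,⟨7,[(4,3),(4,1),(0,0),(0,0),(0,1)]⟩),.k,(.r 0 ⟨0,[(5,0)]⟩ ⟨3,[(7,3),(2,2),(0,0)]⟩),(.r 0 ⟨3,
  [(0,1),(6,1),(1,0),(1,0),(0,0)]⟩ ⟨0,[(5,0),(4,0)]⟩),.k,.k,[⟨1,[(9,0),(2,0),(1,0)]⟩,⟨7,[(2,3),(6,
  3),(0,2),(0,0),(1,3)]⟩,⟨7,[(10,4),(0,0),(0,3),(1,1),(9,7)]⟩,⟨0,[(0,0),(7,0)]⟩]⟩)))))) (.Q [0,0,0,
  2,1,0,0,-1] (.pp true [-1,1]) (.Q [0,1,0,0,0,0,1,0,1] (.p true [0,0,1] [] (⟨0,[(9,0)]⟩,⟨1,[(5,0),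
  (2,0),(8,0)]⟩) .k 0 (⟨0,[]⟩,⟨0,[]⟩) .k .k) (.I [1,0,0,0,0,0,-1] (.K ⟨0,[0,0,1],0,0,(⟨0,[(11,0)]⟩,
  ⟨1,[(7,0),(2,0),(8,0)]⟩),.k,(.r (-1) ⟨1,[(9,0),(8,1),(0,0)]⟩ ⟨0,[(0,0),(3,0)]⟩),(.x (-1) ⟨1,[(12,
  0),(0,1),(5,0)]⟩ ⟨7,[(7,3),(0,0),(0,0),(2,1),(1,7)]⟩),.k,.k,[⟨1,[(7,0),(2,0),(1,0)]⟩,⟨7,[(1,1),(5,
  3),(0,0),(2,5),(0,1),(7,0)]⟩,⟨1,[(0,1),(5,0),(3,0),(1,0),(4,0)]⟩,⟨0,[(1,0)]⟩]⟩) (.Q [0,1,0,0,0,0,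
  -1,0,-1] (.p false [0,0,1] [] (⟨0,[(11,0)]⟩,⟨1,[(7,0),(2,0),(8,0)]⟩) .k 0 (⟨0,[]⟩,⟨0,[]⟩) .k .k)
  (.K ⟨0,[0,0,1],0,0,(⟨0,[(12,0)]⟩,⟨1,[(8,0),(2,0),(8,0)]⟩),.k,(.x 0 ⟨7,[(8,3),(0,0),(0,0),(2,1),(1,
  7)]⟩ ⟨1,[(13,0),(0,1),(5,0)]⟩),(.r 0 ⟨1,[(1,1),(1,0),(4,0)]⟩ ⟨1,[(9,0),(9,1),(0,0)]⟩),.k,.k,[⟨1,
  [(8,0),(2,0),(1,0)]⟩,⟨7,[(2,1),(5,3),(0,0),(2,5),(0,1),(7,0)]⟩,⟨0,[(0,0)]⟩,⟨0,[(2,0)]⟩]⟩) (.K ⟨0,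
  [1,0,-1],0,0,(⟨1,[(8,0),(2,0),(8,0)]⟩,⟨0,[(12,0)]⟩),.k,(.r (-1) ⟨1,[(9,0),(9,1),(0,0)]⟩ ⟨1,[(1,1),
  (1,0),(4,0)]⟩),(.x (-1) ⟨1,[(13,0),(0,1),(5,0)]⟩ ⟨7,[(8,3),(0,0),(0,0),(2,1),(1,7)]⟩),.k,.k,[⟨0,
  [(0,0),(3,0),(2,0),(5,0)]⟩,⟨3,[(8,1),(0,0),(0,0),(0,1)]⟩,⟨0,[(0,0),(6,0),(5,0),(4,0)]⟩,⟨1,[(7,0),
  (1,0),(1,0),(6,0)]⟩]⟩))) (.R ⟨2,true,false,false,[0,1],[1,0,-1],[0,1,1],(⟨0,[]⟩,⟨0,[]⟩),(⟨1,[(6,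
  0),(2,0),(8,0)]⟩,⟨0,[(10,0)]⟩),⟨0,[]⟩,.k,.k,.k,(.r (-1) ⟨3,[(1,1),(4,1),(0,0),(0,2)]⟩ ⟨1,[(0,1),
  (4,1),(4,1),(0,0),(6,0)]⟩),.k,.k,⟨true,0,⟨1,[(5,0),(0,0),(1,0),(2,0),(4,0)]⟩,⟨0,[(0,0),(9,0)]⟩⟩,
  ⟨false,0,⟨1,[(6,0),(2,0),(8,0)]⟩,⟨1,[(10,1),(0,0),(6,0)]⟩⟩,⟨false,0,⟨0,[(17,0)]⟩,⟨0,[(16,0),(2,
  0)]⟩⟩,⟨true,(-1),⟨0,[(0,0),(4,0)]⟩,⟨1,[(8,0),(1,1),(0,0),(4,1)]⟩⟩,⟨true,0,⟨0,[(21,0)]⟩,⟨0,[]⟩⟩,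
  ⟨false,0,⟨0,[(0,0),(5,0),(11,0)]⟩,⟨1,[(8,0),(1,1),(0,0)]⟩⟩,[]⟩)) (.R ⟨2,true,false,true,[0,1],[1,
  -1],[1,0,1,1],(⟨0,[]⟩,⟨0,[]⟩),(⟨0,[(11,0)]⟩,⟨0,[(12,0)]⟩),⟨0,[]⟩,.k,.k,.k,(.r 0 ⟨0,[(2,1)]⟩ ⟨3,
  [(0,3),(5,0),(0,0),(2,1),(6,3)]⟩),.k,.k,⟨false,1,⟨0,[(3,0),(11,0),(2,0)]⟩,⟨1,[(0,1),(9,0),(3,1),
  (2,0)]⟩⟩,⟨true,(-1),⟨0,[(5,0)]⟩,⟨1,[(10,0),(6,0)]⟩⟩,⟨true,0,⟨0,[]⟩,⟨0,[(20,0)]⟩⟩,⟨false,(-1),⟨0,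
  [(0,0)]⟩,⟨1,[(10,0),(4,3),(2,2)]⟩⟩,⟨false,1,⟨0,[(15,0),(2,0)]⟩,⟨0,[(16,0)]⟩⟩,⟨true,(-1),⟨0,[(4,
  0)]⟩,⟨1,[(10,0),(4,1),(2,0)]⟩⟩,[]⟩)))

def tree : Tre :=
  (.I [1,0,1,1] (.I [1,0,-1,-1] (.N [0,1] 0 ⟨0,[(1,0)]⟩ ⟨0,[(0,0)]⟩ .k) t0) (.R ⟨2,true,false,false,
  [0,1],[1,-1],[0,1],(⟨0,[]⟩,⟨0,[]⟩),(⟨0,[(8,0)]⟩,⟨0,[(9,0)]⟩),⟨0,[]⟩,.k,.k,.k,(.r (-1) ⟨3,[(2,3),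
  (0,0),(0,0),(2,1),(4,7),(2,3)]⟩ ⟨0,[(0,1)]⟩),.k,.k,⟨false,0,⟨0,[(12,0)]⟩,⟨3,[(0,3),(2,0),(0,0),
  (10,1)]⟩⟩,⟨true,(-1),⟨0,[(2,0)]⟩,⟨1,[(7,0),(6,0)]⟩⟩,⟨false,0,⟨0,[(0,0)]⟩,⟨7,[(2,3),(0,0),(0,0),(2,
  1),(4,7),(2,7)]⟩⟩,⟨true,(-1),⟨0,[(0,1),(1,0)]⟩,⟨1,[(7,0),(4,3),(2,0)]⟩⟩,⟨true,0,⟨0,[(11,0)]⟩,⟨7,
  [(2,3),(0,0),(0,0),(2,1)]⟩⟩,⟨false,0,⟨0,[(1,0),(13,0)]⟩,⟨1,[(7,0),(4,1),(2,0)]⟩⟩,[]⟩))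

theorem ok : chk (cPU 1 false) tree base = true := by
  decide +kernel

theorem closed {p a b c J l q : ℤ} {D dl : ℝ} {Cl : ℤ → ℤ → ℤ → ℤ → ℝ → Prop}
    (W : World p a b c J 1 l q D dl Cl) (hE : KEmp p a b 1 (P1 l p) Cl)
    (g : G0 p a b c J D)
    {N R : ℤ} {I : ℝ} (hu : VFac p D Cl N R I)
    (s0 : (c : ℝ) + 1 ≤ 0)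
    (s1 : (b : ℝ) + 1 ≤ a)
    (s2 : (a : ℝ) ≤ b - c)
    (s3 : p - D < 2 * b)
    (s4 : -(a : ℝ) < D - c - p) : False := by
  have g1 := g.a2
  have g2 := g.b2
  have g3 := g.pa
  have g4 := g.pb
  have g5 := g.J1
  have g6 := g.JD
  have g7 := g.D2
  have g8 := g.ca
  have g9 := g.ca'
  have t1 := TF.ofV hu
  have i1 := t1.I0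
  have i2 := hu.ID
  have i3 := t1.R1
  have i4 := t1.R2
  refine (val_PU W.toBase (UV.ofV hu)).sound W rfl (Nk := 0) (fun kf hkf hh => ?_) (kok_B hE (by simp [xv]) (by simp [xv]) 0) ?_ ok
  · simp only [cPU, kfB, List.mem_cons, List.not_mem_nil, or_false] at hkf
    subst hkf
    exact absurd hh (by norm_num)
  · simp only [base, List.forall_mem_cons, List.not_mem_nil, false_imp_iff, implies_true,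
      and_true, hld, xv, evg_cons, evg_nil, List.map_cons, List.map_nil, List.cons_append,
      List.nil_append, if_true, if_false, Bool.false_eq_true]
    push_cast
    refine ⟨?_, ?_, ?_, ?_, ?_, ?_, ?_, ?_, ?_, ?_, ?_, ?_, ?_, ?_, ?_, ?_, ?_⟩ <;> linarith

end Helper25.KG.Pm1_2_1_1_v
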