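import Pool.Agent.Helper25.KG.PL

set_option autoImplicit false
set_option linter.unusedVariables false

namespace Helper25.KG.Pm1_2_m1_0_u

open Helper11.CT Helper25.KW Helper25.KG

def base : List Con :=
  [(false,[0,1,0,-1,0,0,0,-1]),
  (false,[0,0,2,0,0,0,0,-1]),
  (true,[0,0,0,0,1,0,-2]),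
  (true,[0,0,0,0,1,0,2]),
  (false,[0,0,0,0,0,0,0,1,-1]),
  (false,[0,0,0,0,0,0,0,0,1]),
  (false,[0,0,0,0,1,0,0,-2]),
  (false,[0,0,0,0,0,-1,0,1]),
  (true,[0,0,0,0,0,1]),
  (true,[1,-1,1,-1]),
  (true,[0,1,-1]),
  (true,[0,1,0,1]),
  (true,[0,0,0,-1]),
  (true,[0,0,-2,0,1]),
  (true,[0,-2,0,0,1]),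
  (true,[-1,0,1]),
  (true,[-1,1])]

def t0 : Tre :=
  (.Q [0,0,0,0,0,1,0,-1,1] (.ed false [0,1,1] .k) (.Q [0,0,0,1,0,0,0,1] (.pp false [-1,1]) (.I [1,0,
  1,1] (.Q [0,0,0,-1,0,0,0,-1,1] (.p true [0,0,1] [1] (⟨0,[(13,0)]⟩,⟨0,[(12,0)]⟩) .k 1 (⟨0,[]⟩,⟨0,
  []⟩) .k .k) (.R ⟨0,false,false,false,[1,0,-1],[0,1],[0,1,0,0,0,0,-1],(⟨0,[(13,0)]⟩,⟨0,[(14,0)]⟩),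
  (⟨0,[(17,0)]⟩,⟨0,[(16,0)]⟩),⟨0,[(3,0)]⟩,.k,.k,(.x (-1) ⟨3,[(11,0),(0,0),(2,1),(0,3)]⟩ ⟨0,[(17,
  0)]⟩),(.x (-1) ⟨3,[(11,0),(0,0),(2,1),(0,3)]⟩ ⟨0,[(17,0)]⟩),.k,.k,⟨false,0,⟨0,[(4,0),(8,0),(5,0),
  (1,0)]⟩,⟨1,[(1,1),(10,0),(10,0)]⟩⟩,⟨true,0,⟨0,[(13,0)]⟩,⟨0,[(0,0),(0,0)]⟩⟩,⟨true,0,⟨0,[(25,0)]⟩,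
  ⟨0,[]⟩⟩,⟨false,1,⟨1,[(1,1),(10,0),(0,1),(9,0)]⟩,⟨0,[(4,0),(16,0)]⟩⟩,⟨false,0,⟨0,[]⟩,⟨0,[]⟩⟩,
  ⟨false,0,⟨0,[]⟩,⟨0,[]⟩⟩,[.a ⟨true,0,⟨0,[(2,0)]⟩,⟨0,[(21,0)]⟩⟩ ⟨false,0,⟨0,[(4,0),(8,0),(11,0)]⟩,
  ⟨1,[(12,0),(10,0)]⟩⟩ ⟨true,0,⟨0,[(1,0),(11,0)]⟩,⟨0,[(0,0)]⟩⟩,.o ⟨false,1,⟨0,[(20,0),(2,0)]⟩,⟨0,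
  [(9,0)]⟩⟩,.o ⟨false,1,⟨1,[(14,1),(0,0),(6,0)]⟩,⟨0,[(5,0)]⟩⟩,.e ⟨false,0,⟨0,[(4,0),(8,0)]⟩,⟨3,[(8,
  1),(3,2),(5,1),(4,0)]⟩⟩ ⟨false,1,⟨0,[(13,0),(6,0),(2,0)]⟩,⟨0,[(0,0)]⟩⟩]⟩) (.Q [0,0,1,0,0,0,0,-1,
  1] (.p true [0,0,1] [1] (⟨0,[(14,0)]⟩,⟨0,[(13,0)]⟩) .k 1 (⟨0,[]⟩,⟨0,[]⟩) .k .k) (.R ⟨0,false,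
  false,false,[1,0,-1],[0,1],[0,1,0,0,0,0,-1],(⟨0,[(14,0)]⟩,⟨0,[(15,0)]⟩),(⟨0,[(18,0)]⟩,⟨0,[(17,
  0)]⟩),⟨0,[(4,0)]⟩,.k,.k,(.x (-1) ⟨3,[(12,0),(0,0),(2,1),(0,3)]⟩ ⟨0,[(18,0)]⟩),(.x (-1) ⟨3,[(12,0),
  (0,0),(2,1),(0,3)]⟩ ⟨0,[(18,0)]⟩),.k,.k,⟨false,0,⟨0,[(5,0),(8,0),(5,0),(1,0)]⟩,⟨1,[(2,1),(10,0),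
  (10,0)]⟩⟩,⟨true,0,⟨0,[(14,0)]⟩,⟨0,[(0,0)]⟩⟩,⟨true,0,⟨0,[(26,0)]⟩,⟨0,[]⟩⟩,⟨false,1,⟨3,[(1,3),(7,1),
  (3,2),(5,1),(4,0)]⟩,⟨0,[(5,0),(16,0)]⟩⟩,⟨false,0,⟨0,[]⟩,⟨0,[]⟩⟩,⟨false,0,⟨0,[]⟩,⟨0,[]⟩⟩,[.e
  ⟨false,0,⟨0,[(5,0),(8,0),(11,0)]⟩,⟨1,[(13,0),(10,0)]⟩⟩ ⟨false,0,⟨0,[(1,0)]⟩,⟨1,[(15,1),(0,0),(5,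
  1),(0,0)]⟩⟩,.o ⟨false,1,⟨0,[(21,0),(2,0)]⟩,⟨0,[(10,0)]⟩⟩,.o ⟨false,1,⟨1,[(15,1),(0,0),(6,0)]⟩,⟨0,
  [(6,0)]⟩⟩,.a ⟨true,0,⟨0,[(15,0)]⟩,⟨0,[(14,0)]⟩⟩ ⟨false,0,⟨0,[(5,0),(8,0)]⟩,⟨3,[(9,1),(3,2),(5,1),
  (4,0)]⟩⟩ ⟨true,0,⟨0,[(1,0)]⟩,⟨0,[(10,0),(4,0)]⟩⟩]⟩) (.R ⟨0,false,false,false,[1,0,-1],[0,1,-1],[0,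
  1],(⟨0,[(14,0)]⟩,⟨0,[(15,0)]⟩),(⟨0,[(0,0),(3,0),(1,0)]⟩,⟨0,[(15,0),(1,0)]⟩),⟨0,[(4,0)]⟩,.k,(.r 0
  ⟨0,[(9,0)]⟩ ⟨1,[(13,0),(8,1),(0,0)]⟩),(.x (-1) ⟨3,[(12,0),(0,0),(2,1),(0,3)]⟩ ⟨0,[(18,0)]⟩),.k,.k,
  .k,⟨false,1,⟨1,[(13,0),(6,1),(1,1),(0,0)]⟩,⟨0,[(2,0),(4,0)]⟩⟩,⟨true,0,⟨0,[(0,0),(14,0)]⟩,⟨0,[(11,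
  0)]⟩⟩,⟨false,1,⟨3,[(12,0),(0,2)]⟩,⟨0,[(7,0)]⟩⟩,⟨true,0,⟨0,[(3,0)]⟩,⟨0,[(10,0)]⟩⟩,⟨false,0,⟨0,[]⟩,
  ⟨0,[]⟩⟩,⟨false,0,⟨0,[]⟩,⟨0,[]⟩⟩,[.o ⟨false,0,⟨0,[(8,0),(12,0)]⟩,⟨1,[(6,1),(6,0),(2,0),(5,1)]⟩⟩,.e
  ⟨false,1,⟨3,[(12,0),(0,0),(9,1)]⟩,⟨0,[]⟩⟩ ⟨false,0,⟨0,[(1,0),(6,0)]⟩,⟨3,[(10,3),(1,0),(0,2)]⟩⟩,.o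
  ⟨false,1,⟨1,[(15,1),(0,0),(6,0)]⟩,⟨0,[(6,0)]⟩⟩,.a ⟨true,0,⟨0,[(15,0)]⟩,⟨0,[(14,0)]⟩⟩ ⟨true,0,⟨0,
  [(20,0)]⟩,⟨0,[(25,0)]⟩⟩ ⟨false,0,⟨0,[(1,0),(6,0)]⟩,⟨15,[(10,7),(0,3),(0,2),(0,10),(2,1),(2,
  7)]⟩⟩]⟩))) (.R ⟨2,true,false,false,[0,1],[1,-1],[0,1],(⟨0,[]⟩,⟨0,[]⟩),(⟨0,[(15,0)]⟩,⟨0,[(16,0)]⟩),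
  ⟨0,[]⟩,.k,.k,.k,(.r (-1) ⟨0,[(7,1),(3,0)]⟩ ⟨0,[(0,1)]⟩),.k,.k,⟨false,0,⟨0,[(19,0)]⟩,⟨3,[(0,3),(9,
  0),(0,0),(10,1)]⟩⟩,⟨true,0,⟨0,[(9,0)]⟩,⟨0,[(0,0),(0,0)]⟩⟩,⟨false,0,⟨0,[(0,0)]⟩,⟨1,[(7,1),(3,0),
  (10,0)]⟩⟩,⟨true,0,⟨0,[(0,1),(8,0)]⟩,⟨0,[(1,0),(17,0)]⟩⟩,⟨true,0,⟨0,[(18,0)]⟩,⟨0,[(23,0)]⟩⟩,⟨false,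
  1,⟨1,[(14,0),(5,1),(1,0)]⟩,⟨0,[(1,0)]⟩⟩,[]⟩)) (.Q [0,0,1,0,0,0,0,-1,1] (.p true [0,0,1] [1] (⟨0,
  [(12,0)]⟩,⟨0,[(11,0)]⟩) .k 1 (⟨0,[]⟩,⟨0,[]⟩) .k .k) (.R ⟨0,false,false,true,[1,0,-1],[0,1],[0,1,0,
  0,0,0,-1],(⟨0,[(12,0)]⟩,⟨0,[(13,0)]⟩),(⟨0,[(16,0)]⟩,⟨0,[(15,0)]⟩),⟨0,[(2,0)]⟩,.k,.k,(.x (-1) ⟨3,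
  [(10,0),(0,0),(2,1),(0,3)]⟩ ⟨0,[(16,0)]⟩),(.x (-1) ⟨3,[(10,0),(0,0),(2,1),(0,3)]⟩ ⟨0,[(16,0)]⟩),
  .k,.k,⟨false,0,⟨0,[(1,0),(4,0),(5,0),(5,0)]⟩,⟨0,[(7,0),(3,0)]⟩⟩,⟨true,0,⟨0,[(12,0)]⟩,⟨0,[(0,0)]⟩⟩,
  ⟨true,0,⟨0,[(24,0)]⟩,⟨0,[]⟩⟩,⟨false,1,⟨0,[(7,0),(3,0),(0,0)]⟩,⟨0,[(1,0),(4,0)]⟩⟩,⟨false,0,⟨0,[]⟩,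
  ⟨0,[]⟩⟩,⟨false,0,⟨0,[]⟩,⟨0,[]⟩⟩,[.o ⟨false,0,⟨0,[(19,0)]⟩,⟨1,[(14,0),(5,1),(1,0)]⟩⟩,.o ⟨false,1,
  ⟨3,[(10,0),(0,0),(7,3),(2,1)]⟩,⟨0,[(1,0)]⟩⟩,.o ⟨false,1,⟨1,[(13,1),(0,0),(6,0)]⟩,⟨0,[(4,0)]⟩⟩,.a
  ⟨true,0,⟨0,[(13,0)]⟩,⟨0,[(12,0)]⟩⟩ ⟨false,0,⟨0,[(3,0),(8,0)]⟩,⟨3,[(7,1),(3,2),(5,1),(4,0)]⟩⟩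
  ⟨true,0,⟨0,[(12,0),(6,0)]⟩,⟨0,[(1,0),(11,0)]⟩⟩]⟩) (.R ⟨0,false,false,true,[1,0,-1],[0,1,-1],[1,1],
  (⟨0,[(12,0)]⟩,⟨0,[(13,0)]⟩),(⟨0,[(0,0),(1,0),(1,0)]⟩,⟨0,[(13,0),(1,0)]⟩),⟨0,[(2,0)]⟩,.k,(.r 0 ⟨0,
  [(7,0)]⟩ ⟨1,[(11,0),(8,1),(0,0)]⟩),(.x (-1) ⟨3,[(10,0),(0,0),(2,1),(0,3)]⟩ ⟨0,[(16,0)]⟩),.k,.k,.k,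
  ⟨false,1,⟨3,[(0,1),(0,1),(4,1),(4,2),(6,1),(1,1),(0,0)]⟩,⟨0,[(7,0)]⟩⟩,⟨true,0,⟨0,[(0,0),(12,0)]⟩,
  ⟨0,[(9,0)]⟩⟩,⟨false,1,⟨3,[(10,0),(0,2)]⟩,⟨0,[(5,0)]⟩⟩,⟨true,0,⟨0,[(12,0),(0,0),(5,0)]⟩,⟨0,[(1,
  0)]⟩⟩,⟨false,0,⟨0,[]⟩,⟨0,[]⟩⟩,⟨false,0,⟨0,[]⟩,⟨0,[]⟩⟩,[.o ⟨false,0,⟨0,[(6,0),(12,0),(4,0)]⟩,⟨1,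
  [(1,1),(2,1),(6,0),(10,0)]⟩⟩,.o ⟨false,0,⟨0,[(6,0),(12,0)]⟩,⟨1,[(4,1),(6,0),(2,0),(5,1)]⟩⟩,.o
  ⟨false,1,⟨1,[(13,1),(0,0),(6,0)]⟩,⟨0,[(4,0)]⟩⟩,.a ⟨true,0,⟨0,[(13,0)]⟩,⟨0,[(12,0)]⟩⟩ ⟨true,0,⟨0,
  [(18,0)]⟩,⟨0,[(23,0)]⟩⟩ ⟨false,0,⟨0,[(6,0),(5,0),(6,0)]⟩,⟨1,[(11,0),(2,0),(2,1)]⟩⟩]⟩))) (.I [0,1,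
  1,0,0,0,1] (.S ⟨1,0,[0,0,1,0,0,0,1],[0,1,1],[0,1,1,0,0,0,1],(⟨0,[(12,0),(2,0)]⟩,⟨0,[(1,0)]⟩),⟨0,
  [(12,0)]⟩,(.x 0 ⟨0,[(15,0)]⟩ ⟨3,[(9,0),(0,0),(2,1),(0,3)]⟩),.k,⟨false,0,⟨0,[(19,0)]⟩,⟨0,[(18,0),
  (2,0)]⟩⟩,⟨true,0,⟨0,[(19,0)]⟩,⟨0,[(18,0)]⟩⟩,⟨true,0,⟨0,[(23,0)]⟩,⟨0,[]⟩⟩,⟨false,1,⟨3,[(9,0),(0,0),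
  (10,1)]⟩,⟨0,[]⟩⟩,[.o ⟨false,1,⟨3,[(3,3),(5,0),(0,2)]⟩,⟨0,[(2,0)]⟩⟩,.o ⟨false,1,⟨1,[(3,1),(6,0),
  (10,0)]⟩,⟨0,[(2,0),(20,0)]⟩⟩,.a ⟨true,0,⟨0,[(11,0)]⟩,⟨0,[(12,0)]⟩⟩ ⟨true,0,⟨0,[(0,0)]⟩,⟨0,[(2,0),
  (8,0)]⟩⟩ ⟨false,1,⟨3,[(6,1),(3,2),(5,1),(4,0)]⟩,⟨0,[(2,0),(8,0)]⟩⟩,.o ⟨false,0,⟨0,[(3,0)]⟩,⟨1,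
  [(12,1),(0,0),(6,0)]⟩⟩]⟩) (.Q [0,1,-1,-1,-1,0,-1,0,1] (.p true [0,0,1] [] (⟨0,[(12,0)]⟩,⟨0,[(11,
  0)]⟩) .k 0 (⟨0,[]⟩,⟨0,[]⟩) .k .k) (.R ⟨2,true,false,false,[0,1],[0,1,1],[0,0,1],(⟨0,[]⟩,⟨0,[]⟩),
  (⟨0,[(13,0),(2,0)]⟩,⟨0,[(2,0)]⟩),⟨0,[]⟩,.k,(.x 0 ⟨0,[(16,0)]⟩ ⟨3,[(10,0),(0,0),(2,1),(0,3)]⟩),.k,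
  .k,(.x (-1) ⟨3,[(10,0),(0,0),(2,1),(0,3)]⟩ ⟨0,[(16,0)]⟩),.k,⟨false,0,⟨7,[(0,1),(0,3),(6,1),(1,0),
  (1,1),(7,3),(0,0)]⟩,⟨1,[(11,0),(7,1),(2,0)]⟩⟩,⟨true,0,⟨0,[(4,0)]⟩,⟨0,[(13,0)]⟩⟩,⟨true,0,⟨0,[(20,
  0)]⟩,⟨0,[(19,0)]⟩⟩,⟨false,1,⟨1,[(4,1),(6,0),(10,0)]⟩,⟨7,[(0,1),(5,3),(3,0),(2,1),(5,1),(1,0)]⟩⟩,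
  ⟨false,1,⟨3,[(10,0),(0,0),(10,1)]⟩,⟨0,[]⟩⟩,⟨true,1,⟨1,[(4,1),(6,0),(7,1),(2,0)]⟩,⟨0,[(0,0)]⟩⟩,
  []⟩) (.Q [0,0,-1,0,0,0,0,1] (.pp false [-1,1]) (.R ⟨2,false,false,false,[0,1],[0,1,1],[0,0,1],(⟨0,
  []⟩,⟨0,[]⟩),(⟨0,[(14,0),(2,0)]⟩,⟨0,[(3,0)]⟩),⟨0,[]⟩,.k,(.x 0 ⟨0,[(17,0)]⟩ ⟨3,[(11,0),(0,0),(2,1),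
  (0,3)]⟩),.k,.k,(.x (-1) ⟨3,[(11,0),(0,0),(2,1),(0,3)]⟩ ⟨0,[(17,0)]⟩),.k,⟨false,0,⟨0,[(0,0),(5,0),
  (2,0)]⟩,⟨1,[(12,0),(7,1),(2,0)]⟩⟩,⟨true,0,⟨0,[(5,0)]⟩,⟨0,[(14,0)]⟩⟩,⟨true,0,⟨0,[(21,0)]⟩,⟨0,[(20,
  0)]⟩⟩,⟨false,1,⟨1,[(5,1),(6,0),(10,0)]⟩,⟨0,[(7,0),(17,0)]⟩⟩,⟨false,1,⟨3,[(11,0),(0,0),(10,1)]⟩,⟨0,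
  []⟩⟩,⟨false,1,⟨0,[(1,0)]⟩,⟨0,[(7,0),(13,0),(3,0)]⟩⟩,[.o ⟨false,1,⟨0,[(1,0),(23,0)]⟩,⟨0,[(4,0),(16,
  0)]⟩⟩,.o ⟨false,1,⟨0,[(1,0)]⟩,⟨0,[(4,0),(16,0),(3,0)]⟩⟩,.a ⟨true,0,⟨0,[(0,0)]⟩,⟨0,[(24,0)]⟩⟩
  ⟨true,0,⟨0,[(24,0)]⟩,⟨0,[(19,0)]⟩⟩ ⟨false,1,⟨0,[(1,0),(22,0)]⟩,⟨0,[(0,0),(3,0),(16,0)]⟩⟩,.e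
  ⟨false,1,⟨3,[(11,0),(0,0),(10,1)]⟩,⟨0,[]⟩⟩ ⟨false,1,⟨0,[(1,0)]⟩,⟨0,[(7,0),(13,0),(3,0)]⟩⟩]⟩) (.Q
  [0,0,0,1,0,0,0,1] (.pp false [-1,1]) (.Q [0,0,0,1,0,0,0,1,-1] (.p false [0,0,1] [1] (⟨0,[(15,0)]⟩,
  ⟨0,[(14,0)]⟩) .k 1 (⟨0,[]⟩,⟨0,[]⟩) .k .k) (.R ⟨1,false,false,false,[1,0,-1],[0,1],[1,0,0,0,0,0,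
  -1],(⟨0,[(15,0)]⟩,⟨0,[(16,0)]⟩),(⟨0,[(19,0)]⟩,⟨0,[(18,0)]⟩),⟨0,[(5,0)]⟩,.k,.k,(.x (-1) ⟨3,[(13,0),
  (0,0),(2,1),(0,3)]⟩ ⟨0,[(19,0)]⟩),(.x (-1) ⟨3,[(13,0),(0,0),(2,1),(0,3)]⟩ ⟨0,[(19,0)]⟩),(.r 0 ⟨0,
  [(4,0),(16,0),(1,1)]⟩ ⟨1,[(1,0),(1,0),(6,0),(1,0),(1,0),(1,0),(5,0)]⟩),.k,⟨false,0,⟨0,[(4,0),(16,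
  0),(1,0)]⟩,⟨0,[(10,0),(3,0)]⟩⟩,⟨true,0,⟨0,[(15,0)]⟩,⟨0,[(2,0),(13,0)]⟩⟩,⟨true,0,⟨0,[]⟩,⟨0,[(27,
  0)]⟩⟩,⟨false,1,⟨11,[(1,7),(1,7),(9,0),(0,2),(0,3),(4,3)]⟩,⟨0,[(6,0),(16,0)]⟩⟩,⟨false,1,⟨0,[(22,0),
  (2,0)]⟩,⟨0,[(23,0)]⟩⟩,⟨false,1,⟨0,[(1,0),(1,0)]⟩,⟨0,[(6,0),(16,1)]⟩⟩,[.e ⟨false,0,⟨0,[(6,0),(8,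
  0)]⟩,⟨3,[(13,0),(0,2)]⟩⟩ ⟨false,0,⟨0,[(0,0)]⟩,⟨1,[(16,1),(0,0),(5,1),(0,0)]⟩⟩,.o ⟨false,1,⟨0,[(22,
  0),(2,0)]⟩,⟨0,[(11,0)]⟩⟩,.o ⟨false,1,⟨1,[(16,1),(0,0),(6,0)]⟩,⟨0,[(7,0)]⟩⟩,.a ⟨true,0,⟨0,[(16,
  0)]⟩,⟨0,[(15,0)]⟩⟩ ⟨false,0,⟨0,[(4,0)]⟩,⟨3,[(13,0),(0,2),(11,3)]⟩⟩ ⟨true,0,⟨0,[(0,0)]⟩,⟨0,[(11,0),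
  (4,0)]⟩⟩]⟩) (.R ⟨1,false,false,false,[1,0,-1],[0,1],[1,0,0,0,0,0,-1],(⟨0,[(15,0)]⟩,⟨0,[(16,0)]⟩),
  (⟨0,[(19,0)]⟩,⟨0,[(18,0)]⟩),⟨0,[(5,0)]⟩,.k,.k,(.x (-1) ⟨3,[(13,0),(0,0),(2,1),(0,3)]⟩ ⟨0,[(19,
  0)]⟩),(.x (-1) ⟨3,[(13,0),(0,0),(2,1),(0,3)]⟩ ⟨0,[(19,0)]⟩),(.r 0 ⟨0,[(4,0),(16,0),(1,1)]⟩ ⟨1,[(1,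
  0),(1,0),(6,0),(1,0),(1,0),(1,0),(5,0)]⟩),.k,⟨false,0,⟨0,[(4,0),(16,0),(1,0)]⟩,⟨0,[(10,0),(3,
  0)]⟩⟩,⟨true,0,⟨0,[(15,0)]⟩,⟨0,[(2,0),(13,0)]⟩⟩,⟨true,0,⟨0,[]⟩,⟨0,[(27,0)]⟩⟩,⟨false,1,⟨11,[(1,7),
  (1,7),(9,0),(0,2),(0,3),(4,3)]⟩,⟨0,[(6,0),(16,0)]⟩⟩,⟨false,1,⟨0,[(22,0),(2,0)]⟩,⟨0,[(23,0)]⟩⟩,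
  ⟨false,1,⟨0,[(1,0),(1,0)]⟩,⟨0,[(6,0),(16,1)]⟩⟩,[.a ⟨true,0,⟨0,[(1,0)]⟩,⟨0,[(23,0)]⟩⟩ ⟨false,0,⟨0,
  [(6,0),(8,0)]⟩,⟨3,[(13,0),(0,2)]⟩⟩ ⟨true,0,⟨0,[(1,0),(5,0)]⟩,⟨0,[(0,0)]⟩⟩,.o ⟨false,1,⟨0,[(22,0),
  (2,0)]⟩,⟨0,[(11,0)]⟩⟩,.o ⟨false,1,⟨1,[(16,1),(0,0),(6,0)]⟩,⟨0,[(7,0)]⟩⟩,.e ⟨false,0,⟨0,[(4,0)]⟩,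
  ⟨3,[(13,0),(0,2),(11,3)]⟩⟩ ⟨false,1,⟨5,[(1,2),(1,2),(0,0),(8,0),(1,2),(8,0),(0,0)]⟩,⟨0,[(0,
  0)]⟩⟩]⟩)) (.R ⟨1,false,false,true,[1,0,-1],[0,1],[0,1,0,-1,0,0,-1],(⟨0,[(14,0)]⟩,⟨0,[(15,0)]⟩),
  (⟨0,[(18,0)]⟩,⟨0,[(17,0)]⟩),⟨0,[(4,0)]⟩,.k,.k,(.x (-1) ⟨3,[(12,0),(0,0),(2,1),(0,3)]⟩ ⟨0,[(18,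
  0)]⟩),(.x (-1) ⟨3,[(12,0),(0,0),(2,1),(0,3)]⟩ ⟨0,[(18,0)]⟩),(.r 0 ⟨0,[(3,0),(16,0),(1,1)]⟩ ⟨0,[(2,
  0),(12,0),(5,0),(3,0)]⟩),.k,⟨false,0,⟨0,[(3,0),(16,0),(1,1)]⟩,⟨0,[(2,0),(12,0),(5,0)]⟩⟩,⟨true,0,
  ⟨0,[(14,0)]⟩,⟨0,[(1,0),(13,0)]⟩⟩,⟨false,0,⟨0,[(22,0)]⟩,⟨0,[(21,0),(2,0)]⟩⟩,⟨false,1,⟨0,[(9,0),(3,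
  0),(0,0)]⟩,⟨0,[(0,0),(7,0)]⟩⟩,⟨true,0,⟨0,[(26,0)]⟩,⟨0,[]⟩⟩,⟨false,1,⟨0,[(2,0),(11,0),(0,0),(5,
  0)]⟩,⟨0,[(0,0),(7,0),(13,0)]⟩⟩,[.o ⟨false,0,⟨0,[(21,0)]⟩,⟨1,[(16,0),(5,1),(1,0)]⟩⟩,.o ⟨false,1,⟨3,
  [(12,0),(0,0),(7,3),(2,1)]⟩,⟨0,[(0,0)]⟩⟩,.o ⟨false,1,⟨1,[(15,1),(0,0),(6,0)]⟩,⟨0,[(6,0)]⟩⟩,.a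
  ⟨true,0,⟨0,[(15,0)]⟩,⟨0,[(14,0)]⟩⟩ ⟨false,0,⟨0,[(5,0),(8,0),(7,0)]⟩,⟨0,[(2,0),(12,0)]⟩⟩ ⟨true,0,
  ⟨0,[(14,0),(6,0)]⟩,⟨0,[(0,0),(14,0)]⟩⟩]⟩))))))

def t1 : Tre :=
  (.Q [0,-1,-1,0,0,0,-1,0,1] (.p true [0,0,1] [] (⟨0,[(6,0)]⟩,⟨0,[(5,0)]⟩) .k 0 (⟨0,[]⟩,⟨0,[]⟩) .k
  .k) (.I [1,1,0,0,0,0,1] (.Q [0,1,1,-1,0,0,1,0,-1] (.p false [0,0,1] [] (⟨0,[(8,0)]⟩,⟨0,[(7,0)]⟩)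
  .k 0 (⟨0,[]⟩,⟨0,[]⟩) .k .k) (.R ⟨2,true,false,true,[0,1],[0,0,1],[0,1,1],(⟨0,[]⟩,⟨0,[]⟩),(⟨0,[(9,
  0)]⟩,⟨0,[(8,0)]⟩),⟨0,[]⟩,.k,.k,.k,(.r 0 ⟨0,[(3,0)]⟩ ⟨1,[(7,0),(8,1),(0,0)]⟩),.k,.k,⟨false,0,⟨1,
  [(2,0),(0,0),(0,0),(3,0)]⟩,⟨1,[(7,0),(9,0)]⟩⟩,⟨true,0,⟨0,[(5,0),(2,0)]⟩,⟨0,[(1,0),(0,0)]⟩⟩,⟨false,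
  0,⟨0,[(16,0)]⟩,⟨0,[(15,0),(2,0)]⟩⟩,⟨true,0,⟨0,[(0,0)]⟩,⟨0,[(2,0),(12,0)]⟩⟩,⟨true,0,⟨0,[(20,0)]⟩,
  ⟨0,[]⟩⟩,⟨false,1,⟨3,[(0,1),(2,1),(3,1),(0,1),(1,0),(7,0)]⟩,⟨0,[(2,0)]⟩⟩,[]⟩) (.I [0,0,-1,0,0,2]
  (.K ⟨0,[-1,1,1],0,0,(⟨1,[(0,0),(0,1),(0,1),(2,0),(0,0),(7,0)]⟩,⟨0,[(9,0),(2,0)]⟩),(.x 0 ⟨0,[(13,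
  0)]⟩ ⟨3,[(7,0),(0,0),(2,1),(0,3)]⟩),.k,(.x 0 ⟨0,[(0,0)]⟩ ⟨7,[(6,3),(0,0),(0,0),(2,5),(0,15)]⟩),.k,
  .k,[⟨2,[(1,1),(0,1),(2,0),(0,1),(3,0),(3,0)]⟩,⟨0,[(9,0),(10,0)]⟩,⟨0,[(3,0),(1,0),(15,0)]⟩,⟨0,[(1,
  0),(0,1),(3,0),(2,1)]⟩]⟩) (.R ⟨2,true,false,false,[0,1],[1,1,-1],[1,1,1,1],(⟨0,[]⟩,⟨0,[]⟩),(⟨0,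
  [(9,0),(3,0)]⟩,⟨1,[(0,0),(1,0),(0,0),(6,0)]⟩),⟨0,[]⟩,.k,(.r 0 ⟨0,[(4,0)]⟩ ⟨1,[(8,0),(8,1),(0,
  0)]⟩),.k,.k,(.r (-1) ⟨1,[(8,0),(8,1),(0,0)]⟩ ⟨0,[(4,0)]⟩),.k,⟨true,0,⟨0,[(2,0)]⟩,⟨2,[(1,1),(2,0),
  (0,0),(0,0),(2,1),(4,1)]⟩⟩,⟨false,1,⟨1,[(1,1),(3,1),(2,0),(9,0)]⟩,⟨0,[(9,0),(10,0)]⟩⟩,⟨false,0,⟨0,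
  []⟩,⟨3,[(7,0),(0,0),(10,1)]⟩⟩,⟨true,0,⟨0,[(1,0),(3,0)]⟩,⟨0,[(2,0),(6,0),(10,0)]⟩⟩,⟨true,0,⟨0,[(16,
  0)]⟩,⟨0,[(17,0)]⟩⟩,⟨false,1,⟨3,[(1,3),(5,0),(0,0),(2,1)]⟩,⟨0,[(2,0),(6,0),(4,0)]⟩⟩,[]⟩))) (.Q [0,
  0,1,0,0,0,0,0,-1] (.p false [0,0,1] [] (⟨0,[(8,0)]⟩,⟨0,[(7,0)]⟩) .k 0 (⟨0,[]⟩,⟨0,[]⟩) .k .k) (.Q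
  [0,0,-1,0,0,0,-1,-1,1] (.p true [0,0,1] [1] (⟨0,[(9,0)]⟩,⟨0,[(8,0)]⟩) .k 1 (⟨0,[]⟩,⟨0,[]⟩) .k .k)
  t0 (.I [0,1,1,0,0,0,1] (.R ⟨2,true,false,false,[0,1],[1,0,-1],[0,1,1],(⟨0,[]⟩,⟨0,[]⟩),(⟨0,[(10,
  0)]⟩,⟨0,[(11,0)]⟩),⟨0,[]⟩,.k,.k,.k,(.x 0 ⟨0,[(14,0)]⟩ ⟨3,[(8,0),(0,0),(2,1),(0,3)]⟩),.k,.k,⟨true,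
  0,⟨0,[(0,0)]⟩,⟨0,[(3,0)]⟩⟩,⟨false,1,⟨1,[(11,1),(0,0),(6,0)]⟩,⟨0,[(10,0)]⟩⟩,⟨false,0,⟨0,[(18,0)]⟩,
  ⟨0,[(17,0),(2,0)]⟩⟩,⟨true,0,⟨0,[(4,0),(1,0)]⟩,⟨0,[(1,0),(15,0)]⟩⟩,⟨true,0,⟨0,[(22,0)]⟩,⟨0,[]⟩⟩,
  ⟨false,1,⟨5,[(4,3),(3,0),(2,1),(0,2),(6,0),(0,0)]⟩,⟨0,[(1,0)]⟩⟩,[]⟩) (.Q [0,0,0,0,0,-1,0,1,-1]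
  (.ed true [0,1,1] .k) (.R ⟨2,false,false,false,[0,1],[0,1,1],[0,0,1],(⟨0,[]⟩,⟨0,[]⟩),(⟨0,[(12,0),
  (2,0)]⟩,⟨0,[(0,0)]⟩),⟨0,[]⟩,.k,(.x 0 ⟨0,[(15,0)]⟩ ⟨3,[(9,0),(0,0),(2,1),(0,3)]⟩),.k,.k,(.x (-1)
  ⟨3,[(9,0),(0,0),(2,1),(0,3)]⟩ ⟨0,[(15,0)]⟩),.k,⟨false,0,⟨0,[(1,0),(17,0),(3,0)]⟩,⟨1,[(10,0),(7,1),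
  (2,0)]⟩⟩,⟨true,0,⟨0,[(3,0)]⟩,⟨0,[(12,0)]⟩⟩,⟨true,0,⟨0,[(19,0)]⟩,⟨0,[(18,0)]⟩⟩,⟨false,1,⟨1,[(3,1),
  (6,0),(10,0)]⟩,⟨0,[(5,0),(17,0)]⟩⟩,⟨false,1,⟨3,[(9,0),(0,0),(10,1)]⟩,⟨0,[]⟩⟩,⟨false,1,⟨0,[(1,1),
  (0,0),(5,0),(1,0),(7,0)]⟩,⟨0,[(5,0),(13,0),(3,0)]⟩⟩,[.o ⟨false,1,⟨1,[(3,1),(6,0),(7,1),(2,0)]⟩,⟨0,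
  [(5,0),(1,0)]⟩⟩,.o ⟨false,1,⟨0,[(1,1),(0,0),(5,0),(1,0),(7,0)]⟩,⟨0,[(5,0),(1,0),(15,0)]⟩⟩,.a
  ⟨true,0,⟨0,[(2,0),(2,0),(11,0)]⟩,⟨0,[(22,0)]⟩⟩ ⟨true,0,⟨0,[(22,0)]⟩,⟨0,[(17,0)]⟩⟩ ⟨false,1,⟨1,[(1,
  1),(0,1),(5,1),(1,0),(7,1),(2,0)]⟩,⟨0,[(5,0),(11,0),(1,0)]⟩⟩,.e ⟨false,1,⟨3,[(9,0),(0,0),(10,1)]⟩,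
  ⟨0,[]⟩⟩ ⟨false,1,⟨0,[(1,1),(0,0),(5,0),(1,0),(7,0)]⟩,⟨0,[(5,0),(13,0),(3,0)]⟩⟩]⟩) (.R ⟨0,false,
  false,false,[1,0,-1],[0,1,-1],[0,1],(⟨0,[(11,0)]⟩,⟨0,[(12,0)]⟩),(⟨0,[(0,0),(0,0),(0,0),(0,0),(13,
  0)]⟩,⟨0,[(12,0),(1,0)]⟩),⟨0,[(0,0)]⟩,.k,(.r 0 ⟨0,[(6,0)]⟩ ⟨1,[(10,0),(8,1),(0,0)]⟩),(.x (-1) ⟨3,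
  [(9,0),(0,0),(2,1),(0,3)]⟩ ⟨0,[(15,0)]⟩),.k,.k,.k,⟨false,1,⟨1,[(10,0),(6,1),(1,1),(0,0)]⟩,⟨0,[(1,
  0),(0,0),(2,0),(2,0),(9,0)]⟩⟩,⟨true,0,⟨0,[(2,0),(2,0),(11,0)]⟩,⟨0,[(8,0)]⟩⟩,⟨false,1,⟨3,[(9,0),(0,
  2)]⟩,⟨0,[(4,0)]⟩⟩,⟨true,0,⟨0,[(2,0),(2,0),(12,0)]⟩,⟨0,[(7,0)]⟩⟩,⟨false,0,⟨0,[]⟩,⟨0,[]⟩⟩,⟨false,0,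
  ⟨0,[]⟩,⟨0,[]⟩⟩,[.o ⟨false,0,⟨0,[(5,0),(12,0)]⟩,⟨1,[(3,1),(6,0),(2,0),(5,1)]⟩⟩,.e ⟨false,1,⟨3,[(9,
  0),(0,0),(9,1)]⟩,⟨0,[]⟩⟩ ⟨false,0,⟨0,[(1,0),(0,0),(2,0),(12,0)]⟩,⟨3,[(7,3),(1,0),(0,2)]⟩⟩,.o
  ⟨false,1,⟨1,[(12,1),(0,0),(6,0)]⟩,⟨0,[(3,0)]⟩⟩,.a ⟨true,0,⟨0,[(12,0)]⟩,⟨0,[(11,0)]⟩⟩ ⟨true,0,⟨0,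
  [(17,0)]⟩,⟨0,[(22,0)]⟩⟩ ⟨false,0,⟨0,[(1,0),(0,0),(2,0),(12,0)]⟩,⟨15,[(7,7),(0,3),(0,2),(0,10),(2,
  1),(2,7)]⟩⟩]⟩)))) (.Q [0,-1,-1,1,0,0,-1,0,1] (.p true [0,0,1] [] (⟨0,[(9,0)]⟩,⟨0,[(8,0)]⟩) .k 0
  (⟨0,[]⟩,⟨0,[]⟩) .k .k) (.Q [0,-1,1,0,1,0,1,0,-1] (.p false [0,0,1] [] (⟨0,[(10,0)]⟩,⟨0,[(9,0)]⟩)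
  .k 0 (⟨0,[]⟩,⟨0,[]⟩) .k .k) (.R ⟨2,false,false,false,[0,1],[0,0,1],[0,0,1],(⟨0,[]⟩,⟨0,[]⟩),(⟨0,
  [(11,0)]⟩,⟨0,[(10,0)]⟩),⟨0,[]⟩,.k,.k,.k,(.r 0 ⟨0,[(5,0)]⟩ ⟨1,[(9,0),(8,1),(0,0)]⟩),.k,.k,⟨false,0,
  ⟨0,[(3,0),(18,0)]⟩,⟨1,[(9,0),(9,0)]⟩⟩,⟨true,0,⟨0,[(7,0),(2,0)]⟩,⟨0,[(2,0)]⟩⟩,⟨true,0,⟨0,[(18,0)]⟩,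
  ⟨0,[(17,0)]⟩⟩,⟨false,1,⟨0,[(0,0),(17,0)]⟩,⟨0,[(1,0),(20,0)]⟩⟩,⟨false,1,⟨3,[(8,0),(0,0),(10,1)]⟩,
  ⟨0,[]⟩⟩,⟨false,1,⟨0,[(0,0)]⟩,⟨0,[(4,0),(17,0)]⟩⟩,[.o ⟨false,1,⟨0,[(0,0),(21,0)]⟩,⟨0,[(1,0),(4,
  0)]⟩⟩,.o ⟨false,1,⟨0,[(0,0)]⟩,⟨0,[(1,0),(4,0),(15,0)]⟩⟩,.a ⟨true,0,⟨0,[(2,0),(7,0)]⟩,⟨0,[(21,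
  0)]⟩⟩ ⟨true,0,⟨0,[(21,0)]⟩,⟨0,[(16,0)]⟩⟩ ⟨false,1,⟨0,[(0,0),(20,0)]⟩,⟨0,[(4,0),(11,0)]⟩⟩,.e
  ⟨false,1,⟨3,[(8,0),(0,0),(10,1)]⟩,⟨0,[]⟩⟩ ⟨false,1,⟨0,[(0,0)]⟩,⟨0,[(4,0),(17,0)]⟩⟩]⟩) (.K ⟨0,[0,0,
  1],0,1,(⟨0,[(11,0)]⟩,⟨0,[(10,0)]⟩),.k,(.r (-1) ⟨1,[(9,0),(8,1),(0,0)]⟩ ⟨0,[(5,0)]⟩),(.x 0 ⟨0,[(14,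
  0)]⟩ ⟨3,[(8,0),(0,0),(2,1),(0,3)]⟩),.k,.k,[⟨0,[(11,0)]⟩,⟨0,[(7,0),(2,0)]⟩,⟨0,[(0,0)]⟩,⟨7,[(7,3),
  (0,0),(0,4),(0,7),(1,1),(9,7)]⟩]⟩)) (.R ⟨2,true,false,true,[0,1],[0,0,1],[1,1,1,1],(⟨0,[]⟩,⟨0,
  []⟩),(⟨0,[(10,0)]⟩,⟨0,[(9,0)]⟩),⟨0,[]⟩,.k,.k,.k,(.r 0 ⟨0,[(4,0)]⟩ ⟨1,[(8,0),(8,1),(0,0)]⟩),.k,.k,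
  ⟨false,0,⟨0,[(2,0),(13,0)]⟩,⟨1,[(8,0),(8,1),(0,0)]⟩⟩,⟨true,0,⟨0,[(6,0),(2,0)]⟩,⟨0,[(1,0)]⟩⟩,
  ⟨false,0,⟨0,[]⟩,⟨3,[(7,0),(0,0),(10,1)]⟩⟩,⟨true,0,⟨0,[(0,0)]⟩,⟨0,[(3,0),(12,0)]⟩⟩,⟨true,0,⟨0,[(16,
  0)]⟩,⟨0,[(17,0)]⟩⟩,⟨false,1,⟨7,[(6,3),(0,0),(0,4),(0,7),(1,1)]⟩,⟨0,[(3,0)]⟩⟩,[]⟩)))) (.Q [0,1,-1,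
  0,0,0,-1,0,1] (.p true [0,0,1] [] (⟨0,[(7,0)]⟩,⟨0,[(6,0)]⟩) .k 0 (⟨0,[]⟩,⟨0,[]⟩) .k .k) (.K ⟨0,[0,
  0,1],0,0,(⟨0,[(8,0)]⟩,⟨0,[(7,0)]⟩),.k,(.r (-1) ⟨1,[(6,0),(8,1),(0,0)]⟩ ⟨0,[(2,0)]⟩),(.x 0 ⟨0,[(11,
  0)]⟩ ⟨3,[(5,0),(0,0),(2,1),(0,3)]⟩),.k,.k,[⟨0,[(8,0)]⟩,⟨0,[(4,0),(2,0)]⟩,⟨0,[(0,0)]⟩,⟨0,[(1,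
  0)]⟩]⟩) (.Q [0,0,-2,0,1,0,0,-1,1] (.p true [0,0,1] [1] (⟨0,[(8,0)]⟩,⟨0,[(7,0)]⟩) .k 1 (⟨0,[]⟩,⟨0,
  []⟩) .k .k) (.Q [0,-1,-1,0,1,0,-1,0,1] (.p true [0,0,1] [] (⟨0,[(9,0)]⟩,⟨0,[(8,0)]⟩) .k 0 (⟨0,[]⟩,
  ⟨0,[]⟩) .k .k) (.Q [0,-1,-1,1,1,0,-1,0,1] (.p true [0,0,1] [] (⟨0,[(10,0)]⟩,⟨0,[(9,0)]⟩) .k 0 (⟨0,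
  []⟩,⟨0,[]⟩) .k .k) (.Q [0,0,-1,0,0,0,0,1] (.pp false [-1,1]) (.R ⟨2,false,false,true,[0,1],[1,0,
  -1],[0,0,1],(⟨0,[]⟩,⟨0,[]⟩),(⟨0,[(11,0)]⟩,⟨0,[(12,0)]⟩),⟨0,[]⟩,.k,.k,.k,(.x 0 ⟨0,[(15,0)]⟩ ⟨3,[(9,
  0),(0,0),(2,1),(0,3)]⟩),.k,.k,⟨true,0,⟨0,[(4,0),(7,0)]⟩,⟨0,[(6,0),(10,0),(1,0)]⟩⟩,⟨false,1,⟨7,[(3,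
  5),(4,1),(0,0),(0,0),(1,1)]⟩,⟨0,[(11,0)]⟩⟩,⟨true,0,⟨0,[(19,0)]⟩,⟨0,[(18,0)]⟩⟩,⟨false,1,⟨0,[(2,0),
  (4,0)]⟩,⟨1,[(0,1),(3,2),(1,0),(5,0),(5,0)]⟩⟩,⟨false,1,⟨3,[(9,0),(0,0),(10,1)]⟩,⟨0,[]⟩⟩,⟨false,1,
  ⟨1,[(2,0),(0,0),(2,0),(0,0)]⟩,⟨0,[(4,0),(6,0),(0,0)]⟩⟩,[.o ⟨false,1,⟨1,[(3,0),(3,0),(1,0),(2,0),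
  (5,0)]⟩,⟨0,[(4,0)]⟩⟩,.o ⟨false,1,⟨1,[(2,0),(0,0),(2,0),(0,0)]⟩,⟨1,[(4,0),(0,0)]⟩⟩,.a ⟨true,0,⟨0,
  [(0,0)]⟩,⟨0,[(22,0)]⟩⟩ ⟨true,0,⟨0,[(22,0)]⟩,⟨0,[(17,0)]⟩⟩ ⟨false,1,⟨1,[(3,0),(4,0),(0,0),(2,0)]⟩,
  ⟨0,[(0,0),(3,0)]⟩⟩,.e ⟨false,1,⟨3,[(9,0),(0,0),(10,1)]⟩,⟨0,[]⟩⟩ ⟨false,1,⟨1,[(2,0),(0,0),(2,0),(0,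
  0)]⟩,⟨0,[(4,0),(6,0),(0,0)]⟩⟩]⟩) (.Q [0,0,0,0,0,1,0,-1,1] (.ed false [0,1,1] .k) (.Q [0,0,0,1,0,0,
  0,1] (.pp false [-1,1]) (.R ⟨0,false,false,true,[-1,1,1],[0,1],[1,1,1,1],(⟨0,[(1,0)]⟩,⟨0,[(13,0),
  (2,0)]⟩),(⟨0,[(17,0)]⟩,⟨0,[(16,0)]⟩),⟨0,[(13,0)]⟩,(.x 0 ⟨0,[(17,0)]⟩ ⟨3,[(11,0),(0,0),(2,1),(0,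
  3)]⟩),.k,.k,.k,.k,.k,⟨true,0,⟨0,[]⟩,⟨0,[(24,0)]⟩⟩,⟨false,1,⟨0,[(5,0)]⟩,⟨0,[(13,0),(10,0)]⟩⟩,⟨true,
  0,⟨0,[(8,0),(10,0),(1,0)]⟩,⟨0,[(6,0),(7,0),(4,0)]⟩⟩,⟨false,1,⟨1,[(4,0),(0,0),(2,0),(0,0)]⟩,⟨0,[(0,
  0),(5,0),(14,0)]⟩⟩,⟨false,0,⟨0,[]⟩,⟨0,[]⟩⟩,⟨false,0,⟨0,[]⟩,⟨0,[]⟩⟩,[.o ⟨false,0,⟨0,[(20,0)]⟩,⟨1,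
  [(15,0),(5,1),(1,0)]⟩⟩,.a ⟨true,0,⟨0,[(0,0)]⟩,⟨0,[(21,0)]⟩⟩ ⟨true,0,⟨1,[(6,0),(1,0),(5,0),(5,0)]⟩,
  ⟨0,[(21,0)]⟩⟩ ⟨false,1,⟨2,[(2,0),(0,0),(1,1),(0,0),(7,0),(5,1)]⟩,⟨0,[(13,0),(7,0)]⟩⟩,.o ⟨false,0,
  ⟨0,[(13,0)]⟩,⟨0,[(5,0),(4,0)]⟩⟩,.o ⟨false,0,⟨0,[(13,0),(10,0)]⟩,⟨0,[(2,0),(2,0)]⟩⟩]⟩) (.R ⟨0,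
  false,false,true,[1,0,-1],[0,1],[0,1,0,0,0,0,-1],(⟨0,[(13,0)]⟩,⟨0,[(14,0)]⟩),(⟨0,[(17,0)]⟩,⟨0,
  [(16,0)]⟩),⟨0,[(1,0)]⟩,.k,.k,(.x (-1) ⟨3,[(11,0),(0,0),(2,1),(0,3)]⟩ ⟨0,[(17,0)]⟩),(.x (-1) ⟨3,
  [(11,0),(0,0),(2,1),(0,3)]⟩ ⟨0,[(17,0)]⟩),.k,.k,⟨false,1,⟨0,[(0,0),(3,0),(8,0),(5,0)]⟩,⟨0,[(6,0),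
  (7,0),(5,0)]⟩⟩,⟨true,0,⟨0,[(13,0)]⟩,⟨0,[(2,0),(11,0)]⟩⟩,⟨true,0,⟨0,[(25,0)]⟩,⟨0,[]⟩⟩,⟨false,0,⟨0,
  [(6,0),(6,0),(0,0),(5,0)]⟩,⟨0,[(0,0),(3,0)]⟩⟩,⟨false,0,⟨0,[]⟩,⟨0,[]⟩⟩,⟨false,0,⟨0,[]⟩,⟨0,[]⟩⟩,[.o
  ⟨false,0,⟨0,[(20,0)]⟩,⟨3,[(0,3),(10,0),(0,0),(10,1)]⟩⟩,.o ⟨false,1,⟨3,[(11,0),(0,0),(7,3),(2,1)]⟩,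
  ⟨0,[(0,0)]⟩⟩,.o ⟨false,1,⟨7,[(5,5),(4,1),(0,0),(0,0),(1,1)]⟩,⟨3,[(0,1),(5,0),(0,0),(0,1),(4,1)]⟩⟩,
  .a ⟨true,0,⟨0,[(14,0)]⟩,⟨0,[(13,0)]⟩⟩ ⟨false,1,⟨1,[(11,0),(10,0)]⟩,⟨0,[(6,0),(7,0)]⟩⟩ ⟨true,0,⟨0,
  [(13,0),(6,0)]⟩,⟨0,[(0,0),(13,0)]⟩⟩]⟩)) (.Q [0,1,-1,-1,0,0,-1,0,1] (.p true [0,0,1] [] (⟨0,[(13,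
  0)]⟩,⟨0,[(12,0)]⟩) .k 0 (⟨0,[]⟩,⟨0,[]⟩) .k .k) (.R ⟨2,true,false,false,[0,1],[0,1,1],[1,0,1,1],
  (⟨0,[]⟩,⟨0,[]⟩),(⟨0,[(14,0),(2,0)]⟩,⟨0,[(1,0)]⟩),⟨0,[]⟩,.k,(.x 0 ⟨0,[(17,0)]⟩ ⟨3,[(11,0),(0,0),(2,
  1),(0,3)]⟩),.k,.k,(.x (-1) ⟨3,[(11,0),(0,0),(2,1),(0,3)]⟩ ⟨0,[(17,0)]⟩),.k,⟨false,1,⟨1,[(11,0),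
  (10,0)]⟩,⟨0,[(6,0),(7,0),(4,0)]⟩⟩,⟨true,0,⟨1,[(6,0),(1,0),(0,0),(3,0)]⟩,⟨0,[(14,0)]⟩⟩,⟨true,0,⟨0,
  []⟩,⟨0,[(25,0)]⟩⟩,⟨false,0,⟨0,[(6,0)]⟩,⟨3,[(0,1),(2,1),(7,0),(0,0)]⟩⟩,⟨false,1,⟨0,[(20,0),(2,0)]⟩,
  ⟨0,[(21,0)]⟩⟩,⟨true,0,⟨0,[(6,0),(13,0)]⟩,⟨0,[(0,0)]⟩⟩,[]⟩) (.Q [0,0,0,-1,0,0,0,0,-1] (.p false [0,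
  0,1] [] (⟨0,[(14,0)]⟩,⟨0,[(13,0)]⟩) .k 0 (⟨0,[]⟩,⟨0,[]⟩) .k .k) (.R ⟨1,false,false,false,[1,0,-1],
  [1,-1],[1,0,0,0,0,0,-1],(⟨0,[(14,0)]⟩,⟨0,[(15,0)]⟩),(⟨0,[(17,0)]⟩,⟨0,[(18,0)]⟩),⟨0,[(2,0)]⟩,.k,.k,
  (.x (-1) ⟨3,[(12,0),(0,0),(2,1),(0,3)]⟩ ⟨0,[(18,0)]⟩),(.r 0 ⟨0,[(9,0)]⟩ ⟨1,[(13,0),(8,1),(0,0)]⟩),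
  .k,.k,⟨true,0,⟨0,[(9,0)]⟩,⟨0,[(7,0),(7,0),(4,0),(1,0)]⟩⟩,⟨false,0,⟨5,[(0,2),(0,0),(6,0),(0,1),(1,
  0),(2,0)]⟩,⟨0,[(15,0),(7,0)]⟩⟩,⟨true,0,⟨0,[]⟩,⟨0,[(26,0)]⟩⟩,⟨false,0,⟨0,[(7,0),(14,0)]⟩,⟨0,[(4,0),
  (21,0)]⟩⟩,⟨false,1,⟨3,[(1,1),(2,1),(7,0),(0,0)]⟩,⟨0,[(22,0)]⟩⟩,⟨false,0,⟨0,[(7,0)]⟩,⟨0,[(5,0),(20,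
  0)]⟩⟩,[.e ⟨false,1,⟨1,[(12,0),(10,0)]⟩,⟨0,[(7,0),(7,0),(4,0)]⟩⟩ ⟨false,0,⟨0,[(0,0)]⟩,⟨3,[(4,1),(8,
  0),(1,1),(5,1),(1,0)]⟩⟩,.o ⟨false,1,⟨11,[(0,3),(5,3),(5,0),(0,0),(2,3),(2,7),(4,1)]⟩,⟨0,[(21,
  0)]⟩⟩,.o ⟨false,1,⟨7,[(6,5),(4,1),(0,0),(0,0),(1,1)]⟩,⟨5,[(0,2),(0,0),(6,0),(0,1),(1,0),(2,0)]⟩⟩,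
  .a ⟨true,0,⟨0,[(15,0)]⟩,⟨0,[(14,0)]⟩⟩ ⟨false,1,⟨0,[(0,0),(3,0)]⟩,⟨1,[(7,0),(0,0),(6,1)]⟩⟩ ⟨true,0,
  ⟨0,[(0,0)]⟩,⟨0,[(15,0),(5,0)]⟩⟩]⟩) (.I [1,-1,-1,0,1,0,-1] (.R ⟨1,false,false,false,[1,0,-1],[1,
  -1],[1,0,0,0,0,0,-1],(⟨0,[(15,0)]⟩,⟨0,[(16,0)]⟩),(⟨0,[(18,0)]⟩,⟨0,[(19,0)]⟩),⟨0,[(3,0)]⟩,.k,.k,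
  (.x (-1) ⟨3,[(13,0),(0,0),(2,1),(0,3)]⟩ ⟨0,[(19,0)]⟩),(.r 0 ⟨0,[(10,0)]⟩ ⟨1,[(14,0),(8,1),(0,
  0)]⟩),.k,.k,⟨true,0,⟨0,[(10,0)]⟩,⟨0,[(8,0),(7,0),(4,0),(1,0)]⟩⟩,⟨false,0,⟨1,[(8,0),(1,0),(0,0),(3,
  0)]⟩,⟨0,[(16,0),(7,0)]⟩⟩,⟨true,0,⟨0,[]⟩,⟨0,[(27,0)]⟩⟩,⟨false,0,⟨0,[(8,0),(14,0)]⟩,⟨0,[(5,0),(21,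
  0)]⟩⟩,⟨false,1,⟨3,[(2,1),(2,1),(7,0),(0,0)]⟩,⟨0,[(23,0)]⟩⟩,⟨false,0,⟨0,[(8,0)]⟩,⟨0,[(6,0),(20,
  0)]⟩⟩,[.a ⟨true,0,⟨0,[(23,0)]⟩,⟨0,[(1,0),(13,0)]⟩⟩ ⟨false,1,⟨1,[(13,0),(10,0)]⟩,⟨0,[(8,0),(7,0),
  (4,0)]⟩⟩ ⟨true,0,⟨3,[(8,0),(1,0),(0,2),(3,2),(4,1)]⟩,⟨0,[(1,0)]⟩⟩,.o ⟨false,1,⟨1,[(17,0),(5,1),(1,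
  0)]⟩,⟨0,[(22,0)]⟩⟩,.o ⟨false,1,⟨7,[(7,5),(4,1),(0,0),(0,0),(1,1)]⟩,⟨1,[(8,0),(1,0),(0,0),(3,0)]⟩⟩,
  .e ⟨false,1,⟨0,[(0,0)]⟩,⟨1,[(8,0),(0,0),(6,1)]⟩⟩ ⟨false,1,⟨1,[(15,1),(1,0),(5,1),(1,0)]⟩,⟨0,[(1,
  0)]⟩⟩]⟩) (.S ⟨1,0,[0,1,0,-1,0,0,-1],[1,0,-1],[1,0,0,0,0,0,-1],(⟨0,[(15,0)]⟩,⟨0,[(16,0)]⟩),⟨0,[(3,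
  0)]⟩,.k,(.x (-1) ⟨3,[(13,0),(0,0),(2,1),(0,3)]⟩ ⟨0,[(19,0)]⟩),⟨true,0,⟨0,[]⟩,⟨0,[(27,0)]⟩⟩,⟨false,
  0,⟨0,[(23,0)]⟩,⟨3,[(2,1),(2,1),(7,0),(0,0)]⟩⟩,⟨false,1,⟨3,[(2,1),(2,1),(7,0),(0,0)]⟩,⟨0,[(23,
  0)]⟩⟩,⟨true,0,⟨0,[(27,0)]⟩,⟨0,[]⟩⟩,[.o ⟨false,1,⟨1,[(7,0),(3,0),(1,0),(2,0),(6,0),(3,0)]⟩,⟨0,[(2,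
  0)]⟩⟩,.o ⟨false,1,⟨0,[(6,0),(4,0)]⟩,⟨2,[(2,1),(6,0),(12,0)]⟩⟩,.o ⟨false,1,⟨7,[(7,5),(4,1),(0,0),
  (0,0),(1,1)]⟩,⟨1,[(8,0),(1,0),(0,0),(3,0)]⟩⟩,.a ⟨true,0,⟨0,[(16,0)]⟩,⟨0,[(15,0)]⟩⟩ ⟨true,1,⟨1,
  [(13,0),(10,0)]⟩,⟨0,[(0,0)]⟩⟩ ⟨false,1,⟨1,[(13,0),(9,1),(0,0)]⟩,⟨1,[(0,0),(0,0),(0,0),(22,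
  0)]⟩⟩]⟩)))))) (.R ⟨2,true,false,true,[0,1],[0,0,1],[0,1,1],(⟨0,[]⟩,⟨0,[]⟩),(⟨0,[(11,0)]⟩,⟨0,[(10,
  0)]⟩),⟨0,[]⟩,.k,.k,.k,(.r 0 ⟨0,[(5,0)]⟩ ⟨1,[(9,0),(8,1),(0,0)]⟩),.k,.k,⟨true,0,⟨0,[(5,0),(12,0)]⟩,
  ⟨0,[(3,0),(7,0),(4,0)]⟩⟩,⟨false,0,⟨5,[(0,1),(2,1),(1,1),(2,0),(1,1),(1,0)]⟩,⟨0,[(11,0),(7,0)]⟩⟩,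
  ⟨false,0,⟨0,[(18,0)]⟩,⟨0,[(17,0),(2,0)]⟩⟩,⟨true,(-1),⟨0,[(0,0)]⟩,⟨0,[(1,0),(15,0)]⟩⟩,⟨true,0,⟨0,
  [(22,0)]⟩,⟨0,[]⟩⟩,⟨false,0,⟨1,[(3,0),(0,0)]⟩,⟨0,[(1,0)]⟩⟩,[]⟩)) (.K ⟨0,[0,0,1],0,(-1),(⟨0,[(10,
  0)]⟩,⟨0,[(9,0)]⟩),.k,(.r (-1) ⟨1,[(8,0),(8,1),(0,0)]⟩ ⟨0,[(4,0)]⟩),(.x 0 ⟨0,[(13,0)]⟩ ⟨3,[(7,0),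
  (0,0),(2,1),(0,3)]⟩),.k,.k,[⟨0,[(10,0)]⟩,⟨0,[(6,0),(2,0)]⟩,⟨1,[(7,0),(2,1),(7,0),(2,1)]⟩,⟨0,[(0,
  0)]⟩]⟩)) (.K ⟨0,[1,0,-1],1,1,(⟨0,[(8,0)]⟩,⟨0,[(9,0)]⟩),.k,(.x (-1) ⟨3,[(6,0),(0,0),(2,1),(0,3)]⟩
  ⟨0,[(12,0)]⟩),(.r 0 ⟨0,[(3,0)]⟩ ⟨1,[(7,0),(8,1),(0,0)]⟩),.k,.k,[⟨0,[(0,0)]⟩,⟨3,[(6,0),(0,0),(1,3),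
  (0,1)]⟩,⟨0,[(0,0),(0,0),(7,0),(4,1)]⟩,⟨1,[(6,0),(2,1),(0,0),(3,1)]⟩]⟩))))

def t2 : Tre :=
  (.I [0,0,-2,-1,1,0,-1] (.Q [0,0,-1,0,1,0,0,-2,1] (.p true [-1,1,1] [1] (⟨0,[(4,0)]⟩,⟨0,[(13,0),(2,
  0)]⟩) (.r 0 ⟨0,[(7,0),(6,0),(5,0)]⟩ ⟨7,[(0,3),(10,2),(0,0),(8,3)]⟩) 1 (⟨0,[]⟩,⟨0,[]⟩) .k .k) (.I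
  [0,0,1,2,0,0,1] (.Q [0,1,1,1,-1,0,1,1,-1] (.p false [0,0,1] [1] (⟨0,[(16,0)]⟩,⟨0,[(15,0)]⟩) .k 1
  (⟨0,[]⟩,⟨0,[]⟩) .k .k) (.K ⟨0,[-1,1,1],0,(-1),(⟨0,[(7,0)]⟩,⟨0,[(16,0),(2,0)]⟩),(.x 0 ⟨0,[(20,0)]⟩
  ⟨3,[(4,1),(9,0),(0,0),(9,1)]⟩),.k,(.r 0 ⟨12,[(0,0),(0,9),(4,5),(6,6),(1,0),(1,0),(3,0)]⟩ ⟨0,[(3,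
  0),(20,0)]⟩),.k,.k,[⟨1,[(4,0),(2,1)]⟩,⟨0,[(16,0),(10,0)]⟩,⟨19,[(2,3),(0,7),(8,11),(1,6),(0,0),(1,
  15),(10,7)]⟩,⟨0,[(0,0)]⟩]⟩) (.Q [0,0,0,-1,0,0,0,-1,1] (.p true [0,0,1] [1] (⟨0,[(17,0)]⟩,⟨0,[(16,
  0)]⟩) .k 1 (⟨0,[]⟩,⟨0,[]⟩) .k .k) (.I [1,0,0,1,0,0,1] (.R ⟨0,false,false,false,[1,0,-1],[0,1],[0,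
  0,0,-1,0,0,-1],(⟨0,[(18,0)]⟩,⟨0,[(19,0)]⟩),(⟨0,[(22,0)]⟩,⟨0,[(21,0)]⟩),⟨0,[(9,0)]⟩,.k,.k,(.x (-1)
  ⟨3,[(6,1),(9,0),(0,0),(9,1)]⟩ ⟨0,[(22,0)]⟩),(.x (-1) ⟨3,[(6,1),(9,0),(0,0),(9,1)]⟩ ⟨0,[(22,0)]⟩),
  .k,.k,⟨false,1,⟨0,[(5,0),(20,0)]⟩,⟨0,[(3,0)]⟩⟩,⟨true,0,⟨0,[(18,0)]⟩,⟨1,[(6,0),(2,1)]⟩⟩,⟨true,0,⟨0,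
  [(26,0)]⟩,⟨0,[(25,0)]⟩⟩,⟨false,0,⟨0,[(8,0),(3,0)]⟩,⟨23,[(1,15),(2,3),(0,7),(4,3),(5,6),(0,0),(12,
  3)]⟩⟩,⟨false,0,⟨0,[]⟩,⟨0,[]⟩⟩,⟨false,0,⟨0,[]⟩,⟨0,[]⟩⟩,[.a ⟨true,0,⟨0,[(8,0)]⟩,⟨0,[(26,0)]⟩⟩
  ⟨false,1,⟨7,[(5,3),(10,2),(0,0),(8,3)]⟩,⟨0,[(0,0)]⟩⟩ ⟨true,0,⟨0,[(8,0),(2,0)]⟩,⟨0,[(1,0)]⟩⟩,.o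
  ⟨false,1,⟨11,[(3,3),(3,3),(8,0),(0,0),(2,1),(7,3)]⟩,⟨0,[(14,0)]⟩⟩,.o ⟨false,1,⟨5,[(4,2),(5,1),(6,
  0),(1,0),(4,0),(5,0)]⟩,⟨0,[(11,0)]⟩⟩,.e ⟨false,1,⟨0,[(2,0),(15,0)]⟩,⟨2,[(3,1),(9,0),(15,1)]⟩⟩
  ⟨false,1,⟨15,[(3,1),(3,11),(3,5),(0,3),(4,2),(0,5),(1,0)]⟩,⟨0,[(1,0)]⟩⟩]⟩) (.R ⟨0,false,false,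
  false,[1,0,-1],[0,1],[],(⟨0,[(18,0)]⟩,⟨0,[(19,0)]⟩),(⟨0,[(22,0)]⟩,⟨0,[(21,0)]⟩),⟨0,[(9,0)]⟩,.k,.k,
  (.x (-1) ⟨3,[(6,1),(9,0),(0,0),(9,1)]⟩ ⟨0,[(22,0)]⟩),(.x (-1) ⟨3,[(6,1),(9,0),(0,0),(9,1)]⟩ ⟨0,
  [(22,0)]⟩),.k,.k,⟨false,1,⟨5,[(5,3),(7,1),(3,0),(9,0)]⟩,⟨0,[(0,0),(2,0)]⟩⟩,⟨true,0,⟨0,[(18,0)]⟩,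
  ⟨1,[(6,0),(2,1)]⟩⟩,⟨true,0,⟨2,[(3,0),(9,1),(15,0)]⟩,⟨0,[(0,0),(24,0)]⟩⟩,⟨false,0,⟨0,[(8,0),(3,
  0)]⟩,⟨23,[(1,15),(2,3),(0,7),(4,3),(5,6),(0,0),(12,3)]⟩⟩,⟨false,0,⟨0,[]⟩,⟨0,[]⟩⟩,⟨false,0,⟨0,[]⟩,
  ⟨0,[]⟩⟩,[.a ⟨true,0,⟨0,[(8,0)]⟩,⟨0,[(26,0)]⟩⟩ ⟨false,1,⟨3,[(16,0),(0,0),(9,1)]⟩,⟨0,[]⟩⟩ ⟨true,0,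
  ⟨0,[(8,0),(2,0)]⟩,⟨0,[(1,0)]⟩⟩,.o ⟨false,1,⟨11,[(3,3),(3,3),(8,0),(0,0),(2,1),(7,3)]⟩,⟨0,[(14,
  0)]⟩⟩,.o ⟨false,1,⟨5,[(4,2),(5,1),(6,0),(1,0),(4,0),(5,0)]⟩,⟨0,[(11,0)]⟩⟩,.e ⟨false,1,⟨1,[(27,0),
  (0,0)]⟩,⟨0,[(29,0)]⟩⟩ ⟨false,1,⟨15,[(3,1),(3,11),(3,5),(0,3),(4,2),(0,5),(1,0)]⟩,⟨0,[(1,0)]⟩⟩]⟩))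
  (.R ⟨0,false,false,false,[1,0,-1],[0,1],[1,0,0,0,0,0,-1],(⟨0,[(17,0)]⟩,⟨0,[(18,0)]⟩),(⟨0,[(21,
  0)]⟩,⟨0,[(20,0)]⟩),⟨0,[(8,0)]⟩,.k,.k,(.x (-1) ⟨3,[(5,1),(9,0),(0,0),(9,1)]⟩ ⟨0,[(21,0)]⟩),(.x
  (-1) ⟨3,[(5,1),(9,0),(0,0),(9,1)]⟩ ⟨0,[(21,0)]⟩),.k,.k,⟨false,1,⟨0,[(4,0)]⟩,⟨2,[(2,1),(9,0),(15,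
  1)]⟩⟩,⟨true,0,⟨0,[(17,0)]⟩,⟨1,[(5,0),(2,1)]⟩⟩,⟨true,0,⟨0,[]⟩,⟨0,[(29,0)]⟩⟩,⟨false,0,⟨0,[(7,0),(3,
  0)]⟩,⟨0,[(9,0),(3,0)]⟩⟩,⟨false,0,⟨0,[]⟩,⟨0,[]⟩⟩,⟨false,0,⟨0,[]⟩,⟨0,[]⟩⟩,[.e ⟨false,1,⟨1,[(15,0),
  (10,0)]⟩,⟨2,[(2,0),(9,1),(15,0)]⟩⟩ ⟨false,0,⟨0,[(0,0)]⟩,⟨21,[(1,7),(1,2),(0,4),(7,0),(0,7),(2,5),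
  (1,10)]⟩⟩,.o ⟨false,1,⟨11,[(2,3),(3,3),(8,0),(0,0),(2,1),(7,3)]⟩,⟨0,[(13,0)]⟩⟩,.o ⟨false,1,⟨5,[(3,
  2),(5,1),(6,0),(1,0),(4,0),(5,0)]⟩,⟨0,[(10,0)]⟩⟩,.a ⟨true,0,⟨0,[(18,0)]⟩,⟨0,[(17,0)]⟩⟩ ⟨false,1,
  ⟨0,[(0,0),(0,0)]⟩,⟨2,[(2,0),(9,1),(15,3)]⟩⟩ ⟨true,0,⟨0,[(0,0)]⟩,⟨0,[(13,0),(4,0)]⟩⟩]⟩))) (.I [1,0,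
  -1,-1] (.R ⟨0,false,false,false,[1,0,-1],[0,1],[0,0,1,1],(⟨0,[(16,0)]⟩,⟨0,[(17,0)]⟩),(⟨0,[(20,
  0)]⟩,⟨0,[(19,0)]⟩),⟨0,[(7,0)]⟩,.k,.k,(.x (-1) ⟨3,[(4,1),(9,0),(0,0),(9,1)]⟩ ⟨0,[(20,0)]⟩),(.x
  (-1) ⟨3,[(4,1),(9,0),(0,0),(9,1)]⟩ ⟨0,[(20,0)]⟩),.k,.k,⟨false,1,⟨3,[(14,0),(0,0),(9,1)]⟩,⟨0,[]⟩⟩,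
  ⟨true,0,⟨0,[(16,0)]⟩,⟨1,[(4,0),(2,1)]⟩⟩,⟨true,0,⟨0,[(10,0),(6,0),(5,0)]⟩,⟨0,[(1,0),(21,0)]⟩⟩,
  ⟨false,0,⟨0,[(6,0),(3,0)]⟩,⟨0,[(8,0),(3,0)]⟩⟩,⟨false,0,⟨0,[]⟩,⟨0,[]⟩⟩,⟨false,0,⟨0,[]⟩,⟨0,[]⟩⟩,[.a
  ⟨true,0,⟨0,[(6,0)]⟩,⟨0,[(24,0)]⟩⟩ ⟨false,1,⟨15,[(5,7),(7,3),(0,0),(0,4),(2,1),(4,7)]⟩,⟨0,[(0,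
  0)]⟩⟩ ⟨true,0,⟨0,[(6,0),(2,0)]⟩,⟨1,[(0,1),(3,0),(2,1)]⟩⟩,.o ⟨false,1,⟨0,[(23,0),(2,0)]⟩,⟨0,[(12,
  0)]⟩⟩,.o ⟨false,1,⟨5,[(2,2),(5,1),(6,0),(1,0),(4,0),(5,0)]⟩,⟨0,[(9,0)]⟩⟩,.e ⟨false,1,⟨0,[(23,0),
  (2,0)]⟩,⟨0,[(24,0)]⟩⟩ ⟨false,1,⟨4,[(5,3),(3,1),(0,1),(4,0),(0,0),(6,0)]⟩,⟨1,[(0,1),(3,0),(2,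
  1)]⟩⟩]⟩) (.R ⟨0,false,false,false,[1,0,-1],[1,-1],[],(⟨0,[(16,0)]⟩,⟨0,[(17,0)]⟩),(⟨0,[(19,0)]⟩,⟨0,
  [(20,0)]⟩),⟨0,[(7,0)]⟩,.k,.k,(.x (-1) ⟨3,[(4,1),(9,0),(0,0),(9,1)]⟩ ⟨0,[(20,0)]⟩),(.x (-1) ⟨0,
  [(20,0),(4,0)]⟩ ⟨1,[(4,0),(22,1)]⟩),.k,.k,⟨true,0,⟨0,[(0,0)]⟩,⟨0,[(24,0)]⟩⟩,⟨false,0,⟨0,[(9,0)]⟩,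
  ⟨0,[(17,0),(7,0)]⟩⟩,⟨true,0,⟨1,[(10,0),(0,0),(5,0),(5,0)]⟩,⟨0,[(0,0),(0,0),(21,0)]⟩⟩,⟨false,0,⟨1,
  [(9,0),(0,0),(0,0),(9,0)]⟩,⟨0,[(8,0),(14,0)]⟩⟩,⟨false,0,⟨0,[]⟩,⟨0,[]⟩⟩,⟨false,0,⟨0,[]⟩,⟨0,[]⟩⟩,
  [.e ⟨false,1,⟨3,[(14,0),(0,0),(9,1)]⟩,⟨0,[]⟩⟩ ⟨false,0,⟨1,[(1,0),(7,0),(0,0),(11,0)]⟩,⟨5,[(2,1),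
  (3,3),(1,1),(6,0),(1,1),(5,1),(1,0)]⟩⟩,.o ⟨false,1,⟨5,[(1,1),(13,0),(2,2),(2,1),(4,1)]⟩,⟨0,[(23,
  0)]⟩⟩,.o ⟨false,1,⟨5,[(2,2),(5,1),(6,0),(1,0),(4,0),(5,0)]⟩,⟨0,[(9,0)]⟩⟩,.a ⟨true,0,⟨0,[(17,0)]⟩,
  ⟨0,[(16,0)]⟩⟩ ⟨false,1,⟨1,[(25,0),(0,0)]⟩,⟨0,[(27,0)]⟩⟩ ⟨true,0,⟨1,[(1,0),(7,0),(0,0),(11,0)]⟩,⟨0,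
  [(17,0),(5,0)]⟩⟩]⟩))) (.Q [0,1,-1,-1,1,0,-1,-2,1] (.p true [-1,1,1] [1] (⟨0,[(5,0)]⟩,⟨0,[(14,0),
  (2,0)]⟩) (.r 0 ⟨0,[(8,0),(6,0),(5,0)]⟩ ⟨7,[(1,3),(10,2),(0,0),(8,3)]⟩) 1 (⟨0,[]⟩,⟨0,[]⟩) .k .k)
  (.K ⟨0,[2,-1,-1],1,1,(⟨0,[(15,0),(2,0)]⟩,⟨0,[(6,0)]⟩),(.x (-1) ⟨3,[(3,1),(9,0),(0,0),(9,1)]⟩ ⟨0,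
  [(19,0)]⟩),(.r (-1) ⟨0,[(2,0),(20,0)]⟩ ⟨1,[(3,0),(1,1),(0,1),(2,1),(12,1)]⟩),.k,.k,.k,[⟨0,[(1,
  0)]⟩,⟨21,[(0,1),(6,3),(4,13),(1,2),(1,15),(0,12),(4,1)]⟩,⟨1,[(1,1),(7,0),(0,0),(5,0),(5,2)]⟩,⟨0,
  [(0,0)]⟩]⟩) (.K ⟨0,[-1,1,1],0,(-1),(⟨0,[(6,0)]⟩,⟨0,[(15,0),(2,0)]⟩),(.x 0 ⟨0,[(19,0)]⟩ ⟨3,[(3,1),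
  (9,0),(0,0),(9,1)]⟩),.k,(.r 0 ⟨5,[(0,3),(2,1),(2,3),(5,1),(1,0),(2,0),(4,7),(2,1)]⟩ ⟨0,[(2,0),(20,
  0)]⟩),.k,.k,[⟨1,[(3,0),(2,1)]⟩,⟨3,[(1,1),(6,1),(4,0),(0,0)]⟩,⟨0,[(7,0),(3,0),(15,0)]⟩,⟨0,[(0,0),
  (10,0),(10,0)]⟩]⟩))) (.Q [0,0,-2,0,1,0,0,-2,2] (.p true [0,0,1] [2,-1,-1] (⟨0,[(14,0)]⟩,⟨0,[(13,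
  0)]⟩) .k 2 (⟨0,[(13,0),(2,0)]⟩,⟨0,[(4,0)]⟩) (.r (-1) ⟨0,[(8,0),(2,0)]⟩ ⟨9,[(0,5),(1,1),(9,2),(2,
  0),(4,1)]⟩) (.r 0 ⟨2,[(0,1),(7,1),(3,0),(9,0)]⟩ ⟨0,[(11,0)]⟩)) (.R ⟨0,false,false,false,[-1,1,1],
  [0,1],[0,0,1],(⟨0,[(5,0)]⟩,⟨0,[(14,0),(2,0)]⟩),(⟨0,[(18,0)]⟩,⟨0,[(17,0)]⟩),⟨0,[(14,0)]⟩,(.x 0 ⟨0,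
  [(18,0)]⟩ ⟨3,[(2,1),(9,0),(0,0),(9,1)]⟩),.k,.k,.k,.k,.k,⟨true,0,⟨0,[(22,0)]⟩,⟨2,[(1,0),(1,0),(7,
  0),(9,0)]⟩⟩,⟨false,1,⟨1,[(0,0),(22,0)]⟩,⟨0,[(14,0),(10,0)]⟩⟩,⟨false,1,⟨3,[(9,1),(2,2),(6,1),(4,
  0)]⟩,⟨0,[(1,0),(21,0)]⟩⟩,⟨true,1,⟨1,[(0,0),(11,0)]⟩,⟨0,[(1,0),(12,0),(5,0),(1,0)]⟩⟩,⟨false,0,⟨0,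
  []⟩,⟨0,[]⟩⟩,⟨false,0,⟨0,[]⟩,⟨0,[]⟩⟩,[.a ⟨true,0,⟨0,[(4,0)]⟩,⟨0,[(22,0)]⟩⟩ ⟨true,0,⟨0,[(25,0)]⟩,⟨0,
  []⟩⟩ ⟨false,1,⟨9,[(0,4),(0,1),(1,3),(9,0),(2,1),(4,3)]⟩,⟨0,[(14,0),(7,0)]⟩⟩,.o ⟨false,1,⟨5,[(1,1),
  (1,3),(9,0),(2,1),(7,0)]⟩,⟨0,[(10,0)]⟩⟩,.o ⟨false,0,⟨0,[(14,0)]⟩,⟨7,[(0,3),(10,3),(0,0),(0,0),(2,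
  1)]⟩⟩,.o ⟨false,0,⟨0,[(14,0),(10,0)]⟩,⟨1,[(0,0),(15,0)]⟩⟩]⟩) (.Q [0,1,1,-1,-1,0,1,0,-1] (.p false
  [0,0,1] [] (⟨0,[(15,0)]⟩,⟨0,[(14,0)]⟩) .k 0 (⟨0,[]⟩,⟨0,[]⟩) .k .k) (.R ⟨0,false,false,true,[1,0,
  -1],[1,-1],[0,1],(⟨0,[(15,0)]⟩,⟨0,[(16,0)]⟩),(⟨0,[(18,0)]⟩,⟨0,[(19,0)]⟩),⟨0,[(6,0)]⟩,.k,.k,(.x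
  (-1) ⟨3,[(3,1),(9,0),(0,0),(9,1)]⟩ ⟨0,[(19,0)]⟩),(.x (-1) ⟨0,[(19,0),(4,0)]⟩ ⟨11,[(1,1),(1,5),(8,
  3),(0,0),(0,0),(1,3)]⟩),.k,.k,⟨true,0,⟨2,[(2,0),(1,0),(7,0),(9,0)]⟩,⟨0,[(23,0)]⟩⟩,⟨false,0,⟨0,[(8,
  0)]⟩,⟨0,[(16,0),(7,0)]⟩⟩,⟨false,0,⟨5,[(2,1),(7,1),(3,0),(9,0)]⟩,⟨1,[(13,0),(11,0)]⟩⟩,⟨true,(-1),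
  ⟨0,[(0,0)]⟩,⟨0,[(7,0),(14,0)]⟩⟩,⟨false,0,⟨0,[]⟩,⟨0,[]⟩⟩,⟨false,0,⟨0,[]⟩,⟨0,[]⟩⟩,[.o ⟨false,0,⟨0,
  [(11,0)]⟩,⟨5,[(2,1),(1,3),(9,0),(2,1),(7,0)]⟩⟩,.a ⟨true,0,⟨0,[(23,0)]⟩,⟨0,[(5,0)]⟩⟩ ⟨false,1,⟨3,
  [(13,0),(0,0),(9,1)]⟩,⟨0,[]⟩⟩ ⟨true,0,⟨3,[(0,1),(12,0),(1,1),(1,0),(2,1)]⟩,⟨0,[(2,0),(4,0),(13,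
  0)]⟩⟩,.o ⟨false,1,⟨1,[(16,1),(0,0),(6,0)]⟩,⟨0,[(8,0)]⟩⟩,.e ⟨true,0,⟨0,[(21,0)]⟩,⟨11,[(1,1),(10,3),
  (0,0),(0,0),(1,3)]⟩⟩ ⟨true,0,⟨0,[(11,0),(3,0)]⟩,⟨0,[(2,0),(4,0),(13,0)]⟩⟩]⟩) (.I [1,-1,0,0,0,0,1]
  (.R ⟨0,false,false,false,[1,0,-1],[1,-1],[0,1,0,0,0,0,-1],(⟨0,[(16,0)]⟩,⟨0,[(17,0)]⟩),(⟨0,[(19,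
  0)]⟩,⟨0,[(20,0)]⟩),⟨0,[(7,0)]⟩,.k,.k,(.x (-1) ⟨3,[(4,1),(9,0),(0,0),(9,1)]⟩ ⟨0,[(20,0)]⟩),(.r
  (-1) ⟨5,[(5,1),(0,1),(6,3),(0,2),(0,0),(7,1)]⟩ ⟨0,[(0,0),(21,0),(1,0)]⟩),.k,.k,⟨true,0,⟨0,[(3,0),
  (10,0),(7,0)]⟩,⟨1,[(0,0),(10,0),(9,0)]⟩⟩,⟨false,0,⟨0,[(9,0)]⟩,⟨0,[(17,0),(7,0)]⟩⟩,⟨true,0,⟨0,[(28,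
  0)]⟩,⟨0,[]⟩⟩,⟨false,0,⟨3,[(2,0),(7,1),(0,1),(6,0),(2,1)]⟩,⟨0,[(8,0),(14,0)]⟩⟩,⟨false,0,⟨0,[]⟩,⟨0,
  []⟩⟩,⟨false,0,⟨0,[]⟩,⟨0,[]⟩⟩,[.a ⟨true,0,⟨0,[(24,0)]⟩,⟨0,[(6,0)]⟩⟩ ⟨false,1,⟨1,[(14,0),(10,0),(2,
  1)]⟩,⟨0,[(0,0)]⟩⟩ ⟨true,0,⟨3,[(2,0),(9,1),(3,1),(1,0),(2,1)]⟩,⟨1,[(1,0),(1,0),(13,0),(4,0)]⟩⟩,.o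
  ⟨false,1,⟨3,[(11,1),(2,0),(3,1),(2,1),(4,0)]⟩,⟨0,[(23,0)]⟩⟩,.o ⟨false,1,⟨1,[(17,1),(0,0),(6,0)]⟩,
  ⟨0,[(9,0)]⟩⟩,.e ⟨false,1,⟨1,[(14,0),(10,0)]⟩,⟨5,[(0,1),(2,1),(11,0),(5,1),(4,0)]⟩⟩ ⟨false,1,⟨3,
  [(11,1),(2,0),(1,3),(1,1),(2,1),(4,0)]⟩,⟨1,[(1,0),(1,0),(13,0),(4,0)]⟩⟩]⟩) (.R ⟨0,false,false,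
  false,[1,0,-1],[1,-1],[],(⟨0,[(16,0)]⟩,⟨0,[(17,0)]⟩),(⟨0,[(19,0)]⟩,⟨0,[(20,0)]⟩),⟨0,[(7,0)]⟩,.k,
  .k,(.x (-1) ⟨3,[(4,1),(9,0),(0,0),(9,1)]⟩ ⟨0,[(20,0)]⟩),(.x (-1) ⟨0,[(20,0),(4,0)]⟩ ⟨11,[(2,1),(1,
  5),(8,3),(0,0),(0,0),(1,3)]⟩),.k,.k,⟨true,0,⟨2,[(3,0),(1,0),(7,0),(9,0)]⟩,⟨0,[(24,0)]⟩⟩,⟨false,0,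
  ⟨0,[(9,0)]⟩,⟨0,[(17,0),(7,0)]⟩⟩,⟨true,0,⟨5,[(3,1),(7,1),(3,0),(9,0)]⟩,⟨0,[(0,0)]⟩⟩,⟨false,0,⟨3,
  [(2,0),(7,1),(0,1),(6,0),(2,1)]⟩,⟨0,[(8,0),(14,0)]⟩⟩,⟨false,0,⟨0,[]⟩,⟨0,[]⟩⟩,⟨false,0,⟨0,[]⟩,⟨0,
  []⟩⟩,[.a ⟨true,0,⟨0,[(24,0)]⟩,⟨0,[(6,0)]⟩⟩ ⟨false,1,⟨3,[(14,0),(0,0),(9,1)]⟩,⟨0,[]⟩⟩ ⟨true,0,⟨3,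
  [(2,0),(9,1),(3,1),(1,0),(2,1)]⟩,⟨1,[(1,0),(1,0),(13,0),(4,0)]⟩⟩,.o ⟨false,1,⟨3,[(11,1),(2,0),(3,
  1),(2,1),(4,0)]⟩,⟨0,[(23,0)]⟩⟩,.o ⟨false,1,⟨1,[(17,1),(0,0),(6,0)]⟩,⟨0,[(9,0)]⟩⟩,.e ⟨false,1,⟨1,
  [(25,0),(0,0)]⟩,⟨11,[(2,1),(10,3),(0,0),(0,0),(1,3)]⟩⟩ ⟨false,1,⟨3,[(11,1),(2,0),(1,3),(1,1),(2,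
  1),(4,0)]⟩,⟨1,[(1,0),(1,0),(13,0),(4,0)]⟩⟩]⟩)))))

def t3 : Tre :=
  (.Q [0,0,0,0,0,1,0,-1,1] (.ed false [0,1,1] .k) (.Q [0,0,0,1,0,0,0,1] (.pp false [-1,1]) (.Q [0,
  -1,-1,1,1,0,-1,1] (.pp false [-1,1]) (.I [0,0,-2,0,0,2] (.R ⟨0,false,false,false,[1,0,-1],[0,1,
  -1],[1,0,1],(⟨0,[(12,0)]⟩,⟨0,[(13,0)]⟩),(⟨1,[(0,0),(4,1)]⟩,⟨0,[(13,0),(1,0)]⟩),⟨0,[(3,0)]⟩,.k,(.x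
  (-1) ⟨3,[(0,1),(9,0),(0,0),(9,1)]⟩ ⟨0,[(9,0),(5,0)]⟩),(.x (-1) ⟨3,[(10,0),(0,0),(2,1),(0,3)]⟩ ⟨0,
  [(16,0)]⟩),.k,.k,.k,⟨false,0,⟨0,[(7,0)]⟩,⟨15,[(1,7),(7,3),(0,4),(0,0),(2,1),(4,7)]⟩⟩,⟨true,0,⟨1,
  [(0,0),(14,1)]⟩,⟨0,[(9,0)]⟩⟩,⟨false,0,⟨0,[(6,0),(6,0)]⟩,⟨1,[(10,0),(10,0)]⟩⟩,⟨true,0,⟨0,[(2,0)]⟩,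
  ⟨0,[(8,0)]⟩⟩,⟨false,0,⟨0,[]⟩,⟨0,[]⟩⟩,⟨false,0,⟨0,[]⟩,⟨0,[]⟩⟩,[.o ⟨false,1,⟨0,[(4,0),(14,0)]⟩,⟨0,
  [(6,0),(1,0)]⟩⟩,.e ⟨false,1,⟨3,[(10,0),(0,0),(10,1)]⟩,⟨0,[(18,0)]⟩⟩ ⟨false,1,⟨0,[(1,0)]⟩,⟨1,[(7,
  1),(0,0),(0,0),(9,0)]⟩⟩,.o ⟨false,1,⟨1,[(13,1),(0,0),(6,0)]⟩,⟨0,[(5,0)]⟩⟩,.a ⟨true,0,⟨0,[(13,0)]⟩,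
  ⟨0,[(12,0)]⟩⟩ ⟨true,0,⟨0,[]⟩,⟨0,[(24,0)]⟩⟩ ⟨false,1,⟨0,[(1,0)]⟩,⟨0,[(7,0),(1,0)]⟩⟩]⟩) t2) (.Q [0,
  0,1,0,0,0,0,-1,1] (.p true [0,0,1] [1] (⟨0,[(12,0)]⟩,⟨0,[(11,0)]⟩) .k 1 (⟨0,[]⟩,⟨0,[]⟩) .k .k)
  (.R ⟨0,false,false,false,[1,0,-1],[0,1],[1,1,1],(⟨0,[(12,0)]⟩,⟨0,[(13,0)]⟩),(⟨0,[(16,0)]⟩,⟨0,[(15,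
  0)]⟩),⟨0,[(3,0)]⟩,.k,.k,(.x (-1) ⟨3,[(10,0),(0,0),(2,1),(0,3)]⟩ ⟨0,[(16,0)]⟩),(.x (-1) ⟨3,[(10,0),
  (0,0),(2,1),(0,3)]⟩ ⟨0,[(16,0)]⟩),.k,.k,⟨false,0,⟨0,[(18,0),(1,0)]⟩,⟨0,[(19,0),(2,0)]⟩⟩,⟨true,0,
  ⟨0,[(12,0)]⟩,⟨0,[(0,0)]⟩⟩,⟨true,(-1),⟨0,[(1,0),(0,0)]⟩,⟨1,[(10,0),(10,0)]⟩⟩,⟨false,0,⟨0,[(2,0),(3,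
  0)]⟩,⟨0,[(4,0),(3,0)]⟩⟩,⟨false,0,⟨0,[]⟩,⟨0,[]⟩⟩,⟨false,0,⟨0,[]⟩,⟨0,[]⟩⟩,[.a ⟨true,0,⟨0,[(2,0)]⟩,
  ⟨0,[(20,0)]⟩⟩ ⟨false,0,⟨0,[(24,0)]⟩,⟨1,[(21,0),(0,0)]⟩⟩ ⟨true,0,⟨0,[(2,0),(2,0)]⟩,⟨0,[(1,0),(2,
  0)]⟩⟩,.o ⟨false,1,⟨0,[(19,0),(2,0)]⟩,⟨0,[(8,0)]⟩⟩,.o ⟨false,1,⟨1,[(13,1),(0,0),(6,0)]⟩,⟨0,[(5,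
  0)]⟩⟩,.e ⟨false,0,⟨0,[]⟩,⟨3,[(10,0),(0,0),(10,1)]⟩⟩ ⟨false,1,⟨0,[(12,0),(6,0),(2,0)]⟩,⟨0,[(1,0),
  (2,0)]⟩⟩]⟩) (.R ⟨2,true,false,true,[0,1],[1,-1],[0,0,1],(⟨0,[]⟩,⟨0,[]⟩),(⟨0,[(15,0)]⟩,⟨0,[(16,
  0)]⟩),⟨0,[]⟩,.k,.k,.k,(.r (-1) ⟨3,[(2,3),(6,3),(0,0),(0,0),(7,3),(2,1)]⟩ ⟨0,[(0,1),(0,1),(2,1)]⟩),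
  .k,.k,⟨false,1,⟨7,[(2,3),(6,3),(0,0),(0,0),(7,3),(2,5)]⟩,⟨0,[(0,0),(0,0),(2,0),(13,0)]⟩⟩,⟨true,0,
  ⟨0,[(9,0)]⟩,⟨0,[(0,0),(12,0)]⟩⟩,⟨true,0,⟨0,[(20,0)]⟩,⟨0,[(19,0)]⟩⟩,⟨false,0,⟨3,[(0,3),(0,5),(2,3),
  (5,0),(3,0),(2,1)]⟩,⟨0,[(2,0),(16,0),(2,0)]⟩⟩,⟨false,1,⟨3,[(10,0),(0,0),(10,1)]⟩,⟨0,[]⟩⟩,⟨true,0,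
  ⟨0,[(8,0)]⟩,⟨0,[(2,0)]⟩⟩,[]⟩))) (.Q [0,0,1,0,0,0,0,-1,1] (.p true [0,0,1] [1] (⟨0,[(11,0)]⟩,⟨0,
  [(10,0)]⟩) .k 1 (⟨0,[]⟩,⟨0,[]⟩) .k .k) (.R ⟨0,false,false,true,[1,0,-1],[0,1],[0,1,0,0,0,0,-1],
  (⟨0,[(11,0)]⟩,⟨0,[(12,0)]⟩),(⟨0,[(15,0)]⟩,⟨0,[(14,0)]⟩),⟨0,[(2,0)]⟩,.k,.k,(.x (-1) ⟨3,[(9,0),(0,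
  0),(2,1),(0,3)]⟩ ⟨0,[(15,0)]⟩),(.x (-1) ⟨3,[(9,0),(0,0),(2,1),(0,3)]⟩ ⟨0,[(15,0)]⟩),.k,.k,⟨false,
  1,⟨0,[(1,0),(1,0),(7,0),(5,0)]⟩,⟨0,[(5,0),(6,0),(5,0)]⟩⟩,⟨true,0,⟨0,[(11,0)]⟩,⟨0,[(0,0)]⟩⟩,⟨true,
  0,⟨0,[(23,0)]⟩,⟨0,[]⟩⟩,⟨false,0,⟨0,[(5,0),(5,0),(0,0),(5,0)]⟩,⟨0,[(1,0),(1,0)]⟩⟩,⟨false,0,⟨0,[]⟩,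
  ⟨0,[]⟩⟩,⟨false,0,⟨0,[]⟩,⟨0,[]⟩⟩,[.o ⟨false,0,⟨0,[(18,0)]⟩,⟨3,[(6,1),(2,0),(3,1),(2,1),(4,0)]⟩⟩,.o
  ⟨false,1,⟨3,[(9,0),(0,0),(7,3),(2,1)]⟩,⟨0,[(1,0)]⟩⟩,.o ⟨false,1,⟨1,[(12,1),(0,0),(6,0)]⟩,⟨0,[(4,
  0)]⟩⟩,.a ⟨true,0,⟨0,[(12,0)]⟩,⟨0,[(11,0)]⟩⟩ ⟨false,1,⟨1,[(9,0),(10,0)]⟩,⟨0,[(5,0),(6,0)]⟩⟩ ⟨true,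
  0,⟨0,[(11,0),(6,0)]⟩,⟨0,[(1,0),(10,0)]⟩⟩]⟩) (.R ⟨0,false,false,false,[1,-1],[1,-1,1],[1,0,-1,-1],
  (⟨0,[(14,0)]⟩,⟨0,[(15,0)]⟩),(⟨0,[(12,0),(1,0)]⟩,⟨0,[(0,0),(1,0),(1,0)]⟩),⟨0,[(0,0),(1,1),(1,0)]⟩,
  .k,(.r 0 ⟨0,[(0,1),(0,1),(0,2),(2,0),(8,2),(3,0)]⟩ ⟨1,[(9,0),(8,1),(2,0),(0,1)]⟩),(.r 0 ⟨0,[(0,1),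
  (0,1),(10,1)]⟩ ⟨0,[(18,1),(2,0),(0,1)]⟩),.k,.k,.k,⟨false,1,⟨1,[(9,0),(10,0)]⟩,⟨1,[(5,0),(0,0),(5,
  0),(5,0)]⟩⟩,⟨true,0,⟨0,[(4,0)]⟩,⟨0,[(12,0)]⟩⟩,⟨true,0,⟨0,[]⟩,⟨0,[(23,0)]⟩⟩,⟨false,0,⟨0,[(5,0)]⟩,
  ⟨0,[(3,0),(19,0)]⟩⟩,⟨false,0,⟨0,[]⟩,⟨0,[]⟩⟩,⟨false,0,⟨0,[]⟩,⟨0,[]⟩⟩,[.o ⟨false,0,⟨0,[(5,0),(1,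
  0)]⟩,⟨0,[(3,0),(14,0)]⟩⟩,.o ⟨false,0,⟨0,[(1,0),(3,0)]⟩,⟨0,[(3,0),(14,0),(4,0)]⟩⟩,.a ⟨true,0,⟨0,
  [(22,0)]⟩,⟨0,[(0,0),(11,0)]⟩⟩ ⟨true,0,⟨0,[(0,0),(0,0),(10,0)]⟩,⟨0,[(18,0),(3,0)]⟩⟩ ⟨false,0,⟨0,
  [(0,0),(0,0),(3,0),(6,0)]⟩,⟨0,[(3,0),(14,0),(3,0)]⟩⟩,.o ⟨false,0,⟨0,[(8,0)]⟩,⟨0,[(20,0)]⟩⟩]⟩)))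
  (.Q [0,1,-1,-1,0,0,-1,0,1] (.p true [0,0,1] [] (⟨0,[(10,0)]⟩,⟨0,[(9,0)]⟩) .k 0 (⟨0,[]⟩,⟨0,[]⟩) .k
  .k) (.R ⟨2,true,false,false,[0,1],[0,1,1],[1,0,1,1],(⟨0,[]⟩,⟨0,[]⟩),(⟨0,[(11,0),(2,0)]⟩,⟨0,[(1,
  0)]⟩),⟨0,[]⟩,.k,(.x 0 ⟨0,[(14,0)]⟩ ⟨3,[(8,0),(0,0),(2,1),(0,3)]⟩),.k,.k,(.x (-1) ⟨3,[(8,0),(0,0),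
  (2,1),(0,3)]⟩ ⟨0,[(14,0)]⟩),.k,⟨false,1,⟨1,[(8,0),(10,0)]⟩,⟨1,[(4,0),(0,0),(5,0),(5,0)]⟩⟩,⟨true,0,
  ⟨0,[(3,0)]⟩,⟨0,[(11,0)]⟩⟩,⟨true,0,⟨0,[]⟩,⟨0,[(22,0)]⟩⟩,⟨false,0,⟨0,[(4,0)]⟩,⟨5,[(0,1),(1,3),(5,0),
  (0,0),(7,1)]⟩⟩,⟨false,1,⟨0,[(17,0),(2,0)]⟩,⟨0,[(18,0)]⟩⟩,⟨true,0,⟨0,[(4,0),(12,0)]⟩,⟨0,[(0,0)]⟩⟩,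
  []⟩) (.Q [0,0,-1,0,0,0,0,1] (.pp false [-1,1]) (.R ⟨2,false,false,false,[0,1],[0,1,1],[0,0,1],(⟨0,
  []⟩,⟨0,[]⟩),(⟨0,[(12,0),(2,0)]⟩,⟨0,[(2,0)]⟩),⟨0,[]⟩,.k,(.x 0 ⟨0,[(15,0)]⟩ ⟨3,[(9,0),(0,0),(2,1),
  (0,3)]⟩),.k,.k,(.x (-1) ⟨3,[(9,0),(0,0),(2,1),(0,3)]⟩ ⟨0,[(15,0)]⟩),.k,⟨false,1,⟨0,[(6,0),(2,0)]⟩,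
  ⟨0,[(1,0),(10,0),(4,0)]⟩⟩,⟨true,0,⟨0,[(4,0)]⟩,⟨0,[(12,0)]⟩⟩,⟨true,0,⟨0,[(19,0)]⟩,⟨0,[(18,0)]⟩⟩,
  ⟨false,0,⟨0,[(5,0)]⟩,⟨0,[(3,0),(19,0)]⟩⟩,⟨false,1,⟨3,[(9,0),(0,0),(10,1)]⟩,⟨0,[]⟩⟩,⟨false,0,⟨0,
  [(1,0)]⟩,⟨0,[(3,0),(15,0),(3,0)]⟩⟩,[.o ⟨false,0,⟨0,[(1,0),(21,0)]⟩,⟨0,[(3,0),(3,0)]⟩⟩,.o ⟨false,0,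
  ⟨0,[(1,0)]⟩,⟨0,[(3,0),(3,0),(15,0)]⟩⟩,.a ⟨true,0,⟨0,[(0,0)]⟩,⟨0,[(22,0)]⟩⟩ ⟨true,0,⟨0,[(22,0)]⟩,
  ⟨0,[(17,0)]⟩⟩ ⟨false,0,⟨0,[(1,0),(20,0)]⟩,⟨0,[(3,0),(13,0),(1,0)]⟩⟩,.e ⟨false,1,⟨3,[(9,0),(0,0),
  (10,1)]⟩,⟨0,[]⟩⟩ ⟨false,0,⟨0,[(1,0)]⟩,⟨0,[(3,0),(15,0),(3,0)]⟩⟩]⟩) (.Q [0,0,0,-1,0,0,0,-1] (.pp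
  true [-1,1]) (.R ⟨1,false,false,true,[1,0,-1],[0,1],[0,1,0,-1,0,0,-1],(⟨0,[(12,0)]⟩,⟨0,[(13,0)]⟩),
  (⟨0,[(16,0)]⟩,⟨0,[(15,0)]⟩),⟨0,[(3,0)]⟩,.k,.k,(.x (-1) ⟨3,[(10,0),(0,0),(2,1),(0,3)]⟩ ⟨0,[(16,
  0)]⟩),(.x (-1) ⟨3,[(10,0),(0,0),(2,1),(0,3)]⟩ ⟨0,[(16,0)]⟩),(.r (-1) ⟨0,[(0,0),(3,0),(7,0),(5,0),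
  (1,0)]⟩ ⟨0,[(2,0),(10,0),(5,0),(3,0)]⟩),.k,⟨false,1,⟨0,[(0,0),(3,0),(7,0),(5,0),(1,0)]⟩,⟨0,[(2,0),
  (10,0),(5,0)]⟩⟩,⟨true,0,⟨0,[(12,0)]⟩,⟨0,[(1,0),(11,0)]⟩⟩,⟨false,0,⟨0,[(20,0)]⟩,⟨0,[(19,0),(2,
  0)]⟩⟩,⟨false,0,⟨0,[(2,0),(9,0),(0,0),(10,0)]⟩,⟨0,[(0,0),(3,0)]⟩⟩,⟨true,0,⟨0,[(24,0)]⟩,⟨0,[]⟩⟩,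
  ⟨false,0,⟨0,[(2,0),(9,0),(0,0),(5,0)]⟩,⟨0,[(0,0),(3,0),(15,0)]⟩⟩,[.o ⟨false,0,⟨0,[(19,0)]⟩,⟨3,[(7,
  1),(2,0),(3,1),(2,1),(4,0)]⟩⟩,.o ⟨false,1,⟨3,[(10,0),(0,0),(7,3),(2,1)]⟩,⟨0,[(0,0)]⟩⟩,.o ⟨false,1,
  ⟨1,[(13,1),(0,0),(6,0)]⟩,⟨0,[(5,0)]⟩⟩,.a ⟨true,0,⟨0,[(13,0)]⟩,⟨0,[(12,0)]⟩⟩ ⟨false,1,⟨0,[(7,0),(2,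
  0)]⟩,⟨0,[(2,0),(10,0)]⟩⟩ ⟨true,0,⟨0,[(12,0),(6,0)]⟩,⟨0,[(0,0),(12,0)]⟩⟩]⟩) (.I [1,-1,-1,0,1,0,-1]
  (.Q [0,0,0,-2,0,0,0,-1] (.pp true [-1,1]) (.R ⟨2,false,false,true,[0,1],[1,-1],[0,1],(⟨0,[]⟩,⟨0,
  []⟩),(⟨0,[(17,0)]⟩,⟨0,[(18,0)]⟩),⟨0,[]⟩,.k,.k,.k,(.r 0 ⟨0,[(2,1),(0,1)]⟩ ⟨0,[(9,1),(2,0)]⟩),.k,.k,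
  ⟨true,0,⟨0,[(2,0),(0,0)]⟩,⟨0,[(22,0)]⟩⟩,⟨false,0,⟨0,[(3,0)]⟩,⟨1,[(2,0),(3,0),(2,0),(4,0),(8,0),(2,
  0)]⟩⟩,⟨true,0,⟨0,[(20,0),(1,0)]⟩,⟨0,[(2,0),(0,0)]⟩⟩,⟨false,0,⟨0,[(0,0)]⟩,⟨0,[(2,0),(18,0),(2,
  0)]⟩⟩,⟨true,0,⟨0,[(20,0)]⟩,⟨0,[(25,0)]⟩⟩,⟨true,0,⟨0,[(10,0)]⟩,⟨0,[(2,0)]⟩⟩,[.o ⟨false,0,⟨0,[(10,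
  0)]⟩,⟨0,[(21,0),(2,0)]⟩⟩,.a ⟨true,0,⟨0,[(22,0)]⟩,⟨0,[(2,0)]⟩⟩ ⟨false,1,⟨3,[(12,0),(0,0),(9,1)]⟩,
  ⟨0,[]⟩⟩ ⟨true,0,⟨1,[(0,0),(10,0)]⟩,⟨0,[(2,0)]⟩⟩,.o ⟨false,1,⟨3,[(12,0),(0,0),(9,1)]⟩,⟨0,[(3,0)]⟩⟩,
  .e ⟨true,0,⟨0,[(20,0)]⟩,⟨0,[(25,0)]⟩⟩ ⟨true,0,⟨0,[(10,0)]⟩,⟨0,[(2,0)]⟩⟩]⟩) (.Q [0,0,0,0,0,-2,0,1]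
  (.pp false [-1,1]) (.S ⟨1,0,[0,0,-1,-2],[1,-1],[1,1,-1,-1],(⟨0,[(18,0)]⟩,⟨0,[(19,0)]⟩),⟨0,[(0,
  0)]⟩,.k,(.r (-1) ⟨0,[(10,1),(2,0)]⟩ ⟨0,[(1,0),(10,0)]⟩),⟨false,0,⟨0,[]⟩,⟨3,[(13,0),(0,0),(10,
  1)]⟩⟩,⟨true,0,⟨0,[(23,0)]⟩,⟨0,[(22,0)]⟩⟩,⟨true,0,⟨0,[(22,0)]⟩,⟨0,[(23,0)]⟩⟩,⟨false,1,⟨3,[(13,0),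
  (0,0),(10,1)]⟩,⟨0,[]⟩⟩,[.a ⟨true,0,⟨0,[(23,1)]⟩,⟨0,[(1,0)]⟩⟩ ⟨true,0,⟨0,[(21,0),(1,0)]⟩,⟨0,[(1,0),
  (2,0),(15,0)]⟩⟩ ⟨false,1,⟨0,[(10,1),(2,0)]⟩,⟨0,[(1,0),(2,0)]⟩⟩,.o ⟨false,1,⟨1,[(10,1),(2,0),(3,0),
  (2,1)]⟩,⟨0,[(1,0),(2,0),(16,0)]⟩⟩,.o ⟨false,0,⟨0,[(4,0)]⟩,⟨3,[(13,0),(0,0),(9,1)]⟩⟩,.o ⟨false,0,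
  ⟨0,[(12,0)]⟩,⟨0,[(24,0)]⟩⟩]⟩) (.R ⟨0,false,false,false,[1,-1],[0,1],[0,0,1],(⟨0,[(18,0)]⟩,⟨0,[(19,
  0)]⟩),(⟨0,[(19,0)]⟩,⟨0,[(18,0)]⟩),⟨0,[(0,0)]⟩,.k,.k,(.r (-1) ⟨0,[(10,1),(2,0)]⟩ ⟨0,[(1,0),(10,
  0)]⟩),(.r (-1) ⟨0,[(10,1),(2,0)]⟩ ⟨0,[(1,0),(10,0)]⟩),.k,.k,⟨true,0,⟨0,[(23,0)]⟩,⟨1,[(1,0),(10,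
  0)]⟩⟩,⟨false,1,⟨1,[(1,0),(0,0),(4,0),(2,1),(4,0),(5,1)]⟩,⟨0,[(12,0)]⟩⟩,⟨false,0,⟨0,[(1,0),(2,0),
  (15,0)]⟩,⟨1,[(10,1),(2,0),(10,0)]⟩⟩,⟨true,0,⟨0,[(1,0)]⟩,⟨0,[(11,0),(11,0)]⟩⟩,⟨false,0,⟨0,[]⟩,⟨0,
  []⟩⟩,⟨false,0,⟨0,[]⟩,⟨0,[]⟩⟩,[.a ⟨true,0,⟨0,[(3,0)]⟩,⟨0,[(23,0)]⟩⟩ ⟨true,0,⟨0,[(26,0)]⟩,⟨0,[]⟩⟩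
  ⟨false,1,⟨0,[(3,0),(20,0)]⟩,⟨1,[(4,0),(6,0),(8,0)]⟩⟩,.o ⟨false,1,⟨7,[(1,3),(11,0),(0,0),(2,1),(7,
  3)]⟩,⟨0,[(11,0)]⟩⟩,.o ⟨false,0,⟨0,[(4,0)]⟩,⟨3,[(13,0),(0,0),(9,1)]⟩⟩,.o ⟨false,0,⟨0,[(12,0)]⟩,⟨0,
  [(24,0)]⟩⟩]⟩))) (.S ⟨1,0,[0,1,0,-1,0,0,-1],[1,0,-1],[1,0,0,0,0,0,-1],(⟨0,[(13,0)]⟩,⟨0,[(14,0)]⟩),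
  ⟨0,[(4,0)]⟩,.k,(.x (-1) ⟨3,[(11,0),(0,0),(2,1),(0,3)]⟩ ⟨0,[(17,0)]⟩),⟨true,0,⟨0,[]⟩,⟨0,[(25,0)]⟩⟩,
  ⟨false,0,⟨0,[(21,0)]⟩,⟨0,[(20,0),(2,0)]⟩⟩,⟨false,1,⟨0,[(20,0),(2,0)]⟩,⟨0,[(21,0)]⟩⟩,⟨true,0,⟨0,
  [(25,0)]⟩,⟨0,[]⟩⟩,[.o ⟨false,1,⟨0,[(5,0),(3,0),(15,0)]⟩,⟨0,[(3,0)]⟩⟩,.o ⟨false,1,⟨0,[(5,0),(3,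
  0)]⟩,⟨7,[(0,0),(2,4),(2,2),(5,0),(6,0),(0,2)]⟩⟩,.o ⟨false,1,⟨1,[(14,1),(0,0),(6,0)]⟩,⟨0,[(6,0)]⟩⟩,
  .a ⟨true,0,⟨0,[(14,0)]⟩,⟨0,[(13,0)]⟩⟩ ⟨true,1,⟨1,[(11,0),(10,0)]⟩,⟨0,[(0,0)]⟩⟩ ⟨false,1,⟨0,[(8,0),
  (2,0)]⟩,⟨0,[(3,0),(10,0)]⟩⟩]⟩))))))

def tree : Tre :=
  (.I [0,0,1,1,0,0,-1] t1 (.Q [0,1,-1,0,0,0,-1,0,1] (.p true [0,0,1] [] (⟨0,[(6,0)]⟩,⟨0,[(5,0)]⟩)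
  .k 0 (⟨0,[]⟩,⟨0,[]⟩) .k .k) (.K ⟨0,[0,0,1],0,0,(⟨0,[(7,0)]⟩,⟨0,[(6,0)]⟩),.k,(.x 0 ⟨0,[(3,0),(5,
  0)]⟩ ⟨0,[(10,0),(4,0)]⟩),(.x 0 ⟨0,[(10,0)]⟩ ⟨3,[(4,0),(0,0),(2,1),(0,3)]⟩),.k,.k,[⟨0,[(7,0)]⟩,⟨0,
  [(3,0),(2,0)]⟩,⟨0,[(0,0)]⟩,⟨0,[(1,0),(1,0),(2,0),(6,0)]⟩]⟩) (.Q [0,0,-1,0,0,0,0,0,1] (.p true [0,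
  0,1] [] (⟨0,[(7,0)]⟩,⟨0,[(6,0)]⟩) .k 0 (⟨0,[]⟩,⟨0,[]⟩) .k .k) (.R ⟨2,false,false,false,[0,1],[0,0,
  1],[0,0,1],(⟨0,[]⟩,⟨0,[]⟩),(⟨0,[(8,0)]⟩,⟨0,[(7,0)]⟩),⟨0,[]⟩,.k,.k,.k,(.r (-1) ⟨1,[(5,0),(8,1),(2,
  0),(0,1)]⟩ ⟨0,[(0,0),(0,0),(11,0),(1,0)]⟩),.k,.k,⟨false,1,⟨3,[(5,2),(0,0)]⟩,⟨0,[(0,0),(0,0),(11,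
  0)]⟩⟩,⟨true,0,⟨0,[(4,0),(2,0)]⟩,⟨0,[(0,0)]⟩⟩,⟨true,0,⟨0,[(15,0)]⟩,⟨0,[(14,0)]⟩⟩,⟨false,0,⟨3,[(1,
  2),(0,0),(0,0),(3,0),(4,1)]⟩,⟨1,[(0,1),(4,0),(8,1),(2,0)]⟩⟩,⟨false,1,⟨3,[(5,0),(0,0),(10,1)]⟩,⟨0,
  []⟩⟩,⟨false,0,⟨0,[(1,0)]⟩,⟨3,[(0,3),(4,2),(0,0)]⟩⟩,[.o ⟨false,0,⟨0,[(1,0),(17,0)]⟩,⟨1,[(0,1),(4,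
  0),(3,0)]⟩⟩,.o ⟨false,0,⟨0,[(1,0)]⟩,⟨1,[(0,1),(4,0),(3,0),(9,1)]⟩⟩,.a ⟨true,0,⟨0,[(0,0),(6,0)]⟩,
  ⟨0,[(18,0)]⟩⟩ ⟨true,0,⟨0,[(18,0)]⟩,⟨0,[(13,0)]⟩⟩ ⟨false,0,⟨0,[(1,0),(16,0)]⟩,⟨1,[(0,1),(4,0),(10,
  0)]⟩⟩,.e ⟨false,1,⟨3,[(5,0),(0,0),(10,1)]⟩,⟨0,[]⟩⟩ ⟨false,0,⟨0,[(1,0)]⟩,⟨3,[(0,3),(4,2),(0,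
  0)]⟩⟩]⟩) (.Q [0,1,1,0,-1,0,1,0,-1] (.p false [0,0,1] [] (⟨0,[(8,0)]⟩,⟨0,[(7,0)]⟩) .k 0 (⟨0,[]⟩,⟨0,
  []⟩) .k .k) (.I [0,0,-1,-1,0,0,1] (.K ⟨0,[0,0,1],0,(-1),(⟨0,[(10,0)]⟩,⟨0,[(9,0)]⟩),.k,(.r 0 ⟨0,
  [(0,0)]⟩ ⟨1,[(7,0),(8,1),(2,0),(0,1)]⟩),(.x 0 ⟨0,[(13,0)]⟩ ⟨3,[(7,0),(0,0),(2,1),(0,3)]⟩),.k,.k,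
  [⟨0,[(10,0)]⟩,⟨0,[(6,0),(2,0)]⟩,⟨1,[(7,0),(2,1),(7,0),(2,1)]⟩,⟨0,[(1,0)]⟩]⟩) (.K ⟨0,[0,0,1],0,
  (-1),(⟨0,[(10,0)]⟩,⟨0,[(9,0)]⟩),.k,(.x 0 ⟨0,[(6,0),(5,0)]⟩ ⟨0,[(13,0),(4,0)]⟩),(.x 0 ⟨0,[(13,0)]⟩
  ⟨3,[(7,0),(0,0),(2,1),(0,3)]⟩),.k,.k,[⟨0,[(10,0)]⟩,⟨0,[(6,0),(2,0)]⟩,⟨1,[(7,0),(2,1),(7,0),(2,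
  1)]⟩,⟨0,[(1,0)]⟩]⟩)) t3))))

theorem ok : chk (cPU (-1) true) tree base = true := by
  decide +kernel

theorem closed {p a b c J l q : ℤ} {D dl : ℝ} {Cl : ℤ → ℤ → ℤ → ℤ → ℝ → Prop}
    (W : World p a b c J (-1) l q D dl Cl) (hE : KEmp p a b (-1) (P1 l p) Cl)
    (g : G0 p a b c J D)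
    {N R : ℤ} {I : ℝ} (hu : UFac p b D Cl N R I)
    (s0 : (c : ℝ) + 1 ≤ 0)
    (s1 : (b : ℝ) + 1 ≤ a)
    (s2 : (a : ℝ) ≤ b - c)
    (s3 : D < 2 * b)
    (s4 : -(a : ℝ) < -D - c) : False := by
  have g1 := g.a2
  have g2 := g.b2
  have g3 := g.pa
  have g4 := g.pb
  have g5 := g.J1
  have g6 := g.JD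
  have g7 := g.D2
  have g8 := g.ca
  have g9 := g.ca'
  have t1 := TF.ofU hu
  have i1 := t1.I0
  have i2 := t1.ID
  have i3 := t1.R1
  have i4 := t1.R2
  refine (val_PU W.toBase (UV.ofU hu)).sound W rfl (Nk := 0) (fun kf hkf hh => ?_) (kok_B hE (by simp [xv]) (by simp [xv]) 0) ?_ ok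
  · simp only [cPU, kfB, List.mem_cons, List.not_mem_nil, or_false] at hkf
    subst hkf
    exact absurd hh (by norm_num)
  · simp only [base, List.forall_mem_cons, List.not_mem_nil, false_imp_iff, implies_true,
      and_true, hld, xv, evg_cons, evg_nil, List.map_cons, List.map_nil, List.cons_append,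
      List.nil_append, if_true, if_false, Bool.false_eq_true]
    push_cast
    refine ⟨?_, ?_, ?_, ?_, ?_, ?_, ?_, ?_, ?_, ?_, ?_, ?_, ?_, ?_, ?_, ?_, ?_⟩ <;> linarith

end Helper25.KG.Pm1_2_m1_0_u
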