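import Pool.Agent.Helper25.KG.PL

set_option autoImplicit false
set_option linter.unusedVariables false

namespace Helper25.KG.Pm1_2_m1_0_v

open Helper11.CT Helper25.KW Helper25.KG

def base : List Con :=
  [(false,[0,1,0,-1,0,0,0,-1]),
  (false,[0,0,2,0,0,0,0,-1]),
  (true,[0,0,0,0,1,0,-2]),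
  (true,[0,0,0,0,1,0,2]),
  (false,[0,0,0,0,0,0,0,1,-2]),
  (false,[0,0,0,0,0,0,0,0,1]),
  (false,[0,0,0,0,1,0,0,-2]),
  (false,[0,0,0,0,0,-1,0,1]),
  (true,[0,0,0,0,0,1]),
  (true,[1,-1,1,-1]),
  (true,[0,1,-1]),
  (true,[0,1,0,1]),
  (true,[0,0,0,-1]),
  (true,[0,0,-2,0,1]),
  (true,[0,-2,0,0,1]),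
  (true,[-1,0,1]),
  (true,[-1,1])]

def t0 : Tre :=
  (.Q [0,0,1,-1,0,0,0,-1] (.pp true [-1,1]) (.I [0,1,-2,-2] (.I [0,0,0,0,0,0,1] (.Q [0,1,0,1,0,0,-1,
  0,1] (.p true [0,0,1] [] (⟨0,[(18,0)]⟩,⟨1,[(17,0),(2,0),(0,0)]⟩) .k 0 (⟨0,[]⟩,⟨0,[]⟩) .k .k) (.I
  [0,0,1,1,0,0,1] (.I [0,0,-1,-1,0,0,1] (.K ⟨0,[0,0,1],0,0,(⟨0,[(21,0)]⟩,⟨1,[(20,0),(2,0),(0,0)]⟩),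
  .k,(.r 0 ⟨0,[(0,0)]⟩ ⟨0,[(7,0),(10,0)]⟩),(.r 0 ⟨0,[(1,0)]⟩ ⟨7,[(4,3),(13,4),(0,0),(10,1)]⟩),.k,.k,
  [⟨1,[(7,0),(3,0),(9,0),(3,0)]⟩,⟨1,[(17,0),(2,0)]⟩,⟨0,[(11,0)]⟩,⟨0,[(14,0)]⟩]⟩) (.Q [0,0,0,-2,0,0,
  0,-1] (.pp true [-1,1]) (.R ⟨2,true,false,true,[0,1],[1,-1],[1,0,1,1],(⟨0,[]⟩,⟨0,[]⟩),(⟨0,[(24,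
  0)]⟩,⟨0,[(25,0)]⟩),⟨0,[]⟩,.k,.k,.k,(.r 0 ⟨0,[(1,0),(0,0)]⟩ ⟨3,[(5,3),(13,0),(0,0),(10,1)]⟩),.k,.k,
  ⟨false,1,⟨3,[(1,1),(6,1),(1,1),(12,0),(7,2)]⟩,⟨0,[(5,0)]⟩⟩,⟨true,0,⟨0,[(18,0)]⟩,⟨0,[(13,0),(10,
  0)]⟩⟩,⟨true,0,⟨0,[]⟩,⟨0,[(33,0)]⟩⟩,⟨false,0,⟨0,[(0,0)]⟩,⟨0,[(10,0),(20,0)]⟩⟩,⟨false,1,⟨3,[(10,1),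
  (12,0),(7,2)]⟩,⟨0,[(29,0)]⟩⟩,⟨true,0,⟨0,[(17,0)]⟩,⟨1,[(1,0),(6,0),(4,1),(10,1)]⟩⟩,[]⟩) (.I [1,-1,
  2,1] (.R ⟨0,false,false,false,[1,-1],[0,1],[0,1],(⟨0,[(25,0)]⟩,⟨0,[(26,0)]⟩),(⟨0,[(26,0)]⟩,⟨0,
  [(25,0)]⟩),⟨0,[(14,1),(4,0)]⟩,.k,.k,(.r (-1) ⟨3,[(6,3),(13,0),(0,0),(10,1)]⟩ ⟨0,[(1,0),(17,0)]⟩),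
  (.r (-1) ⟨3,[(6,3),(13,0),(0,0),(10,1)]⟩ ⟨0,[(1,0),(17,0)]⟩),.k,.k,⟨true,0,⟨1,[(6,0),(27,0)]⟩,⟨0,
  [(0,0)]⟩⟩,⟨false,1,⟨0,[(14,0),(10,0),(5,0)]⟩,⟨0,[(19,0)]⟩⟩,⟨false,0,⟨1,[(1,0),(17,0)]⟩,⟨7,[(6,3),
  (13,0),(0,0),(10,5)]⟩⟩,⟨true,0,⟨0,[(1,0)]⟩,⟨5,[(6,2),(0,4),(5,0),(3,0),(0,0)]⟩⟩,⟨false,0,⟨0,[]⟩,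
  ⟨0,[]⟩⟩,⟨false,0,⟨0,[]⟩,⟨0,[]⟩⟩,[.e ⟨false,0,⟨0,[(28,0)]⟩,⟨3,[(20,0),(0,0),(10,1)]⟩⟩ ⟨false,1,⟨3,
  [(11,1),(2,1),(10,1),(5,2),(0,0)]⟩,⟨0,[(7,0)]⟩⟩,.o ⟨false,1,⟨3,[(11,1),(12,0),(7,2)]⟩,⟨0,[(18,
  0)]⟩⟩,.a ⟨true,0,⟨3,[(0,0),(12,0),(3,0),(9,0)]⟩,⟨0,[(14,0),(10,0)]⟩⟩ ⟨true,0,⟨0,[(34,0)]⟩,⟨0,[]⟩⟩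
  ⟨false,1,⟨3,[(11,1),(2,1),(10,1),(5,0),(0,2)]⟩,⟨0,[(7,0)]⟩⟩,.o ⟨false,0,⟨0,[(19,0)]⟩,⟨0,[(31,
  0)]⟩⟩]⟩) (.Q [0,0,-1,0,0,0,0,1,-1] (.p false [0,0,1] [1] (⟨0,[(23,0)]⟩,⟨1,[(22,0),(2,0),(0,0)]⟩)
  .k 1 (⟨0,[]⟩,⟨0,[]⟩) .k .k) (.S ⟨1,0,[0,1,0,-1,0,0,-1],[1,0,-1],[1],(⟨1,[(23,0),(2,0),(0,0)]⟩,⟨0,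
  [(24,0)]⟩),⟨0,[(0,0),(12,0)]⟩,.k,(.r (-1) ⟨7,[(7,3),(13,4),(0,0),(10,1)]⟩ ⟨0,[(4,0)]⟩),⟨true,0,⟨1,
  [(9,0),(0,0)]⟩,⟨3,[(1,0),(3,1),(5,1),(7,0),(3,0)]⟩⟩,⟨false,0,⟨0,[(31,0)]⟩,⟨3,[(12,1),(12,0),(7,
  2)]⟩⟩,⟨false,1,⟨1,[(10,1),(21,0),(0,0)]⟩,⟨0,[(1,0),(1,0),(24,0)]⟩⟩,⟨true,0,⟨0,[(35,0)]⟩,⟨0,[]⟩⟩,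
  [.o ⟨false,0,⟨0,[(1,0),(1,0),(4,0),(15,0)]⟩,⟨1,[(0,1),(9,1),(14,0),(7,0)]⟩⟩,.a ⟨true,0,⟨0,[(1,0),
  (1,0),(20,0),(3,0)]⟩,⟨0,[(0,0),(9,0)]⟩⟩ ⟨false,1,⟨1,[(32,0),(0,0)]⟩,⟨0,[(35,0)]⟩⟩ ⟨true,0,⟨0,[(1,
  0),(1,0),(24,0)]⟩,⟨0,[(10,0)]⟩⟩,.a ⟨true,0,⟨0,[(24,0)]⟩,⟨1,[(23,0),(2,0),(0,0)]⟩⟩ ⟨true,0,⟨0,[]⟩,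
  ⟨0,[(35,0)]⟩⟩ ⟨false,0,⟨0,[(1,0),(1,0),(24,0)]⟩,⟨1,[(10,1),(21,0),(0,0)]⟩⟩,.a ⟨true,0,⟨1,[(10,0),
  (3,0),(9,0),(3,0)]⟩,⟨0,[(0,0)]⟩⟩ ⟨false,1,⟨1,[(32,0),(0,0)]⟩,⟨0,[(34,0)]⟩⟩ ⟨true,0,⟨0,[(1,0),(9,
  0)]⟩,⟨0,[(10,0)]⟩⟩]⟩) (.Q [0,0,0,0,0,0,-1,0,1] (.p true [0,0,1] [] (⟨0,[(24,0)]⟩,⟨1,[(23,0),(2,0),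
  (0,0)]⟩) .k 0 (⟨0,[]⟩,⟨0,[]⟩) .k .k) (.R ⟨0,false,false,false,[1,0,-1],[0,0,1],[0,1],(⟨1,[(24,0),
  (2,0),(0,0)]⟩,⟨0,[(25,0)]⟩),(⟨0,[(25,0)]⟩,⟨1,[(24,0),(2,0),(0,0)]⟩),⟨0,[(1,0),(14,0)]⟩,.k,.k,(.r
  (-1) ⟨7,[(8,3),(13,4),(0,0),(10,1)]⟩ ⟨0,[(5,0)]⟩),.k,.k,.k,⟨false,0,⟨0,[(2,0),(1,0)]⟩,⟨1,[(23,0),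
  (10,0)]⟩⟩,⟨true,0,⟨0,[(24,0)]⟩,⟨0,[(1,0),(23,0)]⟩⟩,⟨false,0,⟨0,[(7,0)]⟩,⟨1,[(22,0),(11,0)]⟩⟩,
  ⟨true,0,⟨0,[(10,0),(0,0),(12,0)]⟩,⟨0,[(0,0),(0,0),(0,0),(1,0)]⟩⟩,⟨false,0,⟨0,[]⟩,⟨0,[]⟩⟩,⟨false,0,
  ⟨0,[]⟩,⟨0,[]⟩⟩,[.a ⟨true,0,⟨1,[(10,0),(0,0),(12,0),(2,0),(0,0)]⟩,⟨0,[(0,0)]⟩⟩ ⟨false,0,⟨0,[(30,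
  0)]⟩,⟨3,[(22,0),(0,0),(10,1)]⟩⟩ ⟨true,0,⟨1,[(10,0),(0,0),(12,1)]⟩,⟨0,[(0,0),(0,0)]⟩⟩,.o ⟨false,1,
  ⟨3,[(10,0),(0,0),(11,0),(0,1),(1,0),(7,1)]⟩,⟨0,[(1,0),(0,0),(1,0)]⟩⟩,.e ⟨true,0,⟨0,[(36,0)]⟩,⟨0,
  []⟩⟩ ⟨true,0,⟨1,[(10,0),(0,0),(12,1)]⟩,⟨1,[(0,0),(0,1),(0,0),(3,0)]⟩⟩,.o ⟨false,0,⟨0,[(1,0)]⟩,⟨7,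
  [(22,0),(0,0),(0,3),(1,1),(6,3)]⟩⟩]⟩) (.R ⟨2,false,false,false,[0,1],[1,0,-1],[0,0,1],(⟨0,[]⟩,⟨0,
  []⟩),(⟨1,[(24,0),(2,0),(0,0)]⟩,⟨0,[(25,0)]⟩),⟨0,[]⟩,.k,.k,.k,(.r 0 ⟨0,[(5,0)]⟩ ⟨7,[(8,3),(13,4),
  (0,0),(10,1)]⟩),.k,.k,⟨false,0,⟨0,[(7,0)]⟩,⟨1,[(22,0),(10,0)]⟩⟩,⟨true,0,⟨0,[(1,0)]⟩,⟨1,[(24,0),(2,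
  0),(0,0)]⟩⟩,⟨true,0,⟨0,[(32,0)]⟩,⟨0,[(31,0)]⟩⟩,⟨false,1,⟨3,[(1,3),(0,3),(1,1),(17,0),(6,1),(4,
  2)]⟩,⟨1,[(3,0),(6,0),(0,0),(12,0)]⟩⟩,⟨false,1,⟨3,[(22,0),(0,0),(10,1)]⟩,⟨0,[]⟩⟩,⟨false,1,⟨0,[(1,
  0),(0,0),(1,0),(29,0)]⟩,⟨1,[(10,0),(0,0),(12,0),(2,0),(0,0)]⟩⟩,[.o ⟨false,1,⟨19,[(1,7),(6,3),(6,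
  3),(1,7),(4,4),(0,0),(2,5)]⟩,⟨0,[(0,0)]⟩⟩,.o ⟨false,1,⟨0,[(1,0),(0,0),(1,0),(29,0)]⟩,⟨0,[(18,
  0)]⟩⟩,.a ⟨true,0,⟨0,[(16,0),(10,0)]⟩,⟨0,[(35,0)]⟩⟩ ⟨true,0,⟨0,[(35,0)]⟩,⟨1,[(2,0),(28,0)]⟩⟩
  ⟨false,1,⟨1,[(1,1),(20,0),(11,0)]⟩,⟨1,[(3,0),(6,1),(13,0)]⟩⟩,.e ⟨false,1,⟨3,[(22,0),(0,0),(10,
  1)]⟩,⟨0,[]⟩⟩ ⟨false,1,⟨0,[(1,0),(0,0),(1,0),(29,0)]⟩,⟨1,[(10,0),(0,0),(12,0),(2,0),(0,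
  0)]⟩⟩]⟩)))))) (.Q [0,0,0,1,0,0,0,1] (.pp false [-1,1]) (.R ⟨2,true,false,false,[0,1],[1,-1],[0,1],
  (⟨0,[]⟩,⟨0,[]⟩),(⟨0,[(23,0)]⟩,⟨0,[(24,0)]⟩),⟨0,[]⟩,.k,.k,.k,(.r (-1) ⟨0,[(7,1),(10,0)]⟩ ⟨0,[(1,1),
  (1,1)]⟩),.k,.k,⟨false,0,⟨0,[(27,0)]⟩,⟨7,[(4,3),(13,0),(0,0),(10,5)]⟩⟩,⟨true,0,⟨0,[(17,0)]⟩,⟨0,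
  [(12,0),(10,0)]⟩⟩,⟨false,0,⟨0,[(1,0),(1,0)]⟩,⟨1,[(7,1),(10,0),(11,0)]⟩⟩,⟨true,0,⟨1,[(1,0),(3,1),
  (0,0)]⟩,⟨0,[(9,0)]⟩⟩,⟨true,0,⟨0,[(26,0)]⟩,⟨0,[(31,0)]⟩⟩,⟨false,1,⟨15,[(4,3),(13,0),(0,0),(2,7),(2,
  7),(4,5)]⟩,⟨0,[(0,0)]⟩⟩,[]⟩) (.R ⟨2,false,false,false,[0,1],[1,-1],[0,1,1],(⟨0,[]⟩,⟨0,[]⟩),(⟨0,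
  [(23,0)]⟩,⟨0,[(24,0)]⟩),⟨0,[]⟩,.k,.k,.k,(.r (-1) ⟨0,[(7,1),(10,0)]⟩ ⟨0,[(1,1),(1,1)]⟩),.k,.k,
  ⟨false,0,⟨2,[(2,0),(6,0),(5,0),(1,0)]⟩,⟨1,[(1,0),(4,0),(22,0),(0,0)]⟩⟩,⟨true,0,⟨0,[(17,0)]⟩,⟨0,
  [(12,0),(10,0)]⟩⟩,⟨false,0,⟨0,[(28,0)]⟩,⟨3,[(9,1),(12,0),(7,2)]⟩⟩,⟨true,0,⟨2,[(0,1),(3,0),(0,0),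
  (19,0)]⟩,⟨0,[(9,0)]⟩⟩,⟨true,0,⟨0,[(32,0)]⟩,⟨0,[]⟩⟩,⟨true,0,⟨0,[(0,0)]⟩,⟨11,[(4,0),(4,6),(1,1),(3,
  1),(7,4),(0,4)]⟩⟩,[.o ⟨false,0,⟨0,[(0,0)]⟩,⟨23,[(9,7),(3,7),(4,2),(0,6),(0,3),(1,5)]⟩⟩,.o ⟨false,
  1,⟨15,[(4,3),(13,0),(0,0),(2,7),(2,7),(4,5)]⟩,⟨0,[(27,0)]⟩⟩,.a ⟨true,0,⟨0,[(12,0),(10,0)]⟩,⟨0,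
  [(31,0)]⟩⟩ ⟨false,0,⟨0,[(31,0)]⟩,⟨1,[(29,0),(0,0)]⟩⟩ ⟨true,0,⟨0,[(5,0)]⟩,⟨1,[(9,0),(2,0),(10,0),
  (2,0)]⟩⟩,.e ⟨true,0,⟨0,[(32,0)]⟩,⟨0,[]⟩⟩ ⟨true,0,⟨0,[(0,0)]⟩,⟨11,[(4,0),(4,6),(1,1),(3,1),(7,4),
  (0,4)]⟩⟩]⟩))) (.R ⟨2,true,false,false,[0,1],[0,0,1],[1,0,1,1],(⟨0,[]⟩,⟨0,[]⟩),(⟨0,[(19,0)]⟩,⟨1,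
  [(18,0),(2,0),(0,0)]⟩),⟨0,[]⟩,.k,.k,.k,(.r (-1) ⟨0,[(5,0),(10,0)]⟩ ⟨0,[(0,0),(18,0),(4,0)]⟩),.k,
  .k,⟨false,1,⟨23,[(7,7),(3,7),(4,8),(0,0),(0,3),(1,5)]⟩,⟨0,[(0,0),(18,0),(4,0)]⟩⟩,⟨true,0,⟨1,[(15,
  0),(2,0)]⟩,⟨0,[(19,0)]⟩⟩,⟨true,0,⟨0,[]⟩,⟨0,[(30,0)]⟩⟩,⟨false,0,⟨0,[(0,0)]⟩,⟨19,[(7,3),(1,7),(1,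
  11),(4,2),(0,2),(2,1)]⟩⟩,⟨false,1,⟨3,[(7,1),(12,0),(7,2)]⟩,⟨0,[(26,0)]⟩⟩,⟨true,0,⟨0,[(0,0),(24,
  0)]⟩,⟨0,[(9,0)]⟩⟩,[]⟩)) (.N [0,0,1] 0 ⟨1,[(3,0),(0,0)]⟩ ⟨0,[(0,0)]⟩ .k)) (.R ⟨0,false,false,false,
  [1,-1],[0,1],[0,1],(⟨0,[(19,0)]⟩,⟨0,[(20,0)]⟩),(⟨0,[(20,0)]⟩,⟨0,[(19,0)]⟩),⟨0,[(8,1),(4,0)]⟩,.k,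
  .k,(.r (-1) ⟨0,[(24,1),(0,0)]⟩ ⟨1,[(0,0),(4,0),(7,0)]⟩),(.r (-1) ⟨0,[(24,1),(0,0)]⟩ ⟨1,[(0,0),(4,
  0),(7,0)]⟩),.k,.k,⟨true,0,⟨0,[(22,0),(1,0)]⟩,⟨2,[(0,1),(20,0),(5,0)]⟩⟩,⟨false,1,⟨0,[(8,0),(10,0),
  (5,0)]⟩,⟨0,[(13,0)]⟩⟩,⟨false,0,⟨3,[(0,0),(4,0),(7,0)]⟩,⟨1,[(24,1),(0,0),(0,0)]⟩⟩,⟨true,0,⟨0,[(0,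
  0),(7,0),(10,0),(2,0)]⟩,⟨0,[(12,0),(11,0)]⟩⟩,⟨false,0,⟨0,[]⟩,⟨0,[]⟩⟩,⟨false,0,⟨0,[]⟩,⟨0,[]⟩⟩,[.e
  ⟨false,0,⟨0,[(22,0)]⟩,⟨3,[(14,0),(0,0),(10,1)]⟩⟩ ⟨false,1,⟨3,[(5,1),(2,1),(10,1),(5,2),(0,0)]⟩,⟨0,
  [(1,0)]⟩⟩,.o ⟨false,1,⟨3,[(5,1),(12,0),(7,2)]⟩,⟨0,[(12,0)]⟩⟩,.a ⟨true,0,⟨0,[(27,0)]⟩,⟨0,[(8,0),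
  (10,0)]⟩⟩ ⟨true,0,⟨0,[(28,0)]⟩,⟨0,[]⟩⟩ ⟨false,1,⟨3,[(5,1),(2,1),(10,1),(5,0),(0,2)]⟩,⟨0,[(1,0)]⟩⟩,
  .o ⟨false,0,⟨0,[(13,0)]⟩,⟨0,[(25,0)]⟩⟩]⟩)) (.I [1,-1,2,1] (.R ⟨0,false,false,false,[1,-1],[0,1],
  [0,1],(⟨0,[(19,0)]⟩,⟨0,[(20,0)]⟩),(⟨0,[(20,0)]⟩,⟨0,[(19,0)]⟩),⟨0,[(8,1),(4,0)]⟩,.k,.k,(.r (-1) ⟨0,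
  [(24,1),(0,0)]⟩ ⟨0,[(0,0),(22,0)]⟩),(.r (-1) ⟨0,[(24,1),(0,0)]⟩ ⟨0,[(0,0),(22,0)]⟩),.k,.k,⟨true,0,
  ⟨0,[(22,0),(1,0)]⟩,⟨0,[(0,0)]⟩⟩,⟨false,1,⟨0,[(8,0),(10,0),(5,0)]⟩,⟨0,[(13,0)]⟩⟩,⟨false,0,⟨1,[(0,
  0),(22,0)]⟩,⟨1,[(24,1),(0,0),(0,0)]⟩⟩,⟨true,0,⟨1,[(0,0),(0,1),(21,0)]⟩,⟨0,[(12,0),(11,0)]⟩⟩,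
  ⟨false,0,⟨0,[]⟩,⟨0,[]⟩⟩,⟨false,0,⟨0,[]⟩,⟨0,[]⟩⟩,[.a ⟨true,0,⟨1,[(1,0),(3,0),(15,0)]⟩,⟨0,[(24,
  0)]⟩⟩ ⟨false,0,⟨0,[(22,0)]⟩,⟨3,[(14,0),(0,0),(10,1)]⟩⟩ ⟨true,0,⟨0,[(1,0)]⟩,⟨7,[(7,0),(3,0),(0,2),
  (0,4),(7,4)]⟩⟩,.o ⟨false,1,⟨3,[(5,1),(12,0),(7,2)]⟩,⟨0,[(12,0)]⟩⟩,.e ⟨true,0,⟨0,[(28,0)]⟩,⟨0,[]⟩⟩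
  ⟨true,0,⟨0,[(1,0)]⟩,⟨3,[(7,0),(3,0),(0,2),(0,0),(7,0)]⟩⟩,.o ⟨false,0,⟨0,[(13,0)]⟩,⟨0,[(25,
  0)]⟩⟩]⟩) (.I [0,0,-1,-1,0,0,1] (.K ⟨0,[0,0,1],0,0,(⟨0,[(18,0)]⟩,⟨1,[(17,0),(2,0),(0,0)]⟩),.k,(.r
  0 ⟨0,[(0,0)]⟩ ⟨0,[(4,0),(10,0)]⟩),(.r 0 ⟨0,[(0,0),(1,1),(11,1)]⟩ ⟨0,[(0,0),(14,0)]⟩),.k,.k,[⟨1,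
  [(4,0),(3,0),(9,0),(3,0)]⟩,⟨1,[(14,0),(2,0)]⟩,⟨0,[(8,0)]⟩,⟨0,[(11,0)]⟩]⟩) (.I [1,1,-2,-1,0,0,-1]
  (.Q [0,0,-1,0,0,0,0,1,-1] (.p false [0,0,1] [1] (⟨0,[(19,0)]⟩,⟨1,[(18,0),(2,0),(0,0)]⟩) .k 1 (⟨0,
  []⟩,⟨0,[]⟩) .k .k) (.S ⟨1,0,[0,1,0,-1,0,0,-1],[1,0,-1],[1],(⟨1,[(19,0),(2,0),(0,0)]⟩,⟨0,[(20,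
  0)]⟩),⟨0,[(0,0),(8,0)]⟩,.k,(.r (-1) ⟨5,[(1,3),(15,2),(0,1),(5,1),(4,0)]⟩ ⟨0,[(4,1),(0,0),(10,
  1)]⟩),⟨true,0,⟨1,[(5,0),(0,0)]⟩,⟨6,[(1,2),(0,2),(4,0),(2,1),(3,1)]⟩⟩,⟨false,0,⟨0,[(27,0)]⟩,⟨3,[(8,
  1),(12,0),(7,2)]⟩⟩,⟨false,1,⟨3,[(4,1),(1,1),(11,0),(2,0),(7,1)]⟩,⟨1,[(1,0),(5,0),(16,0)]⟩⟩,⟨true,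
  0,⟨0,[(31,0)]⟩,⟨0,[]⟩⟩,[.o ⟨false,0,⟨0,[(1,0),(14,0),(3,0)]⟩,⟨3,[(4,1),(0,0),(0,2),(12,1),(1,1),
  (7,1)]⟩⟩,.a ⟨true,0,⟨3,[(1,1),(0,0),(7,0),(9,2),(3,2)]⟩,⟨3,[(4,1),(0,0),(0,2),(12,1)]⟩⟩ ⟨false,1,
  ⟨1,[(28,0),(0,0)]⟩,⟨0,[(31,0)]⟩⟩ ⟨true,0,⟨1,[(1,0),(5,0),(16,0)]⟩,⟨0,[(6,0)]⟩⟩,.a ⟨true,0,⟨0,[(20,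
  0)]⟩,⟨1,[(19,0),(2,0),(0,0)]⟩⟩ ⟨true,0,⟨0,[]⟩,⟨0,[(31,0)]⟩⟩ ⟨false,0,⟨1,[(1,0),(5,0),(16,0)]⟩,⟨3,
  [(4,1),(1,1),(11,0),(2,0),(7,1)]⟩⟩,.a ⟨true,0,⟨1,[(6,0),(3,0),(9,0),(3,0)]⟩,⟨0,[(0,0)]⟩⟩ ⟨false,1,
  ⟨1,[(28,0),(0,0)]⟩,⟨0,[(30,0)]⟩⟩ ⟨true,0,⟨6,[(1,4),(5,1),(2,0),(3,0),(12,1)]⟩,⟨0,[(6,0)]⟩⟩]⟩) (.R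
  ⟨0,false,false,false,[1,0,-1],[0,0,1],[0,1],(⟨1,[(19,0),(2,0),(0,0)]⟩,⟨0,[(20,0)]⟩),(⟨0,[(20,0)]⟩,
  ⟨1,[(19,0),(2,0),(0,0)]⟩),⟨0,[(0,0),(10,0)]⟩,.k,.k,(.r (-1) ⟨5,[(1,3),(15,2),(0,1),(5,1),(4,0)]⟩
  ⟨0,[(0,3),(3,1),(0,0),(13,1)]⟩),.k,.k,.k,⟨false,0,⟨2,[(1,1),(0,0),(23,0)]⟩,⟨1,[(18,0),(10,0)]⟩⟩,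
  ⟨true,0,⟨0,[(19,0)]⟩,⟨0,[(0,0),(19,0)]⟩⟩,⟨false,0,⟨0,[(0,1),(3,0),(0,0),(13,0)]⟩,⟨1,[(17,0),(11,
  0)]⟩⟩,⟨true,0,⟨0,[(5,0),(0,0),(12,0)]⟩,⟨0,[(0,0),(0,0),(0,0),(17,0)]⟩⟩,⟨false,0,⟨0,[]⟩,⟨0,[]⟩⟩,
  ⟨false,0,⟨0,[]⟩,⟨0,[]⟩⟩,[.a ⟨true,0,⟨7,[(4,5),(0,2),(0,0),(7,3),(4,1),(4,3)]⟩,⟨1,[(0,0),(0,0),(0,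
  0),(1,0),(15,0),(3,0)]⟩⟩ ⟨false,0,⟨0,[(25,0)]⟩,⟨3,[(17,0),(0,0),(10,1)]⟩⟩ ⟨true,0,⟨1,[(5,0),(0,0),
  (12,1)]⟩,⟨1,[(0,2),(0,0),(0,0),(1,0),(15,0),(3,0)]⟩⟩,.o ⟨false,1,⟨3,[(5,0),(0,0),(11,0),(0,1),(1,
  0),(7,1)]⟩,⟨2,[(0,2),(0,1),(0,0),(23,0)]⟩⟩,.e ⟨true,0,⟨0,[(31,0)]⟩,⟨0,[]⟩⟩ ⟨true,0,⟨1,[(5,0),(0,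
  0),(12,1)]⟩,⟨1,[(0,2),(0,0),(2,0),(5,0)]⟩⟩,.o ⟨false,0,⟨0,[(0,0)]⟩,⟨7,[(17,0),(0,0),(0,3),(1,1),
  (6,3)]⟩⟩]⟩)) (.R ⟨0,false,false,false,[1,-1],[0,1],[0,0,2,1],(⟨0,[(21,0)]⟩,⟨0,[(22,0)]⟩),(⟨0,[(22,
  0)]⟩,⟨0,[(21,0)]⟩),⟨0,[(10,1),(4,0)]⟩,.k,.k,(.r (-1) ⟨0,[(26,1),(0,0)]⟩ ⟨2,[(0,1),(0,1),(23,1)]⟩),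
  (.r (-1) ⟨0,[(26,1),(0,0)]⟩ ⟨2,[(0,1),(0,1),(23,1)]⟩),.k,.k,⟨true,0,⟨4,[(0,0),(5,0),(2,0),(3,0),
  (9,0)]⟩,⟨0,[]⟩⟩,⟨false,1,⟨0,[(10,0),(10,0),(5,0)]⟩,⟨0,[(15,0)]⟩⟩,⟨false,0,⟨0,[(0,0),(0,0)]⟩,⟨1,
  [(2,1),(23,1),(0,0),(0,0)]⟩⟩,⟨true,0,⟨2,[(0,0),(0,0),(1,2),(21,0)]⟩,⟨0,[(14,0),(11,0)]⟩⟩,⟨false,0,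
  ⟨0,[]⟩,⟨0,[]⟩⟩,⟨false,0,⟨0,[]⟩,⟨0,[]⟩⟩,[.a ⟨true,0,⟨1,[(3,0),(3,0),(15,0)]⟩,⟨0,[(26,0)]⟩⟩ ⟨false,
  0,⟨2,[(0,0),(0,0),(23,0)]⟩,⟨0,[(26,0),(0,0)]⟩⟩ ⟨true,0,⟨0,[(3,0)]⟩,⟨7,[(9,0),(3,0),(0,2),(0,4),(7,
  4)]⟩⟩,.o ⟨false,1,⟨3,[(7,1),(12,0),(7,2)]⟩,⟨0,[(14,0)]⟩⟩,.e ⟨true,0,⟨10,[(0,4),(5,4),(0,2),(1,0),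
  (3,0),(1,2)]⟩,⟨0,[(2,0)]⟩⟩ ⟨true,0,⟨0,[(3,0)]⟩,⟨3,[(9,0),(3,0),(0,2),(0,0),(7,0)]⟩⟩,.o ⟨false,0,
  ⟨0,[(15,0)]⟩,⟨0,[(27,0)]⟩⟩]⟩)))))

def t1 : Tre :=
  (.I [0,0,-1,0,0,1] (.K ⟨0,[0,0,1],0,0,(⟨0,[(11,0)]⟩,⟨1,[(10,0),(2,0),(0,0)]⟩),.k,(.x (-1) ⟨7,[(7,
  3),(0,2),(0,2),(2,1),(0,7)]⟩ ⟨0,[(0,0)]⟩),(.x 0 ⟨0,[(0,0)]⟩ ⟨7,[(7,3),(0,2),(0,2),(2,1),(0,7)]⟩),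
  .k,.k,[⟨0,[(11,0),(9,0)]⟩,⟨1,[(7,0),(2,0)]⟩,⟨0,[(1,0)]⟩,⟨0,[(4,0)]⟩]⟩) (.Q [0,-1,0,-2,0,0,0,-1]
  (.pp true [-1,1]) (.R ⟨2,true,false,false,[0,1],[1,-1],[1,0,1,1],(⟨0,[]⟩,⟨0,[]⟩),(⟨0,[(14,0)]⟩,⟨0,
  [(15,0)]⟩),⟨0,[]⟩,.k,.k,.k,(.r (-1) ⟨0,[(18,1),(2,0),(0,1)]⟩ ⟨0,[(0,0),(2,0),(10,0),(2,0)]⟩),.k,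
  .k,⟨false,1,⟨0,[(18,1),(2,0),(0,0)]⟩,⟨0,[(0,0),(2,0),(10,0),(2,0)]⟩⟩,⟨true,0,⟨0,[(8,0)]⟩,⟨0,[(3,
  0),(10,0)]⟩⟩,⟨true,0,⟨0,[]⟩,⟨0,[(23,0)]⟩⟩,⟨false,0,⟨0,[(0,0)]⟩,⟨0,[(14,0),(0,0),(2,1),(2,0)]⟩⟩,
  ⟨false,1,⟨0,[(18,0),(2,0)]⟩,⟨0,[(19,0)]⟩⟩,⟨true,0,⟨0,[(0,0),(17,0)]⟩,⟨0,[(14,0),(0,0),(2,0)]⟩⟩,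
  []⟩) (.I [1,0,-1,0,0,0,1] (.I [0,0,1,1,0,0,1] (.K ⟨0,[0,0,1],0,0,(⟨0,[(14,0)]⟩,⟨1,[(13,0),(2,0),
  (0,0)]⟩),.k,(.r 0 ⟨0,[(1,0),(19,0)]⟩ ⟨0,[(0,0),(10,0)]⟩),(.r 0 ⟨0,[(0,0)]⟩ ⟨1,[(11,0),(9,1),(0,
  0)]⟩),.k,.k,[⟨1,[(0,0),(3,0),(9,0),(3,0)]⟩,⟨1,[(10,0),(2,0)]⟩,⟨0,[(4,0)]⟩,⟨0,[(7,0)]⟩]⟩) (.R ⟨2,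
  false,false,false,[0,1],[1,-1],[0,1,1],(⟨0,[]⟩,⟨0,[]⟩),(⟨0,[(16,0)]⟩,⟨0,[(17,0)]⟩),⟨0,[]⟩,.k,.k,
  .k,(.r (-1) ⟨2,[(2,1),(3,1),(1,1),(1,1),(12,0)]⟩ ⟨0,[(0,0),(0,0),(19,0)]⟩),.k,.k,⟨false,0,⟨4,[(2,
  1),(1,0),(3,0),(1,1),(9,0)]⟩,⟨3,[(0,3),(0,1),(10,0),(9,0),(0,1)]⟩⟩,⟨true,0,⟨0,[(10,0)]⟩,⟨0,[(5,0),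
  (10,0)]⟩⟩,⟨false,0,⟨0,[(21,0)]⟩,⟨3,[(2,1),(12,0),(7,2)]⟩⟩,⟨true,0,⟨2,[(0,1),(0,1),(7,1),(0,0),(7,
  1)]⟩,⟨0,[(2,0)]⟩⟩,⟨true,0,⟨0,[(25,0)]⟩,⟨0,[]⟩⟩,⟨true,0,⟨0,[(0,0),(0,0),(8,0)]⟩,⟨3,[(2,1),(1,0),(0,
  0),(2,0),(7,1),(0,0)]⟩⟩,[.o ⟨false,0,⟨0,[(0,0),(0,0),(8,0)]⟩,⟨23,[(2,7),(3,7),(4,2),(0,6),(0,3),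
  (1,5)]⟩⟩,.o ⟨false,1,⟨3,[(0,1),(11,0),(2,1),(2,1),(4,0)]⟩,⟨0,[(20,0)]⟩⟩,.a ⟨true,0,⟨0,[(5,0),(10,
  0)]⟩,⟨0,[(24,0)]⟩⟩ ⟨false,0,⟨0,[(24,0)]⟩,⟨1,[(22,0),(0,0)]⟩⟩ ⟨true,0,⟨2,[(0,0),(0,0),(7,0),(0,1),
  (7,0)]⟩,⟨1,[(2,0),(2,0),(10,0),(2,0)]⟩⟩,.e ⟨true,0,⟨0,[(25,0)]⟩,⟨0,[]⟩⟩ ⟨true,0,⟨0,[(0,0),(0,0),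
  (8,0)]⟩,⟨3,[(2,1),(1,0),(0,0),(2,0),(7,1),(0,0)]⟩⟩]⟩)) (.I [0,0,-1,-1,0,0,-1] (.I [0,0,1,1,0,0,
  -1] (.K ⟨0,[0,0,1],0,0,(⟨0,[(15,0)]⟩,⟨1,[(14,0),(2,0),(0,0)]⟩),.k,(.r (-1) ⟨0,[(1,0),(11,0)]⟩ ⟨0,
  [(0,0)]⟩),(.r (-1) ⟨5,[(3,1),(3,1),(1,1),(1,1),(1,2),(10,0)]⟩ ⟨0,[(1,0)]⟩),.k,.k,[⟨0,[(15,0),(9,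
  0)]⟩,⟨1,[(11,0),(2,0)]⟩,⟨0,[(5,0)]⟩,⟨0,[(8,0)]⟩]⟩) (.Q [0,0,0,-1,0,0,0,-1] (.pp true [-1,1]) (.R
  ⟨2,false,false,false,[0,1],[1,-1],[0,1,1],(⟨0,[]⟩,⟨0,[]⟩),(⟨0,[(18,0)]⟩,⟨0,[(19,0)]⟩),⟨0,[]⟩,.k,
  .k,.k,(.r (-1) ⟨2,[(4,1),(3,1),(1,1),(1,1),(12,0)]⟩ ⟨0,[(1,0),(0,0)]⟩),.k,.k,⟨false,0,⟨4,[(4,1),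
  (1,0),(3,0),(1,1),(9,0)]⟩,⟨1,[(1,0),(0,0),(21,0),(0,0)]⟩⟩,⟨true,0,⟨0,[(12,0)]⟩,⟨0,[(7,0),(10,
  0)]⟩⟩,⟨false,0,⟨0,[(23,0)]⟩,⟨3,[(4,1),(12,0),(7,2)]⟩⟩,⟨true,0,⟨0,[(0,0),(22,0)]⟩,⟨0,[(4,0)]⟩⟩,
  ⟨true,0,⟨0,[(27,0)]⟩,⟨0,[]⟩⟩,⟨true,0,⟨0,[(0,0)]⟩,⟨13,[(1,1),(2,7),(1,3),(3,1),(4,0),(2,4),(0,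
  4)]⟩⟩,[.o ⟨false,0,⟨0,[(0,0)]⟩,⟨23,[(4,7),(3,7),(4,2),(0,6),(0,3),(1,5)]⟩⟩,.o ⟨false,1,⟨3,[(2,1),
  (11,0),(2,1),(2,1),(4,0)]⟩,⟨0,[(22,0)]⟩⟩,.a ⟨true,0,⟨0,[(7,0),(10,0)]⟩,⟨0,[(26,0)]⟩⟩ ⟨false,0,⟨0,
  [(26,0)]⟩,⟨1,[(24,0),(0,0)]⟩⟩ ⟨true,0,⟨2,[(0,0),(10,0),(0,0),(7,0)]⟩,⟨1,[(4,0),(2,0),(10,0),(2,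
  0)]⟩⟩,.e ⟨true,0,⟨0,[(27,0)]⟩,⟨0,[]⟩⟩ ⟨true,0,⟨0,[(0,0)]⟩,⟨13,[(1,1),(2,7),(1,3),(3,1),(4,0),(2,
  4),(0,4)]⟩⟩]⟩) (.R ⟨2,true,false,false,[0,1],[1,-1],[0,1],(⟨0,[]⟩,⟨0,[]⟩),(⟨0,[(18,0)]⟩,⟨0,[(19,
  0)]⟩),⟨0,[]⟩,.k,.k,.k,(.r (-1) ⟨2,[(4,1),(3,1),(1,1),(1,1),(12,0)]⟩ ⟨0,[(1,0),(0,0)]⟩),.k,.k,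
  ⟨false,0,⟨0,[(22,0)]⟩,⟨1,[(2,1),(11,0),(10,0)]⟩⟩,⟨true,0,⟨0,[(12,0)]⟩,⟨0,[(7,0),(10,0)]⟩⟩,⟨false,
  0,⟨1,[(1,0),(0,0)]⟩,⟨2,[(4,0),(3,0),(1,0),(1,0),(12,1)]⟩⟩,⟨true,0,⟨0,[(1,0),(0,0),(9,0)]⟩,⟨0,[(4,
  0)]⟩⟩,⟨true,0,⟨0,[(21,0)]⟩,⟨0,[(26,0)]⟩⟩,⟨false,1,⟨3,[(2,1),(11,0),(2,1),(2,1),(4,0)]⟩,⟨0,[(0,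
  0)]⟩⟩,[]⟩))) (.I [0,0,1,1,0,0,-1] (.I [0,0,1,1,0,0,1] (.K ⟨0,[0,0,1],0,0,(⟨0,[(16,0)]⟩,⟨1,[(15,0),
  (2,0),(0,0)]⟩),.k,(.r (-1) ⟨1,[(14,0),(8,1),(0,0)]⟩ ⟨0,[(1,0)]⟩),(.r 0 ⟨0,[(0,0)]⟩ ⟨1,[(13,0),(9,
  1),(0,0)]⟩),.k,.k,[⟨1,[(2,0),(3,0),(9,0),(3,0)]⟩,⟨1,[(12,0),(2,0)]⟩,⟨0,[(6,0)]⟩,⟨0,[(9,0)]⟩]⟩)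
  (.I [0,0,-1,-1,1,0,2] (.K ⟨0,[0,1,-1],0,0,(⟨1,[(8,1),(4,0),(2,0)]⟩,⟨0,[(17,0),(1,0)]⟩),(.r 0 ⟨0,
  [(2,0)]⟩ ⟨4,[(0,3),(0,0),(12,0)]⟩),.k,(.r 0 ⟨1,[(2,2),(0,0)]⟩ ⟨0,[(0,0),(0,0)]⟩),.k,.k,[⟨7,[(3,1),
  (0,3),(6,1),(1,2),(2,2),(4,1)]⟩,⟨0,[(17,0)]⟩,⟨0,[(10,0),(13,0)]⟩,⟨1,[(1,0),(0,0),(14,1),(5,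
  1)]⟩]⟩) (.Q [0,0,1,-1,0,0,0,-1] (.pp true [-1,1]) (.R ⟨0,false,false,false,[1,-1],[0,1],[0,1],(⟨0,
  [(20,0)]⟩,⟨0,[(21,0)]⟩),(⟨0,[(21,0)]⟩,⟨0,[(20,0)]⟩),⟨0,[(9,1),(4,0)]⟩,.k,.k,(.r (-1) ⟨0,[(2,1),
  (13,0)]⟩ ⟨0,[(3,0),(0,0)]⟩),(.r (-1) ⟨0,[(2,1),(13,0)]⟩ ⟨0,[(3,0),(0,0)]⟩),.k,.k,⟨true,0,⟨0,[(23,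
  0),(1,0)]⟩,⟨7,[(1,1),(1,2),(0,6),(17,3),(4,1)]⟩⟩,⟨false,1,⟨0,[(9,0),(10,0),(5,0)]⟩,⟨0,[(14,0)]⟩⟩,
  ⟨false,0,⟨1,[(3,0),(0,0)]⟩,⟨1,[(2,1),(13,0),(10,0)]⟩⟩,⟨true,0,⟨7,[(1,3),(2,7),(1,1),(2,5),(10,5),
  (5,2),(0,0)]⟩,⟨0,[(13,0),(11,0)]⟩⟩,⟨false,0,⟨0,[]⟩,⟨0,[]⟩⟩,⟨false,0,⟨0,[]⟩,⟨0,[]⟩⟩,[.e ⟨false,0,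
  ⟨0,[(23,0)]⟩,⟨3,[(15,0),(0,0),(10,1)]⟩⟩ ⟨false,1,⟨3,[(6,1),(2,1),(10,1),(5,2),(0,0)]⟩,⟨0,[(0,
  0)]⟩⟩,.o ⟨false,1,⟨3,[(6,1),(12,0),(7,2)]⟩,⟨0,[(13,0)]⟩⟩,.a ⟨true,0,⟨0,[(28,0)]⟩,⟨0,[(9,0),(10,
  0)]⟩⟩ ⟨true,0,⟨0,[(29,0)]⟩,⟨0,[]⟩⟩ ⟨false,1,⟨3,[(6,1),(2,1),(10,1),(5,0),(0,2)]⟩,⟨0,[(0,0)]⟩⟩,.o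
  ⟨false,0,⟨0,[(14,0)]⟩,⟨0,[(26,0)]⟩⟩]⟩) (.R ⟨0,false,false,false,[1,-1],[0,1],[0,1],(⟨0,[(20,0)]⟩,
  ⟨0,[(21,0)]⟩),(⟨0,[(21,0)]⟩,⟨0,[(20,0)]⟩),⟨0,[(9,1),(4,0)]⟩,.k,.k,(.r (-1) ⟨0,[(2,1),(13,0)]⟩ ⟨0,
  [(3,0),(0,0)]⟩),(.r (-1) ⟨0,[(2,1),(13,0)]⟩ ⟨0,[(3,0),(0,0)]⟩),.k,.k,⟨true,0,⟨0,[(23,0),(1,0)]⟩,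
  ⟨7,[(1,1),(1,2),(0,6),(17,3),(4,1)]⟩⟩,⟨false,1,⟨0,[(9,0),(10,0),(5,0)]⟩,⟨0,[(14,0)]⟩⟩,⟨false,0,⟨1,
  [(3,0),(0,0)]⟩,⟨1,[(2,1),(13,0),(10,0)]⟩⟩,⟨true,0,⟨4,[(0,2),(0,0),(2,1),(1,1),(20,0)]⟩,⟨0,[(13,0),
  (11,0)]⟩⟩,⟨false,0,⟨0,[]⟩,⟨0,[]⟩⟩,⟨false,0,⟨0,[]⟩,⟨0,[]⟩⟩,[.a ⟨true,0,⟨1,[(0,0),(5,0),(15,0)]⟩,⟨0,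
  [(25,0)]⟩⟩ ⟨false,0,⟨0,[(23,0)]⟩,⟨3,[(15,0),(0,0),(10,1)]⟩⟩ ⟨true,0,⟨0,[(0,0)]⟩,⟨7,[(8,0),(3,0),
  (0,2),(0,4),(7,4)]⟩⟩,.o ⟨false,1,⟨3,[(6,1),(12,0),(7,2)]⟩,⟨0,[(13,0)]⟩⟩,.e ⟨true,0,⟨0,[(29,0)]⟩,
  ⟨0,[]⟩⟩ ⟨true,0,⟨0,[(0,0)]⟩,⟨3,[(8,0),(3,0),(0,2),(0,0),(7,0)]⟩⟩,.o ⟨false,0,⟨0,[(14,0)]⟩,⟨0,[(26,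
  0)]⟩⟩]⟩)))) t0)))))

def t2 : Tre :=
  (.Q [0,1,0,-1,0,0,1,0,-1] (.p false [0,0,1] [] (⟨0,[(7,0)]⟩,⟨1,[(6,0),(2,0),(0,0)]⟩) .k 0 (⟨0,[]⟩,
  ⟨0,[]⟩) .k .k) (.R ⟨2,true,false,true,[0,1],[0,0,1],[0,1,1],(⟨0,[]⟩,⟨0,[]⟩),(⟨0,[(8,0)]⟩,⟨1,[(7,
  0),(2,0),(0,0)]⟩),⟨0,[]⟩,.k,.k,.k,(.r 0 ⟨1,[(1,1),(2,0),(2,0),(6,1)]⟩ ⟨1,[(6,0),(8,1),(0,0)]⟩),.k,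
  .k,⟨false,0,⟨1,[(1,1),(1,0),(3,0),(6,0)]⟩,⟨1,[(6,0),(9,0)]⟩⟩,⟨true,0,⟨1,[(4,0),(2,0)]⟩,⟨0,[(8,
  0)]⟩⟩,⟨false,0,⟨0,[(15,0)]⟩,⟨0,[(14,0),(2,0)]⟩⟩,⟨true,0,⟨0,[(0,0)]⟩,⟨0,[(1,0),(12,0)]⟩⟩,⟨true,0,
  ⟨0,[(19,0)]⟩,⟨0,[]⟩⟩,⟨false,1,⟨7,[(5,0),(0,4),(0,3),(1,1)]⟩,⟨0,[(1,0)]⟩⟩,[]⟩) (.Q [0,-1,0,0,1,0,1,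
  0,-1] (.p false [0,0,1] [] (⟨0,[(8,0)]⟩,⟨1,[(7,0),(2,0),(0,0)]⟩) .k 0 (⟨0,[]⟩,⟨0,[]⟩) .k .k) (.Q
  [0,0,-1,0,0,0,0,1] (.pp false [-1,1]) (.R ⟨2,false,false,false,[0,1],[0,0,1],[0,0,1],(⟨0,[]⟩,⟨0,
  []⟩),(⟨0,[(10,0)]⟩,⟨1,[(9,0),(2,0),(0,0)]⟩),⟨0,[]⟩,.k,.k,.k,(.r 0 ⟨1,[(2,1),(3,0),(2,0),(11,1)]⟩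
  ⟨1,[(8,0),(8,1),(0,0)]⟩),.k,.k,⟨false,0,⟨1,[(2,0),(0,0),(1,0),(3,0),(11,0)]⟩,⟨1,[(8,0),(9,0)]⟩⟩,
  ⟨true,0,⟨1,[(6,0),(2,0)]⟩,⟨0,[(10,0)]⟩⟩,⟨true,0,⟨0,[(17,0)]⟩,⟨0,[(16,0)]⟩⟩,⟨false,1,⟨0,[(1,0),(15,
  0)]⟩,⟨0,[(2,0),(18,0)]⟩⟩,⟨false,1,⟨3,[(7,0),(0,0),(10,1)]⟩,⟨0,[]⟩⟩,⟨false,1,⟨0,[(1,0)]⟩,⟨0,[(3,0),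
  (17,0)]⟩⟩,[.o ⟨false,1,⟨7,[(1,3),(2,3),(2,0),(0,0),(9,1)]⟩,⟨0,[(2,0),(2,0)]⟩⟩,.o ⟨false,1,⟨0,[(1,
  0)]⟩,⟨0,[(2,0),(2,0),(15,0)]⟩⟩,.a ⟨true,0,⟨0,[(0,0)]⟩,⟨0,[(20,0)]⟩⟩ ⟨true,0,⟨0,[(20,0)]⟩,⟨0,[(15,
  0)]⟩⟩ ⟨false,1,⟨0,[(4,0),(14,0)]⟩,⟨0,[(3,0),(11,0)]⟩⟩,.e ⟨false,1,⟨3,[(7,0),(0,0),(10,1)]⟩,⟨0,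
  []⟩⟩ ⟨false,1,⟨0,[(1,0)]⟩,⟨0,[(3,0),(17,0)]⟩⟩]⟩) (.Q [0,1,0,0,0,0,1,1,-1] (.p false [0,0,1] [1]
  (⟨0,[(10,0)]⟩,⟨1,[(9,0),(2,0),(0,0)]⟩) .k 1 (⟨0,[]⟩,⟨0,[]⟩) .k .k) (.K ⟨0,[1,0,-1],0,0,(⟨1,[(0,0),
  (3,0),(5,0)]⟩,⟨0,[(11,0)]⟩),.k,(.x 0 ⟨0,[(1,0),(11,0)]⟩ ⟨3,[(8,0),(0,0),(4,3),(4,1)]⟩),(.r 0 ⟨1,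
  [(3,1),(3,0),(2,0),(11,1)]⟩ ⟨1,[(9,0),(8,1),(0,0)]⟩),.k,.k,[⟨1,[(0,0),(3,0),(5,0),(10,1)]⟩,⟨0,[(1,
  0),(9,0)]⟩,⟨0,[(0,0)]⟩,⟨0,[(3,0),(2,0),(15,0)]⟩]⟩) (.Q [0,0,0,1,0,0,0,1] (.pp false [-1,1]) (.Q
  [0,0,0,-2,0,0,0,-1] (.pp true [-1,1]) (.R ⟨2,false,false,true,[0,1],[1,-1],[0,1],(⟨0,[]⟩,⟨0,[]⟩),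
  (⟨0,[(15,0)]⟩,⟨0,[(16,0)]⟩),⟨0,[]⟩,.k,.k,.k,(.r 0 ⟨0,[(5,1),(1,1)]⟩ ⟨0,[(20,1),(0,0)]⟩),.k,.k,
  ⟨true,0,⟨0,[(5,0),(1,0)]⟩,⟨0,[(20,0)]⟩⟩,⟨false,0,⟨0,[(3,0)]⟩,⟨0,[(15,0),(0,0),(4,0)]⟩⟩,⟨true,0,⟨0,
  [(18,0),(1,0)]⟩,⟨0,[(5,0),(1,0)]⟩⟩,⟨false,0,⟨0,[(0,0)]⟩,⟨0,[(1,0),(17,0),(2,0)]⟩⟩,⟨true,0,⟨0,[(18,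
  0)]⟩,⟨0,[(23,0)]⟩⟩,⟨true,0,⟨0,[(8,0)]⟩,⟨0,[(1,0)]⟩⟩,[.o ⟨false,0,⟨0,[(8,0)]⟩,⟨0,[(19,0),(2,0)]⟩⟩,
  .a ⟨true,0,⟨0,[(20,0)]⟩,⟨0,[(1,0)]⟩⟩ ⟨false,1,⟨3,[(10,0),(0,0),(9,1)]⟩,⟨0,[]⟩⟩ ⟨true,0,⟨1,[(0,0),
  (8,0)]⟩,⟨0,[(1,0)]⟩⟩,.o ⟨false,1,⟨3,[(10,0),(0,0),(9,1)]⟩,⟨0,[(3,0)]⟩⟩,.e ⟨true,0,⟨0,[(18,0)]⟩,⟨0,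
  [(23,0)]⟩⟩ ⟨true,0,⟨0,[(8,0)]⟩,⟨0,[(1,0)]⟩⟩]⟩) (.Q [0,0,0,0,0,-1,0,0,1] (.ed false [1,-1,1] .k)
  (.S ⟨1,0,[0,0,-1,-2],[1,-1],[1,1,-1,-1],(⟨0,[(16,0)]⟩,⟨0,[(17,0)]⟩),⟨0,[(0,1),(12,0)]⟩,.k,(.r
  (-1) ⟨0,[(21,1),(0,0)]⟩ ⟨0,[(1,0),(8,0)]⟩),⟨false,0,⟨0,[]⟩,⟨3,[(11,0),(0,0),(10,1)]⟩⟩,⟨true,0,⟨0,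
  [(21,0)]⟩,⟨0,[(20,0)]⟩⟩,⟨true,0,⟨0,[(20,0)]⟩,⟨0,[(21,0)]⟩⟩,⟨false,1,⟨3,[(11,0),(0,0),(10,1)]⟩,⟨0,
  []⟩⟩,[.a ⟨true,0,⟨0,[(21,1)]⟩,⟨0,[(1,0)]⟩⟩ ⟨true,0,⟨0,[(19,0),(1,0)]⟩,⟨0,[(1,0),(2,0),(13,0)]⟩⟩
  ⟨false,1,⟨0,[(21,1),(0,0)]⟩,⟨0,[(1,0),(2,0)]⟩⟩,.o ⟨false,1,⟨1,[(15,0),(5,3),(1,0)]⟩,⟨0,[(1,0),(2,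
  0),(14,0)]⟩⟩,.o ⟨false,0,⟨0,[(4,0)]⟩,⟨3,[(11,0),(0,0),(9,1)]⟩⟩,.o ⟨false,0,⟨0,[(10,0)]⟩,⟨0,[(22,
  0)]⟩⟩]⟩) (.R ⟨0,false,false,true,[0,0,1],[1,-1],[0,1,0,0,0,0,1],(⟨0,[(14,0)]⟩,⟨1,[(13,0),(2,0),(0,
  0)]⟩),(⟨0,[(16,0)]⟩,⟨0,[(17,0)]⟩),⟨0,[(0,0)]⟩,.k,.k,(.r (-1) ⟨1,[(12,0),(8,1),(0,0)]⟩ ⟨1,[(6,1),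
  (3,0),(2,0),(11,1)]⟩),(.r (-1) ⟨3,[(1,1),(8,1),(0,0),(0,2)]⟩ ⟨1,[(3,0),(3,0),(5,0),(5,1),(1,1)]⟩),
  .k,.k,⟨false,1,⟨7,[(1,3),(9,0),(0,4),(2,1)]⟩,⟨1,[(3,0),(3,0),(5,0),(5,1),(1,1)]⟩⟩,⟨true,0,⟨0,[(4,
  0),(9,0)]⟩,⟨1,[(13,0),(2,0),(0,0)]⟩⟩,⟨true,0,⟨0,[(25,0)]⟩,⟨0,[]⟩⟩,⟨false,0,⟨0,[(7,0),(1,0)]⟩,⟨0,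
  [(2,0),(2,0)]⟩⟩,⟨false,0,⟨0,[]⟩,⟨0,[]⟩⟩,⟨false,0,⟨0,[]⟩,⟨0,[]⟩⟩,[.o ⟨false,0,⟨0,[(9,0)]⟩,⟨7,[(1,
  3),(9,0),(0,0),(2,1),(7,3)]⟩⟩,.e ⟨false,1,⟨1,[(12,0),(9,0)]⟩,⟨1,[(3,0),(3,0),(5,0),(11,1)]⟩⟩
  ⟨false,1,⟨1,[(14,1),(0,0),(5,1),(0,0)]⟩,⟨1,[(1,0),(11,0)]⟩⟩,.a ⟨true,0,⟨1,[(13,0),(2,0),(0,0)]⟩,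
  ⟨0,[(14,0)]⟩⟩ ⟨false,1,⟨3,[(11,0),(0,2)]⟩,⟨1,[(3,0),(3,0),(5,0)]⟩⟩ ⟨true,0,⟨0,[(9,0),(4,0)]⟩,⟨1,
  [(1,0),(11,0)]⟩⟩,.o ⟨false,0,⟨1,[(10,0),(2,0)]⟩,⟨1,[(14,1),(0,0),(6,0)]⟩⟩]⟩))) (.Q [0,0,0,0,0,-2,
  0,1] (.pp false [-1,1]) (.R ⟨1,false,false,false,[1,0,-1],[1,-1],[1,0,0,0,0,0,-1],(⟨1,[(12,0),(2,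
  0),(0,0)]⟩,⟨0,[(13,0)]⟩),(⟨0,[(15,0)]⟩,⟨0,[(16,0)]⟩),⟨1,[(0,0),(11,0)]⟩,.k,.k,(.r 0 ⟨1,[(2,0),(3,
  0),(5,0),(5,1),(1,1)]⟩ ⟨1,[(11,0),(7,1),(2,0),(0,1)]⟩),(.r 0 ⟨1,[(5,1),(3,0),(2,0),(11,1)]⟩ ⟨1,
  [(11,0),(8,1),(0,0)]⟩),.k,.k,⟨false,0,⟨1,[(2,0),(2,0),(6,0),(6,0),(4,0)]⟩,⟨1,[(11,0),(8,1),(0,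
  0)]⟩⟩,⟨true,0,⟨1,[(9,0),(2,0)]⟩,⟨0,[(13,0)]⟩⟩,⟨true,0,⟨0,[]⟩,⟨0,[(24,0)]⟩⟩,⟨false,1,⟨0,[(4,0),(15,
  0)]⟩,⟨0,[(5,0),(18,0)]⟩⟩,⟨false,1,⟨0,[(19,0),(2,0)]⟩,⟨0,[(20,0)]⟩⟩,⟨false,1,⟨0,[(4,0)]⟩,⟨0,[(6,0),
  (17,0)]⟩⟩,[.o ⟨false,0,⟨0,[(1,0)]⟩,⟨3,[(10,0),(0,0),(7,3),(2,1)]⟩⟩,.o ⟨false,1,⟨1,[(14,0),(5,1),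
  (1,0)]⟩,⟨0,[(19,0)]⟩⟩,.a ⟨true,0,⟨0,[(13,0)]⟩,⟨1,[(12,0),(2,0),(0,0)]⟩⟩ ⟨false,0,⟨1,[(2,0),(3,0),
  (5,0)]⟩,⟨3,[(10,0),(0,2)]⟩⟩ ⟨true,0,⟨1,[(1,0),(10,0),(7,0)]⟩,⟨0,[(13,0),(5,0)]⟩⟩,.o ⟨false,0,⟨0,
  [(3,0),(9,0)]⟩,⟨15,[(4,1),(2,1),(2,1),(1,5),(1,2),(6,8)]⟩⟩]⟩) (.R ⟨0,false,false,false,[0,0,1],[1,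
  -1],[1,0,0,0,0,0,1],(⟨0,[(13,0)]⟩,⟨1,[(12,0),(2,0),(0,0)]⟩),(⟨0,[(15,0)]⟩,⟨0,[(16,0)]⟩),⟨1,[(0,0),
  (11,0)]⟩,.k,.k,(.r (-1) ⟨1,[(11,0),(8,1),(0,0)]⟩ ⟨1,[(5,1),(3,0),(2,0),(11,1)]⟩),(.r (-1) ⟨1,[(11,
  0),(7,1),(2,0),(0,1)]⟩ ⟨1,[(2,0),(3,0),(5,0),(5,1),(1,1)]⟩),.k,.k,⟨false,1,⟨1,[(11,0),(7,1),(2,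
  0)]⟩,⟨1,[(2,0),(3,0),(5,0),(5,1),(1,1)]⟩⟩,⟨true,0,⟨0,[(3,0),(9,0)]⟩,⟨1,[(12,0),(2,0),(0,0)]⟩⟩,
  ⟨true,0,⟨0,[]⟩,⟨0,[(24,0)]⟩⟩,⟨false,0,⟨0,[(2,0),(17,0)]⟩,⟨7,[(5,3),(4,0),(0,6),(0,5),(2,1),(0,1),
  (2,3)]⟩⟩,⟨false,0,⟨0,[]⟩,⟨0,[]⟩⟩,⟨false,0,⟨0,[]⟩,⟨0,[]⟩⟩,[.o ⟨false,0,⟨0,[(1,0)]⟩,⟨3,[(10,0),(0,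
  0),(7,3),(2,1)]⟩⟩,.o ⟨false,1,⟨1,[(14,0),(5,1),(1,0)]⟩,⟨0,[(19,0)]⟩⟩,.a ⟨true,0,⟨1,[(12,0),(2,0),
  (0,0)]⟩,⟨0,[(13,0)]⟩⟩ ⟨false,1,⟨1,[(11,0),(10,0)]⟩,⟨1,[(2,0),(3,0),(5,0),(11,1)]⟩⟩ ⟨true,0,⟨0,[(1,
  0),(11,0)]⟩,⟨1,[(12,0),(2,0),(0,0),(2,1)]⟩⟩,.o ⟨false,0,⟨1,[(9,0),(2,0)]⟩,⟨1,[(13,1),(0,0),(6,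
  0)]⟩⟩]⟩))))) (.I [0,0,-1,-1,0,0,-1] (.K ⟨0,[0,0,1],0,1,(⟨0,[(10,0)]⟩,⟨1,[(9,0),(2,0),(0,0)]⟩),.k,
  (.r (-1) ⟨1,[(8,0),(8,1),(0,0)]⟩ ⟨13,[(1,1),(0,7),(3,4),(0,1),(1,4),(6,5),(3,3)]⟩),(.r (-1) ⟨1,
  [(8,0),(7,1),(2,0),(0,1)]⟩ ⟨0,[(0,0)]⟩),.k,.k,[⟨0,[(10,0),(9,0)]⟩,⟨1,[(6,0),(2,0)]⟩,⟨0,[(1,0)]⟩,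
  ⟨3,[(4,3),(2,0),(0,0),(9,1)]⟩]⟩) (.I [0,0,1,0,0,-1] (.K ⟨0,[0,0,1],0,1,(⟨0,[(11,0)]⟩,⟨1,[(10,0),
  (2,0),(0,0)]⟩),.k,(.x 0 ⟨0,[(0,0)]⟩ ⟨3,[(8,0),(0,0),(4,3),(4,1)]⟩),(.x (-1) ⟨3,[(8,0),(0,0),(4,3),
  (4,1)]⟩ ⟨0,[(0,0)]⟩),.k,.k,[⟨0,[(11,0),(9,0)]⟩,⟨1,[(7,0),(2,0)]⟩,⟨0,[(2,0)]⟩,⟨3,[(5,3),(2,0),(0,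
  0),(9,1)]⟩]⟩) (.Q [0,0,-1,1,0,0,0,1] (.pp false [-1,1]) (.R ⟨0,false,false,false,[1,-1],[0,1],[0,
  1],(⟨0,[(14,0)]⟩,⟨0,[(15,0)]⟩),(⟨0,[(15,0)]⟩,⟨0,[(14,0)]⟩),⟨0,[(1,1),(6,0)]⟩,.k,.k,(.r (-1) ⟨0,
  [(19,1),(0,0)]⟩ ⟨7,[(2,9),(0,1),(0,3),(3,2),(0,1),(1,2),(6,1)]⟩),(.r (-1) ⟨0,[(19,1),(0,0)]⟩ ⟨7,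
  [(2,9),(0,1),(0,3),(3,2),(0,1),(1,2),(6,1)]⟩),.k,.k,⟨true,0,⟨0,[(17,0),(1,0)]⟩,⟨2,[(2,1),(1,1),(3,
  0),(2,0),(4,0),(5,0)]⟩⟩,⟨false,1,⟨0,[(1,0),(12,0),(5,0)]⟩,⟨0,[(8,0)]⟩⟩,⟨false,0,⟨15,[(2,9),(0,1),
  (0,3),(3,2),(0,1),(1,2),(6,1)]⟩,⟨1,[(19,1),(0,0),(0,0)]⟩⟩,⟨true,0,⟨12,[(0,9),(1,9),(0,1),(0,3),(4,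
  1),(1,2),(6,1)]⟩,⟨0,[(7,0),(11,0)]⟩⟩,⟨false,0,⟨0,[]⟩,⟨0,[]⟩⟩,⟨false,0,⟨0,[]⟩,⟨0,[]⟩⟩,[.a ⟨true,0,
  ⟨0,[(0,0),(21,0)]⟩,⟨0,[(19,0)]⟩⟩ ⟨false,0,⟨0,[(17,0)]⟩,⟨3,[(9,0),(0,0),(10,1)]⟩⟩ ⟨true,0,⟨0,[(0,
  0)]⟩,⟨2,[(7,0),(0,1),(7,1),(6,0)]⟩⟩,.o ⟨false,1,⟨0,[(18,0),(2,0)]⟩,⟨0,[(7,0)]⟩⟩,.e ⟨true,0,⟨0,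
  [(23,0)]⟩,⟨0,[]⟩⟩ ⟨true,0,⟨0,[(0,0)]⟩,⟨2,[(7,1),(0,0),(7,0),(6,1)]⟩⟩,.o ⟨false,0,⟨0,[(8,0)]⟩,⟨0,
  [(20,0)]⟩⟩]⟩) (.R ⟨0,false,false,false,[1,-1],[0,1],[0,1],(⟨0,[(14,0)]⟩,⟨0,[(15,0)]⟩),(⟨0,[(15,
  0)]⟩,⟨0,[(14,0)]⟩),⟨0,[(1,1),(6,0)]⟩,.k,.k,(.r (-1) ⟨0,[(19,1),(0,0)]⟩ ⟨7,[(2,9),(0,1),(0,3),(3,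
  2),(0,1),(1,2),(6,1)]⟩),(.r (-1) ⟨0,[(19,1),(0,0)]⟩ ⟨7,[(2,9),(0,1),(0,3),(3,2),(0,1),(1,2),(6,
  1)]⟩),.k,.k,⟨true,0,⟨0,[(17,0),(1,0)]⟩,⟨2,[(2,1),(1,1),(3,0),(2,0),(4,0),(5,0)]⟩⟩,⟨false,1,⟨0,[(1,
  0),(12,0),(5,0)]⟩,⟨0,[(8,0)]⟩⟩,⟨false,0,⟨15,[(2,9),(0,1),(0,3),(3,2),(0,1),(1,2),(6,1)]⟩,⟨1,[(19,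
  1),(0,0),(0,0)]⟩⟩,⟨true,0,⟨2,[(1,1),(0,1),(1,1),(6,0),(2,1),(3,1)]⟩,⟨0,[(7,0),(11,0)]⟩⟩,⟨false,0,
  ⟨0,[]⟩,⟨0,[]⟩⟩,⟨false,0,⟨0,[]⟩,⟨0,[]⟩⟩,[.e ⟨false,0,⟨0,[(17,0)]⟩,⟨3,[(9,0),(0,0),(10,1)]⟩⟩ ⟨false,
  1,⟨15,[(1,11),(2,7),(4,0),(0,4),(0,3),(2,11),(3,7),(1,9)]⟩,⟨0,[(0,0)]⟩⟩,.o ⟨false,1,⟨0,[(18,0),(2,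
  0)]⟩,⟨0,[(7,0)]⟩⟩,.a ⟨true,0,⟨0,[(22,0)]⟩,⟨0,[(1,0),(12,0)]⟩⟩ ⟨true,0,⟨0,[(23,0)]⟩,⟨0,[]⟩⟩ ⟨false,
  1,⟨7,[(1,3),(2,7),(4,0),(0,4),(0,3),(2,3),(5,1)]⟩,⟨0,[(0,0)]⟩⟩,.o ⟨false,0,⟨0,[(8,0)]⟩,⟨0,[(20,
  0)]⟩⟩]⟩))))))

def t3 : Tre :=
  (.Q [0,-1,-1,0,0,0,-1,0,1] (.p true [0,0,1] [] (⟨0,[(5,0)]⟩,⟨1,[(4,0),(2,0),(0,0)]⟩) .k 0 (⟨0,[]⟩,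
  ⟨0,[]⟩) .k .k) (.Q [0,-1,0,0,1,0,1,0,-1] (.p false [0,0,1] [] (⟨0,[(6,0)]⟩,⟨1,[(5,0),(2,0),(0,
  0)]⟩) .k 0 (⟨0,[]⟩,⟨0,[]⟩) .k .k) (.Q [0,0,-1,0,0,0,0,1] (.pp false [-1,1]) (.R ⟨2,false,false,
  false,[0,1],[0,0,1],[0,0,1],(⟨0,[]⟩,⟨0,[]⟩),(⟨0,[(8,0)]⟩,⟨1,[(0,0),(6,0),(10,0)]⟩),⟨0,[]⟩,.k,.k,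
  .k,(.r 0 ⟨1,[(2,1),(1,0),(2,0),(6,1),(3,1)]⟩ ⟨1,[(6,0),(8,1),(0,0)]⟩),.k,.k,⟨false,0,⟨1,[(2,1),(1,
  0),(2,0),(11,1)]⟩,⟨1,[(6,0),(9,0)]⟩⟩,⟨true,0,⟨1,[(4,0),(2,0)]⟩,⟨0,[(8,0)]⟩⟩,⟨true,0,⟨0,[(15,0)]⟩,
  ⟨0,[(14,0)]⟩⟩,⟨false,1,⟨0,[(1,0),(13,0)]⟩,⟨0,[(2,0),(11,0),(3,0)]⟩⟩,⟨false,1,⟨3,[(5,0),(0,0),(10,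
  1)]⟩,⟨0,[]⟩⟩,⟨false,1,⟨0,[(1,0)]⟩,⟨0,[(2,0),(15,0),(0,0)]⟩⟩,[.o ⟨false,1,⟨7,[(5,0),(0,4),(0,3),(1,
  1)]⟩,⟨1,[(2,1),(0,0),(0,0),(9,0)]⟩⟩,.o ⟨false,1,⟨0,[(1,0)]⟩,⟨1,[(2,1),(0,0),(0,0),(9,0),(4,1)]⟩⟩,
  .a ⟨true,0,⟨0,[(0,0)]⟩,⟨0,[(18,0)]⟩⟩ ⟨true,0,⟨0,[(18,0)]⟩,⟨0,[(13,0)]⟩⟩ ⟨false,1,⟨1,[(4,0),(1,0),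
  (0,0),(9,0)]⟩,⟨0,[(2,0),(16,0)]⟩⟩,.e ⟨false,1,⟨3,[(5,0),(0,0),(10,1)]⟩,⟨0,[]⟩⟩ ⟨false,1,⟨0,[(1,
  0)]⟩,⟨0,[(2,0),(15,0),(0,0)]⟩⟩]⟩) (.Q [0,0,0,0,0,-1,0,1,-1] (.ed true [0,1,1] .k) (.Q [0,0,0,-1,0,
  0,0,-1] (.pp true [-1,1]) (.R ⟨1,false,false,false,[1,0,-1],[1,-1],[1,0,0,0,0,0,-1],(⟨1,[(9,0),(2,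
  0),(0,0)]⟩,⟨0,[(10,0)]⟩),(⟨0,[(12,0)]⟩,⟨0,[(13,0)]⟩),⟨0,[(1,0)]⟩,.k,.k,(.r 0 ⟨1,[(4,1),(0,0),(3,
  0),(7,0),(3,0)]⟩ ⟨1,[(8,0),(7,1),(2,0),(0,1)]⟩),(.r 0 ⟨1,[(4,1),(1,0),(2,0),(6,1),(3,1)]⟩ ⟨1,[(8,
  0),(8,1),(0,0)]⟩),.k,.k,⟨false,0,⟨1,[(4,1),(1,0),(2,0),(6,1)]⟩,⟨1,[(8,0),(8,1),(0,0)]⟩⟩,⟨true,0,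
  ⟨1,[(6,0),(2,0)]⟩,⟨0,[(10,0)]⟩⟩,⟨true,0,⟨0,[]⟩,⟨0,[(21,0)]⟩⟩,⟨false,1,⟨0,[(3,0),(13,0)]⟩,⟨0,[(4,
  0),(11,0),(3,0)]⟩⟩,⟨false,1,⟨0,[(16,0),(2,0)]⟩,⟨0,[(17,0)]⟩⟩,⟨false,1,⟨0,[(3,0)]⟩,⟨0,[(4,0),(15,
  0),(0,0)]⟩⟩,[.o ⟨false,0,⟨0,[(0,0)]⟩,⟨3,[(7,0),(0,0),(7,3),(2,1)]⟩⟩,.o ⟨false,1,⟨1,[(11,0),(5,1),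
  (1,0)]⟩,⟨0,[(16,0)]⟩⟩,.a ⟨true,0,⟨0,[(10,0)]⟩,⟨1,[(9,0),(2,0),(0,0)]⟩⟩ ⟨false,0,⟨1,[(4,1),(1,0),
  (2,0)]⟩,⟨3,[(7,0),(0,2)]⟩⟩ ⟨true,0,⟨1,[(0,0),(8,0),(7,0)]⟩,⟨0,[(10,0),(5,0)]⟩⟩,.o ⟨false,0,⟨0,[(2,
  0),(7,0)]⟩,⟨7,[(7,0),(0,0),(0,3),(1,1),(6,3)]⟩⟩]⟩) (.Q [0,0,0,1,0,0,0,0,1] (.p true [0,0,1] []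
  (⟨0,[(10,0)]⟩,⟨1,[(0,0),(8,0),(7,0)]⟩) .k 0 (⟨0,[]⟩,⟨0,[]⟩) .k .k) (.R ⟨1,false,false,true,[1,0,
  -1],[1,-1],[1,1,0,0,0,0,-1],(⟨1,[(1,0),(8,0),(7,0)]⟩,⟨0,[(11,0)]⟩),(⟨0,[(13,0)]⟩,⟨0,[(14,0)]⟩),⟨0,
  [(2,0)]⟩,.k,.k,(.r 0 ⟨1,[(5,1),(0,0),(3,0),(7,0),(3,0)]⟩ ⟨7,[(1,3),(5,3),(0,0),(0,4),(7,3),(2,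
  1)]⟩),(.r 0 ⟨1,[(1,0),(3,1),(1,1),(2,0),(6,0),(4,0)]⟩ ⟨1,[(9,0),(8,1),(0,0)]⟩),.k,.k,⟨false,0,⟨1,
  [(5,1),(1,0),(2,0),(6,1)]⟩,⟨1,[(9,0),(8,1),(0,0)]⟩⟩,⟨true,0,⟨1,[(7,0),(2,0)]⟩,⟨0,[(11,0)]⟩⟩,
  ⟨false,0,⟨0,[]⟩,⟨3,[(8,0),(0,0),(10,1)]⟩⟩,⟨false,1,⟨5,[(4,1),(1,1),(1,0),(0,2),(0,1),(7,3)]⟩,⟨1,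
  [(0,1),(4,1),(1,0),(2,0)]⟩⟩,⟨true,0,⟨0,[(17,0)]⟩,⟨0,[(18,0)]⟩⟩,⟨false,1,⟨7,[(8,0),(0,4),(0,3),(1,
  1)]⟩,⟨0,[(5,0),(15,0)]⟩⟩,[.o ⟨false,0,⟨0,[(6,0)]⟩,⟨0,[(17,0),(2,0)]⟩⟩,.e ⟨false,0,⟨1,[(5,1),(0,0),
  (3,0),(6,0)]⟩,⟨3,[(8,0),(0,2)]⟩⟩ ⟨false,1,⟨5,[(4,1),(1,1),(1,0),(1,1),(7,3),(0,2)]⟩,⟨0,[(0,0)]⟩⟩,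
  .a ⟨true,0,⟨0,[(11,0)]⟩,⟨1,[(1,0),(8,0),(7,0)]⟩⟩ ⟨false,0,⟨1,[(5,1),(1,0),(2,0),(11,1)]⟩,⟨1,[(9,
  0),(10,0)]⟩⟩ ⟨true,0,⟨1,[(6,0),(3,0),(7,0),(3,0)]⟩,⟨0,[(0,0)]⟩⟩,.o ⟨false,0,⟨0,[(3,0),(7,0)]⟩,⟨7,
  [(8,0),(0,0),(0,3),(1,1),(6,3)]⟩⟩]⟩) (.R ⟨1,false,false,true,[1,0,-1],[1,-1],[1,1,0,0,0,0,-1],(⟨1,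
  [(1,0),(8,0),(7,0)]⟩,⟨0,[(11,0)]⟩),(⟨0,[(13,0)]⟩,⟨0,[(14,0)]⟩),⟨0,[(2,0)]⟩,.k,.k,(.r 0 ⟨0,[(0,0),
  (4,0),(16,0)]⟩ ⟨7,[(1,3),(5,3),(0,0),(0,4),(7,3),(2,1)]⟩),(.r 0 ⟨1,[(1,0),(3,1),(1,1),(2,0),(6,0),
  (4,0)]⟩ ⟨1,[(9,0),(8,1),(0,0)]⟩),.k,.k,⟨false,0,⟨1,[(5,1),(1,0),(2,0),(6,1)]⟩,⟨1,[(9,0),(8,1),(0,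
  0)]⟩⟩,⟨true,0,⟨1,[(7,0),(2,0)]⟩,⟨0,[(11,0)]⟩⟩,⟨false,0,⟨0,[]⟩,⟨3,[(8,0),(0,0),(10,1)]⟩⟩,⟨false,1,
  ⟨3,[(0,3),(7,0),(0,2)]⟩,⟨0,[(1,0),(1,0),(1,0)]⟩⟩,⟨true,0,⟨0,[(17,0)]⟩,⟨0,[(18,0)]⟩⟩,⟨false,1,⟨7,
  [(8,0),(0,4),(0,3),(1,1)]⟩,⟨0,[(5,0),(15,0)]⟩⟩,[.o ⟨false,0,⟨0,[(6,0)]⟩,⟨0,[(17,0),(2,0)]⟩⟩,.a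
  ⟨true,0,⟨0,[(18,0)]⟩,⟨0,[(1,0)]⟩⟩ ⟨false,0,⟨1,[(5,1),(0,0),(3,0),(6,0)]⟩,⟨3,[(8,0),(0,2)]⟩⟩ ⟨true,
  0,⟨0,[(0,0)]⟩,⟨0,[(1,0),(1,0),(7,0)]⟩⟩,.e ⟨false,0,⟨1,[(5,1),(1,0),(2,0),(11,1)]⟩,⟨1,[(9,0),(10,
  0)]⟩⟩ ⟨false,0,⟨0,[(0,0)]⟩,⟨0,[(11,0),(5,0),(2,0)]⟩⟩,.o ⟨false,0,⟨0,[(3,0),(7,0)]⟩,⟨7,[(8,0),(0,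
  0),(0,3),(1,1),(6,3)]⟩⟩]⟩))) (.Q [0,1,0,0,-1,0,-2,-1,2] (.p true [0,0,1] [1,0,-1] (⟨0,[(9,0)]⟩,⟨1,
  [(8,0),(2,0),(0,0)]⟩) .k 2 (⟨1,[(8,0),(2,0),(0,0)]⟩,⟨0,[(9,0)]⟩) .k .k) (.R ⟨0,false,false,false,
  [1,0,-1],[0,0,1],[1],(⟨1,[(9,0),(2,0),(0,0)]⟩,⟨0,[(10,0)]⟩),(⟨0,[(10,0)]⟩,⟨1,[(9,0),(2,0),(0,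
  0)]⟩),⟨0,[(1,0)]⟩,.k,.k,(.r 0 ⟨3,[(0,0),(3,1),(0,0),(3,1),(7,2),(0,0)]⟩ ⟨1,[(8,0),(7,1),(2,0),(0,
  1)]⟩),.k,.k,.k,⟨false,0,⟨7,[(0,1),(3,3),(4,3),(1,0),(3,1),(2,0)]⟩,⟨3,[(7,0),(0,2)]⟩⟩,⟨true,0,⟨0,
  [(9,0)]⟩,⟨0,[(2,0),(7,1)]⟩⟩,⟨false,1,⟨1,[(8,0),(10,0)]⟩,⟨9,[(0,1),(3,1),(1,0),(0,1),(1,2)]⟩⟩,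
  ⟨true,1,⟨0,[(8,0),(0,0)]⟩,⟨0,[(0,0)]⟩⟩,⟨false,0,⟨0,[]⟩,⟨0,[]⟩⟩,⟨false,0,⟨0,[]⟩,⟨0,[]⟩⟩,[.o ⟨false,
  1,⟨7,[(7,0),(0,4),(0,3),(1,1)]⟩,⟨3,[(0,1),(10,0),(7,0)]⟩⟩,.o ⟨false,1,⟨0,[(3,0)]⟩,⟨7,[(0,3),(6,0),
  (0,0),(2,1),(9,3)]⟩⟩,.a ⟨true,0,⟨0,[(10,0)]⟩,⟨1,[(9,0),(2,0),(0,0)]⟩⟩ ⟨true,0,⟨0,[]⟩,⟨0,[(21,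
  0)]⟩⟩ ⟨false,1,⟨1,[(8,0),(0,1),(9,0)]⟩,⟨3,[(0,1),(9,3),(0,0),(7,0)]⟩⟩,.o ⟨false,0,⟨0,[(2,0),(7,
  0)]⟩,⟨7,[(7,0),(0,0),(0,3),(1,1),(6,3)]⟩⟩]⟩) (.Q [0,0,0,1,0,0,0,1] (.pp false [-1,1]) (.Q [0,0,0,
  -2,0,0,0,-1] (.pp true [-1,1]) (.R ⟨2,false,false,true,[0,1],[1,-1],[0,1],(⟨0,[]⟩,⟨0,[]⟩),(⟨0,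
  [(14,0)]⟩,⟨0,[(15,0)]⟩),⟨0,[]⟩,.k,.k,.k,(.r 0 ⟨0,[(1,1),(2,1)]⟩ ⟨0,[(19,1),(0,0)]⟩),.k,.k,⟨true,0,
  ⟨0,[(1,0),(2,0)]⟩,⟨0,[(19,0)]⟩⟩,⟨false,0,⟨0,[(4,0)]⟩,⟨0,[(1,0),(17,0),(0,0)]⟩⟩,⟨true,0,⟨0,[(17,0),
  (1,0)]⟩,⟨0,[(1,0),(2,0)]⟩⟩,⟨false,0,⟨0,[(0,0)]⟩,⟨0,[(1,0),(16,0),(2,0)]⟩⟩,⟨true,0,⟨0,[(17,0)]⟩,⟨0,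
  [(22,0)]⟩⟩,⟨true,0,⟨0,[(7,0)]⟩,⟨0,[(1,0)]⟩⟩,[.o ⟨false,0,⟨0,[(7,0)]⟩,⟨0,[(18,0),(2,0)]⟩⟩,.a ⟨true,
  0,⟨0,[(19,0)]⟩,⟨0,[(1,0)]⟩⟩ ⟨false,1,⟨3,[(9,0),(0,0),(9,1)]⟩,⟨0,[]⟩⟩ ⟨true,0,⟨1,[(0,0),(7,0)]⟩,⟨0,
  [(1,0)]⟩⟩,.o ⟨false,1,⟨3,[(9,0),(0,0),(9,1)]⟩,⟨0,[(4,0)]⟩⟩,.e ⟨true,0,⟨0,[(17,0)]⟩,⟨0,[(22,0)]⟩⟩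
  ⟨true,0,⟨0,[(7,0)]⟩,⟨0,[(1,0)]⟩⟩]⟩) (.R ⟨0,false,false,false,[1,-1],[0,1],[0,0,1],(⟨0,[(14,0)]⟩,
  ⟨0,[(15,0)]⟩),(⟨0,[(15,0)]⟩,⟨0,[(14,0)]⟩),⟨0,[(3,1),(7,0)]⟩,.k,.k,(.r (-1) ⟨0,[(19,1),(0,0)]⟩ ⟨0,
  [(0,0),(7,0)]⟩),(.r (-1) ⟨0,[(19,1),(0,0)]⟩ ⟨0,[(0,0),(7,0)]⟩),.k,.k,⟨true,0,⟨0,[(19,0)]⟩,⟨1,[(0,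
  0),(7,0)]⟩⟩,⟨false,1,⟨2,[(1,1),(0,0),(3,1),(10,2),(1,1),(0,1)]⟩,⟨0,[(8,0)]⟩⟩,⟨false,0,⟨0,[(0,0),
  (3,0),(11,0)]⟩,⟨0,[(19,0),(0,0)]⟩⟩,⟨true,0,⟨0,[(0,0)]⟩,⟨0,[(7,0),(11,0)]⟩⟩,⟨false,0,⟨0,[]⟩,⟨0,
  []⟩⟩,⟨false,0,⟨0,[]⟩,⟨0,[]⟩⟩,[.a ⟨true,0,⟨0,[(1,0)]⟩,⟨0,[(19,0)]⟩⟩ ⟨true,0,⟨0,[(22,0)]⟩,⟨0,[]⟩⟩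
  ⟨false,1,⟨0,[(1,0),(18,0)]⟩,⟨1,[(4,0),(2,0),(8,0)]⟩⟩,.o ⟨false,1,⟨7,[(0,3),(8,0),(0,0),(2,1),(7,
  3)]⟩,⟨0,[(7,0)]⟩⟩,.o ⟨false,0,⟨0,[(4,0)]⟩,⟨3,[(9,0),(0,0),(9,1)]⟩⟩,.o ⟨false,0,⟨0,[(8,0)]⟩,⟨0,
  [(20,0)]⟩⟩]⟩)) (.R ⟨0,false,false,false,[1,0,-1],[1,-1],[1,0,0,0,0,0,-1],(⟨1,[(10,0),(2,0),(0,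
  0)]⟩,⟨0,[(11,0)]⟩),(⟨0,[(13,0)]⟩,⟨0,[(14,0)]⟩),⟨0,[(2,0)]⟩,.k,.k,(.r 0 ⟨1,[(5,1),(0,0),(3,0),(7,
  0),(3,0)]⟩ ⟨1,[(9,0),(7,1),(2,0),(0,1)]⟩),(.r 0 ⟨1,[(5,1),(1,0),(2,0),(6,1),(3,1)]⟩ ⟨1,[(9,0),(8,
  1),(0,0)]⟩),.k,.k,⟨false,0,⟨1,[(5,1),(1,0),(2,0),(6,1)]⟩,⟨1,[(9,0),(8,1),(0,0)]⟩⟩,⟨true,0,⟨1,[(7,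
  0),(2,0)]⟩,⟨0,[(11,0)]⟩⟩,⟨true,0,⟨0,[]⟩,⟨0,[(22,0)]⟩⟩,⟨false,1,⟨3,[(1,1),(10,0),(5,3),(1,0)]⟩,⟨0,
  [(5,0),(11,0),(3,0)]⟩⟩,⟨false,0,⟨0,[]⟩,⟨0,[]⟩⟩,⟨false,0,⟨0,[]⟩,⟨0,[]⟩⟩,[.o ⟨false,0,⟨0,[(0,0)]⟩,
  ⟨3,[(8,0),(0,0),(7,3),(2,1)]⟩⟩,.o ⟨false,1,⟨1,[(12,0),(5,1),(1,0)]⟩,⟨0,[(17,0)]⟩⟩,.a ⟨true,0,⟨0,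
  [(11,0)]⟩,⟨1,[(10,0),(2,0),(0,0)]⟩⟩ ⟨false,0,⟨1,[(5,1),(1,0),(2,0)]⟩,⟨3,[(8,0),(0,2)]⟩⟩ ⟨true,0,
  ⟨1,[(0,0),(9,0),(7,0)]⟩,⟨0,[(11,0),(5,0)]⟩⟩,.o ⟨false,0,⟨0,[(3,0),(7,0)]⟩,⟨7,[(1,0),(6,0),(1,2),
  (1,1),(6,3),(2,0)]⟩⟩]⟩))))) (.K ⟨0,[0,0,1],0,1,(⟨0,[(7,0)]⟩,⟨1,[(6,0),(2,0),(0,0)]⟩),.k,(.r (-1)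
  ⟨1,[(5,0),(8,1),(0,0)]⟩ ⟨1,[(1,1),(1,0),(2,0),(6,1),(3,1)]⟩),(.r (-1) ⟨1,[(5,0),(7,1),(2,0),(0,
  1)]⟩ ⟨17,[(0,3),(0,11),(0,7),(1,0),(1,7),(7,9),(0,2)]⟩),.k,.k,[⟨0,[(7,0),(9,0)]⟩,⟨1,[(3,0),(2,
  0)]⟩,⟨0,[(0,0)]⟩,⟨7,[(4,0),(0,4),(0,3),(1,1),(9,7)]⟩]⟩)) (.Q [0,1,0,0,0,0,1,0,-1] (.p false [0,0,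
  1] [] (⟨0,[(6,0)]⟩,⟨1,[(5,0),(2,0),(0,0)]⟩) .k 0 (⟨0,[]⟩,⟨0,[]⟩) .k .k) (.Q [0,-1,0,1,1,0,-1,0,1]
  (.p true [0,0,1] [] (⟨0,[(7,0)]⟩,⟨1,[(6,0),(2,0),(0,0)]⟩) .k 0 (⟨0,[]⟩,⟨0,[]⟩) .k .k) (.I [0,0,1,
  0,0,-1] (.Q [0,1,0,0,0,0,-1,0,1] (.p true [0,0,1] [] (⟨0,[(9,0)]⟩,⟨1,[(8,0),(2,0),(0,0)]⟩) .k 0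
  (⟨0,[]⟩,⟨0,[]⟩) .k .k) (.K ⟨0,[0,0,1],0,0,(⟨0,[(10,0)]⟩,⟨1,[(9,0),(2,0),(0,0)]⟩),.k,(.x 0 ⟨0,[(1,
  0)]⟩ ⟨3,[(7,0),(0,0),(4,3),(4,1)]⟩),(.x (-1) ⟨3,[(7,0),(0,0),(4,3),(4,1)]⟩ ⟨0,[(1,0)]⟩),.k,.k,[⟨0,
  [(10,0),(9,0)]⟩,⟨1,[(6,0),(2,0)]⟩,⟨0,[(0,0)]⟩,⟨0,[(3,0)]⟩]⟩) (.Q [0,0,-1,0,0,0,0,1] (.pp false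
  [-1,1]) (.R ⟨2,false,false,false,[0,1],[0,0,1],[0,0,1],(⟨0,[]⟩,⟨0,[]⟩),(⟨0,[(11,0)]⟩,⟨1,[(0,0),(9,
  0),(10,0)]⟩),⟨0,[]⟩,.k,.k,.k,(.x (-1) ⟨3,[(8,0),(0,0),(4,3),(4,1)]⟩ ⟨0,[(2,0)]⟩),.k,.k,⟨false,1,
  ⟨3,[(8,2),(0,0)]⟩,⟨0,[(1,0),(9,0),(4,0)]⟩⟩,⟨true,0,⟨1,[(7,0),(2,0)]⟩,⟨0,[(11,0)]⟩⟩,⟨true,0,⟨0,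
  [(18,0)]⟩,⟨0,[(17,0)]⟩⟩,⟨false,0,⟨0,[(1,0),(16,0)]⟩,⟨0,[(3,0),(18,0)]⟩⟩,⟨false,1,⟨3,[(8,0),(0,0),
  (10,1)]⟩,⟨0,[]⟩⟩,⟨false,0,⟨0,[(1,0)]⟩,⟨3,[(8,2),(0,0),(1,3)]⟩⟩,[.o ⟨false,0,⟨1,[(1,0),(2,0)]⟩,⟨1,
  [(8,0),(2,1),(0,0)]⟩⟩,.o ⟨false,0,⟨0,[(1,0)]⟩,⟨1,[(8,0),(2,1),(0,0),(9,1)]⟩⟩,.a ⟨true,0,⟨0,[(0,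
  0)]⟩,⟨0,[(21,0)]⟩⟩ ⟨true,0,⟨0,[(21,0)]⟩,⟨0,[(16,0)]⟩⟩ ⟨false,0,⟨0,[(1,0),(19,0)]⟩,⟨1,[(8,0),(2,1),
  (7,0)]⟩⟩,.e ⟨false,1,⟨3,[(8,0),(0,0),(10,1)]⟩,⟨0,[]⟩⟩ ⟨false,0,⟨0,[(1,0)]⟩,⟨3,[(8,2),(0,0),(1,
  3)]⟩⟩]⟩) (.Q [0,0,0,1,0,0,0,1] (.pp false [-1,1]) (.Q [0,0,0,2,0,0,0,1] (.pp false [-1,1]) (.Q [0,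
  0,0,0,0,-2,0,1] (.pp false [-1,1]) (.S ⟨1,0,[0,0,-1,-2],[1,-1],[1,1,-1,-1],(⟨0,[(16,0)]⟩,⟨0,[(17,
  0)]⟩),⟨0,[(0,0)]⟩,.k,(.r (-1) ⟨0,[(21,1),(0,0)]⟩ ⟨0,[(1,0),(8,0)]⟩),⟨false,0,⟨0,[]⟩,⟨3,[(11,0),(0,
  0),(10,1)]⟩⟩,⟨true,0,⟨0,[(21,0)]⟩,⟨0,[(20,0)]⟩⟩,⟨true,0,⟨0,[(20,0)]⟩,⟨0,[(21,0)]⟩⟩,⟨false,1,⟨3,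
  [(11,0),(0,0),(10,1)]⟩,⟨0,[]⟩⟩,[.a ⟨true,0,⟨0,[(21,1)]⟩,⟨0,[(1,0)]⟩⟩ ⟨true,0,⟨0,[(19,0),(1,0)]⟩,
  ⟨0,[(1,0),(1,0),(14,0)]⟩⟩ ⟨false,1,⟨0,[(21,1),(0,0)]⟩,⟨0,[(1,0),(1,0)]⟩⟩,.o ⟨false,1,⟨1,[(15,0),
  (5,3),(1,0)]⟩,⟨0,[(1,0),(1,0),(15,0)]⟩⟩,.o ⟨false,0,⟨0,[(3,0)]⟩,⟨3,[(11,0),(0,0),(9,1)]⟩⟩,.o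
  ⟨false,0,⟨0,[(10,0)]⟩,⟨0,[(22,0)]⟩⟩]⟩) (.R ⟨0,false,false,true,[0,0,1],[1,-1],[0,1,0,0,0,0,1],(⟨0,
  [(14,0)]⟩,⟨1,[(13,0),(2,0),(0,0)]⟩),(⟨0,[(16,0)]⟩,⟨0,[(17,0)]⟩),⟨1,[(0,0),(12,0)]⟩,.k,.k,(.x 0 ⟨0,
  [(5,0)]⟩ ⟨3,[(11,0),(0,0),(4,3),(4,1)]⟩),(.x (-1) ⟨3,[(11,0),(0,0),(4,3),(4,1)]⟩ ⟨0,[(5,0)]⟩),.k,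
  .k,⟨false,0,⟨0,[(4,0),(9,0),(5,0)]⟩,⟨1,[(11,0),(9,1),(0,0)]⟩⟩,⟨true,0,⟨0,[(3,0),(10,0)]⟩,⟨1,[(13,
  0),(2,0),(0,0)]⟩⟩,⟨true,0,⟨0,[(25,0)]⟩,⟨0,[]⟩⟩,⟨false,1,⟨1,[(11,0),(2,1),(0,0),(5,1)]⟩,⟨0,[(2,0),
  (1,0)]⟩⟩,⟨false,0,⟨0,[]⟩,⟨0,[]⟩⟩,⟨false,0,⟨0,[]⟩,⟨0,[]⟩⟩,[.o ⟨false,0,⟨0,[(9,0)]⟩,⟨7,[(1,2),(4,1),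
  (5,0),(0,0),(1,1),(7,2)]⟩⟩,.e ⟨false,0,⟨0,[(4,0),(9,0),(4,0)]⟩,⟨3,[(11,2),(0,0)]⟩⟩ ⟨false,1,⟨1,
  [(14,1),(0,0),(5,1),(0,0)]⟩,⟨1,[(1,0),(11,0)]⟩⟩,.a ⟨true,0,⟨1,[(13,0),(2,0),(0,0)]⟩,⟨0,[(14,0)]⟩⟩
  ⟨false,0,⟨1,[(4,0),(2,0),(6,1)]⟩,⟨1,[(11,0),(11,0)]⟩⟩ ⟨true,0,⟨0,[(9,0),(4,0)]⟩,⟨1,[(1,0),(11,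
  0)]⟩⟩,.o ⟨false,0,⟨1,[(10,0),(2,0)]⟩,⟨1,[(14,1),(0,0),(6,0)]⟩⟩]⟩)) (.R ⟨2,false,false,true,[0,1],
  [1,-1],[0,1],(⟨0,[]⟩,⟨0,[]⟩),(⟨0,[(15,0)]⟩,⟨0,[(16,0)]⟩),⟨0,[]⟩,.k,.k,.k,(.r 0 ⟨0,[(1,1),(0,1)]⟩
  ⟨0,[(20,1),(0,0)]⟩),.k,.k,⟨true,0,⟨0,[(1,0),(0,0)]⟩,⟨0,[(20,0)]⟩⟩,⟨false,0,⟨0,[(2,0)]⟩,⟨0,[(15,0),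
  (0,0),(4,0)]⟩⟩,⟨true,0,⟨0,[(18,0),(1,0)]⟩,⟨0,[(1,0),(0,0)]⟩⟩,⟨false,0,⟨0,[(0,0)]⟩,⟨5,[(1,4),(1,2),
  (1,4),(5,0),(0,0),(6,1)]⟩⟩,⟨true,0,⟨0,[(18,0)]⟩,⟨0,[(23,0)]⟩⟩,⟨true,0,⟨0,[(8,0)]⟩,⟨0,[(1,0)]⟩⟩,
  [.o ⟨false,0,⟨0,[(8,0)]⟩,⟨12,[(3,5),(1,9),(5,1),(0,1),(1,0),(4,2)]⟩⟩,.a ⟨true,0,⟨0,[(20,0)]⟩,⟨0,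
  [(1,0)]⟩⟩ ⟨false,1,⟨3,[(10,0),(0,0),(9,1)]⟩,⟨0,[]⟩⟩ ⟨true,0,⟨1,[(0,0),(8,0)]⟩,⟨0,[(1,0)]⟩⟩,.o
  ⟨false,1,⟨3,[(10,0),(0,0),(9,1)]⟩,⟨0,[(2,0)]⟩⟩,.e ⟨true,0,⟨0,[(18,0)]⟩,⟨0,[(23,0)]⟩⟩ ⟨true,0,⟨0,
  [(8,0)]⟩,⟨0,[(1,0)]⟩⟩]⟩)) (.Q [0,0,0,0,0,1,0,0,-1] (.ed true [1,-1,1] .k) (.R ⟨0,false,false,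
  false,[0,0,1],[1,-1],[1,0,0,0,0,0,1],(⟨0,[(13,0)]⟩,⟨1,[(12,0),(2,0),(0,0)]⟩),(⟨0,[(15,0)]⟩,⟨0,
  [(16,0)]⟩),⟨0,[(0,0)]⟩,.k,.k,(.x 0 ⟨0,[(4,0)]⟩ ⟨3,[(10,0),(0,0),(4,3),(4,1)]⟩),(.x (-1) ⟨3,[(10,
  0),(0,0),(4,3),(4,1)]⟩ ⟨0,[(4,0)]⟩),.k,.k,⟨false,0,⟨0,[(3,0),(9,0),(5,0)]⟩,⟨1,[(10,0),(9,1),(0,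
  0)]⟩⟩,⟨true,0,⟨0,[(2,0),(10,0)]⟩,⟨1,[(12,0),(2,0),(0,0)]⟩⟩,⟨true,0,⟨0,[]⟩,⟨0,[(24,0)]⟩⟩,⟨false,1,
  ⟨0,[(1,0),(3,0),(14,0)]⟩,⟨0,[(3,0),(11,0),(0,0),(2,0)]⟩⟩,⟨false,0,⟨0,[]⟩,⟨0,[]⟩⟩,⟨false,0,⟨0,[]⟩,
  ⟨0,[]⟩⟩,[.o ⟨false,0,⟨0,[(1,0)]⟩,⟨15,[(5,7),(4,0),(0,4),(0,3),(1,1),(4,7)]⟩⟩,.o ⟨false,1,⟨1,[(14,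
  0),(5,1),(1,0)]⟩,⟨0,[(19,0)]⟩⟩,.a ⟨true,0,⟨1,[(12,0),(2,0),(0,0)]⟩,⟨0,[(13,0)]⟩⟩ ⟨false,0,⟨0,[(3,
  0),(9,0)]⟩,⟨3,[(10,2),(0,0)]⟩⟩ ⟨true,0,⟨0,[(1,0),(11,0)]⟩,⟨1,[(12,0),(2,0),(0,0),(2,1)]⟩⟩,.o
  ⟨false,0,⟨1,[(9,0),(2,0)]⟩,⟨1,[(13,1),(0,0),(6,0)]⟩⟩]⟩) (.R ⟨1,false,false,false,[0,0,1],[1,-1],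
  [1,0,0,0,0,0,1],(⟨0,[(13,0)]⟩,⟨1,[(12,0),(2,0),(0,0)]⟩),(⟨0,[(15,0)]⟩,⟨0,[(16,0)]⟩),⟨0,[(0,0)]⟩,
  .k,.k,(.x 0 ⟨0,[(4,0)]⟩ ⟨3,[(10,0),(0,0),(4,3),(4,1)]⟩),(.x (-1) ⟨3,[(10,0),(0,0),(4,3),(4,1)]⟩
  ⟨0,[(4,0)]⟩),.k,.k,⟨false,0,⟨0,[(3,0),(9,0),(5,0)]⟩,⟨1,[(10,0),(9,1),(0,0)]⟩⟩,⟨true,0,⟨0,[(2,0),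
  (10,0)]⟩,⟨1,[(12,0),(2,0),(0,0)]⟩⟩,⟨true,0,⟨0,[]⟩,⟨0,[(24,0)]⟩⟩,⟨false,1,⟨0,[(1,0),(3,0),(14,0)]⟩,
  ⟨0,[(3,0),(11,0),(0,0),(2,0)]⟩⟩,⟨false,1,⟨12,[(3,5),(1,9),(5,1),(0,1),(1,0),(4,2)]⟩,⟨0,[(20,0)]⟩⟩,
  ⟨false,1,⟨0,[(1,0),(3,0)]⟩,⟨1,[(3,0),(2,0),(8,1),(0,1)]⟩⟩,[.o ⟨false,0,⟨0,[(1,0)]⟩,⟨15,[(5,7),(4,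
  0),(0,4),(0,3),(1,1),(4,7)]⟩⟩,.o ⟨false,1,⟨1,[(14,0),(5,1),(1,0)]⟩,⟨0,[(19,0)]⟩⟩,.a ⟨true,0,⟨1,
  [(12,0),(2,0),(0,0)]⟩,⟨0,[(13,0)]⟩⟩ ⟨false,0,⟨0,[(3,0),(9,0)]⟩,⟨3,[(10,2),(0,0)]⟩⟩ ⟨true,0,⟨0,[(1,
  0),(11,0)]⟩,⟨1,[(12,0),(2,0),(0,0),(2,1)]⟩⟩,.o ⟨false,0,⟨1,[(9,0),(2,0)]⟩,⟨1,[(13,1),(0,0),(6,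
  0)]⟩⟩]⟩))))) (.Q [0,1,0,0,0,0,-1,0,1] (.p true [0,0,1] [] (⟨0,[(9,0)]⟩,⟨1,[(8,0),(2,0),(0,0)]⟩)
  .k 0 (⟨0,[]⟩,⟨0,[]⟩) .k .k) t1 (.R ⟨2,false,false,false,[0,1],[0,0,1],[0,0,1],(⟨0,[]⟩,⟨0,[]⟩),(⟨0,
  [(10,0)]⟩,⟨1,[(9,0),(2,0),(0,0)]⟩),⟨0,[]⟩,.k,.k,.k,(.r (-1) ⟨5,[(2,3),(1,1),(1,0),(0,1),(1,0),(6,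
  1),(3,1)]⟩ ⟨0,[(0,0),(9,0),(4,0),(1,0)]⟩),.k,.k,⟨false,1,⟨3,[(7,2),(0,0)]⟩,⟨0,[(0,0),(9,0),(4,
  0)]⟩⟩,⟨true,0,⟨1,[(6,0),(2,0)]⟩,⟨0,[(10,0)]⟩⟩,⟨true,0,⟨0,[(17,0)]⟩,⟨0,[(16,0)]⟩⟩,⟨false,0,⟨0,[(0,
  0),(16,0)]⟩,⟨0,[(2,0),(18,0)]⟩⟩,⟨false,1,⟨3,[(7,0),(0,0),(10,1)]⟩,⟨0,[]⟩⟩,⟨false,0,⟨0,[(0,0)]⟩,⟨3,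
  [(7,2),(0,0),(1,3)]⟩⟩,[.o ⟨false,0,⟨1,[(0,0),(2,0)]⟩,⟨1,[(7,0),(2,1),(0,0)]⟩⟩,.o ⟨false,0,⟨0,[(0,
  0)]⟩,⟨1,[(7,0),(2,1),(0,0),(9,1)]⟩⟩,.a ⟨true,0,⟨0,[(1,0),(10,0)]⟩,⟨0,[(20,0)]⟩⟩ ⟨true,0,⟨0,[(20,
  0)]⟩,⟨0,[(15,0)]⟩⟩ ⟨false,0,⟨0,[(0,0),(19,0)]⟩,⟨1,[(7,0),(2,1),(7,0)]⟩⟩,.e ⟨false,1,⟨3,[(7,0),(0,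
  0),(10,1)]⟩,⟨0,[]⟩⟩ ⟨false,0,⟨0,[(0,0)]⟩,⟨3,[(7,2),(0,0),(1,3)]⟩⟩]⟩))) (.R ⟨2,true,false,true,[0,
  1],[0,0,1],[1,1,1,1],(⟨0,[]⟩,⟨0,[]⟩),(⟨0,[(8,0)]⟩,⟨1,[(7,0),(2,0),(0,0)]⟩),⟨0,[]⟩,.k,.k,.k,(.r
  (-1) ⟨1,[(5,0),(8,1),(2,0),(0,1)]⟩ ⟨1,[(0,1),(7,1),(7,0),(0,0)]⟩),.k,.k,⟨false,1,⟨1,[(5,0),(8,1),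
  (2,0)]⟩,⟨1,[(0,1),(7,1),(7,0),(0,0)]⟩⟩,⟨true,0,⟨1,[(4,0),(2,0)]⟩,⟨0,[(8,0)]⟩⟩,⟨false,0,⟨0,[]⟩,⟨3,
  [(5,0),(0,0),(10,1)]⟩⟩,⟨true,(-1),⟨0,[(0,0)]⟩,⟨1,[(5,0),(2,1),(5,1),(2,0)]⟩⟩,⟨true,0,⟨0,[(14,0)]⟩,
  ⟨0,[(15,0)]⟩⟩,⟨false,0,⟨0,[(0,0),(13,0),(2,0)]⟩,⟨1,[(5,0),(2,1),(8,0)]⟩⟩,[]⟩)) t2))

def tree : Tre :=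
  t3

theorem ok : chk (cPU (-1) false) tree base = true := by
  decide +kernel

theorem closed {p a b c J l q : ℤ} {D dl : ℝ} {Cl : ℤ → ℤ → ℤ → ℤ → ℝ → Prop}
    (W : World p a b c J (-1) l q D dl Cl) (hE : KEmp p a b (-1) (P1 l p) Cl)
    (g : G0 p a b c J D)
    {N R : ℤ} {I : ℝ} (hu : VFac p D Cl N R I)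
    (s0 : (c : ℝ) + 1 ≤ 0)
    (s1 : (b : ℝ) + 1 ≤ a)
    (s2 : (a : ℝ) ≤ b - c)
    (s3 : D < 2 * b)
    (s4 : -(a : ℝ) < -D - c) : False := by
  have g1 := g.a2
  have g2 := g.b2
  have g3 := g.pa
  have g4 := g.pb
  have g5 := g.J1
  have g6 := g.JD
  have g7 := g.D2
  have g8 := g.ca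
  have g9 := g.ca'
  have t1 := TF.ofV hu
  have i1 := t1.I0
  have i2 := hu.ID
  have i3 := t1.R1
  have i4 := t1.R2
  refine (val_PU W.toBase (UV.ofV hu)).sound W rfl (Nk := 0) (fun kf hkf hh => ?_) (kok_B hE (by simp [xv]) (by simp [xv]) 0) ?_ ok
  · simp only [cPU, kfB, List.mem_cons, List.not_mem_nil, or_false] at hkf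
    subst hkf
    exact absurd hh (by norm_num)
  · simp only [base, List.forall_mem_cons, List.not_mem_nil, false_imp_iff, implies_true,
      and_true, hld, xv, evg_cons, evg_nil, List.map_cons, List.map_nil, List.cons_append,
      List.nil_append, if_true, if_false, Bool.false_eq_true]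
    push_cast
    refine ⟨?_, ?_, ?_, ?_, ?_, ?_, ?_, ?_, ?_, ?_, ?_, ?_, ?_, ?_, ?_, ?_, ?_⟩ <;> linarith

end Helper25.KG.Pm1_2_m1_0_v
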