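import Pool.Agent.Helper25.KG.PL

set_option autoImplicit false
set_option linter.unusedVariables false

namespace Helper25.KG.Pm1_35_1_0_v2

open Helper11.CT Helper25.KW Helper25.KG

def base : List Con :=
  [(false,[0,1,0,1,0,0,-2]),
  (false,[0,0,2,0,0,-2,2]),
  (false,[0,0,0,0,0,0,1]),
  (false,[0,0,0,0,0,2,-4]),
  (false,[0,0,0,0,-1,0,2]),
  (true,[0,0,0,0,1]),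
  (true,[0,2,-1]),
  (true,[1,-1,1]),
  (true,[0,1,0,1]),
  (true,[0,0,0,-1]),
  (true,[0,0,-2,0,0,2]),
  (true,[0,-2,0,0,0,2]),
  (true,[-1,0,1]),
  (true,[-1,1])]

def tree : Tre :=
  (.Q [0,0,0,0,-2,0,2] (.pp false [-1,1]) (.R ⟨1,false,false,false,[0,0,1],[1,-1],[1,1,0,0,0,1],(⟨0,
  [(3,0)]⟩,⟨0,[(3,0)]⟩),(⟨0,[(5,0)]⟩,⟨0,[(6,0)]⟩),⟨1,[(0,0)]⟩,.k,.k,(.r 0 ⟨1,[(10,1),(0,0)]⟩ ⟨1,[(9,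
  1),(2,0),(0,1)]⟩),(.r 0 ⟨1,[(9,1),(2,0),(0,1)]⟩ ⟨1,[(10,1),(0,0)]⟩),.k,.k,⟨true,(-1),⟨1,[(1,0),(0,
  0),(6,0)]⟩,⟨1,[(10,1),(1,0)]⟩⟩,⟨false,0,⟨0,[(3,0)]⟩,⟨3,[(4,0),(2,1),(3,0),(0,1)]⟩⟩,⟨false,0,⟨0,
  []⟩,⟨0,[(12,0),(1,0)]⟩⟩,⟨false,1,⟨1,[(2,0),(7,1),(0,0),(0,0)]⟩,⟨1,[(1,0),(7,0),(2,0)]⟩⟩,⟨true,0,
  ⟨0,[(9,0)]⟩,⟨0,[(10,0)]⟩⟩,⟨false,1,⟨1,[(2,0),(8,0),(0,0)]⟩,⟨3,[(4,0),(7,0),(1,1)]⟩⟩,[.o ⟨false,0,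
  ⟨0,[(10,0)]⟩,⟨1,[(4,0),(4,1),(2,0)]⟩⟩,.o ⟨false,1,⟨0,[(10,0),(1,0),(1,0)]⟩,⟨0,[(1,0)]⟩⟩,.a ⟨true,
  0,⟨0,[(3,0)]⟩,⟨0,[(3,0)]⟩⟩ ⟨false,0,⟨1,[(12,0),(1,1)]⟩,⟨1,[(12,0)]⟩⟩ ⟨true,0,⟨1,[(2,0),(7,1),(0,
  0)]⟩,⟨1,[(1,0),(7,0)]⟩⟩,.o ⟨false,0,⟨1,[(2,0),(1,0)]⟩,⟨3,[(4,0),(2,1),(3,0),(0,1)]⟩⟩]⟩) (.R ⟨0,
  false,false,false,[0,0,1],[1,-1],[1,0,-1,-1],(⟨0,[(3,0)]⟩,⟨0,[(3,0)]⟩),(⟨0,[(5,0)]⟩,⟨0,[(6,0)]⟩),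
  ⟨1,[(0,0)]⟩,.k,.k,(.r 0 ⟨1,[(10,1),(0,0)]⟩ ⟨1,[(9,1),(2,0),(0,1)]⟩),(.r 0 ⟨1,[(9,1),(2,0),(0,1)]⟩
  ⟨1,[(10,1),(0,0)]⟩),.k,.k,⟨true,0,⟨0,[]⟩,⟨0,[(13,0)]⟩⟩,⟨false,0,⟨0,[(3,0)]⟩,⟨3,[(4,0),(2,1),(3,0),
  (0,1)]⟩⟩,⟨true,1,⟨1,[(10,1),(0,0)]⟩,⟨1,[(1,0),(0,0),(6,0)]⟩⟩,⟨false,1,⟨1,[(2,0),(7,1),(0,0),(0,
  0)]⟩,⟨1,[(1,0),(7,0),(2,0)]⟩⟩,⟨false,0,⟨0,[]⟩,⟨0,[]⟩⟩,⟨false,0,⟨0,[]⟩,⟨0,[]⟩⟩,[.o ⟨false,0,⟨0,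
  [(10,0)]⟩,⟨1,[(4,0),(4,1),(2,0)]⟩⟩,.o ⟨false,1,⟨0,[(10,0),(1,0),(1,0)]⟩,⟨0,[(1,0)]⟩⟩,.a ⟨true,0,
  ⟨0,[(3,0)]⟩,⟨0,[(3,0)]⟩⟩ ⟨false,1,⟨1,[(10,1),(0,0),(0,0)]⟩,⟨1,[(1,0),(0,0),(6,0),(2,0)]⟩⟩ ⟨true,0,
  ⟨1,[(2,0),(7,1),(0,0)]⟩,⟨1,[(1,0),(7,0)]⟩⟩,.o ⟨false,0,⟨1,[(2,0),(1,0)]⟩,⟨3,[(4,0),(2,1),(3,0),(0,
  1)]⟩⟩]⟩))

theorem ok : chk (cPW 1) tree base = true := by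
  decide +kernel

theorem closed {p a b c J l q : ℤ} {D dl : ℝ} {Cl : ℤ → ℤ → ℤ → ℤ → ℝ → Prop}
    (W : World p a b c J 1 l q D dl Cl) (hE : KEmp p a b 1 (P1 l p) Cl)
    (g : G0 p a b c J D)
    {N R : ℤ} {I : ℝ} (hu : WFac p D Cl N R I)
    (s0 : (c : ℝ) + 1 ≤ 0)
    (s1 : (a : ℝ) ≤ b)
    (s2 : (b : ℝ) + 1 ≤ 2 * a)
    (s3 : p - D < 2 * b)
    (s4 : D - c < a) : False := by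
  have g1 := g.a2
  have g2 := g.b2
  have g3 := g.pa
  have g4 := g.pb
  have g5 := g.J1
  have g6 := g.JD
  have g7 := g.D2
  have g8 := g.ca
  have g9 := g.ca'
  have i1 := hu.I0
  have i2 := hu.ID
  have i3 : (2 : ℝ) * R = p := by exact_mod_cast hu.R2
  refine (val_PW W.toBase hu).sound W rfl (Nk := 0) (fun kf hkf hh => ?_) (kok_B hE (by simp [xv]) (by simp [xv]) 0) ?_ ok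
  · simp only [cPW, kfB, List.mem_cons, List.not_mem_nil, or_false] at hkf
    subst hkf
    exact absurd hh (by norm_num)
  · simp only [base, List.forall_mem_cons, List.not_mem_nil, false_imp_iff, implies_true,
      and_true, hld, xv, evg_cons, evg_nil, List.map_cons, List.map_nil, List.cons_append,
      List.nil_append, if_true, if_false, Bool.false_eq_true]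
    push_cast
    refine ⟨?_, ?_, ?_, ?_, ?_, ?_, ?_, ?_, ?_, ?_, ?_, ?_, ?_, ?_⟩ <;> linarith

end Helper25.KG.Pm1_35_1_0_v2
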