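import Pool.Agent.Helper25.KG.PL

set_option autoImplicit false
set_option linter.unusedVariables false

namespace Helper25.KG.Pm1_35_1_1_u

open Helper11.CT Helper25.KW Helper25.KG

def base : List Con :=
  [(false,[0,1,0,-1,-1,0,0,1]),
  (false,[0,0,2,0,-1,0,0,1]),
  (true,[0,0,0,0,1,0,-2]),
  (true,[0,0,0,0,1,0,2]),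
  (false,[0,0,0,0,0,0,0,1,-1]),
  (false,[0,0,0,0,0,0,0,0,1]),
  (false,[0,0,0,0,1,0,0,-2]),
  (false,[0,0,0,0,0,-1,0,1]),
  (true,[0,0,0,0,0,1]),
  (true,[0,2,-1]),
  (true,[1,-1,1]),
  (true,[0,1,0,1]),
  (true,[0,0,0,-1]),
  (true,[0,0,-2,0,1]),
  (true,[0,-2,0,0,1]),
  (true,[-1,0,1]),
  (true,[-1,1])]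

def t0 : Tre :=
  (.Q [0,-1,-1,0,1,0,-1,1,-1] (.p false [0,0,1] [1] (⟨0,[(11,0)]⟩,⟨0,[(10,0)]⟩) .k 1 (⟨0,[]⟩,⟨0,
  []⟩) .k .k) (.Q [0,0,0,0,0,1,0,-1,1] (.ed false [0,1,1] .k) (.Q [0,1,-1,-1,0,0,-1,1,-1] (.p false
  [0,0,1] [1] (⟨0,[(13,0)]⟩,⟨0,[(12,0)]⟩) .k 1 (⟨0,[]⟩,⟨0,[]⟩) .k .k) (.Q [0,0,1,0,0,0,0,-1,1] (.p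
  true [0,0,1] [1] (⟨0,[(14,0)]⟩,⟨0,[(13,0)]⟩) .k 1 (⟨0,[]⟩,⟨0,[]⟩) .k .k) (.K ⟨0,[-1,1,1],0,0,(⟨0,
  [(2,0)]⟩,⟨0,[(14,0),(2,0)]⟩),(.x (-1) ⟨3,[(12,0),(0,0),(2,1),(0,3)]⟩ ⟨0,[(18,0)]⟩),.k,(.r 0 ⟨1,
  [(6,1),(2,2),(1,2)]⟩ ⟨0,[(1,0),(0,0),(2,0),(14,0),(1,0)]⟩),.k,.k,[⟨7,[(11,3),(0,0),(0,0),(0,7),(1,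
  1)]⟩,⟨0,[(0,0)]⟩,⟨0,[(1,0)]⟩,⟨1,[(0,1),(5,1),(2,0),(1,0),(9,1)]⟩]⟩) (.I [0,0,0,-1,0,0,-1] (.R ⟨0,
  false,false,false,[1,0,-1],[0,1],[1,0,1,1],(⟨0,[(15,0)]⟩,⟨0,[(16,0)]⟩),(⟨0,[(19,0)]⟩,⟨0,[(18,
  0)]⟩),⟨0,[(3,0)]⟩,.k,.k,(.x 0 ⟨0,[(19,0)]⟩ ⟨3,[(13,0),(0,0),(2,1),(0,3)]⟩),(.x 0 ⟨0,[(19,0)]⟩ ⟨3,
  [(13,0),(0,0),(2,1),(0,3)]⟩),.k,.k,⟨true,0,⟨0,[]⟩,⟨7,[(12,3),(0,0),(0,0),(2,1)]⟩⟩,⟨false,1,⟨5,[(3,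
  3),(2,3),(1,1),(4,0),(3,0)]⟩,⟨0,[(15,0)]⟩⟩,⟨true,0,⟨0,[(7,0),(2,0),(1,0)]⟩,⟨0,[(0,0),(8,0)]⟩⟩,
  ⟨false,1,⟨5,[(7,1),(0,3),(1,3),(5,1),(0,0),(3,3),(3,0)]⟩,⟨0,[(0,0),(0,0)]⟩⟩,⟨false,0,⟨0,[]⟩,⟨0,
  []⟩⟩,⟨false,0,⟨0,[]⟩,⟨0,[]⟩⟩,[.o ⟨false,1,⟨7,[(10,3),(2,0),(0,0),(2,1)]⟩,⟨0,[(23,0)]⟩⟩,.e ⟨false,
  1,⟨9,[(1,1),(2,1),(3,1),(1,4),(1,0),(3,1),(8,3)]⟩,⟨1,[(0,0),(6,0),(12,0)]⟩⟩ ⟨false,1,⟨1,[(3,0),(2,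
  0),(3,0),(5,0),(4,1)]⟩,⟨11,[(2,5),(4,3),(3,1),(2,0),(0,5),(1,0),(2,1)]⟩⟩,.a ⟨true,0,⟨0,[(1,0)]⟩,
  ⟨5,[(8,1),(3,1),(0,0),(2,3),(0,0)]⟩⟩ ⟨true,0,⟨1,[(10,0),(1,0)]⟩,⟨1,[(0,0),(6,0),(12,0)]⟩⟩ ⟨false,
  1,⟨7,[(8,1),(1,3),(2,0),(2,5),(0,1),(3,5),(3,0)]⟩,⟨1,[(0,0),(0,0),(5,0),(7,0)]⟩⟩,.e ⟨false,1,⟨9,
  [(1,1),(2,1),(3,1),(1,4),(1,0),(3,1),(8,3)]⟩,⟨0,[(23,0)]⟩⟩ ⟨false,1,⟨1,[(3,0),(2,0),(3,0),(5,0),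
  (4,1)]⟩,⟨0,[(15,0),(7,0)]⟩⟩]⟩) (.R ⟨0,false,false,false,[-1,1,1],[0,1],[0,1,1],(⟨0,[(3,0)]⟩,⟨0,
  [(15,0),(2,0)]⟩),(⟨0,[(19,0)]⟩,⟨0,[(18,0)]⟩),⟨0,[(15,0)]⟩,(.x (-1) ⟨3,[(13,0),(0,0),(2,1),(0,3)]⟩
  ⟨0,[(19,0)]⟩),.k,.k,.k,.k,.k,⟨false,0,⟨4,[(2,0),(0,0),(2,0),(0,0),(3,1),(5,0),(2,0),(2,0)]⟩,⟨11,
  [(0,1),(3,3),(3,1),(1,4),(1,0),(3,1),(8,3)]⟩⟩,⟨true,0,⟨0,[(1,0)]⟩,⟨0,[(12,0),(3,0),(0,0)]⟩⟩,⟨true,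
  0,⟨1,[(11,1),(1,0),(3,0)]⟩,⟨0,[(0,0)]⟩⟩,⟨false,1,⟨0,[(4,0)]⟩,⟨0,[(0,0),(10,0),(4,0),(0,0),(3,
  0)]⟩⟩,⟨false,0,⟨0,[]⟩,⟨0,[]⟩⟩,⟨false,0,⟨0,[]⟩,⟨0,[]⟩⟩,[.o ⟨false,1,⟨7,[(10,3),(2,0),(0,0),(2,1)]⟩,
  ⟨0,[(23,0)]⟩⟩,.a ⟨true,1,⟨11,[(0,1),(3,3),(3,1),(1,4),(1,0),(3,1),(8,3)]⟩,⟨0,[(11,0)]⟩⟩ ⟨true,0,
  ⟨7,[(12,3),(0,0),(0,0),(2,1)]⟩,⟨0,[]⟩⟩ ⟨false,1,⟨0,[(0,0),(3,0)]⟩,⟨0,[(11,0),(4,0),(0,0)]⟩⟩,.o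
  ⟨false,1,⟨0,[(16,0),(0,0)]⟩,⟨0,[(15,0)]⟩⟩,.o ⟨false,1,⟨5,[(8,1),(3,1),(0,0),(2,3),(0,6)]⟩,⟨0,[(1,
  0)]⟩⟩]⟩))) (.R ⟨2,false,false,false,[0,1],[1,0,-1],[0,0,1],(⟨0,[]⟩,⟨0,[]⟩),(⟨0,[(13,0)]⟩,⟨0,[(14,
  0)]⟩),⟨0,[]⟩,.k,.k,.k,(.x (-1) ⟨3,[(11,0),(0,0),(2,1),(0,3)]⟩ ⟨0,[(17,0)]⟩),.k,.k,⟨false,0,⟨13,
  [(0,3),(4,7),(4,1),(1,0),(0,3),(1,0),(4,3)]⟩,⟨1,[(11,0),(10,0)]⟩⟩,⟨true,0,⟨0,[(13,0)]⟩,⟨1,[(0,1),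
  (8,1),(1,0),(3,0)]⟩⟩,⟨true,0,⟨0,[(21,0)]⟩,⟨0,[(20,0)]⟩⟩,⟨false,1,⟨0,[(2,0),(18,0)]⟩,⟨5,[(0,4),(5,
  0),(3,0),(4,0),(2,1),(1,0)]⟩⟩,⟨false,1,⟨3,[(11,0),(0,0),(10,1)]⟩,⟨0,[]⟩⟩,⟨false,1,⟨0,[(2,0)]⟩,⟨1,
  [(0,0),(5,0),(2,0),(5,0)]⟩⟩,[.a ⟨true,1,⟨11,[(2,7),(8,2),(0,0),(0,3),(4,3)]⟩,⟨0,[(0,0),(8,0)]⟩⟩
  ⟨true,0,⟨7,[(10,3),(0,0),(0,0),(2,1)]⟩,⟨0,[]⟩⟩ ⟨false,1,⟨11,[(2,7),(8,2),(0,0),(0,3),(4,3)]⟩,⟨6,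
  [(0,4),(0,0),(2,0),(0,1),(3,2),(4,0),(0,1),(2,0)]⟩⟩,.e ⟨false,1,⟨3,[(11,0),(0,0),(10,1)]⟩,⟨0,[(7,
  0)]⟩⟩ ⟨false,1,⟨0,[(2,0)]⟩,⟨4,[(0,2),(4,0),(0,0),(2,1),(4,0),(0,1),(2,2)]⟩⟩,.o ⟨false,1,⟨1,[(15,
  0),(6,0)]⟩,⟨7,[(10,3),(0,0),(0,0),(2,1)]⟩⟩,.fo]⟩)) (.Q [0,1,-1,-1,0,0,-1,0,-1] (.p false [0,0,1]
  [] (⟨0,[(13,0)]⟩,⟨0,[(12,0)]⟩) .k 0 (⟨0,[]⟩,⟨0,[]⟩) .k .k) (.K ⟨0,[0,1,1],0,0,(⟨0,[(14,0),(2,0)]⟩,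
  ⟨0,[(1,0)]⟩),(.x (-1) ⟨3,[(11,0),(0,0),(2,1),(0,3)]⟩ ⟨0,[(17,0)]⟩),.k,(.r 0 ⟨1,[(5,1),(2,2),(1,
  2)]⟩ ⟨1,[(0,1),(4,1),(5,0),(2,1),(8,0)]⟩),.k,.k,[⟨1,[(1,1),(1,0),(6,0),(4,0)]⟩,⟨5,[(6,1),(3,1),(0,
  0),(2,3),(0,0)]⟩,⟨0,[(0,0)]⟩,⟨0,[(6,0),(13,0)]⟩]⟩) (.I [0,-1,2,2,0,0,1] (.Q [0,0,3,0,-1,0,0,0,1]
  (.p true [0,0,1] [] (⟨0,[(15,0)]⟩,⟨0,[(14,0)]⟩) .k 0 (⟨0,[]⟩,⟨0,[]⟩) .k .k) (.I [0,0,-1,-1,0,0,1]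
  (.K ⟨0,[0,1,-1],1,1,(⟨0,[(4,0),(1,0)]⟩,⟨0,[(17,0),(1,0)]⟩),(.r (-1) ⟨3,[(11,1),(1,1),(0,2),(0,
  0)]⟩ ⟨0,[(0,0)]⟩),.k,(.x (-2) ⟨7,[(7,11),(6,0),(0,0),(2,1),(0,3)]⟩ ⟨7,[(6,7),(6,11),(0,0),(0,0),
  (2,1)]⟩),.k,.k,[⟨0,[(1,0)]⟩,⟨1,[(16,1),(1,0),(6,0)]⟩,⟨0,[(1,0),(6,0),(1,0)]⟩,⟨1,[(4,1),(1,0),(3,
  1),(0,0),(2,0)]⟩]⟩) (.Q [0,0,1,0,0,0,0,-1,1] (.p true [0,0,1] [1] (⟨0,[(17,0)]⟩,⟨0,[(16,0)]⟩) .k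
  1 (⟨0,[]⟩,⟨0,[]⟩) .k .k) (.K ⟨0,[1,-1,-1],0,0,(⟨0,[(5,0)]⟩,⟨0,[(18,0),(2,0)]⟩),(.x 0 ⟨0,[(21,0)]⟩
  ⟨3,[(15,0),(0,0),(2,1),(0,3)]⟩),(.r (-1) ⟨1,[(7,1),(0,3),(4,3),(1,0),(3,0),(3,3)]⟩ ⟨5,[(3,3),(10,
  1),(1,0),(2,0),(4,3)]⟩),.k,.k,.k,[⟨0,[(0,0)]⟩,⟨7,[(14,3),(0,0),(0,0),(0,7),(1,1)]⟩,⟨1,[(0,1),(2,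
  0),(5,0),(12,0),(1,0)]⟩,⟨1,[(1,0),(3,0),(0,0),(0,0),(0,0),(4,2),(5,0)]⟩]⟩) (.S ⟨1,0,[0,1,1,0,0,0,
  1],[0,1,1],[0,0,1,0,0,0,1],(⟨0,[(18,0),(2,0)]⟩,⟨0,[(5,0)]⟩),⟨0,[(18,0)]⟩,(.x (-1) ⟨3,[(15,0),(0,
  0),(2,1),(0,3)]⟩ ⟨0,[(21,0)]⟩),.k,⟨true,0,⟨0,[(25,0)]⟩,⟨0,[(24,0)]⟩⟩,⟨false,0,⟨0,[(25,0)]⟩,⟨11,
  [(4,3),(1,3),(5,3),(2,0),(0,0),(10,1)]⟩⟩,⟨false,1,⟨3,[(15,0),(0,0),(10,1)]⟩,⟨0,[]⟩⟩,⟨true,0,⟨0,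
  [(29,0)]⟩,⟨0,[]⟩⟩,[.e ⟨false,0,⟨25,[(3,7),(5,15),(4,1),(1,0),(2,0),(2,3)]⟩,⟨1,[(15,0),(10,0)]⟩⟩
  ⟨false,0,⟨12,[(3,2),(5,5),(4,3),(1,1),(2,1),(2,7)]⟩,⟨0,[(1,0),(5,0),(0,1),(4,0),(9,1)]⟩⟩,.o
  ⟨false,0,⟨1,[(2,0),(1,0),(4,0),(1,0),(7,0)]⟩,⟨1,[(0,1),(14,0),(3,0)]⟩⟩,.e ⟨false,0,⟨13,[(3,3),(5,
  7),(4,1),(1,0),(2,0),(3,9)]⟩,⟨1,[(15,0),(10,0)]⟩⟩ ⟨false,0,⟨25,[(3,3),(5,7),(4,13),(1,6),(2,6),(2,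
  1)]⟩,⟨0,[(1,0),(5,0),(0,1),(4,0),(9,1)]⟩⟩,.a ⟨true,0,⟨4,[(2,0),(7,1),(4,0),(2,1)]⟩,⟨0,[(0,0)]⟩⟩
  ⟨true,0,⟨25,[(3,7),(5,15),(4,1),(1,0),(2,0),(2,3)]⟩,⟨3,[(1,1),(9,1),(1,1),(1,0),(3,0)]⟩⟩ ⟨false,0,
  ⟨25,[(3,7),(5,15),(4,1),(1,0),(2,0),(2,3)]⟩,⟨1,[(15,0),(11,0)]⟩⟩]⟩))) (.Q [0,0,1,-1,-1,0,1,0,1]
  (.p true [0,0,1] [] (⟨0,[(16,0)]⟩,⟨0,[(15,0)]⟩) .k 0 (⟨0,[]⟩,⟨0,[]⟩) .k .k) (.R ⟨2,true,false,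
  false,[0,1],[0,0,1],[1,0,0,0,0,0,1],(⟨0,[]⟩,⟨0,[]⟩),(⟨0,[(17,0)]⟩,⟨0,[(16,0)]⟩),⟨0,[]⟩,.k,.k,.k,
  (.r (-1) ⟨3,[(11,1),(1,1),(0,2),(0,0)]⟩ ⟨1,[(0,3),(0,3),(10,1),(1,0),(3,0),(3,5),(0,3)]⟩),.k,.k,
  ⟨true,0,⟨0,[]⟩,⟨7,[(13,3),(0,0),(0,0),(2,1)]⟩⟩,⟨false,0,⟨5,[(9,1),(3,1),(0,0),(2,3),(0,0)]⟩,⟨11,
  [(1,7),(12,0),(0,0),(0,3),(1,1)]⟩⟩,⟨false,0,⟨0,[(0,0),(0,0),(20,0)]⟩,⟨3,[(11,1),(1,1),(0,2),(0,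
  0)]⟩⟩,⟨true,(-1),⟨0,[(0,0)]⟩,⟨5,[(1,1),(2,3),(1,1),(7,2),(3,0),(4,5)]⟩⟩,⟨true,0,⟨3,[(0,2),(0,2),
  (0,0),(20,0)]⟩,⟨1,[(12,0),(0,0),(0,0),(3,0),(4,0)]⟩⟩,⟨false,0,⟨2,[(0,0),(2,0),(5,0),(16,0)]⟩,⟨5,
  [(1,1),(2,3),(1,1),(7,2),(3,0)]⟩⟩,[]⟩) (.K ⟨0,[1,0,-1],0,0,(⟨0,[(16,0)]⟩,⟨0,[(17,0)]⟩),.k,(.x 0
  ⟨0,[(20,0)]⟩ ⟨3,[(14,0),(0,0),(2,1),(0,3)]⟩),(.r (-1) ⟨3,[(11,1),(1,1),(0,2),(0,0)]⟩ ⟨0,[(1,0),(1,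
  0),(8,1),(5,0),(3,0)]⟩),.k,.k,[⟨0,[(13,0),(3,0),(0,0)]⟩,⟨0,[(16,0)]⟩,⟨3,[(3,2),(5,0),(2,2),(0,0),
  (4,3),(2,1)]⟩,⟨0,[(0,0),(11,0)]⟩]⟩))) (.R ⟨0,false,false,false,[1,-1,-1],[1,-1],[],(⟨0,[(2,0)]⟩,
  ⟨0,[(15,0),(2,0)]⟩),(⟨0,[(17,0)]⟩,⟨0,[(18,0)]⟩),⟨0,[(4,0),(10,0)]⟩,(.x 0 ⟨0,[(18,0)]⟩ ⟨3,[(12,0),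
  (0,0),(2,1),(0,3)]⟩),.k,(.r (-1) ⟨3,[(0,3),(11,0),(0,0),(10,1)]⟩ ⟨1,[(6,1),(2,2),(1,2)]⟩),.k,.k,
  .k,⟨true,0,⟨1,[(9,0),(1,0)]⟩,⟨0,[(22,0)]⟩⟩,⟨false,0,⟨0,[(15,0)]⟩,⟨1,[(14,1),(1,0),(6,0)]⟩⟩,⟨true,
  0,⟨0,[(6,0),(2,0),(1,0)]⟩,⟨1,[(0,1),(8,0),(1,0)]⟩⟩,⟨false,0,⟨0,[(1,0),(20,0)]⟩,⟨5,[(0,1),(1,3),(0,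
  1),(0,1),(4,1),(2,0),(3,0)]⟩⟩,⟨false,0,⟨0,[]⟩,⟨0,[]⟩⟩,⟨false,0,⟨0,[]⟩,⟨0,[]⟩⟩,[.o ⟨false,0,⟨0,
  [(22,0)]⟩,⟨7,[(9,3),(2,0),(0,0),(2,1)]⟩⟩,.a ⟨true,0,⟨0,[(10,0),(13,0)]⟩,⟨0,[(21,0)]⟩⟩ ⟨false,1,⟨1,
  [(23,0),(0,0)]⟩,⟨0,[(26,0)]⟩⟩ ⟨true,0,⟨0,[(0,0),(0,0),(18,0)]⟩,⟨1,[(2,1),(1,0),(6,0),(4,0),(4,
  1)]⟩⟩,.e ⟨false,1,⟨3,[(12,0),(0,0),(10,1)]⟩,⟨0,[]⟩⟩ ⟨false,0,⟨0,[(0,0),(0,0),(18,0)]⟩,⟨7,[(9,3),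
  (2,0),(0,0),(0,7),(1,1)]⟩⟩,.o ⟨false,0,⟨1,[(2,1),(1,0),(6,0),(4,0)]⟩,⟨1,[(15,1),(0,0),(6,
  0)]⟩⟩]⟩)))) (.K ⟨0,[1,0,-1],0,1,(⟨0,[(11,0)]⟩,⟨0,[(12,0)]⟩),.k,(.x 0 ⟨0,[(15,0)]⟩ ⟨3,[(9,0),(0,0),
  (2,1),(0,3)]⟩),(.r (-1) ⟨3,[(6,1),(1,1),(0,2),(0,0)]⟩ ⟨0,[(0,0),(0,0),(0,1),(4,0),(3,0),(5,1)]⟩),
  .k,.k,[⟨9,[(0,5),(3,3),(3,1),(0,4),(3,2),(3,5)]⟩,⟨0,[(11,0)]⟩,⟨0,[(0,0)]⟩,⟨7,[(9,4),(0,0),(0,7),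
  (4,3),(3,1)]⟩]⟩))

def t1 : Tre :=
  (.I [0,0,2,0,-1,1] (.Q [0,0,2,0,-1,0,0,0,1] (.p true [0,0,1] [] (⟨0,[(10,0)]⟩,⟨0,[(9,0)]⟩) .k 0
  (⟨0,[]⟩,⟨0,[]⟩) .k .k) (.K ⟨0,[0,0,1],(-1),(-1),(⟨0,[(11,0)]⟩,⟨0,[(10,0)]⟩),.k,(.x 1 ⟨0,[(1,0)]⟩
  ⟨3,[(8,0),(0,0),(2,1),(0,3),(5,3)]⟩),(.x (-1) ⟨3,[(8,0),(0,0),(2,1),(0,3)]⟩ ⟨0,[(14,0)]⟩),.k,.k,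
  [⟨3,[(8,0),(0,0),(0,3),(1,1)]⟩,⟨0,[(0,0)]⟩,⟨1,[(4,1),(3,0),(1,1),(1,0)]⟩,⟨0,[(0,0),(1,0),(14,
  0)]⟩]⟩) (.Q [0,-1,1,0,0,0,1,-1,1] (.p true [0,0,1] [1] (⟨0,[(11,0)]⟩,⟨0,[(10,0)]⟩) .k 1 (⟨0,[]⟩,
  ⟨0,[]⟩) .k .k) (.I [1,1,0,0,0,0,-1] (.R ⟨2,true,false,true,[0,1],[1,0,-1],[0,1,1],(⟨0,[]⟩,⟨0,[]⟩),
  (⟨0,[(12,0)]⟩,⟨0,[(13,0)]⟩),⟨0,[]⟩,.k,.k,.k,(.x (-1) ⟨3,[(10,0),(0,0),(2,1),(0,3)]⟩ ⟨0,[(16,0)]⟩),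
  .k,.k,⟨false,0,⟨1,[(4,1),(2,0),(1,0)]⟩,⟨1,[(10,0),(10,0)]⟩⟩,⟨true,0,⟨0,[(12,0)]⟩,⟨0,[(0,0),(0,
  0)]⟩⟩,⟨false,0,⟨0,[(20,0)]⟩,⟨0,[(19,0),(2,0)]⟩⟩,⟨true,0,⟨0,[(0,0),(1,0),(5,0),(9,0)]⟩,⟨0,[(1,0),
  (17,0)]⟩⟩,⟨true,0,⟨0,[(24,0)]⟩,⟨0,[]⟩⟩,⟨false,1,⟨1,[(10,0),(1,1),(8,0)]⟩,⟨0,[(1,0)]⟩⟩,[]⟩) (.Q [0,
  0,-1,0,1,0,-1,0,-1] (.p false [0,0,1] [] (⟨0,[(13,0)]⟩,⟨0,[(12,0)]⟩) .k 0 (⟨0,[]⟩,⟨0,[]⟩) .k .k)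
  (.R ⟨2,true,false,false,[0,1],[0,0,1],[0,1,1],(⟨0,[]⟩,⟨0,[]⟩),(⟨0,[(14,0)]⟩,⟨0,[(13,0)]⟩),⟨0,[]⟩,
  .k,.k,.k,(.x (-2) ⟨3,[(11,0),(0,0),(2,1),(0,3),(5,3)]⟩ ⟨0,[(4,0)]⟩),.k,.k,⟨true,0,⟨1,[(9,0),(0,0),
  (0,0),(3,0),(4,0)]⟩,⟨0,[(1,0)]⟩⟩,⟨false,0,⟨5,[(6,1),(3,1),(0,0),(2,3),(0,0)]⟩,⟨0,[(3,0)]⟩⟩,⟨false,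
  0,⟨0,[(21,0)]⟩,⟨0,[(20,0),(2,0)]⟩⟩,⟨true,(-1),⟨0,[(2,0),(6,0)]⟩,⟨0,[(0,0),(19,0)]⟩⟩,⟨true,0,⟨0,
  [(25,0)]⟩,⟨0,[]⟩⟩,⟨false,0,⟨4,[(1,1),(0,0),(3,1),(3,0),(3,1),(8,0)]⟩,⟨0,[(0,0)]⟩⟩,[]⟩) (.R ⟨0,
  false,false,false,[0,0,1],[0,1],[0,1,1],(⟨0,[(14,0)]⟩,⟨0,[(13,0)]⟩),(⟨0,[(17,0)]⟩,⟨0,[(16,0)]⟩),
  ⟨0,[(3,0),(0,0)]⟩,.k,.k,(.x 1 ⟨0,[(4,0)]⟩ ⟨3,[(11,0),(0,0),(2,1),(0,3),(5,3)]⟩),(.x 1 ⟨0,[(4,0)]⟩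
  ⟨3,[(11,0),(0,0),(2,1),(0,3),(5,3)]⟩),.k,.k,⟨false,0,⟨3,[(5,1),(1,1),(1,1),(1,0),(3,0)]⟩,⟨0,[(20,
  0),(2,0)]⟩⟩,⟨true,1,⟨0,[(3,0)]⟩,⟨1,[(0,1),(9,1),(0,0),(3,0)]⟩⟩,⟨true,0,⟨1,[(9,0),(0,0),(0,0),(3,
  0),(4,0)]⟩,⟨0,[(0,0),(2,0)]⟩⟩,⟨false,2,⟨1,[(3,0),(4,0),(2,0),(1,0),(9,0)]⟩,⟨0,[(0,0),(20,0)]⟩⟩,
  ⟨false,0,⟨0,[]⟩,⟨0,[]⟩⟩,⟨false,0,⟨0,[]⟩,⟨0,[]⟩⟩,[.o ⟨false,1,⟨7,[(8,3),(2,0),(0,0),(2,1)]⟩,⟨0,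
  [(21,0)]⟩⟩,.a ⟨true,1,⟨0,[(20,0),(2,0)]⟩,⟨0,[(9,0)]⟩⟩ ⟨true,0,⟨7,[(10,3),(0,0),(0,0),(2,1)]⟩,⟨0,
  []⟩⟩ ⟨false,2,⟨1,[(3,0),(4,0),(4,0),(8,0),(0,0)]⟩,⟨1,[(0,1),(8,1),(1,0),(3,0)]⟩⟩,.o ⟨false,0,⟨1,
  [(0,1),(10,0),(3,0)]⟩,⟨7,[(3,3),(7,0),(0,0),(0,3),(1,1)]⟩⟩,.o ⟨false,0,⟨3,[(0,2),(5,0),(3,1),(0,
  1),(3,2)]⟩,⟨0,[(3,0)]⟩⟩]⟩))) (.K ⟨0,[1,0,-1],0,0,(⟨0,[(11,0)]⟩,⟨0,[(12,0)]⟩),.k,(.x 0 ⟨0,[(15,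
  0)]⟩ ⟨3,[(9,0),(0,0),(2,1),(0,3)]⟩),(.x (-2) ⟨3,[(9,0),(0,0),(2,1),(0,3),(5,3)]⟩ ⟨0,[(2,0)]⟩),.k,
  .k,[⟨0,[(8,0),(3,0),(0,0)]⟩,⟨0,[(11,0)]⟩,⟨0,[(3,0),(4,0),(3,0),(0,0),(4,0)]⟩,⟨0,[(0,0)]⟩]⟩))) (.Q
  [0,0,0,0,0,-2,0,1] (.pp false [-1,1]) (.I [1,0,-1,-2] (.R ⟨1,true,false,false,[1,-1],[0,1],[0,0,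
  1],(⟨0,[(14,0)]⟩,⟨0,[(15,0)]⟩),(⟨0,[(15,0)]⟩,⟨0,[(14,0)]⟩),⟨0,[(1,0)]⟩,.k,.k,(.r (-1) ⟨3,[(0,3),
  (8,0),(0,0),(9,1)]⟩ ⟨0,[(6,0),(1,0)]⟩),(.r (-1) ⟨3,[(0,3),(8,0),(0,0),(9,1)]⟩ ⟨0,[(6,0),(1,0)]⟩),
  (.r (-1) ⟨7,[(0,11),(8,0),(0,0),(9,5)]⟩ ⟨1,[(6,2),(1,2)]⟩),.k,⟨true,0,⟨0,[(19,0)]⟩,⟨1,[(6,0),(1,
  0)]⟩⟩,⟨false,2,⟨1,[(13,0),(6,2)]⟩,⟨0,[(8,0)]⟩⟩,⟨false,0,⟨1,[(6,0),(1,0),(8,1)]⟩,⟨7,[(0,3),(8,0),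
  (0,0),(9,5)]⟩⟩,⟨true,1,⟨0,[(6,0)]⟩,⟨2,[(0,1),(6,1),(0,0),(14,0)]⟩⟩,⟨true,0,⟨0,[(6,0),(1,0)]⟩,⟨0,
  [(0,0),(4,0)]⟩⟩,⟨false,2,⟨0,[(6,0),(11,0),(2,0)]⟩,⟨0,[(0,0),(6,0),(9,0)]⟩⟩,[]⟩) (.I [0,-1,-2,-2,
  1] (.S ⟨1,0,[0,1,-1,-2],[1,-1],[0,0,-1,-2],(⟨0,[(15,0)]⟩,⟨0,[(16,0)]⟩),⟨0,[(2,0)]⟩,.k,(.r (-1) ⟨9,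
  [(0,7),(9,0),(0,0),(5,3),(2,3)]⟩ ⟨0,[(7,0),(1,0)]⟩),⟨true,0,⟨0,[(20,0)]⟩,⟨0,[(19,0)]⟩⟩,⟨false,0,
  ⟨0,[(20,0)]⟩,⟨7,[(1,3),(8,0),(0,0),(9,1),(0,3)]⟩⟩,⟨false,1,⟨3,[(10,0),(0,0),(10,1)]⟩,⟨0,[]⟩⟩,
  ⟨true,0,⟨0,[(24,0)]⟩,⟨0,[]⟩⟩,[.a ⟨true,(-1),⟨0,[(8,0),(11,0)]⟩,⟨1,[(1,1),(19,0),(0,0)]⟩⟩ ⟨false,1,
  ⟨9,[(0,7),(9,0),(0,0),(5,3),(2,3)]⟩,⟨0,[(1,0)]⟩⟩ ⟨true,0,⟨2,[(0,0),(7,1),(5,0),(2,0),(2,1)]⟩,⟨0,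
  [(1,0),(16,0)]⟩⟩,.o ⟨false,0,⟨0,[(20,1)]⟩,⟨0,[(7,0)]⟩⟩,.o ⟨false,0,⟨7,[(9,3),(0,0),(0,0),(2,1)]⟩,
  ⟨1,[(14,0),(6,0)]⟩⟩,.e ⟨false,1,⟨0,[(0,0)]⟩,⟨0,[(7,0),(1,0)]⟩⟩ ⟨false,1,⟨9,[(0,7),(9,0),(0,0),(5,
  3),(2,3)]⟩,⟨0,[(1,0),(16,0)]⟩⟩]⟩) (.Q [0,0,0,0,0,-1,0,1,-1] (.ed true [0,1,1] .k) (.Q [0,0,1,0,0,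
  0,0,0,-1] (.p false [0,0,1] [] (⟨0,[(14,0)]⟩,⟨0,[(13,0)]⟩) .k 0 (⟨0,[]⟩,⟨0,[]⟩) .k .k) (.K ⟨0,[0,
  1,1],0,(-1),(⟨0,[(15,0),(2,0)]⟩,⟨0,[(1,0)]⟩),(.x (-1) ⟨7,[(4,3),(7,2),(0,2),(2,1)]⟩ ⟨0,[(18,0)]⟩),
  .k,(.x (-1) ⟨15,[(4,11),(0,7),(6,0),(0,0),(2,5)]⟩ ⟨7,[(11,3),(0,0),(0,0),(2,1),(1,15)]⟩),.k,.k,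
  [⟨0,[(0,0)]⟩,⟨5,[(7,1),(3,1),(0,0),(2,3),(0,0)]⟩,⟨3,[(6,1),(1,1),(1,1),(1,2),(1,3),(1,2)]⟩,⟨0,[(2,
  0),(3,0),(8,0)]⟩]⟩) (.K ⟨0,[1,0,-1],0,1,(⟨0,[(14,0)]⟩,⟨0,[(15,0)]⟩),.k,(.x 0 ⟨0,[(18,0)]⟩ ⟨7,[(4,
  3),(7,2),(0,2),(2,1)]⟩),(.x (-1) ⟨0,[(0,1),(0,1),(14,0),(1,0)]⟩ ⟨3,[(11,3),(0,0),(0,0),(2,1),(1,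
  3)]⟩),.k,.k,[⟨0,[(11,0),(3,0),(0,0)]⟩,⟨0,[(14,0)]⟩,⟨0,[(0,0),(1,0),(3,0),(3,0),(5,0),(3,0)]⟩,⟨7,
  [(12,4),(0,0),(0,7),(4,3),(3,1)]⟩]⟩)) (.I [0,0,-1,-1,0,0,1] (.K ⟨0,[0,0,1],(-1),(-1),(⟨0,[(15,
  0)]⟩,⟨0,[(14,0)]⟩),.k,(.r 0 ⟨0,[(0,0)]⟩ ⟨3,[(9,1),(1,1),(0,2),(0,0)]⟩),(.x (-1) ⟨7,[(4,3),(7,2),
  (0,2),(2,1)]⟩ ⟨0,[(18,0)]⟩),.k,.k,[⟨3,[(12,0),(0,0),(0,3),(1,1)]⟩,⟨5,[(1,5),(0,1),(1,2),(5,3),(0,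
  0),(4,0),(3,5)]⟩,⟨1,[(8,1),(3,0),(1,1),(1,0)]⟩,⟨8,[(1,5),(0,4),(1,2),(1,5),(0,2),(2,3),(0,0),(4,
  0)]⟩]⟩) (.Q [0,0,1,0,0,0,-1,-1,1] (.p true [0,0,1] [1] (⟨0,[(15,0)]⟩,⟨0,[(14,0)]⟩) .k 1 (⟨0,[]⟩,
  ⟨0,[]⟩) .k .k) (.R ⟨0,false,false,true,[-1,1,1],[0,1],[],(⟨0,[(2,0)]⟩,⟨0,[(15,0),(2,0)]⟩),(⟨0,
  [(19,0)]⟩,⟨0,[(18,0)]⟩),⟨0,[(15,0)]⟩,(.x (-1) ⟨7,[(5,3),(7,2),(0,2),(2,1)]⟩ ⟨0,[(19,0)]⟩),.k,.k,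
  .k,.k,.k,⟨true,1,⟨1,[(7,1),(5,0),(11,0)]⟩,⟨2,[(3,1),(7,0),(0,0),(4,0)]⟩⟩,⟨false,1,⟨0,[(15,0),(8,
  0)]⟩,⟨11,[(0,6),(1,1),(0,1),(1,0),(1,3),(0,2),(8,1),(3,1)]⟩⟩,⟨true,1,⟨0,[(7,0),(5,0)]⟩,⟨0,[(3,0),
  (3,0)]⟩⟩,⟨false,1,⟨1,[(13,0),(1,1),(8,0)]⟩,⟨3,[(2,3),(0,1),(1,1),(1,3),(9,0),(3,3),(3,0)]⟩⟩,
  ⟨false,0,⟨0,[]⟩,⟨0,[]⟩⟩,⟨false,0,⟨0,[]⟩,⟨0,[]⟩⟩,[.a ⟨true,0,⟨0,[(22,0)]⟩,⟨0,[(11,0),(13,0)]⟩⟩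
  ⟨false,1,⟨3,[(13,0),(0,0),(9,1)]⟩,⟨0,[]⟩⟩ ⟨true,0,⟨0,[(15,0),(6,0)]⟩,⟨0,[(0,0),(6,0),(13,0)]⟩⟩,.o
  ⟨false,1,⟨7,[(10,3),(2,0),(0,0),(2,1)]⟩,⟨0,[(23,0)]⟩⟩,.o ⟨false,1,⟨2,[(0,0),(1,0),(3,0),(1,0),(8,
  1)]⟩,⟨0,[(15,0)]⟩⟩,.e ⟨false,1,⟨1,[(24,0),(0,0)]⟩,⟨7,[(12,3),(0,0),(0,0),(2,1)]⟩⟩ ⟨false,1,⟨7,[(4,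
  3),(8,0),(0,0),(0,7),(8,5)]⟩,⟨0,[(0,0),(6,0),(13,0)]⟩⟩]⟩) (.K ⟨0,[2,-1,-1],(-1),0,(⟨0,[(15,0),(2,
  0)]⟩,⟨0,[(2,0)]⟩),(.x 0 ⟨0,[(19,0)]⟩ ⟨7,[(5,3),(7,2),(0,2),(2,1)]⟩),(.x 0 ⟨7,[(12,3),(0,0),(0,0),
  (2,1),(1,15)]⟩ ⟨15,[(5,11),(0,7),(6,0),(0,0),(2,5)]⟩),.k,.k,.k,[⟨5,[(8,1),(3,1),(0,0),(2,3),(0,
  6)]⟩,⟨0,[(0,0),(0,0),(9,0),(9,0)]⟩,⟨32,[(2,24),(0,28),(1,10),(0,2),(0,24),(0,7),(8,25),(2,1)]⟩,⟨0,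
  [(0,0),(10,0),(1,0)]⟩]⟩)))))) t0))

def tree : Tre :=
  (.Q [0,0,0,2,1,0,0,-1] (.pp true [-1,1]) (.I [1,1,-1] (.Q [0,0,1,0,0,0,1,0,1] (.p true [0,0,1] []
  (⟨0,[(7,0)]⟩,⟨0,[(6,0)]⟩) .k 0 (⟨0,[]⟩,⟨0,[]⟩) .k .k) (.I [0,0,1,1,0,0,-1] (.Q [0,0,-1,-1,0,0,-1,
  1,-1] (.p false [0,0,1] [1] (⟨0,[(9,0)]⟩,⟨0,[(8,0)]⟩) .k 1 (⟨0,[]⟩,⟨0,[]⟩) .k .k) (.Q [0,1,1,0,0,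
  0,1,-1,1] (.p true [0,0,1] [1] (⟨0,[(10,0)]⟩,⟨0,[(9,0)]⟩) .k 1 (⟨0,[]⟩,⟨0,[]⟩) .k .k) (.K ⟨0,[1,0,
  -1],0,0,(⟨0,[(10,0)]⟩,⟨0,[(11,0)]⟩),.k,(.x 0 ⟨0,[(14,0)]⟩ ⟨3,[(8,0),(0,0),(2,1),(0,3)]⟩),(.r 0 ⟨0,
  [(2,0)]⟩ ⟨1,[(9,0),(8,1),(0,0)]⟩),.k,.k,[⟨0,[(7,0),(3,0),(0,0)]⟩,⟨0,[(10,0)]⟩,⟨0,[(0,0)]⟩,⟨0,[(1,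
  0),(15,0)]⟩]⟩) (.I [1,-1,0,0,0,0,-1] (.R ⟨2,false,false,true,[0,1],[0,0,1],[0,1,1,0,0,0,1],(⟨0,
  []⟩,⟨0,[]⟩),(⟨0,[(12,0)]⟩,⟨0,[(11,0)]⟩),⟨0,[]⟩,.k,.k,.k,(.r 0 ⟨0,[(3,0)]⟩ ⟨1,[(10,0),(8,1),(0,
  0)]⟩),.k,.k,⟨true,0,⟨7,[(8,3),(0,0),(0,0),(2,1)]⟩,⟨0,[]⟩⟩,⟨false,0,⟨5,[(4,1),(3,1),(0,0),(2,3),(0,
  0)]⟩,⟨1,[(1,1),(3,1),(4,0),(2,0)]⟩⟩,⟨true,0,⟨1,[(7,1),(2,0),(2,0)]⟩,⟨0,[(0,0),(17,0)]⟩⟩,⟨false,0,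
  ⟨0,[(4,0),(14,0)]⟩,⟨11,[(1,9),(4,5),(2,0),(1,1),(1,2),(6,0),(0,0)]⟩⟩,⟨false,1,⟨3,[(9,0),(0,2)]⟩,
  ⟨0,[(0,0)]⟩⟩,⟨false,0,⟨0,[(4,0)]⟩,⟨5,[(1,3),(7,0),(1,1),(1,2),(6,0),(0,0)]⟩⟩,[.a ⟨true,0,⟨0,[(4,
  0),(18,0)]⟩,⟨0,[(1,0)]⟩⟩ ⟨true,0,⟨1,[(7,0),(0,0),(1,0),(2,0),(4,0)]⟩,⟨0,[(0,0)]⟩⟩ ⟨false,0,⟨0,[(4,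
  0),(18,0)]⟩,⟨1,[(1,1),(11,0),(6,0)]⟩⟩,.e ⟨false,1,⟨3,[(9,0),(0,2)]⟩,⟨0,[(0,0),(4,0)]⟩⟩ ⟨false,0,
  ⟨0,[(4,0)]⟩,⟨7,[(1,3),(0,3),(3,1),(6,2),(2,1),(3,2)]⟩⟩,.o ⟨false,1,⟨1,[(13,0),(6,0)]⟩,⟨7,[(8,3),
  (0,0),(0,0),(2,1)]⟩⟩,.fo]⟩) (.R ⟨2,false,false,true,[0,1],[0,0,1],[0,0,1],(⟨0,[]⟩,⟨0,[]⟩),(⟨0,
  [(12,0)]⟩,⟨0,[(11,0)]⟩),⟨0,[]⟩,.k,.k,.k,(.r 0 ⟨0,[(3,0)]⟩ ⟨1,[(10,0),(8,1),(0,0)]⟩),.k,.k,⟨true,0,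
  ⟨1,[(1,0),(1,0),(3,0),(4,0),(0,0),(3,1)]⟩,⟨0,[(0,0)]⟩⟩,⟨false,0,⟨5,[(4,1),(3,1),(0,0),(2,3),(0,
  0)]⟩,⟨1,[(1,1),(3,1),(4,0),(2,0)]⟩⟩,⟨true,0,⟨0,[(19,0)]⟩,⟨0,[(18,0)]⟩⟩,⟨false,0,⟨0,[(4,0),(14,
  0)]⟩,⟨11,[(1,9),(4,5),(2,0),(1,1),(1,2),(6,0),(0,0)]⟩⟩,⟨false,1,⟨3,[(9,0),(0,0),(10,1)]⟩,⟨0,[]⟩⟩,
  ⟨false,0,⟨0,[(4,0)]⟩,⟨5,[(1,3),(7,0),(1,1),(1,2),(6,0),(0,0)]⟩⟩,[.a ⟨true,0,⟨0,[(4,0),(18,0)]⟩,⟨0,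
  [(1,0)]⟩⟩ ⟨true,0,⟨7,[(8,3),(0,0),(0,0),(2,1)]⟩,⟨0,[]⟩⟩ ⟨false,0,⟨0,[(4,0),(18,0)]⟩,⟨1,[(1,1),(11,
  0),(6,0)]⟩⟩,.e ⟨false,1,⟨3,[(9,0),(0,0),(10,1)]⟩,⟨0,[(5,0)]⟩⟩ ⟨false,0,⟨0,[(4,0)]⟩,⟨7,[(1,3),(0,
  3),(3,1),(6,2),(2,1),(3,2)]⟩⟩,.o ⟨false,1,⟨1,[(13,0),(6,0)]⟩,⟨7,[(8,3),(0,0),(0,0),(2,1)]⟩⟩,
  .fo]⟩))) (.Q [0,0,2,0,-1,0,0,0,1] (.p true [0,0,1] [] (⟨0,[(10,0)]⟩,⟨0,[(9,0)]⟩) .k 0 (⟨0,[]⟩,⟨0,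
  []⟩) .k .k) (.K ⟨0,[0,0,1],(-1),(-1),(⟨0,[(11,0)]⟩,⟨0,[(10,0)]⟩),.k,(.r (-1) ⟨1,[(9,0),(8,1),(0,
  0)]⟩ ⟨0,[(2,0)]⟩),(.x (-1) ⟨3,[(8,0),(0,0),(2,1),(0,3)]⟩ ⟨0,[(14,0)]⟩),.k,.k,[⟨3,[(8,0),(0,0),(0,
  3),(1,1)]⟩,⟨0,[(0,0)]⟩,⟨1,[(4,1),(3,0),(1,1),(1,0)]⟩,⟨0,[(1,0),(4,0)]⟩]⟩) (.K ⟨0,[1,0,-1],0,0,(⟨0,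
  [(10,0)]⟩,⟨0,[(11,0)]⟩),.k,(.x 0 ⟨0,[(14,0)]⟩ ⟨3,[(8,0),(0,0),(2,1),(0,3)]⟩),(.r 0 ⟨0,[(2,0)]⟩ ⟨1,
  [(9,0),(8,1),(0,0)]⟩),.k,.k,[⟨0,[(7,0),(3,0),(0,0)]⟩,⟨0,[(10,0)]⟩,⟨6,[(1,2),(1,3),(2,2),(0,0),(4,
  3),(2,1)]⟩,⟨0,[(0,0),(1,0),(3,0)]⟩]⟩))) t1) (.R ⟨2,true,false,true,[0,1],[0,0,1],[1,0,1,1],(⟨0,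
  []⟩,⟨0,[]⟩),(⟨0,[(8,0)]⟩,⟨0,[(7,0)]⟩),⟨0,[]⟩,.k,.k,.k,(.r 0 ⟨5,[(0,3),(1,2),(1,4),(0,0),(2,3),(0,
  0)]⟩ ⟨1,[(6,0),(8,1),(0,0)]⟩),.k,.k,⟨true,0,⟨1,[(0,1),(1,0),(1,0),(3,1),(4,1)]⟩,⟨1,[(3,1),(2,0),
  (2,0)]⟩⟩,⟨false,0,⟨7,[(4,3),(0,0),(0,0),(1,7),(0,1)]⟩,⟨1,[(0,1),(5,0),(9,0)]⟩⟩,⟨true,0,⟨0,[]⟩,⟨0,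
  [(19,0)]⟩⟩,⟨false,0,⟨1,[(3,1),(2,0),(1,1),(0,0),(3,1)]⟩,⟨0,[(0,0),(13,0),(2,0)]⟩⟩,⟨false,1,⟨0,
  [(14,0),(2,0)]⟩,⟨0,[(15,0)]⟩⟩,⟨true,0,⟨1,[(3,0),(0,0),(1,0),(1,1),(0,0),(4,0)]⟩,⟨0,[(0,0)]⟩⟩,
  []⟩)) (.R ⟨2,false,false,false,[0,1],[1,-1],[1,1],(⟨0,[]⟩,⟨0,[]⟩),(⟨0,[(9,0)]⟩,⟨0,[(10,0)]⟩),⟨0,
  []⟩,.k,.k,.k,(.r 0 ⟨0,[(1,0),(1,0)]⟩ ⟨0,[(14,1),(0,0)]⟩),.k,.k,⟨false,0,⟨0,[(13,0)]⟩,⟨1,[(14,1),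
  (0,0),(0,0)]⟩⟩,⟨true,(-1),⟨0,[(3,0)]⟩,⟨1,[(8,0),(6,0)]⟩⟩,⟨true,0,⟨1,[(2,1),(5,0),(6,0)]⟩,⟨1,[(1,
  0),(1,0)]⟩⟩,⟨false,0,⟨0,[(2,0),(11,0),(1,0)]⟩,⟨0,[(1,0)]⟩⟩,⟨false,1,⟨3,[(4,0),(0,0),(9,1)]⟩,⟨0,
  [(0,0)]⟩⟩,⟨false,0,⟨0,[(2,0),(13,0)]⟩,⟨7,[(1,3),(2,0),(0,0),(2,1)]⟩⟩,[.o ⟨false,0,⟨0,[(14,0)]⟩,⟨7,
  [(1,3),(2,0),(0,0),(2,1)]⟩⟩,.a ⟨true,0,⟨0,[(2,0),(13,0)]⟩,⟨0,[(13,0)]⟩⟩ ⟨true,0,⟨0,[]⟩,⟨7,[(3,3),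
  (0,0),(0,0),(2,1)]⟩⟩ ⟨false,0,⟨0,[(2,0),(13,0)]⟩,⟨3,[(1,1),(6,0),(2,1),(3,0)]⟩⟩,.o ⟨false,1,⟨1,
  [(8,0),(6,0)]⟩,⟨7,[(3,3),(0,0),(0,0),(2,1)]⟩⟩,.fo]⟩)) (.R ⟨2,true,false,false,[0,1],[1,-1],[1,1,1,
  1],(⟨0,[]⟩,⟨0,[]⟩),(⟨0,[(8,0)]⟩,⟨0,[(9,0)]⟩),⟨0,[]⟩,.k,.k,.k,(.r 0 ⟨0,[(11,1),(0,1)]⟩ ⟨3,[(0,3),
  (2,0),(0,0),(2,1),(6,3)]⟩),.k,.k,⟨false,0,⟨0,[(11,0),(0,1)]⟩,⟨1,[(0,1),(6,0),(6,1),(0,0)]⟩⟩,⟨true,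
  (-1),⟨0,[(2,0)]⟩,⟨1,[(7,0),(6,0)]⟩⟩,⟨false,0,⟨0,[]⟩,⟨3,[(3,0),(0,0),(10,1)]⟩⟩,⟨true,(-1),⟨0,[(0,
  0)]⟩,⟨1,[(7,0),(4,3),(2,0)]⟩⟩,⟨true,0,⟨0,[(12,0)]⟩,⟨0,[(13,0)]⟩⟩,⟨false,0,⟨1,[(0,0),(4,0),(0,0),
  (8,0)]⟩,⟨1,[(7,0),(4,1),(2,0)]⟩⟩,[]⟩))

theorem ok : chk (cPU 1 true) tree base = true := by
  decide +kernel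

theorem closed {p a b c J l q : ℤ} {D dl : ℝ} {Cl : ℤ → ℤ → ℤ → ℤ → ℝ → Prop}
    (W : World p a b c J 1 l q D dl Cl) (hE : KEmp p a b 1 (P1 l p) Cl)
    (g : G0 p a b c J D)
    {N R : ℤ} {I : ℝ} (hu : UFac p b D Cl N R I)
    (s0 : (c : ℝ) + 1 ≤ 0)
    (s1 : (a : ℝ) ≤ b)
    (s2 : (b : ℝ) + 1 ≤ 2 * a)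
    (s3 : p - D < 2 * b)
    (s4 : -(a : ℝ) < D - c - p) : False := by
  have g1 := g.a2
  have g2 := g.b2
  have g3 := g.pa
  have g4 := g.pb
  have g5 := g.J1
  have g6 := g.JD
  have g7 := g.D2
  have g8 := g.ca
  have g9 := g.ca'
  have t1 := TF.ofU hu
  have i1 := t1.I0
  have i2 := t1.ID
  have i3 := t1.R1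
  have i4 := t1.R2
  refine (val_PU W.toBase (UV.ofU hu)).sound W rfl (Nk := 0) (fun kf hkf hh => ?_) (kok_B hE (by simp [xv]) (by simp [xv]) 0) ?_ ok
  · simp only [cPU, kfB, List.mem_cons, List.not_mem_nil, or_false] at hkf
    subst hkf
    exact absurd hh (by norm_num)
  · simp only [base, List.forall_mem_cons, List.not_mem_nil, false_imp_iff, implies_true,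
      and_true, hld, xv, evg_cons, evg_nil, List.map_cons, List.map_nil, List.cons_append,
      List.nil_append, if_true, if_false, Bool.false_eq_true]
    push_cast
    refine ⟨?_, ?_, ?_, ?_, ?_, ?_, ?_, ?_, ?_, ?_, ?_, ?_, ?_, ?_, ?_, ?_, ?_⟩ <;> linarith

end Helper25.KG.Pm1_35_1_1_u
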