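import Pool.Agent.Helper25.KG.PL

set_option autoImplicit false
set_option linter.unusedVariables false

namespace Helper25.KG.Pm1_35_1_1_v

open Helper11.CT Helper25.KW Helper25.KG

def base : List Con :=
  [(false,[0,1,0,-1,-1,0,0,1]),
  (false,[0,0,2,0,-1,0,0,1]),
  (true,[0,0,0,0,1,0,-2]),
  (true,[0,0,0,0,1,0,2]),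
  (false,[0,0,0,0,0,0,0,1,-2]),
  (false,[0,0,0,0,0,0,0,0,1]),
  (false,[0,0,0,0,1,0,0,-2]),
  (false,[0,0,0,0,0,-1,0,1]),
  (true,[0,0,0,0,0,1]),
  (true,[0,2,-1]),
  (true,[1,-1,1]),
  (true,[0,1,0,1]),
  (true,[0,0,0,-1]),
  (true,[0,0,-2,0,1]),
  (true,[0,-2,0,0,1]),
  (true,[-1,0,1]),
  (true,[-1,1])]

def tree : Tre :=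
  (.Q [0,0,0,2,1,0,0,-1] (.pp true [-1,1]) (.I [1,1,-1] (.I [0,0,1,1,0,0,-1] (.Q [0,1,0,0,0,0,1,0,
  1] (.p true [0,0,1] [] (⟨0,[(8,0)]⟩,⟨1,[(4,0),(2,0),(8,0)]⟩) .k 0 (⟨0,[]⟩,⟨0,[]⟩) .k .k) (.Q [0,1,
  0,0,0,0,-1,0,-1] (.p false [0,0,1] [] (⟨0,[(9,0)]⟩,⟨1,[(5,0),(2,0),(8,0)]⟩) .k 0 (⟨0,[]⟩,⟨0,[]⟩)
  .k .k) (.K ⟨0,[0,0,1],0,0,(⟨0,[(10,0)]⟩,⟨1,[(6,0),(2,0),(8,0)]⟩),.k,(.r (-1) ⟨1,[(8,0),(8,1),(0,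
  0)]⟩ ⟨0,[(2,0)]⟩),(.x (-1) ⟨1,[(11,0),(0,1),(5,0)]⟩ ⟨7,[(6,3),(0,0),(0,0),(2,1),(1,7)]⟩),.k,.k,
  [⟨1,[(6,0),(2,0),(1,0)]⟩,⟨7,[(1,1),(4,3),(0,0),(2,5),(0,1),(7,0)]⟩,⟨0,[(0,0)]⟩,⟨0,[(1,0)]⟩]⟩) (.K
  ⟨0,[1,0,-1],0,0,(⟨1,[(6,0),(2,0),(8,0)]⟩,⟨0,[(10,0)]⟩),.k,(.r (-1) ⟨1,[(7,0),(9,1),(0,0)]⟩ ⟨1,[(0,
  1),(5,0),(2,0),(1,0),(4,1)]⟩),(.r 0 ⟨0,[(2,0)]⟩ ⟨1,[(8,0),(8,1),(0,0)]⟩),.k,.k,[⟨0,[(0,0),(1,0),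
  (2,0),(5,0)]⟩,⟨3,[(6,1),(0,0),(0,0),(0,1)]⟩,⟨0,[(0,0),(4,0),(5,0),(4,0)]⟩,⟨1,[(5,0),(1,0),(1,0),
  (6,0)]⟩]⟩)) (.R ⟨2,true,false,false,[0,1],[1,0,-1],[0,1,1],(⟨0,[]⟩,⟨0,[]⟩),(⟨1,[(5,0),(2,0),(8,
  0)]⟩,⟨0,[(9,0)]⟩),⟨0,[]⟩,.k,.k,.k,(.r (-1) ⟨3,[(3,1),(1,1),(0,0),(0,2)]⟩ ⟨1,[(0,1),(3,1),(4,1),(0,
  0),(6,0)]⟩),.k,.k,⟨true,0,⟨1,[(4,0),(0,0),(1,0),(2,0),(4,0)]⟩,⟨0,[(0,0),(8,0)]⟩⟩,⟨false,0,⟨1,[(5,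
  0),(2,0),(8,0)]⟩,⟨1,[(9,1),(0,0),(6,0)]⟩⟩,⟨false,0,⟨0,[(16,0)]⟩,⟨0,[(15,0),(2,0)]⟩⟩,⟨true,(-1),⟨0,
  [(0,0),(3,0)]⟩,⟨1,[(7,0),(1,1),(0,0),(4,1)]⟩⟩,⟨true,0,⟨0,[(20,0)]⟩,⟨0,[]⟩⟩,⟨false,0,⟨0,[(0,0),(4,
  0),(11,0)]⟩,⟨1,[(7,0),(1,1),(0,0)]⟩⟩,[]⟩)) (.Q [0,0,1,0,0,0,0,-1,1] (.p true [0,0,1] [1] (⟨0,[(8,
  0)]⟩,⟨1,[(4,0),(2,0),(8,0)]⟩) .k 1 (⟨0,[]⟩,⟨0,[]⟩) .k .k) (.K ⟨0,[1,0,-1],0,0,(⟨1,[(5,0),(2,0),(8,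
  0)]⟩,⟨0,[(9,0)]⟩),.k,(.r (-1) ⟨0,[(1,0),(4,0)]⟩ ⟨0,[(1,0),(1,0),(1,0)]⟩),(.x (-1) ⟨1,[(10,0),(0,
  1),(5,0)]⟩ ⟨7,[(5,3),(0,0),(0,0),(2,1),(1,7)]⟩),.k,.k,[⟨0,[(0,0)]⟩,⟨3,[(5,1),(0,0),(0,0),(0,1)]⟩,
  ⟨0,[(0,0),(0,0),(13,0)]⟩,⟨1,[(4,0),(1,0),(1,0),(6,0)]⟩]⟩) (.Q [0,-1,0,0,0,0,1,0,1] (.p true [0,0,
  1] [] (⟨0,[(9,0)]⟩,⟨7,[(0,3),(4,1),(0,0),(0,0),(0,1)]⟩) .k 0 (⟨0,[]⟩,⟨0,[]⟩) .k .k) (.Q [0,0,0,0,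
  0,0,1,-1,1] (.p true [0,0,1] [1] (⟨0,[(10,0)]⟩,⟨7,[(1,3),(4,1),(0,0),(0,0),(0,1)]⟩) .k 1 (⟨0,[]⟩,
  ⟨0,[]⟩) .k .k) (.R ⟨2,true,false,true,[0,1],[1,0,-1],[1,0,1,1],(⟨0,[]⟩,⟨0,[]⟩),(⟨7,[(2,3),(4,1),
  (0,0),(0,0),(0,1)]⟩,⟨0,[(11,0)]⟩),⟨0,[]⟩,.k,.k,.k,(.r 0 ⟨7,[(0,3),(0,1),(3,2),(1,3),(1,0),(0,2),
  (6,1)]⟩ ⟨0,[(3,0),(4,0)]⟩),.k,.k,⟨true,0,⟨1,[(0,1),(1,1),(2,0),(1,0),(8,1)]⟩,⟨1,[(6,1),(1,0),(3,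
  0)]⟩⟩,⟨false,0,⟨7,[(2,3),(4,1),(0,0),(0,0),(0,1)]⟩,⟨1,[(0,1),(7,0),(10,0)]⟩⟩,⟨true,0,⟨0,[]⟩,⟨0,
  [(22,0)]⟩⟩,⟨false,0,⟨1,[(2,1),(3,1),(1,0),(3,0),(3,1)]⟩,⟨7,[(0,3),(0,1),(3,3),(3,0),(1,1),(8,
  2)]⟩⟩,⟨false,1,⟨0,[(17,0),(2,0)]⟩,⟨0,[(18,0)]⟩⟩,⟨true,0,⟨1,[(6,0),(1,0),(1,0),(6,0)]⟩,⟨0,[(0,
  0)]⟩⟩,[]⟩) (.I [0,1,0,0,0,0,-1] (.R ⟨2,false,false,false,[0,1],[0,0,1],[0,0,1],(⟨0,[]⟩,⟨0,[]⟩),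
  (⟨0,[(12,0)]⟩,⟨5,[(1,1),(1,1),(4,0),(1,0),(0,0)]⟩),⟨0,[]⟩,.k,.k,.k,(.r (-1) ⟨3,[(6,1),(1,1),(0,2),
  (0,0)]⟩ ⟨0,[(2,0),(0,0),(3,0),(5,0)]⟩),.k,.k,⟨true,0,⟨0,[(0,0),(16,0)]⟩,⟨1,[(4,1),(1,0),(1,0)]⟩⟩,
  ⟨false,0,⟨0,[(12,0)]⟩,⟨7,[(9,0),(0,0),(0,3),(1,1),(6,3)]⟩⟩,⟨true,0,⟨0,[(19,0)]⟩,⟨0,[(18,0)]⟩⟩,
  ⟨false,0,⟨0,[(2,0),(16,0)]⟩,⟨1,[(6,0),(2,0),(1,0)]⟩⟩,⟨false,1,⟨3,[(9,0),(0,0),(10,1)]⟩,⟨0,[]⟩⟩,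
  ⟨false,0,⟨0,[(2,0)]⟩,⟨7,[(9,4),(0,0),(0,3),(1,1)]⟩⟩,[.a ⟨true,0,⟨9,[(2,7),(5,1),(1,0),(1,1),(0,0),
  (2,3)]⟩,⟨0,[(1,0)]⟩⟩ ⟨true,0,⟨7,[(8,3),(0,0),(0,0),(2,1)]⟩,⟨0,[]⟩⟩ ⟨false,0,⟨9,[(2,7),(5,1),(1,0),
  (1,1),(0,0),(2,3)]⟩,⟨1,[(3,1),(5,0),(3,0)]⟩⟩,.e ⟨false,1,⟨3,[(9,0),(0,0),(10,1)]⟩,⟨0,[(5,0)]⟩⟩
  ⟨false,0,⟨0,[(2,0)]⟩,⟨3,[(9,1),(1,1),(1,0),(2,1),(3,0)]⟩⟩,.o ⟨false,1,⟨1,[(13,0),(6,0)]⟩,⟨7,[(8,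
  3),(0,0),(0,0),(2,1)]⟩⟩,.fo]⟩) (.R ⟨2,false,false,true,[0,1],[1,0,-1],[0,1,1,0,0,0,-1],(⟨0,[]⟩,⟨0,
  []⟩),(⟨5,[(1,1),(1,1),(4,0),(1,0),(0,0)]⟩,⟨0,[(12,0)]⟩),⟨0,[]⟩,.k,.k,.k,(.r 0 ⟨5,[(0,3),(5,0),(1,
  2),(1,0),(2,0),(4,3)]⟩ ⟨0,[(4,0),(4,0)]⟩),.k,.k,⟨true,0,⟨7,[(8,3),(0,0),(0,0),(2,1)]⟩,⟨0,[]⟩⟩,
  ⟨false,0,⟨5,[(1,1),(1,1),(4,0),(1,0),(0,0)]⟩,⟨1,[(12,1),(0,0),(6,0)]⟩⟩,⟨true,0,⟨1,[(7,1),(1,0),(3,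
  0)]⟩,⟨0,[(0,0),(17,0)]⟩⟩,⟨false,0,⟨0,[(1,0),(17,0)]⟩,⟨7,[(2,5),(3,3),(3,0),(1,1),(0,1),(7,0)]⟩⟩,
  ⟨false,1,⟨3,[(9,2),(0,0)]⟩,⟨0,[(0,0)]⟩⟩,⟨false,0,⟨0,[(1,0)]⟩,⟨3,[(2,1),(7,0),(1,1),(0,1),(7,0)]⟩⟩,
  [.a ⟨true,0,⟨3,[(1,1),(6,0),(0,0),(1,0),(4,1)]⟩,⟨0,[(2,0)]⟩⟩ ⟨true,0,⟨1,[(7,0),(0,0),(0,0),(3,0),
  (4,0)]⟩,⟨0,[(0,0)]⟩⟩ ⟨false,0,⟨3,[(1,1),(6,0),(0,0),(1,0),(4,1)]⟩,⟨1,[(2,1),(10,0),(6,0)]⟩⟩,.e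
  ⟨false,1,⟨3,[(9,2),(0,0)]⟩,⟨0,[(0,0),(4,0)]⟩⟩ ⟨false,0,⟨0,[(1,0)]⟩,⟨5,[(2,3),(7,0),(1,1),(0,2),(2,
  1),(3,1)]⟩⟩,.o ⟨false,1,⟨1,[(13,0),(6,0)]⟩,⟨7,[(8,3),(0,0),(0,0),(2,1)]⟩⟩,.fo]⟩))) (.K ⟨0,[0,0,1],
  0,0,(⟨0,[(10,0)]⟩,⟨7,[(1,3),(4,1),(0,0),(0,0),(0,1)]⟩),.k,(.x 0 ⟨7,[(6,3),(0,0),(0,0),(2,1),(1,
  7)]⟩ ⟨1,[(11,0),(0,1),(5,0)]⟩),(.r 0 ⟨0,[(2,0),(1,0),(1,0)]⟩ ⟨0,[(2,0),(4,0)]⟩),.k,.k,[⟨1,[(6,0),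
  (2,0),(1,0)]⟩,⟨7,[(6,3),(0,0),(0,0),(1,7),(0,1)]⟩,⟨0,[(0,0)]⟩,⟨4,[(2,2),(3,1),(1,0),(1,4),(0,0),
  (2,0),(1,2)]⟩]⟩)))) (.R ⟨2,false,false,false,[0,1],[1,-1],[1,1],(⟨0,[]⟩,⟨0,[]⟩),(⟨0,[(9,0)]⟩,⟨0,
  [(10,0)]⟩),⟨0,[]⟩,.k,.k,.k,(.r 0 ⟨0,[(1,0),(1,0)]⟩ ⟨0,[(14,1),(0,0)]⟩),.k,.k,⟨false,0,⟨0,[(13,
  0)]⟩,⟨1,[(14,1),(0,0),(0,0)]⟩⟩,⟨true,(-1),⟨0,[(3,0)]⟩,⟨1,[(8,0),(6,0)]⟩⟩,⟨true,0,⟨1,[(2,1),(5,0),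
  (6,0)]⟩,⟨1,[(1,0),(1,0)]⟩⟩,⟨false,0,⟨0,[(2,0),(11,0),(1,0)]⟩,⟨0,[(1,0)]⟩⟩,⟨false,1,⟨3,[(4,0),(0,
  0),(9,1)]⟩,⟨0,[(0,0)]⟩⟩,⟨false,0,⟨0,[(2,0),(13,0)]⟩,⟨7,[(1,3),(2,0),(0,0),(2,1)]⟩⟩,[.o ⟨false,0,
  ⟨0,[(14,0)]⟩,⟨7,[(1,3),(2,0),(0,0),(2,1)]⟩⟩,.a ⟨true,0,⟨0,[(2,0),(13,0)]⟩,⟨0,[(13,0)]⟩⟩ ⟨true,0,
  ⟨0,[]⟩,⟨7,[(3,3),(0,0),(0,0),(2,1)]⟩⟩ ⟨false,0,⟨0,[(2,0),(13,0)]⟩,⟨3,[(1,1),(6,0),(2,1),(3,0)]⟩⟩,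
  .o ⟨false,1,⟨1,[(8,0),(6,0)]⟩,⟨7,[(3,3),(0,0),(0,0),(2,1)]⟩⟩,.fo]⟩)) (.R ⟨2,true,false,false,[0,
  1],[1,-1],[1,1,1,1],(⟨0,[]⟩,⟨0,[]⟩),(⟨0,[(8,0)]⟩,⟨0,[(9,0)]⟩),⟨0,[]⟩,.k,.k,.k,(.r 0 ⟨0,[(11,1),(0,
  1)]⟩ ⟨3,[(0,3),(2,0),(0,0),(2,1),(6,3)]⟩),.k,.k,⟨false,0,⟨0,[(11,0),(0,1)]⟩,⟨1,[(0,1),(6,0),(6,1),
  (0,0)]⟩⟩,⟨true,(-1),⟨0,[(2,0)]⟩,⟨1,[(7,0),(6,0)]⟩⟩,⟨false,0,⟨0,[]⟩,⟨3,[(3,0),(0,0),(10,1)]⟩⟩,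
  ⟨true,(-1),⟨0,[(0,0)]⟩,⟨1,[(7,0),(4,3),(2,0)]⟩⟩,⟨true,0,⟨0,[(12,0)]⟩,⟨0,[(13,0)]⟩⟩,⟨false,0,⟨1,
  [(0,0),(1,0),(11,0),(0,0)]⟩,⟨1,[(7,0),(4,1),(2,0)]⟩⟩,[]⟩))

theorem ok : chk (cPU 1 false) tree base = true := by
  decide +kernel

theorem closed {p a b c J l q : ℤ} {D dl : ℝ} {Cl : ℤ → ℤ → ℤ → ℤ → ℝ → Prop}
    (W : World p a b c J 1 l q D dl Cl) (hE : KEmp p a b 1 (P1 l p) Cl)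
    (g : G0 p a b c J D)
    {N R : ℤ} {I : ℝ} (hu : VFac p D Cl N R I)
    (s0 : (c : ℝ) + 1 ≤ 0)
    (s1 : (a : ℝ) ≤ b)
    (s2 : (b : ℝ) + 1 ≤ 2 * a)
    (s3 : p - D < 2 * b)
    (s4 : -(a : ℝ) < D - c - p) : False := by
  have g1 := g.a2
  have g2 := g.b2
  have g3 := g.pa
  have g4 := g.pb
  have g5 := g.J1
  have g6 := g.JD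
  have g7 := g.D2
  have g8 := g.ca
  have g9 := g.ca'
  have t1 := TF.ofV hu
  have i1 := t1.I0
  have i2 := hu.ID
  have i3 := t1.R1
  have i4 := t1.R2
  refine (val_PU W.toBase (UV.ofV hu)).sound W rfl (Nk := 0) (fun kf hkf hh => ?_) (kok_B hE (by simp [xv]) (by simp [xv]) 0) ?_ ok
  · simp only [cPU, kfB, List.mem_cons, List.not_mem_nil, or_false] at hkf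
    subst hkf
    exact absurd hh (by norm_num)
  · simp only [base, List.forall_mem_cons, List.not_mem_nil, false_imp_iff, implies_true,
      and_true, hld, xv, evg_cons, evg_nil, List.map_cons, List.map_nil, List.cons_append,
      List.nil_append, if_true, if_false, Bool.false_eq_true]
    push_cast
    refine ⟨?_, ?_, ?_, ?_, ?_, ?_, ?_, ?_, ?_, ?_, ?_, ?_, ?_, ?_, ?_, ?_, ?_⟩ <;> linarith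

end Helper25.KG.Pm1_35_1_1_v
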