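import Pool.Agent.Helper25.KG.PL

set_option autoImplicit false
set_option linter.unusedVariables false

namespace Helper25.KG.Pm1_35_m1_0_u_w

open Helper11.CT Helper25.KW Helper25.KG

def base : List Con :=
  [(false,[0,1,0,-1,0,0,0,0,-1]),
  (false,[0,0,2,0,0,0,0,0,-1]),
  (true,[0,0,0,0,1,0,0,-2]),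
  (true,[0,0,0,0,1,0,0,2]),
  (false,[0,0,0,0,0,0,0,0,1,0,-1]),
  (false,[0,0,0,0,0,0,0,0,0,0,1]),
  (true,[0,0,0,0,1,0,-2]),
  (true,[0,0,0,0,1,0,2]),
  (false,[0,0,0,0,0,0,0,0,1,-1]),
  (false,[0,0,0,0,0,0,0,0,0,1]),
  (false,[0,0,0,0,1,0,0,0,-2]),
  (false,[0,0,0,0,0,-1,0,0,1]),
  (true,[0,0,0,0,0,1]),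
  (true,[0,2,-1]),
  (true,[1,-1,1]),
  (true,[0,1,0,1]),
  (true,[0,0,0,-1]),
  (true,[0,0,-2,0,1]),
  (true,[0,-2,0,0,1]),
  (true,[-1,0,1]),
  (true,[-1,1])]

def t0 : Tre :=
  (.Q [0,0,0,0,0,1,0,0,-1,1] (.ed false [0,1,1] .k) (.Q [0,0,0,1,0,0,0,0,1] (.pp false [-1,1]) (.R
  ⟨0,false,false,false,[-1,1,1],[0,1],[0,0,1],(⟨0,[(1,0)]⟩,⟨0,[(18,0),(2,0)]⟩),(⟨0,[(22,0)]⟩,⟨0,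
  [(21,0)]⟩),⟨0,[(18,0)]⟩,(.x 0 ⟨0,[(22,0)]⟩ ⟨3,[(12,0),(0,0),(6,1),(0,3)]⟩),.k,.k,.k,.k,.k,⟨true,0,
  ⟨0,[(26,0)]⟩,⟨0,[(24,0),(0,0)]⟩⟩,⟨false,1,⟨0,[(6,0)]⟩,⟨0,[(18,0),(10,0)]⟩⟩,⟨false,0,⟨0,[(4,0),(19,
  0),(1,0)]⟩,⟨1,[(0,1),(16,0),(2,0)]⟩⟩,⟨true,0,⟨0,[(3,0)]⟩,⟨0,[(2,0)]⟩⟩,⟨false,0,⟨0,[]⟩,⟨0,[]⟩⟩,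
  ⟨false,0,⟨0,[]⟩,⟨0,[]⟩⟩,[.a ⟨true,0,⟨0,[(0,0)]⟩,⟨0,[(26,0)]⟩⟩ ⟨true,0,⟨0,[(29,0)]⟩,⟨0,[]⟩⟩ ⟨false,
  1,⟨1,[(5,1),(11,0),(2,0),(4,1)]⟩,⟨0,[(18,0),(7,0)]⟩⟩,.o ⟨false,1,⟨1,[(0,1),(19,0),(7,0)]⟩,⟨0,[(10,
  0)]⟩⟩,.o ⟨false,0,⟨0,[(18,0)]⟩,⟨0,[(19,0),(0,0)]⟩⟩,.o ⟨false,0,⟨0,[(18,0),(10,0)]⟩,⟨1,[(3,1),(13,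
  0),(2,0)]⟩⟩]⟩) (.R ⟨2,false,false,true,[0,1],[0,0,1],[1,1,0,0,0,0,1],(⟨0,[]⟩,⟨0,[]⟩),(⟨0,[(19,
  0)]⟩,⟨0,[(18,0)]⟩),⟨0,[]⟩,.k,.k,.k,(.r 0 ⟨0,[(0,1),(4,0),(12,0),(2,0),(0,0),(1,1),(0,2)]⟩ ⟨1,[(17,
  0),(8,1),(0,0)]⟩),.k,.k,⟨true,0,⟨0,[]⟩,⟨0,[(29,0)]⟩⟩,⟨false,0,⟨0,[(0,0),(17,0),(5,0),(0,0)]⟩,⟨1,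
  [(5,0),(2,0),(8,0),(9,0)]⟩⟩,⟨false,1,⟨1,[(17,0),(8,1),(0,0)]⟩,⟨0,[(4,0),(19,1),(0,0)]⟩⟩,⟨true,0,
  ⟨0,[(0,0),(1,0)]⟩,⟨0,[(5,0),(19,0)]⟩⟩,⟨false,1,⟨1,[(17,0),(9,0)]⟩,⟨1,[(4,0),(2,0),(16,1),(1,0)]⟩⟩,
  ⟨false,1,⟨1,[(2,1),(17,0),(7,0)]⟩,⟨0,[(5,0)]⟩⟩,[.a ⟨true,0,⟨0,[(2,0)]⟩,⟨0,[(5,0)]⟩⟩ ⟨false,1,⟨7,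
  [(12,0),(0,0),(3,3),(5,3),(3,1)]⟩,⟨0,[(4,0),(19,0)]⟩⟩ ⟨true,0,⟨0,[(0,0),(1,0),(21,0),(0,0)]⟩,⟨0,
  [(5,0)]⟩⟩,.o ⟨false,1,⟨1,[(2,1),(17,0),(7,0)]⟩,⟨0,[(3,0)]⟩⟩,.o ⟨false,1,⟨3,[(12,0),(0,0),(13,1)]⟩,
  ⟨0,[(0,0),(23,0),(0,0)]⟩⟩,.e ⟨false,1,⟨1,[(17,0),(9,0)]⟩,⟨1,[(4,0),(2,0),(16,1),(1,0)]⟩⟩ ⟨false,1,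
  ⟨1,[(2,1),(17,0),(7,0)]⟩,⟨0,[(5,0)]⟩⟩]⟩)) (.I [1,-1,-1,0,0,0,-1] (.Q [0,0,1,0,0,0,0,0,-1,1] (.p
  true [0,0,1] [1] (⟨0,[(19,0)]⟩,⟨0,[(18,0)]⟩) .k 1 (⟨0,[]⟩,⟨0,[]⟩) .k .k) (.Q [0,0,0,-1,0,0,0,0,-1,
  1] (.p true [0,0,1] [1] (⟨0,[(20,0)]⟩,⟨0,[(19,0)]⟩) .k 1 (⟨0,[]⟩,⟨0,[]⟩) .k .k) (.Q [0,-1,-2,0,0,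
  0,-1,0,0,1] (.p true [0,0,1] [] (⟨0,[(21,0)]⟩,⟨0,[(20,0)]⟩) .k 0 (⟨0,[]⟩,⟨0,[]⟩) .k .k) (.Q [0,0,
  0,0,0,-2,0,0,1] (.pp false [-1,1]) (.R ⟨1,false,false,false,[1,-1],[0,0,1],[1,1,-1,-1],(⟨0,[(25,
  0)]⟩,⟨0,[(26,0)]⟩),(⟨0,[(23,0)]⟩,⟨0,[(22,0)]⟩),⟨0,[(0,0)]⟩,.k,.k,(.r (-1) ⟨0,[(30,1),(0,0)]⟩ ⟨0,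
  [(28,1),(0,1)]⟩),(.x (-1) ⟨7,[(0,3),(15,2),(0,2),(6,1)]⟩ ⟨0,[(26,0)]⟩),(.r 0 ⟨0,[(1,0),(12,0),(7,
  0),(7,0)]⟩ ⟨0,[(11,0),(9,0),(6,0),(0,0)]⟩),.k,⟨false,0,⟨0,[(4,0),(22,0),(2,0)]⟩,⟨1,[(21,0),(6,1),
  (0,1),(2,0)]⟩⟩,⟨true,0,⟨0,[(22,0)]⟩,⟨0,[(3,0)]⟩⟩,⟨false,0,⟨0,[]⟩,⟨3,[(16,0),(0,0),(14,1)]⟩⟩,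
  ⟨false,1,⟨1,[(21,0),(0,1),(5,1),(0,1),(2,0)]⟩,⟨0,[(9,0),(4,0)]⟩⟩,⟨true,0,⟨0,[(29,0)]⟩,⟨0,[(30,
  0)]⟩⟩,⟨false,1,⟨0,[(4,0),(16,0),(0,0),(5,1),(0,1)]⟩,⟨0,[(9,0),(4,0),(15,0)]⟩⟩,[.o ⟨false,1,⟨1,[(6,
  1),(17,0),(7,0)]⟩,⟨0,[(7,0)]⟩⟩,.o ⟨false,1,⟨1,[(21,0),(0,1),(1,0),(3,1)]⟩,⟨4,[(7,3),(4,0),(2,0),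
  (11,1)]⟩⟩,.a ⟨true,0,⟨0,[(33,0)]⟩,⟨0,[(1,0),(4,0)]⟩⟩ ⟨true,0,⟨0,[(1,0),(4,0),(7,0)]⟩,⟨0,[(28,0),
  (0,0)]⟩⟩ ⟨false,1,⟨1,[(21,0),(0,1),(9,0)]⟩,⟨3,[(7,1),(1,0),(2,0),(2,1)]⟩⟩,.o ⟨false,0,⟨0,[(15,
  0)]⟩,⟨0,[(31,0)]⟩⟩]⟩) (.R ⟨0,false,false,false,[1,-1],[0,0,1],[0,0,-1,-2],(⟨0,[(25,0)]⟩,⟨0,[(26,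
  0)]⟩),(⟨0,[(23,0)]⟩,⟨0,[(22,0)]⟩),⟨0,[(0,0)]⟩,.k,.k,(.r (-1) ⟨0,[(30,1),(0,0)]⟩ ⟨0,[(28,1),(0,
  1)]⟩),(.x (-1) ⟨3,[(16,0),(0,0),(6,1),(0,3)]⟩ ⟨0,[(26,0)]⟩),.k,.k,⟨false,0,⟨0,[(1,0),(12,0),(7,0),
  (7,0)]⟩,⟨1,[(21,0),(6,1),(0,3),(2,0)]⟩⟩,⟨true,0,⟨0,[(22,0)]⟩,⟨0,[(3,0)]⟩⟩,⟨true,0,⟨0,[(30,0)]⟩,⟨0,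
  [(29,0)]⟩⟩,⟨false,1,⟨1,[(21,0),(0,1),(5,1),(0,1),(2,0)]⟩,⟨0,[(9,0),(4,0)]⟩⟩,⟨false,0,⟨0,[]⟩,⟨0,
  []⟩⟩,⟨false,0,⟨0,[]⟩,⟨0,[]⟩⟩,[.o ⟨false,1,⟨1,[(6,1),(17,0),(7,0)]⟩,⟨0,[(7,0)]⟩⟩,.o ⟨false,1,⟨1,
  [(21,0),(0,1),(1,0),(3,1)]⟩,⟨4,[(7,3),(4,0),(2,0),(11,1)]⟩⟩,.a ⟨true,0,⟨0,[(33,0)]⟩,⟨0,[(1,0),(4,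
  0)]⟩⟩ ⟨true,0,⟨0,[(0,0),(0,0),(0,1),(2,1),(0,0)]⟩,⟨0,[(28,0),(0,1)]⟩⟩ ⟨false,1,⟨1,[(21,0),(0,1),
  (9,0)]⟩,⟨3,[(7,1),(1,0),(2,0),(2,1)]⟩⟩,.o ⟨false,0,⟨0,[(15,0)]⟩,⟨0,[(31,0)]⟩⟩]⟩)) (.Q [0,0,0,1,0,
  0,0,0,1] (.pp false [-1,1]) (.I [0,0,-2,-2,0,0,-1] (.R ⟨1,false,false,false,[1,0,-1],[0,1],[0,0,0,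
  -1,0,0,-1],(⟨0,[(23,0)]⟩,⟨0,[(24,0)]⟩),(⟨0,[(27,0)]⟩,⟨0,[(26,0)]⟩),⟨0,[(6,0)]⟩,.k,.k,(.x (-1) ⟨3,
  [(17,0),(0,0),(6,1),(0,3)]⟩ ⟨0,[(27,0)]⟩),(.x (-1) ⟨3,[(17,0),(0,0),(6,1),(0,3)]⟩ ⟨0,[(27,0)]⟩),
  (.r 0 ⟨0,[(0,0)]⟩ ⟨1,[(1,1),(14,1),(5,0),(7,1),(2,0)]⟩),.k,⟨false,0,⟨0,[(0,0)]⟩,⟨1,[(22,0),(6,1),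
  (0,3),(2,0)]⟩⟩,⟨true,0,⟨0,[(23,0)]⟩,⟨0,[(4,0)]⟩⟩,⟨true,0,⟨0,[(31,0)]⟩,⟨0,[(30,0)]⟩⟩,⟨false,1,⟨1,
  [(22,0),(0,1),(5,1),(0,1),(2,0)]⟩,⟨11,[(0,3),(2,3),(4,5),(1,0),(2,0),(2,1)]⟩⟩,⟨false,1,⟨3,[(17,0),
  (0,0),(14,1)]⟩,⟨0,[]⟩⟩,⟨false,1,⟨0,[(5,0),(16,0),(0,0),(5,1),(0,1)]⟩,⟨5,[(0,3),(2,3),(6,0),(2,0),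
  (2,1)]⟩⟩,[.a ⟨true,0,⟨0,[(1,0)]⟩,⟨0,[(31,0)]⟩⟩ ⟨false,0,⟨2,[(0,1),(11,0)]⟩,⟨1,[(22,0),(7,1),(2,
  0)]⟩⟩ ⟨true,0,⟨0,[(23,0),(5,0),(0,0)]⟩,⟨0,[(3,0)]⟩⟩,.o ⟨false,1,⟨0,[(30,0),(2,0)]⟩,⟨0,[(15,0)]⟩⟩,
  .o ⟨false,1,⟨5,[(4,1),(6,3),(5,0),(0,0)]⟩,⟨0,[(2,0),(2,0)]⟩⟩,.e ⟨false,0,⟨1,[(0,0),(4,0),(23,0)]⟩,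
  ⟨0,[(12,0),(9,0)]⟩⟩ ⟨false,1,⟨0,[(23,0),(6,0),(2,0)]⟩,⟨0,[(3,0)]⟩⟩]⟩) (.R ⟨1,false,false,false,[1,
  0,-1],[0,1],[1,1,0,0,0,0,-1],(⟨0,[(23,0)]⟩,⟨0,[(24,0)]⟩),(⟨0,[(27,0)]⟩,⟨0,[(26,0)]⟩),⟨0,[(6,0)]⟩,
  .k,.k,(.x (-1) ⟨3,[(17,0),(0,0),(6,1),(0,3)]⟩ ⟨0,[(27,0)]⟩),(.x (-1) ⟨3,[(17,0),(0,0),(6,1),(0,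
  3)]⟩ ⟨0,[(27,0)]⟩),(.x 0 ⟨1,[(0,0),(2,1),(0,0),(1,3),(1,0)]⟩ ⟨3,[(17,0),(0,0),(8,7),(4,1)]⟩),.k,
  ⟨false,0,⟨0,[(5,0),(22,0),(2,0)]⟩,⟨7,[(0,3),(16,0),(0,0),(3,1),(10,3)]⟩⟩,⟨true,0,⟨0,[(23,0)]⟩,⟨0,
  [(4,0)]⟩⟩,⟨false,0,⟨0,[]⟩,⟨3,[(17,0),(0,0),(14,1)]⟩⟩,⟨false,1,⟨7,[(0,3),(16,0),(0,0),(3,1),(0,7),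
  (9,3)]⟩,⟨0,[(10,0),(4,0)]⟩⟩,⟨true,0,⟨0,[(30,0)]⟩,⟨0,[(31,0)]⟩⟩,⟨false,1,⟨1,[(0,1),(22,1),(8,0),(0,
  0)]⟩,⟨0,[(10,0),(4,0),(15,0)]⟩⟩,[.a ⟨true,0,⟨0,[(1,0)]⟩,⟨0,[(31,0)]⟩⟩ ⟨false,0,⟨5,[(9,3),(2,0),(0,
  0),(1,0),(7,0),(4,1)]⟩,⟨1,[(22,0),(10,0)]⟩⟩ ⟨true,0,⟨2,[(0,0),(11,0),(10,2)]⟩,⟨0,[(3,0)]⟩⟩,.o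
  ⟨false,1,⟨11,[(0,5),(4,1),(15,1),(10,4),(0,4)]⟩,⟨0,[(15,0)]⟩⟩,.o ⟨false,1,⟨5,[(4,1),(6,3),(5,0),
  (0,0)]⟩,⟨0,[(2,0),(2,0)]⟩⟩,.e ⟨false,0,⟨0,[(9,0)]⟩,⟨2,[(7,0),(8,0),(5,0),(1,0),(8,1)]⟩⟩ ⟨false,1,
  ⟨11,[(0,5),(4,1),(15,1),(1,11),(8,4),(0,4)]⟩,⟨0,[(3,0)]⟩⟩]⟩)) (.R ⟨2,false,false,true,[0,1],[0,0,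
  1],[0,1,1,0,0,0,1],(⟨0,[]⟩,⟨0,[]⟩),(⟨0,[(23,0)]⟩,⟨0,[(22,0)]⟩),⟨0,[]⟩,.k,.k,.k,(.r 0 ⟨0,[(0,1),(4,
  1),(3,0),(13,0),(2,1),(1,1),(0,2)]⟩ ⟨1,[(21,0),(8,1),(0,0)]⟩),.k,.k,⟨true,0,⟨0,[(33,0)]⟩,⟨0,[]⟩⟩,
  ⟨false,0,⟨0,[(1,0),(2,0)]⟩,⟨1,[(9,0),(2,0),(8,0),(9,0)]⟩⟩,⟨false,1,⟨3,[(16,0),(0,0),(3,1),(8,3)]⟩,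
  ⟨0,[(4,0),(23,0),(0,0)]⟩⟩,⟨true,0,⟨0,[(0,0),(5,0)]⟩,⟨0,[(9,0),(19,0)]⟩⟩,⟨false,1,⟨3,[(16,0),(0,0),
  (3,1)]⟩,⟨2,[(4,1),(6,0),(16,0),(1,0)]⟩⟩,⟨false,1,⟨7,[(1,3),(14,0),(0,0),(3,1),(0,3),(1,1),(7,1)]⟩,
  ⟨0,[(9,0)]⟩⟩,[.a ⟨true,0,⟨0,[(6,0)]⟩,⟨0,[(9,0)]⟩⟩ ⟨false,1,⟨3,[(1,0),(10,0),(3,0),(0,0),(3,1),(5,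
  0)]⟩,⟨0,[(4,0)]⟩⟩ ⟨true,0,⟨0,[(1,0)]⟩,⟨0,[(9,0)]⟩⟩,.o ⟨false,1,⟨7,[(1,3),(14,0),(0,0),(3,1),(0,3),
  (1,1),(7,1)]⟩,⟨0,[(7,0)]⟩⟩,.o ⟨false,1,⟨3,[(16,0),(0,0),(13,1)]⟩,⟨0,[(0,0),(27,0),(0,0)]⟩⟩,.e
  ⟨false,1,⟨3,[(16,0),(0,0),(3,1)]⟩,⟨2,[(4,1),(6,0),(16,0),(1,0)]⟩⟩ ⟨false,1,⟨7,[(1,3),(14,0),(0,0),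
  (3,1),(0,3),(1,1),(7,1)]⟩,⟨0,[(9,0)]⟩⟩]⟩))) (.I [0,0,-2,-2,0,0,-1] (.R ⟨1,false,false,false,[1,0,
  -1],[0,1],[0,0,0,-1,0,0,-1],(⟨0,[(21,0)]⟩,⟨0,[(22,0)]⟩),(⟨0,[(25,0)]⟩,⟨0,[(24,0)]⟩),⟨0,[(4,0)]⟩,
  .k,.k,(.x (-1) ⟨3,[(15,0),(0,0),(6,1),(0,3)]⟩ ⟨0,[(25,0)]⟩),(.x (-1) ⟨3,[(15,0),(0,0),(6,1),(0,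
  3)]⟩ ⟨0,[(25,0)]⟩),(.r 0 ⟨0,[(0,0)]⟩ ⟨0,[(10,0),(9,0),(6,0),(0,0)]⟩),.k,⟨false,0,⟨0,[(0,0)]⟩,⟨1,
  [(20,0),(6,1),(0,3),(2,0)]⟩⟩,⟨true,0,⟨0,[(21,0)]⟩,⟨0,[(2,0)]⟩⟩,⟨true,0,⟨0,[(29,0)]⟩,⟨0,[(28,0)]⟩⟩,
  ⟨false,1,⟨5,[(1,3),(3,1),(4,1),(9,2),(6,1),(3,2)]⟩,⟨1,[(0,0),(1,0),(3,0)]⟩⟩,⟨false,1,⟨3,[(15,0),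
  (0,0),(14,1)]⟩,⟨0,[]⟩⟩,⟨false,1,⟨1,[(1,1),(18,0),(6,1),(0,1),(2,0)]⟩,⟨0,[(0,0),(1,0)]⟩⟩,[.e
  ⟨false,0,⟨2,[(0,1),(9,0)]⟩,⟨1,[(20,0),(7,1),(2,0)]⟩⟩ ⟨false,0,⟨0,[(1,0)]⟩,⟨10,[(0,2),(1,3),(6,1),
  (2,4),(0,4),(6,3)]⟩⟩,.o ⟨false,1,⟨0,[(28,0),(2,0)]⟩,⟨0,[(13,0)]⟩⟩,.o ⟨false,1,⟨5,[(2,1),(6,3),(5,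
  0),(0,0)]⟩,⟨0,[(1,0),(11,0),(13,0)]⟩⟩,.a ⟨true,0,⟨0,[(22,0)]⟩,⟨0,[(21,0)]⟩⟩ ⟨false,0,⟨1,[(0,0),(2,
  0),(23,0)]⟩,⟨0,[(10,0),(9,0)]⟩⟩ ⟨true,0,⟨0,[(1,0)]⟩,⟨0,[(13,0),(8,0)]⟩⟩]⟩) (.I [0,0,1,0,0,-2] (.R
  ⟨1,false,false,false,[1,0,-1],[0,1],[1,1,0,0,0,0,-1],(⟨0,[(22,0)]⟩,⟨0,[(23,0)]⟩),(⟨0,[(26,0)]⟩,⟨0,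
  [(25,0)]⟩),⟨0,[(5,0)]⟩,.k,.k,(.x (-1) ⟨7,[(0,3),(15,2),(0,2),(13,1)]⟩ ⟨0,[(26,0)]⟩),(.x (-1) ⟨7,
  [(0,3),(15,2),(0,2),(13,1)]⟩ ⟨0,[(26,0)]⟩),(.x 0 ⟨0,[(0,0)]⟩ ⟨3,[(16,0),(0,0),(8,7),(4,1)]⟩),.k,
  ⟨false,0,⟨0,[(4,0),(22,0),(2,0)]⟩,⟨7,[(1,3),(14,0),(0,0),(3,1),(10,3)]⟩⟩,⟨true,0,⟨0,[(22,0)]⟩,⟨0,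
  [(3,0)]⟩⟩,⟨false,0,⟨0,[]⟩,⟨3,[(16,0),(0,0),(14,1)]⟩⟩,⟨false,1,⟨15,[(1,3),(0,7),(3,7),(9,0),(0,0),
  (3,1),(10,11)]⟩,⟨0,[(9,0),(4,0)]⟩⟩,⟨true,0,⟨0,[(29,0)]⟩,⟨0,[(30,0)]⟩⟩,⟨false,1,⟨7,[(1,3),(0,7),
  (13,0),(0,0),(3,1),(10,3)]⟩,⟨0,[(9,0),(4,0),(15,0)]⟩⟩,[.e ⟨false,0,⟨5,[(8,3),(2,0),(0,0),(1,0),(7,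
  0),(4,1)]⟩,⟨1,[(21,0),(10,0)]⟩⟩ ⟨false,0,⟨0,[(2,0)]⟩,⟨4,[(3,0),(6,1),(2,1),(0,1),(6,0),(8,2)]⟩⟩,
  .o ⟨false,1,⟨5,[(1,1),(0,1),(7,1),(9,0),(11,2)]⟩,⟨0,[(14,0)]⟩⟩,.o ⟨false,1,⟨5,[(3,1),(6,3),(5,0),
  (0,0)]⟩,⟨0,[(2,0),(11,0),(13,0)]⟩⟩,.a ⟨true,0,⟨0,[(23,0)]⟩,⟨0,[(22,0)]⟩⟩ ⟨false,0,⟨0,[(8,0)]⟩,⟨2,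
  [(6,0),(8,0),(5,0),(1,0),(8,1)]⟩⟩ ⟨true,0,⟨0,[(2,0)]⟩,⟨0,[(14,0),(8,0)]⟩⟩]⟩) (.R ⟨0,false,false,
  false,[1,-1],[0,1],[1,0,1,1],(⟨0,[(25,0)]⟩,⟨0,[(26,0)]⟩),(⟨0,[(26,0)]⟩,⟨0,[(25,0)]⟩),⟨1,[(0,1),(0,
  0),(2,0),(9,1),(13,0)]⟩,.k,.k,(.r (-1) ⟨0,[(30,1),(0,0)]⟩ ⟨0,[(1,3),(2,3),(22,1),(2,5)]⟩),(.r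
  (-1) ⟨0,[(30,1),(0,0)]⟩ ⟨0,[(1,3),(2,3),(22,1),(2,5)]⟩),.k,.k,⟨true,0,⟨0,[]⟩,⟨0,[(33,0)]⟩⟩,⟨false,
  1,⟨1,[(0,0),(4,1),(3,1),(11,0),(5,0),(3,0)]⟩,⟨0,[(15,0)]⟩⟩,⟨false,0,⟨5,[(1,4),(2,2),(6,1),(16,
  2)]⟩,⟨0,[(30,1),(0,0)]⟩⟩,⟨true,0,⟨1,[(0,0),(0,1),(3,1),(3,1),(17,0)]⟩,⟨0,[(14,0),(15,0)]⟩⟩,⟨false,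
  0,⟨0,[]⟩,⟨0,[]⟩⟩,⟨false,0,⟨0,[]⟩,⟨0,[]⟩⟩,[.a ⟨true,0,⟨0,[(2,0),(20,0)]⟩,⟨0,[(30,0)]⟩⟩ ⟨true,0,⟨2,
  [(1,0),(9,0)]⟩,⟨0,[(30,0)]⟩⟩ ⟨false,1,⟨1,[(2,1),(6,0),(2,0),(8,0),(9,0)]⟩,⟨0,[(14,0),(13,0)]⟩⟩,.o
  ⟨false,1,⟨5,[(1,1),(0,1),(7,1),(9,0),(11,2)]⟩,⟨0,[(14,0)]⟩⟩,.o ⟨false,0,⟨1,[(1,0),(2,0),(9,1),(13,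
  0)]⟩,⟨3,[(16,0),(0,0),(13,1)]⟩⟩,.o ⟨false,0,⟨0,[(15,0)]⟩,⟨0,[(31,0)]⟩⟩]⟩)))) (.R ⟨2,false,false,
  false,[0,1],[0,1,1],[0,1],(⟨0,[]⟩,⟨0,[]⟩),(⟨0,[(20,0),(2,0)]⟩,⟨0,[(2,0)]⟩),⟨0,[]⟩,.k,(.x 0 ⟨0,
  [(23,0)]⟩ ⟨3,[(13,0),(0,0),(6,1),(0,3)]⟩),.k,.k,(.x (-1) ⟨3,[(13,0),(0,0),(6,1),(0,3)]⟩ ⟨0,[(23,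
  0)]⟩),.k,⟨false,0,⟨1,[(0,1),(5,0),(2,0),(1,1)]⟩,⟨1,[(18,0),(6,1),(0,1),(2,0)]⟩⟩,⟨true,0,⟨0,[(0,0),
  (11,0)]⟩,⟨0,[(20,0)]⟩⟩,⟨true,0,⟨0,[(0,0),(10,0),(8,0)]⟩,⟨0,[(25,0),(0,0)]⟩⟩,⟨false,1,⟨1,[(18,0),
  (0,1),(1,0),(3,1)]⟩,⟨1,[(6,0),(2,0)]⟩⟩,⟨false,1,⟨3,[(13,0),(0,0),(13,1)]⟩,⟨0,[(25,0)]⟩⟩,⟨false,1,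
  ⟨1,[(0,1),(17,0),(2,0),(3,3),(0,1)]⟩,⟨1,[(6,0),(2,0),(17,1)]⟩⟩,[.o ⟨false,1,⟨1,[(18,0),(0,1),(1,
  0),(3,1),(0,1)]⟩,⟨0,[(6,0),(4,0)]⟩⟩,.o ⟨false,1,⟨1,[(0,1),(17,0),(2,0),(3,3),(0,1)]⟩,⟨1,[(6,0),(2,
  0),(1,1)]⟩⟩,.a ⟨true,0,⟨0,[(0,0),(19,0)]⟩,⟨0,[(30,0)]⟩⟩ ⟨true,0,⟨5,[(3,0),(5,0),(2,0),(11,1)]⟩,⟨0,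
  []⟩⟩ ⟨false,1,⟨1,[(18,0),(0,1),(1,0),(3,3),(0,1)]⟩,⟨0,[(0,0),(5,0),(4,0),(8,0)]⟩⟩,.e ⟨false,1,⟨3,
  [(13,0),(0,0),(13,1)]⟩,⟨0,[(25,0)]⟩⟩ ⟨false,1,⟨1,[(0,1),(17,0),(2,0),(3,3),(0,1)]⟩,⟨1,[(6,0),(2,
  0),(17,1)]⟩⟩]⟩)) (.S ⟨1,0,[0,0,1,0,0,0,1],[0,1,1],[0,1,1,0,0,0,1],(⟨0,[(19,0),(2,0)]⟩,⟨0,[(1,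
  0)]⟩),⟨0,[(19,0)]⟩,(.x 0 ⟨0,[(22,0)]⟩ ⟨3,[(12,0),(0,0),(6,1),(0,3)]⟩),.k,⟨false,0,⟨0,[(26,0)]⟩,⟨0,
  [(25,0),(2,0)]⟩⟩,⟨true,0,⟨0,[(26,0)]⟩,⟨0,[(25,0)]⟩⟩,⟨true,0,⟨5,[(2,0),(5,0),(2,0),(11,1)]⟩,⟨0,
  []⟩⟩,⟨false,1,⟨3,[(12,0),(0,0),(14,1)]⟩,⟨0,[]⟩⟩,[.o ⟨false,1,⟨1,[(2,1),(17,0),(7,0)]⟩,⟨0,[(3,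
  0)]⟩⟩,.o ⟨false,1,⟨1,[(17,0),(0,1),(1,0),(3,1)]⟩,⟨4,[(3,3),(4,0),(2,0),(11,1)]⟩⟩,.a ⟨true,0,⟨0,
  [(18,0)]⟩,⟨0,[(19,0)]⟩⟩ ⟨true,0,⟨0,[(0,0)]⟩,⟨0,[(4,0)]⟩⟩ ⟨false,1,⟨0,[(0,0),(27,0)]⟩,⟨0,[(4,0)]⟩⟩,
  .e ⟨false,1,⟨3,[(12,0),(0,0),(3,1)]⟩,⟨0,[(4,0),(19,0)]⟩⟩ ⟨false,1,⟨1,[(17,0),(10,0)]⟩,⟨1,[(4,0),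
  (2,0),(18,0)]⟩⟩]⟩)))

def t1 : Tre :=
  (.Q [0,0,0,1,0,0,0,0,1] (.pp false [-1,1]) (.Q [0,0,0,0,0,1,0,0,-1,1] (.ed false [0,1,1] .k) (.R
  ⟨0,false,false,true,[1,0,-1],[2,-1,-1],[1,0,1],(⟨0,[(20,0)]⟩,⟨0,[(21,0)]⟩),(⟨0,[(20,0),(2,0)]⟩,⟨0,
  [(0,0)]⟩),⟨0,[(0,0)]⟩,.k,(.x (-1) ⟨3,[(14,0),(0,0),(6,1),(0,3)]⟩ ⟨0,[(24,0)]⟩),(.x (-1) ⟨3,[(14,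
  0),(0,0),(6,1),(0,3)]⟩ ⟨0,[(24,0)]⟩),.k,.k,.k,⟨false,1,⟨1,[(1,1),(0,1),(16,0),(10,0)]⟩,⟨0,[(4,0),
  (15,0),(4,0),(2,0)]⟩⟩,⟨true,0,⟨0,[(2,0)]⟩,⟨0,[(16,0),(0,0)]⟩⟩,⟨false,1,⟨1,[(19,0),(10,0),(0,1)]⟩,
  ⟨0,[(6,0)]⟩⟩,⟨true,0,⟨0,[(12,0)]⟩,⟨0,[(1,0)]⟩⟩,⟨false,0,⟨0,[]⟩,⟨0,[]⟩⟩,⟨false,0,⟨0,[]⟩,⟨0,[]⟩⟩,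
  [.o ⟨false,0,⟨0,[(5,0),(6,0)]⟩,⟨1,[(1,1),(1,1),(15,0),(10,0)]⟩⟩,.o ⟨false,0,⟨0,[(4,0),(7,0)]⟩,⟨3,
  [(1,3),(1,3),(10,0),(0,0),(3,1)]⟩⟩,.o ⟨false,1,⟨5,[(8,1),(1,0),(0,0),(7,0),(1,1),(0,1)]⟩,⟨0,[(3,
  0)]⟩⟩,.a ⟨true,0,⟨0,[(21,0)]⟩,⟨0,[(20,0)]⟩⟩ ⟨true,0,⟨0,[]⟩,⟨0,[(32,0)]⟩⟩ ⟨false,0,⟨0,[(4,0),(7,0),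
  (7,0)]⟩,⟨1,[(1,1),(17,0),(10,0),(0,1)]⟩⟩]⟩) (.Q [0,0,0,2,0,0,0,0,1] (.pp false [-1,1]) (.Q [0,0,0,
  0,0,1,0,0,0,-1] (.ed true [1,-1,1] .k) (.I [0,0,-2,-2,0,0,-1] (.R ⟨1,false,false,false,[1,0,-1],
  [0,1],[0,0,0,-1,0,0,-1],(⟨0,[(23,0)]⟩,⟨0,[(24,0)]⟩),(⟨0,[(27,0)]⟩,⟨0,[(26,0)]⟩),⟨0,[(3,0)]⟩,.k,.k,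
  (.x (-1) ⟨3,[(17,0),(0,0),(6,1),(0,3)]⟩ ⟨0,[(27,0)]⟩),(.x (-1) ⟨3,[(17,0),(0,0),(6,1),(0,3)]⟩ ⟨0,
  [(27,0)]⟩),(.r 0 ⟨0,[(0,0)]⟩ ⟨3,[(2,3),(13,3),(0,0),(0,0),(3,1)]⟩),.k,⟨false,0,⟨0,[(0,0)]⟩,⟨7,[(2,
  7),(13,3),(0,0),(0,0),(3,3),(2,1)]⟩⟩,⟨true,0,⟨0,[(23,0)]⟩,⟨0,[(5,0),(18,0)]⟩⟩,⟨true,0,⟨0,[(31,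
  0)]⟩,⟨0,[(30,0)]⟩⟩,⟨false,1,⟨1,[(2,0),(13,0),(5,0),(0,1),(9,0)]⟩,⟨4,[(0,1),(6,0),(0,1),(6,0),(0,
  0),(7,1)]⟩⟩,⟨false,1,⟨3,[(17,0),(0,0),(14,1)]⟩,⟨0,[]⟩⟩,⟨false,1,⟨1,[(2,1),(3,1),(15,0),(10,0)]⟩,
  ⟨2,[(0,1),(6,0),(7,0),(0,0),(7,1),(6,0)]⟩⟩,[.e ⟨false,0,⟨2,[(0,1),(11,0)]⟩,⟨7,[(2,3),(14,0),(0,0),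
  (3,3),(2,1)]⟩⟩ ⟨false,0,⟨1,[(1,0),(0,0),(0,0)]⟩,⟨8,[(0,0),(10,1),(2,2),(0,6),(6,1),(1,3),(8,1)]⟩⟩,
  .o ⟨false,1,⟨7,[(2,3),(14,0),(0,0),(6,1),(7,3)]⟩,⟨0,[(15,0)]⟩⟩,.o ⟨false,1,⟨5,[(11,1),(1,0),(0,0),
  (7,0),(1,1),(0,1)]⟩,⟨0,[(6,0)]⟩⟩,.a ⟨true,0,⟨0,[(24,0)]⟩,⟨0,[(23,0)]⟩⟩ ⟨false,0,⟨3,[(0,1),(0,0),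
  (1,0),(3,0),(2,0),(18,1)]⟩,⟨3,[(2,1),(13,1),(0,0),(0,0),(3,1)]⟩⟩ ⟨true,0,⟨1,[(1,0),(0,0),(0,0)]⟩,
  ⟨0,[(15,0),(8,0)]⟩⟩]⟩) (.R ⟨1,false,false,false,[1,0,-1],[0,1],[1,1,0,0,0,0,-1],(⟨0,[(23,0)]⟩,⟨0,
  [(24,0)]⟩),(⟨0,[(27,0)]⟩,⟨0,[(26,0)]⟩),⟨0,[(3,0)]⟩,.k,.k,(.x (-1) ⟨3,[(17,0),(0,0),(6,1),(0,3)]⟩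
  ⟨0,[(27,0)]⟩),(.x (-1) ⟨3,[(17,0),(0,0),(6,1),(0,3)]⟩ ⟨0,[(27,0)]⟩),(.x 0 ⟨0,[(0,0),(2,0),(3,0),
  (7,0),(10,0),(4,0)]⟩ ⟨3,[(17,0),(0,0),(8,7),(4,1)]⟩),.k,⟨false,0,⟨1,[(1,0),(1,0),(3,0),(2,0),(17,
  1),(2,1)]⟩,⟨7,[(0,3),(16,0),(0,0),(3,1),(10,3)]⟩⟩,⟨true,0,⟨0,[(23,0)]⟩,⟨0,[(5,0),(18,0)]⟩⟩,⟨false,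
  0,⟨0,[]⟩,⟨3,[(17,0),(0,0),(14,1)]⟩⟩,⟨false,1,⟨7,[(0,3),(16,0),(0,0),(3,1),(0,7),(9,3)]⟩,⟨0,[(10,
  0),(4,0)]⟩⟩,⟨true,0,⟨0,[(30,0)]⟩,⟨0,[(31,0)]⟩⟩,⟨false,1,⟨1,[(0,1),(22,1),(8,0),(0,0)]⟩,⟨0,[(10,0),
  (4,0),(15,0)]⟩⟩,[.e ⟨false,0,⟨2,[(6,0),(2,1),(3,0),(14,0)]⟩,⟨1,[(22,0),(10,0)]⟩⟩ ⟨false,0,⟨1,[(1,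
  0),(0,0),(0,0)]⟩,⟨5,[(11,1),(2,1),(0,3),(6,0),(1,1),(6,1),(1,0)]⟩⟩,.o ⟨false,1,⟨7,[(0,1),(1,1),
  (18,0),(3,0),(6,1),(0,3)]⟩,⟨0,[(15,0)]⟩⟩,.o ⟨false,1,⟨5,[(11,1),(1,0),(0,0),(7,0),(1,1),(0,1)]⟩,
  ⟨0,[(6,0)]⟩⟩,.a ⟨true,0,⟨0,[(24,0)]⟩,⟨0,[(23,0)]⟩⟩ ⟨false,0,⟨0,[(9,0)]⟩,⟨1,[(22,0),(10,0),(0,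
  1)]⟩⟩ ⟨true,0,⟨1,[(1,0),(0,0),(0,0)]⟩,⟨0,[(15,0),(8,0)]⟩⟩]⟩)) (.I [0,1,-1,-2] (.S ⟨1,0,[0,0,-1,
  -2],[1,-1],[0,1,-1,-2],(⟨0,[(26,0)]⟩,⟨0,[(27,0)]⟩),⟨0,[(1,0),(1,0)]⟩,.k,(.r (-1) ⟨1,[(0,1),(31,0),
  (0,0)]⟩ ⟨0,[(2,0),(13,0)]⟩),⟨false,0,⟨0,[(31,0)]⟩,⟨7,[(2,3),(14,0),(0,0),(6,1),(7,3)]⟩⟩,⟨true,0,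
  ⟨0,[(31,0)]⟩,⟨0,[(30,0)]⟩⟩,⟨true,0,⟨0,[(35,0)]⟩,⟨0,[]⟩⟩,⟨false,1,⟨3,[(17,0),(0,0),(14,1)]⟩,⟨0,
  []⟩⟩,[.a ⟨true,0,⟨0,[(0,0),(28,0)]⟩,⟨0,[(2,0)]⟩⟩ ⟨true,0,⟨0,[(0,0)]⟩,⟨0,[(2,0),(2,0),(23,0)]⟩⟩
  ⟨false,1,⟨1,[(0,1),(31,0),(0,0)]⟩,⟨0,[(2,0),(2,0)]⟩⟩,.e ⟨false,1,⟨1,[(0,1),(31,0),(0,0)]⟩,⟨0,[(2,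
  0),(2,0)]⟩⟩ ⟨false,1,⟨1,[(0,1),(6,1),(14,0),(0,1),(9,0)]⟩,⟨1,[(2,0),(13,0),(13,1)]⟩⟩,.o ⟨false,0,
  ⟨0,[(5,0)]⟩,⟨3,[(17,0),(0,0),(13,1)]⟩⟩,.o ⟨false,0,⟨0,[(16,0)]⟩,⟨0,[(32,0)]⟩⟩]⟩) (.Q [0,0,0,1,0,0,
  0,0,1,-1] (.p false [0,0,1] [1] (⟨0,[(24,0)]⟩,⟨0,[(23,0)]⟩) .k 1 (⟨0,[]⟩,⟨0,[]⟩) .k .k) (.I [0,0,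
  -2,-2,0,0,-1] (.R ⟨1,false,false,false,[1,0,-1],[0,1],[0,0,0,-1,0,0,-1],(⟨0,[(25,0)]⟩,⟨0,[(26,
  0)]⟩),(⟨0,[(29,0)]⟩,⟨0,[(28,0)]⟩),⟨0,[(5,0)]⟩,.k,.k,(.x (-1) ⟨3,[(19,0),(0,0),(6,1),(0,3)]⟩ ⟨0,
  [(29,0)]⟩),(.x (-1) ⟨3,[(19,0),(0,0),(6,1),(0,3)]⟩ ⟨0,[(29,0)]⟩),(.r 0 ⟨0,[(0,0)]⟩ ⟨3,[(4,3),(13,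
  3),(0,0),(0,0),(3,1)]⟩),.k,⟨false,0,⟨0,[(0,0)]⟩,⟨3,[(2,1),(1,0),(13,0),(0,0),(0,0),(3,1),(7,1)]⟩⟩,
  ⟨true,0,⟨0,[(25,0)]⟩,⟨0,[(7,0),(18,0)]⟩⟩,⟨true,0,⟨0,[(33,0)]⟩,⟨0,[(32,0)]⟩⟩,⟨false,1,⟨11,[(2,3),
  (3,3),(11,3),(0,0),(0,0),(3,5),(0,11),(9,3)]⟩,⟨0,[(12,0),(4,0)]⟩⟩,⟨false,1,⟨3,[(19,0),(0,0),(14,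
  1)]⟩,⟨0,[]⟩⟩,⟨false,1,⟨3,[(2,3),(16,0),(0,0),(3,1),(0,3)]⟩,⟨2,[(0,1),(8,0),(7,0),(0,0),(7,1),(6,
  0)]⟩⟩,[.e ⟨false,0,⟨2,[(0,1),(13,0)]⟩,⟨7,[(4,3),(14,0),(0,0),(3,3),(2,1)]⟩⟩ ⟨false,0,⟨0,[(1,0)]⟩,
  ⟨8,[(0,0),(12,1),(2,2),(0,6),(6,1),(1,3),(8,1)]⟩⟩,.o ⟨false,1,⟨3,[(2,1),(16,0),(0,0),(13,0),(0,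
  0)]⟩,⟨0,[(17,0)]⟩⟩,.o ⟨false,1,⟨5,[(13,1),(1,0),(0,0),(7,0),(1,1),(0,1)]⟩,⟨0,[(8,0)]⟩⟩,.a ⟨true,0,
  ⟨0,[(26,0)]⟩,⟨0,[(25,0)]⟩⟩ ⟨false,0,⟨1,[(0,1),(1,0),(28,0)]⟩,⟨3,[(4,1),(13,1),(0,0),(0,0),(3,
  1)]⟩⟩ ⟨true,0,⟨0,[(1,0)]⟩,⟨0,[(17,0),(8,0)]⟩⟩]⟩) (.R ⟨1,false,false,false,[1,0,-1],[0,1],[1,1,0,0,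
  0,0,-1],(⟨0,[(25,0)]⟩,⟨0,[(26,0)]⟩),(⟨0,[(29,0)]⟩,⟨0,[(28,0)]⟩),⟨0,[(5,0)]⟩,.k,.k,(.x (-1) ⟨3,
  [(19,0),(0,0),(6,1),(0,3)]⟩ ⟨0,[(29,0)]⟩),(.x (-1) ⟨3,[(19,0),(0,0),(6,1),(0,3)]⟩ ⟨0,[(29,0)]⟩),
  (.x 0 ⟨0,[(3,0),(1,0),(1,0)]⟩ ⟨3,[(19,0),(0,0),(8,7),(4,1)]⟩),.k,⟨false,0,⟨0,[(9,0),(15,0),(4,0),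
  (2,0)]⟩,⟨7,[(0,3),(18,0),(0,0),(3,1),(10,3)]⟩⟩,⟨true,0,⟨0,[(25,0)]⟩,⟨0,[(7,0),(18,0)]⟩⟩,⟨false,0,
  ⟨0,[]⟩,⟨3,[(19,0),(0,0),(14,1)]⟩⟩,⟨false,1,⟨7,[(0,3),(18,0),(0,0),(3,1),(0,7),(9,3)]⟩,⟨0,[(12,0),
  (4,0)]⟩⟩,⟨true,0,⟨0,[(32,0)]⟩,⟨0,[(33,0)]⟩⟩,⟨false,1,⟨7,[(0,3),(0,7),(17,0),(0,0),(3,1),(10,3)]⟩,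
  ⟨0,[(12,0),(4,0),(15,0)]⟩⟩,[.e ⟨false,0,⟨2,[(8,0),(2,1),(3,0),(14,0)]⟩,⟨1,[(24,0),(10,0)]⟩⟩
  ⟨false,0,⟨0,[(1,0)]⟩,⟨5,[(13,1),(2,1),(0,3),(6,0),(1,1),(6,1),(1,0)]⟩⟩,.o ⟨false,1,⟨3,[(2,1),(16,
  0),(0,0),(13,0),(0,0)]⟩,⟨0,[(17,0)]⟩⟩,.o ⟨false,1,⟨5,[(13,1),(1,0),(0,0),(7,0),(1,1),(0,1)]⟩,⟨0,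
  [(8,0)]⟩⟩,.a ⟨true,0,⟨0,[(26,0)]⟩,⟨0,[(25,0)]⟩⟩ ⟨false,0,⟨0,[(11,0)]⟩,⟨1,[(24,0),(10,0),(0,1)]⟩⟩
  ⟨true,0,⟨0,[(1,0)]⟩,⟨0,[(17,0),(8,0)]⟩⟩]⟩)) (.R ⟨1,false,false,false,[1,0,-1],[0,1],[1,1,0,0,0,0,
  -1],(⟨0,[(24,0)]⟩,⟨0,[(25,0)]⟩),(⟨0,[(28,0)]⟩,⟨0,[(27,0)]⟩),⟨0,[(4,0)]⟩,.k,.k,(.x (-1) ⟨3,[(18,0),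
  (0,0),(6,1),(0,3)]⟩ ⟨0,[(28,0)]⟩),(.x (-1) ⟨3,[(18,0),(0,0),(6,1),(0,3)]⟩ ⟨0,[(28,0)]⟩),(.x 0 ⟨0,
  [(2,0),(1,0),(1,0)]⟩ ⟨3,[(18,0),(0,0),(8,7),(4,1)]⟩),.k,⟨false,0,⟨0,[(8,0),(15,0),(4,0),(2,0)]⟩,
  ⟨11,[(1,3),(3,3),(11,3),(0,0),(0,0),(3,5),(10,3)]⟩⟩,⟨true,0,⟨0,[(24,0)]⟩,⟨4,[(0,2),(0,0),(15,1),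
  (7,1),(5,0)]⟩⟩,⟨false,0,⟨0,[]⟩,⟨3,[(18,0),(0,0),(14,1)]⟩⟩,⟨false,1,⟨11,[(1,3),(3,3),(11,3),(0,0),
  (0,0),(3,5),(0,11),(9,3)]⟩,⟨0,[(11,0),(4,0)]⟩⟩,⟨true,0,⟨0,[(31,0)]⟩,⟨0,[(32,0)]⟩⟩,⟨false,1,⟨3,[(1,
  3),(16,0),(0,0),(3,1),(0,3)]⟩,⟨0,[(11,0),(4,0),(15,0)]⟩⟩,[.a ⟨true,0,⟨0,[(5,0)]⟩,⟨0,[(32,0)]⟩⟩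
  ⟨false,0,⟨2,[(7,0),(2,1),(3,0),(14,0)]⟩,⟨1,[(23,0),(10,0)]⟩⟩ ⟨true,0,⟨1,[(3,0),(13,0),(6,1)]⟩,⟨0,
  [(0,0)]⟩⟩,.o ⟨false,1,⟨3,[(1,1),(16,0),(0,0),(13,0),(0,0)]⟩,⟨0,[(16,0)]⟩⟩,.o ⟨false,1,⟨5,[(12,1),
  (1,0),(0,0),(7,0),(1,1),(0,1)]⟩,⟨0,[(7,0)]⟩⟩,.e ⟨false,0,⟨0,[(10,0)]⟩,⟨1,[(23,0),(10,0),(0,1)]⟩⟩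
  ⟨false,1,⟨3,[(1,1),(16,0),(0,0),(4,3),(8,0),(0,0)]⟩,⟨0,[(0,0)]⟩⟩]⟩)))) (.R ⟨2,false,false,false,
  [0,1],[1,-1],[],(⟨0,[]⟩,⟨0,[]⟩),(⟨0,[(24,0)]⟩,⟨0,[(25,0)]⟩),⟨0,[]⟩,.k,.k,.k,(.r 0 ⟨0,[(2,1),(0,
  1)]⟩ ⟨0,[(29,1),(0,0)]⟩),.k,.k,⟨true,0,⟨0,[(2,0),(0,0)]⟩,⟨0,[(29,0)]⟩⟩,⟨false,0,⟨0,[(3,0)]⟩,⟨1,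
  [(8,0),(2,0),(8,0),(0,1),(8,0)]⟩⟩,⟨false,1,⟨1,[(29,1),(0,0),(0,0)]⟩,⟨0,[(2,0),(0,0)]⟩⟩,⟨true,0,⟨0,
  [(0,0)]⟩,⟨0,[(2,0),(25,0)]⟩⟩,⟨false,1,⟨1,[(30,0),(0,0)]⟩,⟨0,[(32,0)]⟩⟩,⟨false,1,⟨7,[(0,3),(14,0),
  (0,0),(6,1),(7,3)]⟩,⟨0,[(2,0)]⟩⟩,[.a ⟨true,0,⟨0,[(29,0)]⟩,⟨0,[(2,0)]⟩⟩ ⟨false,1,⟨3,[(15,0),(0,0),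
  (13,1)]⟩,⟨0,[]⟩⟩ ⟨true,0,⟨1,[(0,0),(13,0)]⟩,⟨0,[(2,0)]⟩⟩,.o ⟨false,1,⟨7,[(0,3),(14,0),(0,0),(6,1),
  (7,3)]⟩,⟨0,[(28,0)]⟩⟩,.o ⟨false,1,⟨3,[(15,0),(0,0),(13,1)]⟩,⟨0,[(3,0)]⟩⟩,.e ⟨false,1,⟨1,[(30,0),
  (0,0)]⟩,⟨0,[(32,0)]⟩⟩ ⟨false,1,⟨7,[(0,3),(14,0),(0,0),(6,1),(7,3)]⟩,⟨0,[(2,0)]⟩⟩]⟩))) (.Q [0,0,0,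
  0,0,-1,0,0,1,-1] (.ed true [0,1,1] .k) (.I [0,0,-2,-2,0,0,-1] (.R ⟨1,false,false,true,[1,0,-1],[0,
  1],[0,1,0,-1,0,0,-1],(⟨0,[(21,0)]⟩,⟨0,[(22,0)]⟩),(⟨0,[(25,0)]⟩,⟨0,[(24,0)]⟩),⟨0,[(1,0)]⟩,.k,.k,
  (.x (-1) ⟨3,[(15,0),(0,0),(6,1),(0,3)]⟩ ⟨0,[(25,0)]⟩),(.x (-1) ⟨3,[(15,0),(0,0),(6,1),(0,3)]⟩ ⟨0,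
  [(25,0)]⟩),(.r 0 ⟨0,[(0,0)]⟩ ⟨0,[(10,0),(9,0),(6,0),(0,0)]⟩),.k,⟨false,0,⟨0,[(0,0)]⟩,⟨1,[(20,0),
  (6,1),(0,3),(2,0)]⟩⟩,⟨true,0,⟨0,[(21,0)]⟩,⟨0,[(3,0),(18,0)]⟩⟩,⟨false,0,⟨0,[(29,0)]⟩,⟨0,[(28,0),(2,
  0)]⟩⟩,⟨false,1,⟨0,[(10,0),(9,0),(0,0)]⟩,⟨0,[(2,0),(5,0)]⟩⟩,⟨true,0,⟨0,[(33,0)]⟩,⟨0,[]⟩⟩,⟨false,1,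
  ⟨1,[(20,0),(0,1),(5,1),(0,3),(2,0)]⟩,⟨0,[(2,0),(5,0),(20,0)]⟩⟩,[.o ⟨false,0,⟨0,[(28,0)]⟩,⟨0,[(13,
  0),(17,0)]⟩⟩,.o ⟨false,1,⟨3,[(15,0),(0,0),(11,3),(2,1)]⟩,⟨0,[(2,0)]⟩⟩,.o ⟨false,1,⟨5,[(9,1),(1,0),
  (0,0),(7,0),(1,1),(0,1)]⟩,⟨0,[(4,0)]⟩⟩,.a ⟨true,0,⟨0,[(22,0)]⟩,⟨0,[(21,0)]⟩⟩ ⟨false,0,⟨2,[(0,1),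
  (9,0)]⟩,⟨1,[(20,0),(6,1),(0,1),(2,0)]⟩⟩ ⟨true,0,⟨0,[(21,0),(6,0)]⟩,⟨0,[(2,0),(19,0)]⟩⟩]⟩) (.Q [0,
  0,0,0,0,2,0,0,-1,1] (.p true [0,0,1] [1] (⟨0,[(22,0)]⟩,⟨0,[(21,0)]⟩) .k 1 (⟨0,[]⟩,⟨0,[]⟩) .k .k)
  (.R ⟨0,false,false,false,[1,-1,-1],[1,-1],[0,1,-1,-1,0,0,-1],(⟨0,[(2,0)]⟩,⟨1,[(0,0),(17,0),(0,0),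
  (3,0)]⟩),(⟨0,[(25,0)]⟩,⟨0,[(26,0)]⟩),⟨0,[(0,0)]⟩,(.x (-1) ⟨3,[(16,0),(0,0),(6,1),(0,3)]⟩ ⟨0,[(26,
  0)]⟩),.k,(.x 0 ⟨1,[(1,0),(0,0),(0,0),(0,0),(1,0),(7,0),(10,2)]⟩ ⟨3,[(0,3),(15,0),(0,0),(4,3),(8,
  1)]⟩),.k,.k,.k,⟨false,0,⟨2,[(5,0),(2,1),(3,0),(14,0)]⟩,⟨1,[(21,0),(10,0)]⟩⟩,⟨true,0,⟨0,[(5,0)]⟩,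
  ⟨0,[(23,0)]⟩⟩,⟨true,0,⟨0,[(34,0)]⟩,⟨0,[]⟩⟩,⟨false,1,⟨1,[(5,1),(15,0),(10,0)]⟩,⟨1,[(9,0),(2,0)]⟩⟩,
  ⟨false,0,⟨0,[]⟩,⟨0,[]⟩⟩,⟨false,0,⟨0,[]⟩,⟨0,[]⟩⟩,[.o ⟨false,0,⟨0,[(3,0)]⟩,⟨7,[(1,3),(14,0),(0,0),
  (2,1),(10,3)]⟩⟩,.o ⟨false,1,⟨0,[(14,0),(17,0)]⟩,⟨0,[(29,0)]⟩⟩,.a ⟨true,0,⟨0,[(23,0)]⟩,⟨0,[(22,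
  0)]⟩⟩ ⟨false,0,⟨0,[(8,0),(21,0)]⟩,⟨7,[(1,3),(14,0),(0,0),(3,1),(10,3)]⟩⟩ ⟨true,0,⟨0,[(3,0),(18,
  0)]⟩,⟨0,[(23,0),(5,0)]⟩⟩,.o ⟨false,0,⟨0,[(4,0),(18,0)]⟩,⟨1,[(22,1),(1,0),(6,0)]⟩⟩]⟩) (.R ⟨1,false,
  false,false,[1,-1,-1],[1,-1],[0,0,-1,-2,0,0,-1],(⟨0,[(2,0)]⟩,⟨0,[(23,0),(2,0)]⟩),(⟨0,[(25,0)]⟩,⟨0,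
  [(26,0)]⟩),⟨0,[(0,0)]⟩,(.x (-1) ⟨3,[(16,0),(0,0),(6,1),(0,3)]⟩ ⟨0,[(26,0)]⟩),.k,(.x 0 ⟨0,[(0,0),
  (3,0),(18,0)]⟩ ⟨3,[(16,0),(0,0),(8,7),(4,1)]⟩),.k,(.x (-1) ⟨3,[(16,0),(0,0),(6,1),(0,3)]⟩ ⟨0,[(26,
  0)]⟩),.k,⟨false,0,⟨0,[(8,0),(21,0)]⟩,⟨7,[(1,3),(14,0),(0,0),(3,1),(9,3)]⟩⟩,⟨true,0,⟨0,[(5,0)]⟩,⟨0,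
  [(23,0)]⟩⟩,⟨true,0,⟨0,[(30,0)]⟩,⟨0,[(29,0)]⟩⟩,⟨false,1,⟨1,[(5,1),(15,0),(10,0)]⟩,⟨1,[(9,0),(2,
  0)]⟩⟩,⟨false,1,⟨3,[(16,0),(0,0),(14,1)]⟩,⟨0,[]⟩⟩,⟨false,1,⟨3,[(1,1),(3,1),(0,1),(14,1),(0,3),(1,
  0),(7,0)]⟩,⟨1,[(9,0),(2,0),(17,1)]⟩⟩,[.o ⟨false,0,⟨0,[(3,0)]⟩,⟨7,[(1,3),(14,0),(0,0),(2,1),(10,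
  3)]⟩⟩,.o ⟨false,1,⟨0,[(14,0),(17,0)]⟩,⟨0,[(29,0)]⟩⟩,.a ⟨true,0,⟨0,[(23,0)]⟩,⟨0,[(22,0)]⟩⟩ ⟨false,
  0,⟨0,[(3,0),(5,0),(12,0),(7,0)]⟩,⟨3,[(1,3),(14,0),(0,0),(13,1)]⟩⟩ ⟨true,0,⟨0,[(3,0),(18,0)]⟩,⟨0,
  [(23,0),(5,0)]⟩⟩,.o ⟨false,0,⟨0,[(4,0),(18,0)]⟩,⟨1,[(22,1),(1,0),(6,0)]⟩⟩]⟩))) (.I [0,0,-2,-1,0,0,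
  -1] (.R ⟨0,false,false,true,[1,0,-1],[0,1],[0,1,0,0,0,0,-1],(⟨0,[(21,0)]⟩,⟨0,[(22,0)]⟩),(⟨0,[(25,
  0)]⟩,⟨0,[(24,0)]⟩),⟨0,[(1,0)]⟩,.k,.k,(.x (-1) ⟨3,[(15,0),(0,0),(6,1),(0,3)]⟩ ⟨0,[(25,0)]⟩),(.x
  (-1) ⟨3,[(15,0),(0,0),(6,1),(0,3)]⟩ ⟨0,[(25,0)]⟩),.k,.k,⟨false,0,⟨0,[(0,0)]⟩,⟨0,[(10,0),(9,0)]⟩⟩,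
  ⟨true,0,⟨0,[(21,0)]⟩,⟨0,[(3,0),(18,0)]⟩⟩,⟨true,0,⟨0,[(33,0)]⟩,⟨0,[]⟩⟩,⟨false,1,⟨0,[(10,0),(9,0),
  (0,0)]⟩,⟨0,[(2,0),(5,0)]⟩⟩,⟨false,0,⟨0,[]⟩,⟨0,[]⟩⟩,⟨false,0,⟨0,[]⟩,⟨0,[]⟩⟩,[.o ⟨false,0,⟨0,[(28,
  0)]⟩,⟨0,[(13,0),(17,0)]⟩⟩,.o ⟨false,1,⟨3,[(15,0),(0,0),(11,3),(2,1)]⟩,⟨0,[(2,0)]⟩⟩,.o ⟨false,1,⟨5,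
  [(9,1),(1,0),(0,0),(7,0),(1,1),(0,1)]⟩,⟨0,[(4,0)]⟩⟩,.a ⟨true,0,⟨0,[(22,0)]⟩,⟨0,[(21,0)]⟩⟩ ⟨false,
  0,⟨0,[(7,0)]⟩,⟨1,[(20,0),(10,0),(0,1)]⟩⟩ ⟨true,0,⟨0,[(21,0),(6,0)]⟩,⟨0,[(2,0),(19,0)]⟩⟩]⟩) (.I [0,
  0,1,1,0,0,0,1] (.Q [0,1,0,0,0,0,0,-1,1,0,-1] (.p false [0,0,0,1] [1] (⟨0,[(19,0)]⟩,⟨0,[(18,0)]⟩)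
  .k 1 (⟨0,[]⟩,⟨0,[]⟩) .k .k) (.Q [0,0,0,0,0,-1,0,0,1,0,-1] (.ed true [0,1,0,1] .k) (.K ⟨0,[1,-1,0,
  -1],0,0,(⟨0,[(0,0)]⟩,⟨0,[(21,0),(6,0)]⟩),(.r (-1) ⟨1,[(18,0),(13,1),(0,0)]⟩ ⟨0,[(2,0)]⟩),(.r (-1)
  ⟨1,[(1,1),(3,3),(5,1),(9,1),(1,0),(0,1),(8,0)]⟩ ⟨3,[(2,3),(0,1),(4,0),(4,0),(10,0),(6,0)]⟩),.k,.k,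
  .k,[⟨0,[(1,0)]⟩,⟨0,[(2,0),(2,0),(15,0),(8,0)]⟩,⟨1,[(1,0),(0,0),(17,0),(8,0),(1,0)]⟩,⟨0,[(5,0),(15,
  0)]⟩]⟩) (.K ⟨0,[-1,1,0,1],0,0,(⟨0,[(0,0)]⟩,⟨0,[(20,0),(6,0)]⟩),(.r 0 ⟨0,[(2,0)]⟩ ⟨1,[(18,0),(13,
  1),(0,0)]⟩),.k,(.r 0 ⟨3,[(2,3),(0,1),(4,0),(4,0),(10,0),(6,0)]⟩ ⟨1,[(1,1),(3,3),(5,1),(9,1),(1,0),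
  (0,1),(8,0)]⟩),.k,.k,[⟨0,[(2,0),(2,0),(15,0),(8,0)]⟩,⟨0,[(1,0)]⟩,⟨0,[(5,0),(15,0)]⟩,⟨1,[(1,0),(0,
  0),(17,0),(8,0),(1,0)]⟩]⟩)) (.R ⟨2,false,false,true,[0,1],[1,0,0,-1],[1,1,0,0,0,0,0,-1],(⟨0,[]⟩,
  ⟨0,[]⟩),(⟨0,[(19,0)]⟩,⟨0,[(20,0)]⟩),⟨0,[]⟩,.k,.k,.k,(.r 0 ⟨0,[(1,0)]⟩ ⟨1,[(17,0),(13,1),(0,0)]⟩),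
  .k,.k,⟨true,0,⟨0,[]⟩,⟨0,[(34,0)]⟩⟩,⟨false,0,⟨0,[(0,0)]⟩,⟨7,[(17,4),(0,0),(0,7),(8,3),(3,1)]⟩⟩,
  ⟨false,1,⟨1,[(17,0),(13,1),(0,0)]⟩,⟨1,[(0,0),(0,0),(0,0),(4,0),(11,0),(3,0)]⟩⟩,⟨true,0,⟨0,[(4,0),
  (15,0)]⟩,⟨0,[(19,0),(10,0)]⟩⟩,⟨false,1,⟨1,[(17,0),(14,0)]⟩,⟨1,[(0,0),(0,0),(17,0),(9,0),(1,0)]⟩⟩,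
  ⟨false,1,⟨1,[(20,1),(4,0),(7,0)]⟩,⟨0,[(19,0)]⟩⟩,[.a ⟨true,0,⟨0,[(20,0)]⟩,⟨0,[(19,0)]⟩⟩ ⟨false,1,
  ⟨7,[(17,4),(0,0),(9,3),(3,1)]⟩,⟨0,[(0,0),(18,0)]⟩⟩ ⟨true,0,⟨0,[(5,0),(14,0)]⟩,⟨0,[(19,0)]⟩⟩,.o
  ⟨false,1,⟨1,[(20,1),(4,0),(7,0)]⟩,⟨0,[(4,0),(14,0),(10,0)]⟩⟩,.o ⟨false,1,⟨3,[(17,0),(0,0),(13,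
  1)]⟩,⟨0,[(5,0)]⟩⟩,.e ⟨false,1,⟨1,[(17,0),(14,0)]⟩,⟨1,[(0,0),(0,0),(17,0),(9,0),(1,0)]⟩⟩ ⟨false,1,
  ⟨1,[(20,1),(4,0),(7,0)]⟩,⟨0,[(19,0)]⟩⟩]⟩)) (.R ⟨2,false,false,true,[0,1],[1,0,0,-1],[0,1,1,0,0,0,
  0,-1],(⟨0,[]⟩,⟨0,[]⟩),(⟨0,[(18,0)]⟩,⟨0,[(19,0)]⟩),⟨0,[]⟩,.k,.k,.k,(.x 0 ⟨0,[(0,0),(25,0),(2,0)]⟩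
  ⟨1,[(4,1),(12,0),(7,1),(6,0)]⟩),.k,.k,⟨true,0,⟨0,[(33,0)]⟩,⟨0,[]⟩⟩,⟨false,1,⟨1,[(5,1),(0,1),(10,
  0),(1,1),(1,0)]⟩,⟨0,[(0,0),(17,0),(10,0)]⟩⟩,⟨false,0,⟨0,[(0,0),(32,0)]⟩,⟨3,[(1,1),(4,3),(10,1),(3,
  0),(0,3),(6,1),(2,0)]⟩⟩,⟨true,0,⟨0,[(3,0),(15,0)]⟩,⟨0,[(18,0),(10,0)]⟩⟩,⟨false,0,⟨3,[(0,3),(0,1),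
  (4,0),(4,0),(10,0),(6,0)]⟩,⟨1,[(17,0),(14,0)]⟩⟩,⟨false,1,⟨1,[(19,1),(4,0),(7,0)]⟩,⟨0,[(18,0)]⟩⟩,
  [.a ⟨true,0,⟨0,[(19,0)]⟩,⟨0,[(18,0)]⟩⟩ ⟨false,0,⟨1,[(0,1),(0,0),(9,0),(15,0)]⟩,⟨1,[(6,1),(10,0),
  (3,0),(0,1)]⟩⟩ ⟨true,0,⟨0,[(4,0),(14,0)]⟩,⟨0,[(18,0)]⟩⟩,.o ⟨false,1,⟨1,[(19,1),(4,0),(7,0)]⟩,⟨0,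
  [(3,0),(14,0),(10,0)]⟩⟩,.o ⟨false,1,⟨3,[(16,0),(0,0),(13,1)]⟩,⟨0,[(4,0)]⟩⟩,.e ⟨false,0,⟨3,[(0,3),
  (0,1),(4,0),(4,0),(10,0),(6,0)]⟩,⟨1,[(17,0),(14,0)]⟩⟩ ⟨false,1,⟨1,[(19,1),(4,0),(7,0)]⟩,⟨0,[(18,
  0)]⟩⟩]⟩)))))

def t2 : Tre :=
  (.Q [0,1,1,0,0,0,1,0,0,-1] (.p false [0,0,1] [] (⟨0,[(13,0)]⟩,⟨0,[(12,0)]⟩) .k 0 (⟨0,[]⟩,⟨0,[]⟩)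
  .k .k) (.K ⟨0,[0,0,1],0,0,(⟨0,[(14,0)]⟩,⟨0,[(13,0)]⟩),.k,(.x 0 ⟨0,[(6,0),(9,0)]⟩ ⟨0,[(17,0),(4,
  0)]⟩),(.x 0 ⟨0,[(17,0)]⟩ ⟨3,[(7,0),(0,0),(6,1),(0,3)]⟩),.k,.k,[⟨0,[(14,0)]⟩,⟨0,[(6,0),(6,0)]⟩,⟨0,
  [(3,0)]⟩,⟨0,[(0,0)]⟩]⟩) (.I [0,0,-1,0,0,0,-1] (.Q [0,0,-1,0,0,0,-1,0,-1,1] (.p true [0,0,1] [1]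
  (⟨0,[(15,0)]⟩,⟨0,[(14,0)]⟩) .k 1 (⟨0,[]⟩,⟨0,[]⟩) .k .k) (.Q [0,1,1,0,0,0,1,0,1,-1] (.p false [0,0,
  1] [1] (⟨0,[(16,0)]⟩,⟨0,[(15,0)]⟩) .k 1 (⟨0,[]⟩,⟨0,[]⟩) .k .k) t0 (.Q [0,0,1,0,0,0,0,0,0,-1] (.p
  false [0,0,1] [] (⟨0,[(17,0)]⟩,⟨0,[(16,0)]⟩) .k 0 (⟨0,[]⟩,⟨0,[]⟩) .k .k) (.Q [0,0,-1,0,0,0,0,0,1]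
  (.pp false [-1,1]) (.Q [0,0,0,0,0,-1,0,0,1,-1] (.ed true [0,1,1] .k) (.R ⟨2,false,false,true,[0,
  1],[0,1,1],[0,1],(⟨0,[]⟩,⟨0,[]⟩),(⟨0,[(20,0),(2,0)]⟩,⟨0,[(0,0)]⟩),⟨0,[]⟩,.k,(.x 0 ⟨0,[(23,0)]⟩ ⟨3,
  [(13,0),(0,0),(6,1),(0,3)]⟩),.k,.k,(.x (-1) ⟨3,[(13,0),(0,0),(6,1),(0,3)]⟩ ⟨0,[(23,0)]⟩),.k,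
  ⟨false,0,⟨0,[(1,0),(1,0),(7,0),(7,0)]⟩,⟨0,[(8,0),(9,0)]⟩⟩,⟨true,0,⟨0,[(2,0)]⟩,⟨0,[(20,0)]⟩⟩,⟨true,
  0,⟨0,[(1,0),(9,0)]⟩,⟨0,[(25,0),(0,0)]⟩⟩,⟨false,1,⟨3,[(2,3),(10,0),(0,0),(3,1)]⟩,⟨0,[(6,0)]⟩⟩,
  ⟨false,1,⟨3,[(13,0),(0,0),(13,1)]⟩,⟨0,[(25,0)]⟩⟩,⟨false,1,⟨1,[(2,1),(15,0),(7,1),(2,0)]⟩,⟨0,[(6,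
  0),(20,0)]⟩⟩,[.o ⟨false,1,⟨3,[(2,3),(10,0),(0,0),(3,1),(7,3)]⟩,⟨0,[(3,0),(23,0)]⟩⟩,.o ⟨false,1,⟨1,
  [(2,1),(15,0),(7,1),(2,0)]⟩,⟨0,[(6,0),(4,0)]⟩⟩,.a ⟨true,0,⟨0,[(1,0)]⟩,⟨0,[(30,0)]⟩⟩ ⟨true,0,⟨0,
  [(31,0)]⟩,⟨0,[]⟩⟩ ⟨false,1,⟨0,[(2,0),(5,0),(9,0)]⟩,⟨0,[(1,0),(1,0),(23,0)]⟩⟩,.e ⟨false,1,⟨3,[(13,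
  0),(0,0),(13,1)]⟩,⟨0,[(25,0)]⟩⟩ ⟨false,1,⟨1,[(2,1),(15,0),(7,1),(2,0)]⟩,⟨0,[(6,0),(20,0)]⟩⟩]⟩)
  (.Q [0,0,0,1,0,0,0,0,1,-1] (.p false [0,0,1] [1] (⟨0,[(20,0)]⟩,⟨0,[(19,0)]⟩) .k 1 (⟨0,[]⟩,⟨0,[]⟩)
  .k .k) (.Q [0,0,1,0,0,0,0,0,-1,1] (.p true [0,0,1] [1] (⟨0,[(21,0)]⟩,⟨0,[(20,0)]⟩) .k 1 (⟨0,[]⟩,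
  ⟨0,[]⟩) .k .k) (.R ⟨0,false,false,false,[1,0,-1],[0,1],[0,1,0,0,0,0,-1],(⟨0,[(21,0)]⟩,⟨0,[(22,
  0)]⟩),(⟨0,[(25,0)]⟩,⟨0,[(24,0)]⟩),⟨0,[(2,0)]⟩,.k,.k,(.x (-1) ⟨3,[(15,0),(0,0),(6,1),(0,3)]⟩ ⟨0,
  [(25,0)]⟩),(.x (-1) ⟨3,[(15,0),(0,0),(6,1),(0,3)]⟩ ⟨0,[(25,0)]⟩),.k,.k,⟨false,0,⟨0,[(3,0),(3,0),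
  (5,0)]⟩,⟨1,[(20,0),(6,1),(0,1),(2,0)]⟩⟩,⟨true,0,⟨0,[(21,0)]⟩,⟨0,[(0,0)]⟩⟩,⟨true,0,⟨0,[(33,0)]⟩,⟨0,
  []⟩⟩,⟨false,1,⟨1,[(1,1),(18,0),(10,0),(0,1)]⟩,⟨0,[(8,0),(4,0)]⟩⟩,⟨false,0,⟨0,[]⟩,⟨0,[]⟩⟩,⟨false,0,
  ⟨0,[]⟩,⟨0,[]⟩⟩,[.e ⟨false,0,⟨2,[(4,0),(2,1),(3,0),(14,0)]⟩,⟨1,[(20,0),(10,0)]⟩⟩ ⟨false,0,⟨0,[(1,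
  0)]⟩,⟨4,[(0,0),(8,1),(2,1),(0,1),(6,0),(8,2)]⟩⟩,.o ⟨false,1,⟨0,[(28,0),(2,0)]⟩,⟨0,[(13,0)]⟩⟩,.o
  ⟨false,1,⟨5,[(0,1),(8,3),(5,0),(0,0)]⟩,⟨0,[(4,0)]⟩⟩,.a ⟨true,0,⟨0,[(22,0)]⟩,⟨0,[(21,0)]⟩⟩ ⟨false,
  0,⟨0,[(7,0)]⟩,⟨1,[(20,0),(10,0),(0,1)]⟩⟩ ⟨true,0,⟨0,[(1,0)]⟩,⟨0,[(13,0),(8,0)]⟩⟩]⟩) (.R ⟨0,false,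
  false,false,[1,0,-1],[0,1,-1],[1,0,1],(⟨0,[(21,0)]⟩,⟨0,[(22,0)]⟩),(⟨0,[(0,0),(1,0),(1,0)]⟩,⟨0,
  [(22,0),(1,0)]⟩),⟨0,[(2,0)]⟩,.k,(.r 0 ⟨0,[(0,0),(4,0),(22,0),(3,2)]⟩ ⟨1,[(20,0),(8,1),(0,0)]⟩),
  (.x (-1) ⟨3,[(15,0),(0,0),(6,1),(0,3)]⟩ ⟨0,[(25,0)]⟩),.k,.k,.k,⟨false,1,⟨1,[(20,0),(8,1),(0,0)]⟩,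
  ⟨1,[(1,0),(4,0),(3,0)]⟩⟩,⟨true,0,⟨0,[(3,0)]⟩,⟨0,[(14,0)]⟩⟩,⟨false,1,⟨1,[(20,0),(10,0),(0,1)]⟩,⟨0,
  [(7,0)]⟩⟩,⟨true,0,⟨0,[(1,0),(20,0)]⟩,⟨0,[(13,0)]⟩⟩,⟨false,0,⟨0,[]⟩,⟨0,[]⟩⟩,⟨false,0,⟨0,[]⟩,⟨0,
  []⟩⟩,[.o ⟨false,0,⟨0,[(8,0),(19,0)]⟩,⟨1,[(4,1),(8,1),(6,0),(10,0)]⟩⟩,.o ⟨false,0,⟨0,[(1,0),(3,0),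
  (16,0)]⟩,⟨3,[(4,3),(8,3),(1,0),(0,0),(3,1)]⟩⟩,.o ⟨false,1,⟨5,[(9,1),(1,0),(0,0),(7,0),(1,1),(0,
  1)]⟩,⟨0,[(4,0)]⟩⟩,.a ⟨true,0,⟨0,[(22,0)]⟩,⟨0,[(21,0)]⟩⟩ ⟨true,0,⟨0,[]⟩,⟨0,[(33,0)]⟩⟩ ⟨false,0,⟨0,
  [(1,0),(6,0)]⟩,⟨7,[(13,3),(0,3),(0,0),(0,0),(3,3),(8,3),(1,1)]⟩⟩]⟩)) (.R ⟨0,false,false,false,[1,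
  0,-1],[0,1],[0,1,0,0,0,0,-1],(⟨0,[(20,0)]⟩,⟨0,[(21,0)]⟩),(⟨0,[(24,0)]⟩,⟨0,[(23,0)]⟩),⟨0,[(1,0)]⟩,
  .k,.k,(.x (-1) ⟨3,[(14,0),(0,0),(6,1),(0,3)]⟩ ⟨0,[(24,0)]⟩),(.x (-1) ⟨3,[(14,0),(0,0),(6,1),(0,
  3)]⟩ ⟨0,[(24,0)]⟩),.k,.k,⟨false,0,⟨0,[(2,0),(3,0),(5,0)]⟩,⟨1,[(19,0),(6,1),(0,1),(2,0)]⟩⟩,⟨true,0,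
  ⟨0,[(20,0)]⟩,⟨0,[(0,0),(25,0),(0,0)]⟩⟩,⟨true,0,⟨0,[(32,0)]⟩,⟨0,[]⟩⟩,⟨false,1,⟨1,[(19,0),(0,1),(5,
  1),(0,1),(2,0)]⟩,⟨0,[(7,0),(4,0)]⟩⟩,⟨false,0,⟨0,[]⟩,⟨0,[]⟩⟩,⟨false,0,⟨0,[]⟩,⟨0,[]⟩⟩,[.a ⟨true,0,
  ⟨0,[(2,0),(23,0),(0,0)]⟩,⟨0,[(28,0)]⟩⟩ ⟨false,0,⟨2,[(3,0),(2,1),(3,0),(14,0)]⟩,⟨1,[(19,0),(10,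
  0)]⟩⟩ ⟨true,0,⟨0,[(20,0),(5,0),(0,0)]⟩,⟨0,[(0,0)]⟩⟩,.o ⟨false,1,⟨0,[(27,0),(2,0)]⟩,⟨0,[(12,0)]⟩⟩,
  .o ⟨false,1,⟨5,[(8,1),(1,0),(0,0),(7,0),(1,1),(0,1)]⟩,⟨0,[(3,0)]⟩⟩,.e ⟨false,0,⟨0,[(6,0)]⟩,⟨1,
  [(19,0),(10,0),(0,1)]⟩⟩ ⟨false,1,⟨0,[(20,0),(6,0),(2,0)]⟩,⟨0,[(0,0)]⟩⟩]⟩))) t1) (.R ⟨2,false,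
  false,true,[0,1],[0,0,1],[0,1],(⟨0,[]⟩,⟨0,[]⟩),(⟨0,[(18,0)]⟩,⟨0,[(17,0)]⟩),⟨0,[]⟩,.k,.k,.k,(.r 0
  ⟨0,[(1,0),(15,0),(6,0),(3,1)]⟩ ⟨1,[(16,0),(8,1),(0,0)]⟩),.k,.k,⟨false,0,⟨0,[(3,0)]⟩,⟨3,[(11,0),(0,
  0),(3,1)]⟩⟩,⟨true,0,⟨0,[(10,0),(6,0)]⟩,⟨0,[(0,0)]⟩⟩,⟨true,0,⟨0,[(0,0),(8,0),(7,0)]⟩,⟨0,[(23,0),(0,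
  0)]⟩⟩,⟨false,1,⟨7,[(9,3),(0,3),(0,0),(0,0),(3,3),(0,7),(7,3),(1,1)]⟩,⟨0,[(0,0),(0,0),(15,0),(5,0),
  (0,0)]⟩⟩,⟨false,1,⟨3,[(11,0),(0,0),(13,1)]⟩,⟨0,[(23,0)]⟩⟩,⟨false,1,⟨7,[(10,3),(0,0),(0,0),(3,3),
  (0,7),(1,1)]⟩,⟨0,[(4,0)]⟩⟩,[.o ⟨false,1,⟨15,[(10,11),(0,2),(0,2),(3,7),(0,15),(1,1),(2,7)]⟩,⟨0,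
  [(1,0)]⟩⟩,.o ⟨false,1,⟨7,[(10,3),(0,0),(0,0),(3,3),(0,7),(1,1)]⟩,⟨0,[(2,0)]⟩⟩,.a ⟨true,0,⟨0,[(0,
  0),(16,0)]⟩,⟨0,[(28,0)]⟩⟩ ⟨true,0,⟨0,[(29,0)]⟩,⟨0,[]⟩⟩ ⟨false,1,⟨3,[(10,3),(0,0),(0,0),(3,1),(0,
  3)]⟩,⟨0,[(0,0),(0,0),(15,0)]⟩⟩,.e ⟨false,1,⟨3,[(11,0),(0,0),(13,1)]⟩,⟨0,[(23,0)]⟩⟩ ⟨false,1,⟨7,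
  [(10,3),(0,0),(0,0),(3,3),(0,7),(1,1)]⟩,⟨0,[(4,0)]⟩⟩]⟩))) (.I [0,1,1,0,0,0,1] (.R ⟨2,true,false,
  false,[0,1],[1,0,-1],[0,1,1],(⟨0,[]⟩,⟨0,[]⟩),(⟨0,[(16,0)]⟩,⟨0,[(17,0)]⟩),⟨0,[]⟩,.k,.k,.k,(.x 0 ⟨0,
  [(20,0)]⟩ ⟨3,[(10,0),(0,0),(6,1),(0,3)]⟩),.k,.k,⟨true,0,⟨0,[(0,0)]⟩,⟨0,[(2,0),(19,0)]⟩⟩,⟨false,1,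
  ⟨5,[(4,1),(1,0),(0,0),(7,0),(1,1),(0,1)]⟩,⟨0,[(16,0)]⟩⟩,⟨false,0,⟨0,[(24,0)]⟩,⟨0,[(23,0),(2,0)]⟩⟩,
  ⟨true,0,⟨0,[(3,0),(4,0)]⟩,⟨0,[(1,0),(21,0)]⟩⟩,⟨true,0,⟨0,[(28,0)]⟩,⟨0,[]⟩⟩,⟨false,1,⟨1,[(3,0),(3,
  0),(10,0)]⟩,⟨0,[(1,0)]⟩⟩,[]⟩) (.Q [0,0,0,0,0,1,0,0,0,-1] (.ed true [1,-1,1] .k) (.R ⟨0,false,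
  false,false,[0,0,1],[0,1],[1,0,1,1],(⟨0,[(18,0)]⟩,⟨0,[(17,0)]⟩),(⟨0,[(21,0)]⟩,⟨0,[(20,0)]⟩),⟨0,
  [(0,0)]⟩,.k,.k,(.r (-1) ⟨1,[(16,0),(8,1),(0,0)]⟩ ⟨0,[(1,0),(22,0),(3,1)]⟩),(.r (-1) ⟨1,[(16,0),(8,
  1),(0,0)]⟩ ⟨0,[(1,0),(22,0),(3,1)]⟩),.k,.k,⟨true,0,⟨0,[]⟩,⟨0,[(28,0)]⟩⟩,⟨false,1,⟨0,[(1,0),(2,0),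
  (11,0),(5,0)]⟩,⟨0,[(10,0),(6,0)]⟩⟩,⟨false,0,⟨1,[(1,0),(4,0),(16,1),(0,0)]⟩,⟨1,[(16,0),(8,1),(0,
  0)]⟩⟩,⟨true,0,⟨0,[(4,0),(19,0)]⟩,⟨0,[(2,0),(6,0)]⟩⟩,⟨false,0,⟨0,[]⟩,⟨0,[]⟩⟩,⟨false,0,⟨0,[]⟩,⟨0,
  []⟩⟩,[.a ⟨true,0,⟨0,[(2,0),(1,0),(19,0)]⟩,⟨0,[(25,0)]⟩⟩ ⟨true,0,⟨0,[(23,0),(0,0)]⟩,⟨0,[(25,0)]⟩⟩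
  ⟨false,1,⟨1,[(4,1),(11,0),(7,1),(1,0)]⟩,⟨0,[(9,0),(7,0),(5,0)]⟩⟩,.o ⟨false,1,⟨0,[(24,0),(2,0)]⟩,
  ⟨0,[(9,0)]⟩⟩,.o ⟨false,0,⟨1,[(1,1),(0,1),(6,0),(0,0),(13,0)]⟩,⟨5,[(5,1),(1,0),(0,0),(7,0),(1,1),
  (0,1)]⟩⟩,.o ⟨false,0,⟨0,[(10,0),(6,0)]⟩,⟨0,[(5,0)]⟩⟩]⟩) (.R ⟨1,false,false,false,[0,0,1],[1,-1],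
  [1],(⟨0,[(18,0)]⟩,⟨0,[(17,0)]⟩),(⟨0,[(20,0)]⟩,⟨0,[(21,0)]⟩),⟨0,[(0,0)]⟩,.k,.k,(.r (-1) ⟨1,[(16,0),
  (8,1),(0,0)]⟩ ⟨0,[(0,1),(0,2),(0,1),(6,1),(11,1),(1,1),(0,2)]⟩),(.x 0 ⟨0,[(21,0)]⟩ ⟨3,[(11,0),(0,
  0),(6,1),(0,3)]⟩),.k,.k,⟨true,0,⟨0,[(23,0),(0,0)]⟩,⟨0,[(25,0)]⟩⟩,⟨false,1,⟨5,[(5,1),(1,0),(0,0),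
  (7,0),(1,1),(0,1)]⟩,⟨0,[(17,0)]⟩⟩,⟨false,0,⟨2,[(1,1),(4,0),(16,0),(1,0)]⟩,⟨3,[(11,0),(0,0),(3,
  1)]⟩⟩,⟨true,0,⟨0,[(4,0),(4,0)]⟩,⟨0,[(2,0),(21,0)]⟩⟩,⟨false,0,⟨0,[(1,0),(21,0),(0,0)]⟩,⟨3,[(11,0),
  (0,0),(3,1),(8,3)]⟩⟩,⟨false,1,⟨1,[(4,0),(3,0),(10,0)]⟩,⟨0,[(2,0)]⟩⟩,[.a ⟨true,0,⟨0,[(25,0)]⟩,⟨0,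
  [(2,0),(1,0),(19,0)]⟩⟩ ⟨true,0,⟨0,[]⟩,⟨0,[(28,0)]⟩⟩ ⟨false,1,⟨0,[(5,0),(19,0)]⟩,⟨1,[(1,0),(0,1),
  (3,0),(17,0)]⟩⟩,.o ⟨false,1,⟨0,[(9,0),(17,0)]⟩,⟨0,[(24,0)]⟩⟩,.o ⟨false,0,⟨1,[(1,1),(0,1),(6,0),(0,
  0),(13,0)]⟩,⟨5,[(5,1),(1,0),(0,0),(7,0),(1,1),(0,1)]⟩⟩,.o ⟨false,0,⟨0,[(10,0),(6,0)]⟩,⟨0,[(5,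
  0)]⟩⟩]⟩)))) (.R ⟨2,true,false,false,[0,1],[1,0,-1],[1,1,1,1],(⟨0,[]⟩,⟨0,[]⟩),(⟨0,[(14,0)]⟩,⟨0,
  [(15,0)]⟩),⟨0,[]⟩,.k,.k,.k,(.x 0 ⟨0,[(18,0)]⟩ ⟨3,[(8,0),(0,0),(6,1),(0,3)]⟩),.k,.k,⟨true,0,⟨0,[(0,
  0),(20,0)]⟩,⟨0,[(1,0),(4,0),(7,0),(5,0)]⟩⟩,⟨false,1,⟨5,[(2,1),(1,0),(0,0),(7,0),(1,1),(0,1)]⟩,⟨0,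
  [(14,0)]⟩⟩,⟨false,0,⟨0,[]⟩,⟨3,[(8,0),(0,0),(14,1)]⟩⟩,⟨true,0,⟨0,[(1,0),(4,0)]⟩,⟨0,[(0,0),(13,0),
  (6,0)]⟩⟩,⟨true,0,⟨0,[(21,0)]⟩,⟨0,[(22,0)]⟩⟩,⟨false,1,⟨1,[(1,0),(3,0),(10,0)]⟩,⟨0,[(0,0),(13,0)]⟩⟩,
  []⟩)))

def t3 : Tre :=
  (.I [0,-1,1] (.Q [0,1,1,-1,-1,0,1,0,0,-1] (.p false [0,0,1] [] (⟨0,[(20,0)]⟩,⟨0,[(19,0)]⟩) .k 0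
  (⟨0,[]⟩,⟨0,[]⟩) .k .k) (.R ⟨1,false,false,true,[1,0,-1],[1,-1],[1,1],(⟨0,[(20,0)]⟩,⟨0,[(21,0)]⟩),
  (⟨0,[(23,0)]⟩,⟨0,[(24,0)]⟩),⟨0,[(9,0)]⟩,.k,.k,(.x (-1) ⟨3,[(14,0),(0,0),(6,1),(0,3)]⟩ ⟨0,[(24,
  0)]⟩),(.x (-1) ⟨0,[(24,0),(4,0)]⟩ ⟨0,[(13,0),(9,0)]⟩),.k,.k,⟨true,0,⟨1,[(3,0),(9,0)]⟩,⟨0,[(28,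
  0)]⟩⟩,⟨false,0,⟨1,[(0,0),(7,0),(9,0)]⟩,⟨0,[(21,0),(7,0)]⟩⟩,⟨false,0,⟨0,[(5,0)]⟩,⟨1,[(18,0),(11,
  0)]⟩⟩,⟨true,(-1),⟨0,[(0,0)]⟩,⟨0,[(11,0),(15,0)]⟩⟩,⟨false,0,⟨0,[(2,0)]⟩,⟨1,[(18,0),(9,1),(1,0)]⟩⟩,
  ⟨false,0,⟨9,[(0,2),(7,2),(4,1),(5,1),(0,3),(1,0)]⟩,⟨0,[(11,0)]⟩⟩,[.o ⟨false,0,⟨0,[(12,0)]⟩,⟨7,[(3,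
  3),(10,0),(0,0),(6,1),(7,3)]⟩⟩,.a ⟨true,0,⟨0,[(28,0)]⟩,⟨0,[(4,0)]⟩⟩ ⟨true,0,⟨0,[]⟩,⟨0,[(31,0)]⟩⟩
  ⟨false,0,⟨0,[(0,0),(5,0)]⟩,⟨5,[(2,2),(8,4),(7,0),(1,0),(3,0),(1,2)]⟩⟩,.o ⟨false,1,⟨1,[(21,1),(0,
  0),(6,0)]⟩,⟨1,[(0,0),(7,0),(9,0)]⟩⟩,.e ⟨false,1,⟨3,[(14,0),(0,0),(13,1)]⟩,⟨0,[(1,0)]⟩⟩ ⟨false,0,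
  ⟨0,[(0,0),(5,0)]⟩,⟨5,[(2,1),(0,1),(7,3),(1,1),(5,0),(1,1),(8,0)]⟩⟩]⟩) (.Q [0,0,0,1,0,0,0,0,1,-1]
  (.p false [0,0,1] [1] (⟨0,[(21,0)]⟩,⟨0,[(20,0)]⟩) .k 1 (⟨0,[]⟩,⟨0,[]⟩) .k .k) (.I [0,0,-2,-2,1,0,
  -1] (.R ⟨1,false,false,false,[1,0,-1],[0,1],[0,0,0,-1,0,0,-1],(⟨0,[(22,0)]⟩,⟨0,[(23,0)]⟩),(⟨0,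
  [(26,0)]⟩,⟨0,[(25,0)]⟩),⟨0,[(11,0)]⟩,.k,.k,(.x (-1) ⟨3,[(16,0),(0,0),(6,1),(0,3)]⟩ ⟨0,[(26,0)]⟩),
  (.x (-1) ⟨3,[(16,0),(0,0),(6,1),(0,3)]⟩ ⟨0,[(26,0)]⟩),(.r (-1) ⟨0,[(0,0)]⟩ ⟨0,[(5,0),(1,0),(7,
  0)]⟩),.k,⟨false,1,⟨0,[(0,0)]⟩,⟨1,[(4,1),(0,0),(9,0)]⟩⟩,⟨true,0,⟨0,[(22,0)]⟩,⟨0,[(9,0),(13,0)]⟩⟩,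
  ⟨true,0,⟨0,[(30,0)]⟩,⟨0,[(29,0)]⟩⟩,⟨false,0,⟨0,[(6,0),(5,0)]⟩,⟨0,[(13,0),(0,0)]⟩⟩,⟨false,1,⟨3,
  [(16,0),(0,0),(14,1)]⟩,⟨0,[]⟩⟩,⟨false,0,⟨0,[(5,0),(6,0)]⟩,⟨0,[(13,0),(0,0),(15,0)]⟩⟩,[.e ⟨false,1,
  ⟨7,[(0,3),(15,0),(0,0),(2,1)]⟩,⟨0,[(4,0)]⟩⟩ ⟨false,0,⟨0,[(1,0)]⟩,⟨1,[(0,0),(6,0),(15,1),(0,0)]⟩⟩,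
  .o ⟨false,1,⟨7,[(5,3),(10,0),(0,0),(6,1),(7,3)]⟩,⟨0,[(14,0)]⟩⟩,.o ⟨false,1,⟨1,[(23,1),(0,0),(6,
  0)]⟩,⟨0,[(9,0),(12,0)]⟩⟩,.a ⟨true,0,⟨0,[(23,0)]⟩,⟨0,[(22,0)]⟩⟩ ⟨false,1,⟨1,[(0,0),(7,0),(19,0)]⟩,
  ⟨1,[(5,0),(1,1),(7,0)]⟩⟩ ⟨true,0,⟨0,[(1,0)]⟩,⟨0,[(14,0),(8,0)]⟩⟩]⟩) (.I [0,0,1,0,0,-2] (.Q [0,1,1,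
  1,-1,0,1,0,1,-1] (.p false [0,0,1] [1] (⟨0,[(24,0)]⟩,⟨0,[(23,0)]⟩) .k 1 (⟨0,[]⟩,⟨0,[]⟩) .k .k)
  (.K ⟨0,[1,-1,-1],0,1,(⟨0,[(13,0)]⟩,⟨0,[(25,0),(2,0)]⟩),(.x (-1) ⟨7,[(1,3),(16,2),(0,2),(13,1)]⟩
  ⟨0,[(28,0)]⟩),(.x 0 ⟨0,[(1,0)]⟩ ⟨3,[(18,0),(0,0),(8,7),(4,1)]⟩),.k,.k,.k,[⟨0,[(24,0),(10,0)]⟩,⟨0,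
  [(11,0),(13,0)]⟩,⟨0,[(0,0)]⟩,⟨11,[(15,7),(0,11),(1,0),(0,0),(2,1),(2,3),(3,3)]⟩]⟩) (.I [1,1,0,0,0,
  0,-1] (.Q [0,0,0,1,0,0,0,0,0,1] (.p true [0,0,1] [] (⟨0,[(26,0)]⟩,⟨0,[(25,0)]⟩) .k 0 (⟨0,[]⟩,⟨0,
  []⟩) .k .k) (.R ⟨1,false,false,false,[1,0,-1],[1,-1],[1,0,0,0,0,0,-1],(⟨0,[(26,0)]⟩,⟨0,[(27,0)]⟩),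
  (⟨0,[(29,0)]⟩,⟨0,[(30,0)]⟩),⟨0,[(15,0)]⟩,.k,.k,(.x (-1) ⟨7,[(3,3),(16,2),(0,2),(13,1)]⟩ ⟨0,[(30,
  0)]⟩),(.r 0 ⟨0,[(1,0),(0,0),(1,0),(10,0),(14,0)]⟩ ⟨1,[(25,0),(8,1),(0,0)]⟩),.k,.k,⟨true,0,⟨1,[(1,
  1),(2,0),(7,0),(19,0)]⟩,⟨0,[(11,0),(22,0)]⟩⟩,⟨false,0,⟨0,[(13,0),(12,0)]⟩,⟨0,[(27,0),(7,0)]⟩⟩,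
  ⟨true,0,⟨0,[]⟩,⟨0,[(38,0)]⟩⟩,⟨false,0,⟨0,[(16,0),(17,0)]⟩,⟨11,[(0,3),(5,7),(13,0),(0,0),(2,1),(6,
  3)]⟩⟩,⟨false,1,⟨7,[(9,3),(10,0),(0,0),(6,1),(7,3)]⟩,⟨0,[(34,0)]⟩⟩,⟨false,0,⟨0,[(16,0)]⟩,⟨11,[(17,
  7),(2,0),(0,0),(2,1),(2,3),(3,3)]⟩⟩,[.a ⟨true,0,⟨0,[(34,0)]⟩,⟨0,[(10,0)]⟩⟩ ⟨false,1,⟨1,[(24,0),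
  (10,0)]⟩,⟨0,[(11,0)]⟩⟩ ⟨true,0,⟨0,[(13,0),(12,0),(7,0)]⟩,⟨0,[(0,0)]⟩⟩,.o ⟨false,1,⟨0,[(18,0),(17,
  0)]⟩,⟨0,[(33,0)]⟩⟩,.o ⟨false,1,⟨5,[(0,1),(1,3),(5,1),(16,0),(2,0),(2,1)]⟩,⟨0,[(13,0),(12,0)]⟩⟩,.e
  ⟨false,1,⟨0,[(12,0)]⟩,⟨2,[(4,0),(20,0),(8,1),(2,0)]⟩⟩ ⟨false,1,⟨0,[(18,0),(7,0),(9,0)]⟩,⟨0,[(0,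
  0)]⟩⟩]⟩) (.R ⟨1,false,false,false,[1,0,-1],[1,-1],[1,0,0,0,0,0,-1],(⟨0,[(26,0)]⟩,⟨0,[(27,0)]⟩),
  (⟨0,[(29,0)]⟩,⟨0,[(30,0)]⟩),⟨0,[(15,0)]⟩,.k,.k,(.x (-1) ⟨7,[(3,3),(16,2),(0,2),(13,1)]⟩ ⟨0,[(30,
  0)]⟩),(.r 0 ⟨0,[(0,0),(0,0),(0,0),(1,0),(4,0),(24,0)]⟩ ⟨1,[(25,0),(8,1),(0,0)]⟩),.k,.k,⟨true,0,⟨1,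
  [(1,1),(2,0),(7,0),(19,0)]⟩,⟨0,[(11,0),(22,0)]⟩⟩,⟨false,0,⟨1,[(0,0),(4,0),(13,0)]⟩,⟨0,[(27,0),(7,
  0)]⟩⟩,⟨true,0,⟨0,[]⟩,⟨0,[(38,0)]⟩⟩,⟨false,0,⟨0,[(16,0),(17,0)]⟩,⟨15,[(6,11),(13,0),(0,0),(2,1),(2,
  3),(3,3),(1,3)]⟩⟩,⟨false,1,⟨7,[(9,3),(10,0),(0,0),(6,1),(7,3)]⟩,⟨0,[(34,0)]⟩⟩,⟨false,0,⟨0,[(16,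
  0)]⟩,⟨11,[(17,7),(2,0),(0,0),(2,1),(2,3),(3,3)]⟩⟩,[.e ⟨false,1,⟨1,[(24,0),(10,0)]⟩,⟨0,[(11,0)]⟩⟩
  ⟨false,0,⟨0,[(0,0)]⟩,⟨6,[(6,4),(1,0),(16,1),(1,1),(3,1),(1,0)]⟩⟩,.o ⟨false,1,⟨0,[(18,0),(17,0)]⟩,
  ⟨0,[(33,0)]⟩⟩,.o ⟨false,1,⟨1,[(27,1),(0,0),(6,0)]⟩,⟨1,[(0,0),(4,0),(13,0)]⟩⟩,.a ⟨true,0,⟨0,[(27,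
  0)]⟩,⟨0,[(26,0)]⟩⟩ ⟨false,1,⟨0,[(12,0)]⟩,⟨2,[(4,0),(20,0),(8,1),(2,0)]⟩⟩ ⟨true,0,⟨0,[(0,0)]⟩,⟨0,
  [(27,0),(5,0)]⟩⟩]⟩)) (.R ⟨1,false,false,false,[1,0,-1],[0,1],[1,1,0,0,0,0,-1],(⟨0,[(25,0)]⟩,⟨0,
  [(26,0)]⟩),(⟨0,[(29,0)]⟩,⟨0,[(28,0)]⟩),⟨0,[(14,0)]⟩,.k,.k,(.x (-1) ⟨7,[(2,3),(16,2),(0,2),(13,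
  1)]⟩ ⟨0,[(29,0)]⟩),(.x (-1) ⟨7,[(2,3),(16,2),(0,2),(13,1)]⟩ ⟨0,[(29,0)]⟩),(.x 0 ⟨0,[(2,0)]⟩ ⟨3,
  [(19,0),(0,0),(8,7),(4,1)]⟩),.k,⟨false,1,⟨0,[(1,0),(23,0),(4,0)]⟩,⟨7,[(0,1),(2,3),(20,0),(10,
  2)]⟩⟩,⟨true,0,⟨0,[(25,0)]⟩,⟨0,[(12,0),(13,0)]⟩⟩,⟨false,0,⟨0,[]⟩,⟨3,[(19,0),(0,0),(14,1)]⟩⟩,⟨false,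
  0,⟨0,[(9,0),(5,0)]⟩,⟨15,[(1,11),(15,3),(1,0),(0,0),(2,1),(2,3),(3,3)]⟩⟩,⟨true,0,⟨0,[(32,0)]⟩,⟨0,
  [(33,0)]⟩⟩,⟨false,0,⟨0,[(8,0),(6,0)]⟩,⟨15,[(1,11),(15,3),(1,0),(0,0),(2,1),(2,3),(3,3),(2,15)]⟩⟩,
  [.e ⟨false,1,⟨7,[(19,0),(0,0),(2,3),(6,3),(3,1)]⟩,⟨0,[(0,0)]⟩⟩ ⟨false,0,⟨0,[(4,0)]⟩,⟨3,[(1,2),(8,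
  0),(6,0),(6,0),(1,0),(3,0)]⟩⟩,.o ⟨false,1,⟨7,[(8,3),(10,0),(0,0),(6,1),(7,3)]⟩,⟨0,[(17,0)]⟩⟩,.o
  ⟨false,1,⟨1,[(26,1),(0,0),(6,0)]⟩,⟨0,[(12,0),(12,0)]⟩⟩,.a ⟨true,0,⟨0,[(26,0)]⟩,⟨0,[(25,0)]⟩⟩
  ⟨false,1,⟨1,[(23,0),(10,0)]⟩,⟨4,[(0,1),(2,0),(20,0),(6,2),(1,1)]⟩⟩ ⟨true,0,⟨0,[(4,0)]⟩,⟨0,[(17,0),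
  (8,0)]⟩⟩]⟩))) (.R ⟨0,false,false,true,[1,-1],[0,0,1],[1],(⟨0,[(26,0)]⟩,⟨0,[(27,0)]⟩),(⟨0,[(24,
  0)]⟩,⟨0,[(23,0)]⟩),⟨0,[(0,0),(9,0)]⟩,.k,.k,(.r (-1) ⟨0,[(31,1),(0,0)]⟩ ⟨0,[(6,0),(9,0)]⟩),(.x
  (-1) ⟨3,[(17,0),(0,0),(6,1),(0,3)]⟩ ⟨0,[(27,0)]⟩),.k,.k,⟨false,1,⟨0,[(9,0)]⟩,⟨3,[(1,0),(6,0),(13,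
  0),(5,1),(2,1)]⟩⟩,⟨true,0,⟨0,[(23,0)]⟩,⟨0,[(10,0),(13,0)]⟩⟩,⟨false,0,⟨1,[(1,0),(7,0),(19,0)]⟩,⟨3,
  [(17,0),(0,0),(12,3),(0,1)]⟩⟩,⟨true,(-1),⟨1,[(0,0),(0,1),(10,1),(15,0),(2,1)]⟩,⟨0,[(14,0),(0,
  0)]⟩⟩,⟨false,0,⟨0,[]⟩,⟨0,[]⟩⟩,⟨false,0,⟨0,[]⟩,⟨0,[]⟩⟩,[.a ⟨true,(-1),⟨1,[(0,0),(0,1),(10,1),(15,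
  0),(2,3)]⟩,⟨0,[(14,0)]⟩⟩ ⟨true,0,⟨0,[]⟩,⟨0,[(34,0)]⟩⟩ ⟨false,0,⟨1,[(0,0),(7,1),(3,1),(15,0)]⟩,⟨0,
  [(10,0),(3,0)]⟩⟩,.o ⟨false,0,⟨6,[(1,0),(11,3),(1,1),(0,0),(5,0),(0,2),(4,0)]⟩,⟨0,[(3,0),(11,0)]⟩⟩,
  .o ⟨false,0,⟨0,[(10,0)]⟩,⟨3,[(17,0),(0,0),(13,1)]⟩⟩,.o ⟨false,0,⟨0,[(16,0)]⟩,⟨0,[(32,0)]⟩⟩]⟩)))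
  (.I [0,0,-2,-2,1,0,-1] (.R ⟨1,false,false,false,[1,0,-1],[0,1],[0,0,0,-1,0,0,-1],(⟨0,[(22,0)]⟩,⟨0,
  [(23,0)]⟩),(⟨0,[(26,0)]⟩,⟨0,[(25,0)]⟩),⟨0,[(11,0)]⟩,.k,.k,(.x (-1) ⟨3,[(16,0),(0,0),(6,1),(0,3)]⟩
  ⟨0,[(26,0)]⟩),(.x (-1) ⟨3,[(16,0),(0,0),(6,1),(0,3)]⟩ ⟨0,[(26,0)]⟩),(.r (-1) ⟨0,[(0,0)]⟩ ⟨0,[(5,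
  0),(1,0),(7,0)]⟩),.k,⟨false,1,⟨0,[(0,0)]⟩,⟨1,[(4,1),(0,0),(9,0)]⟩⟩,⟨true,0,⟨0,[(22,0)]⟩,⟨0,[(9,0),
  (13,0)]⟩⟩,⟨true,0,⟨0,[(30,0)]⟩,⟨0,[(29,0)]⟩⟩,⟨false,0,⟨0,[(6,0),(5,0)]⟩,⟨4,[(0,0),(0,2),(11,1),(6,
  0),(3,0),(2,0)]⟩⟩,⟨false,1,⟨3,[(16,0),(0,0),(14,1)]⟩,⟨0,[]⟩⟩,⟨false,0,⟨0,[(5,0),(6,0)]⟩,⟨7,[(0,3),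
  (0,7),(14,0),(0,0),(2,1)]⟩⟩,[.a ⟨true,0,⟨0,[(6,0)]⟩,⟨0,[(30,0)]⟩⟩ ⟨false,1,⟨7,[(0,3),(15,0),(0,0),
  (2,1)]⟩,⟨0,[(4,0)]⟩⟩ ⟨true,0,⟨1,[(5,0),(9,0),(6,1)]⟩,⟨0,[(1,0)]⟩⟩,.o ⟨false,1,⟨7,[(5,3),(10,0),(0,
  0),(6,1),(7,3)]⟩,⟨0,[(14,0)]⟩⟩,.o ⟨false,1,⟨17,[(1,9),(0,7),(1,1),(16,2),(2,3),(2,3),(3,2)]⟩,⟨0,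
  [(9,0),(12,0)]⟩⟩,.e ⟨false,1,⟨1,[(0,0),(7,0),(19,0)]⟩,⟨1,[(5,0),(1,1),(7,0)]⟩⟩ ⟨false,1,⟨5,[(5,1),
  (4,1),(5,0),(0,0),(2,0),(1,3),(8,0),(0,1)]⟩,⟨0,[(1,0)]⟩⟩]⟩) (.I [0,0,1,1,0,0,-1] (.R ⟨1,false,
  false,false,[1,0,-1],[1,-1],[1,0,0,0,0,0,-1],(⟨0,[(23,0)]⟩,⟨0,[(24,0)]⟩),(⟨0,[(26,0)]⟩,⟨0,[(27,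
  0)]⟩),⟨0,[(12,0)]⟩,.k,.k,(.x (-1) ⟨3,[(17,0),(0,0),(6,1),(0,3)]⟩ ⟨0,[(27,0)]⟩),(.r 0 ⟨0,[(0,0)]⟩
  ⟨1,[(22,0),(8,1),(0,0)]⟩),.k,.k,⟨true,0,⟨0,[(0,0)]⟩,⟨0,[(8,0),(22,0)]⟩⟩,⟨false,0,⟨0,[(10,0),(12,
  0)]⟩,⟨0,[(24,0),(7,0)]⟩⟩,⟨true,0,⟨0,[]⟩,⟨0,[(35,0)]⟩⟩,⟨false,0,⟨0,[(13,0),(17,0)]⟩,⟨15,[(3,11),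
  (13,0),(0,0),(2,1),(2,3),(3,3),(1,3)]⟩⟩,⟨false,1,⟨7,[(6,3),(10,0),(0,0),(6,1),(7,3)]⟩,⟨0,[(31,
  0)]⟩⟩,⟨false,0,⟨0,[(13,0)]⟩,⟨11,[(14,7),(2,0),(0,0),(2,1),(2,3),(3,3)]⟩⟩,[.a ⟨true,0,⟨0,[(31,0)]⟩,
  ⟨0,[(7,0)]⟩⟩ ⟨false,1,⟨1,[(21,0),(10,0)]⟩,⟨0,[(8,0)]⟩⟩ ⟨true,0,⟨0,[(10,0),(12,0),(7,0)]⟩,⟨0,[(2,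
  0),(3,0)]⟩⟩,.o ⟨false,1,⟨0,[(15,0),(17,0)]⟩,⟨0,[(30,0)]⟩⟩,.o ⟨false,1,⟨17,[(2,9),(0,7),(1,1),(16,
  2),(2,3),(2,3),(3,2)]⟩,⟨0,[(10,0),(12,0)]⟩⟩,.e ⟨false,1,⟨0,[(9,0)]⟩,⟨2,[(1,0),(20,0),(8,1),(2,
  0)]⟩⟩ ⟨false,1,⟨0,[(15,0),(7,0),(9,0)]⟩,⟨0,[(2,0),(3,0)]⟩⟩]⟩) (.R ⟨1,false,false,false,[1,0,-1],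
  [0,1],[1,1,0,0,0,0,-1],(⟨0,[(23,0)]⟩,⟨0,[(24,0)]⟩),(⟨0,[(27,0)]⟩,⟨0,[(26,0)]⟩),⟨0,[(12,0)]⟩,.k,.k,
  (.x (-1) ⟨3,[(17,0),(0,0),(6,1),(0,3)]⟩ ⟨0,[(27,0)]⟩),(.x (-1) ⟨3,[(17,0),(0,0),(6,1),(0,3)]⟩ ⟨0,
  [(27,0)]⟩),(.x 0 ⟨1,[(1,0),(0,1),(0,0),(6,0),(1,2),(2,0),(10,0)]⟩ ⟨3,[(17,0),(0,0),(8,7),(4,1)]⟩),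
  .k,⟨false,1,⟨0,[(9,0),(18,0),(2,0)]⟩,⟨9,[(0,1),(0,5),(20,0),(10,4)]⟩⟩,⟨true,0,⟨0,[(23,0)]⟩,⟨6,[(1,
  0),(0,3),(0,0),(12,2),(7,1),(5,0)]⟩⟩,⟨false,0,⟨0,[]⟩,⟨3,[(17,0),(0,0),(14,1)]⟩⟩,⟨false,0,⟨0,[(7,
  0),(5,0)]⟩,⟨0,[(14,0),(0,0)]⟩⟩,⟨true,0,⟨0,[(30,0)]⟩,⟨0,[(31,0)]⟩⟩,⟨false,0,⟨0,[(6,0),(6,0)]⟩,⟨0,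
  [(14,0),(0,0),(15,0)]⟩⟩,[.a ⟨true,0,⟨0,[(7,0)]⟩,⟨0,[(31,0)]⟩⟩ ⟨false,1,⟨7,[(17,0),(0,0),(2,3),(6,
  3),(3,1)]⟩,⟨0,[(0,0),(0,0),(0,0),(6,0),(2,0),(14,0)]⟩⟩ ⟨true,0,⟨1,[(6,0),(9,0),(6,1)]⟩,⟨0,[(2,
  0)]⟩⟩,.o ⟨false,1,⟨7,[(6,3),(10,0),(0,0),(6,1),(7,3)]⟩,⟨0,[(15,0)]⟩⟩,.o ⟨false,1,⟨17,[(0,2),(1,7),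
  (0,9),(1,0),(16,2),(2,4),(2,4)]⟩,⟨0,[(10,0),(12,0)]⟩⟩,.e ⟨false,1,⟨1,[(21,0),(10,0)]⟩,⟨4,[(0,1),
  (0,0),(20,0),(6,4)]⟩⟩ ⟨false,1,⟨5,[(6,1),(4,1),(5,0),(0,0),(2,0),(1,3),(8,0),(0,1)]⟩,⟨0,[(2,
  0)]⟩⟩]⟩))))) (.Q [0,0,0,1,0,0,0,0,1,-1] (.p false [0,0,1] [1] (⟨0,[(20,0)]⟩,⟨0,[(19,0)]⟩) .k 1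
  (⟨0,[]⟩,⟨0,[]⟩) .k .k) (.R ⟨1,false,false,false,[1,0,-1],[0,1],[1,0,0,0,0,0,-1],(⟨0,[(20,0)]⟩,⟨0,
  [(21,0)]⟩),(⟨0,[(24,0)]⟩,⟨0,[(23,0)]⟩),⟨0,[(9,0)]⟩,.k,.k,(.x (-1) ⟨3,[(14,0),(0,0),(6,1),(0,3)]⟩
  ⟨0,[(24,0)]⟩),(.x (-1) ⟨3,[(14,0),(0,0),(6,1),(0,3)]⟩ ⟨0,[(24,0)]⟩),(.r (-1) ⟨0,[(1,0),(4,0),(21,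
  1)]⟩ ⟨0,[(3,0),(1,0),(7,0)]⟩),.k,⟨false,1,⟨0,[(1,0),(4,0),(21,0)]⟩,⟨1,[(3,0),(1,1),(7,0)]⟩⟩,⟨true,
  0,⟨0,[(20,0)]⟩,⟨0,[(7,0),(13,0)]⟩⟩,⟨true,0,⟨0,[]⟩,⟨0,[(32,0)]⟩⟩,⟨false,0,⟨0,[(4,0),(5,0)]⟩,⟨0,
  [(11,0),(0,0)]⟩⟩,⟨false,1,⟨7,[(3,3),(10,0),(0,0),(6,1),(7,3)]⟩,⟨0,[(28,0)]⟩⟩,⟨false,0,⟨0,[(3,0),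
  (6,0)]⟩,⟨0,[(11,0),(0,0),(15,0)]⟩⟩,[.e ⟨false,1,⟨1,[(18,0),(10,0)]⟩,⟨0,[(5,0)]⟩⟩ ⟨false,0,⟨0,[(0,
  0)]⟩,⟨0,[(5,0),(5,0),(0,0)]⟩⟩,.o ⟨false,1,⟨7,[(3,3),(10,0),(0,0),(6,1),(7,3)]⟩,⟨0,[(12,0)]⟩⟩,.o
  ⟨false,1,⟨1,[(21,1),(0,0),(6,0)]⟩,⟨0,[(7,0),(12,0)]⟩⟩,.a ⟨true,0,⟨0,[(21,0)]⟩,⟨0,[(20,0)]⟩⟩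
  ⟨false,1,⟨0,[(6,0)]⟩,⟨0,[(5,0),(25,0)]⟩⟩ ⟨true,0,⟨0,[(0,0)]⟩,⟨0,[(12,0),(8,0)]⟩⟩]⟩) (.S ⟨1,0,[0,0,
  -1,-2],[1,-1],[1,1,-1,-1],(⟨0,[(23,0)]⟩,⟨0,[(24,0)]⟩),⟨0,[(0,1),(2,0),(5,1)]⟩,.k,(.r (-1) ⟨0,[(28,
  1),(0,0)]⟩ ⟨0,[(3,0),(9,0)]⟩),⟨false,0,⟨0,[]⟩,⟨3,[(14,0),(0,0),(14,1)]⟩⟩,⟨true,0,⟨0,[(28,0)]⟩,⟨0,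
  [(27,0)]⟩⟩,⟨true,0,⟨0,[(27,0)]⟩,⟨0,[(28,0)]⟩⟩,⟨false,1,⟨3,[(14,0),(0,0),(14,1)]⟩,⟨0,[]⟩⟩,[.a
  ⟨true,0,⟨0,[(28,1)]⟩,⟨0,[(3,0)]⟩⟩ ⟨true,0,⟨0,[(1,0),(26,0)]⟩,⟨1,[(3,0),(9,0),(12,1)]⟩⟩ ⟨false,1,
  ⟨0,[(28,1),(0,0)]⟩,⟨0,[(3,0),(3,0)]⟩⟩,.o ⟨false,1,⟨0,[(12,0),(15,0),(1,0)]⟩,⟨0,[(1,0),(1,0),(3,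
  0)]⟩⟩,.o ⟨false,0,⟨0,[(7,0)]⟩,⟨3,[(14,0),(0,0),(13,1)]⟩⟩,.o ⟨false,0,⟨0,[(13,0)]⟩,⟨0,[(29,
  0)]⟩⟩]⟩)))

def t4 : Tre :=
  (.I [0,0,0,0,0,0,1] (.Q [0,0,0,1,0,0,0,0,1] (.pp false [-1,1]) (.Q [0,0,0,-2,0,0,0,0,-1] (.pp
  true [-1,1]) (.R ⟨2,false,false,false,[0,1],[1,-1],[],(⟨0,[]⟩,⟨0,[]⟩),(⟨0,[(20,0)]⟩,⟨0,[(21,0)]⟩),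
  ⟨0,[]⟩,.k,.k,.k,(.r 0 ⟨0,[(23,1),(0,1)]⟩ ⟨0,[(25,1),(0,0)]⟩),.k,.k,⟨true,0,⟨0,[(23,0),(0,0)]⟩,⟨0,
  [(25,0)]⟩⟩,⟨false,0,⟨0,[(4,0)]⟩,⟨0,[(13,0),(0,0),(11,0)]⟩⟩,⟨false,1,⟨1,[(25,1),(0,0),(0,0)]⟩,⟨0,
  [(23,0),(0,0)]⟩⟩,⟨true,0,⟨0,[(0,0)]⟩,⟨0,[(1,0),(22,0)]⟩⟩,⟨false,1,⟨1,[(26,0),(0,0)]⟩,⟨0,[(28,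
  0)]⟩⟩,⟨false,1,⟨7,[(0,3),(10,0),(0,0),(6,1),(7,3)]⟩,⟨0,[(1,0)]⟩⟩,[.a ⟨true,0,⟨0,[(25,0)]⟩,⟨0,[(1,
  0)]⟩⟩ ⟨false,1,⟨3,[(11,0),(0,0),(13,1)]⟩,⟨0,[]⟩⟩ ⟨true,0,⟨1,[(0,0),(9,0)]⟩,⟨0,[(1,0)]⟩⟩,.o ⟨false,
  1,⟨7,[(0,3),(10,0),(0,0),(6,1),(7,3)]⟩,⟨0,[(24,0)]⟩⟩,.o ⟨false,1,⟨3,[(11,0),(0,0),(13,1)]⟩,⟨0,[(4,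
  0)]⟩⟩,.e ⟨false,1,⟨1,[(26,0),(0,0)]⟩,⟨0,[(28,0)]⟩⟩ ⟨false,1,⟨7,[(0,3),(10,0),(0,0),(6,1),(7,3)]⟩,
  ⟨0,[(1,0)]⟩⟩]⟩) (.I [0,0,0,1,0,0,1] t3 (.Q [0,0,0,1,0,0,0,0,1,-1] (.p false [0,0,1] [1] (⟨0,[(19,
  0)]⟩,⟨0,[(18,0)]⟩) .k 1 (⟨0,[]⟩,⟨0,[]⟩) .k .k) (.R ⟨1,false,false,false,[1,0,-1],[0,1],[1,0,0,0,0,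
  0,-1],(⟨0,[(19,0)]⟩,⟨0,[(20,0)]⟩),(⟨0,[(23,0)]⟩,⟨0,[(22,0)]⟩),⟨0,[(8,0)]⟩,.k,.k,(.x (-1) ⟨3,[(13,
  0),(0,0),(6,1),(0,3)]⟩ ⟨0,[(23,0)]⟩),(.x (-1) ⟨3,[(13,0),(0,0),(6,1),(0,3)]⟩ ⟨0,[(23,0)]⟩),(.r
  (-1) ⟨0,[(1,0),(25,0),(0,0)]⟩ ⟨0,[(2,0),(1,0),(7,0)]⟩),.k,⟨false,1,⟨0,[(1,0),(26,0)]⟩,⟨1,[(2,0),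
  (1,1),(7,0)]⟩⟩,⟨true,0,⟨0,[(19,0)]⟩,⟨0,[(6,0),(13,0)]⟩⟩,⟨true,0,⟨0,[]⟩,⟨0,[(31,0)]⟩⟩,⟨false,0,⟨0,
  [(3,0),(5,0)]⟩,⟨0,[(10,0),(0,0)]⟩⟩,⟨false,1,⟨7,[(2,3),(10,0),(0,0),(6,1),(7,3)]⟩,⟨0,[(27,0)]⟩⟩,
  ⟨false,0,⟨0,[(2,0),(6,0)]⟩,⟨0,[(10,0),(0,0),(15,0)]⟩⟩,[.e ⟨false,1,⟨1,[(17,0),(10,0)]⟩,⟨0,[(4,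
  0)]⟩⟩ ⟨false,0,⟨0,[(0,0)]⟩,⟨0,[(4,0),(5,0),(0,0)]⟩⟩,.o ⟨false,1,⟨7,[(2,3),(10,0),(0,0),(6,1),(7,
  3)]⟩,⟨0,[(11,0)]⟩⟩,.o ⟨false,1,⟨1,[(20,1),(0,0),(6,0)]⟩,⟨0,[(6,0),(12,0)]⟩⟩,.a ⟨true,0,⟨0,[(20,
  0)]⟩,⟨0,[(19,0)]⟩⟩ ⟨false,1,⟨0,[(5,0)]⟩,⟨0,[(4,0),(25,0)]⟩⟩ ⟨true,0,⟨0,[(0,0)]⟩,⟨0,[(11,0),(8,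
  0)]⟩⟩]⟩) (.R ⟨1,false,false,false,[1,0,-1],[0,1],[1,0,0,0,0,0,-1],(⟨0,[(19,0)]⟩,⟨0,[(20,0)]⟩),(⟨0,
  [(23,0)]⟩,⟨0,[(22,0)]⟩),⟨0,[(8,0)]⟩,.k,.k,(.x (-1) ⟨3,[(13,0),(0,0),(6,1),(0,3)]⟩ ⟨0,[(23,0)]⟩),
  (.x (-1) ⟨3,[(13,0),(0,0),(6,1),(0,3)]⟩ ⟨0,[(23,0)]⟩),(.r (-1) ⟨0,[(1,0),(25,0),(0,0)]⟩ ⟨0,[(2,0),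
  (1,0),(7,0)]⟩),.k,⟨false,1,⟨0,[(1,0),(26,0)]⟩,⟨1,[(2,0),(1,1),(7,0)]⟩⟩,⟨true,0,⟨0,[(19,0)]⟩,⟨0,
  [(6,0),(13,0)]⟩⟩,⟨true,0,⟨0,[]⟩,⟨0,[(31,0)]⟩⟩,⟨false,0,⟨0,[(3,0),(5,0)]⟩,⟨0,[(10,0),(0,0)]⟩⟩,
  ⟨false,1,⟨7,[(2,3),(10,0),(0,0),(6,1),(7,3)]⟩,⟨0,[(27,0)]⟩⟩,⟨false,0,⟨0,[(2,0),(6,0)]⟩,⟨0,[(10,0),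
  (0,0),(15,0)]⟩⟩,[.a ⟨true,0,⟨0,[(3,0)]⟩,⟨0,[(27,0)]⟩⟩ ⟨false,1,⟨1,[(17,0),(10,0)]⟩,⟨0,[(4,0)]⟩⟩
  ⟨true,0,⟨1,[(2,0),(9,0),(6,1)]⟩,⟨0,[(0,0)]⟩⟩,.o ⟨false,1,⟨7,[(2,3),(10,0),(0,0),(6,1),(7,3)]⟩,⟨0,
  [(11,0)]⟩⟩,.o ⟨false,1,⟨1,[(20,1),(0,0),(6,0)]⟩,⟨0,[(6,0),(12,0)]⟩⟩,.e ⟨false,1,⟨0,[(5,0)]⟩,⟨0,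
  [(4,0),(25,0)]⟩⟩ ⟨false,1,⟨5,[(2,1),(4,1),(5,0),(0,0),(2,0),(1,3),(8,0),(0,1)]⟩,⟨0,[(0,
  0)]⟩⟩]⟩)))) (.I [0,0,-1,-1,0,0,1] (.I [0,0,-2,-2,1,0,-1] (.R ⟨1,false,false,true,[1,0,-1],[0,1],
  [0,1,0,-1,0,0,-1],(⟨0,[(18,0)]⟩,⟨0,[(19,0)]⟩),(⟨0,[(22,0)]⟩,⟨0,[(21,0)]⟩),⟨0,[(7,0)]⟩,.k,.k,(.x
  (-1) ⟨3,[(12,0),(0,0),(6,1),(0,3)]⟩ ⟨0,[(22,0)]⟩),(.x (-1) ⟨3,[(12,0),(0,0),(6,1),(0,3)]⟩ ⟨0,[(22,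
  0)]⟩),(.r (-1) ⟨0,[(0,0)]⟩ ⟨0,[(6,0),(12,0),(5,0),(3,0)]⟩),.k,⟨false,1,⟨0,[(0,0)]⟩,⟨0,[(6,0),(12,
  0),(5,0)]⟩⟩,⟨true,0,⟨0,[(18,0)]⟩,⟨0,[(5,0),(13,0)]⟩⟩,⟨false,0,⟨0,[(26,0)]⟩,⟨0,[(25,0),(2,0)]⟩⟩,
  ⟨false,0,⟨1,[(3,0),(2,0),(7,0),(0,0),(2,0),(6,0),(3,0)]⟩,⟨0,[(2,0),(6,0)]⟩⟩,⟨true,0,⟨0,[(30,0)]⟩,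
  ⟨0,[]⟩⟩,⟨false,0,⟨0,[(6,0),(7,0),(0,0),(9,0)]⟩,⟨1,[(0,0),(1,1),(6,0),(9,0),(4,0)]⟩⟩,[.o ⟨false,0,
  ⟨0,[(25,0)]⟩,⟨7,[(0,1),(1,3),(8,1),(5,0),(2,0),(7,3)]⟩⟩,.o ⟨false,1,⟨3,[(12,0),(0,0),(11,3),(2,
  1)]⟩,⟨0,[(2,0)]⟩⟩,.o ⟨false,1,⟨1,[(19,1),(0,0),(6,0)]⟩,⟨0,[(5,0),(12,0)]⟩⟩,.a ⟨true,0,⟨0,[(19,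
  0)]⟩,⟨0,[(18,0)]⟩⟩ ⟨false,1,⟨7,[(0,3),(11,0),(0,0),(2,1)]⟩,⟨0,[(6,0),(12,0)]⟩⟩ ⟨true,0,⟨0,[(18,0),
  (6,0)]⟩,⟨0,[(2,0),(16,0)]⟩⟩]⟩) (.Q [0,0,0,0,0,2,0,0,-1,1] (.p true [0,0,1] [1] (⟨0,[(19,0)]⟩,⟨0,
  [(18,0)]⟩) .k 1 (⟨0,[]⟩,⟨0,[]⟩) .k .k) (.R ⟨0,false,false,false,[1,-1,-1],[1,-1],[0,1,-1,-1,0,0,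
  -1],(⟨0,[(8,0)]⟩,⟨1,[(0,0),(14,0),(0,0),(3,0)]⟩),(⟨0,[(22,0)]⟩,⟨0,[(23,0)]⟩),⟨0,[(0,0)]⟩,(.x (-1)
  ⟨3,[(13,0),(0,0),(6,1),(0,3)]⟩ ⟨0,[(23,0)]⟩),.k,(.x 0 ⟨5,[(1,3),(1,9),(1,1),(11,0),(3,0),(0,11),
  (3,1)]⟩ ⟨3,[(0,3),(12,0),(0,0),(4,3),(8,1)]⟩),.k,.k,.k,⟨false,1,⟨7,[(13,0),(0,0),(2,3),(6,3),(3,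
  1)]⟩,⟨1,[(1,0),(0,1),(2,0),(19,0)]⟩⟩,⟨true,0,⟨0,[(6,0),(12,0)]⟩,⟨0,[(20,0)]⟩⟩,⟨true,0,⟨0,[(31,
  0)]⟩,⟨0,[]⟩⟩,⟨false,0,⟨0,[(9,0)]⟩,⟨11,[(10,7),(2,0),(0,0),(2,1),(2,3),(3,3)]⟩⟩,⟨false,0,⟨0,[]⟩,⟨0,
  []⟩⟩,⟨false,0,⟨0,[]⟩,⟨0,[]⟩⟩,[.o ⟨false,0,⟨0,[(3,0)]⟩,⟨3,[(13,0),(0,0),(11,3),(2,1)]⟩⟩,.o ⟨false,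
  1,⟨0,[(11,0),(17,0)]⟩,⟨0,[(26,0)]⟩⟩,.a ⟨true,0,⟨0,[(20,0)]⟩,⟨0,[(19,0)]⟩⟩ ⟨false,1,⟨0,[(2,0),(14,
  0)]⟩,⟨9,[(1,5),(0,1),(15,0),(10,4)]⟩⟩ ⟨true,0,⟨0,[(3,0),(15,0)]⟩,⟨0,[(20,0),(5,0)]⟩⟩,.o ⟨false,0,
  ⟨0,[(6,0),(13,0)]⟩,⟨1,[(19,1),(1,0),(6,0)]⟩⟩]⟩) (.R ⟨1,false,false,false,[1,-1,-1],[1,-1],[1,0,-1,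
  -1,0,0,-1],(⟨0,[(8,0)]⟩,⟨0,[(20,0),(2,0)]⟩),(⟨0,[(22,0)]⟩,⟨0,[(23,0)]⟩),⟨0,[(0,0)]⟩,(.x (-1) ⟨3,
  [(13,0),(0,0),(6,1),(0,3)]⟩ ⟨0,[(23,0)]⟩),.k,(.x 0 ⟨0,[(0,0),(5,0),(13,0)]⟩ ⟨3,[(13,0),(0,0),(8,
  7),(4,1)]⟩),.k,(.x (-1) ⟨3,[(13,0),(0,0),(6,1),(0,3)]⟩ ⟨0,[(23,0)]⟩),.k,⟨false,1,⟨1,[(17,0),(10,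
  0)]⟩,⟨0,[(4,0)]⟩⟩,⟨true,0,⟨0,[(6,0),(12,0)]⟩,⟨0,[(20,0)]⟩⟩,⟨true,0,⟨0,[]⟩,⟨0,[(31,0)]⟩⟩,⟨false,0,
  ⟨0,[(9,0)]⟩,⟨11,[(10,7),(2,0),(0,0),(2,1),(2,3),(3,3)]⟩⟩,⟨false,1,⟨0,[(26,0),(2,0)]⟩,⟨0,[(27,
  0)]⟩⟩,⟨false,0,⟨0,[(7,0)]⟩,⟨11,[(10,7),(2,0),(0,0),(2,1),(2,3),(3,3),(2,11)]⟩⟩,[.o ⟨false,0,⟨0,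
  [(3,0)]⟩,⟨3,[(13,0),(0,0),(11,3),(2,1)]⟩⟩,.o ⟨false,1,⟨0,[(11,0),(17,0)]⟩,⟨0,[(26,0)]⟩⟩,.a ⟨true,
  0,⟨0,[(20,0)]⟩,⟨0,[(19,0)]⟩⟩ ⟨false,1,⟨0,[(5,0),(21,0)]⟩,⟨7,[(1,3),(11,0),(0,0),(3,1)]⟩⟩ ⟨true,0,
  ⟨0,[(3,0),(15,0)]⟩,⟨0,[(20,0),(5,0)]⟩⟩,.o ⟨false,0,⟨0,[(6,0),(13,0)]⟩,⟨1,[(19,1),(1,0),(6,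
  0)]⟩⟩]⟩))) (.R ⟨1,false,false,false,[1,0,-1],[1,-1],[1,0,0,0,0,0,-1],(⟨0,[(17,0)]⟩,⟨0,[(18,0)]⟩),
  (⟨0,[(20,0)]⟩,⟨0,[(21,0)]⟩),⟨0,[(6,0)]⟩,.k,.k,(.x (-1) ⟨3,[(11,0),(0,0),(6,1),(0,3)]⟩ ⟨0,[(21,
  0)]⟩),(.x (-1) ⟨0,[(21,0),(4,0)]⟩ ⟨0,[(10,0),(9,0)]⟩),.k,.k,⟨true,0,⟨0,[(0,0)]⟩,⟨0,[(2,0),(22,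
  0)]⟩⟩,⟨false,0,⟨0,[(4,0),(12,0)]⟩,⟨0,[(18,0),(7,0)]⟩⟩,⟨true,0,⟨0,[]⟩,⟨0,[(29,0)]⟩⟩,⟨false,0,⟨0,
  [(7,0),(17,0)]⟩,⟨0,[(8,0),(15,0)]⟩⟩,⟨false,1,⟨0,[(24,0),(2,0)]⟩,⟨0,[(25,0)]⟩⟩,⟨false,0,⟨0,[(7,
  0)]⟩,⟨11,[(8,7),(2,0),(0,0),(2,1),(2,3),(3,3)]⟩⟩,[.o ⟨false,0,⟨0,[(1,0)]⟩,⟨3,[(11,0),(0,0),(11,3),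
  (2,1)]⟩⟩,.o ⟨false,1,⟨0,[(9,0),(17,0)]⟩,⟨0,[(24,0)]⟩⟩,.o ⟨false,1,⟨1,[(18,1),(0,0),(6,0)]⟩,⟨0,[(4,
  0),(12,0)]⟩⟩,.a ⟨true,0,⟨0,[(18,0)]⟩,⟨0,[(17,0)]⟩⟩ ⟨false,1,⟨0,[(3,0)]⟩,⟨0,[(2,0),(25,0)]⟩⟩ ⟨true,
  0,⟨0,[(1,0),(15,0)]⟩,⟨0,[(18,0),(5,0)]⟩⟩]⟩))) (.Q [0,0,0,0,0,1,0,0,0,-1] (.ed true [1,-1,1] .k)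
  (.Q [0,0,0,1,0,0,0,0,1] (.pp false [-1,1]) (.R ⟨0,false,false,true,[0,1,-1],[0,1],[0,1,1,1],(⟨0,
  [(1,0)]⟩,⟨0,[(18,0),(1,0)]⟩),(⟨0,[(21,0)]⟩,⟨0,[(20,0)]⟩),⟨0,[(18,0)]⟩,(.r 0 ⟨0,[(0,0),(1,0),(1,
  0)]⟩ ⟨1,[(16,0),(8,1),(0,0)]⟩),.k,.k,.k,.k,.k,⟨false,1,⟨3,[(11,0),(0,0),(13,1)]⟩,⟨0,[]⟩⟩,⟨true,0,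
  ⟨1,[(1,0),(4,0),(3,0)]⟩,⟨0,[(18,0)]⟩⟩,⟨true,0,⟨0,[(7,0),(10,0),(3,0)]⟩,⟨0,[(2,0)]⟩⟩,⟨false,0,⟨0,
  [(7,0),(21,0)]⟩,⟨0,[(8,0)]⟩⟩,⟨false,0,⟨0,[]⟩,⟨0,[]⟩⟩,⟨false,0,⟨0,[]⟩,⟨0,[]⟩⟩,[.o ⟨false,0,⟨0,[(24,
  0)]⟩,⟨0,[(9,0),(17,0)]⟩⟩,.a ⟨true,0,⟨0,[(0,0)]⟩,⟨0,[(25,0)]⟩⟩ ⟨true,0,⟨0,[(0,0),(3,0)]⟩,⟨0,[(25,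
  0)]⟩⟩ ⟨false,0,⟨3,[(1,0),(0,1),(2,1),(0,0),(3,0),(13,1)]⟩,⟨0,[(18,0),(6,0),(0,0)]⟩⟩,.o ⟨false,1,
  ⟨0,[(18,0),(7,0)]⟩,⟨1,[(1,0),(2,1),(1,0),(3,0)]⟩⟩,.o ⟨false,1,⟨2,[(8,1),(7,0),(1,0),(3,0)]⟩,⟨0,
  [(2,0),(2,0),(3,0)]⟩⟩]⟩) (.R ⟨1,false,false,true,[1,0,-1],[0,1],[0,1,0,-1,0,0,-1],(⟨0,[(17,0)]⟩,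
  ⟨0,[(18,0)]⟩),(⟨0,[(21,0)]⟩,⟨0,[(20,0)]⟩),⟨0,[(6,0)]⟩,.k,.k,(.x (-1) ⟨3,[(11,0),(0,0),(6,1),(0,
  3)]⟩ ⟨0,[(21,0)]⟩),(.x (-1) ⟨3,[(11,0),(0,0),(6,1),(0,3)]⟩ ⟨0,[(21,0)]⟩),(.r (-1) ⟨0,[(2,0),(22,
  1),(0,0)]⟩ ⟨0,[(5,0),(12,0),(5,0),(3,0)]⟩),.k,⟨false,1,⟨0,[(2,0),(22,1),(0,0)]⟩,⟨0,[(5,0),(12,0),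
  (5,0)]⟩⟩,⟨true,0,⟨0,[(17,0)]⟩,⟨0,[(4,0),(13,0)]⟩⟩,⟨false,0,⟨0,[(25,0)]⟩,⟨0,[(24,0),(2,0)]⟩⟩,
  ⟨false,0,⟨0,[(7,0),(5,0),(0,0),(9,0)]⟩,⟨0,[(0,0),(7,0)]⟩⟩,⟨true,0,⟨0,[(29,0)]⟩,⟨0,[]⟩⟩,⟨false,0,
  ⟨0,[(5,0),(7,0),(0,0),(9,0)]⟩,⟨0,[(0,0),(7,0),(16,0)]⟩⟩,[.o ⟨false,0,⟨0,[(24,0)]⟩,⟨0,[(9,0),(17,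
  0)]⟩⟩,.o ⟨false,1,⟨3,[(11,0),(0,0),(11,3),(2,1)]⟩,⟨0,[(0,0)]⟩⟩,.o ⟨false,1,⟨1,[(18,1),(0,0),(6,
  0)]⟩,⟨1,[(1,0),(4,0),(3,0)]⟩⟩,.a ⟨true,0,⟨0,[(18,0)]⟩,⟨0,[(17,0)]⟩⟩ ⟨false,1,⟨1,[(15,0),(9,1),(0,
  0)]⟩,⟨0,[(5,0),(12,0)]⟩⟩ ⟨true,0,⟨0,[(17,0),(6,0)]⟩,⟨0,[(0,0),(17,0)]⟩⟩]⟩)) (.I [1,0,0,0,0,0,1]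
  (.N [0,0,1] 0 ⟨0,[(0,0)]⟩ ⟨0,[(2,0)]⟩ .k) (.I [1,-1,-2,-1,1,0,-1] (.Q [0,0,0,1,0,0,0,0,1] (.pp
  false [-1,1]) (.Q [0,0,0,1,0,0,0,0,1,-1] (.p false [0,0,1] [1] (⟨0,[(20,0)]⟩,⟨0,[(19,0)]⟩) .k 1
  (⟨0,[]⟩,⟨0,[]⟩) .k .k) (.R ⟨1,false,false,true,[1,0,-1],[0,1],[1,1,0,0,0,0,-1],(⟨0,[(20,0)]⟩,⟨0,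
  [(21,0)]⟩),(⟨0,[(24,0)]⟩,⟨0,[(23,0)]⟩),⟨0,[(9,0)]⟩,.k,.k,(.r (-1) ⟨19,[(2,7),(11,2),(0,2),(2,5),
  (6,3),(2,11)]⟩ ⟨0,[(10,0),(10,0),(5,0)]⟩),(.r (-1) ⟨19,[(2,7),(11,2),(0,2),(2,5),(6,3),(2,11)]⟩
  ⟨0,[(10,0),(10,0),(5,0)]⟩),(.r (-1) ⟨19,[(2,15),(11,0),(0,0),(2,1),(6,7),(2,23)]⟩ ⟨1,[(1,0),(6,0),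
  (1,0),(2,0),(7,1),(5,1)]⟩),.k,⟨false,1,⟨19,[(2,15),(11,0),(0,0),(2,1),(6,7),(2,3)]⟩,⟨0,[(10,0),
  (10,0),(5,0)]⟩⟩,⟨true,0,⟨0,[(20,0)]⟩,⟨0,[(7,0),(13,0)]⟩⟩,⟨false,0,⟨0,[]⟩,⟨3,[(14,0),(0,0),(14,
  1)]⟩⟩,⟨false,0,⟨0,[(1,0),(8,0),(21,0)]⟩,⟨0,[(2,0),(4,0),(13,0)]⟩⟩,⟨true,0,⟨0,[(27,0)]⟩,⟨0,[(28,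
  0)]⟩⟩,⟨false,0,⟨0,[(1,0),(8,0),(16,0)]⟩,⟨0,[(2,0),(4,0),(13,0),(6,0)]⟩⟩,[.o ⟨false,0,⟨0,[(27,0)]⟩,
  ⟨0,[(12,0),(17,0)]⟩⟩,.a ⟨true,0,⟨0,[(1,0)]⟩,⟨0,[(28,0)]⟩⟩ ⟨true,0,⟨0,[(5,0)]⟩,⟨0,[(10,0),(10,0),
  (10,0)]⟩⟩ ⟨false,0,⟨0,[(0,0)]⟩,⟨3,[(2,1),(9,1),(6,0),(1,3),(0,0)]⟩⟩,.o ⟨false,1,⟨1,[(21,1),(0,0),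
  (6,0)]⟩,⟨0,[(7,0),(12,0)]⟩⟩,.e ⟨false,1,⟨1,[(18,0),(10,0)]⟩,⟨0,[(10,0),(10,0)]⟩⟩ ⟨false,0,⟨0,[(0,
  0)]⟩,⟨0,[(12,0),(8,0),(8,0)]⟩⟩]⟩) (.R ⟨1,false,false,true,[1,0,-1],[0,1],[1,1,0,0,0,0,-1],(⟨0,
  [(20,0)]⟩,⟨0,[(21,0)]⟩),(⟨0,[(24,0)]⟩,⟨0,[(23,0)]⟩),⟨0,[(9,0)]⟩,.k,.k,(.r (-1) ⟨19,[(2,7),(11,2),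
  (0,2),(2,5),(6,3),(2,11)]⟩ ⟨0,[(10,0),(10,0),(5,0)]⟩),(.r (-1) ⟨19,[(2,7),(11,2),(0,2),(2,5),(6,
  3),(2,11)]⟩ ⟨0,[(10,0),(10,0),(5,0)]⟩),(.r (-1) ⟨19,[(2,15),(11,0),(0,0),(2,1),(6,7),(2,23)]⟩ ⟨1,
  [(1,0),(6,0),(1,0),(2,0),(7,1),(5,1)]⟩),.k,⟨false,1,⟨19,[(2,15),(11,0),(0,0),(2,1),(6,7),(2,3)]⟩,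
  ⟨0,[(10,0),(10,0),(5,0)]⟩⟩,⟨true,0,⟨0,[(20,0)]⟩,⟨0,[(7,0),(13,0)]⟩⟩,⟨false,0,⟨0,[]⟩,⟨3,[(14,0),(0,
  0),(14,1)]⟩⟩,⟨false,0,⟨0,[(1,0),(8,0),(21,0)]⟩,⟨1,[(0,0),(1,0),(4,0),(3,0)]⟩⟩,⟨true,0,⟨0,[(27,
  0)]⟩,⟨0,[(28,0)]⟩⟩,⟨false,0,⟨0,[(1,0),(8,0),(16,0)]⟩,⟨3,[(0,3),(1,1),(15,0),(9,1),(1,0)]⟩⟩,[.o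
  ⟨false,0,⟨0,[(27,0)]⟩,⟨0,[(12,0),(17,0)]⟩⟩,.e ⟨true,0,⟨0,[(5,0)]⟩,⟨0,[(10,0),(10,0),(10,0)]⟩⟩
  ⟨true,0,⟨4,[(1,2),(3,0),(2,0),(4,1),(6,3),(6,0)]⟩,⟨0,[(0,0)]⟩⟩,.o ⟨false,1,⟨1,[(21,1),(0,0),(6,
  0)]⟩,⟨0,[(7,0),(12,0)]⟩⟩,.a ⟨true,0,⟨0,[(21,0)]⟩,⟨0,[(20,0)]⟩⟩ ⟨false,1,⟨1,[(18,0),(10,0)]⟩,⟨0,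
  [(10,0),(10,0)]⟩⟩ ⟨true,0,⟨0,[(20,0),(6,0)]⟩,⟨0,[(0,0)]⟩⟩]⟩)) (.R ⟨1,false,false,true,[1,0,-1],[0,
  1],[1,0,0,0,0,0,-1],(⟨0,[(19,0)]⟩,⟨0,[(20,0)]⟩),(⟨0,[(23,0)]⟩,⟨0,[(22,0)]⟩),⟨0,[(8,0)]⟩,.k,.k,(.x
  (-1) ⟨3,[(13,0),(0,0),(6,1),(0,3)]⟩ ⟨0,[(23,0)]⟩),(.x (-1) ⟨3,[(13,0),(0,0),(6,1),(0,3)]⟩ ⟨0,[(23,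
  0)]⟩),(.r (-1) ⟨19,[(1,15),(11,0),(0,0),(2,1),(6,7),(2,23)]⟩ ⟨0,[(7,0),(12,0),(5,0),(3,0)]⟩),.k,
  ⟨false,1,⟨0,[(1,0)]⟩,⟨0,[(9,0),(10,0),(5,0),(4,0)]⟩⟩,⟨true,0,⟨0,[(19,0)]⟩,⟨0,[(6,0),(13,0)]⟩⟩,
  ⟨true,0,⟨0,[]⟩,⟨0,[(31,0)]⟩⟩,⟨false,0,⟨0,[(9,0),(5,0),(0,0),(9,0)]⟩,⟨0,[(0,0),(9,0)]⟩⟩,⟨false,1,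
  ⟨0,[(26,0),(2,0)]⟩,⟨0,[(27,0)]⟩⟩,⟨false,0,⟨0,[(7,0),(7,0),(0,0),(9,0)]⟩,⟨0,[(0,0),(9,0),(16,0)]⟩⟩,
  [.o ⟨false,0,⟨0,[(26,0)]⟩,⟨0,[(11,0),(17,0)]⟩⟩,.o ⟨false,1,⟨3,[(13,0),(0,0),(11,3),(2,1)]⟩,⟨0,[(0,
  0)]⟩⟩,.o ⟨false,1,⟨1,[(20,1),(0,0),(6,0)]⟩,⟨0,[(6,0),(12,0)]⟩⟩,.a ⟨true,0,⟨0,[(20,0)]⟩,⟨0,[(19,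
  0)]⟩⟩ ⟨false,1,⟨0,[(5,0)]⟩,⟨0,[(9,0),(10,0),(10,0)]⟩⟩ ⟨true,0,⟨0,[(19,0),(6,0)]⟩,⟨0,[(0,0),(19,
  0)]⟩⟩]⟩)) (.Q [0,0,0,2,0,0,0,0,1] (.pp false [-1,1]) (.S ⟨1,0,[0,1,-1,-2],[1,-1],[1,0,-1,-1],(⟨0,
  [(22,0)]⟩,⟨0,[(23,0)]⟩),⟨0,[(3,0),(4,0)]⟩,.k,(.r (-1) ⟨0,[(27,1),(0,0)]⟩ ⟨0,[(0,0),(11,0)]⟩),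
  ⟨true,0,⟨0,[]⟩,⟨0,[(31,0)]⟩⟩,⟨false,0,⟨0,[(27,0)]⟩,⟨7,[(0,3),(12,0),(0,0),(6,1),(7,3)]⟩⟩,⟨false,1,
  ⟨7,[(0,3),(12,0),(0,0),(6,1),(7,3)]⟩,⟨0,[(27,0)]⟩⟩,⟨true,0,⟨0,[(31,0)]⟩,⟨0,[]⟩⟩,[.o ⟨false,0,⟨0,
  [(11,0),(15,0)]⟩,⟨1,[(0,1),(20,0),(7,0)]⟩⟩,.a ⟨true,0,⟨0,[(27,1)]⟩,⟨0,[(0,0)]⟩⟩ ⟨true,1,⟨1,[(27,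
  1),(0,0),(0,0)]⟩,⟨0,[(1,0),(2,0)]⟩⟩ ⟨false,1,⟨0,[(27,1),(0,0)]⟩,⟨0,[(0,0),(5,0)]⟩⟩,.o ⟨false,0,⟨0,
  [(6,0)]⟩,⟨3,[(13,0),(0,0),(13,1)]⟩⟩,.o ⟨false,0,⟨0,[(12,0)]⟩,⟨0,[(28,0)]⟩⟩]⟩) (.Q [0,0,0,-1,0,0,0,
  0,-1,1] (.p true [0,0,1] [1] (⟨0,[(20,0)]⟩,⟨0,[(19,0)]⟩) .k 1 (⟨0,[]⟩,⟨0,[]⟩) .k .k) (.R ⟨1,false,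
  false,true,[1,0,-1],[0,1],[1,1,0,0,0,0,-1],(⟨0,[(20,0)]⟩,⟨0,[(21,0)]⟩),(⟨0,[(24,0)]⟩,⟨0,[(23,
  0)]⟩),⟨0,[(9,0)]⟩,.k,.k,(.x (-1) ⟨3,[(14,0),(0,0),(6,1),(0,3)]⟩ ⟨0,[(24,0)]⟩),(.x (-1) ⟨3,[(14,0),
  (0,0),(6,1),(0,3)]⟩ ⟨0,[(24,0)]⟩),(.r (-1) ⟨0,[(5,0),(22,1),(0,0)]⟩ ⟨0,[(2,0),(24,0),(2,0)]⟩),.k,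
  ⟨false,1,⟨0,[(5,0),(22,0),(0,0)]⟩,⟨4,[(2,1),(5,1),(2,0),(7,0),(1,0),(5,0)]⟩⟩,⟨true,0,⟨0,[(20,0)]⟩,
  ⟨1,[(0,0),(1,0),(4,0),(3,0)]⟩⟩,⟨false,0,⟨0,[]⟩,⟨3,[(14,0),(0,0),(14,1)]⟩⟩,⟨false,0,⟨4,[(2,1),(5,
  1),(2,0),(4,0),(0,0),(1,0),(0,3),(6,0)]⟩,⟨0,[(0,0),(5,0)]⟩⟩,⟨true,0,⟨0,[(27,0)]⟩,⟨0,[(28,0)]⟩⟩,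
  ⟨false,0,⟨0,[(8,0),(7,0),(0,0),(9,0)]⟩,⟨0,[(1,0),(9,0)]⟩⟩,[.o ⟨false,0,⟨0,[(27,0)]⟩,⟨7,[(1,3),(12,
  0),(0,0),(6,1),(7,3)]⟩⟩,.e ⟨true,0,⟨0,[(5,0)]⟩,⟨2,[(2,0),(16,0),(6,0),(1,0)]⟩⟩ ⟨true,0,⟨5,[(2,2),
  (2,0),(2,1),(2,1),(6,0),(1,5),(6,0)]⟩,⟨0,[(0,0)]⟩⟩,.o ⟨false,1,⟨1,[(21,1),(0,0),(6,0)]⟩,⟨0,[(7,0),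
  (12,0)]⟩⟩,.a ⟨true,0,⟨0,[(21,0)]⟩,⟨0,[(20,0)]⟩⟩ ⟨false,1,⟨1,[(18,0),(10,0)]⟩,⟨0,[(10,0),(10,0)]⟩⟩
  ⟨true,0,⟨0,[(20,0),(6,0)]⟩,⟨0,[(0,0)]⟩⟩]⟩) (.R ⟨2,true,false,false,[0,1],[1,-1],[0,1,1],(⟨0,[]⟩,
  ⟨0,[]⟩),(⟨0,[(23,0)]⟩,⟨0,[(24,0)]⟩),⟨0,[]⟩,.k,.k,.k,(.r 0 ⟨2,[(2,2),(2,0),(2,1),(2,1),(6,0),(8,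
  0)]⟩ ⟨0,[(28,1),(0,0)]⟩),.k,.k,⟨true,(-1),⟨0,[(2,0),(2,0)]⟩,⟨1,[(28,1),(0,0),(0,0)]⟩⟩,⟨false,0,⟨0,
  [(7,0)]⟩,⟨0,[(16,0),(0,0),(11,0)]⟩⟩,⟨false,0,⟨0,[(28,0)]⟩,⟨0,[(27,0),(2,0)]⟩⟩,⟨true,0,⟨0,[(1,0)]⟩,
  ⟨0,[(0,0),(20,0),(5,0)]⟩⟩,⟨true,0,⟨0,[(32,0)]⟩,⟨0,[]⟩⟩,⟨false,1,⟨7,[(1,3),(12,0),(0,0),(6,1),(7,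
  3)]⟩,⟨0,[(0,0),(20,0)]⟩⟩,[]⟩)))))))

def t5 : Tre :=
  (.Q [0,0,1,0,-1,0,0,0,2,-1] (.p false [-1,1,1] [1] (⟨0,[(4,0)]⟩,⟨0,[(15,0),(2,0)]⟩) (.r 0 ⟨0,[(5,
  0),(10,0),(5,0)]⟩ ⟨1,[(13,0),(9,1),(0,0)]⟩) 1 (⟨0,[]⟩,⟨0,[]⟩) .k .k) (.I [1,0,1,1,0,0,-1] (.I [0,
  0,-2,-2,1,0,-1] (.Q [0,1,-1,-1,1,0,-1,0,-2,1] (.p true [-1,1,1] [1] (⟨0,[(7,0)]⟩,⟨0,[(18,0),(2,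
  0)]⟩) (.r 0 ⟨0,[(8,0),(10,0),(5,0)]⟩ ⟨7,[(0,3),(11,0),(0,0),(2,1)]⟩) 1 (⟨0,[]⟩,⟨0,[]⟩) .k .k) (.K
  ⟨0,[2,-1,-1],1,1,(⟨0,[(19,0),(2,0)]⟩,⟨0,[(8,0)]⟩),(.x (-1) ⟨3,[(13,0),(0,0),(6,1),(0,3)]⟩ ⟨0,[(23,
  0)]⟩),(.r (-1) ⟨0,[(1,0)]⟩ ⟨5,[(4,1),(0,4),(0,5),(5,0),(5,1),(1,1)]⟩),.k,.k,.k,[⟨0,[(3,0)]⟩,⟨13,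
  [(0,1),(4,0),(4,1),(1,8),(5,1),(1,9),(0,7)]⟩,⟨1,[(3,0),(0,1),(15,0),(3,0),(3,0)]⟩,⟨0,[(0,0)]⟩]⟩)
  (.K ⟨0,[-1,1,1],0,(-1),(⟨0,[(8,0)]⟩,⟨0,[(19,0),(2,0)]⟩),(.x 0 ⟨0,[(23,0)]⟩ ⟨3,[(13,0),(0,0),(6,1),
  (0,3)]⟩),.k,(.r 0 ⟨5,[(4,1),(0,4),(0,5),(5,0),(5,1),(1,1)]⟩ ⟨0,[(1,0)]⟩),.k,.k,[⟨0,[(6,0),(13,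
  0)]⟩,⟨5,[(3,1),(8,1),(0,0),(0,0),(4,3)]⟩,⟨11,[(10,7),(0,11),(1,0),(0,0),(2,1),(2,3),(3,3)]⟩,⟨0,
  [(0,0),(10,0),(14,0)]⟩]⟩)) (.K ⟨0,[1,0,-1],1,1,(⟨0,[(18,0)]⟩,⟨0,[(19,0)]⟩),.k,(.x (-1) ⟨3,[(12,0),
  (0,0),(6,1),(0,3)]⟩ ⟨0,[(22,0)]⟩),(.x (-1) ⟨0,[(22,0),(4,0)]⟩ ⟨0,[(11,0),(9,0)]⟩),.k,.k,[⟨0,[(2,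
  0),(2,0)]⟩,⟨3,[(12,0),(0,0),(5,3),(0,1)]⟩,⟨0,[(0,0),(1,0),(7,0),(15,0),(0,0)]⟩,⟨2,[(1,0),(7,1),(0,
  0),(8,0),(0,0),(2,1)]⟩]⟩)) (.K ⟨0,[1,0,-1],1,1,(⟨0,[(17,0)]⟩,⟨0,[(18,0)]⟩),.k,(.x (-1) ⟨3,[(11,0),
  (0,0),(6,1),(0,3)]⟩ ⟨0,[(21,0)]⟩),(.r (-1) ⟨3,[(3,1),(6,1),(0,0),(0,0),(2,1)]⟩ ⟨0,[(0,0)]⟩),.k,.k,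
  [⟨0,[(1,0),(2,0)]⟩,⟨3,[(11,0),(0,0),(5,3),(0,1)]⟩,⟨2,[(0,0),(0,0),(0,1),(6,0),(12,0)]⟩,⟨0,[(8,0),
  (0,0),(14,0)]⟩]⟩)) (.Q [0,1,1,0,-1,0,1,0,1,-1] (.p false [0,0,1] [1] (⟨0,[(17,0)]⟩,⟨0,[(16,0)]⟩)
  .k 1 (⟨0,[]⟩,⟨0,[]⟩) .k .k) (.Q [0,0,0,-1,0,0,0,0,-1,1] (.p true [0,0,1] [1] (⟨0,[(18,0)]⟩,⟨0,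
  [(17,0)]⟩) .k 1 (⟨0,[]⟩,⟨0,[]⟩) .k .k) (.I [0,0,2,2,0,0,-1] (.Q [0,0,-1,0,1,0,-1,0,-1,1] (.p true
  [0,0,1] [1] (⟨0,[(20,0)]⟩,⟨0,[(19,0)]⟩) .k 1 (⟨0,[]⟩,⟨0,[]⟩) .k .k) (.R ⟨0,false,false,true,[-1,1,
  1],[0,0,1],[0,1],(⟨0,[(9,0)]⟩,⟨0,[(20,0),(2,0)]⟩),(⟨0,[(21,0)]⟩,⟨0,[(20,0)]⟩),⟨0,[(20,0)]⟩,(.x 0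
  ⟨0,[(24,0)]⟩ ⟨3,[(14,0),(0,0),(6,1),(0,3)]⟩),.k,.k,.k,.k,.k,⟨false,1,⟨1,[(18,0),(10,0)]⟩,⟨1,[(2,
  1),(0,0),(2,0),(3,0),(18,0)]⟩⟩,⟨true,0,⟨0,[(7,0)]⟩,⟨0,[(16,0),(0,0)]⟩⟩,⟨false,1,⟨1,[(18,0),(9,1),
  (0,0)]⟩,⟨0,[(2,0),(3,0),(3,0)]⟩⟩,⟨true,0,⟨0,[(12,0)]⟩,⟨0,[(8,0)]⟩⟩,⟨false,0,⟨0,[]⟩,⟨0,[]⟩⟩,⟨false,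
  0,⟨0,[]⟩,⟨0,[]⟩⟩,[.a ⟨true,(-1),⟨0,[(3,0)]⟩,⟨0,[(11,0)]⟩⟩ ⟨true,0,⟨0,[(32,0)]⟩,⟨0,[(26,0)]⟩⟩
  ⟨false,0,⟨0,[(3,0),(0,0)]⟩,⟨0,[(11,0),(8,0)]⟩⟩,.o ⟨false,0,⟨7,[(3,2),(6,2),(2,0),(5,0),(0,1),(1,
  1)]⟩,⟨0,[(0,0)]⟩⟩,.o ⟨false,0,⟨0,[(20,0)]⟩,⟨8,[(0,1),(3,5),(8,3),(5,0),(1,0)]⟩⟩,.o ⟨false,0,⟨7,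
  [(5,3),(8,0),(0,0),(2,1),(1,3),(7,3)]⟩,⟨0,[(4,0)]⟩⟩]⟩) (.R ⟨0,false,false,true,[-1,1,1],[0,0,1],
  [0,1],(⟨0,[(9,0)]⟩,⟨0,[(20,0),(2,0)]⟩),(⟨0,[(21,0)]⟩,⟨0,[(20,0)]⟩),⟨0,[(20,0)]⟩,(.x 0 ⟨0,[(24,
  0)]⟩ ⟨3,[(14,0),(0,0),(6,1),(0,3)]⟩),.k,.k,.k,.k,.k,⟨false,1,⟨1,[(18,0),(10,0)]⟩,⟨5,[(0,3),(3,1),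
  (14,0),(1,1),(7,0)]⟩⟩,⟨true,0,⟨0,[(7,0)]⟩,⟨0,[(16,0),(0,0)]⟩⟩,⟨false,1,⟨1,[(18,0),(9,1),(0,0)]⟩,
  ⟨0,[(2,0),(3,0),(3,0)]⟩⟩,⟨true,0,⟨0,[(12,0)]⟩,⟨0,[(8,0)]⟩⟩,⟨false,0,⟨0,[]⟩,⟨0,[]⟩⟩,⟨false,0,⟨0,
  []⟩,⟨0,[]⟩⟩,[.a ⟨true,(-1),⟨0,[(3,0)]⟩,⟨0,[(11,0)]⟩⟩ ⟨true,0,⟨0,[(32,0)]⟩,⟨0,[(26,0)]⟩⟩ ⟨false,0,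
  ⟨0,[(3,0),(0,0)]⟩,⟨0,[(11,0),(8,0)]⟩⟩,.e ⟨false,1,⟨3,[(14,0),(0,0),(13,1)]⟩,⟨0,[]⟩⟩ ⟨false,0,⟨0,
  [(0,0),(3,0)]⟩,⟨11,[(11,7),(2,0),(0,0),(0,3),(0,3),(0,1),(1,7),(4,3)]⟩⟩,.o ⟨false,0,⟨0,[(20,0)]⟩,
  ⟨31,[(1,3),(0,7),(1,23),(8,7),(0,2),(0,2),(3,1)]⟩⟩,.o ⟨false,0,⟨7,[(5,3),(8,0),(0,0),(2,1),(1,3),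
  (7,3)]⟩,⟨0,[(4,0)]⟩⟩]⟩)) (.R ⟨0,false,false,true,[-1,1,1],[0,0,1],[0,1],(⟨0,[(8,0)]⟩,⟨0,[(19,0),
  (2,0)]⟩),(⟨0,[(20,0)]⟩,⟨0,[(19,0)]⟩),⟨0,[(19,0)]⟩,(.x 0 ⟨0,[(23,0)]⟩ ⟨3,[(13,0),(0,0),(6,1),(0,
  3)]⟩),.k,.k,.k,.k,.k,⟨false,1,⟨1,[(17,0),(10,0)]⟩,⟨24,[(0,6),(2,5),(0,9),(0,1),(12,3),(1,3)]⟩⟩,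
  ⟨true,0,⟨0,[(6,0)]⟩,⟨0,[(15,0),(0,0)]⟩⟩,⟨false,1,⟨7,[(0,3),(12,0),(0,0),(2,5)]⟩,⟨0,[(1,0),(3,0),
  (3,0)]⟩⟩,⟨true,0,⟨0,[(11,0)]⟩,⟨0,[(7,0)]⟩⟩,⟨false,0,⟨0,[]⟩,⟨0,[]⟩⟩,⟨false,0,⟨0,[]⟩,⟨0,[]⟩⟩,[.a
  ⟨true,(-1),⟨0,[(2,0)]⟩,⟨0,[(10,0)]⟩⟩ ⟨true,0,⟨0,[(31,0)]⟩,⟨0,[(25,0)]⟩⟩ ⟨false,0,⟨0,[(2,0),(0,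
  0)]⟩,⟨0,[(10,0),(8,0)]⟩⟩,.e ⟨false,1,⟨3,[(13,0),(0,0),(13,1)]⟩,⟨0,[]⟩⟩ ⟨false,0,⟨0,[(0,0),(4,0),
  (0,1)]⟩,⟨7,[(0,3),(6,7),(5,0),(0,0),(2,5)]⟩⟩,.o ⟨false,0,⟨0,[(19,0)]⟩,⟨9,[(3,7),(8,3),(0,0),(0,0),
  (5,1)]⟩⟩,.o ⟨false,0,⟨7,[(4,3),(8,0),(0,0),(2,1),(1,3),(7,3)]⟩,⟨0,[(3,0)]⟩⟩]⟩)) (.Q [0,0,0,0,0,0,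
  1,0,-1] (.pp true [-1,1]) (.R ⟨0,false,false,true,[-1,1,1],[0,0,1],[0,1],(⟨0,[(8,0)]⟩,⟨0,[(19,0),
  (2,0)]⟩),(⟨0,[(20,0)]⟩,⟨0,[(19,0)]⟩),⟨0,[(19,0)]⟩,(.x 0 ⟨0,[(23,0)]⟩ ⟨3,[(13,0),(0,0),(6,1),(0,
  3)]⟩),.k,.k,.k,.k,.k,⟨false,1,⟨1,[(17,0),(10,0)]⟩,⟨3,[(0,1),(1,1),(17,1),(7,0),(0,0)]⟩⟩,⟨true,0,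
  ⟨0,[(6,0)]⟩,⟨0,[(15,0),(0,0)]⟩⟩,⟨false,1,⟨1,[(17,0),(9,1),(0,0)]⟩,⟨2,[(0,1),(3,0),(0,0),(14,0),(4,
  0),(3,0)]⟩⟩,⟨true,0,⟨0,[(11,0)]⟩,⟨0,[(7,0)]⟩⟩,⟨false,0,⟨0,[]⟩,⟨0,[]⟩⟩,⟨false,0,⟨0,[]⟩,⟨0,[]⟩⟩,[.a
  ⟨true,(-1),⟨0,[(2,0)]⟩,⟨0,[(10,0)]⟩⟩ ⟨true,0,⟨0,[(31,0)]⟩,⟨0,[(25,0)]⟩⟩ ⟨false,0,⟨18,[(0,15),(1,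
  0),(9,3),(5,0),(1,0),(3,8)]⟩,⟨0,[(10,0),(8,0)]⟩⟩,.e ⟨false,1,⟨3,[(13,0),(0,0),(13,1)]⟩,⟨0,[]⟩⟩
  ⟨false,0,⟨0,[(0,0)]⟩,⟨11,[(10,7),(2,0),(0,0),(0,3),(0,3),(0,1),(1,7),(4,3)]⟩⟩,.o ⟨false,0,⟨0,[(19,
  0)]⟩,⟨9,[(3,7),(8,3),(0,0),(0,0),(5,1)]⟩⟩,.o ⟨false,0,⟨7,[(4,3),(8,0),(0,0),(2,1),(1,3),(7,3)]⟩,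
  ⟨0,[(3,0)]⟩⟩]⟩) (.I [1,1,1,0,-1,0,1] (.R ⟨0,false,false,true,[-1,1,1],[0,0,1],[1,1,1,0,0,0,1],(⟨0,
  [(9,0)]⟩,⟨0,[(20,0),(2,0)]⟩),(⟨0,[(21,0)]⟩,⟨0,[(20,0)]⟩),⟨0,[(20,0)]⟩,(.x 0 ⟨0,[(24,0)]⟩ ⟨3,[(14,
  0),(0,0),(6,1),(0,3)]⟩),.k,.k,.k,.k,.k,⟨false,0,⟨0,[]⟩,⟨3,[(14,0),(0,0),(13,1)]⟩⟩,⟨true,0,⟨0,[(7,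
  0)]⟩,⟨0,[(16,0),(0,0)]⟩⟩,⟨false,0,⟨0,[(28,0)]⟩,⟨7,[(6,3),(7,0),(0,0),(6,1),(7,3)]⟩⟩,⟨true,0,⟨0,
  [(12,0)]⟩,⟨0,[(8,0)]⟩⟩,⟨false,0,⟨0,[]⟩,⟨0,[]⟩⟩,⟨false,0,⟨0,[]⟩,⟨0,[]⟩⟩,[.a ⟨true,(-1),⟨0,[(3,0)]⟩,
  ⟨0,[(11,0)]⟩⟩ ⟨true,(-1),⟨0,[(0,0)]⟩,⟨1,[(18,0),(11,0)]⟩⟩ ⟨false,0,⟨1,[(0,1),(21,0),(6,0)]⟩,⟨0,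
  [(11,0),(8,0)]⟩⟩,.o ⟨false,0,⟨7,[(3,2),(6,2),(2,0),(5,0),(0,1),(1,1)]⟩,⟨0,[(1,0),(2,0)]⟩⟩,.o
  ⟨false,0,⟨0,[(20,0)]⟩,⟨9,[(4,7),(8,3),(0,0),(0,0),(5,1)]⟩⟩,.o ⟨false,0,⟨7,[(5,3),(8,0),(0,0),(2,
  1),(1,3),(7,3)]⟩,⟨0,[(4,0)]⟩⟩]⟩) (.R ⟨0,false,false,true,[-1,1,1],[0,0,1],[1],(⟨0,[(9,0)]⟩,⟨0,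
  [(20,0),(2,0)]⟩),(⟨0,[(21,0)]⟩,⟨0,[(20,0)]⟩),⟨0,[(20,0)]⟩,(.x 0 ⟨0,[(24,0)]⟩ ⟨3,[(14,0),(0,0),(6,
  1),(0,3)]⟩),.k,.k,.k,.k,.k,⟨false,1,⟨0,[(0,0)]⟩,⟨3,[(3,1),(0,0),(14,0),(1,0),(3,0)]⟩⟩,⟨true,0,⟨0,
  [(7,0)]⟩,⟨0,[(16,0),(0,0)]⟩⟩,⟨false,1,⟨0,[(0,0),(27,0)]⟩,⟨8,[(4,2),(0,4),(0,1),(6,0),(5,1),(1,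
  1)]⟩⟩,⟨true,0,⟨0,[(12,0)]⟩,⟨0,[(8,0)]⟩⟩,⟨false,0,⟨0,[]⟩,⟨0,[]⟩⟩,⟨false,0,⟨0,[]⟩,⟨0,[]⟩⟩,[.a ⟨true,
  (-1),⟨0,[(3,0)]⟩,⟨0,[(11,0)]⟩⟩ ⟨true,0,⟨0,[]⟩,⟨0,[(31,0)]⟩⟩ ⟨false,0,⟨0,[(3,0),(0,0)]⟩,⟨0,[(11,0),
  (8,0)]⟩⟩,.o ⟨false,0,⟨7,[(3,2),(6,2),(2,0),(5,0),(0,1),(1,1)]⟩,⟨0,[(1,0),(2,0)]⟩⟩,.o ⟨false,0,⟨0,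
  [(20,0)]⟩,⟨9,[(4,7),(8,3),(0,0),(0,0),(5,1)]⟩⟩,.o ⟨false,0,⟨7,[(5,3),(8,0),(0,0),(2,1),(1,3),(7,
  3)]⟩,⟨0,[(4,0)]⟩⟩]⟩)))) (.Q [0,0,-2,0,1,0,0,0,-1,1] (.p true [0,0,1] [1] (⟨0,[(18,0)]⟩,⟨0,[(17,
  0)]⟩) .k 1 (⟨0,[]⟩,⟨0,[]⟩) .k .k) (.R ⟨0,false,false,true,[1,0,-1],[2,-1,-1],[1,0,1],(⟨0,[(18,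
  0)]⟩,⟨0,[(19,0)]⟩),(⟨0,[(18,0),(2,0)]⟩,⟨0,[(7,0)]⟩),⟨0,[(7,0)]⟩,.k,(.x (-1) ⟨3,[(12,0),(0,0),(6,
  1),(0,3)]⟩ ⟨0,[(22,0)]⟩),(.x (-1) ⟨3,[(12,0),(0,0),(6,1),(0,3)]⟩ ⟨0,[(22,0)]⟩),.k,.k,.k,⟨false,0,
  ⟨1,[(0,0),(0,0),(1,1),(4,0),(10,0)]⟩,⟨0,[(1,0),(16,0),(4,0),(2,0)]⟩⟩,⟨true,0,⟨0,[(5,0)]⟩,⟨0,[(14,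
  0),(0,0)]⟩⟩,⟨false,0,⟨0,[(8,0),(10,0)]⟩,⟨1,[(16,0),(10,0)]⟩⟩,⟨true,0,⟨0,[(10,0)]⟩,⟨0,[(6,0)]⟩⟩,
  ⟨false,0,⟨0,[]⟩,⟨0,[]⟩⟩,⟨false,0,⟨0,[]⟩,⟨0,[]⟩⟩,[.o ⟨false,1,⟨3,[(1,1),(0,0),(7,3),(5,0),(2,0),(3,
  0)]⟩,⟨0,[(6,0),(1,0)]⟩⟩,.o ⟨false,1,⟨0,[(1,0),(8,0)]⟩,⟨15,[(3,7),(0,3),(7,0),(0,0),(3,3),(0,7),(1,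
  1)]⟩⟩,.o ⟨false,1,⟨5,[(0,1),(1,1),(9,0),(0,0),(5,1)]⟩,⟨0,[(5,0),(12,0)]⟩⟩,.a ⟨true,0,⟨0,[(19,0)]⟩,
  ⟨0,[(18,0)]⟩⟩ ⟨true,0,⟨0,[]⟩,⟨0,[(30,0)]⟩⟩ ⟨false,1,⟨0,[(1,0),(8,0),(7,0)]⟩,⟨0,[(6,0),(1,0),(10,
  0)]⟩⟩]⟩) (.I [0,0,0,0,0,0,-1] (.R ⟨0,false,false,false,[-1,1,1],[0,1],[0,0,1,1],(⟨0,[(8,0)]⟩,⟨0,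
  [(19,0),(2,0)]⟩),(⟨0,[(23,0)]⟩,⟨0,[(22,0)]⟩),⟨0,[(19,0)]⟩,(.x 0 ⟨0,[(23,0)]⟩ ⟨3,[(13,0),(0,0),(6,
  1),(0,3)]⟩),.k,.k,.k,.k,.k,⟨false,1,⟨3,[(13,0),(0,0),(13,1)]⟩,⟨0,[]⟩⟩,⟨true,1,⟨5,[(3,2),(6,1),(7,
  0),(1,0),(3,0)]⟩,⟨0,[(1,0)]⟩⟩,⟨true,0,⟨0,[(0,0)]⟩,⟨0,[(9,0),(10,0),(3,0)]⟩⟩,⟨false,1,⟨0,[(2,0)]⟩,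
  ⟨1,[(1,0),(16,0),(0,0)]⟩⟩,⟨false,0,⟨0,[]⟩,⟨0,[]⟩⟩,⟨false,0,⟨0,[]⟩,⟨0,[]⟩⟩,[.a ⟨true,0,⟨0,[(7,0)]⟩,
  ⟨0,[(27,0)]⟩⟩ ⟨true,0,⟨1,[(5,0),(6,0)]⟩,⟨0,[(27,0)]⟩⟩ ⟨false,1,⟨11,[(3,8),(1,5),(4,1),(7,0),(1,0),
  (3,0)]⟩,⟨0,[(19,0),(7,0)]⟩⟩,.o ⟨false,1,⟨7,[(5,3),(7,0),(0,0),(6,1),(7,3)]⟩,⟨0,[(11,0)]⟩⟩,.o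
  ⟨false,0,⟨0,[(19,0)]⟩,⟨9,[(3,7),(8,3),(0,0),(0,0),(5,1)]⟩⟩,.o ⟨false,0,⟨3,[(1,1),(11,0),(0,0),(4,
  1)]⟩,⟨0,[(3,0)]⟩⟩]⟩) (.R ⟨0,false,false,true,[-1,1,1],[0,1],[0,1,1,1],(⟨0,[(8,0)]⟩,⟨0,[(19,0),(2,
  0)]⟩),(⟨0,[(23,0)]⟩,⟨0,[(22,0)]⟩),⟨0,[(19,0)]⟩,(.x 0 ⟨0,[(23,0)]⟩ ⟨3,[(13,0),(0,0),(6,1),(0,3)]⟩),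
  .k,.k,.k,.k,.k,⟨false,1,⟨3,[(13,0),(0,0),(13,1)]⟩,⟨0,[]⟩⟩,⟨true,1,⟨5,[(3,2),(6,1),(7,0),(1,0),(3,
  0)]⟩,⟨0,[(1,0)]⟩⟩,⟨true,0,⟨0,[(1,0),(0,0),(21,0)]⟩,⟨0,[(0,0)]⟩⟩,⟨false,1,⟨3,[(2,1),(0,0),(13,0),
  (2,0),(3,0)]⟩,⟨1,[(0,0),(3,0),(14,0),(7,0),(1,0)]⟩⟩,⟨false,0,⟨0,[]⟩,⟨0,[]⟩⟩,⟨false,0,⟨0,[]⟩,⟨0,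
  []⟩⟩,[.o ⟨false,0,⟨0,[(26,0)]⟩,⟨0,[(11,0),(17,0)]⟩⟩,.a ⟨true,0,⟨0,[(7,0)]⟩,⟨0,[(27,0)]⟩⟩ ⟨true,0,
  ⟨1,[(5,0),(6,0)]⟩,⟨0,[(27,0)]⟩⟩ ⟨false,1,⟨11,[(3,8),(1,5),(4,1),(7,0),(1,0),(3,0)]⟩,⟨0,[(19,0),(7,
  0)]⟩⟩,.o ⟨false,0,⟨0,[(19,0)]⟩,⟨9,[(3,7),(8,3),(0,0),(0,0),(5,1)]⟩⟩,.o ⟨false,0,⟨3,[(1,1),(11,0),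
  (0,0),(4,1)]⟩,⟨0,[(3,0)]⟩⟩]⟩)))))

def t6 : Tre :=
  (.Q [0,0,0,2,0,0,0,0,1] (.pp false [-1,1]) (.I [1,1,-1] (.Q [0,0,0,0,0,-2,0,0,1] (.pp false [-1,
  1]) (.Q [0,-1,-1,-1,1,0,-1,0,-1,1] (.p true [0,0,1] [1] (⟨0,[(17,0)]⟩,⟨0,[(16,0)]⟩) .k 1 (⟨0,[]⟩,
  ⟨0,[]⟩) .k .k) (.R ⟨1,false,false,false,[1,-1],[0,0,1],[1,1,-1,-1],(⟨0,[(20,0)]⟩,⟨0,[(21,0)]⟩),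
  (⟨0,[(18,0)]⟩,⟨0,[(17,0)]⟩),⟨0,[(1,0)]⟩,.k,.k,(.r (-1) ⟨0,[(25,1),(0,0)]⟩ ⟨0,[(3,0),(6,0)]⟩),(.x
  (-1) ⟨7,[(1,3),(9,2),(0,2),(6,1)]⟩ ⟨0,[(21,0)]⟩),(.r (-1) ⟨0,[(0,0),(3,0),(4,0),(7,0)]⟩ ⟨1,[(3,0),
  (3,1),(2,0),(7,1),(5,1)]⟩),.k,⟨false,1,⟨1,[(4,1),(4,1),(5,0),(10,0)]⟩,⟨1,[(1,0),(1,0),(2,1),(0,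
  1)]⟩⟩,⟨true,0,⟨0,[(17,0)]⟩,⟨1,[(1,0),(4,1),(3,0)]⟩⟩,⟨false,0,⟨0,[]⟩,⟨3,[(11,0),(0,0),(14,1)]⟩⟩,
  ⟨false,0,⟨0,[(5,0),(1,0)]⟩,⟨15,[(0,11),(8,3),(1,0),(0,0),(2,1),(2,3),(3,3)]⟩⟩,⟨true,0,⟨0,[(24,
  0)]⟩,⟨0,[(25,0)]⟩⟩,⟨false,0,⟨0,[(3,0),(3,0)]⟩,⟨15,[(0,11),(8,3),(1,0),(0,0),(2,1),(2,3),(3,3),(2,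
  15)]⟩⟩,[.o ⟨false,0,⟨0,[(7,0),(21,0)]⟩,⟨0,[(0,0),(23,0)]⟩⟩,.o ⟨false,0,⟨0,[(7,0)]⟩,⟨3,[(0,1),(14,
  0),(2,1),(0,0),(2,1),(1,1)]⟩⟩,.a ⟨true,0,⟨0,[(28,0)]⟩,⟨0,[(4,0)]⟩⟩ ⟨true,0,⟨0,[(4,0),(4,0)]⟩,⟨1,
  [(3,0),(6,0)]⟩⟩ ⟨false,0,⟨0,[(4,0),(2,0)]⟩,⟨1,[(15,0),(2,1),(0,0)]⟩⟩,.o ⟨false,0,⟨0,[(10,0)]⟩,⟨0,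
  [(26,0)]⟩⟩]⟩) (.I [0,0,-2,-2,1,0,-1] (.K ⟨0,[-1,1,1],0,(-1),(⟨0,[(7,0)]⟩,⟨0,[(18,0),(2,0)]⟩),(.x
  0 ⟨0,[(22,0)]⟩ ⟨7,[(2,3),(9,2),(0,2),(6,1)]⟩),.k,(.r 0 ⟨13,[(1,3),(0,3),(1,11),(2,7),(0,3),(2,9),
  (5,2),(2,0)]⟩ ⟨0,[(0,0)]⟩),.k,.k,[⟨1,[(2,0),(4,1),(3,0)]⟩,⟨0,[(18,0),(10,0)]⟩,⟨11,[(9,7),(0,11),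
  (1,0),(0,0),(2,1),(2,3),(3,3)]⟩,⟨0,[(1,0)]⟩]⟩) (.I [1,1,2,1,-1] (.K ⟨0,[1,1,-1],1,1,(⟨0,[(19,0),
  (3,0)]⟩,⟨0,[(3,0),(4,0)]⟩),(.x (-1) ⟨0,[(23,0),(4,0)]⟩ ⟨0,[(12,0),(9,0)]⟩),.k,(.r 0 ⟨0,[(1,0),(15,
  0)]⟩ ⟨5,[(3,1),(2,5),(1,3),(0,3),(1,3),(6,0),(8,7),(0,4)]⟩),.k,.k,[⟨0,[(0,0),(18,0),(5,0),(1,0)]⟩,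
  ⟨1,[(20,1),(0,0),(6,0)]⟩,⟨0,[(2,0),(24,1)]⟩,⟨1,[(0,0),(3,1),(5,1),(10,0),(4,0)]⟩]⟩) (.S ⟨1,0,[0,1,
  -1,-2],[1,-1],[1,0,-1,-1],(⟨0,[(22,0)]⟩,⟨0,[(23,0)]⟩),⟨0,[(3,0)]⟩,.k,(.r (-1) ⟨9,[(0,7),(12,0),(0,
  0),(9,3),(2,11)]⟩ ⟨3,[(1,3),(11,0),(0,0),(2,1)]⟩),⟨true,0,⟨0,[]⟩,⟨0,[(31,0)]⟩⟩,⟨false,0,⟨0,[(27,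
  0)]⟩,⟨7,[(5,3),(7,0),(0,0),(6,1),(7,3)]⟩⟩,⟨false,1,⟨7,[(5,3),(7,0),(0,0),(6,1),(7,3)]⟩,⟨0,[(27,
  0)]⟩⟩,⟨true,0,⟨0,[(31,0)]⟩,⟨0,[]⟩⟩,[.o ⟨false,0,⟨0,[(11,0),(15,0)]⟩,⟨1,[(5,1),(15,0),(7,0)]⟩⟩,.e
  ⟨false,1,⟨0,[(0,0)]⟩,⟨7,[(1,3),(11,0),(0,0),(2,1),(13,7)]⟩⟩ ⟨false,1,⟨9,[(0,7),(12,0),(0,0),(9,3),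
  (2,11)]⟩,⟨3,[(1,1),(3,1),(11,0),(3,0)]⟩⟩,.a ⟨true,0,⟨0,[(30,0)]⟩,⟨0,[(6,0)]⟩⟩ ⟨false,1,⟨7,[(0,3),
  (12,0),(0,0),(12,3),(1,1)]⟩,⟨7,[(1,3),(11,0),(0,0),(2,1)]⟩⟩ ⟨true,0,⟨0,[(6,0),(4,0),(15,0)]⟩,⟨3,
  [(1,1),(3,1),(11,0),(3,0)]⟩⟩,.o ⟨false,0,⟨0,[(12,0)]⟩,⟨0,[(28,0)]⟩⟩]⟩)))) (.Q [0,0,-2,0,1,0,0,0,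
  -1,1] (.p true [0,0,1] [1] (⟨0,[(17,0)]⟩,⟨0,[(16,0)]⟩) .k 1 (⟨0,[]⟩,⟨0,[]⟩) .k .k) (.I [1,0,1,0,0,
  0,-1] (.R ⟨2,false,false,true,[0,1],[1,0,-1],[0,0,1],(⟨0,[]⟩,⟨0,[]⟩),(⟨0,[(18,0)]⟩,⟨0,[(19,0)]⟩),
  ⟨0,[]⟩,.k,.k,.k,(.x 0 ⟨0,[(22,0)]⟩ ⟨3,[(12,0),(0,0),(6,1),(0,3)]⟩),.k,.k,⟨true,0,⟨0,[(8,0),(10,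
  0)]⟩,⟨0,[(0,0),(2,0)]⟩⟩,⟨false,1,⟨7,[(1,3),(10,0),(0,0),(5,3),(0,1)]⟩,⟨0,[(18,0)]⟩⟩,⟨true,0,⟨0,
  [(26,0)]⟩,⟨0,[(25,0)]⟩⟩,⟨false,1,⟨0,[(9,0),(0,0)]⟩,⟨0,[(6,0),(1,0)]⟩⟩,⟨false,1,⟨3,[(12,0),(0,0),
  (14,1)]⟩,⟨0,[]⟩⟩,⟨false,1,⟨0,[(0,0),(0,0)]⟩,⟨0,[(8,0),(5,0),(0,0)]⟩⟩,[.o ⟨false,1,⟨1,[(1,0),(8,0),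
  (5,0),(2,0),(5,0)]⟩,⟨0,[(8,0)]⟩⟩,.o ⟨false,1,⟨0,[(0,0),(0,0)]⟩,⟨0,[(8,0),(21,0)]⟩⟩,.a ⟨true,0,⟨0,
  [(5,0)]⟩,⟨0,[(29,0)]⟩⟩ ⟨true,0,⟨0,[(29,0)]⟩,⟨0,[(3,0)]⟩⟩ ⟨false,1,⟨1,[(16,0),(2,1),(0,0)]⟩,⟨0,[(5,
  0),(2,0)]⟩⟩,.e ⟨false,1,⟨3,[(12,0),(0,0),(14,1)]⟩,⟨0,[]⟩⟩ ⟨false,1,⟨0,[(0,0),(0,0)]⟩,⟨0,[(8,0),(5,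
  0),(0,0)]⟩⟩]⟩) (.Q [0,0,1,0,0,0,0,0,-1,1] (.p true [0,0,1] [1] (⟨0,[(19,0)]⟩,⟨0,[(18,0)]⟩) .k 1
  (⟨0,[]⟩,⟨0,[]⟩) .k .k) (.Q [0,0,-1,0,1,0,-1,0,-1,1] (.p true [0,0,1] [1] (⟨0,[(20,0)]⟩,⟨0,[(19,
  0)]⟩) .k 1 (⟨0,[]⟩,⟨0,[]⟩) .k .k) (.R ⟨0,false,false,false,[1,-1],[0,0,1],[1],(⟨0,[(23,0)]⟩,⟨0,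
  [(24,0)]⟩),(⟨0,[(21,0)]⟩,⟨0,[(20,0)]⟩),⟨0,[(4,0)]⟩,.k,.k,(.r (-1) ⟨0,[(28,1),(0,0)]⟩ ⟨0,[(6,0),(6,
  0)]⟩),(.x (-1) ⟨3,[(14,0),(0,0),(6,1),(0,3)]⟩ ⟨0,[(24,0)]⟩),.k,.k,⟨false,1,⟨1,[(18,0),(10,0)]⟩,⟨1,
  [(2,0),(7,0),(10,0),(10,0)]⟩⟩,⟨true,0,⟨0,[(20,0)]⟩,⟨0,[(1,0)]⟩⟩,⟨true,0,⟨1,[(6,0),(6,0)]⟩,⟨0,[(7,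
  0),(4,0)]⟩⟩,⟨false,0,⟨0,[(8,0),(1,0)]⟩,⟨0,[(11,0),(0,0)]⟩⟩,⟨false,0,⟨0,[]⟩,⟨0,[]⟩⟩,⟨false,0,⟨0,
  []⟩,⟨0,[]⟩⟩,[.o ⟨false,0,⟨0,[(10,0),(21,0)]⟩,⟨0,[(0,0)]⟩⟩,.o ⟨false,0,⟨0,[(10,0)]⟩,⟨15,[(0,11),(0,
  3),(12,0),(0,0),(2,1),(6,7)]⟩⟩,.a ⟨true,0,⟨0,[(31,0)]⟩,⟨0,[(7,0)]⟩⟩ ⟨true,0,⟨0,[]⟩,⟨0,[(32,0)]⟩⟩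
  ⟨false,0,⟨0,[(7,0),(2,0)]⟩,⟨7,[(0,3),(0,3),(12,0),(0,0),(2,1)]⟩⟩,.o ⟨false,0,⟨0,[(13,0)]⟩,⟨0,[(29,
  0)]⟩⟩]⟩) (.K ⟨0,[-1,1,1],0,(-1),(⟨0,[(9,0)]⟩,⟨0,[(20,0),(2,0)]⟩),(.x 0 ⟨0,[(24,0)]⟩ ⟨3,[(14,0),(0,
  0),(6,1),(0,3)]⟩),.k,(.x 0 ⟨0,[(4,0),(2,0)]⟩ ⟨7,[(13,3),(0,0),(0,0),(6,5),(0,15)]⟩),.k,.k,[⟨0,[(1,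
  0)]⟩,⟨3,[(0,3),(13,0),(0,0),(2,1)]⟩,⟨11,[(11,7),(0,11),(1,0),(0,0),(2,1),(2,3),(3,3)]⟩,⟨0,[(0,0),
  (26,0)]⟩]⟩)) (.Q [0,-1,1,-1,0,0,1,0,-1,-1] (.p false [1,-1,1] [] (⟨0,[(20,0),(1,0)]⟩,⟨1,[(0,1),(2,
  0),(8,0)]⟩) (.r 0 ⟨0,[(1,0),(25,0)]⟩ ⟨3,[(5,1),(6,1),(0,0),(0,0),(2,1)]⟩) 0 (⟨0,[]⟩,⟨0,[]⟩) .k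
  .k) (.R ⟨0,false,false,false,[1,-1],[1,-1,1],[1],(⟨0,[(23,0)]⟩,⟨0,[(24,0)]⟩),(⟨0,[(21,0),(1,0)]⟩,
  ⟨1,[(1,1),(2,0),(8,0)]⟩),⟨0,[(4,0)]⟩,.k,(.r 0 ⟨0,[(2,0),(25,0)]⟩ ⟨3,[(6,1),(6,1),(0,0),(0,0),(2,
  1)]⟩),(.r (-1) ⟨0,[(28,1),(0,0)]⟩ ⟨0,[(6,0),(6,0)]⟩),.k,.k,.k,⟨false,1,⟨7,[(6,3),(7,0),(0,0),(2,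
  3),(3,1)]⟩,⟨0,[(2,0),(25,0)]⟩⟩,⟨true,0,⟨0,[(1,0),(11,0)]⟩,⟨0,[(21,0)]⟩⟩,⟨true,0,⟨1,[(6,0),(6,0)]⟩,
  ⟨0,[(7,0),(4,0)]⟩⟩,⟨false,0,⟨0,[(10,0)]⟩,⟨11,[(11,7),(2,0),(0,0),(2,1),(2,3),(3,3)]⟩⟩,⟨false,0,⟨0,
  []⟩,⟨0,[]⟩⟩,⟨false,0,⟨0,[]⟩,⟨0,[]⟩⟩,[.o ⟨false,0,⟨0,[(10,0),(1,0)]⟩,⟨0,[(11,0),(15,0)]⟩⟩,.o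
  ⟨false,0,⟨0,[(0,0)]⟩,⟨11,[(11,7),(2,0),(0,0),(2,1),(2,3),(3,3),(1,11)]⟩⟩,.a ⟨true,0,⟨0,[(31,0)]⟩,
  ⟨0,[(7,0)]⟩⟩ ⟨true,0,⟨0,[]⟩,⟨0,[(32,0)]⟩⟩ ⟨false,0,⟨0,[(0,0),(6,0)]⟩,⟨7,[(6,1),(4,3),(1,1),(0,0),
  (0,0),(2,1),(2,3),(5,3)]⟩⟩,.o ⟨false,0,⟨0,[(13,0)]⟩,⟨0,[(29,0)]⟩⟩]⟩) (.R ⟨0,false,false,true,[0,0,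
  1],[0,1],[0,1,1],(⟨0,[(21,0)]⟩,⟨0,[(20,0)]⟩),(⟨0,[(24,0)]⟩,⟨0,[(23,0)]⟩),⟨1,[(1,1),(2,0),(8,0)]⟩,
  .k,.k,(.r 0 ⟨0,[(2,0),(25,0)]⟩ ⟨3,[(6,1),(6,1),(0,0),(0,0),(2,1)]⟩),(.r 0 ⟨0,[(2,0),(25,0)]⟩ ⟨3,
  [(6,1),(6,1),(0,0),(0,0),(2,1)]⟩),.k,.k,⟨true,0,⟨0,[(28,0)]⟩,⟨1,[(6,0),(6,0)]⟩⟩,⟨false,1,⟨0,[(3,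
  0),(3,0)]⟩,⟨0,[(13,0),(6,0)]⟩⟩,⟨true,0,⟨0,[(0,0),(0,0),(10,0),(0,0),(12,0)]⟩,⟨0,[(2,0)]⟩⟩,⟨false,
  1,⟨15,[(0,7),(5,3),(4,7),(2,0),(0,0),(6,5)]⟩,⟨0,[(10,0),(17,0)]⟩⟩,⟨false,0,⟨0,[]⟩,⟨0,[]⟩⟩,⟨false,
  0,⟨0,[]⟩,⟨0,[]⟩⟩,[.o ⟨false,0,⟨0,[(27,0)]⟩,⟨0,[(12,0),(17,0)]⟩⟩,.a ⟨true,0,⟨0,[(8,0)]⟩,⟨0,[(28,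
  0)]⟩⟩ ⟨true,0,⟨0,[(31,0)]⟩,⟨0,[]⟩⟩ ⟨false,1,⟨8,[(0,0),(2,6),(2,3),(0,1),(3,0),(7,0)]⟩,⟨0,[(12,0),
  (7,0),(5,0)]⟩⟩,.o ⟨false,0,⟨0,[(1,0),(11,0)]⟩,⟨7,[(3,3),(10,0),(0,0),(5,3),(0,1)]⟩⟩,.o ⟨false,0,
  ⟨0,[(13,0),(6,0)]⟩,⟨0,[(3,0)]⟩⟩]⟩)))) (.K ⟨0,[1,0,-1],1,1,(⟨0,[(17,0)]⟩,⟨0,[(18,0)]⟩),.k,(.x (-1)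
  ⟨3,[(11,0),(0,0),(6,1),(0,3)]⟩ ⟨0,[(21,0)]⟩),(.x (-1) ⟨7,[(1,3),(2,3),(6,0),(0,0),(13,5)]⟩ ⟨0,
  [(10,0),(9,0)]⟩),.k,.k,[⟨0,[(0,0)]⟩,⟨3,[(11,0),(0,0),(5,3),(0,1)]⟩,⟨0,[(0,0),(1,1),(4,0),(10,0)]⟩,
  ⟨0,[(8,0),(0,0),(14,0)]⟩]⟩))) (.R ⟨2,false,false,false,[0,1],[1,-1],[0,0,1],(⟨0,[]⟩,⟨0,[]⟩),(⟨0,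
  [(18,0)]⟩,⟨0,[(19,0)]⟩),⟨0,[]⟩,.k,.k,.k,(.r 0 ⟨0,[(1,0),(6,0)]⟩ ⟨0,[(23,1),(0,0)]⟩),.k,.k,⟨false,
  0,⟨1,[(1,0),(6,0)]⟩,⟨0,[(23,0),(0,0)]⟩⟩,⟨true,0,⟨0,[(8,0)]⟩,⟨0,[(2,0)]⟩⟩,⟨true,0,⟨0,[(23,0)]⟩,⟨0,
  [(22,0)]⟩⟩,⟨false,1,⟨0,[(7,0),(15,0),(1,0)]⟩,⟨0,[(1,0)]⟩⟩,⟨false,1,⟨3,[(9,0),(0,0),(14,1)]⟩,⟨0,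
  []⟩⟩,⟨false,1,⟨0,[(7,0),(17,0)]⟩,⟨0,[(3,0)]⟩⟩,[.e ⟨true,0,⟨0,[(26,0)]⟩,⟨0,[]⟩⟩ ⟨true,0,⟨0,[(0,0),
  (6,0)]⟩,⟨0,[(3,0)]⟩⟩,.o ⟨false,1,⟨0,[(7,0),(17,0)]⟩,⟨0,[(22,0)]⟩⟩,.a ⟨true,0,⟨0,[(2,0)]⟩,⟨0,[(26,
  0)]⟩⟩ ⟨false,0,⟨0,[(0,0)]⟩,⟨3,[(9,0),(0,0),(13,1)]⟩⟩ ⟨true,0,⟨0,[(0,0),(6,0)]⟩,⟨1,[(1,0),(0,0),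
  (17,0)]⟩⟩,.e ⟨false,1,⟨3,[(9,0),(0,0),(14,1)]⟩,⟨0,[]⟩⟩ ⟨false,1,⟨0,[(7,0),(17,0)]⟩,⟨0,[(3,
  0)]⟩⟩]⟩)) (.R ⟨2,true,false,false,[0,1],[1,-1],[1,1,1,1],(⟨0,[]⟩,⟨0,[]⟩),(⟨0,[(17,0)]⟩,⟨0,[(18,
  0)]⟩),⟨0,[]⟩,.k,.k,.k,(.r 0 ⟨0,[(20,1),(0,1)]⟩ ⟨3,[(0,3),(0,3),(6,0),(0,0),(13,1)]⟩),.k,.k,⟨false,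
  0,⟨0,[(20,0),(0,1)]⟩,⟨1,[(0,1),(0,1),(21,0),(0,0)]⟩⟩,⟨true,0,⟨0,[(7,0)]⟩,⟨0,[(1,0)]⟩⟩,⟨false,0,⟨0,
  []⟩,⟨3,[(8,0),(0,0),(14,1)]⟩⟩,⟨true,0,⟨0,[(0,0)]⟩,⟨0,[(2,0),(18,0)]⟩⟩,⟨true,0,⟨0,[(21,0)]⟩,⟨0,
  [(22,0)]⟩⟩,⟨false,1,⟨7,[(0,3),(7,0),(0,0),(6,1),(7,3)]⟩,⟨0,[(2,0)]⟩⟩,[]⟩))

def t7 : Tre :=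
  (.Q [0,0,0,1,0,0,0,0,1] (.pp false [-1,1]) (.Q [0,0,1,0,0,0,0,0,-1] (.pp true [-1,1]) (.Q [0,0,0,
  2,0,0,0,0,1] (.pp false [-1,1]) (.Q [0,0,2,1,-1,0,1,0,1,-1] (.p false [0,0,1] [1] (⟨0,[(15,0)]⟩,
  ⟨0,[(14,0)]⟩) .k 1 (⟨0,[]⟩,⟨0,[]⟩) .k .k) t5 (.I [1,-1,1,2,0,0,1] (.R ⟨0,false,false,true,[1,0,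
  -1],[2,-1,-1],[1,0,1],(⟨0,[(16,0)]⟩,⟨0,[(17,0)]⟩),(⟨0,[(16,0),(2,0)]⟩,⟨0,[(5,0)]⟩),⟨0,[(5,0)]⟩,.k,
  (.x (-1) ⟨3,[(10,0),(0,0),(6,1),(0,3)]⟩ ⟨0,[(20,0)]⟩),(.x (-1) ⟨3,[(10,0),(0,0),(6,1),(0,3)]⟩ ⟨0,
  [(20,0)]⟩),.k,.k,.k,⟨false,0,⟨1,[(0,0),(5,0),(10,0)]⟩,⟨15,[(1,11),(8,0),(0,0),(2,1),(1,11),(4,7),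
  (2,3)]⟩⟩,⟨true,0,⟨0,[(3,0)]⟩,⟨0,[(12,0),(0,0)]⟩⟩,⟨false,0,⟨0,[(6,0),(10,0)]⟩,⟨1,[(14,0),(10,0)]⟩⟩,
  ⟨true,0,⟨0,[(8,0)]⟩,⟨0,[(4,0)]⟩⟩,⟨false,0,⟨0,[]⟩,⟨0,[]⟩⟩,⟨false,0,⟨0,[]⟩,⟨0,[]⟩⟩,[.o ⟨false,1,⟨1,
  [(1,1),(6,0),(0,0),(13,0)]⟩,⟨0,[(4,0),(1,0)]⟩⟩,.o ⟨false,1,⟨0,[(1,0),(1,0)]⟩,⟨0,[(4,0),(1,0),(21,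
  0)]⟩⟩,.o ⟨false,1,⟨4,[(0,0),(0,2),(13,0),(1,1),(0,0),(4,0)]⟩,⟨0,[(3,0),(12,0)]⟩⟩,.a ⟨true,0,⟨0,
  [(17,0)]⟩,⟨0,[(16,0)]⟩⟩ ⟨true,0,⟨0,[]⟩,⟨0,[(28,0)]⟩⟩ ⟨false,1,⟨0,[(1,0),(1,0),(12,0)]⟩,⟨0,[(4,0),
  (1,0),(10,0)]⟩⟩]⟩) (.I [1,0,0,-1,0,0,-1] (.R ⟨0,false,false,true,[1,0,-1],[2,-1,-1],[0,1,1],(⟨0,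
  [(17,0)]⟩,⟨0,[(18,0)]⟩),(⟨0,[(17,0),(2,0)]⟩,⟨0,[(6,0)]⟩),⟨0,[(6,0)]⟩,.k,(.x (-1) ⟨3,[(11,0),(0,0),
  (6,1),(0,3)]⟩ ⟨0,[(21,0)]⟩),(.x (-1) ⟨3,[(11,0),(0,0),(6,1),(0,3)]⟩ ⟨0,[(21,0)]⟩),.k,.k,.k,⟨false,
  0,⟨0,[(7,0),(10,0),(5,0)]⟩,⟨0,[(2,0),(14,0)]⟩⟩,⟨true,0,⟨0,[(4,0)]⟩,⟨0,[(13,0),(0,0)]⟩⟩,⟨false,0,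
  ⟨0,[(7,0),(10,0),(10,0)]⟩,⟨0,[(0,0),(1,0),(0,0),(3,0)]⟩⟩,⟨true,0,⟨0,[(9,0)]⟩,⟨0,[(5,0)]⟩⟩,⟨false,
  0,⟨0,[]⟩,⟨0,[]⟩⟩,⟨false,0,⟨0,[]⟩,⟨0,[]⟩⟩,[.o ⟨false,1,⟨1,[(2,1),(6,0),(0,0),(13,0)]⟩,⟨0,[(5,0),(1,
  0)]⟩⟩,.o ⟨false,1,⟨0,[(2,0),(1,0)]⟩,⟨0,[(5,0),(1,0),(21,0)]⟩⟩,.o ⟨false,1,⟨1,[(18,1),(0,0),(6,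
  0)]⟩,⟨0,[(4,0),(12,0)]⟩⟩,.a ⟨true,0,⟨0,[(18,0)]⟩,⟨0,[(17,0)]⟩⟩ ⟨true,0,⟨0,[(29,0)]⟩,⟨0,[]⟩⟩
  ⟨false,1,⟨1,[(0,0),(1,0),(14,0),(1,0)]⟩,⟨0,[(5,0),(1,0),(10,0)]⟩⟩]⟩) (.R ⟨0,false,false,true,[-1,
  1,1],[0,1],[0,1,1],(⟨0,[(6,0)]⟩,⟨0,[(17,0),(2,0)]⟩),(⟨0,[(21,0)]⟩,⟨0,[(20,0)]⟩),⟨0,[(17,0)]⟩,(.x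
  0 ⟨0,[(21,0)]⟩ ⟨3,[(11,0),(0,0),(6,1),(0,3)]⟩),.k,.k,.k,.k,.k,⟨true,0,⟨0,[(25,0)]⟩,⟨1,[(3,0),(6,
  0)]⟩⟩,⟨false,1,⟨0,[(0,0),(1,0)]⟩,⟨0,[(17,0),(10,0)]⟩⟩,⟨true,0,⟨1,[(1,1),(1,0),(6,0)]⟩,⟨0,[(0,
  0)]⟩⟩,⟨false,1,⟨1,[(2,0),(1,0),(3,0),(15,0)]⟩,⟨0,[(7,0),(5,0),(0,0)]⟩⟩,⟨false,0,⟨0,[]⟩,⟨0,[]⟩⟩,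
  ⟨false,0,⟨0,[]⟩,⟨0,[]⟩⟩,[.o ⟨false,0,⟨0,[(24,0)]⟩,⟨0,[(9,0),(17,0)]⟩⟩,.a ⟨true,0,⟨0,[(5,0)]⟩,⟨0,
  [(25,0)]⟩⟩ ⟨true,0,⟨0,[(28,0)]⟩,⟨0,[]⟩⟩ ⟨false,1,⟨1,[(0,0),(1,0),(0,0),(14,0),(0,0)]⟩,⟨0,[(17,0),
  (7,0)]⟩⟩,.o ⟨false,0,⟨0,[(17,0)]⟩,⟨0,[(18,0),(0,0)]⟩⟩,.o ⟨false,0,⟨0,[(17,0),(10,0)]⟩,⟨0,[(0,0),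
  (1,0),(1,0)]⟩⟩]⟩)))) (.R ⟨2,false,false,false,[0,1],[1,-1],[],(⟨0,[]⟩,⟨0,[]⟩),(⟨0,[(17,0)]⟩,⟨0,
  [(18,0)]⟩),⟨0,[]⟩,.k,.k,.k,(.r 0 ⟨0,[(1,1),(0,1)]⟩ ⟨0,[(22,1),(0,0)]⟩),.k,.k,⟨true,0,⟨0,[(1,0),(0,
  0)]⟩,⟨0,[(22,0)]⟩⟩,⟨false,0,⟨0,[(1,0)]⟩,⟨0,[(10,0),(0,0),(11,0)]⟩⟩,⟨false,1,⟨1,[(22,1),(0,0),(0,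
  0)]⟩,⟨0,[(1,0),(0,0)]⟩⟩,⟨true,0,⟨0,[(0,0)]⟩,⟨0,[(2,0),(18,0)]⟩⟩,⟨false,1,⟨1,[(23,0),(0,0)]⟩,⟨0,
  [(25,0)]⟩⟩,⟨false,1,⟨7,[(0,3),(7,0),(0,0),(6,1),(7,3)]⟩,⟨0,[(2,0)]⟩⟩,[.a ⟨true,0,⟨0,[(22,0)]⟩,⟨0,
  [(2,0)]⟩⟩ ⟨false,1,⟨3,[(8,0),(0,0),(13,1)]⟩,⟨0,[]⟩⟩ ⟨true,0,⟨1,[(0,0),(6,0)]⟩,⟨0,[(2,0)]⟩⟩,.o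
  ⟨false,1,⟨7,[(0,3),(7,0),(0,0),(6,1),(7,3)]⟩,⟨0,[(21,0)]⟩⟩,.o ⟨false,1,⟨3,[(8,0),(0,0),(13,1)]⟩,
  ⟨0,[(1,0)]⟩⟩,.e ⟨false,1,⟨1,[(23,0),(0,0)]⟩,⟨0,[(25,0)]⟩⟩ ⟨false,1,⟨7,[(0,3),(7,0),(0,0),(6,1),(7,
  3)]⟩,⟨0,[(2,0)]⟩⟩]⟩)) t6) (.I [0,0,-2,-1,1,0,-1] (.R ⟨0,false,false,true,[1,0,-1],[0,1],[0,1,0,0,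
  0,0,-1],(⟨0,[(13,0)]⟩,⟨0,[(14,0)]⟩),(⟨0,[(17,0)]⟩,⟨0,[(16,0)]⟩),⟨0,[(2,0)]⟩,.k,.k,(.x (-1) ⟨3,[(7,
  0),(0,0),(6,1),(0,3)]⟩ ⟨0,[(17,0)]⟩),(.x (-1) ⟨3,[(7,0),(0,0),(6,1),(0,3)]⟩ ⟨0,[(17,0)]⟩),.k,.k,
  ⟨false,1,⟨0,[(0,0)]⟩,⟨0,[(3,0),(10,0),(5,0)]⟩⟩,⟨true,0,⟨0,[(13,0)]⟩,⟨0,[(1,0),(12,0),(4,0),(0,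
  0)]⟩⟩,⟨true,0,⟨0,[(25,0)]⟩,⟨0,[]⟩⟩,⟨false,0,⟨0,[(3,0),(5,0),(0,0),(9,0)]⟩,⟨0,[(1,0),(2,0)]⟩⟩,
  ⟨false,0,⟨0,[]⟩,⟨0,[]⟩⟩,⟨false,0,⟨0,[]⟩,⟨0,[]⟩⟩,[.o ⟨false,0,⟨0,[(20,0)]⟩,⟨0,[(5,0),(17,0)]⟩⟩,.o
  ⟨false,1,⟨3,[(7,0),(0,0),(11,3),(2,1)]⟩,⟨0,[(1,0)]⟩⟩,.o ⟨false,1,⟨1,[(14,1),(0,0),(6,0)]⟩,⟨0,[(1,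
  0),(11,0),(5,0),(0,0)]⟩⟩,.a ⟨true,0,⟨0,[(14,0)]⟩,⟨0,[(13,0)]⟩⟩ ⟨false,1,⟨1,[(11,0),(10,0)]⟩,⟨0,
  [(3,0),(10,0)]⟩⟩ ⟨true,0,⟨0,[(13,0),(6,0)]⟩,⟨0,[(1,0),(12,0)]⟩⟩]⟩) (.Q [0,1,1,1,-1,0,1,0,2,-1]
  (.p false [-1,1,1] [1] (⟨0,[(2,0)]⟩,⟨0,[(13,0),(2,0)]⟩) (.r 0 ⟨3,[(0,1),(11,0),(7,1),(2,0)]⟩ ⟨1,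
  [(11,0),(9,1),(0,0)]⟩) 1 (⟨0,[]⟩,⟨0,[]⟩) .k .k) (.R ⟨2,false,false,true,[0,1],[-1,1,1],[],(⟨0,[]⟩,
  ⟨0,[]⟩),(⟨0,[(3,0)]⟩,⟨0,[(14,0),(2,0)]⟩),⟨0,[]⟩,.k,(.x 0 ⟨0,[(18,0)]⟩ ⟨3,[(8,0),(0,0),(6,1),(0,
  3)]⟩),.k,.k,(.x (-1) ⟨3,[(8,0),(0,0),(6,1),(0,3)]⟩ ⟨0,[(18,0)]⟩),.k,⟨true,1,⟨0,[(2,0),(2,0),(8,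
  0)]⟩,⟨6,[(0,0),(0,5),(5,1),(7,0),(3,2)]⟩⟩,⟨false,0,⟨0,[(14,0)]⟩,⟨1,[(15,1),(0,0),(6,0)]⟩⟩,⟨false,
  1,⟨1,[(22,1),(0,0),(0,0)]⟩,⟨3,[(1,1),(10,0),(8,1),(2,0)]⟩⟩,⟨true,(-1),⟨0,[(0,0),(1,0)]⟩,⟨0,[(2,0),
  (2,0),(15,0)]⟩⟩,⟨false,1,⟨1,[(23,0),(0,0)]⟩,⟨0,[(25,0)]⟩⟩,⟨false,0,⟨7,[(0,3),(3,3),(3,0),(0,0),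
  (11,3),(2,1)]⟩,⟨0,[(2,0),(2,0)]⟩⟩,[.a ⟨true,(-1),⟨0,[(0,0)]⟩,⟨0,[(2,0),(2,0)]⟩⟩ ⟨false,1,⟨3,[(8,
  0),(0,0),(13,1)]⟩,⟨0,[]⟩⟩ ⟨true,(-1),⟨3,[(0,1),(0,1),(4,0),(0,0),(6,1),(6,0)]⟩,⟨0,[(2,0),(2,0)]⟩⟩,
  .o ⟨false,0,⟨7,[(0,3),(3,3),(3,0),(0,0),(11,3),(2,1)]⟩,⟨0,[(2,1),(2,0),(15,0)]⟩⟩,.o ⟨false,1,⟨3,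
  [(8,0),(0,0),(13,1)]⟩,⟨3,[(1,1),(0,1),(9,0),(3,0)]⟩⟩,.e ⟨false,1,⟨1,[(23,0),(0,0)]⟩,⟨0,[(25,0)]⟩⟩
  ⟨false,0,⟨7,[(0,3),(3,3),(3,0),(0,0),(11,3),(2,1)]⟩,⟨0,[(2,0),(2,0)]⟩⟩]⟩) (.I [0,0,1,1,0,0,-1]
  (.R ⟨0,false,false,false,[1,0,-1],[1,-1],[0,0,0,-1,0,0,-1],(⟨0,[(15,0)]⟩,⟨0,[(16,0)]⟩),(⟨0,[(18,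
  0)]⟩,⟨0,[(19,0)]⟩),⟨0,[(4,0)]⟩,.k,.k,(.x (-1) ⟨3,[(9,0),(0,0),(6,1),(0,3)]⟩ ⟨0,[(19,0)]⟩),(.r 0
  ⟨0,[(0,0)]⟩ ⟨1,[(14,0),(8,1),(0,0)]⟩),.k,.k,⟨true,0,⟨0,[(0,0),(22,0)]⟩,⟨0,[(2,0),(20,0),(0,0)]⟩⟩,
  ⟨false,0,⟨1,[(0,0),(4,0),(1,0),(7,0)]⟩,⟨0,[(16,0),(7,0)]⟩⟩,⟨true,0,⟨0,[(23,0)]⟩,⟨0,[(22,0)]⟩⟩,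
  ⟨false,0,⟨0,[(5,0),(17,0)]⟩,⟨0,[(6,0),(15,0)]⟩⟩,⟨false,0,⟨0,[]⟩,⟨0,[]⟩⟩,⟨false,0,⟨0,[]⟩,⟨0,[]⟩⟩,
  [.o ⟨false,0,⟨0,[(3,0)]⟩,⟨3,[(9,0),(0,0),(11,3),(2,1)]⟩⟩,.o ⟨false,1,⟨0,[(7,0),(17,0)]⟩,⟨0,[(22,
  0)]⟩⟩,.o ⟨false,1,⟨1,[(16,1),(0,0),(6,0)]⟩,⟨1,[(0,0),(4,0),(1,0),(7,0)]⟩⟩,.a ⟨true,0,⟨0,[(16,0)]⟩,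
  ⟨0,[(15,0)]⟩⟩ ⟨false,1,⟨1,[(1,0),(4,0),(8,1),(7,0)]⟩,⟨3,[(2,1),(11,0),(7,1),(2,0)]⟩⟩ ⟨true,0,⟨0,
  [(3,0),(11,0)]⟩,⟨0,[(16,0),(5,0)]⟩⟩]⟩) (.I [0,1,1,1,0,0,-1] (.R ⟨0,false,false,false,[1,0,-1],[1,
  -1],[0,1,0,0,0,0,-1],(⟨0,[(16,0)]⟩,⟨0,[(17,0)]⟩),(⟨0,[(19,0)]⟩,⟨0,[(20,0)]⟩),⟨0,[(5,0)]⟩,.k,.k,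
  (.x (-1) ⟨3,[(10,0),(0,0),(6,1),(0,3)]⟩ ⟨0,[(20,0)]⟩),(.x (-1) ⟨0,[(20,0),(4,0)]⟩ ⟨0,[(9,0),(9,
  0)]⟩),.k,.k,⟨true,0,⟨0,[(0,0)]⟩,⟨0,[(1,0),(20,0)]⟩⟩,⟨false,0,⟨1,[(0,0),(3,0),(1,0),(9,0)]⟩,⟨0,
  [(17,0),(7,0)]⟩⟩,⟨true,0,⟨0,[(28,0)]⟩,⟨0,[]⟩⟩,⟨false,0,⟨0,[(6,0),(17,0)]⟩,⟨0,[(7,0),(15,0)]⟩⟩,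
  ⟨false,0,⟨0,[]⟩,⟨0,[]⟩⟩,⟨false,0,⟨0,[]⟩,⟨0,[]⟩⟩,[.o ⟨false,0,⟨0,[(4,0)]⟩,⟨3,[(10,0),(0,0),(11,3),
  (2,1)]⟩⟩,.o ⟨false,1,⟨0,[(8,0),(17,0)]⟩,⟨0,[(23,0)]⟩⟩,.o ⟨false,1,⟨1,[(17,1),(0,0),(6,0)]⟩,⟨1,[(0,
  0),(3,0),(1,0),(9,0)]⟩⟩,.a ⟨true,0,⟨0,[(17,0)]⟩,⟨0,[(16,0)]⟩⟩ ⟨false,1,⟨1,[(14,0),(10,0)]⟩,⟨5,[(1,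
  1),(1,1),(11,0),(6,3),(3,0)]⟩⟩ ⟨true,0,⟨0,[(4,0),(11,0)]⟩,⟨0,[(17,0),(5,0)]⟩⟩]⟩) (.I [1,1,1,0,-1,
  0,1] (.R ⟨2,false,false,true,[0,1],[0,0,1],[],(⟨0,[]⟩,⟨0,[]⟩),(⟨0,[(18,0)]⟩,⟨0,[(17,0)]⟩),⟨0,[]⟩,
  .k,.k,.k,(.r (-1) ⟨3,[(4,1),(6,0),(0,0),(2,2),(8,1),(2,0)]⟩ ⟨0,[(1,0),(1,0),(0,0),(12,0),(2,0),(0,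
  0),(0,0)]⟩),.k,.k,⟨true,1,⟨1,[(15,0),(11,0)]⟩,⟨0,[(0,0)]⟩⟩,⟨false,0,⟨3,[(4,1),(0,1),(9,0),(1,3),
  (1,0)]⟩,⟨0,[(18,0),(7,0)]⟩⟩,⟨false,1,⟨1,[(2,1),(12,0),(11,0)]⟩,⟨3,[(4,1),(10,0),(8,1),(2,0)]⟩⟩,
  ⟨true,(-1),⟨0,[(0,0),(4,0),(11,0)]⟩,⟨0,[(8,0),(15,0)]⟩⟩,⟨false,1,⟨1,[(26,0),(0,0)]⟩,⟨0,[(28,0)]⟩⟩,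
  ⟨false,0,⟨11,[(0,0),(6,8),(2,2),(5,0),(0,2),(4,3)]⟩,⟨0,[(8,0)]⟩⟩,[.a ⟨true,(-1),⟨0,[(0,0),(16,
  0)]⟩,⟨0,[(8,0)]⟩⟩ ⟨false,1,⟨3,[(11,0),(0,0),(13,1)]⟩,⟨0,[]⟩⟩ ⟨true,(-1),⟨0,[(4,0),(4,0),(7,0)]⟩,
  ⟨0,[(8,0)]⟩⟩,.o ⟨false,0,⟨11,[(0,0),(6,8),(2,2),(5,0),(0,2),(4,3)]⟩,⟨9,[(3,3),(4,3),(6,0),(2,1),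
  (0,0),(2,1),(1,3)]⟩⟩,.o ⟨false,1,⟨3,[(11,0),(0,0),(13,1)]⟩,⟨3,[(4,1),(0,1),(9,0),(3,0)]⟩⟩,.e
  ⟨false,1,⟨1,[(26,0),(0,0)]⟩,⟨0,[(28,0)]⟩⟩ ⟨false,0,⟨11,[(0,0),(6,8),(2,2),(5,0),(0,2),(4,3)]⟩,⟨0,
  [(8,0)]⟩⟩]⟩) (.Q [0,1,0,0,0,0,0,-1,1,0,-1] (.p false [0,0,0,1] [1] (⟨0,[(14,0)]⟩,⟨0,[(13,0)]⟩) .k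
  1 (⟨0,[]⟩,⟨0,[]⟩) .k .k) (.I [0,0,1,0,0,0,0,1] (.I [0,1,-1,0,0,1,0,-1] (.Q [0,-1,1,0,0,0,0,1,0,0,
  1] (.p true [0,0,0,1] [] (⟨0,[(17,0)]⟩,⟨0,[(16,0)]⟩) .k 0 (⟨0,[]⟩,⟨0,[]⟩) .k .k) (.K ⟨0,[0,0,0,1],
  0,0,(⟨0,[(18,0)]⟩,⟨0,[(17,0)]⟩),.k,(.r (-1) ⟨1,[(6,1),(9,0),(2,0)]⟩ ⟨5,[(1,3),(2,1),(2,3),(0,7),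
  (6,0),(3,0),(1,3),(2,3),(3,1)]⟩),(.x 0 ⟨0,[(1,0)]⟩ ⟨7,[(7,1),(0,1),(2,1),(2,1),(1,3),(2,0),(3,0),
  (0,7),(6,1)]⟩),.k,.k,[⟨0,[(0,0)]⟩,⟨3,[(3,3),(4,1),(0,1),(9,0),(3,0)]⟩,⟨0,[(18,0)]⟩,⟨0,[(13,0),(3,
  0),(10,0)]⟩]⟩) (.R ⟨2,true,false,true,[0,1],[1,0,0,-1],[0,1,1],(⟨0,[]⟩,⟨0,[]⟩),(⟨0,[(17,0)]⟩,⟨0,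
  [(18,0)]⟩),⟨0,[]⟩,.k,.k,.k,(.x 0 ⟨0,[(1,0)]⟩ ⟨7,[(7,1),(0,1),(2,1),(2,1),(1,3),(2,0),(3,0),(0,7),
  (6,1)]⟩),.k,.k,⟨true,0,⟨0,[(2,0)]⟩,⟨0,[(0,0),(17,0),(8,0)]⟩⟩,⟨false,1,⟨3,[(4,0),(0,0),(1,2),(0,1),
  (2,0),(4,1),(1,3),(2,1),(6,1)]⟩,⟨1,[(0,0),(0,0),(15,0),(6,0)]⟩⟩,⟨false,0,⟨0,[(29,0)]⟩,⟨0,[(28,0),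
  (2,0)]⟩⟩,⟨true,0,⟨0,[(9,0),(8,0)]⟩,⟨0,[(17,0),(10,0)]⟩⟩,⟨true,0,⟨0,[(33,0)]⟩,⟨0,[]⟩⟩,⟨false,1,⟨1,
  [(18,1),(4,0),(7,0)]⟩,⟨0,[(17,0)]⟩⟩,[]⟩)) (.K ⟨0,[0,0,0,1],0,0,(⟨0,[(17,0)]⟩,⟨0,[(16,0)]⟩),.k,(.x
  0 ⟨0,[(2,0),(3,0),(0,0),(0,0),(8,0),(2,0),(2,0),(3,0)]⟩ ⟨2,[(0,0),(2,1),(0,1),(10,0),(8,3),(2,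
  1)]⟩),(.r 0 ⟨0,[(0,0),(23,0),(2,0)]⟩ ⟨1,[(5,1),(8,0),(3,0)]⟩),.k,.k,[⟨0,[(0,0),(16,0),(6,0)]⟩,⟨3,
  [(2,3),(4,1),(0,1),(9,0),(3,0)]⟩,⟨0,[(17,0)]⟩,⟨0,[(12,0),(3,0),(10,0)]⟩]⟩)) (.R ⟨2,false,false,
  true,[0,1],[1,0,0,-1],[1,1,0,0,0,0,0,-1],(⟨0,[]⟩,⟨0,[]⟩),(⟨0,[(15,0)]⟩,⟨0,[(16,0)]⟩),⟨0,[]⟩,.k,.k,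
  .k,(.r (-1) ⟨3,[(6,1),(6,0),(0,2),(2,0),(8,1),(2,0)]⟩ ⟨0,[(0,0),(26,0)]⟩),.k,.k,⟨true,0,⟨0,[]⟩,⟨0,
  [(30,0)]⟩⟩,⟨false,1,⟨3,[(2,0),(0,0),(1,2),(0,1),(2,0),(4,1),(1,3),(2,1),(6,1)]⟩,⟨2,[(0,1),(0,0),
  (13,1),(8,0)]⟩⟩,⟨false,0,⟨0,[(0,0),(26,0)]⟩,⟨3,[(6,1),(7,1),(2,0),(8,1),(2,2)]⟩⟩,⟨true,0,⟨0,[(7,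
  0),(8,0)]⟩,⟨0,[(15,0),(10,0)]⟩⟩,⟨false,0,⟨0,[(0,0)]⟩,⟨1,[(14,0),(14,0),(0,1)]⟩⟩,⟨false,1,⟨1,[(16,
  1),(4,0),(7,0)]⟩,⟨0,[(15,0)]⟩⟩,[.a ⟨true,0,⟨0,[(16,0)]⟩,⟨0,[(15,0)]⟩⟩ ⟨false,0,⟨19,[(0,15),(0,1),
  (4,1),(4,1),(1,0),(2,1),(0,0),(6,7)]⟩,⟨1,[(14,0),(14,0)]⟩⟩ ⟨true,0,⟨3,[(6,1),(0,1),(8,3),(0,0),(3,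
  0)]⟩,⟨0,[(15,0)]⟩⟩,.o ⟨false,1,⟨1,[(16,1),(4,0),(7,0)]⟩,⟨0,[(7,0),(7,0),(10,0)]⟩⟩,.o ⟨false,1,⟨3,
  [(13,0),(0,0),(13,1)]⟩,⟨3,[(6,1),(0,1),(9,0),(3,0)]⟩⟩,.e ⟨false,0,⟨0,[(0,0)]⟩,⟨1,[(14,0),(14,0),
  (0,1)]⟩⟩ ⟨false,1,⟨1,[(16,1),(4,0),(7,0)]⟩,⟨0,[(15,0)]⟩⟩]⟩)) (.R ⟨2,false,false,true,[0,1],[1,0,0,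
  -1],[1,1,0,0,0,0,0,-1],(⟨0,[]⟩,⟨0,[]⟩),(⟨0,[(14,0)]⟩,⟨0,[(15,0)]⟩),⟨0,[]⟩,.k,.k,.k,(.r 0 ⟨3,[(0,
  1),(4,1),(7,0),(0,1),(1,0),(8,1)]⟩ ⟨1,[(3,1),(8,0),(3,0)]⟩),.k,.k,⟨true,0,⟨0,[]⟩,⟨0,[(29,0)]⟩⟩,
  ⟨false,0,⟨0,[(0,0)]⟩,⟨7,[(12,4),(0,0),(0,7),(8,3),(3,1)]⟩⟩,⟨false,1,⟨1,[(3,1),(8,0),(3,0)]⟩,⟨7,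
  [(0,5),(0,3),(3,5),(7,0),(0,5),(1,0),(8,1)]⟩⟩,⟨true,0,⟨0,[(6,0),(8,0)]⟩,⟨0,[(14,0),(10,0)]⟩⟩,
  ⟨false,1,⟨1,[(12,0),(14,0)]⟩,⟨5,[(0,3),(4,1),(7,0),(0,3),(1,0),(7,1),(1,1)]⟩⟩,⟨false,1,⟨1,[(15,1),
  (4,0),(7,0)]⟩,⟨0,[(14,0)]⟩⟩,[.a ⟨true,0,⟨0,[(15,0)]⟩,⟨0,[(14,0)]⟩⟩ ⟨false,1,⟨7,[(12,4),(0,0),(9,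
  3),(3,1)]⟩,⟨0,[(0,0),(13,0)]⟩⟩ ⟨true,0,⟨3,[(5,1),(0,1),(8,3),(0,0),(3,0)]⟩,⟨0,[(14,0)]⟩⟩,.o
  ⟨false,1,⟨1,[(15,1),(4,0),(7,0)]⟩,⟨0,[(6,0),(7,0),(10,0)]⟩⟩,.o ⟨false,1,⟨3,[(12,0),(0,0),(13,1)]⟩,
  ⟨3,[(5,1),(0,1),(9,0),(3,0)]⟩⟩,.e ⟨false,1,⟨1,[(12,0),(14,0)]⟩,⟨5,[(0,3),(4,1),(7,0),(0,3),(1,0),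
  (7,1),(1,1)]⟩⟩ ⟨false,1,⟨1,[(15,1),(4,0),(7,0)]⟩,⟨0,[(14,0)]⟩⟩]⟩))))))))

def t8 : Tre :=
  (.Q [0,1,-1,0,0,0,-1,0,0,1] (.p true [0,0,1] [] (⟨0,[(10,0)]⟩,⟨0,[(9,0)]⟩) .k 0 (⟨0,[]⟩,⟨0,[]⟩)
  .k .k) (.I [1,0,1,1,0,0,-1] (.Q [0,0,2,0,-1,0,0,0,1,-1] (.p false [0,0,1] [1] (⟨0,[(12,0)]⟩,⟨0,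
  [(11,0)]⟩) .k 1 (⟨0,[]⟩,⟨0,[]⟩) .k .k) (.Q [0,0,1,1,0,0,0,0,0,-1] (.p false [0,0,1] [] (⟨0,[(13,
  0)]⟩,⟨0,[(12,0)]⟩) .k 0 (⟨0,[]⟩,⟨0,[]⟩) .k .k) (.Q [0,1,1,0,0,0,1,0,0,-1] (.p false [0,0,1] []
  (⟨0,[(14,0)]⟩,⟨0,[(13,0)]⟩) .k 0 (⟨0,[]⟩,⟨0,[]⟩) .k .k) (.K ⟨0,[0,0,1],0,0,(⟨0,[(15,0)]⟩,⟨0,[(14,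
  0)]⟩),.k,(.r (-1) ⟨1,[(13,0),(8,1),(0,0)]⟩ ⟨0,[(1,0),(2,0),(15,0)]⟩),(.x 0 ⟨0,[(18,0)]⟩ ⟨3,[(8,0),
  (0,0),(6,1),(0,3)]⟩),.k,.k,[⟨0,[(15,0)]⟩,⟨4,[(0,1),(1,2),(4,0),(4,0),(3,0),(7,0)]⟩,⟨0,[(4,0)]⟩,⟨0,
  [(0,0)]⟩]⟩) (.K ⟨0,[1,0,-1],1,0,(⟨0,[(14,0)]⟩,⟨0,[(15,0)]⟩),.k,(.x (-1) ⟨3,[(8,0),(0,0),(6,1),(0,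
  3)]⟩ ⟨0,[(18,0)]⟩),(.r 0 ⟨0,[(0,6),(0,3),(0,2),(3,2),(6,2),(5,1)]⟩ ⟨1,[(13,0),(8,1),(0,0)]⟩),.k,
  .k,[⟨0,[(2,0)]⟩,⟨3,[(8,0),(0,0),(5,3),(0,1)]⟩,⟨7,[(2,5),(5,0),(0,0),(3,3),(0,1),(4,3)]⟩,⟨0,[(0,0),
  (5,0),(14,0)]⟩]⟩)) (.Q [0,1,-1,0,0,0,-1,0,-1,1] (.p true [0,0,1] [1] (⟨0,[(14,0)]⟩,⟨0,[(13,0)]⟩)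
  .k 1 (⟨0,[]⟩,⟨0,[]⟩) .k .k) (.K ⟨0,[1,0,-1],1,0,(⟨0,[(14,0)]⟩,⟨0,[(15,0)]⟩),.k,(.x (-1) ⟨3,[(8,0),
  (0,0),(6,1),(0,3)]⟩ ⟨0,[(18,0)]⟩),(.r 0 ⟨0,[(0,0),(1,0),(18,0),(2,0)]⟩ ⟨1,[(13,0),(8,1),(0,0)]⟩),
  .k,.k,[⟨0,[(2,0)]⟩,⟨3,[(8,0),(0,0),(5,3),(0,1)]⟩,⟨7,[(2,5),(5,0),(0,0),(3,3),(0,1),(4,3)]⟩,⟨0,[(0,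
  0)]⟩]⟩) (.K ⟨0,[0,0,1],0,0,(⟨0,[(15,0)]⟩,⟨0,[(14,0)]⟩),.k,(.x 0 ⟨0,[(7,0),(9,0)]⟩ ⟨0,[(18,0),(4,
  0)]⟩),(.x 0 ⟨0,[(18,0)]⟩ ⟨3,[(8,0),(0,0),(6,1),(0,3)]⟩),.k,.k,[⟨0,[(15,0)]⟩,⟨0,[(7,0),(6,0)]⟩,⟨0,
  [(4,0)]⟩,⟨0,[(0,0),(5,0),(14,0)]⟩]⟩))) t2) (.K ⟨0,[0,0,1],0,0,(⟨0,[(12,0)]⟩,⟨0,[(11,0)]⟩),.k,(.r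
  0 ⟨0,[(0,0)]⟩ ⟨1,[(9,0),(8,1),(2,0),(0,1)]⟩),(.x 0 ⟨0,[(15,0)]⟩ ⟨3,[(5,0),(0,0),(6,1),(0,3)]⟩),.k,
  .k,[⟨0,[(12,0)]⟩,⟨0,[(4,0),(6,0)]⟩,⟨0,[(1,0)]⟩,⟨0,[(0,0),(3,0),(6,0),(6,0)]⟩]⟩)) (.Q [0,0,0,0,0,
  -1,0,0,1,-1] (.ed true [0,1,1] .k) (.Q [0,1,-1,-1,0,0,-1,0,0,1] (.p true [0,0,1] [] (⟨0,[(12,0)]⟩,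
  ⟨0,[(11,0)]⟩) .k 0 (⟨0,[]⟩,⟨0,[]⟩) .k .k) (.I [0,0,1,0,0,0,-1] (.I [0,0,-2,-2,1,0,-1] (.Q [0,0,1,
  0,0,0,0,0,0,-1] (.p false [0,0,1] [] (⟨0,[(15,0)]⟩,⟨0,[(14,0)]⟩) .k 0 (⟨0,[]⟩,⟨0,[]⟩) .k .k) (.K
  ⟨0,[0,1,1],0,0,(⟨0,[(16,0),(2,0)]⟩,⟨0,[(4,0)]⟩),(.x 0 ⟨0,[(19,0)]⟩ ⟨3,[(9,0),(0,0),(6,1),(0,3)]⟩),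
  .k,(.r 0 ⟨0,[(5,0),(10,0),(4,0),(0,1)]⟩ ⟨0,[(1,0)]⟩),.k,.k,[⟨0,[(16,0),(9,0)]⟩,⟨0,[(0,0)]⟩,⟨0,[(3,
  0)]⟩,⟨0,[(5,0),(16,0),(4,0)]⟩]⟩) (.R ⟨2,false,false,true,[0,1],[1,0,-1],[0,1],(⟨0,[]⟩,⟨0,[]⟩),(⟨0,
  [(15,0)]⟩,⟨0,[(16,0)]⟩),⟨0,[]⟩,.k,.k,.k,(.x 0 ⟨0,[(19,0)]⟩ ⟨3,[(9,0),(0,0),(6,1),(0,3)]⟩),.k,.k,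
  ⟨true,0,⟨1,[(0,0),(4,1),(10,0),(3,0)]⟩,⟨0,[(2,0)]⟩⟩,⟨false,1,⟨5,[(0,2),(5,1),(7,0),(1,0),(0,2),(2,
  0)]⟩,⟨0,[(15,0)]⟩⟩,⟨true,0,⟨0,[(0,0),(6,0),(7,0)]⟩,⟨0,[(21,0),(0,0)]⟩⟩,⟨false,1,⟨1,[(3,1),(13,0),
  (7,0)]⟩,⟨0,[(0,0),(4,0),(9,0),(5,0),(0,0)]⟩⟩,⟨false,1,⟨3,[(9,0),(0,0),(13,1)]⟩,⟨0,[(21,0)]⟩⟩,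
  ⟨false,1,⟨1,[(0,1),(12,0),(3,0)]⟩,⟨0,[(5,0),(5,0),(0,0)]⟩⟩,[.o ⟨false,1,⟨11,[(3,7),(2,3),(2,0),(0,
  0),(6,5),(4,7)]⟩,⟨0,[(5,0)]⟩⟩,.o ⟨false,1,⟨1,[(0,1),(12,0),(3,0)]⟩,⟨0,[(5,0),(21,0)]⟩⟩,.a ⟨true,0,
  ⟨0,[(0,0),(14,0)]⟩,⟨0,[(26,0)]⟩⟩ ⟨true,0,⟨0,[(27,0)]⟩,⟨0,[]⟩⟩ ⟨false,1,⟨1,[(13,0),(2,1),(0,0)]⟩,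
  ⟨0,[(0,0),(4,0),(9,0)]⟩⟩,.e ⟨false,1,⟨3,[(9,0),(0,0),(13,1)]⟩,⟨0,[(21,0)]⟩⟩ ⟨false,1,⟨1,[(0,1),
  (12,0),(3,0)]⟩,⟨0,[(5,0),(5,0),(0,0)]⟩⟩]⟩)) (.Q [0,0,1,0,0,0,0,0,0,-1] (.p false [0,0,1] [] (⟨0,
  [(15,0)]⟩,⟨0,[(14,0)]⟩) .k 0 (⟨0,[]⟩,⟨0,[]⟩) .k .k) (.R ⟨2,true,false,false,[0,1],[0,1,1],[0,0,1],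
  (⟨0,[]⟩,⟨0,[]⟩),(⟨0,[(16,0),(2,0)]⟩,⟨0,[(4,0)]⟩),⟨0,[]⟩,.k,(.x 0 ⟨0,[(19,0)]⟩ ⟨3,[(9,0),(0,0),(6,
  1),(0,3)]⟩),.k,.k,(.x (-1) ⟨3,[(9,0),(0,0),(6,1),(0,3)]⟩ ⟨0,[(19,0)]⟩),.k,⟨false,1,⟨1,[(13,0),(9,
  1),(0,0)]⟩,⟨0,[(1,0),(21,0),(0,0)]⟩⟩,⟨true,0,⟨0,[(0,0)]⟩,⟨0,[(16,0)]⟩⟩,⟨true,0,⟨0,[(23,0)]⟩,⟨0,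
  [(22,0)]⟩⟩,⟨false,0,⟨0,[(5,0)]⟩,⟨5,[(3,1),(2,3),(2,0),(0,0),(11,1)]⟩⟩,⟨false,1,⟨3,[(9,0),(0,0),
  (14,1)]⟩,⟨0,[]⟩⟩,⟨true,0,⟨0,[(5,0),(16,0)]⟩,⟨0,[(3,0)]⟩⟩,[]⟩) (.S ⟨1,1,[],[1,0,-1],[1,0,0,0,0,0,
  -1],(⟨0,[(15,0)]⟩,⟨0,[(16,0)]⟩),⟨0,[(4,0)]⟩,.k,(.x (-1) ⟨3,[(9,0),(0,0),(6,1),(0,3)]⟩ ⟨0,[(19,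
  0)]⟩),⟨true,0,⟨0,[]⟩,⟨0,[(27,0)]⟩⟩,⟨false,0,⟨0,[(5,0)]⟩,⟨5,[(3,1),(2,3),(2,0),(0,0),(11,1)]⟩⟩,
  ⟨false,1,⟨0,[(22,0),(2,0)]⟩,⟨0,[(23,0)]⟩⟩,⟨true,0,⟨0,[(5,0),(16,0)]⟩,⟨0,[(3,0)]⟩⟩,[.fo,.o ⟨false,
  1,⟨1,[(17,0),(7,0)]⟩,⟨0,[(27,0)]⟩⟩,.e ⟨false,1,⟨1,[(13,0),(11,0)]⟩,⟨6,[(0,3),(0,0),(3,3),(8,0),(5,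
  1),(2,1)]⟩⟩ ⟨false,1,⟨3,[(5,3),(3,0),(0,0),(2,1)]⟩,⟨0,[(0,0)]⟩⟩,.a ⟨true,0,⟨0,[(16,0)]⟩,⟨0,[(15,
  0)]⟩⟩ ⟨true,1,⟨1,[(13,0),(10,0)]⟩,⟨0,[(0,0),(0,0),(5,0),(7,0),(7,0)]⟩⟩ ⟨false,1,⟨1,[(15,1),(1,0),
  (7,0)]⟩,⟨0,[(16,0)]⟩⟩]⟩))) (.Q [0,0,1,0,0,0,0,0,0,-1] (.p false [0,0,1] [] (⟨0,[(14,0)]⟩,⟨0,[(13,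
  0)]⟩) .k 0 (⟨0,[]⟩,⟨0,[]⟩) .k .k) (.R ⟨2,true,false,false,[0,1],[0,1,1],[0,0,1],(⟨0,[]⟩,⟨0,[]⟩),
  (⟨0,[(15,0),(2,0)]⟩,⟨0,[(3,0)]⟩),⟨0,[]⟩,.k,(.x 0 ⟨0,[(18,0)]⟩ ⟨3,[(8,0),(0,0),(6,1),(0,3)]⟩),.k,
  .k,(.x (-1) ⟨3,[(8,0),(0,0),(6,1),(0,3)]⟩ ⟨0,[(18,0)]⟩),.k,⟨false,1,⟨1,[(12,0),(9,1),(0,0)]⟩,⟨0,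
  [(1,0),(18,0),(0,0)]⟩⟩,⟨true,0,⟨0,[(0,0)]⟩,⟨0,[(15,0)]⟩⟩,⟨true,0,⟨0,[(22,0)]⟩,⟨0,[(21,0)]⟩⟩,
  ⟨false,0,⟨0,[(4,0)]⟩,⟨5,[(2,1),(2,3),(2,0),(0,0),(11,1)]⟩⟩,⟨false,1,⟨3,[(8,0),(0,0),(14,1)]⟩,⟨0,
  []⟩⟩,⟨true,0,⟨0,[(4,0),(16,0)]⟩,⟨0,[(2,0)]⟩⟩,[]⟩) (.R ⟨2,false,false,false,[0,1],[0,0,1],[1,0,1,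
  1],(⟨0,[]⟩,⟨0,[]⟩),(⟨0,[(15,0)]⟩,⟨0,[(14,0)]⟩),⟨0,[]⟩,.k,.k,.k,(.r (-1) ⟨1,[(12,0),(8,1),(2,0),(0,
  1)]⟩ ⟨0,[(1,0),(20,0)]⟩),.k,.k,⟨false,1,⟨1,[(12,0),(8,1),(2,0)]⟩,⟨0,[(1,0),(20,0)]⟩⟩,⟨true,0,⟨0,
  [(7,0),(6,0)]⟩,⟨0,[(0,0)]⟩⟩,⟨true,0,⟨0,[]⟩,⟨0,[(26,0)]⟩⟩,⟨false,0,⟨0,[(4,0),(17,0)]⟩,⟨0,[(5,0),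
  (15,0)]⟩⟩,⟨false,1,⟨0,[(21,0),(2,0)]⟩,⟨0,[(22,0)]⟩⟩,⟨false,0,⟨0,[(4,0)]⟩,⟨5,[(2,1),(2,3),(2,0),(0,
  0),(11,1)]⟩⟩,[.o ⟨false,0,⟨0,[(4,0),(21,0)]⟩,⟨1,[(0,1),(11,0),(3,0)]⟩⟩,.o ⟨false,0,⟨0,[(4,0)]⟩,
  ⟨11,[(2,7),(2,3),(2,0),(0,0),(6,5),(4,7)]⟩⟩,.a ⟨true,0,⟨0,[(0,0),(13,0)]⟩,⟨0,[(25,0)]⟩⟩ ⟨true,0,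
  ⟨0,[(20,0),(0,0)]⟩,⟨1,[(1,0),(0,0),(3,0),(7,0)]⟩⟩ ⟨false,0,⟨0,[(4,0),(20,0)]⟩,⟨1,[(0,1),(11,0),
  (10,0)]⟩⟩,.e ⟨false,1,⟨0,[(21,0),(2,0)]⟩,⟨0,[(22,0)]⟩⟩ ⟨false,0,⟨0,[(4,0)]⟩,⟨5,[(2,1),(2,3),(2,0),
  (0,0),(11,1)]⟩⟩]⟩))) (.Q [0,0,-1,0,0,0,0,0,1] (.pp false [-1,1]) (.Q [0,0,1,0,0,0,0,0,0,-1] (.p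
  false [0,0,1] [] (⟨0,[(14,0)]⟩,⟨0,[(13,0)]⟩) .k 0 (⟨0,[]⟩,⟨0,[]⟩) .k .k) (.R ⟨2,false,false,false,
  [0,1],[0,1,1],[0,1],(⟨0,[]⟩,⟨0,[]⟩),(⟨0,[(15,0),(2,0)]⟩,⟨0,[(3,0)]⟩),⟨0,[]⟩,.k,(.x 0 ⟨0,[(18,0)]⟩
  ⟨3,[(8,0),(0,0),(6,1),(0,3)]⟩),.k,.k,(.x (-1) ⟨3,[(8,0),(0,0),(6,1),(0,3)]⟩ ⟨0,[(18,0)]⟩),.k,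
  ⟨false,1,⟨1,[(1,1),(4,1),(5,0),(10,0)]⟩,⟨0,[(2,0),(12,0)]⟩⟩,⟨true,0,⟨0,[(0,0)]⟩,⟨0,[(15,0)]⟩⟩,
  ⟨true,0,⟨0,[(1,0),(4,0)]⟩,⟨0,[(20,0),(0,0)]⟩⟩,⟨false,0,⟨0,[(4,0)]⟩,⟨11,[(5,7),(2,0),(0,0),(2,1),
  (2,3),(3,3)]⟩⟩,⟨false,1,⟨3,[(8,0),(0,0),(13,1)]⟩,⟨0,[(20,0)]⟩⟩,⟨false,0,⟨0,[(2,0)]⟩,⟨11,[(5,7),(2,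
  0),(0,0),(2,1),(2,3),(3,3),(2,11)]⟩⟩,[.o ⟨false,0,⟨0,[(4,0),(16,0)]⟩,⟨0,[(5,0),(0,0)]⟩⟩,.o ⟨false,
  0,⟨0,[(2,0)]⟩,⟨11,[(5,7),(0,11),(1,0),(0,0),(2,1),(2,3),(3,3)]⟩⟩,.a ⟨true,0,⟨0,[(1,0)]⟩,⟨0,[(25,
  0)]⟩⟩ ⟨true,0,⟨0,[(26,0)]⟩,⟨0,[]⟩⟩ ⟨false,0,⟨0,[(2,0),(22,0)]⟩,⟨0,[(1,0),(3,0),(0,0)]⟩⟩,.e ⟨false,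
  1,⟨3,[(8,0),(0,0),(13,1)]⟩,⟨0,[(20,0)]⟩⟩ ⟨false,0,⟨0,[(2,0)]⟩,⟨11,[(5,7),(2,0),(0,0),(2,1),(2,3),
  (3,3),(2,11)]⟩⟩]⟩) (.R ⟨2,false,false,false,[0,1],[0,0,1],[1,0,1,1],(⟨0,[]⟩,⟨0,[]⟩),(⟨0,[(15,0)]⟩,
  ⟨0,[(14,0)]⟩),⟨0,[]⟩,.k,.k,.k,(.r (-1) ⟨1,[(12,0),(8,1),(2,0),(0,1)]⟩ ⟨0,[(0,0),(0,0),(2,0),(1,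
  0)]⟩),.k,.k,⟨false,1,⟨1,[(12,0),(8,1),(2,0)]⟩,⟨0,[(0,0),(0,0),(2,0),(1,0)]⟩⟩,⟨true,0,⟨0,[(7,0),(6,
  0)]⟩,⟨0,[(0,0)]⟩⟩,⟨true,0,⟨0,[]⟩,⟨0,[(26,0)]⟩⟩,⟨false,0,⟨0,[(4,0),(17,0)]⟩,⟨0,[(5,0),(15,0)]⟩⟩,
  ⟨false,1,⟨0,[(21,0),(2,0)]⟩,⟨0,[(22,0)]⟩⟩,⟨false,0,⟨0,[(4,0)]⟩,⟨11,[(5,7),(2,0),(0,0),(2,1),(2,3),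
  (3,3)]⟩⟩,[.o ⟨false,0,⟨0,[(4,0),(21,0)]⟩,⟨1,[(0,1),(11,0),(3,0)]⟩⟩,.o ⟨false,0,⟨0,[(4,0)]⟩,⟨1,[(0,
  0),(11,0),(2,0),(0,0),(2,0)]⟩⟩,.a ⟨true,0,⟨0,[(1,0)]⟩,⟨0,[(25,0)]⟩⟩ ⟨true,0,⟨0,[(20,0),(0,0)]⟩,⟨0,
  [(1,0),(4,0)]⟩⟩ ⟨false,0,⟨0,[(4,0),(20,0)]⟩,⟨1,[(0,1),(11,0),(10,0)]⟩⟩,.e ⟨false,1,⟨0,[(21,0),(2,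
  0)]⟩,⟨0,[(22,0)]⟩⟩ ⟨false,0,⟨0,[(4,0)]⟩,⟨11,[(5,7),(2,0),(0,0),(2,1),(2,3),(3,3)]⟩⟩]⟩)) (.I [1,-1,
  -1,0,1,0,-1] t4 (.S ⟨1,0,[0,1,0,-1,0,0,-1],[1,0,-1],[1,0,0,0,0,0,-1],(⟨0,[(14,0)]⟩,⟨0,[(15,0)]⟩),
  ⟨0,[(3,0)]⟩,.k,(.x (-1) ⟨3,[(8,0),(0,0),(6,1),(0,3)]⟩ ⟨0,[(18,0)]⟩),⟨true,0,⟨0,[]⟩,⟨0,[(26,0)]⟩⟩,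
  ⟨false,0,⟨0,[(22,0)]⟩,⟨0,[(21,0),(2,0)]⟩⟩,⟨false,1,⟨0,[(21,0),(2,0)]⟩,⟨0,[(22,0)]⟩⟩,⟨true,0,⟨0,
  [(26,0)]⟩,⟨0,[]⟩⟩,[.o ⟨false,1,⟨11,[(5,7),(0,11),(1,0),(0,0),(2,1),(2,3),(3,3)]⟩,⟨0,[(2,0)]⟩⟩,.o
  ⟨false,1,⟨0,[(5,0),(0,0)]⟩,⟨14,[(0,0),(1,11),(4,2),(5,0),(0,2),(4,3),(1,2)]⟩⟩,.o ⟨false,1,⟨1,[(15,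
  1),(0,0),(6,0)]⟩,⟨0,[(1,0),(12,0)]⟩⟩,.a ⟨true,0,⟨0,[(15,0)]⟩,⟨0,[(14,0)]⟩⟩ ⟨true,1,⟨1,[(12,0),(10,
  0)]⟩,⟨0,[(0,0)]⟩⟩ ⟨false,1,⟨1,[(12,0),(9,1),(0,0)]⟩,⟨0,[(2,0),(12,0)]⟩⟩]⟩)))) t7))

def tree : Tre :=
  (.Q [0,-1,-1,0,1,0,-1,0,0,1] (.p true [0,0,1] [] (⟨0,[(9,0)]⟩,⟨0,[(8,0)]⟩) .k 0 (⟨0,[]⟩,⟨0,[]⟩)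
  .k .k) t8 (.I [0,0,-1,-1,0,0,1] (.K ⟨0,[0,0,1],0,(-1),(⟨0,[(11,0)]⟩,⟨0,[(10,0)]⟩),.k,(.r 0 ⟨0,[(0,
  0)]⟩ ⟨1,[(8,0),(8,1),(2,0),(0,1)]⟩),(.x 0 ⟨0,[(14,0)]⟩ ⟨3,[(4,0),(0,0),(6,1),(0,3)]⟩),.k,.k,[⟨0,
  [(11,0)]⟩,⟨0,[(3,0),(6,0)]⟩,⟨7,[(4,0),(0,0),(2,3),(2,7),(3,3),(3,1)]⟩,⟨0,[(1,0)]⟩]⟩) (.K ⟨0,[0,0,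
  1],0,(-1),(⟨0,[(11,0)]⟩,⟨0,[(10,0)]⟩),.k,(.x 0 ⟨0,[(3,0),(9,0)]⟩ ⟨0,[(14,0),(4,0)]⟩),(.x 0 ⟨0,
  [(14,0)]⟩ ⟨3,[(4,0),(0,0),(6,1),(0,3)]⟩),.k,.k,[⟨0,[(11,0)]⟩,⟨0,[(3,0),(6,0)]⟩,⟨7,[(4,0),(0,0),(2,
  3),(2,7),(3,3),(3,1)]⟩,⟨0,[(1,0)]⟩]⟩)))

theorem ok : chk (cPS (-1)) tree base = true := by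
  decide +kernel

theorem closed {p a b c J l q : ℤ} {D dl : ℝ} {Cl : ℤ → ℤ → ℤ → ℤ → ℝ → Prop}
    (W : World p a b c J (-1) l q D dl Cl) (hE : KEmp p a b (-1) (P1 l p) Cl)
    (g : G0 p a b c J D)
    {N R : ℤ} {I : ℝ} (hu : UFac p b D Cl N R I) {N2 R2 : ℤ} {I2 : ℝ}
    (hw : SFac p a D Cl N2 R2 I2)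
    (s0 : (c : ℝ) + 1 ≤ 0)
    (s1 : (a : ℝ) ≤ b)
    (s2 : (b : ℝ) + 1 ≤ 2 * a)
    (s3 : D < 2 * b)
    (s4 : -(a : ℝ) < -D - c) : False := by
  have g1 := g.a2
  have g2 := g.b2
  have g3 := g.pa
  have g4 := g.pb
  have g5 := g.J1
  have g6 := g.JD
  have g7 := g.D2
  have g8 := g.ca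
  have g9 := g.ca'
  have t1 := TF.ofU hu
  have i1 := t1.I0
  have i2 := t1.ID
  have i3 := t1.R1
  have i4 := t1.R2
  have t2 := TF.ofS hw
  have j1 := t2.I0
  have j2 := t2.ID
  have j3 := t2.R1
  have j4 := t2.R2
  refine (val_PS W.toBase hu hw).sound W rfl (Nk := 0) (fun kf hkf hh => ?_) (kok_B hE (by simp [xv]) (by simp [xv]) 0) ?_ ok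
  · simp only [cPS, kfB, List.mem_cons, List.not_mem_nil, or_false] at hkf
    subst hkf
    exact absurd hh (by norm_num)
  · simp only [base, List.forall_mem_cons, List.not_mem_nil, false_imp_iff, implies_true,
      and_true, hld, xv, evg_cons, evg_nil, List.map_cons, List.map_nil, List.cons_append,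
      List.nil_append, if_true, if_false, Bool.false_eq_true]
    push_cast
    refine ⟨?_, ?_, ?_, ?_, ?_, ?_, ?_, ?_, ?_, ?_, ?_, ?_, ?_, ?_, ?_, ?_, ?_, ?_, ?_, ?_, ?_⟩ <;> linarith

end Helper25.KG.Pm1_35_m1_0_u_w
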