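import Pool.Agent.Helper25.KG.PL

set_option autoImplicit false
set_option linter.unusedVariables false

namespace Helper25.KG.Pm1_35_m1_0_u_y

open Helper11.CT Helper25.KW Helper25.KG

def base : List Con :=
  [(false,[0,1,0,-1,0,0,0,0,-1]),
  (false,[0,0,2,0,0,0,0,0,-1]),
  (true,[0,0,0,0,1,0,0,-2]),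
  (true,[0,0,0,0,1,0,0,2]),
  (false,[0,0,0,0,0,0,0,0,1,0,-2]),
  (false,[0,0,0,0,0,0,0,0,0,0,1]),
  (true,[0,0,0,0,1,0,-2]),
  (true,[0,0,0,0,1,0,2]),
  (false,[0,0,0,0,0,0,0,0,1,-1]),
  (false,[0,0,0,0,0,0,0,0,0,1]),
  (false,[0,0,0,0,1,0,0,0,-2]),
  (false,[0,0,0,0,0,-1,0,0,1]),
  (true,[0,0,0,0,0,1]),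
  (true,[0,2,-1]),
  (true,[1,-1,1]),
  (true,[0,1,0,1]),
  (true,[0,0,0,-1]),
  (true,[0,0,-2,0,1]),
  (true,[0,-2,0,0,1]),
  (true,[-1,0,1]),
  (true,[-1,1])]

def t0 : Tre :=
  (.Q [0,0,0,0,0,1,0,0,-1,1] (.ed false [0,1,1] .k) (.I [0,1,1,0,-1,0,-1] (.R ⟨0,false,false,false,
  [1,0,-1],[0,0,1],[0,1,1],(⟨0,[(20,0)]⟩,⟨0,[(21,0)]⟩),(⟨0,[(21,0)]⟩,⟨0,[(20,0)]⟩),⟨0,[(1,0)]⟩,.k,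
  .k,(.x (-1) ⟨3,[(14,0),(0,0),(6,1),(0,3)]⟩ ⟨0,[(24,0)]⟩),.k,.k,.k,⟨true,(-1),⟨0,[(0,0)]⟩,⟨1,[(19,
  0),(10,0)]⟩⟩,⟨false,0,⟨0,[(4,0),(15,0)]⟩,⟨0,[(8,0),(12,0)]⟩⟩,⟨true,0,⟨0,[(0,0),(18,0)]⟩,⟨0,[(6,
  0)]⟩⟩,⟨false,1,⟨0,[(4,0),(14,0),(0,0),(5,0)]⟩,⟨1,[(5,1),(1,0),(2,0)]⟩⟩,⟨false,0,⟨0,[]⟩,⟨0,[]⟩⟩,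
  ⟨false,0,⟨0,[]⟩,⟨0,[]⟩⟩,[.o ⟨false,1,⟨3,[(4,3),(9,0),(0,0),(3,1)]⟩,⟨0,[(5,0)]⟩⟩,.o ⟨false,1,⟨1,
  [(4,1),(14,0),(10,0)]⟩,⟨4,[(5,3),(4,0),(2,0),(11,1)]⟩⟩,.o ⟨false,1,⟨5,[(8,1),(1,0),(0,0),(7,0),(1,
  1),(0,1)]⟩,⟨0,[(4,0)]⟩⟩,.a ⟨true,0,⟨0,[(21,0)]⟩,⟨0,[(20,0)]⟩⟩ ⟨true,0,⟨0,[(32,0)]⟩,⟨0,[]⟩⟩ ⟨false,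
  1,⟨1,[(4,1),(14,0),(0,1),(9,0)]⟩,⟨0,[(5,0),(15,0)]⟩⟩]⟩) (.Q [0,0,0,1,0,0,0,0,1] (.pp false [-1,
  1]) (.R ⟨0,false,false,false,[1,0,-1],[0,1],[0,1,0,0,0,0,-1],(⟨0,[(21,0)]⟩,⟨0,[(22,0)]⟩),(⟨0,[(25,
  0)]⟩,⟨0,[(24,0)]⟩),⟨0,[(2,0)]⟩,.k,.k,(.x (-1) ⟨3,[(15,0),(0,0),(6,1),(0,3)]⟩ ⟨0,[(25,0)]⟩),(.x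
  (-1) ⟨3,[(15,0),(0,0),(6,1),(0,3)]⟩ ⟨0,[(25,0)]⟩),.k,.k,⟨false,0,⟨0,[(3,0)]⟩,⟨1,[(20,0),(6,1),(0,
  1),(2,0)]⟩⟩,⟨true,0,⟨0,[(21,0)]⟩,⟨0,[(4,0),(22,0),(0,0)]⟩⟩,⟨true,0,⟨0,[(33,0)]⟩,⟨0,[]⟩⟩,⟨false,1,
  ⟨1,[(0,1),(4,1),(14,0),(10,0)]⟩,⟨0,[(8,0),(4,0)]⟩⟩,⟨false,0,⟨0,[]⟩,⟨0,[]⟩⟩,⟨false,0,⟨0,[]⟩,⟨0,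
  []⟩⟩,[.a ⟨true,0,⟨0,[(0,0)]⟩,⟨0,[(29,0)]⟩⟩ ⟨false,0,⟨2,[(3,1),(6,0),(17,0)]⟩,⟨1,[(20,0),(10,0)]⟩⟩
  ⟨true,0,⟨0,[(0,0),(4,0)]⟩,⟨0,[(4,0)]⟩⟩,.o ⟨false,1,⟨0,[(28,0),(2,0)]⟩,⟨0,[(13,0)]⟩⟩,.o ⟨false,1,
  ⟨5,[(9,1),(1,0),(0,0),(7,0),(1,1),(0,1)]⟩,⟨0,[(5,0)]⟩⟩,.e ⟨false,0,⟨0,[(7,0)]⟩,⟨1,[(20,0),(10,0),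
  (0,1)]⟩⟩ ⟨false,1,⟨0,[(21,0),(6,0),(2,0)]⟩,⟨0,[(4,0)]⟩⟩]⟩) (.I [0,0,-2,-1,0,0,-1] (.R ⟨0,false,
  false,true,[1,0,-1],[0,1],[0,1,0,0,0,0,-1],(⟨0,[(22,0)]⟩,⟨0,[(23,0)]⟩),(⟨0,[(26,0)]⟩,⟨0,[(25,
  0)]⟩),⟨0,[(3,0)]⟩,.k,.k,(.x (-1) ⟨3,[(16,0),(0,0),(6,1),(0,3)]⟩ ⟨0,[(26,0)]⟩),(.x (-1) ⟨3,[(16,0),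
  (0,0),(6,1),(0,3)]⟩ ⟨0,[(26,0)]⟩),.k,.k,⟨false,0,⟨0,[(0,0)]⟩,⟨0,[(11,0),(9,0)]⟩⟩,⟨true,0,⟨0,[(22,
  0)]⟩,⟨0,[(5,0),(22,0),(0,0)]⟩⟩,⟨true,0,⟨0,[(34,0)]⟩,⟨0,[]⟩⟩,⟨false,1,⟨0,[(11,0),(9,0),(0,0)]⟩,⟨0,
  [(1,0),(7,0)]⟩⟩,⟨false,0,⟨0,[]⟩,⟨0,[]⟩⟩,⟨false,0,⟨0,[]⟩,⟨0,[]⟩⟩,[.o ⟨false,0,⟨0,[(29,0)]⟩,⟨0,[(14,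
  0),(17,0)]⟩⟩,.o ⟨false,1,⟨3,[(16,0),(0,0),(11,3),(2,1)]⟩,⟨0,[(1,0)]⟩⟩,.o ⟨false,1,⟨5,[(10,1),(1,
  0),(0,0),(7,0),(1,1),(0,1)]⟩,⟨0,[(6,0)]⟩⟩,.a ⟨true,0,⟨0,[(23,0)]⟩,⟨0,[(22,0)]⟩⟩ ⟨false,0,⟨0,[(8,
  0)]⟩,⟨1,[(21,0),(10,0),(0,1)]⟩⟩ ⟨true,0,⟨0,[(22,0),(6,0)]⟩,⟨0,[(5,0)]⟩⟩]⟩) (.Q [0,1,1,0,0,0,1,0,1,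
  -1] (.p false [0,0,1] [1] (⟨0,[(23,0)]⟩,⟨0,[(22,0)]⟩) .k 1 (⟨0,[]⟩,⟨0,[]⟩) .k .k) (.R ⟨2,false,
  false,true,[0,1],[0,0,1],[1,1,0,0,0,0,1],(⟨0,[]⟩,⟨0,[]⟩),(⟨0,[(24,0)]⟩,⟨0,[(23,0)]⟩),⟨0,[]⟩,.k,.k,
  .k,(.r 0 ⟨0,[(1,1),(0,3),(7,2),(12,2),(2,0),(0,0),(2,2)]⟩ ⟨11,[(3,3),(1,3),(11,0),(0,0),(3,5),(8,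
  7)]⟩),.k,.k,⟨true,0,⟨0,[]⟩,⟨0,[(34,0)]⟩⟩,⟨false,0,⟨0,[(7,0)]⟩,⟨0,[(3,0),(9,0)]⟩⟩,⟨false,1,⟨11,[(3,
  3),(1,3),(11,0),(0,0),(3,5),(8,7)]⟩,⟨1,[(1,0),(5,2),(2,2),(19,0)]⟩⟩,⟨true,0,⟨0,[(0,0),(1,0)]⟩,⟨0,
  [(10,0),(19,0)]⟩⟩,⟨false,1,⟨1,[(22,0),(9,0)]⟩,⟨1,[(7,0),(2,0),(1,0),(16,0),(1,0)]⟩⟩,⟨false,1,⟨1,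
  [(0,1),(24,0),(7,0)]⟩,⟨0,[(10,0)]⟩⟩,[.a ⟨true,0,⟨0,[(0,0)]⟩,⟨0,[(10,0)]⟩⟩ ⟨false,1,⟨7,[(17,0),(0,
  0),(3,3),(5,3),(3,1)]⟩,⟨0,[(7,0),(2,0)]⟩⟩ ⟨true,0,⟨1,[(0,0),(0,0),(5,0),(7,0)]⟩,⟨0,[(10,0)]⟩⟩,.o
  ⟨false,1,⟨1,[(0,1),(24,0),(7,0)]⟩,⟨0,[(8,0)]⟩⟩,.o ⟨false,1,⟨3,[(17,0),(0,0),(13,1)]⟩,⟨1,[(1,0),(0,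
  0),(4,0),(0,0)]⟩⟩,.e ⟨false,1,⟨1,[(22,0),(9,0)]⟩,⟨1,[(7,0),(2,0),(1,0),(16,0),(1,0)]⟩⟩ ⟨false,1,
  ⟨1,[(0,1),(24,0),(7,0)]⟩,⟨0,[(10,0)]⟩⟩]⟩) (.Q [0,0,0,0,0,0,0,-1,0,0,-1] (.p false [0,0,0,1] []
  (⟨0,[(20,0)]⟩,⟨1,[(19,0),(3,0),(0,0)]⟩) .k 0 (⟨0,[]⟩,⟨0,[]⟩) .k .k) (.R ⟨2,false,false,false,[0,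
  1],[0,0,0,1],[1,0,0,0,0,0,0,1],(⟨0,[]⟩,⟨0,[]⟩),(⟨0,[(21,0)]⟩,⟨1,[(20,0),(3,0),(0,0)]⟩),⟨0,[]⟩,.k,
  .k,.k,(.r 0 ⟨3,[(0,3),(0,0),(0,1),(10,0),(7,3),(2,0),(6,0)]⟩ ⟨11,[(4,3),(1,3),(11,0),(0,6),(12,
  7)]⟩),.k,.k,⟨true,0,⟨0,[]⟩,⟨0,[(35,0)]⟩⟩,⟨false,0,⟨0,[(0,0)]⟩,⟨1,[(19,0),(1,1),(11,0)]⟩⟩,⟨false,1,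
  ⟨1,[(1,0),(2,0),(14,0),(4,0),(7,1)]⟩,⟨3,[(0,3),(0,0),(0,1),(10,0),(7,3),(2,0),(6,0)]⟩⟩,⟨true,0,⟨1,
  [(3,0),(16,0),(11,0)]⟩,⟨0,[(21,0),(9,0)]⟩⟩,⟨false,1,⟨1,[(1,0),(2,0),(14,0),(4,0)]⟩,⟨0,[(0,0),(20,
  0),(13,0)]⟩⟩,⟨false,1,⟨7,[(18,0),(0,0),(0,3),(5,1),(7,3)]⟩,⟨0,[(21,0)]⟩⟩,[.a ⟨true,0,⟨1,[(20,0),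
  (3,0),(0,0)]⟩,⟨0,[(21,0)]⟩⟩ ⟨false,1,⟨1,[(19,0),(13,0)]⟩,⟨0,[(0,0),(20,0)]⟩⟩ ⟨true,0,⟨1,[(17,0),
  (2,0)]⟩,⟨0,[(21,0)]⟩⟩,.o ⟨false,1,⟨7,[(18,0),(0,0),(0,3),(5,1),(7,3)]⟩,⟨0,[(3,0),(17,0),(9,0)]⟩⟩,
  .o ⟨false,1,⟨3,[(18,0),(0,0),(13,1)]⟩,⟨3,[(1,0),(0,0),(0,1),(4,0),(8,0),(13,0)]⟩⟩,.e ⟨false,1,⟨1,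
  [(1,0),(2,0),(14,0),(4,0)]⟩,⟨0,[(0,0),(20,0),(13,0)]⟩⟩ ⟨false,1,⟨7,[(18,0),(0,0),(0,3),(5,1),(7,
  3)]⟩,⟨0,[(21,0)]⟩⟩]⟩) (.I [0,0,-1,-1,0,0,0,1] (.R ⟨2,false,false,false,[0,1],[1,0,0,-1],[1,0,0,0,
  0,0,0,-1],(⟨0,[]⟩,⟨0,[]⟩),(⟨1,[(21,0),(3,0),(0,0)]⟩,⟨0,[(22,0)]⟩),⟨0,[]⟩,.k,.k,.k,(.r 0 ⟨1,[(1,1),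
  (0,0),(0,0),(5,0),(11,0),(10,0)]⟩ ⟨11,[(5,3),(1,3),(11,6),(0,0),(12,7)]⟩),.k,.k,⟨true,0,⟨0,[]⟩,⟨0,
  [(36,0)]⟩⟩,⟨false,0,⟨0,[(0,0),(1,0),(0,0),(0,0),(17,0),(2,0),(6,0)]⟩,⟨1,[(5,0),(9,0),(3,0),(1,0),
  (3,0)]⟩⟩,⟨false,1,⟨1,[(2,0),(2,0),(13,0),(5,0),(7,1)]⟩,⟨1,[(1,1),(0,0),(0,0),(5,0),(11,0),(10,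
  0)]⟩⟩,⟨true,0,⟨0,[(4,0),(17,0)]⟩,⟨1,[(21,0),(3,0),(0,0),(5,1)]⟩⟩,⟨false,1,⟨1,[(2,0),(2,0),(13,0),
  (5,0)]⟩,⟨1,[(1,1),(16,0),(2,0)]⟩⟩,⟨false,1,⟨1,[(22,1),(4,0),(7,0)]⟩,⟨1,[(21,0),(3,0),(0,0)]⟩⟩,[.a
  ⟨true,0,⟨0,[(22,0)]⟩,⟨1,[(21,0),(3,0),(0,0)]⟩⟩ ⟨false,1,⟨1,[(19,0),(14,0)]⟩,⟨3,[(0,1),(0,1),(0,0),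
  (0,0),(5,0),(11,0),(10,0)]⟩⟩ ⟨true,0,⟨3,[(2,0),(0,0),(0,1),(4,0),(8,0),(3,3),(9,0)]⟩,⟨1,[(21,0),
  (3,0),(0,0)]⟩⟩,.o ⟨false,1,⟨1,[(22,1),(4,0),(7,0)]⟩,⟨1,[(17,0),(3,0),(10,0)]⟩⟩,.o ⟨false,1,⟨3,
  [(19,0),(0,0),(13,1)]⟩,⟨3,[(2,0),(0,0),(0,1),(4,0),(8,0),(13,0)]⟩⟩,.e ⟨false,1,⟨1,[(2,0),(2,0),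
  (13,0),(5,0)]⟩,⟨1,[(1,1),(16,0),(2,0)]⟩⟩ ⟨false,1,⟨1,[(22,1),(4,0),(7,0)]⟩,⟨1,[(21,0),(3,0),(0,
  0)]⟩⟩]⟩) (.K ⟨0,[0,0,0,1],0,0,(⟨0,[(22,0)]⟩,⟨1,[(21,0),(3,0),(0,0)]⟩),.k,(.x 0 ⟨0,[(0,0),(3,0),
  (23,0)]⟩ ⟨1,[(20,0),(8,1),(4,0)]⟩),(.r 0 ⟨1,[(1,1),(0,0),(0,0),(5,0),(11,0),(10,0)]⟩ ⟨11,[(5,3),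
  (1,3),(11,6),(0,0),(12,7)]⟩),.k,.k,[⟨0,[(1,0),(34,0)]⟩,⟨1,[(0,1),(3,0),(16,0),(11,0)]⟩,⟨0,[(22,0),
  (14,0)]⟩,⟨1,[(17,0),(3,0),(10,0)]⟩]⟩))))))) (.I [1,-1,-1,0,0,0,-1] (.Q [0,1,-1,1,0,0,0,0,1] (.pp
  false [-1,1]) (.I [0,0,-2,-2,0,0,-1] (.R ⟨1,false,false,false,[1,0,-1],[0,1],[0,0,0,-1,0,0,-1],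
  (⟨0,[(22,0)]⟩,⟨0,[(23,0)]⟩),(⟨0,[(26,0)]⟩,⟨0,[(25,0)]⟩),⟨0,[(3,0)]⟩,.k,.k,(.x (-1) ⟨3,[(16,0),(0,
  0),(6,1),(0,3)]⟩ ⟨0,[(26,0)]⟩),(.x (-1) ⟨3,[(16,0),(0,0),(6,1),(0,3)]⟩ ⟨0,[(26,0)]⟩),(.r 0 ⟨0,[(0,
  0)]⟩ ⟨0,[(11,0),(9,0),(6,0),(0,0)]⟩),.k,⟨false,0,⟨0,[(0,0)]⟩,⟨1,[(21,0),(6,1),(0,3),(2,0)]⟩⟩,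
  ⟨true,0,⟨0,[(22,0)]⟩,⟨0,[(5,0),(22,0),(0,0)]⟩⟩,⟨true,0,⟨0,[(30,0)]⟩,⟨0,[(29,0)]⟩⟩,⟨false,1,⟨1,
  [(21,0),(0,1),(5,1),(0,1),(2,0)]⟩,⟨11,[(0,3),(4,3),(1,5),(1,0),(2,0),(2,1)]⟩⟩,⟨false,1,⟨3,[(16,0),
  (0,0),(14,1)]⟩,⟨0,[]⟩⟩,⟨false,1,⟨0,[(2,0),(18,0),(0,0),(5,1),(0,1)]⟩,⟨5,[(0,3),(4,3),(3,0),(2,0),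
  (2,1)]⟩⟩,[.a ⟨true,0,⟨0,[(1,0),(26,0)]⟩,⟨0,[(30,0)]⟩⟩ ⟨false,0,⟨2,[(0,1),(10,0)]⟩,⟨1,[(21,0),(7,
  1),(2,0)]⟩⟩ ⟨true,0,⟨0,[(22,0),(5,0),(0,0)]⟩,⟨0,[(5,0)]⟩⟩,.o ⟨false,1,⟨0,[(29,0),(2,0)]⟩,⟨0,[(14,
  0)]⟩⟩,.o ⟨false,1,⟨5,[(10,1),(1,0),(0,0),(7,0),(1,1),(0,1)]⟩,⟨0,[(6,0)]⟩⟩,.e ⟨false,0,⟨1,[(0,0),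
  (1,0),(25,0)]⟩,⟨0,[(11,0),(9,0)]⟩⟩ ⟨false,1,⟨0,[(22,0),(6,0),(2,0)]⟩,⟨0,[(5,0)]⟩⟩]⟩) (.R ⟨1,false,
  false,false,[1,0,-1],[0,1],[1,1,0,0,0,0,-1],(⟨0,[(22,0)]⟩,⟨0,[(23,0)]⟩),(⟨0,[(26,0)]⟩,⟨0,[(25,
  0)]⟩),⟨0,[(3,0)]⟩,.k,.k,(.x (-1) ⟨3,[(16,0),(0,0),(6,1),(0,3)]⟩ ⟨0,[(26,0)]⟩),(.x (-1) ⟨3,[(16,0),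
  (0,0),(6,1),(0,3)]⟩ ⟨0,[(26,0)]⟩),(.x 0 ⟨4,[(0,2),(2,8),(1,5),(1,2),(7,0),(9,0)]⟩ ⟨3,[(16,0),(0,
  0),(8,7),(4,1)]⟩),.k,⟨false,0,⟨0,[(4,0)]⟩,⟨7,[(0,3),(15,0),(0,0),(3,1),(10,3)]⟩⟩,⟨true,0,⟨0,[(22,
  0)]⟩,⟨4,[(0,0),(4,1),(1,0),(7,1),(7,1)]⟩⟩,⟨false,0,⟨0,[]⟩,⟨3,[(16,0),(0,0),(14,1)]⟩⟩,⟨false,1,⟨7,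
  [(0,3),(15,0),(0,0),(3,1),(0,7),(9,3)]⟩,⟨4,[(2,0),(1,1),(0,2),(1,0),(1,0),(5,0)]⟩⟩,⟨true,0,⟨0,
  [(29,0)]⟩,⟨0,[(30,0)]⟩⟩,⟨false,1,⟨1,[(0,1),(21,1),(8,0),(0,0)]⟩,⟨3,[(2,0),(1,1),(0,2),(3,0),(5,0),
  (14,2)]⟩⟩,[.a ⟨true,0,⟨2,[(0,0),(0,0),(7,0),(12,1),(0,0)]⟩,⟨0,[(30,0)]⟩⟩ ⟨false,0,⟨2,[(4,1),(6,0),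
  (17,0)]⟩,⟨1,[(21,0),(10,0)]⟩⟩ ⟨true,0,⟨2,[(0,0),(10,0),(10,2)]⟩,⟨0,[(5,0)]⟩⟩,.o ⟨false,1,⟨11,[(0,
  5),(1,1),(17,1),(10,4),(0,4)]⟩,⟨0,[(14,0)]⟩⟩,.o ⟨false,1,⟨21,[(0,1),(4,3),(4,7),(1,4),(0,4),(7,3),
  (2,4)]⟩,⟨0,[(6,0)]⟩⟩,.e ⟨false,0,⟨0,[(8,0)]⟩,⟨1,[(21,0),(10,0),(0,1)]⟩⟩ ⟨false,1,⟨11,[(0,5),(1,1),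
  (17,1),(1,11),(8,4),(0,4)]⟩,⟨0,[(5,0)]⟩⟩]⟩)) (.Q [0,0,0,-1,0,0,0,0,-1] (.pp true [-1,1]) (.I [0,0,
  -2,-2,0,0,-1] (.R ⟨1,false,false,true,[1,0,-1],[0,1],[0,1,0,-1,0,0,-1],(⟨0,[(23,0)]⟩,⟨0,[(24,
  0)]⟩),(⟨0,[(27,0)]⟩,⟨0,[(26,0)]⟩),⟨0,[(4,0)]⟩,.k,.k,(.x (-1) ⟨3,[(17,0),(0,0),(6,1),(0,3)]⟩ ⟨0,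
  [(27,0)]⟩),(.x (-1) ⟨3,[(17,0),(0,0),(6,1),(0,3)]⟩ ⟨0,[(27,0)]⟩),(.r 0 ⟨0,[(0,0)]⟩ ⟨0,[(12,0),(9,
  0),(6,0),(0,0)]⟩),.k,⟨false,0,⟨0,[(0,0)]⟩,⟨1,[(22,0),(6,1),(0,3),(2,0)]⟩⟩,⟨true,0,⟨0,[(23,0)]⟩,⟨0,
  [(6,0),(22,0),(0,0)]⟩⟩,⟨false,0,⟨0,[(31,0)]⟩,⟨0,[(30,0),(2,0)]⟩⟩,⟨false,1,⟨0,[(12,0),(9,0),(0,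
  0)]⟩,⟨0,[(1,0),(8,0)]⟩⟩,⟨true,0,⟨0,[(35,0)]⟩,⟨0,[]⟩⟩,⟨false,1,⟨1,[(22,0),(0,1),(5,1),(0,3),(2,
  0)]⟩,⟨1,[(0,0),(1,0),(3,0),(3,0)]⟩⟩,[.o ⟨false,0,⟨0,[(30,0)]⟩,⟨15,[(0,3),(1,7),(14,2),(0,2),(3,1),
  (2,3),(7,3)]⟩⟩,.o ⟨false,1,⟨3,[(17,0),(0,0),(11,3),(2,1)]⟩,⟨0,[(1,0)]⟩⟩,.o ⟨false,1,⟨5,[(11,1),(1,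
  0),(0,0),(7,0),(1,1),(0,1)]⟩,⟨0,[(7,0)]⟩⟩,.a ⟨true,0,⟨0,[(24,0)]⟩,⟨0,[(23,0)]⟩⟩ ⟨false,0,⟨2,[(0,
  1),(11,0)]⟩,⟨1,[(22,0),(6,1),(0,1),(2,0)]⟩⟩ ⟨true,0,⟨0,[(23,0),(6,0)]⟩,⟨0,[(6,0)]⟩⟩]⟩) (.Q [0,0,0,
  0,0,2,0,0,-1,1] (.p true [0,0,1] [1] (⟨0,[(24,0)]⟩,⟨0,[(23,0)]⟩) .k 1 (⟨0,[]⟩,⟨0,[]⟩) .k .k) (.R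
  ⟨0,false,false,false,[1,-1,-1],[1,-1],[0,1,-1,-1,0,0,-1],(⟨0,[(5,0)]⟩,⟨1,[(0,0),(23,0),(0,1)]⟩),
  (⟨0,[(27,0)]⟩,⟨0,[(28,0)]⟩),⟨0,[(0,0)]⟩,(.x (-1) ⟨3,[(18,0),(0,0),(6,1),(0,3)]⟩ ⟨0,[(28,0)]⟩),.k,
  (.x 0 ⟨4,[(1,2),(0,5),(2,2),(3,2),(7,0),(9,6)]⟩ ⟨3,[(0,3),(17,0),(0,0),(4,3),(8,1)]⟩),.k,.k,.k,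
  ⟨false,0,⟨2,[(6,1),(6,0),(17,0)]⟩,⟨1,[(23,0),(10,0)]⟩⟩,⟨true,0,⟨0,[(8,0)]⟩,⟨0,[(25,0)]⟩⟩,⟨true,0,
  ⟨0,[(36,0)]⟩,⟨0,[]⟩⟩,⟨false,1,⟨1,[(8,1),(14,0),(10,0)]⟩,⟨1,[(11,0),(2,0)]⟩⟩,⟨false,0,⟨0,[]⟩,⟨0,
  []⟩⟩,⟨false,0,⟨0,[]⟩,⟨0,[]⟩⟩,[.o ⟨false,0,⟨0,[(2,0)]⟩,⟨7,[(1,3),(16,0),(0,0),(2,1),(10,3)]⟩⟩,.o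
  ⟨false,1,⟨0,[(16,0),(17,0)]⟩,⟨0,[(31,0)]⟩⟩,.a ⟨true,0,⟨0,[(25,0)]⟩,⟨0,[(24,0)]⟩⟩ ⟨false,0,⟨4,[(4,
  1),(1,1),(6,0),(18,3)]⟩,⟨7,[(1,3),(16,0),(0,0),(3,1),(10,3)]⟩⟩ ⟨true,0,⟨0,[(2,0),(21,0)]⟩,⟨3,[(1,
  1),(9,0),(2,0),(10,1),(3,1)]⟩⟩,.o ⟨false,0,⟨4,[(1,0),(5,1),(1,0),(7,1),(7,1)]⟩,⟨1,[(24,1),(1,0),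
  (6,0)]⟩⟩]⟩) (.R ⟨1,false,false,false,[1,-1,-1],[1,-1],[1,0,-1,-1,0,0,-1],(⟨0,[(5,0)]⟩,⟨0,[(25,0),
  (2,0)]⟩),(⟨0,[(27,0)]⟩,⟨0,[(28,0)]⟩),⟨0,[(0,0)]⟩,(.x (-1) ⟨3,[(18,0),(0,0),(6,1),(0,3)]⟩ ⟨0,[(28,
  0)]⟩),.k,(.x 0 ⟨10,[(0,8),(0,2),(5,5),(1,2),(7,3),(9,3)]⟩ ⟨3,[(18,0),(0,0),(8,7),(4,1)]⟩),.k,(.x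
  (-1) ⟨3,[(18,0),(0,0),(6,1),(0,3)]⟩ ⟨0,[(28,0)]⟩),.k,⟨false,0,⟨0,[(10,0)]⟩,⟨3,[(18,0),(0,0),(3,
  1)]⟩⟩,⟨true,0,⟨0,[(8,0)]⟩,⟨0,[(25,0)]⟩⟩,⟨true,0,⟨0,[]⟩,⟨0,[(36,0)]⟩⟩,⟨false,1,⟨1,[(8,1),(14,0),
  (10,0)]⟩,⟨1,[(11,0),(2,0)]⟩⟩,⟨false,1,⟨11,[(1,5),(2,1),(17,1),(10,4),(0,4)]⟩,⟨0,[(32,0)]⟩⟩,⟨false,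
  1,⟨3,[(1,1),(2,1),(3,1),(14,1),(0,1),(1,0),(7,0)]⟩,⟨1,[(11,0),(2,0),(17,1)]⟩⟩,[.o ⟨false,0,⟨0,[(2,
  0)]⟩,⟨7,[(1,3),(16,0),(0,0),(2,1),(10,3)]⟩⟩,.o ⟨false,1,⟨0,[(16,0),(17,0)]⟩,⟨0,[(31,0)]⟩⟩,.a
  ⟨true,0,⟨0,[(25,0)]⟩,⟨0,[(24,0)]⟩⟩ ⟨false,0,⟨0,[(4,0),(27,0)]⟩,⟨7,[(1,3),(16,2),(0,2),(3,1)]⟩⟩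
  ⟨true,0,⟨0,[(2,0),(21,0)]⟩,⟨3,[(1,1),(9,0),(2,0),(10,1),(3,1)]⟩⟩,.o ⟨false,0,⟨4,[(1,0),(5,1),(1,
  0),(7,1),(7,1)]⟩,⟨1,[(24,1),(1,0),(6,0)]⟩⟩]⟩))) (.I [0,0,-2,-2,0,0,-1] (.R ⟨1,false,false,false,
  [1,0,-1],[0,1],[0,0,0,-1,0,0,-1],(⟨0,[(23,0)]⟩,⟨0,[(24,0)]⟩),(⟨0,[(27,0)]⟩,⟨0,[(26,0)]⟩),⟨0,[(4,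
  0)]⟩,.k,.k,(.x (-1) ⟨3,[(17,0),(0,0),(6,1),(0,3)]⟩ ⟨0,[(27,0)]⟩),(.x (-1) ⟨3,[(17,0),(0,0),(6,1),
  (0,3)]⟩ ⟨0,[(27,0)]⟩),(.r 0 ⟨0,[(0,0)]⟩ ⟨1,[(1,1),(14,1),(5,0),(7,1),(2,0)]⟩),.k,⟨false,0,⟨0,[(0,
  0)]⟩,⟨1,[(22,0),(6,1),(0,3),(2,0)]⟩⟩,⟨true,0,⟨0,[(23,0)]⟩,⟨0,[(6,0),(22,0),(0,0)]⟩⟩,⟨true,0,⟨0,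
  [(31,0)]⟩,⟨0,[(30,0)]⟩⟩,⟨false,1,⟨1,[(1,1),(5,1),(14,0),(10,0)]⟩,⟨11,[(0,3),(5,3),(1,5),(1,0),(2,
  0),(2,1)]⟩⟩,⟨false,1,⟨3,[(17,0),(0,0),(14,1)]⟩,⟨0,[]⟩⟩,⟨false,1,⟨0,[(1,0),(1,0),(3,0),(14,0),(6,
  0),(0,0)]⟩,⟨5,[(0,3),(5,3),(3,0),(2,0),(2,1)]⟩⟩,[.a ⟨true,0,⟨0,[(1,0)]⟩,⟨0,[(31,0)]⟩⟩ ⟨false,0,⟨2,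
  [(0,1),(11,0)]⟩,⟨1,[(22,0),(7,1),(2,0)]⟩⟩ ⟨true,0,⟨0,[(1,0),(5,0)]⟩,⟨0,[(6,0)]⟩⟩,.o ⟨false,1,⟨0,
  [(30,0),(2,0)]⟩,⟨0,[(15,0)]⟩⟩,.o ⟨false,1,⟨5,[(11,1),(1,0),(0,0),(7,0),(1,1),(0,1)]⟩,⟨0,[(7,0)]⟩⟩,
  .e ⟨false,0,⟨1,[(0,0),(2,0),(25,0)]⟩,⟨0,[(12,0),(9,0)]⟩⟩ ⟨false,1,⟨0,[(23,0),(6,0),(2,0)]⟩,⟨0,[(6,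
  0)]⟩⟩]⟩) (.R ⟨1,false,false,false,[1,0,-1],[0,1],[1,1,0,0,0,0,-1],(⟨0,[(23,0)]⟩,⟨0,[(24,0)]⟩),(⟨0,
  [(27,0)]⟩,⟨0,[(26,0)]⟩),⟨0,[(4,0)]⟩,.k,.k,(.x (-1) ⟨3,[(17,0),(0,0),(6,1),(0,3)]⟩ ⟨0,[(27,0)]⟩),
  (.x (-1) ⟨3,[(17,0),(0,0),(6,1),(0,3)]⟩ ⟨0,[(27,0)]⟩),(.x 0 ⟨4,[(0,2),(3,8),(1,5),(1,2),(7,0),(9,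
  0)]⟩ ⟨3,[(17,0),(0,0),(8,7),(4,1)]⟩),.k,⟨false,0,⟨0,[(5,0)]⟩,⟨7,[(0,3),(16,0),(0,0),(3,1),(10,
  3)]⟩⟩,⟨true,0,⟨0,[(23,0)]⟩,⟨4,[(0,0),(5,1),(1,0),(7,1),(7,1)]⟩⟩,⟨false,0,⟨0,[]⟩,⟨3,[(17,0),(0,0),
  (14,1)]⟩⟩,⟨false,1,⟨7,[(0,3),(16,0),(0,0),(3,1),(0,7),(9,3)]⟩,⟨5,[(2,1),(2,1),(0,1),(1,1),(1,0),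
  (2,0)]⟩⟩,⟨true,0,⟨0,[(30,0)]⟩,⟨0,[(31,0)]⟩⟩,⟨false,1,⟨1,[(0,1),(22,1),(8,0),(0,0)]⟩,⟨3,[(2,1),(2,
  1),(0,1),(3,0),(2,0),(17,1)]⟩⟩,[.a ⟨true,0,⟨0,[(1,0)]⟩,⟨0,[(31,0)]⟩⟩ ⟨false,0,⟨2,[(5,1),(6,0),(17,
  0)]⟩,⟨1,[(22,0),(10,0)]⟩⟩ ⟨true,0,⟨2,[(0,0),(11,0),(10,2)]⟩,⟨0,[(6,0)]⟩⟩,.o ⟨false,1,⟨11,[(0,5),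
  (2,1),(17,1),(10,4),(0,4)]⟩,⟨0,[(15,0)]⟩⟩,.o ⟨false,1,⟨21,[(0,1),(5,3),(4,7),(1,4),(0,4),(7,3),(2,
  4)]⟩,⟨0,[(7,0)]⟩⟩,.e ⟨false,0,⟨0,[(9,0)]⟩,⟨1,[(22,0),(10,0),(0,1)]⟩⟩ ⟨false,1,⟨11,[(0,5),(2,1),
  (17,1),(1,11),(8,4),(0,4)]⟩,⟨0,[(6,0)]⟩⟩]⟩)))) (.S ⟨1,0,[0,0,1,0,0,0,1],[0,1,1],[0,1,1,0,0,0,1],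
  (⟨0,[(21,0),(2,0)]⟩,⟨0,[(1,0)]⟩),⟨0,[(21,0)]⟩,(.x 0 ⟨0,[(24,0)]⟩ ⟨3,[(14,0),(0,0),(6,1),(0,3)]⟩),
  .k,⟨false,0,⟨0,[(28,0)]⟩,⟨0,[(27,0),(2,0)]⟩⟩,⟨true,0,⟨0,[(28,0)]⟩,⟨0,[(27,0)]⟩⟩,⟨true,0,⟨0,[(32,
  0)]⟩,⟨0,[]⟩⟩,⟨false,1,⟨3,[(14,0),(0,0),(14,1)]⟩,⟨0,[]⟩⟩,[.o ⟨false,1,⟨3,[(4,3),(9,0),(0,0),(3,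
  1)]⟩,⟨0,[(5,0)]⟩⟩,.o ⟨false,1,⟨1,[(4,1),(14,0),(10,0)]⟩,⟨4,[(5,3),(4,0),(2,0),(11,1)]⟩⟩,.a ⟨true,
  0,⟨0,[(20,0)]⟩,⟨0,[(21,0)]⟩⟩ ⟨true,0,⟨0,[(0,0)]⟩,⟨0,[(6,0)]⟩⟩ ⟨false,1,⟨0,[(0,0),(29,0)]⟩,⟨0,[(6,
  0)]⟩⟩,.o ⟨false,0,⟨0,[(4,0)]⟩,⟨3,[(0,0),(7,1),(2,0),(9,0),(0,0)]⟩⟩]⟩)))

def t1 : Tre :=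
  (.Q [0,0,1,0,0,0,0,0,0,-1] (.p false [0,0,1] [] (⟨0,[(16,0)]⟩,⟨0,[(15,0)]⟩) .k 0 (⟨0,[]⟩,⟨0,[]⟩)
  .k .k) (.Q [0,0,0,1,0,0,0,0,1,-1] (.p false [0,0,1] [1] (⟨0,[(17,0)]⟩,⟨0,[(16,0)]⟩) .k 1 (⟨0,[]⟩,
  ⟨0,[]⟩) .k .k) (.Q [0,0,0,0,0,-1,0,0,1,-1] (.ed true [0,1,1] .k) (.Q [0,0,-1,0,0,0,0,0,1] (.pp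
  false [-1,1]) (.R ⟨2,false,false,false,[0,1],[0,1,1],[0,1],(⟨0,[]⟩,⟨0,[]⟩),(⟨0,[(20,0),(2,0)]⟩,⟨0,
  [(1,0)]⟩),⟨0,[]⟩,.k,(.x 0 ⟨0,[(23,0)]⟩ ⟨3,[(13,0),(0,0),(6,1),(0,3)]⟩),.k,.k,(.x (-1) ⟨3,[(13,0),
  (0,0),(6,1),(0,3)]⟩ ⟨0,[(23,0)]⟩),.k,⟨false,0,⟨0,[(0,0),(4,0),(5,0)]⟩,⟨1,[(18,0),(6,1),(0,1),(2,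
  0)]⟩⟩,⟨true,0,⟨0,[(3,0)]⟩,⟨0,[(20,0)]⟩⟩,⟨true,0,⟨0,[(0,0),(10,0)]⟩,⟨0,[(25,0),(0,0)]⟩⟩,⟨false,1,
  ⟨1,[(3,1),(14,0),(10,0)]⟩,⟨1,[(6,0),(2,0)]⟩⟩,⟨false,1,⟨3,[(13,0),(0,0),(13,1)]⟩,⟨0,[(25,0)]⟩⟩,
  ⟨false,1,⟨1,[(2,1),(15,0),(2,0),(3,1)]⟩,⟨1,[(6,0),(2,0),(17,1)]⟩⟩,[.o ⟨false,1,⟨7,[(2,7),(9,3),(0,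
  0),(0,0),(3,3),(2,1)]⟩,⟨0,[(6,0),(4,0)]⟩⟩,.o ⟨false,1,⟨1,[(2,1),(15,0),(2,0),(3,1)]⟩,⟨1,[(6,0),(2,
  0),(1,1)]⟩⟩,.a ⟨true,0,⟨0,[(0,0)]⟩,⟨0,[(30,0)]⟩⟩ ⟨true,0,⟨0,[(31,0)]⟩,⟨0,[]⟩⟩ ⟨false,1,⟨1,[(2,1),
  (9,1),(5,0),(10,0)]⟩,⟨0,[(0,0),(5,0),(4,0)]⟩⟩,.e ⟨false,1,⟨3,[(13,0),(0,0),(13,1)]⟩,⟨0,[(25,0)]⟩⟩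
  ⟨false,1,⟨1,[(2,1),(15,0),(2,0),(3,1)]⟩,⟨1,[(6,0),(2,0),(17,1)]⟩⟩]⟩) (.I [0,0,-2,-2,0,0,-1] (.R
  ⟨1,false,false,false,[1,0,-1],[0,1],[1,1,0,0,0,0,-1],(⟨0,[(20,0)]⟩,⟨0,[(21,0)]⟩),(⟨0,[(24,0)]⟩,⟨0,
  [(23,0)]⟩),⟨0,[(2,0)]⟩,.k,.k,(.x (-1) ⟨3,[(14,0),(0,0),(6,1),(0,3)]⟩ ⟨0,[(24,0)]⟩),(.x (-1) ⟨3,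
  [(14,0),(0,0),(6,1),(0,3)]⟩ ⟨0,[(24,0)]⟩),(.r 0 ⟨0,[(0,0)]⟩ ⟨0,[(9,0),(9,0),(6,0),(0,0)]⟩),.k,
  ⟨false,0,⟨1,[(0,0),(5,0),(18,0)]⟩,⟨1,[(19,0),(6,1),(0,1),(2,0)]⟩⟩,⟨true,0,⟨0,[(20,0)]⟩,⟨0,[(1,0),
  (19,0)]⟩⟩,⟨false,0,⟨0,[]⟩,⟨3,[(14,0),(0,0),(14,1)]⟩⟩,⟨false,1,⟨1,[(3,1),(15,0),(10,0),(0,1)]⟩,⟨0,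
  [(7,0),(4,0)]⟩⟩,⟨true,0,⟨0,[(27,0)]⟩,⟨0,[(28,0)]⟩⟩,⟨false,1,⟨1,[(3,1),(15,0),(6,1),(0,1),(2,0)]⟩,
  ⟨0,[(7,0),(4,0),(15,0)]⟩⟩,[.e ⟨false,0,⟨5,[(0,0),(5,2),(2,1),(15,2)]⟩,⟨1,[(19,0),(10,0)]⟩⟩ ⟨false,
  0,⟨0,[(3,0)]⟩,⟨8,[(0,0),(7,1),(2,2),(0,6),(6,1),(1,3),(8,1)]⟩⟩,.o ⟨false,1,⟨0,[(27,0),(2,0)]⟩,⟨0,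
  [(12,0)]⟩⟩,.o ⟨false,1,⟨5,[(8,1),(1,0),(0,0),(7,0),(1,1),(0,1)]⟩,⟨0,[(4,0)]⟩⟩,.a ⟨true,0,⟨0,[(21,
  0)]⟩,⟨0,[(20,0)]⟩⟩ ⟨false,0,⟨0,[(6,0)]⟩,⟨1,[(19,0),(10,0),(0,1)]⟩⟩ ⟨true,0,⟨0,[(3,0)]⟩,⟨0,[(12,0),
  (8,0)]⟩⟩]⟩) (.I [0,1,1,0,0,0,1] (.S ⟨1,0,[0,1,0,-1,0,0,-1],[1,0,-1],[1,0,0,0,0,0,-1],(⟨0,[(21,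
  0)]⟩,⟨0,[(22,0)]⟩),⟨0,[(3,0)]⟩,.k,(.x (-1) ⟨3,[(15,0),(0,0),(6,1),(0,3)]⟩ ⟨0,[(25,0)]⟩),⟨true,0,
  ⟨0,[]⟩,⟨0,[(33,0)]⟩⟩,⟨false,0,⟨0,[(29,0)]⟩,⟨5,[(1,1),(2,1),(4,1),(9,0),(11,2)]⟩⟩,⟨false,1,⟨5,[(1,
  1),(2,1),(4,1),(9,0),(11,2)]⟩,⟨0,[(29,0)]⟩⟩,⟨true,0,⟨0,[(33,0)]⟩,⟨0,[]⟩⟩,[.o ⟨false,0,⟨1,[(8,0),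
  (2,0),(1,1)]⟩,⟨1,[(4,1),(15,0),(2,0),(3,1)]⟩⟩,.o ⟨false,0,⟨0,[(8,0),(4,0)]⟩,⟨15,[(1,3),(2,7),(0,
  7),(9,2),(0,2),(3,5),(2,3)]⟩⟩,.o ⟨false,1,⟨5,[(9,1),(1,0),(0,0),(7,0),(1,1),(0,1)]⟩,⟨0,[(5,0)]⟩⟩,
  .a ⟨true,0,⟨0,[(22,0)]⟩,⟨0,[(21,0)]⟩⟩ ⟨true,0,⟨0,[(7,0)]⟩,⟨0,[(0,0)]⟩⟩ ⟨false,0,⟨0,[(7,0),(21,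
  0)]⟩,⟨7,[(1,3),(13,0),(0,0),(3,1),(10,3)]⟩⟩]⟩) (.I [0,0,1,0,0,-2] (.R ⟨1,false,false,false,[1,0,
  -1],[0,1],[1,1,0,0,0,0,-1],(⟨0,[(22,0)]⟩,⟨0,[(23,0)]⟩),(⟨0,[(26,0)]⟩,⟨0,[(25,0)]⟩),⟨0,[(4,0)]⟩,.k,
  .k,(.x (-1) ⟨7,[(0,3),(15,2),(0,2),(13,1)]⟩ ⟨0,[(26,0)]⟩),(.x (-1) ⟨7,[(0,3),(15,2),(0,2),(13,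
  1)]⟩ ⟨0,[(26,0)]⟩),(.x 0 ⟨0,[(0,0)]⟩ ⟨3,[(16,0),(0,0),(8,7),(4,1)]⟩),.k,⟨false,0,⟨0,[(1,0),(25,0),
  (2,0)]⟩,⟨7,[(2,3),(13,0),(0,0),(3,1),(10,3)]⟩⟩,⟨true,0,⟨0,[(22,0)]⟩,⟨0,[(3,0),(19,0)]⟩⟩,⟨false,0,
  ⟨0,[]⟩,⟨3,[(16,0),(0,0),(14,1)]⟩⟩,⟨false,1,⟨7,[(2,3),(13,0),(0,0),(3,1),(0,7),(9,3)]⟩,⟨0,[(9,0),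
  (4,0)]⟩⟩,⟨true,0,⟨0,[(29,0)]⟩,⟨0,[(30,0)]⟩⟩,⟨false,1,⟨7,[(2,3),(2,7),(10,0),(0,0),(3,1),(10,3)]⟩,
  ⟨0,[(9,0),(4,0),(15,0)]⟩⟩,[.e ⟨false,0,⟨5,[(8,3),(2,0),(0,0),(1,0),(7,0),(4,1)]⟩,⟨1,[(21,0),(10,
  0)]⟩⟩ ⟨false,0,⟨0,[(5,0)]⟩,⟨5,[(10,1),(2,1),(0,3),(6,0),(1,1),(6,1),(1,0)]⟩⟩,.o ⟨false,1,⟨5,[(2,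
  1),(2,1),(4,1),(9,0),(11,2)]⟩,⟨0,[(14,0)]⟩⟩,.o ⟨false,1,⟨5,[(10,1),(1,0),(0,0),(7,0),(1,1),(0,
  1)]⟩,⟨0,[(6,0)]⟩⟩,.a ⟨true,0,⟨0,[(23,0)]⟩,⟨0,[(22,0)]⟩⟩ ⟨false,0,⟨0,[(8,0)]⟩,⟨1,[(21,0),(10,0),(0,
  1)]⟩⟩ ⟨true,0,⟨0,[(5,0)]⟩,⟨0,[(14,0),(8,0)]⟩⟩]⟩) (.R ⟨0,false,false,false,[1,-1],[0,1],[1,0,1,1],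
  (⟨0,[(25,0)]⟩,⟨0,[(26,0)]⟩),(⟨0,[(26,0)]⟩,⟨0,[(25,0)]⟩),⟨0,[(0,0),(2,0)]⟩,.k,.k,(.r (-1) ⟨0,[(30,
  1),(0,0)]⟩ ⟨0,[(1,3),(0,3),(24,1),(2,5)]⟩),(.r (-1) ⟨0,[(30,1),(0,0)]⟩ ⟨0,[(1,3),(0,3),(24,1),(2,
  5)]⟩),.k,.k,⟨true,0,⟨0,[]⟩,⟨0,[(33,0)]⟩⟩,⟨false,1,⟨1,[(0,0),(3,1),(4,1),(11,0),(5,0),(3,0)]⟩,⟨0,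
  [(15,0)]⟩⟩,⟨false,0,⟨5,[(1,2),(0,4),(8,1),(16,2)]⟩,⟨0,[(30,1),(0,0)]⟩⟩,⟨true,0,⟨1,[(0,0),(1,1),(1,
  1),(4,1),(17,0)]⟩,⟨0,[(14,0),(15,0)]⟩⟩,⟨false,0,⟨0,[]⟩,⟨0,[]⟩⟩,⟨false,0,⟨0,[]⟩,⟨0,[]⟩⟩,[.a ⟨true,
  0,⟨5,[(0,1),(1,1),(2,1),(3,0),(2,0),(12,3)]⟩,⟨0,[(30,0)]⟩⟩ ⟨true,0,⟨2,[(2,0),(8,0)]⟩,⟨0,[(30,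
  0)]⟩⟩ ⟨false,1,⟨1,[(5,1),(3,0),(2,0),(8,0),(9,0)]⟩,⟨0,[(14,0),(13,0)]⟩⟩,.o ⟨false,1,⟨5,[(2,1),(2,
  1),(4,1),(9,0),(11,2)]⟩,⟨0,[(14,0)]⟩⟩,.o ⟨false,0,⟨0,[(3,0)]⟩,⟨3,[(16,0),(0,0),(13,1)]⟩⟩,.o
  ⟨false,0,⟨0,[(15,0)]⟩,⟨0,[(31,0)]⟩⟩]⟩))))) (.Q [0,1,1,0,0,0,1,0,1,-1] (.p false [0,0,1] [1] (⟨0,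
  [(19,0)]⟩,⟨0,[(18,0)]⟩) .k 1 (⟨0,[]⟩,⟨0,[]⟩) .k .k) (.R ⟨0,false,false,false,[-1,1,1],[0,1],[0,0,
  1],(⟨0,[(1,0)]⟩,⟨0,[(19,0),(2,0)]⟩),(⟨0,[(23,0)]⟩,⟨0,[(22,0)]⟩),⟨0,[(19,0)]⟩,(.x 0 ⟨0,[(23,0)]⟩
  ⟨3,[(13,0),(0,0),(6,1),(0,3)]⟩),.k,.k,.k,.k,.k,⟨true,0,⟨0,[(27,0)]⟩,⟨0,[(25,0),(0,0)]⟩⟩,⟨false,1,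
  ⟨0,[(7,0)]⟩,⟨0,[(19,0),(10,0)]⟩⟩,⟨false,0,⟨0,[(3,0),(2,0),(20,0)]⟩,⟨1,[(18,0),(7,1),(2,0)]⟩⟩,
  ⟨true,0,⟨0,[(4,0)]⟩,⟨0,[(0,0)]⟩⟩,⟨false,0,⟨0,[]⟩,⟨0,[]⟩⟩,⟨false,0,⟨0,[]⟩,⟨0,[]⟩⟩,[.a ⟨true,0,⟨0,
  [(2,0),(17,0)]⟩,⟨0,[(27,0)]⟩⟩ ⟨true,0,⟨0,[(30,0)]⟩,⟨0,[]⟩⟩ ⟨false,1,⟨1,[(6,1),(11,0),(2,0),(4,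
  1)]⟩,⟨0,[(19,0),(7,0)]⟩⟩,.o ⟨false,1,⟨0,[(26,0),(2,0)]⟩,⟨0,[(11,0)]⟩⟩,.o ⟨false,0,⟨0,[(19,0)]⟩,⟨0,
  [(20,0),(0,0)]⟩⟩,.o ⟨false,0,⟨0,[(19,0),(10,0)]⟩,⟨1,[(4,1),(13,0),(2,0)]⟩⟩]⟩) (.Q [0,0,1,0,0,0,0,
  0,-1,1] (.p true [0,0,1] [1] (⟨0,[(20,0)]⟩,⟨0,[(19,0)]⟩) .k 1 (⟨0,[]⟩,⟨0,[]⟩) .k .k) (.R ⟨0,false,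
  false,false,[1,0,-1],[0,1],[0,1,0,0,0,0,-1],(⟨0,[(20,0)]⟩,⟨0,[(21,0)]⟩),(⟨0,[(24,0)]⟩,⟨0,[(23,
  0)]⟩),⟨0,[(2,0)]⟩,.k,.k,(.x (-1) ⟨3,[(14,0),(0,0),(6,1),(0,3)]⟩ ⟨0,[(24,0)]⟩),(.x (-1) ⟨3,[(14,0),
  (0,0),(6,1),(0,3)]⟩ ⟨0,[(24,0)]⟩),.k,.k,⟨false,0,⟨0,[(1,0),(18,0),(4,0),(2,0)]⟩,⟨1,[(0,1),(2,1),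
  (15,0),(10,0)]⟩⟩,⟨true,0,⟨0,[(20,0)]⟩,⟨0,[(0,0)]⟩⟩,⟨true,0,⟨0,[(32,0)]⟩,⟨0,[]⟩⟩,⟨false,1,⟨1,[(3,
  1),(15,0),(10,0),(0,1)]⟩,⟨0,[(7,0),(4,0)]⟩⟩,⟨false,0,⟨0,[]⟩,⟨0,[]⟩⟩,⟨false,0,⟨0,[]⟩,⟨0,[]⟩⟩,[.e
  ⟨false,0,⟨5,[(6,3),(2,0),(0,0),(1,0),(7,0),(4,1)]⟩,⟨1,[(19,0),(10,0)]⟩⟩ ⟨false,0,⟨0,[(3,0)]⟩,⟨4,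
  [(0,0),(7,1),(2,1),(0,1),(6,0),(8,2)]⟩⟩,.o ⟨false,1,⟨0,[(27,0),(2,0)]⟩,⟨0,[(12,0)]⟩⟩,.o ⟨false,1,
  ⟨5,[(0,1),(7,3),(5,0),(0,0)]⟩,⟨0,[(4,0)]⟩⟩,.a ⟨true,0,⟨0,[(21,0)]⟩,⟨0,[(20,0)]⟩⟩ ⟨false,0,⟨0,[(6,
  0)]⟩,⟨1,[(19,0),(10,0),(0,1)]⟩⟩ ⟨true,0,⟨0,[(3,0)]⟩,⟨0,[(12,0),(8,0)]⟩⟩]⟩) (.R ⟨0,false,false,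
  false,[1,0,-1],[0,1,-1],[1,0,1],(⟨0,[(20,0)]⟩,⟨0,[(21,0)]⟩),(⟨0,[(0,0),(1,0),(1,0)]⟩,⟨0,[(21,0),
  (1,0)]⟩),⟨0,[(2,0)]⟩,.k,(.r 0 ⟨0,[(0,0),(0,0),(25,0),(3,2)]⟩ ⟨1,[(19,0),(8,1),(0,0)]⟩),(.x (-1)
  ⟨3,[(14,0),(0,0),(6,1),(0,3)]⟩ ⟨0,[(24,0)]⟩),.k,.k,.k,⟨false,1,⟨1,[(19,0),(8,1),(0,0)]⟩,⟨1,[(3,0),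
  (1,0),(3,0)]⟩⟩,⟨true,0,⟨0,[(0,0),(20,0)]⟩,⟨0,[(13,0)]⟩⟩,⟨false,1,⟨1,[(19,0),(10,0),(0,1)]⟩,⟨0,[(6,
  0)]⟩⟩,⟨true,0,⟨0,[(3,0),(17,0)]⟩,⟨0,[(12,0)]⟩⟩,⟨false,0,⟨0,[]⟩,⟨0,[]⟩⟩,⟨false,0,⟨0,[]⟩,⟨0,[]⟩⟩,
  [.o ⟨false,0,⟨0,[(7,0),(19,0)]⟩,⟨1,[(4,1),(7,1),(6,0),(10,0)]⟩⟩,.o ⟨false,0,⟨0,[(1,0),(1,0),(17,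
  0)]⟩,⟨3,[(4,3),(7,3),(1,0),(0,0),(3,1)]⟩⟩,.o ⟨false,1,⟨5,[(8,1),(1,0),(0,0),(7,0),(1,1),(0,1)]⟩,
  ⟨0,[(4,0)]⟩⟩,.a ⟨true,0,⟨0,[(21,0)]⟩,⟨0,[(20,0)]⟩⟩ ⟨true,0,⟨0,[]⟩,⟨0,[(32,0)]⟩⟩ ⟨false,0,⟨0,[(3,
  0),(3,0)]⟩,⟨7,[(12,3),(0,3),(0,0),(0,0),(3,3),(8,3),(1,1)]⟩⟩]⟩)))) (.I [0,1,-2,-1,0,0,-1] t0 (.Q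
  [0,0,0,0,0,1,0,0,-1,1] (.ed false [0,1,1] .k) (.K ⟨0,[-1,1,1],0,0,(⟨0,[(0,0)]⟩,⟨0,[(19,0),(2,
  0)]⟩),(.x 0 ⟨0,[(23,0)]⟩ ⟨3,[(13,0),(0,0),(6,1),(0,3)]⟩),.k,(.r 0 ⟨0,[(1,0),(24,0)]⟩ ⟨3,[(5,1),
  (11,0),(9,7),(0,2)]⟩),.k,.k,[⟨4,[(1,0),(0,1),(1,0),(7,1),(7,1),(5,0)]⟩,⟨0,[(19,0),(10,0)]⟩,⟨1,[(6,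
  0),(2,0),(1,1)]⟩,⟨0,[(1,0),(17,0),(4,0)]⟩]⟩) (.K ⟨0,[1,-1,-1],0,0,(⟨0,[(0,0)]⟩,⟨0,[(20,0),(2,
  0)]⟩),(.x (-1) ⟨3,[(13,0),(0,0),(6,1),(0,3)]⟩ ⟨0,[(23,0)]⟩),(.r (-1) ⟨3,[(5,1),(11,0),(9,7),(0,
  2)]⟩ ⟨0,[(1,0),(24,0)]⟩),.k,.k,.k,[⟨0,[(19,0),(10,0)]⟩,⟨4,[(1,0),(0,1),(1,0),(7,1),(7,1),(5,0)]⟩,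
  ⟨0,[(1,0),(17,0),(4,0)]⟩,⟨1,[(6,0),(2,0),(1,1)]⟩]⟩)))) (.R ⟨2,false,false,false,[0,1],[0,0,1],[1,
  0,1,1],(⟨0,[]⟩,⟨0,[]⟩),(⟨0,[(17,0)]⟩,⟨0,[(16,0)]⟩),⟨0,[]⟩,.k,.k,.k,(.r 0 ⟨0,[(2,0),(19,0),(0,0),
  (3,0)]⟩ ⟨1,[(15,0),(8,1),(0,0)]⟩),.k,.k,⟨false,0,⟨0,[(2,0),(19,0),(0,0)]⟩,⟨1,[(15,0),(8,1),(0,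
  0)]⟩⟩,⟨true,0,⟨0,[(9,0),(6,0)]⟩,⟨0,[(0,0)]⟩⟩,⟨true,0,⟨0,[]⟩,⟨0,[(28,0)]⟩⟩,⟨false,1,⟨1,[(8,1),(6,
  0),(0,1),(5,1),(3,0)]⟩,⟨0,[(3,0),(19,0)]⟩⟩,⟨false,1,⟨0,[(23,0),(2,0)]⟩,⟨0,[(24,0)]⟩⟩,⟨false,1,⟨1,
  [(15,0),(0,1),(1,0),(3,1)]⟩,⟨1,[(3,0),(2,0)]⟩⟩,[.o ⟨false,1,⟨7,[(9,3),(0,0),(0,0),(3,3),(0,7),(1,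
  1)]⟩,⟨0,[(1,0)]⟩⟩,.o ⟨false,1,⟨1,[(15,0),(0,1),(1,0),(3,1)]⟩,⟨4,[(1,3),(4,0),(2,0),(11,1)]⟩⟩,.a
  ⟨true,0,⟨0,[(0,0),(15,0)]⟩,⟨0,[(27,0)]⟩⟩ ⟨true,0,⟨0,[(22,0),(0,0)]⟩,⟨0,[(0,0),(7,0),(7,0)]⟩⟩
  ⟨false,1,⟨1,[(9,1),(5,0),(0,1),(9,0)]⟩,⟨0,[(0,0),(1,0)]⟩⟩,.e ⟨false,1,⟨0,[(23,0),(2,0)]⟩,⟨0,[(24,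
  0)]⟩⟩ ⟨false,1,⟨1,[(15,0),(0,1),(1,0),(3,1)]⟩,⟨1,[(3,0),(2,0)]⟩⟩]⟩))

def t2 : Tre :=
  (.I [1,-1,0,0,0,0,1] (.Q [0,0,0,1,0,0,0,0,1,-1] (.p false [0,0,1] [1] (⟨0,[(21,0)]⟩,⟨0,[(20,0)]⟩)
  .k 1 (⟨0,[]⟩,⟨0,[]⟩) .k .k) (.I [0,0,-2,-2,1,0,-1] (.R ⟨1,false,false,false,[1,0,-1],[0,1],[0,0,0,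
  -1,0,0,-1],(⟨0,[(22,0)]⟩,⟨0,[(23,0)]⟩),(⟨0,[(26,0)]⟩,⟨0,[(25,0)]⟩),⟨0,[(11,0)]⟩,.k,.k,(.x (-1) ⟨3,
  [(16,0),(0,0),(6,1),(0,3)]⟩ ⟨0,[(26,0)]⟩),(.x (-1) ⟨3,[(16,0),(0,0),(6,1),(0,3)]⟩ ⟨0,[(26,0)]⟩),
  (.r (-1) ⟨0,[(0,0)]⟩ ⟨1,[(4,0),(5,1),(4,0),(18,1)]⟩),.k,⟨false,1,⟨0,[(0,0)]⟩,⟨0,[(10,0),(18,0)]⟩⟩,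
  ⟨true,0,⟨0,[(22,0)]⟩,⟨0,[(7,0),(15,0)]⟩⟩,⟨true,0,⟨0,[(30,0)]⟩,⟨0,[(29,0)]⟩⟩,⟨false,0,⟨0,[(5,0),(6,
  0)]⟩,⟨0,[(13,0),(0,0)]⟩⟩,⟨false,1,⟨3,[(16,0),(0,0),(14,1)]⟩,⟨0,[]⟩⟩,⟨false,0,⟨0,[(4,0),(7,0)]⟩,⟨0,
  [(13,0),(0,0),(15,0)]⟩⟩,[.e ⟨false,1,⟨7,[(0,3),(15,0),(0,0),(2,1)]⟩,⟨0,[(2,0),(26,0)]⟩⟩ ⟨false,0,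
  ⟨0,[(1,0)]⟩,⟨17,[(0,5),(2,1),(4,3),(4,1),(7,0),(1,15),(0,8)]⟩⟩,.o ⟨false,1,⟨7,[(4,3),(11,0),(0,0),
  (6,1),(7,3)]⟩,⟨0,[(14,0)]⟩⟩,.o ⟨false,1,⟨1,[(23,1),(0,0),(6,0)]⟩,⟨0,[(7,0),(14,0)]⟩⟩,.a ⟨true,0,
  ⟨0,[(23,0)]⟩,⟨0,[(22,0)]⟩⟩ ⟨false,1,⟨1,[(0,0),(5,0),(21,0)]⟩,⟨0,[(10,0),(23,0)]⟩⟩ ⟨true,0,⟨0,[(1,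
  0)]⟩,⟨0,[(14,0),(8,0)]⟩⟩]⟩) (.Q [0,0,2,0,-1,0,0,0,1,-1] (.p false [0,0,1] [1] (⟨0,[(23,0)]⟩,⟨0,
  [(22,0)]⟩) .k 1 (⟨0,[]⟩,⟨0,[]⟩) .k .k) (.K ⟨0,[1,0,-1],1,1,(⟨0,[(23,0)]⟩,⟨0,[(24,0)]⟩),.k,(.x
  (-1) ⟨3,[(17,0),(0,0),(6,1),(0,3)]⟩ ⟨0,[(27,0)]⟩),(.x (-1) ⟨0,[(27,0),(4,0)]⟩ ⟨0,[(16,0),(9,0)]⟩),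
  .k,.k,[⟨0,[(0,0)]⟩,⟨3,[(17,0),(0,0),(5,3),(0,1)]⟩,⟨0,[(0,0),(2,0),(24,0)]⟩,⟨0,[(14,0),(0,0),(14,
  0)]⟩]⟩) (.I [0,0,1,0,0,-2] (.I [0,-1,0,0,0,0,1] (.R ⟨1,false,false,false,[1,0,-1],[0,1],[1,1,0,0,
  0,0,-1],(⟨0,[(25,0)]⟩,⟨0,[(26,0)]⟩),(⟨0,[(29,0)]⟩,⟨0,[(28,0)]⟩),⟨0,[(14,0)]⟩,.k,.k,(.x (-1) ⟨7,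
  [(1,3),(17,2),(0,2),(13,1)]⟩ ⟨0,[(29,0)]⟩),(.x (-1) ⟨7,[(1,3),(17,2),(0,2),(13,1)]⟩ ⟨0,[(29,0)]⟩),
  (.x 0 ⟨0,[(1,0)]⟩ ⟨3,[(19,0),(0,0),(8,7),(4,1)]⟩),.k,⟨false,1,⟨0,[(9,0),(20,0),(2,0)]⟩,⟨0,[(13,
  0)]⟩⟩,⟨true,0,⟨0,[(25,0)]⟩,⟨0,[(10,0),(15,0)]⟩⟩,⟨false,0,⟨0,[]⟩,⟨3,[(19,0),(0,0),(14,1)]⟩⟩,⟨false,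
  0,⟨0,[(8,0),(6,0)]⟩,⟨0,[(16,0),(0,0)]⟩⟩,⟨true,0,⟨0,[(32,0)]⟩,⟨0,[(33,0)]⟩⟩,⟨false,0,⟨0,[(7,0),(7,
  0)]⟩,⟨0,[(16,0),(0,0),(15,0)]⟩⟩,[.e ⟨false,1,⟨7,[(19,0),(0,0),(2,3),(6,3),(3,1)]⟩,⟨0,[(0,0)]⟩⟩
  ⟨false,0,⟨0,[(4,0)]⟩,⟨4,[(2,0),(3,0),(9,2),(0,3),(6,0),(1,0)]⟩⟩,.o ⟨false,1,⟨7,[(7,3),(11,0),(0,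
  0),(6,1),(7,3)]⟩,⟨0,[(17,0)]⟩⟩,.o ⟨false,1,⟨7,[(2,5),(15,1),(0,0),(0,0),(5,1)]⟩,⟨0,[(10,0),(14,
  0)]⟩⟩,.a ⟨true,0,⟨0,[(26,0)]⟩,⟨0,[(25,0)]⟩⟩ ⟨false,1,⟨1,[(23,0),(10,0)]⟩,⟨4,[(3,0),(2,1),(17,0),
  (6,2)]⟩⟩ ⟨true,0,⟨0,[(4,0)]⟩,⟨0,[(17,0),(8,0)]⟩⟩]⟩) (.Q [0,0,0,0,0,1,0,0,0,-1] (.ed true [1,-1,1]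
  .k) (.R ⟨0,false,false,true,[0,0,1],[1,-1],[1,1],(⟨0,[(27,0)]⟩,⟨0,[(26,0)]⟩),(⟨0,[(29,0)]⟩,⟨0,
  [(30,0)]⟩),⟨0,[(0,0)]⟩,.k,.k,(.r (-1) ⟨3,[(12,3),(7,0),(0,0),(14,1)]⟩ ⟨0,[(1,0),(2,0),(5,0),(23,
  0)]⟩),(.x 0 ⟨0,[(30,0)]⟩ ⟨7,[(2,3),(17,2),(0,2),(13,1)]⟩),.k,.k,⟨true,0,⟨1,[(8,0),(10,0)]⟩,⟨0,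
  [(34,0)]⟩⟩,⟨false,1,⟨7,[(3,5),(15,1),(0,0),(0,0),(5,1)]⟩,⟨0,[(26,0)]⟩⟩,⟨true,0,⟨0,[(1,0)]⟩,⟨6,[(4,
  0),(1,1),(5,1),(12,0)]⟩⟩,⟨false,1,⟨0,[(17,0),(0,0)]⟩,⟨0,[(9,0),(6,0)]⟩⟩,⟨false,0,⟨0,[]⟩,⟨0,[]⟩⟩,
  ⟨false,0,⟨0,[]⟩,⟨0,[]⟩⟩,[.o ⟨false,0,⟨0,[(18,0)]⟩,⟨7,[(8,3),(11,0),(0,0),(6,1),(7,3)]⟩⟩,.a ⟨true,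
  0,⟨0,[(34,0)]⟩,⟨0,[(9,0)]⟩⟩ ⟨true,0,⟨0,[]⟩,⟨0,[(37,0)]⟩⟩ ⟨false,1,⟨0,[(3,0),(30,0)]⟩,⟨1,[(8,0),
  (10,0),(6,1)]⟩⟩,.o ⟨false,0,⟨1,[(0,0),(14,0),(3,0)]⟩,⟨7,[(3,5),(15,1),(0,0),(0,0),(5,1)]⟩⟩,.o
  ⟨false,0,⟨0,[(19,0),(6,0)]⟩,⟨0,[(3,0)]⟩⟩]⟩) (.S ⟨1,0,[0,1,-1,-2],[1,-1],[1,0,-1,-1],(⟨0,[(29,0)]⟩,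
  ⟨0,[(30,0)]⟩),⟨0,[(0,0),(14,0)]⟩,.k,(.r (-1) ⟨0,[(34,1),(0,0)]⟩ ⟨0,[(8,0),(10,0)]⟩),⟨true,0,⟨0,
  []⟩,⟨0,[(38,0)]⟩⟩,⟨false,0,⟨0,[(34,0)]⟩,⟨7,[(8,3),(11,0),(0,0),(6,1),(7,3)]⟩⟩,⟨false,1,⟨7,[(8,3),
  (11,0),(0,0),(6,1),(7,3)]⟩,⟨0,[(34,0)]⟩⟩,⟨true,0,⟨0,[(38,0)]⟩,⟨0,[]⟩⟩,[.o ⟨false,0,⟨0,[(18,0),(15,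
  0)]⟩,⟨1,[(8,1),(19,0),(7,0)]⟩⟩,.a ⟨true,0,⟨0,[(34,1)]⟩,⟨0,[(8,0)]⟩⟩ ⟨true,1,⟨1,[(34,1),(0,0),(0,
  0)]⟩,⟨0,[(1,0),(2,0),(29,0)]⟩⟩ ⟨false,1,⟨0,[(34,1),(0,0)]⟩,⟨3,[(4,1),(3,1),(15,0),(3,0)]⟩⟩,.o
  ⟨false,0,⟨0,[(11,0)]⟩,⟨3,[(20,0),(0,0),(13,1)]⟩⟩,.o ⟨false,0,⟨0,[(19,0)]⟩,⟨0,[(35,0)]⟩⟩]⟩))) (.R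
  ⟨0,false,false,false,[1,-1],[0,1],[1,0,1,1],(⟨0,[(27,0)]⟩,⟨0,[(28,0)]⟩),(⟨0,[(28,0)]⟩,⟨0,[(27,
  0)]⟩),⟨0,[(0,0),(8,0)]⟩,.k,.k,(.r (-1) ⟨0,[(32,1),(0,0)]⟩ ⟨0,[(6,0),(10,0)]⟩),(.r (-1) ⟨0,[(32,1),
  (0,0)]⟩ ⟨0,[(6,0),(10,0)]⟩),.k,.k,⟨true,0,⟨0,[]⟩,⟨0,[(35,0)]⟩⟩,⟨false,1,⟨0,[(0,0),(0,0),(11,0),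
  (13,0)]⟩,⟨0,[(17,0)]⟩⟩,⟨false,0,⟨1,[(2,1),(19,0),(11,0)]⟩,⟨0,[(32,1),(0,0)]⟩⟩,⟨true,0,⟨0,[(6,0)]⟩,
  ⟨0,[(16,0),(15,0)]⟩⟩,⟨false,0,⟨0,[]⟩,⟨0,[]⟩⟩,⟨false,0,⟨0,[]⟩,⟨0,[]⟩⟩,[.a ⟨true,0,⟨0,[(7,0)]⟩,⟨0,
  [(32,0)]⟩⟩ ⟨true,0,⟨1,[(6,0),(10,0)]⟩,⟨0,[(32,0)]⟩⟩ ⟨false,1,⟨0,[(7,0),(25,0)]⟩,⟨0,[(16,0),(13,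
  0)]⟩⟩,.o ⟨false,1,⟨7,[(6,3),(11,0),(0,0),(6,1),(7,3)]⟩,⟨0,[(16,0)]⟩⟩,.o ⟨false,0,⟨0,[(9,0)]⟩,⟨3,
  [(18,0),(0,0),(13,1)]⟩⟩,.o ⟨false,0,⟨0,[(17,0)]⟩,⟨0,[(33,0)]⟩⟩]⟩)))) (.I [0,0,-2,-2,1,0,-1] (.R
  ⟨1,false,false,false,[1,0,-1],[0,1],[0,0,0,-1,0,0,-1],(⟨0,[(22,0)]⟩,⟨0,[(23,0)]⟩),(⟨0,[(26,0)]⟩,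
  ⟨0,[(25,0)]⟩),⟨0,[(11,0)]⟩,.k,.k,(.x (-1) ⟨3,[(16,0),(0,0),(6,1),(0,3)]⟩ ⟨0,[(26,0)]⟩),(.x (-1)
  ⟨3,[(16,0),(0,0),(6,1),(0,3)]⟩ ⟨0,[(26,0)]⟩),(.r (-1) ⟨0,[(0,0)]⟩ ⟨1,[(4,0),(5,1),(4,0),(18,1)]⟩),
  .k,⟨false,1,⟨0,[(0,0)]⟩,⟨0,[(10,0),(18,0)]⟩⟩,⟨true,0,⟨0,[(22,0)]⟩,⟨0,[(7,0),(15,0)]⟩⟩,⟨true,0,⟨0,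
  [(30,0)]⟩,⟨0,[(29,0)]⟩⟩,⟨false,0,⟨0,[(5,0),(6,0)]⟩,⟨4,[(0,0),(0,2),(11,1),(6,0),(3,0),(2,0)]⟩⟩,
  ⟨false,1,⟨3,[(16,0),(0,0),(14,1)]⟩,⟨0,[]⟩⟩,⟨false,0,⟨0,[(4,0),(7,0)]⟩,⟨7,[(0,3),(0,7),(14,0),(0,
  0),(2,1)]⟩⟩,[.a ⟨true,0,⟨0,[(5,0)]⟩,⟨0,[(30,0)]⟩⟩ ⟨false,1,⟨7,[(0,3),(15,0),(0,0),(2,1)]⟩,⟨0,[(2,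
  0),(26,0)]⟩⟩ ⟨true,0,⟨1,[(4,0),(10,0),(6,1)]⟩,⟨0,[(1,0)]⟩⟩,.o ⟨false,1,⟨7,[(4,3),(11,0),(0,0),(6,
  1),(7,3)]⟩,⟨0,[(14,0)]⟩⟩,.o ⟨false,1,⟨1,[(23,1),(0,0),(6,0)]⟩,⟨0,[(7,0),(14,0)]⟩⟩,.e ⟨false,1,⟨1,
  [(0,0),(5,0),(21,0)]⟩,⟨0,[(10,0),(23,0)]⟩⟩ ⟨false,1,⟨5,[(4,1),(4,1),(6,0),(0,0),(2,0),(1,3),(8,0),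
  (0,1)]⟩,⟨0,[(1,0)]⟩⟩]⟩) (.I [0,-1,0,0,0,0,1] (.R ⟨1,false,false,false,[1,0,-1],[0,1],[1,1,0,0,0,0,
  -1],(⟨0,[(23,0)]⟩,⟨0,[(24,0)]⟩),(⟨0,[(27,0)]⟩,⟨0,[(26,0)]⟩),⟨0,[(12,0)]⟩,.k,.k,(.x (-1) ⟨3,[(17,
  0),(0,0),(6,1),(0,3)]⟩ ⟨0,[(27,0)]⟩),(.x (-1) ⟨3,[(17,0),(0,0),(6,1),(0,3)]⟩ ⟨0,[(27,0)]⟩),(.x 0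
  ⟨5,[(1,3),(0,9),(4,1),(4,9),(8,0),(3,0),(0,1),(3,1)]⟩ ⟨3,[(17,0),(0,0),(8,7),(4,1)]⟩),.k,⟨false,1,
  ⟨0,[(7,0),(20,0),(2,0)]⟩,⟨0,[(11,0)]⟩⟩,⟨true,0,⟨0,[(23,0)]⟩,⟨7,[(1,1),(0,3),(13,1),(4,0),(2,3),(0,
  0)]⟩⟩,⟨false,0,⟨0,[]⟩,⟨3,[(17,0),(0,0),(14,1)]⟩⟩,⟨false,0,⟨0,[(6,0),(6,0)]⟩,⟨0,[(14,0),(0,0)]⟩⟩,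
  ⟨true,0,⟨0,[(30,0)]⟩,⟨0,[(31,0)]⟩⟩,⟨false,0,⟨0,[(5,0),(7,0)]⟩,⟨0,[(14,0),(0,0),(15,0)]⟩⟩,[.a
  ⟨true,0,⟨0,[(6,0)]⟩,⟨0,[(31,0)]⟩⟩ ⟨false,1,⟨7,[(17,0),(0,0),(2,3),(6,3),(3,1)]⟩,⟨0,[(0,0)]⟩⟩
  ⟨true,0,⟨1,[(5,0),(10,0),(6,1)]⟩,⟨0,[(2,0)]⟩⟩,.o ⟨false,1,⟨7,[(5,3),(11,0),(0,0),(6,1),(7,3)]⟩,⟨0,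
  [(15,0)]⟩⟩,.o ⟨false,1,⟨1,[(24,1),(0,0),(6,0)]⟩,⟨0,[(8,0),(14,0)]⟩⟩,.e ⟨false,1,⟨1,[(21,0),(10,
  0)]⟩,⟨4,[(1,0),(2,1),(17,0),(6,2)]⟩⟩ ⟨false,1,⟨5,[(5,1),(4,1),(6,0),(0,0),(2,0),(1,3),(8,0),(0,
  1)]⟩,⟨0,[(2,0)]⟩⟩]⟩) (.S ⟨1,0,[0,1,-1,-2],[1,-1],[1,0,-1,-1],(⟨0,[(26,0)]⟩,⟨0,[(27,0)]⟩),⟨0,[(2,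
  1),(2,0),(6,1)]⟩,.k,(.r (-1) ⟨0,[(31,1),(0,0)]⟩ ⟨0,[(5,0),(10,0)]⟩),⟨true,0,⟨0,[]⟩,⟨0,[(35,0)]⟩⟩,
  ⟨false,0,⟨0,[(31,0)]⟩,⟨7,[(5,3),(11,0),(0,0),(6,1),(7,3)]⟩⟩,⟨false,1,⟨7,[(5,3),(11,0),(0,0),(6,1),
  (7,3)]⟩,⟨0,[(31,0)]⟩⟩,⟨true,0,⟨0,[(35,0)]⟩,⟨0,[]⟩⟩,[.o ⟨false,0,⟨0,[(15,0),(15,0)]⟩,⟨1,[(5,1),(19,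
  0),(7,0)]⟩⟩,.a ⟨true,0,⟨0,[(31,1)]⟩,⟨0,[(5,0)]⟩⟩ ⟨true,1,⟨1,[(31,1),(0,0),(0,0)]⟩,⟨0,[(0,0),(0,0),
  (29,0)]⟩⟩ ⟨false,1,⟨0,[(31,1),(0,0)]⟩,⟨3,[(1,1),(3,1),(15,0),(3,0)]⟩⟩,.o ⟨false,0,⟨0,[(8,0)]⟩,⟨3,
  [(17,0),(0,0),(13,1)]⟩⟩,.o ⟨false,0,⟨0,[(16,0)]⟩,⟨0,[(32,0)]⟩⟩]⟩)))) (.I [1,0,-2,-1,1,0,-1] (.Q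
  [0,0,0,1,0,0,0,0,1,-1] (.p false [0,0,1] [1] (⟨0,[(22,0)]⟩,⟨0,[(21,0)]⟩) .k 1 (⟨0,[]⟩,⟨0,[]⟩) .k
  .k) (.R ⟨1,false,false,false,[1,0,-1],[0,1],[1,0,0,0,0,0,-1],(⟨0,[(22,0)]⟩,⟨0,[(23,0)]⟩),(⟨0,[(26,
  0)]⟩,⟨0,[(25,0)]⟩),⟨0,[(11,0)]⟩,.k,.k,(.x (-1) ⟨3,[(16,0),(0,0),(6,1),(0,3)]⟩ ⟨0,[(26,0)]⟩),(.x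
  (-1) ⟨3,[(16,0),(0,0),(6,1),(0,3)]⟩ ⟨0,[(26,0)]⟩),(.r (-1) ⟨0,[(1,0),(28,0)]⟩ ⟨1,[(4,0),(5,1),(4,
  0),(18,1)]⟩),.k,⟨false,1,⟨0,[(1,0)]⟩,⟨0,[(10,0),(23,0)]⟩⟩,⟨true,0,⟨0,[(22,0)]⟩,⟨0,[(7,0),(15,
  0)]⟩⟩,⟨true,0,⟨0,[]⟩,⟨0,[(34,0)]⟩⟩,⟨false,0,⟨0,[(5,0),(6,0)]⟩,⟨0,[(13,0),(0,0)]⟩⟩,⟨false,1,⟨7,[(4,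
  3),(11,0),(0,0),(6,1),(7,3)]⟩,⟨0,[(30,0)]⟩⟩,⟨false,0,⟨0,[(4,0),(7,0)]⟩,⟨0,[(13,0),(0,0),(15,0)]⟩⟩,
  [.e ⟨false,1,⟨1,[(20,0),(10,0)]⟩,⟨1,[(8,0),(1,0)]⟩⟩ ⟨false,0,⟨0,[(0,0)]⟩,⟨11,[(3,1),(4,3),(4,7),
  (0,5),(6,0),(1,3),(0,2)]⟩⟩,.o ⟨false,1,⟨7,[(4,3),(11,0),(0,0),(6,1),(7,3)]⟩,⟨0,[(14,0)]⟩⟩,.o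
  ⟨false,1,⟨1,[(23,1),(0,0),(6,0)]⟩,⟨0,[(7,0),(14,0)]⟩⟩,.a ⟨true,0,⟨0,[(23,0)]⟩,⟨0,[(22,0)]⟩⟩
  ⟨false,1,⟨0,[(6,0)]⟩,⟨1,[(8,0),(1,0),(22,1)]⟩⟩ ⟨true,0,⟨0,[(0,0)]⟩,⟨0,[(14,0),(8,0)]⟩⟩]⟩) (.R ⟨1,
  false,false,false,[1,0,-1],[0,1],[1,0,0,0,0,0,-1],(⟨0,[(22,0)]⟩,⟨0,[(23,0)]⟩),(⟨0,[(26,0)]⟩,⟨0,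
  [(25,0)]⟩),⟨0,[(11,0)]⟩,.k,.k,(.x (-1) ⟨3,[(16,0),(0,0),(6,1),(0,3)]⟩ ⟨0,[(26,0)]⟩),(.x (-1) ⟨3,
  [(16,0),(0,0),(6,1),(0,3)]⟩ ⟨0,[(26,0)]⟩),(.r (-1) ⟨0,[(1,0),(28,0)]⟩ ⟨1,[(4,0),(5,1),(4,0),(18,
  1)]⟩),.k,⟨false,1,⟨0,[(1,0)]⟩,⟨0,[(10,0),(23,0)]⟩⟩,⟨true,0,⟨0,[(22,0)]⟩,⟨1,[(0,1),(3,0),(10,0)]⟩⟩,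
  ⟨true,0,⟨0,[]⟩,⟨0,[(34,0)]⟩⟩,⟨false,0,⟨0,[(5,0),(6,0)]⟩,⟨27,[(0,19),(0,7),(11,7),(2,0),(0,0),(2,
  5),(3,3),(2,3)]⟩⟩,⟨false,1,⟨7,[(4,3),(11,0),(0,0),(6,1),(7,3)]⟩,⟨0,[(30,0)]⟩⟩,⟨false,0,⟨0,[(4,0),
  (7,0)]⟩,⟨7,[(0,7),(0,3),(14,0),(0,0),(2,1),(9,3)]⟩⟩,[.a ⟨true,0,⟨0,[(5,0)]⟩,⟨0,[(30,0)]⟩⟩ ⟨false,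
  1,⟨1,[(20,0),(10,0)]⟩,⟨1,[(8,0),(1,0)]⟩⟩ ⟨true,0,⟨1,[(4,0),(10,0),(6,1)]⟩,⟨0,[(0,0)]⟩⟩,.o ⟨false,
  1,⟨7,[(4,3),(11,0),(0,0),(6,1),(7,3)]⟩,⟨0,[(14,0)]⟩⟩,.o ⟨false,1,⟨1,[(23,1),(0,0),(6,0)]⟩,⟨0,[(7,
  0),(14,0)]⟩⟩,.e ⟨false,1,⟨0,[(6,0)]⟩,⟨1,[(8,0),(1,0),(22,1)]⟩⟩ ⟨false,1,⟨5,[(4,1),(4,1),(6,0),(0,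
  0),(2,0),(1,3),(8,0),(0,1)]⟩,⟨0,[(0,0)]⟩⟩]⟩)) (.Q [0,0,0,0,0,1,0,0,0,-1] (.ed true [1,-1,1] .k)
  (.R ⟨0,false,false,true,[0,1,-1],[0,1],[1,1],(⟨0,[(0,0)]⟩,⟨0,[(23,0),(1,0)]⟩),(⟨0,[(26,0)]⟩,⟨0,
  [(25,0)]⟩),⟨0,[(23,0)]⟩,(.r 0 ⟨0,[(1,0),(0,0),(3,0)]⟩ ⟨3,[(8,3),(7,0),(0,0),(14,1)]⟩),.k,.k,.k,.k,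
  .k,⟨false,1,⟨0,[(30,0),(0,0)]⟩,⟨1,[(4,0),(10,0)]⟩⟩,⟨true,0,⟨1,[(0,0),(10,0),(3,0)]⟩,⟨0,[(23,0)]⟩⟩,
  ⟨true,0,⟨0,[(8,0)]⟩,⟨0,[(1,0),(0,0),(3,0)]⟩⟩,⟨false,0,⟨9,[(1,0),(10,6),(1,0),(0,1),(5,0),(0,2),(4,
  2)]⟩,⟨0,[(13,0)]⟩⟩,⟨false,0,⟨0,[]⟩,⟨0,[]⟩⟩,⟨false,0,⟨0,[]⟩,⟨0,[]⟩⟩,[.o ⟨false,0,⟨0,[(29,0)]⟩,⟨0,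
  [(14,0),(17,0)]⟩⟩,.a ⟨true,0,⟨0,[(5,0)]⟩,⟨0,[(30,0)]⟩⟩ ⟨true,0,⟨0,[]⟩,⟨0,[(33,0)]⟩⟩ ⟨false,0,⟨0,
  [(2,0),(6,0)]⟩,⟨0,[(8,0),(4,0)]⟩⟩,.o ⟨false,1,⟨0,[(23,0),(7,0)]⟩,⟨1,[(0,0),(6,1),(3,0),(3,0)]⟩⟩,
  .e ⟨false,1,⟨3,[(16,0),(0,0),(13,1)]⟩,⟨0,[(1,0),(0,0),(0,0),(2,0)]⟩⟩ ⟨false,0,⟨0,[(2,0),(6,0)]⟩,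
  ⟨5,[(3,1),(4,0),(4,4),(7,0),(1,0),(6,2)]⟩⟩]⟩) (.S ⟨1,0,[0,1,-1,-2],[1,-1],[1,0,-1,-1],(⟨0,[(25,
  0)]⟩,⟨0,[(26,0)]⟩),⟨0,[(0,0),(10,0)]⟩,.k,(.r (-1) ⟨0,[(30,1),(0,0)]⟩ ⟨0,[(4,0),(10,0)]⟩),⟨true,0,
  ⟨0,[]⟩,⟨0,[(34,0)]⟩⟩,⟨false,0,⟨0,[(30,0)]⟩,⟨7,[(4,3),(11,0),(0,0),(6,1),(7,3)]⟩⟩,⟨false,1,⟨7,[(4,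
  3),(11,0),(0,0),(6,1),(7,3)]⟩,⟨0,[(30,0)]⟩⟩,⟨true,0,⟨0,[(34,0)]⟩,⟨0,[]⟩⟩,[.o ⟨false,0,⟨0,[(14,0),
  (15,0)]⟩,⟨1,[(4,1),(19,0),(7,0)]⟩⟩,.a ⟨true,0,⟨0,[(30,1)]⟩,⟨0,[(4,0)]⟩⟩ ⟨true,1,⟨1,[(30,1),(0,0),
  (0,0)]⟩,⟨0,[(1,0),(0,0)]⟩⟩ ⟨false,1,⟨0,[(30,1),(0,0)]⟩,⟨0,[(4,0),(2,0)]⟩⟩,.o ⟨false,0,⟨0,[(7,0)]⟩,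
  ⟨3,[(16,0),(0,0),(13,1)]⟩⟩,.o ⟨false,0,⟨0,[(15,0)]⟩,⟨0,[(31,0)]⟩⟩]⟩))))

def t3 : Tre :=
  (.Q [0,0,0,1,0,0,0,0,1] (.pp false [-1,1]) (.Q [0,0,0,-2,0,0,0,0,-1] (.pp true [-1,1]) (.R ⟨2,
  false,false,false,[0,1],[1,-1],[],(⟨0,[]⟩,⟨0,[]⟩),(⟨0,[(21,0)]⟩,⟨0,[(22,0)]⟩),⟨0,[]⟩,.k,.k,.k,(.r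
  0 ⟨0,[(1,1),(1,1)]⟩ ⟨2,[(0,1),(3,1),(4,1),(8,1),(8,0)]⟩),.k,.k,⟨true,0,⟨0,[(1,0),(1,0)]⟩,⟨0,[(26,
  0)]⟩⟩,⟨false,0,⟨0,[(3,0)]⟩,⟨1,[(1,0),(2,0),(4,0),(8,0),(8,0)]⟩⟩,⟨false,1,⟨5,[(0,1),(3,1),(4,1),(8,
  1),(8,0),(0,2)]⟩,⟨0,[(1,0),(1,0)]⟩⟩,⟨true,0,⟨0,[(0,0)]⟩,⟨0,[(1,0),(23,0)]⟩⟩,⟨false,1,⟨1,[(27,0),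
  (0,0)]⟩,⟨0,[(29,0)]⟩⟩,⟨false,1,⟨7,[(0,3),(11,0),(0,0),(6,1),(7,3)]⟩,⟨0,[(1,0)]⟩⟩,[.a ⟨true,0,⟨0,
  [(26,0)]⟩,⟨0,[(1,0)]⟩⟩ ⟨false,1,⟨3,[(12,0),(0,0),(13,1)]⟩,⟨0,[]⟩⟩ ⟨true,0,⟨1,[(0,0),(10,0)]⟩,⟨0,
  [(1,0)]⟩⟩,.o ⟨false,1,⟨7,[(0,3),(11,0),(0,0),(6,1),(7,3)]⟩,⟨0,[(25,0)]⟩⟩,.o ⟨false,1,⟨3,[(12,0),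
  (0,0),(13,1)]⟩,⟨0,[(3,0)]⟩⟩,.e ⟨false,1,⟨1,[(27,0),(0,0)]⟩,⟨0,[(29,0)]⟩⟩ ⟨false,1,⟨7,[(0,3),(11,
  0),(0,0),(6,1),(7,3)]⟩,⟨0,[(1,0)]⟩⟩]⟩) (.I [1,1,0,1,0,0,-1] (.I [0,0,-2,-2,1,0,-1] (.I [1,0,-2,-1,
  1,0,-1] (.Q [0,0,0,1,0,0,0,0,1,-1] (.p false [0,0,1] [1] (⟨0,[(22,0)]⟩,⟨0,[(21,0)]⟩) .k 1 (⟨0,[]⟩,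
  ⟨0,[]⟩) .k .k) (.R ⟨1,false,false,false,[1,0,-1],[0,1],[1,0,0,0,0,0,-1],(⟨0,[(22,0)]⟩,⟨0,[(23,
  0)]⟩),(⟨0,[(26,0)]⟩,⟨0,[(25,0)]⟩),⟨0,[(11,0)]⟩,.k,.k,(.x (-1) ⟨3,[(16,0),(0,0),(6,1),(0,3)]⟩ ⟨0,
  [(26,0)]⟩),(.x (-1) ⟨3,[(16,0),(0,0),(6,1),(0,3)]⟩ ⟨0,[(26,0)]⟩),(.r (-1) ⟨0,[(2,0)]⟩ ⟨1,[(4,0),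
  (5,1),(4,0),(18,1)]⟩),.k,⟨false,1,⟨0,[(1,0)]⟩,⟨0,[(10,0),(23,0)]⟩⟩,⟨true,0,⟨0,[(22,0)]⟩,⟨0,[(7,0),
  (15,0)]⟩⟩,⟨true,0,⟨0,[]⟩,⟨0,[(34,0)]⟩⟩,⟨false,0,⟨0,[(5,0),(6,0)]⟩,⟨0,[(13,0),(0,0)]⟩⟩,⟨false,1,⟨7,
  [(4,3),(11,0),(0,0),(6,1),(7,3)]⟩,⟨0,[(30,0)]⟩⟩,⟨false,0,⟨0,[(4,0),(7,0)]⟩,⟨1,[(2,0),(10,0),(0,1),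
  (8,0),(4,0)]⟩⟩,[.e ⟨false,1,⟨1,[(20,0),(10,0)]⟩,⟨1,[(8,0),(1,0)]⟩⟩ ⟨false,0,⟨0,[(0,0)]⟩,⟨5,[(2,1),
  (5,1),(14,5),(0,2),(7,0)]⟩⟩,.o ⟨false,1,⟨7,[(4,3),(11,0),(0,0),(6,1),(7,3)]⟩,⟨0,[(14,0)]⟩⟩,.o
  ⟨false,1,⟨1,[(23,1),(0,0),(6,0)]⟩,⟨0,[(7,0),(14,0)]⟩⟩,.a ⟨true,0,⟨0,[(23,0)]⟩,⟨0,[(22,0)]⟩⟩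
  ⟨false,1,⟨0,[(6,0)]⟩,⟨1,[(8,0),(1,0),(22,1)]⟩⟩ ⟨true,0,⟨0,[(0,0)]⟩,⟨0,[(14,0),(8,0)]⟩⟩]⟩) (.R ⟨1,
  false,false,false,[1,0,-1],[0,1],[1,0,0,0,0,0,-1],(⟨0,[(22,0)]⟩,⟨0,[(23,0)]⟩),(⟨0,[(26,0)]⟩,⟨0,
  [(25,0)]⟩),⟨0,[(11,0)]⟩,.k,.k,(.x (-1) ⟨3,[(16,0),(0,0),(6,1),(0,3)]⟩ ⟨0,[(26,0)]⟩),(.x (-1) ⟨3,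
  [(16,0),(0,0),(6,1),(0,3)]⟩ ⟨0,[(26,0)]⟩),(.r (-1) ⟨0,[(2,0)]⟩ ⟨1,[(4,0),(5,1),(4,0),(18,1)]⟩),.k,
  ⟨false,1,⟨0,[(1,0)]⟩,⟨0,[(10,0),(23,0)]⟩⟩,⟨true,0,⟨0,[(22,0)]⟩,⟨1,[(0,1),(3,0),(10,0)]⟩⟩,⟨true,0,
  ⟨0,[]⟩,⟨0,[(34,0)]⟩⟩,⟨false,0,⟨0,[(5,0),(6,0)]⟩,⟨4,[(0,2),(1,0),(10,1),(6,0),(3,0),(2,0)]⟩⟩,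
  ⟨false,1,⟨7,[(4,3),(11,0),(0,0),(6,1),(7,3)]⟩,⟨0,[(30,0)]⟩⟩,⟨false,0,⟨0,[(4,0),(7,0)]⟩,⟨7,[(0,7),
  (1,3),(13,0),(0,0),(2,1)]⟩⟩,[.a ⟨true,0,⟨0,[(5,0)]⟩,⟨0,[(30,0)]⟩⟩ ⟨false,1,⟨1,[(20,0),(10,0)]⟩,⟨1,
  [(8,0),(1,0)]⟩⟩ ⟨true,0,⟨1,[(4,0),(10,0),(6,1)]⟩,⟨0,[(0,0)]⟩⟩,.o ⟨false,1,⟨7,[(4,3),(11,0),(0,0),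
  (6,1),(7,3)]⟩,⟨0,[(14,0)]⟩⟩,.o ⟨false,1,⟨1,[(23,1),(0,0),(6,0)]⟩,⟨0,[(7,0),(14,0)]⟩⟩,.e ⟨false,1,
  ⟨0,[(6,0)]⟩,⟨1,[(8,0),(1,0),(22,1)]⟩⟩ ⟨false,1,⟨5,[(4,1),(4,1),(6,0),(0,0),(2,0),(1,3),(8,0),(0,
  1)]⟩,⟨0,[(0,0)]⟩⟩]⟩)) (.Q [0,1,1,1,-1,0,1,0,1,-1] (.p false [0,0,1] [1] (⟨0,[(22,0)]⟩,⟨0,[(21,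
  0)]⟩) .k 1 (⟨0,[]⟩,⟨0,[]⟩) .k .k) (.K ⟨0,[1,-1,-1],0,1,(⟨0,[(11,0)]⟩,⟨0,[(23,0),(2,0)]⟩),(.x (-1)
  ⟨3,[(16,0),(0,0),(6,1),(0,3)]⟩ ⟨0,[(26,0)]⟩),(.r (-1) ⟨0,[(2,0)]⟩ ⟨9,[(1,3),(2,7),(10,5),(5,2),(2,
  0)]⟩),.k,.k,.k,[⟨0,[(22,0),(10,0)]⟩,⟨0,[(7,0),(15,0)]⟩,⟨0,[(0,0)]⟩,⟨11,[(13,7),(0,11),(1,0),(0,0),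
  (2,1),(2,3),(3,3)]⟩]⟩) (.Q [0,0,0,0,0,-1,0,0,0,1] (.ed false [1,-1,1] .k) (.S ⟨1,0,[0,1,-1,-2],[1,
  -1],[1,0,-1,-1],(⟨0,[(26,0)]⟩,⟨0,[(27,0)]⟩),⟨0,[(0,0),(11,0)]⟩,.k,(.r (-1) ⟨2,[(3,1),(5,1),(23,
  0)]⟩ ⟨0,[(5,0),(10,0)]⟩),⟨true,0,⟨0,[]⟩,⟨0,[(35,0)]⟩⟩,⟨false,0,⟨0,[(31,0)]⟩,⟨7,[(5,3),(11,0),(0,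
  0),(6,1),(7,3)]⟩⟩,⟨false,1,⟨7,[(5,3),(11,0),(0,0),(6,1),(7,3)]⟩,⟨0,[(31,0)]⟩⟩,⟨true,0,⟨0,[(35,
  0)]⟩,⟨0,[]⟩⟩,[.o ⟨false,0,⟨0,[(15,0),(15,0)]⟩,⟨1,[(5,1),(19,0),(7,0)]⟩⟩,.a ⟨true,0,⟨0,[(31,1)]⟩,
  ⟨0,[(5,0)]⟩⟩ ⟨true,1,⟨2,[(3,0),(5,0),(23,1)]⟩,⟨0,[(2,0),(1,0),(26,0)]⟩⟩ ⟨false,1,⟨2,[(3,1),(5,1),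
  (23,0)]⟩,⟨0,[(5,0),(2,0)]⟩⟩,.o ⟨false,0,⟨0,[(8,0)]⟩,⟨3,[(17,0),(0,0),(13,1)]⟩⟩,.o ⟨false,0,⟨0,
  [(16,0)]⟩,⟨0,[(32,0)]⟩⟩]⟩) (.R ⟨1,false,false,false,[1,0,-1],[0,1],[0,0,0,-1,0,0,-1],(⟨0,[(23,
  0)]⟩,⟨0,[(24,0)]⟩),(⟨0,[(27,0)]⟩,⟨0,[(26,0)]⟩),⟨0,[(12,0)]⟩,.k,.k,(.x (-1) ⟨3,[(17,0),(0,0),(6,1),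
  (0,3)]⟩ ⟨0,[(27,0)]⟩),(.x (-1) ⟨3,[(17,0),(0,0),(6,1),(0,3)]⟩ ⟨0,[(27,0)]⟩),(.r (-1) ⟨0,[(3,0)]⟩
  ⟨9,[(2,3),(2,7),(10,5),(5,2),(2,0)]⟩),.k,⟨false,1,⟨0,[(3,0)]⟩,⟨0,[(11,0),(18,0)]⟩⟩,⟨true,0,⟨0,
  [(23,0)]⟩,⟨0,[(8,0),(15,0)]⟩⟩,⟨true,0,⟨0,[(31,0)]⟩,⟨0,[(30,0)]⟩⟩,⟨false,0,⟨0,[(6,0),(6,0)]⟩,⟨15,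
  [(1,11),(13,3),(1,0),(0,0),(2,1),(2,3),(3,3)]⟩⟩,⟨false,1,⟨3,[(17,0),(0,0),(14,1)]⟩,⟨0,[]⟩⟩,⟨false,
  0,⟨0,[(5,0),(7,0)]⟩,⟨2,[(1,0),(1,1),(11,0),(0,0),(7,1)]⟩⟩,[.e ⟨false,1,⟨7,[(3,3),(13,0),(0,0),(2,
  1)]⟩,⟨0,[(2,0),(29,0)]⟩⟩ ⟨false,0,⟨1,[(0,0),(4,0),(6,0)]⟩,⟨11,[(1,7),(7,1),(5,1),(6,2),(1,3),(0,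
  0),(2,1)]⟩⟩,.o ⟨false,1,⟨7,[(5,3),(11,0),(0,0),(6,1),(7,3)]⟩,⟨0,[(15,0)]⟩⟩,.o ⟨false,1,⟨1,[(24,1),
  (0,0),(6,0)]⟩,⟨1,[(0,0),(11,0),(3,0)]⟩⟩,.a ⟨true,0,⟨0,[(24,0)]⟩,⟨0,[(23,0)]⟩⟩ ⟨false,1,⟨1,[(3,0),
  (3,0),(21,0)]⟩,⟨9,[(2,3),(2,2),(10,0),(5,2),(2,0)]⟩⟩ ⟨true,0,⟨1,[(0,0),(4,0),(6,0)]⟩,⟨0,[(15,0),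
  (8,0)]⟩⟩]⟩)))) (.Q [0,0,0,0,0,-2,0,0,1] (.pp false [-1,1]) (.S ⟨1,0,[0,1,-1,-2],[1,-1],[1,0,-1,
  -1],(⟨0,[(24,0)]⟩,⟨0,[(25,0)]⟩),⟨0,[(0,0)]⟩,.k,(.r (-1) ⟨0,[(29,1),(0,0)]⟩ ⟨0,[(3,0),(10,0)]⟩),
  ⟨true,0,⟨0,[]⟩,⟨0,[(33,0)]⟩⟩,⟨false,0,⟨0,[(29,0)]⟩,⟨7,[(3,3),(11,0),(0,0),(6,1),(7,3)]⟩⟩,⟨false,1,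
  ⟨7,[(3,3),(11,0),(0,0),(6,1),(7,3)]⟩,⟨0,[(29,0)]⟩⟩,⟨true,0,⟨0,[(33,0)]⟩,⟨0,[]⟩⟩,[.o ⟨false,0,⟨0,
  [(13,0),(15,0)]⟩,⟨1,[(3,1),(19,0),(7,0)]⟩⟩,.a ⟨true,0,⟨0,[(29,1)]⟩,⟨0,[(3,0)]⟩⟩ ⟨true,1,⟨1,[(29,
  1),(0,0),(0,0)]⟩,⟨0,[(1,0),(0,0),(26,1)]⟩⟩ ⟨false,1,⟨0,[(29,1),(0,0)]⟩,⟨3,[(1,1),(1,1),(15,0),(3,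
  0)]⟩⟩,.o ⟨false,0,⟨0,[(6,0)]⟩,⟨3,[(15,0),(0,0),(13,1)]⟩⟩,.o ⟨false,0,⟨0,[(14,0)]⟩,⟨0,[(30,
  0)]⟩⟩]⟩) (.R ⟨0,false,false,true,[0,1,-1],[0,1],[1,1],(⟨0,[(0,0),(9,0)]⟩,⟨0,[(22,0),(1,0)]⟩),(⟨0,
  [(25,0)]⟩,⟨0,[(24,0)]⟩),⟨0,[(22,0)]⟩,(.r 0 ⟨0,[(1,0),(0,0),(2,0),(23,1)]⟩ ⟨3,[(7,3),(7,0),(0,0),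
  (14,1)]⟩),.k,.k,.k,.k,.k,⟨false,1,⟨0,[(29,0),(0,0)]⟩,⟨1,[(3,0),(10,0)]⟩⟩,⟨true,0,⟨0,[(6,0),(14,
  0)]⟩,⟨0,[(22,0)]⟩⟩,⟨true,0,⟨0,[(7,0)]⟩,⟨0,[(1,0),(0,0),(2,0),(23,1)]⟩⟩,⟨false,0,⟨16,[(1,0),(5,1),
  (3,11),(2,4),(5,0),(0,4),(4,4)]⟩,⟨0,[(12,0)]⟩⟩,⟨false,0,⟨0,[]⟩,⟨0,[]⟩⟩,⟨false,0,⟨0,[]⟩,⟨0,[]⟩⟩,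
  [.o ⟨false,0,⟨0,[(28,0)]⟩,⟨0,[(13,0),(17,0)]⟩⟩,.a ⟨true,0,⟨0,[(4,0)]⟩,⟨0,[(29,0)]⟩⟩ ⟨true,0,⟨0,
  []⟩,⟨0,[(32,0)]⟩⟩ ⟨false,0,⟨1,[(2,0),(3,0),(1,0),(12,0)]⟩,⟨0,[(7,0),(4,0)]⟩⟩,.o ⟨false,1,⟨0,[(22,
  0),(7,0)]⟩,⟨0,[(6,1),(14,0)]⟩⟩,.e ⟨false,1,⟨3,[(15,0),(0,0),(13,1)]⟩,⟨0,[(1,0),(3,0),(23,1)]⟩⟩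
  ⟨false,0,⟨1,[(2,0),(3,0),(1,0),(12,0)]⟩,⟨1,[(7,0),(4,0),(9,0),(6,0),(1,0)]⟩⟩]⟩))) t2)) (.I [0,0,
  -2,-2,1,0,-1] (.R ⟨1,false,false,true,[1,0,-1],[0,1],[0,1,0,-1,0,0,-1],(⟨0,[(18,0)]⟩,⟨0,[(19,
  0)]⟩),(⟨0,[(22,0)]⟩,⟨0,[(21,0)]⟩),⟨0,[(7,0)]⟩,.k,.k,(.x (-1) ⟨3,[(12,0),(0,0),(6,1),(0,3)]⟩ ⟨0,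
  [(22,0)]⟩),(.x (-1) ⟨3,[(12,0),(0,0),(6,1),(0,3)]⟩ ⟨0,[(22,0)]⟩),(.r (-1) ⟨0,[(0,0)]⟩ ⟨0,[(6,0),
  (18,0),(3,0)]⟩),.k,⟨false,1,⟨0,[(0,0)]⟩,⟨0,[(6,0),(18,0)]⟩⟩,⟨true,0,⟨0,[(18,0)]⟩,⟨0,[(3,0),(15,
  0)]⟩⟩,⟨false,0,⟨0,[(26,0)]⟩,⟨0,[(25,0),(2,0)]⟩⟩,⟨false,0,⟨0,[(6,0),(11,0),(11,0)]⟩,⟨0,[(1,0),(7,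
  0)]⟩⟩,⟨true,0,⟨0,[(30,0)]⟩,⟨0,[]⟩⟩,⟨false,0,⟨0,[(6,0),(11,0),(6,0)]⟩,⟨1,[(0,0),(0,1),(7,0),(9,0),
  (4,0)]⟩⟩,[.o ⟨false,0,⟨0,[(25,0)]⟩,⟨7,[(0,1),(0,3),(9,1),(5,0),(2,0),(7,3)]⟩⟩,.o ⟨false,1,⟨3,[(12,
  0),(0,0),(11,3),(2,1)]⟩,⟨0,[(1,0)]⟩⟩,.o ⟨false,1,⟨1,[(19,1),(0,0),(6,0)]⟩,⟨0,[(3,0),(14,0)]⟩⟩,.a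
  ⟨true,0,⟨0,[(19,0)]⟩,⟨0,[(18,0)]⟩⟩ ⟨false,1,⟨7,[(0,3),(11,0),(0,0),(2,1)]⟩,⟨0,[(6,0)]⟩⟩ ⟨true,0,
  ⟨0,[(18,0),(6,0)]⟩,⟨0,[(1,0),(17,0)]⟩⟩]⟩) (.Q [0,0,0,0,0,2,0,0,-1,1] (.p true [0,0,1] [1] (⟨0,
  [(19,0)]⟩,⟨0,[(18,0)]⟩) .k 1 (⟨0,[]⟩,⟨0,[]⟩) .k .k) (.R ⟨0,false,false,false,[1,-1,-1],[1,-1],[1,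
  0,1],(⟨0,[(8,0)]⟩,⟨1,[(0,0),(18,0),(0,1)]⟩),(⟨0,[(22,0)]⟩,⟨0,[(23,0)]⟩),⟨0,[(0,0)]⟩,(.x (-1) ⟨3,
  [(13,0),(0,0),(6,1),(0,3)]⟩ ⟨0,[(23,0)]⟩),.k,(.x 0 ⟨5,[(1,3),(0,9),(0,1),(13,0),(3,0),(0,11),(3,
  1)]⟩ ⟨3,[(0,3),(12,0),(0,0),(4,3),(8,1)]⟩),.k,.k,.k,⟨false,0,⟨7,[(1,3),(11,0),(0,0),(2,1)]⟩,⟨0,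
  [(27,0),(0,0)]⟩⟩,⟨true,0,⟨0,[(4,0),(14,0)]⟩,⟨0,[(20,0)]⟩⟩,⟨true,(-1),⟨0,[(1,0),(25,0)]⟩,⟨0,[(3,0),
  (20,0),(2,0)]⟩⟩,⟨false,0,⟨0,[(9,0)]⟩,⟨11,[(10,7),(2,0),(0,0),(2,1),(2,3),(3,3)]⟩⟩,⟨false,0,⟨0,[]⟩,
  ⟨0,[]⟩⟩,⟨false,0,⟨0,[]⟩,⟨0,[]⟩⟩,[.o ⟨false,0,⟨0,[(2,0)]⟩,⟨3,[(13,0),(0,0),(11,3),(2,1)]⟩⟩,.o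
  ⟨false,1,⟨0,[(11,0),(17,0)]⟩,⟨0,[(26,0)]⟩⟩,.a ⟨true,0,⟨0,[(20,0)]⟩,⟨0,[(19,0)]⟩⟩ ⟨false,0,⟨0,[(25,
  0)]⟩,⟨3,[(13,0),(0,0),(13,1)]⟩⟩ ⟨true,0,⟨0,[(2,0),(16,0)]⟩,⟨0,[(20,0),(5,0)]⟩⟩,.o ⟨false,0,⟨0,[(4,
  0),(15,0)]⟩,⟨1,[(19,1),(1,0),(6,0)]⟩⟩]⟩) (.R ⟨1,false,false,false,[1,-1,-1],[1,-1],[1,0,-1,-1,0,0,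
  -1],(⟨0,[(8,0)]⟩,⟨0,[(20,0),(2,0)]⟩),(⟨0,[(22,0)]⟩,⟨0,[(23,0)]⟩),⟨0,[(0,0)]⟩,(.x (-1) ⟨3,[(13,0),
  (0,0),(6,1),(0,3)]⟩ ⟨0,[(23,0)]⟩),.k,(.x 0 ⟨0,[(0,0),(3,0),(15,0)]⟩ ⟨3,[(13,0),(0,0),(8,7),(4,
  1)]⟩),.k,(.x (-1) ⟨3,[(13,0),(0,0),(6,1),(0,3)]⟩ ⟨0,[(23,0)]⟩),.k,⟨false,1,⟨1,[(17,0),(10,0)]⟩,⟨1,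
  [(5,0),(1,0)]⟩⟩,⟨true,0,⟨0,[(4,0),(14,0)]⟩,⟨0,[(20,0)]⟩⟩,⟨true,0,⟨0,[]⟩,⟨0,[(31,0)]⟩⟩,⟨false,0,⟨0,
  [(9,0)]⟩,⟨11,[(10,7),(2,0),(0,0),(2,1),(2,3),(3,3)]⟩⟩,⟨false,1,⟨0,[(26,0),(2,0)]⟩,⟨0,[(27,0)]⟩⟩,
  ⟨false,0,⟨0,[(6,0)]⟩,⟨1,[(5,0),(4,0),(6,0),(2,0),(6,0)]⟩⟩,[.o ⟨false,0,⟨0,[(2,0)]⟩,⟨3,[(13,0),(0,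
  0),(11,3),(2,1)]⟩⟩,.o ⟨false,1,⟨0,[(11,0),(17,0)]⟩,⟨0,[(26,0)]⟩⟩,.a ⟨true,0,⟨0,[(20,0)]⟩,⟨0,[(19,
  0)]⟩⟩ ⟨false,1,⟨0,[(3,0),(23,0)]⟩,⟨7,[(1,3),(11,0),(0,0),(3,1)]⟩⟩ ⟨true,0,⟨0,[(2,0),(16,0)]⟩,⟨0,
  [(20,0),(5,0)]⟩⟩,.o ⟨false,0,⟨0,[(4,0),(15,0)]⟩,⟨1,[(19,1),(1,0),(6,0)]⟩⟩]⟩))))

def t4 : Tre :=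
  (.Q [0,1,1,0,-1,0,1,0,1,-1] (.p false [0,0,1] [1] (⟨0,[(15,0)]⟩,⟨0,[(14,0)]⟩) .k 1 (⟨0,[]⟩,⟨0,
  []⟩) .k .k) (.K ⟨0,[1,0,-1],1,1,(⟨0,[(15,0)]⟩,⟨0,[(16,0)]⟩),.k,(.x (-1) ⟨3,[(9,0),(0,0),(6,1),(0,
  3)]⟩ ⟨0,[(19,0)]⟩),(.r 0 ⟨6,[(0,0),(0,5),(6,0),(4,0),(2,0),(3,1),(1,0)]⟩ ⟨1,[(14,0),(8,1),(0,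
  0)]⟩),.k,.k,[⟨0,[(0,0),(0,0),(21,0)]⟩,⟨3,[(9,0),(0,0),(5,3),(0,1)]⟩,⟨0,[(0,0)]⟩,⟨7,[(1,1),(4,3),
  (0,1),(5,0),(2,3),(0,2),(2,5)]⟩]⟩) (.I [1,0,0,1,0,0,-1] (.Q [0,0,0,1,0,0,0,0,1] (.pp false [-1,
  1]) (.Q [0,0,0,1,0,0,0,0,1,-1] (.p false [0,0,1] [1] (⟨0,[(18,0)]⟩,⟨0,[(17,0)]⟩) .k 1 (⟨0,[]⟩,⟨0,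
  []⟩) .k .k) (.R ⟨1,false,false,true,[1,0,-1],[0,1],[0,1,0,-1,0,0,-1],(⟨0,[(18,0)]⟩,⟨0,[(19,0)]⟩),
  (⟨0,[(22,0)]⟩,⟨0,[(21,0)]⟩),⟨0,[(7,0)]⟩,.k,.k,(.x (-1) ⟨3,[(12,0),(0,0),(6,1),(0,3)]⟩ ⟨0,[(22,
  0)]⟩),(.x (-1) ⟨3,[(12,0),(0,0),(6,1),(0,3)]⟩ ⟨0,[(22,0)]⟩),(.r (-1) ⟨0,[(2,0),(23,2),(0,0)]⟩ ⟨1,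
  [(1,0),(4,1),(4,0),(13,0),(4,0)]⟩),.k,⟨false,1,⟨0,[(2,0),(23,2),(0,0)]⟩,⟨0,[(6,0),(18,0)]⟩⟩,⟨true,
  0,⟨0,[(18,0)]⟩,⟨1,[(4,0),(1,0),(3,1),(8,1)]⟩⟩,⟨false,0,⟨0,[(26,0)]⟩,⟨0,[(25,0),(2,0)]⟩⟩,⟨false,0,
  ⟨0,[(1,0),(6,0),(21,0)]⟩,⟨0,[(3,0),(22,0)]⟩⟩,⟨true,0,⟨0,[(30,0)]⟩,⟨0,[]⟩⟩,⟨false,0,⟨0,[(1,0),(3,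
  0),(24,0)]⟩,⟨0,[(3,0),(22,1)]⟩⟩,[.o ⟨false,0,⟨0,[(25,0)]⟩,⟨0,[(10,0),(17,0)]⟩⟩,.a ⟨true,0,⟨0,[(1,
  0)]⟩,⟨0,[(26,0)]⟩⟩ ⟨true,0,⟨0,[(2,0),(23,1)]⟩,⟨0,[(6,0),(23,0)]⟩⟩ ⟨false,0,⟨0,[(0,0)]⟩,⟨3,[(3,1),
  (6,1),(6,0),(1,1),(6,1),(0,0)]⟩⟩,.o ⟨false,1,⟨1,[(19,1),(0,0),(6,0)]⟩,⟨3,[(4,0),(0,0),(4,1),(0,0),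
  (6,2)]⟩⟩,.e ⟨false,1,⟨1,[(16,0),(9,1),(0,0)]⟩,⟨0,[(6,0)]⟩⟩ ⟨false,0,⟨0,[(0,0)]⟩,⟨0,[(10,0),(8,0),
  (8,0)]⟩⟩]⟩) (.R ⟨1,false,false,true,[1,0,-1],[0,1],[0,1,0,-1,0,0,-1],(⟨0,[(18,0)]⟩,⟨0,[(19,0)]⟩),
  (⟨0,[(22,0)]⟩,⟨0,[(21,0)]⟩),⟨0,[(7,0)]⟩,.k,.k,(.x (-1) ⟨3,[(12,0),(0,0),(6,1),(0,3)]⟩ ⟨0,[(22,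
  0)]⟩),(.x (-1) ⟨3,[(12,0),(0,0),(6,1),(0,3)]⟩ ⟨0,[(22,0)]⟩),(.r (-1) ⟨0,[(2,0),(23,2),(0,0)]⟩ ⟨1,
  [(1,0),(4,1),(4,0),(13,0),(4,0)]⟩),.k,⟨false,1,⟨0,[(2,0),(23,2),(0,0)]⟩,⟨0,[(6,0),(18,0)]⟩⟩,⟨true,
  0,⟨0,[(18,0)]⟩,⟨5,[(0,3),(3,0),(1,0),(4,1),(7,1),(5,1)]⟩⟩,⟨false,0,⟨0,[(26,0)]⟩,⟨0,[(25,0),(2,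
  0)]⟩⟩,⟨false,0,⟨0,[(1,0),(6,0),(21,0)]⟩,⟨0,[(3,0),(22,0)]⟩⟩,⟨true,0,⟨0,[(30,0)]⟩,⟨0,[]⟩⟩,⟨false,0,
  ⟨0,[(1,0),(3,0),(24,0)]⟩,⟨0,[(3,0),(22,1)]⟩⟩,[.o ⟨false,0,⟨0,[(25,0)]⟩,⟨0,[(10,0),(17,0)]⟩⟩,.e
  ⟨true,0,⟨0,[(2,0),(23,1)]⟩,⟨0,[(6,0),(23,0)]⟩⟩ ⟨true,0,⟨7,[(1,3),(2,0),(0,0),(5,2),(6,6),(6,1)]⟩,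
  ⟨0,[(0,0)]⟩⟩,.o ⟨false,1,⟨3,[(0,1),(2,1),(13,0),(7,1),(1,0)]⟩,⟨3,[(4,0),(0,0),(4,1),(0,0),(6,
  2)]⟩⟩,.a ⟨true,0,⟨0,[(19,0)]⟩,⟨0,[(18,0)]⟩⟩ ⟨false,1,⟨1,[(16,0),(9,1),(0,0)]⟩,⟨0,[(6,0)]⟩⟩ ⟨true,
  0,⟨0,[(18,0),(6,0)]⟩,⟨0,[(0,0)]⟩⟩]⟩)) (.R ⟨1,false,false,true,[1,0,-1],[0,1],[0,1,0,-1,0,0,-1],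
  (⟨0,[(17,0)]⟩,⟨0,[(18,0)]⟩),(⟨0,[(21,0)]⟩,⟨0,[(20,0)]⟩),⟨0,[(6,0)]⟩,.k,.k,(.x (-1) ⟨3,[(11,0),(0,
  0),(6,1),(0,3)]⟩ ⟨0,[(21,0)]⟩),(.x (-1) ⟨3,[(11,0),(0,0),(6,1),(0,3)]⟩ ⟨0,[(21,0)]⟩),(.r (-1) ⟨0,
  [(1,0),(23,2),(0,0)]⟩ ⟨0,[(5,0),(18,0),(3,0)]⟩),.k,⟨false,1,⟨0,[(1,0),(23,2),(0,0)]⟩,⟨0,[(5,0),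
  (18,0)]⟩⟩,⟨true,0,⟨0,[(17,0)]⟩,⟨4,[(0,2),(0,0),(3,0),(4,1),(7,4),(5,0)]⟩⟩,⟨false,0,⟨0,[(25,0)]⟩,
  ⟨0,[(24,0),(2,0)]⟩⟩,⟨false,0,⟨0,[(5,0),(11,0),(11,0)]⟩,⟨0,[(2,0),(22,0)]⟩⟩,⟨true,0,⟨0,[(29,0)]⟩,
  ⟨0,[]⟩⟩,⟨false,0,⟨0,[(5,0),(11,0),(6,0)]⟩,⟨0,[(2,0),(22,1)]⟩⟩,[.o ⟨false,0,⟨0,[(24,0)]⟩,⟨0,[(9,0),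
  (17,0)]⟩⟩,.o ⟨false,1,⟨3,[(11,0),(0,0),(11,3),(2,1)]⟩,⟨0,[(0,0)]⟩⟩,.o ⟨false,1,⟨1,[(18,1),(0,0),
  (6,0)]⟩,⟨3,[(3,0),(0,0),(4,1),(0,0),(6,2)]⟩⟩,.a ⟨true,0,⟨0,[(18,0)]⟩,⟨0,[(17,0)]⟩⟩ ⟨false,1,⟨1,
  [(15,0),(9,1),(0,0)]⟩,⟨0,[(5,0)]⟩⟩ ⟨true,0,⟨0,[(17,0),(6,0)]⟩,⟨0,[(0,0),(17,0)]⟩⟩]⟩)) (.Q [0,0,0,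
  1,0,0,0,0,1] (.pp false [-1,1]) (.Q [0,0,0,0,0,1,0,0,0,-1] (.ed true [1,-1,1] .k) (.Q [0,0,1,0,0,
  0,0,0,-1,-1] (.p false [1,-1,1] [] (⟨0,[(19,0),(1,0)]⟩,⟨0,[(0,0)]⟩) (.r (-1) ⟨1,[(17,0),(8,1),(0,
  0)]⟩ ⟨0,[(4,0),(25,0)]⟩) 0 (⟨0,[]⟩,⟨0,[]⟩) .k .k) (.R ⟨0,false,false,true,[0,1,-1],[0,1],[1,0,1],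
  (⟨0,[(1,0)]⟩,⟨0,[(20,0),(1,0)]⟩),(⟨0,[(23,0)]⟩,⟨0,[(22,0)]⟩),⟨0,[(20,0)]⟩,(.r 0 ⟨0,[(5,0),(25,
  0)]⟩ ⟨1,[(18,0),(8,1),(0,0)]⟩),.k,.k,.k,.k,.k,⟨false,1,⟨1,[(27,1),(0,0),(0,0)]⟩,⟨0,[(26,0)]⟩⟩,
  ⟨true,0,⟨2,[(0,0),(11,0),(6,1)]⟩,⟨0,[(20,0)]⟩⟩,⟨true,0,⟨0,[(3,0)]⟩,⟨0,[(5,0),(18,0)]⟩⟩,⟨false,0,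
  ⟨0,[(9,0),(21,0)]⟩,⟨0,[(10,0)]⟩⟩,⟨false,0,⟨0,[]⟩,⟨0,[]⟩⟩,⟨false,0,⟨0,[]⟩,⟨0,[]⟩⟩,[.o ⟨false,0,⟨0,
  [(26,0)]⟩,⟨0,[(11,0),(17,0)]⟩⟩,.a ⟨true,0,⟨0,[(2,0)]⟩,⟨0,[(27,0)]⟩⟩ ⟨true,0,⟨0,[(25,0)]⟩,⟨0,[(31,
  0)]⟩⟩ ⟨false,0,⟨11,[(0,3),(4,2),(0,2),(5,0),(6,4),(6,5)]⟩,⟨0,[(20,0),(6,0),(0,0)]⟩⟩,.o ⟨false,1,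
  ⟨0,[(20,0),(7,0)]⟩,⟨2,[(0,1),(11,1),(6,0)]⟩⟩,.o ⟨false,1,⟨2,[(10,1),(7,0),(1,0),(3,0)]⟩,⟨0,[(0,
  0)]⟩⟩]⟩) (.R ⟨0,false,false,true,[0,1,-1],[0,1],[1,0,1,1,0,0,-1],(⟨0,[(1,0)]⟩,⟨0,[(20,0),(1,0)]⟩),
  (⟨0,[(23,0)]⟩,⟨0,[(22,0)]⟩),⟨0,[(20,0)]⟩,(.r 0 ⟨0,[(5,0),(25,0)]⟩ ⟨1,[(18,0),(8,1),(0,0)]⟩),.k,.k,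
  .k,.k,.k,⟨false,1,⟨0,[(4,0),(14,0)]⟩,⟨1,[(3,0),(3,0),(16,0),(6,0)]⟩⟩,⟨true,0,⟨1,[(1,0),(6,0),(3,
  0)]⟩,⟨0,[(20,0)]⟩⟩,⟨true,0,⟨0,[]⟩,⟨0,[(31,0)]⟩⟩,⟨false,0,⟨0,[(9,0),(21,0)]⟩,⟨0,[(10,0)]⟩⟩,⟨false,
  0,⟨0,[]⟩,⟨0,[]⟩⟩,⟨false,0,⟨0,[]⟩,⟨0,[]⟩⟩,[.o ⟨false,0,⟨0,[(26,0)]⟩,⟨0,[(11,0),(17,0)]⟩⟩,.a ⟨true,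
  0,⟨0,[(2,0)]⟩,⟨0,[(27,0)]⟩⟩ ⟨true,0,⟨0,[(5,0)]⟩,⟨0,[(3,0),(27,0)]⟩⟩ ⟨false,0,⟨5,[(1,1),(3,1),(0,
  1),(1,1),(2,0),(0,0),(13,2)]⟩,⟨1,[(0,0),(2,0),(6,0),(0,0),(16,0)]⟩⟩,.o ⟨false,1,⟨1,[(0,1),(20,0),
  (6,0)]⟩,⟨2,[(1,0),(3,0),(0,0),(1,0),(2,1),(0,1)]⟩⟩,.e ⟨false,1,⟨1,[(2,0),(1,0),(1,0),(10,0)]⟩,⟨0,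
  [(3,0)]⟩⟩ ⟨false,0,⟨5,[(1,1),(3,1),(0,1),(1,1),(2,0),(0,0),(13,2)]⟩,⟨0,[(3,0),(6,0)]⟩⟩]⟩)) (.I [0,
  0,0,-1,0,0,-1] (.Q [0,0,0,-2,0,0,0,0,-1] (.pp true [-1,1]) (.R ⟨2,false,false,false,[0,1],[1,-1],
  [],(⟨0,[]⟩,⟨0,[]⟩),(⟨0,[(23,0)]⟩,⟨0,[(24,0)]⟩),⟨0,[]⟩,.k,.k,.k,(.r 0 ⟨2,[(3,1),(2,0),(1,0),(4,1),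
  (13,1)]⟩ ⟨0,[(28,1),(0,0)]⟩),.k,.k,⟨true,0,⟨5,[(3,1),(2,0),(1,0),(4,1),(13,1)]⟩,⟨0,[(28,0)]⟩⟩,
  ⟨false,0,⟨1,[(6,0),(1,0),(3,1)]⟩,⟨0,[(20,0),(0,0),(7,0)]⟩⟩,⟨false,1,⟨2,[(0,0),(3,0),(6,0),(8,0),
  (8,0),(0,0)]⟩,⟨5,[(3,1),(2,0),(1,0),(4,1),(13,1)]⟩⟩,⟨true,0,⟨0,[(0,0)]⟩,⟨0,[(3,0),(23,0)]⟩⟩,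
  ⟨false,1,⟨1,[(29,0),(0,0)]⟩,⟨0,[(31,0)]⟩⟩,⟨false,1,⟨7,[(0,3),(13,0),(0,0),(6,1),(7,3)]⟩,⟨0,[(3,
  0)]⟩⟩,[.a ⟨true,0,⟨0,[(28,0)]⟩,⟨0,[(3,0)]⟩⟩ ⟨false,1,⟨3,[(14,0),(0,0),(13,1)]⟩,⟨0,[]⟩⟩ ⟨true,0,⟨1,
  [(0,0),(12,0)]⟩,⟨0,[(3,0)]⟩⟩,.o ⟨false,1,⟨7,[(0,3),(13,0),(0,0),(6,1),(7,3)]⟩,⟨0,[(27,0)]⟩⟩,.o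
  ⟨false,1,⟨3,[(14,0),(0,0),(13,1)]⟩,⟨1,[(6,0),(1,0),(3,1)]⟩⟩,.e ⟨false,1,⟨1,[(29,0),(0,0)]⟩,⟨0,
  [(31,0)]⟩⟩ ⟨false,1,⟨7,[(0,3),(13,0),(0,0),(6,1),(7,3)]⟩,⟨0,[(3,0)]⟩⟩]⟩) (.Q [0,0,0,1,0,0,0,0,1,
  -1] (.p false [0,0,1] [1] (⟨0,[(21,0)]⟩,⟨0,[(20,0)]⟩) .k 1 (⟨0,[]⟩,⟨0,[]⟩) .k .k) (.R ⟨1,false,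
  false,true,[1,0,-1],[0,1],[0,1,0,-1,0,0,-1],(⟨0,[(21,0)]⟩,⟨0,[(22,0)]⟩),(⟨0,[(25,0)]⟩,⟨0,[(24,
  0)]⟩),⟨0,[(10,0)]⟩,.k,.k,(.x (-1) ⟨3,[(15,0),(0,0),(6,1),(0,3)]⟩ ⟨0,[(25,0)]⟩),(.x (-1) ⟨3,[(15,
  0),(0,0),(6,1),(0,3)]⟩ ⟨0,[(25,0)]⟩),(.r (-1) ⟨0,[(2,0),(26,0),(0,0)]⟩ ⟨1,[(1,0),(7,1),(4,0),(18,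
  1)]⟩),.k,⟨false,1,⟨0,[(2,0),(26,0),(0,0)]⟩,⟨0,[(9,0),(18,0)]⟩⟩,⟨true,0,⟨0,[(21,0)]⟩,⟨1,[(7,0),(1,
  0),(3,1),(8,1)]⟩⟩,⟨false,0,⟨0,[(29,0)]⟩,⟨7,[(1,3),(13,0),(0,0),(6,1),(7,3)]⟩⟩,⟨false,0,⟨0,[(4,0),
  (6,0),(21,0)]⟩,⟨0,[(6,0),(22,0)]⟩⟩,⟨true,0,⟨0,[(33,0)]⟩,⟨0,[]⟩⟩,⟨false,0,⟨0,[(1,0),(9,0),(21,0)]⟩,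
  ⟨0,[(6,0),(22,1)]⟩⟩,[.o ⟨false,0,⟨0,[(28,0)]⟩,⟨0,[(13,0),(17,0)]⟩⟩,.a ⟨true,0,⟨0,[(4,0)]⟩,⟨0,[(29,
  0)]⟩⟩ ⟨true,0,⟨0,[(2,0)]⟩,⟨0,[(9,0),(23,0)]⟩⟩ ⟨false,0,⟨0,[(0,0)]⟩,⟨5,[(5,2),(0,2),(5,1),(0,2),(6,
  0),(1,0),(3,0)]⟩⟩,.o ⟨false,1,⟨1,[(22,1),(0,0),(6,0)]⟩,⟨3,[(7,0),(0,0),(4,1),(0,0),(6,2)]⟩⟩,.e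
  ⟨false,1,⟨1,[(19,0),(9,1),(0,0)]⟩,⟨0,[(9,0)]⟩⟩ ⟨false,0,⟨0,[(0,0)]⟩,⟨1,[(5,1),(0,0),(5,0),(1,
  0)]⟩⟩]⟩) (.R ⟨1,false,false,true,[1,0,-1],[0,1],[0,1,0,-1,0,0,-1],(⟨0,[(21,0)]⟩,⟨0,[(22,0)]⟩),(⟨0,
  [(25,0)]⟩,⟨0,[(24,0)]⟩),⟨0,[(10,0)]⟩,.k,.k,(.x (-1) ⟨3,[(15,0),(0,0),(6,1),(0,3)]⟩ ⟨0,[(25,0)]⟩),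
  (.x (-1) ⟨3,[(15,0),(0,0),(6,1),(0,3)]⟩ ⟨0,[(25,0)]⟩),(.r (-1) ⟨0,[(2,0),(26,0),(0,0)]⟩ ⟨1,[(1,0),
  (7,1),(4,0),(18,1)]⟩),.k,⟨false,1,⟨0,[(2,0),(26,0),(0,0)]⟩,⟨0,[(9,0),(18,0)]⟩⟩,⟨true,0,⟨0,[(21,
  0)]⟩,⟨5,[(0,3),(6,0),(1,0),(4,1),(7,1),(5,1)]⟩⟩,⟨false,0,⟨0,[(29,0)]⟩,⟨7,[(1,3),(13,0),(0,0),(6,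
  1),(7,3)]⟩⟩,⟨false,0,⟨0,[(4,0),(6,0),(21,0)]⟩,⟨0,[(6,0),(22,0)]⟩⟩,⟨true,0,⟨0,[(33,0)]⟩,⟨0,[]⟩⟩,
  ⟨false,0,⟨0,[(1,0),(9,0),(21,0)]⟩,⟨0,[(6,0),(22,1)]⟩⟩,[.o ⟨false,0,⟨0,[(28,0)]⟩,⟨0,[(13,0),(17,
  0)]⟩⟩,.e ⟨true,0,⟨0,[(2,0)]⟩,⟨0,[(9,0),(23,0)]⟩⟩ ⟨true,0,⟨1,[(1,0),(12,0),(6,1)]⟩,⟨0,[(0,0)]⟩⟩,.o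
  ⟨false,1,⟨3,[(0,0),(5,2),(2,0),(10,0),(5,1)]⟩,⟨3,[(7,0),(0,0),(4,1),(0,0),(6,2)]⟩⟩,.a ⟨true,0,⟨0,
  [(22,0)]⟩,⟨0,[(21,0)]⟩⟩ ⟨false,1,⟨1,[(19,0),(9,1),(0,0)]⟩,⟨0,[(9,0)]⟩⟩ ⟨true,0,⟨0,[(21,0),(6,0)]⟩,
  ⟨0,[(0,0)]⟩⟩]⟩))) (.Q [0,0,0,1,0,0,0,0,0,1] (.p true [0,0,1] [] (⟨0,[(20,0)]⟩,⟨0,[(19,0)]⟩) .k 0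
  (⟨0,[]⟩,⟨0,[]⟩) .k .k) (.R ⟨1,false,false,false,[1,0,-1],[1,-1],[1,0,0,0,0,0,-1],(⟨0,[(20,0)]⟩,⟨0,
  [(21,0)]⟩),(⟨0,[(23,0)]⟩,⟨0,[(24,0)]⟩),⟨0,[(9,0)]⟩,.k,.k,(.x (-1) ⟨3,[(14,0),(0,0),(6,1),(0,3)]⟩
  ⟨0,[(24,0)]⟩),(.r 0 ⟨0,[(6,0),(25,0)]⟩ ⟨1,[(19,0),(8,1),(0,0)]⟩),.k,.k,⟨true,0,⟨0,[(6,0),(25,0)]⟩,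
  ⟨0,[(4,0)]⟩⟩,⟨false,0,⟨3,[(6,0),(0,0),(4,1),(0,0),(6,2)]⟩,⟨0,[(21,0),(7,0)]⟩⟩,⟨true,0,⟨0,[]⟩,⟨0,
  [(32,0)]⟩⟩,⟨false,0,⟨0,[(10,0),(17,0)]⟩,⟨0,[(11,0),(15,0)]⟩⟩,⟨false,1,⟨0,[(27,0),(2,0)]⟩,⟨0,[(28,
  0)]⟩⟩,⟨false,0,⟨0,[(10,0)]⟩,⟨11,[(11,7),(2,0),(0,0),(2,1),(2,3),(3,3)]⟩⟩,[.a ⟨true,0,⟨0,[(28,0)]⟩,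
  ⟨0,[(3,0)]⟩⟩ ⟨false,1,⟨1,[(18,0),(10,0)]⟩,⟨1,[(1,0),(2,0)]⟩⟩ ⟨true,0,⟨3,[(6,0),(3,0),(1,1),(0,0),
  (6,2),(7,2)]⟩,⟨0,[(0,0)]⟩⟩,.o ⟨false,1,⟨0,[(12,0),(17,0)]⟩,⟨0,[(27,0)]⟩⟩,.o ⟨false,1,⟨3,[(0,1),(4,
  1),(6,1),(6,0),(9,0)]⟩,⟨3,[(6,0),(0,0),(4,1),(0,0),(6,2)]⟩⟩,.e ⟨false,1,⟨0,[(5,0),(14,0)]⟩,⟨2,[(3,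
  0),(0,1),(3,0),(4,0),(18,0)]⟩⟩ ⟨false,1,⟨0,[(12,0),(7,0),(9,0)]⟩,⟨0,[(0,0)]⟩⟩]⟩) (.R ⟨1,false,
  false,false,[1,0,-1],[1,-1],[1,0,0,0,0,0,-1],(⟨0,[(20,0)]⟩,⟨0,[(21,0)]⟩),(⟨0,[(23,0)]⟩,⟨0,[(24,
  0)]⟩),⟨0,[(9,0)]⟩,.k,.k,(.x (-1) ⟨3,[(14,0),(0,0),(6,1),(0,3)]⟩ ⟨0,[(24,0)]⟩),(.r 0 ⟨0,[(6,0),(25,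
  0)]⟩ ⟨1,[(19,0),(8,1),(0,0)]⟩),.k,.k,⟨true,0,⟨0,[(6,0),(25,0)]⟩,⟨0,[(4,0)]⟩⟩,⟨false,0,⟨7,[(0,3),
  (5,0),(0,0),(5,2),(6,2),(6,1)]⟩,⟨0,[(21,0),(7,0)]⟩⟩,⟨true,0,⟨0,[]⟩,⟨0,[(32,0)]⟩⟩,⟨false,0,⟨0,[(10,
  0),(17,0)]⟩,⟨0,[(11,0),(15,0)]⟩⟩,⟨false,1,⟨0,[(27,0),(2,0)]⟩,⟨0,[(28,0)]⟩⟩,⟨false,0,⟨0,[(10,0)]⟩,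
  ⟨11,[(11,7),(2,0),(0,0),(2,1),(2,3),(3,3)]⟩⟩,[.e ⟨false,1,⟨1,[(18,0),(10,0)]⟩,⟨1,[(1,0),(2,0)]⟩⟩
  ⟨false,0,⟨0,[(0,0)]⟩,⟨5,[(1,1),(9,3),(7,0),(1,1),(5,3),(1,0)]⟩⟩,.o ⟨false,1,⟨0,[(12,0),(17,0)]⟩,
  ⟨0,[(27,0)]⟩⟩,.o ⟨false,1,⟨3,[(1,0),(3,2),(6,0),(6,0),(1,0),(3,0)]⟩,⟨7,[(0,3),(5,0),(0,0),(5,2),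
  (6,2),(6,1)]⟩⟩,.a ⟨true,0,⟨0,[(21,0)]⟩,⟨0,[(20,0)]⟩⟩ ⟨false,1,⟨0,[(5,0),(14,0)]⟩,⟨2,[(3,0),(0,1),
  (3,0),(4,0),(18,0)]⟩⟩ ⟨true,0,⟨0,[(0,0)]⟩,⟨0,[(21,0),(5,0)]⟩⟩]⟩)))) (.R ⟨1,false,false,false,[1,0,
  -1],[1,-1],[1,0,0,0,0,0,-1],(⟨0,[(17,0)]⟩,⟨0,[(18,0)]⟩),(⟨0,[(20,0)]⟩,⟨0,[(21,0)]⟩),⟨0,[(6,0)]⟩,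
  .k,.k,(.x (-1) ⟨3,[(11,0),(0,0),(6,1),(0,3)]⟩ ⟨0,[(21,0)]⟩),(.r 0 ⟨0,[(3,0),(25,0)]⟩ ⟨1,[(16,0),
  (8,1),(0,0)]⟩),.k,.k,⟨true,0,⟨0,[(3,0),(25,0)]⟩,⟨0,[(1,0)]⟩⟩,⟨false,0,⟨3,[(3,0),(0,0),(4,1),(0,0),
  (6,2)]⟩,⟨0,[(18,0),(7,0)]⟩⟩,⟨true,0,⟨0,[]⟩,⟨0,[(29,0)]⟩⟩,⟨false,0,⟨0,[(7,0),(17,0)]⟩,⟨0,[(8,0),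
  (15,0)]⟩⟩,⟨false,1,⟨0,[(24,0),(2,0)]⟩,⟨0,[(25,0)]⟩⟩,⟨false,0,⟨0,[(7,0)]⟩,⟨11,[(8,7),(2,0),(0,0),
  (2,1),(2,3),(3,3)]⟩⟩,[.o ⟨false,0,⟨0,[(0,0)]⟩,⟨3,[(11,0),(0,0),(11,3),(2,1)]⟩⟩,.o ⟨false,1,⟨0,[(9,
  0),(17,0)]⟩,⟨0,[(24,0)]⟩⟩,.o ⟨false,1,⟨1,[(18,1),(0,0),(6,0)]⟩,⟨3,[(3,0),(0,0),(4,1),(0,0),(6,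
  2)]⟩⟩,.a ⟨true,0,⟨0,[(18,0)]⟩,⟨0,[(17,0)]⟩⟩ ⟨false,1,⟨0,[(2,0),(14,0)]⟩,⟨1,[(1,0),(3,0),(22,0),(0,
  0)]⟩⟩ ⟨true,0,⟨0,[(0,0),(16,0)]⟩,⟨0,[(18,0),(5,0)]⟩⟩]⟩))))

def t5 : Tre :=
  (.Q [0,-1,1,1,0,0,1,0,0,-1] (.p false [0,0,1] [] (⟨0,[(13,0)]⟩,⟨0,[(12,0)]⟩) .k 0 (⟨0,[]⟩,⟨0,[]⟩)
  .k .k) (.I [1,1,-1,-1,0,0,1] (.Q [0,0,-1,0,0,0,0,0,1] (.pp false [-1,1]) (.Q [0,0,1,0,0,0,0,0,0,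
  -1] (.p false [0,0,1] [] (⟨0,[(16,0)]⟩,⟨0,[(15,0)]⟩) .k 0 (⟨0,[]⟩,⟨0,[]⟩) .k .k) (.R ⟨2,false,
  false,false,[0,1],[0,1,1],[0,1],(⟨0,[]⟩,⟨0,[]⟩),(⟨0,[(17,0),(2,0)]⟩,⟨0,[(5,0)]⟩),⟨0,[]⟩,.k,(.x 0
  ⟨0,[(20,0)]⟩ ⟨3,[(10,0),(0,0),(6,1),(0,3)]⟩),.k,.k,(.x (-1) ⟨3,[(10,0),(0,0),(6,1),(0,3)]⟩ ⟨0,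
  [(20,0)]⟩),.k,⟨false,1,⟨1,[(1,1),(6,1),(5,0),(10,0)]⟩,⟨0,[(4,0)]⟩⟩,⟨true,0,⟨0,[(0,0)]⟩,⟨0,[(17,
  0)]⟩⟩,⟨true,0,⟨0,[(1,0),(6,0)]⟩,⟨0,[(22,0),(0,0)]⟩⟩,⟨false,0,⟨0,[(6,0)]⟩,⟨11,[(7,7),(2,0),(0,0),
  (2,1),(2,3),(3,3)]⟩⟩,⟨false,1,⟨3,[(10,0),(0,0),(13,1)]⟩,⟨0,[(22,0)]⟩⟩,⟨false,0,⟨0,[(3,0)]⟩,⟨1,[(2,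
  0),(4,0),(6,0),(2,0),(6,0)]⟩⟩,[.o ⟨false,0,⟨0,[(3,0),(24,0)]⟩,⟨0,[(7,0),(0,0)]⟩⟩,.o ⟨false,0,⟨0,
  [(3,0)]⟩,⟨11,[(7,7),(0,11),(1,0),(0,0),(2,1),(2,3),(3,3)]⟩⟩,.a ⟨true,0,⟨0,[(1,0)]⟩,⟨0,[(27,0)]⟩⟩
  ⟨true,0,⟨0,[(28,0)]⟩,⟨0,[]⟩⟩ ⟨false,0,⟨1,[(3,0),(0,0),(4,0),(6,0)]⟩,⟨0,[(1,0),(5,0),(0,0)]⟩⟩,.e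
  ⟨false,1,⟨3,[(10,0),(0,0),(13,1)]⟩,⟨0,[(22,0)]⟩⟩ ⟨false,0,⟨0,[(3,0)]⟩,⟨1,[(2,0),(4,0),(6,0),(2,0),
  (6,0)]⟩⟩]⟩) (.R ⟨2,false,false,false,[0,1],[0,0,1],[1,0,1,1],(⟨0,[]⟩,⟨0,[]⟩),(⟨0,[(17,0)]⟩,⟨0,
  [(16,0)]⟩),⟨0,[]⟩,.k,.k,.k,(.r (-1) ⟨7,[(4,3),(5,0),(0,0),(2,5),(8,3),(3,3)]⟩ ⟨0,[(0,0),(0,0),(4,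
  0),(1,0)]⟩),.k,.k,⟨false,1,⟨1,[(14,0),(8,1),(2,0)]⟩,⟨0,[(0,0),(0,0),(4,0),(1,0)]⟩⟩,⟨true,0,⟨0,[(9,
  0),(6,0)]⟩,⟨0,[(0,0)]⟩⟩,⟨true,0,⟨0,[]⟩,⟨0,[(28,0)]⟩⟩,⟨false,0,⟨0,[(6,0),(17,0)]⟩,⟨0,[(7,0),(15,
  0)]⟩⟩,⟨false,1,⟨0,[(23,0),(2,0)]⟩,⟨0,[(24,0)]⟩⟩,⟨false,0,⟨0,[(6,0)]⟩,⟨11,[(7,7),(2,0),(0,0),(2,1),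
  (2,3),(3,3)]⟩⟩,[.o ⟨false,0,⟨0,[(6,0),(21,0)]⟩,⟨1,[(0,1),(13,0),(3,0)]⟩⟩,.o ⟨false,0,⟨0,[(6,0)]⟩,
  ⟨1,[(0,0),(13,0),(2,0),(0,0),(2,0)]⟩⟩,.a ⟨true,0,⟨0,[(1,0)]⟩,⟨0,[(27,0)]⟩⟩ ⟨true,0,⟨0,[(22,0),(0,
  0)]⟩,⟨0,[(1,0),(6,0)]⟩⟩ ⟨false,0,⟨0,[(6,0),(20,0)]⟩,⟨1,[(0,1),(13,0),(10,0)]⟩⟩,.e ⟨false,1,⟨0,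
  [(23,0),(2,0)]⟩,⟨0,[(24,0)]⟩⟩ ⟨false,0,⟨0,[(6,0)]⟩,⟨11,[(7,7),(2,0),(0,0),(2,1),(2,3),(3,
  3)]⟩⟩]⟩)) (.I [0,1,1,0,-1,0,1] (.S ⟨1,0,[0,1,0,-1,0,0,-1],[1,0,-1],[1,0,0,0,0,0,-1],(⟨0,[(16,0)]⟩,
  ⟨0,[(17,0)]⟩),⟨0,[(5,0)]⟩,.k,(.x (-1) ⟨3,[(10,0),(0,0),(6,1),(0,3)]⟩ ⟨0,[(20,0)]⟩),⟨true,0,⟨0,[]⟩,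
  ⟨0,[(28,0)]⟩⟩,⟨false,0,⟨0,[(24,0)]⟩,⟨0,[(23,0),(2,0)]⟩⟩,⟨false,1,⟨0,[(23,0),(2,0)]⟩,⟨0,[(24,0)]⟩⟩,
  ⟨true,0,⟨0,[(28,0)]⟩,⟨0,[]⟩⟩,[.o ⟨false,1,⟨11,[(7,7),(0,11),(1,0),(0,0),(2,1),(2,3),(3,3)]⟩,⟨0,
  [(3,0)]⟩⟩,.o ⟨false,1,⟨0,[(7,0),(0,0)]⟩,⟨14,[(0,0),(2,11),(5,2),(5,0),(0,2),(4,3),(1,2)]⟩⟩,.o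
  ⟨false,1,⟨1,[(17,1),(0,0),(6,0)]⟩,⟨0,[(1,0),(14,0)]⟩⟩,.a ⟨true,0,⟨0,[(17,0)]⟩,⟨0,[(16,0)]⟩⟩ ⟨true,
  1,⟨1,[(14,0),(10,0)]⟩,⟨0,[(0,0)]⟩⟩ ⟨false,1,⟨1,[(14,0),(9,1),(0,0)]⟩,⟨0,[(4,0)]⟩⟩]⟩) t3)) t4) (.Q
  [0,1,1,1,-1,0,1,0,1,-1] (.p false [0,0,1] [1] (⟨0,[(14,0)]⟩,⟨0,[(13,0)]⟩) .k 1 (⟨0,[]⟩,⟨0,[]⟩) .k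
  .k) (.I [0,1,-1,-1] (.Q [0,0,1,0,0,0,0,0,0,-1] (.p false [0,0,1] [] (⟨0,[(16,0)]⟩,⟨0,[(15,0)]⟩)
  .k 0 (⟨0,[]⟩,⟨0,[]⟩) .k .k) (.R ⟨2,true,false,false,[0,1],[0,1,1],[0,1],(⟨0,[]⟩,⟨0,[]⟩),(⟨0,[(17,
  0),(2,0)]⟩,⟨0,[(5,0)]⟩),⟨0,[]⟩,.k,(.x 0 ⟨0,[(20,0)]⟩ ⟨3,[(10,0),(0,0),(6,1),(0,3)]⟩),.k,.k,(.x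
  (-1) ⟨3,[(10,0),(0,0),(6,1),(0,3)]⟩ ⟨0,[(20,0)]⟩),.k,⟨false,1,⟨1,[(1,1),(12,0),(10,0)]⟩,⟨0,[(4,
  0)]⟩⟩,⟨true,0,⟨0,[(0,0)]⟩,⟨0,[(17,0)]⟩⟩,⟨true,0,⟨0,[(1,0)]⟩,⟨0,[(22,0),(0,0)]⟩⟩,⟨false,0,⟨0,[(6,
  0)]⟩,⟨5,[(3,1),(3,3),(2,0),(0,0),(11,1)]⟩⟩,⟨false,1,⟨3,[(10,0),(0,0),(13,1)]⟩,⟨0,[(22,0)]⟩⟩,⟨true,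
  0,⟨0,[(6,0),(16,0)]⟩,⟨0,[(3,0)]⟩⟩,[]⟩) (.S ⟨1,1,[],[1,0,-1],[1,0,0,0,0,0,-1],(⟨0,[(16,0)]⟩,⟨0,
  [(17,0)]⟩),⟨0,[(5,0)]⟩,.k,(.x (-1) ⟨3,[(10,0),(0,0),(6,1),(0,3)]⟩ ⟨0,[(20,0)]⟩),⟨true,0,⟨0,[]⟩,⟨0,
  [(28,0)]⟩⟩,⟨false,0,⟨0,[(6,0)]⟩,⟨5,[(3,1),(3,3),(2,0),(0,0),(11,1)]⟩⟩,⟨false,1,⟨0,[(23,0),(2,0)]⟩,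
  ⟨0,[(24,0)]⟩⟩,⟨true,0,⟨0,[(6,0),(16,0)]⟩,⟨0,[(3,0)]⟩⟩,[.fo,.o ⟨false,1,⟨1,[(18,0),(7,0)]⟩,⟨0,[(28,
  0)]⟩⟩,.e ⟨false,1,⟨1,[(14,0),(11,0)]⟩,⟨4,[(0,2),(1,0),(3,1),(1,0),(6,0)]⟩⟩ ⟨false,1,⟨3,[(6,3),(3,
  0),(0,0),(2,1)]⟩,⟨0,[(0,0)]⟩⟩,.a ⟨true,0,⟨0,[(17,0)]⟩,⟨0,[(16,0)]⟩⟩ ⟨true,1,⟨1,[(14,0),(10,0)]⟩,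
  ⟨0,[(0,0),(1,0),(5,0),(13,0)]⟩⟩ ⟨false,1,⟨1,[(16,1),(1,0),(7,0)]⟩,⟨0,[(17,0)]⟩⟩]⟩)) (.I [0,0,-2,
  -2,1,0,-1] (.K ⟨0,[0,1,1],0,0,(⟨0,[(17,0),(2,0)]⟩,⟨0,[(5,0)]⟩),(.x 0 ⟨0,[(20,0)]⟩ ⟨3,[(10,0),(0,
  0),(6,1),(0,3)]⟩),.k,(.r 0 ⟨2,[(1,2),(0,0),(6,0),(5,0),(1,0),(5,1)]⟩ ⟨0,[(0,0)]⟩),.k,.k,[⟨0,[(17,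
  0),(9,0)]⟩,⟨0,[(1,0),(6,0),(7,0)]⟩,⟨0,[(3,0)]⟩,⟨3,[(2,3),(7,0),(0,0),(6,1)]⟩]⟩) (.R ⟨2,true,false,
  false,[0,1],[0,1,1],[0,0,1],(⟨0,[]⟩,⟨0,[]⟩),(⟨0,[(17,0),(2,0)]⟩,⟨0,[(5,0)]⟩),⟨0,[]⟩,.k,(.x 0 ⟨0,
  [(20,0)]⟩ ⟨3,[(10,0),(0,0),(6,1),(0,3)]⟩),.k,.k,(.x (-1) ⟨3,[(10,0),(0,0),(6,1),(0,3)]⟩ ⟨0,[(20,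
  0)]⟩),.k,⟨false,1,⟨1,[(14,0),(9,1),(0,0)]⟩,⟨0,[(0,0),(23,0),(0,0)]⟩⟩,⟨true,0,⟨0,[(1,0),(6,0),(7,
  0)]⟩,⟨0,[(17,0)]⟩⟩,⟨true,0,⟨0,[(24,0)]⟩,⟨0,[(23,0)]⟩⟩,⟨false,0,⟨0,[(6,0)]⟩,⟨5,[(3,1),(3,3),(2,0),
  (0,0),(11,1)]⟩⟩,⟨false,1,⟨3,[(10,0),(0,0),(14,1)]⟩,⟨0,[]⟩⟩,⟨true,0,⟨0,[(6,0),(16,0)]⟩,⟨0,[(3,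
  0)]⟩⟩,[]⟩))) (.Q [0,0,1,0,0,0,0,0,0,-1] (.p false [0,0,1] [] (⟨0,[(15,0)]⟩,⟨0,[(14,0)]⟩) .k 0 (⟨0,
  []⟩,⟨0,[]⟩) .k .k) (.I [0,0,-2,-2,1,0,-1] (.K ⟨0,[0,1,1],0,0,(⟨0,[(17,0),(2,0)]⟩,⟨0,[(5,0)]⟩),(.x
  0 ⟨0,[(20,0)]⟩ ⟨3,[(10,0),(0,0),(6,1),(0,3)]⟩),.k,(.r 0 ⟨0,[(4,0),(18,0),(3,0)]⟩ ⟨0,[(0,0)]⟩),.k,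
  .k,[⟨0,[(17,0),(9,0)]⟩,⟨0,[(1,0)]⟩,⟨0,[(3,0)]⟩,⟨0,[(6,0),(16,0),(4,0)]⟩]⟩) (.K ⟨0,[0,1,1],0,0,(⟨0,
  [(17,0),(2,0)]⟩,⟨0,[(5,0)]⟩),(.x 0 ⟨0,[(20,0)]⟩ ⟨3,[(10,0),(0,0),(6,1),(0,3)]⟩),.k,(.x (-1) ⟨3,
  [(10,0),(0,0),(8,7),(4,1)]⟩ ⟨0,[(0,0),(1,0),(2,0),(2,0),(10,0)]⟩),.k,.k,[⟨0,[(17,0),(9,0)]⟩,⟨0,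
  [(1,0)]⟩,⟨0,[(3,0)]⟩,⟨4,[(0,0),(0,2),(4,1),(8,0),(5,1),(1,2)]⟩]⟩)) (.R ⟨2,false,false,false,[0,1],
  [0,0,1],[1,0,1,1],(⟨0,[]⟩,⟨0,[]⟩),(⟨0,[(16,0)]⟩,⟨0,[(15,0)]⟩),⟨0,[]⟩,.k,.k,.k,(.r (-1) ⟨7,[(3,3),
  (5,0),(0,0),(2,5),(8,3),(3,3)]⟩ ⟨0,[(0,1),(4,0),(1,0),(7,0)]⟩),.k,.k,⟨false,1,⟨1,[(13,0),(8,1),(2,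
  0)]⟩,⟨0,[(0,1),(4,0),(1,0),(7,0)]⟩⟩,⟨true,0,⟨0,[(8,0),(6,0)]⟩,⟨0,[(0,0)]⟩⟩,⟨true,0,⟨0,[]⟩,⟨0,[(27,
  0)]⟩⟩,⟨false,0,⟨0,[(5,0),(17,0)]⟩,⟨0,[(6,0),(15,0)]⟩⟩,⟨false,1,⟨0,[(22,0),(2,0)]⟩,⟨0,[(23,0)]⟩⟩,
  ⟨false,0,⟨0,[(5,0)]⟩,⟨5,[(2,1),(3,3),(2,0),(0,0),(11,1)]⟩⟩,[.o ⟨false,0,⟨0,[(5,0),(21,0)]⟩,⟨1,[(0,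
  1),(12,0),(3,0)]⟩⟩,.o ⟨false,0,⟨0,[(5,0)]⟩,⟨11,[(2,7),(3,3),(2,0),(0,0),(6,5),(4,7)]⟩⟩,.a ⟨true,0,
  ⟨0,[(0,0),(14,0)]⟩,⟨0,[(26,0)]⟩⟩ ⟨true,0,⟨0,[(21,0),(0,0)]⟩,⟨0,[(0,0),(6,0),(7,0)]⟩⟩ ⟨false,0,⟨0,
  [(5,0),(20,0)]⟩,⟨1,[(0,1),(12,0),(10,0)]⟩⟩,.e ⟨false,1,⟨0,[(22,0),(2,0)]⟩,⟨0,[(23,0)]⟩⟩ ⟨false,0,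
  ⟨0,[(5,0)]⟩,⟨5,[(2,1),(3,3),(2,0),(0,0),(11,1)]⟩⟩]⟩))))

def t6 : Tre :=
  (.Q [0,0,2,0,-1,0,0,0,1,-1] (.p false [0,0,1] [1] (⟨0,[(14,0)]⟩,⟨0,[(13,0)]⟩) .k 1 (⟨0,[]⟩,⟨0,
  []⟩) .k .k) (.Q [0,1,1,0,-1,0,1,0,1,-1] (.p false [0,0,1] [1] (⟨0,[(15,0)]⟩,⟨0,[(14,0)]⟩) .k 1
  (⟨0,[]⟩,⟨0,[]⟩) .k .k) (.K ⟨0,[1,0,-1],1,1,(⟨0,[(15,0)]⟩,⟨0,[(16,0)]⟩),.k,(.x (-1) ⟨3,[(9,0),(0,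
  0),(6,1),(0,3)]⟩ ⟨0,[(19,0)]⟩),(.x (-1) ⟨0,[(19,0),(4,0)]⟩ ⟨0,[(8,0),(9,0)]⟩),.k,.k,[⟨0,[(1,0)]⟩,
  ⟨3,[(9,0),(0,0),(5,3),(0,1)]⟩,⟨0,[(0,0)]⟩,⟨1,[(3,0),(2,0),(9,0),(0,0),(2,0)]⟩]⟩) (.Q [0,0,0,1,0,0,
  0,0,1] (.pp false [-1,1]) (.I [0,1,0,1,0,0,1] (.I [1,0,0,-1,0,0,-1] (.I [1,1,2,1,-1] (.R ⟨0,false,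
  false,true,[1,0,-1],[2,-1,-1],[0,1,1],(⟨0,[(19,0)]⟩,⟨0,[(20,0)]⟩),(⟨0,[(19,0),(2,0)]⟩,⟨0,[(8,
  0)]⟩),⟨0,[(8,0)]⟩,.k,(.x (-1) ⟨3,[(13,0),(0,0),(6,1),(0,3)]⟩ ⟨0,[(23,0)]⟩),(.x (-1) ⟨3,[(13,0),(0,
  0),(6,1),(0,3)]⟩ ⟨0,[(23,0)]⟩),.k,.k,.k,⟨false,0,⟨4,[(0,0),(1,1),(3,1),(2,0),(10,2),(0,0)]⟩,⟨0,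
  [(1,0),(26,0)]⟩⟩,⟨true,0,⟨1,[(0,0),(3,0),(4,0),(1,0)]⟩,⟨0,[(19,0),(0,0)]⟩⟩,⟨false,0,⟨5,[(0,0),(4,
  0),(3,1),(1,0),(6,1),(1,2)]⟩,⟨0,[(4,0),(14,0)]⟩⟩,⟨true,0,⟨0,[(11,0)]⟩,⟨0,[(3,0)]⟩⟩,⟨false,0,⟨0,
  []⟩,⟨0,[]⟩⟩,⟨false,0,⟨0,[]⟩,⟨0,[]⟩⟩,[.o ⟨false,1,⟨5,[(4,3),(6,5),(5,0),(2,1),(0,0),(2,1)]⟩,⟨0,[(6,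
  0)]⟩⟩,.o ⟨false,1,⟨0,[(4,0),(6,0)]⟩,⟨15,[(5,3),(0,11),(6,0),(0,0),(3,1),(5,3),(1,3)]⟩⟩,.o ⟨false,
  1,⟨5,[(2,1),(1,3),(6,1),(6,0),(1,1),(7,0)]⟩,⟨1,[(5,0),(13,0),(1,0)]⟩⟩,.a ⟨true,0,⟨0,[(20,0)]⟩,⟨0,
  [(19,0)]⟩⟩ ⟨true,0,⟨0,[(31,0)]⟩,⟨0,[]⟩⟩ ⟨false,1,⟨1,[(1,1),(19,0),(6,0)]⟩,⟨0,[(6,0),(13,0)]⟩⟩]⟩)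
  (.I [1,1,-1,-1] (.R ⟨0,false,false,true,[-1,1,1],[0,1],[0,0,1],(⟨0,[(9,0)]⟩,⟨0,[(20,0),(2,0)]⟩),
  (⟨0,[(24,0)]⟩,⟨0,[(23,0)]⟩),⟨0,[(20,0)]⟩,(.x 0 ⟨0,[(24,0)]⟩ ⟨3,[(14,0),(0,0),(6,1),(0,3)]⟩),.k,.k,
  .k,.k,.k,⟨false,1,⟨3,[(1,1),(0,1),(16,0),(10,0)]⟩,⟨0,[(27,0)]⟩⟩,⟨true,1,⟨4,[(0,0),(2,1),(1,3),(6,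
  0),(6,0),(1,0)]⟩,⟨0,[(6,0)]⟩⟩,⟨true,0,⟨0,[(0,0),(4,0),(0,0)]⟩,⟨0,[(3,0)]⟩⟩,⟨false,1,⟨5,[(5,3),(12,
  0),(2,1),(0,0),(2,1)]⟩,⟨0,[(7,0),(20,0)]⟩⟩,⟨false,0,⟨0,[]⟩,⟨0,[]⟩⟩,⟨false,0,⟨0,[]⟩,⟨0,[]⟩⟩,[.o
  ⟨false,0,⟨0,[(27,0)]⟩,⟨0,[(12,0),(17,0)]⟩⟩,.a ⟨true,0,⟨0,[(4,0)]⟩,⟨0,[(28,0)]⟩⟩ ⟨true,0,⟨1,[(5,0),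
  (0,0),(2,0),(0,0),(12,0)]⟩,⟨0,[(32,0)]⟩⟩ ⟨false,1,⟨0,[(3,0),(1,0)]⟩,⟨0,[(20,0),(7,0)]⟩⟩,.o ⟨false,
  0,⟨0,[(20,0)]⟩,⟨0,[(21,0),(0,0)]⟩⟩,.e ⟨false,1,⟨3,[(14,0),(0,0),(14,1)]⟩,⟨0,[]⟩⟩ ⟨false,1,⟨0,[(3,
  0),(1,0)]⟩,⟨1,[(6,0),(13,0),(7,1),(1,0)]⟩⟩]⟩) (.R ⟨0,false,false,true,[1,0,-1],[2,-1,-1],[0,1,1],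
  (⟨0,[(20,0)]⟩,⟨0,[(21,0)]⟩),(⟨0,[(20,0),(2,0)]⟩,⟨0,[(9,0)]⟩),⟨0,[(9,0)]⟩,.k,(.x (-1) ⟨3,[(14,0),
  (0,0),(6,1),(0,3)]⟩ ⟨0,[(24,0)]⟩),(.x (-1) ⟨3,[(14,0),(0,0),(6,1),(0,3)]⟩ ⟨0,[(24,0)]⟩),.k,.k,.k,
  ⟨false,0,⟨4,[(0,0),(2,2),(3,0),(2,0),(2,0),(7,1)]⟩,⟨0,[(2,0),(26,0)]⟩⟩,⟨true,0,⟨0,[(0,0),(11,0)]⟩,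
  ⟨0,[(20,0),(0,0)]⟩⟩,⟨false,0,⟨11,[(3,1),(2,2),(3,3),(1,1),(0,0),(5,2),(1,6)]⟩,⟨0,[(5,0),(14,0)]⟩⟩,
  ⟨true,0,⟨0,[(12,0)]⟩,⟨0,[(4,0)]⟩⟩,⟨false,0,⟨0,[]⟩,⟨0,[]⟩⟩,⟨false,0,⟨0,[]⟩,⟨0,[]⟩⟩,[.o ⟨false,1,⟨5,
  [(5,3),(6,5),(5,0),(2,1),(0,0),(2,1)]⟩,⟨0,[(7,0)]⟩⟩,.o ⟨false,1,⟨0,[(5,0),(6,0)]⟩,⟨15,[(6,3),(0,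
  11),(6,0),(0,0),(3,1),(5,3),(1,3)]⟩⟩,.o ⟨false,1,⟨10,[(1,0),(1,3),(1,7),(6,2),(6,1),(1,2),(3,0)]⟩,
  ⟨1,[(6,0),(13,0),(1,0)]⟩⟩,.a ⟨true,0,⟨0,[(21,0)]⟩,⟨0,[(20,0)]⟩⟩ ⟨true,0,⟨0,[(32,0)]⟩,⟨0,[]⟩⟩
  ⟨false,1,⟨1,[(2,1),(19,0),(6,0)]⟩,⟨0,[(7,0),(13,0)]⟩⟩]⟩))) (.R ⟨0,false,false,true,[-1,1,1],[0,1],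
  [0,1,1,1],(⟨0,[(7,0)]⟩,⟨0,[(18,0),(2,0)]⟩),(⟨0,[(22,0)]⟩,⟨0,[(21,0)]⟩),⟨0,[(18,0)]⟩,(.x 0 ⟨0,[(22,
  0)]⟩ ⟨3,[(12,0),(0,0),(6,1),(0,3)]⟩),.k,.k,.k,.k,.k,⟨false,1,⟨3,[(12,0),(0,0),(13,1)]⟩,⟨0,[]⟩⟩,
  ⟨true,1,⟨3,[(0,0),(2,2),(6,0),(6,0),(1,0),(3,0)]⟩,⟨0,[(4,0)]⟩⟩,⟨true,0,⟨0,[(6,0)]⟩,⟨0,[(0,0),(25,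
  0)]⟩⟩,⟨false,1,⟨5,[(3,3),(12,0),(2,1),(0,0),(2,1)]⟩,⟨0,[(5,0),(20,0)]⟩⟩,⟨false,0,⟨0,[]⟩,⟨0,[]⟩⟩,
  ⟨false,0,⟨0,[]⟩,⟨0,[]⟩⟩,[.o ⟨false,0,⟨0,[(25,0)]⟩,⟨0,[(10,0),(17,0)]⟩⟩,.a ⟨true,0,⟨0,[(2,0)]⟩,⟨0,
  [(26,0)]⟩⟩ ⟨true,0,⟨2,[(0,0),(1,0),(0,0),(0,0),(6,0),(13,0)]⟩,⟨0,[(26,0)]⟩⟩ ⟨false,1,⟨0,[(1,0),(1,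
  0)]⟩,⟨0,[(18,0),(7,0)]⟩⟩,.o ⟨false,0,⟨0,[(18,0)]⟩,⟨0,[(19,0),(0,0)]⟩⟩,.o ⟨false,0,⟨3,[(4,1),(7,0),
  (0,0),(4,1)]⟩,⟨0,[(0,0),(2,0),(6,0)]⟩⟩]⟩)) (.R ⟨0,false,false,true,[1,0,-1],[1,-1],[1,1],(⟨0,[(17,
  0)]⟩,⟨0,[(18,0)]⟩),(⟨0,[(20,0)]⟩,⟨0,[(21,0)]⟩),⟨0,[(6,0)]⟩,.k,.k,(.x (-1) ⟨3,[(11,0),(0,0),(6,1),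
  (0,3)]⟩ ⟨0,[(21,0)]⟩),(.r 0 ⟨0,[(2,0),(0,0),(20,0)]⟩ ⟨1,[(16,0),(8,1),(0,0)]⟩),.k,.k,⟨true,0,⟨0,
  [(23,0),(0,0)]⟩,⟨0,[(25,0)]⟩⟩,⟨false,0,⟨1,[(3,0),(13,0),(1,0)]⟩,⟨0,[(18,0),(7,0)]⟩⟩,⟨true,0,⟨0,
  [(7,0),(10,0),(3,0)]⟩,⟨0,[(0,0),(23,0)]⟩⟩,⟨false,0,⟨3,[(3,0),(3,1),(1,1),(6,0),(0,0),(7,1)]⟩,⟨0,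
  [(1,0),(0,0)]⟩⟩,⟨false,0,⟨0,[]⟩,⟨0,[]⟩⟩,⟨false,0,⟨0,[]⟩,⟨0,[]⟩⟩,[.o ⟨false,0,⟨0,[(9,0)]⟩,⟨0,[(24,
  0),(2,0)]⟩⟩,.a ⟨true,0,⟨0,[(25,0)]⟩,⟨0,[(1,0)]⟩⟩ ⟨true,0,⟨0,[]⟩,⟨7,[(3,1),(6,1),(0,0),(0,0),(5,
  1)]⟩⟩ ⟨false,0,⟨0,[(0,0),(6,0),(14,0)]⟩,⟨3,[(1,1),(0,1),(13,0),(1,1),(5,1),(1,0)]⟩⟩,.o ⟨false,1,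
  ⟨1,[(18,1),(0,0),(6,0)]⟩,⟨1,[(3,0),(13,0),(1,0)]⟩⟩,.e ⟨false,1,⟨3,[(11,0),(0,0),(13,1)]⟩,⟨0,[(0,
  0),(5,0),(0,0),(12,0),(3,0)]⟩⟩ ⟨false,0,⟨0,[(0,0),(6,0),(14,0)]⟩,⟨6,[(2,2),(1,3),(3,2),(1,0),(5,
  0),(1,4),(5,2)]⟩⟩]⟩)) (.I [0,0,0,0,0,0,-1] (.R ⟨0,false,false,true,[1,0,-1],[0,1],[0,1],(⟨0,[(17,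
  0)]⟩,⟨0,[(18,0)]⟩),(⟨0,[(21,0)]⟩,⟨0,[(20,0)]⟩),⟨0,[(6,0)]⟩,.k,.k,(.x (-1) ⟨3,[(11,0),(0,0),(6,1),
  (0,3)]⟩ ⟨0,[(21,0)]⟩),(.x (-1) ⟨3,[(11,0),(0,0),(6,1),(0,3)]⟩ ⟨0,[(21,0)]⟩),.k,.k,⟨false,1,⟨0,
  [(25,0),(0,0)]⟩,⟨0,[(23,0),(0,0)]⟩⟩,⟨true,0,⟨0,[(17,0)]⟩,⟨0,[(1,0),(16,0),(4,0),(0,0)]⟩⟩,⟨true,0,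
  ⟨0,[(7,0),(10,0),(3,0)]⟩,⟨0,[(0,0)]⟩⟩,⟨false,0,⟨15,[(3,3),(0,11),(6,0),(0,0),(3,1),(5,3),(1,3)]⟩,
  ⟨0,[(2,0),(22,0)]⟩⟩,⟨false,0,⟨0,[]⟩,⟨0,[]⟩⟩,⟨false,0,⟨0,[]⟩,⟨0,[]⟩⟩,[.o ⟨false,0,⟨0,[(24,0)]⟩,⟨0,
  [(9,0),(17,0)]⟩⟩,.o ⟨false,1,⟨3,[(11,0),(0,0),(11,3),(2,1)]⟩,⟨0,[(1,0)]⟩⟩,.o ⟨false,1,⟨1,[(18,1),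
  (0,0),(6,0)]⟩,⟨1,[(3,0),(13,0),(1,0)]⟩⟩,.a ⟨true,0,⟨0,[(18,0)]⟩,⟨0,[(17,0)]⟩⟩ ⟨false,1,⟨3,[(11,0),
  (0,0),(13,1)]⟩,⟨0,[(23,0)]⟩⟩ ⟨true,0,⟨0,[(17,0),(6,0)]⟩,⟨0,[(1,0),(16,0)]⟩⟩]⟩) (.R ⟨0,false,false,
  false,[1,0,-1],[1,-1],[1],(⟨0,[(17,0)]⟩,⟨0,[(18,0)]⟩),(⟨0,[(20,0)]⟩,⟨0,[(21,0)]⟩),⟨0,[(6,0)]⟩,.k,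
  .k,(.x (-1) ⟨3,[(11,0),(0,0),(6,1),(0,3)]⟩ ⟨0,[(21,0)]⟩),(.r 0 ⟨0,[(2,0),(0,0),(20,0)]⟩ ⟨1,[(16,
  0),(8,1),(0,0)]⟩),.k,.k,⟨true,0,⟨0,[(23,0),(0,0)]⟩,⟨0,[(25,0)]⟩⟩,⟨false,0,⟨1,[(3,0),(13,0),(1,
  0)]⟩,⟨0,[(18,0),(7,0)]⟩⟩,⟨true,0,⟨0,[(0,0)]⟩,⟨0,[(5,0)]⟩⟩,⟨false,0,⟨0,[(7,0),(17,0)]⟩,⟨0,[(8,0),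
  (15,0)]⟩⟩,⟨false,0,⟨0,[]⟩,⟨0,[]⟩⟩,⟨false,0,⟨0,[]⟩,⟨0,[]⟩⟩,[.o ⟨false,0,⟨0,[(1,0)]⟩,⟨3,[(11,0),(0,
  0),(11,3),(2,1)]⟩⟩,.o ⟨false,1,⟨0,[(9,0),(17,0)]⟩,⟨0,[(24,0)]⟩⟩,.o ⟨false,1,⟨5,[(0,1),(1,3),(13,
  0),(1,1),(0,0),(2,1)]⟩,⟨1,[(3,0),(13,0),(1,0)]⟩⟩,.a ⟨true,0,⟨0,[(18,0)]⟩,⟨0,[(17,0)]⟩⟩ ⟨false,1,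
  ⟨1,[(26,0),(0,0)]⟩,⟨7,[(3,1),(6,1),(0,0),(0,0),(5,1)]⟩⟩ ⟨true,0,⟨0,[(1,0),(15,0)]⟩,⟨0,[(18,0),(5,
  0)]⟩⟩]⟩)))) (.Q [0,-1,-1,1,1,0,-1,0,0,1] (.p true [0,0,1] [] (⟨0,[(15,0)]⟩,⟨0,[(14,0)]⟩) .k 0 (⟨0,
  []⟩,⟨0,[]⟩) .k .k) (.Q [0,0,-1,0,0,0,0,0,1] (.pp false [-1,1]) (.R ⟨2,false,false,false,[0,1],[0,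
  0,1],[0,1],(⟨0,[]⟩,⟨0,[]⟩),(⟨0,[(17,0)]⟩,⟨0,[(16,0)]⟩),⟨0,[]⟩,.k,.k,.k,(.x (-1) ⟨0,[(20,0),(4,
  0)]⟩ ⟨0,[(9,0),(9,0)]⟩),.k,.k,⟨true,0,⟨0,[(4,0)]⟩,⟨0,[(6,0),(10,0)]⟩⟩,⟨false,0,⟨0,[(4,0),(1,0)]⟩,
  ⟨5,[(0,2),(1,2),(4,1),(7,0),(1,0),(3,0)]⟩⟩,⟨true,0,⟨0,[(0,0),(7,0)]⟩,⟨0,[(22,0),(0,0)]⟩⟩,⟨false,0,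
  ⟨0,[(6,0),(17,0)]⟩,⟨15,[(1,11),(8,0),(0,0),(2,1),(2,3),(3,3),(1,3)]⟩⟩,⟨false,1,⟨3,[(10,0),(0,0),
  (13,1)]⟩,⟨0,[(22,0)]⟩⟩,⟨false,0,⟨0,[(6,0)]⟩,⟨11,[(7,7),(2,0),(0,0),(2,1),(2,3),(3,3)]⟩⟩,[.o
  ⟨false,0,⟨0,[(3,0),(4,0)]⟩,⟨0,[(1,0),(6,0)]⟩⟩,.o ⟨false,0,⟨0,[(6,0)]⟩,⟨2,[(2,0),(1,0),(9,0),(2,1),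
  (0,0),(2,0)]⟩⟩,.a ⟨true,0,⟨0,[(0,0)]⟩,⟨0,[(27,0)]⟩⟩ ⟨true,0,⟨0,[(28,0)]⟩,⟨0,[]⟩⟩ ⟨false,0,⟨1,[(3,
  0),(2,0),(2,0),(14,0)]⟩,⟨1,[(0,0),(1,0),(1,0),(2,0)]⟩⟩,.e ⟨false,1,⟨3,[(10,0),(0,0),(13,1)]⟩,⟨0,
  [(22,0)]⟩⟩ ⟨false,0,⟨0,[(6,0)]⟩,⟨11,[(7,7),(2,0),(0,0),(2,1),(2,3),(3,3)]⟩⟩]⟩) (.Q [0,-1,-1,0,1,0,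
  -1,0,-1,1] (.p true [0,0,1] [1] (⟨0,[(17,0)]⟩,⟨0,[(16,0)]⟩) .k 1 (⟨0,[]⟩,⟨0,[]⟩) .k .k) (.Q [0,0,
  0,1,0,0,0,0,1] (.pp false [-1,1]) (.I [1,1,-1,0,0,0,1] (.R ⟨0,false,false,true,[-1,1,1],[0,1],[1,
  1,1,1],(⟨0,[(8,0)]⟩,⟨0,[(19,0),(2,0)]⟩),(⟨0,[(23,0)]⟩,⟨0,[(22,0)]⟩),⟨0,[(19,0)]⟩,(.x 0 ⟨0,[(23,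
  0)]⟩ ⟨3,[(13,0),(0,0),(6,1),(0,3)]⟩),.k,.k,.k,.k,.k,⟨true,0,⟨0,[]⟩,⟨0,[(30,0)]⟩⟩,⟨false,1,⟨0,[(5,
  0)]⟩,⟨0,[(19,0),(10,0)]⟩⟩,⟨true,0,⟨0,[(7,0)]⟩,⟨1,[(0,0),(8,0),(10,0)]⟩⟩,⟨false,1,⟨5,[(2,3),(14,0),
  (2,1),(0,0),(2,1)]⟩,⟨0,[(6,0),(20,0)]⟩⟩,⟨false,0,⟨0,[]⟩,⟨0,[]⟩⟩,⟨false,0,⟨0,[]⟩,⟨0,[]⟩⟩,[.o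
  ⟨false,0,⟨0,[(26,0)]⟩,⟨0,[(11,0),(17,0)]⟩⟩,.a ⟨true,0,⟨0,[(1,0)]⟩,⟨0,[(27,0)]⟩⟩ ⟨true,0,⟨0,[(25,
  0),(0,0)]⟩,⟨0,[(27,0)]⟩⟩ ⟨false,1,⟨3,[(3,1),(0,0),(0,2),(0,0),(13,0),(5,1)]⟩,⟨0,[(19,0),(7,0)]⟩⟩,
  .o ⟨false,0,⟨0,[(19,0)]⟩,⟨0,[(20,0),(0,0)]⟩⟩,.o ⟨false,0,⟨0,[(19,0),(10,0)]⟩,⟨0,[(3,0),(1,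
  0)]⟩⟩]⟩) (.Q [0,0,0,1,0,0,0,0,0,1] (.p true [0,0,1] [] (⟨0,[(20,0)]⟩,⟨0,[(19,0)]⟩) .k 0 (⟨0,[]⟩,
  ⟨0,[]⟩) .k .k) (.R ⟨0,false,false,true,[1,0,-1],[2,-1,-1],[1,0,1],(⟨0,[(20,0)]⟩,⟨0,[(21,0)]⟩),(⟨0,
  [(20,0),(2,0)]⟩,⟨0,[(9,0)]⟩),⟨0,[(9,0)]⟩,.k,(.x (-1) ⟨3,[(14,0),(0,0),(6,1),(0,3)]⟩ ⟨0,[(24,0)]⟩),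
  (.x (-1) ⟨3,[(14,0),(0,0),(6,1),(0,3)]⟩ ⟨0,[(24,0)]⟩),.k,.k,.k,⟨false,0,⟨0,[(0,0),(9,0)]⟩,⟨0,[(8,
  0),(19,0),(0,0)]⟩⟩,⟨true,0,⟨0,[(4,0)]⟩,⟨0,[(2,0),(25,0)]⟩⟩,⟨false,0,⟨0,[(10,0),(10,0)]⟩,⟨1,[(18,
  0),(10,0)]⟩⟩,⟨true,0,⟨0,[(12,0)]⟩,⟨0,[(2,0)]⟩⟩,⟨false,0,⟨0,[]⟩,⟨0,[]⟩⟩,⟨false,0,⟨0,[]⟩,⟨0,[]⟩⟩,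
  [.o ⟨false,1,⟨2,[(0,0),(2,0),(2,0),(5,3),(5,0)]⟩,⟨0,[(7,0)]⟩⟩,.o ⟨false,1,⟨0,[(3,0),(8,0)]⟩,⟨0,
  [(7,0),(24,0)]⟩⟩,.o ⟨false,1,⟨7,[(6,3),(7,0),(0,0),(5,3),(0,1)]⟩,⟨0,[(8,0),(1,0)]⟩⟩,.a ⟨true,0,⟨0,
  [(21,0)]⟩,⟨0,[(20,0)]⟩⟩ ⟨true,0,⟨0,[]⟩,⟨0,[(32,0)]⟩⟩ ⟨false,1,⟨0,[(3,0),(8,0),(7,0)]⟩,⟨0,[(7,0),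
  (13,0)]⟩⟩]⟩) (.I [1,0,-2,-1,1,0,-1] (.R ⟨0,false,false,true,[1,0,-1],[2,-1,-1],[0,1,1],(⟨0,[(21,
  0)]⟩,⟨0,[(22,0)]⟩),(⟨0,[(21,0),(2,0)]⟩,⟨0,[(10,0)]⟩),⟨0,[(10,0)]⟩,.k,(.x (-1) ⟨3,[(15,0),(0,0),(6,
  1),(0,3)]⟩ ⟨0,[(25,0)]⟩),(.x (-1) ⟨3,[(15,0),(0,0),(6,1),(0,3)]⟩ ⟨0,[(25,0)]⟩),.k,.k,.k,⟨false,0,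
  ⟨0,[(11,0),(10,0),(5,0)]⟩,⟨0,[(0,0)]⟩⟩,⟨true,0,⟨0,[(5,0)]⟩,⟨0,[(3,0),(25,0)]⟩⟩,⟨false,0,⟨0,[(8,0),
  (4,0),(8,0)]⟩,⟨0,[(1,0),(4,0)]⟩⟩,⟨true,0,⟨0,[(13,0)]⟩,⟨0,[(3,0)]⟩⟩,⟨false,0,⟨0,[]⟩,⟨0,[]⟩⟩,⟨false,
  0,⟨0,[]⟩,⟨0,[]⟩⟩,[.o ⟨false,1,⟨5,[(4,3),(8,5),(5,0),(2,1),(0,0),(2,1)]⟩,⟨0,[(8,0)]⟩⟩,.o ⟨false,1,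
  ⟨0,[(4,0),(8,0)]⟩,⟨0,[(8,0),(24,0)]⟩⟩,.o ⟨false,1,⟨7,[(7,3),(7,0),(0,0),(5,3),(0,1)]⟩,⟨3,[(1,2),
  (0,0),(5,0),(5,0),(13,1)]⟩⟩,.a ⟨true,0,⟨0,[(22,0)]⟩,⟨0,[(21,0)]⟩⟩ ⟨true,0,⟨0,[(33,0)]⟩,⟨0,[]⟩⟩
  ⟨false,1,⟨5,[(0,1),(0,1),(2,1),(8,1),(5,0),(3,0)]⟩,⟨0,[(8,0),(13,0)]⟩⟩]⟩) (.R ⟨0,false,false,true,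
  [1,0,-1],[2,-1,-1],[1,0,1],(⟨0,[(21,0)]⟩,⟨0,[(22,0)]⟩),(⟨0,[(21,0),(2,0)]⟩,⟨0,[(10,0)]⟩),⟨0,[(10,
  0)]⟩,.k,(.x (-1) ⟨3,[(15,0),(0,0),(6,1),(0,3)]⟩ ⟨0,[(25,0)]⟩),(.x (-1) ⟨3,[(15,0),(0,0),(6,1),(0,
  3)]⟩ ⟨0,[(25,0)]⟩),.k,.k,.k,⟨false,0,⟨2,[(0,1),(6,0),(0,0),(22,0)]⟩,⟨0,[(1,0),(10,0),(13,0)]⟩⟩,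
  ⟨true,0,⟨0,[(5,0)]⟩,⟨0,[(3,0),(25,0)]⟩⟩,⟨false,0,⟨0,[(11,0),(10,0)]⟩,⟨1,[(19,0),(10,0)]⟩⟩,⟨true,0,
  ⟨0,[(13,0)]⟩,⟨0,[(3,0)]⟩⟩,⟨false,0,⟨0,[]⟩,⟨0,[]⟩⟩,⟨false,0,⟨0,[]⟩,⟨0,[]⟩⟩,[.o ⟨false,1,⟨5,[(4,3),
  (8,5),(5,0),(2,1),(0,0),(2,1)]⟩,⟨0,[(8,0)]⟩⟩,.o ⟨false,1,⟨0,[(4,0),(8,0)]⟩,⟨0,[(8,0),(24,0)]⟩⟩,.o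
  ⟨false,1,⟨7,[(7,3),(7,0),(0,0),(5,3),(0,1)]⟩,⟨3,[(1,2),(0,0),(5,0),(5,0),(13,1)]⟩⟩,.a ⟨true,0,⟨0,
  [(22,0)]⟩,⟨0,[(21,0)]⟩⟩ ⟨true,0,⟨0,[]⟩,⟨0,[(33,0)]⟩⟩ ⟨false,1,⟨2,[(1,1),(2,0),(2,0),(5,0),(5,0)]⟩,
  ⟨0,[(8,0),(13,0)]⟩⟩]⟩)))) (.Q [0,0,2,0,-1,0,2,0,2,-2] (.p false [0,0,1] [2,-1,-1] (⟨0,[(19,0)]⟩,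
  ⟨0,[(18,0)]⟩) .k 2 (⟨0,[(18,0),(2,0)]⟩,⟨0,[(7,0)]⟩) (.r (-1) ⟨1,[(16,0),(9,1),(0,0)]⟩ ⟨0,[(8,0),
  (10,0),(5,0)]⟩) (.x 0 ⟨0,[(29,1)]⟩ ⟨0,[(27,0)]⟩)) (.I [0,1,-1,-1,0,0,1] (.I [1,0,-1,-1,0,0,1] (.R
  ⟨0,false,false,true,[1,0,-1],[0,1],[1],(⟨0,[(21,0)]⟩,⟨0,[(22,0)]⟩),(⟨0,[(25,0)]⟩,⟨0,[(24,0)]⟩),⟨0,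
  [(10,0)]⟩,.k,.k,(.x (-1) ⟨3,[(15,0),(0,0),(6,1),(0,3)]⟩ ⟨0,[(25,0)]⟩),(.x (-1) ⟨3,[(15,0),(0,0),
  (6,1),(0,3)]⟩ ⟨0,[(25,0)]⟩),.k,.k,⟨false,1,⟨0,[(0,0),(3,0),(16,0)]⟩,⟨5,[(2,0),(11,1),(4,0),(2,1),
  (5,5)]⟩⟩,⟨true,0,⟨0,[(21,0)]⟩,⟨0,[(5,0),(16,0)]⟩⟩,⟨true,0,⟨1,[(0,0),(10,0),(10,0),(5,0)]⟩,⟨0,[(9,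
  0)]⟩⟩,⟨false,0,⟨7,[(2,1),(5,3),(6,0),(0,0),(11,3)]⟩,⟨0,[(3,0),(8,0)]⟩⟩,⟨false,0,⟨0,[]⟩,⟨0,[]⟩⟩,
  ⟨false,0,⟨0,[]⟩,⟨0,[]⟩⟩,[.o ⟨false,0,⟨0,[(28,0)]⟩,⟨0,[(13,0),(17,0)]⟩⟩,.o ⟨false,1,⟨15,[(6,3),(1,
  3),(6,4),(0,4),(6,1),(4,7)]⟩,⟨0,[(3,0)]⟩⟩,.o ⟨false,1,⟨7,[(7,3),(7,0),(0,0),(5,3),(0,1)]⟩,⟨0,[(9,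
  0),(1,0)]⟩⟩,.a ⟨true,0,⟨0,[(22,0)]⟩,⟨0,[(21,0)]⟩⟩ ⟨false,1,⟨1,[(30,0),(0,0)]⟩,⟨5,[(2,0),(11,1),(4,
  0),(2,1)]⟩⟩ ⟨true,0,⟨0,[(21,0),(6,0)]⟩,⟨0,[(3,0),(18,0)]⟩⟩]⟩) (.R ⟨0,false,false,false,[1,0,-1],
  [1,-1],[1,0,0,0,0,0,-1],(⟨0,[(21,0)]⟩,⟨0,[(22,0)]⟩),(⟨0,[(24,0)]⟩,⟨0,[(25,0)]⟩),⟨0,[(10,0)]⟩,.k,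
  .k,(.x (-1) ⟨3,[(15,0),(0,0),(6,1),(0,3)]⟩ ⟨0,[(25,0)]⟩),(.r 0 ⟨0,[(0,0)]⟩ ⟨3,[(1,3),(13,0),(0,0),
  (14,1)]⟩),.k,.k,⟨true,0,⟨0,[(0,0)]⟩,⟨3,[(1,1),(0,0),(0,1),(18,1),(8,0)]⟩⟩,⟨false,0,⟨1,[(0,0),(10,
  0),(1,0),(7,0)]⟩,⟨0,[(1,0),(4,0)]⟩⟩,⟨true,0,⟨0,[]⟩,⟨0,[(33,0)]⟩⟩,⟨false,0,⟨1,[(2,0),(0,1),(27,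
  0)]⟩,⟨15,[(6,11),(8,0),(0,0),(2,1),(2,3),(3,3),(1,3)]⟩⟩,⟨false,0,⟨0,[]⟩,⟨0,[]⟩⟩,⟨false,0,⟨0,[]⟩,
  ⟨0,[]⟩⟩,[.o ⟨false,0,⟨0,[(3,0)]⟩,⟨15,[(6,3),(1,3),(6,4),(0,4),(6,1),(4,7)]⟩⟩,.o ⟨false,1,⟨0,[(13,
  0),(17,0)]⟩,⟨0,[(28,0)]⟩⟩,.o ⟨false,1,⟨7,[(7,3),(7,0),(0,0),(5,3),(0,1)]⟩,⟨1,[(0,0),(10,0),(1,0),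
  (7,0)]⟩⟩,.a ⟨true,0,⟨0,[(22,0)]⟩,⟨0,[(21,0)]⟩⟩ ⟨false,1,⟨0,[(4,0),(16,0)]⟩,⟨3,[(2,0),(2,1),(14,0),
  (1,1)]⟩⟩ ⟨true,0,⟨0,[(3,0),(17,0)]⟩,⟨0,[(22,0),(5,0)]⟩⟩]⟩)) (.R ⟨0,false,false,false,[1,0,-1],[1,
  -1],[0,0,0,-1],(⟨0,[(20,0)]⟩,⟨0,[(21,0)]⟩),(⟨0,[(23,0)]⟩,⟨0,[(24,0)]⟩),⟨0,[(9,0)]⟩,.k,.k,(.x (-1)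
  ⟨3,[(14,0),(0,0),(6,1),(0,3)]⟩ ⟨0,[(24,0)]⟩),(.r 0 ⟨17,[(0,11),(0,0),(6,5),(4,1),(4,0),(2,1),(5,
  5)]⟩ ⟨1,[(19,0),(8,1),(0,0)]⟩),.k,.k,⟨true,0,⟨5,[(1,0),(11,1),(4,0),(2,1)]⟩,⟨0,[]⟩⟩,⟨false,0,⟨3,
  [(0,1),(0,0),(10,1),(7,1),(1,0)]⟩,⟨0,[(21,0),(7,0)]⟩⟩,⟨true,0,⟨1,[(1,0),(0,0),(3,0),(14,0),(6,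
  0)]⟩,⟨0,[(0,0),(24,0)]⟩⟩,⟨false,0,⟨1,[(1,0),(0,1),(27,0)]⟩,⟨15,[(5,11),(8,0),(0,0),(2,1),(2,3),(3,
  3),(1,3)]⟩⟩,⟨false,0,⟨0,[]⟩,⟨0,[]⟩⟩,⟨false,0,⟨0,[]⟩,⟨0,[]⟩⟩,[.o ⟨false,0,⟨0,[(2,0)]⟩,⟨15,[(5,3),
  (1,3),(6,4),(0,4),(6,1),(4,7)]⟩⟩,.o ⟨false,1,⟨0,[(12,0),(17,0)]⟩,⟨0,[(27,0)]⟩⟩,.o ⟨false,1,⟨7,[(6,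
  3),(7,0),(0,0),(5,3),(0,1)]⟩,⟨3,[(0,1),(0,0),(10,1),(7,1),(1,0)]⟩⟩,.a ⟨true,0,⟨0,[(21,0)]⟩,⟨0,
  [(20,0)]⟩⟩ ⟨false,1,⟨1,[(28,1),(0,0),(0,0)]⟩,⟨3,[(0,0),(6,0),(5,0),(7,0),(5,1)]⟩⟩ ⟨true,0,⟨0,[(2,
  0),(17,0)]⟩,⟨0,[(21,0),(5,0)]⟩⟩]⟩)) (.R ⟨0,false,false,true,[1,0,-1],[0,1],[0,1,0,0,0,0,-1],(⟨0,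
  [(19,0)]⟩,⟨0,[(20,0)]⟩),(⟨0,[(23,0)]⟩,⟨0,[(22,0)]⟩),⟨0,[(8,0)]⟩,.k,.k,(.x (-1) ⟨3,[(13,0),(0,0),
  (6,1),(0,3)]⟩ ⟨0,[(23,0)]⟩),(.x (-1) ⟨3,[(13,0),(0,0),(6,1),(0,3)]⟩ ⟨0,[(23,0)]⟩),.k,.k,⟨false,1,
  ⟨1,[(0,0),(18,1),(7,1),(0,0)]⟩,⟨0,[(9,0),(10,0),(5,0)]⟩⟩,⟨true,0,⟨0,[(19,0)]⟩,⟨0,[(3,0),(16,0)]⟩⟩,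
  ⟨true,0,⟨0,[(31,0)]⟩,⟨0,[]⟩⟩,⟨false,0,⟨0,[(6,0),(24,0)]⟩,⟨0,[(1,0),(8,0)]⟩⟩,⟨false,0,⟨0,[]⟩,⟨0,
  []⟩⟩,⟨false,0,⟨0,[]⟩,⟨0,[]⟩⟩,[.o ⟨false,0,⟨0,[(26,0)]⟩,⟨0,[(11,0),(17,0)]⟩⟩,.o ⟨false,1,⟨15,[(4,
  3),(1,3),(6,4),(0,4),(6,1),(4,7)]⟩,⟨0,[(1,0)]⟩⟩,.o ⟨false,1,⟨1,[(0,0),(17,0)]⟩,⟨0,[(7,0),(1,0)]⟩⟩,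
  .a ⟨true,0,⟨0,[(20,0)]⟩,⟨0,[(19,0)]⟩⟩ ⟨false,1,⟨1,[(17,0),(10,0)]⟩,⟨0,[(9,0),(10,0)]⟩⟩ ⟨true,0,⟨0,
  [(19,0),(6,0)]⟩,⟨0,[(1,0),(18,0)]⟩⟩]⟩))) (.R ⟨0,false,false,false,[-1,1,1],[0,1],[1,0,1,1],(⟨0,
  [(6,0)]⟩,⟨0,[(17,0),(2,0)]⟩),(⟨0,[(21,0)]⟩,⟨0,[(20,0)]⟩),⟨0,[(17,0)]⟩,(.x 0 ⟨0,[(21,0)]⟩ ⟨3,[(11,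
  0),(0,0),(6,1),(0,3)]⟩),.k,.k,.k,.k,.k,⟨true,0,⟨0,[]⟩,⟨0,[(28,0)]⟩⟩,⟨false,1,⟨0,[(3,0)]⟩,⟨1,[(0,
  0),(3,0),(10,0),(9,0)]⟩⟩,⟨false,1,⟨1,[(15,0),(11,0)]⟩,⟨1,[(0,0),(2,0),(3,0),(10,0)]⟩⟩,⟨true,1,⟨0,
  [(2,0),(6,0)]⟩,⟨0,[(0,0)]⟩⟩,⟨false,0,⟨0,[]⟩,⟨0,[]⟩⟩,⟨false,0,⟨0,[]⟩,⟨0,[]⟩⟩,[.a ⟨true,0,⟨0,[(0,0),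
  (1,0)]⟩,⟨0,[(25,0)]⟩⟩ ⟨true,0,⟨0,[(23,0),(0,0)]⟩,⟨0,[(25,0)]⟩⟩ ⟨false,1,⟨3,[(1,1),(0,0),(0,2),(0,
  0),(13,0),(5,1)]⟩,⟨0,[(17,0),(7,0)]⟩⟩,.o ⟨false,1,⟨7,[(2,3),(1,3),(6,0),(0,0),(6,1)]⟩,⟨0,[(9,
  0)]⟩⟩,.o ⟨false,0,⟨0,[(17,0)]⟩,⟨0,[(18,0),(0,0)]⟩⟩,.o ⟨false,0,⟨1,[(0,0),(3,0),(10,0),(9,0)]⟩,⟨0,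
  [(1,0),(1,0)]⟩⟩]⟩))) (.R ⟨2,true,false,true,[0,1],[0,0,1],[0,1,1],(⟨0,[]⟩,⟨0,[]⟩),(⟨0,[(16,0)]⟩,
  ⟨0,[(15,0)]⟩),⟨0,[]⟩,.k,.k,.k,(.x (-1) ⟨0,[(19,0),(4,0)]⟩ ⟨0,[(8,0),(9,0)]⟩),.k,.k,⟨true,0,⟨0,[(3,
  0),(17,0)]⟩,⟨1,[(0,0),(0,0),(0,0),(13,0)]⟩⟩,⟨false,0,⟨0,[(3,0),(1,0)]⟩,⟨0,[(16,0),(7,0)]⟩⟩,⟨false,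
  0,⟨0,[(23,0)]⟩,⟨0,[(22,0),(2,0)]⟩⟩,⟨true,(-1),⟨0,[(0,0)]⟩,⟨0,[(6,0),(15,0)]⟩⟩,⟨true,0,⟨0,[(27,
  0)]⟩,⟨0,[]⟩⟩,⟨false,0,⟨7,[(0,3),(1,3),(6,0),(0,0),(6,1)]⟩,⟨0,[(6,0)]⟩⟩,[]⟩)))

def t7 : Tre :=
  (.I [0,-1,-1,-1,1,0,-1] (.Q [0,0,0,1,0,0,0,0,1] (.pp false [-1,1]) (.R ⟨0,false,false,false,[1,0,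
  -1],[0,1],[0,1,0,0,0,0,-1],(⟨0,[(17,0)]⟩,⟨0,[(18,0)]⟩),(⟨0,[(21,0)]⟩,⟨0,[(20,0)]⟩),⟨0,[(6,0)]⟩,.k,
  .k,(.x (-1) ⟨3,[(11,0),(0,0),(6,1),(0,3)]⟩ ⟨0,[(21,0)]⟩),(.x (-1) ⟨3,[(11,0),(0,0),(6,1),(0,3)]⟩
  ⟨0,[(21,0)]⟩),.k,.k,⟨false,1,⟨0,[(1,0),(20,0)]⟩,⟨0,[(0,0),(1,0),(2,0)]⟩⟩,⟨true,0,⟨0,[(17,0)]⟩,⟨0,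
  [(2,0),(15,0)]⟩⟩,⟨true,0,⟨0,[(29,0)]⟩,⟨0,[]⟩⟩,⟨false,0,⟨0,[(0,0),(6,0)]⟩,⟨0,[(8,0),(0,0)]⟩⟩,
  ⟨false,0,⟨0,[]⟩,⟨0,[]⟩⟩,⟨false,0,⟨0,[]⟩,⟨0,[]⟩⟩,[.a ⟨true,0,⟨0,[(0,0)]⟩,⟨0,[(25,0)]⟩⟩ ⟨false,1,⟨7,
  [(11,0),(0,0),(2,3),(6,3),(3,1)]⟩,⟨0,[(5,0)]⟩⟩ ⟨true,0,⟨0,[(0,0),(3,0)]⟩,⟨0,[(3,0)]⟩⟩,.o ⟨false,1,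
  ⟨0,[(24,0),(2,0)]⟩,⟨0,[(9,0)]⟩⟩,.o ⟨false,1,⟨1,[(18,1),(0,0),(6,0)]⟩,⟨0,[(4,0)]⟩⟩,.e ⟨false,1,⟨1,
  [(15,0),(10,0)]⟩,⟨0,[(7,0),(10,0)]⟩⟩ ⟨false,1,⟨0,[(17,0),(6,0),(2,0)]⟩,⟨0,[(3,0)]⟩⟩]⟩) (.I [1,1,1,
  0,-1,0,1] (.I [0,0,-1,-1,0,0,1] (.R ⟨2,false,false,true,[0,1],[0,0,1],[],(⟨0,[]⟩,⟨0,[]⟩),(⟨0,[(20,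
  0)]⟩,⟨0,[(19,0)]⟩),⟨0,[]⟩,.k,.k,.k,(.r (-1) ⟨1,[(17,0),(8,1),(2,0),(0,1)]⟩ ⟨0,[(0,0)]⟩),.k,.k,
  ⟨true,1,⟨1,[(17,0),(11,0)]⟩,⟨0,[(1,0)]⟩⟩,⟨false,0,⟨0,[(6,0)]⟩,⟨0,[(20,0),(7,0)]⟩⟩,⟨false,1,⟨5,[(0,
  1),(2,3),(14,0),(10,0)]⟩,⟨0,[(25,0),(0,0)]⟩⟩,⟨true,(-1),⟨0,[(1,0),(0,0),(16,0)]⟩,⟨0,[(10,0),(15,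
  0)]⟩⟩,⟨false,1,⟨1,[(28,0),(0,0)]⟩,⟨0,[(30,0)]⟩⟩,⟨false,0,⟨5,[(1,0),(4,2),(2,2),(8,0),(5,0)]⟩,⟨0,
  [(10,0)]⟩⟩,[.a ⟨true,(-1),⟨0,[(1,0),(17,0)]⟩,⟨0,[(10,0)]⟩⟩ ⟨false,1,⟨3,[(13,0),(0,0),(13,1)]⟩,⟨0,
  []⟩⟩ ⟨true,(-1),⟨0,[(1,0),(4,0)]⟩,⟨0,[(10,0)]⟩⟩,.o ⟨false,0,⟨5,[(1,0),(4,2),(2,2),(8,0),(5,0)]⟩,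
  ⟨0,[(2,0),(7,0),(15,0)]⟩⟩,.o ⟨false,1,⟨3,[(13,0),(0,0),(13,1)]⟩,⟨0,[(4,0)]⟩⟩,.e ⟨false,1,⟨1,[(28,
  0),(0,0)]⟩,⟨0,[(30,0)]⟩⟩ ⟨false,0,⟨5,[(1,0),(4,2),(2,2),(8,0),(5,0)]⟩,⟨0,[(10,0)]⟩⟩]⟩) (.R ⟨2,
  true,false,true,[0,1],[0,0,1],[1,1,1,1],(⟨0,[]⟩,⟨0,[]⟩),(⟨0,[(20,0)]⟩,⟨0,[(19,0)]⟩),⟨0,[]⟩,.k,.k,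
  .k,(.x (-1) ⟨0,[(23,0),(4,0)]⟩ ⟨0,[(12,0),(9,0)]⟩),.k,.k,⟨true,0,⟨0,[(0,0)]⟩,⟨5,[(1,0),(5,2),(10,
  0),(5,0),(2,5)]⟩⟩,⟨false,0,⟨0,[(6,0)]⟩,⟨0,[(20,0),(7,0)]⟩⟩,⟨false,0,⟨0,[]⟩,⟨3,[(13,0),(0,0),(14,
  1)]⟩⟩,⟨true,(-1),⟨0,[(1,0),(0,0),(16,0)]⟩,⟨0,[(10,0),(15,0)]⟩⟩,⟨true,0,⟨0,[(26,0)]⟩,⟨0,[(27,0)]⟩⟩,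
  ⟨false,0,⟨5,[(1,0),(4,2),(2,2),(8,0),(5,0)]⟩,⟨0,[(10,0)]⟩⟩,[]⟩)) (.I [0,0,-2,-1,1,0,-1] (.R ⟨0,
  false,false,true,[1,0,-1],[0,1],[0,1,0,0,0,0,-1],(⟨0,[(19,0)]⟩,⟨0,[(20,0)]⟩),(⟨0,[(23,0)]⟩,⟨0,
  [(22,0)]⟩),⟨0,[(8,0)]⟩,.k,.k,(.x (-1) ⟨3,[(13,0),(0,0),(6,1),(0,3)]⟩ ⟨0,[(23,0)]⟩),(.x (-1) ⟨3,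
  [(13,0),(0,0),(6,1),(0,3)]⟩ ⟨0,[(23,0)]⟩),.k,.k,⟨false,1,⟨0,[(0,0)]⟩,⟨0,[(9,0),(10,0),(5,0)]⟩⟩,
  ⟨true,0,⟨0,[(19,0)]⟩,⟨0,[(4,0),(15,0)]⟩⟩,⟨true,0,⟨0,[(31,0)]⟩,⟨0,[]⟩⟩,⟨false,0,⟨0,[(9,0),(9,0),(0,
  0),(5,0)]⟩,⟨0,[(1,0),(3,0)]⟩⟩,⟨false,0,⟨0,[]⟩,⟨0,[]⟩⟩,⟨false,0,⟨0,[]⟩,⟨0,[]⟩⟩,[.o ⟨false,0,⟨0,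
  [(26,0)]⟩,⟨9,[(2,5),(0,3),(8,1),(5,1),(2,0),(7,2)]⟩⟩,.o ⟨false,1,⟨3,[(13,0),(0,0),(11,3),(2,1)]⟩,
  ⟨0,[(2,0)]⟩⟩,.o ⟨false,1,⟨1,[(20,1),(0,0),(6,0)]⟩,⟨0,[(6,0)]⟩⟩,.a ⟨true,0,⟨0,[(20,0)]⟩,⟨0,[(19,
  0)]⟩⟩ ⟨false,1,⟨1,[(17,0),(10,0)]⟩,⟨0,[(9,0),(10,0)]⟩⟩ ⟨true,0,⟨0,[(19,0),(6,0)]⟩,⟨0,[(5,0)]⟩⟩]⟩)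
  (.I [0,1,1,1,0,0,-1] (.R ⟨0,false,false,false,[1,0,-1],[1,-1],[0,1,0,0,0,0,-1],(⟨0,[(20,0)]⟩,⟨0,
  [(21,0)]⟩),(⟨0,[(23,0)]⟩,⟨0,[(24,0)]⟩),⟨0,[(9,0)]⟩,.k,.k,(.x (-1) ⟨3,[(14,0),(0,0),(6,1),(0,3)]⟩
  ⟨0,[(24,0)]⟩),(.x (-1) ⟨0,[(24,0),(4,0)]⟩ ⟨0,[(13,0),(9,0)]⟩),.k,.k,⟨true,0,⟨0,[(0,0)]⟩,⟨0,[(8,0),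
  (19,0)]⟩⟩,⟨false,0,⟨0,[(7,0)]⟩,⟨0,[(21,0),(7,0)]⟩⟩,⟨true,0,⟨0,[(32,0)]⟩,⟨0,[]⟩⟩,⟨false,0,⟨0,[(10,
  0),(17,0)]⟩,⟨0,[(11,0),(15,0)]⟩⟩,⟨false,0,⟨0,[]⟩,⟨0,[]⟩⟩,⟨false,0,⟨0,[]⟩,⟨0,[]⟩⟩,[.o ⟨false,0,⟨0,
  [(3,0)]⟩,⟨3,[(14,0),(0,0),(11,3),(2,1)]⟩⟩,.o ⟨false,1,⟨9,[(3,5),(0,3),(8,1),(5,1),(2,0),(7,2)]⟩,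
  ⟨0,[(27,0)]⟩⟩,.o ⟨false,1,⟨1,[(21,1),(0,0),(6,0)]⟩,⟨0,[(7,0)]⟩⟩,.a ⟨true,0,⟨0,[(21,0)]⟩,⟨0,[(20,
  0)]⟩⟩ ⟨false,1,⟨1,[(18,0),(10,0)]⟩,⟨4,[(1,0),(6,1),(10,0),(6,2),(1,0)]⟩⟩ ⟨true,0,⟨0,[(3,0),(16,
  0)]⟩,⟨0,[(21,0),(5,0)]⟩⟩]⟩) (.Q [0,0,-1,0,0,0,0,-1,1,0,-1] (.p false [0,0,0,1] [1] (⟨0,[(17,0)]⟩,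
  ⟨1,[(16,0),(3,0),(0,0)]⟩) .k 1 (⟨0,[]⟩,⟨0,[]⟩) .k .k) (.R ⟨2,false,false,false,[0,1],[1,0,0,-1],
  [0,0,1,0,0,0,0,-1],(⟨0,[]⟩,⟨0,[]⟩),(⟨1,[(17,0),(3,0),(0,0)]⟩,⟨0,[(18,0)]⟩),⟨0,[]⟩,.k,.k,.k,(.r
  (-1) ⟨3,[(2,1),(12,0),(0,2),(2,0),(8,1),(2,0)]⟩ ⟨0,[(0,0),(3,0),(13,0)]⟩),.k,.k,⟨true,0,⟨0,[(32,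
  0)]⟩,⟨0,[]⟩⟩,⟨false,1,⟨1,[(16,0),(1,1),(4,0)]⟩,⟨0,[(0,0)]⟩⟩,⟨false,0,⟨0,[(0,0),(3,0),(13,0),(8,
  0)]⟩,⟨1,[(16,0),(11,1),(2,0)]⟩⟩,⟨true,0,⟨0,[(4,0),(13,0)]⟩,⟨1,[(17,0),(3,0),(0,0),(5,1)]⟩⟩,⟨false,
  0,⟨0,[(0,0),(1,0),(0,0),(0,0),(13,0)]⟩,⟨3,[(15,0),(0,2)]⟩⟩,⟨false,1,⟨1,[(18,1),(4,0),(7,0)]⟩,⟨1,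
  [(17,0),(3,0),(0,0)]⟩⟩,[.a ⟨true,0,⟨0,[(18,0)]⟩,⟨1,[(17,0),(3,0),(0,0)]⟩⟩ ⟨false,0,⟨0,[(0,0),(5,
  0),(11,0)]⟩,⟨1,[(16,0),(13,0)]⟩⟩ ⟨true,0,⟨0,[(6,0),(11,0)]⟩,⟨1,[(17,0),(3,0),(0,0)]⟩⟩,.o ⟨false,1,
  ⟨1,[(18,1),(4,0),(7,0)]⟩,⟨1,[(13,0),(3,0),(10,0)]⟩⟩,.o ⟨false,1,⟨3,[(15,0),(0,0),(13,1)]⟩,⟨0,[(6,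
  0)]⟩⟩,.e ⟨false,0,⟨0,[(0,0),(1,0),(0,0),(0,0),(13,0)]⟩,⟨3,[(15,0),(0,2)]⟩⟩ ⟨false,1,⟨1,[(18,1),(4,
  0),(7,0)]⟩,⟨1,[(17,0),(3,0),(0,0)]⟩⟩]⟩) (.Q [0,0,0,0,0,0,0,1,0,0,1] (.p true [0,0,0,1] [] (⟨0,
  [(18,0)]⟩,⟨1,[(17,0),(3,0),(0,0)]⟩) .k 0 (⟨0,[]⟩,⟨0,[]⟩) .k .k) (.Q [0,0,-1,0,0,0,0,1,0,0,1] (.p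
  true [0,0,0,1] [] (⟨0,[(19,0)]⟩,⟨1,[(18,0),(3,0),(0,0)]⟩) .k 0 (⟨0,[]⟩,⟨0,[]⟩) .k .k) (.R ⟨2,
  false,false,false,[0,1],[0,0,0,1],[0,0,1,0,0,0,0,1],(⟨0,[]⟩,⟨0,[]⟩),(⟨0,[(20,0)]⟩,⟨1,[(19,0),(3,
  0),(0,0)]⟩),⟨0,[]⟩,.k,.k,.k,(.r (-1) ⟨3,[(4,1),(12,2),(0,0),(2,0),(8,1),(2,0)]⟩ ⟨1,[(0,1),(5,0),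
  (12,0),(11,0)]⟩),.k,.k,⟨true,0,⟨0,[(34,0)]⟩,⟨0,[]⟩⟩,⟨false,1,⟨7,[(17,4),(0,0),(0,3),(5,1)]⟩,⟨0,
  [(0,0)]⟩⟩,⟨false,0,⟨1,[(0,1),(5,0),(12,0),(9,1),(1,0)]⟩,⟨1,[(17,0),(12,1),(2,0)]⟩⟩,⟨true,0,⟨1,[(6,
  0),(12,0),(11,0)]⟩,⟨0,[(20,0),(9,0)]⟩⟩,⟨false,0,⟨1,[(0,1),(3,0),(0,0),(0,0),(12,0),(9,0)]⟩,⟨3,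
  [(17,2),(0,0)]⟩⟩,⟨false,1,⟨7,[(17,0),(0,0),(0,3),(5,1),(7,3)]⟩,⟨0,[(20,0)]⟩⟩,[.a ⟨true,0,⟨1,[(19,
  0),(3,0),(0,0)]⟩,⟨0,[(20,0)]⟩⟩ ⟨false,0,⟨1,[(0,0),(1,0),(16,0)]⟩,⟨1,[(17,0),(14,0)]⟩⟩ ⟨true,0,⟨1,
  [(16,0),(2,0)]⟩,⟨0,[(20,0)]⟩⟩,.o ⟨false,1,⟨7,[(17,0),(0,0),(0,3),(5,1),(7,3)]⟩,⟨0,[(6,0),(13,0),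
  (9,0)]⟩⟩,.o ⟨false,1,⟨3,[(17,0),(0,0),(13,1)]⟩,⟨0,[(8,0)]⟩⟩,.e ⟨false,0,⟨1,[(0,1),(3,0),(0,0),(0,
  0),(12,0),(9,0)]⟩,⟨3,[(17,2),(0,0)]⟩⟩ ⟨false,1,⟨7,[(17,0),(0,0),(0,3),(5,1),(7,3)]⟩,⟨0,[(20,
  0)]⟩⟩]⟩) (.I [0,0,1,1,0,0,0,-1] (.K ⟨0,[0,0,0,1],0,0,(⟨0,[(21,0)]⟩,⟨1,[(20,0),(3,0),(0,0)]⟩),.k,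
  (.r (-1) ⟨11,[(4,2),(3,4),(10,5),(3,0),(5,3),(2,3)]⟩ ⟨0,[(0,0)]⟩),(.r 0 ⟨1,[(2,0),(0,0),(1,0),(0,
  0),(13,0),(10,0)]⟩ ⟨11,[(4,2),(3,4),(9,5),(4,0),(5,3),(2,3)]⟩),.k,.k,[⟨0,[(2,0),(32,0)]⟩,⟨0,[(1,
  0)]⟩,⟨0,[(21,0),(14,0)]⟩,⟨1,[(16,0),(3,0),(10,0)]⟩]⟩) (.R ⟨2,false,false,false,[0,1],[1,0,0,-1],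
  [],(⟨0,[]⟩,⟨0,[]⟩),(⟨1,[(20,0),(3,0),(0,0)]⟩,⟨0,[(21,0)]⟩),⟨0,[]⟩,.k,.k,.k,(.r 0 ⟨3,[(0,1),(4,3),
  (0,1),(12,0),(2,0),(8,1)]⟩ ⟨11,[(4,2),(3,4),(9,5),(4,0),(5,3),(2,3)]⟩),.k,.k,⟨true,0,⟨7,[(0,5),(4,
  3),(0,1),(12,0),(2,0),(8,1)]⟩,⟨0,[(1,0),(19,0)]⟩⟩,⟨false,0,⟨0,[(0,0),(4,0),(0,0),(0,0),(13,0),(9,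
  0)]⟩,⟨1,[(18,0),(1,0),(3,0),(0,0),(7,0)]⟩⟩,⟨false,1,⟨3,[(4,0),(3,2),(14,0)]⟩,⟨3,[(5,1),(16,0),(8,
  1),(2,0)]⟩⟩,⟨true,0,⟨0,[(7,0),(13,0)]⟩,⟨1,[(20,0),(3,0),(0,0),(5,1)]⟩⟩,⟨false,1,⟨1,[(33,0),(0,
  0)]⟩,⟨0,[(35,0)]⟩⟩,⟨false,1,⟨1,[(21,1),(4,0),(7,0)]⟩,⟨1,[(20,0),(3,0),(0,0)]⟩⟩,[.a ⟨true,0,⟨0,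
  [(21,0)]⟩,⟨1,[(20,0),(3,0),(0,0)]⟩⟩ ⟨false,1,⟨3,[(18,0),(0,0),(13,1)]⟩,⟨0,[]⟩⟩ ⟨true,0,⟨0,[(9,0),
  (11,0)]⟩,⟨1,[(20,0),(3,0),(0,0)]⟩⟩,.o ⟨false,1,⟨1,[(21,1),(4,0),(7,0)]⟩,⟨1,[(16,0),(3,0),(10,
  0)]⟩⟩,.o ⟨false,1,⟨3,[(18,0),(0,0),(13,1)]⟩,⟨0,[(9,0)]⟩⟩,.e ⟨false,1,⟨1,[(33,0),(0,0)]⟩,⟨0,[(35,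
  0)]⟩⟩ ⟨false,1,⟨1,[(21,1),(4,0),(7,0)]⟩,⟨1,[(20,0),(3,0),(0,0)]⟩⟩]⟩))) (.R ⟨2,false,false,false,
  [0,1],[0,0,0,1],[],(⟨0,[]⟩,⟨0,[]⟩),(⟨0,[(19,0)]⟩,⟨1,[(18,0),(3,0),(0,0)]⟩),⟨0,[]⟩,.k,.k,.k,(.r 0
  ⟨5,[(0,3),(2,3),(0,1),(11,0),(2,3),(0,0),(8,1)]⟩ ⟨11,[(2,2),(3,4),(10,5),(3,0),(5,3),(2,3)]⟩),.k,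
  .k,⟨true,0,⟨0,[(0,0),(18,0)]⟩,⟨1,[(1,1),(16,0),(3,0),(0,0)]⟩⟩,⟨false,0,⟨0,[(0,0)]⟩,⟨1,[(17,0),(1,
  1),(11,0)]⟩⟩,⟨false,1,⟨3,[(2,0),(3,2),(14,0)]⟩,⟨3,[(3,1),(16,0),(8,1),(2,0)]⟩⟩,⟨true,0,⟨1,[(5,0),
  (12,0),(11,0)]⟩,⟨0,[(19,0),(9,0)]⟩⟩,⟨false,1,⟨1,[(31,0),(0,0)]⟩,⟨0,[(33,0)]⟩⟩,⟨false,1,⟨7,[(16,0),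
  (0,0),(0,3),(5,1),(7,3)]⟩,⟨0,[(19,0)]⟩⟩,[.a ⟨true,0,⟨1,[(18,0),(3,0),(0,0)]⟩,⟨0,[(19,0)]⟩⟩ ⟨false,
  1,⟨3,[(16,0),(0,0),(13,1)]⟩,⟨0,[]⟩⟩ ⟨true,0,⟨1,[(15,0),(2,0)]⟩,⟨0,[(19,0)]⟩⟩,.o ⟨false,1,⟨7,[(16,
  0),(0,0),(0,3),(5,1),(7,3)]⟩,⟨0,[(5,0),(13,0),(9,0)]⟩⟩,.o ⟨false,1,⟨3,[(16,0),(0,0),(13,1)]⟩,⟨0,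
  [(7,0)]⟩⟩,.e ⟨false,1,⟨1,[(31,0),(0,0)]⟩,⟨0,[(33,0)]⟩⟩ ⟨false,1,⟨7,[(16,0),(0,0),(0,3),(5,1),(7,
  3)]⟩,⟨0,[(19,0)]⟩⟩]⟩))))))) (.I [0,0,-1,-1,0,0,1] (.R ⟨0,false,false,false,[1,0,-1],[1,-1],[0,1,0,
  0,0,0,-1],(⟨0,[(17,0)]⟩,⟨0,[(18,0)]⟩),(⟨0,[(20,0)]⟩,⟨0,[(21,0)]⟩),⟨0,[(6,0)]⟩,.k,.k,(.x (-1) ⟨3,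
  [(11,0),(0,0),(6,1),(0,3)]⟩ ⟨0,[(21,0)]⟩),(.r (-1) ⟨1,[(15,0),(8,1),(2,0),(0,1)]⟩ ⟨0,[(0,0)]⟩),.k,
  .k,⟨true,0,⟨0,[(1,0),(13,0)]⟩,⟨0,[(5,0),(19,0)]⟩⟩,⟨false,0,⟨0,[(4,0)]⟩,⟨0,[(18,0),(7,0)]⟩⟩,⟨true,
  0,⟨0,[(29,0)]⟩,⟨0,[]⟩⟩,⟨false,0,⟨0,[(7,0),(17,0)]⟩,⟨0,[(8,0),(15,0)]⟩⟩,⟨false,0,⟨0,[]⟩,⟨0,[]⟩⟩,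
  ⟨false,0,⟨0,[]⟩,⟨0,[]⟩⟩,[.a ⟨true,0,⟨0,[(25,0)]⟩,⟨0,[(1,0),(6,0),(8,0)]⟩⟩ ⟨false,1,⟨7,[(11,0),(0,
  0),(2,3),(6,3),(3,1)]⟩,⟨0,[(5,0)]⟩⟩ ⟨true,0,⟨0,[(4,0),(20,0)]⟩,⟨0,[(1,0),(6,0)]⟩⟩,.o ⟨false,1,⟨0,
  [(9,0),(17,0)]⟩,⟨0,[(24,0)]⟩⟩,.o ⟨false,1,⟨1,[(18,1),(0,0),(6,0)]⟩,⟨0,[(4,0)]⟩⟩,.e ⟨false,1,⟨1,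
  [(15,0),(10,0)]⟩,⟨4,[(1,0),(3,1),(10,0),(6,3),(1,0)]⟩⟩ ⟨false,1,⟨0,[(9,0),(7,0),(9,0)]⟩,⟨0,[(1,0),
  (6,0)]⟩⟩]⟩) (.R ⟨0,false,false,true,[1,0,-1],[0,1],[1,1],(⟨0,[(17,0)]⟩,⟨0,[(18,0)]⟩),(⟨0,[(21,
  0)]⟩,⟨0,[(20,0)]⟩),⟨0,[(6,0)]⟩,.k,.k,(.x (-1) ⟨3,[(11,0),(0,0),(6,1),(0,3)]⟩ ⟨0,[(21,0)]⟩),(.x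
  (-1) ⟨3,[(11,0),(0,0),(6,1),(0,3)]⟩ ⟨0,[(21,0)]⟩),.k,.k,⟨false,1,⟨0,[(25,0),(0,0)]⟩,⟨5,[(0,3),(0,
  1),(14,0),(10,0)]⟩⟩,⟨true,0,⟨0,[(17,0)]⟩,⟨0,[(2,0),(15,0)]⟩⟩,⟨false,0,⟨5,[(1,0),(3,2),(10,0),(5,
  0),(2,0)]⟩,⟨1,[(15,0),(11,0)]⟩⟩,⟨true,(-1),⟨0,[(1,0),(15,0)]⟩,⟨0,[(8,0),(0,0)]⟩⟩,⟨false,0,⟨0,[]⟩,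
  ⟨0,[]⟩⟩,⟨false,0,⟨0,[]⟩,⟨0,[]⟩⟩,[.o ⟨false,0,⟨0,[(24,0)]⟩,⟨0,[(9,0),(17,0)]⟩⟩,.e ⟨true,0,⟨0,[]⟩,
  ⟨0,[(28,0)]⟩⟩ ⟨true,0,⟨5,[(0,3),(0,1),(14,0),(0,5),(9,0)]⟩,⟨0,[(3,0)]⟩⟩,.o ⟨false,1,⟨1,[(18,1),(0,
  0),(6,0)]⟩,⟨0,[(4,0)]⟩⟩,.a ⟨true,0,⟨0,[(18,0)]⟩,⟨0,[(17,0)]⟩⟩ ⟨false,1,⟨3,[(11,0),(0,0),(13,1)]⟩,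
  ⟨0,[(0,0),(4,0),(19,0)]⟩⟩ ⟨true,0,⟨0,[(17,0),(6,0)]⟩,⟨0,[(3,0)]⟩⟩]⟩)))

def t8 : Tre :=
  (.I [0,1,0,0,0,0,-1] (.Q [0,-1,1,1,0,0,1,0,1,-1] (.p false [0,0,1] [1] (⟨0,[(13,0)]⟩,⟨0,[(12,
  0)]⟩) .k 1 (⟨0,[]⟩,⟨0,[]⟩) .k .k) t6 (.K ⟨0,[-1,1,1],0,0,(⟨0,[(2,0)]⟩,⟨0,[(13,0),(2,0)]⟩),(.x 0
  ⟨0,[(17,0)]⟩ ⟨3,[(7,0),(0,0),(6,1),(0,3)]⟩),.k,(.r 0 ⟨0,[(3,0),(10,0),(4,0),(0,1)]⟩ ⟨1,[(0,1),(12,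
  1),(7,1),(0,0),(0,0)]⟩),.k,.k,[⟨0,[(0,0),(2,0),(10,0),(4,0),(0,0)]⟩,⟨0,[(13,0),(10,0)]⟩,⟨0,[(0,
  0)]⟩,⟨0,[(3,0),(9,0),(0,0),(5,0),(4,0)]⟩]⟩)) (.Q [0,0,1,0,0,0,0,0,0,-1] (.p false [0,0,1] [] (⟨0,
  [(13,0)]⟩,⟨0,[(12,0)]⟩) .k 0 (⟨0,[]⟩,⟨0,[]⟩) .k .k) (.Q [0,0,0,-1,0,0,0,0,-1,1] (.p true [0,0,1]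
  [1] (⟨0,[(14,0)]⟩,⟨0,[(13,0)]⟩) .k 1 (⟨0,[]⟩,⟨0,[]⟩) .k .k) (.Q [0,0,-1,0,0,0,0,0,1] (.pp false
  [-1,1]) (.R ⟨0,false,false,false,[1,0,-1],[0,1],[0,1,0,0,0,0,-1],(⟨0,[(15,0)]⟩,⟨0,[(16,0)]⟩),(⟨0,
  [(19,0)]⟩,⟨0,[(18,0)]⟩),⟨0,[(4,0)]⟩,.k,.k,(.x (-1) ⟨3,[(9,0),(0,0),(6,1),(0,3)]⟩ ⟨0,[(19,0)]⟩),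
  (.x (-1) ⟨3,[(9,0),(0,0),(6,1),(0,3)]⟩ ⟨0,[(19,0)]⟩),.k,.k,⟨false,1,⟨1,[(0,1),(6,1),(5,0),(10,
  0)]⟩,⟨0,[(3,0),(17,0),(0,0)]⟩⟩,⟨true,0,⟨0,[(15,0)]⟩,⟨0,[(1,0),(19,0),(0,0)]⟩⟩,⟨true,0,⟨0,[(27,
  0)]⟩,⟨0,[]⟩⟩,⟨false,0,⟨0,[(0,0),(4,0),(15,0),(0,0)]⟩,⟨0,[(6,0),(0,0)]⟩⟩,⟨false,0,⟨0,[]⟩,⟨0,[]⟩⟩,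
  ⟨false,0,⟨0,[]⟩,⟨0,[]⟩⟩,[.a ⟨true,0,⟨0,[(0,0),(20,0),(0,0)]⟩,⟨0,[(23,0)]⟩⟩ ⟨false,1,⟨7,[(9,0),(0,
  0),(2,3),(6,3),(3,1)]⟩,⟨0,[(3,0)]⟩⟩ ⟨true,0,⟨0,[(15,0),(5,0),(0,0)]⟩,⟨0,[(1,0)]⟩⟩,.o ⟨false,1,⟨0,
  [(22,0),(2,0)]⟩,⟨0,[(7,0)]⟩⟩,.o ⟨false,1,⟨1,[(16,1),(0,0),(6,0)]⟩,⟨0,[(2,0)]⟩⟩,.e ⟨false,1,⟨1,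
  [(13,0),(10,0)]⟩,⟨0,[(5,0),(10,0)]⟩⟩ ⟨false,1,⟨0,[(15,0),(6,0),(2,0)]⟩,⟨0,[(1,0)]⟩⟩]⟩) t7) (.I [0,
  -1,-2,-2,1] (.Q [0,0,1,0,0,0,0,0,-1,1] (.p true [0,0,1] [1] (⟨0,[(16,0)]⟩,⟨0,[(15,0)]⟩) .k 1 (⟨0,
  []⟩,⟨0,[]⟩) .k .k) (.I [0,1,-2,-1,1,0,-1] (.R ⟨0,false,false,false,[1,0,-1],[0,1],[0,1,0,0,0,0,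
  -1],(⟨0,[(17,0)]⟩,⟨0,[(18,0)]⟩),(⟨0,[(21,0)]⟩,⟨0,[(20,0)]⟩),⟨0,[(6,0)]⟩,.k,.k,(.x (-1) ⟨3,[(11,0),
  (0,0),(6,1),(0,3)]⟩ ⟨0,[(21,0)]⟩),(.x (-1) ⟨3,[(11,0),(0,0),(6,1),(0,3)]⟩ ⟨0,[(21,0)]⟩),.k,.k,
  ⟨false,1,⟨0,[(0,0)]⟩,⟨0,[(5,0),(17,0),(0,0)]⟩⟩,⟨true,0,⟨0,[(17,0)]⟩,⟨0,[(1,0)]⟩⟩,⟨true,0,⟨0,[(29,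
  0)]⟩,⟨0,[]⟩⟩,⟨false,0,⟨0,[(3,0),(3,0),(10,0)]⟩,⟨0,[(8,0),(0,0)]⟩⟩,⟨false,0,⟨0,[]⟩,⟨0,[]⟩⟩,⟨false,
  0,⟨0,[]⟩,⟨0,[]⟩⟩,[.e ⟨false,1,⟨7,[(0,3),(10,0),(0,0),(2,1),(8,3)]⟩,⟨0,[(5,0)]⟩⟩ ⟨false,0,⟨0,[(3,
  0)]⟩,⟨11,[(0,1),(1,3),(6,1),(6,0),(1,11),(0,4)]⟩⟩,.o ⟨false,1,⟨0,[(24,0),(2,0)]⟩,⟨0,[(9,0)]⟩⟩,.o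
  ⟨false,1,⟨1,[(18,1),(0,0),(6,0)]⟩,⟨0,[(4,0)]⟩⟩,.a ⟨true,0,⟨0,[(18,0)]⟩,⟨0,[(17,0)]⟩⟩ ⟨false,1,⟨1,
  [(15,0),(10,0)]⟩,⟨0,[(7,0),(10,0)]⟩⟩ ⟨true,0,⟨0,[(3,0)]⟩,⟨0,[(9,0),(8,0)]⟩⟩]⟩) (.K ⟨0,[-1,1,1],0,
  (-1),(⟨0,[(6,0)]⟩,⟨0,[(17,0),(2,0)]⟩),(.x 0 ⟨0,[(21,0)]⟩ ⟨3,[(11,0),(0,0),(6,1),(0,3)]⟩),.k,(.r 1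
  ⟨0,[(0,0),(23,0)]⟩ ⟨19,[(2,15),(8,6),(0,6),(2,9),(6,7),(2,7)]⟩),.k,.k,[⟨0,[(1,0)]⟩,⟨0,[(17,0),(10,
  0)]⟩,⟨11,[(8,7),(0,11),(1,0),(0,0),(2,1),(2,3),(3,3)]⟩,⟨0,[(0,0),(16,0),(4,0)]⟩]⟩)) (.Q [0,-1,1,
  -1,0,0,1,0,-1,-1] (.p false [1,-1,1] [] (⟨0,[(17,0),(1,0)]⟩,⟨0,[(0,0),(2,0),(1,0)]⟩) (.r 0 ⟨0,[(0,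
  0),(3,0),(3,0),(8,0)]⟩ ⟨1,[(14,0),(8,1),(2,0),(0,1)]⟩) 0 (⟨0,[]⟩,⟨0,[]⟩) .k .k) (.R ⟨0,false,
  false,false,[1,-1],[1,-1,1],[1],(⟨0,[(20,0)]⟩,⟨0,[(21,0)]⟩),(⟨0,[(18,0),(1,0)]⟩,⟨0,[(1,0),(2,0),
  (1,0)]⟩),⟨0,[(1,0),(2,0),(1,1)]⟩,.k,(.r 0 ⟨0,[(1,0),(3,0),(3,0),(8,0)]⟩ ⟨1,[(15,0),(8,1),(2,0),(0,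
  1)]⟩),(.r (-1) ⟨9,[(2,7),(8,0),(0,0),(9,3),(2,3)]⟩ ⟨0,[(23,1),(0,1)]⟩),.k,.k,.k,⟨false,1,⟨1,[(15,
  0),(8,1),(2,0)]⟩,⟨0,[(1,0),(3,0),(3,0),(8,0)]⟩⟩,⟨true,0,⟨0,[(4,0)]⟩,⟨0,[(18,0)]⟩⟩,⟨true,0,⟨0,[(23,
  0),(0,0)]⟩,⟨0,[(1,0),(7,0),(8,0)]⟩⟩,⟨false,0,⟨0,[(7,0)]⟩,⟨11,[(8,7),(2,0),(0,0),(2,1),(2,3),(3,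
  3)]⟩⟩,⟨false,0,⟨0,[]⟩,⟨0,[]⟩⟩,⟨false,0,⟨0,[]⟩,⟨0,[]⟩⟩,[.o ⟨false,0,⟨0,[(7,0),(1,0)]⟩,⟨0,[(8,0),
  (15,0)]⟩⟩,.o ⟨false,0,⟨0,[(0,0)]⟩,⟨11,[(8,7),(2,0),(0,0),(2,1),(2,3),(3,3),(1,11)]⟩⟩,.a ⟨true,0,
  ⟨0,[(28,0)]⟩,⟨0,[(1,0),(16,0)]⟩⟩ ⟨true,0,⟨0,[]⟩,⟨0,[(29,0)]⟩⟩ ⟨false,0,⟨1,[(0,0),(0,0),(3,0),(19,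
  0)]⟩,⟨1,[(15,0),(2,1),(5,1),(2,0)]⟩⟩,.o ⟨false,0,⟨0,[(10,0)]⟩,⟨0,[(26,0)]⟩⟩]⟩) (.R ⟨0,false,false,
  false,[1,-1],[1,-1,1],[],(⟨0,[(20,0)]⟩,⟨0,[(21,0)]⟩),(⟨0,[(18,0),(1,0)]⟩,⟨0,[(1,0),(2,0),(1,0)]⟩),
  ⟨0,[(1,0),(2,0),(1,1)]⟩,.k,(.r 0 ⟨1,[(0,0),(0,0),(3,2),(3,1),(15,0)]⟩ ⟨5,[(0,1),(2,1),(6,3),(0,0),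
  (0,0),(2,1),(8,1),(2,1)]⟩),(.r (-1) ⟨9,[(2,7),(8,0),(0,0),(9,3),(2,3)]⟩ ⟨0,[(23,1),(0,1)]⟩),.k,.k,
  .k,⟨false,1,⟨1,[(15,0),(8,1),(2,0)]⟩,⟨1,[(0,0),(0,0),(3,2),(3,1),(15,0)]⟩⟩,⟨true,0,⟨0,[(4,0)]⟩,⟨0,
  [(18,0)]⟩⟩,⟨true,0,⟨0,[(23,0),(0,0)]⟩,⟨1,[(0,0),(0,0),(3,0),(3,1),(15,0)]⟩⟩,⟨false,0,⟨0,[(7,0)]⟩,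
  ⟨5,[(0,1),(7,3),(0,1),(1,0),(0,0)]⟩⟩,⟨false,0,⟨0,[]⟩,⟨0,[]⟩⟩,⟨false,0,⟨0,[]⟩,⟨0,[]⟩⟩,[.o ⟨false,0,
  ⟨0,[(7,0),(1,0)]⟩,⟨1,[(0,1),(18,0),(7,0)]⟩⟩,.a ⟨true,0,⟨0,[(7,0),(17,0)]⟩,⟨0,[(0,0)]⟩⟩ ⟨false,1,
  ⟨1,[(26,0),(0,0)]⟩,⟨0,[(29,0)]⟩⟩ ⟨true,0,⟨0,[(1,0),(3,0),(3,0),(13,0)]⟩,⟨0,[(0,0),(9,0)]⟩⟩,.e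
  ⟨false,1,⟨3,[(11,0),(0,0),(14,1)]⟩,⟨0,[]⟩⟩ ⟨false,0,⟨0,[(1,0),(3,0),(3,0),(13,0)]⟩,⟨7,[(0,7),(9,
  3),(0,0),(0,0),(6,1),(7,3)]⟩⟩,.o ⟨false,0,⟨0,[(10,0)]⟩,⟨0,[(26,0)]⟩⟩]⟩))) (.I [1,1,0,-1,0,0,-1]
  (.R ⟨0,false,false,false,[1,0,-1],[0,1],[0,1,0,0,0,0,-1],(⟨0,[(16,0)]⟩,⟨0,[(17,0)]⟩),(⟨0,[(20,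
  0)]⟩,⟨0,[(19,0)]⟩),⟨0,[(5,0)]⟩,.k,.k,(.x (-1) ⟨3,[(10,0),(0,0),(6,1),(0,3)]⟩ ⟨0,[(20,0)]⟩),(.x
  (-1) ⟨3,[(10,0),(0,0),(6,1),(0,3)]⟩ ⟨0,[(20,0)]⟩),.k,.k,⟨false,1,⟨0,[(0,0),(24,0)]⟩,⟨7,[(1,3),(2,
  5),(10,0),(10,2)]⟩⟩,⟨true,0,⟨0,[(16,0)]⟩,⟨1,[(1,0),(2,0),(2,0),(0,1),(8,0),(4,0)]⟩⟩,⟨true,0,⟨6,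
  [(0,1),(0,0),(13,0),(5,1)]⟩,⟨0,[]⟩⟩,⟨false,0,⟨4,[(1,0),(0,2),(1,2),(10,0),(0,1),(5,2)]⟩,⟨0,[(7,0),
  (0,0)]⟩⟩,⟨false,0,⟨0,[]⟩,⟨0,[]⟩⟩,⟨false,0,⟨0,[]⟩,⟨0,[]⟩⟩,[.e ⟨false,1,⟨7,[(10,0),(0,0),(2,3),(6,
  3),(3,1)]⟩,⟨0,[(4,0)]⟩⟩ ⟨false,0,⟨0,[(2,0)]⟩,⟨5,[(4,1),(2,3),(0,5),(6,0),(1,1),(7,0)]⟩⟩,.o ⟨false,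
  1,⟨0,[(23,0),(2,0)]⟩,⟨0,[(8,0)]⟩⟩,.o ⟨false,1,⟨1,[(17,1),(0,0),(6,0)]⟩,⟨0,[(3,0)]⟩⟩,.a ⟨true,0,⟨0,
  [(17,0)]⟩,⟨0,[(16,0)]⟩⟩ ⟨false,1,⟨1,[(14,0),(10,0)]⟩,⟨0,[(6,0),(10,0)]⟩⟩ ⟨true,0,⟨0,[(2,0)]⟩,⟨0,
  [(8,0),(8,0)]⟩⟩]⟩) (.Q [0,0,0,1,0,0,0,0,0,1] (.p true [0,0,1] [] (⟨0,[(17,0)]⟩,⟨0,[(16,0)]⟩) .k 0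
  (⟨0,[]⟩,⟨0,[]⟩) .k .k) (.R ⟨0,false,false,false,[1,0,-1],[1,-1],[0,1,0,0,0,0,-1],(⟨0,[(17,0)]⟩,⟨0,
  [(18,0)]⟩),(⟨0,[(20,0)]⟩,⟨0,[(21,0)]⟩),⟨0,[(6,0)]⟩,.k,.k,(.x (-1) ⟨3,[(11,0),(0,0),(6,1),(0,3)]⟩
  ⟨0,[(21,0)]⟩),(.x (-1) ⟨0,[(21,0),(4,0)]⟩ ⟨0,[(10,0),(9,0)]⟩),.k,.k,⟨true,0,⟨1,[(2,0),(12,0),(13,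
  0)]⟩,⟨0,[(5,0),(19,0)]⟩⟩,⟨false,0,⟨0,[(4,0)]⟩,⟨0,[(18,0),(7,0)]⟩⟩,⟨true,0,⟨0,[(29,0)]⟩,⟨0,[]⟩⟩,
  ⟨false,0,⟨0,[(7,0),(17,0)]⟩,⟨0,[(8,0),(15,0)]⟩⟩,⟨false,0,⟨0,[]⟩,⟨0,[]⟩⟩,⟨false,0,⟨0,[]⟩,⟨0,[]⟩⟩,
  [.a ⟨true,0,⟨0,[(25,0)]⟩,⟨0,[(0,0),(16,0)]⟩⟩ ⟨false,1,⟨7,[(11,0),(0,0),(2,3),(6,3),(3,1)]⟩,⟨0,[(5,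
  0)]⟩⟩ ⟨true,0,⟨0,[(4,0),(20,0)]⟩,⟨0,[(0,0)]⟩⟩,.o ⟨false,1,⟨0,[(9,0),(17,0)]⟩,⟨0,[(24,0)]⟩⟩,.o
  ⟨false,1,⟨1,[(18,1),(0,0),(6,0)]⟩,⟨0,[(4,0)]⟩⟩,.e ⟨false,1,⟨1,[(15,0),(10,0)]⟩,⟨0,[(7,0),(10,
  0)]⟩⟩ ⟨false,1,⟨0,[(9,0),(7,0),(9,0)]⟩,⟨0,[(0,0)]⟩⟩]⟩) (.R ⟨0,false,false,false,[1,0,-1],[1,-1],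
  [0,1,0,0,0,0,-1],(⟨0,[(17,0)]⟩,⟨0,[(18,0)]⟩),(⟨0,[(20,0)]⟩,⟨0,[(21,0)]⟩),⟨0,[(6,0)]⟩,.k,.k,(.x
  (-1) ⟨3,[(11,0),(0,0),(6,1),(0,3)]⟩ ⟨0,[(21,0)]⟩),(.x (-1) ⟨0,[(21,0),(4,0)]⟩ ⟨0,[(10,0),(9,0)]⟩),
  .k,.k,⟨true,0,⟨1,[(2,0),(12,0),(13,0)]⟩,⟨0,[(5,0),(19,0)]⟩⟩,⟨false,0,⟨0,[(4,0)]⟩,⟨0,[(18,0),(7,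
  0)]⟩⟩,⟨true,0,⟨0,[(29,0)]⟩,⟨0,[]⟩⟩,⟨false,0,⟨0,[(7,0),(17,0)]⟩,⟨0,[(8,0),(15,0)]⟩⟩,⟨false,0,⟨0,
  []⟩,⟨0,[]⟩⟩,⟨false,0,⟨0,[]⟩,⟨0,[]⟩⟩,[.e ⟨false,1,⟨7,[(11,0),(0,0),(2,3),(6,3),(3,1)]⟩,⟨0,[(5,
  0)]⟩⟩ ⟨false,0,⟨0,[(0,0)]⟩,⟨4,[(1,0),(6,2),(7,0),(1,1),(5,3),(1,0)]⟩⟩,.o ⟨false,1,⟨0,[(9,0),(17,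
  0)]⟩,⟨0,[(24,0)]⟩⟩,.o ⟨false,1,⟨1,[(18,1),(0,0),(6,0)]⟩,⟨0,[(4,0)]⟩⟩,.a ⟨true,0,⟨0,[(18,0)]⟩,⟨0,
  [(17,0)]⟩⟩ ⟨false,1,⟨1,[(15,0),(10,0)]⟩,⟨0,[(7,0),(10,0)]⟩⟩ ⟨true,0,⟨0,[(0,0)]⟩,⟨0,[(18,0),(5,
  0)]⟩⟩]⟩))))) (.R ⟨2,false,false,false,[0,1],[0,0,1],[0,1],(⟨0,[]⟩,⟨0,[]⟩),(⟨0,[(14,0)]⟩,⟨0,[(13,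
  0)]⟩),⟨0,[]⟩,.k,.k,.k,(.r (-1) ⟨1,[(11,0),(8,1),(2,0),(0,1)]⟩ ⟨0,[(0,0),(0,0),(3,0),(7,0)]⟩),.k,
  .k,⟨false,1,⟨7,[(7,0),(0,0),(2,3),(6,3),(3,1)]⟩,⟨0,[(1,0)]⟩⟩,⟨true,0,⟨0,[(6,0),(6,0)]⟩,⟨0,[(0,
  0)]⟩⟩,⟨true,0,⟨0,[(0,0),(4,0),(7,0)]⟩,⟨0,[(19,0),(0,0)]⟩⟩,⟨false,0,⟨0,[(3,0),(17,0)]⟩,⟨0,[(4,0),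
  (15,0)]⟩⟩,⟨false,1,⟨3,[(7,0),(0,0),(13,1)]⟩,⟨0,[(19,0)]⟩⟩,⟨false,0,⟨0,[(3,0)]⟩,⟨11,[(4,7),(2,0),
  (0,0),(2,1),(2,3),(3,3)]⟩⟩,[.o ⟨false,0,⟨0,[(3,0),(21,0)]⟩,⟨1,[(0,1),(10,0),(3,0)]⟩⟩,.o ⟨false,0,
  ⟨0,[(3,0)]⟩,⟨1,[(0,0),(10,0),(2,0),(0,0),(2,0)]⟩⟩,.a ⟨true,0,⟨0,[(0,0),(12,0)]⟩,⟨0,[(24,0)]⟩⟩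
  ⟨true,0,⟨0,[(25,0)]⟩,⟨0,[]⟩⟩ ⟨false,0,⟨0,[(3,0),(20,0)]⟩,⟨1,[(0,1),(10,0),(10,0)]⟩⟩,.e ⟨false,1,
  ⟨3,[(7,0),(0,0),(13,1)]⟩,⟨0,[(19,0)]⟩⟩ ⟨false,0,⟨0,[(3,0)]⟩,⟨11,[(4,7),(2,0),(0,0),(2,1),(2,3),(3,
  3)]⟩⟩]⟩)))

def t9 : Tre :=
  (.Q [0,1,-1,0,0,0,-1,0,0,1] (.p true [0,0,1] [] (⟨0,[(10,0)]⟩,⟨0,[(9,0)]⟩) .k 0 (⟨0,[]⟩,⟨0,[]⟩)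
  .k .k) (.I [1,0,1,1,0,0,-1] (.Q [0,0,2,0,-1,0,0,0,1,-1] (.p false [0,0,1] [1] (⟨0,[(12,0)]⟩,⟨0,
  [(11,0)]⟩) .k 1 (⟨0,[]⟩,⟨0,[]⟩) .k .k) (.Q [0,0,1,1,0,0,0,0,0,-1] (.p false [0,0,1] [] (⟨0,[(13,
  0)]⟩,⟨0,[(12,0)]⟩) .k 0 (⟨0,[]⟩,⟨0,[]⟩) .k .k) (.Q [0,1,1,0,0,0,1,0,0,-1] (.p false [0,0,1] []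
  (⟨0,[(14,0)]⟩,⟨0,[(13,0)]⟩) .k 0 (⟨0,[]⟩,⟨0,[]⟩) .k .k) (.K ⟨0,[0,0,1],0,0,(⟨0,[(15,0)]⟩,⟨0,[(14,
  0)]⟩),.k,(.r (-1) ⟨1,[(13,0),(8,1),(0,0)]⟩ ⟨0,[(1,0),(2,0),(15,0)]⟩),(.x 0 ⟨0,[(18,0)]⟩ ⟨3,[(8,0),
  (0,0),(6,1),(0,3)]⟩),.k,.k,[⟨0,[(15,0)]⟩,⟨4,[(0,1),(1,2),(4,0),(4,0),(3,0),(7,0)]⟩,⟨0,[(4,0)]⟩,⟨0,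
  [(0,0)]⟩]⟩) (.K ⟨0,[1,0,-1],1,0,(⟨0,[(14,0)]⟩,⟨0,[(15,0)]⟩),.k,(.x (-1) ⟨3,[(8,0),(0,0),(6,1),(0,
  3)]⟩ ⟨0,[(18,0)]⟩),(.r 0 ⟨0,[(0,6),(0,3),(0,2),(3,2),(6,2),(5,1)]⟩ ⟨1,[(13,0),(8,1),(0,0)]⟩),.k,
  .k,[⟨0,[(2,0)]⟩,⟨3,[(8,0),(0,0),(5,3),(0,1)]⟩,⟨7,[(2,5),(5,0),(0,0),(3,3),(0,1),(4,3)]⟩,⟨0,[(0,0),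
  (5,0),(14,0)]⟩]⟩)) (.Q [0,1,-1,0,0,0,-1,0,-1,1] (.p true [0,0,1] [1] (⟨0,[(14,0)]⟩,⟨0,[(13,0)]⟩)
  .k 1 (⟨0,[]⟩,⟨0,[]⟩) .k .k) (.K ⟨0,[1,0,-1],1,0,(⟨0,[(14,0)]⟩,⟨0,[(15,0)]⟩),.k,(.x (-1) ⟨3,[(8,0),
  (0,0),(6,1),(0,3)]⟩ ⟨0,[(18,0)]⟩),(.r 0 ⟨0,[(0,0),(1,0),(18,0),(2,0)]⟩ ⟨1,[(13,0),(8,1),(0,0)]⟩),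
  .k,.k,[⟨0,[(2,0)]⟩,⟨3,[(8,0),(0,0),(5,3),(0,1)]⟩,⟨7,[(2,5),(5,0),(0,0),(3,3),(0,1),(4,3)]⟩,⟨0,[(0,
  0)]⟩]⟩) (.K ⟨0,[0,0,1],0,0,(⟨0,[(15,0)]⟩,⟨0,[(14,0)]⟩),.k,(.x 0 ⟨0,[(7,0),(9,0)]⟩ ⟨0,[(18,0),(4,
  0)]⟩),(.x 0 ⟨0,[(18,0)]⟩ ⟨3,[(8,0),(0,0),(6,1),(0,3)]⟩),.k,.k,[⟨0,[(15,0)]⟩,⟨0,[(7,0),(6,0)]⟩,⟨0,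
  [(4,0)]⟩,⟨0,[(0,0),(5,0),(14,0)]⟩]⟩))) (.Q [0,1,1,0,0,0,1,0,0,-1] (.p false [0,0,1] [] (⟨0,[(13,
  0)]⟩,⟨0,[(12,0)]⟩) .k 0 (⟨0,[]⟩,⟨0,[]⟩) .k .k) (.K ⟨0,[0,0,1],0,0,(⟨0,[(14,0)]⟩,⟨0,[(13,0)]⟩),.k,
  (.x 0 ⟨0,[(6,0),(9,0)]⟩ ⟨0,[(17,0),(4,0)]⟩),(.x 0 ⟨0,[(17,0)]⟩ ⟨3,[(7,0),(0,0),(6,1),(0,3)]⟩),.k,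
  .k,[⟨0,[(14,0)]⟩,⟨0,[(6,0),(6,0)]⟩,⟨0,[(3,0)]⟩,⟨0,[(0,0)]⟩]⟩) (.I [0,0,-1,0,0,0,-1] (.Q [0,0,-1,0,
  0,0,-1,0,-1,1] (.p true [0,0,1] [1] (⟨0,[(15,0)]⟩,⟨0,[(14,0)]⟩) .k 1 (⟨0,[]⟩,⟨0,[]⟩) .k .k) t1
  (.I [0,1,1,0,0,0,1] (.R ⟨2,true,false,false,[0,1],[1,0,-1],[0,1,1],(⟨0,[]⟩,⟨0,[]⟩),(⟨0,[(16,0)]⟩,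
  ⟨0,[(17,0)]⟩),⟨0,[]⟩,.k,.k,.k,(.x 0 ⟨0,[(20,0)]⟩ ⟨3,[(10,0),(0,0),(6,1),(0,3)]⟩),.k,.k,⟨true,0,⟨0,
  [(0,0)]⟩,⟨0,[(2,0),(19,0)]⟩⟩,⟨false,1,⟨5,[(4,1),(1,0),(0,0),(7,0),(1,1),(0,1)]⟩,⟨0,[(16,0)]⟩⟩,
  ⟨false,0,⟨0,[(24,0)]⟩,⟨0,[(23,0),(2,0)]⟩⟩,⟨true,0,⟨0,[(3,0),(4,0)]⟩,⟨0,[(1,0),(21,0)]⟩⟩,⟨true,0,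
  ⟨0,[(28,0)]⟩,⟨0,[]⟩⟩,⟨false,1,⟨1,[(3,0),(3,0),(10,0)]⟩,⟨0,[(1,0)]⟩⟩,[]⟩) (.Q [0,0,0,0,0,1,0,0,0,
  -1] (.ed true [1,-1,1] .k) (.R ⟨0,false,false,false,[0,0,1],[0,1],[1,0,1,1],(⟨0,[(18,0)]⟩,⟨0,[(17,
  0)]⟩),(⟨0,[(21,0)]⟩,⟨0,[(20,0)]⟩),⟨0,[(0,0)]⟩,.k,.k,(.r (-1) ⟨1,[(16,0),(8,1),(0,0)]⟩ ⟨0,[(1,0),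
  (22,0),(3,1)]⟩),(.r (-1) ⟨1,[(16,0),(8,1),(0,0)]⟩ ⟨0,[(1,0),(22,0),(3,1)]⟩),.k,.k,⟨true,0,⟨0,[]⟩,
  ⟨0,[(28,0)]⟩⟩,⟨false,1,⟨0,[(1,0),(2,0),(11,0),(5,0)]⟩,⟨0,[(10,0),(6,0)]⟩⟩,⟨false,0,⟨1,[(1,0),(4,
  0),(16,1),(0,0)]⟩,⟨1,[(16,0),(8,1),(0,0)]⟩⟩,⟨true,0,⟨0,[(4,0),(19,0)]⟩,⟨0,[(2,0),(6,0)]⟩⟩,⟨false,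
  0,⟨0,[]⟩,⟨0,[]⟩⟩,⟨false,0,⟨0,[]⟩,⟨0,[]⟩⟩,[.a ⟨true,0,⟨0,[(2,0),(1,0),(19,0)]⟩,⟨0,[(25,0)]⟩⟩ ⟨true,
  0,⟨0,[(23,0),(0,0)]⟩,⟨0,[(25,0)]⟩⟩ ⟨false,1,⟨1,[(4,1),(11,0),(7,1),(1,0)]⟩,⟨0,[(9,0),(7,0),(5,
  0)]⟩⟩,.o ⟨false,1,⟨0,[(24,0),(2,0)]⟩,⟨0,[(9,0)]⟩⟩,.o ⟨false,0,⟨1,[(1,1),(0,1),(6,0),(0,0),(13,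
  0)]⟩,⟨5,[(5,1),(1,0),(0,0),(7,0),(1,1),(0,1)]⟩⟩,.o ⟨false,0,⟨0,[(10,0),(6,0)]⟩,⟨0,[(5,0)]⟩⟩]⟩)
  (.R ⟨1,false,false,false,[0,0,1],[1,-1],[1],(⟨0,[(18,0)]⟩,⟨0,[(17,0)]⟩),(⟨0,[(20,0)]⟩,⟨0,[(21,
  0)]⟩),⟨0,[(0,0)]⟩,.k,.k,(.r (-1) ⟨1,[(16,0),(8,1),(0,0)]⟩ ⟨0,[(0,1),(0,2),(0,1),(6,1),(11,1),(1,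
  1),(0,2)]⟩),(.x 0 ⟨0,[(21,0)]⟩ ⟨3,[(11,0),(0,0),(6,1),(0,3)]⟩),.k,.k,⟨true,0,⟨0,[(23,0),(0,0)]⟩,
  ⟨0,[(25,0)]⟩⟩,⟨false,1,⟨5,[(5,1),(1,0),(0,0),(7,0),(1,1),(0,1)]⟩,⟨0,[(17,0)]⟩⟩,⟨false,0,⟨2,[(1,1),
  (4,0),(16,0),(1,0)]⟩,⟨3,[(11,0),(0,0),(3,1)]⟩⟩,⟨true,0,⟨0,[(4,0),(4,0)]⟩,⟨0,[(2,0),(21,0)]⟩⟩,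
  ⟨false,0,⟨0,[(1,0),(21,0),(0,0)]⟩,⟨3,[(11,0),(0,0),(3,1),(8,3)]⟩⟩,⟨false,1,⟨1,[(4,0),(3,0),(10,
  0)]⟩,⟨0,[(2,0)]⟩⟩,[.a ⟨true,0,⟨0,[(25,0)]⟩,⟨0,[(2,0),(1,0),(19,0)]⟩⟩ ⟨true,0,⟨0,[]⟩,⟨0,[(28,0)]⟩⟩
  ⟨false,1,⟨0,[(5,0),(19,0)]⟩,⟨1,[(1,0),(0,1),(3,0),(17,0)]⟩⟩,.o ⟨false,1,⟨0,[(9,0),(17,0)]⟩,⟨0,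
  [(24,0)]⟩⟩,.o ⟨false,0,⟨1,[(1,1),(0,1),(6,0),(0,0),(13,0)]⟩,⟨5,[(5,1),(1,0),(0,0),(7,0),(1,1),(0,
  1)]⟩⟩,.o ⟨false,0,⟨0,[(10,0),(6,0)]⟩,⟨0,[(5,0)]⟩⟩]⟩)))) (.R ⟨2,true,false,false,[0,1],[1,0,-1],[1,
  1,1,1],(⟨0,[]⟩,⟨0,[]⟩),(⟨0,[(14,0)]⟩,⟨0,[(15,0)]⟩),⟨0,[]⟩,.k,.k,.k,(.x 0 ⟨0,[(18,0)]⟩ ⟨3,[(8,0),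
  (0,0),(6,1),(0,3)]⟩),.k,.k,⟨true,0,⟨0,[(0,0),(20,0)]⟩,⟨0,[(1,0),(4,0),(7,0),(5,0)]⟩⟩,⟨false,1,⟨5,
  [(2,1),(1,0),(0,0),(7,0),(1,1),(0,1)]⟩,⟨0,[(14,0)]⟩⟩,⟨false,0,⟨0,[]⟩,⟨3,[(8,0),(0,0),(14,1)]⟩⟩,
  ⟨true,0,⟨0,[(1,0),(4,0)]⟩,⟨0,[(0,0),(13,0),(6,0)]⟩⟩,⟨true,0,⟨0,[(21,0)]⟩,⟨0,[(22,0)]⟩⟩,⟨false,1,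
  ⟨1,[(1,0),(3,0),(10,0)]⟩,⟨0,[(0,0),(13,0)]⟩⟩,[]⟩)))) (.K ⟨0,[0,0,1],0,0,(⟨0,[(12,0)]⟩,⟨0,[(11,
  0)]⟩),.k,(.r 0 ⟨0,[(0,0)]⟩ ⟨1,[(9,0),(8,1),(2,0),(0,1)]⟩),(.x 0 ⟨0,[(15,0)]⟩ ⟨3,[(5,0),(0,0),(6,
  1),(0,3)]⟩),.k,.k,[⟨0,[(12,0)]⟩,⟨0,[(4,0),(6,0)]⟩,⟨0,[(1,0)]⟩,⟨0,[(0,0),(3,0),(6,0),(6,0)]⟩]⟩))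
  (.Q [0,0,0,0,0,-1,0,0,1,-1] (.ed true [0,1,1] .k) (.I [1,1,-1,-1,0,0,-1] (.K ⟨0,[0,1,1],0,0,(⟨0,
  [(13,0),(2,0)]⟩,⟨0,[(1,0)]⟩),(.x 0 ⟨0,[(16,0)]⟩ ⟨3,[(6,0),(0,0),(6,1),(0,3)]⟩),.k,(.r 0 ⟨0,[(2,0),
  (10,0),(4,0),(0,1)]⟩ ⟨1,[(0,1),(19,1),(0,0),(0,0)]⟩),.k,.k,[⟨0,[(13,0),(9,0)]⟩,⟨0,[(0,0),(1,0),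
  (15,0),(0,0)]⟩,⟨0,[(0,0),(12,0)]⟩,⟨0,[(2,0),(16,0),(4,0)]⟩]⟩) t5) t8))

def tree : Tre :=
  (.Q [0,-1,-1,0,1,0,-1,0,0,1] (.p true [0,0,1] [] (⟨0,[(9,0)]⟩,⟨0,[(8,0)]⟩) .k 0 (⟨0,[]⟩,⟨0,[]⟩)
  .k .k) t9 (.K ⟨0,[0,0,1],0,(-1),(⟨0,[(10,0)]⟩,⟨0,[(9,0)]⟩),.k,(.x 0 ⟨0,[(2,0),(9,0)]⟩ ⟨0,[(13,0),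
  (4,0)]⟩),(.x 0 ⟨0,[(13,0)]⟩ ⟨3,[(3,0),(0,0),(6,1),(0,3)]⟩),.k,.k,[⟨0,[(10,0)]⟩,⟨0,[(2,0),(6,0)]⟩,
  ⟨7,[(3,0),(0,0),(2,3),(2,7),(3,3),(3,1)]⟩,⟨0,[(0,0)]⟩]⟩))

theorem ok : chk (cPY (-1)) tree base = true := by
  decide +kernel

theorem closed {p a b c J l q : ℤ} {D dl : ℝ} {Cl : ℤ → ℤ → ℤ → ℤ → ℝ → Prop}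
    (W : World p a b c J (-1) l q D dl Cl) (hE : KEmp p a b (-1) (P1 l p) Cl)
    (g : G0 p a b c J D)
    {N R : ℤ} {I : ℝ} (hu : UFac p b D Cl N R I) {N2 R2 : ℤ} {I2 : ℝ}
    (hw : YFac p D Cl N2 R2 I2)
    (s0 : (c : ℝ) + 1 ≤ 0)
    (s1 : (a : ℝ) ≤ b)
    (s2 : (b : ℝ) + 1 ≤ 2 * a)
    (s3 : D < 2 * b)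
    (s4 : -(a : ℝ) < -D - c) : False := by
  have g1 := g.a2
  have g2 := g.b2
  have g3 := g.pa
  have g4 := g.pb
  have g5 := g.J1
  have g6 := g.JD
  have g7 := g.D2
  have g8 := g.ca
  have g9 := g.ca'
  have t1 := TF.ofU hu
  have i1 := t1.I0
  have i2 := t1.ID
  have i3 := t1.R1
  have i4 := t1.R2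
  have t2 := TF.ofY hw
  have j1 := t2.I0
  have j2 := hw.ID
  have j3 := t2.R1
  have j4 := t2.R2
  refine (val_PY W.toBase hu hw).sound W rfl (Nk := 0) (fun kf hkf hh => ?_) (kok_B hE (by simp [xv]) (by simp [xv]) 0) ?_ ok
  · simp only [cPY, kfB, List.mem_cons, List.not_mem_nil, or_false] at hkf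
    subst hkf
    exact absurd hh (by norm_num)
  · simp only [base, List.forall_mem_cons, List.not_mem_nil, false_imp_iff, implies_true,
      and_true, hld, xv, evg_cons, evg_nil, List.map_cons, List.map_nil, List.cons_append,
      List.nil_append, if_true, if_false, Bool.false_eq_true]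
    push_cast
    refine ⟨?_, ?_, ?_, ?_, ?_, ?_, ?_, ?_, ?_, ?_, ?_, ?_, ?_, ?_, ?_, ?_, ?_, ?_, ?_, ?_, ?_⟩ <;> linarith

end Helper25.KG.Pm1_35_m1_0_u_y
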