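import Pool.Agent.Helper25.KG.PL

set_option autoImplicit false
set_option linter.unusedVariables false

namespace Helper25.KG.Pm1_35_m1_0_u_y2

open Helper11.CT Helper25.KW Helper25.KG

def base : List Con :=
  [(false,[0,1,0,-1,0,0,0,0,-2]),
  (false,[0,0,2,0,0,0,0,0,-2]),
  (false,[0,0,0,0,0,0,0,0,1]),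
  (true,[0,0,0,0,0,-2,2]),
  (true,[0,0,0,0,0,2,2]),
  (false,[0,0,0,0,0,0,0,-1,2]),
  (false,[0,0,0,0,0,0,0,1]),
  (false,[0,0,0,0,0,0,2,0,-4]),
  (false,[0,0,0,0,-1,0,0,0,2]),
  (true,[0,0,0,0,1]),
  (true,[0,2,-1]),
  (true,[1,-1,1]),
  (true,[0,1,0,1]),
  (true,[0,0,0,-1]),
  (true,[0,0,-2,0,0,0,2]),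
  (true,[0,-2,0,0,0,0,2]),
  (true,[-1,0,1]),
  (true,[-1,1])]

def t0 : Tre :=
  (.I [0,0,2,2,0,0,-1] (.K ⟨0,[1,1,0,-1],0,0,(⟨4,[(3,2),(0,2),(19,0)]⟩,⟨1,[(13,0)]⟩),(.r (-1) ⟨7,
  [(1,3),(17,2),(0,2)]⟩ ⟨1,[(29,1),(0,0)]⟩),.k,(.r 0 ⟨0,[(0,0)]⟩ ⟨3,[(19,0),(0,0),(8,7),(0,3)]⟩),.k,
  .k,[⟨0,[(3,0)]⟩,⟨7,[(19,0),(0,0),(2,1)]⟩,⟨79,[(3,31),(0,11),(14,4),(0,4),(3,23),(1,39),(2,79)]⟩,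
  ⟨0,[(5,0),(10,0)]⟩]⟩) (.Q [0,-1,1,0,0,1,0,-1] (.p false [0,0,1] [] (⟨0,[(22,0)]⟩,⟨0,[(21,0)]⟩) .k
  0 (⟨0,[]⟩,⟨0,[]⟩) .k .k) (.I [1,-1,-1,0,0,1,1] (.Q [0,0,0,-1,0,0,0,1,-2] (.p true [0,0,1] [1] (⟨0,
  [(24,0)]⟩,⟨0,[(23,0)]⟩) .k 1 (⟨0,[]⟩,⟨0,[]⟩) .k .k) (.I [1,0,0,1,0,1] (.R ⟨0,false,false,false,[1,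
  0,-1],[0,1],[0,0,0,-1,0,-1],(⟨0,[(25,0)]⟩,⟨0,[(26,0)]⟩),(⟨0,[(29,0)]⟩,⟨0,[(28,0)]⟩),⟨1,[(1,1),(3,
  0),(2,0)]⟩,.k,.k,(.x (-1) ⟨7,[(17,3),(5,2),(0,2),(2,1)]⟩ ⟨0,[(29,0)]⟩),(.x (-1) ⟨7,[(17,3),(5,2),
  (0,2),(2,1)]⟩ ⟨0,[(29,0)]⟩),.k,.k,⟨false,1,⟨1,[(4,1),(18,0)]⟩,⟨15,[(0,9),(4,7),(7,1),(10,2),(2,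
  0)]⟩⟩,⟨true,0,⟨0,[(25,0)]⟩,⟨7,[(1,3),(3,1),(15,1),(4,3),(0,0)]⟩⟩,⟨true,0,⟨0,[(33,0)]⟩,⟨0,[(32,
  0)]⟩⟩,⟨false,0,⟨0,[(3,0),(14,0)]⟩,⟨1,[(1,1),(21,0),(10,0)]⟩⟩,⟨false,0,⟨0,[]⟩,⟨0,[]⟩⟩,⟨false,0,⟨0,
  []⟩,⟨0,[]⟩⟩,[.a ⟨true,0,⟨0,[(18,0)]⟩,⟨0,[(33,0)]⟩⟩ ⟨false,1,⟨7,[(4,3),(18,4),(0,0)]⟩,⟨0,[(0,0)]⟩⟩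
  ⟨true,0,⟨7,[(5,3),(17,0),(0,0),(0,7)]⟩,⟨0,[(1,0)]⟩⟩,.o ⟨false,1,⟨5,[(13,1),(9,0),(0,0),(2,0),(7,
  2)]⟩,⟨0,[(20,0)]⟩⟩,.o ⟨false,1,⟨1,[(26,1),(0,0),(6,0)]⟩,⟨0,[(12,0),(12,0)]⟩⟩,.e ⟨false,1,⟨1,[(4,
  0),(11,0),(6,0),(7,0)]⟩,⟨9,[(0,5),(4,1),(1,1),(13,0),(2,1)]⟩⟩ ⟨false,1,⟨5,[(13,1),(9,0),(0,0),(0,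
  5),(1,0),(7,2)]⟩,⟨0,[(1,0)]⟩⟩]⟩) (.Q [0,0,2,0,0,0,-1,-1,1] (.p false [0,0,1] [0,0,0,1] (⟨0,[(26,
  0)]⟩,⟨0,[(25,0)]⟩) .k 2 (⟨0,[(22,0)]⟩,⟨0,[(22,0)]⟩) .k (.r (-1) ⟨1,[(24,0)]⟩ ⟨1,[(23,0)]⟩)) (.R
  ⟨1,false,false,false,[0,0,1],[0,0,0,1],[1,1,0,0,0,1],(⟨0,[(27,0)]⟩,⟨0,[(26,0)]⟩),(⟨0,[(23,0)]⟩,⟨0,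
  [(23,0)]⟩),⟨3,[(2,2),(11,0),(3,1),(8,0)]⟩,.k,.k,(.r (-1) ⟨7,[(5,3),(18,0),(0,4)]⟩ ⟨7,[(1,5),(4,3),
  (7,1),(9,0),(3,0)]⟩),.k,(.r (-1) ⟨41,[(2,5),(0,21),(0,5),(0,17),(2,11),(16,6),(5,13)]⟩ ⟨7,[(6,3),
  (17,4),(0,0)]⟩),.k,⟨false,1,⟨2,[(3,0),(21,0),(5,1)]⟩,⟨5,[(1,3),(10,1),(4,1),(6,0),(11,0)]⟩⟩,⟨true,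
  1,⟨3,[(2,2),(11,0),(12,0),(7,1)]⟩,⟨0,[(0,0)]⟩⟩,⟨false,0,⟨0,[]⟩,⟨3,[(24,0),(0,0),(10,1)]⟩⟩,⟨false,
  1,⟨3,[(2,2),(11,0),(2,3),(6,1),(2,0)]⟩,⟨5,[(4,3),(3,1),(16,0),(0,1),(4,1)]⟩⟩,⟨true,0,⟨0,[(33,0)]⟩,
  ⟨0,[(34,0)]⟩⟩,⟨false,1,⟨1,[(2,1),(8,1),(0,1),(11,0)]⟩,⟨11,[(0,2),(3,7),(0,5),(2,6),(16,1),(0,0),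
  (4,3)]⟩⟩,[.a ⟨true,0,⟨0,[(23,0)]⟩,⟨0,[(23,0)]⟩⟩ ⟨true,0,⟨6,[(2,1),(0,4),(0,1),(1,0),(1,3),(22,
  6)]⟩,⟨1,[(1,1),(10,0),(19,0)]⟩⟩ ⟨false,1,⟨3,[(2,2),(11,0),(12,0),(7,3)]⟩,⟨15,[(0,7),(23,0),(0,0),
  (0,7),(1,1)]⟩⟩,.o ⟨false,1,⟨7,[(24,0),(0,0),(2,1),(7,3)]⟩,⟨11,[(6,1),(14,3),(6,0),(2,3)]⟩⟩,.o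
  ⟨false,0,⟨0,[(13,0),(12,0)]⟩,⟨1,[(27,1),(0,0),(6,0)]⟩⟩,.o ⟨false,0,⟨7,[(0,7),(23,0),(0,0),(2,1)]⟩,
  ⟨2,[(2,2),(8,1),(2,0),(13,0),(6,0)]⟩⟩]⟩) (.R ⟨1,false,false,false,[0,0,1],[1,1,0,-1],[1,1,0,0,0,
  1],(⟨0,[(27,0)]⟩,⟨0,[(26,0)]⟩),(⟨4,[(8,2),(0,2),(19,0)]⟩,⟨1,[(18,0)]⟩),⟨5,[(0,1),(6,1),(10,0),(8,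
  3)]⟩,.k,(.r (-1) ⟨7,[(6,3),(17,2),(0,2)]⟩ ⟨7,[(5,3),(18,0),(0,0)]⟩),(.r (-1) ⟨7,[(5,3),(18,0),(0,
  4)]⟩ ⟨7,[(1,5),(4,3),(7,1),(9,0),(3,0)]⟩),(.r 0 ⟨41,[(2,5),(0,21),(0,5),(0,17),(2,11),(16,6),(5,
  13)]⟩ ⟨7,[(6,3),(17,4),(0,0)]⟩),(.x 0 ⟨11,[(7,11),(0,3),(13,1),(1,0),(0,0)]⟩ ⟨3,[(9,3),(14,0),(0,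
  0),(9,1)]⟩),.k,⟨false,0,⟨6,[(2,0),(0,5),(0,0),(0,2),(2,1),(22,6)]⟩,⟨3,[(1,1),(13,1),(8,0),(11,
  0)]⟩⟩,⟨true,0,⟨0,[(0,0)]⟩,⟨0,[(8,0),(4,0),(12,0)]⟩⟩,⟨false,0,⟨0,[]⟩,⟨3,[(24,0),(0,0),(10,1)]⟩⟩,
  ⟨false,1,⟨21,[(0,17),(0,3),(0,1),(9,13),(11,8),(2,1),(8,3)]⟩,⟨6,[(4,4),(0,2),(2,4),(12,0),(3,0),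
  (0,1),(4,1)]⟩⟩,⟨true,0,⟨0,[(33,0)]⟩,⟨0,[(34,0)]⟩⟩,⟨false,1,⟨1,[(0,1),(11,1),(11,0)]⟩,⟨41,[(4,31),
  (0,35),(2,45),(12,11),(3,4),(0,9),(4,9)]⟩⟩,[.a ⟨true,0,⟨1,[(16,0)]⟩,⟨9,[(5,4),(2,5),(0,0),(19,
  1)]⟩⟩ ⟨true,0,⟨6,[(2,1),(0,4),(0,1),(1,0),(1,3),(22,6)]⟩,⟨1,[(1,1),(10,0),(19,0)]⟩⟩ ⟨false,1,⟨5,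
  [(0,5),(13,1),(9,0),(0,0),(2,0)]⟩,⟨45,[(1,3),(2,17),(0,11),(2,25),(12,17),(2,6),(1,27)]⟩⟩,.o
  ⟨false,1,⟨23,[(14,7),(9,0),(0,0),(2,9),(7,11)]⟩,⟨43,[(5,7),(2,11),(12,27),(2,0),(0,0),(5,7)]⟩⟩,.o
  ⟨false,0,⟨0,[(13,0),(12,0)]⟩,⟨15,[(0,7),(23,2),(0,2),(1,7),(0,5)]⟩⟩,.o ⟨false,0,⟨0,[(22,0),(3,
  0)]⟩,⟨7,[(0,7),(23,0),(0,0),(2,1)]⟩⟩]⟩))) (.I [1,0,0,1,0,1] (.R ⟨1,false,false,false,[1,0,-1],[0,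
  1],[0,0,0,-1,0,-1],(⟨0,[(25,0)]⟩,⟨0,[(26,0)]⟩),(⟨0,[(29,0)]⟩,⟨0,[(28,0)]⟩),⟨1,[(1,1),(2,0),(1,
  0)]⟩,.k,.k,(.x (-1) ⟨7,[(17,3),(5,2),(0,2),(2,1)]⟩ ⟨0,[(29,0)]⟩),(.x (-1) ⟨7,[(17,3),(5,2),(0,2),
  (2,1)]⟩ ⟨0,[(29,0)]⟩),(.r (-1) ⟨1,[(4,1),(18,0)]⟩ ⟨1,[(5,1),(18,0)]⟩),.k,⟨false,1,⟨1,[(4,1),(18,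
  0)]⟩,⟨15,[(0,9),(4,7),(7,1),(10,2),(2,0)]⟩⟩,⟨true,0,⟨0,[(25,0)]⟩,⟨0,[(12,0),(13,0)]⟩⟩,⟨true,0,⟨0,
  [(33,0)]⟩,⟨0,[(32,0)]⟩⟩,⟨false,0,⟨0,[(3,0),(14,0)]⟩,⟨1,[(16,1),(3,1),(2,0),(2,1)]⟩⟩,⟨false,1,⟨3,
  [(23,0),(0,0),(10,1)]⟩,⟨0,[]⟩⟩,⟨false,0,⟨0,[(3,0),(11,0)]⟩,⟨1,[(4,1),(7,1),(10,0),(2,1)]⟩⟩,[.e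
  ⟨false,1,⟨7,[(4,3),(18,4),(0,0)]⟩,⟨0,[(0,0)]⟩⟩ ⟨false,0,⟨0,[(1,0)]⟩,⟨7,[(4,3),(18,0),(0,0),(1,7),
  (0,3)]⟩⟩,.o ⟨false,1,⟨5,[(13,1),(9,0),(0,0),(2,0),(7,2)]⟩,⟨0,[(20,0)]⟩⟩,.o ⟨false,1,⟨1,[(26,1),(0,
  0),(6,0)]⟩,⟨0,[(12,0),(12,0)]⟩⟩,.a ⟨true,0,⟨0,[(26,0)]⟩,⟨0,[(25,0)]⟩⟩ ⟨false,1,⟨1,[(4,0),(11,0),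
  (6,0),(7,0)]⟩,⟨9,[(0,5),(4,1),(1,1),(13,0),(2,1)]⟩⟩ ⟨true,0,⟨0,[(1,0)]⟩,⟨0,[(20,0),(5,0)]⟩⟩]⟩)
  (.R ⟨1,false,false,true,[1,0,-1],[0,1],[0,1,0,-1,0,-1],(⟨0,[(25,0)]⟩,⟨0,[(26,0)]⟩),(⟨0,[(29,0)]⟩,
  ⟨0,[(28,0)]⟩),⟨1,[(1,1),(2,0),(1,0)]⟩,.k,.k,(.x (-1) ⟨7,[(17,3),(5,2),(0,2),(2,1)]⟩ ⟨0,[(29,0)]⟩),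
  (.x (-1) ⟨7,[(17,3),(5,2),(0,2),(2,1)]⟩ ⟨0,[(29,0)]⟩),(.r (-1) ⟨1,[(4,1),(18,0)]⟩ ⟨1,[(5,1),(18,
  0)]⟩),.k,⟨false,1,⟨1,[(4,1),(18,0)]⟩,⟨5,[(2,3),(2,5),(18,0),(5,1)]⟩⟩,⟨true,0,⟨0,[(25,0)]⟩,⟨0,[(12,
  0),(13,0)]⟩⟩,⟨false,0,⟨0,[(33,0)]⟩,⟨5,[(13,1),(9,0),(0,0),(2,0),(7,2)]⟩⟩,⟨false,0,⟨5,[(3,3),(3,1),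
  (7,2),(8,0),(0,1),(4,1)]⟩,⟨1,[(0,1),(15,1),(9,1),(0,0)]⟩⟩,⟨true,0,⟨23,[(7,3),(13,1),(1,0),(0,0),
  (5,11)]⟩,⟨0,[]⟩⟩,⟨false,0,⟨41,[(1,13),(1,27),(1,1),(1,11),(5,21),(10,6),(5,13)]⟩,⟨3,[(0,3),(3,1),
  (7,1),(3,1),(9,3),(0,0),(7,0)]⟩⟩,[.o ⟨false,0,⟨0,[(32,0)]⟩,⟨3,[(4,1),(16,1),(5,0),(7,1)]⟩⟩,.a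
  ⟨true,0,⟨0,[(18,0)]⟩,⟨0,[(33,0)]⟩⟩ ⟨true,0,⟨0,[(0,0)]⟩,⟨5,[(2,0),(0,2),(1,2),(18,0),(1,2),(3,
  1)]⟩⟩ ⟨false,0,⟨0,[(1,0)]⟩,⟨7,[(4,3),(18,0),(0,0),(1,7),(0,3)]⟩⟩,.o ⟨false,1,⟨1,[(26,1),(0,0),(6,
  0)]⟩,⟨0,[(12,0),(12,0)]⟩⟩,.e ⟨false,1,⟨7,[(4,3),(18,4),(0,0)]⟩,⟨1,[(2,0),(0,0),(1,0),(20,0)]⟩⟩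
  ⟨false,0,⟨0,[(1,0)]⟩,⟨3,[(4,1),(16,1),(4,3),(0,0),(7,1)]⟩⟩]⟩))) (.R ⟨1,false,false,true,[1,0,-1],
  [0,1],[1,1,0,0,0,-1],(⟨0,[(23,0)]⟩,⟨0,[(24,0)]⟩),(⟨0,[(27,0)]⟩,⟨0,[(26,0)]⟩),⟨1,[(0,0),(0,0),(2,
  0),(3,1),(14,0)]⟩,.k,.k,(.x (-1) ⟨7,[(15,3),(5,2),(0,2),(2,1)]⟩ ⟨0,[(27,0)]⟩),(.x (-1) ⟨7,[(15,3),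
  (5,2),(0,2),(2,1)]⟩ ⟨0,[(27,0)]⟩),(.r (-1) ⟨1,[(2,1),(18,0)]⟩ ⟨1,[(3,1),(18,0)]⟩),.k,⟨false,1,⟨11,
  [(0,1),(1,5),(5,3),(5,1),(2,3),(3,4)]⟩,⟨6,[(1,4),(1,1),(3,1),(10,0),(3,0),(1,4),(3,1)]⟩⟩,⟨true,0,
  ⟨0,[(23,0)]⟩,⟨0,[(10,0),(13,0)]⟩⟩,⟨false,0,⟨0,[]⟩,⟨3,[(21,0),(0,0),(10,1)]⟩⟩,⟨false,0,⟨5,[(1,3),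
  (3,1),(7,2),(8,0),(0,1),(4,1)]⟩,⟨3,[(0,1),(1,1),(7,3),(3,5),(6,0),(2,3)]⟩⟩,⟨true,0,⟨0,[(30,0)]⟩,
  ⟨0,[(31,0)]⟩⟩,⟨false,0,⟨41,[(1,27),(1,5),(1,7),(5,23),(10,6),(0,13),(4,13)]⟩,⟨3,[(0,1),(1,3),(7,
  3),(3,3),(6,0),(2,3),(4,1)]⟩⟩,[.o ⟨false,0,⟨0,[(30,0)]⟩,⟨3,[(2,1),(16,1),(5,0),(7,1)]⟩⟩,.a ⟨true,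
  0,⟨0,[(16,0)]⟩,⟨0,[(31,0)]⟩⟩ ⟨true,0,⟨0,[(0,0),(13,0)]⟩,⟨33,[(1,23),(1,1),(1,7),(12,3),(3,4),(1,
  23),(3,9)]⟩⟩ ⟨false,0,⟨1,[(0,0),(0,0),(5,0),(0,0),(14,0)]⟩,⟨7,[(2,3),(18,0),(0,0),(1,7),(0,3)]⟩⟩,
  .o ⟨false,1,⟨1,[(24,1),(0,0),(6,0)]⟩,⟨3,[(0,1),(0,1),(21,1),(1,0)]⟩⟩,.e ⟨false,1,⟨1,[(21,0),(10,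
  0)]⟩,⟨0,[(1,0),(22,0)]⟩⟩ ⟨false,0,⟨1,[(0,0),(0,0),(5,0),(0,0),(14,0)]⟩,⟨3,[(2,1),(16,1),(4,3),(0,
  0),(7,1)]⟩⟩]⟩)) (.Q [0,-1,-1,0,0,-1,0,1] (.p true [0,0,1] [] (⟨0,[(23,0)]⟩,⟨0,[(22,0)]⟩) .k 0 (⟨0,
  []⟩,⟨0,[]⟩) .k .k) (.Q [0,0,0,0,-1,0,0,-1,2] (.ed true [0,1,1] .k) (.I [1,-1,2,1,0,1] (.S ⟨1,0,[0,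
  1,0,-1,0,-1],[1,0,-1],[1,0,0,0,0,-1],(⟨0,[(25,0)]⟩,⟨0,[(26,0)]⟩),⟨0,[(1,0)]⟩,.k,(.x (-1) ⟨7,[(17,
  3),(5,2),(0,2),(2,1)]⟩ ⟨0,[(29,0)]⟩),⟨true,0,⟨0,[]⟩,⟨23,[(7,3),(13,1),(1,0),(0,0),(5,11)]⟩⟩,
  ⟨false,0,⟨0,[(33,0)]⟩,⟨5,[(13,1),(9,0),(0,0),(2,0),(7,2)]⟩⟩,⟨false,1,⟨5,[(13,1),(9,0),(0,0),(2,0),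
  (7,2)]⟩,⟨0,[(33,0)]⟩⟩,⟨true,0,⟨23,[(7,3),(13,1),(1,0),(0,0),(5,11)]⟩,⟨0,[]⟩⟩,[.o ⟨false,0,⟨1,[(2,
  0),(0,0),(16,1)]⟩,⟨5,[(0,1),(10,1),(12,1),(0,5),(1,2),(7,0)]⟩⟩,.o ⟨false,0,⟨0,[(2,0),(17,0)]⟩,⟨7,
  [(5,3),(17,0),(0,4),(0,7),(1,3)]⟩⟩,.o ⟨false,1,⟨1,[(2,0),(0,0),(20,0),(2,0)]⟩,⟨0,[(12,0),(12,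
  0)]⟩⟩,.a ⟨true,0,⟨0,[(26,0)]⟩,⟨0,[(25,0)]⟩⟩ ⟨true,0,⟨1,[(1,1),(0,1),(2,0),(2,0),(11,1)]⟩,⟨0,[(0,
  0),(29,0),(2,0)]⟩⟩ ⟨false,0,⟨0,[(2,0),(17,0),(4,0)]⟩,⟨15,[(0,3),(13,3),(8,2),(0,8),(10,3)]⟩⟩]⟩)
  (.R ⟨1,false,false,false,[1,0,-1],[0,1],[1,1,0,0,0,-1],(⟨0,[(25,0)]⟩,⟨0,[(26,0)]⟩),(⟨0,[(29,0)]⟩,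
  ⟨0,[(28,0)]⟩),⟨0,[(1,0)]⟩,.k,.k,(.x (-1) ⟨7,[(17,3),(5,2),(0,2),(2,1)]⟩ ⟨0,[(29,0)]⟩),(.x (-1) ⟨7,
  [(17,3),(5,2),(0,2),(2,1)]⟩ ⟨0,[(29,0)]⟩),(.r (-1) ⟨1,[(4,1),(18,0)]⟩ ⟨1,[(5,1),(18,0)]⟩),.k,
  ⟨false,0,⟨0,[(0,0)]⟩,⟨17,[(7,1),(6,5),(6,0),(1,1),(0,10),(10,5)]⟩⟩,⟨true,0,⟨0,[(25,0)]⟩,⟨0,[(12,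
  0),(13,0)]⟩⟩,⟨false,0,⟨0,[]⟩,⟨3,[(23,0),(0,0),(10,1)]⟩⟩,⟨false,1,⟨17,[(7,1),(6,5),(6,0),(1,1),(0,
  10),(0,17),(9,5)]⟩,⟨0,[(2,0),(17,0)]⟩⟩,⟨true,0,⟨0,[(32,0)]⟩,⟨0,[(33,0)]⟩⟩,⟨false,1,⟨11,[(13,1),(0,
  5),(8,0),(0,6),(0,11),(1,0),(7,2)]⟩,⟨0,[(2,0),(17,0),(12,0)]⟩⟩,[.e ⟨false,0,⟨7,[(0,5),(4,1),(17,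
  0),(8,1)]⟩,⟨1,[(24,0),(10,0)]⟩⟩ ⟨false,0,⟨1,[(1,1),(3,0),(2,0)]⟩,⟨7,[(4,3),(18,0),(0,0),(1,7),(0,
  3)]⟩⟩,.o ⟨false,1,⟨5,[(13,1),(9,0),(0,0),(2,0),(7,2)]⟩,⟨0,[(20,0)]⟩⟩,.o ⟨false,1,⟨1,[(2,0),(0,0),
  (20,0),(2,0)]⟩,⟨0,[(12,0),(12,0)]⟩⟩,.a ⟨true,0,⟨0,[(26,0)]⟩,⟨0,[(25,0)]⟩⟩ ⟨false,0,⟨2,[(0,1),(1,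
  0),(8,0),(0,0),(12,0)]⟩,⟨11,[(7,3),(13,1),(1,0),(0,6),(10,5)]⟩⟩ ⟨true,0,⟨1,[(1,1),(3,0),(2,0)]⟩,
  ⟨0,[(20,0),(5,0)]⟩⟩]⟩)) (.Q [0,-1,-1,-1,0,-1,0,1,-2] (.p true [0,0,1] [1] (⟨0,[(25,0)]⟩,⟨0,[(24,
  0)]⟩) .k 1 (⟨0,[]⟩,⟨0,[]⟩) .k .k) (.R ⟨0,false,false,false,[1,0,-1],[0,1],[1,0,2,1],(⟨0,[(25,0)]⟩,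
  ⟨0,[(26,0)]⟩),(⟨0,[(29,0)]⟩,⟨0,[(28,0)]⟩),⟨0,[(1,0)]⟩,.k,.k,(.x (-1) ⟨7,[(17,3),(5,2),(0,2),(2,
  1)]⟩ ⟨0,[(29,0)]⟩),(.x (-1) ⟨7,[(17,3),(5,2),(0,2),(2,1)]⟩ ⟨0,[(29,0)]⟩),.k,.k,⟨false,0,⟨0,[]⟩,⟨3,
  [(23,0),(0,0),(9,1)]⟩⟩,⟨true,0,⟨0,[(25,0)]⟩,⟨7,[(1,3),(4,1),(14,1),(4,3),(0,0)]⟩⟩,⟨true,0,⟨1,[(5,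
  1),(18,0),(8,1)]⟩,⟨0,[(0,0),(24,0),(4,0)]⟩⟩,⟨false,1,⟨17,[(7,1),(6,5),(6,0),(1,1),(0,10),(0,17),
  (9,5)]⟩,⟨2,[(0,1),(2,0),(16,0)]⟩⟩,⟨false,0,⟨0,[]⟩,⟨0,[]⟩⟩,⟨false,0,⟨0,[]⟩,⟨0,[]⟩⟩,[.a ⟨true,0,⟨0,
  [(18,0)]⟩,⟨0,[(33,0)]⟩⟩ ⟨false,0,⟨7,[(5,3),(17,0),(0,0)]⟩,⟨7,[(4,3),(18,0),(0,0),(9,3)]⟩⟩ ⟨true,0,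
  ⟨7,[(5,3),(17,0),(0,0),(0,7)]⟩,⟨1,[(1,1),(2,0),(1,0)]⟩⟩,.o ⟨false,1,⟨5,[(13,1),(9,0),(0,0),(2,0),
  (7,2)]⟩,⟨0,[(20,0)]⟩⟩,.o ⟨false,1,⟨1,[(2,0),(0,0),(20,0),(2,0)]⟩,⟨0,[(12,0),(12,0)]⟩⟩,.e ⟨false,0,
  ⟨1,[(11,0),(19,0)]⟩,⟨7,[(4,3),(18,2),(0,2)]⟩⟩ ⟨false,1,⟨5,[(13,1),(9,0),(0,0),(0,5),(1,0),(7,2)]⟩,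
  ⟨1,[(1,1),(2,0),(1,0)]⟩⟩]⟩) (.R ⟨0,false,false,true,[1,0,-1],[0,1],[1,1],(⟨0,[(25,0)]⟩,⟨0,[(26,
  0)]⟩),(⟨0,[(29,0)]⟩,⟨0,[(28,0)]⟩),⟨0,[(1,0)]⟩,.k,.k,(.x (-1) ⟨7,[(17,3),(5,2),(0,2),(2,1)]⟩ ⟨0,
  [(29,0)]⟩),(.x (-1) ⟨7,[(17,3),(5,2),(0,2),(2,1)]⟩ ⟨0,[(29,0)]⟩),.k,.k,⟨false,1,⟨7,[(4,3),(18,0),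
  (0,0),(9,3)]⟩,⟨7,[(5,3),(17,0),(0,0)]⟩⟩,⟨true,0,⟨0,[(25,0)]⟩,⟨7,[(1,3),(4,1),(14,1),(4,3),(0,
  0)]⟩⟩,⟨false,1,⟨3,[(23,0),(0,2)]⟩,⟨0,[(2,0),(9,0),(12,0)]⟩⟩,⟨true,0,⟨0,[(0,0)]⟩,⟨0,[(2,0),(17,
  0)]⟩⟩,⟨false,0,⟨0,[]⟩,⟨0,[]⟩⟩,⟨false,0,⟨0,[]⟩,⟨0,[]⟩⟩,[.o ⟨false,0,⟨0,[(32,0)]⟩,⟨3,[(4,1),(16,1),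
  (5,0),(7,1)]⟩⟩,.e ⟨true,0,⟨0,[]⟩,⟨11,[(7,3),(13,1),(1,0),(0,0)]⟩⟩ ⟨true,0,⟨31,[(0,5),(4,3),(1,1),
  (6,5),(6,0),(1,2),(1,25)]⟩,⟨1,[(1,1),(2,0),(1,0)]⟩⟩,.o ⟨false,1,⟨1,[(2,0),(0,0),(20,0),(2,0)]⟩,⟨0,
  [(12,0),(12,0)]⟩⟩,.a ⟨true,0,⟨0,[(26,0)]⟩,⟨0,[(25,0)]⟩⟩ ⟨false,1,⟨3,[(23,0),(0,0),(9,1)]⟩,⟨0,[(11,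
  0),(21,1)]⟩⟩ ⟨true,0,⟨0,[(25,0),(6,0)]⟩,⟨1,[(1,1),(2,0),(1,0)]⟩⟩]⟩))) (.K ⟨0,[0,0,1],0,0,(⟨0,[(24,
  0)]⟩,⟨0,[(23,0)]⟩),.k,(.r (-1) ⟨7,[(2,3),(18,0),(0,4)]⟩ ⟨1,[(1,1),(7,0),(0,1),(12,1),(5,0)]⟩),(.x
  0 ⟨0,[(27,0)]⟩ ⟨7,[(15,3),(5,2),(0,2),(2,1)]⟩),.k,.k,[⟨0,[(24,0)]⟩,⟨0,[(19,0),(3,0)]⟩,⟨0,[(1,0)]⟩,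
  ⟨0,[(0,0)]⟩]⟩))))

def t1 : Tre :=
  (.Q [0,0,0,0,-1,0,0,-1,2] (.ed true [0,1,1] .k) (.I [0,0,2,2,0,1] (.I [1,1,1,1,0,1] (.S ⟨1,0,[0,1,
  0,-1,0,-1],[1,0,-1],[0,0,0,-1,0,-1],(⟨0,[(25,0)]⟩,⟨0,[(26,0)]⟩),⟨0,[(2,0)]⟩,.k,(.x (-1) ⟨7,[(17,
  3),(5,2),(0,2),(2,1)]⟩ ⟨0,[(29,0)]⟩),⟨true,0,⟨0,[(33,0)]⟩,⟨0,[(32,0)]⟩⟩,⟨false,0,⟨0,[(33,0)]⟩,⟨5,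
  [(13,1),(9,0),(0,0),(2,0),(7,2)]⟩⟩,⟨false,1,⟨3,[(23,0),(0,0),(10,1)]⟩,⟨0,[]⟩⟩,⟨true,0,⟨0,[(37,
  0)]⟩,⟨0,[]⟩⟩,[.o ⟨false,0,⟨1,[(3,0),(0,0),(15,1)]⟩,⟨3,[(11,1),(0,1),(11,1),(0,3),(1,0),(7,0)]⟩⟩,
  .o ⟨false,0,⟨0,[(3,0),(16,0)]⟩,⟨7,[(1,3),(21,0),(0,2),(0,7),(1,3)]⟩⟩,.o ⟨false,1,⟨1,[(26,1),(0,0),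
  (6,0)]⟩,⟨0,[(12,0),(12,0)]⟩⟩,.a ⟨true,0,⟨0,[(26,0)]⟩,⟨0,[(25,0)]⟩⟩ ⟨true,0,⟨0,[(3,0),(16,0),(4,
  0)]⟩,⟨0,[(0,0)]⟩⟩ ⟨false,0,⟨0,[(3,0),(16,0),(4,0)]⟩,⟨7,[(1,3),(21,0),(0,2),(10,3)]⟩⟩]⟩) (.Q [0,0,
  0,1,0,0,0,-1,2] (.p false [0,0,1] [1] (⟨0,[(26,0)]⟩,⟨0,[(25,0)]⟩) .k 1 (⟨0,[]⟩,⟨0,[]⟩) .k .k) (.R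
  ⟨1,false,false,false,[1,0,-1],[0,1],[1,1,0,0,0,-1],(⟨0,[(26,0)]⟩,⟨0,[(27,0)]⟩),(⟨0,[(30,0)]⟩,⟨0,
  [(29,0)]⟩),⟨0,[(3,0)]⟩,.k,.k,(.x (-1) ⟨7,[(18,3),(5,2),(0,2),(2,1)]⟩ ⟨0,[(30,0)]⟩),(.x (-1) ⟨7,
  [(18,3),(5,2),(0,2),(2,1)]⟩ ⟨0,[(30,0)]⟩),(.r (-1) ⟨19,[(6,15),(17,10),(0,0),(5,7),(2,23)]⟩ ⟨0,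
  [(2,0)]⟩),.k,⟨false,0,⟨0,[(1,0),(29,0)]⟩,⟨7,[(2,3),(21,0),(0,2),(10,3)]⟩⟩,⟨true,0,⟨0,[(26,0)]⟩,⟨0,
  [(13,0),(13,0)]⟩⟩,⟨false,0,⟨0,[]⟩,⟨3,[(24,0),(0,0),(10,1)]⟩⟩,⟨false,1,⟨7,[(2,3),(21,0),(0,2),(0,
  7),(9,3)]⟩,⟨0,[(4,0),(16,0)]⟩⟩,⟨true,0,⟨0,[(33,0)]⟩,⟨0,[(34,0)]⟩⟩,⟨false,1,⟨7,[(0,3),(14,3),(8,0),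
  (0,4),(0,3),(9,1)]⟩,⟨0,[(1,0),(19,0),(5,0)]⟩⟩,[.e ⟨false,0,⟨3,[(0,0),(0,2),(3,0),(16,0),(8,1),(1,
  1)]⟩,⟨1,[(25,0),(10,0)]⟩⟩ ⟨false,0,⟨0,[(0,0)]⟩,⟨3,[(6,1),(14,1),(2,0),(0,0),(1,3),(0,0)]⟩⟩,.o
  ⟨false,1,⟨5,[(14,1),(9,0),(0,0),(2,0),(7,2)]⟩,⟨0,[(21,0)]⟩⟩,.o ⟨false,1,⟨1,[(27,1),(0,0),(6,0)]⟩,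
  ⟨0,[(13,0),(12,0)]⟩⟩,.a ⟨true,0,⟨0,[(27,0)]⟩,⟨0,[(26,0)]⟩⟩ ⟨false,0,⟨0,[(1,0),(31,0)]⟩,⟨1,[(25,0),
  (10,0),(0,1)]⟩⟩ ⟨true,0,⟨0,[(0,0)]⟩,⟨0,[(21,0),(5,0)]⟩⟩]⟩) (.R ⟨1,false,false,false,[1,0,-1],[0,
  1],[1,1,0,0,0,-1],(⟨0,[(26,0)]⟩,⟨0,[(27,0)]⟩),(⟨0,[(30,0)]⟩,⟨0,[(29,0)]⟩),⟨0,[(3,0)]⟩,.k,.k,(.x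
  (-1) ⟨7,[(18,3),(5,2),(0,2),(2,1)]⟩ ⟨0,[(30,0)]⟩),(.x (-1) ⟨7,[(18,3),(5,2),(0,2),(2,1)]⟩ ⟨0,[(30,
  0)]⟩),(.r (-1) ⟨19,[(6,15),(17,10),(0,0),(5,7),(2,23)]⟩ ⟨0,[(2,0)]⟩),.k,⟨false,0,⟨0,[(1,0),(29,
  0)]⟩,⟨7,[(2,3),(21,0),(0,2),(10,3)]⟩⟩,⟨true,0,⟨0,[(26,0)]⟩,⟨6,[(0,4),(1,0),(2,0),(9,0),(6,1),(4,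
  0)]⟩⟩,⟨false,0,⟨0,[]⟩,⟨3,[(24,0),(0,0),(10,1)]⟩⟩,⟨false,1,⟨7,[(2,3),(21,0),(0,2),(0,7),(9,3)]⟩,⟨0,
  [(4,0),(16,0)]⟩⟩,⟨true,0,⟨0,[(33,0)]⟩,⟨0,[(34,0)]⟩⟩,⟨false,1,⟨11,[(14,1),(0,5),(8,0),(0,6),(0,11),
  (1,0),(7,2)]⟩,⟨2,[(0,1),(0,1),(3,0),(15,0),(12,0)]⟩⟩,[.a ⟨true,0,⟨0,[(19,0)]⟩,⟨0,[(34,0)]⟩⟩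
  ⟨false,0,⟨4,[(1,3),(3,0),(16,0),(3,0),(4,1),(1,3)]⟩,⟨1,[(25,0),(10,0)]⟩⟩ ⟨true,0,⟨1,[(16,0),(5,0),
  (3,1)]⟩,⟨0,[(0,0)]⟩⟩,.o ⟨false,1,⟨5,[(14,1),(9,0),(0,0),(2,0),(7,2)]⟩,⟨0,[(21,0)]⟩⟩,.o ⟨false,1,
  ⟨1,[(27,1),(0,0),(6,0)]⟩,⟨0,[(13,0),(12,0)]⟩⟩,.e ⟨false,0,⟨0,[(1,0),(31,0)]⟩,⟨1,[(25,0),(10,0),(0,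
  1)]⟩⟩ ⟨false,1,⟨5,[(14,1),(9,0),(0,0),(0,5),(1,0),(7,2)]⟩,⟨0,[(0,0)]⟩⟩]⟩))) (.Q [0,0,0,0,0,0,0,-1,
  1] (.p false [0,0,1] [0,0,0,1] (⟨0,[(25,0)]⟩,⟨0,[(24,0)]⟩) .k 2 (⟨0,[(21,0)]⟩,⟨0,[(21,0)]⟩) .k
  (.r (-1) ⟨1,[(23,0)]⟩ ⟨1,[(22,0)]⟩)) (.I [0,0,-2,-2,0,-1] (.R ⟨1,false,false,false,[1,0,-1],[0,1],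
  [0,0,0,-1,0,-1],(⟨0,[(26,0)]⟩,⟨0,[(27,0)]⟩),(⟨0,[(30,0)]⟩,⟨0,[(29,0)]⟩),⟨0,[(3,0)]⟩,.k,.k,(.x
  (-1) ⟨7,[(18,3),(5,2),(0,2),(2,1)]⟩ ⟨0,[(30,0)]⟩),(.x (-1) ⟨7,[(18,3),(5,2),(0,2),(2,1)]⟩ ⟨0,[(30,
  0)]⟩),(.r 0 ⟨0,[(0,0)]⟩ ⟨3,[(16,3),(5,3),(1,0),(0,2)]⟩),.k,⟨false,0,⟨0,[(0,0)]⟩,⟨3,[(15,1),(8,0),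
  (0,2),(7,1)]⟩⟩,⟨true,0,⟨0,[(26,0)]⟩,⟨0,[(13,0),(13,0)]⟩⟩,⟨true,0,⟨0,[(34,0)]⟩,⟨0,[(33,0)]⟩⟩,
  ⟨false,1,⟨11,[(15,3),(8,0),(0,6),(0,11),(9,3),(0,3)]⟩,⟨0,[(4,0),(16,0)]⟩⟩,⟨false,1,⟨3,[(24,0),(0,
  0),(10,1)]⟩,⟨0,[]⟩⟩,⟨false,1,⟨11,[(14,1),(0,5),(8,0),(0,6),(0,11),(1,0),(7,2)]⟩,⟨0,[(4,0),(16,0),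
  (12,0)]⟩⟩,[.e ⟨false,0,⟨4,[(2,3),(2,0),(9,0),(6,0),(3,0)]⟩,⟨5,[(14,1),(9,0),(0,3),(2,0)]⟩⟩ ⟨false,
  0,⟨2,[(1,1),(12,0),(11,0)]⟩,⟨7,[(2,3),(21,0),(0,2),(1,7),(0,3)]⟩⟩,.o ⟨false,1,⟨5,[(14,1),(9,0),(0,
  0),(2,0),(7,2)]⟩,⟨0,[(21,0)]⟩⟩,.o ⟨false,1,⟨1,[(27,1),(0,0),(6,0)]⟩,⟨1,[(1,1),(20,0)]⟩⟩,.a ⟨true,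
  0,⟨0,[(27,0)]⟩,⟨0,[(26,0)]⟩⟩ ⟨false,0,⟨1,[(0,1),(11,0),(19,0)]⟩,⟨3,[(16,1),(5,1),(1,0),(0,2)]⟩⟩
  ⟨true,0,⟨2,[(1,1),(12,0),(11,0)]⟩,⟨0,[(21,0),(5,0)]⟩⟩]⟩) (.R ⟨1,false,false,false,[1,0,-1],[0,1],
  [1,1,0,0,0,-1],(⟨0,[(26,0)]⟩,⟨0,[(27,0)]⟩),(⟨0,[(30,0)]⟩,⟨0,[(29,0)]⟩),⟨0,[(3,0)]⟩,.k,.k,(.x (-1)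
  ⟨7,[(18,3),(5,2),(0,2),(2,1)]⟩ ⟨0,[(30,0)]⟩),(.x (-1) ⟨7,[(18,3),(5,2),(0,2),(2,1)]⟩ ⟨0,[(30,
  0)]⟩),(.x 0 ⟨1,[(7,1),(14,0)]⟩ ⟨7,[(9,3),(14,2),(0,2),(4,7)]⟩),.k,⟨false,0,⟨0,[(2,0),(30,0)]⟩,⟨7,
  [(0,3),(23,0),(0,2),(10,3)]⟩⟩,⟨true,0,⟨0,[(26,0)]⟩,⟨0,[(13,0),(13,0)]⟩⟩,⟨false,0,⟨0,[]⟩,⟨3,[(24,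
  0),(0,0),(10,1)]⟩⟩,⟨false,1,⟨7,[(0,3),(23,0),(0,2),(0,7),(9,3)]⟩,⟨0,[(4,0),(16,0)]⟩⟩,⟨true,0,⟨0,
  [(33,0)]⟩,⟨0,[(34,0)]⟩⟩,⟨false,1,⟨11,[(14,1),(0,5),(8,0),(0,6),(0,11),(1,0),(7,2)]⟩,⟨0,[(4,0),(16,
  0),(12,0)]⟩⟩,[.e ⟨false,0,⟨7,[(1,3),(0,3),(2,3),(7,1),(1,0),(17,4)]⟩,⟨1,[(25,0),(10,0)]⟩⟩ ⟨false,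
  0,⟨2,[(1,1),(12,0),(11,0)]⟩,⟨7,[(2,3),(21,0),(0,2),(1,7),(0,3)]⟩⟩,.o ⟨false,1,⟨5,[(14,1),(9,0),(0,
  0),(2,0),(7,2)]⟩,⟨0,[(21,0)]⟩⟩,.o ⟨false,1,⟨1,[(27,1),(0,0),(6,0)]⟩,⟨1,[(1,1),(20,0)]⟩⟩,.a ⟨true,
  0,⟨0,[(27,0)]⟩,⟨0,[(26,0)]⟩⟩ ⟨false,0,⟨1,[(2,1),(12,0),(17,0)]⟩,⟨1,[(25,0),(10,0),(0,1)]⟩⟩ ⟨true,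
  0,⟨2,[(1,1),(12,0),(11,0)]⟩,⟨0,[(21,0),(5,0)]⟩⟩]⟩)) (.Q [0,0,0,1,0,0,0,-1,2] (.p false [0,0,1]
  [1] (⟨0,[(26,0)]⟩,⟨0,[(25,0)]⟩) .k 1 (⟨0,[]⟩,⟨0,[]⟩) .k .k) (.R ⟨1,false,false,false,[1,0,-1],[0,
  1],[1,1,0,0,0,-1],(⟨0,[(26,0)]⟩,⟨0,[(27,0)]⟩),(⟨0,[(30,0)]⟩,⟨0,[(29,0)]⟩),⟨0,[(3,0)]⟩,.k,.k,(.x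
  (-1) ⟨7,[(18,3),(5,2),(0,2),(2,1)]⟩ ⟨0,[(30,0)]⟩),(.x (-1) ⟨7,[(18,3),(5,2),(0,2),(2,1)]⟩ ⟨0,[(30,
  0)]⟩),(.x 0 ⟨1,[(7,1),(14,0)]⟩ ⟨7,[(9,3),(14,2),(0,2),(4,7)]⟩),.k,⟨false,0,⟨0,[(2,0),(30,0)]⟩,⟨11,
  [(15,3),(8,0),(0,6),(10,3),(0,3)]⟩⟩,⟨true,0,⟨0,[(26,0)]⟩,⟨1,[(1,1),(20,0)]⟩⟩,⟨false,0,⟨0,[]⟩,⟨3,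
  [(24,0),(0,0),(10,1)]⟩⟩,⟨false,1,⟨11,[(15,3),(8,0),(0,6),(0,11),(9,3),(0,3)]⟩,⟨0,[(4,0),(16,0)]⟩⟩,
  ⟨true,0,⟨0,[(33,0)]⟩,⟨0,[(34,0)]⟩⟩,⟨false,1,⟨7,[(0,3),(14,3),(8,0),(0,4),(0,3),(9,1)]⟩,⟨1,[(1,1),
  (0,1),(19,0)]⟩⟩,[.e ⟨false,0,⟨1,[(0,0),(1,0),(2,0),(7,0),(19,0)]⟩,⟨1,[(25,0),(10,0)]⟩⟩ ⟨false,0,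
  ⟨0,[(0,0)]⟩,⟨3,[(1,3),(0,1),(21,0),(0,1),(2,0)]⟩⟩,.o ⟨false,1,⟨5,[(14,1),(9,0),(0,0),(2,0),(7,
  2)]⟩,⟨0,[(21,0)]⟩⟩,.o ⟨false,1,⟨7,[(1,7),(22,0),(0,0),(2,1),(6,3)]⟩,⟨0,[(13,0),(12,0)]⟩⟩,.a ⟨true,
  0,⟨0,[(27,0)]⟩,⟨0,[(26,0)]⟩⟩ ⟨false,0,⟨1,[(2,1),(12,0),(17,0)]⟩,⟨1,[(25,0),(10,0),(0,1)]⟩⟩ ⟨true,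
  0,⟨0,[(0,0)]⟩,⟨0,[(21,0),(5,0)]⟩⟩]⟩) (.R ⟨1,false,false,false,[1,0,-1],[0,1],[1,1,0,0,0,-1],(⟨0,
  [(26,0)]⟩,⟨0,[(27,0)]⟩),(⟨0,[(30,0)]⟩,⟨0,[(29,0)]⟩),⟨0,[(3,0)]⟩,.k,.k,(.x (-1) ⟨7,[(18,3),(5,2),
  (0,2),(2,1)]⟩ ⟨0,[(30,0)]⟩),(.x (-1) ⟨7,[(18,3),(5,2),(0,2),(2,1)]⟩ ⟨0,[(30,0)]⟩),(.x 0 ⟨1,[(7,1),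
  (14,0)]⟩ ⟨7,[(9,3),(14,2),(0,2),(4,7)]⟩),.k,⟨false,0,⟨0,[(2,0),(30,0)]⟩,⟨11,[(15,3),(8,0),(0,6),
  (10,3),(0,3)]⟩⟩,⟨true,0,⟨0,[(26,0)]⟩,⟨1,[(1,1),(20,0)]⟩⟩,⟨false,0,⟨0,[]⟩,⟨3,[(24,0),(0,0),(10,
  1)]⟩⟩,⟨false,1,⟨11,[(15,3),(8,0),(0,6),(0,11),(9,3),(0,3)]⟩,⟨0,[(4,0),(16,0)]⟩⟩,⟨true,0,⟨0,[(33,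
  0)]⟩,⟨0,[(34,0)]⟩⟩,⟨false,1,⟨11,[(14,1),(0,5),(8,0),(0,6),(0,11),(1,0),(7,2)]⟩,⟨5,[(0,3),(1,3),(1,
  0),(0,0),(16,1)]⟩⟩,[.a ⟨true,0,⟨0,[(19,0)]⟩,⟨0,[(34,0)]⟩⟩ ⟨false,0,⟨4,[(2,3),(2,0),(9,0),(6,0),(3,
  0),(6,4)]⟩,⟨1,[(25,0),(10,0)]⟩⟩ ⟨true,0,⟨1,[(16,0),(5,0),(3,1)]⟩,⟨0,[(0,0)]⟩⟩,.o ⟨false,1,⟨5,[(14,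
  1),(9,0),(0,0),(2,0),(7,2)]⟩,⟨0,[(21,0)]⟩⟩,.o ⟨false,1,⟨7,[(1,7),(22,0),(0,0),(2,1),(6,3)]⟩,⟨0,
  [(13,0),(12,0)]⟩⟩,.e ⟨false,0,⟨1,[(2,1),(12,0),(17,0)]⟩,⟨1,[(25,0),(10,0),(0,1)]⟩⟩ ⟨false,1,⟨5,
  [(14,1),(9,0),(0,0),(0,5),(1,0),(7,2)]⟩,⟨0,[(0,0)]⟩⟩]⟩)))) (.I [0,0,1,0,0,-1,-1] (.R ⟨0,false,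
  false,false,[1,0,-1],[0,-1,0,1],[0,0,0,-1,0,-1],(⟨0,[(24,0)]⟩,⟨0,[(25,0)]⟩),(⟨1,[(16,0)]⟩,⟨0,[(21,
  0),(6,0)]⟩),⟨0,[(1,0)]⟩,.k,(.r 0 ⟨19,[(4,7),(17,2),(0,2),(5,3),(2,11)]⟩ ⟨3,[(14,1),(5,1),(1,0),(0,
  0)]⟩),(.x (-1) ⟨7,[(16,3),(5,2),(0,2),(2,1)]⟩ ⟨0,[(28,0)]⟩),(.x 0 ⟨3,[(6,0),(0,1),(1,0)]⟩ ⟨3,[(16,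
  1),(3,1),(1,0),(0,0),(11,3)]⟩),.k,.k,⟨true,0,⟨0,[(0,0)]⟩,⟨1,[(23,0)]⟩⟩,⟨false,1,⟨3,[(20,1),(1,0),
  (0,0),(0,3)]⟩,⟨0,[(6,0),(18,0)]⟩⟩,⟨true,0,⟨0,[(32,0)]⟩,⟨0,[(31,0)]⟩⟩,⟨false,1,⟨1,[(20,0),(2,0),(0,
  1),(7,1),(1,0)]⟩,⟨10,[(0,5),(0,5),(0,4),(2,2),(0,5),(5,1),(18,4)]⟩⟩,⟨false,0,⟨0,[]⟩,⟨0,[]⟩⟩,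
  ⟨false,0,⟨0,[]⟩,⟨0,[]⟩⟩,[.a ⟨true,0,⟨0,[(21,0),(10,0)]⟩,⟨1,[(14,0)]⟩⟩ ⟨false,0,⟨15,[(0,13),(3,11),
  (17,0),(6,5),(2,3)]⟩,⟨5,[(12,1),(9,0),(0,3),(2,0)]⟩⟩ ⟨true,0,⟨1,[(20,0),(3,1),(7,1)]⟩,⟨1,[(1,1),
  (3,0),(2,0)]⟩⟩,.o ⟨false,1,⟨7,[(19,3),(2,0),(0,0),(8,3),(1,5)]⟩,⟨0,[(8,0),(10,0)]⟩⟩,.o ⟨false,1,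
  ⟨1,[(25,1),(0,0),(6,0)]⟩,⟨0,[(11,0),(12,0)]⟩⟩,.e ⟨false,0,⟨0,[(0,0),(3,0)]⟩,⟨3,[(14,1),(5,1),(1,
  0),(0,2)]⟩⟩ ⟨false,1,⟨7,[(19,3),(2,0),(0,0),(0,7),(7,3),(1,5)]⟩,⟨1,[(1,1),(3,0),(2,0)]⟩⟩]⟩) (.Q
  [0,1,1,-1,0,1,0,-1] (.p false [0,0,1] [] (⟨0,[(25,0)]⟩,⟨0,[(24,0)]⟩) .k 0 (⟨0,[]⟩,⟨0,[]⟩) .k .k)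
  (.R ⟨0,false,false,true,[1,0,-1],[1,-1],[1,1],(⟨0,[(25,0)]⟩,⟨0,[(26,0)]⟩),(⟨0,[(28,0)]⟩,⟨0,[(29,
  0)]⟩),⟨0,[(2,0)]⟩,.k,.k,(.x (-1) ⟨7,[(17,3),(5,2),(0,2),(2,1)]⟩ ⟨0,[(29,0)]⟩),(.r 0 ⟨2,[(3,0),(0,
  1),(7,1),(1,0),(6,0),(3,2)]⟩ ⟨19,[(5,7),(17,2),(0,12),(5,3),(2,11)]⟩),.k,.k,⟨true,0,⟨1,[(15,0),(5,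
  0)]⟩,⟨0,[(33,0)]⟩⟩,⟨false,0,⟨0,[(12,0),(12,0)]⟩,⟨0,[(26,0),(7,0)]⟩⟩,⟨false,1,⟨3,[(23,0),(0,2)]⟩,
  ⟨0,[(3,0),(8,0),(12,0)]⟩⟩,⟨true,0,⟨0,[(0,0)]⟩,⟨0,[(3,0),(28,0)]⟩⟩,⟨false,0,⟨0,[]⟩,⟨0,[]⟩⟩,⟨false,
  0,⟨0,[]⟩,⟨0,[]⟩⟩,[.o ⟨false,0,⟨0,[(20,0)]⟩,⟨5,[(13,1),(9,0),(0,0),(2,0),(7,2)]⟩⟩,.e ⟨true,0,⟨0,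
  []⟩,⟨0,[(36,0)]⟩⟩ ⟨true,0,⟨0,[(12,0),(12,0),(7,0)]⟩,⟨8,[(2,3),(3,1),(6,2),(12,4)]⟩⟩,.o ⟨false,1,
  ⟨1,[(26,1),(0,0),(6,0)]⟩,⟨0,[(12,0),(12,0)]⟩⟩,.a ⟨true,0,⟨0,[(26,0)]⟩,⟨0,[(25,0)]⟩⟩ ⟨false,1,⟨3,
  [(23,0),(0,0),(9,1)]⟩,⟨0,[(11,0),(21,1)]⟩⟩ ⟨true,0,⟨0,[(20,0),(4,0)]⟩,⟨8,[(2,3),(3,1),(6,2),(12,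
  4)]⟩⟩]⟩) (.I [0,1,1,1,0,-1,-1] (.R ⟨0,false,false,false,[1,0,-1],[0,-1,0,1],[1,0,-1,-1,0,0,1],(⟨0,
  [(26,0)]⟩,⟨0,[(27,0)]⟩),(⟨1,[(18,0)]⟩,⟨0,[(23,0),(6,0)]⟩),⟨0,[(3,0)]⟩,.k,(.r 0 ⟨19,[(6,7),(17,2),
  (0,2),(5,3),(2,11)]⟩ ⟨7,[(0,1),(14,1),(8,1),(0,2),(11,1)]⟩),(.x (-1) ⟨7,[(18,3),(5,2),(0,2),(2,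
  1)]⟩ ⟨0,[(30,0)]⟩),(.r (-1) ⟨7,[(0,1),(14,1),(8,3),(0,0),(11,1)]⟩ ⟨0,[(2,0),(31,0)]⟩),.k,.k,⟨true,
  0,⟨0,[]⟩,⟨0,[(37,0)]⟩⟩,⟨false,1,⟨3,[(22,1),(1,0),(0,0),(0,3)]⟩,⟨0,[(8,0),(18,0)]⟩⟩,⟨true,0,⟨0,[(2,
  0),(31,0)]⟩,⟨0,[(0,0)]⟩⟩,⟨false,1,⟨1,[(22,0),(2,0),(0,1),(7,1),(1,0)]⟩,⟨1,[(1,1),(19,0),(11,0)]⟩⟩,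
  ⟨false,0,⟨0,[]⟩,⟨0,[]⟩⟩,⟨false,0,⟨0,[]⟩,⟨0,[]⟩⟩,[.a ⟨true,0,⟨0,[(23,0),(10,0)]⟩,⟨1,[(16,0)]⟩⟩
  ⟨false,0,⟨19,[(6,15),(17,0),(0,0),(5,7),(2,3)]⟩,⟨7,[(0,1),(14,1),(8,1),(0,2),(11,1)]⟩⟩ ⟨true,0,⟨1,
  [(22,0),(3,1),(7,1)]⟩,⟨1,[(3,1),(3,0),(2,0)]⟩⟩,.o ⟨false,1,⟨7,[(21,3),(2,0),(0,0),(8,3),(1,5)]⟩,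
  ⟨0,[(10,0),(10,0)]⟩⟩,.o ⟨false,1,⟨1,[(27,1),(0,0),(6,0)]⟩,⟨0,[(13,0),(12,0)]⟩⟩,.e ⟨false,0,⟨0,[(6,
  0)]⟩,⟨7,[(0,1),(14,1),(8,1),(0,2),(11,9)]⟩⟩ ⟨false,1,⟨7,[(21,3),(2,0),(0,0),(0,7),(7,3),(1,5)]⟩,
  ⟨1,[(3,1),(3,0),(2,0)]⟩⟩]⟩) (.Q [0,1,1,0,0,1,0,-1,1] (.p false [0,0,1] [0,0,0,1] (⟨0,[(27,0)]⟩,⟨0,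
  [(26,0)]⟩) .k 2 (⟨0,[(23,0)]⟩,⟨0,[(23,0)]⟩) .k (.r (-1) ⟨1,[(25,0)]⟩ ⟨1,[(24,0)]⟩)) (.Q [0,0,0,-1,
  0,0,0,1,-2] (.p true [0,0,1] [1] (⟨0,[(28,0)]⟩,⟨0,[(27,0)]⟩) .k 1 (⟨0,[]⟩,⟨0,[]⟩) .k .k) (.R ⟨0,
  false,false,true,[1,0,-1],[0,1],[1,1],(⟨0,[(28,0)]⟩,⟨0,[(29,0)]⟩),(⟨0,[(32,0)]⟩,⟨0,[(31,0)]⟩),⟨0,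
  [(5,0)]⟩,.k,.k,(.x (-1) ⟨7,[(20,3),(5,2),(0,2),(2,1)]⟩ ⟨0,[(32,0)]⟩),(.x (-1) ⟨7,[(20,3),(5,2),(0,
  2),(2,1)]⟩ ⟨0,[(32,0)]⟩),.k,.k,⟨false,1,⟨9,[(8,7),(17,2),(0,2),(5,3),(2,1)]⟩,⟨13,[(1,1),(5,1),(9,
  3),(3,1),(2,2)]⟩⟩,⟨true,0,⟨0,[(28,0)]⟩,⟨5,[(0,3),(16,0),(6,1),(4,1),(5,0)]⟩⟩,⟨false,1,⟨3,[(26,0),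
  (0,2)]⟩,⟨0,[(6,0),(8,0),(12,0)]⟩⟩,⟨true,0,⟨1,[(1,1),(16,0)]⟩,⟨0,[(6,0),(16,0)]⟩⟩,⟨false,0,⟨0,[]⟩,
  ⟨0,[]⟩⟩,⟨false,0,⟨0,[]⟩,⟨0,[]⟩⟩,[.o ⟨false,0,⟨0,[(35,0)]⟩,⟨0,[(23,0),(14,0)]⟩⟩,.e ⟨true,0,⟨0,[]⟩,
  ⟨0,[(39,0)]⟩⟩ ⟨true,0,⟨13,[(1,1),(5,1),(9,3),(3,1),(2,2),(3,13)]⟩,⟨0,[(0,0)]⟩⟩,.o ⟨false,1,⟨11,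
  [(0,3),(2,3),(3,3),(18,0),(0,4),(2,3),(6,1)]⟩,⟨0,[(15,0),(12,0)]⟩⟩,.a ⟨true,0,⟨0,[(29,0)]⟩,⟨0,
  [(28,0)]⟩⟩ ⟨false,1,⟨3,[(26,0),(0,0),(9,1)]⟩,⟨0,[(14,0),(21,1)]⟩⟩ ⟨true,0,⟨0,[(28,0),(6,0)]⟩,⟨0,
  [(0,0)]⟩⟩]⟩) (.R ⟨0,false,false,true,[1,0,-1],[0,1],[1,1],(⟨0,[(28,0)]⟩,⟨0,[(29,0)]⟩),(⟨0,[(32,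
  0)]⟩,⟨0,[(31,0)]⟩),⟨0,[(5,0)]⟩,.k,.k,(.x (-1) ⟨7,[(20,3),(5,2),(0,2),(2,1)]⟩ ⟨0,[(32,0)]⟩),(.x
  (-1) ⟨7,[(20,3),(5,2),(0,2),(2,1)]⟩ ⟨0,[(32,0)]⟩),.k,.k,⟨false,1,⟨9,[(8,7),(17,2),(0,2),(5,3),(2,
  1)]⟩,⟨13,[(1,1),(5,1),(9,3),(3,1),(2,2)]⟩⟩,⟨true,0,⟨0,[(28,0)]⟩,⟨5,[(5,3),(3,1),(14,2),(4,1)]⟩⟩,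
  ⟨false,1,⟨3,[(26,0),(0,2)]⟩,⟨0,[(6,0),(8,0),(12,0)]⟩⟩,⟨true,0,⟨1,[(1,1),(16,0)]⟩,⟨0,[(6,0),(16,
  0)]⟩⟩,⟨false,0,⟨0,[]⟩,⟨0,[]⟩⟩,⟨false,0,⟨0,[]⟩,⟨0,[]⟩⟩,[.o ⟨false,0,⟨0,[(35,0)]⟩,⟨0,[(23,0),(14,
  0)]⟩⟩,.a ⟨true,0,⟨0,[(21,0)]⟩,⟨0,[(36,0)]⟩⟩ ⟨true,0,⟨0,[]⟩,⟨0,[(39,0)]⟩⟩ ⟨false,0,⟨0,[(0,0)]⟩,⟨3,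
  [(8,1),(14,1),(2,0),(0,0),(1,3),(0,0)]⟩⟩,.o ⟨false,1,⟨1,[(29,1),(0,0),(6,0)]⟩,⟨0,[(15,0),(12,
  0)]⟩⟩,.e ⟨false,1,⟨3,[(26,0),(0,0),(9,1)]⟩,⟨0,[(14,0),(21,1)]⟩⟩ ⟨false,0,⟨0,[(0,0)]⟩,⟨0,[(23,0),
  (5,0),(8,0)]⟩⟩]⟩)) (.Q [0,1,1,-1,0,1,0,-1,1] (.p false [0,0,1] [0,0,0,1] (⟨0,[(28,0)]⟩,⟨0,[(27,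
  0)]⟩) .k 2 (⟨0,[(24,0)]⟩,⟨0,[(24,0)]⟩) .k (.r (-1) ⟨1,[(26,0)]⟩ ⟨1,[(25,0)]⟩)) (.R ⟨1,false,false,
  false,[0,0,0,1],[1,0,-1],[0,1,1],(⟨0,[(25,0)]⟩,⟨0,[(25,0)]⟩),(⟨0,[(28,0)]⟩,⟨0,[(29,0)]⟩),⟨1,[(20,
  0)]⟩,.k,.k,(.r 0 ⟨39,[(0,7),(6,7),(0,19),(14,3),(2,4),(0,4),(8,7)]⟩ ⟨23,[(0,3),(16,7),(6,1),(1,6),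
  (0,4),(1,3),(5,3)]⟩),.k,(.r 0 ⟨27,[(0,3),(1,21),(4,3),(15,1),(3,2),(5,5)]⟩ ⟨9,[(0,1),(6,1),(9,3),
  (6,0),(1,4)]⟩),.k,⟨true,0,⟨1,[(0,1),(4,1),(3,0),(2,0)]⟩,⟨1,[(1,1),(22,0),(3,1)]⟩⟩,⟨false,0,⟨0,
  [(10,0),(18,0)]⟩,⟨11,[(0,5),(16,1),(6,0),(1,2),(1,5),(1,0),(7,1)]⟩⟩,⟨false,1,⟨31,[(0,11),(16,3),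
  (6,5),(1,8),(0,2),(1,11),(8,3)]⟩,⟨0,[(19,0)]⟩⟩,⟨false,0,⟨0,[(1,0)]⟩,⟨19,[(0,11),(16,3),(8,4),(0,
  8),(0,7),(1,1),(7,3)]⟩⟩,⟨false,1,⟨23,[(0,3),(16,7),(6,1),(1,6),(0,4),(1,3),(5,3)]⟩,⟨3,[(8,1),(27,
  1),(1,0)]⟩⟩,⟨true,0,⟨1,[(3,1),(19,0),(11,0)]⟩,⟨0,[(0,0)]⟩⟩,[.o ⟨false,0,⟨0,[(3,0),(19,0)]⟩,⟨39,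
  [(0,23),(16,7),(8,4),(0,12),(0,15),(1,13),(7,7)]⟩⟩,.a ⟨true,0,⟨0,[(6,0)]⟩,⟨1,[(0,1),(17,0)]⟩⟩
  ⟨true,0,⟨0,[(39,0)]⟩,⟨0,[]⟩⟩ ⟨false,0,⟨1,[(1,1),(35,0)]⟩,⟨5,[(0,5),(15,1),(9,0),(0,0),(2,0)]⟩⟩,.o
  ⟨false,1,⟨7,[(26,0),(0,0),(2,1)]⟩,⟨7,[(26,0),(0,0),(2,1)]⟩⟩,.o ⟨false,1,⟨3,[(24,1),(1,0),(0,0)]⟩,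
  ⟨0,[(22,0)]⟩⟩]⟩) (.Q [0,0,0,-1,0,0,0,1,-2] (.p true [0,0,1] [1] (⟨0,[(29,0)]⟩,⟨0,[(28,0)]⟩) .k 1
  (⟨0,[]⟩,⟨0,[]⟩) .k .k) (.I [0,1,-2,-1,0,-1] (.R ⟨0,false,false,false,[1,0,-1],[0,1],[0,1,0,0,0,
  -1],(⟨0,[(30,0)]⟩,⟨0,[(31,0)]⟩),(⟨0,[(34,0)]⟩,⟨0,[(33,0)]⟩),⟨0,[(7,0)]⟩,.k,.k,(.x (-1) ⟨7,[(22,3),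
  (5,2),(0,2),(2,1)]⟩ ⟨0,[(34,0)]⟩),(.x (-1) ⟨7,[(22,3),(5,2),(0,2),(2,1)]⟩ ⟨0,[(34,0)]⟩),.k,.k,
  ⟨false,0,⟨0,[(0,0)]⟩,⟨11,[(19,3),(8,0),(0,6),(10,3),(0,3)]⟩⟩,⟨true,0,⟨0,[(30,0)]⟩,⟨5,[(1,3),(17,
  0),(6,1),(4,1),(5,0)]⟩⟩,⟨true,0,⟨0,[(42,0)]⟩,⟨0,[]⟩⟩,⟨false,1,⟨11,[(19,3),(8,0),(0,6),(0,11),(9,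
  3),(0,3)]⟩,⟨3,[(0,1),(0,1),(1,1),(22,0)]⟩⟩,⟨false,0,⟨0,[]⟩,⟨0,[]⟩⟩,⟨false,0,⟨0,[]⟩,⟨0,[]⟩⟩,[.a
  ⟨true,0,⟨0,[(23,0)]⟩,⟨0,[(38,0)]⟩⟩ ⟨false,0,⟨4,[(0,3),(8,0),(9,0),(6,0),(3,0),(6,0)]⟩,⟨1,[(29,0),
  (10,0)]⟩⟩ ⟨true,0,⟨1,[(20,0),(5,0),(3,1)]⟩,⟨0,[(1,0)]⟩⟩,.o ⟨false,1,⟨5,[(18,1),(9,0),(0,0),(2,0),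
  (7,2)]⟩,⟨0,[(25,0)]⟩⟩,.o ⟨false,1,⟨1,[(31,1),(0,0),(6,0)]⟩,⟨0,[(17,0),(12,0)]⟩⟩,.e ⟨false,0,⟨3,
  [(0,1),(1,1),(23,0),(3,1)]⟩,⟨1,[(29,0),(10,0),(0,1)]⟩⟩ ⟨false,1,⟨5,[(18,1),(9,0),(0,0),(0,5),(1,
  0),(7,2)]⟩,⟨0,[(1,0)]⟩⟩]⟩) (.R ⟨0,false,false,true,[1,0,-1],[0,1],[1,1],(⟨0,[(30,0)]⟩,⟨0,[(31,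
  0)]⟩),(⟨0,[(34,0)]⟩,⟨0,[(33,0)]⟩),⟨0,[(7,0)]⟩,.k,.k,(.x (-1) ⟨7,[(22,3),(5,2),(0,2),(2,1)]⟩ ⟨0,
  [(34,0)]⟩),(.x (-1) ⟨7,[(22,3),(5,2),(0,2),(2,1)]⟩ ⟨0,[(34,0)]⟩),.k,.k,⟨false,1,⟨9,[(10,7),(17,2),
  (0,2),(5,3),(2,1)]⟩,⟨1,[(20,0),(5,0)]⟩⟩,⟨true,0,⟨0,[(30,0)]⟩,⟨5,[(1,3),(17,0),(6,1),(4,1),(5,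
  0)]⟩⟩,⟨false,1,⟨3,[(28,0),(0,2)]⟩,⟨1,[(3,1),(22,0),(3,1)]⟩⟩,⟨true,0,⟨0,[(0,0),(29,0),(4,0)]⟩,⟨0,
  [(8,0),(16,0)]⟩⟩,⟨false,0,⟨0,[]⟩,⟨0,[]⟩⟩,⟨false,0,⟨0,[]⟩,⟨0,[]⟩⟩,[.o ⟨false,0,⟨0,[(37,0)]⟩,⟨0,
  [(25,0),(14,0)]⟩⟩,.e ⟨true,0,⟨0,[]⟩,⟨0,[(41,0)]⟩⟩ ⟨true,0,⟨1,[(20,0),(5,0),(3,1)]⟩,⟨0,[(1,0)]⟩⟩,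
  .o ⟨false,1,⟨1,[(31,1),(0,0),(6,0)]⟩,⟨0,[(17,0),(12,0)]⟩⟩,.a ⟨true,0,⟨0,[(31,0)]⟩,⟨0,[(30,0)]⟩⟩
  ⟨false,1,⟨3,[(28,0),(0,0),(9,1)]⟩,⟨0,[(0,1),(1,1),(22,0),(4,1),(4,0),(2,2)]⟩⟩ ⟨true,0,⟨0,[(30,0),
  (6,0)]⟩,⟨0,[(1,0)]⟩⟩]⟩)) (.I [1,-1,-1,0,0,-1] (.R ⟨0,false,false,false,[1,0,-1],[0,1],[0,1,0,0,0,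
  -1],(⟨0,[(30,0)]⟩,⟨0,[(31,0)]⟩),(⟨0,[(34,0)]⟩,⟨0,[(33,0)]⟩),⟨0,[(7,0)]⟩,.k,.k,(.x (-1) ⟨7,[(22,3),
  (5,2),(0,2),(2,1)]⟩ ⟨0,[(34,0)]⟩),(.x (-1) ⟨7,[(22,3),(5,2),(0,2),(2,1)]⟩ ⟨0,[(34,0)]⟩),.k,.k,
  ⟨false,0,⟨0,[(0,0),(34,0),(2,0)]⟩,⟨11,[(19,3),(8,0),(0,6),(10,3),(0,3)]⟩⟩,⟨true,0,⟨0,[(30,0)]⟩,⟨5,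
  [(7,3),(3,1),(14,2),(4,1)]⟩⟩,⟨true,0,⟨0,[(42,0)]⟩,⟨0,[]⟩⟩,⟨false,1,⟨11,[(19,3),(8,0),(0,6),(0,11),
  (9,3),(0,3)]⟩,⟨0,[(8,0),(16,0)]⟩⟩,⟨false,0,⟨0,[]⟩,⟨0,[]⟩⟩,⟨false,0,⟨0,[]⟩,⟨0,[]⟩⟩,[.e ⟨false,0,⟨2,
  [(0,1),(8,0),(16,0),(3,0),(4,1)]⟩,⟨1,[(29,0),(10,0)]⟩⟩ ⟨false,0,⟨0,[(1,0)]⟩,⟨3,[(10,1),(14,1),(2,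
  0),(0,0),(1,3),(0,0)]⟩⟩,.o ⟨false,1,⟨5,[(18,1),(9,0),(0,0),(2,0),(7,2)]⟩,⟨0,[(25,0)]⟩⟩,.o ⟨false,
  1,⟨1,[(31,1),(0,0),(6,0)]⟩,⟨0,[(17,0),(12,0)]⟩⟩,.a ⟨true,0,⟨0,[(31,0)]⟩,⟨0,[(30,0)]⟩⟩ ⟨false,0,⟨5,
  [(0,4),(8,0),(16,0),(3,0),(4,1)]⟩,⟨1,[(29,0),(10,0),(0,1)]⟩⟩ ⟨true,0,⟨0,[(1,0)]⟩,⟨0,[(25,0),(5,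
  0)]⟩⟩]⟩) (.R ⟨0,false,false,true,[1,0,-1],[0,1],[1,1],(⟨0,[(30,0)]⟩,⟨0,[(31,0)]⟩),(⟨0,[(34,0)]⟩,
  ⟨0,[(33,0)]⟩),⟨0,[(7,0)]⟩,.k,.k,(.x (-1) ⟨7,[(22,3),(5,2),(0,2),(2,1)]⟩ ⟨0,[(34,0)]⟩),(.x (-1) ⟨7,
  [(22,3),(5,2),(0,2),(2,1)]⟩ ⟨0,[(34,0)]⟩),.k,.k,⟨false,1,⟨9,[(10,7),(17,2),(0,2),(5,3),(2,1)]⟩,⟨1,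
  [(20,0),(5,0)]⟩⟩,⟨true,0,⟨0,[(30,0)]⟩,⟨5,[(7,3),(3,1),(14,2),(4,1)]⟩⟩,⟨false,1,⟨3,[(28,0),(0,2)]⟩,
  ⟨1,[(3,1),(22,0),(3,1)]⟩⟩,⟨true,0,⟨0,[(0,0),(0,0)]⟩,⟨0,[(8,0),(16,0)]⟩⟩,⟨false,0,⟨0,[]⟩,⟨0,[]⟩⟩,
  ⟨false,0,⟨0,[]⟩,⟨0,[]⟩⟩,[.o ⟨false,0,⟨0,[(37,0)]⟩,⟨0,[(25,0),(14,0)]⟩⟩,.a ⟨true,0,⟨0,[(23,0)]⟩,⟨0,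
  [(38,0)]⟩⟩ ⟨true,0,⟨0,[]⟩,⟨0,[(41,0)]⟩⟩ ⟨false,0,⟨0,[(1,0)]⟩,⟨3,[(10,1),(14,1),(2,0),(0,0),(1,3),
  (0,0)]⟩⟩,.o ⟨false,1,⟨1,[(31,1),(0,0),(6,0)]⟩,⟨0,[(17,0),(12,0)]⟩⟩,.e ⟨false,1,⟨3,[(28,0),(0,0),
  (9,1)]⟩,⟨0,[(16,0),(21,1)]⟩⟩ ⟨false,0,⟨0,[(1,0)]⟩,⟨0,[(25,0),(5,0),(8,0)]⟩⟩]⟩)))))))))

def t2 : Tre :=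
  (.I [0,1,2,1,0,0,-1] (.S ⟨1,0,[0,1,-1,-2,0,0,1],[0,-1,0,1],[1,0,-1,-1,0,0,1],(⟨1,[(12,0)]⟩,⟨0,
  [(17,0),(6,0)]⟩),⟨0,[(1,0)]⟩,(.r 0 ⟨1,[(28,1),(0,0)]⟩ ⟨15,[(0,3),(8,3),(8,4),(0,4)]⟩),(.r 0 ⟨1,
  [(2,0),(2,0),(22,3)]⟩ ⟨7,[(0,3),(8,3),(8,2),(0,2)]⟩),⟨true,0,⟨0,[]⟩,⟨19,[(0,3),(17,0),(0,0),(5,7),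
  (2,3)]⟩⟩,⟨false,0,⟨0,[(28,0)]⟩,⟨5,[(8,1),(9,0),(0,0),(2,0),(7,2)]⟩⟩,⟨false,1,⟨5,[(8,1),(9,0),(0,
  0),(2,0),(7,2)]⟩,⟨0,[(28,0)]⟩⟩,⟨true,0,⟨19,[(0,3),(17,0),(0,0),(5,7),(2,3)]⟩,⟨0,[]⟩⟩,[.o ⟨false,0,
  ⟨39,[(0,3),(14,19),(2,0),(0,0),(5,7),(2,63)]⟩,⟨17,[(2,1),(5,9),(0,1),(12,8),(7,7)]⟩⟩,.a ⟨true,0,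
  ⟨0,[(17,0),(10,1)]⟩,⟨0,[(4,0)]⟩⟩ ⟨true,0,⟨0,[(11,0),(16,0)]⟩,⟨0,[(0,0)]⟩⟩ ⟨false,0,⟨1,[(2,0),(2,
  0),(22,3)]⟩,⟨47,[(0,11),(7,15),(0,11),(8,10),(0,10),(2,7)]⟩⟩,.o ⟨false,1,⟨3,[(16,1),(1,0),(0,0)]⟩,
  ⟨0,[(14,0)]⟩⟩,.o ⟨false,1,⟨3,[(16,1),(1,0),(0,0),(11,3)]⟩,⟨0,[(2,0)]⟩⟩]⟩) (.Q [0,1,-1,0,0,-1,0,1]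
  (.p true [0,0,1] [] (⟨0,[(21,0)]⟩,⟨0,[(20,0)]⟩) .k 0 (⟨0,[]⟩,⟨0,[]⟩) .k .k) (.Q [0,1,1,0,0,1,0,
  -1] (.p false [0,0,1] [] (⟨0,[(22,0)]⟩,⟨0,[(21,0)]⟩) .k 0 (⟨0,[]⟩,⟨0,[]⟩) .k .k) (.K ⟨0,[0,0,1],0,
  0,(⟨0,[(23,0)]⟩,⟨0,[(22,0)]⟩),.k,(.r (-1) ⟨19,[(2,7),(17,2),(0,12),(5,3),(2,11)]⟩ ⟨1,[(1,1),(6,0),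
  (0,1),(12,1),(5,0)]⟩),(.x 0 ⟨0,[(26,0)]⟩ ⟨7,[(14,3),(5,2),(0,2),(2,1)]⟩),.k,.k,[⟨0,[(23,0)]⟩,⟨0,
  [(18,0),(3,0)]⟩,⟨0,[(1,0)]⟩,⟨0,[(0,0)]⟩]⟩) t1) (.I [0,0,0,0,0,1] (.Q [0,0,0,-1,0,0,0,-1,1] (.p
  false [0,0,1] [0,0,0,1] (⟨0,[(23,0)]⟩,⟨0,[(22,0)]⟩) .k 2 (⟨0,[(19,0)]⟩,⟨0,[(19,0)]⟩) .k (.r (-1)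
  ⟨1,[(21,0)]⟩ ⟨1,[(20,0)]⟩)) (.R ⟨1,false,false,false,[1,0,-1],[0,1],[1,0,0,0,0,-1],(⟨0,[(23,0)]⟩,
  ⟨0,[(24,0)]⟩),(⟨0,[(27,0)]⟩,⟨0,[(26,0)]⟩),⟨1,[(0,1),(3,0),(2,0)]⟩,.k,.k,(.x (-1) ⟨7,[(15,3),(5,2),
  (0,2),(2,1)]⟩ ⟨0,[(27,0)]⟩),(.x (-1) ⟨7,[(15,3),(5,2),(0,2),(2,1)]⟩ ⟨0,[(27,0)]⟩),(.r (-1) ⟨19,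
  [(3,15),(17,10),(0,0),(5,7),(2,23)]⟩ ⟨0,[(1,0),(11,0),(5,0)]⟩),.k,⟨false,1,⟨19,[(3,15),(17,10),(0,
  0),(5,7),(2,3)]⟩,⟨1,[(1,1),(11,0),(5,0)]⟩⟩,⟨true,0,⟨0,[(23,0)]⟩,⟨0,[(10,0),(13,0)]⟩⟩,⟨true,0,⟨0,
  []⟩,⟨0,[(35,0)]⟩⟩,⟨false,0,⟨0,[(2,0),(13,0)]⟩,⟨3,[(3,1),(14,1),(2,1),(2,3),(0,0)]⟩⟩,⟨false,1,⟨5,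
  [(11,1),(9,0),(0,0),(2,0),(7,2)]⟩,⟨0,[(31,0)]⟩⟩,⟨false,0,⟨0,[(2,0),(10,0)]⟩,⟨3,[(3,1),(14,3),(2,
  1),(2,3),(6,1),(1,0)]⟩⟩,[.e ⟨false,1,⟨1,[(21,0),(10,0)]⟩,⟨0,[(1,0)]⟩⟩ ⟨false,0,⟨0,[(0,0),(6,0)]⟩,
  ⟨3,[(3,1),(14,1),(2,0),(0,0),(1,3),(0,0)]⟩⟩,.o ⟨false,1,⟨5,[(11,1),(9,0),(0,0),(2,0),(7,2)]⟩,⟨0,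
  [(18,0)]⟩⟩,.o ⟨false,1,⟨1,[(24,1),(0,0),(6,0)]⟩,⟨0,[(10,0),(12,0)]⟩⟩,.a ⟨true,0,⟨0,[(24,0)]⟩,⟨0,
  [(23,0)]⟩⟩ ⟨false,1,⟨31,[(3,13),(1,3),(3,3),(1,1),(9,15),(11,6)]⟩,⟨0,[(1,0),(32,0)]⟩⟩ ⟨true,0,⟨0,
  [(0,0),(6,0)]⟩,⟨0,[(18,0),(5,0)]⟩⟩]⟩) (.Q [0,0,0,0,-1,0,0,-1,2] (.ed true [0,1,1] .k) (.Q [0,0,0,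
  1,0,0,0,-1,2] (.p false [0,0,1] [1] (⟨0,[(25,0)]⟩,⟨0,[(24,0)]⟩) .k 1 (⟨0,[]⟩,⟨0,[]⟩) .k .k) (.R
  ⟨1,false,false,false,[1,0,-1],[0,1],[1,0,0,0,0,-1],(⟨0,[(25,0)]⟩,⟨0,[(26,0)]⟩),(⟨0,[(29,0)]⟩,⟨0,
  [(28,0)]⟩),⟨0,[(1,0)]⟩,.k,.k,(.x (-1) ⟨7,[(17,3),(5,2),(0,2),(2,1)]⟩ ⟨0,[(29,0)]⟩),(.x (-1) ⟨7,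
  [(17,3),(5,2),(0,2),(2,1)]⟩ ⟨0,[(29,0)]⟩),(.r (-1) ⟨19,[(5,15),(17,10),(0,0),(5,7),(2,23)]⟩ ⟨0,
  [(3,0),(11,0),(5,0)]⟩),.k,⟨false,1,⟨19,[(5,15),(17,10),(0,0),(5,7),(2,3)]⟩,⟨1,[(3,1),(11,0),(5,
  0)]⟩⟩,⟨true,0,⟨0,[(25,0)]⟩,⟨0,[(12,0),(13,0)]⟩⟩,⟨true,0,⟨0,[]⟩,⟨0,[(37,0)]⟩⟩,⟨false,0,⟨0,[(4,0),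
  (13,0)]⟩,⟨3,[(5,1),(14,1),(2,1),(2,3),(0,0)]⟩⟩,⟨false,1,⟨5,[(13,1),(9,0),(0,0),(2,0),(7,2)]⟩,⟨0,
  [(33,0)]⟩⟩,⟨false,0,⟨0,[(4,0),(10,0)]⟩,⟨3,[(5,1),(14,3),(2,1),(2,3),(6,1),(1,0)]⟩⟩,[.e ⟨false,1,
  ⟨1,[(23,0),(10,0)]⟩,⟨0,[(3,0)]⟩⟩ ⟨false,0,⟨0,[(0,0)]⟩,⟨3,[(5,1),(14,1),(2,0),(0,0),(1,3),(0,0)]⟩⟩,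
  .o ⟨false,1,⟨5,[(13,1),(9,0),(0,0),(2,0),(7,2)]⟩,⟨0,[(20,0)]⟩⟩,.o ⟨false,1,⟨1,[(26,1),(0,0),(6,
  0)]⟩,⟨0,[(12,0),(12,0)]⟩⟩,.a ⟨true,0,⟨0,[(26,0)]⟩,⟨0,[(25,0)]⟩⟩ ⟨false,1,⟨31,[(5,13),(1,3),(3,3),
  (1,1),(9,15),(11,6)]⟩,⟨0,[(3,0),(32,0)]⟩⟩ ⟨true,0,⟨0,[(0,0)]⟩,⟨0,[(20,0),(5,0)]⟩⟩]⟩) (.R ⟨1,false,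
  false,false,[1,0,-1],[0,1],[1,0,0,0,0,-1],(⟨0,[(25,0)]⟩,⟨0,[(26,0)]⟩),(⟨0,[(29,0)]⟩,⟨0,[(28,0)]⟩),
  ⟨0,[(1,0)]⟩,.k,.k,(.x (-1) ⟨7,[(17,3),(5,2),(0,2),(2,1)]⟩ ⟨0,[(29,0)]⟩),(.x (-1) ⟨7,[(17,3),(5,2),
  (0,2),(2,1)]⟩ ⟨0,[(29,0)]⟩),(.r (-1) ⟨19,[(5,15),(17,10),(0,0),(5,7),(2,23)]⟩ ⟨0,[(3,0),(11,0),(5,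
  0)]⟩),.k,⟨false,1,⟨19,[(5,15),(17,10),(0,0),(5,7),(2,3)]⟩,⟨1,[(3,1),(11,0),(5,0)]⟩⟩,⟨true,0,⟨0,
  [(25,0)]⟩,⟨5,[(0,1),(1,1),(18,2),(4,1)]⟩⟩,⟨true,0,⟨0,[]⟩,⟨0,[(37,0)]⟩⟩,⟨false,0,⟨0,[(4,0),(13,
  0)]⟩,⟨1,[(0,1),(22,0),(10,0)]⟩⟩,⟨false,1,⟨5,[(13,1),(9,0),(0,0),(2,0),(7,2)]⟩,⟨0,[(33,0)]⟩⟩,
  ⟨false,0,⟨0,[(4,0),(10,0)]⟩,⟨19,[(0,19),(4,7),(17,12),(0,2),(5,3),(2,11)]⟩⟩,[.a ⟨true,0,⟨0,[(18,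
  0)]⟩,⟨0,[(33,0)]⟩⟩ ⟨false,1,⟨1,[(23,0),(10,0)]⟩,⟨0,[(3,0)]⟩⟩ ⟨true,0,⟨1,[(15,0),(5,0),(3,1)]⟩,⟨0,
  [(0,0)]⟩⟩,.o ⟨false,1,⟨5,[(13,1),(9,0),(0,0),(2,0),(7,2)]⟩,⟨0,[(20,0)]⟩⟩,.o ⟨false,1,⟨15,[(0,7),
  (1,7),(20,2),(0,2),(2,1),(6,7)]⟩,⟨0,[(12,0),(12,0)]⟩⟩,.e ⟨false,1,⟨31,[(5,13),(1,3),(3,3),(1,1),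
  (9,15),(11,6)]⟩,⟨0,[(3,0),(32,0)]⟩⟩ ⟨false,1,⟨5,[(13,1),(9,0),(0,0),(0,5),(1,0),(7,2)]⟩,⟨0,[(0,
  0)]⟩⟩]⟩)) (.Q [0,0,0,-1,0,0,0,1,-2] (.p true [0,0,1] [1] (⟨0,[(25,0)]⟩,⟨0,[(24,0)]⟩) .k 1 (⟨0,[]⟩,
  ⟨0,[]⟩) .k .k) (.R ⟨0,false,false,false,[1,0,-1],[0,1],[1,0,0,0,0,-1],(⟨0,[(25,0)]⟩,⟨0,[(26,0)]⟩),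
  (⟨0,[(29,0)]⟩,⟨0,[(28,0)]⟩),⟨0,[(1,0)]⟩,.k,.k,(.x (-1) ⟨7,[(17,3),(5,2),(0,2),(2,1)]⟩ ⟨0,[(29,
  0)]⟩),(.x (-1) ⟨7,[(17,3),(5,2),(0,2),(2,1)]⟩ ⟨0,[(29,0)]⟩),.k,.k,⟨false,1,⟨19,[(5,15),(17,10),(0,
  0),(5,7),(2,3)]⟩,⟨1,[(3,1),(11,0),(5,0)]⟩⟩,⟨true,0,⟨0,[(25,0)]⟩,⟨5,[(0,1),(1,1),(18,2),(4,1)]⟩⟩,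
  ⟨true,0,⟨0,[]⟩,⟨0,[(37,0)]⟩⟩,⟨false,0,⟨0,[(4,0),(13,0)]⟩,⟨1,[(0,1),(22,0),(10,0)]⟩⟩,⟨false,0,⟨0,
  []⟩,⟨0,[]⟩⟩,⟨false,0,⟨0,[]⟩,⟨0,[]⟩⟩,[.a ⟨true,0,⟨0,[(18,0)]⟩,⟨0,[(33,0)]⟩⟩ ⟨false,1,⟨1,[(23,0),
  (10,0)]⟩,⟨0,[(3,0)]⟩⟩ ⟨true,0,⟨1,[(15,0),(5,0),(3,1)]⟩,⟨0,[(0,0)]⟩⟩,.o ⟨false,1,⟨5,[(13,1),(9,0),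
  (0,0),(2,0),(7,2)]⟩,⟨0,[(20,0)]⟩⟩,.o ⟨false,1,⟨15,[(0,7),(1,7),(20,2),(0,2),(2,1),(6,7)]⟩,⟨0,[(12,
  0),(12,0)]⟩⟩,.e ⟨false,1,⟨31,[(5,13),(1,3),(3,3),(1,1),(9,15),(11,6)]⟩,⟨0,[(3,0),(32,0)]⟩⟩ ⟨false,
  1,⟨5,[(13,1),(9,0),(0,0),(0,5),(1,0),(7,2)]⟩,⟨0,[(0,0)]⟩⟩]⟩) (.R ⟨0,false,false,false,[1,0,-1],[0,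
  1],[1,0,0,0,0,-1],(⟨0,[(25,0)]⟩,⟨0,[(26,0)]⟩),(⟨0,[(29,0)]⟩,⟨0,[(28,0)]⟩),⟨0,[(1,0)]⟩,.k,.k,(.x
  (-1) ⟨7,[(17,3),(5,2),(0,2),(2,1)]⟩ ⟨0,[(29,0)]⟩),(.x (-1) ⟨7,[(17,3),(5,2),(0,2),(2,1)]⟩ ⟨0,[(29,
  0)]⟩),.k,.k,⟨false,1,⟨19,[(5,15),(17,10),(0,0),(5,7),(2,3)]⟩,⟨1,[(3,1),(11,0),(5,0)]⟩⟩,⟨true,0,⟨0,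
  [(25,0)]⟩,⟨5,[(1,3),(4,1),(14,2),(4,1)]⟩⟩,⟨true,0,⟨0,[]⟩,⟨0,[(37,0)]⟩⟩,⟨false,0,⟨0,[(4,0),(13,
  0)]⟩,⟨3,[(5,1),(14,1),(2,1),(2,3),(0,0)]⟩⟩,⟨false,0,⟨0,[]⟩,⟨0,[]⟩⟩,⟨false,0,⟨0,[]⟩,⟨0,[]⟩⟩,[.e
  ⟨false,1,⟨1,[(23,0),(10,0)]⟩,⟨0,[(3,0)]⟩⟩ ⟨false,0,⟨0,[(0,0)]⟩,⟨3,[(5,1),(14,1),(2,0),(0,0),(1,3),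
  (0,0)]⟩⟩,.o ⟨false,1,⟨5,[(13,1),(9,0),(0,0),(2,0),(7,2)]⟩,⟨0,[(20,0)]⟩⟩,.o ⟨false,1,⟨1,[(26,1),(0,
  0),(6,0)]⟩,⟨0,[(12,0),(12,0)]⟩⟩,.a ⟨true,0,⟨0,[(26,0)]⟩,⟨0,[(25,0)]⟩⟩ ⟨false,1,⟨31,[(5,13),(1,3),
  (3,3),(1,1),(9,15),(11,6)]⟩,⟨0,[(3,0),(32,0)]⟩⟩ ⟨true,0,⟨0,[(0,0)]⟩,⟨0,[(20,0),(5,0)]⟩⟩]⟩)))) (.Q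
  [0,0,0,0,-1,0,0,-1,2] (.ed true [0,1,1] .k) (.Q [0,0,0,1,0,0,0,-1,2] (.p false [0,0,1] [1] (⟨0,
  [(24,0)]⟩,⟨0,[(23,0)]⟩) .k 1 (⟨0,[]⟩,⟨0,[]⟩) .k .k) (.R ⟨1,false,false,true,[1,0,-1],[0,1],[1,1,0,
  0,0,-1],(⟨0,[(24,0)]⟩,⟨0,[(25,0)]⟩),(⟨0,[(28,0)]⟩,⟨0,[(27,0)]⟩),⟨0,[(1,0)]⟩,.k,.k,(.x (-1) ⟨7,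
  [(16,3),(5,2),(0,2),(2,1)]⟩ ⟨0,[(28,0)]⟩),(.x (-1) ⟨7,[(16,3),(5,2),(0,2),(2,1)]⟩ ⟨0,[(28,0)]⟩),
  (.r (-1) ⟨19,[(4,15),(17,10),(0,0),(5,7),(2,23)]⟩ ⟨1,[(3,1),(10,0),(5,0),(4,1),(5,1)]⟩),.k,⟨false,
  1,⟨19,[(4,15),(17,10),(0,0),(5,7),(2,3)]⟩,⟨0,[(3,0),(21,0),(5,0)]⟩⟩,⟨true,0,⟨0,[(24,0)]⟩,⟨0,[(11,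
  0),(13,0)]⟩⟩,⟨false,0,⟨0,[]⟩,⟨3,[(22,0),(0,0),(10,1)]⟩⟩,⟨false,0,⟨0,[(3,0),(13,0),(18,0)]⟩,⟨1,[(4,
  1),(6,1),(10,0),(2,1)]⟩⟩,⟨true,0,⟨0,[(31,0)]⟩,⟨0,[(32,0)]⟩⟩,⟨false,0,⟨0,[(3,0),(10,0),(21,0)]⟩,⟨7,
  [(2,1),(1,9),(14,1),(0,5),(1,2),(2,7),(6,3)]⟩⟩,[.o ⟨false,0,⟨0,[(31,0)]⟩,⟨0,[(19,0),(14,0)]⟩⟩,.a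
  ⟨true,0,⟨0,[(17,0)]⟩,⟨0,[(32,0)]⟩⟩ ⟨true,0,⟨0,[(2,0)]⟩,⟨0,[(3,0),(21,0),(10,0)]⟩⟩ ⟨false,0,⟨0,[(0,
  0)]⟩,⟨3,[(4,1),(14,1),(2,0),(0,0),(1,3),(0,0)]⟩⟩,.o ⟨false,1,⟨1,[(25,1),(0,0),(6,0)]⟩,⟨0,[(11,0),
  (12,0)]⟩⟩,.e ⟨false,1,⟨1,[(22,0),(10,0)]⟩,⟨0,[(3,0),(21,0)]⟩⟩ ⟨false,0,⟨0,[(0,0)]⟩,⟨0,[(19,0),(5,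
  0),(8,0)]⟩⟩]⟩) (.R ⟨1,false,false,true,[1,0,-1],[0,1],[1,1,0,0,0,-1],(⟨0,[(24,0)]⟩,⟨0,[(25,0)]⟩),
  (⟨0,[(28,0)]⟩,⟨0,[(27,0)]⟩),⟨0,[(1,0)]⟩,.k,.k,(.x (-1) ⟨7,[(16,3),(5,2),(0,2),(2,1)]⟩ ⟨0,[(28,
  0)]⟩),(.x (-1) ⟨7,[(16,3),(5,2),(0,2),(2,1)]⟩ ⟨0,[(28,0)]⟩),(.r (-1) ⟨19,[(4,15),(17,10),(0,0),(5,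
  7),(2,23)]⟩ ⟨1,[(3,1),(10,0),(5,0),(4,1),(5,1)]⟩),.k,⟨false,1,⟨19,[(4,15),(17,10),(0,0),(5,7),(2,
  3)]⟩,⟨0,[(3,0),(21,0),(5,0)]⟩⟩,⟨true,0,⟨0,[(24,0)]⟩,⟨5,[(0,3),(12,0),(6,1),(4,1),(5,0)]⟩⟩,⟨false,
  0,⟨0,[]⟩,⟨3,[(22,0),(0,0),(10,1)]⟩⟩,⟨false,0,⟨0,[(3,0),(13,0),(18,0)]⟩,⟨23,[(0,21),(3,9),(1,3),(3,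
  3),(11,11),(2,1),(8,4)]⟩⟩,⟨true,0,⟨0,[(31,0)]⟩,⟨0,[(32,0)]⟩⟩,⟨false,0,⟨0,[(3,0),(10,0),(21,0)]⟩,
  ⟨3,[(0,3),(3,1),(17,1),(9,1),(1,0)]⟩⟩,[.o ⟨false,0,⟨0,[(31,0)]⟩,⟨0,[(19,0),(14,0)]⟩⟩,.e ⟨true,0,
  ⟨0,[(2,0)]⟩,⟨0,[(3,0),(21,0),(10,0)]⟩⟩ ⟨true,0,⟨1,[(14,0),(5,0),(3,1)]⟩,⟨0,[(0,0)]⟩⟩,.o ⟨false,1,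
  ⟨1,[(25,1),(0,0),(6,0)]⟩,⟨0,[(11,0),(12,0)]⟩⟩,.a ⟨true,0,⟨0,[(25,0)]⟩,⟨0,[(24,0)]⟩⟩ ⟨false,1,⟨1,
  [(22,0),(10,0)]⟩,⟨0,[(3,0),(21,0)]⟩⟩ ⟨true,0,⟨0,[(24,0),(6,0)]⟩,⟨0,[(0,0)]⟩⟩]⟩)) (.I [0,0,0,0,0,
  -1] (.R ⟨0,false,false,true,[1,0,-1],[1,-1],[1,1],(⟨0,[(24,0)]⟩,⟨0,[(25,0)]⟩),(⟨0,[(27,0)]⟩,⟨0,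
  [(28,0)]⟩),⟨0,[(1,0)]⟩,.k,.k,(.x (-1) ⟨7,[(16,3),(5,2),(0,2),(2,1)]⟩ ⟨0,[(28,0)]⟩),(.r 0 ⟨1,[(2,
  1),(11,0),(5,0)]⟩ ⟨19,[(4,7),(17,2),(0,12),(5,3),(2,11)]⟩),.k,.k,⟨true,0,⟨1,[(14,0),(5,0)]⟩,⟨0,
  [(32,0)]⟩⟩,⟨false,0,⟨0,[(11,0),(12,0)]⟩,⟨0,[(25,0),(7,0)]⟩⟩,⟨true,0,⟨0,[(3,0),(21,0),(3,0)]⟩,⟨0,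
  [(0,0)]⟩⟩,⟨false,0,⟨0,[(3,0),(28,0),(3,0)]⟩,⟨31,[(4,9),(1,11),(3,11),(1,5),(9,15),(2,31),(8,4)]⟩⟩,
  ⟨false,0,⟨0,[]⟩,⟨0,[]⟩⟩,⟨false,0,⟨0,[]⟩,⟨0,[]⟩⟩,[.o ⟨false,0,⟨0,[(19,0)]⟩,⟨5,[(12,1),(9,0),(0,0),
  (2,0),(7,2)]⟩⟩,.e ⟨true,0,⟨0,[]⟩,⟨0,[(35,0)]⟩⟩ ⟨true,0,⟨2,[(2,0),(0,0),(15,0),(0,0),(3,1),(7,1)]⟩,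
  ⟨8,[(1,3),(3,1),(6,2),(12,4)]⟩⟩,.o ⟨false,1,⟨1,[(25,1),(0,0),(6,0)]⟩,⟨0,[(11,0),(12,0)]⟩⟩,.a
  ⟨true,0,⟨0,[(25,0)]⟩,⟨0,[(24,0)]⟩⟩ ⟨false,1,⟨3,[(22,0),(0,0),(9,1)]⟩,⟨1,[(0,1),(0,1),(1,1),(1,0),
  (2,2),(23,5)]⟩⟩ ⟨true,0,⟨0,[(19,0),(4,0)]⟩,⟨8,[(1,3),(3,1),(6,2),(12,4)]⟩⟩]⟩) (.N [0,0,1] 0 ⟨0,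
  [(0,0)]⟩ ⟨0,[(2,0)]⟩ .k))))))

def t3 : Tre :=
  (.Q [0,1,-1,0,0,-1,0,1] (.p true [0,0,1] [] (⟨0,[(19,0)]⟩,⟨0,[(18,0)]⟩) .k 0 (⟨0,[]⟩,⟨0,[]⟩) .k
  .k) (.Q [0,-1,-1,0,0,-1,0,1] (.p true [0,0,1] [] (⟨0,[(20,0)]⟩,⟨0,[(19,0)]⟩) .k 0 (⟨0,[]⟩,⟨0,[]⟩)
  .k .k) (.Q [0,0,0,-1,0,0,0,1,-2] (.p true [0,0,1] [1] (⟨0,[(21,0)]⟩,⟨0,[(20,0)]⟩) .k 1 (⟨0,[]⟩,⟨0,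
  []⟩) .k .k) (.Q [0,1,1,1,0,1,0,-1,2] (.p false [0,0,1] [1] (⟨0,[(22,0)]⟩,⟨0,[(21,0)]⟩) .k 1 (⟨0,
  []⟩,⟨0,[]⟩) .k .k) (.Q [0,-1,-1,-2,0,-1,0,1,-2] (.p true [0,0,1] [1] (⟨0,[(23,0)]⟩,⟨0,[(22,0)]⟩)
  .k 1 (⟨0,[]⟩,⟨0,[]⟩) .k .k) (.R ⟨1,false,false,true,[1,-1],[0,0,1],[1,1,1,0,0,1],(⟨0,[(26,0)]⟩,⟨0,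
  [(27,0)]⟩),(⟨0,[(24,0)]⟩,⟨0,[(23,0)]⟩),⟨0,[(15,0)]⟩,.k,.k,(.r (-1) ⟨3,[(5,3),(15,0),(0,0)]⟩ ⟨17,
  [(1,5),(2,3),(3,1),(3,9),(6,4),(1,0),(2,1)]⟩),(.x (-1) ⟨7,[(15,3),(5,2),(0,2),(2,1)]⟩ ⟨0,[(27,
  0)]⟩),(.r (-1) ⟨1,[(5,1),(15,0)]⟩ ⟨0,[(1,0),(0,0),(6,0)]⟩),.k,⟨false,0,⟨0,[]⟩,⟨3,[(21,0),(0,0),(9,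
  1)]⟩⟩,⟨true,0,⟨0,[(23,0)]⟩,⟨5,[(2,3),(9,0),(6,1),(4,1),(5,0)]⟩⟩,⟨false,0,⟨1,[(8,1),(4,0),(8,0)]⟩,
  ⟨3,[(0,1),(13,1),(6,0),(1,1),(8,1)]⟩⟩,⟨true,0,⟨0,[(1,0)]⟩,⟨0,[(0,0),(29,0)]⟩⟩,⟨false,0,⟨0,[(1,0),
  (0,0),(6,0)]⟩,⟨5,[(0,1),(4,3),(8,1),(6,1),(1,1),(9,0)]⟩⟩,⟨false,1,⟨5,[(1,5),(9,1),(9,0),(0,0),(2,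
  0),(7,2)]⟩,⟨0,[(0,0)]⟩⟩,[.a ⟨true,0,⟨0,[(1,0),(29,0)]⟩,⟨0,[(3,0)]⟩⟩ ⟨true,0,⟨0,[(1,0),(0,0)]⟩,⟨12,
  [(0,10),(7,1),(0,1),(0,4),(0,5),(9,0),(1,10)]⟩⟩ ⟨false,1,⟨7,[(1,7),(3,3),(15,0),(0,0),(9,3)]⟩,⟨0,
  [(3,0),(6,0)]⟩⟩,.o ⟨false,1,⟨7,[(19,3),(1,0),(0,4),(0,7),(1,1)]⟩,⟨0,[(0,0),(10,0),(6,0)]⟩⟩,.o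
  ⟨false,0,⟨0,[(10,0)]⟩,⟨3,[(21,0),(0,0),(9,1)]⟩⟩,.o ⟨false,0,⟨0,[(19,0)]⟩,⟨0,[(32,0)]⟩⟩]⟩) (.Q [0,
  0,0,0,1,0,0,1,-2] (.ed false [0,1,1] .k) (.R ⟨0,false,false,true,[1,0,-1],[0,1],[1,1],(⟨0,[(24,
  0)]⟩,⟨0,[(25,0)]⟩),(⟨0,[(28,0)]⟩,⟨0,[(27,0)]⟩),⟨0,[(0,0)]⟩,.k,.k,(.x (-1) ⟨7,[(16,3),(5,2),(0,2),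
  (2,1)]⟩ ⟨0,[(28,0)]⟩),(.x (-1) ⟨7,[(16,3),(5,2),(0,2),(2,1)]⟩ ⟨0,[(28,0)]⟩),.k,.k,⟨false,1,⟨7,[(6,
  3),(15,0),(0,0),(9,3)]⟩,⟨17,[(1,2),(3,0),(3,1),(3,3),(6,1),(1,0),(2,1)]⟩⟩,⟨true,0,⟨0,[(24,0)]⟩,⟨7,
  [(0,3),(6,1),(12,1),(4,3),(0,0)]⟩⟩,⟨false,1,⟨3,[(22,0),(0,2)]⟩,⟨0,[(4,0),(6,0),(12,0)]⟩⟩,⟨true,0,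
  ⟨0,[(2,0)]⟩,⟨0,[(4,0),(14,0)]⟩⟩,⟨false,0,⟨0,[]⟩,⟨0,[]⟩⟩,⟨false,0,⟨0,[]⟩,⟨0,[]⟩⟩,[.o ⟨false,0,⟨0,
  [(31,0)]⟩,⟨3,[(6,1),(13,1),(5,0),(7,1)]⟩⟩,.e ⟨true,0,⟨0,[]⟩,⟨0,[(35,0)]⟩⟩ ⟨true,0,⟨9,[(1,0),(0,0),
  (6,1),(3,1),(3,0),(4,0),(1,7)]⟩,⟨0,[(3,0)]⟩⟩,.o ⟨false,1,⟨1,[(4,0),(0,0),(17,0),(2,0)]⟩,⟨0,[(11,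
  0),(12,0)]⟩⟩,.a ⟨true,0,⟨0,[(25,0)]⟩,⟨0,[(24,0)]⟩⟩ ⟨false,1,⟨3,[(22,0),(0,0),(9,1)]⟩,⟨0,[(10,0),
  (21,1)]⟩⟩ ⟨true,0,⟨0,[(24,0),(6,0)]⟩,⟨0,[(3,0)]⟩⟩]⟩) (.K ⟨0,[0,-1,0,1],0,0,(⟨1,[(16,0)]⟩,⟨0,[(21,
  0),(6,0)]⟩),(.r 0 ⟨7,[(6,3),(15,0),(0,0)]⟩ ⟨9,[(1,1),(11,1),(6,1),(1,2),(0,1),(1,1)]⟩),(.r 0 ⟨0,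
  [(0,1),(2,1),(4,0)]⟩ ⟨19,[(1,7),(11,7),(6,7),(1,6),(0,2),(1,7)]⟩),.k,.k,.k,[⟨3,[(21,3),(0,0),(0,
  0)]⟩,⟨0,[(9,0)]⟩,⟨1,[(1,0),(3,0)]⟩,⟨1,[(19,0),(12,0),(3,0)]⟩]⟩))) (.Q [0,0,0,0,1,0,0,1,-2] (.ed
  false [0,1,1] .k) (.R ⟨0,false,false,false,[1,0,-1],[0,1],[1,0,2,1],(⟨0,[(23,0)]⟩,⟨0,[(24,0)]⟩),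
  (⟨0,[(27,0)]⟩,⟨0,[(26,0)]⟩),⟨0,[(0,0)]⟩,.k,.k,(.x (-1) ⟨7,[(15,3),(5,2),(0,2),(2,1)]⟩ ⟨0,[(27,
  0)]⟩),(.x (-1) ⟨7,[(15,3),(5,2),(0,2),(2,1)]⟩ ⟨0,[(27,0)]⟩),.k,.k,⟨false,0,⟨0,[]⟩,⟨3,[(21,0),(0,
  0),(9,1)]⟩⟩,⟨true,0,⟨0,[(23,0)]⟩,⟨7,[(0,3),(5,1),(12,1),(4,3),(0,0)]⟩⟩,⟨true,0,⟨1,[(8,1),(4,0),(8,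
  0)]⟩,⟨0,[(1,0),(21,0),(4,0)]⟩⟩,⟨false,1,⟨39,[(8,7),(3,11),(3,3),(4,4),(0,24),(0,39),(9,13)]⟩,⟨2,
  [(1,1),(2,0),(13,0)]⟩⟩,⟨false,0,⟨0,[]⟩,⟨0,[]⟩⟩,⟨false,0,⟨0,[]⟩,⟨0,[]⟩⟩,[.a ⟨true,0,⟨0,[(16,0)]⟩,
  ⟨0,[(31,0)]⟩⟩ ⟨false,0,⟨11,[(8,3),(3,1),(0,1),(7,0),(0,0),(7,1)]⟩,⟨7,[(5,3),(15,0),(0,0),(9,3)]⟩⟩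
  ⟨true,0,⟨11,[(8,3),(3,1),(0,1),(7,0),(0,0),(0,11),(6,1)]⟩,⟨0,[(2,0)]⟩⟩,.o ⟨false,1,⟨5,[(11,1),(9,
  0),(0,0),(2,0),(7,2)]⟩,⟨0,[(18,0)]⟩⟩,.o ⟨false,1,⟨1,[(3,0),(0,0),(17,0),(2,0)]⟩,⟨0,[(10,0),(12,
  0)]⟩⟩,.e ⟨false,0,⟨1,[(9,0),(19,0)]⟩,⟨7,[(5,3),(15,2),(0,2)]⟩⟩ ⟨false,1,⟨5,[(11,1),(9,0),(0,0),(0,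
  5),(1,0),(7,2)]⟩,⟨0,[(2,0)]⟩⟩]⟩) (.K ⟨0,[0,-1,0,1],0,0,(⟨1,[(15,0)]⟩,⟨0,[(20,0),(6,0)]⟩),(.r 0 ⟨7,
  [(5,3),(15,0),(0,0)]⟩ ⟨5,[(8,1),(3,0),(0,0),(7,1),(0,1),(7,0)]⟩),(.r 0 ⟨0,[(0,1),(1,1),(4,0)]⟩
  ⟨11,[(8,7),(3,3),(0,3),(7,4),(0,4),(7,3)]⟩),.k,.k,.k,[⟨3,[(20,3),(0,0),(0,0)]⟩,⟨0,[(8,0)]⟩,⟨1,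
  [(13,0),(21,1)]⟩,⟨1,[(18,0),(12,0),(3,0)]⟩]⟩))) (.Q [0,0,0,0,0,0,0,1,-1] (.p true [0,0,1] [0,0,0,
  1] (⟨0,[(22,0)]⟩,⟨0,[(21,0)]⟩) .k 2 (⟨0,[(18,0)]⟩,⟨0,[(18,0)]⟩) .k (.r (-1) ⟨1,[(20,0)]⟩ ⟨1,[(19,
  0)]⟩)) (.R ⟨1,false,false,false,[1,0,-1],[0,0,0,1],[0,1,0,-1,0,-1],(⟨0,[(22,0)]⟩,⟨0,[(23,0)]⟩),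
  (⟨0,[(19,0)]⟩,⟨0,[(19,0)]⟩),⟨1,[(1,1),(2,0),(0,0)]⟩,.k,.k,(.x (-1) ⟨7,[(14,3),(5,2),(0,2),(2,1)]⟩
  ⟨0,[(26,0)]⟩),.k,(.r (-1) ⟨2,[(2,0),(1,0),(12,0),(2,0),(1,0)]⟩ ⟨11,[(7,3),(3,1),(0,1),(7,0),(0,6),
  (7,1)]⟩),.k,⟨true,0,⟨0,[(1,0),(0,0),(1,0),(2,1),(19,0)]⟩,⟨1,[(8,0),(12,0),(6,0)]⟩⟩,⟨false,1,⟨7,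
  [(20,0),(0,0),(0,7),(1,1)]⟩,⟨1,[(0,1),(30,0)]⟩⟩,⟨false,0,⟨0,[(30,0)]⟩,⟨5,[(10,1),(9,0),(0,0),(2,
  0),(7,2)]⟩⟩,⟨false,1,⟨1,[(18,0),(2,0),(0,1),(9,0)]⟩,⟨1,[(2,1),(14,0),(11,0)]⟩⟩,⟨true,0,⟨0,[(34,
  0)]⟩,⟨0,[]⟩⟩,⟨false,1,⟨5,[(11,1),(6,0),(2,2),(0,5),(1,0),(7,1)]⟩,⟨2,[(2,1),(0,0),(0,0),(2,0),(9,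
  0)]⟩⟩,[.a ⟨true,0,⟨0,[(19,0)]⟩,⟨0,[(19,0)]⟩⟩ ⟨false,0,⟨1,[(2,0),(0,0),(13,1),(4,1)]⟩,⟨9,[(8,1),(1,
  1),(2,1),(7,4),(2,0),(7,2)]⟩⟩ ⟨true,0,⟨1,[(18,0),(3,1)]⟩,⟨0,[(0,0)]⟩⟩,.o ⟨false,1,⟨7,[(20,0),(0,
  0),(2,1),(7,3)]⟩,⟨1,[(17,0),(11,0)]⟩⟩,.o ⟨false,1,⟨1,[(2,0),(0,0),(17,0),(2,0)]⟩,⟨0,[(9,0),(12,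
  0)]⟩⟩,.e ⟨false,0,⟨0,[(2,0),(14,0),(4,0)]⟩,⟨39,[(7,7),(3,11),(3,3),(4,4),(0,24),(10,13)]⟩⟩ ⟨false,
  1,⟨7,[(20,0),(0,0),(0,7),(1,1),(7,3)]⟩,⟨0,[(0,0)]⟩⟩]⟩) (.R ⟨1,false,false,false,[1,0,-1],[0,0,0,
  1],[1,1,0,0,0,-1],(⟨0,[(22,0)]⟩,⟨0,[(23,0)]⟩),(⟨0,[(19,0)]⟩,⟨0,[(19,0)]⟩),⟨1,[(0,1),(13,0)]⟩,.k,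
  .k,(.x (-1) ⟨7,[(14,3),(5,2),(0,2),(2,1)]⟩ ⟨0,[(26,0)]⟩),.k,(.r (-1) ⟨2,[(2,0),(1,0),(12,0),(2,0),
  (1,0)]⟩ ⟨11,[(7,3),(3,1),(0,1),(7,0),(0,6),(7,1)]⟩),.k,⟨true,0,⟨0,[(0,0),(1,0),(4,0),(19,0)]⟩,⟨1,
  [(21,0),(6,1)]⟩⟩,⟨false,1,⟨7,[(20,0),(0,0),(0,7),(1,1)]⟩,⟨0,[(16,0),(6,0)]⟩⟩,⟨false,0,⟨0,[]⟩,⟨3,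
  [(20,0),(0,0),(10,1)]⟩⟩,⟨false,1,⟨1,[(18,0),(2,0),(0,1),(9,0)]⟩,⟨1,[(2,1),(14,0),(11,0)]⟩⟩,⟨true,
  0,⟨0,[(29,0)]⟩,⟨0,[(30,0)]⟩⟩,⟨false,1,⟨5,[(11,1),(6,0),(2,2),(0,5),(1,0),(7,1)]⟩,⟨2,[(2,1),(0,0),
  (0,0),(2,0),(9,0)]⟩⟩,[.e ⟨false,0,⟨1,[(0,1),(1,0),(0,0),(13,0),(11,0)]⟩,⟨1,[(21,0),(10,0)]⟩⟩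
  ⟨false,0,⟨0,[(0,0)]⟩,⟨3,[(2,0),(0,2),(17,1),(2,0),(7,0)]⟩⟩,.o ⟨false,1,⟨7,[(20,0),(0,0),(2,1),(7,
  3)]⟩,⟨1,[(17,0),(11,0)]⟩⟩,.o ⟨false,1,⟨1,[(2,0),(0,0),(17,0),(2,0)]⟩,⟨1,[(0,1),(17,0)]⟩⟩,.a ⟨true,
  0,⟨0,[(23,0)]⟩,⟨0,[(22,0)]⟩⟩ ⟨false,0,⟨1,[(0,1),(1,1),(14,0),(11,0)]⟩,⟨1,[(21,0),(10,0),(0,1)]⟩⟩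
  ⟨true,0,⟨0,[(0,0)]⟩,⟨1,[(17,0),(5,1),(5,0)]⟩⟩]⟩))) (.K ⟨0,[0,0,1],0,0,(⟨0,[(21,0)]⟩,⟨0,[(20,0)]⟩),
  .k,(.r (-1) ⟨7,[(2,3),(15,0),(0,4)]⟩ ⟨7,[(1,5),(3,3),(0,3),(0,3),(3,1),(6,0),(1,5)]⟩),(.x 0 ⟨0,
  [(24,0)]⟩ ⟨7,[(12,3),(5,2),(0,2),(2,1)]⟩),.k,.k,[⟨0,[(21,0)]⟩,⟨0,[(16,0),(3,0)]⟩,⟨0,[(1,0)]⟩,⟨0,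
  [(0,0)]⟩]⟩)) (.Q [0,1,0,1,0,0,0,0,-1] (.p false [0,0,0,1] [] (⟨0,[(16,0)]⟩,⟨0,[(16,0)]⟩) .k 0 (⟨0,
  []⟩,⟨0,[]⟩) .k .k) (.I [0,0,0,0,0,1] (.Q [0,0,0,0,-1,0,0,-1,2] (.ed true [0,1,1] .k) (.I [0,-1,0,
  0,0,-1,1] (.R ⟨1,false,false,false,[1,0,-1],[0,-1,0,1],[1,0,0,0,0,-1],(⟨0,[(23,0)]⟩,⟨0,[(24,0)]⟩),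
  (⟨1,[(15,0)]⟩,⟨0,[(20,0),(6,0)]⟩),⟨0,[(1,0)]⟩,.k,(.r 0 ⟨7,[(5,3),(15,0),(0,0)]⟩ ⟨5,[(8,1),(3,0),
  (0,0),(7,1),(0,1),(7,0)]⟩),(.x (-1) ⟨7,[(15,3),(5,2),(0,2),(2,1)]⟩ ⟨0,[(27,0)]⟩),(.r (-1) ⟨11,[(8,
  3),(3,1),(0,1),(7,6),(0,0),(7,1)]⟩ ⟨3,[(2,1),(2,1),(16,0)]⟩),.k,.k,⟨false,1,⟨9,[(0,3),(2,3),(7,1),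
  (9,2)]⟩,⟨3,[(2,1),(2,1),(16,0)]⟩⟩,⟨true,0,⟨0,[(8,0),(14,0)]⟩,⟨0,[(17,0),(6,0)]⟩⟩,⟨true,0,⟨0,[]⟩,
  ⟨0,[(35,0)]⟩⟩,⟨false,0,⟨0,[(4,0),(15,0),(10,0)]⟩,⟨9,[(0,3),(2,3),(7,1),(5,9),(3,2),(2,9)]⟩⟩,
  ⟨false,1,⟨5,[(11,1),(9,0),(0,0),(2,0),(7,2)]⟩,⟨0,[(31,0)]⟩⟩,⟨false,0,⟨0,[(4,0),(15,0)]⟩,⟨1,[(17,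
  1),(3,0),(2,1)]⟩⟩,[.e ⟨false,1,⟨1,[(21,0),(10,0)]⟩,⟨0,[(2,0)]⟩⟩ ⟨false,0,⟨1,[(1,1),(3,0),(1,0),(0,
  1)]⟩,⟨23,[(11,7),(9,0),(0,0),(1,23),(0,9),(6,11)]⟩⟩,.o ⟨false,1,⟨7,[(5,3),(13,3),(1,0),(0,0),(10,
  3)]⟩,⟨0,[(3,0)]⟩⟩,.o ⟨false,1,⟨1,[(24,1),(0,0),(6,0)]⟩,⟨0,[(10,0),(12,0)]⟩⟩,.a ⟨true,0,⟨0,[(24,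
  0)]⟩,⟨0,[(23,0)]⟩⟩ ⟨false,1,⟨1,[(0,1),(31,0)]⟩,⟨3,[(2,1),(5,1),(11,1),(1,0)]⟩⟩ ⟨true,0,⟨1,[(1,1),
  (3,0),(1,0),(0,1)]⟩,⟨0,[(3,0),(20,0)]⟩⟩]⟩) (.R ⟨1,false,false,false,[1,0,-1],[0,-1,0,1],[1,1,0,0,
  0,-1],(⟨0,[(23,0)]⟩,⟨0,[(24,0)]⟩),(⟨1,[(15,0)]⟩,⟨0,[(20,0),(6,0)]⟩),⟨0,[(1,0)]⟩,.k,(.r 0 ⟨7,[(5,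
  3),(15,0),(0,0)]⟩ ⟨5,[(8,1),(3,0),(0,0),(7,1),(0,1),(7,0)]⟩),(.x (-1) ⟨7,[(15,3),(5,2),(0,2),(2,
  1)]⟩ ⟨0,[(27,0)]⟩),(.r (-1) ⟨11,[(8,3),(3,1),(0,1),(7,6),(0,0),(7,1)]⟩ ⟨3,[(2,1),(2,1),(16,0)]⟩),
  .k,.k,⟨false,1,⟨1,[(21,0),(8,1)]⟩,⟨1,[(2,0),(1,0),(0,0),(8,0),(9,0)]⟩⟩,⟨true,0,⟨0,[(8,0),(14,0)]⟩,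
  ⟨0,[(17,0),(6,0)]⟩⟩,⟨false,0,⟨0,[]⟩,⟨3,[(21,0),(0,0),(10,1)]⟩⟩,⟨false,0,⟨0,[(4,0),(15,0),(10,0)]⟩,
  ⟨1,[(3,1),(10,1),(6,0),(2,1)]⟩⟩,⟨true,0,⟨0,[(30,0)]⟩,⟨0,[(31,0)]⟩⟩,⟨false,0,⟨0,[(4,0),(15,0)]⟩,⟨1,
  [(17,1),(3,0),(2,1)]⟩⟩,[.e ⟨false,1,⟨7,[(21,4),(0,0),(5,3),(3,1)]⟩,⟨0,[(0,0),(8,0),(4,0),(16,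
  1)]⟩⟩ ⟨false,0,⟨1,[(1,1),(3,0),(1,0),(0,1)]⟩,⟨23,[(11,7),(9,0),(0,0),(1,23),(0,9),(6,11)]⟩⟩,.o
  ⟨false,1,⟨7,[(5,3),(13,3),(1,0),(0,0),(10,3)]⟩,⟨0,[(3,0)]⟩⟩,.o ⟨false,1,⟨1,[(24,1),(0,0),(6,0)]⟩,
  ⟨0,[(10,0),(12,0)]⟩⟩,.a ⟨true,0,⟨0,[(24,0)]⟩,⟨0,[(23,0)]⟩⟩ ⟨false,1,⟨1,[(21,0),(10,0)]⟩,⟨0,[(4,0),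
  (19,0)]⟩⟩ ⟨true,0,⟨1,[(1,1),(3,0),(1,0),(0,1)]⟩,⟨0,[(3,0),(20,0)]⟩⟩]⟩)) (.I [0,0,1,0,0,1,-1] (.R
  ⟨0,false,false,false,[1,0,-1],[0,1],[0,1,0,0,0,-1],(⟨0,[(23,0)]⟩,⟨0,[(24,0)]⟩),(⟨0,[(27,0)]⟩,⟨0,
  [(26,0)]⟩),⟨0,[(1,0)]⟩,.k,.k,(.x (-1) ⟨7,[(15,3),(5,2),(0,2),(2,1)]⟩ ⟨0,[(27,0)]⟩),(.x (-1) ⟨7,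
  [(15,3),(5,2),(0,2),(2,1)]⟩ ⟨0,[(27,0)]⟩),.k,.k,⟨false,1,⟨3,[(5,1),(15,1),(6,1),(3,0)]⟩,⟨7,[(0,5),
  (8,3),(4,1),(7,0),(10,0)]⟩⟩,⟨true,0,⟨0,[(23,0)]⟩,⟨7,[(1,3),(4,1),(12,1),(4,3),(0,0)]⟩⟩,⟨true,0,⟨0,
  [(35,0)]⟩,⟨0,[]⟩⟩,⟨false,0,⟨0,[(4,0),(11,0)]⟩,⟨3,[(1,3),(3,1),(9,1),(5,1),(3,0)]⟩⟩,⟨false,0,⟨0,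
  []⟩,⟨0,[]⟩⟩,⟨false,0,⟨0,[]⟩,⟨0,[]⟩⟩,[.a ⟨true,0,⟨0,[(16,0)]⟩,⟨0,[(31,0)]⟩⟩ ⟨false,1,⟨7,[(21,4),(0,
  0),(5,3),(3,1)]⟩,⟨0,[(0,0),(13,0)]⟩⟩ ⟨true,0,⟨11,[(8,3),(3,1),(0,1),(7,0),(0,0),(0,11),(6,1)]⟩,⟨1,
  [(1,1),(3,0),(0,0)]⟩⟩,.o ⟨false,1,⟨5,[(11,1),(9,0),(0,0),(2,0),(7,2)]⟩,⟨0,[(18,0)]⟩⟩,.o ⟨false,1,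
  ⟨1,[(24,1),(0,0),(6,0)]⟩,⟨0,[(10,0),(12,0)]⟩⟩,.e ⟨false,1,⟨1,[(21,0),(10,0)]⟩,⟨1,[(0,1),(32,0)]⟩⟩
  ⟨false,1,⟨5,[(11,1),(9,0),(0,0),(0,5),(1,0),(7,2)]⟩,⟨1,[(1,1),(3,0),(0,0)]⟩⟩]⟩) (.R ⟨0,false,
  false,false,[1,0,-1],[0,1],[1,0,0,0,0,-1],(⟨0,[(23,0)]⟩,⟨0,[(24,0)]⟩),(⟨0,[(27,0)]⟩,⟨0,[(26,0)]⟩),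
  ⟨0,[(1,0)]⟩,.k,.k,(.x (-1) ⟨7,[(15,3),(5,2),(0,2),(2,1)]⟩ ⟨0,[(27,0)]⟩),(.x (-1) ⟨7,[(15,3),(5,2),
  (0,2),(2,1)]⟩ ⟨0,[(27,0)]⟩),.k,.k,⟨false,1,⟨3,[(0,1),(4,1),(15,0),(10,0)]⟩,⟨31,[(2,17),(0,1),(4,
  13),(2,7),(0,1),(9,6)]⟩⟩,⟨true,0,⟨0,[(23,0)]⟩,⟨7,[(1,3),(4,1),(12,1),(4,3),(0,0)]⟩⟩,⟨true,0,⟨0,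
  []⟩,⟨0,[(35,0)]⟩⟩,⟨false,0,⟨0,[(4,0),(11,0)]⟩,⟨5,[(0,1),(0,1),(3,2),(0,0),(14,1),(2,3),(0,1)]⟩⟩,
  ⟨false,0,⟨0,[]⟩,⟨0,[]⟩⟩,⟨false,0,⟨0,[]⟩,⟨0,[]⟩⟩,[.a ⟨true,0,⟨0,[(16,0)]⟩,⟨0,[(31,0)]⟩⟩ ⟨false,1,
  ⟨1,[(21,0),(10,0)]⟩,⟨0,[(2,0)]⟩⟩ ⟨true,0,⟨11,[(8,3),(3,1),(0,1),(7,0),(0,0),(0,11),(6,1)]⟩,⟨1,[(1,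
  1),(3,0),(0,0)]⟩⟩,.o ⟨false,1,⟨5,[(11,1),(9,0),(0,0),(2,0),(7,2)]⟩,⟨0,[(18,0)]⟩⟩,.o ⟨false,1,⟨1,
  [(24,1),(0,0),(6,0)]⟩,⟨0,[(10,0),(12,0)]⟩⟩,.e ⟨false,1,⟨1,[(0,1),(32,0)]⟩,⟨3,[(2,1),(5,1),(11,1),
  (1,0)]⟩⟩ ⟨false,1,⟨5,[(11,1),(9,0),(0,0),(0,5),(1,0),(7,2)]⟩,⟨1,[(1,1),(3,0),(0,0)]⟩⟩]⟩))) (.Q [0,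
  0,0,0,-1,0,0,1] (.ed false [1,-1,1] .k) (.R ⟨1,false,false,false,[0,0,1],[0,0,0,1],[1,1,0,0,0,1],
  (⟨0,[(23,0)]⟩,⟨0,[(22,0)]⟩),(⟨0,[(19,0)]⟩,⟨0,[(19,0)]⟩),⟨0,[(0,0)]⟩,.k,.k,(.r (-1) ⟨7,[(4,3),(15,
  0),(0,4)]⟩ ⟨31,[(1,17),(0,1),(4,13),(2,7),(0,1),(8,6)]⟩),.k,(.r (-1) ⟨5,[(0,1),(2,3),(0,2),(1,0),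
  (14,0),(1,1),(3,1)]⟩ ⟨11,[(7,3),(3,1),(0,1),(7,6),(0,0),(7,1)]⟩),.k,⟨false,1,⟨25,[(0,9),(1,3),(0,
  9),(0,4),(1,4),(3,1),(10,7),(5,15)]⟩,⟨1,[(1,1),(30,0)]⟩⟩,⟨true,1,⟨3,[(0,3),(5,1),(17,0)]⟩,⟨0,[(7,
  0),(14,0)]⟩⟩,⟨false,0,⟨0,[]⟩,⟨3,[(20,0),(0,0),(10,1)]⟩⟩,⟨false,1,⟨3,[(1,1),(11,3),(6,0),(2,3),(0,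
  0)]⟩,⟨5,[(3,3),(3,1),(11,3),(1,0),(0,1),(4,1)]⟩⟩,⟨true,0,⟨0,[(29,0)]⟩,⟨0,[(30,0)]⟩⟩,⟨false,1,⟨3,
  [(0,3),(0,1),(4,1),(1,1),(4,1),(6,0),(3,0)]⟩,⟨5,[(3,3),(3,1),(11,3),(1,0),(0,1),(4,1),(2,5)]⟩⟩,
  [.a ⟨true,0,⟨0,[(19,0)]⟩,⟨0,[(19,0)]⟩⟩ ⟨true,0,⟨0,[(3,0),(19,0),(3,0)]⟩,⟨0,[(1,0),(6,0),(21,1)]⟩⟩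
  ⟨false,1,⟨3,[(0,3),(5,1),(17,0),(6,1)]⟩,⟨1,[(18,0),(3,1)]⟩⟩,.o ⟨false,1,⟨7,[(20,0),(0,0),(2,1),(7,
  3)]⟩,⟨7,[(2,1),(14,1),(0,0),(8,1)]⟩⟩,.o ⟨false,0,⟨0,[(9,0),(12,0)]⟩,⟨1,[(23,1),(0,0),(6,0)]⟩⟩,.o
  ⟨false,0,⟨0,[(18,0),(3,0)]⟩,⟨3,[(0,3),(5,1),(9,3),(7,0)]⟩⟩]⟩) (.R ⟨0,false,false,false,[0,0,1],[1,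
  -1],[1],(⟨0,[(23,0)]⟩,⟨0,[(22,0)]⟩),(⟨0,[(25,0)]⟩,⟨0,[(26,0)]⟩),⟨0,[(0,0)]⟩,.k,.k,(.r (-1) ⟨7,[(4,
  3),(15,0),(0,4)]⟩ ⟨31,[(1,17),(0,1),(4,13),(2,7),(0,1),(8,6)]⟩),(.x 0 ⟨0,[(26,0)]⟩ ⟨7,[(14,3),(5,
  2),(0,2),(2,1)]⟩),.k,.k,⟨true,0,⟨11,[(7,3),(3,1),(0,1),(7,0),(0,0),(7,1)]⟩,⟨0,[(30,0)]⟩⟩,⟨false,1,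
  ⟨1,[(23,1),(0,0),(6,0)]⟩,⟨0,[(22,0)]⟩⟩,⟨true,0,⟨0,[(1,0)]⟩,⟨0,[(3,0),(19,0),(3,0)]⟩⟩,⟨false,1,⟨3,
  [(1,3),(2,1),(4,1),(3,1),(9,3),(0,0),(7,0)]⟩,⟨5,[(3,3),(3,1),(4,0),(2,3),(5,0),(0,1),(4,1)]⟩⟩,
  ⟨false,0,⟨0,[]⟩,⟨0,[]⟩⟩,⟨false,0,⟨0,[]⟩,⟨0,[]⟩⟩,[.a ⟨true,0,⟨0,[(30,0)]⟩,⟨0,[(15,0)]⟩⟩ ⟨true,0,⟨0,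
  []⟩,⟨0,[(33,0)]⟩⟩ ⟨false,1,⟨3,[(4,1),(11,3),(6,3),(0,0)]⟩,⟨11,[(7,3),(3,1),(0,1),(7,0),(0,0),(0,
  11),(6,1)]⟩⟩,.o ⟨false,1,⟨3,[(4,1),(13,1),(5,0),(7,1)]⟩,⟨0,[(29,0)]⟩⟩,.o ⟨false,0,⟨7,[(0,3),(4,1),
  (12,1),(3,3),(1,0)]⟩,⟨1,[(23,1),(0,0),(6,0)]⟩⟩,.o ⟨false,0,⟨0,[(18,0),(3,0)]⟩,⟨0,[(16,1),(6,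
  0)]⟩⟩]⟩))) (.R ⟨2,false,false,true,[0,1],[1,1,0,-1],[0,1],(⟨0,[]⟩,⟨0,[]⟩),(⟨0,[(17,0),(6,0)]⟩,⟨1,
  [(12,0)]⟩),⟨0,[]⟩,.k,(.r (-1) ⟨5,[(5,1),(3,0),(0,0),(7,1),(0,1),(7,0)]⟩ ⟨7,[(2,3),(15,0),(0,0)]⟩),
  .k,.k,(.r 0 ⟨7,[(2,3),(15,0),(0,0)]⟩ ⟨5,[(5,1),(3,0),(0,0),(7,1),(0,1),(7,0)]⟩),.k,⟨true,0,⟨7,[(2,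
  3),(15,0),(0,0)]⟩,⟨1,[(5,1),(4,0)]⟩⟩,⟨false,0,⟨0,[(14,0)]⟩,⟨3,[(17,3),(0,0),(0,0)]⟩⟩,⟨false,1,⟨7,
  [(2,3),(15,2),(0,2)]⟩,⟨1,[(6,0),(19,0)]⟩⟩,⟨true,0,⟨1,[(15,0),(11,0)]⟩,⟨0,[(17,0)]⟩⟩,⟨false,1,⟨3,
  [(18,0),(0,0),(9,1)]⟩,⟨0,[(26,0)]⟩⟩,⟨false,1,⟨23,[(8,7),(9,6),(0,6),(2,9)]⟩,⟨0,[(0,0)]⟩⟩,[.e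
  ⟨true,0,⟨0,[(32,0)]⟩,⟨0,[(26,0)]⟩⟩ ⟨true,0,⟨1,[(16,0),(10,1)]⟩,⟨0,[(0,0)]⟩⟩,.a ⟨true,0,⟨1,[(10,
  0)]⟩,⟨0,[(0,0),(31,0)]⟩⟩ ⟨false,1,⟨3,[(18,0),(0,0),(9,1)]⟩,⟨0,[]⟩⟩ ⟨true,0,⟨3,[(7,1),(1,0),(17,
  0)]⟩,⟨0,[(0,0),(31,0)]⟩⟩,.o ⟨false,1,⟨3,[(18,0),(0,0),(9,1)]⟩,⟨0,[(7,0)]⟩⟩,.e ⟨false,1,⟨3,[(18,0),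
  (0,0),(9,1)]⟩,⟨0,[(26,0)]⟩⟩ ⟨false,1,⟨23,[(8,7),(9,6),(0,6),(2,9)]⟩,⟨0,[(0,0)]⟩⟩]⟩)))

def t4 : Tre :=
  (.I [0,1,-1,-2] (.S ⟨1,0,[0,0,-1,-2],[1,-1],[0,1,-1,-2],(⟨0,[(17,0)]⟩,⟨0,[(18,0)]⟩),⟨0,[(6,0)]⟩,
  .k,(.r (-1) ⟨1,[(0,1),(22,0),(0,0)]⟩ ⟨0,[(4,0),(5,0)]⟩),⟨false,0,⟨0,[(22,0)]⟩,⟨5,[(2,1),(9,0),(0,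
  0),(2,0),(7,2)]⟩⟩,⟨true,0,⟨0,[(22,0)]⟩,⟨0,[(21,0)]⟩⟩,⟨true,0,⟨0,[(26,0)]⟩,⟨0,[]⟩⟩,⟨false,1,⟨3,
  [(12,0),(0,0),(10,1)]⟩,⟨0,[]⟩⟩,[.a ⟨true,0,⟨0,[(22,1)]⟩,⟨0,[(4,0)]⟩⟩ ⟨true,0,⟨0,[(0,0)]⟩,⟨2,[(3,
  1),(16,0),(4,0)]⟩⟩ ⟨false,1,⟨1,[(0,1),(22,0),(0,0)]⟩,⟨1,[(3,0),(17,0)]⟩⟩,.o ⟨false,1,⟨0,[(0,0),(0,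
  0),(22,0)]⟩,⟨0,[(2,0),(6,0)]⟩⟩,.o ⟨false,0,⟨0,[(1,0)]⟩,⟨3,[(12,0),(0,0),(9,1)]⟩⟩,.o ⟨false,0,⟨0,
  [(10,0)]⟩,⟨0,[(23,0)]⟩⟩]⟩) (.Q [0,0,-2,0,0,0,1,0,1] (.p true [0,0,0,1] [] (⟨0,[(11,0)]⟩,⟨0,[(11,
  0)]⟩) .k 0 (⟨0,[]⟩,⟨0,[]⟩) .k .k) (.Q [0,0,0,-2,0,0,0,0,-1] (.p false [0,0,0,1] [] (⟨0,[(12,0)]⟩,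
  ⟨0,[(12,0)]⟩) .k 0 (⟨0,[]⟩,⟨0,[]⟩) .k .k) (.R ⟨1,false,false,true,[0,0,0,1],[0,1],[0,1,1],(⟨0,
  [(13,0)]⟩,⟨0,[(13,0)]⟩),(⟨0,[(20,0)]⟩,⟨0,[(19,0)]⟩),⟨1,[(8,0)]⟩,.k,.k,(.r 0 ⟨7,[(0,3),(0,3),(12,
  0),(0,0)]⟩ ⟨3,[(6,1),(5,1),(1,0),(0,0)]⟩),(.r 0 ⟨7,[(0,3),(0,3),(12,0),(0,0)]⟩ ⟨3,[(6,1),(5,1),(1,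
  0),(0,0)]⟩),(.r 0 ⟨0,[(0,0),(0,0)]⟩ ⟨3,[(6,3),(5,3),(1,0),(0,0)]⟩),.k,⟨true,0,⟨0,[(24,0)]⟩,⟨1,[(6,
  0),(5,0)]⟩⟩,⟨false,0,⟨0,[(1,0)]⟩,⟨3,[(12,1),(1,0),(0,0)]⟩⟩,⟨false,1,⟨3,[(14,0),(0,0),(11,3)]⟩,⟨0,
  [(7,0)]⟩⟩,⟨false,0,⟨1,[(6,0)]⟩,⟨15,[(0,7),(13,2),(0,2),(2,1),(7,7)]⟩⟩,⟨false,1,⟨3,[(6,1),(5,1),(1,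
  0),(0,0)]⟩,⟨1,[(0,0),(6,1),(5,0)]⟩⟩,⟨true,0,⟨1,[(6,0),(16,1)]⟩,⟨0,[(0,0)]⟩⟩,[.o ⟨false,0,⟨0,[(23,
  0)]⟩,⟨15,[(0,7),(13,0),(0,0),(2,5),(7,7)]⟩⟩,.a ⟨true,0,⟨0,[(9,0)]⟩,⟨0,[(24,0)]⟩⟩ ⟨true,0,⟨0,[(27,
  0)]⟩,⟨0,[]⟩⟩ ⟨false,0,⟨11,[(1,3),(2,3),(9,0),(0,0),(9,1)]⟩,⟨15,[(0,7),(13,2),(0,2),(2,1)]⟩⟩,.o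
  ⟨false,1,⟨7,[(14,0),(0,0),(2,1)]⟩,⟨7,[(14,0),(0,0),(2,1)]⟩⟩,.o ⟨false,1,⟨3,[(12,1),(1,0),(0,0)]⟩,
  ⟨0,[(10,0)]⟩⟩]⟩) (.I [0,0,2,0,-2,0,-1] (.K ⟨0,[1,1,0,-1],0,0,(⟨0,[(14,0),(6,0)]⟩,⟨1,[(9,0)]⟩),(.r
  (-1) ⟨3,[(7,1),(5,1),(1,0),(0,0)]⟩ ⟨1,[(25,1),(0,0)]⟩),.k,(.x (-1) ⟨3,[(15,0),(0,0),(4,7),(4,3)]⟩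
  ⟨0,[(0,0)]⟩),.k,.k,[⟨0,[(0,0),(13,0),(6,1)]⟩,⟨7,[(15,0),(0,0),(2,1)]⟩,⟨0,[(14,0),(10,0),(3,0)]⟩,
  ⟨0,[(1,0),(10,0)]⟩]⟩) (.Q [0,0,2,0,0,0,-1,0,1] (.p true [0,0,0,1] [] (⟨0,[(14,0)]⟩,⟨0,[(14,0)]⟩)
  .k 0 (⟨0,[]⟩,⟨0,[]⟩) .k .k) (.I [0,0,-2,0,2,0,1] (.K ⟨0,[1,1,0,-1],0,0,(⟨4,[(1,2),(0,2),(19,0)]⟩,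
  ⟨1,[(11,0)]⟩),(.r (-1) ⟨23,[(1,3),(6,5),(6,1),(1,6),(0,6),(7,5)]⟩ ⟨1,[(27,1),(0,0)]⟩),.k,(.x 0 ⟨0,
  [(0,0)]⟩ ⟨3,[(11,3),(3,3),(1,0),(0,0)]⟩),.k,.k,[⟨0,[(1,0)]⟩,⟨7,[(17,0),(0,0),(2,1)]⟩,⟨79,[(1,31),
  (0,11),(14,4),(0,4),(3,23),(1,39),(2,79)]⟩,⟨0,[(3,0),(10,0)]⟩]⟩) (.I [0,0,-2,-2,0,0,1] (.K ⟨0,[1,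
  1,0,-1],0,0,(⟨9,[(0,0),(1,5),(0,4),(9,1)]⟩,⟨1,[(12,0)]⟩),(.r (-1) ⟨23,[(2,3),(6,5),(6,1),(1,6),(0,
  6),(7,5)]⟩ ⟨7,[(0,3),(17,0),(0,0)]⟩),.k,(.r (-1) ⟨5,[(2,1),(6,2),(6,0),(1,1),(0,1),(7,2)]⟩ ⟨0,[(0,
  0)]⟩),.k,.k,[⟨0,[(2,0)]⟩,⟨7,[(18,0),(0,0),(2,1)]⟩,⟨79,[(0,43),(1,63),(10,7),(4,4),(0,4),(5,39)]⟩,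
  ⟨0,[(4,0),(10,0)]⟩]⟩) t0)) (.Q [0,0,0,0,2,0,0,0,-1] (.p false [0,0,0,1] [] (⟨0,[(15,0)]⟩,⟨0,[(15,
  0)]⟩) .k 0 (⟨0,[]⟩,⟨0,[]⟩) .k .k) (.R ⟨0,false,false,true,[0,-1,0,1],[1,-1],[0,1,0,-1],(⟨1,[(11,
  0)]⟩,⟨1,[(0,0),(15,2)]⟩),(⟨0,[(22,0)]⟩,⟨0,[(23,0)]⟩),⟨0,[(0,0)]⟩,(.r 0 ⟨1,[(27,1),(0,0)]⟩ ⟨3,[(9,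
  1),(5,1),(1,0),(0,0)]⟩),.k,(.r 0 ⟨1,[(1,0),(2,0),(22,3)]⟩ ⟨3,[(9,3),(5,3),(1,0),(0,0)]⟩),.k,.k,.k,
  ⟨true,0,⟨0,[(30,0)]⟩,⟨0,[]⟩⟩,⟨false,0,⟨0,[(13,0)]⟩,⟨3,[(16,3),(0,0),(0,0)]⟩⟩,⟨false,1,⟨3,[(17,0),
  (0,0),(11,3)]⟩,⟨0,[(10,0)]⟩⟩,⟨true,0,⟨1,[(14,0),(11,0)]⟩,⟨0,[(16,0)]⟩⟩,⟨false,0,⟨0,[]⟩,⟨0,[]⟩⟩,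
  ⟨false,0,⟨0,[]⟩,⟨0,[]⟩⟩,[.o ⟨false,0,⟨0,[(14,0)]⟩,⟨5,[(7,1),(9,0),(0,0),(2,0),(7,2)]⟩⟩,.a ⟨true,0,
  ⟨0,[(27,0)]⟩,⟨0,[(12,0)]⟩⟩ ⟨true,0,⟨0,[(27,0)]⟩,⟨1,[(9,0),(5,0)]⟩⟩ ⟨false,0,⟨0,[(1,0),(25,0)]⟩,⟨3,
  [(12,3),(2,1),(1,0),(0,0)]⟩⟩,.o ⟨false,1,⟨3,[(15,1),(1,0),(0,0)]⟩,⟨0,[(13,0)]⟩⟩,.o ⟨false,1,⟨3,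
  [(15,1),(1,0),(0,0),(11,3)]⟩,⟨0,[(1,0)]⟩⟩]⟩) t2)))) (.I [0,0,2,0,-2,0,-1] (.K ⟨0,[0,-1,0,1],0,0,
  (⟨1,[(8,0)]⟩,⟨0,[(13,0),(6,0)]⟩),(.r 0 ⟨1,[(24,1),(0,0)]⟩ ⟨5,[(1,1),(3,0),(0,0),(7,1),(0,1),(7,
  0)]⟩),(.x 0 ⟨0,[(0,0)]⟩ ⟨3,[(14,0),(0,0),(4,7),(4,3)]⟩),.k,.k,.k,[⟨3,[(13,3),(0,0),(0,0)]⟩,⟨0,[(1,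
  0)]⟩,⟨1,[(6,0),(21,1)]⟩,⟨1,[(11,0),(12,0),(3,0)]⟩]⟩) (.I [0,0,-2,0,2,0,1] (.K ⟨0,[0,-1,0,1],0,0,
  (⟨1,[(9,0)]⟩,⟨0,[(14,0),(6,0)]⟩),(.r 0 ⟨1,[(25,1),(0,0)]⟩ ⟨5,[(2,1),(3,0),(0,0),(7,1),(0,1),(7,
  0)]⟩),(.x (-1) ⟨3,[(9,3),(3,3),(1,0),(0,0)]⟩ ⟨0,[(0,0)]⟩),.k,.k,.k,[⟨3,[(14,3),(0,0),(0,0)]⟩,⟨0,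
  [(2,0)]⟩,⟨1,[(7,0),(21,1)]⟩,⟨1,[(12,0),(12,0),(3,0)]⟩]⟩) (.I [0,0,2,2,0,0,-1] (.K ⟨0,[0,-1,0,1],0,
  0,(⟨1,[(10,0)]⟩,⟨0,[(15,0),(6,0)]⟩),(.r 0 ⟨1,[(26,1),(0,0)]⟩ ⟨7,[(0,3),(15,2),(0,2)]⟩),(.r (-1)
  ⟨3,[(16,0),(0,0),(8,7),(0,3)]⟩ ⟨0,[(0,0)]⟩),.k,.k,.k,[⟨3,[(15,3),(0,0),(0,0)]⟩,⟨0,[(3,0)]⟩,⟨15,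
  [(0,3),(10,7),(4,0),(0,0),(5,7)]⟩,⟨1,[(13,0),(12,0),(3,0)]⟩]⟩) t3)))))

def tree : Tre :=
  (.Q [0,0,-1,0,0,0,1,0,-1] (.p false [0,0,0,1] [] (⟨0,[(2,0)]⟩,⟨0,[(2,0)]⟩) .k 0 (⟨0,[]⟩,⟨0,[]⟩)
  .k .k) (.Q [0,0,0,1,0,0,0,0,2] (.pp false [-1,1]) (.Q [0,0,0,0,2,0,0,0,-2] (.pp true [-1,1]) (.Q
  [0,0,0,1,0,0,0,0,1] (.p true [0,0,0,1] [] (⟨0,[(5,0)]⟩,⟨0,[(5,0)]⟩) .k 0 (⟨0,[]⟩,⟨0,[]⟩) .k .k)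
  (.R ⟨0,false,false,true,[0,0,0,1],[1,-1],[1,1],(⟨0,[(6,0)]⟩,⟨0,[(6,0)]⟩),(⟨0,[(12,0)]⟩,⟨0,[(13,
  0)]⟩),⟨1,[(1,0)]⟩,.k,.k,(.r 0 ⟨1,[(17,1),(0,0)]⟩ ⟨7,[(2,3),(2,3),(1,0),(0,0),(7,3),(2,1)]⟩),(.r 0
  ⟨7,[(2,3),(2,3),(1,0),(0,0),(7,3),(2,1)]⟩ ⟨1,[(17,1),(0,0)]⟩),.k,.k,⟨true,0,⟨1,[(0,1),(4,0)]⟩,⟨0,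
  [(17,0)]⟩⟩,⟨false,0,⟨7,[(7,0),(0,0),(2,1)]⟩,⟨1,[(6,1),(11,0)]⟩⟩,⟨false,1,⟨3,[(7,0),(0,0)]⟩,⟨1,
  [(19,0)]⟩⟩,⟨true,0,⟨1,[(4,0),(12,0),(3,0)]⟩,⟨0,[(0,0)]⟩⟩,⟨false,0,⟨0,[]⟩,⟨0,[]⟩⟩,⟨false,0,⟨0,[]⟩,
  ⟨0,[]⟩⟩,[.o ⟨false,0,⟨0,[(4,0)]⟩,⟨0,[(16,0),(2,0)]⟩⟩,.a ⟨true,0,⟨0,[(17,0)]⟩,⟨0,[(2,0)]⟩⟩ ⟨true,0,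
  ⟨0,[]⟩,⟨0,[(20,0)]⟩⟩ ⟨false,0,⟨0,[(3,0),(13,0)]⟩,⟨7,[(2,3),(4,0),(0,0),(7,3),(2,1)]⟩⟩,.o ⟨false,1,
  ⟨7,[(7,0),(0,0),(2,1)]⟩,⟨7,[(7,0),(0,0),(2,1)]⟩⟩,.o ⟨false,1,⟨3,[(5,1),(1,0),(0,0)]⟩,⟨0,[(3,
  0)]⟩⟩]⟩) (.R ⟨0,false,false,false,[0,0,0,1],[1,-1],[1],(⟨0,[(6,0)]⟩,⟨0,[(6,0)]⟩),(⟨0,[(12,0)]⟩,⟨0,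
  [(13,0)]⟩),⟨1,[(1,0)]⟩,.k,.k,(.r 0 ⟨1,[(17,1),(0,0)]⟩ ⟨7,[(2,3),(2,3),(1,0),(0,0),(7,3),(2,1)]⟩),
  (.r 0 ⟨7,[(2,3),(2,3),(1,0),(0,0),(7,3),(2,1)]⟩ ⟨1,[(17,1),(0,0)]⟩),.k,.k,⟨true,0,⟨0,[(15,0),(0,
  0)]⟩,⟨0,[(17,0)]⟩⟩,⟨false,0,⟨7,[(7,0),(0,0),(2,1)]⟩,⟨1,[(6,1),(11,0)]⟩⟩,⟨false,1,⟨1,[(19,0)]⟩,⟨3,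
  [(7,0),(0,0)]⟩⟩,⟨true,0,⟨0,[(0,0)]⟩,⟨1,[(2,0),(13,0),(4,0)]⟩⟩,⟨false,0,⟨0,[]⟩,⟨0,[]⟩⟩,⟨false,0,⟨0,
  []⟩,⟨0,[]⟩⟩,[.a ⟨true,0,⟨0,[(17,0)]⟩,⟨0,[(2,0)]⟩⟩ ⟨true,0,⟨0,[]⟩,⟨0,[(20,0)]⟩⟩ ⟨false,0,⟨1,[(0,1),
  (17,0)]⟩,⟨7,[(2,3),(4,0),(0,0),(7,3),(2,1)]⟩⟩,.o ⟨false,1,⟨0,[(4,0),(14,0)]⟩,⟨0,[(16,0)]⟩⟩,.o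
  ⟨false,1,⟨7,[(7,0),(0,0),(2,1)]⟩,⟨7,[(7,0),(0,0),(2,1)]⟩⟩,.o ⟨false,1,⟨3,[(5,1),(1,0),(0,0)]⟩,⟨0,
  [(3,0)]⟩⟩]⟩)) (.I [1,-1,-1,0,0,0,1] (.Q [0,0,0,-2,0,0,0,0,-2] (.pp true [-1,1]) (.R ⟨1,false,
  false,false,[0,0,0,1],[1,-1],[1],(⟨0,[(7,0)]⟩,⟨0,[(7,0)]⟩),(⟨0,[(13,0)]⟩,⟨0,[(14,0)]⟩),⟨1,[(2,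
  0)]⟩,.k,.k,(.r 0 ⟨1,[(18,1),(0,0)]⟩ ⟨7,[(3,3),(2,3),(1,0),(0,0),(7,3),(2,1)]⟩),(.r 0 ⟨7,[(3,3),(2,
  3),(1,0),(0,0),(7,3),(2,1)]⟩ ⟨1,[(18,1),(0,0)]⟩),.k,.k,⟨true,0,⟨0,[(16,0),(0,0)]⟩,⟨0,[(18,0)]⟩⟩,
  ⟨false,0,⟨7,[(8,0),(0,0),(2,1)]⟩,⟨1,[(7,1),(11,0)]⟩⟩,⟨false,1,⟨1,[(20,0)]⟩,⟨3,[(8,0),(0,0)]⟩⟩,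
  ⟨true,0,⟨1,[(0,0)]⟩,⟨1,[(3,0),(13,0),(4,0)]⟩⟩,⟨false,1,⟨0,[(1,0),(14,0),(0,0)]⟩,⟨3,[(8,0),(0,0),
  (8,3)]⟩⟩,⟨false,1,⟨7,[(8,0),(0,0),(2,1),(7,3)]⟩,⟨0,[(7,0)]⟩⟩,[.a ⟨true,0,⟨0,[(18,0)]⟩,⟨0,[(3,
  0)]⟩⟩ ⟨true,0,⟨0,[]⟩,⟨0,[(21,0)]⟩⟩ ⟨false,0,⟨1,[(0,0),(18,0)]⟩,⟨7,[(3,3),(4,0),(0,0),(7,3),(2,
  1)]⟩⟩,.o ⟨false,1,⟨7,[(0,3),(7,0),(0,0),(2,1),(7,3)]⟩,⟨0,[(17,0)]⟩⟩,.o ⟨false,1,⟨7,[(8,0),(0,0),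
  (2,1)]⟩,⟨7,[(8,0),(0,0),(2,1)]⟩⟩,.o ⟨false,1,⟨3,[(6,1),(1,0),(0,0)]⟩,⟨0,[(4,0)]⟩⟩]⟩) (.I [0,1,-2,
  -3] (.R ⟨1,false,false,true,[0,0,0,1],[0,1],[0,1,1],(⟨0,[(8,0)]⟩,⟨0,[(8,0)]⟩),(⟨0,[(15,0)]⟩,⟨0,
  [(14,0)]⟩),⟨1,[(3,0)]⟩,.k,.k,(.r 0 ⟨11,[(0,3),(8,0),(0,0),(9,1),(0,1)]⟩ ⟨3,[(1,1),(5,1),(1,0),(0,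
  0)]⟩),(.r 0 ⟨11,[(0,3),(8,0),(0,0),(9,1),(0,1)]⟩ ⟨3,[(1,1),(5,1),(1,0),(0,0)]⟩),(.r 0 ⟨5,[(0,3),
  (1,1),(17,0),(0,0)]⟩ ⟨3,[(1,3),(5,3),(1,0),(0,0)]⟩),.k,⟨true,0,⟨0,[(19,0)]⟩,⟨1,[(1,0),(5,0)]⟩⟩,
  ⟨false,0,⟨5,[(0,1),(0,2),(0,5),(13,1)]⟩,⟨3,[(7,1),(1,0),(0,0)]⟩⟩,⟨false,1,⟨3,[(9,0),(0,0),(11,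
  3)]⟩,⟨0,[(2,0)]⟩⟩,⟨false,0,⟨1,[(1,0)]⟩,⟨23,[(0,7),(6,7),(1,2),(0,2),(2,1),(7,15)]⟩⟩,⟨false,1,⟨3,
  [(1,1),(5,1),(1,0),(0,0)]⟩,⟨5,[(0,1),(1,3),(14,1),(3,0)]⟩⟩,⟨true,0,⟨1,[(1,0),(16,1)]⟩,⟨1,[(0,0),
  (5,0),(10,1)]⟩⟩,[.o ⟨false,0,⟨0,[(18,0)]⟩,⟨2,[(0,0),(6,0),(5,0),(7,1)]⟩⟩,.a ⟨true,0,⟨0,[(4,0)]⟩,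
  ⟨0,[(19,0)]⟩⟩ ⟨true,0,⟨0,[(22,0)]⟩,⟨0,[]⟩⟩ ⟨false,0,⟨1,[(1,0),(18,0)]⟩,⟨23,[(0,7),(6,7),(1,2),(0,
  2),(2,1),(7,3)]⟩⟩,.o ⟨false,1,⟨7,[(9,0),(0,0),(2,1)]⟩,⟨7,[(9,0),(0,0),(2,1)]⟩⟩,.o ⟨false,1,⟨3,[(7,
  1),(1,0),(0,0)]⟩,⟨0,[(5,0)]⟩⟩]⟩) (.Q [0,0,0,-3,0,0,0,0,-2] (.pp true [-1,1]) (.Q [0,0,1,0,0,0,0,0,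
  -2] (.pp true [-1,1]) (.R ⟨1,false,false,false,[1,-1],[0,1],[1,0,1,1],(⟨0,[(16,0)]⟩,⟨0,[(17,0)]⟩),
  (⟨0,[(17,0)]⟩,⟨0,[(16,0)]⟩),⟨0,[(5,0)]⟩,.k,.k,(.r (-1) ⟨2,[(1,1),(8,3),(11,2)]⟩ ⟨0,[(3,0),(5,
  0)]⟩),(.r (-1) ⟨2,[(1,1),(8,3),(11,2)]⟩ ⟨0,[(3,0),(5,0)]⟩),(.r (-1) ⟨0,[(1,0),(2,1),(5,1),(7,0)]⟩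
  ⟨1,[(3,2),(5,2)]⟩),.k,⟨true,0,⟨0,[]⟩,⟨0,[(24,0)]⟩⟩,⟨false,1,⟨0,[(4,1),(5,1),(7,0)]⟩,⟨0,[(9,0)]⟩⟩,
  ⟨false,0,⟨2,[(2,1),(16,0),(4,0)]⟩,⟨2,[(1,1),(8,3),(11,2)]⟩⟩,⟨true,0,⟨0,[(3,0)]⟩,⟨4,[(1,2),(6,0),
  (0,0),(8,1)]⟩⟩,⟨false,0,⟨0,[(2,0)]⟩,⟨0,[(1,0),(8,1),(11,0)]⟩⟩,⟨false,1,⟨5,[(2,1),(0,5),(7,0),(0,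
  0),(9,1),(0,1)]⟩,⟨0,[(1,0)]⟩⟩,[.a ⟨true,0,⟨0,[(6,0)]⟩,⟨0,[(21,0)]⟩⟩ ⟨true,0,⟨1,[(3,0),(5,0)]⟩,⟨0,
  [(21,0)]⟩⟩ ⟨false,1,⟨0,[(6,0),(15,0)]⟩,⟨2,[(0,0),(0,0),(7,0)]⟩⟩,.o ⟨false,1,⟨5,[(2,1),(8,0),(0,0),
  (9,1),(0,1)]⟩,⟨0,[(8,0)]⟩⟩,.o ⟨false,0,⟨0,[(0,0)]⟩,⟨3,[(11,0),(0,0),(9,1)]⟩⟩,.o ⟨false,0,⟨0,[(9,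
  0)]⟩,⟨0,[(22,0)]⟩⟩]⟩) (.R ⟨2,false,false,false,[0,1],[1,-1],[0,0,1],(⟨0,[]⟩,⟨0,[]⟩),(⟨0,[(16,0)]⟩,
  ⟨0,[(17,0)]⟩),⟨0,[]⟩,.k,.k,.k,(.r 0 ⟨0,[(3,0),(5,0)]⟩ ⟨5,[(0,3),(0,3),(9,0),(0,0),(9,3)]⟩),.k,.k,
  ⟨false,0,⟨1,[(3,0),(5,0)]⟩,⟨11,[(0,3),(0,3),(9,0),(0,0),(9,9)]⟩⟩,⟨true,0,⟨0,[(9,0)]⟩,⟨0,[(0,0)]⟩⟩,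
  ⟨true,0,⟨0,[(21,0)]⟩,⟨0,[(20,0)]⟩⟩,⟨false,1,⟨5,[(1,3),(9,0),(0,0),(2,0),(7,2)]⟩,⟨0,[(3,0)]⟩⟩,
  ⟨false,1,⟨3,[(11,0),(0,0),(10,1)]⟩,⟨0,[]⟩⟩,⟨false,1,⟨11,[(1,3),(9,0),(0,0),(2,3),(7,5)]⟩,⟨0,[(6,
  0)]⟩⟩,[.e ⟨true,0,⟨0,[(24,0)]⟩,⟨0,[]⟩⟩ ⟨true,0,⟨3,[(1,1),(0,0),(5,0),(0,0)]⟩,⟨0,[(6,0)]⟩⟩,.o
  ⟨false,1,⟨11,[(1,3),(9,0),(0,0),(2,3),(7,5)]⟩,⟨0,[(20,0)]⟩⟩,.a ⟨true,0,⟨0,[(0,0)]⟩,⟨0,[(24,0)]⟩⟩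
  ⟨false,0,⟨0,[(0,0),(0,0),(0,0)]⟩,⟨3,[(11,0),(0,0),(9,1)]⟩⟩ ⟨true,0,⟨3,[(1,1),(0,0),(5,0),(0,0)]⟩,
  ⟨1,[(0,0),(2,0),(14,0)]⟩⟩,.e ⟨false,1,⟨3,[(11,0),(0,0),(10,1)]⟩,⟨0,[]⟩⟩ ⟨false,1,⟨11,[(1,3),(9,0),
  (0,0),(2,3),(7,5)]⟩,⟨0,[(6,0)]⟩⟩]⟩)) (.Q [0,0,1,0,0,0,0,0,-2] (.pp true [-1,1]) t4 (.S ⟨1,0,[0,1,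
  -1,-2],[1,-1],[1,0,-1,-1],(⟨0,[(16,0)]⟩,⟨0,[(17,0)]⟩),⟨0,[(5,0)]⟩,.k,(.r (-1) ⟨0,[(21,1),(0,0)]⟩
  ⟨0,[(3,0),(5,0)]⟩),⟨true,0,⟨0,[]⟩,⟨0,[(25,0)]⟩⟩,⟨false,0,⟨0,[(21,0)]⟩,⟨5,[(1,1),(9,0),(0,0),(2,0),
  (7,2)]⟩⟩,⟨false,1,⟨5,[(1,1),(9,0),(0,0),(2,0),(7,2)]⟩,⟨0,[(21,0)]⟩⟩,⟨true,0,⟨0,[(25,0)]⟩,⟨0,[]⟩⟩,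
  [.o ⟨false,0,⟨0,[(8,0),(12,0)]⟩,⟨11,[(1,7),(9,0),(0,0),(2,3),(7,5)]⟩⟩,.e ⟨false,1,⟨1,[(4,1),(16,
  1),(0,0)]⟩,⟨1,[(3,0),(5,0),(15,1)]⟩⟩ ⟨false,1,⟨0,[(21,1),(0,0)]⟩,⟨1,[(2,0),(17,0)]⟩⟩,.a ⟨true,0,
  ⟨0,[(24,0)]⟩,⟨0,[(0,0)]⟩⟩ ⟨false,1,⟨1,[(21,1),(0,0),(0,0)]⟩,⟨1,[(3,0),(5,0)]⟩⟩ ⟨true,0,⟨0,[(0,0),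
  (7,0),(12,0)]⟩,⟨1,[(2,0),(17,0)]⟩⟩,.o ⟨false,0,⟨0,[(9,0)]⟩,⟨0,[(22,0)]⟩⟩]⟩))))) (.S ⟨1,0,[0,0,1,0,
  0,0,-1],[1,1,0,-1],[0,1,1,0,0,0,-1],(⟨0,[(6,0),(6,0)]⟩,⟨1,[(1,0)]⟩),⟨0,[(6,0)]⟩,(.r (-1) ⟨7,[(2,
  3),(2,3),(1,0),(0,0),(7,3),(2,1)]⟩ ⟨1,[(17,1),(0,0)]⟩),.k,⟨false,0,⟨0,[(17,0)]⟩,⟨0,[(16,0),(2,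
  0)]⟩⟩,⟨true,0,⟨0,[(17,0)]⟩,⟨0,[(16,0)]⟩⟩,⟨true,0,⟨11,[(0,3),(6,0),(0,0),(5,3)]⟩,⟨0,[]⟩⟩,⟨false,1,
  ⟨3,[(7,0),(0,0),(10,1)]⟩,⟨0,[]⟩⟩,[.a ⟨true,0,⟨0,[(6,0)]⟩,⟨0,[(6,0)]⟩⟩ ⟨true,0,⟨0,[(0,0)]⟩,⟨1,[(19,
  0)]⟩⟩ ⟨false,1,⟨3,[(7,0),(0,0)]⟩,⟨1,[(18,0)]⟩⟩,.o ⟨false,1,⟨7,[(7,0),(0,0),(2,1),(7,3)]⟩,⟨1,[(4,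
  0),(11,0)]⟩⟩,.o ⟨false,0,⟨0,[(3,0)]⟩,⟨3,[(5,1),(1,0),(0,0)]⟩⟩,.o ⟨false,0,⟨7,[(7,0),(0,0),(2,1)]⟩,
  ⟨7,[(7,0),(0,0),(2,1)]⟩⟩]⟩))) (.R ⟨2,false,false,false,[0,1],[0,0,0,1],[0,0,1,0,0,0,1],(⟨0,[]⟩,⟨0,
  []⟩),(⟨0,[(4,0)]⟩,⟨0,[(4,0)]⟩),⟨0,[]⟩,.k,.k,.k,(.r (-1) ⟨1,[(14,1),(2,0),(0,1)]⟩ ⟨1,[(15,1),(0,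
  0)]⟩),.k,.k,⟨true,0,⟨0,[(18,0)]⟩,⟨0,[]⟩⟩,⟨false,1,⟨7,[(5,0),(0,0),(2,1)]⟩,⟨1,[(4,1),(11,0)]⟩⟩,
  ⟨false,0,⟨1,[(15,1),(1,0)]⟩,⟨1,[(14,1),(2,0)]⟩⟩,⟨true,0,⟨1,[(0,0),(14,0)]⟩,⟨0,[(4,0),(9,0)]⟩⟩,
  ⟨false,0,⟨1,[(17,0)]⟩,⟨3,[(5,0),(0,0)]⟩⟩,⟨false,1,⟨7,[(5,0),(0,0),(2,1),(7,3)]⟩,⟨0,[(4,0)]⟩⟩,[.a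
  ⟨true,0,⟨0,[(4,0)]⟩,⟨0,[(4,0)]⟩⟩ ⟨false,0,⟨3,[(5,0),(0,0)]⟩,⟨1,[(16,0)]⟩⟩ ⟨true,0,⟨1,[(3,0)]⟩,⟨0,
  [(4,0)]⟩⟩,.o ⟨false,1,⟨7,[(5,0),(0,0),(2,1),(7,3)]⟩,⟨1,[(2,0),(11,0)]⟩⟩,.o ⟨false,1,⟨3,[(5,0),(0,
  0),(9,1)]⟩,⟨0,[(0,0),(12,0),(0,0)]⟩⟩,.e ⟨false,0,⟨1,[(17,0)]⟩,⟨3,[(5,0),(0,0)]⟩⟩ ⟨false,1,⟨7,[(5,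
  0),(0,0),(2,1),(7,3)]⟩,⟨0,[(4,0)]⟩⟩]⟩)) (.K ⟨0,[0,0,0,1],1,0,(⟨0,[(3,0)]⟩,⟨0,[(3,0)]⟩),.k,(.r 0
  ⟨1,[(14,1),(0,0)]⟩ ⟨1,[(13,1),(2,0),(0,1)]⟩),(.r 0 ⟨1,[(13,1),(2,0),(0,1)]⟩ ⟨1,[(14,1),(0,0)]⟩),
  .k,.k,[⟨0,[(0,0)]⟩,⟨3,[(2,1),(1,0),(0,0)]⟩,⟨7,[(0,3),(2,3),(0,0),(0,0),(5,3)]⟩,⟨1,[(1,0),(11,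
  0)]⟩]⟩))

theorem ok : chk (cPZ (-1)) tree base = true := by
  decide +kernel

theorem closed {p a b c J l q : ℤ} {D dl : ℝ} {Cl : ℤ → ℤ → ℤ → ℤ → ℝ → Prop}
    (W : World p a b c J (-1) l q D dl Cl) (hE : KEmp p a b (-1) (P1 l p) Cl)
    (g : G0 p a b c J D)
    {N R : ℤ} {I : ℝ} (hu : UFac p b D Cl N R I) {N2 R2 : ℤ} {I2 : ℝ}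
    (hw : ZFac p D Cl N2 R2 I2)
    (s0 : (c : ℝ) + 1 ≤ 0)
    (s1 : (a : ℝ) ≤ b)
    (s2 : (b : ℝ) + 1 ≤ 2 * a)
    (s3 : D < 2 * b)
    (s4 : -(a : ℝ) < -D - c) : False := by
  have g1 := g.a2
  have g2 := g.b2
  have g3 := g.pa
  have g4 := g.pb
  have g5 := g.J1
  have g6 := g.JD
  have g7 := g.D2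
  have g8 := g.ca
  have g9 := g.ca'
  have t1 := TF.ofU hu
  have i1 := t1.I0
  have i2 := t1.ID
  have i3 := t1.R1
  have i4 := t1.R2
  have j1 := hw.I0
  have j2 := hw.ID
  have j3 : (2 : ℝ) * R2 = p := by exact_mod_cast hw.R2
  refine (val_PZ W.toBase hu hw).sound W rfl (Nk := 0) (fun kf hkf hh => ?_) (kok_B hE (by simp [xv]) (by simp [xv]) 0) ?_ ok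
  · simp only [cPZ, kfB, List.mem_cons, List.not_mem_nil, or_false] at hkf
    subst hkf
    exact absurd hh (by norm_num)
  · simp only [base, List.forall_mem_cons, List.not_mem_nil, false_imp_iff, implies_true,
      and_true, hld, xv, evg_cons, evg_nil, List.map_cons, List.map_nil, List.cons_append,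
      List.nil_append, if_true, if_false, Bool.false_eq_true]
    push_cast
    refine ⟨?_, ?_, ?_, ?_, ?_, ?_, ?_, ?_, ?_, ?_, ?_, ?_, ?_, ?_, ?_, ?_, ?_, ?_⟩ <;> linarith

end Helper25.KG.Pm1_35_m1_0_u_y2
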