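import Pool.Agent.Helper25.KG.PL

set_option autoImplicit false
set_option linter.unusedVariables false

namespace Helper25.KG.Pm1_35_m1_0_v

open Helper11.CT Helper25.KW Helper25.KG

def base : List Con :=
  [(false,[0,1,0,-1,0,0,0,-1]),
  (false,[0,0,2,0,0,0,0,-1]),
  (true,[0,0,0,0,1,0,-2]),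
  (true,[0,0,0,0,1,0,2]),
  (false,[0,0,0,0,0,0,0,1,-2]),
  (false,[0,0,0,0,0,0,0,0,1]),
  (false,[0,0,0,0,1,0,0,-2]),
  (false,[0,0,0,0,0,-1,0,1]),
  (true,[0,0,0,0,0,1]),
  (true,[0,2,-1]),
  (true,[1,-1,1]),
  (true,[0,1,0,1]),
  (true,[0,0,0,-1]),
  (true,[0,0,-2,0,1]),
  (true,[0,-2,0,0,1]),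
  (true,[-1,0,1]),
  (true,[-1,1])]

def t0 : Tre :=
  (.I [0,0,1,1,0,0,-1] (.Q [0,1,0,0,0,0,1,1,-1] (.p false [0,0,1] [1] (⟨0,[(10,0)]⟩,⟨1,[(9,0),(2,0),
  (0,0)]⟩) .k 1 (⟨0,[]⟩,⟨0,[]⟩) .k .k) (.Q [0,1,0,0,0,0,-1,-1,1] (.p true [0,0,1] [1] (⟨0,[(11,0)]⟩,
  ⟨1,[(10,0),(2,0),(0,0)]⟩) .k 1 (⟨0,[]⟩,⟨0,[]⟩) .k .k) (.K ⟨0,[1,0,-1],0,0,(⟨1,[(11,0),(2,0),(0,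
  0)]⟩,⟨0,[(12,0)]⟩),.k,(.x 0 ⟨0,[(5,0),(8,0)]⟩ ⟨3,[(9,0),(0,0),(4,3),(4,1)]⟩),(.r 0 ⟨0,[(2,0)]⟩ ⟨1,
  [(10,0),(8,1),(0,0)]⟩),.k,.k,[⟨1,[(11,0),(2,0),(0,0),(6,1)]⟩,⟨0,[(5,0),(6,0)]⟩,⟨0,[(1,0)]⟩,⟨0,[(0,
  0)]⟩]⟩) (.Q [0,0,0,0,0,1,0,0,-1] (.ed true [1,-1,1] .k) (.R ⟨0,false,false,false,[0,0,1],[1,-1],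
  [0,0,0,-1,0,0,1],(⟨0,[(13,0)]⟩,⟨1,[(12,0),(2,0),(0,0)]⟩),(⟨0,[(15,0)]⟩,⟨0,[(16,0)]⟩),⟨0,[(0,0)]⟩,
  .k,.k,(.r (-1) ⟨1,[(11,0),(8,1),(0,0)]⟩ ⟨0,[(3,0)]⟩),(.r 0 ⟨0,[(1,0),(4,0),(6,0),(5,0)]⟩ ⟨1,[(10,
  0),(9,1),(0,0)]⟩),.k,.k,⟨false,0,⟨0,[(1,0),(2,0),(8,0),(5,0)]⟩,⟨1,[(10,0),(10,0)]⟩⟩,⟨true,0,⟨0,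
  [(6,0),(6,0)]⟩,⟨1,[(12,0),(2,0),(0,0)]⟩⟩,⟨true,0,⟨0,[(20,0)]⟩,⟨0,[(19,0)]⟩⟩,⟨false,1,⟨1,[(4,1),(5,
  0),(2,1),(8,0)]⟩,⟨0,[(1,0),(17,0)]⟩⟩,⟨false,0,⟨0,[]⟩,⟨0,[]⟩⟩,⟨false,0,⟨0,[]⟩,⟨0,[]⟩⟩,[.o ⟨false,0,
  ⟨0,[(4,0)]⟩,⟨3,[(7,1),(2,0),(0,0),(2,0),(7,0)]⟩⟩,.o ⟨false,1,⟨7,[(5,3),(4,0),(0,0),(2,1),(7,3)]⟩,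
  ⟨0,[(19,0)]⟩⟩,.a ⟨true,0,⟨1,[(12,0),(2,0),(0,0)]⟩,⟨0,[(13,0)]⟩⟩ ⟨false,0,⟨0,[(1,0),(2,0),(8,0)]⟩,
  ⟨3,[(7,1),(2,1),(3,0),(7,0)]⟩⟩ ⟨true,0,⟨0,[(4,0),(8,0)]⟩,⟨4,[(2,0),(0,0),(3,1),(4,1),(4,0)]⟩⟩,.o
  ⟨false,0,⟨1,[(9,0),(2,0)]⟩,⟨1,[(13,1),(0,0),(6,0)]⟩⟩]⟩) (.R ⟨1,false,false,false,[0,0,1],[1,-1],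
  [0,0,0,-1,0,0,1],(⟨0,[(13,0)]⟩,⟨1,[(12,0),(2,0),(0,0)]⟩),(⟨0,[(15,0)]⟩,⟨0,[(16,0)]⟩),⟨0,[(0,0)]⟩,
  .k,.k,(.r (-1) ⟨1,[(11,0),(8,1),(0,0)]⟩ ⟨0,[(3,0)]⟩),(.r 0 ⟨0,[(1,0),(4,0),(6,0),(5,0)]⟩ ⟨1,[(10,
  0),(9,1),(0,0)]⟩),.k,.k,⟨false,0,⟨0,[(1,0),(2,0),(8,0),(5,0)]⟩,⟨1,[(10,0),(10,0)]⟩⟩,⟨true,0,⟨0,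
  [(6,0),(6,0)]⟩,⟨1,[(12,0),(2,0),(0,0)]⟩⟩,⟨true,0,⟨0,[(20,0)]⟩,⟨0,[(19,0)]⟩⟩,⟨false,1,⟨1,[(4,1),(5,
  0),(2,1),(8,0)]⟩,⟨0,[(1,0),(17,0)]⟩⟩,⟨false,1,⟨3,[(10,0),(0,0),(10,1)]⟩,⟨0,[]⟩⟩,⟨false,1,⟨1,[(3,
  1),(0,1),(8,1),(7,0),(0,0)]⟩,⟨1,[(1,0),(0,0)]⟩⟩,[.o ⟨false,0,⟨0,[(4,0)]⟩,⟨3,[(7,1),(2,0),(0,0),(2,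
  0),(7,0)]⟩⟩,.o ⟨false,1,⟨7,[(5,3),(4,0),(0,0),(2,1),(7,3)]⟩,⟨0,[(19,0)]⟩⟩,.a ⟨true,0,⟨1,[(12,0),
  (2,0),(0,0)]⟩,⟨0,[(13,0)]⟩⟩ ⟨false,0,⟨0,[(1,0),(2,0),(8,0)]⟩,⟨3,[(7,1),(2,1),(3,0),(7,0)]⟩⟩ ⟨true,
  0,⟨0,[(4,0),(8,0)]⟩,⟨4,[(2,0),(0,0),(3,1),(4,1),(4,0)]⟩⟩,.o ⟨false,0,⟨1,[(9,0),(2,0)]⟩,⟨1,[(13,1),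
  (0,0),(6,0)]⟩⟩]⟩))) (.Q [0,0,0,0,0,1,0,-1,1] (.ed false [0,1,1] .k) (.I [0,0,-1,-1,0,0,-1] (.R ⟨0,
  false,false,false,[1,0,-1],[1,-1],[1,0,0,0,0,0,-1],(⟨1,[(12,0),(2,0),(0,0)]⟩,⟨0,[(13,0)]⟩),(⟨0,
  [(15,0)]⟩,⟨0,[(16,0)]⟩),⟨0,[(1,0)]⟩,.k,.k,(.r 0 ⟨0,[(0,0)]⟩ ⟨7,[(7,3),(1,3),(0,0),(0,4),(10,1)]⟩),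
  (.r 0 ⟨0,[(3,0)]⟩ ⟨1,[(11,0),(8,1),(0,0)]⟩),.k,.k,⟨false,0,⟨5,[(0,0),(1,3),(0,0),(3,1),(4,1),(6,
  1)]⟩,⟨1,[(11,0),(8,1),(0,0)]⟩⟩,⟨true,0,⟨1,[(9,0),(2,0)]⟩,⟨0,[(13,0)]⟩⟩,⟨true,0,⟨0,[]⟩,⟨0,[(24,
  0)]⟩⟩,⟨false,1,⟨1,[(5,0),(5,0),(0,0),(9,0)]⟩,⟨3,[(0,0),(1,1),(0,0),(3,1),(5,1)]⟩⟩,⟨false,0,⟨0,[]⟩,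
  ⟨0,[]⟩⟩,⟨false,0,⟨0,[]⟩,⟨0,[]⟩⟩,[.o ⟨false,0,⟨0,[(4,0)]⟩,⟨3,[(7,1),(2,0),(0,0),(2,0),(7,0)]⟩⟩,.o
  ⟨false,1,⟨7,[(5,3),(4,0),(0,0),(2,1),(7,3)]⟩,⟨0,[(19,0)]⟩⟩,.a ⟨true,0,⟨0,[(13,0)]⟩,⟨1,[(12,0),(2,
  0),(0,0)]⟩⟩ ⟨false,0,⟨1,[(2,1),(9,0),(2,0),(0,0)]⟩,⟨3,[(10,0),(0,2)]⟩⟩ ⟨true,0,⟨1,[(5,0),(6,0)]⟩,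
  ⟨0,[(13,0),(5,0)]⟩⟩,.o ⟨false,0,⟨0,[(6,0),(6,0)]⟩,⟨7,[(10,0),(0,0),(0,3),(1,1),(6,3)]⟩⟩]⟩) (.R ⟨0,
  false,false,false,[1,0,-1],[1,-1],[1,0,0,0,0,0,-1],(⟨1,[(12,0),(2,0),(0,0)]⟩,⟨0,[(13,0)]⟩),(⟨0,
  [(15,0)]⟩,⟨0,[(16,0)]⟩),⟨0,[(1,0)]⟩,.k,.k,(.x 0 ⟨0,[(6,0),(8,0)]⟩ ⟨3,[(10,0),(0,0),(4,3),(4,1)]⟩),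
  (.r 0 ⟨0,[(3,0)]⟩ ⟨1,[(11,0),(8,1),(0,0)]⟩),.k,.k,⟨false,0,⟨4,[(2,3),(0,0),(3,1),(4,1),(4,0)]⟩,⟨1,
  [(11,0),(8,1),(0,0)]⟩⟩,⟨true,0,⟨1,[(9,0),(2,0)]⟩,⟨0,[(13,0)]⟩⟩,⟨true,0,⟨0,[]⟩,⟨0,[(24,0)]⟩⟩,
  ⟨false,1,⟨1,[(5,0),(5,0),(0,0),(9,0)]⟩,⟨4,[(2,3),(0,0),(3,1),(5,0),(1,1),(0,1),(0,0)]⟩⟩,⟨false,0,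
  ⟨0,[]⟩,⟨0,[]⟩⟩,⟨false,0,⟨0,[]⟩,⟨0,[]⟩⟩,[.o ⟨false,0,⟨0,[(4,0)]⟩,⟨3,[(7,1),(2,0),(0,0),(2,0),(7,
  0)]⟩⟩,.o ⟨false,1,⟨7,[(5,3),(4,0),(0,0),(2,1),(7,3)]⟩,⟨0,[(19,0)]⟩⟩,.a ⟨true,0,⟨0,[(13,0)]⟩,⟨1,
  [(12,0),(2,0),(0,0)]⟩⟩ ⟨false,0,⟨1,[(2,1),(9,0),(2,0),(0,0)]⟩,⟨3,[(10,0),(0,2)]⟩⟩ ⟨true,0,⟨1,[(5,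
  0),(6,0)]⟩,⟨0,[(13,0),(5,0)]⟩⟩,.o ⟨false,0,⟨2,[(0,0),(1,0),(5,0),(0,0),(3,1)]⟩,⟨7,[(10,0),(0,0),
  (0,3),(1,1),(6,3)]⟩⟩]⟩)) (.I [0,0,-1,-1,0,0,-1] (.R ⟨1,false,false,false,[1,0,-1],[1,-1],[1,0,0,0,
  0,0,-1],(⟨1,[(12,0),(2,0),(0,0)]⟩,⟨0,[(13,0)]⟩),(⟨0,[(15,0)]⟩,⟨0,[(16,0)]⟩),⟨0,[(1,0)]⟩,.k,.k,(.r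
  0 ⟨0,[(0,0)]⟩ ⟨7,[(7,3),(1,3),(0,0),(0,4),(10,1)]⟩),(.r 0 ⟨0,[(3,0)]⟩ ⟨1,[(11,0),(8,1),(0,0)]⟩),
  .k,.k,⟨false,0,⟨5,[(0,0),(1,3),(0,0),(3,1),(4,1),(6,1)]⟩,⟨1,[(11,0),(8,1),(0,0)]⟩⟩,⟨true,0,⟨1,[(9,
  0),(2,0)]⟩,⟨0,[(13,0)]⟩⟩,⟨true,0,⟨0,[]⟩,⟨0,[(24,0)]⟩⟩,⟨false,1,⟨1,[(5,0),(5,0),(0,0),(9,0)]⟩,⟨3,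
  [(0,0),(1,1),(0,0),(3,1),(5,1)]⟩⟩,⟨false,1,⟨3,[(7,1),(6,0),(7,2)]⟩,⟨0,[(20,0)]⟩⟩,⟨false,1,⟨0,[(2,
  0),(8,0),(0,0)]⟩,⟨1,[(0,0),(2,0),(9,1)]⟩⟩,[.o ⟨false,0,⟨0,[(4,0)]⟩,⟨3,[(7,1),(2,0),(0,0),(2,0),(7,
  0)]⟩⟩,.o ⟨false,1,⟨7,[(5,3),(4,0),(0,0),(2,1),(7,3)]⟩,⟨0,[(19,0)]⟩⟩,.a ⟨true,0,⟨0,[(13,0)]⟩,⟨1,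
  [(12,0),(2,0),(0,0)]⟩⟩ ⟨false,0,⟨1,[(2,1),(9,0),(2,0),(0,0)]⟩,⟨3,[(10,0),(0,2)]⟩⟩ ⟨true,0,⟨1,[(5,
  0),(6,0)]⟩,⟨0,[(13,0),(5,0)]⟩⟩,.o ⟨false,0,⟨0,[(6,0),(6,0)]⟩,⟨7,[(10,0),(0,0),(0,3),(1,1),(6,
  3)]⟩⟩]⟩) (.R ⟨1,false,false,false,[1,0,-1],[1,-1],[1,0,0,0,0,0,-1],(⟨1,[(12,0),(2,0),(0,0)]⟩,⟨0,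
  [(13,0)]⟩),(⟨0,[(15,0)]⟩,⟨0,[(16,0)]⟩),⟨0,[(1,0)]⟩,.k,.k,(.x 0 ⟨0,[(6,0),(8,0)]⟩ ⟨3,[(10,0),(0,0),
  (4,3),(4,1)]⟩),(.r 0 ⟨0,[(3,0)]⟩ ⟨1,[(11,0),(8,1),(0,0)]⟩),.k,.k,⟨false,0,⟨4,[(2,3),(0,0),(3,1),
  (4,1),(4,0)]⟩,⟨1,[(11,0),(8,1),(0,0)]⟩⟩,⟨true,0,⟨1,[(9,0),(2,0)]⟩,⟨0,[(13,0)]⟩⟩,⟨true,0,⟨0,[]⟩,⟨0,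
  [(24,0)]⟩⟩,⟨false,1,⟨1,[(5,0),(5,0),(0,0),(9,0)]⟩,⟨4,[(2,3),(0,0),(3,1),(5,0),(1,1),(0,1),(0,
  0)]⟩⟩,⟨false,1,⟨3,[(7,1),(6,0),(7,2)]⟩,⟨0,[(20,0)]⟩⟩,⟨false,1,⟨3,[(0,1),(3,1),(6,0),(0,1),(8,0),
  (0,1)]⟩,⟨2,[(2,1),(0,0),(9,0),(1,1),(0,1),(0,0),(2,0)]⟩⟩,[.o ⟨false,0,⟨0,[(4,0)]⟩,⟨3,[(7,1),(2,0),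
  (0,0),(2,0),(7,0)]⟩⟩,.o ⟨false,1,⟨7,[(5,3),(4,0),(0,0),(2,1),(7,3)]⟩,⟨0,[(19,0)]⟩⟩,.a ⟨true,0,⟨0,
  [(13,0)]⟩,⟨1,[(12,0),(2,0),(0,0)]⟩⟩ ⟨false,0,⟨1,[(2,1),(9,0),(2,0),(0,0)]⟩,⟨3,[(10,0),(0,2)]⟩⟩
  ⟨true,0,⟨1,[(5,0),(6,0)]⟩,⟨0,[(13,0),(5,0)]⟩⟩,.o ⟨false,0,⟨2,[(0,0),(1,0),(5,0),(0,0),(3,1)]⟩,⟨7,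
  [(10,0),(0,0),(0,3),(1,1),(6,3)]⟩⟩]⟩)))) (.Q [0,0,0,1,0,0,1,1,-1] (.p false [0,0,1] [1] (⟨0,[(10,
  0)]⟩,⟨1,[(9,0),(2,0),(0,0)]⟩) .k 1 (⟨0,[]⟩,⟨0,[]⟩) .k .k) (.Q [0,1,0,-1,-1,0,1,0,-1] (.p false [0,
  0,1] [] (⟨0,[(11,0)]⟩,⟨1,[(10,0),(2,0),(0,0)]⟩) .k 0 (⟨0,[]⟩,⟨0,[]⟩) .k .k) (.R ⟨2,true,false,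
  true,[0,1],[0,0,1],[1,1,1,1],(⟨0,[]⟩,⟨0,[]⟩),(⟨0,[(12,0)]⟩,⟨1,[(11,0),(2,0),(0,0)]⟩),⟨0,[]⟩,.k,.k,
  .k,(.r (-1) ⟨7,[(6,3),(1,3),(0,4),(0,0),(10,1)]⟩ ⟨1,[(0,1),(11,1),(7,0),(0,0)]⟩),.k,.k,⟨false,1,
  ⟨3,[(6,1),(2,1),(3,0),(7,0)]⟩,⟨1,[(0,1),(11,1),(7,0),(0,0)]⟩⟩,⟨true,0,⟨1,[(8,0),(2,0)]⟩,⟨0,[(12,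
  0)]⟩⟩,⟨false,0,⟨0,[]⟩,⟨3,[(9,0),(0,0),(10,1)]⟩⟩,⟨true,(-1),⟨0,[(0,0)]⟩,⟨3,[(6,1),(2,1),(2,3),(0,
  0),(7,0)]⟩⟩,⟨true,0,⟨0,[(18,0)]⟩,⟨0,[(19,0)]⟩⟩,⟨false,0,⟨3,[(0,1),(0,1),(11,0),(7,0)]⟩,⟨1,[(9,0),
  (2,1),(8,0)]⟩⟩,[]⟩) (.Q [0,0,0,0,0,1,0,0,-1] (.ed true [1,-1,1] .k) (.R ⟨0,false,false,false,[0,0,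
  1],[1,-1],[1,0,0,-1,0,0,1],(⟨0,[(13,0)]⟩,⟨1,[(12,0),(2,0),(0,0)]⟩),(⟨0,[(15,0)]⟩,⟨0,[(16,0)]⟩),⟨0,
  [(0,0)]⟩,.k,.k,(.x 0 ⟨0,[(6,0),(8,0)]⟩ ⟨3,[(10,0),(0,0),(4,3),(4,1)]⟩),(.r 0 ⟨0,[(2,0),(3,0),(6,
  0)]⟩ ⟨1,[(10,0),(9,1),(0,0)]⟩),.k,.k,⟨false,0,⟨1,[(2,0),(0,0),(2,0),(6,0)]⟩,⟨1,[(10,0),(10,0)]⟩⟩,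
  ⟨true,0,⟨0,[(6,0),(6,0)]⟩,⟨1,[(12,0),(2,0),(0,0)]⟩⟩,⟨true,0,⟨0,[(20,0)]⟩,⟨0,[(19,0)]⟩⟩,⟨false,1,
  ⟨0,[(1,0),(3,0)]⟩,⟨0,[(2,0)]⟩⟩,⟨false,0,⟨0,[]⟩,⟨0,[]⟩⟩,⟨false,0,⟨0,[]⟩,⟨0,[]⟩⟩,[.o ⟨false,0,⟨0,
  [(4,0)]⟩,⟨3,[(7,1),(2,0),(0,0),(2,0),(7,0)]⟩⟩,.o ⟨false,1,⟨7,[(5,3),(4,0),(0,0),(2,1),(7,3)]⟩,⟨0,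
  [(19,0)]⟩⟩,.a ⟨true,0,⟨1,[(12,0),(2,0),(0,0)]⟩,⟨0,[(13,0)]⟩⟩ ⟨false,0,⟨0,[(3,0),(14,0)]⟩,⟨3,[(7,
  1),(2,1),(3,0),(7,0)]⟩⟩ ⟨true,0,⟨0,[(4,0),(8,0)]⟩,⟨1,[(7,0),(4,0),(11,0)]⟩⟩,.o ⟨false,0,⟨1,[(9,0),
  (2,0)]⟩,⟨1,[(13,1),(0,0),(6,0)]⟩⟩]⟩) (.Q [0,0,0,-2,0,0,-1,-1,1] (.p true [0,0,1] [1] (⟨0,[(13,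
  0)]⟩,⟨1,[(12,0),(2,0),(0,0)]⟩) .k 1 (⟨0,[]⟩,⟨0,[]⟩) .k .k) (.K ⟨0,[0,0,1],0,0,(⟨0,[(14,0)]⟩,⟨1,
  [(13,0),(2,0),(0,0)]⟩),.k,(.x 0 ⟨1,[(1,1),(8,0),(2,0)]⟩ ⟨3,[(11,0),(0,0),(4,3),(4,1)]⟩),(.r 0 ⟨0,
  [(3,0),(3,0),(6,0)]⟩ ⟨1,[(11,0),(9,1),(0,0)]⟩),.k,.k,[⟨0,[(14,0),(9,0)]⟩,⟨1,[(10,0),(2,0)]⟩,⟨0,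
  [(0,0),(7,0)]⟩,⟨0,[(3,0),(5,0)]⟩]⟩) (.I [1,-1,0,0,0,0,1] (.R ⟨1,false,false,false,[0,0,1],[1,-1],
  [1,0,0,0,0,0,1],(⟨0,[(15,0)]⟩,⟨1,[(14,0),(2,0),(0,0)]⟩),(⟨0,[(17,0)]⟩,⟨0,[(18,0)]⟩),⟨0,[(2,0)]⟩,
  .k,.k,(.x 0 ⟨1,[(2,1),(8,0),(2,0)]⟩ ⟨3,[(12,0),(0,0),(4,3),(4,1)]⟩),(.r 0 ⟨2,[(1,1),(3,0),(5,1),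
  (3,1)]⟩ ⟨1,[(12,0),(9,1),(0,0)]⟩),.k,.k,⟨false,0,⟨0,[(0,0),(20,0)]⟩,⟨1,[(12,0),(9,1),(0,0)]⟩⟩,
  ⟨true,0,⟨0,[(8,0),(6,0)]⟩,⟨1,[(14,0),(2,0),(0,0)]⟩⟩,⟨true,0,⟨0,[]⟩,⟨0,[(26,0)]⟩⟩,⟨false,1,⟨0,[(3,
  0),(3,0)]⟩,⟨0,[(4,0)]⟩⟩,⟨false,1,⟨11,[(1,3),(1,3),(8,0),(0,0),(2,1),(7,3)]⟩,⟨0,[(22,0)]⟩⟩,⟨false,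
  1,⟨0,[(3,0),(2,0)]⟩,⟨0,[(4,0),(17,0)]⟩⟩,[.o ⟨false,0,⟨0,[(6,0)]⟩,⟨9,[(1,1),(1,1),(5,1),(2,2),(0,
  2),(2,1)]⟩⟩,.o ⟨false,1,⟨7,[(7,3),(4,0),(0,0),(2,1),(7,3)]⟩,⟨0,[(21,0)]⟩⟩,.a ⟨true,0,⟨1,[(14,0),
  (2,0),(0,0)]⟩,⟨0,[(15,0)]⟩⟩ ⟨false,0,⟨0,[(0,0)]⟩,⟨3,[(12,2),(0,0)]⟩⟩ ⟨true,0,⟨0,[(6,0),(8,0)]⟩,⟨1,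
  [(9,0),(4,0),(11,0)]⟩⟩,.o ⟨false,0,⟨1,[(11,0),(2,0)]⟩,⟨1,[(15,1),(0,0),(6,0)]⟩⟩]⟩) (.K ⟨0,[0,0,1],
  0,0,(⟨0,[(15,0)]⟩,⟨1,[(14,0),(2,0),(0,0)]⟩),.k,(.x 0 ⟨1,[(2,1),(8,0),(2,0)]⟩ ⟨3,[(12,0),(0,0),(4,
  3),(4,1)]⟩),(.r 0 ⟨2,[(1,1),(3,0),(5,1),(3,1)]⟩ ⟨1,[(12,0),(9,1),(0,0)]⟩),.k,.k,[⟨0,[(15,0),(9,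
  0)]⟩,⟨1,[(11,0),(2,0)]⟩,⟨0,[(0,0),(14,0)]⟩,⟨0,[(4,0),(5,0)]⟩]⟩))))) (.K ⟨0,[0,0,1],0,0,(⟨0,[(11,
  0)]⟩,⟨1,[(10,0),(2,0),(0,0)]⟩),.k,(.x 0 ⟨0,[(4,0),(8,0)]⟩ ⟨3,[(8,0),(0,0),(4,3),(4,1)]⟩),(.r 0 ⟨0,
  [(1,0),(2,0),(0,0),(10,0)]⟩ ⟨1,[(8,0),(9,1),(0,0)]⟩),.k,.k,[⟨0,[(11,0),(9,0)]⟩,⟨1,[(7,0),(2,0)]⟩,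
  ⟨0,[(0,0),(4,0),(12,0)]⟩,⟨1,[(1,1),(5,0),(2,0),(6,1)]⟩]⟩)))

def t1 : Tre :=
  (.I [0,1,2,1,-1] (.S ⟨1,0,[0,1,-1,-2],[1,-1],[1,0,-1,-1],(⟨0,[(12,0)]⟩,⟨0,[(13,0)]⟩),⟨0,[(1,0)]⟩,
  .k,(.r (-1) ⟨0,[(17,1),(0,0)]⟩ ⟨0,[(2,0),(3,0)]⟩),⟨true,0,⟨0,[]⟩,⟨0,[(21,0)]⟩⟩,⟨false,0,⟨0,[(17,
  0)]⟩,⟨3,[(4,1),(6,0),(7,2)]⟩⟩,⟨false,1,⟨3,[(4,1),(6,0),(7,2)]⟩,⟨0,[(17,0)]⟩⟩,⟨true,0,⟨0,[(21,0)]⟩,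
  ⟨0,[]⟩⟩,[.o ⟨false,0,⟨0,[(5,0),(11,0)]⟩,⟨1,[(2,1),(8,0),(7,0)]⟩⟩,.a ⟨true,0,⟨0,[(17,1)]⟩,⟨0,[(2,
  0)]⟩⟩ ⟨true,1,⟨1,[(17,1),(0,0),(0,0)]⟩,⟨0,[(0,0)]⟩⟩ ⟨false,1,⟨0,[(17,1),(0,0)]⟩,⟨0,[(2,0),(0,
  0)]⟩⟩,.o ⟨false,0,⟨0,[(3,0)]⟩,⟨3,[(7,0),(0,0),(9,1)]⟩⟩,.o ⟨false,0,⟨0,[(6,0)]⟩,⟨0,[(18,0)]⟩⟩]⟩)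
  (.I [0,1,-1,-2] (.S ⟨1,0,[0,0,-1,-2],[1,-1],[0,1,-1,-2],(⟨0,[(13,0)]⟩,⟨0,[(14,0)]⟩),⟨0,[(2,0)]⟩,
  .k,(.r (-1) ⟨5,[(0,3),(0,3),(6,0),(0,0)]⟩ ⟨0,[(3,0),(3,0)]⟩),⟨false,0,⟨0,[(18,0)]⟩,⟨3,[(5,1),(6,
  0),(7,2)]⟩⟩,⟨true,0,⟨0,[(18,0)]⟩,⟨0,[(17,0)]⟩⟩,⟨true,0,⟨0,[(22,0)]⟩,⟨0,[]⟩⟩,⟨false,1,⟨3,[(8,0),(0,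
  0),(10,1)]⟩,⟨0,[]⟩⟩,[.a ⟨true,0,⟨0,[(0,0),(15,0)]⟩,⟨0,[(3,0)]⟩⟩ ⟨true,0,⟨0,[(0,0)]⟩,⟨0,[(3,0),(0,
  0),(11,0)]⟩⟩ ⟨false,1,⟨5,[(0,3),(0,3),(6,0),(0,0)]⟩,⟨0,[(3,0),(0,0)]⟩⟩,.e ⟨false,1,⟨5,[(0,3),(0,
  3),(6,0),(0,0)]⟩,⟨0,[(3,0),(0,0)]⟩⟩ ⟨false,1,⟨1,[(0,0),(0,1),(14,0)]⟩,⟨1,[(3,0),(3,0),(9,1)]⟩⟩,.o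
  ⟨false,0,⟨0,[(4,0)]⟩,⟨3,[(8,0),(0,0),(9,1)]⟩⟩,.o ⟨false,0,⟨0,[(7,0)]⟩,⟨0,[(19,0)]⟩⟩]⟩) (.I [0,0,
  -1,-1,0,0,1] (.Q [0,0,0,-1,0,0,0,0,-1] (.p false [0,0,1] [] (⟨0,[(12,0)]⟩,⟨1,[(11,0),(2,0),(0,
  0)]⟩) .k 0 (⟨0,[]⟩,⟨0,[]⟩) .k .k) (.R ⟨1,false,false,true,[1,0,-1],[1,-1],[1,1,0,0,0,0,-1],(⟨1,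
  [(12,0),(2,0),(0,0)]⟩,⟨0,[(13,0)]⟩),(⟨0,[(15,0)]⟩,⟨0,[(16,0)]⟩),⟨1,[(4,0),(7,0)]⟩,.k,.k,(.r (-1)
  ⟨19,[(3,7),(6,10),(0,0),(5,3),(2,11)]⟩ ⟨0,[(1,0),(3,0),(3,0)]⟩),(.r (-1) ⟨7,[(7,3),(1,3),(0,4),(0,
  0),(10,1)]⟩ ⟨0,[(1,0)]⟩),.k,.k,⟨false,1,⟨3,[(7,1),(2,1),(3,0),(7,0)]⟩,⟨0,[(1,0)]⟩⟩,⟨true,0,⟨1,[(9,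
  0),(2,0)]⟩,⟨0,[(13,0)]⟩⟩,⟨false,0,⟨0,[]⟩,⟨3,[(10,0),(0,0),(10,1)]⟩⟩,⟨false,0,⟨1,[(1,1),(7,0),(2,
  0)]⟩,⟨3,[(2,1),(7,1),(2,3),(7,0),(0,0)]⟩⟩,⟨true,0,⟨0,[(19,0)]⟩,⟨0,[(20,0)]⟩⟩,⟨false,0,⟨5,[(1,5),
  (0,1),(3,1),(2,0),(2,2),(6,1)]⟩,⟨1,[(10,0),(2,1),(8,0)]⟩⟩,[.o ⟨false,0,⟨0,[(8,0)]⟩,⟨3,[(7,1),(6,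
  0),(7,2)]⟩⟩,.a ⟨true,0,⟨0,[(20,0)]⟩,⟨1,[(5,0),(9,0),(0,0)]⟩⟩ ⟨false,1,⟨1,[(10,0),(10,0)]⟩,⟨1,[(1,
  1),(3,0),(3,0)]⟩⟩ ⟨true,0,⟨0,[(0,0)]⟩,⟨1,[(5,0),(3,0),(3,1)]⟩⟩,.e ⟨false,1,⟨3,[(10,2),(0,0)]⟩,⟨1,
  [(1,1),(0,0),(15,0)]⟩⟩ ⟨false,0,⟨0,[(0,0)]⟩,⟨3,[(7,1),(5,3),(0,0),(7,2)]⟩⟩,.o ⟨false,0,⟨0,[(6,0),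
  (6,0)]⟩,⟨7,[(10,0),(0,0),(0,3),(1,1),(6,3)]⟩⟩]⟩) (.R ⟨1,false,false,true,[1,0,-1],[1,-1],[1,1,0,0,
  0,0,-1],(⟨1,[(12,0),(2,0),(0,0)]⟩,⟨0,[(13,0)]⟩),(⟨0,[(15,0)]⟩,⟨0,[(16,0)]⟩),⟨1,[(4,0),(7,0)]⟩,.k,
  .k,(.r (-1) ⟨19,[(3,7),(6,10),(0,0),(5,3),(2,11)]⟩ ⟨0,[(1,0),(3,0),(3,0)]⟩),(.r (-1) ⟨7,[(7,3),(1,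
  3),(0,4),(0,0),(10,1)]⟩ ⟨0,[(1,0)]⟩),.k,.k,⟨false,1,⟨3,[(7,1),(2,1),(3,0),(7,0)]⟩,⟨0,[(1,0)]⟩⟩,
  ⟨true,0,⟨1,[(9,0),(2,0)]⟩,⟨0,[(13,0)]⟩⟩,⟨false,0,⟨0,[]⟩,⟨3,[(10,0),(0,0),(10,1)]⟩⟩,⟨false,0,⟨1,
  [(1,1),(7,0),(2,0)]⟩,⟨1,[(0,1),(9,0),(11,0)]⟩⟩,⟨true,0,⟨0,[(19,0)]⟩,⟨0,[(20,0)]⟩⟩,⟨false,0,⟨5,[(1,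
  5),(0,1),(3,1),(2,0),(2,2),(6,1)]⟩,⟨1,[(10,0),(2,1),(8,0)]⟩⟩,[.o ⟨false,0,⟨0,[(8,0)]⟩,⟨3,[(7,1),
  (6,0),(7,2)]⟩⟩,.e ⟨false,1,⟨1,[(10,0),(10,0)]⟩,⟨1,[(1,1),(3,0),(3,0)]⟩⟩ ⟨false,1,⟨3,[(3,1),(4,1),
  (1,0),(0,0),(0,1)]⟩,⟨0,[(0,0)]⟩⟩,.a ⟨true,0,⟨0,[(13,0)]⟩,⟨1,[(12,0),(2,0),(0,0)]⟩⟩ ⟨false,1,⟨3,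
  [(10,2),(0,0)]⟩,⟨1,[(1,1),(0,0),(15,0)]⟩⟩ ⟨true,0,⟨1,[(8,0),(3,0),(7,0),(3,0)]⟩,⟨0,[(0,0)]⟩⟩,.o
  ⟨false,0,⟨0,[(6,0),(6,0)]⟩,⟨7,[(10,0),(0,0),(0,3),(1,1),(6,3)]⟩⟩]⟩)) (.Q [0,1,0,0,0,0,1,1,-1] (.p
  false [0,0,1] [1] (⟨0,[(12,0)]⟩,⟨1,[(11,0),(2,0),(0,0)]⟩) .k 1 (⟨0,[]⟩,⟨0,[]⟩) .k .k) (.Q [0,1,0,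
  0,0,0,-1,-1,1] (.p true [0,0,1] [1] (⟨0,[(13,0)]⟩,⟨1,[(12,0),(2,0),(0,0)]⟩) .k 1 (⟨0,[]⟩,⟨0,[]⟩)
  .k .k) (.K ⟨0,[1,0,-1],0,0,(⟨1,[(13,0),(2,0),(0,0)]⟩,⟨0,[(14,0)]⟩),.k,(.x 0 ⟨1,[(5,0),(4,0)]⟩ ⟨3,
  [(11,0),(0,0),(4,3),(4,1)]⟩),(.r 0 ⟨1,[(0,1),(2,1),(2,0),(6,0),(7,3)]⟩ ⟨19,[(4,7),(6,0),(0,10),(5,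
  3),(2,11)]⟩),.k,.k,[⟨1,[(13,0),(2,0),(0,0),(6,1)]⟩,⟨0,[(7,0),(6,0)]⟩,⟨0,[(1,0)]⟩,⟨0,[(0,0)]⟩]⟩)
  (.Q [0,1,0,0,0,0,-1,0,1] (.p true [0,0,1] [] (⟨0,[(14,0)]⟩,⟨1,[(13,0),(2,0),(0,0)]⟩) .k 0 (⟨0,[]⟩,
  ⟨0,[]⟩) .k .k) (.K ⟨0,[0,0,1],0,0,(⟨0,[(15,0)]⟩,⟨1,[(0,0),(0,0),(12,0)]⟩),.k,(.x 0 ⟨1,[(6,0),(4,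
  0)]⟩ ⟨3,[(12,0),(0,0),(4,3),(4,1)]⟩),(.r 0 ⟨0,[(1,0),(6,0),(6,0),(5,0)]⟩ ⟨19,[(5,7),(6,10),(0,0),
  (5,3),(2,11)]⟩),.k,.k,[⟨0,[(15,0),(9,0)]⟩,⟨1,[(11,0),(2,0)]⟩,⟨0,[(0,0)]⟩,⟨0,[(1,0),(8,0),(10,
  0)]⟩]⟩) (.Q [0,0,0,-1,0,0,0,0,-1] (.p false [0,0,1] [] (⟨0,[(15,0)]⟩,⟨1,[(14,0),(2,0),(0,0)]⟩) .k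
  0 (⟨0,[]⟩,⟨0,[]⟩) .k .k) (.R ⟨1,false,false,true,[1,0,-1],[1,-1],[1,0,0,0,0,0,-1],(⟨1,[(15,0),(2,
  0),(0,0)]⟩,⟨0,[(16,0)]⟩),(⟨0,[(18,0)]⟩,⟨0,[(19,0)]⟩),⟨1,[(7,0),(7,0)]⟩,.k,.k,(.r (-1) ⟨19,[(6,7),
  (6,10),(0,0),(5,3),(2,11)]⟩ ⟨7,[(1,4),(1,2),(1,1),(6,2),(3,7),(5,3)]⟩),(.x (-1) ⟨3,[(13,0),(0,0),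
  (4,3),(4,1)]⟩ ⟨1,[(7,0),(4,0)]⟩),.k,.k,⟨false,1,⟨3,[(5,1),(7,1),(10,0),(0,0)]⟩,⟨0,[(1,0),(14,0),
  (3,0),(2,0)]⟩⟩,⟨true,0,⟨1,[(12,0),(2,0)]⟩,⟨0,[(16,0)]⟩⟩,⟨true,0,⟨0,[]⟩,⟨0,[(27,0)]⟩⟩,⟨false,0,⟨0,
  [(2,0),(8,0)]⟩,⟨3,[(5,1),(7,1),(2,3),(7,0),(0,0)]⟩⟩,⟨false,1,⟨3,[(10,1),(6,0),(7,2)]⟩,⟨0,[(23,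
  0)]⟩⟩,⟨false,0,⟨5,[(1,4),(1,0),(8,0),(7,1)]⟩,⟨1,[(13,0),(2,1),(8,0)]⟩⟩,[.o ⟨false,0,⟨0,[(11,0)]⟩,
  ⟨3,[(10,1),(6,0),(7,2)]⟩⟩,.a ⟨true,0,⟨0,[(23,0)]⟩,⟨1,[(8,0),(9,0),(0,0)]⟩⟩ ⟨false,1,⟨0,[(4,0),(1,
  0)]⟩,⟨2,[(1,1),(1,0),(8,0),(3,2),(3,1)]⟩⟩ ⟨true,0,⟨0,[(0,0)]⟩,⟨1,[(8,0),(3,0),(3,1)]⟩⟩,.e ⟨false,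
  1,⟨1,[(13,0),(11,0)]⟩,⟨5,[(1,4),(1,0),(8,0),(3,5),(3,1)]⟩⟩ ⟨false,0,⟨0,[(0,0)]⟩,⟨3,[(10,1),(5,3),
  (0,0),(7,2)]⟩⟩,.o ⟨false,0,⟨0,[(9,0),(6,0)]⟩,⟨7,[(13,0),(0,0),(0,3),(1,1),(6,3)]⟩⟩]⟩) (.R ⟨1,
  false,false,true,[1,0,-1],[1,-1],[1,0,0,0,0,0,-1],(⟨1,[(15,0),(2,0),(0,0)]⟩,⟨0,[(16,0)]⟩),(⟨0,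
  [(18,0)]⟩,⟨0,[(19,0)]⟩),⟨1,[(7,0),(7,0)]⟩,.k,.k,(.r (-1) ⟨19,[(6,7),(6,10),(0,0),(5,3),(2,11)]⟩
  ⟨1,[(0,1),(0,0),(1,0),(8,0)]⟩),(.x (-1) ⟨3,[(13,0),(0,0),(4,3),(4,1)]⟩ ⟨1,[(7,0),(4,0)]⟩),.k,.k,
  ⟨false,1,⟨3,[(5,1),(7,1),(10,0),(0,0)]⟩,⟨0,[(1,0),(14,0),(3,0),(2,0)]⟩⟩,⟨true,0,⟨1,[(12,0),(2,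
  0)]⟩,⟨0,[(16,0)]⟩⟩,⟨true,0,⟨0,[]⟩,⟨0,[(27,0)]⟩⟩,⟨false,0,⟨0,[(2,0),(8,0)]⟩,⟨1,[(0,1),(12,0),(11,
  0)]⟩⟩,⟨false,1,⟨3,[(10,1),(6,0),(7,2)]⟩,⟨0,[(23,0)]⟩⟩,⟨false,0,⟨5,[(1,4),(1,0),(8,0),(7,1)]⟩,⟨1,
  [(13,0),(2,1),(8,0)]⟩⟩,[.o ⟨false,0,⟨0,[(11,0)]⟩,⟨3,[(10,1),(6,0),(7,2)]⟩⟩,.e ⟨false,1,⟨0,[(4,0),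
  (1,0)]⟩,⟨2,[(0,1),(0,0),(1,1),(7,1),(4,0)]⟩⟩ ⟨false,1,⟨3,[(6,1),(4,1),(1,0),(0,0),(0,1)]⟩,⟨0,[(0,
  0)]⟩⟩,.a ⟨true,0,⟨0,[(16,0)]⟩,⟨1,[(15,0),(2,0),(0,0)]⟩⟩ ⟨false,1,⟨1,[(13,0),(11,0)]⟩,⟨2,[(0,0),(0,
  1),(1,0),(7,0),(4,1)]⟩⟩ ⟨true,0,⟨1,[(11,0),(3,0),(7,0),(3,0)]⟩,⟨0,[(0,0)]⟩⟩,.o ⟨false,0,⟨0,[(9,0),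
  (6,0)]⟩,⟨7,[(13,0),(0,0),(0,3),(1,1),(6,3)]⟩⟩]⟩)))) (.Q [0,0,0,0,0,-1,0,0,1] (.ed false [1,-1,1]
  .k) (.I [1,-1,-1,0,1,0,1] (.R ⟨1,false,false,true,[0,0,1],[1,-1],[1,0,0,0,0,0,1],(⟨0,[(15,0)]⟩,⟨1,
  [(14,0),(2,0),(0,0)]⟩),(⟨0,[(17,0)]⟩,⟨0,[(18,0)]⟩),⟨0,[(1,0)]⟩,.k,.k,(.r (-1) ⟨19,[(5,7),(6,0),(0,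
  10),(5,3),(2,11)]⟩ ⟨0,[(1,0),(0,0),(1,2),(9,0),(3,0),(0,1),(2,4)]⟩),(.x (-1) ⟨3,[(12,0),(0,0),(4,
  3),(4,1)]⟩ ⟨1,[(6,0),(4,0)]⟩),.k,.k,⟨false,1,⟨11,[(0,3),(3,3),(4,1),(3,3),(2,0),(7,2)]⟩,⟨1,[(2,1),
  (11,0),(2,0),(0,0),(0,1),(2,1)]⟩⟩,⟨true,0,⟨0,[(8,0),(6,0)]⟩,⟨1,[(14,0),(2,0),(0,0)]⟩⟩,⟨true,0,⟨0,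
  []⟩,⟨0,[(26,0)]⟩⟩,⟨false,0,⟨3,[(2,2),(0,0),(6,0),(4,0),(3,0),(2,3)]⟩,⟨1,[(7,0),(5,0),(0,0),(9,
  0)]⟩⟩,⟨false,1,⟨3,[(9,1),(6,0),(7,2)]⟩,⟨0,[(22,0)]⟩⟩,⟨false,0,⟨3,[(2,2),(0,0),(6,0),(4,0),(3,0)]⟩,
  ⟨1,[(13,0),(0,0),(2,0),(0,0),(5,0)]⟩⟩,[.o ⟨false,0,⟨0,[(10,0)]⟩,⟨3,[(9,1),(6,0),(7,2)]⟩⟩,.e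
  ⟨false,1,⟨0,[(0,0)]⟩,⟨5,[(2,1),(0,3),(10,0),(2,0),(0,0),(0,3),(2,3)]⟩⟩ ⟨false,1,⟨7,[(5,3),(4,3),
  (1,0),(0,0),(1,7),(0,1)]⟩,⟨1,[(7,0),(6,0)]⟩⟩,.a ⟨true,0,⟨1,[(14,0),(2,0),(0,0)]⟩,⟨0,[(15,0)]⟩⟩
  ⟨false,1,⟨1,[(13,0),(10,0)]⟩,⟨2,[(2,1),(0,0),(10,0),(2,0),(0,0),(0,0),(2,0)]⟩⟩ ⟨true,0,⟨0,[(10,0),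
  (4,0)]⟩,⟨1,[(7,0),(6,0)]⟩⟩,.o ⟨false,0,⟨1,[(11,0),(2,0)]⟩,⟨1,[(15,1),(0,0),(6,0)]⟩⟩]⟩) (.R ⟨1,
  false,false,true,[0,0,1],[1,-1],[1,1,0,0,0,0,1],(⟨0,[(15,0)]⟩,⟨1,[(14,0),(2,0),(0,0)]⟩),(⟨0,[(17,
  0)]⟩,⟨0,[(18,0)]⟩),⟨0,[(1,0)]⟩,.k,.k,(.r (-1) ⟨19,[(5,7),(6,0),(0,10),(5,3),(2,11)]⟩ ⟨0,[(0,0),(3,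
  3),(0,0),(13,1),(2,5)]⟩),(.r (-1) ⟨7,[(9,3),(1,3),(0,0),(0,4),(10,1)]⟩ ⟨0,[(0,0),(4,0)]⟩),.k,.k,
  ⟨false,1,⟨3,[(9,1),(3,1),(2,0),(7,0)]⟩,⟨0,[(0,0),(4,0)]⟩⟩,⟨true,0,⟨0,[(8,0),(6,0)]⟩,⟨1,[(14,0),(2,
  0),(0,0)]⟩⟩,⟨false,0,⟨0,[]⟩,⟨3,[(12,0),(0,0),(10,1)]⟩⟩,⟨false,0,⟨8,[(0,0),(1,5),(7,2),(1,0),(2,2),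
  (3,0),(2,5)]⟩,⟨1,[(7,0),(5,0),(0,0),(9,0)]⟩⟩,⟨true,0,⟨0,[(21,0)]⟩,⟨0,[(22,0)]⟩⟩,⟨false,0,⟨17,[(0,
  0),(1,14),(8,2),(0,0),(2,2),(3,6)]⟩,⟨1,[(13,0),(0,0),(2,0),(0,0),(5,0)]⟩⟩,[.o ⟨false,0,⟨0,[(10,
  0)]⟩,⟨3,[(9,1),(6,0),(7,2)]⟩⟩,.e ⟨false,1,⟨1,[(13,0),(9,0)]⟩,⟨9,[(0,3),(1,1),(2,1),(1,0),(4,1),(1,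
  0)]⟩⟩ ⟨false,1,⟨7,[(5,3),(4,3),(1,0),(0,0),(1,7),(0,1)]⟩,⟨1,[(7,0),(6,0)]⟩⟩,.a ⟨true,0,⟨1,[(14,0),
  (2,0),(0,0)]⟩,⟨0,[(15,0)]⟩⟩ ⟨false,1,⟨3,[(12,0),(0,2)]⟩,⟨1,[(2,1),(11,0),(2,0),(0,0)]⟩⟩ ⟨true,0,
  ⟨0,[(10,0),(4,0)]⟩,⟨1,[(7,0),(6,0)]⟩⟩,.o ⟨false,0,⟨1,[(11,0),(2,0)]⟩,⟨1,[(15,1),(0,0),(6,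
  0)]⟩⟩]⟩)) (.I [0,0,-1,-1,0,0,-1] (.R ⟨0,false,false,true,[0,0,1],[1,-1],[0,1,0,0,0,0,1],(⟨0,[(15,
  0)]⟩,⟨1,[(14,0),(2,0),(0,0)]⟩),(⟨0,[(17,0)]⟩,⟨0,[(18,0)]⟩),⟨0,[(1,0)]⟩,.k,.k,(.r (-1) ⟨19,[(5,7),
  (6,0),(0,10),(5,3),(2,11)]⟩ ⟨0,[(0,0),(3,3),(14,1),(2,5)]⟩),(.r (-1) ⟨7,[(9,3),(1,3),(0,0),(0,4),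
  (10,1)]⟩ ⟨0,[(0,0)]⟩),.k,.k,⟨false,1,⟨3,[(9,1),(3,1),(2,0),(7,0)]⟩,⟨0,[(0,0)]⟩⟩,⟨true,0,⟨0,[(8,0),
  (6,0)]⟩,⟨1,[(14,0),(2,0),(0,0)]⟩⟩,⟨true,0,⟨0,[(26,0)]⟩,⟨0,[]⟩⟩,⟨false,0,⟨2,[(0,1),(1,0),(7,0),(0,
  0),(3,1)]⟩,⟨1,[(7,0),(5,0),(0,0),(9,0)]⟩⟩,⟨false,0,⟨0,[]⟩,⟨0,[]⟩⟩,⟨false,0,⟨0,[]⟩,⟨0,[]⟩⟩,[.o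
  ⟨false,0,⟨0,[(10,0)]⟩,⟨3,[(9,1),(6,0),(7,2)]⟩⟩,.e ⟨false,1,⟨1,[(13,0),(9,0)]⟩,⟨1,[(0,0),(2,0)]⟩⟩
  ⟨false,1,⟨7,[(5,3),(4,3),(1,0),(0,0),(1,7),(0,1)]⟩,⟨1,[(7,0),(6,0)]⟩⟩,.a ⟨true,0,⟨1,[(14,0),(2,0),
  (0,0)]⟩,⟨0,[(15,0)]⟩⟩ ⟨false,1,⟨3,[(12,0),(0,2)]⟩,⟨3,[(0,1),(1,1),(4,0),(6,0),(5,1)]⟩⟩ ⟨true,0,⟨0,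
  [(10,0),(4,0)]⟩,⟨1,[(7,0),(6,0)]⟩⟩,.o ⟨false,0,⟨1,[(11,0),(2,0)]⟩,⟨1,[(15,1),(0,0),(6,0)]⟩⟩]⟩)
  (.R ⟨0,false,false,true,[0,0,1],[1,-1],[0,1,-1,-1],(⟨0,[(15,0)]⟩,⟨1,[(14,0),(2,0),(0,0)]⟩),(⟨0,
  [(17,0)]⟩,⟨0,[(18,0)]⟩),⟨0,[(1,0)]⟩,.k,.k,(.r (-1) ⟨19,[(5,7),(6,0),(0,10),(5,3),(2,11)]⟩ ⟨0,[(0,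
  2),(0,3),(0,3),(3,3),(11,3),(0,1),(2,1)]⟩),(.x (-1) ⟨3,[(12,0),(0,0),(4,3),(4,1)]⟩ ⟨1,[(6,0),(4,
  0)]⟩),.k,.k,⟨false,1,⟨3,[(12,0),(0,0),(9,1)]⟩,⟨0,[]⟩⟩,⟨true,0,⟨2,[(0,0),(1,0),(7,0),(0,0),(3,1)]⟩,
  ⟨1,[(14,0),(2,0),(0,0)]⟩⟩,⟨true,0,⟨1,[(2,1),(11,0),(2,0),(0,0),(0,1),(2,1)]⟩,⟨0,[(0,0)]⟩⟩,⟨false,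
  0,⟨3,[(2,2),(0,0),(6,0),(4,0),(3,0),(2,3)]⟩,⟨1,[(7,0),(5,0),(0,0),(9,0)]⟩⟩,⟨false,0,⟨0,[]⟩,⟨0,
  []⟩⟩,⟨false,0,⟨0,[]⟩,⟨0,[]⟩⟩,[.o ⟨false,0,⟨0,[(10,0)]⟩,⟨3,[(9,1),(6,0),(7,2)]⟩⟩,.e ⟨false,1,⟨9,
  [(5,7),(6,0),(0,0),(5,3),(2,1)]⟩,⟨1,[(7,0),(3,0)]⟩⟩ ⟨false,1,⟨7,[(5,3),(4,3),(1,0),(0,0),(1,7),(0,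
  1)]⟩,⟨1,[(7,0),(6,0)]⟩⟩,.a ⟨true,0,⟨1,[(14,0),(2,0),(0,0)]⟩,⟨0,[(15,0)]⟩⟩ ⟨false,1,⟨9,[(5,3),(6,
  2),(0,2),(5,1),(2,5)]⟩,⟨1,[(4,0),(15,0)]⟩⟩ ⟨true,0,⟨0,[(10,0),(4,0)]⟩,⟨1,[(7,0),(6,0)]⟩⟩,.o
  ⟨false,0,⟨1,[(11,0),(2,0)]⟩,⟨1,[(15,1),(0,0),(6,0)]⟩⟩]⟩)))))))

def t2 : Tre :=
  (.Q [0,0,0,0,0,2,0,-1] (.pp true [-1,1]) (.I [1,1,2,1,-1] (.R ⟨0,false,false,true,[1,-1],[0,1],[],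
  (⟨0,[(17,0)]⟩,⟨0,[(18,0)]⟩),(⟨0,[(18,0)]⟩,⟨0,[(17,0)]⟩),⟨0,[(1,0)]⟩,.k,.k,(.r (-1) ⟨0,[(22,1),(0,
  0)]⟩ ⟨0,[(7,0),(3,0)]⟩),(.r (-1) ⟨0,[(22,1),(0,0)]⟩ ⟨0,[(7,0),(3,0)]⟩),.k,.k,⟨true,1,⟨1,[(22,1),
  (0,0),(0,0)]⟩,⟨0,[(0,0)]⟩⟩,⟨false,1,⟨0,[(8,0),(14,0)]⟩,⟨0,[(11,0)]⟩⟩,⟨true,0,⟨1,[(7,0),(3,0)]⟩,⟨0,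
  [(6,0),(15,0)]⟩⟩,⟨false,0,⟨0,[(7,0)]⟩,⟨1,[(16,0),(5,3),(1,0)]⟩⟩,⟨false,0,⟨0,[]⟩,⟨0,[]⟩⟩,⟨false,0,
  ⟨0,[]⟩,⟨0,[]⟩⟩,[.o ⟨false,0,⟨0,[(21,0)]⟩,⟨1,[(16,0),(5,1),(1,0)]⟩⟩,.e ⟨false,1,⟨1,[(23,0),(0,0)]⟩,
  ⟨0,[(26,0)]⟩⟩ ⟨false,1,⟨3,[(8,1),(0,1),(13,2),(0,0)]⟩,⟨0,[(10,0),(9,0)]⟩⟩,.a ⟨true,0,⟨0,[(25,0)]⟩,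
  ⟨0,[(8,0)]⟩⟩ ⟨false,1,⟨3,[(12,0),(0,0),(10,1)]⟩,⟨0,[]⟩⟩ ⟨true,0,⟨1,[(6,0),(1,0),(0,0)]⟩,⟨0,[(10,
  0),(9,0)]⟩⟩,.o ⟨false,0,⟨0,[(11,0)]⟩,⟨0,[(23,0)]⟩⟩]⟩) (.I [0,1,3,2,-1] (.R ⟨0,false,false,true,[1,
  -1],[0,1],[0,1,2,1],(⟨0,[(18,0)]⟩,⟨0,[(19,0)]⟩),(⟨0,[(19,0)]⟩,⟨0,[(18,0)]⟩),⟨0,[(2,0)]⟩,.k,.k,(.r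
  (-1) ⟨9,[(1,7),(11,0),(0,0),(5,3),(2,11)]⟩ ⟨5,[(0,3),(9,1),(6,0),(7,2)]⟩),(.r (-1) ⟨9,[(1,7),(11,
  0),(0,0),(5,3),(2,11)]⟩ ⟨5,[(0,3),(9,1),(6,0),(7,2)]⟩),.k,.k,⟨true,0,⟨0,[(26,0)]⟩,⟨0,[]⟩⟩,⟨false,
  1,⟨0,[(9,0),(14,0)]⟩,⟨0,[(12,0)]⟩⟩,⟨true,(-1),⟨0,[(0,0)]⟩,⟨0,[(1,0),(5,0),(15,0)]⟩⟩,⟨false,0,⟨0,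
  [(8,0)]⟩,⟨1,[(17,0),(5,3),(1,0)]⟩⟩,⟨false,0,⟨0,[]⟩,⟨0,[]⟩⟩,⟨false,0,⟨0,[]⟩,⟨0,[]⟩⟩,[.o ⟨false,0,
  ⟨0,[(22,0)]⟩,⟨1,[(17,0),(5,1),(1,0)]⟩⟩,.e ⟨false,0,⟨11,[(0,3),(9,1),(6,0),(7,2)]⟩,⟨9,[(1,7),(11,
  0),(0,0),(5,3),(2,1)]⟩⟩ ⟨false,1,⟨0,[(1,0),(8,0)]⟩,⟨0,[(11,0),(9,0)]⟩⟩,.a ⟨true,0,⟨0,[(26,0)]⟩,⟨0,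
  [(9,0)]⟩⟩ ⟨false,0,⟨7,[(0,3),(12,0),(0,0),(10,1),(0,3)]⟩,⟨0,[(1,0)]⟩⟩ ⟨true,0,⟨1,[(7,0),(1,0),(0,
  0)]⟩,⟨0,[(11,0),(9,0)]⟩⟩,.o ⟨false,0,⟨0,[(12,0)]⟩,⟨0,[(24,0)]⟩⟩]⟩) (.Q [0,1,0,-1,0,0,-1,-1,1] (.p
  true [0,0,1] [1] (⟨0,[(16,0)]⟩,⟨1,[(15,0),(2,0),(0,0)]⟩) .k 1 (⟨0,[]⟩,⟨0,[]⟩) .k .k) (.Q [0,0,0,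
  -1,0,0,1,0,-1] (.p false [0,0,1] [] (⟨0,[(17,0)]⟩,⟨1,[(16,0),(2,0),(0,0)]⟩) .k 0 (⟨0,[]⟩,⟨0,[]⟩)
  .k .k) (.I [0,0,1,1,0,0,-1] (.K ⟨0,[0,1,-1],0,0,(⟨1,[(5,0),(12,0)]⟩,⟨0,[(19,0),(1,0)]⟩),(.r 0 ⟨0,
  [(0,0)]⟩ ⟨27,[(3,7),(12,2),(0,16),(5,3),(2,11)]⟩),.k,(.r 0 ⟨1,[(0,1),(10,0),(3,0)]⟩ ⟨6,[(1,0),(1,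
  3),(13,2),(1,0),(3,1),(2,4)]⟩),.k,.k,[⟨1,[(15,0),(2,0),(10,1)]⟩,⟨0,[(19,0)]⟩,⟨0,[(1,0),(28,0)]⟩,
  ⟨0,[(2,0),(8,0)]⟩]⟩) (.Q [0,0,0,0,0,1,0,-1,1] (.ed false [0,1,1] .k) (.K ⟨0,[-1,1,1],0,0,(⟨0,[(0,
  0)]⟩,⟨1,[(19,0),(2,2),(0,0)]⟩),(.r 0 ⟨0,[(1,0),(23,1),(0,1)]⟩ ⟨27,[(4,7),(12,16),(0,2),(5,3),(2,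
  11)]⟩),.k,(.r 0 ⟨1,[(7,1),(4,0),(3,0)]⟩ ⟨9,[(3,0),(0,5),(4,0),(7,3),(1,0),(4,1),(2,6)]⟩),.k,.k,
  [⟨0,[(16,0),(3,0)]⟩,⟨1,[(19,0),(2,0),(0,0)]⟩,⟨0,[(3,0)]⟩,⟨0,[(10,0)]⟩]⟩) (.K ⟨0,[1,-1,-1],0,0,(⟨0,
  [(0,0)]⟩,⟨0,[(20,0),(2,0)]⟩),(.r (-1) ⟨27,[(4,7),(12,16),(0,2),(5,3),(2,11)]⟩ ⟨0,[(1,0),(23,1),(0,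
  1)]⟩),(.r (-1) ⟨9,[(3,0),(0,5),(4,0),(7,3),(1,0),(4,1),(2,6)]⟩ ⟨1,[(7,1),(4,0),(3,0)]⟩),.k,.k,.k,
  [⟨1,[(19,0),(2,0),(0,0)]⟩,⟨0,[(16,0),(3,0)]⟩,⟨0,[(10,0)]⟩,⟨0,[(3,0)]⟩]⟩))) (.Q [0,-1,0,-1,1,0,1,
  -1,-1] (.p false [1,-1,1] [] (⟨0,[(18,0),(1,0)]⟩,⟨1,[(4,0),(12,0)]⟩) (.r (-1) ⟨27,[(2,7),(12,2),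
  (0,16),(5,3),(2,11)]⟩ ⟨1,[(0,1),(12,0),(3,0),(5,1),(0,0)]⟩) 0 (⟨0,[]⟩,⟨0,[]⟩) .k .k) (.R ⟨2,false,
  false,true,[0,1],[0,1,-1],[0,0,1],(⟨0,[]⟩,⟨0,[]⟩),(⟨1,[(5,0),(12,0)]⟩,⟨0,[(19,0),(1,0)]⟩),⟨0,[]⟩,
  .k,(.r 0 ⟨1,[(1,1),(12,0),(3,0),(5,1),(0,0)]⟩ ⟨27,[(3,7),(12,2),(0,16),(5,3),(2,11)]⟩),.k,.k,(.r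
  (-1) ⟨27,[(3,7),(12,2),(0,16),(5,3),(2,11)]⟩ ⟨1,[(1,1),(12,0),(3,0),(5,1),(0,0)]⟩),.k,⟨false,1,⟨1,
  [(3,0),(13,0),(6,0)]⟩,⟨0,[(7,0),(2,0)]⟩⟩,⟨true,0,⟨0,[(19,0)]⟩,⟨1,[(15,0),(2,0)]⟩⟩,⟨true,0,⟨0,[(26,
  0)]⟩,⟨0,[(25,0)]⟩⟩,⟨false,0,⟨0,[(1,0),(24,0)]⟩,⟨3,[(0,1),(10,0),(5,0),(0,0),(9,0)]⟩⟩,⟨false,1,⟨3,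
  [(16,0),(0,0),(10,1)]⟩,⟨0,[]⟩⟩,⟨false,0,⟨0,[(1,0)]⟩,⟨2,[(0,0),(16,0),(0,0),(7,1),(1,0)]⟩⟩,[.o
  ⟨false,0,⟨1,[(1,0),(6,0),(16,0)]⟩,⟨0,[(0,0)]⟩⟩,.o ⟨false,0,⟨0,[(1,0)]⟩,⟨15,[(0,11),(13,3),(0,1),
  (0,0),(0,2),(0,1),(4,3)]⟩⟩,.a ⟨true,0,⟨0,[(12,0)]⟩,⟨0,[(29,0)]⟩⟩ ⟨true,0,⟨0,[(29,0)]⟩,⟨0,[(10,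
  0)]⟩⟩ ⟨false,0,⟨3,[(1,1),(6,1),(2,0),(3,0),(8,1)]⟩,⟨5,[(0,1),(2,2),(2,1),(10,0),(0,1),(5,0)]⟩⟩,.e
  ⟨false,1,⟨3,[(16,0),(0,0),(10,1)]⟩,⟨0,[]⟩⟩ ⟨false,0,⟨0,[(1,0)]⟩,⟨2,[(0,0),(16,0),(0,0),(7,1),(1,
  0)]⟩⟩]⟩) (.K ⟨0,[0,1,-1],0,0,(⟨1,[(5,0),(12,0)]⟩,⟨0,[(19,0),(1,0)]⟩),(.r 0 ⟨1,[(0,1),(3,0),(9,0),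
  (3,0),(1,0),(3,3),(0,1)]⟩ ⟨27,[(3,7),(12,2),(0,16),(5,3),(2,11)]⟩),.k,(.r 0 ⟨1,[(7,1),(3,0),(3,
  0)]⟩ ⟨1,[(3,0),(6,0),(6,0),(8,1)]⟩),.k,.k,[⟨1,[(15,0),(2,0),(10,1)]⟩,⟨0,[(19,0)]⟩,⟨0,[(0,0),(2,0),
  (2,1),(7,1),(3,0),(5,0)]⟩,⟨3,[(0,0),(0,0),(6,1),(4,0),(6,0)]⟩]⟩))) (.Q [0,0,1,0,0,0,0,-1,2] (.p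
  true [0,0,1] [1,0,-1] (⟨0,[(17,0)]⟩,⟨1,[(16,0),(2,0),(0,0)]⟩) .k 2 (⟨1,[(16,0),(2,0),(0,0)]⟩,⟨0,
  [(17,0)]⟩) .k .k) (.R ⟨2,false,false,false,[0,1],[1,0,-2],[0,0,1],(⟨0,[]⟩,⟨0,[]⟩),(⟨0,[(17,0)]⟩,
  ⟨0,[(0,0),(10,0)]⟩),⟨0,[]⟩,.k,.k,.k,(.r 0 ⟨1,[(0,0),(0,1),(3,1),(3,0),(3,0),(11,0)]⟩ ⟨4,[(2,2),(3,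
  3),(0,1),(5,0),(1,1),(1,0),(7,1)]⟩),.k,.k,⟨false,0,⟨0,[(0,0),(0,1),(7,0),(3,0),(11,0)]⟩,⟨1,[(2,0),
  (3,1),(2,0),(5,0)]⟩⟩,⟨true,0,⟨0,[(0,0)]⟩,⟨0,[(17,0)]⟩⟩,⟨true,0,⟨0,[(25,0)]⟩,⟨0,[(24,0)]⟩⟩,⟨false,
  1,⟨2,[(0,1),(1,2),(3,3),(0,1),(5,0),(9,2)]⟩,⟨1,[(1,2),(6,0),(4,1)]⟩⟩,⟨false,1,⟨3,[(15,0),(0,0),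
  (10,1)]⟩,⟨0,[]⟩⟩,⟨false,1,⟨0,[(0,0),(1,0),(3,1)]⟩,⟨1,[(1,2),(6,0),(4,1),(11,1)]⟩⟩,[.o ⟨false,1,
  ⟨10,[(0,7),(1,5),(3,9),(0,5),(2,0),(4,2),(3,1)]⟩,⟨0,[(1,1),(11,1)]⟩⟩,.o ⟨false,1,⟨0,[(0,0),(1,0),
  (3,1)]⟩,⟨1,[(1,2),(6,0),(4,3)]⟩⟩,.a ⟨true,0,⟨0,[(11,0)]⟩,⟨0,[(28,0)]⟩⟩ ⟨true,0,⟨0,[(28,0)]⟩,⟨0,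
  [(9,0)]⟩⟩ ⟨false,1,⟨1,[(0,1),(1,0),(3,1),(8,0),(7,0)]⟩,⟨0,[(1,1),(7,0),(3,0),(11,0)]⟩⟩,.e ⟨false,
  1,⟨3,[(15,0),(0,0),(10,1)]⟩,⟨0,[]⟩⟩ ⟨false,1,⟨0,[(0,0),(1,0),(3,1)]⟩,⟨1,[(1,2),(6,0),(4,1),(11,
  1)]⟩⟩]⟩) (.R ⟨0,false,false,false,[1,-1],[0,0,1],[1,0,-1,-1],(⟨0,[(20,0)]⟩,⟨0,[(21,0)]⟩),(⟨0,[(18,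
  0)]⟩,⟨1,[(17,0),(2,0),(0,0)]⟩),⟨0,[(4,0)]⟩,.k,.k,(.r (-1) ⟨13,[(2,7),(12,2),(0,2),(5,3),(2,11)]⟩
  ⟨0,[(10,0),(3,0)]⟩),(.r (-1) ⟨27,[(2,7),(12,16),(0,2),(5,3),(2,11)]⟩ ⟨0,[(1,0),(11,0),(4,0),(4,0),
  (0,0)]⟩),.k,.k,⟨false,1,⟨1,[(2,0),(6,0),(5,0)]⟩,⟨0,[(1,0),(11,0),(4,0),(4,0),(0,0)]⟩⟩,⟨true,0,⟨1,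
  [(0,0),(10,0)]⟩,⟨0,[(14,0),(3,0)]⟩⟩,⟨true,0,⟨0,[]⟩,⟨0,[(29,0)]⟩⟩,⟨false,0,⟨0,[(1,0)]⟩,⟨15,[(2,7),
  (4,15),(6,11),(0,0),(0,0),(2,1),(7,3)]⟩⟩,⟨false,0,⟨0,[]⟩,⟨0,[]⟩⟩,⟨false,0,⟨0,[]⟩,⟨0,[]⟩⟩,[.o
  ⟨false,0,⟨0,[(1,0),(11,0)]⟩,⟨1,[(7,1),(11,0),(7,0)]⟩⟩,.e ⟨false,1,⟨3,[(2,1),(23,0),(0,0)]⟩,⟨6,[(7,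
  0),(0,0),(3,2),(1,3),(7,0)]⟩⟩ ⟨false,1,⟨7,[(0,1),(0,3),(0,3),(9,1),(3,1),(9,0),(0,0)]⟩,⟨0,[(6,0),
  (6,0),(4,0)]⟩⟩,.a ⟨true,0,⟨0,[(28,0)]⟩,⟨0,[(11,0)]⟩⟩ ⟨false,1,⟨5,[(2,1),(12,0),(0,0),(8,1),(1,
  1)]⟩,⟨1,[(10,0),(3,0)]⟩⟩ ⟨true,0,⟨0,[(1,0),(7,0),(15,0)]⟩,⟨0,[(6,0),(6,0),(4,0)]⟩⟩,.o ⟨false,0,⟨0,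
  [(14,0)]⟩,⟨0,[(26,0)]⟩⟩]⟩))))) (.I [1,0,0,0,0,0,1] (.K ⟨0,[0,0,1],0,0,(⟨0,[(15,0)]⟩,⟨1,[(14,0),(2,
  0),(0,0)]⟩),.k,(.x 0 ⟨1,[(1,0),(9,0)]⟩ ⟨3,[(12,0),(0,0),(4,3),(4,1)]⟩),(.r 0 ⟨0,[(0,0),(19,0),(0,
  0)]⟩ ⟨1,[(12,0),(9,1),(0,0)]⟩),.k,.k,[⟨0,[(15,0),(9,0)]⟩,⟨1,[(11,0),(2,0)]⟩,⟨0,[(4,0)]⟩,⟨1,[(0,0),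
  (1,0),(3,0),(3,0),(3,0)]⟩]⟩) (.Q [0,1,0,0,0,0,1,0,-1] (.p false [0,0,1] [] (⟨0,[(15,0)]⟩,⟨1,[(14,
  0),(2,0),(0,0)]⟩) .k 0 (⟨0,[]⟩,⟨0,[]⟩) .k .k) (.K ⟨0,[0,0,1],0,0,(⟨0,[(16,0)]⟩,⟨1,[(15,0),(2,0),
  (0,0)]⟩),.k,(.r (-1) ⟨1,[(14,0),(8,1),(0,0)]⟩ ⟨0,[(1,0),(19,0),(0,0)]⟩),(.x (-1) ⟨3,[(13,0),(0,0),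
  (4,3),(4,1)]⟩ ⟨1,[(2,0),(9,0)]⟩),.k,.k,[⟨0,[(16,0),(9,0)]⟩,⟨1,[(12,0),(2,0)]⟩,⟨0,[(5,0)]⟩,⟨0,[(0,
  0)]⟩]⟩) (.K ⟨0,[1,0,-1],0,0,(⟨1,[(15,0),(2,0),(0,0)]⟩,⟨0,[(16,0)]⟩),.k,(.x 0 ⟨1,[(2,0),(9,0)]⟩ ⟨3,
  [(13,0),(0,0),(4,3),(4,1)]⟩),(.r 0 ⟨0,[(1,0),(19,0),(0,0)]⟩ ⟨1,[(14,0),(8,1),(0,0)]⟩),.k,.k,[⟨1,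
  [(15,0),(2,0),(0,0),(6,1)]⟩,⟨0,[(0,0),(2,0),(7,0)]⟩,⟨0,[(6,0),(16,0)]⟩,⟨0,[(0,0),(10,0),(10,
  0)]⟩]⟩))))

def t3 : Tre :=
  (.Q [0,0,1,0,0,0,0,-1] (.pp true [-1,1]) (.Q [0,0,0,-2,0,0,0,-1] (.pp true [-1,1]) (.Q [0,0,0,1,0,
  0,0,1] (.pp false [-1,1]) (.R ⟨2,false,false,false,[0,1],[1,-1],[],(⟨0,[]⟩,⟨0,[]⟩),(⟨0,[(11,0)]⟩,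
  ⟨0,[(12,0)]⟩),⟨0,[]⟩,.k,.k,.k,(.r 0 ⟨0,[(2,0),(0,0),(10,0)]⟩ ⟨0,[(16,1),(0,0)]⟩),.k,.k,⟨true,0,⟨1,
  [(2,0),(0,0),(10,0)]⟩,⟨0,[(16,0)]⟩⟩,⟨false,0,⟨0,[(2,0)]⟩,⟨0,[(0,0),(15,0),(0,0)]⟩⟩,⟨false,1,⟨1,
  [(16,1),(0,0),(0,0)]⟩,⟨1,[(2,0),(0,0),(10,0)]⟩⟩,⟨true,0,⟨0,[(1,0)]⟩,⟨0,[(3,0)]⟩⟩,⟨false,1,⟨1,[(17,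
  0),(0,0)]⟩,⟨0,[(19,0)]⟩⟩,⟨false,1,⟨7,[(1,3),(4,0),(0,0),(2,1),(7,3)]⟩,⟨0,[(0,0)]⟩⟩,[.a ⟨true,0,⟨0,
  [(16,0)]⟩,⟨0,[(0,0)]⟩⟩ ⟨false,1,⟨3,[(6,0),(0,0),(9,1)]⟩,⟨0,[]⟩⟩ ⟨true,0,⟨1,[(1,0),(3,0)]⟩,⟨0,[(0,
  0)]⟩⟩,.o ⟨false,1,⟨7,[(1,3),(4,0),(0,0),(2,1),(7,3)]⟩,⟨0,[(15,0)]⟩⟩,.o ⟨false,1,⟨3,[(6,0),(0,0),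
  (9,1)]⟩,⟨0,[(2,0)]⟩⟩,.e ⟨false,1,⟨1,[(17,0),(0,0)]⟩,⟨0,[(19,0)]⟩⟩ ⟨false,1,⟨7,[(1,3),(4,0),(0,0),
  (2,1),(7,3)]⟩,⟨0,[(0,0)]⟩⟩]⟩) t0) (.Q [0,0,0,0,0,-2,0,1] (.pp false [-1,1]) t1 (.Q [0,0,-3,0,1,0,
  0,1] (.pp false [-1,1]) (.R ⟨0,false,false,false,[1,-1],[0,1],[1,0,1,1],(⟨0,[(12,0)]⟩,⟨0,[(13,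
  0)]⟩),(⟨0,[(13,0)]⟩,⟨0,[(12,0)]⟩),⟨0,[(1,0)]⟩,.k,.k,(.r (-1) ⟨2,[(0,1),(10,0),(5,5)]⟩ ⟨0,[(2,0),
  (3,0)]⟩),(.r (-1) ⟨2,[(0,1),(10,0),(5,5)]⟩ ⟨0,[(2,0),(3,0)]⟩),.k,.k,⟨true,0,⟨0,[]⟩,⟨0,[(20,0)]⟩⟩,
  ⟨false,1,⟨0,[(0,0)]⟩,⟨0,[(6,0)]⟩⟩,⟨false,0,⟨0,[(2,0),(0,0),(11,0)]⟩,⟨2,[(0,1),(10,0),(5,5)]⟩⟩,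
  ⟨true,0,⟨0,[(2,0)]⟩,⟨0,[(5,0),(11,0)]⟩⟩,⟨false,0,⟨0,[]⟩,⟨0,[]⟩⟩,⟨false,0,⟨0,[]⟩,⟨0,[]⟩⟩,[.a ⟨true,
  0,⟨1,[(2,0),(9,0),(0,0)]⟩,⟨0,[(17,0)]⟩⟩ ⟨true,0,⟨1,[(2,0),(3,0)]⟩,⟨0,[(17,0)]⟩⟩ ⟨false,1,⟨11,[(0,
  7),(3,5),(6,0),(7,2)]⟩,⟨0,[(5,0),(9,0)]⟩⟩,.o ⟨false,1,⟨3,[(4,1),(6,0),(7,2)]⟩,⟨0,[(5,0)]⟩⟩,.o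
  ⟨false,0,⟨0,[(3,0)]⟩,⟨11,[(0,3),(6,2),(0,2),(2,1)]⟩⟩,.o ⟨false,0,⟨0,[(6,0)]⟩,⟨0,[(18,0)]⟩⟩]⟩) (.R
  ⟨0,false,false,false,[1,-1],[0,1],[0,0,1,1],(⟨0,[(12,0)]⟩,⟨0,[(13,0)]⟩),(⟨0,[(13,0)]⟩,⟨0,[(12,
  0)]⟩),⟨0,[(1,0)]⟩,.k,.k,(.r (-1) ⟨0,[(17,1),(0,0)]⟩ ⟨0,[(2,0),(3,0)]⟩),(.r (-1) ⟨0,[(17,1),(0,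
  0)]⟩ ⟨0,[(2,0),(3,0)]⟩),.k,.k,⟨false,1,⟨3,[(7,0),(0,0),(9,1)]⟩,⟨0,[]⟩⟩,⟨true,1,⟨0,[(12,0),(0,0),
  (4,0)]⟩,⟨0,[(0,0)]⟩⟩,⟨false,0,⟨5,[(0,3),(1,5),(8,0),(7,2)]⟩,⟨0,[(17,1),(0,0)]⟩⟩,⟨true,0,⟨0,[(2,
  0)]⟩,⟨0,[(5,0),(11,0)]⟩⟩,⟨false,0,⟨0,[]⟩,⟨0,[]⟩⟩,⟨false,0,⟨0,[]⟩,⟨0,[]⟩⟩,[.a ⟨true,0,⟨1,[(2,0),(9,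
  0),(0,0)]⟩,⟨0,[(17,0)]⟩⟩ ⟨true,0,⟨1,[(2,0),(3,0)]⟩,⟨0,[(17,0)]⟩⟩ ⟨false,1,⟨1,[(2,0),(9,0),(0,0),
  (4,1)]⟩,⟨2,[(0,0),(10,0),(5,2)]⟩⟩,.o ⟨false,1,⟨3,[(4,1),(6,0),(7,2)]⟩,⟨0,[(5,0)]⟩⟩,.o ⟨false,0,⟨0,
  [(3,0)]⟩,⟨3,[(7,0),(0,0),(9,1)]⟩⟩,.o ⟨false,0,⟨0,[(6,0)]⟩,⟨0,[(18,0)]⟩⟩]⟩)))) (.Q [0,0,0,-2,0,0,0,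
  -1] (.pp true [-1,1]) (.R ⟨2,true,false,false,[0,1],[1,-1],[1,1,1,1],(⟨0,[]⟩,⟨0,[]⟩),(⟨0,[(10,
  0)]⟩,⟨0,[(11,0)]⟩),⟨0,[]⟩,.k,.k,.k,(.r 0 ⟨0,[(13,1),(0,1)]⟩ ⟨0,[(15,1),(0,0)]⟩),.k,.k,⟨false,0,⟨0,
  [(13,0),(0,1)]⟩,⟨1,[(0,1),(0,1),(14,0),(0,0)]⟩⟩,⟨true,0,⟨0,[(4,0)]⟩,⟨0,[(1,0)]⟩⟩,⟨false,0,⟨0,[]⟩,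
  ⟨3,[(5,0),(0,0),(10,1)]⟩⟩,⟨true,0,⟨0,[(0,0)]⟩,⟨0,[(2,0)]⟩⟩,⟨true,0,⟨0,[(14,0)]⟩,⟨0,[(15,0)]⟩⟩,
  ⟨false,1,⟨7,[(0,3),(4,0),(0,0),(2,1),(7,3)]⟩,⟨1,[(1,0),(0,0),(10,0)]⟩⟩,[]⟩) (.I [1,1,-1] (.Q [0,
  -1,0,-1,0,0,-1,-1,1] (.p true [0,0,1] [1] (⟨0,[(9,0)]⟩,⟨1,[(8,0),(2,0),(0,0)]⟩) .k 1 (⟨0,[]⟩,⟨0,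
  []⟩) .k .k) (.Q [0,-1,0,0,1,0,1,0,-1] (.p false [0,0,1] [] (⟨0,[(10,0)]⟩,⟨1,[(9,0),(2,0),(0,0)]⟩)
  .k 0 (⟨0,[]⟩,⟨0,[]⟩) .k .k) (.R ⟨2,false,false,false,[0,1],[0,0,1],[0,0,1],(⟨0,[]⟩,⟨0,[]⟩),(⟨0,
  [(11,0)]⟩,⟨1,[(10,0),(2,0),(0,0)]⟩),⟨0,[]⟩,.k,.k,.k,(.r 0 ⟨1,[(1,1),(3,1),(1,0),(2,0)]⟩ ⟨1,[(9,0),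
  (8,1),(0,0)]⟩),.k,.k,⟨false,0,⟨1,[(1,1),(3,0),(4,0),(11,0)]⟩,⟨1,[(9,0),(9,0)]⟩⟩,⟨true,0,⟨1,[(7,0),
  (2,0)]⟩,⟨0,[(11,0)]⟩⟩,⟨true,0,⟨0,[(18,0)]⟩,⟨0,[(17,0)]⟩⟩,⟨false,1,⟨0,[(0,0),(17,0)]⟩,⟨0,[(1,0),(3,
  0)]⟩⟩,⟨false,1,⟨3,[(8,0),(0,0),(10,1)]⟩,⟨0,[]⟩⟩,⟨false,1,⟨0,[(0,0)]⟩,⟨0,[(1,0),(3,0),(12,0)]⟩⟩,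
  [.o ⟨false,1,⟨7,[(8,0),(0,4),(0,3),(1,1)]⟩,⟨0,[(1,0),(15,0)]⟩⟩,.o ⟨false,1,⟨0,[(0,0)]⟩,⟨2,[(1,2),
  (3,0),(1,0),(7,1),(1,0)]⟩⟩,.a ⟨true,0,⟨0,[(4,0)]⟩,⟨0,[(21,0)]⟩⟩ ⟨true,0,⟨0,[(21,0)]⟩,⟨0,[(2,0)]⟩⟩
  ⟨false,1,⟨1,[(7,0),(1,0),(0,0),(9,0)]⟩,⟨1,[(1,1),(0,0),(1,0),(0,0)]⟩⟩,.e ⟨false,1,⟨3,[(8,0),(0,0),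
  (10,1)]⟩,⟨0,[]⟩⟩ ⟨false,1,⟨0,[(0,0)]⟩,⟨0,[(1,0),(3,0),(12,0)]⟩⟩]⟩) (.K ⟨0,[0,0,1],0,1,(⟨0,[(11,
  0)]⟩,⟨1,[(10,0),(2,0),(0,0)]⟩),.k,(.r (-1) ⟨1,[(9,0),(8,1),(0,0)]⟩ ⟨13,[(0,3),(0,3),(1,8),(3,6),
  (0,2),(1,3),(1,0)]⟩),(.r (-1) ⟨7,[(5,3),(1,3),(0,0),(0,4),(10,1)]⟩ ⟨1,[(0,0),(0,0),(8,0),(7,0),(0,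
  0)]⟩),.k,.k,[⟨0,[(11,0),(9,0)]⟩,⟨1,[(7,0),(2,0)]⟩,⟨0,[(0,0)]⟩,⟨15,[(7,3),(0,2),(0,10),(0,7),(1,1),
  (2,7)]⟩]⟩)) (.Q [0,-1,0,0,0,0,1,0,-1] (.p false [0,0,1] [] (⟨0,[(10,0)]⟩,⟨1,[(9,0),(2,0),(0,0)]⟩)
  .k 0 (⟨0,[]⟩,⟨0,[]⟩) .k .k) (.R ⟨2,false,false,false,[0,1],[0,0,1],[0,0,1],(⟨0,[]⟩,⟨0,[]⟩),(⟨0,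
  [(11,0)]⟩,⟨1,[(10,0),(2,0),(0,0)]⟩),⟨0,[]⟩,.k,.k,.k,(.r (-1) ⟨7,[(5,3),(1,3),(0,4),(0,0),(10,1)]⟩
  ⟨0,[(0,0),(1,0),(8,0),(6,0)]⟩),.k,.k,⟨false,1,⟨3,[(8,2),(0,0)]⟩,⟨0,[(0,0),(1,0),(8,0)]⟩⟩,⟨true,0,
  ⟨1,[(7,0),(2,0)]⟩,⟨0,[(11,0)]⟩⟩,⟨true,0,⟨0,[(18,0)]⟩,⟨0,[(17,0)]⟩⟩,⟨false,0,⟨0,[(0,0),(17,0)]⟩,⟨3,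
  [(5,1),(2,1),(2,3),(0,0),(7,0)]⟩⟩,⟨false,1,⟨3,[(8,0),(0,0),(10,1)]⟩,⟨0,[]⟩⟩,⟨false,0,⟨0,[(0,0)]⟩,
  ⟨3,[(8,2),(0,0),(1,3)]⟩⟩,[.o ⟨false,0,⟨2,[(0,1),(0,0),(4,0)]⟩,⟨1,[(8,0),(2,1),(0,0)]⟩⟩,.o ⟨false,
  0,⟨0,[(0,0)]⟩,⟨15,[(7,3),(0,8),(0,0),(1,15),(0,5),(2,7)]⟩⟩,.a ⟨true,0,⟨0,[(4,0)]⟩,⟨0,[(21,0)]⟩⟩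
  ⟨true,0,⟨0,[(21,0)]⟩,⟨0,[(2,0)]⟩⟩ ⟨false,0,⟨3,[(0,2),(0,0),(5,0),(8,1),(1,0)]⟩,⟨1,[(8,0),(2,1),(7,
  0)]⟩⟩,.e ⟨false,1,⟨3,[(8,0),(0,0),(10,1)]⟩,⟨0,[]⟩⟩ ⟨false,0,⟨0,[(0,0)]⟩,⟨3,[(8,2),(0,0),(1,
  3)]⟩⟩]⟩) (.I [0,0,-1,-1,0,0,1] (.K ⟨0,[0,0,1],0,0,(⟨0,[(12,0)]⟩,⟨1,[(11,0),(2,0),(0,0)]⟩),.k,(.r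
  0 ⟨0,[(0,0)]⟩ ⟨7,[(6,3),(1,3),(0,4),(0,0),(10,1)]⟩),(.r 0 ⟨0,[(0,0),(3,0),(3,0)]⟩ ⟨1,[(9,0),(9,1),
  (0,0)]⟩),.k,.k,[⟨0,[(12,0),(9,0)]⟩,⟨1,[(8,0),(2,0)]⟩,⟨0,[(1,0)]⟩,⟨1,[(0,1),(7,0),(2,0),(6,1)]⟩]⟩)
  (.I [0,0,-1,-1,0,0,-1] (.Q [0,0,-1,0,0,0,0,1,-1] (.p false [0,0,1] [1] (⟨0,[(13,0)]⟩,⟨1,[(12,0),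
  (2,0),(0,0)]⟩) .k 1 (⟨0,[]⟩,⟨0,[]⟩) .k .k) (.Q [0,0,0,0,0,0,1,1,-1] (.p false [0,0,1] [1] (⟨0,
  [(14,0)]⟩,⟨1,[(13,0),(2,0),(0,0)]⟩) .k 1 (⟨0,[]⟩,⟨0,[]⟩) .k .k) (.Q [0,-1,0,0,0,0,-1,0,1] (.p
  true [0,0,1] [] (⟨0,[(15,0)]⟩,⟨3,[(0,0),(3,0),(3,0),(5,1),(5,0)]⟩) .k 0 (⟨0,[]⟩,⟨0,[]⟩) .k .k)
  (.R ⟨2,true,false,true,[0,1],[0,0,1],[0,1,1],(⟨0,[]⟩,⟨0,[]⟩),(⟨0,[(16,0)]⟩,⟨3,[(0,0),(0,1),(3,0),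
  (9,1)]⟩),⟨0,[]⟩,.k,.k,.k,(.r 0 ⟨0,[(3,0),(17,1),(0,1)]⟩ ⟨1,[(14,0),(8,1),(0,0)]⟩),.k,.k,⟨false,0,
  ⟨1,[(3,0),(0,0)]⟩,⟨1,[(14,0),(9,0)]⟩⟩,⟨true,0,⟨1,[(12,0),(2,0)]⟩,⟨0,[(16,0)]⟩⟩,⟨false,0,⟨0,[(23,
  0)]⟩,⟨3,[(10,1),(6,0),(7,2)]⟩⟩,⟨true,0,⟨0,[(1,0),(9,0)]⟩,⟨0,[(0,0),(21,0)]⟩⟩,⟨true,0,⟨0,[(27,0)]⟩,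
  ⟨0,[]⟩⟩,⟨false,1,⟨7,[(13,0),(0,4),(0,3),(1,1)]⟩,⟨0,[(0,0)]⟩⟩,[]⟩) (.K ⟨0,[0,0,1],0,0,(⟨0,[(16,
  0)]⟩,⟨3,[(1,0),(3,0),(3,0),(5,1),(5,0)]⟩),.k,(.r (-1) ⟨1,[(14,0),(8,1),(0,0)]⟩ ⟨0,[(3,0),(17,1),
  (0,1)]⟩),(.r (-1) ⟨7,[(10,3),(1,3),(0,0),(0,4),(10,1)]⟩ ⟨0,[(3,0)]⟩),.k,.k,[⟨0,[(16,0),(9,0)]⟩,⟨1,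
  [(12,0),(2,0)]⟩,⟨0,[(5,0)]⟩,⟨0,[(0,0)]⟩]⟩)) (.R ⟨2,false,false,false,[0,1],[0,0,1],[0,0,1],(⟨0,
  []⟩,⟨0,[]⟩),(⟨0,[(15,0)]⟩,⟨1,[(14,0),(2,0),(0,0)]⟩),⟨0,[]⟩,.k,.k,.k,(.r 0 ⟨0,[(0,0),(0,0),(18,0),
  (0,0),(3,0)]⟩ ⟨1,[(13,0),(8,1),(0,0)]⟩),.k,.k,⟨false,0,⟨1,[(2,0),(0,0)]⟩,⟨1,[(13,0),(9,0)]⟩⟩,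
  ⟨true,0,⟨1,[(11,0),(2,0)]⟩,⟨0,[(15,0)]⟩⟩,⟨true,0,⟨0,[(22,0)]⟩,⟨0,[(21,0)]⟩⟩,⟨false,1,⟨1,[(1,1),
  (11,0),(2,0),(3,1),(1,1)]⟩,⟨4,[(0,2),(1,0),(1,0),(2,2),(7,0),(4,0)]⟩⟩,⟨false,1,⟨3,[(12,0),(0,0),
  (10,1)]⟩,⟨0,[]⟩⟩,⟨false,1,⟨1,[(1,1),(11,0),(2,0),(3,1)]⟩,⟨4,[(0,0),(1,1),(1,1),(2,0),(7,1),(4,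
  1)]⟩⟩,[.o ⟨false,1,⟨7,[(12,0),(0,4),(0,3),(1,1)]⟩,⟨0,[(0,0)]⟩⟩,.o ⟨false,1,⟨1,[(1,1),(11,0),(2,0),
  (3,1)]⟩,⟨4,[(0,3),(3,0),(6,0),(7,1)]⟩⟩,.a ⟨true,0,⟨0,[(8,0)]⟩,⟨0,[(25,0)]⟩⟩ ⟨true,0,⟨0,[(25,0)]⟩,
  ⟨0,[(6,0)]⟩⟩ ⟨false,1,⟨1,[(11,0),(1,0),(0,0),(9,0)]⟩,⟨0,[(0,0),(7,0)]⟩⟩,.e ⟨false,1,⟨3,[(12,0),(0,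
  0),(10,1)]⟩,⟨0,[]⟩⟩ ⟨false,1,⟨1,[(1,1),(11,0),(2,0),(3,1)]⟩,⟨4,[(0,0),(1,1),(1,1),(2,0),(7,1),(4,
  1)]⟩⟩]⟩)) (.K ⟨0,[1,0,-1],0,0,(⟨1,[(13,0),(2,0),(0,0)]⟩,⟨0,[(14,0)]⟩),.k,(.r 0 ⟨0,[(1,0)]⟩ ⟨7,[(8,
  3),(1,3),(0,0),(0,4),(10,1)]⟩),(.r 0 ⟨0,[(1,0),(17,1),(0,1)]⟩ ⟨1,[(12,0),(8,1),(0,0)]⟩),.k,.k,[⟨1,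
  [(13,0),(2,0),(0,0),(6,1)]⟩,⟨0,[(0,0)]⟩,⟨0,[(4,0),(16,0)]⟩,⟨0,[(0,0),(0,0),(18,0)]⟩]⟩)) t2))))
  (.R ⟨2,false,false,false,[0,1],[1,-1],[0,0,1],(⟨0,[]⟩,⟨0,[]⟩),(⟨0,[(11,0)]⟩,⟨0,[(12,0)]⟩),⟨0,[]⟩,
  .k,.k,.k,(.r 0 ⟨0,[(1,0),(3,0)]⟩ ⟨0,[(16,1),(0,0)]⟩),.k,.k,⟨false,0,⟨1,[(1,0),(3,0)]⟩,⟨0,[(16,0),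
  (0,0)]⟩⟩,⟨true,0,⟨0,[(5,0)]⟩,⟨0,[(2,0)]⟩⟩,⟨true,0,⟨0,[(16,0)]⟩,⟨0,[(15,0)]⟩⟩,⟨false,1,⟨1,[(10,0),
  (5,3),(1,0)]⟩,⟨0,[(1,0)]⟩⟩,⟨false,1,⟨3,[(6,0),(0,0),(10,1)]⟩,⟨0,[]⟩⟩,⟨false,1,⟨1,[(10,0),(5,1),(1,
  0)]⟩,⟨1,[(0,0),(1,0),(0,0)]⟩⟩,[.e ⟨true,0,⟨0,[(19,0)]⟩,⟨0,[]⟩⟩ ⟨true,0,⟨0,[(0,0),(3,0)]⟩,⟨1,[(0,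
  0),(1,0),(0,0)]⟩⟩,.o ⟨false,1,⟨1,[(10,0),(5,1),(1,0)]⟩,⟨0,[(15,0)]⟩⟩,.a ⟨true,0,⟨0,[(2,0)]⟩,⟨0,
  [(19,0)]⟩⟩ ⟨false,0,⟨0,[(0,0)]⟩,⟨3,[(6,0),(0,0),(9,1)]⟩⟩ ⟨true,0,⟨0,[(0,0),(3,0)]⟩,⟨1,[(1,0),(0,
  0),(10,0)]⟩⟩,.e ⟨false,1,⟨3,[(6,0),(0,0),(10,1)]⟩,⟨0,[]⟩⟩ ⟨false,1,⟨1,[(10,0),(5,1),(1,0)]⟩,⟨1,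
  [(0,0),(1,0),(0,0)]⟩⟩]⟩))))

def t4 : Tre :=
  (.I [0,0,-1,-2] (.R ⟨2,true,false,false,[0,1],[1,-1],[1,0,1,1],(⟨0,[]⟩,⟨0,[]⟩),(⟨0,[(9,0)]⟩,⟨0,
  [(10,0)]⟩),⟨0,[]⟩,.k,.k,.k,(.r 0 ⟨0,[(12,1),(0,1)]⟩ ⟨3,[(0,3),(3,0),(0,0),(9,1)]⟩),.k,.k,⟨true,0,
  ⟨0,[(12,1),(0,1)]⟩,⟨0,[(0,0)]⟩⟩,⟨false,0,⟨0,[(1,0),(10,0),(0,1)]⟩,⟨0,[(9,0),(0,0),(4,0)]⟩⟩,⟨true,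
  0,⟨0,[]⟩,⟨0,[(18,0)]⟩⟩,⟨false,0,⟨0,[(1,0)]⟩,⟨0,[(9,0),(0,0),(2,1),(2,0)]⟩⟩,⟨false,1,⟨0,[(13,0),(2,
  0)]⟩,⟨0,[(14,0)]⟩⟩,⟨true,0,⟨0,[(1,0),(11,0)]⟩,⟨0,[(9,0),(0,0),(2,0)]⟩⟩,[]⟩) (.Q [0,-1,0,-1,0,0,-1,
  -1,1] (.p true [0,0,1] [1] (⟨0,[(7,0)]⟩,⟨1,[(6,0),(2,0),(0,0)]⟩) .k 1 (⟨0,[]⟩,⟨0,[]⟩) .k .k) (.Q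
  [0,-1,0,0,0,0,-1,-1,1] (.p true [0,0,1] [1] (⟨0,[(8,0)]⟩,⟨1,[(7,0),(2,0),(0,0)]⟩) .k 1 (⟨0,[]⟩,⟨0,
  []⟩) .k .k) (.Q [0,0,0,0,0,-1,0,1,-1] (.ed true [0,1,1] .k) (.I [1,-1,-1,0,0,0,-2] (.R ⟨1,false,
  false,false,[1,0,-1],[1,-1],[1,0,0,0,0,0,-1],(⟨1,[(10,0),(2,0),(0,0)]⟩,⟨0,[(11,0)]⟩),(⟨0,[(13,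
  0)]⟩,⟨0,[(14,0)]⟩),⟨0,[(1,0)]⟩,.k,.k,(.r 0 ⟨1,[(0,0),(4,0),(7,0),(0,0),(0,0)]⟩ ⟨3,[(4,1),(3,0),(0,
  2),(11,1)]⟩),(.r 0 ⟨3,[(0,1),(3,0),(12,1),(3,4)]⟩ ⟨1,[(9,0),(8,1),(0,0)]⟩),.k,.k,⟨false,0,⟨3,[(0,
  1),(3,0),(12,1),(3,0)]⟩,⟨1,[(9,0),(8,1),(0,0)]⟩⟩,⟨true,0,⟨1,[(7,0),(2,0)]⟩,⟨0,[(11,0)]⟩⟩,⟨true,0,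
  ⟨0,[]⟩,⟨0,[(22,0)]⟩⟩,⟨false,1,⟨7,[(5,3),(2,0),(0,4),(0,3),(9,1)]⟩,⟨3,[(0,1),(3,0),(6,3),(5,1),(3,
  0)]⟩⟩,⟨false,1,⟨7,[(4,3),(3,0),(0,0),(9,1),(0,3)]⟩,⟨0,[(18,0)]⟩⟩,⟨false,1,⟨3,[(4,1),(0,1),(3,1),
  (0,1),(8,0),(0,0)]⟩,⟨1,[(0,0),(10,1),(9,0),(0,0)]⟩⟩,[.o ⟨false,0,⟨0,[(5,0),(11,0)]⟩,⟨7,[(4,3),(3,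
  2),(0,2),(9,1)]⟩⟩,.o ⟨false,1,⟨3,[(5,1),(2,0),(0,0),(2,0),(7,0)]⟩,⟨0,[(17,0)]⟩⟩,.a ⟨true,0,⟨0,
  [(11,0)]⟩,⟨1,[(10,0),(2,0),(0,0)]⟩⟩ ⟨false,0,⟨1,[(0,0),(15,0)]⟩,⟨3,[(8,0),(0,2)]⟩⟩ ⟨true,0,⟨3,[(5,
  0),(0,0),(3,1),(7,0)]⟩,⟨0,[(11,0),(5,0)]⟩⟩,.o ⟨false,0,⟨4,[(4,2),(0,1),(0,1),(0,0),(3,4)]⟩,⟨7,[(8,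
  0),(0,0),(0,3),(1,1),(6,3)]⟩⟩]⟩) (.R ⟨2,true,false,true,[0,1],[0,0,1],[1,1,1,1],(⟨0,[]⟩,⟨0,[]⟩),
  (⟨0,[(11,0)]⟩,⟨1,[(10,0),(2,0),(0,0)]⟩),⟨0,[]⟩,.k,.k,.k,(.r 0 ⟨1,[(2,1),(7,0),(2,0),(0,0),(2,1),
  (3,1)]⟩ ⟨1,[(9,0),(8,1),(0,0)]⟩),.k,.k,⟨false,0,⟨1,[(2,1),(7,0),(2,0),(0,0),(2,1)]⟩,⟨1,[(9,0),(8,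
  1),(0,0)]⟩⟩,⟨true,0,⟨1,[(7,0),(2,0)]⟩,⟨0,[(11,0)]⟩⟩,⟨false,0,⟨0,[]⟩,⟨3,[(8,0),(0,0),(10,1)]⟩⟩,
  ⟨true,0,⟨1,[(0,0),(4,0),(4,0),(4,0)]⟩,⟨0,[(2,0),(10,0),(0,0),(2,0)]⟩⟩,⟨true,0,⟨0,[(17,0)]⟩,⟨0,
  [(18,0)]⟩⟩,⟨false,1,⟨7,[(8,0),(0,4),(0,3),(1,1)]⟩,⟨0,[(2,0),(10,0),(0,0)]⟩⟩,[]⟩)) (.I [0,1,2,2,-1,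
  0,-1] (.R ⟨0,false,false,true,[0,0,1],[0,1],[1,0,0,-1,0,0,1],(⟨0,[(11,0)]⟩,⟨1,[(10,0),(2,0),(0,
  0)]⟩),(⟨0,[(14,0)]⟩,⟨0,[(13,0)]⟩),⟨0,[(1,0),(8,0)]⟩,.k,.k,(.r (-1) ⟨1,[(9,0),(8,1),(0,0)]⟩ ⟨3,[(0,
  1),(7,0),(11,0)]⟩),(.r (-1) ⟨1,[(9,0),(8,1),(0,0)]⟩ ⟨3,[(0,1),(7,0),(11,0)]⟩),.k,.k,⟨true,1,⟨1,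
  [(5,1),(3,0),(3,1),(0,1),(4,0)]⟩,⟨0,[(0,0)]⟩⟩,⟨false,1,⟨0,[(11,0),(7,0)]⟩,⟨1,[(7,0),(2,0)]⟩⟩,
  ⟨true,0,⟨0,[(18,0)]⟩,⟨0,[(17,0)]⟩⟩,⟨false,0,⟨1,[(0,0),(1,0),(8,0),(1,0),(0,0),(4,0)]⟩,⟨7,[(5,3),
  (2,0),(0,4),(0,3),(9,1)]⟩⟩,⟨false,0,⟨0,[]⟩,⟨0,[]⟩⟩,⟨false,0,⟨0,[]⟩,⟨0,[]⟩⟩,[.o ⟨false,0,⟨0,[(17,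
  0)]⟩,⟨3,[(5,1),(2,0),(0,0),(2,0),(7,0)]⟩⟩,.o ⟨false,1,⟨7,[(4,3),(3,2),(0,2),(9,1)]⟩,⟨0,[(5,0),(11,
  0)]⟩⟩,.a ⟨true,0,⟨1,[(10,0),(2,0),(0,0)]⟩,⟨0,[(11,0)]⟩⟩ ⟨false,1,⟨1,[(9,0),(8,1),(1,0)]⟩,⟨3,[(0,
  1),(1,1),(7,0),(2,0),(0,0),(4,1)]⟩⟩ ⟨true,0,⟨0,[(11,0),(5,0)]⟩,⟨3,[(5,0),(0,0),(3,1),(7,0)]⟩⟩,.o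
  ⟨false,0,⟨1,[(7,0),(2,0)]⟩,⟨1,[(11,1),(0,0),(6,0)]⟩⟩]⟩) (.I [0,1,2,1,-1,0,-1] (.R ⟨0,false,false,
  true,[0,0,1],[0,1],[0,1,2,1],(⟨0,[(12,0)]⟩,⟨1,[(11,0),(2,0),(0,0)]⟩),(⟨0,[(15,0)]⟩,⟨0,[(14,0)]⟩),
  ⟨0,[(2,0),(8,0)]⟩,.k,.k,(.r (-1) ⟨19,[(1,7),(7,2),(0,8),(5,3),(2,3)]⟩ ⟨11,[(0,3),(2,1),(1,3),(3,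
  2),(1,0),(2,0),(0,0),(5,0)]⟩),(.r (-1) ⟨19,[(1,7),(7,2),(0,8),(5,3),(2,3)]⟩ ⟨11,[(0,3),(2,1),(1,
  3),(3,2),(1,0),(2,0),(0,0),(5,0)]⟩),.k,.k,⟨true,0,⟨0,[(22,0)]⟩,⟨0,[]⟩⟩,⟨false,1,⟨0,[(12,0),(7,
  0)]⟩,⟨1,[(8,0),(2,0)]⟩⟩,⟨true,(-1),⟨0,[(0,0)]⟩,⟨0,[(1,0),(16,0)]⟩⟩,⟨false,0,⟨0,[(3,0),(10,0),(0,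
  0),(2,0)]⟩,⟨3,[(1,1),(6,1),(1,0),(0,1),(9,0)]⟩⟩,⟨false,0,⟨0,[]⟩,⟨0,[]⟩⟩,⟨false,0,⟨0,[]⟩,⟨0,[]⟩⟩,
  [.o ⟨false,0,⟨0,[(18,0)]⟩,⟨11,[(1,3),(4,1),(1,3),(0,1),(3,2),(7,2)]⟩⟩,.o ⟨false,1,⟨7,[(5,3),(3,2),
  (0,2),(9,1)]⟩,⟨0,[(6,0),(11,0)]⟩⟩,.a ⟨true,0,⟨1,[(11,0),(2,0),(0,0)]⟩,⟨0,[(12,0)]⟩⟩ ⟨false,0,⟨1,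
  [(0,1),(9,0),(10,0)]⟩,⟨3,[(1,1),(1,1),(7,0),(2,0),(0,0),(4,1)]⟩⟩ ⟨true,0,⟨0,[(12,0),(5,0)]⟩,⟨3,
  [(6,0),(0,0),(3,1),(7,0)]⟩⟩,.o ⟨false,0,⟨1,[(8,0),(2,0)]⟩,⟨1,[(12,1),(0,0),(6,0)]⟩⟩]⟩) (.I [0,0,
  -1,-1,0,0,-1] (.R ⟨0,false,false,false,[0,0,1],[1,-1],[1,0,0,0,0,0,1],(⟨0,[(13,0)]⟩,⟨1,[(12,0),(2,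
  0),(0,0)]⟩),(⟨0,[(15,0)]⟩,⟨0,[(16,0)]⟩),⟨0,[(3,0),(8,0)]⟩,.k,.k,(.r (-1) ⟨19,[(2,7),(7,2),(0,8),
  (5,3),(2,3)]⟩ ⟨0,[(0,0),(5,0),(16,0)]⟩),(.r (-1) ⟨3,[(6,1),(3,0),(0,2),(11,1)]⟩ ⟨0,[(0,0)]⟩),.k,
  .k,⟨false,1,⟨7,[(6,3),(3,0),(0,4),(9,1)]⟩,⟨0,[(0,0)]⟩⟩,⟨true,0,⟨4,[(6,2),(0,1),(0,1),(0,0),(3,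
  4)]⟩,⟨1,[(12,0),(2,0),(0,0)]⟩⟩,⟨true,0,⟨0,[]⟩,⟨0,[(24,0)]⟩⟩,⟨false,0,⟨0,[(5,0)]⟩,⟨7,[(6,3),(3,0),
  (0,4),(0,3),(2,3),(0,3),(4,1)]⟩⟩,⟨false,0,⟨0,[]⟩,⟨0,[]⟩⟩,⟨false,0,⟨0,[]⟩,⟨0,[]⟩⟩,[.o ⟨false,0,⟨0,
  [(7,0),(11,0)]⟩,⟨7,[(6,3),(3,2),(0,2),(9,1)]⟩⟩,.o ⟨false,1,⟨11,[(2,3),(4,1),(1,3),(0,1),(3,2),(7,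
  2)]⟩,⟨0,[(19,0)]⟩⟩,.a ⟨true,0,⟨1,[(12,0),(2,0),(0,0)]⟩,⟨0,[(13,0)]⟩⟩ ⟨false,1,⟨1,[(11,0),(10,0)]⟩,
  ⟨1,[(0,1),(5,0),(16,0)]⟩⟩ ⟨true,0,⟨0,[(7,0),(5,0),(5,0)]⟩,⟨1,[(12,0),(2,0),(0,0),(2,1)]⟩⟩,.o
  ⟨false,0,⟨1,[(9,0),(2,0)]⟩,⟨1,[(13,1),(0,0),(6,0)]⟩⟩]⟩) (.R ⟨2,true,false,true,[0,1],[0,0,1],[0,1,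
  1],(⟨0,[]⟩,⟨0,[]⟩),(⟨0,[(13,0)]⟩,⟨1,[(12,0),(2,0),(0,0)]⟩),⟨0,[]⟩,.k,.k,.k,(.r 0 ⟨1,[(4,1),(7,0),
  (2,0),(0,0),(2,1),(3,1)]⟩ ⟨19,[(2,7),(7,2),(0,8),(5,3),(2,3)]⟩),.k,.k,⟨false,0,⟨1,[(4,1),(7,0),(2,
  0),(0,0),(7,1)]⟩,⟨1,[(11,0),(9,0)]⟩⟩,⟨true,0,⟨1,[(9,0),(2,0)]⟩,⟨0,[(13,0)]⟩⟩,⟨false,0,⟨0,[(20,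
  0)]⟩,⟨7,[(6,3),(3,0),(0,0),(9,1),(0,3)]⟩⟩,⟨true,0,⟨1,[(0,1),(6,1),(4,0),(2,0),(0,0),(0,1)]⟩,⟨0,
  [(4,0),(10,0),(0,0),(2,0)]⟩⟩,⟨true,0,⟨0,[(24,0)]⟩,⟨0,[]⟩⟩,⟨false,1,⟨7,[(10,0),(0,4),(0,3),(1,1)]⟩,
  ⟨0,[(4,0),(10,0),(0,0)]⟩⟩,[]⟩))))) (.K ⟨0,[1,0,-1],0,0,(⟨1,[(8,0),(2,0),(0,0)]⟩,⟨0,[(9,0)]⟩),.k,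
  (.x 0 ⟨4,[(2,2),(0,1),(0,1),(0,0),(5,4)]⟩ ⟨3,[(6,0),(0,0),(4,3),(4,1)]⟩),(.r 0 ⟨1,[(1,1),(0,0),(5,
  0),(2,0),(0,0),(2,1),(3,0)]⟩ ⟨1,[(7,0),(8,1),(0,0)]⟩),.k,.k,[⟨1,[(8,0),(2,0),(0,0),(6,1)]⟩,⟨4,[(2,
  2),(0,1),(0,1),(0,0),(3,4)]⟩,⟨0,[(0,0)]⟩,⟨0,[(1,0),(13,0),(4,0)]⟩]⟩)) (.Q [0,1,0,0,0,0,-1,0,1]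
  (.p true [0,0,1] [] (⟨0,[(8,0)]⟩,⟨1,[(7,0),(2,0),(0,0)]⟩) .k 0 (⟨0,[]⟩,⟨0,[]⟩) .k .k) (.K ⟨0,[0,0,
  1],0,0,(⟨0,[(9,0)]⟩,⟨1,[(8,0),(2,0),(0,0)]⟩),.k,(.x 0 ⟨4,[(2,2),(0,1),(0,1),(0,0),(5,4)]⟩ ⟨3,[(6,
  0),(0,0),(4,3),(4,1)]⟩),(.r 0 ⟨0,[(1,0),(0,0),(0,0),(5,0)]⟩ ⟨1,[(6,0),(9,1),(0,0)]⟩),.k,.k,[⟨0,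
  [(9,0),(9,0)]⟩,⟨1,[(5,0),(2,0)]⟩,⟨0,[(0,0)]⟩,⟨0,[(1,0),(1,0),(11,0)]⟩]⟩) (.Q [0,1,0,-1,0,0,-1,-1,
  1] (.p true [0,0,1] [1] (⟨0,[(9,0)]⟩,⟨1,[(8,0),(2,0),(0,0)]⟩) .k 1 (⟨0,[]⟩,⟨0,[]⟩) .k .k) (.R ⟨2,
  true,false,true,[0,1],[1,0,-1],[1,1,1,1],(⟨0,[]⟩,⟨0,[]⟩),(⟨1,[(9,0),(2,0),(0,0)]⟩,⟨0,[(10,0)]⟩),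
  ⟨0,[]⟩,.k,.k,.k,(.r 0 ⟨4,[(1,2),(0,1),(0,0),(2,1),(3,4),(5,0)]⟩ ⟨1,[(7,0),(9,1),(0,0)]⟩),.k,.k,
  ⟨false,0,⟨0,[(1,0),(8,0),(5,0)]⟩,⟨1,[(7,0),(9,1),(0,0)]⟩⟩,⟨true,0,⟨4,[(3,2),(0,1),(0,1),(0,0),(3,
  4)]⟩,⟨1,[(9,0),(2,0),(0,0)]⟩⟩,⟨false,0,⟨0,[]⟩,⟨3,[(7,0),(0,0),(10,1)]⟩⟩,⟨true,0,⟨0,[(0,0)]⟩,⟨0,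
  [(1,0),(10,0),(0,0),(2,0)]⟩⟩,⟨true,0,⟨0,[(16,0)]⟩,⟨0,[(17,0)]⟩⟩,⟨false,1,⟨1,[(7,0),(2,1),(0,0)]⟩,
  ⟨0,[(1,0),(10,0),(0,0)]⟩⟩,[]⟩) (.Q [0,0,0,0,0,1,0,0,-1] (.ed true [1,-1,1] .k) (.R ⟨0,false,false,
  false,[0,0,1],[1,-1],[1,0,0,0,0,0,1],(⟨0,[(11,0)]⟩,⟨1,[(10,0),(2,0),(0,0)]⟩),(⟨0,[(13,0)]⟩,⟨0,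
  [(14,0)]⟩),⟨0,[(0,0)]⟩,.k,.k,(.r 0 ⟨0,[(1,0),(3,0),(5,0),(3,0)]⟩ ⟨3,[(4,1),(3,2),(0,0),(11,1)]⟩),
  (.r 0 ⟨4,[(2,2),(0,1),(0,0),(2,1),(3,4),(5,0)]⟩ ⟨1,[(8,0),(9,1),(0,0)]⟩),.k,.k,⟨false,0,⟨0,[(2,0),
  (8,0),(5,0)]⟩,⟨1,[(8,0),(9,1),(0,0)]⟩⟩,⟨true,0,⟨4,[(4,2),(0,1),(0,1),(0,0),(3,4)]⟩,⟨1,[(10,0),(2,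
  0),(0,0)]⟩⟩,⟨true,0,⟨0,[]⟩,⟨0,[(22,0)]⟩⟩,⟨false,1,⟨3,[(5,1),(2,1),(2,3),(0,0),(7,0)]⟩,⟨1,[(1,0),
  (1,0)]⟩⟩,⟨false,0,⟨0,[]⟩,⟨0,[]⟩⟩,⟨false,0,⟨0,[]⟩,⟨0,[]⟩⟩,[.o ⟨false,0,⟨0,[(5,0),(11,0)]⟩,⟨7,[(4,
  3),(3,2),(0,2),(9,1)]⟩⟩,.o ⟨false,1,⟨3,[(5,1),(2,0),(0,0),(2,0),(7,0)]⟩,⟨0,[(17,0)]⟩⟩,.a ⟨true,0,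
  ⟨1,[(10,0),(2,0),(0,0)]⟩,⟨0,[(11,0)]⟩⟩ ⟨false,0,⟨0,[(2,0),(8,0)]⟩,⟨3,[(8,2),(0,0)]⟩⟩ ⟨true,0,⟨0,
  [(5,0),(5,0),(5,0)]⟩,⟨1,[(10,0),(2,0),(0,0),(2,1)]⟩⟩,.o ⟨false,0,⟨1,[(7,0),(2,0)]⟩,⟨1,[(11,1),(0,
  0),(6,0)]⟩⟩]⟩) (.R ⟨1,false,false,false,[0,0,1],[1,-1],[1,0,0,0,0,0,1],(⟨0,[(11,0)]⟩,⟨1,[(10,0),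
  (2,0),(0,0)]⟩),(⟨0,[(13,0)]⟩,⟨0,[(14,0)]⟩),⟨0,[(0,0)]⟩,.k,.k,(.r 0 ⟨0,[(1,0),(3,0),(5,0),(3,0)]⟩
  ⟨3,[(4,1),(3,2),(0,0),(11,1)]⟩),(.r 0 ⟨4,[(2,2),(0,1),(0,0),(2,1),(3,4),(5,0)]⟩ ⟨1,[(8,0),(9,1),
  (0,0)]⟩),.k,.k,⟨false,0,⟨0,[(2,0),(8,0),(5,0)]⟩,⟨1,[(8,0),(9,1),(0,0)]⟩⟩,⟨true,0,⟨4,[(4,2),(0,1),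
  (0,1),(0,0),(3,4)]⟩,⟨1,[(10,0),(2,0),(0,0)]⟩⟩,⟨true,0,⟨0,[]⟩,⟨0,[(22,0)]⟩⟩,⟨false,1,⟨3,[(5,1),(2,
  1),(2,3),(0,0),(7,0)]⟩,⟨1,[(1,0),(1,0)]⟩⟩,⟨false,1,⟨7,[(4,3),(3,0),(0,0),(9,1),(0,3)]⟩,⟨0,[(18,
  0)]⟩⟩,⟨false,1,⟨1,[(4,1),(0,1),(2,0),(2,1),(7,0)]⟩,⟨1,[(1,0),(1,0),(14,1)]⟩⟩,[.o ⟨false,0,⟨0,[(5,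
  0),(11,0)]⟩,⟨7,[(4,3),(3,2),(0,2),(9,1)]⟩⟩,.o ⟨false,1,⟨3,[(5,1),(2,0),(0,0),(2,0),(7,0)]⟩,⟨0,
  [(17,0)]⟩⟩,.a ⟨true,0,⟨1,[(10,0),(2,0),(0,0)]⟩,⟨0,[(11,0)]⟩⟩ ⟨false,0,⟨0,[(2,0),(8,0)]⟩,⟨3,[(8,2),
  (0,0)]⟩⟩ ⟨true,0,⟨0,[(5,0),(5,0),(5,0)]⟩,⟨1,[(10,0),(2,0),(0,0),(2,1)]⟩⟩,.o ⟨false,0,⟨1,[(7,0),(2,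
  0)]⟩,⟨1,[(11,1),(0,0),(6,0)]⟩⟩]⟩))))))

def tree : Tre :=
  (.Q [0,1,0,2,0,0,0,1] (.pp false [-1,1]) t3 t4)

theorem ok : chk (cPU (-1) false) tree base = true := by
  decide +kernel

theorem closed {p a b c J l q : ℤ} {D dl : ℝ} {Cl : ℤ → ℤ → ℤ → ℤ → ℝ → Prop}
    (W : World p a b c J (-1) l q D dl Cl) (hE : KEmp p a b (-1) (P1 l p) Cl)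
    (g : G0 p a b c J D)
    {N R : ℤ} {I : ℝ} (hu : VFac p D Cl N R I)
    (s0 : (c : ℝ) + 1 ≤ 0)
    (s1 : (a : ℝ) ≤ b)
    (s2 : (b : ℝ) + 1 ≤ 2 * a)
    (s3 : D < 2 * b)
    (s4 : -(a : ℝ) < -D - c) : False := by
  have g1 := g.a2
  have g2 := g.b2
  have g3 := g.pa
  have g4 := g.pb
  have g5 := g.J1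
  have g6 := g.JD
  have g7 := g.D2
  have g8 := g.ca
  have g9 := g.ca'
  have t1 := TF.ofV hu
  have i1 := t1.I0
  have i2 := hu.ID
  have i3 := t1.R1
  have i4 := t1.R2
  refine (val_PU W.toBase (UV.ofV hu)).sound W rfl (Nk := 0) (fun kf hkf hh => ?_) (kok_B hE (by simp [xv]) (by simp [xv]) 0) ?_ ok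
  · simp only [cPU, kfB, List.mem_cons, List.not_mem_nil, or_false] at hkf
    subst hkf
    exact absurd hh (by norm_num)
  · simp only [base, List.forall_mem_cons, List.not_mem_nil, false_imp_iff, implies_true,
      and_true, hld, xv, evg_cons, evg_nil, List.map_cons, List.map_nil, List.cons_append,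
      List.nil_append, if_true, if_false, Bool.false_eq_true]
    push_cast
    refine ⟨?_, ?_, ?_, ?_, ?_, ?_, ?_, ?_, ?_, ?_, ?_, ?_, ?_, ?_, ?_, ?_, ?_⟩ <;> linarith

end Helper25.KG.Pm1_35_m1_0_v
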