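import Pool.Agent.Helper25.KW.Top2
import Pool.Agent.Helper25.KG.P1_1_1_0_u
import Pool.Agent.Helper25.KG.P1_1_1_0_v
import Pool.Agent.Helper25.KG.P1_1_1_0_v2
import Pool.Agent.Helper25.KG.P1_1_1_1_u
import Pool.Agent.Helper25.KG.P1_1_1_1_v
import Pool.Agent.Helper25.KG.P1_1_1_1_v2
import Pool.Agent.Helper25.KG.P1_1_m1_0_u
import Pool.Agent.Helper25.KG.P1_1_m1_0_v
import Pool.Agent.Helper25.KG.P1_1_m1_0_v2
import Pool.Agent.Helper25.KG.P1_1_m1_1_u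
import Pool.Agent.Helper25.KG.P1_1_m1_1_v
import Pool.Agent.Helper25.KG.P1_1_m1_1_v2
import Pool.Agent.Helper25.KG.P1_2_1_0_u
import Pool.Agent.Helper25.KG.P1_2_1_0_v
import Pool.Agent.Helper25.KG.P1_2_1_0_v2
import Pool.Agent.Helper25.KG.P1_2_1_1_u
import Pool.Agent.Helper25.KG.P1_2_1_1_v
import Pool.Agent.Helper25.KG.P1_2_1_1_v2
import Pool.Agent.Helper25.KG.P1_2_m1_0_u
import Pool.Agent.Helper25.KG.P1_2_m1_0_v
import Pool.Agent.Helper25.KG.P1_2_m1_0_v2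
import Pool.Agent.Helper25.KG.P1_2_m1_1_u
import Pool.Agent.Helper25.KG.P1_2_m1_1_v
import Pool.Agent.Helper25.KG.P1_2_m1_1_v2_hab
import Pool.Agent.Helper25.KG.P1_35_1_0_u
import Pool.Agent.Helper25.KG.P1_35_1_0_v
import Pool.Agent.Helper25.KG.P1_35_1_0_v2
import Pool.Agent.Helper25.KG.P1_35_1_1_u
import Pool.Agent.Helper25.KG.P1_35_1_1_v
import Pool.Agent.Helper25.KG.P1_35_1_1_v2
import Pool.Agent.Helper25.KG.P1_35_m1_0_u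
import Pool.Agent.Helper25.KG.P1_35_m1_0_v
import Pool.Agent.Helper25.KG.P1_35_m1_0_v2
import Pool.Agent.Helper25.KG.P1_35_m1_1_u
import Pool.Agent.Helper25.KG.P1_35_m1_1_v
import Pool.Agent.Helper25.KG.P1_35_m1_1_v2
import Pool.Agent.Helper25.KG.Pm1_1_1_0_u
import Pool.Agent.Helper25.KG.Pm1_1_1_0_v
import Pool.Agent.Helper25.KG.Pm1_1_1_0_v2
import Pool.Agent.Helper25.KG.Pm1_1_1_1_u
import Pool.Agent.Helper25.KG.Pm1_1_1_1_v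
import Pool.Agent.Helper25.KG.Pm1_1_1_1_v2
import Pool.Agent.Helper25.KG.Pm1_1_m1_0_u
import Pool.Agent.Helper25.KG.Pm1_1_m1_0_v
import Pool.Agent.Helper25.KG.Pm1_1_m1_0_v2
import Pool.Agent.Helper25.KG.Pm1_1_m1_1_u
import Pool.Agent.Helper25.KG.Pm1_1_m1_1_v
import Pool.Agent.Helper25.KG.Pm1_1_m1_1_v2
import Pool.Agent.Helper25.KG.Pm1_2_1_0_u
import Pool.Agent.Helper25.KG.Pm1_2_1_0_v
import Pool.Agent.Helper25.KG.Pm1_2_1_0_v2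
import Pool.Agent.Helper25.KG.Pm1_2_1_1_u
import Pool.Agent.Helper25.KG.Pm1_2_1_1_v
import Pool.Agent.Helper25.KG.Pm1_2_1_1_v2
import Pool.Agent.Helper25.KG.Pm1_2_m1_0_u
import Pool.Agent.Helper25.KG.Pm1_2_m1_0_v
import Pool.Agent.Helper25.KG.Pm1_2_m1_0_v2
import Pool.Agent.Helper25.KG.Pm1_2_m1_1_u
import Pool.Agent.Helper25.KG.Pm1_2_m1_1_v
import Pool.Agent.Helper25.KG.Pm1_2_m1_1_v2
import Pool.Agent.Helper25.KG.Pm1_35_1_0_u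
import Pool.Agent.Helper25.KG.Pm1_35_1_0_v
import Pool.Agent.Helper25.KG.Pm1_35_1_0_v2
import Pool.Agent.Helper25.KG.Pm1_35_1_1_u
import Pool.Agent.Helper25.KG.Pm1_35_1_1_v
import Pool.Agent.Helper25.KG.Pm1_35_1_1_v2
import Pool.Agent.Helper25.KG.Pm1_35_m1_0_u_w
import Pool.Agent.Helper25.KG.Pm1_35_m1_0_u_y
import Pool.Agent.Helper25.KG.Pm1_35_m1_0_u_y2
import Pool.Agent.Helper25.KG.Pm1_35_m1_0_v
import Pool.Agent.Helper25.KG.Pm1_35_m1_0_v2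
import Pool.Agent.Helper25.KG.Pm1_35_m1_1_u
import Pool.Agent.Helper25.KG.Pm1_35_m1_1_v
import Pool.Agent.Helper25.KG.Pm1_35_m1_1_v2

set_option autoImplicit false
set_option linter.unusedVariables false

/-!
# `PL` for `p + l ≤ q`
-/

namespace Helper25.KG

open Helper25.KW Helper55.KE Helper11.CT

theorem pl_m1_m1_0 {p a b c J l q : ℤ} {D dl : ℝ} {Cl : ℤ → ℤ → ℤ → ℤ → ℝ → Prop}
    (W : World p a b c J (-1) l q D dl Cl) (hc : -a < c) (hb : b < 2 * a)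
    (hE : KEmp p a b (-1) (P1 l p) Cl) (hA : Aux p a b (-1) D Cl) (hcs : c < 0)
    (d1 : D < 2 * b) (e1 : -(a : ℝ) < -D - c) : False := by
  have g := G0.of W.toBase hc
  have r1 : (c : ℝ) + 1 ≤ 0 := by exact_mod_cast (by omega : c + 1 ≤ 0)
  rcases le_or_gt (b - c + 1) a with k1 | k1
  · have r2 : (b : ℝ) - c + 1 ≤ a := by exact_mod_cast k1
    rcases hA.uvw with ⟨N, R, I, hu⟩ | ⟨N, R, I, hu⟩ | ⟨⟨N, R, I, hu⟩, hB⟩
    · exact Pm1_1_m1_0_u.closed W hE g hu r1 r2 d1 e1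
    · exact Pm1_1_m1_0_v.closed W hE g hu r1 r2 d1 e1
    · exact Pm1_1_m1_0_v2.closed W hE g hu r1 r2 d1 e1
  · rcases le_or_gt (b + 1) a with k2 | k2
    · have r2 : (b : ℝ) + 1 ≤ a := by exact_mod_cast k2
      have r3 : (a : ℝ) ≤ b - c := by exact_mod_cast (by omega : a ≤ b - c)
      rcases hA.uvw with ⟨N, R, I, hu⟩ | ⟨N, R, I, hu⟩ | ⟨⟨N, R, I, hu⟩, hB⟩
      · exact Pm1_2_m1_0_u.closed W hE g hu r1 r2 r3 d1 e1
      · exact Pm1_2_m1_0_v.closed W hE g hu r1 r2 r3 d1 e1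
      · exact Pm1_2_m1_0_v2.closed W hE g hu r1 r2 r3 d1 e1
    · have r2 : (a : ℝ) ≤ b := by exact_mod_cast (by omega : a ≤ b)
      have r3 : (b : ℝ) + 1 ≤ 2 * a := by exact_mod_cast (by omega : b + 1 ≤ 2 * a)
      rcases hA.uvw with ⟨N, R, I, hu⟩ | ⟨N, R, I, hu⟩ | ⟨⟨N, R, I, hu⟩, hB⟩
      · rcases hA.syz with ⟨N2, R2, I2, hw⟩ | ⟨N2, R2, I2, hw⟩ | ⟨N2, R2, I2, hw⟩
        · exact Pm1_35_m1_0_u_w.closed W hE g hu hw r1 r2 r3 d1 e1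
        · exact Pm1_35_m1_0_u_y.closed W hE g hu hw r1 r2 r3 d1 e1
        · exact Pm1_35_m1_0_u_y2.closed W hE g hu hw r1 r2 r3 d1 e1
      · exact Pm1_35_m1_0_v.closed W hE g hu r1 r2 r3 d1 e1
      · exact Pm1_35_m1_0_v2.closed W hE g hu r1 r2 r3 d1 e1

theorem pl_1_m1_0 {p a b c J l q : ℤ} {D dl : ℝ} {Cl : ℤ → ℤ → ℤ → ℤ → ℝ → Prop}
    (W : World p a b c J (-1) l q D dl Cl) (hc : -a < c) (hb : b < 2 * a)
    (hE : KEmp p a b (-1) (P1 l p) Cl) (hA : Aux p a b (-1) D Cl) (hcs : 0 < c)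
    (d1 : D < 2 * b) (e1 : -(a : ℝ) < -D - c) : False := by
  have g := G0.of W.toBase hc
  have r1 : (1 : ℝ) ≤ c := by exact_mod_cast (by omega : 1 ≤ c)
  rcases le_or_gt (b + c + 1) a with k1 | k1
  · have r2 : (b : ℝ) + c + 1 ≤ a := by exact_mod_cast k1
    rcases hA.uvw with ⟨N, R, I, hu⟩ | ⟨N, R, I, hu⟩ | ⟨⟨N, R, I, hu⟩, hB⟩
    · exact P1_1_m1_0_u.closed W hE g hu r1 r2 d1 e1
    · exact P1_1_m1_0_v.closed W hE g hu r1 r2 d1 e1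
    · exact P1_1_m1_0_v2.closed W hE g hu r1 r2 d1 e1
  · rcases le_or_gt (b + 1) a with k2 | k2
    · have r2 : (b : ℝ) + 1 ≤ a := by exact_mod_cast k2
      have r3 : (a : ℝ) ≤ b + c := by exact_mod_cast (by omega : a ≤ b + c)
      rcases hA.uvw with ⟨N, R, I, hu⟩ | ⟨N, R, I, hu⟩ | ⟨⟨N, R, I, hu⟩, hB⟩
      · exact P1_2_m1_0_u.closed W hE g hu r1 r2 r3 d1 e1
      · exact P1_2_m1_0_v.closed W hE g hu r1 r2 r3 d1 e1
      · exact P1_2_m1_0_v2.closed W hE g hu r1 r2 r3 d1 e1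
    · have r2 : (a : ℝ) ≤ b := by exact_mod_cast (by omega : a ≤ b)
      have r3 : (b : ℝ) + 1 ≤ 2 * a := by exact_mod_cast (by omega : b + 1 ≤ 2 * a)
      rcases hA.uvw with ⟨N, R, I, hu⟩ | ⟨N, R, I, hu⟩ | ⟨⟨N, R, I, hu⟩, hB⟩
      · exact P1_35_m1_0_u.closed W hE g hu r1 r2 r3 d1 e1
      · exact P1_35_m1_0_v.closed W hE g hu r1 r2 r3 d1 e1
      · exact P1_35_m1_0_v2.closed W hE g hu r1 r2 r3 d1 e1

theorem pl_m1_m1_1 {p a b c J l q : ℤ} {D dl : ℝ} {Cl : ℤ → ℤ → ℤ → ℤ → ℝ → Prop}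
    (W : World p a b c J (-1) l q D dl Cl) (hc : -a < c) (hb : b < 2 * a)
    (hE : KEmp p a b (-1) (P1 l p) Cl) (hA : Aux p a b (-1) D Cl) (hcs : c < 0)
    (d1 : D < 2 * b) (e1 : p - D - c < a) : False := by
  have g := G0.of W.toBase hc
  have r1 : (c : ℝ) + 1 ≤ 0 := by exact_mod_cast (by omega : c + 1 ≤ 0)
  rcases le_or_gt (b - c + 1) a with k1 | k1
  · have r2 : (b : ℝ) - c + 1 ≤ a := by exact_mod_cast k1
    rcases hA.uvw with ⟨N, R, I, hu⟩ | ⟨N, R, I, hu⟩ | ⟨⟨N, R, I, hu⟩, hB⟩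
    · exact Pm1_1_m1_1_u.closed W hE g hu r1 r2 d1 e1
    · exact Pm1_1_m1_1_v.closed W hE g hu r1 r2 d1 e1
    · exact Pm1_1_m1_1_v2.closed W hE g hu r1 r2 d1 e1
  · rcases le_or_gt (b + 1) a with k2 | k2
    · have r2 : (b : ℝ) + 1 ≤ a := by exact_mod_cast k2
      have r3 : (a : ℝ) ≤ b - c := by exact_mod_cast (by omega : a ≤ b - c)
      rcases hA.uvw with ⟨N, R, I, hu⟩ | ⟨N, R, I, hu⟩ | ⟨⟨N, R, I, hu⟩, hB⟩
      · exact Pm1_2_m1_1_u.closed W hE g hu r1 r2 r3 d1 e1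
      · exact Pm1_2_m1_1_v.closed W hE g hu r1 r2 r3 d1 e1
      · exact Pm1_2_m1_1_v2.closed W hE g hu r1 r2 r3 d1 e1
    · have r2 : (a : ℝ) ≤ b := by exact_mod_cast (by omega : a ≤ b)
      have r3 : (b : ℝ) + 1 ≤ 2 * a := by exact_mod_cast (by omega : b + 1 ≤ 2 * a)
      rcases hA.uvw with ⟨N, R, I, hu⟩ | ⟨N, R, I, hu⟩ | ⟨⟨N, R, I, hu⟩, hB⟩
      · exact Pm1_35_m1_1_u.closed W hE g hu r1 r2 r3 d1 e1
      · exact Pm1_35_m1_1_v.closed W hE g hu r1 r2 r3 d1 e1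
      · exact Pm1_35_m1_1_v2.closed W hE g hu r1 r2 r3 d1 e1

theorem pl_1_m1_1 {p a b c J l q : ℤ} {D dl : ℝ} {Cl : ℤ → ℤ → ℤ → ℤ → ℝ → Prop}
    (W : World p a b c J (-1) l q D dl Cl) (hc : -a < c) (hb : b < 2 * a)
    (hE : KEmp p a b (-1) (P1 l p) Cl) (hA : Aux p a b (-1) D Cl) (hcs : 0 < c)
    (d1 : D < 2 * b) (e1 : p - D - c < a) : False := by
  have g := G0.of W.toBase hc
  have r1 : (1 : ℝ) ≤ c := by exact_mod_cast (by omega : 1 ≤ c)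
  rcases le_or_gt (b + c + 1) a with k1 | k1
  · have r2 : (b : ℝ) + c + 1 ≤ a := by exact_mod_cast k1
    rcases hA.uvw with ⟨N, R, I, hu⟩ | ⟨N, R, I, hu⟩ | ⟨⟨N, R, I, hu⟩, hB⟩
    · exact P1_1_m1_1_u.closed W hE g hu r1 r2 d1 e1
    · exact P1_1_m1_1_v.closed W hE g hu r1 r2 d1 e1
    · exact P1_1_m1_1_v2.closed W hE g hu r1 r2 d1 e1
  · rcases le_or_gt (b + 1) a with k2 | k2
    · have r2 : (b : ℝ) + 1 ≤ a := by exact_mod_cast k2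
      have r3 : (a : ℝ) ≤ b + c := by exact_mod_cast (by omega : a ≤ b + c)
      rcases hA.uvw with ⟨N, R, I, hu⟩ | ⟨N, R, I, hu⟩ | ⟨⟨N, R, I, hu⟩, hB⟩
      · exact P1_2_m1_1_u.closed W hE g hu r1 r2 r3 d1 e1
      · exact P1_2_m1_1_v.closed W hE g hu r1 r2 r3 d1 e1
      · have o1 := hu.R2
        have o2 := hA.odd ⟨R, by omega⟩
        have o3 := W.ha
        have o4 := W.hb
        have o5 := W.h2a
        have o6 := W.h2b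
        obtain ⟨N2, R2, I2, hw⟩ := hB (a + b) (by omega) (by omega) (by omega)
        exact P1_2_m1_1_v2_hab.closed W hE g hu hw r1 r2 r3 d1 e1
    · have r2 : (a : ℝ) ≤ b := by exact_mod_cast (by omega : a ≤ b)
      have r3 : (b : ℝ) + 1 ≤ 2 * a := by exact_mod_cast (by omega : b + 1 ≤ 2 * a)
      rcases hA.uvw with ⟨N, R, I, hu⟩ | ⟨N, R, I, hu⟩ | ⟨⟨N, R, I, hu⟩, hB⟩
      · exact P1_35_m1_1_u.closed W hE g hu r1 r2 r3 d1 e1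
      · exact P1_35_m1_1_v.closed W hE g hu r1 r2 r3 d1 e1
      · exact P1_35_m1_1_v2.closed W hE g hu r1 r2 r3 d1 e1

theorem pl_m1_1_0 {p a b c J l q : ℤ} {D dl : ℝ} {Cl : ℤ → ℤ → ℤ → ℤ → ℝ → Prop}
    (W : World p a b c J 1 l q D dl Cl) (hc : -a < c) (hb : b < 2 * a)
    (hE : KEmp p a b 1 (P1 l p) Cl) (hA : Aux p a b 1 D Cl) (hcs : c < 0)
    (d1 : p - D < 2 * b) (e1 : D - c < a) : False := by
  have g := G0.of W.toBase hc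
  have r1 : (c : ℝ) + 1 ≤ 0 := by exact_mod_cast (by omega : c + 1 ≤ 0)
  rcases le_or_gt (b - c + 1) a with k1 | k1
  · have r2 : (b : ℝ) - c + 1 ≤ a := by exact_mod_cast k1
    rcases hA.uvw with ⟨N, R, I, hu⟩ | ⟨N, R, I, hu⟩ | ⟨⟨N, R, I, hu⟩, hB⟩
    · exact Pm1_1_1_0_u.closed W hE g hu r1 r2 d1 e1
    · exact Pm1_1_1_0_v.closed W hE g hu r1 r2 d1 e1
    · exact Pm1_1_1_0_v2.closed W hE g hu r1 r2 d1 e1
  · rcases le_or_gt (b + 1) a with k2 | k2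
    · have r2 : (b : ℝ) + 1 ≤ a := by exact_mod_cast k2
      have r3 : (a : ℝ) ≤ b - c := by exact_mod_cast (by omega : a ≤ b - c)
      rcases hA.uvw with ⟨N, R, I, hu⟩ | ⟨N, R, I, hu⟩ | ⟨⟨N, R, I, hu⟩, hB⟩
      · exact Pm1_2_1_0_u.closed W hE g hu r1 r2 r3 d1 e1
      · exact Pm1_2_1_0_v.closed W hE g hu r1 r2 r3 d1 e1
      · exact Pm1_2_1_0_v2.closed W hE g hu r1 r2 r3 d1 e1
    · have r2 : (a : ℝ) ≤ b := by exact_mod_cast (by omega : a ≤ b)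
      have r3 : (b : ℝ) + 1 ≤ 2 * a := by exact_mod_cast (by omega : b + 1 ≤ 2 * a)
      rcases hA.uvw with ⟨N, R, I, hu⟩ | ⟨N, R, I, hu⟩ | ⟨⟨N, R, I, hu⟩, hB⟩
      · exact Pm1_35_1_0_u.closed W hE g hu r1 r2 r3 d1 e1
      · exact Pm1_35_1_0_v.closed W hE g hu r1 r2 r3 d1 e1
      · exact Pm1_35_1_0_v2.closed W hE g hu r1 r2 r3 d1 e1

theorem pl_1_1_0 {p a b c J l q : ℤ} {D dl : ℝ} {Cl : ℤ → ℤ → ℤ → ℤ → ℝ → Prop}
    (W : World p a b c J 1 l q D dl Cl) (hc : -a < c) (hb : b < 2 * a)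
    (hE : KEmp p a b 1 (P1 l p) Cl) (hA : Aux p a b 1 D Cl) (hcs : 0 < c)
    (d1 : p - D < 2 * b) (e1 : D - c < a) : False := by
  have g := G0.of W.toBase hc
  have r1 : (1 : ℝ) ≤ c := by exact_mod_cast (by omega : 1 ≤ c)
  rcases le_or_gt (b + c + 1) a with k1 | k1
  · have r2 : (b : ℝ) + c + 1 ≤ a := by exact_mod_cast k1
    rcases hA.uvw with ⟨N, R, I, hu⟩ | ⟨N, R, I, hu⟩ | ⟨⟨N, R, I, hu⟩, hB⟩
    · exact P1_1_1_0_u.closed W hE g hu r1 r2 d1 e1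
    · exact P1_1_1_0_v.closed W hE g hu r1 r2 d1 e1
    · exact P1_1_1_0_v2.closed W hE g hu r1 r2 d1 e1
  · rcases le_or_gt (b + 1) a with k2 | k2
    · have r2 : (b : ℝ) + 1 ≤ a := by exact_mod_cast k2
      have r3 : (a : ℝ) ≤ b + c := by exact_mod_cast (by omega : a ≤ b + c)
      rcases hA.uvw with ⟨N, R, I, hu⟩ | ⟨N, R, I, hu⟩ | ⟨⟨N, R, I, hu⟩, hB⟩
      · exact P1_2_1_0_u.closed W hE g hu r1 r2 r3 d1 e1
      · exact P1_2_1_0_v.closed W hE g hu r1 r2 r3 d1 e1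
      · exact P1_2_1_0_v2.closed W hE g hu r1 r2 r3 d1 e1
    · have r2 : (a : ℝ) ≤ b := by exact_mod_cast (by omega : a ≤ b)
      have r3 : (b : ℝ) + 1 ≤ 2 * a := by exact_mod_cast (by omega : b + 1 ≤ 2 * a)
      rcases hA.uvw with ⟨N, R, I, hu⟩ | ⟨N, R, I, hu⟩ | ⟨⟨N, R, I, hu⟩, hB⟩
      · exact P1_35_1_0_u.closed W hE g hu r1 r2 r3 d1 e1
      · exact P1_35_1_0_v.closed W hE g hu r1 r2 r3 d1 e1
      · exact P1_35_1_0_v2.closed W hE g hu r1 r2 r3 d1 e1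

theorem pl_m1_1_1 {p a b c J l q : ℤ} {D dl : ℝ} {Cl : ℤ → ℤ → ℤ → ℤ → ℝ → Prop}
    (W : World p a b c J 1 l q D dl Cl) (hc : -a < c) (hb : b < 2 * a)
    (hE : KEmp p a b 1 (P1 l p) Cl) (hA : Aux p a b 1 D Cl) (hcs : c < 0)
    (d1 : p - D < 2 * b) (e1 : -(a : ℝ) < D - c - p) : False := by
  have g := G0.of W.toBase hc
  have r1 : (c : ℝ) + 1 ≤ 0 := by exact_mod_cast (by omega : c + 1 ≤ 0)
  rcases le_or_gt (b - c + 1) a with k1 | k1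
  · have r2 : (b : ℝ) - c + 1 ≤ a := by exact_mod_cast k1
    rcases hA.uvw with ⟨N, R, I, hu⟩ | ⟨N, R, I, hu⟩ | ⟨⟨N, R, I, hu⟩, hB⟩
    · exact Pm1_1_1_1_u.closed W hE g hu r1 r2 d1 e1
    · exact Pm1_1_1_1_v.closed W hE g hu r1 r2 d1 e1
    · exact Pm1_1_1_1_v2.closed W hE g hu r1 r2 d1 e1
  · rcases le_or_gt (b + 1) a with k2 | k2
    · have r2 : (b : ℝ) + 1 ≤ a := by exact_mod_cast k2
      have r3 : (a : ℝ) ≤ b - c := by exact_mod_cast (by omega : a ≤ b - c)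
      rcases hA.uvw with ⟨N, R, I, hu⟩ | ⟨N, R, I, hu⟩ | ⟨⟨N, R, I, hu⟩, hB⟩
      · exact Pm1_2_1_1_u.closed W hE g hu r1 r2 r3 d1 e1
      · exact Pm1_2_1_1_v.closed W hE g hu r1 r2 r3 d1 e1
      · exact Pm1_2_1_1_v2.closed W hE g hu r1 r2 r3 d1 e1
    · have r2 : (a : ℝ) ≤ b := by exact_mod_cast (by omega : a ≤ b)
      have r3 : (b : ℝ) + 1 ≤ 2 * a := by exact_mod_cast (by omega : b + 1 ≤ 2 * a)
      rcases hA.uvw with ⟨N, R, I, hu⟩ | ⟨N, R, I, hu⟩ | ⟨⟨N, R, I, hu⟩, hB⟩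
      · exact Pm1_35_1_1_u.closed W hE g hu r1 r2 r3 d1 e1
      · exact Pm1_35_1_1_v.closed W hE g hu r1 r2 r3 d1 e1
      · exact Pm1_35_1_1_v2.closed W hE g hu r1 r2 r3 d1 e1

theorem pl_1_1_1 {p a b c J l q : ℤ} {D dl : ℝ} {Cl : ℤ → ℤ → ℤ → ℤ → ℝ → Prop}
    (W : World p a b c J 1 l q D dl Cl) (hc : -a < c) (hb : b < 2 * a)
    (hE : KEmp p a b 1 (P1 l p) Cl) (hA : Aux p a b 1 D Cl) (hcs : 0 < c)
    (d1 : p - D < 2 * b) (e1 : -(a : ℝ) < D - c - p) : False := by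
  have g := G0.of W.toBase hc
  have r1 : (1 : ℝ) ≤ c := by exact_mod_cast (by omega : 1 ≤ c)
  rcases le_or_gt (b + c + 1) a with k1 | k1
  · have r2 : (b : ℝ) + c + 1 ≤ a := by exact_mod_cast k1
    rcases hA.uvw with ⟨N, R, I, hu⟩ | ⟨N, R, I, hu⟩ | ⟨⟨N, R, I, hu⟩, hB⟩
    · exact P1_1_1_1_u.closed W hE g hu r1 r2 d1 e1
    · exact P1_1_1_1_v.closed W hE g hu r1 r2 d1 e1
    · exact P1_1_1_1_v2.closed W hE g hu r1 r2 d1 e1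
  · rcases le_or_gt (b + 1) a with k2 | k2
    · have r2 : (b : ℝ) + 1 ≤ a := by exact_mod_cast k2
      have r3 : (a : ℝ) ≤ b + c := by exact_mod_cast (by omega : a ≤ b + c)
      rcases hA.uvw with ⟨N, R, I, hu⟩ | ⟨N, R, I, hu⟩ | ⟨⟨N, R, I, hu⟩, hB⟩
      · exact P1_2_1_1_u.closed W hE g hu r1 r2 r3 d1 e1
      · exact P1_2_1_1_v.closed W hE g hu r1 r2 r3 d1 e1
      · exact P1_2_1_1_v2.closed W hE g hu r1 r2 r3 d1 e1
    · have r2 : (a : ℝ) ≤ b := by exact_mod_cast (by omega : a ≤ b)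
      have r3 : (b : ℝ) + 1 ≤ 2 * a := by exact_mod_cast (by omega : b + 1 ≤ 2 * a)
      rcases hA.uvw with ⟨N, R, I, hu⟩ | ⟨N, R, I, hu⟩ | ⟨⟨N, R, I, hu⟩, hB⟩
      · exact P1_35_1_1_u.closed W hE g hu r1 r2 r3 d1 e1
      · exact P1_35_1_1_v.closed W hE g hu r1 r2 r3 d1 e1
      · exact P1_35_1_1_v2.closed W hE g hu r1 r2 r3 d1 e1

theorem stTP : StTP := by
  intro p a b c J ds l q D dl Cl W hc hb hE hPL hA hPh
  have hc0 := W.hc0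
  rcases hPL with ⟨rfl, d1, ⟨e2, e3⟩ | e1⟩ | ⟨rfl, d1, ⟨e2, e3⟩ | e1⟩ <;>
    rcases lt_or_gt_of_ne hc0 with h1 | h1
  · exact pl_m1_m1_0 W hc hb hE hA h1 d1 e2
  · exact pl_1_m1_0 W hc hb hE hA h1 d1 e2
  · exact pl_m1_m1_1 W hc hb hE hA h1 d1 e1
  · exact pl_1_m1_1 W hc hb hE hA h1 d1 e1
  · exact pl_m1_1_0 W hc hb hE hA h1 d1 e3
  · exact pl_1_1_0 W hc hb hE hA h1 d1 e3
  · exact pl_m1_1_1 W hc hb hE hA h1 d1 e1
  · exact pl_1_1_1 W hc hb hE hA h1 d1 e1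

end Helper25.KG
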