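import Pool.Agent.Helper25.KG.PL

set_option autoImplicit false
set_option linter.unusedVariables false

namespace Helper25.KG.Pm1_1_1_1_v

open Helper11.CT Helper25.KW Helper25.KG

def base : List Con :=
  [(false,[0,1,0,-1,-1,0,0,1]),
  (false,[0,0,2,0,-1,0,0,1]),
  (true,[0,0,0,0,1,0,-2]),
  (true,[0,0,0,0,1,0,2]),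
  (false,[0,0,0,0,0,0,0,1,-2]),
  (false,[0,0,0,0,0,0,0,0,1]),
  (false,[0,0,0,0,1,0,0,-2]),
  (false,[0,0,0,0,0,-1,0,1]),
  (true,[0,0,0,0,0,1]),
  (true,[0,1,-1,1]),
  (true,[0,1,0,1]),
  (true,[0,0,0,-1]),
  (true,[0,0,-2,0,1]),
  (true,[0,-2,0,0,1]),
  (true,[-1,0,1]),
  (true,[-1,1])]

def tree : Tre :=
  (.I [0,0,-1,-1,0,0,1] (.Q [0,1,0,0,-1,0,1,0,1] (.p true [0,0,1] [] (⟨0,[(6,0)]⟩,⟨1,[(5,0),(2,0),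
  (0,0)]⟩) .k 0 (⟨0,[]⟩,⟨0,[]⟩) .k .k) (.K ⟨0,[0,0,1],0,(-1),(⟨0,[(7,0)]⟩,⟨1,[(6,0),(2,0),(0,0)]⟩),
  .k,(.r 0 ⟨0,[(1,0)]⟩ ⟨7,[(3,3),(0,4),(0,0),(2,1),(3,7),(2,3)]⟩),(.r 0 ⟨1,[(0,1),(2,0),(2,0),(1,0),
  (3,1),(2,1)]⟩ ⟨1,[(4,0),(8,1),(0,0)]⟩),.k,.k,[⟨1,[(3,0),(2,0),(1,0)]⟩,⟨7,[(3,3),(0,0),(0,0),(1,7),
  (0,1)]⟩,⟨7,[(4,4),(0,0),(0,3),(1,1),(8,7)]⟩,⟨0,[(0,0)]⟩]⟩) (.Q [0,1,0,0,0,0,-1,0,-1] (.p false [0,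
  0,1] [] (⟨0,[(7,0)]⟩,⟨1,[(6,0),(2,0),(0,0)]⟩) .k 0 (⟨0,[]⟩,⟨0,[]⟩) .k .k) (.K ⟨0,[0,0,1],0,0,(⟨0,
  [(8,0)]⟩,⟨1,[(7,0),(2,0),(0,0)]⟩),.k,(.r 0 ⟨0,[(2,0)]⟩ ⟨7,[(4,3),(0,4),(0,0),(2,1),(3,7),(2,3)]⟩),
  (.r 0 ⟨0,[(2,0),(1,1),(4,0),(2,1),(3,0)]⟩ ⟨1,[(5,0),(8,1),(0,0)]⟩),.k,.k,[⟨1,[(4,0),(2,0),(1,0)]⟩,
  ⟨7,[(4,3),(0,0),(0,0),(1,7),(0,1)]⟩,⟨0,[(0,0)]⟩,⟨3,[(2,1),(0,0),(0,0),(1,0),(1,3),(0,0),(3,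
  2)]⟩]⟩) (.Q [0,0,0,0,0,0,-1,1,-1] (.p false [0,0,1] [1] (⟨0,[(8,0)]⟩,⟨1,[(7,0),(2,0),(0,0)]⟩) .k
  1 (⟨0,[]⟩,⟨0,[]⟩) .k .k) (.I [1,-1,1,1,0,0,1] (.R ⟨2,false,false,true,[0,1],[1,0,-1],[1,0,1,1],
  (⟨0,[]⟩,⟨0,[]⟩),(⟨12,[(0,0),(0,6),(0,1),(2,1),(2,1),(0,3),(4,0)]⟩,⟨0,[(10,0)]⟩),⟨0,[]⟩,.k,.k,.k,
  (.r 0 ⟨5,[(0,3),(4,0),(0,0),(1,0),(2,0),(3,2)]⟩ ⟨1,[(7,0),(8,1),(0,0)]⟩),.k,.k,⟨true,0,⟨0,[(0,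
  0)]⟩,⟨1,[(5,1),(1,0),(3,0)]⟩⟩,⟨false,0,⟨12,[(0,0),(0,6),(0,1),(2,1),(2,1),(0,3),(4,0)]⟩,⟨1,[(10,
  1),(0,0),(5,0)]⟩⟩,⟨true,0,⟨0,[]⟩,⟨0,[(20,0)]⟩⟩,⟨false,0,⟨0,[(3,0),(1,0)]⟩,⟨1,[(0,1),(9,1),(0,0),
  (5,0)]⟩⟩,⟨false,1,⟨0,[(15,0),(2,0)]⟩,⟨0,[(16,0)]⟩⟩,⟨false,0,⟨0,[(1,0)]⟩,⟨3,[(2,1),(5,0),(1,1),(0,
  1),(6,0)]⟩⟩,[.a ⟨true,0,⟨0,[(1,0),(18,0)]⟩,⟨0,[(2,0)]⟩⟩ ⟨true,0,⟨3,[(0,1),(5,1),(0,0),(3,0),(2,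
  1)]⟩,⟨0,[(16,0)]⟩⟩ ⟨false,0,⟨0,[(1,0),(18,0)]⟩,⟨1,[(2,1),(8,0),(5,0)]⟩⟩,.e ⟨false,1,⟨0,[(15,0),(2,
  0)]⟩,⟨1,[(5,1),(5,0),(5,0)]⟩⟩ ⟨false,0,⟨0,[(1,0)]⟩,⟨3,[(2,0),(1,0),(3,0),(1,2),(0,1),(2,0),(2,
  0)]⟩⟩,.o ⟨false,1,⟨1,[(11,0),(5,0)]⟩,⟨7,[(6,3),(0,0),(0,0),(2,1)]⟩⟩,.fo]⟩) (.R ⟨2,false,false,
  true,[0,1],[1,0,-1],[0,0,1],(⟨0,[]⟩,⟨0,[]⟩),(⟨19,[(1,9),(0,3),(2,1),(0,0),(1,2),(0,6),(4,1)]⟩,⟨0,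
  [(10,0)]⟩),⟨0,[]⟩,.k,.k,.k,(.r 0 ⟨1,[(2,1),(3,0),(2,0),(1,0),(3,1)]⟩ ⟨3,[(0,3),(6,0),(0,0),(9,
  1)]⟩),.k,.k,⟨true,0,⟨1,[(2,1),(3,0),(2,0),(1,0)]⟩,⟨3,[(0,1),(5,1),(0,0),(3,0),(2,1)]⟩⟩,⟨false,0,
  ⟨19,[(1,9),(0,3),(2,1),(0,0),(1,2),(0,6),(4,1)]⟩,⟨1,[(10,1),(0,0),(5,0)]⟩⟩,⟨true,0,⟨0,[(16,0)]⟩,
  ⟨0,[(15,0)]⟩⟩,⟨false,0,⟨0,[(3,0),(1,0)]⟩,⟨1,[(2,1),(8,0),(3,1),(2,0)]⟩⟩,⟨false,1,⟨3,[(7,0),(0,0),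
  (9,1)]⟩,⟨0,[]⟩⟩,⟨false,0,⟨0,[(1,0)]⟩,⟨3,[(2,1),(5,0),(1,1),(0,1),(6,0)]⟩⟩,[.a ⟨true,0,⟨0,[(1,0),
  (18,0)]⟩,⟨0,[(2,0)]⟩⟩ ⟨true,0,⟨7,[(6,3),(0,0),(0,0),(2,1)]⟩,⟨0,[]⟩⟩ ⟨false,0,⟨0,[(1,0),(18,0)]⟩,
  ⟨1,[(2,1),(8,0),(5,0)]⟩⟩,.e ⟨false,1,⟨3,[(7,0),(0,0),(9,1)]⟩,⟨3,[(0,0),(3,0),(9,1),(5,0)]⟩⟩
  ⟨false,0,⟨0,[(1,0)]⟩,⟨3,[(2,0),(1,0),(3,0),(1,2),(0,1),(2,0),(2,0)]⟩⟩,.o ⟨false,1,⟨1,[(11,0),(5,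
  0)]⟩,⟨7,[(6,3),(0,0),(0,0),(2,1)]⟩⟩,.fo]⟩)) (.I [0,0,1,0,-1,0,2] (.R ⟨2,true,false,false,[0,1],[1,
  0,-1],[0,1,1],(⟨0,[]⟩,⟨0,[]⟩),(⟨1,[(9,0),(2,0),(0,0)]⟩,⟨0,[(10,0)]⟩),⟨0,[]⟩,.k,.k,.k,(.r 0 ⟨13,
  [(0,5),(5,3),(1,0),(2,1),(3,13),(2,6)]⟩ ⟨1,[(7,0),(8,1),(0,0)]⟩),.k,.k,⟨true,(-1),⟨1,[(0,0),(4,0),
  (0,0),(4,0),(2,0)]⟩,⟨1,[(7,0),(10,0)]⟩⟩,⟨false,0,⟨1,[(9,0),(2,0),(0,0)]⟩,⟨1,[(10,1),(0,0),(5,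
  0)]⟩⟩,⟨false,0,⟨0,[(16,0)]⟩,⟨0,[(15,0),(2,0)]⟩⟩,⟨true,0,⟨0,[(3,0),(1,0)]⟩,⟨0,[(1,0),(13,0)]⟩⟩,
  ⟨true,0,⟨0,[(20,0)]⟩,⟨0,[]⟩⟩,⟨false,1,⟨1,[(7,0),(1,0),(2,0),(0,0),(4,0)]⟩,⟨0,[(1,0)]⟩⟩,[]⟩) (.R
  ⟨2,true,false,true,[0,1],[1,0,-1],[0,0,1],(⟨0,[]⟩,⟨0,[]⟩),(⟨1,[(9,0),(2,0),(0,0)]⟩,⟨0,[(10,0)]⟩),
  ⟨0,[]⟩,.k,.k,.k,(.r 0 ⟨1,[(1,1),(4,0),(2,0),(5,1),(2,0)]⟩ ⟨4,[(0,3),(3,0),(3,0),(7,3)]⟩),.k,.k,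
  ⟨true,0,⟨1,[(1,1),(4,0),(2,0),(8,0)]⟩,⟨1,[(0,0),(4,0),(0,0),(4,0),(2,0)]⟩⟩,⟨false,0,⟨1,[(9,0),(2,
  0),(0,0)]⟩,⟨1,[(10,1),(0,0),(5,0)]⟩⟩,⟨true,0,⟨0,[(16,0)]⟩,⟨0,[(15,0)]⟩⟩,⟨false,0,⟨0,[(3,0),(1,
  0)]⟩,⟨0,[(1,0),(13,0),(2,0)]⟩⟩,⟨false,1,⟨3,[(7,0),(0,0),(9,1)]⟩,⟨0,[]⟩⟩,⟨true,0,⟨1,[(5,0),(1,0),
  (1,0),(5,0)]⟩,⟨0,[(1,0)]⟩⟩,[]⟩))))) (.Q [0,0,0,1,1,0,1,-1,1] (.p true [0,0,1] [1] (⟨0,[(6,0)]⟩,⟨1,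
  [(5,0),(2,0),(0,0)]⟩) .k 1 (⟨0,[]⟩,⟨0,[]⟩) .k .k) (.I [1,0,0,0,0,0,-1] (.K ⟨0,[0,0,1],0,0,(⟨0,[(8,
  0)]⟩,⟨1,[(7,0),(2,0),(0,0)]⟩),.k,(.r (-1) ⟨1,[(6,0),(7,1),(0,0)]⟩ ⟨1,[(0,1),(3,1),(4,0),(2,1),(3,
  0)]⟩),(.x (-1) ⟨1,[(9,0),(0,1),(4,0)]⟩ ⟨7,[(4,3),(0,0),(0,0),(2,1),(1,7)]⟩),.k,.k,[⟨1,[(4,0),(2,
  0),(1,0)]⟩,⟨7,[(4,3),(0,0),(0,0),(1,7),(0,1)]⟩,⟨1,[(0,1),(2,0),(3,0),(1,0),(3,0)]⟩,⟨0,[(1,0),(1,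
  0)]⟩]⟩) (.Q [0,1,0,0,0,0,-1,0,-1] (.p false [0,0,1] [] (⟨0,[(8,0)]⟩,⟨1,[(7,0),(2,0),(0,0)]⟩) .k 0
  (⟨0,[]⟩,⟨0,[]⟩) .k .k) (.K ⟨0,[0,0,1],0,0,(⟨0,[(9,0)]⟩,⟨1,[(8,0),(2,0),(0,0)]⟩),.k,(.x 0 ⟨7,[(5,
  3),(0,0),(0,0),(2,1),(1,7)]⟩ ⟨1,[(10,0),(0,1),(4,0)]⟩),(.r 0 ⟨0,[(1,1),(1,0)]⟩ ⟨1,[(6,0),(8,1),(0,
  0)]⟩),.k,.k,[⟨1,[(5,0),(2,0),(1,0)]⟩,⟨7,[(5,3),(0,0),(0,0),(1,7),(0,1)]⟩,⟨0,[(0,0)]⟩,⟨0,[(2,0),(1,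
  0)]⟩]⟩) (.K ⟨0,[1,0,-1],0,0,(⟨1,[(8,0),(2,0),(0,0)]⟩,⟨0,[(9,0)]⟩),.k,(.r (-1) ⟨1,[(6,0),(8,1),(0,
  0)]⟩ ⟨0,[(1,1),(1,0)]⟩),(.x (-1) ⟨1,[(10,0),(0,1),(4,0)]⟩ ⟨7,[(5,3),(0,0),(0,0),(2,1),(1,7)]⟩),.k,
  .k,[⟨0,[(0,0),(2,0),(0,0),(5,0)]⟩,⟨3,[(5,1),(0,0),(0,0),(0,1)]⟩,⟨0,[(0,0),(3,0),(5,0),(3,0)]⟩,⟨1,
  [(4,0),(1,0),(1,0),(5,0)]⟩]⟩))) (.R ⟨2,true,false,false,[0,1],[1,0,-1],[1,1,1,1],(⟨0,[]⟩,⟨0,[]⟩),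
  (⟨1,[(6,0),(2,0),(0,0)]⟩,⟨0,[(7,0)]⟩),⟨0,[]⟩,.k,.k,.k,(.r (-1) ⟨0,[(1,0),(3,0)]⟩ ⟨1,[(0,1),(6,1),
  (0,0),(5,0)]⟩),.k,.k,⟨true,0,⟨1,[(3,1),(1,0),(2,0),(2,1)]⟩,⟨1,[(0,1),(6,1),(0,0),(6,0)]⟩⟩,⟨false,
  0,⟨1,[(6,0),(2,0),(0,0)]⟩,⟨1,[(7,1),(0,0),(5,0)]⟩⟩,⟨false,0,⟨0,[]⟩,⟨3,[(4,0),(0,0),(9,1)]⟩⟩,⟨true,
  (-1),⟨0,[(0,0)]⟩,⟨1,[(5,0),(1,1),(0,0),(3,1)]⟩⟩,⟨true,0,⟨0,[(12,0)]⟩,⟨0,[(13,0)]⟩⟩,⟨false,0,⟨11,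
  [(0,7),(0,1),(1,1),(0,0),(1,1),(4,5),(3,8)]⟩,⟨1,[(5,0),(1,1),(0,0)]⟩⟩,[]⟩)))

theorem ok : chk (cPU 1 false) tree base = true := by
  decide +kernel

theorem closed {p a b c J l q : ℤ} {D dl : ℝ} {Cl : ℤ → ℤ → ℤ → ℤ → ℝ → Prop}
    (W : World p a b c J 1 l q D dl Cl) (hE : KEmp p a b 1 (P1 l p) Cl)
    (g : G0 p a b c J D)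
    {N R : ℤ} {I : ℝ} (hu : VFac p D Cl N R I)
    (s0 : (c : ℝ) + 1 ≤ 0)
    (s1 : (b : ℝ) - c + 1 ≤ a)
    (s2 : p - D < 2 * b)
    (s3 : -(a : ℝ) < D - c - p) : False := by
  have g1 := g.a2
  have g2 := g.b2
  have g3 := g.pa
  have g4 := g.pb
  have g5 := g.J1
  have g6 := g.JD
  have g7 := g.D2
  have g8 := g.ca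
  have g9 := g.ca'
  have t1 := TF.ofV hu
  have i1 := t1.I0
  have i2 := hu.ID
  have i3 := t1.R1
  have i4 := t1.R2
  refine (val_PU W.toBase (UV.ofV hu)).sound W rfl (Nk := 0) (fun kf hkf hh => ?_) (kok_B hE (by simp [xv]) (by simp [xv]) 0) ?_ ok
  · simp only [cPU, kfB, List.mem_cons, List.not_mem_nil, or_false] at hkf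
    subst hkf
    exact absurd hh (by norm_num)
  · simp only [base, List.forall_mem_cons, List.not_mem_nil, false_imp_iff, implies_true,
      and_true, hld, xv, evg_cons, evg_nil, List.map_cons, List.map_nil, List.cons_append,
      List.nil_append, if_true, if_false, Bool.false_eq_true]
    push_cast
    refine ⟨?_, ?_, ?_, ?_, ?_, ?_, ?_, ?_, ?_, ?_, ?_, ?_, ?_, ?_, ?_, ?_⟩ <;> linarith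

end Helper25.KG.Pm1_1_1_1_v
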