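import Pool.Agent.Helper25.KG.PL

set_option autoImplicit false
set_option linter.unusedVariables false

namespace Helper25.KG.Pm1_35_1_0_u

open Helper11.CT Helper25.KW Helper25.KG

def base : List Con :=
  [(false,[0,1,0,1,0,0,0,-1]),
  (false,[0,0,2,0,-1,0,0,1]),
  (true,[0,0,0,0,1,0,-2]),
  (true,[0,0,0,0,1,0,2]),
  (false,[0,0,0,0,0,0,0,1,-1]),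
  (false,[0,0,0,0,0,0,0,0,1]),
  (false,[0,0,0,0,1,0,0,-2]),
  (false,[0,0,0,0,0,-1,0,1]),
  (true,[0,0,0,0,0,1]),
  (true,[0,2,-1]),
  (true,[1,-1,1]),
  (true,[0,1,0,1]),
  (true,[0,0,0,-1]),
  (true,[0,0,-2,0,1]),
  (true,[0,-2,0,0,1]),
  (true,[-1,0,1]),
  (true,[-1,1])]

def tree : Tre :=
  (.Q [0,-1,0,-2,0,0,0,1] (.pp false [-1,1]) (.R ⟨2,true,false,false,[0,1],[1,-1],[0,0,1],(⟨0,[]⟩,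
  ⟨0,[]⟩),(⟨0,[(8,0)]⟩,⟨0,[(9,0)]⟩),⟨0,[]⟩,.k,.k,.k,(.r 0 ⟨0,[(1,0),(0,0),(9,0),(2,0)]⟩ ⟨0,[(13,1),
  (0,0)]⟩),.k,.k,⟨false,0,⟨1,[(1,0),(0,0),(9,0),(2,0)]⟩,⟨0,[(13,0),(0,0)]⟩⟩,⟨true,(-1),⟨0,[(2,0)]⟩,
  ⟨1,[(7,0),(6,0)]⟩⟩,⟨true,0,⟨0,[(13,0)]⟩,⟨0,[(12,0)]⟩⟩,⟨false,0,⟨0,[(0,0)]⟩,⟨0,[(1,0),(10,0),(2,
  0)]⟩⟩,⟨false,1,⟨3,[(3,0),(0,0),(10,1)]⟩,⟨0,[]⟩⟩,⟨true,0,⟨15,[(0,7),(1,1),(0,0),(0,0),(0,5),(0,5),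
  (3,3)]⟩,⟨0,[(1,0)]⟩⟩,[]⟩) (.Q [0,0,0,0,0,-2,0,1] (.pp false [-1,1]) (.S ⟨1,0,[0,0,-1,-2],[1,-1],
  [1,1,-1,-1],(⟨0,[(9,0)]⟩,⟨0,[(10,0)]⟩),⟨0,[(0,0)]⟩,.k,(.r (-1) ⟨0,[(14,1),(0,0)]⟩ ⟨3,[(1,3),(1,3),
  (0,0),(0,0),(10,1)]⟩),⟨false,0,⟨0,[]⟩,⟨3,[(4,0),(0,0),(10,1)]⟩⟩,⟨true,0,⟨0,[(14,0)]⟩,⟨0,[(13,
  0)]⟩⟩,⟨true,0,⟨0,[(13,0)]⟩,⟨0,[(14,0)]⟩⟩,⟨false,1,⟨3,[(4,0),(0,0),(10,1)]⟩,⟨0,[]⟩⟩,[.o ⟨false,0,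
  ⟨0,[(14,1)]⟩,⟨3,[(1,3),(2,0),(0,0),(10,1)]⟩⟩,.o ⟨false,1,⟨3,[(4,0),(0,0),(8,7),(1,1)]⟩,⟨0,[(1,
  0)]⟩⟩,.o ⟨false,0,⟨7,[(3,3),(0,0),(0,0),(2,1)]⟩,⟨1,[(8,0),(6,0)]⟩⟩,.a ⟨true,(-1),⟨0,[(3,0)]⟩,⟨0,
  [(15,0)]⟩⟩ ⟨false,1,⟨0,[(14,0),(0,0)]⟩,⟨3,[(1,1),(1,3),(4,0),(7,2)]⟩⟩ ⟨true,1,⟨0,[(14,1),(0,0)]⟩,
  ⟨0,[(1,0),(1,0)]⟩⟩]⟩) (.R ⟨0,false,false,true,[1,-1],[0,1],[0,1,2,1],(⟨0,[(9,0)]⟩,⟨0,[(10,0)]⟩),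
  (⟨0,[(10,0)]⟩,⟨0,[(9,0)]⟩),⟨0,[(0,0)]⟩,.k,.k,(.r (-1) ⟨0,[(14,1),(0,0)]⟩ ⟨3,[(1,3),(1,3),(0,0),(0,
  0),(10,1)]⟩),(.r (-1) ⟨0,[(14,1),(0,0)]⟩ ⟨3,[(1,3),(1,3),(0,0),(0,0),(10,1)]⟩),.k,.k,⟨true,0,⟨7,
  [(3,3),(0,0),(0,0),(2,1)]⟩,⟨0,[]⟩⟩,⟨false,2,⟨1,[(8,0),(6,2)]⟩,⟨0,[(3,0)]⟩⟩,⟨false,(-1),⟨0,[(1,0),
  (1,0),(8,0)]⟩,⟨1,[(14,3),(0,2),(0,0)]⟩⟩,⟨true,0,⟨0,[(1,0)]⟩,⟨0,[(6,0),(0,0),(6,1)]⟩⟩,⟨false,0,⟨0,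
  []⟩,⟨0,[]⟩⟩,⟨false,0,⟨0,[]⟩,⟨0,[]⟩⟩,[.o ⟨false,0,⟨0,[(2,0)]⟩,⟨3,[(4,0),(0,0),(8,3),(1,1)]⟩⟩,.o
  ⟨false,1,⟨3,[(1,1),(2,0),(0,0),(2,0),(7,0)]⟩,⟨0,[(14,0)]⟩⟩,.o ⟨false,0,⟨7,[(3,3),(0,0),(0,0),(2,
  1)]⟩,⟨1,[(8,0),(6,0)]⟩⟩,.a ⟨true,(-1),⟨0,[(3,0)]⟩,⟨0,[(15,0)]⟩⟩ ⟨false,0,⟨7,[(1,3),(1,3),(0,0),(0,
  0),(10,1)]⟩,⟨1,[(14,1),(0,0),(0,0)]⟩⟩ ⟨true,1,⟨0,[(2,0),(12,0)]⟩,⟨0,[(3,0),(10,0)]⟩⟩]⟩)))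

theorem ok : chk (cPU 1 true) tree base = true := by
  decide +kernel

theorem closed {p a b c J l q : ℤ} {D dl : ℝ} {Cl : ℤ → ℤ → ℤ → ℤ → ℝ → Prop}
    (W : World p a b c J 1 l q D dl Cl) (hE : KEmp p a b 1 (P1 l p) Cl)
    (g : G0 p a b c J D)
    {N R : ℤ} {I : ℝ} (hu : UFac p b D Cl N R I)
    (s0 : (c : ℝ) + 1 ≤ 0)
    (s1 : (a : ℝ) ≤ b)
    (s2 : (b : ℝ) + 1 ≤ 2 * a)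
    (s3 : p - D < 2 * b)
    (s4 : D - c < a) : False := by
  have g1 := g.a2
  have g2 := g.b2
  have g3 := g.pa
  have g4 := g.pb
  have g5 := g.J1
  have g6 := g.JD
  have g7 := g.D2
  have g8 := g.ca
  have g9 := g.ca'
  have t1 := TF.ofU hu
  have i1 := t1.I0
  have i2 := t1.ID
  have i3 := t1.R1
  have i4 := t1.R2
  refine (val_PU W.toBase (UV.ofU hu)).sound W rfl (Nk := 0) (fun kf hkf hh => ?_) (kok_B hE (by simp [xv]) (by simp [xv]) 0) ?_ ok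
  · simp only [cPU, kfB, List.mem_cons, List.not_mem_nil, or_false] at hkf
    subst hkf
    exact absurd hh (by norm_num)
  · simp only [base, List.forall_mem_cons, List.not_mem_nil, false_imp_iff, implies_true,
      and_true, hld, xv, evg_cons, evg_nil, List.map_cons, List.map_nil, List.cons_append,
      List.nil_append, if_true, if_false, Bool.false_eq_true]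
    push_cast
    refine ⟨?_, ?_, ?_, ?_, ?_, ?_, ?_, ?_, ?_, ?_, ?_, ?_, ?_, ?_, ?_, ?_, ?_⟩ <;> linarith

end Helper25.KG.Pm1_35_1_0_u
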