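import Pool.Agent.Helper25.KG.PL

set_option autoImplicit false
set_option linter.unusedVariables false

namespace Helper25.KG.Pm1_35_m1_0_v2

open Helper11.CT Helper25.KW Helper25.KG

def base : List Con :=
  [(false,[0,1,0,-1,0,0,-2]),
  (false,[0,0,2,0,0,0,-2]),
  (false,[0,0,0,0,0,0,1]),
  (false,[0,0,0,0,0,2,-4]),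
  (false,[0,0,0,0,-1,0,2]),
  (true,[0,0,0,0,1]),
  (true,[0,2,-1]),
  (true,[1,-1,1]),
  (true,[0,1,0,1]),
  (true,[0,0,0,-1]),
  (true,[0,0,-2,0,0,2]),
  (true,[0,-2,0,0,0,2]),
  (true,[-1,0,1]),
  (true,[-1,1])]

def tree : Tre :=
  (.Q [0,1,0,0,0,-1,1] (.p true [0,0,1] [] (⟨0,[(2,0)]⟩,⟨0,[(2,0)]⟩) .k 0 (⟨0,[]⟩,⟨0,[]⟩) .k .k)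
  (.K ⟨0,[0,0,1],0,0,(⟨0,[(3,0)]⟩,⟨0,[(3,0)]⟩),.k,(.r 0 ⟨1,[(10,1),(0,0)]⟩ ⟨1,[(9,1),(2,0),(0,1)]⟩),
  (.r 0 ⟨1,[(9,1),(2,0),(0,1)]⟩ ⟨1,[(10,1),(0,0)]⟩),.k,.k,[⟨0,[(3,0),(9,0)]⟩,⟨1,[(2,0)]⟩,⟨0,[(0,
  0)]⟩,⟨3,[(4,0),(7,0),(1,5)]⟩]⟩) (.Q [0,0,1,0,0,0,-2] (.pp true [-1,1]) (.Q [0,-1,0,1,0,1,1] (.p
  true [0,0,1] [] (⟨0,[(4,0)]⟩,⟨0,[(4,0)]⟩) .k 0 (⟨0,[]⟩,⟨0,[]⟩) .k .k) (.Q [0,0,0,-2,0,0,-2] (.pp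
  true [-1,1]) (.Q [0,0,0,1,0,0,2] (.pp false [-1,1]) (.R ⟨2,false,false,false,[0,1],[1,-1],[],(⟨0,
  []⟩,⟨0,[]⟩),(⟨0,[(9,0)]⟩,⟨0,[(10,0)]⟩),⟨0,[]⟩,.k,.k,.k,(.r 0 ⟨0,[(12,1),(0,1)]⟩ ⟨0,[(14,1),(0,
  0)]⟩),.k,.k,⟨true,0,⟨0,[(12,0),(0,0)]⟩,⟨0,[(14,0)]⟩⟩,⟨false,0,⟨0,[(3,0)]⟩,⟨0,[(7,1),(7,0)]⟩⟩,
  ⟨false,1,⟨1,[(14,1),(0,0),(0,0)]⟩,⟨0,[(12,0),(0,0)]⟩⟩,⟨true,0,⟨0,[(1,0)]⟩,⟨0,[(0,0),(12,0)]⟩⟩,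
  ⟨false,1,⟨1,[(15,0),(0,0)]⟩,⟨0,[(17,0)]⟩⟩,⟨false,1,⟨3,[(1,1),(6,0),(7,2),(1,1)]⟩,⟨0,[(0,0)]⟩⟩,[.a
  ⟨true,0,⟨0,[(14,0)]⟩,⟨0,[(0,0)]⟩⟩ ⟨false,1,⟨0,[(11,0),(4,0)]⟩,⟨0,[]⟩⟩ ⟨true,0,⟨1,[(1,0),(4,0)]⟩,
  ⟨0,[(0,0)]⟩⟩,.o ⟨false,1,⟨3,[(1,1),(6,0),(7,2),(1,1)]⟩,⟨0,[(13,0)]⟩⟩,.o ⟨false,1,⟨0,[(11,0),(4,
  0)]⟩,⟨0,[(3,0)]⟩⟩,.e ⟨false,1,⟨1,[(15,0),(0,0)]⟩,⟨0,[(17,0)]⟩⟩ ⟨false,1,⟨3,[(1,1),(6,0),(7,2),(1,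
  1)]⟩,⟨0,[(0,0)]⟩⟩]⟩) (.Q [0,0,0,0,-2,0,2] (.pp false [-1,1]) (.R ⟨1,false,false,false,[0,0,1],[1,
  -1],[1,0,0,0,0,1],(⟨0,[(8,0)]⟩,⟨0,[(8,0)]⟩),(⟨0,[(10,0)]⟩,⟨0,[(11,0)]⟩),⟨1,[(0,0)]⟩,.k,.k,(.r 0
  ⟨1,[(15,1),(0,0)]⟩ ⟨1,[(3,1),(3,0),(11,1)]⟩),(.r 0 ⟨1,[(3,1),(3,0),(11,1)]⟩ ⟨1,[(15,1),(0,0)]⟩),
  .k,.k,⟨false,0,⟨1,[(14,1),(2,0)]⟩,⟨1,[(15,1),(0,0)]⟩⟩,⟨true,0,⟨1,[(7,0)]⟩,⟨0,[(8,0)]⟩⟩,⟨true,0,⟨0,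
  []⟩,⟨0,[(19,0)]⟩⟩,⟨false,1,⟨1,[(2,0),(14,0)]⟩,⟨0,[(3,0),(15,0)]⟩⟩,⟨false,1,⟨0,[(14,0),(2,0)]⟩,⟨0,
  [(15,0)]⟩⟩,⟨false,1,⟨0,[(5,0)]⟩,⟨1,[(8,1),(8,0),(1,1)]⟩⟩,[.o ⟨false,0,⟨0,[(1,0)]⟩,⟨0,[(14,0),(2,
  0),(1,0)]⟩⟩,.o ⟨false,1,⟨3,[(2,1),(6,0),(7,2),(1,1)]⟩,⟨0,[(14,0)]⟩⟩,.a ⟨true,0,⟨0,[(8,0)]⟩,⟨0,[(8,
  0)]⟩⟩ ⟨false,0,⟨1,[(17,0)]⟩,⟨1,[(17,0),(1,1)]⟩⟩ ⟨true,0,⟨1,[(2,0)]⟩,⟨0,[(8,0),(5,0)]⟩⟩,.o ⟨false,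
  0,⟨1,[(7,0)]⟩,⟨3,[(9,0),(2,1),(3,0),(0,1)]⟩⟩]⟩) (.R ⟨0,false,false,false,[0,0,1],[1,-1],[1,0,0,0,
  0,1],(⟨0,[(8,0)]⟩,⟨0,[(8,0)]⟩),(⟨0,[(10,0)]⟩,⟨0,[(11,0)]⟩),⟨1,[(0,0)]⟩,.k,.k,(.r 0 ⟨1,[(15,1),(0,
  0)]⟩ ⟨1,[(3,1),(3,0),(11,1)]⟩),(.r 0 ⟨1,[(3,1),(3,0),(11,1)]⟩ ⟨1,[(15,1),(0,0)]⟩),.k,.k,⟨false,0,
  ⟨1,[(14,1),(2,0)]⟩,⟨1,[(15,1),(0,0)]⟩⟩,⟨true,0,⟨1,[(7,0)]⟩,⟨0,[(8,0)]⟩⟩,⟨true,0,⟨0,[]⟩,⟨0,[(19,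
  0)]⟩⟩,⟨false,1,⟨1,[(2,0),(14,0)]⟩,⟨0,[(3,0),(15,0)]⟩⟩,⟨false,0,⟨0,[]⟩,⟨0,[]⟩⟩,⟨false,0,⟨0,[]⟩,⟨0,
  []⟩⟩,[.o ⟨false,0,⟨0,[(1,0)]⟩,⟨0,[(14,0),(2,0),(1,0)]⟩⟩,.o ⟨false,1,⟨3,[(2,1),(6,0),(7,2),(1,1)]⟩,
  ⟨0,[(14,0)]⟩⟩,.a ⟨true,0,⟨0,[(8,0)]⟩,⟨0,[(8,0)]⟩⟩ ⟨false,0,⟨1,[(17,0)]⟩,⟨1,[(17,0),(1,1)]⟩⟩ ⟨true,
  0,⟨1,[(2,0)]⟩,⟨0,[(8,0),(5,0)]⟩⟩,.o ⟨false,0,⟨1,[(7,0)]⟩,⟨3,[(9,0),(2,1),(3,0),(0,1)]⟩⟩]⟩))) (.Q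
  [0,0,0,0,-1,0,1] (.ed false [1,-1,1] .k) (.R ⟨1,false,false,true,[0,0,1],[1,-1],[1,1,0,0,0,1],(⟨0,
  [(7,0)]⟩,⟨0,[(7,0)]⟩),(⟨0,[(9,0)]⟩,⟨0,[(10,0)]⟩),⟨0,[(0,0)]⟩,.k,.k,(.r 0 ⟨1,[(14,1),(0,0)]⟩ ⟨1,
  [(1,0),(4,0),(9,0),(1,1)]⟩),(.r 0 ⟨1,[(1,0),(4,0),(9,0),(1,1)]⟩ ⟨1,[(14,1),(0,0)]⟩),.k,.k,⟨false,
  0,⟨3,[(1,1),(6,0),(7,0),(1,1)]⟩,⟨1,[(14,1),(0,0)]⟩⟩,⟨true,0,⟨1,[(6,0)]⟩,⟨0,[(7,0)]⟩⟩,⟨false,0,⟨0,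
  []⟩,⟨0,[(16,0),(1,0)]⟩⟩,⟨false,1,⟨3,[(8,0),(5,3),(1,0),(1,1)]⟩,⟨0,[(2,0)]⟩⟩,⟨true,0,⟨0,[(13,0)]⟩,
  ⟨0,[(14,0)]⟩⟩,⟨false,1,⟨3,[(8,0),(7,0),(1,1)]⟩,⟨1,[(7,1),(8,0)]⟩⟩,[.o ⟨false,0,⟨0,[(5,0)]⟩,⟨3,[(1,
  1),(6,0),(7,2),(1,1)]⟩⟩,.e ⟨false,0,⟨1,[(15,0)]⟩,⟨1,[(16,0),(1,1)]⟩⟩ ⟨false,1,⟨3,[(8,0),(2,1),(2,
  3),(0,0),(0,1)]⟩,⟨1,[(1,0)]⟩⟩,.a ⟨true,0,⟨0,[(7,0)]⟩,⟨0,[(7,0)]⟩⟩ ⟨false,0,⟨1,[(16,0),(1,1)]⟩,⟨1,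
  [(16,0)]⟩⟩ ⟨true,0,⟨1,[(5,0),(8,0),(3,0)]⟩,⟨1,[(1,0)]⟩⟩,.o ⟨false,0,⟨1,[(6,0)]⟩,⟨3,[(8,0),(2,1),
  (3,0),(0,1)]⟩⟩]⟩) (.R ⟨0,false,false,true,[0,0,1],[1,-1],[0,1,0,0,0,1],(⟨0,[(7,0)]⟩,⟨0,[(7,0)]⟩),
  (⟨0,[(9,0)]⟩,⟨0,[(10,0)]⟩),⟨0,[(0,0)]⟩,.k,.k,(.r 0 ⟨1,[(14,1),(0,0)]⟩ ⟨1,[(1,0),(4,0),(9,0),(1,
  1)]⟩),(.r 0 ⟨1,[(1,0),(4,0),(9,0),(1,1)]⟩ ⟨1,[(14,1),(0,0)]⟩),.k,.k,⟨false,0,⟨3,[(1,1),(6,0),(7,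
  0),(1,1)]⟩,⟨1,[(14,1),(0,0)]⟩⟩,⟨true,0,⟨1,[(6,0)]⟩,⟨0,[(7,0)]⟩⟩,⟨true,0,⟨0,[(18,0)]⟩,⟨0,[]⟩⟩,
  ⟨false,1,⟨3,[(8,0),(5,3),(1,0),(1,1)]⟩,⟨0,[(2,0)]⟩⟩,⟨false,0,⟨0,[]⟩,⟨0,[]⟩⟩,⟨false,0,⟨0,[]⟩,⟨0,
  []⟩⟩,[.o ⟨false,0,⟨0,[(5,0)]⟩,⟨3,[(1,1),(6,0),(7,2),(1,1)]⟩⟩,.e ⟨false,0,⟨1,[(15,0)]⟩,⟨1,[(16,0),
  (1,1)]⟩⟩ ⟨false,1,⟨3,[(8,0),(2,1),(2,3),(0,0),(0,1)]⟩,⟨1,[(1,0)]⟩⟩,.a ⟨true,0,⟨0,[(7,0)]⟩,⟨0,[(7,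
  0)]⟩⟩ ⟨false,0,⟨1,[(16,0),(1,1)]⟩,⟨1,[(16,0)]⟩⟩ ⟨true,0,⟨1,[(5,0),(8,0),(3,0)]⟩,⟨1,[(1,0)]⟩⟩,.o
  ⟨false,0,⟨1,[(6,0)]⟩,⟨3,[(8,0),(2,1),(3,0),(0,1)]⟩⟩]⟩))) (.R ⟨2,true,false,true,[0,1],[0,0,1],[1,
  1,1,1],(⟨0,[]⟩,⟨0,[]⟩),(⟨0,[(5,0)]⟩,⟨0,[(5,0)]⟩),⟨0,[]⟩,.k,.k,.k,(.r (-1) ⟨1,[(11,1),(2,0),(0,
  1)]⟩ ⟨1,[(12,1),(0,0)]⟩),.k,.k,⟨false,1,⟨1,[(11,1),(2,0)]⟩,⟨1,[(12,1),(0,0)]⟩⟩,⟨true,0,⟨1,[(4,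
  0)]⟩,⟨0,[(5,0)]⟩⟩,⟨false,0,⟨0,[]⟩,⟨0,[(14,0),(1,0)]⟩⟩,⟨true,(-1),⟨0,[(0,0)]⟩,⟨1,[(5,1),(5,1),(2,
  0)]⟩⟩,⟨true,0,⟨0,[(11,0)]⟩,⟨0,[(12,0)]⟩⟩,⟨false,0,⟨3,[(6,0),(7,0),(1,1)]⟩,⟨1,[(5,1),(8,0)]⟩⟩,
  []⟩)) (.R ⟨2,false,false,false,[0,1],[0,0,1],[1,0,1,1],(⟨0,[]⟩,⟨0,[]⟩),(⟨0,[(4,0)]⟩,⟨0,[(4,0)]⟩),
  ⟨0,[]⟩,.k,.k,.k,(.r (-1) ⟨1,[(10,1),(2,0),(0,1)]⟩ ⟨1,[(11,1),(0,0)]⟩),.k,.k,⟨false,1,⟨1,[(10,1),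
  (2,0)]⟩,⟨1,[(11,1),(0,0)]⟩⟩,⟨true,0,⟨1,[(3,0)]⟩,⟨0,[(4,0)]⟩⟩,⟨true,0,⟨0,[]⟩,⟨0,[(15,0)]⟩⟩,⟨false,
  0,⟨0,[(1,0),(9,0)]⟩,⟨1,[(0,0),(9,1),(2,0),(0,0)]⟩⟩,⟨false,1,⟨0,[(10,0),(2,0)]⟩,⟨0,[(11,0)]⟩⟩,
  ⟨false,0,⟨0,[(1,0)]⟩,⟨1,[(0,0),(12,0),(0,0),(0,1)]⟩⟩,[.o ⟨false,0,⟨3,[(5,0),(7,0),(1,1)]⟩,⟨3,[(5,
  0),(7,0),(1,1)]⟩⟩,.o ⟨false,0,⟨0,[(1,0)]⟩,⟨3,[(5,0),(7,0),(1,5)]⟩⟩,.a ⟨true,0,⟨0,[(0,0)]⟩,⟨0,[(14,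
  0)]⟩⟩ ⟨true,0,⟨0,[(9,0),(0,0)]⟩,⟨0,[(0,0),(1,0)]⟩⟩ ⟨false,0,⟨1,[(3,0),(9,0)]⟩,⟨1,[(0,0),(7,0),(4,
  0)]⟩⟩,.e ⟨false,1,⟨0,[(10,0),(2,0)]⟩,⟨0,[(11,0)]⟩⟩ ⟨false,0,⟨0,[(1,0)]⟩,⟨1,[(0,0),(12,0),(0,0),(0,
  1)]⟩⟩]⟩)))

theorem ok : chk (cPW (-1)) tree base = true := by
  decide +kernel

theorem closed {p a b c J l q : ℤ} {D dl : ℝ} {Cl : ℤ → ℤ → ℤ → ℤ → ℝ → Prop}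
    (W : World p a b c J (-1) l q D dl Cl) (hE : KEmp p a b (-1) (P1 l p) Cl)
    (g : G0 p a b c J D)
    {N R : ℤ} {I : ℝ} (hu : WFac p D Cl N R I)
    (s0 : (c : ℝ) + 1 ≤ 0)
    (s1 : (a : ℝ) ≤ b)
    (s2 : (b : ℝ) + 1 ≤ 2 * a)
    (s3 : D < 2 * b)
    (s4 : -(a : ℝ) < -D - c) : False := by
  have g1 := g.a2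
  have g2 := g.b2
  have g3 := g.pa
  have g4 := g.pb
  have g5 := g.J1
  have g6 := g.JD
  have g7 := g.D2
  have g8 := g.ca
  have g9 := g.ca'
  have i1 := hu.I0
  have i2 := hu.ID
  have i3 : (2 : ℝ) * R = p := by exact_mod_cast hu.R2
  refine (val_PW W.toBase hu).sound W rfl (Nk := 0) (fun kf hkf hh => ?_) (kok_B hE (by simp [xv]) (by simp [xv]) 0) ?_ ok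
  · simp only [cPW, kfB, List.mem_cons, List.not_mem_nil, or_false] at hkf
    subst hkf
    exact absurd hh (by norm_num)
  · simp only [base, List.forall_mem_cons, List.not_mem_nil, false_imp_iff, implies_true,
      and_true, hld, xv, evg_cons, evg_nil, List.map_cons, List.map_nil, List.cons_append,
      List.nil_append, if_true, if_false, Bool.false_eq_true]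
    push_cast
    refine ⟨?_, ?_, ?_, ?_, ?_, ?_, ?_, ?_, ?_, ?_, ?_, ?_, ?_, ?_⟩ <;> linarith

end Helper25.KG.Pm1_35_m1_0_v2
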