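import Pool.Agent.Helper25.KG.PL

set_option autoImplicit false
set_option linter.unusedSectionVars false
set_option linter.unusedSimpArgs false

/-!
# The classes of `S1`, `p + l ≤ q`
-/

noncomputable section

namespace Helper25.KG

open Helper25.KW Helper55.KE Helper11.CT

/-- the `K` forms of `S1`: `dg = true`: the minimum is `w = a + ds s`, otherwise `y = b + ds x` -/
def kfM (ds : ℤ) (Z S : List ℤ) : Bool → List (ℕ × List (ℤ × ℤ × List ℤ))
  | true => [(1, [(0, Int.neg ds, axpy ds S []), (1, 0, [0, 0, 1]), (-1, 0, [0, 0, 1]),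
      (0, -1, [0, 1]), (0, 1, [0, 1])]),
    (1, [(Int.neg ds, 0, axpy ds S [0, 1, -1]), (1, 0, [0, 0, 1]), (-1, 0, [0, 0, 1]),
      (0, -1, [0, 1]), (0, 1, [0, 1])])]
  | false => [(1, [(Int.neg ds, 0, axpy ds Z []), (1, 0, [0, 0, 1]), (-1, 0, [0, 0, 1]),
      (0, -1, [0, 1]), (0, 1, [0, 1])]),
    (1, [(0, Int.neg ds, axpy ds Z [0, -1, 1]), (1, 0, [0, 0, 1]), (-1, 0, [0, 0, 1]),
      (0, -1, [0, 1]), (0, 1, [0, 1])])]

theorem kfM_flag {ds : ℤ} {Z S : List ℤ} {dg : Bool} {N : ℤ} {Ns : List ℤ} :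
    ∀ kf ∈ kfM ds Z S dg, 1 ≤ kf.1 → ∃ t, N :: Ns = N :: t := fun _ _ _ => ⟨_, rfl⟩

section

variable {p a b c J ds l q : ℤ} {D dl : ℝ} {Cl : ℤ → ℤ → ℤ → ℤ → ℝ → Prop}

theorem kok_M {N X R : ℤ} {I m : ℝ} (hM : KMin p a b ds (P1 l p) Cl N m) {dg : Bool}
    (hm : m = match dg with | true => a + ds * (X + ds * I + R) | false => b + ds * (X + ds * I))
    {x : List ℝ} {Z S : List ℤ} (hA : evg x [0, 1] = a) (hB : evg x [0, 0, 1] = b)
    (hZ : evg x Z = X + ds * I) (hS : evg x S = X + ds * I + R)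
    (hAB : evg x [0, 1, -1] = a - b) (hBA : evg x [0, -1, 1] = b - a) :
    ∀ kf ∈ kfM ds Z S dg, KOk p l Cl ds x N kf := by
  have hn : ((Int.neg ds : ℤ) : ℝ) = -(ds : ℝ) := by
    show ((-ds : ℤ) : ℝ) = _
    push_cast
    ring
  intro kf hkf
  cases dg
  · simp only [kfM, List.mem_cons, List.not_mem_nil, or_false] at hkf
    simp only at hm
    rcases hkf with rfl | rfl
    all_goals
      intro N' τ' X' R' I' hC ht h1 h2 h3 h4 h5 hg
      simp only [List.forall_mem_cons, List.not_mem_nil, false_imp_iff, implies_true, and_true,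
        evg_axpy, evg_nil, hA, hB, hZ, hBA, hn] at hg
      push_cast at hg
      obtain ⟨g0, g1, g2, g3, g4⟩ := hg
      obtain ⟨k1, k2⟩ := hM hC ht h1 h2 ⟨h3, h4⟩ (h5.imp_right (fun hh => hh.1 le_rfl))
        ⟨by linarith, by linarith, by linarith, by linarith⟩
      rw [hm] at k1 k2
      linarith
  · simp only [kfM, List.mem_cons, List.not_mem_nil, or_false] at hkf
    simp only at hm
    rcases hkf with rfl | rfl
    all_goals
      intro N' τ' X' R' I' hC ht h1 h2 h3 h4 h5 hg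
      simp only [List.forall_mem_cons, List.not_mem_nil, false_imp_iff, implies_true, and_true,
        evg_axpy, evg_nil, hA, hB, hS, hAB, hn] at hg
      push_cast at hg
      obtain ⟨g0, g1, g2, g3, g4⟩ := hg
      obtain ⟨k1, k2⟩ := hM hC ht h1 h2 ⟨h3, h4⟩ (h5.imp_right (fun hh => hh.1 le_rfl))
        ⟨by linarith, by linarith, by linarith, by linarith⟩
      rw [hm] at k1 k2
      linarith

/-- facts on `k` in real form -/
structure KF (a b : ℤ) (D z s I : ℝ) : Prop where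
  I0 : 0 < I
  ID : I < D
  z1 : -(b : ℝ) < z
  z2 : z < b
  s1 : -(a : ℝ) < s
  s2 : s < a

theorem KF.of {P : ℤ → Prop} {N X R : ℤ} {I : ℝ} (h : KGF p a b ds D P Cl N X R I) :
    KF a b D (X + ds * I) (X + ds * I + R) I :=
  ⟨h.I0, h.ID, h.bx.1, h.bx.2.1, h.bx.2.2.1, h.bx.2.2.2⟩

/-! ### no extra cluster -/

/-- class data: variables `1 a b c p J X r | D i` -/
def c1N (ds : ℤ) (dg : Bool) : Cls where
  nI := 8
  ds := ds
  P := [0, 0, 0, 0, 1]
  D := [0, 0, 0, 0, 0, 0, 0, 0, 1]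
  A := [0, 1]
  B := [0, 0, 1]
  C := [0, 0, 0, 1]
  J := [0, 0, 0, 0, 0, 1]
  gI := [[0, 0, 0, 0, 0, 0, 0, 0, 1], [0, 0, 0, 0, 0, 1], [0, 0, 0, 0, 0, 0, 0, 0, 0, 1]]
  gX := [[], [0, 0, -1, 0, 0, Int.neg ds], [0, 0, 0, 0, 0, 0, 1]]
  gR := [[], [0, 0, 1, 1], [0, 0, 0, 0, 0, 0, 0, 1]]
  known := [[1], [0, 1], [1, 1], [-1, 1]]
  kf := kfM ds [0, 0, 0, 0, 0, 0, 1, 0, 0, ds] [0, 0, 0, 0, 0, 0, 1, 1, 0, ds] dg

theorem val_1N (W : Base p a b c J ds l q D dl Cl) {N X R : ℤ} {I : ℝ}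
    (hk : KGF p a b ds D (P1 l p) Cl N X R I) (dg : Bool) :
    Val (c1N ds dg) p a b c J ds l q D dl Cl [1, a, b, c, p, J, X, R] [D, I] [N] := by
  have hn : Int.neg ds = -ds := rfl
  have hl := W.hl
  have hlp := W.hlp
  have k1 := hk.N0
  have k2 := hk.Np
  have k3 := hk.NP.1
  have k4 := hk.NP.2
  refine Val.mk W ⟨_, rfl⟩ rfl rfl ?_ rfl ?_ rfl ?_ rfl ?_ rfl ?_ rfl ?_ ?_ ?_
  · simp [c1N]
  · simp [c1N]
  · simp [c1N]
  · simp [c1N]
  · simp [c1N]
  · simp [c1N]
  · have g1 := W.cp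
    have g2 := W.cl
    have g3 := hk.cl
    have e1 : -b - ds * J = -b + -(ds * J) := by ring
    rw [e1] at g2
    simp only [c1N, GOk, List.length_cons, List.length_nil, List.replicate_succ,
      List.replicate_zero, evg_cons, evg_nil, List.map_cons, List.map_nil,
      List.cons_append, List.nil_append, hn]
    refine ⟨⟨?_, ?_, ?_⟩, ⟨?_, ?_, ?_⟩, ⟨?_, ?_, ?_⟩, trivial⟩ <;>
      simp only [Int.cast_zero, Int.cast_one, zero_mul, one_mul, mul_one, zero_add, add_zero,
        Int.cast_neg, neg_mul, Int.cast_add, Int.cast_mul, Int.cast_id, add_comm c b] <;>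
      first | exact g1 | (rw [add_comm c b] at g2; exact g2) | exact g3
  · intro w hw
    simp only [c1N, List.mem_cons, List.not_mem_nil, or_false] at hw
    rcases hw with rfl | rfl | rfl | rfl
    · simp only [evg_cons, evg_nil]
      simp only [Int.cast_zero, Int.cast_one, Int.cast_neg, Int.cast_ofNat, one_mul, neg_mul, zero_mul, zero_add, add_zero]
      exact nd_pos (by omega) hlp
    · simp only [evg_cons, evg_nil]
      simp only [Int.cast_zero, Int.cast_one, Int.cast_neg, Int.cast_ofNat, one_mul, neg_mul, zero_mul, zero_add, add_zero]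
      exact nd_pos k1 k2
    · simp only [evg_cons, evg_nil]
      simp only [Int.cast_zero, Int.cast_one, Int.cast_neg, Int.cast_ofNat, one_mul, neg_mul, zero_mul, zero_add, add_zero]
      intro h
      have h2 : p ∣ l + N - p := dvd_sub h (dvd_refl p)
      exact nd_abs (by omega) (by omega) (by omega) h2
    · simp only [evg_cons, evg_nil]
      simp only [Int.cast_zero, Int.cast_one, Int.cast_neg, Int.cast_ofNat, one_mul, neg_mul, zero_mul, zero_add, add_zero]
      exact nd_abs (by omega) (by omega) (by omega)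

/-! ### `u`, `v` -/

/-- class data of `u` (`tok = true`), `v`: variables `1 a b c p J X r ru | D i iu` -/
def c1U (ds : ℤ) (dg tok : Bool) : Cls where
  nI := 9
  ds := ds
  P := [0, 0, 0, 0, 1]
  D := [0, 0, 0, 0, 0, 0, 0, 0, 0, 1]
  A := [0, 1]
  B := [0, 0, 1]
  C := [0, 0, 0, 1]
  J := [0, 0, 0, 0, 0, 1]
  gI := [[0, 0, 0, 0, 0, 0, 0, 0, 0, 1], [0, 0, 0, 0, 0, 1], [0, 0, 0, 0, 0, 0, 0, 0, 0, 0, 1],
    [0, 0, 0, 0, 0, 0, 0, 0, 0, 0, 0, 1]]
  gX := [[], [0, 0, -1, 0, 0, Int.neg ds], [0, 0, 0, 0, 0, 0, 1],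
    match tok with | true => [0, 0, 1] | false => []]
  gR := [[], [0, 0, 1, 1], [0, 0, 0, 0, 0, 0, 0, 1], [0, 0, 0, 0, 0, 0, 0, 0, 1]]
  known := [1] :: [0, 1] :: [1, 1] :: [-1, 1] :: [0, 0, 1] ::
    (match tok with | true => [] | false => [[0, 0, 2]])
  kf := kfM ds [0, 0, 0, 0, 0, 0, 1, 0, 0, 0, ds] [0, 0, 0, 0, 0, 0, 1, 1, 0, 0, ds] dg

theorem val_1U (W : Base p a b c J ds l q D dl Cl) {N X R : ℤ} {I : ℝ}
    (hk : KGF p a b ds D (P1 l p) Cl N X R I) {tok : Bool} {Nu Ru : ℤ} {Iu : ℝ}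
    (hu : UV p b D Cl tok Nu Ru Iu) (dg : Bool) :
    Val (c1U ds dg tok) p a b c J ds l q D dl Cl [1, a, b, c, p, J, X, R, Ru] [D, I, Iu] [N, Nu] := by
  have hn : Int.neg ds = -ds := rfl
  have hl := W.hl
  have hlp := W.hlp
  have k1 := hk.N0
  have k2 := hk.Np
  have k3 := hk.NP.1
  have k4 := hk.NP.2
  have u1 := hu.N0
  have u2 := hu.Np
  refine Val.mk W ⟨_, rfl⟩ rfl rfl ?_ rfl ?_ rfl ?_ rfl ?_ rfl ?_ rfl ?_ ?_ ?_
  · simp [c1U]
  · simp [c1U]
  · simp [c1U]
  · simp [c1U]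
  · simp [c1U]
  · simp [c1U]
  · have g1 := W.cp
    have g2 := W.cl
    have g3 := hk.cl
    have g4 := hu.cl
    have e1 : -b - ds * J = -b + -(ds * J) := by ring
    rw [e1] at g2
    cases tok
    · simp only [c1U, GOk, List.length_cons, List.length_nil, List.replicate_succ,
        List.replicate_zero, evg_cons, evg_nil, List.map_cons, List.map_nil,
        List.cons_append, List.nil_append, hn]
      refine ⟨⟨?_, ?_, ?_⟩, ⟨?_, ?_, ?_⟩, ⟨?_, ?_, ?_⟩, ⟨?_, ?_, ?_⟩, trivial⟩ <;>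
        simp only [Int.cast_zero, Int.cast_one, zero_mul, one_mul, mul_one, zero_add, add_zero,
          Int.cast_neg, neg_mul, Int.cast_add, Int.cast_mul, Int.cast_id, add_comm c b] <;>
        first | exact g1 | (rw [add_comm c b] at g2; exact g2) | exact g3 | exact g4
    · simp only [c1U, GOk, List.length_cons, List.length_nil, List.replicate_succ,
        List.replicate_zero, evg_cons, evg_nil, List.map_cons, List.map_nil,
        List.cons_append, List.nil_append, hn]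
      refine ⟨⟨?_, ?_, ?_⟩, ⟨?_, ?_, ?_⟩, ⟨?_, ?_, ?_⟩, ⟨?_, ?_, ?_⟩, trivial⟩ <;>
        simp only [Int.cast_zero, Int.cast_one, zero_mul, one_mul, mul_one, zero_add, add_zero,
          Int.cast_neg, neg_mul, Int.cast_add, Int.cast_mul, Int.cast_id, add_comm c b] <;>
        first | exact g1 | (rw [add_comm c b] at g2; exact g2) | exact g3 | exact g4
  · intro w hw
    simp only [c1U, List.mem_cons] at hw
    rcases hw with rfl | rfl | rfl | rfl | rfl | hw
    · simp only [evg_cons, evg_nil]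
      simp only [Int.cast_zero, Int.cast_one, Int.cast_neg, Int.cast_ofNat, one_mul, neg_mul, zero_mul, zero_add, add_zero]
      exact nd_pos (by omega) hlp
    · simp only [evg_cons, evg_nil]
      simp only [Int.cast_zero, Int.cast_one, Int.cast_neg, Int.cast_ofNat, one_mul, neg_mul, zero_mul, zero_add, add_zero]
      exact nd_pos k1 k2
    · simp only [evg_cons, evg_nil]
      simp only [Int.cast_zero, Int.cast_one, Int.cast_neg, Int.cast_ofNat, one_mul, neg_mul, zero_mul, zero_add, add_zero]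
      intro h
      have h2 : p ∣ l + N - p := dvd_sub h (dvd_refl p)
      exact nd_abs (by omega) (by omega) (by omega) h2
    · simp only [evg_cons, evg_nil]
      simp only [Int.cast_zero, Int.cast_one, Int.cast_neg, Int.cast_ofNat, one_mul, neg_mul, zero_mul, zero_add, add_zero]
      exact nd_abs (by omega) (by omega) (by omega)
    · simp only [evg_cons, evg_nil]
      simp only [Int.cast_zero, Int.cast_one, Int.cast_neg, Int.cast_ofNat, one_mul, neg_mul, zero_mul, zero_add, add_zero]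
      exact nd_pos u1 u2
    · cases tok
      · simp only [List.mem_cons, List.not_mem_nil, or_false] at hw
        subst hw
        simp only [evg_cons, evg_nil]
        simp only [Int.cast_zero, zero_mul, zero_add, add_zero]
        have u3 := hu.ID.2
        exact nd_pos (by push_cast; omega) (by push_cast; omega)
      · exact absurd hw (by simp)

/-! ### `v2` -/

/-- class data of `v2`: variables `1 a b c J X r ru | i iu`, `p = 2 ru`, `D = 2 iu` -/
def c1W (ds : ℤ) (dg : Bool) : Cls where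
  nI := 8
  ds := ds
  P := [0, 0, 0, 0, 0, 0, 0, 2]
  D := [0, 0, 0, 0, 0, 0, 0, 0, 0, 2]
  A := [0, 1]
  B := [0, 0, 1]
  C := [0, 0, 0, 1]
  J := [0, 0, 0, 0, 1]
  gI := [[0, 0, 0, 0, 0, 0, 0, 0, 0, 2], [0, 0, 0, 0, 1], [0, 0, 0, 0, 0, 0, 0, 0, 1],
    [0, 0, 0, 0, 0, 0, 0, 0, 0, 1]]
  gX := [[], [0, 0, -1, 0, Int.neg ds], [0, 0, 0, 0, 0, 1], []]
  gR := [[], [0, 0, 1, 1], [0, 0, 0, 0, 0, 0, 1], [0, 0, 0, 0, 0, 0, 0, 1]]
  known := [[1], [0, 1], [1, 1], [-1, 1], [0, 0, 1]]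
  kf := kfM ds [0, 0, 0, 0, 0, 1, 0, 0, ds] [0, 0, 0, 0, 0, 1, 1, 0, ds] dg

theorem val_1W (W : Base p a b c J ds l q D dl Cl) {N X R : ℤ} {I : ℝ}
    (hk : KGF p a b ds D (P1 l p) Cl N X R I) {Nu Ru : ℤ} {Iu : ℝ}
    (hu : WFac p D Cl Nu Ru Iu) (dg : Bool) :
    Val (c1W ds dg) p a b c J ds l q D dl Cl [1, a, b, c, J, X, R, Ru] [I, Iu] [N, Nu] := by
  have hn : Int.neg ds = -ds := rfl
  have hl := W.hl
  have hlp := W.hlp
  have k1 := hk.N0
  have k2 := hk.Np
  have k3 := hk.NP.1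
  have k4 := hk.NP.2
  have u1 := hu.N0
  have u2 := hu.Np
  have u3 := hu.ID
  have u4 := hu.R2
  refine Val.mk W ⟨_, rfl⟩ rfl rfl ?_ rfl ?_ rfl ?_ rfl ?_ rfl ?_ rfl ?_ ?_ ?_
  · simp [c1W]; omega
  · simp [c1W]
  · simp [c1W]
  · simp [c1W]
  · simp [c1W]
  · simp [c1W]; linarith
  · have g1 := W.cp
    have g2 := W.cl
    have g3 := hk.cl
    have g4 := hu.cl
    have e2 : ((2 : ℤ) : ℝ) * Iu = D := by push_cast; linarith
    have e1 : -b - ds * J = -b + -(ds * J) := by ring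
    rw [e1] at g2
    simp only [c1W, GOk, List.length_cons, List.length_nil, List.replicate_succ,
      List.replicate_zero, evg_cons, evg_nil, List.map_cons, List.map_nil,
      List.cons_append, List.nil_append, hn]
    refine ⟨⟨?_, ?_, ?_⟩, ⟨?_, ?_, ?_⟩, ⟨?_, ?_, ?_⟩, ⟨?_, ?_, ?_⟩, trivial⟩ <;>
      simp only [Int.cast_zero, Int.cast_one, zero_mul, one_mul, mul_one, zero_add, add_zero,
        Int.cast_neg, neg_mul, Int.cast_add, Int.cast_mul, Int.cast_id, add_comm c b, e2] <;>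
      first | exact g1 | (rw [add_comm c b] at g2; exact g2) | exact g3 | exact g4
  · intro w hw
    simp only [c1W, List.mem_cons, List.not_mem_nil, or_false] at hw
    rcases hw with rfl | rfl | rfl | rfl | rfl
    · simp only [evg_cons, evg_nil]
      simp only [Int.cast_zero, Int.cast_one, Int.cast_neg, Int.cast_ofNat, one_mul, neg_mul, zero_mul, zero_add, add_zero]
      exact nd_pos (by omega) hlp
    · simp only [evg_cons, evg_nil]
      simp only [Int.cast_zero, Int.cast_one, Int.cast_neg, Int.cast_ofNat, one_mul, neg_mul, zero_mul, zero_add, add_zero]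
      exact nd_pos k1 k2
    · simp only [evg_cons, evg_nil]
      simp only [Int.cast_zero, Int.cast_one, Int.cast_neg, Int.cast_ofNat, one_mul, neg_mul, zero_mul, zero_add, add_zero]
      intro h
      have h2 : p ∣ l + N - p := dvd_sub h (dvd_refl p)
      exact nd_abs (by omega) (by omega) (by omega) h2
    · simp only [evg_cons, evg_nil]
      simp only [Int.cast_zero, Int.cast_one, Int.cast_neg, Int.cast_ofNat, one_mul, neg_mul, zero_mul, zero_add, add_zero]
      exact nd_abs (by omega) (by omega) (by omega)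
    · simp only [evg_cons, evg_nil]
      simp only [Int.cast_zero, Int.cast_one, Int.cast_neg, Int.cast_ofNat, one_mul, neg_mul, zero_mul, zero_add, add_zero]
      exact nd_pos u1 (by omega)

end

end Helper25.KG
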