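import Pool.Agent.Helper25.KG.S1b

set_option autoImplicit false

/-!
# Facts for the case distinctions of the classes of `S1`
-/

namespace Helper25.KG

open Helper25.KW Helper55.KE Helper11.CT

section

variable {p a b c J ds l q : ℤ} {D dl : ℝ} {Cl : ℤ → ℤ → ℤ → ℤ → ℝ → Prop}

theorem ne_iJ (W : World p a b c J ds l q D dl Cl) {N X R : ℤ} {I : ℝ}
    (hk : KCl p l Cl N X R I) (m : ℤ) : I - J ≠ m := by
  have h1 := hk.N0
  have h2 := hk.Np
  have h3 := W.hl
  have h4 := W.hlp
  exact W.nint hk.cl W.cl (by norm_num) h1 h2 (by omega) (by omega) (by omega) m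

theorem ne_iJD (W : World p a b c J ds l q D dl Cl) {N X R : ℤ} {I : ℝ}
    (hk : KCl p l Cl N X R I) (m : ℤ) : I + J - D ≠ m := by
  have h1 := hk.N0
  have h2 := hk.Np
  have h3 := W.hl
  have h4 := W.hlp
  have h5 := W.add W.cp (W.neg W.cl)
  have h6 := W.nint hk.cl h5 (by norm_num) h1 h2 (by omega) (by omega) (by omega) m
  intro h
  apply h6
  rw [← h]
  ring

theorem ne_DA (W : World p a b c J ds l q D dl Cl) (A : ℤ) : D ≠ A := by
  have h3 := W.hl
  have h4 := W.hlp
  intro h
  refine W.nint W.cl W.cp (by norm_num) (by omega) (by omega) (by omega) (by omega) (by omega)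
    (J - A) ?_
  rw [h]
  push_cast
  ring

end

end Helper25.KG
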